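import Pool.Agent.Lead.KK.Spec

/-! Zero counting in discs (packages JEN and ZER). -/

set_option autoImplicit false
open Complex Metric Set Filter Topology

namespace Pool.Agent.H97.KK

lemma factor_one {F : ℂ → ℂ} (hF : Differentiable ℂ F) (hne : F ≠ 0) (a : ℂ) :
    ∃ G : ℂ → ℂ, Differentiable ℂ G ∧ G a ≠ 0 ∧
      ∀ z, F z = (z - a) ^ analyticOrderNatAt F a * G z := by
  classical
  have hA : ∀ z, AnalyticAt ℂ F z := fun z => hF.analyticAt z
  have htop : analyticOrderAt F a ≠ ⊤ := fun h =>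
    hne ((AnalyticOnNhd.analyticOrderAt_eq_top_iff_eq_zero a hA).1 h)
  obtain ⟨g, hg, hg0, hev⟩ := (hA a).analyticOrderAt_ne_top.1 htop
  set n := analyticOrderNatAt F a
  refine ⟨fun z => if z = a then g a else F z / (z - a) ^ n, fun z => ?_, by simpa using hg0,
    fun z => ?_⟩
  · by_cases hz : z = a
    · subst hz
      refine hg.differentiableAt.congr_of_eventuallyEq ?_
      filter_upwards [hev] with w hw
      by_cases hwz : w = z
      · simp [hwz]
      · simp only [if_neg hwz, hw, smul_eq_mul]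
        field_simp [pow_ne_zero n (sub_ne_zero.2 hwz)]
    · have h1 : DifferentiableAt ℂ (fun w => F w / (w - a) ^ n) z :=
        (hF z).div ((differentiableAt_id.sub_const a).pow n) (pow_ne_zero n (sub_ne_zero.2 hz))
      refine h1.congr_of_eventuallyEq ?_
      filter_upwards [isOpen_ne.mem_nhds hz] with w hw
      simp [hw]
  · by_cases hz : z = a
    · subst hz
      simpa using hev.self_of_nhds
    · simp only [if_neg hz]
      field_simp [pow_ne_zero n (sub_ne_zero.2 hz)]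

lemma factor (S : Finset ℂ) : ∀ {F : ℂ → ℂ}, Differentiable ℂ F → F ≠ 0 →
    ∃ G : ℂ → ℂ, Differentiable ℂ G ∧ (∀ ρ ∈ S, G ρ ≠ 0) ∧
      ∀ z, F z = (∏ ρ ∈ S, (z - ρ) ^ analyticOrderNatAt F ρ) * G z := by
  classical
  induction S using Finset.induction_on with
  | empty => exact fun {F} hF _ => ⟨F, hF, by simp, by simp⟩
  | insert a S ha ih =>
    intro F hF hne
    obtain ⟨G₁, h1, h2, h3⟩ := factor_one hF hne a
    have hne1 : G₁ ≠ 0 := fun h => h2 (by simp [h])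
    obtain ⟨G, h4, h5, h6⟩ := ih h1 hne1
    have hord : ∀ ρ ∈ S, analyticOrderNatAt G₁ ρ = analyticOrderNatAt F ρ := by
      intro ρ hρ
      have hρa : ρ ≠ a := fun h => ha (h ▸ hρ)
      have e : F = (fun z => (z - a) ^ analyticOrderNatAt F a) * G₁ := funext h3
      have hp : AnalyticAt ℂ (fun z : ℂ => (z - a) ^ analyticOrderNatAt F a) ρ := by fun_prop
      have e2 : analyticOrderAt F ρ = analyticOrderAt G₁ ρ := by
        conv_lhs => rw [e]
        rw [analyticOrderAt_mul hp (h1.analyticAt ρ),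
          hp.analyticOrderAt_eq_zero.2 (pow_ne_zero _ (sub_ne_zero.2 hρa)), zero_add]
      simp only [analyticOrderNatAt, e2]
    refine ⟨G, h4, fun ρ hρ => ?_, fun z => ?_⟩
    · rcases Finset.mem_insert.1 hρ with rfl | hρ
      · intro h
        exact h2 (by rw [h6, h, mul_zero])
      · exact h5 ρ hρ
    · rw [Finset.prod_insert ha, h3 z, h6 z, mul_assoc]
      congr 2
      exact Finset.prod_congr rfl fun ρ hρ => by rw [hord ρ hρ]

lemma norm_prod_le (S : Finset ℂ) (n : ℂ → ℕ) (u : ℂ → ℂ) (t : ℝ) (h : ∀ ρ ∈ S, ‖u ρ‖ ≤ t) :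
    ‖∏ ρ ∈ S, u ρ ^ n ρ‖ ≤ t ^ ∑ ρ ∈ S, n ρ := by
  rw [norm_prod, ← Finset.prod_pow_eq_pow_sum]
  refine Finset.prod_le_prod (fun _ _ => norm_nonneg _) fun ρ hρ => ?_
  rw [norm_pow]
  exact pow_le_pow_left₀ (norm_nonneg _) (h ρ hρ) _

lemma le_norm_prod (S : Finset ℂ) (n : ℂ → ℕ) (u : ℂ → ℂ) (t : ℝ) (ht : 0 ≤ t)
    (h : ∀ ρ ∈ S, t ≤ ‖u ρ‖) : t ^ ∑ ρ ∈ S, n ρ ≤ ‖∏ ρ ∈ S, u ρ ^ n ρ‖ := by
  rw [norm_prod, ← Finset.prod_pow_eq_pow_sum]
  refine Finset.prod_le_prod (fun _ _ => by positivity) fun ρ hρ => ?_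
  rw [norm_pow]
  exact pow_le_pow_left₀ ht (h ρ hρ) _

lemma maxp {G : ℂ → ℂ} (hG : Differentiable ℂ G) {c : ℂ} {r C : ℝ} (hr : 0 < r)
    (h : ∀ z, ‖z - c‖ = r → ‖G z‖ ≤ C) {z : ℂ} (hz : ‖z - c‖ ≤ r) : ‖G z‖ ≤ C := by
  refine norm_le_of_forall_mem_frontier_norm_le (U := ball c r) isBounded_ball
    hG.diffContOnCl (fun w hw => h w ?_) ?_
  · rw [frontier_ball _ hr.ne'] at hw
    exact mem_sphere_iff_norm.1 hw
  · rw [closure_ball _ hr.ne']
    exact mem_closedBall_iff_norm.2 hz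

theorem jen : Pool.Agent.Lead.KK.JEN := by
  intro F c r B hF hr hc hB S hS
  have hne : F ≠ 0 := fun h => hc (by simp [h])
  obtain ⟨G, hG, -, hfac⟩ := factor S hF hne
  set m := ∑ ρ ∈ S, analyticOrderNatAt F ρ with hm
  have h2r : 0 < (2 * r) ^ m := by positivity
  have h1 : ‖G c‖ ≤ B / (2 * r) ^ m := by
    refine maxp hG (r := 3 * r) (by positivity) (fun z hz => ?_) (by rw [sub_self, norm_zero]; positivity)
    have h2 := le_norm_prod S (analyticOrderNatAt F) (fun ρ => z - ρ) (2 * r) (by positivity)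
      (fun ρ hρ => by
        have h3 := hS ρ hρ
        have h4 : z - c = (z - ρ) + (ρ - c) := by ring
        have h5 := norm_add_le (z - ρ) (ρ - c)
        rw [← h4] at h5
        linarith)
    have h3 := hB z hz.le
    rw [hfac z, norm_mul] at h3
    rw [le_div_iff₀ h2r]
    nlinarith [norm_nonneg (G z)]
  have h2 := norm_prod_le S (analyticOrderNatAt F) (fun ρ => c - ρ) r
    (fun ρ hρ => by rw [norm_sub_rev]; exact hS ρ hρ)
  have hc0 : 0 < ‖F c‖ := norm_pos_iff.2 hc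
  have h3 : ‖F c‖ ≤ B / 2 ^ m := by
    calc ‖F c‖ = ‖∏ ρ ∈ S, (c - ρ) ^ analyticOrderNatAt F ρ‖ * ‖G c‖ := by
          rw [hfac c, norm_mul]
      _ ≤ r ^ m * (B / (2 * r) ^ m) := by gcongr
      _ = B / 2 ^ m := by rw [mul_pow]; field_simp
  have h4 : (2 : ℝ) ^ m ≤ B / ‖F c‖ := by
    rw [le_div_iff₀ (by positivity)] at h3
    rw [le_div_iff₀ hc0]; linarith
  have h5 := Real.log_le_log (by positivity) h4
  rw [Real.log_pow] at h5
  have h6 := Real.log_two_gt_d9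
  have h7 : (∑ z ∈ S, (analyticOrderNatAt F z : ℝ)) = (m : ℝ) := by rw [hm]; push_cast; rfl
  rw [h7]
  have : (0 : ℝ) ≤ m := Nat.cast_nonneg m
  nlinarith

/-- holomorphic logarithm on a disc -/
lemma exists_log {H : ℂ → ℂ} {r : ℝ} (hr : 0 < r) (hH : Differentiable ℂ H)
    (hne : ∀ w ∈ ball (0 : ℂ) r, H w ≠ 0) :
    ∃ g : ℂ → ℂ, DifferentiableOn ℂ g (ball 0 r) ∧ g 0 = 0 ∧
      ∀ w ∈ ball (0 : ℂ) r, H w = H 0 * exp (g w) := by
  have h1 : DifferentiableOn ℂ (fun w => deriv H w / H w) (ball 0 r) :=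
    (hH.deriv.differentiableOn).div hH.differentiableOn hne
  obtain ⟨g, hg0, hg⟩ := h1.isExactOn_ball.with_val_at 0 0
  have hgd : DifferentiableOn ℂ g (ball 0 r) := fun w hw =>
    (hg w hw).differentiableAt.differentiableWithinAt
  refine ⟨g, hgd, hg0, fun w hw => ?_⟩
  have h2 : ∀ x ∈ ball (0 : ℂ) r, HasDerivAt (fun w => H w * exp (-g w)) 0 x := by
    intro x hx
    have := (hH x).hasDerivAt.mul (hg x hx).neg.cexp
    refine this.congr_deriv ?_
    have := hne x hx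
    simp only [Pi.neg_apply]
    field_simp
    ring
  have h3 := isOpen_ball.is_const_of_deriv_eq_zero (convex_ball (0 : ℂ) r).isPreconnected
    (fun x hx => (h2 x hx).differentiableAt.differentiableWithinAt)
    (fun x hx => (h2 x hx).deriv) hw (mem_ball_self hr)
  simp only [hg0, neg_zero, exp_zero, mul_one] at h3
  rw [← h3, mul_assoc, ← exp_add]
  simp

/-- three circles with an integer exponent -/
lemma three {g : ℂ → ℂ} (hg : DifferentiableOn ℂ g (ball 0 3)) {a b : ℝ}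
    (ha : ∀ w : ℂ, ‖w‖ ≤ 1 / 4 → ‖g w‖ ≤ a) (hb : ∀ w : ℂ, ‖w‖ ≤ 5 / 2 → ‖g w‖ ≤ b) (q : ℕ)
    {w : ℂ} (hw : ‖w‖ ≤ 2) : ‖g w‖ ≤ a * 8 ^ q + b * (4 / 5) ^ q := by
  have ha0 : 0 ≤ a := (norm_nonneg _).trans (ha 0 (by simp))
  have hb0 : 0 ≤ b := (norm_nonneg _).trans (hb 0 (by simp; norm_num))
  by_cases h4 : ‖w‖ ≤ 1 / 4
  · have h1 : (1 : ℝ) ≤ 8 ^ q := one_le_pow₀ (by norm_num)
    have h2 : 0 ≤ b * (4 / 5) ^ q := by positivity
    have := ha w h4
    nlinarith
  push Not at h4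
  set U : Set ℂ := ball 0 (5 / 2) ∩ (closedBall 0 (1 / 4))ᶜ with hU
  have hcl : ∀ z ∈ closure U, ‖z‖ ≤ 5 / 2 ∧ 1 / 4 ≤ ‖z‖ := by
    intro z hz
    have hc : IsClosed {z : ℂ | ‖z‖ ≤ 5 / 2 ∧ 1 / 4 ≤ ‖z‖} :=
      (isClosed_le continuous_norm continuous_const).inter
        (isClosed_le continuous_const continuous_norm)
    refine closure_minimal (fun z hz => ?_) hc hz
    exact ⟨(mem_ball_zero_iff.1 hz.1).le, (not_le.1 (fun h => hz.2 (mem_closedBall_zero_iff.2 h))).le⟩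
  have key : ‖g w / w ^ q‖ ≤ a * 4 ^ q + b * (2 / 5) ^ q := by
    refine norm_le_of_forall_mem_frontier_norm_le (f := fun z => g z / z ^ q) (U := U)
      (isBounded_ball.subset inter_subset_left) (DifferentiableOn.diffContOnCl ?_)
      (fun z hz => ?_) (subset_closure ⟨?_, ?_⟩)
    · intro z hz
      obtain ⟨h1, h2⟩ := hcl z hz
      have hz0 : z ≠ 0 := by rintro rfl; simp at h2; linarith
      exact ((hg.differentiableAt (isOpen_ball.mem_nhds (mem_ball_zero_iff.2 (by linarith)))).div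
        (differentiableAt_id.pow q) (pow_ne_zero q hz0)).differentiableWithinAt
    · have h1 := frontier_inter_subset _ _ hz
      rw [frontier_compl, frontier_ball _ (by norm_num), frontier_closedBall _ (by norm_num)] at h1
      have p1 : 0 ≤ a * 4 ^ q := by positivity
      have p2 : 0 ≤ b * (2 / 5) ^ q := by positivity
      rcases h1 with h1 | h1
      · have h2 := mem_sphere_zero_iff_norm.1 h1.1
        have h3 := hb z h2.le
        rw [norm_div, norm_pow, h2]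
        have : ‖g z‖ / (5 / 2) ^ q ≤ b * (2 / 5) ^ q := by
          rw [div_le_iff₀ (by positivity), mul_assoc, ← mul_pow]; norm_num; exact h3
        linarith
      · have h2 := mem_sphere_zero_iff_norm.1 h1.2
        have h3 := ha z h2.le
        rw [norm_div, norm_pow, h2]
        have : ‖g z‖ / (1 / 4) ^ q ≤ a * 4 ^ q := by
          rw [div_le_iff₀ (by positivity), mul_assoc, ← mul_pow]; norm_num; exact h3
        linarith
    · exact mem_ball_zero_iff.2 (by linarith)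
    · exact fun h => absurd (mem_closedBall_zero_iff.1 h) (not_le.2 h4)
  have hw0 : 0 < ‖w‖ := by linarith
  rw [norm_div, norm_pow, div_le_iff₀ (by positivity)] at key
  calc ‖g w‖ ≤ (a * 4 ^ q + b * (2 / 5) ^ q) * ‖w‖ ^ q := key
    _ ≤ (a * 4 ^ q + b * (2 / 5) ^ q) * 2 ^ q := by gcongr
    _ = _ := by
      rw [add_mul, mul_assoc, mul_assoc, ← mul_pow, ← mul_pow]; norm_num

theorem zer : Pool.Agent.Lead.KK.ZER := by
  intro η hη
  obtain ⟨q, hq⟩ := exists_pow_lt_of_lt_one (show 0 < η / 90 by positivity)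
    (show (4 / 5 : ℝ) < 1 by norm_num)
  set d : ℝ := min 1 (η / (3 * (8 * 8 ^ q + 4))) with hd
  have hd0 : 0 < d := lt_min one_pos (by positivity)
  have hd1 : d ≤ 1 := min_le_left _ _
  have hd2 : d * (8 * 8 ^ q + 4) ≤ η / 3 := by
    have := min_le_right 1 (η / (3 * (8 * 8 ^ q + 4)))
    rw [← hd, le_div_iff₀ (by positivity)] at this
    linarith
  refine ⟨d / 2, 2 / d, by positivity, ?_⟩
  intro F c R M hF hR hM hup hone ⟨z₁, hz₁, hbig⟩
  have hM0 : 0 < M := lt_of_lt_of_le (by positivity) hM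
  have hnz : ∀ z, ‖z - c‖ ≤ R → 1 / 2 ≤ ‖F z‖ ∧ ‖F z‖ ≤ 3 / 2 := by
    intro z hz
    have h1 := hone z hz
    have h2 := norm_sub_norm_le 1 (F z)
    have h3 := norm_sub_norm_le (F z) 1
    rw [norm_sub_rev] at h2
    rw [norm_one] at h2 h3
    constructor <;> linarith
  have hc : F c ≠ 0 := by
    have := (hnz c (by simpa using hR.le)).1
    intro h; rw [h, norm_zero] at this; linarith
  have hne : F ≠ 0 := fun h => hc (by simp [h])
  have hfin : (closedBall c (3 * R) \ F ⁻¹' {0}ᶜ).Finite := by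
    refine (isCompact_closedBall _ _).finite_sdiff_of_mem_codiscreteWithin ?_
    exact codiscreteWithin_mono (subset_univ _)
      (AnalyticOnNhd.preimage_zero_mem_codiscrete (fun z _ => hF.analyticAt z) hc)
  set S := hfin.toFinset with hS
  have hSmem : ∀ z, z ∈ S ↔ ‖z - c‖ ≤ 3 * R ∧ F z = 0 := by
    intro z
    simp [hS, dist_eq_norm]
  refine ⟨S, fun z hz => ((hSmem z).1 hz).1, ?_⟩
  obtain ⟨G, hG, hGS, hfac⟩ := factor S hF hne
  set m := ∑ ρ ∈ S, analyticOrderNatAt F ρ with hm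
  have h7 : (∑ z ∈ S, (analyticOrderNatAt F z : ℝ)) = (m : ℝ) := by rw [hm]; push_cast; rfl
  rw [h7]
  have hm0 : (0 : ℝ) ≤ m := Nat.cast_nonneg m
  by_contra hcon
  push Not at hcon
  have hmd : (m : ℝ) + 1 ≤ d * M := by
    rw [div_le_iff₀ hd0] at hM
    linarith
  have hRc : (R : ℂ) ≠ 0 := by exact_mod_cast hR.ne'
  set H : ℂ → ℂ := fun w => (R : ℂ) ^ m * G (c + R * w) with hH
  set Q : ℂ → ℂ := fun w => ∏ ρ ∈ S, (w - (ρ - c) / R) ^ analyticOrderNatAt F ρ with hQ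
  have hHd : Differentiable ℂ H :=
    (hG.comp ((differentiable_id.const_mul _).const_add _)).const_mul _
  have hFQ : ∀ w, F (c + R * w) = Q w * H w := by
    intro w
    rw [hfac, hQ, hH]
    simp only
    rw [← mul_assoc, hm, ← Finset.prod_pow_eq_pow_sum, ← Finset.prod_mul_distrib]
    congr 1
    refine Finset.prod_congr rfl fun ρ _ => ?_
    rw [← mul_pow]
    congr 1
    field_simp
    ring
  have hnorm : ∀ w : ℂ, ‖c + R * w - c‖ = R * ‖w‖ := by
    intro w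
    rw [add_sub_cancel_left, norm_mul, norm_real, Real.norm_eq_abs, abs_of_pos hR]
  have hρ : ∀ ρ ∈ S, 1 ≤ ‖(ρ - c) / R‖ ∧ ‖(ρ - c) / R‖ ≤ 3 := by
    intro ρ hρ
    obtain ⟨h1, h2⟩ := (hSmem ρ).1 hρ
    rw [norm_div, norm_real, Real.norm_eq_abs, abs_of_pos hR, le_div_iff₀ hR, div_le_iff₀ hR]
    refine ⟨?_, h1⟩
    by_contra h3
    have := (hnz ρ (by linarith)).1
    rw [h2, norm_zero] at this; linarith
  have Qup : ∀ w : ℂ, ∀ t : ℝ, ‖w‖ ≤ t → ‖Q w‖ ≤ (t + 3) ^ m := fun w t hw =>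
    norm_prod_le S _ _ _ fun ρ h => (norm_sub_le _ _).trans (by have := (hρ ρ h).2; linarith)
  have Hup : ∀ w : ℂ, ‖w‖ ≤ 4 → ‖H w‖ ≤ Real.exp M := by
    intro w hw
    refine maxp hHd (c := 0) (r := 4) (by norm_num) (fun z hz => ?_) (by simpa using hw)
    rw [sub_zero] at hz
    have h1 : (1 : ℝ) ^ m ≤ ‖Q z‖ := le_norm_prod S _ _ _ zero_le_one fun ρ h => by
      have := (hρ ρ h).2
      have h2 := norm_sub_norm_le z ((ρ - c) / R)
      linarith
    have h2 := hup (c + R * z) (by rw [hnorm, hz]; linarith)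
    rw [hFQ, norm_mul] at h2
    rw [one_pow] at h1
    nlinarith [norm_nonneg (H z)]
  have hHne : ∀ w ∈ ball (0 : ℂ) 3, H w ≠ 0 := by
    intro w hw
    refine mul_ne_zero (pow_ne_zero _ hRc) fun h => ?_
    have h1 : c + R * w ∈ S := by
      rw [hSmem, hnorm, hfac, h, mul_zero]
      have := mem_ball_zero_iff.1 hw
      exact ⟨by nlinarith, rfl⟩
    exact hGS _ h1 h
  have e2 : (2 : ℝ) ≤ Real.exp 2 := by have := Real.add_one_le_exp 2; linarith
  have e5 : (5 : ℝ) ≤ Real.exp 2 := by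
    have h1 := Real.exp_one_gt_d9
    have h2 : Real.exp 2 = Real.exp 1 * Real.exp 1 := by rw [← Real.exp_add]; norm_num
    nlinarith
  have epow : ∀ t : ℝ, 0 ≤ t → t ≤ 5 → t ^ m ≤ Real.exp (2 * m) := by
    intro t h0 h5
    rw [mul_comm, Real.exp_nat_mul]
    exact pow_le_pow_left₀ h0 (h5.trans e5) _
  have Hmid : ∀ w : ℂ, ‖w‖ ≤ 1 / 2 → Real.exp (-(2 * (m + 1))) ≤ ‖H w‖ ∧
      ‖H w‖ ≤ Real.exp (2 * (m + 1)) := by
    intro w hw
    obtain ⟨h1, h2⟩ := hnz (c + R * w) (by rw [hnorm]; nlinarith)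
    rw [hFQ, norm_mul] at h1 h2
    have h3 : ‖Q w‖ ≤ Real.exp (2 * m) := (Qup w _ hw).trans (epow _ (by norm_num) (by norm_num))
    have h4 : (1 / 2 : ℝ) ^ m ≤ ‖Q w‖ := le_norm_prod S _ _ _ (by norm_num) fun ρ h => by
      have := (hρ ρ h).1
      have h2 := norm_sub_norm_le ((ρ - c) / R) w
      rw [norm_sub_rev] at h2
      linarith
    have h5 : Real.exp (2 * (m + 1)) = Real.exp (2 * m) * Real.exp 2 := by
      rw [← Real.exp_add]; ring_nf
    have h6 := Real.exp_pos (2 * m)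
    have h8 := norm_nonneg (H w)
    constructor
    · rw [Real.exp_neg, inv_le_iff_one_le_mul₀ (Real.exp_pos _), h5]
      have : 1 / 2 ≤ Real.exp (2 * m) * ‖H w‖ := h1.trans (by gcongr)
      nlinarith
    · have h9 : (2 : ℝ) ^ m * (1 / 2) ^ m = 1 := by rw [← mul_pow]; norm_num
      have h10 := epow 2 (by norm_num) (by norm_num)
      have h11 : (1 / 2 : ℝ) ^ m * ‖H w‖ ≤ 3 / 2 := le_trans (by gcongr) h2
      calc ‖H w‖ = 2 ^ m * ((1 / 2) ^ m * ‖H w‖) := by rw [← mul_assoc, h9, one_mul]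
        _ ≤ Real.exp (2 * m) * Real.exp 2 := by gcongr; linarith
        _ = _ := h5.symm
  obtain ⟨g, hg, hg0, hgH⟩ := exists_log (r := 3) (by norm_num) hHd hHne
  obtain ⟨H0l, H0u⟩ := Hmid 0 (by simp)
  have reb : ∀ w ∈ ball (0 : ℂ) 3, ∀ t : ℝ, ‖H w‖ ≤ Real.exp t → (g w).re ≤ t + 2 * (m + 1) := by
    intro w hw t ht
    rw [hgH w hw, norm_mul, norm_exp] at ht
    have h1 : Real.exp (-(2 * (m + 1))) * Real.exp (g w).re ≤ Real.exp t :=
      le_trans (by gcongr) ht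
    rw [← Real.exp_add, Real.exp_le_exp] at h1
    linarith
  have gb : ∀ w : ℂ, ‖w‖ ≤ 5 / 2 → ‖g w‖ ≤ 30 * M := by
    intro w hw
    have h1 := borelCaratheodory_zero (M := M + 2 * (m + 1)) (by positivity) hg
      (fun z hz => reb z hz M (Hup z (by have := mem_ball_zero_iff.1 hz; linarith)))
      (by norm_num) (mem_ball_zero_iff.2 (by linarith : ‖w‖ < 3)) hg0
    refine h1.trans ?_
    rw [div_le_iff₀ (by linarith)]
    have h2 : (m : ℝ) + 1 ≤ M := by nlinarith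
    have h3 := norm_nonneg w
    nlinarith
  have ga : ∀ w : ℂ, ‖w‖ ≤ 1 / 4 → ‖g w‖ ≤ 8 * (d * M) := by
    intro w hw
    have h1 := borelCaratheodory_zero (M := 2 * (m + 1) + 2 * (m + 1)) (R := 1 / 2) (by positivity)
      (hg.mono (ball_subset_ball (by norm_num)))
      (fun z hz => reb z (ball_subset_ball (by norm_num) hz) _
        (Hmid z (mem_ball_zero_iff.1 hz).le).2)
      (by norm_num) (mem_ball_zero_iff.2 (by linarith : ‖w‖ < 1 / 2)) hg0
    refine h1.trans ?_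
    rw [div_le_iff₀ (by linarith)]
    have h3 := norm_nonneg w
    nlinarith
  set w₁ : ℂ := (z₁ - c) / R with hw₁
  have hw : ‖w₁‖ ≤ 2 := by
    rw [hw₁, norm_div, norm_real, Real.norm_eq_abs, abs_of_pos hR, div_le_iff₀ hR]; exact hz₁
  have hz : z₁ = c + R * w₁ := by rw [hw₁]; field_simp; ring
  have h1 := three hg ga gb q hw
  have h2 : ‖Q w₁‖ ≤ Real.exp (2 * m) := (Qup w₁ _ hw).trans (epow _ (by norm_num) (by norm_num))
  rw [hz, hFQ, hgH w₁ (mem_ball_zero_iff.2 (by linarith)), norm_mul, norm_mul, norm_exp] at hbig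
  have h3 : Real.exp (η * M) ≤ Real.exp (2 * m) * (Real.exp (2 * (m + 1)) * Real.exp (g w₁).re) :=
    hbig.trans (by gcongr)
  rw [← Real.exp_add, ← Real.exp_add, Real.exp_le_exp] at h3
  have h4 := re_le_norm (g w₁)
  have h5 : 30 * M * (4 / 5) ^ q ≤ η / 3 * M := by nlinarith
  have h6 : d * (8 * 8 ^ q + 4) * M ≤ η / 3 * M := by gcongr
  have h8 : 0 < η * M := by positivity
  nlinarith

end Pool.Agent.H97.KK
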