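import Pool.Agent.H97.SCV

set_option autoImplicit false

namespace Pool.Agent.H97.SCV

open Filter Topology Metric Set

variable {E F : Type*} [NormedAddCommGroup E] [NormedSpace ℂ E] [FiniteDimensional ℂ E]
  [NormedAddCommGroup F] [NormedSpace ℂ F] [CompleteSpace F]

/-- Weierstrass' theorem in several variables. -/
theorem differentiableAt_of_tendstoUniformlyOn {f : ℕ → E → F} {g : E → F} {x : E} {R : ℝ}
    (hR : 0 < R) (hf : ∀ n, DifferentiableOn ℂ (f n) (ball x R))
    (h : TendstoUniformlyOn f g atTop (ball x R)) : DifferentiableAt ℂ g x := by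
  have hsub : ball x (R - R / 2) ⊆ ball x R := ball_subset_ball (by linarith)
  have hc : UniformCauchySeqOn (fun n => fderiv ℂ (f n)) atTop (ball x (R - R / 2)) := by
    rw [Metric.uniformCauchySeqOn_iff]
    intro ε hε
    obtain ⟨N, hN⟩ := Metric.uniformCauchySeqOn_iff.mp h.uniformCauchySeqOn (ε * R / 8)
      (by positivity)
    refine ⟨N, fun m hm n hn z hz => ?_⟩
    have h1 := fderiv_bound (half_pos hR) ((hf m).sub (hf n)) (M := ε * R / 8)
      (fun w hw => by simpa [dist_eq_norm] using (hN m hm n hn w hw).le) z hz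
    have h2 := isOpen_ball.mem_nhds (hsub hz)
    rw [fderiv_sub ((hf m).differentiableAt h2) ((hf n).differentiableAt h2)] at h1
    rw [dist_eq_norm]
    refine h1.trans_lt ?_
    rw [div_lt_iff₀ (half_pos hR)]
    nlinarith [mul_pos hε hR]
  have hl : ∀ z ∈ ball x (R - R / 2), Tendsto (fun n => fderiv ℂ (f n) z) atTop
      (𝓝 (limUnder atTop fun n => fderiv ℂ (f n) z)) := fun z hz =>
    (hc.cauchySeq hz).tendsto_limUnder
  exact (hasFDerivAt_of_tendstoUniformlyOn isOpen_ball (hc.tendstoUniformlyOn_of_tendsto hl)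
    (fun n z hz => ((hf n).differentiableAt (isOpen_ball.mem_nhds (hsub hz))).hasFDerivAt)
    (fun z hz => h.tendsto_at (hsub hz)) (mem_ball_self (by linarith))).differentiableAt

end Pool.Agent.H97.SCV
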