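import Mathlib

/-! Rolle counting for Appell sequences and a one-dimensional coarea inequality. -/

set_option autoImplicit false
open Set Filter Topology MeasureTheory Polynomial
open scoped ENNReal

namespace Pool.Agent.H97.App

lemma half {p : ℝ[X]} {x y : ℝ} (hxy : x < y) (h : ∀ z ∈ Ioo x y, 0 < p.derivative.eval z)
    (hx : p.eval x = 0 ∨ p.derivative.eval x = 0 ∧ 0 < p.derivative.derivative.eval x * p.eval x)
    (hy : p.eval y = 0 ∨ p.derivative.eval y = 0 ∧ 0 < p.derivative.derivative.eval y * p.eval y) :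
    False := by
  have h1 : p.eval x < p.eval y := strictMonoOn_of_deriv_pos (convex_Icc x y)
    p.continuous.continuousOn (fun z hz => by rw [p.deriv]; exact h z (by simpa using hz))
    (left_mem_Icc.2 hxy.le) (right_mem_Icc.2 hxy.le) hxy
  have h2 : 0 ≤ p.eval x := by
    rcases hx with hx | ⟨a, b⟩
    · exact hx.ge
    have : 0 ≤ p.derivative.derivative.eval x := by
      refine ge_of_tendsto ((hasDerivAt_iff_tendsto_slope.1 (p.derivative.hasDerivAt x)).mono_left
        (nhdsGT_le_nhdsNE x)) ?_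
      filter_upwards [Ioo_mem_nhdsGT hxy] with z hz
      rw [slope_def_field, a, sub_zero]
      exact div_nonneg (h z hz).le (sub_nonneg.2 hz.1.le)
    by_contra! h3
    nlinarith
  have h3 : p.eval y ≤ 0 := by
    rcases hy with hy | ⟨a, b⟩
    · exact hy.le
    have : p.derivative.derivative.eval y ≤ 0 := by
      refine le_of_tendsto ((hasDerivAt_iff_tendsto_slope.1 (p.derivative.hasDerivAt y)).mono_left
        (nhdsLT_le_nhdsNE y)) ?_
      filter_upwards [Ioo_mem_nhdsLT hxy] with z hz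
      rw [slope_def_field, a, sub_zero]
      exact div_nonpos_of_nonneg_of_nonpos (h z hz).le (sub_nonpos.2 hz.2.le)
    by_contra! h3
    nlinarith
  linarith

def bad (p : ℝ[X]) : Set ℝ :=
  {x | p.derivative.eval x = 0 ∧ 0 < p.derivative.derivative.eval x * p.eval x}

lemma rolle (p : ℝ[X]) : (p.roots.toFinset.card : ℝ≥0∞) + (bad p).encard ≤
    p.derivative.roots.toFinset.card + 1 := by
  classical
  by_cases h0 : p.derivative = 0
  · rw [show bad p = ∅ by ext; simp [bad, h0], eq_C_of_derivative_eq_zero h0]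
    simp
  have hf : (bad p).Finite := (p.derivative.roots.toFinset.finite_toSet).subset fun x hx => by
    simpa [h0] using hx.1
  have := Finset.card_le_of_interleaved (s := p.roots.toFinset ∪ hf.toFinset)
    (t := p.derivative.roots.toFinset) fun x hx y hy hxy _ => by
    by_contra! hc
    have hz : ∀ z ∈ Ioo x y, p.derivative.eval z ≠ 0 := fun z hz h =>
      (hc z (by simpa [h0] using h) hz.1).not_gt hz.2
    have key : ∀ z ∈ p.roots.toFinset ∪ hf.toFinset, p.eval z = 0 ∨ z ∈ bad p := fun z hz => by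
      simp only [Finset.mem_union, Multiset.mem_toFinset, mem_roots', Finite.mem_toFinset] at hz
      exact hz.imp_left And.right
    rcases isPreconnected_Ioo.mapsTo_Ioi_or_Iio p.derivative.continuous.continuousOn hz with h | h
    · exact half hxy h (key x hx) (key y hy)
    · refine half (p := -p) hxy (fun z hz => by simpa using h hz) ?_ ?_
      · simpa [bad] using key x hx
      · simpa [bad] using key y hy
  rw [Finset.card_union_of_disjoint (Finset.disjoint_left.2 fun z h1 h2 => by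
    have := (hf.mem_toFinset.1 h2).2
    rw [(mem_roots'.1 (Multiset.mem_toFinset.1 h1)).2, mul_zero] at this
    exact this.false)] at this
  rw [hf.encard_eq_coe_toFinset_card]
  exact_mod_cast this

lemma count (g : ℕ → ℝ[X]) (h0 : (g 0).roots = 0)
    (h : ∀ n : ℕ, (g (n + 1)).derivative = C (n + 1 : ℝ) * g n) (N : ℕ) :
    ((g N).roots.toFinset.card : ℝ≥0∞) + ∑ n ∈ Finset.range N, ((bad (g (n + 1))).encard : ℝ≥0∞)
      ≤ N := by
  induction N with
  | zero => simp [h0]
  | succ N ih =>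
    have := rolle (g (N + 1))
    rw [h, roots_C_mul _ (by positivity)] at this
    rw [Finset.sum_range_succ, add_comm (∑ n ∈ _, _), ← add_assoc, Nat.cast_succ]
    refine (add_le_add_left this _).trans ?_
    rw [add_right_comm]
    exact add_le_add_left ih _

lemma coarea {f f' : ℝ → ℝ} {s : Set ℝ} (hs : MeasurableSet s)
    (hd : ∀ x ∈ s, HasDerivAt f (f' x) x) {m : ℝ} (h0 : 0 < m) (hm : ∀ x ∈ s, m ≤ f' x) :
    ∃ c : ℝ → ℝ≥0∞, Measurable c ∧ ENNReal.ofReal m * volume s ≤ ∫⁻ y, c y ∧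
      ∀ y, c y ≤ {x ∈ s | f x = y}.encard := by
  obtain ⟨t, A, t1, t2, t3, t4, t5⟩ := exists_partition_approximatesLinearOn_of_hasFDerivWithinAt
    f s _ (fun x hx => (hd x hx).hasFDerivAt.hasFDerivWithinAt) (fun _ => (m / 2).toNNReal)
    fun _ => by simpa using h0
  have inj : ∀ n, InjOn f (s ∩ t n) := fun n x hx y hy e => by
    obtain ⟨z, hz, h1⟩ := t5 ⟨x, hx.1⟩ n
    have := t4 n x hx y hy
    rw [e, sub_self, zero_sub, norm_neg, h1, Real.coe_toNNReal _ (by positivity)] at this
    simp only [ContinuousLinearMap.toSpanSingleton_apply, norm_smul] at this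
    have h2 := (hm z hz).trans (le_abs_self _)
    rw [← sub_eq_zero, ← norm_le_zero_iff]
    rw [← Real.norm_eq_abs] at h2
    nlinarith [norm_nonneg (x - y)]
  have mes : ∀ n, MeasurableSet (f '' (s ∩ t n)) := fun n =>
    measurable_image_of_fderivWithin (hs.inter (t2 n))
      (fun x hx => (hd x hx.1).hasFDerivAt.hasFDerivWithinAt) (inj n)
  refine ⟨fun y => ∑' n, (f '' (s ∩ t n)).indicator 1 y,
    Measurable.tsum fun n => measurable_one.indicator (mes n), ?_, fun y => ?_⟩
  · rw [lintegral_tsum fun n => (measurable_one.indicator (mes n)).aemeasurable]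
    refine (mul_le_mul_right ((measure_mono (show s ⊆ ⋃ n, s ∩ t n by
      rw [← inter_iUnion]; exact subset_inter subset_rfl t3)).trans (measure_iUnion_le _)) _).trans ?_
    rw [← ENNReal.tsum_mul_left]
    refine ENNReal.tsum_le_tsum fun n => ?_
    rw [lintegral_indicator (mes n), lintegral_image_eq_lintegral_abs_deriv_mul (hs.inter (t2 n))
      (fun x hx => (hd x hx.1).hasDerivWithinAt) (inj n), ← setLIntegral_const]
    refine setLIntegral_mono' (hs.inter (t2 n)) fun x hx => ?_
    simpa using ENNReal.ofReal_le_ofReal ((hm x hx.1).trans (le_abs_self _))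
  · choose! κ hκ using fun x hx => mem_iUnion.1 (t3 (a := x) hx)
    have : ∑' n, (f '' (s ∩ t n)).indicator (1 : ℝ → ℝ≥0∞) y =
        ∑' _ : {n | y ∈ f '' (s ∩ t n)}, (1 : ℝ≥0∞) := by
      rw [tsum_subtype _ fun _ => (1 : ℝ≥0∞)]; rfl
    refine this.trans_le ?_
    rw [ENNReal.tsum_set_one]
    refine ENat.toENNReal_le.2 ((encard_le_encard ?_).trans (encard_image_le κ _))
    rintro n ⟨x, hx, e⟩
    exact ⟨x, ⟨hx.1, e⟩, by_contra fun h => disjoint_left.1 (t1 h) (hκ x hx.1) hx.2⟩

def Gd (a0 a1 a2 b0 b1 b2 : ℝ) : Prop := b1 ≠ 0 ∧ |a1 / b1| ≤ 1 ∧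
  1 / 2 ≤ (a0 * b1 - a1 * b0) / b1 ^ 2 ∧ 0 < (a0 - a1 / b1 * b0) * (a2 - a1 / b1 * b2)

lemma Gd.mul {a0 a1 a2 b0 b1 b2 c : ℝ} (hc : c ≠ 0)
    (h : Gd (c * a0) (c * a1) (c * a2) (c * b0) (c * b1) (c * b2)) : Gd a0 a1 a2 b0 b1 b2 := by
  obtain ⟨h1, h2, h3, h4⟩ := h
  have h5 := right_ne_zero_of_mul h1
  rw [mul_div_mul_left _ _ hc] at h2 h4
  refine ⟨h5, h2, h3.trans_eq (by field_simp), (mul_pos_iff_of_pos_left (show 0 < c ^ 2 by
    positivity)).1 ?_⟩
  linarith

def E (A B : ℕ → ℝ[X]) (n : ℕ) : Set ℝ := {t | Gd ((A n).eval t) ((A (n + 1)).eval t)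
  ((A (n + 2)).eval t) ((B n).eval t) ((B (n + 1)).eval t) ((B (n + 2)).eval t)}

lemma mE (A B : ℕ → ℝ[X]) (n : ℕ) : MeasurableSet (E A B n) := by
  have h : ∀ p : ℝ[X], Measurable fun t => p.eval t := fun p => p.continuous.measurable
  have a0 := h (A n); have a1 := h (A (n + 1)); have a2 := h (A (n + 2))
  have b0 := h (B n); have b1 := h (B (n + 1)); have b2 := h (B (n + 2))
  simp only [E, Gd, ofPred_and]
  refine (measurableSet_eq_fun b1 measurable_const).compl.inter
    ((measurableSet_le ?_ ?_).inter ((measurableSet_le ?_ ?_).inter (measurableSet_lt ?_ ?_))) <;>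
  fun_prop

lemma volE {A B : ℕ → ℝ[X]} {a b : ℝ} (a0 : A 0 = C a) (b0 : B 0 = C b)
    (hA : ∀ n : ℕ, (A (n + 1)).derivative = C (n + 1 : ℝ) * A n)
    (hB : ∀ n : ℕ, (B (n + 1)).derivative = C (n + 1 : ℝ) * B n) (N : ℕ) :
    ∑ n ∈ Finset.range N, ENNReal.ofReal ((n + 1) / 2) * volume (E A B n) ≤ (N + 1) * 2 := by
  choose c c1 c2 c3 using fun n : ℕ => coarea (s := E A B n) (mE A B n) (fun t ht =>
    ((A (n + 1)).hasDerivAt t).div ((B (n + 1)).hasDerivAt t) ht.1)
    (m := (n + 1) / 2) (by positivity) fun t ht => by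
      have := mul_le_mul_of_nonneg_left ht.2.2.1 (show (0:ℝ) ≤ n + 1 by positivity)
      simp only [hA, hB, eval_mul, eval_C]
      exact (by ring : _ = _).trans_le (this.trans_eq (by ring))
  refine (Finset.sum_le_sum fun n _ => c2 n).trans ?_
  rw [← lintegral_finsetSum _ fun n _ => c1 n]
  refine (lintegral_mono (g := (Icc (-1 : ℝ) 1).indicator fun _ => N + 1) fun y => ?_).trans ?_
  · by_cases hy : y ∈ Icc (-1 : ℝ) 1
    · have := count (fun n => A n - C y * B n) (by rw [a0, b0, ← C_mul, ← C_sub, roots_C])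
        (fun n => by simp only [derivative_sub, derivative_C_mul, hA, hB]; ring) (N + 1)
      rw [Finset.sum_range_succ', Nat.cast_succ] at this
      rw [indicator_of_mem hy]
      refine le_trans (Finset.sum_le_sum fun n _ => (c3 n y).trans (ENat.toENNReal_le.2
        (encard_le_encard ?_))) ((le_self_add.trans le_add_self).trans this)
      rintro t ⟨⟨h1, -, -, h4⟩, e⟩
      simp only [Pi.div_apply] at e
      rw [e] at h4
      simp only [bad, mem_ofPred_eq, derivative_sub, derivative_C_mul, hA, hB, eval_sub, eval_mul,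
        eval_C]
      refine ⟨by rw [← e]; field_simp; ring, ?_⟩
      have : (0 : ℝ) < ((n + 1 : ℕ) + 1) * (n + 1) := by positivity
      nlinarith [mul_pos this h4]
    · refine (Finset.sum_eq_zero fun n _ => le_antisymm ((c3 n y).trans_eq ?_) zero_le).trans_le
        zero_le
      rw [ENat.toENNReal_eq_zero, encard_eq_zero]
      exact eq_empty_of_forall_notMem fun t ⟨h, e⟩ => hy (e ▸ abs_le.1 h.2.1)
  · rw [lintegral_indicator_const measurableSet_Icc, Real.volume_Icc]
    norm_num

lemma avoid {A B : ℕ → ℝ[X]} {a b τ : ℝ} (a0 : A 0 = C a) (b0 : B 0 = C b)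
    (hA : ∀ n : ℕ, (A (n + 1)).derivative = C (n + 1 : ℝ) * A n)
    (hB : ∀ n : ℕ, (B (n + 1)).derivative = C (n + 1 : ℝ) * B n) (hτ : 0 < τ) :
    ∃ t ∈ Ioo (-τ) τ, ∃ s : ℝ, ∃ N : ℕ, ∀ n ≥ N, t ∈ E A B n →
      1 ≤ |n * s + Real.log ((A n).eval t)| := by
  set G : ℕ → Set (ℝ × ℝ) := fun n => regionBetween (fun t => (-1 - Real.log ((A n).eval t)) / n)
    (fun t => (1 - Real.log ((A n).eval t)) / n) (E A B n)
  have hG : ∀ n, volume (G n) = ENNReal.ofReal (2 / n) * volume (E A B n) := fun n => by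
    have := (A n).continuous.measurable
    rw [Measure.volume_eq_prod, volume_regionBetween_eq_lintegral (by fun_prop) (by fun_prop)
      (mE A B n), ← setLIntegral_const]
    refine lintegral_congr fun t => congrArg _ ?_
    simp only [Pi.sub_apply]; ring
  have hμ : ∀ k : ℕ, volume (⋃ n ∈ Finset.Ico (2 ^ k) (2 ^ (k + 1)), G n) ≤
      ENNReal.ofReal (24 * (1 / 2) ^ k) := fun k => by
    refine (measure_biUnion_finset_le _ _).trans ((Finset.sum_le_sum (g := fun n : ℕ =>
      ENNReal.ofReal (4 / (2 ^ k) ^ 2) * (ENNReal.ofReal ((n + 1) / 2) * volume (E A B n)))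
      fun n hn => ?_).trans ?_)
    · have h1 : (2 : ℝ) ^ k ≤ n := by exact_mod_cast (Finset.mem_Ico.1 hn).1
      have h2 : (0 : ℝ) < 2 ^ k := by positivity
      rw [hG, ← mul_assoc, ← ENNReal.ofReal_mul (by positivity)]
      gcongr
      rw [div_mul_div_comm, div_le_div_iff₀ (by linarith) (by positivity)]
      nlinarith
    rw [← Finset.mul_sum]
    refine (mul_le_mul_right ((Finset.sum_le_sum_of_subset fun n hn => Finset.mem_range.2
      (Finset.mem_Ico.1 hn).2).trans (volE a0 b0 hA hB _)) _).trans ?_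
    rw [← Nat.cast_succ, ← ENNReal.ofReal_natCast, ← ENNReal.ofReal_ofNat 2,
      ← ENNReal.ofReal_mul (by positivity), ← ENNReal.ofReal_mul (by positivity)]
    refine ENNReal.ofReal_le_ofReal ?_
    have h1 : (1 : ℝ) ≤ 2 ^ k := one_le_pow₀ one_le_two
    push_cast
    rw [one_div, inv_pow, pow_succ (2:ℝ) k]
    field_simp
    linarith
  have hsum := ne_top_of_le_ne_top (by
    rw [← ENNReal.ofReal_tsum_of_nonneg (fun k => by positivity)
      (summable_geometric_two.mul_left _)]
    exact ENNReal.ofReal_ne_top) (ENNReal.tsum_le_tsum hμ)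
  obtain ⟨⟨t, s⟩, ⟨ht, -⟩, hsf⟩ := Measure.exists_mem_of_measure_ne_zero_of_ae (μ := volume)
    (s := Ioo (-τ) τ ×ˢ Icc (0 : ℝ) 1)
    (by rw [Measure.volume_eq_prod, Measure.prod_prod]; simpa using hτ)
    (ae_restrict_of_ae (ae_finite_setOfPred_mem hsum))
  obtain ⟨k, hk⟩ := hsf.bddAbove
  refine ⟨t, ht, s, 2 ^ (k + 1), fun n hn h => not_lt.1 fun h1 => ?_⟩
  have h0 : 0 < n := (pow_pos two_pos _).trans_le hn
  have h2 : (0 : ℝ) < n := by exact_mod_cast h0
  have h3 := Nat.le_log_of_pow_le one_lt_two hn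
  have := hk (a := Nat.log 2 n) (mem_iUnion₂.2 ⟨n, Finset.mem_Ico.2 ⟨Nat.pow_log_le_self 2 h0.ne',
    Nat.lt_pow_succ_log_self one_lt_two n⟩, h, by
      rw [abs_lt] at h1
      constructor
      · rw [div_lt_iff₀ h2]; linarith
      · rw [lt_div_iff₀ h2]; linarith⟩)
  omega

section
variable {V : Type*} [AddCommGroup V] [Module ℝ V] (T : V →ₗ[ℝ] V) (φ : V →ₗ[ℝ] ℝ)

noncomputable def q : ℕ → V → ℝ[X]
  | 0, x => C (φ x)
  | n + 1, x => q n (T x) + X * q n x

lemma q_der (n : ℕ) (x : V) : (q T φ (n + 1) x).derivative = C (n + 1 : ℝ) * q T φ n x := by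
  induction n generalizing x with
  | zero => simp [q]
  | succ n ih =>
    rw [q, derivative_add, derivative_mul, ih, ih, q]
    simp only [Nat.cast_succ, map_add, map_one, derivative_X]; ring

lemma q_eval (t : ℝ) (n : ℕ) (x : V) : (q T φ n x).eval t = φ (((T + t • 1) ^ n) x) := by
  induction n generalizing x with
  | zero => simp [q]
  | succ n ih => simp [q, ih, pow_succ]
end

end Pool.Agent.H97.App
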