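import Pool.Agent.H97.ShearBound

set_option autoImplicit false

namespace Pool.Agent.H97.Shear

open Complex Filter Topology Metric Set Asymptotics
open scoped ComplexConjugate

variable {n : ℕ}

theorem avg_coeffs {h : E n → E n} (hd : DifferentiableOn ℂ h (ball 0 1)) (h0 : h 0 = 0)
    {i j : Fin n} (hij : i ≠ j) {k : ℕ} (hk : 2 ≤ k) {a b : ℂ} (hab : ‖a‖ ^ 2 + ‖b‖ ^ 2 < 1) :
    (∫ θ in (0 : ℝ)..2 * Real.pi, conj (circleMap 0 1 θ ^ k) *
      h (EuclideanSpace.single i (circleMap 0 1 θ ^ k * a) +
        EuclideanSpace.single j (circleMap 0 1 θ * b)) i) = (2 * Real.pi : ℝ) *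
      (a * fderiv ℂ h 0 (EuclideanSpace.single i 1) i + coef h i j k * b ^ k) ∧
    (∫ θ in (0 : ℝ)..2 * Real.pi, conj (circleMap 0 1 θ ^ 1) *
      h (EuclideanSpace.single i (circleMap 0 1 θ ^ k * a) +
        EuclideanSpace.single j (circleMap 0 1 θ * b)) j) = (2 * Real.pi : ℝ) *
      (b * fderiv ℂ h 0 (EuclideanSpace.single j 1) j) := by
  set γ : ℂ → E n := fun t => EuclideanSpace.single i (t ^ k * a) + EuclideanSpace.single j (t * b)
    with hγ
  have hγd : Differentiable ℂ γ := by
    have : γ = fun t : ℂ => (t ^ k * a) • (EuclideanSpace.single i (1 : ℂ) : E n) +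
        (t * b) • (EuclideanSpace.single j (1 : ℂ) : E n) := by
      funext t; rw [← single_eq, ← single_eq]
    rw [this]
    fun_prop
  have hγ0 : γ 0 = 0 := by
    have : k ≠ 0 := by omega
    rw [hγ]
    dsimp only
    rw [single_eq, single_eq j]
    simp [this]
  have hγm : ∀ t : ℂ, ‖t‖ ≤ 1 → γ t ∈ ball (0 : E n) 1 := by
    intro t ht
    rw [mem_ball_zero_iff]
    have h1 := norm_two hij (t ^ k * a) (t * b)
    have h2 : ‖t ^ k * a‖ ≤ ‖a‖ := by
      rw [norm_mul, norm_pow]
      exact mul_le_of_le_one_left (norm_nonneg _) (pow_le_one₀ (norm_nonneg _) ht)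
    have h3 : ‖t * b‖ ≤ ‖b‖ := by
      rw [norm_mul]
      exact mul_le_of_le_one_left (norm_nonneg _) ht
    have h4 : ‖γ t‖ ^ 2 < 1 := by
      rw [hγ]; dsimp only; rw [h1]
      nlinarith [norm_nonneg (t ^ k * a), norm_nonneg (t * b)]
    exact (sq_lt_one_iff₀ (norm_nonneg _)).mp h4
  have hda : ∀ z ∈ ball (0 : E n) 1, DifferentiableAt ℂ h z := fun z hz =>
    hd.differentiableAt (isOpen_ball.mem_nhds hz)
  have hcomp : ∀ l : Fin n, DifferentiableOn ℂ (fun z => h z l) (ball 0 1) := fun l =>
    (EuclideanSpace.proj (𝕜 := ℂ) l).differentiable.comp_differentiableOn hd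
  have hφ : ∀ l : Fin n, DifferentiableOn ℂ (fun t => h (γ t) l) (closedBall 0 1) := fun l =>
    (hcomp l).comp hγd.differentiableOn fun t ht => hγm t (by simpa using ht)
  have han : AnalyticAt ℂ h 0 := SCV.analyticAt_of_differentiableOn (ball_mem_nhds _ one_pos) hd
  -- first coefficient
  have c1 : iteratedDeriv 1 (fun t => h (γ t) j) 0 =
      b * fderiv ℂ h 0 (EuclideanSpace.single j 1) j := by
    have h1 : HasDerivAt γ (b • EuclideanSpace.single j (1 : ℂ)) 0 := by
      have e : γ = fun t : ℂ => (t ^ k * a) • (EuclideanSpace.single i (1 : ℂ) : E n) +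
          (t * b) • (EuclideanSpace.single j (1 : ℂ) : E n) := by
        funext t; rw [← single_eq, ← single_eq]
      have h2 := (((hasDerivAt_pow k (0 : ℂ)).mul_const a).smul_const
        (EuclideanSpace.single i (1 : ℂ) : E n)).add
        (((hasDerivAt_id (0 : ℂ)).mul_const b).smul_const (EuclideanSpace.single j (1 : ℂ) : E n))
      rw [e]
      refine h2.congr_deriv ?_
      have : k - 1 ≠ 0 := by omega
      simp [this]
    have h3 : HasFDerivAt h (fderiv ℂ h 0) (γ 0) := by
      rw [hγ0]; exact han.differentiableAt.hasFDerivAt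
    have h4 := (EuclideanSpace.proj (𝕜 := ℂ) j).hasFDerivAt.comp_hasDerivAt 0
      (h3.comp_hasDerivAt 0 h1)
    rw [iteratedDeriv_one]
    refine h4.deriv.trans ?_
    simp
  -- k-th coefficient
  have ck : iteratedDeriv k (fun t => h (γ t) i) 0 / k.factorial =
      a * fderiv ℂ h 0 (EuclideanSpace.single i 1) i + coef h i j k * b ^ k := by
    set α := fderiv ℂ h 0 (EuclideanSpace.single i 1) i with hα
    set g : ℂ → ℂ := fun t => h (0 + t • (b • EuclideanSpace.single j (1 : ℂ))) i with hg
    have hga : AnalyticAt ℂ g 0 := by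
      have h1 : AnalyticAt ℂ (fun t : ℂ => (0 : E n) + t • (b • EuclideanSpace.single j (1 : ℂ)))
          0 := by fun_prop
      exact ((EuclideanSpace.proj (𝕜 := ℂ) i).analyticAt _).comp
        (AnalyticAt.comp_of_eq han h1 (by simp))
    have hφa : AnalyticAt ℂ (fun t => h (γ t) i) 0 :=
      (hφ i).analyticAt (closedBall_mem_nhds _ one_pos)
    have hpa : AnalyticAt ℂ (fun t : ℂ => a * α * t ^ k) 0 := by fun_prop
    have hg1 : iteratedDeriv k g 0 = k.factorial * (coef h i j k * b ^ k) := by
      have e1 := SCV.iteratedDeriv_line isOpen_ball (hcomp i) (mem_ball_self one_pos)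
        (b • EuclideanSpace.single j (1 : ℂ)) k
      have e2 := SCV.iteratedDeriv_line isOpen_ball (hcomp i) (mem_ball_self one_pos)
        (EuclideanSpace.single j (1 : ℂ)) k
      rw [hg, e1, ContinuousMultilinearMap.map_smul_univ, ← e2, coef]
      simp only [zero_add, ← single_eq, Finset.prod_const, Finset.card_univ, Fintype.card_fin,
        smul_eq_mul]
      have : (k.factorial : ℂ) ≠ 0 := by exact_mod_cast k.factorial_ne_zero
      field_simp
    have hp1 : iteratedDeriv k (fun t : ℂ => a * α * t ^ k) 0 = k.factorial * (a * α) := by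
      rw [iteratedDeriv_const_mul_field]
      simp [iteratedDeriv_pow, Nat.descFactorial_self, mul_comm]
    have hlo : (fun t => h (γ t) i - g t - a * α * t ^ k) =o[𝓝 0] fun t : ℂ => t ^ k := by
      have hs := han.hasStrictFDerivAt.isLittleO
      have ht : Tendsto (fun t : ℂ => (γ t, (0 : E n) + t • (b • EuclideanSpace.single j (1 : ℂ))))
          (𝓝 0) (𝓝 (0, 0)) := by
        have : Continuous (fun t : ℂ =>
            (γ t, (0 : E n) + t • (b • EuclideanSpace.single j (1 : ℂ)))) :=
          hγd.continuous.prodMk (by fun_prop)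
        simpa [hγ0] using this.tendsto 0
      have h1 := hs.comp_tendsto ht
      have e : ∀ t : ℂ, γ t - ((0 : E n) + t • (b • EuclideanSpace.single j (1 : ℂ))) =
          (t ^ k * a) • EuclideanSpace.single i (1 : ℂ) := by
        intro t
        rw [smul_smul, ← single_eq, ← single_eq, hγ]
        simp
      have h2 : (fun t : ℂ => (t ^ k * a) • (EuclideanSpace.single i (1 : ℂ) : E n)) =O[𝓝 0]
          fun t : ℂ => t ^ k := by
        refine IsBigO.of_bound ‖a‖ (Eventually.of_forall fun t => ?_)
        simp [norm_smul, mul_comm]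
      have h3 := ((EuclideanSpace.proj (𝕜 := ℂ) i).isBigO_comp _ _).trans_isLittleO
        ((h1.congr_right e).trans_isBigO h2)
      refine h3.congr_left fun t => ?_
      simp only [Function.comp, e, map_smul]
      simp [hg, hα]
      ring
    have hz := iteratedDeriv_eq_zero_of_isLittleO ((hφa.sub hga).sub hpa) hlo
    rw [iteratedDeriv_sub (hφa.sub hga).contDiffAt hpa.contDiffAt,
      iteratedDeriv_sub hφa.contDiffAt hga.contDiffAt, hg1, hp1] at hz
    have : (k.factorial : ℂ) ≠ 0 := by exact_mod_cast k.factorial_ne_zero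
    field_simp
    linear_combination hz
  -- averaging
  have i1 := integral_coeff (hφ i) k
  have i2 := integral_coeff (hφ j) 1
  rw [ck] at i1
  rw [c1] at i2
  exact ⟨i1, by simpa using i2⟩

end Pool.Agent.H97.Shear
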