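import Pool.Agent.H97.SCV

set_option autoImplicit false

namespace Pool.Agent.H97.Bergman

open Complex Filter Topology Metric Set MeasureTheory
open scoped ENNReal Real

lemma polar {F : ℂ → ℝ≥0∞} (hF : Measurable F) :
    ∫⁻ z, F z = ∫⁻ r in Ioi (0 : ℝ), ENNReal.ofReal r *
      ∫⁻ θ in Ioo (-π) π, F (circleMap 0 r θ) := by
  rw [← Complex.lintegral_comp_polarCoord_symm, polarCoord_target, Measure.volume_eq_prod]
  have e : ∀ p : ℝ × ℝ, Complex.polarCoord.symm p = circleMap 0 p.1 p.2 := by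
    intro p
    simp [circleMap, Complex.exp_mul_I]
  simp only [e, smul_eq_mul]
  have hm : Measurable fun p : ℝ × ℝ => F (circleMap 0 p.1 p.2) := by
    refine hF.comp (Continuous.measurable ?_)
    unfold circleMap
    fun_prop
  rw [setLIntegral_prod (fun p : ℝ × ℝ => ENNReal.ofReal p.1 * F (circleMap 0 p.1 p.2))
    ((ENNReal.measurable_ofReal.comp measurable_fst).mul hm).aemeasurable]
  refine lintegral_congr fun r => ?_
  exact lintegral_const_mul (ENNReal.ofReal r) (f := fun θ => F (circleMap 0 r θ))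
    (hm.comp (measurable_prodMk_left (x := r)))

lemma radial {φ : ℝ → ℝ≥0∞} (hφ : Measurable φ) :
    ∫⁻ z : ℂ, φ ‖z‖ = ENNReal.ofReal (2 * π) * ∫⁻ r in Ioi (0 : ℝ), ENNReal.ofReal r * φ r := by
  rw [polar (F := fun z => φ ‖z‖) (hφ.comp measurable_norm), ← lintegral_const_mul _
    (f := fun r => ENNReal.ofReal r * φ r) (ENNReal.measurable_ofReal.mul hφ)]
  refine setLIntegral_congr_fun measurableSet_Ioi fun r hr => ?_
  have hr' : 0 < r := hr
  simp only [Function.comp, norm_circleMap_zero, abs_of_pos hr', lintegral_const,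
    Measure.restrict_apply MeasurableSet.univ, univ_inter, Real.volume_Ioo]
  rw [show π - -π = 2 * π by ring]
  ring

lemma circle_lower {h : ℂ → ℂ} {r : ℝ} (hr : 0 < r) (hd : DifferentiableOn ℂ h (closedBall 0 r))
    (a : ℕ) :
    ENNReal.ofReal (2 * π * (‖iteratedDeriv a h 0‖ / a.factorial * r ^ a) ^ 2) ≤
      ∫⁻ θ in Ioo (-π) π, ‖h (circleMap 0 r θ)‖ₑ ^ 2 := by
  set t := ‖iteratedDeriv a h 0‖ / a.factorial * r ^ a with ht
  have ht0 : 0 ≤ t := by positivity
  set u : ℝ → ℝ := fun θ => ‖h (circleMap 0 r θ)‖ with hu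
  have huc : Continuous u :=
    (hd.continuousOn.comp_continuous (continuous_circleMap 0 r) fun θ =>
      circleMap_mem_closedBall 0 hr.le θ).norm
  have h1 : 2 * π * t ≤ ∫ θ in (0 : ℝ)..2 * π, u θ := by
    have h2 := hd.circleIntegral_one_div_sub_center_pow_smul hr a
    have h3 := intervalIntegral.norm_integral_le_integral_norm (μ := volume)
      (f := fun θ : ℝ => deriv (circleMap 0 r) θ •
        ((1 / (circleMap 0 r θ - 0) ^ (a + 1)) • h (circleMap 0 r θ)))
      (a := 0) (b := 2 * π) (by positivity)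
    rw [circleIntegral] at h2
    rw [h2] at h3
    have e : ∀ θ : ℝ, ‖deriv (circleMap 0 r) θ •
        ((1 / (circleMap 0 r θ - 0) ^ (a + 1)) • h (circleMap 0 r θ))‖ = (r ^ a)⁻¹ * u θ := by
      intro θ
      simp only [deriv_circleMap, norm_smul, norm_mul, norm_circleMap_zero, abs_of_pos hr,
        Complex.norm_I, sub_zero, norm_div, norm_one, norm_pow, hu]
      field_simp
      ring
    simp only [e, intervalIntegral.integral_const_mul] at h3
    rw [norm_smul, norm_div, norm_mul, norm_mul, Complex.norm_I, Complex.norm_natCast,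
      Complex.norm_real, Real.norm_of_nonneg Real.pi_pos.le, Complex.norm_ofNat,
      ← div_eq_inv_mul, le_div_iff₀ (by positivity)] at h3
    refine le_of_eq_of_le ?_ h3
    rw [ht]; ring
  have h4 : 2 * π * t ^ 2 ≤ ∫ θ in (0 : ℝ)..2 * π, u θ ^ 2 := by
    have h5 : ∫ θ in (0 : ℝ)..2 * π, (2 * t * u θ - t ^ 2) ≤ ∫ θ in (0 : ℝ)..2 * π, u θ ^ 2 := by
      refine intervalIntegral.integral_mono_on (by positivity)
        (Continuous.intervalIntegrable (by fun_prop) _ _)
        (Continuous.intervalIntegrable (by fun_prop) _ _) fun θ _ => ?_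
      nlinarith [sq_nonneg (u θ - t)]
    rw [intervalIntegral.integral_sub (Continuous.intervalIntegrable (by fun_prop) _ _)
      (Continuous.intervalIntegrable (by fun_prop) _ _), intervalIntegral.integral_const_mul,
      intervalIntegral.integral_const] at h5
    simp only [sub_zero, smul_eq_mul] at h5
    nlinarith
  have hper : Function.Periodic (fun θ => u θ ^ 2) (2 * π) := fun θ => by
    simp only [hu, (periodic_circleMap 0 r) θ]
  have h6 := hper.intervalIntegral_add_eq 0 (-π)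
  rw [zero_add, show -π + 2 * π = π by ring] at h6
  rw [h6, intervalIntegral.integral_of_le (by linarith [Real.pi_pos]),
    integral_Ioc_eq_integral_Ioo] at h4
  refine (ENNReal.ofReal_le_ofReal h4).trans ?_
  have hi : IntegrableOn (fun θ => u θ ^ 2) (Ioo (-π) π) volume :=
    ((huc.pow 2).integrableOn_Icc (a := -π) (b := π)).mono_set Ioo_subset_Icc_self
  rw [ofReal_integral_eq_lintegral_ofReal hi
    (Eventually.of_forall fun θ => sq_nonneg _)]
  refine le_of_eq (lintegral_congr fun θ => ?_)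
  rw [ENNReal.ofReal_pow (norm_nonneg _), ofReal_norm]

lemma coeff_lower {h : ℂ → ℂ} (hm : Measurable h) {ω : ℝ → ℝ≥0∞} (hω : Measurable ω)
    (hd : ∀ r, 0 < r → ω r ≠ 0 → DifferentiableOn ℂ h (closedBall 0 r)) (a : ℕ) :
    ENNReal.ofReal (2 * π * (‖iteratedDeriv a h 0‖ / a.factorial) ^ 2) *
      ∫⁻ r in Ioi (0 : ℝ), ENNReal.ofReal (r ^ (2 * a + 1)) * ω r ≤
      ∫⁻ z, ‖h z‖ₑ ^ 2 * ω ‖z‖ := by
  rw [polar (F := fun z => ‖h z‖ₑ ^ 2 * ω ‖z‖)
    ((hm.enorm.pow_const 2).mul (hω.comp measurable_norm)), ← lintegral_const_mul _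
    (f := fun r => ENNReal.ofReal (r ^ (2 * a + 1)) * ω r) ((ENNReal.measurable_ofReal.comp (measurable_id.pow_const _)).mul hω)]
  refine setLIntegral_mono' measurableSet_Ioi fun r hr => ?_
  have hr' : 0 < r := hr
  by_cases h0 : ω r = 0
  · simp [h0]
  simp only [Function.comp, norm_circleMap_zero, abs_of_pos hr', id]
  rw [lintegral_mul_const _ (f := fun θ => ‖h (circleMap 0 r θ)‖ₑ ^ 2) ((hm.comp (continuous_circleMap 0 r).measurable).enorm.pow_const 2),
    ← mul_assoc, ← mul_assoc]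
  refine mul_le_mul_left ?_ _
  refine le_trans (le_of_eq ?_) (mul_le_mul_right (circle_lower hr' (hd r hr' h0) a) _)
  rw [← ENNReal.ofReal_mul (by positivity), ← ENNReal.ofReal_mul hr'.le]
  congr 1
  ring

lemma coeff_zero {h : ℂ → ℂ} (hm : Measurable h) {ω : ℝ → ℝ≥0∞} (hω : Measurable ω)
    (hd : ∀ r, 0 < r → ω r ≠ 0 → DifferentiableOn ℂ h (closedBall 0 r)) (a : ℕ)
    (hfin : ∫⁻ z, ‖h z‖ₑ ^ 2 * ω ‖z‖ ≠ ∞)
    (hinf : ∫⁻ r in Ioi (0 : ℝ), ENNReal.ofReal (r ^ (2 * a + 1)) * ω r = ∞) :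
    iteratedDeriv a h 0 = 0 := by
  by_contra hne
  have h1 := coeff_lower hm hω hd a
  rw [hinf, ENNReal.mul_top, top_le_iff] at h1
  · exact hfin h1
  · have := norm_pos_iff.mpr hne
    have h2 : (0 : ℝ) < a.factorial := by exact_mod_cast a.factorial_pos
    have : 0 < 2 * π * (‖iteratedDeriv a h 0‖ / a.factorial) ^ 2 := by positivity
    simpa using this

lemma disc_lower {h : ℂ → ℂ} (hm : Measurable h) {ρ : ℝ} (hρ : 0 < ρ)
    (hd : DifferentiableOn ℂ h (ball 0 ρ)) (b : ℕ) :
    ‖iteratedDeriv b h 0‖ₑ ^ 2 *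
      ENNReal.ofReal (2 * π / (b.factorial ^ 2 * (2 * b + 2)) * ρ ^ (2 * b + 2)) ≤
      ∫⁻ w in ball (0 : ℂ) ρ, ‖h w‖ₑ ^ 2 := by
  have h1 := coeff_lower hm (ω := (Iio ρ).indicator 1) (measurable_one.indicator measurableSet_Iio)
    (fun r _ hr => hd.mono (closedBall_subset_ball (by
      by_contra h; exact hr (indicator_of_notMem (s := Iio ρ) h _)))) b
  have e1 : ∫⁻ z, ‖h z‖ₑ ^ 2 * (Iio ρ).indicator (1 : ℝ → ℝ≥0∞) ‖z‖ =
      ∫⁻ w in ball (0 : ℂ) ρ, ‖h w‖ₑ ^ 2 := by
    rw [← lintegral_indicator measurableSet_ball]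
    refine lintegral_congr fun z => ?_
    by_cases hz : ‖z‖ < ρ <;> simp [indicator, hz]
  have e2 : ∫⁻ r in Ioi (0 : ℝ), ENNReal.ofReal (r ^ (2 * b + 1)) * (Iio ρ).indicator 1 r =
      ENNReal.ofReal (ρ ^ (2 * b + 2) / (2 * b + 2)) := by
    have e3 : ∀ r : ℝ, ENNReal.ofReal (r ^ (2 * b + 1)) * (Iio ρ).indicator 1 r =
        (Iio ρ).indicator (fun r => ENNReal.ofReal (r ^ (2 * b + 1))) r := by
      intro r
      by_cases hr : r < ρ <;> simp [indicator, hr]
    simp only [e3]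
    rw [lintegral_indicator measurableSet_Iio, Measure.restrict_restrict measurableSet_Iio,
      Iio_inter_Ioi, ← ofReal_integral_eq_lintegral_ofReal
        (((continuous_pow _).integrableOn_Icc (a := 0) (b := ρ)).mono_set Ioo_subset_Icc_self)
        ((ae_restrict_iff' measurableSet_Ioo).mpr (Eventually.of_forall fun r hr =>
          pow_nonneg hr.1.le _)),
      ← integral_Ioc_eq_integral_Ioo, ← intervalIntegral.integral_of_le hρ.le, integral_pow]
    congr 1
    push_cast
    ring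
  rw [e1, e2] at h1
  refine le_trans (le_of_eq ?_) h1
  rw [← ofReal_norm, ← ENNReal.ofReal_pow (norm_nonneg _),
    ← ENNReal.ofReal_mul (by positivity), ← ENNReal.ofReal_mul (by positivity)]
  congr 1
  field_simp

end Pool.Agent.H97.Bergman
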