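import Pool.Agent.H97.Bergman1

set_option autoImplicit false

namespace Pool.Agent.H97.Bergman

open Complex Filter Topology Metric Set MeasureTheory
open scoped ENNReal Real

abbrev C2 := Fin 2 → ℂ

/-- Hartogs domain with radial fibre radius. -/
def Om (ρ : ℝ → ℝ) : Set C2 := {y | ‖y 1‖ < ρ ‖y 0‖}

variable {ρ : ℝ → ℝ}

lemma fub (hO : IsOpen (Om ρ)) {Φ : C2 → ℝ≥0∞} (hΦ : Measurable Φ) :
    ∫⁻ y in Om ρ, Φ y = ∫⁻ z : ℂ, ∫⁻ w in ball (0 : ℂ) (ρ ‖z‖), Φ ![z, w] := by
  rw [← lintegral_indicator hO.measurableSet,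
    ← ((volume_preserving_finTwoArrow ℂ).symm _).lintegral_comp_emb
      (MeasurableEquiv.finTwoArrow (α := ℂ)).symm.measurableEmbedding, Measure.volume_eq_prod,
    lintegral_prod (fun p : ℂ × ℂ => (Om ρ).indicator Φ (MeasurableEquiv.finTwoArrow.symm p))
      ((hΦ.indicator hO.measurableSet).comp
        (MeasurableEquiv.finTwoArrow (α := ℂ)).symm.measurable).aemeasurable]
  refine lintegral_congr fun z => ?_
  rw [← lintegral_indicator measurableSet_ball]
  refine lintegral_congr fun w => ?_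
  have e : (MeasurableEquiv.finTwoArrow (α := ℂ)).symm (z, w) = ![z, w] := rfl
  rw [e]
  by_cases hw : ‖w‖ < ρ ‖z‖ <;> simp [indicator, Om, hw]

lemma radial_int (hO : IsOpen (Om ρ)) (hρ : Measurable ρ) {φ : ℝ → ℝ≥0∞} (hφ : Measurable φ) :
    ∫⁻ y in Om ρ, φ ‖y 0‖ = ENNReal.ofReal (2 * π) * NNReal.pi *
      ∫⁻ r in Ioi (0 : ℝ), ENNReal.ofReal r * (φ r * ENNReal.ofReal (ρ r) ^ 2) := by
  rw [fub hO (Φ := fun y => φ ‖y 0‖) (hφ.comp (measurable_pi_apply 0).norm)]
  simp only [Matrix.cons_val_zero, lintegral_const, Measure.restrict_apply MeasurableSet.univ,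
    univ_inter, Complex.volume_ball]
  have hm : Measurable fun r => φ r * ENNReal.ofReal (ρ r) ^ 2 :=
    hφ.mul ((ENNReal.measurable_ofReal.comp hρ).pow_const 2)
  rw [mul_comm (ENNReal.ofReal (2 * π)), mul_assoc, ← radial hm, ← lintegral_const_mul _
    (f := fun z : ℂ => φ ‖z‖ * ENNReal.ofReal (ρ ‖z‖) ^ 2) (hm.comp measurable_norm)]
  refine lintegral_congr fun z => ?_
  ring

lemma line_eq (z w : ℂ) : (![z, 0] : C2) + w • ![0, 1] = ![z, w] := by
  ext i; fin_cases i <;> simp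

theorem bergman_meas (hO : IsOpen (Om ρ)) (hρ : Measurable ρ) (hpos : ∀ r, 0 ≤ r → 0 < ρ r)
    (hinf : ∀ a b : ℕ, (a, b) ≠ (1, 0) →
      ∫⁻ r in Ioi (0 : ℝ), ENNReal.ofReal (r ^ (2 * a + 1)) * ENNReal.ofReal (ρ r ^ (2 * b + 2))
        = ∞)
    {h : C2 → ℂ} (hm : Measurable h) (hd : DifferentiableOn ℂ h (Om ρ))
    (hfin : ∫⁻ y in Om ρ, ‖h y‖ₑ ^ 2 ≠ ∞) : ∃ c : ℂ, ∀ y ∈ Om ρ, h y = c * y 0 := by
  set H : ℕ → ℂ → ℂ := fun b z => iteratedDeriv b (fun w => h ![z, w]) 0 with hH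
  have hmem : ∀ z : ℂ, (![z, 0] : C2) ∈ Om ρ := fun z => by
    simpa [Om] using hpos _ (norm_nonneg z)
  have hHd : ∀ b, Differentiable ℂ (H b) := by
    intro b
    have e : H b = fun z => iteratedFDeriv ℂ b h ![z, 0] (fun _ => ![0, 1]) := by
      funext z
      rw [← SCV.iteratedDeriv_line hO hd (hmem z)]
      simp only [hH, line_eq]
    rw [e]
    intro z
    have h1 := (SCV.differentiableOn_iteratedFDeriv hO hd b).differentiableAt
      (hO.mem_nhds (hmem z))
    have h2 : DifferentiableAt ℂ (fun z : ℂ => (![z, 0] : C2)) z := by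
      rw [differentiableAt_pi]
      intro i
      fin_cases i <;> simp
    exact (h1.comp z h2).continuousMultilinear_apply_const _
  have hfib : ∀ z : ℂ, DifferentiableOn ℂ (fun w => h ![z, w]) (ball 0 (ρ ‖z‖)) := by
    intro z
    refine hd.comp (f := fun w : ℂ => (![z, w] : C2)) ?_ fun w hw => by simpa [Om] using hw
    apply Differentiable.differentiableOn
    rw [differentiable_pi]
    intro i
    fin_cases i <;> simp
  have hzero : ∀ a b : ℕ, (a, b) ≠ (1, 0) → iteratedDeriv a (H b) 0 = 0 := by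
    intro a b hab
    set κ : ℝ := 2 * π / (b.factorial ^ 2 * (2 * b + 2)) with hκ
    have hκ0 : 0 < κ := by
      have : (0 : ℝ) < b.factorial := by exact_mod_cast b.factorial_pos
      positivity
    have hmρ : Measurable fun r => ENNReal.ofReal (ρ r ^ (2 * b + 2)) :=
      ENNReal.measurable_ofReal.comp (hρ.pow_const _)
    refine coeff_zero (hHd b).continuous.measurable
      (ω := fun r => ENNReal.ofReal (κ * ρ r ^ (2 * b + 2)))
      (ENNReal.measurable_ofReal.comp ((hρ.pow_const _).const_mul κ))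
      (fun r _ _ => (hHd b).differentiableOn) a ?_ ?_
    · refine ne_top_of_le_ne_top hfin ?_
      rw [fub hO (Φ := fun y => ‖h y‖ₑ ^ 2) (hm.enorm.pow_const 2)]
      refine lintegral_mono fun z => ?_
      refine disc_lower (h := fun w => h ![z, w]) (hm.comp (Continuous.measurable ?_))
        (hpos _ (norm_nonneg z)) (hfib z) b
      fun_prop
    · simp only [ENNReal.ofReal_mul hκ0.le, mul_left_comm _ (ENNReal.ofReal κ)]
      rw [lintegral_const_mul _ (f := fun r => ENNReal.ofReal (r ^ (2 * a + 1)) *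
        ENNReal.ofReal (ρ r ^ (2 * b + 2)))
        ((ENNReal.measurable_ofReal.comp (measurable_id.pow_const _)).mul hmρ), hinf a b hab,
        ENNReal.mul_top (by simpa using hκ0)]
  have hHb : ∀ b, b ≠ 0 → ∀ z, H b z = 0 := by
    intro b hb z
    have h1 := hasSum_taylorSeries_of_entire (hHd b) 0 z
    have h2 : ∀ a, iteratedDeriv a (H b) 0 = 0 := fun a => hzero a b (by simp [hb])
    simp only [h2, smul_zero] at h1
    exact h1.unique hasSum_zero
  have hH0 : ∀ z, H 0 z = iteratedDeriv 1 (H 0) 0 * z := by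
    intro z
    have h1 := hasSum_taylorSeries_of_entire (hHd 0) 0 z
    have h2 := hasSum_single (f := fun n : ℕ => (n.factorial : ℂ)⁻¹ • (z - 0) ^ n •
      iteratedDeriv n (H 0) 0) 1 (fun a ha => by rw [hzero a 0 (by simp [ha])]; simp)
    rw [h1.unique h2]
    simp [mul_comm]
  refine ⟨iteratedDeriv 1 (H 0) 0, fun y hy => ?_⟩
  have h1 := hasSum_taylorSeries_on_ball (hfib (y 0)) (z := y 1) (by simpa [Om] using hy)
  have h2 := hasSum_single (f := fun n : ℕ => (n.factorial : ℂ)⁻¹ • (y 1 - 0) ^ n •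
    iteratedDeriv n (fun w => h ![y 0, w]) 0) 0 (fun b hb => by
      have := hHb b hb (y 0)
      simp only [hH] at this
      rw [this]; simp)
  have e : (![y 0, y 1] : C2) = y := by ext i; fin_cases i <;> rfl
  have h3 := h1.unique h2
  rw [e] at h3
  rw [h3, ← hH0]
  simp [hH]

theorem bergman (hO : IsOpen (Om ρ)) (hρ : Measurable ρ) (hpos : ∀ r, 0 ≤ r → 0 < ρ r)
    (hinf : ∀ a b : ℕ, (a, b) ≠ (1, 0) →
      ∫⁻ r in Ioi (0 : ℝ), ENNReal.ofReal (r ^ (2 * a + 1)) * ENNReal.ofReal (ρ r ^ (2 * b + 2))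
        = ∞)
    {h : C2 → ℂ} (hd : DifferentiableOn ℂ h (Om ρ)) (h2 : MemLp h 2 (volume.restrict (Om ρ))) :
    ∃ c : ℂ, ∀ y ∈ Om ρ, h y = c * y 0 := by
  classical
  have hm : Measurable ((Om ρ).piecewise h 0) :=
    hd.continuousOn.measurable_piecewise continuousOn_const hO.measurableSet
  have he : ∀ y ∈ Om ρ, (Om ρ).piecewise h 0 y = h y := fun y hy => piecewise_eq_of_mem _ _ _ hy
  obtain ⟨c, hc⟩ := bergman_meas hO hρ hpos hinf hm (hd.congr he) (by
    rw [setLIntegral_congr_fun hO.measurableSet (g := fun y => ‖h y‖ₑ ^ 2)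
      (fun y hy => by simp only [he y hy])]
    have := lintegral_rpow_enorm_lt_top_of_eLpNorm_lt_top (by norm_num) (by norm_num) h2.2
    simpa using this.ne)
  exact ⟨c, fun y hy => by rw [← he y hy, hc y hy]⟩

lemma Om_connected (hpos : ∀ r, 0 ≤ r → 0 < ρ r) : IsConnected (Om ρ) := by
  have h0 : (0 : C2) ∈ Om ρ := by simpa [Om] using hpos 0 le_rfl
  refine ⟨⟨0, h0⟩, isPreconnected_of_forall 0 fun y _ => ?_⟩
  refine ⟨segment ℝ 0 ![y 0, 0] ∪ segment ℝ ![y 0, 0] y, ?_, Or.inl (left_mem_segment _ _ _),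
    Or.inr (right_mem_segment _ _ _), IsPreconnected.union ![y 0, 0] (right_mem_segment _ _ _)
      (left_mem_segment _ _ _) (convex_segment _ _).isPreconnected
      (convex_segment _ _).isPreconnected⟩
  rintro x (⟨a, b, ha, hb, hab, rfl⟩ | ⟨a, b, ha, hb, hab, rfl⟩)
  · simpa [Om] using hpos _ (by positivity)
  · have e0 : (a • (![y 0, 0] : C2) + b • y) 0 = y 0 := by
      simp only [Pi.add_apply, Pi.smul_apply, Matrix.cons_val_zero]
      rw [← add_smul, hab, one_smul]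
    have e1 : (a • (![y 0, 0] : C2) + b • y) 1 = b • y 1 := by simp
    change ‖(a • (![y 0, 0] : C2) + b • y) 1‖ < ρ ‖(a • (![y 0, 0] : C2) + b • y) 0‖
    rw [e0, e1, norm_smul, Real.norm_of_nonneg hb]
    have : ‖y 1‖ < ρ ‖y 0‖ := ‹y ∈ Om ρ›
    nlinarith [norm_nonneg (y 1)]

end Pool.Agent.H97.Bergman
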