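import Pool.Agent.H97.Bergman2

set_option autoImplicit false

namespace Pool.Agent.H97.Bergman

open Filter Topology Metric Set MeasureTheory
open scoped ENNReal Real

noncomputable def r3 (r : ℝ) : ℝ := √(((r + 2) ^ 5 * Real.log (r + 2) ^ 2)⁻¹)
noncomputable def r1 (r : ℝ) : ℝ := (Ioo (0 : ℝ) 1).indicator (fun r => r⁻¹) r
noncomputable def r2 (r : ℝ) : ℝ := (Ioo (1 : ℝ) 2).indicator (fun r => (√(√(r - 1)))⁻¹) r
noncomputable def rho (r : ℝ) : ℝ := max (r3 r) (max (r1 r) (r2 r))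

lemma log_pos' {r : ℝ} (hr : 0 ≤ r) : 0 < Real.log (r + 2) := Real.log_pos (by linarith)

lemma r3_pos {r : ℝ} (hr : 0 ≤ r) : 0 < r3 r := by
  have := log_pos' hr
  unfold r3
  positivity

lemma r3_sq {r : ℝ} (hr : 0 ≤ r) : r3 r ^ 2 = ((r + 2) ^ 5 * Real.log (r + 2) ^ 2)⁻¹ :=
  Real.sq_sqrt (by positivity)

lemma r1_nonneg (r : ℝ) : 0 ≤ r1 r := indicator_nonneg (fun x hx => inv_nonneg.mpr hx.1.le) r
lemma r2_nonneg (r : ℝ) : 0 ≤ r2 r := indicator_nonneg (fun x _ => by positivity) r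

lemma rho_pos (r : ℝ) (hr : 0 ≤ r) : 0 < rho r := (r3_pos hr).trans_le (le_max_left _ _)

lemma rho_meas : Measurable rho := by
  refine Measurable.max ?_ (Measurable.max ?_ ?_)
  · unfold r3; fun_prop
  · exact measurable_inv.indicator measurableSet_Ioo
  · exact Measurable.indicator (by fun_prop) measurableSet_Ioo

lemma open_ind {s : Set ℝ} (hs : IsOpen s) {g : ℝ → ℝ} (hg : ContinuousOn g s) :
    IsOpen {y : C2 | ‖y 1‖ < s.indicator g ‖y 0‖} := by
  rw [isOpen_iff_mem_nhds]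
  intro y hy
  have hy' : ‖y 1‖ < s.indicator g ‖y 0‖ := hy
  have h0 : ‖y 0‖ ∈ s := by
    by_contra h
    rw [indicator_of_notMem h] at hy'
    linarith [norm_nonneg (y 1)]
  rw [indicator_of_mem h0] at hy'
  have hc : Continuous fun y : C2 => ‖y 0‖ := by fun_prop
  have h1 : ContinuousAt (fun y : C2 => g ‖y 0‖) y :=
    ContinuousAt.comp (f := fun y : C2 => ‖y 0‖) (hg.continuousAt (hs.mem_nhds h0)) hc.continuousAt
  have h2 : ContinuousAt (fun y : C2 => ‖y 1‖) y := (continuous_apply 1).norm.continuousAt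
  filter_upwards [h2.eventually_lt h1 hy', (hs.preimage hc).mem_nhds h0] with x hx1 hx2
  have hx2' : ‖x 0‖ ∈ s := hx2
  rwa [indicator_of_mem hx2']

lemma Om_open : IsOpen (Om rho) := by
  have e : Om rho = {y : C2 | ‖y 1‖ < r3 ‖y 0‖} ∪ ({y : C2 | ‖y 1‖ < r1 ‖y 0‖} ∪
      {y : C2 | ‖y 1‖ < r2 ‖y 0‖}) := by
    ext y; simp [Om, rho]
  rw [e]
  refine IsOpen.union (isOpen_lt (by fun_prop) ?_) (IsOpen.union (open_ind isOpen_Ioo ?_)
    (open_ind isOpen_Ioo ?_))
  · unfold r3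
    refine Continuous.sqrt (Continuous.inv₀ (Continuous.mul (by fun_prop) (Continuous.pow
      (Continuous.log (by fun_prop) fun y => by positivity) 2)) fun y => ?_)
    have := log_pos' (norm_nonneg (y 0))
    positivity
  · exact continuousOn_inv₀.mono fun x hx => hx.1.ne'
  · refine ContinuousOn.inv₀ (by fun_prop) fun x hx => ?_
    have : 0 < x - 1 := by linarith [hx.1]
    positivity

lemma inf_of {f : ℝ → ℝ≥0∞} {g : ℝ → ℝ} {s : Set ℝ} (hs : MeasurableSet s) (hs0 : s ⊆ Ioi 0)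
    (hg : Measurable g) (hg0 : ∀ r ∈ s, 0 ≤ g r) (hn : ¬ IntegrableOn g s) {c : ℝ} (hc : 0 < c)
    (hle : ∀ r ∈ s, ENNReal.ofReal (c * g r) ≤ f r) : ∫⁻ r in Ioi (0 : ℝ), f r = ∞ := by
  rw [← top_le_iff]
  refine le_trans ?_ (lintegral_mono_set hs0)
  refine le_trans ?_ (setLIntegral_mono' hs hle)
  rw [top_le_iff]
  by_contra h
  apply hn
  have h1 := (lintegral_ofReal_ne_top_iff_integrable (f := fun r => c * g r)
    (hg.const_mul c).aestronglyMeasurable
    ((ae_restrict_iff' hs).mpr (Eventually.of_forall fun r hr =>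
      mul_nonneg hc.le (hg0 r hr)))).mp h
  exact (integrable_const_mul_iff (IsUnit.mk0 c hc.ne') g).mp h1

lemma le_rho3 (r : ℝ) : r3 r ≤ rho r := le_max_left _ _
lemma le_rho1 (r : ℝ) : r1 r ≤ rho r := (le_max_left _ _).trans (le_max_right _ _)
lemma le_rho2 (r : ℝ) : r2 r ≤ rho r := (le_max_right _ _).trans (le_max_right _ _)

lemma big_inf {q : ℝ} (hq : 3 < q) :
    ∫⁻ r in Ioi (0 : ℝ), ENNReal.ofReal (r * (r ^ q * rho r ^ 2)) = ∞ := by
  set ε := (q - 3) / 2 with hε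
  have hε0 : 0 < ε := by linarith
  refine inf_of (g := fun r => r⁻¹) (s := Ioi 2) measurableSet_Ioi (Ioi_subset_Ioi (by norm_num))
    measurable_inv (fun r hr => inv_nonneg.mpr (by linarith [hr.out])) not_integrableOn_Ioi_inv
    (c := ε ^ 2 / (2 ^ 5 * (2 ^ ε) ^ 2)) (by positivity) fun r hr => ENNReal.ofReal_le_ofReal ?_
  have hr2 : 2 < r := hr
  have hr0 : 0 < r := by linarith
  have h1 : r3 r ^ 2 ≤ rho r ^ 2 := pow_le_pow_left₀ (r3_pos hr0.le).le (le_rho3 r) 2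
  have h2 : Real.log (r + 2) ≤ 2 ^ ε * r ^ ε / ε := by
    refine (Real.log_le_rpow_div (by linarith) hε0).trans ?_
    rw [← Real.mul_rpow (by norm_num) hr0.le]
    gcongr
    linarith
  have h3 : r ^ q = r ^ 3 * (r ^ ε) ^ 2 := by
    rw [← Real.rpow_natCast, ← Real.rpow_natCast, ← Real.rpow_mul hr0.le, ← Real.rpow_add hr0]
    congr 1
    rw [hε]; push_cast; ring
  have h4 : ((2 * r) ^ 5 * (2 ^ ε * r ^ ε / ε) ^ 2)⁻¹ ≤ r3 r ^ 2 := by
    rw [r3_sq hr0.le]
    have := log_pos' hr0.le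
    gcongr
    linarith
  calc ε ^ 2 / (2 ^ 5 * (2 ^ ε) ^ 2) * r⁻¹
      = r * (r ^ q * ((2 * r) ^ 5 * (2 ^ ε * r ^ ε / ε) ^ 2)⁻¹) := by
        rw [h3]; field_simp
    _ ≤ _ := by gcongr; exact h4.trans h1

lemma mono_inf (a b : ℕ) (hab : (a, b) ≠ (1, 0)) :
    ∫⁻ r in Ioi (0 : ℝ), ENNReal.ofReal (r ^ (2 * a + 1)) * ENNReal.ofReal (rho r ^ (2 * b + 2))
      = ∞ := by
  rcases Nat.eq_zero_or_pos b with rfl | hb
  · rcases Nat.eq_zero_or_pos a with rfl | ha
    · refine inf_of (g := fun r => r⁻¹) (s := Ioo 0 1) measurableSet_Ioo Ioo_subset_Ioi_self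
        measurable_inv (fun r hr => inv_nonneg.mpr hr.1.le) ?_ one_pos fun r hr => ?_
      · rw [← intervalIntegrable_iff_integrableOn_Ioo_of_le zero_le_one,
          intervalIntegrable_inv_iff]
        simp
      · rw [← ENNReal.ofReal_mul (pow_nonneg hr.1.le _)]
        refine ENNReal.ofReal_le_ofReal ?_
        have h1 : r⁻¹ ≤ rho r := by simpa [r1, indicator_of_mem hr] using le_rho1 r
        have h0 := hr.1
        calc 1 * r⁻¹ = r ^ (2 * 0 + 1) * r⁻¹ ^ (2 * 0 + 2) := by norm_num; field_simp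
          _ ≤ _ := by gcongr
    · have ha2 : 2 ≤ a := by
        rcases Nat.lt_or_ge a 2 with h | h
        · exfalso; apply hab; congr; omega
        · exact h
      have hq : (3 : ℝ) < (2 * a : ℕ) := by exact_mod_cast (by omega : 3 < 2 * a)
      rw [← big_inf hq]
      refine setLIntegral_congr_fun measurableSet_Ioi fun r hr => ?_
      have hr0 : 0 < r := hr
      rw [← ENNReal.ofReal_mul (by positivity), Real.rpow_natCast]
      congr 1
      ring
  · refine inf_of (g := fun r => (r - 1)⁻¹) (s := Ioo 1 2) measurableSet_Ioo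
      (fun r hr => lt_trans one_pos hr.1) (by fun_prop)
      (fun r hr => inv_nonneg.mpr (by linarith [hr.1])) ?_ one_pos fun r hr => ?_
    · rw [← intervalIntegrable_iff_integrableOn_Ioo_of_le one_le_two,
        intervalIntegrable_sub_inv_iff]
      simp
    · have h0 : 0 < r - 1 := by linarith [hr.1]
      rw [← ENNReal.ofReal_mul (pow_nonneg (by linarith) _)]
      refine ENNReal.ofReal_le_ofReal ?_
      have h1 : (√(√(r - 1)))⁻¹ ≤ rho r := by simpa [r2, indicator_of_mem hr] using le_rho2 r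
      have h2 : 1 ≤ (√(√(r - 1)))⁻¹ := by
        rw [one_le_inv₀ (by positivity), Real.sqrt_le_one, Real.sqrt_le_one]
        linarith [hr.2]
      have h3 : (√(√(r - 1)))⁻¹ ^ 4 = (r - 1)⁻¹ := by
        rw [inv_pow, show 4 = 2 * 2 by norm_num, pow_mul, Real.sq_sqrt (by positivity),
          Real.sq_sqrt h0.le]
      calc 1 * (r - 1)⁻¹ = 1 * (√(√(r - 1)))⁻¹ ^ 4 := by rw [h3]
        _ ≤ 1 * (√(√(r - 1)))⁻¹ ^ (2 * b + 2) := by gcongr; omega
        _ ≤ _ := by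
          have h4 : 1 ≤ r ^ (2 * a + 1) := one_le_pow₀ hr.1.le
          gcongr

lemma small_fin {q : ℝ} (hq1 : 1 ≤ q) (hq3 : q ≤ 3) :
    ∫⁻ r in Ioi (0 : ℝ), ENNReal.ofReal (r * (r ^ q * rho r ^ 2)) < ∞ := by
  set F : ℝ → ℝ := fun r => ((r + 2) * Real.log (r + 2) ^ 2)⁻¹ +
    (Ioo (0 : ℝ) 1).indicator (fun _ => 1) r +
    (Ioo (1 : ℝ) 2).indicator (fun r => 16 * (r - 1) ^ (-(1 / 2) : ℝ)) r with hF
  have i1 : IntegrableOn (fun r => ((r + 2) * Real.log (r + 2) ^ 2)⁻¹) (Ioi (0 : ℝ)) := by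
    refine integrableOn_Ioi_deriv_of_nonneg' (g := fun r => -(Real.log (r + 2))⁻¹) (l := -0)
      (fun x hx => ?_) (fun x hx => by have : 0 < x := hx; positivity) ?_
    · have hx0 : 0 ≤ x := hx
      have h1 := ((((hasDerivAt_id x).add_const 2).log (by simp; linarith)).inv
        (log_pos' hx0).ne').neg
      refine h1.congr_deriv ?_
      simp only [id]
      field_simp
    · exact ((Real.tendsto_log_atTop.comp
        (tendsto_atTop_add_const_right _ 2 tendsto_id)).inv_tendsto_atTop).neg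
  have i2 : Integrable ((Ioo (0 : ℝ) 1).indicator (fun _ => (1 : ℝ))) :=
    (integrable_indicator_iff measurableSet_Ioo).mpr (integrableOn_const (by simp))
  have i3 : Integrable ((Ioo (1 : ℝ) 2).indicator (fun r => 16 * (r - 1) ^ (-(1 / 2) : ℝ))) := by
    rw [integrable_indicator_iff measurableSet_Ioo,
      ← intervalIntegrable_iff_integrableOn_Ioo_of_le one_le_two]
    refine IntervalIntegrable.const_mul ?_ _
    have := (intervalIntegral.intervalIntegrable_rpow' (a := 0) (b := 1) (r := -(1 / 2))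
      (by norm_num)).comp_sub_right 1
    simpa [one_add_one_eq_two] using this
  have hFi : IntegrableOn F (Ioi 0) := (i1.add i2.integrableOn).add i3.integrableOn
  refine lt_of_le_of_lt (setLIntegral_mono' measurableSet_Ioi fun r hr =>
    ENNReal.ofReal_le_ofReal ?_) hFi.lintegral_lt_top
  have hr0 : 0 < r := hr
  have h1 : rho r ^ 2 ≤ r3 r ^ 2 + r1 r ^ 2 + r2 r ^ 2 := by
    unfold rho
    rcases max_cases (r3 r) (max (r1 r) (r2 r)) with ⟨h, -⟩ | ⟨h, -⟩ <;> rw [h]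
    · nlinarith [sq_nonneg (r1 r), sq_nonneg (r2 r)]
    · rcases max_cases (r1 r) (r2 r) with ⟨h, -⟩ | ⟨h, -⟩ <;> rw [h] <;>
        nlinarith [sq_nonneg (r1 r), sq_nonneg (r2 r), sq_nonneg (r3 r)]
  have h2 : r ^ q ≤ (r + 2) ^ 3 := by
    calc r ^ q ≤ (r + 2) ^ q := by gcongr; linarith
      _ ≤ (r + 2) ^ (3 : ℝ) := Real.rpow_le_rpow_of_exponent_le (by linarith) hq3
      _ = _ := by norm_cast
  have h3 : r * (r ^ q * r3 r ^ 2) ≤ ((r + 2) * Real.log (r + 2) ^ 2)⁻¹ := by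
    rw [r3_sq hr0.le]
    have := log_pos' hr0.le
    calc _ ≤ (r + 2) * ((r + 2) ^ 3 * ((r + 2) ^ 5 * Real.log (r + 2) ^ 2)⁻¹) := by
          gcongr; linarith
      _ = _ := by field_simp
  have h4 : r * (r ^ q * r1 r ^ 2) ≤ (Ioo (0 : ℝ) 1).indicator (fun _ => 1) r := by
    by_cases h : r ∈ Ioo (0 : ℝ) 1
    · simp only [r1, indicator_of_mem h]
      have : r ^ q ≤ r ^ (1 : ℝ) := Real.rpow_le_rpow_of_exponent_ge hr0 h.2.le hq1
      rw [Real.rpow_one] at this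
      calc _ ≤ r * (r * r⁻¹ ^ 2) := by gcongr
        _ = 1 := by field_simp
    · simp [r1, indicator_of_notMem h]
  have h5 : r * (r ^ q * r2 r ^ 2) ≤
      (Ioo (1 : ℝ) 2).indicator (fun r => 16 * (r - 1) ^ (-(1 / 2) : ℝ)) r := by
    by_cases h : r ∈ Ioo (1 : ℝ) 2
    · simp only [r2, indicator_of_mem h]
      have h0 : 0 < r - 1 := by linarith [h.1]
      have e : (√(√(r - 1)))⁻¹ ^ 2 = (r - 1) ^ (-(1 / 2) : ℝ) := by
        rw [inv_pow, Real.sq_sqrt (by positivity), Real.rpow_neg h0.le, Real.sqrt_eq_rpow]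
      have : r ^ q ≤ 8 := by
        calc r ^ q ≤ 2 ^ q := by gcongr; exact h.2.le
          _ ≤ 2 ^ (3 : ℝ) := Real.rpow_le_rpow_of_exponent_le (by norm_num) hq3
          _ = 8 := by norm_num
      rw [e]
      calc _ ≤ 2 * (8 * (r - 1) ^ (-(1 / 2) : ℝ)) := by gcongr; exact h.2.le
        _ = _ := by ring
    · simp [r2, indicator_of_notMem h]
  calc r * (r ^ q * rho r ^ 2) ≤ r * (r ^ q * (r3 r ^ 2 + r1 r ^ 2 + r2 r ^ 2)) := by gcongr
    _ = r * (r ^ q * r3 r ^ 2) + r * (r ^ q * r1 r ^ 2) + r * (r ^ q * r2 r ^ 2) := by ring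
    _ ≤ F r := by rw [hF]; dsimp only; linarith

lemma lint_e {q : ℝ} (hq : 0 < q) : ∫⁻ y in Om rho, ‖y 0‖ₑ ^ q =
    ENNReal.ofReal (2 * π) * NNReal.pi *
      ∫⁻ r in Ioi (0 : ℝ), ENNReal.ofReal (r * (r ^ q * rho r ^ 2)) := by
  have h := radial_int Om_open rho_meas (φ := fun r => ENNReal.ofReal r ^ q)
    (ENNReal.measurable_ofReal.pow_const q)
  simp only [ofReal_norm] at h
  rw [h]
  congr 1
  refine setLIntegral_congr_fun measurableSet_Ioi fun r hr => ?_
  have hr0 : 0 < r := hr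
  rw [ENNReal.ofReal_mul hr0.le, ENNReal.ofReal_mul (by positivity),
    ENNReal.ofReal_rpow_of_pos hr0, ENNReal.ofReal_pow (rho_pos r hr0.le).le]

lemma memLp_e {q : ℝ} (hq1 : 1 ≤ q) (hq3 : q ≤ 3) :
    MemLp (fun y : C2 => y 0) (ENNReal.ofReal q) (volume.restrict (Om rho)) := by
  have hq : 0 < q := by linarith
  refine ⟨(measurable_pi_apply 0).aestronglyMeasurable, ?_⟩
  rw [eLpNorm_lt_top_iff_lintegral_rpow_enorm_lt_top (by simpa using hq) (by simp),
    ENNReal.toReal_ofReal hq.le, lint_e hq]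
  exact ENNReal.mul_lt_top (ENNReal.mul_lt_top ENNReal.ofReal_lt_top ENNReal.coe_lt_top)
    (small_fin hq1 hq3)

lemma lint_e_inf {q : ℝ} (hq : 3 < q) : ∫⁻ y in Om rho, ‖y 0‖ₑ ^ q = ∞ := by
  rw [lint_e (by linarith), big_inf hq, ENNReal.mul_top]
  simp [Real.pi_pos, NNReal.pi_ne_zero]

end Pool.Agent.H97.Bergman
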