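import Mathlib

set_option autoImplicit false

namespace Pool.Agent.H97.Bergman

open Filter Topology Set MeasureTheory
open scoped ENNReal ComplexConjugate

variable {X : Type*} [MeasurableSpace X] {μ : Measure X} {e : X → ℂ}

lemma int_mul_conj {f g : X → ℂ} (hf : MemLp f 2 μ) (hg : MemLp g 2 μ) :
    Integrable (fun x => f x * conj (g x)) μ := by
  have hg' : MemLp (fun x => conj (g x)) 2 μ := Complex.conjCLE.toContinuousLinearMap.comp_memLp' hg
  exact hf.integrable_mul hg'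

lemma trunc_sup (he : Measurable e) (t : ℝ) :
    ⨆ k : ℕ, ∫⁻ x, {x | ‖e x‖ ≤ k}.indicator (fun x => ‖e x‖ₑ ^ t) x ∂μ = ∫⁻ x, ‖e x‖ₑ ^ t ∂μ := by
  rw [← lintegral_iSup]
  · refine lintegral_congr fun x => ?_
    apply le_antisymm (iSup_le fun k => indicator_le_self _ _ _)
    obtain ⟨k, hk⟩ := exists_nat_ge ‖e x‖
    exact le_iSup_of_le k (by rw [indicator_of_mem (show x ∈ {x | ‖e x‖ ≤ k} from hk)])
  · intro k
    exact (he.enorm.pow_const t).indicator (measurableSet_le he.norm measurable_const)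
  · intro k l hkl x
    refine indicator_le_indicator_of_subset (fun y hy => ?_) (fun _ => zero_le) x
    exact le_trans hy (by exact_mod_cast hkl : (k : ℝ) ≤ l)

/-- The test functions. -/
noncomputable def tf (e : X → ℂ) (s : ℝ) (k : ℕ) (x : X) : ℂ :=
  (({x | ‖e x‖ ≤ k}.indicator (fun x => ‖e x‖ ^ s) x : ℝ) : ℂ) * e x

lemma tf_meas (he : Measurable e) (s : ℝ) (k : ℕ) : Measurable (tf e s k) :=
  (Complex.measurable_ofReal.comp ((he.norm.pow_const s).indicator
    (measurableSet_le he.norm measurable_const))).mul he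

lemma tf_enorm {s : ℝ} (hs : 0 ≤ s) (k : ℕ) {p : ℝ} (hp : 0 < p) (x : X) :
    ‖tf e s k x‖ₑ ^ p = {x | ‖e x‖ ≤ k}.indicator (fun x => ‖e x‖ₑ ^ ((s + 1) * p)) x := by
  by_cases h : x ∈ {x | ‖e x‖ ≤ k}
  · simp only [tf, indicator_of_mem h]
    rw [ENNReal.rpow_mul, ← ofReal_norm, ← ofReal_norm,
      ENNReal.ofReal_rpow_of_nonneg (norm_nonneg _) (by linarith : 0 ≤ s + 1), norm_mul,
      Complex.norm_real, Real.norm_of_nonneg (by positivity),
      Real.rpow_add_of_nonneg (norm_nonneg _) hs zero_le_one, Real.rpow_one]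
  · simp [tf, indicator_of_notMem h, hp]

lemma trunc_fin (h2 : MemLp e 2 μ) (k : ℕ) {t : ℝ} (ht : 2 ≤ t) :
    ∫⁻ x, {x | ‖e x‖ ≤ k}.indicator (fun x => ‖e x‖ₑ ^ t) x ∂μ < ∞ := by
  have h := lintegral_rpow_enorm_lt_top_of_eLpNorm_lt_top (by norm_num) (by norm_num) h2.2
  simp only [ENNReal.toReal_ofNat] at h
  calc _ ≤ ∫⁻ x, ENNReal.ofReal k ^ (t - 2) * ‖e x‖ₑ ^ (2 : ℝ) ∂μ := by
        refine lintegral_mono fun x => ?_
        by_cases hx : x ∈ {x | ‖e x‖ ≤ k}
        · rw [indicator_of_mem hx]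
          conv_lhs => rw [show t = (t - 2) + 2 by ring]
          rw [ENNReal.rpow_add_of_nonneg _ _ (by linarith) (by norm_num)]
          have h3 : ‖e x‖ₑ ≤ ENNReal.ofReal k := by
            rw [← ofReal_norm]; exact ENNReal.ofReal_le_ofReal hx
          exact mul_le_mul_left (ENNReal.rpow_le_rpow h3 (by linarith)) _
        · simp [indicator_of_notMem hx]
    _ < ∞ := by
        have h3 : ENNReal.ofReal k ^ (t - 2) ≠ ∞ :=
          ENNReal.rpow_ne_top_of_nonneg (by linarith) ENNReal.ofReal_ne_top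
        rw [lintegral_const_mul' _ _ h3]
        exact ENNReal.mul_lt_top h3.lt_top h

lemma tf_memLp (he : Measurable e) (h2 : MemLp e 2 μ) {s : ℝ} (hs : 0 ≤ s) (k : ℕ) {p : ℝ}
    (hp : 0 < p) (hsp : 2 ≤ (s + 1) * p) : MemLp (tf e s k) (ENNReal.ofReal p) μ := by
  refine ⟨(tf_meas he s k).aestronglyMeasurable, ?_⟩
  rw [eLpNorm_lt_top_iff_lintegral_rpow_enorm_lt_top (by simpa using hp) (by simp),
    ENNReal.toReal_ofReal hp.le]
  simp only [tf_enorm hs k hp]
  exact trunc_fin h2 k hsp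

lemma tf_int (he : Measurable e) {s : ℝ} (hs : 0 ≤ s) (k : ℕ) :
    ∫ x, tf e s k x * conj (e x) ∂μ =
      ((∫⁻ x, {x | ‖e x‖ ≤ k}.indicator (fun x => ‖e x‖ₑ ^ (s + 2)) x ∂μ).toReal : ℝ) := by
  have hm : MeasurableSet {x | ‖e x‖ ≤ k} := measurableSet_le he.norm measurable_const
  have e1 : ∀ x, tf e s k x * conj (e x) =
      (({x | ‖e x‖ ≤ k}.indicator (fun x => ‖e x‖ ^ (s + 2)) x : ℝ) : ℂ) := by
    intro x
    by_cases h : x ∈ {x | ‖e x‖ ≤ k}
    · simp only [tf, indicator_of_mem h]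
      rw [mul_assoc, Complex.mul_conj', Real.rpow_add_of_nonneg (norm_nonneg _) hs (by norm_num),
        Real.rpow_two]
      push_cast
      ring
    · simp [tf, indicator_of_notMem h]
  simp only [e1]
  rw [integral_complex_ofReal, integral_eq_lintegral_of_nonneg_ae
    (Eventually.of_forall fun x => indicator_nonneg (fun _ _ => by positivity) x)
    ((he.norm.pow_const _).indicator hm).aestronglyMeasurable]
  congr 2
  refine lintegral_congr fun x => ?_
  by_cases h : x ∈ {x | ‖e x‖ ≤ k}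
  · simp only [indicator_of_mem h]
    rw [← ofReal_norm, ENNReal.ofReal_rpow_of_nonneg (norm_nonneg _) (by linarith)]
  · simp [indicator_of_notMem h]

theorem rank_one (he : Measurable e)
    (hfin : ∀ q : ℝ, 1 ≤ q → q ≤ 3 → MemLp e (ENNReal.ofReal q) μ)
    (hinf : ∀ q : ℝ, 3 < q → ∫⁻ x, ‖e x‖ₑ ^ q ∂μ = ∞) (H : (X → ℂ) → Prop)
    (hH : ∀ h, H h → MemLp h 2 μ → ∃ c : ℂ, h =ᵐ[μ] fun x => c * e x)
    (hH' : ∀ c : ℂ, H (fun x => c * e x)) (p : ℝ) (hp : 1 < p) :
    (∃ C : ℝ, ∀ f g : X → ℂ, MemLp f 2 μ → MemLp f (ENNReal.ofReal p) μ → H g → MemLp g 2 μ →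
      (∀ h : X → ℂ, H h → MemLp h 2 μ → ∫ z, (f z - g z) * conj (h z) ∂μ = 0) →
      eLpNorm g (ENNReal.ofReal p) μ ≤ ENNReal.ofReal C * eLpNorm f (ENNReal.ofReal p) μ) ↔
    (3 / 2 ≤ p ∧ p ≤ 3) := by
  have hp0 : 0 < p := by linarith
  have h2 : MemLp e 2 μ := by simpa using hfin 2 (by norm_num) (by norm_num)
  have hne : ¬ e =ᵐ[μ] 0 := by
    intro h
    have h1 := hinf 4 (by norm_num)
    rw [lintegral_congr_ae (g := fun _ => 0) (h.mono fun x hx => by simp [hx])] at h1
    simp at h1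
  have hpos : ∀ t : ℝ, 0 < t → ∫⁻ x, ‖e x‖ₑ ^ t ∂μ ≠ 0 := by
    intro t ht h
    rw [lintegral_eq_zero_iff (he.enorm.pow_const t)] at h
    exact hne (h.mono fun x hx => by simpa [ht, ht.not_gt] using hx)
  set N : ℝ := ∫ x, ‖e x‖ ^ 2 ∂μ with hN
  have hNc : ∫ x, e x * conj (e x) ∂μ = N := by
    rw [hN, ← integral_complex_ofReal]
    refine integral_congr_ae (Eventually.of_forall fun x => ?_)
    simp [Complex.mul_conj']
  have hN0 : 0 < N := by
    refine lt_of_le_of_ne (integral_nonneg fun x => sq_nonneg _) fun h => hne ?_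
    have := (integral_eq_zero_iff_of_nonneg (fun x => sq_nonneg _)
      ((memLp_two_iff_integrable_sq_norm h2.1).mp h2)).mp h.symm
    exact this.mono fun x hx => by simpa using hx
  have hNc0 : (N : ℂ) ≠ 0 := by exact_mod_cast hN0.ne'
  have horth : ∀ f, MemLp f 2 μ → ∀ c : ℂ, ∫ z, (f z - c * e z) * conj (e z) ∂μ =
      ∫ z, f z * conj (e z) ∂μ - c * N := by
    intro f hf c
    simp only [sub_mul, mul_assoc]
    rw [integral_sub (int_mul_conj hf h2) ((int_mul_conj h2 h2).const_mul c), integral_const_mul,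
      hNc]
  have hnorm : ∀ (c : ℂ) (q : ℝ≥0∞), eLpNorm (fun x => c * e x) q μ = ‖c‖ₑ * eLpNorm e q μ :=
    fun c q => eLpNorm_const_smul c e q μ
  have hel : ∀ (f : X → ℂ) (q : ℝ), 0 < q → eLpNorm f (ENNReal.ofReal q) μ =
      (∫⁻ x, ‖f x‖ₑ ^ q ∂μ) ^ (1 / q) := fun f q hq => by
    rw [eLpNorm_eq_lintegral_rpow_enorm_toReal (by simpa using hq) (by simp),
      ENNReal.toReal_ofReal hq.le]
  have hpq := Real.HolderConjugate.conjExponent hp
  set q := p.conjExponent with hq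
  have hq' : q = p / (p - 1) := rfl
  have hp1 : 0 < p - 1 := by linarith
  constructor
  · rintro ⟨C, hC⟩
    have key : ∀ f, MemLp f 2 μ → MemLp f (ENNReal.ofReal p) μ →
        ‖(∫ z, f z * conj (e z) ∂μ) / N‖ₑ * eLpNorm e (ENNReal.ofReal p) μ ≤
          ENNReal.ofReal C * eLpNorm f (ENNReal.ofReal p) μ := by
      intro f hf hfp
      rw [← hnorm]
      refine hC f _ hf hfp (hH' _) (h2.const_mul _) fun h hh hh2 => ?_
      obtain ⟨c, hc⟩ := hH h hh hh2
      have e1 : ∫ z, (f z - (∫ z, f z * conj (e z) ∂μ) / N * e z) * conj (h z) ∂μ =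
          ∫ z, conj c * ((f z - (∫ z, f z * conj (e z) ∂μ) / N * e z) * conj (e z)) ∂μ := by
        refine integral_congr_ae (hc.mono fun x hx => ?_)
        simp only [hx, map_mul]
        ring
      rw [e1, integral_const_mul, horth f hf, div_mul_cancel₀ _ hNc0, sub_self, mul_zero]
    have hp3 : p ≤ 3 := by
      by_contra hlt
      push Not at hlt
      obtain ⟨k, hk⟩ : ∃ k : ℕ,
          ∫⁻ x, {x | ‖e x‖ ≤ k}.indicator (fun x => ‖e x‖ₑ ^ ((0 : ℝ) + 2)) x ∂μ ≠ 0 := by
        by_contra h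
        push Not at h
        apply hpos (0 + 2) (by norm_num)
        rw [← trunc_sup he]
        simp only [h, iSup_const]
      have hf2 : MemLp (tf e 0 k) 2 μ := by
        simpa using tf_memLp he h2 le_rfl k (p := 2) (by norm_num) (by norm_num)
      have hfp := tf_memLp he h2 le_rfl k hp0 (by linarith)
      have h3 := key _ hf2 hfp
      rw [tf_int he le_rfl, hel e p hp0, hinf p hlt, ENNReal.top_rpow_of_pos (by positivity),
        ENNReal.mul_top, top_le_iff] at h3
      · exact ENNReal.mul_ne_top ENNReal.ofReal_ne_top hfp.2.ne h3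
      · rw [enorm_ne_zero]
        refine div_ne_zero ?_ hNc0
        exact_mod_cast ENNReal.toReal_ne_zero.mpr ⟨hk, (trunc_fin h2 k (by norm_num)).ne⟩
    refine ⟨?_, hp3⟩
    by_contra hlt
    push Not at hlt
    have hq3 : 3 < q := by rw [hq', lt_div_iff₀ hp1]; linarith
    have hsp : (q - 2 + 1) * p = q := by rw [hq']; field_simp; ring
    set b := (eLpNorm e (ENNReal.ofReal p) μ).toReal with hb
    have hbf := (hfin p hp.le hp3).2
    have hb0 : 0 < b := by
      refine ENNReal.toReal_pos ?_ hbf.ne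
      rw [hel e p hp0]
      simpa [hp0, hp0.not_gt] using hpos p hp0
    have hbound : ∀ k : ℕ, ∫⁻ x, {x | ‖e x‖ ≤ k}.indicator (fun x => ‖e x‖ₑ ^ q) x ∂μ ≤
        ENNReal.ofReal ((|C| * N / b) ^ q) := by
      intro k
      have hAf := trunc_fin h2 k (t := q) (by linarith)
      have hf2 : MemLp (tf e (q - 2) k) 2 μ := by
        simpa using tf_memLp he h2 (s := q - 2) (by linarith) k (p := 2) (by norm_num)
          (by linarith)
      have hfp := tf_memLp he h2 (s := q - 2) (by linarith) k hp0 (by rw [hsp]; linarith)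
      have h3 := key _ hf2 hfp
      rw [tf_int he (by linarith), hel (tf e (q - 2) k) p hp0, sub_add_cancel] at h3
      simp only [tf_enorm (show 0 ≤ q - 2 by linarith) k hp0, hsp] at h3
      set A := ∫⁻ x, {x | ‖e x‖ ≤ k}.indicator (fun x => ‖e x‖ₑ ^ q) x ∂μ with hA
      set a := A.toReal with ha
      have ha0 : 0 ≤ a := ENNReal.toReal_nonneg
      rw [← ENNReal.ofReal_toReal hAf.ne, ← ENNReal.ofReal_toReal hbf.ne, ← ha, ← hb,
        ← ofReal_norm, ENNReal.ofReal_rpow_of_nonneg ha0 (by positivity),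
        ← ENNReal.ofReal_mul (norm_nonneg _)] at h3
      have h4 : ENNReal.ofReal C * ENNReal.ofReal (a ^ (1 / p)) ≤
          ENNReal.ofReal (|C| * a ^ (1 / p)) := by
        rw [ENNReal.ofReal_mul (abs_nonneg C)]
        gcongr
        exact le_abs_self C
      have h5 := (ENNReal.ofReal_le_ofReal_iff (by positivity)).mp (h3.trans h4)
      rw [norm_div, Complex.norm_real, Complex.norm_real, Real.norm_of_nonneg ha0,
        Real.norm_of_nonneg hN0.le] at h5
      rw [← ENNReal.ofReal_toReal hAf.ne, ← ha]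
      refine ENNReal.ofReal_le_ofReal ?_
      rcases ha0.eq_or_lt with h0 | h0
      · rw [← h0]; positivity
      have h6 : a = a ^ (1 / q) * a ^ (1 / p) := by
        rw [← Real.rpow_add h0, one_div, one_div, hpq.symm.inv_add_inv_eq_one, Real.rpow_one]
      have h7 : a ^ (1 / q) ≤ |C| * N / b := by
        rw [le_div_iff₀ hb0]
        have h8 : 0 < a ^ (1 / p) := by positivity
        refine le_of_mul_le_mul_right ?_ h8
        rw [div_mul_eq_mul_div, div_le_iff₀ hN0] at h5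
        calc a ^ (1 / q) * b * a ^ (1 / p) = (a ^ (1 / q) * a ^ (1 / p)) * b := by ring
          _ = a * b := by rw [← h6]
          _ ≤ _ := h5
          _ = _ := by ring
      calc a = (a ^ (1 / q)) ^ q := by
            rw [← Real.rpow_mul ha0, one_div_mul_cancel (by linarith), Real.rpow_one]
        _ ≤ _ := by gcongr
    have h9 := iSup_le hbound
    rw [trunc_sup he, hinf q hq3, top_le_iff] at h9
    exact ENNReal.ofReal_ne_top h9
  · rintro ⟨hp1', hp3⟩
    have hq1 : 1 ≤ q := hpq.symm.lt.le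
    have hq3 : q ≤ 3 := by rw [hq', div_le_iff₀ hp1]; linarith
    have hK : eLpNorm e (ENNReal.ofReal q) μ * eLpNorm e (ENNReal.ofReal p) μ *
        ‖(N : ℂ)⁻¹‖ₑ ≠ ∞ :=
      ENNReal.mul_ne_top (ENNReal.mul_ne_top (hfin q hq1 hq3).2.ne (hfin p hp.le hp3).2.ne)
        enorm_ne_top
    refine ⟨(eLpNorm e (ENNReal.ofReal q) μ * eLpNorm e (ENNReal.ofReal p) μ *
        ‖(N : ℂ)⁻¹‖ₑ).toReal, fun f g hf hfp hg hg2 ho => ?_⟩
    obtain ⟨c, hc⟩ := hH g hg hg2
    have h3 := ho _ (hH' 1) (h2.const_mul 1)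
    have h4 : ∫ z, (f z - g z) * conj (1 * e z) ∂μ = ∫ z, (f z - c * e z) * conj (e z) ∂μ := by
      refine integral_congr_ae (hc.mono fun x hx => ?_)
      simp only [hx, one_mul]
    rw [h4, horth f hf, sub_eq_zero] at h3
    have h5 : c = (∫ z, f z * conj (e z) ∂μ) * (N : ℂ)⁻¹ := by rw [h3]; field_simp
    have h6 : ‖∫ z, f z * conj (e z) ∂μ‖ₑ ≤
        eLpNorm f (ENNReal.ofReal p) μ * eLpNorm e (ENNReal.ofReal q) μ := by
      refine (enorm_integral_le_lintegral_enorm _).trans ?_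
      rw [hel f p hp0, hel e q (by linarith)]
      refine le_trans (le_of_eq (lintegral_congr fun x => ?_))
        (ENNReal.lintegral_mul_le_Lp_mul_Lq μ hpq hf.1.enorm he.enorm.aemeasurable)
      simp [enorm_mul]
    rw [eLpNorm_congr_ae hc, hnorm, ENNReal.ofReal_toReal hK, h5, enorm_mul]
    calc _ ≤ eLpNorm f (ENNReal.ofReal p) μ * eLpNorm e (ENNReal.ofReal q) μ * ‖(N : ℂ)⁻¹‖ₑ *
          eLpNorm e (ENNReal.ofReal p) μ := by gcongr
      _ = _ := by ring

end Pool.Agent.H97.Bergman
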