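import Mathlib

set_option autoImplicit false

namespace Pool.Agent.H97.Bil

variable {E : Type} [NormedAddCommGroup E] [InnerProductSpace ℝ E]

/-- `Traj P v t x`: in the unit ball, the photon starting at `P` with velocity `v` is at `x` at
time `t`. It flies straight while inside the closed ball and reflects optically at the sphere. -/
inductive Traj : E → E → ℝ → E → Prop
  | free (P v : E) (t : ℝ) : 0 ≤ t → ‖P + t • v‖ ≤ 1 → Traj P v t (P + t • v)
  | bounce (P v : E) (τ t : ℝ) (x : E) : 0 < τ → ‖P + τ • v‖ = 1 →
      Traj (P + τ • v) (v - (2 * inner ℝ v (P + τ • v)) • (P + τ • v)) t x → Traj P v (τ + t) x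

/-- The time-`t` front from `P` in the unit ball. -/
def front (P : E) (t : ℝ) : Set E := {x | ∃ v, ‖v‖ = 1 ∧ Traj P v t x}

end Pool.Agent.H97.Bil
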