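import Mathlib

namespace Pool.Agent.H97.Bs

lemma quad (d X σ K : ℝ) (hd : |d| ≤ 2 * K) (hX : |X| ≤ 2 * K)
    (hs : (K ≤ 43 * σ ∧ d ≤ 0) ∨ (K ≤ -43 * σ ∧ 0 ≤ d)) :
    ∃ τ : ℝ, 0 ≤ τ ∧ τ ≤ 100 ∧ d + τ * X + τ ^ 2 * σ = 0 := by
  have hc : ContinuousOn (fun τ : ℝ => d + τ * X + τ ^ 2 * σ) (Set.Icc 0 100) := by fun_prop
  have hK : 0 ≤ K := by linarith [abs_nonneg d]
  rw [abs_le] at hd hX
  rcases hs with ⟨h1, h2⟩ | ⟨h1, h2⟩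
  · obtain ⟨τ, ⟨a, b⟩, h⟩ := intermediate_value_Icc (by norm_num : (0 : ℝ) ≤ 100) hc
      (show (0 : ℝ) ∈ _ from ⟨by simpa using h2, by linarith [hd.1, hX.1]⟩)
    exact ⟨τ, a, b, h⟩
  · obtain ⟨τ, ⟨a, b⟩, h⟩ := intermediate_value_Icc' (by norm_num : (0 : ℝ) ≤ 100) hc
      (show (0 : ℝ) ∈ _ from ⟨by linarith [hd.2, hX.2], by simpa using h2⟩)
    exact ⟨τ, a, b, h⟩

lemma wsum {ι : Type} [Fintype ι] (c f : ι → ℝ) (K : ℝ) (hK : 0 ≤ K) (hc : ∀ i, 0 ≤ c i)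
    (h1 : ∑ i, c i ≤ 1) (hf : ∀ i, |f i| ≤ K) : |∑ i, c i * f i| ≤ K := by
  calc |∑ i, c i * f i| ≤ ∑ i, |c i * f i| := Finset.abs_sum_le_sum_abs _ _
    _ ≤ ∑ i, c i * K := Finset.sum_le_sum fun i _ => by
        rw [abs_mul, abs_of_nonneg (hc i)]
        exact mul_le_mul_of_nonneg_left (hf i) (hc i)
    _ = (∑ i, c i) * K := by rw [Finset.sum_mul]
    _ ≤ K := mul_le_of_le_one_left hK h1

def Eqn (T Spq Sp Sq a b c d τ : ℝ) : Prop :=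
  (T + 2 * τ) * (Spq + τ * (a * b) + τ * (c * d)) = (Sp + τ * a + τ * c) * (Sq + τ * b + τ * d)

lemma dom {ι : Type} [Fintype ι] (w P Q : ι → ℝ) (hw : ∀ i, 0 ≤ w i) (h1 : ∑ i, w i ≤ 1)
    (a b c d Kp Kq : ℝ) (hp : 0 ≤ Kp) (hq : 0 ≤ Kq)
    (ha : ∀ i, |P i - a| ≤ Kp) (hc : ∀ i, |P i - c| ≤ Kp)
    (hb : ∀ i, |Q i - b| ≤ Kq) (hd : ∀ i, |Q i - d| ≤ Kq)
    (T Spq Sp Sq : ℝ) (e1 : T = ∑ i, w i) (e2 : Spq = ∑ i, w i * (P i * Q i))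
    (e3 : Sp = ∑ i, w i * P i) (e4 : Sq = ∑ i, w i * Q i)
    (hs : (Kp * Kq ≤ 43 * ((a - c) * (b - d)) ∧ T * Spq - Sp * Sq ≤ 0) ∨
      (Kp * Kq ≤ -43 * ((a - c) * (b - d)) ∧ 0 ≤ T * Spq - Sp * Sq)) :
    ∃ τ : ℝ, 0 ≤ τ ∧ τ ≤ 100 ∧ Eqn T Spq Sp Sq a b c d τ := by
  have hK := mul_nonneg hp hq
  have X : ∀ a b : ℝ, (∀ i, |P i - a| ≤ Kp) → (∀ i, |Q i - b| ≤ Kq) →
      |T * (a * b) - a * Sq - b * Sp + Spq| ≤ Kp * Kq := by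
    intro a b ha hb
    have h := wsum w (fun i => (P i - a) * (Q i - b)) _ hK hw h1 fun i => by
      rw [abs_mul]
      exact mul_le_mul (ha i) (hb i) (abs_nonneg _) hp
    have e : ∑ i, w i * ((P i - a) * (Q i - b)) = T * (a * b) - a * Sq - b * Sp + Spq := by
      rw [e1, e2, e3, e4, Finset.sum_mul, Finset.mul_sum, Finset.mul_sum, ← Finset.sum_sub_distrib,
        ← Finset.sum_sub_distrib, ← Finset.sum_add_distrib]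
      exact Finset.sum_congr rfl fun i _ => by ring
    rwa [e] at h
  have XA := X a b ha hb
  have XB := X c d hc hd
  have Y : ∀ (R : ι → ℝ) (a K S : ℝ), 0 ≤ K → (∀ i, |R i - a| ≤ K) → S = ∑ i, w i * R i →
      |S - T * a| ≤ K := by
    intro R a K S hK ha e
    have h := wsum w (fun i => R i - a) _ hK hw h1 ha
    have e' : ∑ i, w i * (R i - a) = S - T * a := by
      rw [e, e1, Finset.sum_mul, ← Finset.sum_sub_distrib]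
      exact Finset.sum_congr rfl fun i _ => by ring
    rwa [e'] at h
  have hT0 : 0 ≤ T := e1 ▸ Finset.sum_nonneg fun i _ => hw i
  have hT1 : T ≤ 1 := e1 ▸ h1
  have hd0 : |T * Spq - Sp * Sq| ≤ 2 * (Kp * Kq) := by
    have e : T * Spq - Sp * Sq =
        T * (T * (a * b) - a * Sq - b * Sp + Spq) - (Sp - T * a) * (Sq - T * b) := by ring
    have y1 : |T * (T * (a * b) - a * Sq - b * Sp + Spq)| ≤ Kp * Kq := by
      rw [abs_mul, abs_of_nonneg hT0]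
      exact (mul_le_of_le_one_left (abs_nonneg _) hT1).trans XA
    have y2 : |(Sp - T * a) * (Sq - T * b)| ≤ Kp * Kq := by
      rw [abs_mul]
      exact mul_le_mul (Y P a Kp Sp hp ha e3) (Y Q b Kq Sq hq hb e4) (abs_nonneg _) hp
    rw [e]
    exact (abs_sub _ _).trans (by linarith)
  obtain ⟨τ, t0, t1, h⟩ := quad _ ((T * (a * b) - a * Sq - b * Sp + Spq) +
    (T * (c * d) - c * Sq - d * Sp + Spq)) _ _ hd0 ((abs_add_le _ _).trans (by linarith)) hs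
  refine ⟨τ, t0, t1, ?_⟩
  unfold Eqn
  linear_combination h

def Av (u v a2 a3 b2 b3 a b : ℝ) : Prop :=
  ((a = u ∨ a = -u) ∧ (b = b2 ∨ b = b3)) ∨ ((a = a2 ∨ a = a3) ∧ (b = v ∨ b = -v))

def Fx (T Spq Sp Sq u v a2 a3 b2 b3 : ℝ) : Prop :=
  ∃ a b c d τ : ℝ, Av u v a2 a3 b2 b3 a b ∧ Av u v a2 a3 b2 b3 c d ∧ 0 ≤ τ ∧ τ ≤ 100 ∧
    Eqn T Spq Sp Sq a b c d τ

lemma Av.neg {u v a2 a3 b2 b3 a b : ℝ} (h : Av (-u) v (-a2) (-a3) b2 b3 a b) :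
    Av u v a2 a3 b2 b3 (-a) b := by
  unfold Av at *
  rcases h with ⟨h | h, k⟩ | ⟨h | h, k⟩ <;> simp [h, k]

lemma Av.tr {u v a2 a3 b2 b3 a b : ℝ} (h : Av v u b2 b3 a2 a3 a b) : Av u v a2 a3 b2 b3 b a := by
  unfold Av at *
  tauto

lemma Fx.neg {T Spq Sp Sq u v a2 a3 b2 b3 : ℝ} (h : Fx T (-Spq) (-Sp) Sq (-u) v (-a2) (-a3) b2 b3) :
    Fx T Spq Sp Sq u v a2 a3 b2 b3 := by
  obtain ⟨a, b, c, d, τ, h1, h2, t0, t1, e⟩ := h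
  refine ⟨-a, b, -c, d, τ, h1.neg, h2.neg, t0, t1, ?_⟩
  unfold Eqn at *
  linear_combination -e

lemma Fx.tr {T Spq Sp Sq u v a2 a3 b2 b3 : ℝ} (h : Fx T Spq Sq Sp v u b2 b3 a2 a3) :
    Fx T Spq Sp Sq u v a2 a3 b2 b3 := by
  obtain ⟨a, b, c, d, τ, h1, h2, t0, t1, e⟩ := h
  refine ⟨b, a, d, c, τ, h1.tr, h2.tr, t0, t1, ?_⟩
  unfold Eqn at *
  linear_combination e

def F0 (u v a2 a3 b2 b3 : ℝ) : Prop :=
  Fx (1 / 2) ((u * v + a2 * b2) / 4) (a2 / 4) (b2 / 4) u v a2 a3 b2 b3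

def F2 (u v a2 a3 b2 b3 : ℝ) : Prop :=
  Fx 1 ((a2 * b2 + a3 * b3) / 4) ((a2 + a3) / 4) ((b2 + b3) / 4) u v a2 a3 b2 b3

lemma F0.neg {u v a2 a3 b2 b3 : ℝ} (h : F0 (-u) v (-a2) (-a3) b2 b3) : F0 u v a2 a3 b2 b3 := by
  apply Fx.neg
  unfold F0 at h
  rwa [show -((u * v + a2 * b2) / 4) = (-u * v + -a2 * b2) / 4 by ring,
    show -(a2 / 4) = -a2 / 4 by ring]

lemma F0.tr {u v a2 a3 b2 b3 : ℝ} (h : F0 v u b2 b3 a2 a3) : F0 u v a2 a3 b2 b3 := by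
  apply Fx.tr
  unfold F0 at h
  rwa [mul_comm u, mul_comm a2]

lemma F0.neg' {u v a2 a3 b2 b3 : ℝ} (h : F0 u (-v) a2 a3 (-b2) (-b3)) : F0 u v a2 a3 b2 b3 :=
  F0.tr (F0.neg (F0.tr h))

lemma F2.neg {u v a2 a3 b2 b3 : ℝ} (h : F2 (-u) v (-a2) (-a3) b2 b3) : F2 u v a2 a3 b2 b3 := by
  apply Fx.neg
  unfold F2 at h
  rwa [show -((a2 * b2 + a3 * b3) / 4) = (-a2 * b2 + -a3 * b3) / 4 by ring,
    show -((a2 + a3) / 4) = (-a2 + -a3) / 4 by ring]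

lemma F2.tr {u v a2 a3 b2 b3 : ℝ} (h : F2 v u b2 b3 a2 a3) : F2 u v a2 a3 b2 b3 := by
  apply Fx.tr
  unfold F2 at h
  rwa [mul_comm a2, mul_comm a3]

lemma F2.neg' {u v a2 a3 b2 b3 : ℝ} (h : F2 u (-v) a2 a3 (-b2) (-b3)) : F2 u v a2 a3 b2 b3 :=
  F2.tr (F2.neg (F2.tr h))

lemma d0 (u v a2 a3 b2 b3 a b c d Kp Kq : ℝ) (h1 : Av u v a2 a3 b2 b3 a b)
    (h2 : Av u v a2 a3 b2 b3 c d) (hp : 0 ≤ Kp) (hq : 0 ≤ Kq)
    (ha : |u| + |a| ≤ Kp ∧ |a2 - a| ≤ Kp) (hc : |u| + |c| ≤ Kp ∧ |a2 - c| ≤ Kp)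
    (hb : |v| + |b| ≤ Kq ∧ |b2 - b| ≤ Kq) (hd : |v| + |d| ≤ Kq ∧ |b2 - d| ≤ Kq)
    (hs : Kp * Kq ≤ 43 * ((a - c) * (b - d))) (hn : 2 * (u * v) + a2 * b2 ≤ 0) :
    F0 u v a2 a3 b2 b3 := by
  have key : ∀ u a2 a K : ℝ, |u| + |a| ≤ K ∧ |a2 - a| ≤ K → ∀ i : Fin 3,
      |(![-u, u, a2] : Fin 3 → ℝ) i - a| ≤ K := by
    intro u a2 a K h i
    fin_cases i
    · exact (abs_sub _ _).trans (by simpa using h.1)
    · exact (abs_sub _ _).trans h.1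
    · exact h.2
  obtain ⟨τ, t0, t1, e⟩ := dom ![1 / 8, 1 / 8, 1 / 4] ![-u, u, a2] ![-v, v, b2]
    (fun i => by fin_cases i <;> norm_num) (by simp [Fin.sum_univ_three]; norm_num) a b c d Kp Kq
    hp hq (key _ _ _ _ ha) (key _ _ _ _ hc) (key _ _ _ _ hb) (key _ _ _ _ hd)
    (1 / 2) ((u * v + a2 * b2) / 4) (a2 / 4) (b2 / 4)
    (by simp [Fin.sum_univ_three]; norm_num) (by simp [Fin.sum_univ_three]; ring)
    (by simp [Fin.sum_univ_three]; ring) (by simp [Fin.sum_univ_three]; ring)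
    (Or.inl ⟨hs, by linarith⟩)
  exact ⟨a, b, c, d, τ, h1, h2, t0, t1, e⟩

lemma d2 (u v a2 a3 b2 b3 a b c d Kp Kq : ℝ) (h1 : Av u v a2 a3 b2 b3 a b)
    (h2 : Av u v a2 a3 b2 b3 c d) (hp : 0 ≤ Kp) (hq : 0 ≤ Kq)
    (ha : |u| + |a| ≤ Kp ∧ |a2 - a| ≤ Kp ∧ |a3 - a| ≤ Kp)
    (hc : |u| + |c| ≤ Kp ∧ |a2 - c| ≤ Kp ∧ |a3 - c| ≤ Kp)
    (hb : |v| + |b| ≤ Kq ∧ |b2 - b| ≤ Kq ∧ |b3 - b| ≤ Kq)
    (hd : |v| + |d| ≤ Kq ∧ |b2 - d| ≤ Kq ∧ |b3 - d| ≤ Kq)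
    (hs : Kp * Kq ≤ 43 * ((a - c) * (b - d)))
    (hn : (a2 + a3) * (b2 + b3) + 2 * ((a2 - a3) * (b2 - b3)) ≤ 0) :
    F2 u v a2 a3 b2 b3 := by
  have k1 : ∀ u a K : ℝ, |u| + |a| ≤ K → |-u - a| ≤ K := fun u a K h =>
    (abs_sub _ _).trans (by simpa using h)
  have k2 : ∀ u a K : ℝ, |u| + |a| ≤ K → |u - a| ≤ K := fun u a K h => (abs_sub _ _).trans h
  have key : ∀ u a2 a3 a K : ℝ, |u| + |a| ≤ K ∧ |a2 - a| ≤ K ∧ |a3 - a| ≤ K → ∀ i : Fin 6,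
      |(![-u, u, -u, u, a2, a3] : Fin 6 → ℝ) i - a| ≤ K := by
    intro u a2 a3 a K h i
    fin_cases i
    exacts [k1 _ _ _ h.1, k2 _ _ _ h.1, k1 _ _ _ h.1, k2 _ _ _ h.1, h.2.1, h.2.2]
  have key' : ∀ u a2 a3 a K : ℝ, |u| + |a| ≤ K ∧ |a2 - a| ≤ K ∧ |a3 - a| ≤ K → ∀ i : Fin 6,
      |(![-u, u, u, -u, a2, a3] : Fin 6 → ℝ) i - a| ≤ K := by
    intro u a2 a3 a K h i
    fin_cases i
    exacts [k1 _ _ _ h.1, k2 _ _ _ h.1, k2 _ _ _ h.1, k1 _ _ _ h.1, h.2.1, h.2.2]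
  obtain ⟨τ, t0, t1, e⟩ := dom ![1 / 8, 1 / 8, 1 / 8, 1 / 8, 1 / 4, 1 / 4]
    ![-u, u, -u, u, a2, a3] ![-v, v, v, -v, b2, b3]
    (fun i => by fin_cases i <;> norm_num) (by simp [Fin.sum_univ_six]; norm_num) a b c d Kp Kq
    hp hq (key _ _ _ _ _ ha) (key _ _ _ _ _ hc) (key' _ _ _ _ _ hb) (key' _ _ _ _ _ hd)
    1 ((a2 * b2 + a3 * b3) / 4) ((a2 + a3) / 4) ((b2 + b3) / 4)
    (by simp [Fin.sum_univ_six]; norm_num) (by simp [Fin.sum_univ_six]; ring)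
    (by simp [Fin.sum_univ_six]; ring) (by simp [Fin.sum_univ_six]; ring)
    (Or.inl ⟨hs, by linarith⟩)
  exact ⟨a, b, c, d, τ, h1, h2, t0, t1, e⟩

lemma far1 (u v a2 a3 b2 b3 : ℝ) (h : 4 * |v| ≤ b2) (hn : 2 * (u * v) + a2 * b2 ≤ 0) :
    F0 u v a2 a3 b2 b3 := by
  have v0 := abs_nonneg v
  have u0 := abs_nonneg u
  have v1 := le_abs_self v
  have v2 := neg_abs_le v
  rcases (show 0 ≤ b2 by linarith).eq_or_lt with hb | hb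
  · have hv : v = 0 := abs_eq_zero.mp (by linarith)
    subst hv
    subst hb
    exact ⟨u, 0, u, 0, 0, by simp [Av], by simp [Av], le_rfl, by norm_num, by simp [Eqn]⟩
  have h1 : a2 ≤ |u| / 2 := by
    have x1 : -(|u| * |v|) ≤ u * v := by rw [← abs_mul]; exact neg_abs_le _
    have x2 := mul_le_mul_of_nonneg_left h u0
    by_contra hc
    have x3 := mul_lt_mul_of_pos_right (not_le.mp hc) hb
    linarith
  have x4 : 0 ≤ (|u| - a2) * (b2 - v) := mul_nonneg (by linarith) (by linarith)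
  refine d0 u v a2 a3 b2 b3 |u| b2 a2 v (4 * (|u| - a2)) (2 * (b2 - v))
    (Or.inl ⟨abs_choice u, Or.inl rfl⟩) (Or.inr ⟨Or.inl rfl, Or.inl rfl⟩) (by linarith) (by linarith)
    ⟨by rw [abs_abs]; linarith, abs_le.mpr ⟨by linarith, by linarith⟩⟩
    ⟨by cases abs_cases a2 <;> linarith, by rw [sub_self, abs_zero]; linarith⟩
    ⟨by rw [abs_of_pos hb]; linarith, by rw [sub_self, abs_zero]; linarith⟩
    ⟨by linarith, abs_le.mpr ⟨by linarith, by linarith⟩⟩ (by linarith) hn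

lemma far2 (u v a2 a3 b2 b3 : ℝ) (h : 4 * |v| ≤ b2) : F0 u v a2 a3 b2 b3 := by
  rcases le_total (2 * (u * v) + a2 * b2) 0 with hn | hn
  · exact far1 _ _ _ _ _ _ h hn
  · exact F0.neg (far1 _ _ _ _ _ _ h (by linarith))

lemma far3 (u v a2 a3 b2 b3 : ℝ) (h : 4 * |v| ≤ |b2|) : F0 u v a2 a3 b2 b3 := by
  rcases abs_choice b2 with e | e <;> rw [e] at h
  · exact far2 _ _ _ _ _ _ h
  · exact F0.neg' (far2 _ _ _ _ _ _ (by rwa [abs_neg]))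

lemma sep1 (u v a2 a3 b2 b3 : ℝ) (h1 : |a2| ≤ 4 * |u|) (h2 : |b2| ≤ 4 * |v|)
    (h3 : |u| ≤ 2 * (a3 - a2)) (hn : 2 * (u * v) + a2 * b2 ≤ 0) : F0 u v a2 a3 b2 b3 := by
  have v0 := abs_nonneg v
  have u0 := abs_nonneg u
  have x4 : 0 ≤ (a3 - a2) * |v| := mul_nonneg (by linarith) v0
  have ⟨y1, y2⟩ := abs_le.mp h1
  have ⟨z1, z2⟩ := abs_le.mp h2
  refine d0 u v a2 a3 b2 b3 a3 |v| a2 (-|v|) (11 * (a3 - a2)) (5 * |v|)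
    (Or.inr ⟨Or.inr rfl, abs_choice v⟩)
    (Or.inr ⟨Or.inl rfl, by rcases abs_choice v with e | e <;> rw [e] <;> simp⟩)
    (by linarith) (by linarith)
    ⟨by cases abs_cases a3 <;> linarith, abs_le.mpr ⟨by linarith, by linarith⟩⟩
    ⟨by linarith, by rw [sub_self, abs_zero]; linarith⟩
    ⟨by rw [abs_abs]; linarith, abs_le.mpr ⟨by linarith, by linarith⟩⟩
    ⟨by rw [abs_neg, abs_abs]; linarith, abs_le.mpr ⟨by linarith, by linarith⟩⟩ (by linarith) hn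

lemma sep2 (u v a2 a3 b2 b3 : ℝ) (h1 : |a2| ≤ 4 * |u|) (h2 : |b2| ≤ 4 * |v|)
    (h3 : |u| ≤ 2 * (a3 - a2)) : F0 u v a2 a3 b2 b3 := by
  rcases le_total (2 * (u * v) + a2 * b2) 0 with hn | hn
  · exact sep1 _ _ _ _ _ _ h1 h2 h3 hn
  · exact F0.neg' (sep1 _ _ _ _ _ _ h1 (by rwa [abs_neg, abs_neg]) h3 (by linarith))

lemma sep3 (u v a2 a3 b2 b3 : ℝ) (h1 : |a2| ≤ 4 * |u|) (h2 : |b2| ≤ 4 * |v|)
    (h3 : |u| ≤ 2 * |a3 - a2|) : F0 u v a2 a3 b2 b3 := by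
  rcases abs_choice (a3 - a2) with e | e <;> rw [e] at h3
  · exact sep2 _ _ _ _ _ _ h1 h2 h3
  · exact F0.neg (sep2 _ _ _ _ _ _ (by rwa [abs_neg, abs_neg]) h2 (by rw [abs_neg]; linarith))

lemma sepAll (u v a2 a3 b2 b3 : ℝ) (h : |u| ≤ 2 * |a3 - a2| ∨ |v| ≤ 2 * |b3 - b2|) :
    F0 u v a2 a3 b2 b3 := by
  rcases le_total (4 * |v|) |b2| with h2 | h2
  · exact far3 _ _ _ _ _ _ h2
  rcases le_total (4 * |u|) |a2| with h1 | h1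
  · exact F0.tr (far3 _ _ _ _ _ _ h1)
  rcases h with h | h
  · exact sep3 _ _ _ _ _ _ h1 h2 h
  · exact F0.tr (sep3 _ _ _ _ _ _ h2 h1 h)

lemma m1 (u v a2 a3 b2 b3 : ℝ) (h1 : 2 * |a3 - a2| ≤ |u|) (h2 : 2 * |b3 - b2| ≤ |v|)
    (h3 : a2 + a3 ≤ |u|) (hb : 0 ≤ b2)
    (hn : (a2 + a3) * (b2 + b3) + 2 * ((a2 - a3) * (b2 - b3)) ≤ 0) : F2 u v a2 a3 b2 b3 := by
  have v0 := abs_nonneg v
  have u0 := abs_nonneg u
  have y1 := le_abs_self (a3 - a2)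
  have y2 := neg_abs_le (a3 - a2)
  have z1 := le_abs_self (b3 - b2)
  have z2 := neg_abs_le (b3 - b2)
  have x4 : 0 ≤ (|u| - a2) * (b2 + |v|) := mul_nonneg (by linarith) (by linarith)
  refine d2 u v a2 a3 b2 b3 |u| b2 a2 (-|v|) (8 * (|u| - a2)) (2 * (b2 + |v|))
    (Or.inl ⟨abs_choice u, Or.inl rfl⟩)
    (Or.inr ⟨Or.inl rfl, by rcases abs_choice v with e | e <;> rw [e] <;> simp⟩)
    (by linarith) (by linarith)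
    ⟨by rw [abs_abs]; linarith, abs_le.mpr ⟨by linarith, by linarith⟩,
      abs_le.mpr ⟨by linarith, by linarith⟩⟩
    ⟨by cases abs_cases a2 <;> linarith, by rw [sub_self, abs_zero]; linarith,
      abs_le.mpr ⟨by linarith, by linarith⟩⟩
    ⟨by rw [abs_of_nonneg hb]; linarith, by rw [sub_self, abs_zero]; linarith,
      abs_le.mpr ⟨by linarith, by linarith⟩⟩
    ⟨by rw [abs_neg, abs_abs]; linarith, abs_le.mpr ⟨by linarith, by linarith⟩,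
      abs_le.mpr ⟨by linarith, by linarith⟩⟩ (by linarith) hn

lemma m2 (u v a2 a3 b2 b3 : ℝ) (h1 : 2 * |a3 - a2| ≤ |u|) (h2 : 2 * |b3 - b2| ≤ |v|)
    (h3 : |a2 + a3| ≤ |u|) (hb : 0 ≤ b2) : F2 u v a2 a3 b2 b3 := by
  have ⟨y1, y2⟩ := abs_le.mp h3
  rcases le_total ((a2 + a3) * (b2 + b3) + 2 * ((a2 - a3) * (b2 - b3))) 0 with hn | hn
  · exact m1 _ _ _ _ _ _ h1 h2 y2 hb hn
  · exact F2.neg (m1 _ _ _ _ _ _ (by rwa [abs_neg, neg_sub_neg, abs_sub_comm]) h2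
      (by rw [abs_neg]; linarith) hb (by linarith))

lemma m3 (u v a2 a3 b2 b3 : ℝ) (h1 : 2 * |a3 - a2| ≤ |u|) (h2 : 2 * |b3 - b2| ≤ |v|)
    (h3 : |a2 + a3| ≤ |u|) : F2 u v a2 a3 b2 b3 := by
  rcases le_total 0 b2 with hb | hb
  · exact m2 _ _ _ _ _ _ h1 h2 h3 hb
  · exact F2.neg' (m2 _ _ _ _ _ _ h1 (by rwa [abs_neg, neg_sub_neg, abs_sub_comm]) h3 (by linarith))

lemma m4 (u v a2 a3 b2 b3 : ℝ) (h1 : 2 * |a3 - a2| ≤ |u|) (h2 : 2 * |b3 - b2| ≤ |v|)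
    (h3 : a2 + a3 ≤ -|u|) (h4 : |v| ≤ b2 + b3) : F2 u v a2 a3 b2 b3 := by
  have v0 := abs_nonneg v
  have u0 := abs_nonneg u
  have z1 := le_abs_self (b3 - b2)
  refine m1 _ _ _ _ _ _ h1 h2 (by linarith) (by linarith) ?_
  have x1 : |u| * |v| ≤ -(a2 + a3) * (b2 + b3) := mul_le_mul (by linarith) h4 v0 (by linarith)
  have x2 : (2 * |a3 - a2|) * (2 * |b3 - b2|) ≤ |u| * |v| := mul_le_mul h1 h2 (by positivity) u0
  have x3 : (a3 - a2) * (b3 - b2) ≤ |a3 - a2| * |b3 - b2| := by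
    rw [← abs_mul]; exact le_abs_self _
  have x4 := mul_nonneg u0 v0
  linarith

lemma merged (u v a2 a3 b2 b3 : ℝ) (h1 : 2 * |a3 - a2| ≤ |u|) (h2 : 2 * |b3 - b2| ≤ |v|) :
    F2 u v a2 a3 b2 b3 := by
  rcases le_total |a2 + a3| |u| with h3 | h3
  · exact m3 _ _ _ _ _ _ h1 h2 h3
  rcases le_total |b2 + b3| |v| with h4 | h4
  · exact F2.tr (m3 _ _ _ _ _ _ h2 h1 h4)
  have h1' : 2 * |-a3 - -a2| ≤ |-u| := by rwa [abs_neg, neg_sub_neg, abs_sub_comm]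
  have h2' : 2 * |-b3 - -b2| ≤ |-v| := by rwa [abs_neg, neg_sub_neg, abs_sub_comm]
  rcases abs_choice (a2 + a3) with e | e <;> rcases abs_choice (b2 + b3) with f | f <;>
    rw [e] at h3 <;> rw [f] at h4
  · exact F2.neg (m4 _ _ _ _ _ _ h1' h2 (by rw [abs_neg]; linarith) h4)
  · exact F2.neg (F2.neg' (m4 _ _ _ _ _ _ h1' h2' (by rw [abs_neg]; linarith)
      (by rw [abs_neg]; linarith)))
  · exact m4 _ _ _ _ _ _ h1 h2 (by linarith) h4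
  · exact F2.neg' (m4 _ _ _ _ _ _ h1 h2' (by linarith) (by rw [abs_neg]; linarith))

lemma core (u v a2 a3 b2 b3 : ℝ) :
    F2 u v a2 a3 b2 b3 ∨ (F0 u v a2 a3 b2 b3 ∧ F0 (-u) v a3 a2 b3 b2) := by
  by_cases h : |u| ≤ 2 * |a3 - a2| ∨ |v| ≤ 2 * |b3 - b2|
  · exact Or.inr ⟨sepAll _ _ _ _ _ _ h, sepAll _ _ _ _ _ _ (by
      rwa [abs_neg, abs_sub_comm a2, abs_sub_comm b2])⟩
  · rw [not_or, not_le, not_le] at h
    exact Or.inl (merged _ _ _ _ _ _ h.1.le h.2.le)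

end Pool.Agent.H97.Bs
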