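import Mathlib

set_option autoImplicit false

namespace Pool.Agent.H97.CR

open Filter Topology MeasureTheory
open scoped ContDiff

variable {m n N : ℕ}

/-- `Ψ` is a global real-analytic parametrisation of the embedded submanifold `range Ψ` of `ℂⁿ`. -/
def IsAnalyticEmbedding (Ψ : (Fin m → ℝ) → (Fin n → ℂ)) : Prop :=
  AnalyticOnNhd ℝ Ψ Set.univ ∧ IsEmbedding Ψ ∧ ∀ x, Function.Injective (fderiv ℝ Ψ x)

/-- `T_q M + J T_q M = ℂⁿ` at every point. -/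
def IsGeneric (Ψ : (Fin m → ℝ) → (Fin n → ℂ)) : Prop :=
  ∀ x v, ∃ a b, v = fderiv ℝ Ψ x a + Complex.I • fderiv ℝ Ψ x b

/-- The tangent vector with coordinates `v` at `Ψ x` lies in `T_q M ∩ J T_q M`. -/
def IsComplexTangent (Ψ : (Fin m → ℝ) → (Fin n → ℂ)) (x v : Fin m → ℝ) : Prop :=
  ∃ w, fderiv ℝ Ψ x v = Complex.I • fderiv ℝ Ψ x w

/-- Minimality in the sense of Tumanov: no `C²` submanifold of positive codimension `c` through the
point (a regular level set `F = 0` in the chart) has tangent spaces containing `T M ∩ J T M`. -/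
def IsMinimalAt (Ψ : (Fin m → ℝ) → (Fin n → ℂ)) (x₀ : Fin m → ℝ) : Prop :=
  ¬ ∃ (c : ℕ) (U : Set (Fin m → ℝ)) (F : (Fin m → ℝ) → (Fin c → ℝ)),
    0 < c ∧ IsOpen U ∧ x₀ ∈ U ∧ ContDiffOn ℝ 2 F U ∧ F x₀ = 0 ∧
    ∀ x ∈ U, F x = 0 → Function.Surjective (fderiv ℝ F x) ∧
      ∀ v, IsComplexTangent Ψ x v → fderiv ℝ F x v = 0

/-- Divergence of a vector field on `ℝᵐ`. -/
noncomputable def divergence (V : (Fin m → ℝ) → (Fin m → ℝ)) (x : Fin m → ℝ) : ℝ :=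
  ∑ i, fderiv ℝ V x (Pi.single i 1) i

/-- Every component of `f` is annihilated in the sense of distributions by every smooth compactly
supported section `V + iW` of `T^{0,1} M`. -/
def IsCR (Ψ : (Fin m → ℝ) → (Fin n → ℂ)) (f : (Fin n → ℂ) → EuclideanSpace ℂ (Fin N)) : Prop :=
  ∀ (j : Fin N) (V W : (Fin m → ℝ) → (Fin m → ℝ)), ContDiff ℝ ∞ V → ContDiff ℝ ∞ W →
    HasCompactSupport V → HasCompactSupport W →
    (∀ x, fderiv ℝ Ψ x (V x) + Complex.I • fderiv ℝ Ψ x (W x) = 0) →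
    ∫ x, f (Ψ x) j * ((divergence V x : ℂ) + Complex.I * (divergence W x : ℂ)) = 0

/-- `f` on `M` extends meromorphically near `p`: it agrees with `P / Q` at every point of `M ∩ U`
where `P / Q` is holomorphic. -/
def ExtendsMero (M : Set (Fin n → ℂ)) (f : (Fin n → ℂ) → EuclideanSpace ℂ (Fin N))
    (p : Fin n → ℂ) : Prop :=
  ∃ (U : Set (Fin n → ℂ)) (P : (Fin n → ℂ) → EuclideanSpace ℂ (Fin N)) (Q : (Fin n → ℂ) → ℂ),
    IsOpen U ∧ p ∈ U ∧ DifferentiableOn ℂ P U ∧ DifferentiableOn ℂ Q U ∧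
    (∀ y ∈ U, ¬ ∀ᶠ w in 𝓝 y, Q w = 0) ∧
    ∀ y ∈ M ∩ U, ∀ G : (Fin n → ℂ) → EuclideanSpace ℂ (Fin N), AnalyticAt ℂ G y →
      (∀ᶠ w in 𝓝 y, Q w • G w = P w) → G y = f y

/-- `f` on `M` extends holomorphically near `p`. -/
def ExtendsHol (M : Set (Fin n → ℂ)) (f : (Fin n → ℂ) → EuclideanSpace ℂ (Fin N))
    (p : Fin n → ℂ) : Prop :=
  ∃ (U : Set (Fin n → ℂ)) (G : (Fin n → ℂ) → EuclideanSpace ℂ (Fin N)),
    IsOpen U ∧ p ∈ U ∧ DifferentiableOn ℂ G U ∧ ∀ y ∈ M ∩ U, G y = f y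

end Pool.Agent.H97.CR
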