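import Pool.Agent.H97.CRLemmas

set_option autoImplicit false

namespace Pool.Agent.H97.CR

open Filter Topology MeasureTheory Complex
open scoped ContDiff

abbrev R6 := Fin 6 → ℝ
abbrev C4 := Fin 4 → ℂ

/-- The product of two Heisenberg hypersurfaces. -/
noncomputable def Psi (x : R6) : C4 :=
  ![x 0 + x 1 * I, x 2 + (x 0 ^ 2 + x 1 ^ 2 : ℝ) * I, x 3 + x 4 * I,
    x 5 + (x 3 ^ 2 + x 4 ^ 2 : ℝ) * I]

noncomputable def dPsi (x v : R6) : C4 :=
  ![v 0 + v 1 * I, v 2 + (2 * (x 0 * v 0 + x 1 * v 1) : ℝ) * I, v 3 + v 4 * I,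
    v 5 + (2 * (x 3 * v 3 + x 4 * v 4) : ℝ) * I]

lemma Psi_smooth : ContDiff ℝ ⊤ Psi := by
  have h : ∀ j, ContDiff ℝ ⊤ (fun x : R6 => ((x j : ℝ) : ℂ)) := fun j =>
    ofRealCLM.contDiff.comp (contDiff_apply ℝ ℝ j)
  rw [contDiff_pi]
  intro i
  fin_cases i
  · exact (h 0).add ((h 1).mul contDiff_const)
  · simp only [Psi, Fin.mk_one, Matrix.cons_val_one, Matrix.cons_val_zero, ofReal_add, ofReal_pow]
    exact (h 2).add ((((h 0).pow 2).add ((h 1).pow 2)).mul contDiff_const)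
  · exact (h 3).add ((h 4).mul contDiff_const)
  · simp only [Psi, Fin.reduceFinMk, Matrix.cons_val, ofReal_add, ofReal_pow]
    exact (h 5).add ((((h 3).pow 2).add ((h 4).pow 2)).mul contDiff_const)

lemma fderiv_Psi (x v : R6) : fderiv ℝ Psi x v = dPsi x v := by
  have h1 : HasDerivAt (fun t : ℝ => Psi (x + t • v)) (fderiv ℝ Psi x v) 0 := by
    have h3 : HasDerivAt (fun t : ℝ => x + t • v) v 0 := by
      simpa using ((hasDerivAt_id (0 : ℝ)).smul_const v).const_add x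
    have h4 : HasFDerivAt Psi (fderiv ℝ Psi x) (x + (0 : ℝ) • v) := by
      simpa using (Psi_smooth.differentiable (by simp) x).hasFDerivAt
    exact h4.comp_hasDerivAt 0 h3
  have e : (fun t : ℝ => Psi (x + t • v)) = fun t : ℝ => Psi x + t • dPsi x v +
      t ^ 2 • (![0, (v 0 ^ 2 + v 1 ^ 2 : ℝ) * I, 0, (v 3 ^ 2 + v 4 ^ 2 : ℝ) * I] : C4) := by
    funext t
    ext i
    fin_cases i <;> simp [Psi, dPsi] <;> ring
  rw [e] at h1
  have h2 := (((hasDerivAt_id (0 : ℝ)).smul_const (dPsi x v)).const_add (Psi x)).add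
    ((hasDerivAt_pow 2 (0 : ℝ)).smul_const
      (![0, (v 0 ^ 2 + v 1 ^ 2 : ℝ) * I, 0, (v 3 ^ 2 + v 4 ^ 2 : ℝ) * I] : C4))
  simpa using h1.unique h2

lemma Psi_embedding : IsAnalyticEmbedding Psi := by
  refine ⟨fun x _ => Psi_smooth.contDiffAt.analyticAt, ?_, ?_⟩
  · refine Function.LeftInverse.isEmbedding
      (f := fun y : C4 => (![(y 0).re, (y 0).im, (y 1).re, (y 2).re, (y 2).im, (y 3).re] : R6))
      ?_ (by fun_prop) Psi_smooth.continuous
    intro x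
    ext i
    fin_cases i <;> simp [Psi, -ofReal_add, -ofReal_pow]
  · intro x
    rw [injective_iff_map_eq_zero]
    intro v hv
    rw [fderiv_Psi] at hv
    have h0 := congrFun hv 0
    have h1 := congrFun hv 1
    have h2 := congrFun hv 2
    have h3 := congrFun hv 3
    simp [dPsi, Complex.ext_iff] at h0 h1 h2 h3
    ext i
    fin_cases i <;> simp [h0, h1, h2, h3]

lemma Psi_generic : IsGeneric Psi := by
  intro x v
  refine ⟨![(v 0).re, (v 0).im, (v 1).re, (v 2).re, (v 2).im, (v 3).re],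
    ![0, 0, (v 1).im - 2 * (x 0 * (v 0).re + x 1 * (v 0).im), 0, 0,
      (v 3).im - 2 * (x 3 * (v 2).re + x 4 * (v 2).im)], ?_⟩
  rw [fderiv_Psi, fderiv_Psi]
  ext i
  fin_cases i <;> simp [dPsi, Complex.ext_iff]

lemma bracket {c : ℕ} {U : Set R6} {F : R6 → (Fin c → ℝ)} (hU : IsOpen U) (h0 : (0 : R6) ∈ U)
    (hF : ContDiffOn ℝ 2 F U) (hF0 : F 0 = 0) (hs : Function.Surjective (fderiv ℝ F 0))
    (a b u : Fin 6) (hab : a ≠ b)
    (hX : ∀ x ∈ U, F x = 0 → fderiv ℝ F x (Pi.single a 1 + (2 * x b) • Pi.single u 1) = 0)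
    (hY : ∀ x ∈ U, F x = 0 → fderiv ℝ F x (Pi.single b 1 + (-2 * x a) • Pi.single u 1) = 0) :
    fderiv ℝ F 0 (Pi.single a 1) = 0 ∧ fderiv ℝ F 0 (Pi.single b 1) = 0 ∧
      fderiv ℝ F 0 (Pi.single u 1) = 0 := by
  have ha : fderiv ℝ F 0 (Pi.single a 1) = 0 := by simpa using hX 0 h0 hF0
  have hb : fderiv ℝ F 0 (Pi.single b 1) = 0 := by simpa using hY 0 h0 hF0
  refine ⟨ha, hb, ?_⟩
  have hFa : ContDiffAt ℝ 2 F 0 := hF.contDiffAt (hU.mem_nhds h0)
  have hs1 : HasStrictFDerivAt F (fderiv ℝ F 0) 0 := hFa.hasStrictFDerivAt (by simp)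
  have hs2 : HasStrictFDerivAt (fderiv ℝ F) (fderiv ℝ (fderiv ℝ F) 0) 0 :=
    (hFa.fderiv_right (m := 1) (by norm_num)).hasStrictFDerivAt (by simp)
  have hsym := hFa.isSymmSndFDerivAt (by simp)
  have key : ∀ (r : ℝ) (i j : Fin 6),
      (∀ x ∈ U, F x = 0 → fderiv ℝ F x (Pi.single i 1 + (r * x j) • Pi.single u 1) = 0) →
      fderiv ℝ F 0 (Pi.single j 1) = 0 →
      fderiv ℝ (fderiv ℝ F) 0 (Pi.single j 1) (Pi.single i 1) +
        r • fderiv ℝ F 0 (Pi.single u 1) = 0 := by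
    intro r i j h hj
    have h1 : HasStrictFDerivAt (fun x : R6 => x j) (ContinuousLinearMap.proj (R := ℝ)
      (φ := fun _ : Fin 6 => ℝ) j) 0 := (ContinuousLinearMap.proj (R := ℝ)
      (φ := fun _ : Fin 6 => ℝ) j).hasStrictFDerivAt
    have h2 := hs2.clm_apply (((h1.const_mul r).smul_const (Pi.single u 1 : R6)).const_add
      (Pi.single i 1 : R6))
    have h3 := fderiv_zero_of_vanish hs1 hs h2 (by
      filter_upwards [hU.mem_nhds h0] with x hx hx0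
      exact h x hx (hx0.trans hF0)) hj
    simpa [add_comm] using h3
  have k1 := key 2 a b hX hb
  have k2 := key (-2) b a hY ha
  rw [hsym (Pi.single a 1) (Pi.single b 1)] at k2
  have : (4 : ℝ) • fderiv ℝ F 0 (Pi.single u 1) = 0 := by
    have := congrArg₂ (· - ·) k1 k2
    simp only [add_sub_add_left_eq_sub, sub_self, ← sub_smul] at this
    norm_num at this ⊢
    exact this
  simpa using this

lemma Psi_minimal : IsMinimalAt Psi 0 := by
  rintro ⟨c, U, F, hc, hU, h0, hF, hF0, h⟩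
  have hs := (h 0 h0 hF0).1
  obtain ⟨a0, a1, a2⟩ := bracket hU h0 hF hF0 hs 0 1 2 (by decide)
    (fun x hx hx0 => (h x hx hx0).2 _ ⟨![0, -1, 2 * x 0, 0, 0, 0], by
      rw [fderiv_Psi, fderiv_Psi]
      ext i
      fin_cases i <;> simp [dPsi, Complex.ext_iff]⟩)
    (fun x hx hx0 => (h x hx hx0).2 _ ⟨![1, 0, 2 * x 1, 0, 0, 0], by
      rw [fderiv_Psi, fderiv_Psi]
      ext i
      fin_cases i <;> simp [dPsi, Complex.ext_iff]⟩)
  obtain ⟨a3, a4, a5⟩ := bracket hU h0 hF hF0 hs 3 4 5 (by decide)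
    (fun x hx hx0 => (h x hx hx0).2 _ ⟨![0, 0, 0, 0, -1, 2 * x 3], by
      rw [fderiv_Psi, fderiv_Psi]
      ext i
      fin_cases i <;> simp [dPsi, Complex.ext_iff]⟩)
    (fun x hx hx0 => (h x hx hx0).2 _ ⟨![0, 0, 0, 1, 0, 2 * x 4], by
      rw [fderiv_Psi, fderiv_Psi]
      ext i
      fin_cases i <;> simp [dPsi, Complex.ext_iff]⟩)
  obtain ⟨v, hv⟩ := hs (fun _ => 1)
  rw [pi_eq_sum_univ' v, map_sum, Fin.sum_univ_six] at hv
  simp only [map_smul, a0, a1, a2, a3, a4, a5, smul_zero, add_zero] at hv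
  simpa using congrFun hv ⟨0, hc⟩

end Pool.Agent.H97.CR
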