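import Pool.Agent.H97.CRDefs

set_option autoImplicit false

namespace Pool.Agent.H97.CR

open Filter Topology MeasureTheory Complex
open scoped ContDiff

variable {m n N : ℕ}

lemma fderiv_apply_comp {V : (Fin m → ℝ) → (Fin m → ℝ)} (hV : Differentiable ℝ V) (x v : Fin m → ℝ)
    (i : Fin m) : fderiv ℝ (fun x => ((V x i : ℝ) : ℂ)) x v = ((fderiv ℝ V x v i : ℝ) : ℂ) := by
  have h := (ofRealCLM.comp (ContinuousLinearMap.proj (R := ℝ) (φ := fun _ : Fin m => ℝ) i)
    ).hasFDerivAt.comp x (hV x).hasFDerivAt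
  have h' : HasFDerivAt (fun x => ((V x i : ℝ) : ℂ)) _ x := h
  rw [h'.fderiv]
  rfl

lemma parts {g : (Fin m → ℝ) → ℂ} (hg : ContDiff ℝ 1 g) {V : (Fin m → ℝ) → (Fin m → ℝ)}
    (hV : ContDiff ℝ ∞ V) (hc : HasCompactSupport V) :
    Integrable (fun x => g x * (divergence V x : ℂ)) ∧ Integrable (fun x => fderiv ℝ g x (V x)) ∧
    ∫ x, g x * (divergence V x : ℂ) = -∫ x, fderiv ℝ g x (V x) := by
  have hVd : Differentiable ℝ V := hV.differentiable (by simp)
  have hgd : Differentiable ℝ g := hg.differentiable (by simp)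
  have hVi : ∀ i, ContDiff ℝ 1 (fun x => ((V x i : ℝ) : ℂ)) := fun i =>
    ofRealCLM.contDiff.comp ((contDiff_apply ℝ ℝ i).comp (hV.of_le (by simp)))
  have hci : ∀ i, HasCompactSupport (fun x => ((V x i : ℝ) : ℂ)) := fun i =>
    hc.comp_left (g := fun v : Fin m → ℝ => ((v i : ℝ) : ℂ)) (by simp)
  have hg' : ∀ v, Continuous fun x => fderiv ℝ g x v := fun v =>
    (hg.continuous_fderiv (by simp)).clm_apply continuous_const
  have hV' : ∀ i v, Continuous fun x => fderiv ℝ (fun x => ((V x i : ℝ) : ℂ)) x v := fun i v =>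
    ((hVi i).continuous_fderiv (by simp)).clm_apply continuous_const
  have i1 : ∀ i v, Integrable fun x => fderiv ℝ g x v * ((V x i : ℝ) : ℂ) := fun i v =>
    ((hg' v).mul (hVi i).continuous).integrable_of_hasCompactSupport (hci i).mul_left
  have i2 : ∀ i v, Integrable fun x => g x * fderiv ℝ (fun x => ((V x i : ℝ) : ℂ)) x v :=
    fun i v => (hg.continuous.mul (hV' i v)).integrable_of_hasCompactSupport
      ((hci i).fderiv_apply ℝ v).mul_left
  have i3 : ∀ i, Integrable fun x => g x * ((V x i : ℝ) : ℂ) := fun i =>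
    (hg.continuous.mul (hVi i).continuous).integrable_of_hasCompactSupport (hci i).mul_left
  have e1 : (fun x => g x * (divergence V x : ℂ)) =
      fun x => ∑ i, g x * fderiv ℝ (fun x => ((V x i : ℝ) : ℂ)) x (Pi.single i 1) := by
    funext x
    simp only [divergence, fderiv_apply_comp hVd, ofReal_sum, Finset.mul_sum]
  have e2 : (fun x => fderiv ℝ g x (V x)) =
      fun x => ∑ i, fderiv ℝ g x (Pi.single i 1) * ((V x i : ℝ) : ℂ) := by
    funext x
    conv_lhs => rw [pi_eq_sum_univ' (V x)]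
    rw [map_sum]
    refine Finset.sum_congr rfl fun i _ => ?_
    rw [map_smul, real_smul, mul_comm]
  rw [e1, e2]
  refine ⟨integrable_finsetSum _ fun i _ => i2 i _, integrable_finsetSum _ fun i _ => i1 i _, ?_⟩
  rw [integral_finsetSum _ fun i _ => i2 i _, integral_finsetSum _ fun i _ => i1 i _,
    ← Finset.sum_neg_distrib]
  refine Finset.sum_congr rfl fun i _ => ?_
  exact integral_mul_fderiv_eq_neg_fderiv_mul_of_integrable (i1 i _) (i2 i _) (i3 i)
    (fun x _ => hgd x) (fun x _ => (hVi i).differentiable (by simp) x)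

/-- Restrictions of holomorphic functions are CR. -/
lemma hol_cr {Ψ : (Fin m → ℝ) → (Fin n → ℂ)} (hΨ : ContDiff ℝ 1 Ψ) {g : (Fin n → ℂ) → ℂ}
    (hg : ∀ x, AnalyticAt ℂ g (Ψ x)) {V W : (Fin m → ℝ) → (Fin m → ℝ)}
    (hV : ContDiff ℝ ∞ V) (hW : ContDiff ℝ ∞ W) (hVc : HasCompactSupport V)
    (hWc : HasCompactSupport W)
    (h : ∀ x, fderiv ℝ Ψ x (V x) + I • fderiv ℝ Ψ x (W x) = 0) :
    ∫ x, g (Ψ x) * ((divergence V x : ℂ) + I * (divergence W x : ℂ)) = 0 := by
  have hc : ContDiff ℝ 1 (fun x => g (Ψ x)) := contDiff_iff_contDiffAt.mpr fun x =>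
    ((hg x).contDiffAt.restrict_scalars ℝ).comp x hΨ.contDiffAt
  obtain ⟨a1, a2, a3⟩ := parts hc hV hVc
  obtain ⟨b1, b2, b3⟩ := parts hc hW hWc
  have e : ∀ x, g (Ψ x) * ((divergence V x : ℂ) + I * (divergence W x : ℂ)) =
      g (Ψ x) * (divergence V x : ℂ) + I * (g (Ψ x) * (divergence W x : ℂ)) := fun x => by ring
  simp only [e]
  rw [integral_add a1 (b1.const_mul I), integral_const_mul, a3, b3, mul_neg, ← neg_add,
    ← integral_const_mul, ← integral_add a2 (b2.const_mul I), neg_eq_zero]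
  have e2 : ∀ x, fderiv ℝ (fun x => g (Ψ x)) x (V x) + I * fderiv ℝ (fun x => g (Ψ x)) x (W x) =
      0 := by
    intro x
    have h1 := ((hg x).differentiableAt.hasFDerivAt.restrictScalars ℝ).comp x
      (hΨ.differentiable (by simp) x).hasFDerivAt
    have h2 : HasFDerivAt (fun x => g (Ψ x)) _ x := h1
    rw [h2.fderiv]
    simp only [ContinuousLinearMap.comp_apply, ContinuousLinearMap.coe_restrictScalars']
    rw [← smul_eq_mul, ← map_smul, ← map_add, h x, map_zero]
  simp [e2]

lemma continuous_divergence {V : (Fin m → ℝ) → (Fin m → ℝ)} (hV : ContDiff ℝ ∞ V) :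
    Continuous (divergence V) := by
  unfold divergence
  refine continuous_finsetSum _ fun i _ => (continuous_apply i).comp ?_
  exact (hV.continuous_fderiv (by simp)).clm_apply continuous_const

lemma compact_divergence {V : (Fin m → ℝ) → (Fin m → ℝ)} (hV : HasCompactSupport V) :
    HasCompactSupport (divergence V) :=
  (hV.fderiv ℝ).comp_left
    (g := fun L : (Fin m → ℝ) →L[ℝ] (Fin m → ℝ) => ∑ i, L (Pi.single i 1) i) (by simp)

/-- Bounded pointwise limits of holomorphic functions are CR. -/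
lemma limit_cr {Ψ : (Fin m → ℝ) → (Fin n → ℂ)} (hΨ : ContDiff ℝ 1 Ψ)
    {f : (Fin n → ℂ) → EuclideanSpace ℂ (Fin N)} {g : ℕ → (Fin n → ℂ) → EuclideanSpace ℂ (Fin N)}
    (hg : ∀ k x, AnalyticAt ℂ (g k) (Ψ x)) (hb : ∀ k x, ‖g k (Ψ x)‖ ≤ 1)
    (hl : ∀ x, Tendsto (fun k => g k (Ψ x)) atTop (𝓝 (f (Ψ x)))) : IsCR Ψ f := by
  intro j V W hV hW hVc hWc h
  have hgj : ∀ k x, AnalyticAt ℂ (fun y => g k y j) (Ψ x) := fun k x =>
    ((EuclideanSpace.proj (𝕜 := ℂ) j).analyticAt _).comp (hg k x)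
  set d : (Fin m → ℝ) → ℂ := fun x => (divergence V x : ℂ) + I * (divergence W x : ℂ) with hd
  have hdc : Continuous d := by
    have := continuous_divergence hV
    have := continuous_divergence hW
    rw [hd]; fun_prop
  have hds : HasCompactSupport d :=
    ((compact_divergence hVc).comp_left (g := fun t : ℝ => (t : ℂ)) (by simp)).add
      ((compact_divergence hWc).comp_left (g := fun t : ℝ => I * (t : ℂ)) (by simp))
  have hlim := tendsto_integral_of_dominated_convergence (μ := volume)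
    (F := fun k x => g k (Ψ x) j * d x) (f := fun x => f (Ψ x) j * d x) (fun x => ‖d x‖)
    (fun k => ((continuous_iff_continuousAt.mpr fun x =>
      ContinuousAt.comp (f := Ψ) (hgj k x).continuousAt hΨ.continuous.continuousAt).mul
        hdc).aestronglyMeasurable)
    (hdc.integrable_of_hasCompactSupport hds).norm
    (fun k => Eventually.of_forall fun x => by
      rw [norm_mul]
      exact mul_le_of_le_one_left (norm_nonneg _) ((PiLp.norm_apply_le _ _).trans (hb k x)))
    (Eventually.of_forall fun x =>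
      (((EuclideanSpace.proj (𝕜 := ℂ) j).continuous.tendsto _).comp (hl x)).mul_const _)
  have h0 : ∀ k, ∫ x, g k (Ψ x) j * d x = 0 := fun k => hol_cr hΨ (hgj k) hV hW hVc hWc h
  simp only [h0] at hlim
  exact tendsto_nhds_unique hlim tendsto_const_nhds

/-- A function vanishing on a regular level set has derivative vanishing on its tangent space. -/
lemma fderiv_zero_of_vanish {c : ℕ} {F G : (Fin m → ℝ) → (Fin c → ℝ)} {x₀ : Fin m → ℝ}
    {F' G' : (Fin m → ℝ) →L[ℝ] (Fin c → ℝ)} (hF : HasStrictFDerivAt F F' x₀)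
    (hs : Function.Surjective F') (hG : HasStrictFDerivAt G G' x₀)
    (h : ∀ᶠ x in 𝓝 x₀, F x = F x₀ → G x = 0) {v : Fin m → ℝ} (hv : F' v = 0) : G' v = 0 := by
  ext i
  have h0 : G x₀ = 0 := h.self_of_nhds rfl
  have hex : IsLocalExtrOn (fun x => G x i) {x | F x = F x₀} x₀ := by
    refine Or.inl ?_
    filter_upwards [nhdsWithin_le_nhds h, self_mem_nhdsWithin] with x h1 h2
    rw [h1 h2, h0]
  obtain ⟨Λ, Λ₀, hne, hΛ⟩ := hex.exists_linear_map_of_hasStrictFDerivAt hF
    (hasStrictFDerivAt_pi'.mp hG i)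
  have h1 := hΛ v
  rw [hv, map_zero, zero_add] at h1
  rcases smul_eq_zero.mp h1 with h2 | h2
  · exfalso
    apply hne
    rw [h2]
    simp only [h2, zero_smul, add_zero] at hΛ
    have : Λ = 0 := by
      ext y
      obtain ⟨x, hx⟩ := hs (Pi.single y 1)
      simpa [hx] using hΛ x
    rw [this]; rfl
  · simpa using h2

end Pool.Agent.H97.CR
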