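import Mathlib

set_option autoImplicit false

namespace Pool.Agent.H97.Wedge

open Complex Filter Topology

noncomputable def c (a : ℂ) : ℂ := 1 - I * a
noncomputable def D (a b : ℂ) : ℂ := a + c a * (a + b)
noncomputable def Q (a b : ℂ) : ℂ := (a + c a * a + I * c a) * D a b + a ^ 4
noncomputable def P1 (a b : ℂ) : ℂ := (a + c a * a - I * c a) * D a b + a ^ 4
noncomputable def P2 (a b : ℂ) : ℂ := 2 * a * c a * (b + 2 * a)

lemma ident (a b : ℂ) : ‖Q a b‖ ^ 2 - ‖P1 a b‖ ^ 2 - ‖P2 a b‖ ^ 2 =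
    4 * ‖c a‖ ^ 2 * (a.im * ‖b + 2 * a‖ ^ 2 + a.im * ‖D a b + I * a ^ 2‖ ^ 2
      + b.im * ‖a ^ 2‖ ^ 2) := by
  simp only [← Complex.normSq_eq_norm_sq]
  simp only [Complex.normSq_apply, Q, P1, P2, D, c, pow_succ,
    pow_zero, one_mul, add_re, add_im, mul_re, mul_im, sub_re, sub_im, I_re, I_im, one_re, one_im,
    re_ofNat, im_ofNat]
  ring

lemma c_ge {a : ℂ} (ha : 0 < a.im) : 1 ≤ ‖c a‖ := by
  have h := Complex.re_le_norm (c a)
  have : (c a).re = 1 + a.im := by simp [c]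
  linarith

lemma sq_le {a b : ℂ} (ha : 0 < a.im) (hb : 0 < b.im) : ‖a ^ 2‖ ≤ ‖c a‖ * ‖D a b‖ := by
  have h := Complex.im_le_norm ((starRingEnd ℂ) (c a) * D a b)
  rw [norm_mul, Complex.norm_conj] at h
  refine le_trans ?_ h
  have h1 : ((starRingEnd ℂ) (c a) * D a b).im =
      a.im + ‖a‖ ^ 2 + ‖c a‖ ^ 2 * (a.im + b.im) := by
    simp only [← Complex.normSq_eq_norm_sq, Complex.normSq_apply, D, c, add_re, add_im, mul_re,
      mul_im, sub_re, sub_im, I_re, I_im, one_re, one_im, conj_re, conj_im]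
    ring
  rw [h1, norm_pow]
  have : 0 ≤ ‖c a‖ ^ 2 * (a.im + b.im) := by positivity
  linarith

lemma E_pos {a b : ℂ} (ha : 0 < a.im) (hb : 0 < b.im) :
    0 < ‖Q a b‖ ^ 2 - ‖P1 a b‖ ^ 2 - ‖P2 a b‖ ^ 2 := by
  rw [ident]
  have h1 := c_ge ha
  have h2 : a ≠ 0 := by rintro rfl; simp at ha
  have h3 : 0 < ‖a ^ 2‖ := norm_pos_iff.mpr (pow_ne_zero _ h2)
  positivity

lemma Q_ne {a b : ℂ} (ha : 0 < a.im) (hb : 0 < b.im) : Q a b ≠ 0 := by
  intro h
  have := E_pos ha hb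
  rw [h, norm_zero] at this
  nlinarith [sq_nonneg ‖P1 a b‖, sq_nonneg ‖P2 a b‖]

lemma Q_ge {a b : ℂ} (ha : 0 < a.im) (hb : 0 < b.im) : ‖c a‖ * ‖D a b‖ ≤ ‖Q a b‖ := by
  have h1 := E_pos ha hb
  have h2 : ‖P1 a b‖ ≤ ‖Q a b‖ := by
    apply le_of_sq_le_sq _ (norm_nonneg _) |> fun h => h
    all_goals nlinarith [sq_nonneg ‖P2 a b‖]
  have h3 : Q a b - P1 a b = 2 * I * (c a * D a b) := by unfold Q P1; ring
  have h4 := norm_sub_le (Q a b) (P1 a b)
  rw [h3, norm_mul, norm_mul, norm_mul, Complex.norm_I] at h4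
  simp only [Complex.norm_ofNat] at h4
  linarith

lemma E_le {a b : ℂ} (ha : 0 < a.im) (hb : 0 < b.im) :
    ‖Q a b‖ ^ 2 - ‖P1 a b‖ ^ 2 - ‖P2 a b‖ ^ 2 ≤
      4 * (a.im * 4 + a.im * (1 + ‖c a‖) ^ 2 + b.im * ‖c a‖ ^ 2) * ‖Q a b‖ ^ 2 := by
  rw [ident]
  have h1 := c_ge ha
  have h2 := sq_le ha hb
  have h3 := Q_ge ha hb
  have hD := norm_nonneg (D a b)
  have h4 : ‖D a b + I * a ^ 2‖ ≤ (1 + ‖c a‖) * ‖D a b‖ := by
    have := norm_add_le (D a b) (I * a ^ 2)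
    rw [norm_mul, Complex.norm_I, one_mul] at this
    linarith
  have h5 : ‖b + 2 * a‖ ≤ 2 * ‖D a b‖ := by
    have e : c a * (b + 2 * a) = D a b - I * a ^ 2 := by unfold D c; ring
    have h6 := norm_sub_le (D a b) (I * a ^ 2)
    rw [← e, norm_mul, norm_mul, Complex.norm_I, one_mul] at h6
    have h7 : ‖c a‖ * ‖b + 2 * a‖ ≤ ‖c a‖ * (2 * ‖D a b‖) := by nlinarith
    exact le_of_mul_le_mul_left h7 (by linarith)
  have h4' : ‖D a b + I * a ^ 2‖ ^ 2 ≤ ((1 + ‖c a‖) * ‖D a b‖) ^ 2 :=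
    pow_le_pow_left₀ (norm_nonneg _) h4 2
  have h5' : ‖b + 2 * a‖ ^ 2 ≤ (2 * ‖D a b‖) ^ 2 := pow_le_pow_left₀ (norm_nonneg _) h5 2
  have h2' : ‖a ^ 2‖ ^ 2 ≤ (‖c a‖ * ‖D a b‖) ^ 2 := pow_le_pow_left₀ (norm_nonneg _) h2 2
  have h3' : (‖c a‖ * ‖D a b‖) ^ 2 ≤ ‖Q a b‖ ^ 2 := pow_le_pow_left₀ (by positivity) h3 2
  calc _ ≤ 4 * ‖c a‖ ^ 2 * (a.im * (2 * ‖D a b‖) ^ 2 + a.im * ((1 + ‖c a‖) * ‖D a b‖) ^ 2
      + b.im * (‖c a‖ * ‖D a b‖) ^ 2) := by gcongr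
    _ = 4 * (a.im * 4 + a.im * (1 + ‖c a‖) ^ 2 + b.im * ‖c a‖ ^ 2) *
      (‖c a‖ * ‖D a b‖) ^ 2 := by ring
    _ ≤ _ := by gcongr

abbrev C2 := Fin 2 → ℂ

noncomputable def rho : C2 →L[ℝ] (Fin 2 → ℝ) :=
  ContinuousLinearMap.pi fun i => Complex.imCLM.comp (ContinuousLinearMap.proj i)

@[simp] lemma rho_apply (w : C2) (i : Fin 2) : rho w i = (w i).im := rfl

def Gam : Set (Fin 2 → ℝ) := {x | 0 < x 0 ∧ 0 < x 1}

noncomputable def q (w : C2) : ℂ := Q (w 0) (w 1)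

noncomputable def p (w : C2) : EuclideanSpace ℂ (Fin 2) :=
  P1 (w 0) (w 1) • EuclideanSpace.single 0 (1 : ℂ) + P2 (w 0) (w 1) • EuclideanSpace.single 1 (1 : ℂ)

noncomputable def g (w : C2) : EuclideanSpace ℂ (Fin 2) := (q w)⁻¹ • p w

lemma an_proj (i : Fin 2) (w : C2) : AnalyticAt ℂ (fun w : C2 => w i) w :=
  (ContinuousLinearMap.proj (R := ℂ) (φ := fun _ : Fin 2 => ℂ) i).analyticAt w

lemma an_q (w : C2) : AnalyticAt ℂ q w := by
  have h : ContDiff ℂ ⊤ q := by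
    unfold q Q D c
    fun_prop
  exact h.contDiffAt.analyticAt

lemma an_P1 (w : C2) : AnalyticAt ℂ (fun w : C2 => P1 (w 0) (w 1)) w := by
  have h : ContDiff ℂ ⊤ (fun w : C2 => P1 (w 0) (w 1)) := by
    unfold P1 D c
    fun_prop
  exact h.contDiffAt.analyticAt

lemma an_P2 (w : C2) : AnalyticAt ℂ (fun w : C2 => P2 (w 0) (w 1)) w := by
  have h : ContDiff ℂ ⊤ (fun w : C2 => P2 (w 0) (w 1)) := by
    unfold P2 c
    fun_prop
  exact h.contDiffAt.analyticAt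

lemma an_p (w : C2) : AnalyticAt ℂ p w :=
  ((an_P1 w).smul analyticAt_const).add ((an_P2 w).smul analyticAt_const)

lemma an_g (w : C2) (h : q w ≠ 0) : AnalyticAt ℂ g w :=
  ((an_q w).inv h).smul (an_p w)

lemma p_zero (w : C2) : p w 0 = P1 (w 0) (w 1) := by simp [p]

lemma norm_p (w : C2) : ‖p w‖ ^ 2 = ‖P1 (w 0) (w 1)‖ ^ 2 + ‖P2 (w 0) (w 1)‖ ^ 2 := by
  rw [EuclideanSpace.norm_sq_eq, Fin.sum_univ_two]
  simp [p]

lemma norm_g (w : C2) (h : q w ≠ 0) : 1 - ‖g w‖ ^ 2 =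
    (‖Q (w 0) (w 1)‖ ^ 2 - ‖P1 (w 0) (w 1)‖ ^ 2 - ‖P2 (w 0) (w 1)‖ ^ 2) / ‖Q (w 0) (w 1)‖ ^ 2 := by
  have h' : ‖Q (w 0) (w 1)‖ ≠ 0 := norm_ne_zero_iff.mpr h
  rw [g, norm_smul, mul_pow, norm_p, norm_inv, q]
  field_simp
  ring

lemma g_lt (w : C2) (h : rho w ∈ Gam) : ‖g w‖ < 1 := by
  have h1 := norm_g w (Q_ne h.1 h.2)
  have h2 : 0 < 1 - ‖g w‖ ^ 2 := by
    rw [h1]
    exact div_pos (E_pos h.1 h.2) (pow_pos (norm_pos_iff.mpr (Q_ne h.1 h.2)) 2)
  nlinarith [norm_nonneg (g w)]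

noncomputable def B (w : C2) : ℝ :=
  4 * ((w 0).im * 4 + (w 0).im * (1 + ‖c (w 0)‖) ^ 2 + (w 1).im * ‖c (w 0)‖ ^ 2)

lemma g_ge (w : C2) (h : rho w ∈ Gam) : 1 - B w ≤ ‖g w‖ := by
  have h1 := norm_g w (Q_ne h.1 h.2)
  have h2 : 1 - ‖g w‖ ^ 2 ≤ B w := by
    have h3 : Q (w 0) (w 1) ≠ 0 := Q_ne h.1 h.2
    rw [h1, div_le_iff₀ (pow_pos (norm_pos_iff.mpr h3) 2)]
    exact E_le h.1 h.2
  nlinarith [norm_nonneg (g w), g_lt w h]

lemma g_tendsto (m : C2) (hm : rho m = 0) :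
    Tendsto (fun w => ‖g w‖) (𝓝[{w | w ∈ (Set.univ : Set C2) ∧ rho w ∈ Gam}] m) (𝓝 1) := by
  have hB : Continuous B := by unfold B c; fun_prop
  have h0 : (m 0).im = 0 := congrFun hm 0
  have h1 : (m 1).im = 0 := congrFun hm 1
  have h2 : Tendsto (fun w => 1 - B w) (𝓝 m) (𝓝 1) := by
    have := (hB.tendsto m).const_sub 1
    simpa [B, h0, h1] using this
  refine tendsto_of_tendsto_of_tendsto_of_le_of_le' (h2.mono_left nhdsWithin_le_nhds)
    tendsto_const_nhds ?_ ?_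
  · filter_upwards [self_mem_nhdsWithin] with w hw using g_ge w hw.2
  · filter_upwards [self_mem_nhdsWithin] with w hw using (g_lt w hw.2).le

lemma isOpen_Gam : IsOpen Gam :=
  (isOpen_lt continuous_const (continuous_apply 0)).inter
    (isOpen_lt continuous_const (continuous_apply 1))

lemma no_ext : ¬ ∃ V ∈ 𝓝 (0 : C2), ∃ F : C2 → EuclideanSpace ℂ (Fin 2),
    AnalyticOnNhd ℂ F V ∧ ∀ w ∈ V, w ∈ (Set.univ : Set C2) → rho w ∈ Gam → F w = g w := by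
  rintro ⟨V, hV, F, hF, hFg⟩
  obtain ⟨r, hr, hrV⟩ := Metric.mem_nhds_iff.mp hV
  set f : C2 → ℂ := fun w => F w 0 with hf
  have hfa : AnalyticOnNhd ℂ f (Metric.ball 0 r) := fun w hw =>
    ((EuclideanSpace.proj (𝕜 := ℂ) (0 : Fin 2)).analyticAt _).comp (hF w (hrV hw))
  set w0 : C2 := fun _ => ((r / 2 : ℝ) : ℂ) * I with hw0
  have hw0b : w0 ∈ Metric.ball (0 : C2) r := by
    rw [mem_ball_zero_iff, pi_norm_lt_iff hr]
    intro i
    simp only [hw0, norm_mul, Complex.norm_I, mul_one, Complex.norm_real,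
      Real.norm_of_nonneg (half_pos hr).le]
    linarith
  have hw0g : rho w0 ∈ Gam := by
    constructor <;> simp [hw0, hr]
  have key : Set.EqOn (fun w => q w * f w) (fun w => P1 (w 0) (w 1)) (Metric.ball 0 r) := by
    refine AnalyticOnNhd.eqOn_of_preconnected_of_eventuallyEq (𝕜 := ℂ)
      (fun w hw => (an_q w).mul (hfa w hw)) (fun w _ => an_P1 w)
      (convex_ball _ _).isPreconnected hw0b ?_
    filter_upwards [Metric.isOpen_ball.mem_nhds hw0b,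
      (isOpen_Gam.preimage rho.continuous).mem_nhds hw0g] with w hw hw'
    have h1 : q w ≠ 0 := Q_ne hw'.1 hw'.2
    simp only [hf, hFg w (hrV hw) trivial hw', g, PiLp.smul_apply, p_zero, smul_eq_mul]
    field_simp
  have hfc : ContinuousAt f 0 := (hfa 0 (Metric.mem_ball_self hr)).continuousAt
  have hball := Metric.ball_mem_nhds (0 : C2) hr
  -- first curve
  have t1 : Tendsto (fun t : ℂ => (![0, t] : C2)) (𝓝[≠] 0) (𝓝 0) := by
    have : Continuous (fun t : ℂ => (![0, t] : C2)) := by fun_prop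
    have h := this.tendsto 0
    have e : (![0, 0] : C2) = 0 := by ext i; fin_cases i <;> rfl
    rw [e] at h
    exact h.mono_left nhdsWithin_le_nhds
  have e1 : f 0 = -1 := by
    refine tendsto_nhds_unique (hfc.tendsto.comp t1) (tendsto_const_nhds.congr' ?_)
    filter_upwards [t1 hball, self_mem_nhdsWithin] with t ht ht0
    have h := key ht
    have ht0' : t ≠ 0 := ht0
    simp only [q, Q, P1, D, c, Matrix.cons_val_zero, Matrix.cons_val_one] at h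
    have h2 : I * t * (f ![0, t] + 1) = 0 := by linear_combination h
    have h3 : f ![0, t] + 1 = 0 := by simpa [ht0'] using h2
    simp only [Function.comp]
    linear_combination -h3
  -- second curve
  have hc0 : ∀ᶠ t : ℂ in 𝓝 0, c t ≠ 0 := by
    have : Continuous c := by unfold c; fun_prop
    exact this.continuousAt.eventually_ne (by simp [c])
  have t2 : Tendsto (fun t : ℂ => (![t, -t - t / c t] : C2)) (𝓝[≠] 0) (𝓝 0) := by
    have : ContinuousAt (fun t : ℂ => (![t, -t - t / c t] : C2)) 0 := by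
      rw [continuousAt_pi]
      intro i
      fin_cases i
      · exact continuousAt_id
      · have hc : ContinuousAt c 0 := by unfold c; fun_prop
        exact continuousAt_id.neg.sub (continuousAt_id.div hc (by simp [c]))
    have h := this.tendsto
    have e : (![0, -0 - 0 / c 0] : C2) = 0 := by ext i; fin_cases i <;> simp
    rw [e] at h
    exact h.mono_left nhdsWithin_le_nhds
  have e2 : f 0 = 1 := by
    refine tendsto_nhds_unique (hfc.tendsto.comp t2) (tendsto_const_nhds.congr' ?_)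
    filter_upwards [t2 hball, self_mem_nhdsWithin, nhdsWithin_le_nhds hc0] with t ht ht0 hct
    have h := key ht
    have ht0' : t ≠ 0 := ht0
    have hD : D t (-t - t / c t) = 0 := by unfold D; field_simp; ring
    simp only [q, Q, P1, Matrix.cons_val_zero, Matrix.cons_val_one, hD] at h
    have h2 : t ^ 4 * (f ![t, -t - t / c t] - 1) = 0 := by linear_combination h
    have h3 : f ![t, -t - t / c t] - 1 = 0 := by simpa [ht0'] using h2
    simp only [Function.comp]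
    linear_combination -h3
  rw [e1] at e2
  norm_num at e2

lemma q_not : ¬ (∀ᶠ w in 𝓝 (0 : C2), q w = 0) := by
  intro h
  have key : Set.EqOn q 0 Set.univ :=
    AnalyticOnNhd.eqOn_zero_of_preconnected_of_eventuallyEq_zero (𝕜 := ℂ)
      (fun w _ => an_q w) isPreconnected_univ (Set.mem_univ 0) h
  exact Q_ne (a := I) (b := I) (by simp) (by simp) (key (x := fun _ => I) trivial)

end Pool.Agent.H97.Wedge
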