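import Pool.Agent.H97.CRGeom
import Pool.Agent.H97.Wedge

set_option autoImplicit false

namespace Pool.Agent.H97.CR

open Filter Topology MeasureTheory Complex Wedge
open scoped ContDiff

lemma c_ge' {a : ℂ} (ha : 0 ≤ a.im) : 1 ≤ ‖c a‖ := by
  have h := Complex.re_le_norm (c a)
  have : (c a).re = 1 + a.im := by simp [c]
  linarith

lemma sq_le' {a b : ℂ} (ha : 0 ≤ a.im) (hb : 0 ≤ b.im) : ‖a ^ 2‖ ≤ ‖c a‖ * ‖D a b‖ := by
  have h := Complex.im_le_norm ((starRingEnd ℂ) (c a) * D a b)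
  rw [norm_mul, Complex.norm_conj] at h
  refine le_trans ?_ h
  have h1 : ((starRingEnd ℂ) (c a) * D a b).im =
      a.im + ‖a‖ ^ 2 + ‖c a‖ ^ 2 * (a.im + b.im) := by
    simp only [← Complex.normSq_eq_norm_sq, Complex.normSq_apply, D, c, add_re, add_im, mul_re,
      mul_im, sub_re, sub_im, I_re, I_im, one_re, one_im, conj_re, conj_im]
    ring
  rw [h1, norm_pow]
  have : 0 ≤ ‖c a‖ ^ 2 * (a.im + b.im) := by positivity
  linarith

lemma Q_ge' {a b : ℂ} (ha : 0 ≤ a.im) (hb : 0 ≤ b.im) : ‖c a‖ * ‖D a b‖ ≤ ‖Q a b‖ := by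
  have h1 : 0 ≤ ‖Q a b‖ ^ 2 - ‖P1 a b‖ ^ 2 - ‖P2 a b‖ ^ 2 := by
    rw [ident]; positivity
  have h2 : ‖P1 a b‖ ≤ ‖Q a b‖ := by
    apply le_of_sq_le_sq _ (norm_nonneg _) |> fun h => h
    all_goals nlinarith [sq_nonneg ‖P2 a b‖]
  have h3 : Q a b - P1 a b = 2 * I * (c a * D a b) := by unfold Q P1; ring
  have h4 := norm_sub_le (Q a b) (P1 a b)
  rw [h3, norm_mul, norm_mul, norm_mul, Complex.norm_I] at h4
  simp only [Complex.norm_ofNat] at h4
  linarith

lemma Q_zero {a b : ℂ} (ha : 0 ≤ a.im) (hb : 0 ≤ b.im) (h : Q a b = 0) : a = 0 ∧ b = 0 := by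
  have h1 := Q_ge' ha hb
  have h2 := sq_le' ha hb
  rw [h, norm_zero] at h1
  have h3 : a = 0 := by simpa using h2.trans h1
  subst h3
  have h4 : I * b = 0 := by simpa [Q, D, c] using h
  exact ⟨rfl, by simpa using h4⟩

lemma QP_le {a b : ℂ} (ha : 0 ≤ a.im) (hb : 0 ≤ b.im) :
    ‖Q a b + P1 a b‖ ≤ 2 * (‖a + c a * a‖ + ‖a ^ 2‖) * ‖Q a b‖ := by
  have e : Q a b + P1 a b = 2 * ((a + c a * a) * D a b + a ^ 2 * a ^ 2) := by unfold Q P1; ring
  have h1 := Q_ge' ha hb
  have h2 := sq_le' ha hb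
  have h3 := c_ge' ha
  have h4 : ‖D a b‖ ≤ ‖Q a b‖ := by nlinarith [norm_nonneg (D a b)]
  rw [e, norm_mul, Complex.norm_ofNat, mul_assoc, add_mul ‖a + c a * a‖]
  gcongr
  refine (norm_add_le _ _).trans ?_
  rw [norm_mul, norm_mul]
  gcongr
  exact h2.trans h1

abbrev C5 := EuclideanSpace ℂ (Fin 5)

noncomputable def qv (ε : ℝ) (y : C4) : ℂ := Q (y 1) (y 3 + ε * I)

noncomputable def Pv (ε : ℝ) (y : C4) : C5 :=
  !₂[P1 (y 1) (y 3 + ε * I), P2 (y 1) (y 3 + ε * I),
    2 * c (y 1) * y 0 * (y 3 + ε * I + 2 * y 1),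
    2 * c (y 1) * y 0 * (D (y 1) (y 3 + ε * I) + I * y 1 ^ 2), 2 * c (y 1) * y 2 * y 1 ^ 2]

lemma qv_smooth (ε : ℝ) : ContDiff ℂ ⊤ (qv ε) := by
  unfold qv Q D c
  fun_prop

lemma Pv_smooth (ε : ℝ) : ContDiff ℂ ⊤ (Pv ε) := by
  rw [contDiff_euclidean]
  intro i
  fin_cases i <;> simp only [Pv, P1, P2, D, c, Fin.reduceFinMk, Matrix.cons_val, Fin.zero_eta,
    Fin.mk_one, Matrix.cons_val_zero, Matrix.cons_val_one] <;> fun_prop

lemma Pv_cont (y : C4) : Continuous fun ε : ℝ => Pv ε y := by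
  unfold Pv P1 P2 D c
  fun_prop

lemma qv_cont (y : C4) : Continuous fun ε : ℝ => qv ε y := by
  unfold qv Q D c
  fun_prop

lemma Psi_im1 (x : R6) : (Psi x 1).im = ‖Psi x 0‖ ^ 2 := by
  rw [← Complex.normSq_eq_norm_sq]
  simp [Psi, Complex.normSq_apply, -ofReal_add, -ofReal_pow, sq]

lemma Psi_im3 (x : R6) : (Psi x 3).im = ‖Psi x 2‖ ^ 2 := by
  rw [← Complex.normSq_eq_norm_sq]
  simp [Psi, Complex.normSq_apply, -ofReal_add, -ofReal_pow, sq]

lemma norm_Pv (ε : ℝ) (x : R6) : ‖Pv ε (Psi x)‖ ^ 2 =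
    ‖qv ε (Psi x)‖ ^ 2 - 4 * ‖c (Psi x 1)‖ ^ 2 * (ε * ‖Psi x 1 ^ 2‖ ^ 2) := by
  have h := ident (Psi x 1) (Psi x 3 + ε * I)
  have e : (Psi x 3 + ε * I).im = ‖Psi x 2‖ ^ 2 + ε := by simp [Psi_im3]
  rw [Psi_im1, e] at h
  rw [EuclideanSpace.norm_sq_eq, Fin.sum_univ_five]
  simp only [Pv, qv, Matrix.cons_val, norm_mul, Complex.norm_ofNat, mul_pow]
  linear_combination -h

lemma qv_zero {ε : ℝ} (hε : 0 ≤ ε) {x : R6} (h : qv ε (Psi x) = 0) : ε = 0 ∧ Psi x = 0 := by
  have e : (Psi x 3 + ε * I).im = ‖Psi x 2‖ ^ 2 + ε := by simp [Psi_im3]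
  obtain ⟨h1, h2⟩ := Q_zero (by rw [Psi_im1]; positivity) (by rw [e]; positivity) h
  have h3 := Psi_im1 x
  rw [h2] at e
  rw [h1] at h3
  have h4 : ε = 0 := by
    simp only [zero_im] at e
    nlinarith [sq_nonneg ‖Psi x 2‖]
  subst h4
  have h5 : Psi x 2 = 0 := by simpa using e.symm
  have h6 : Psi x 0 = 0 := by simpa using h3.symm
  have h7 : Psi x 3 = 0 := by simpa using h2
  refine ⟨rfl, ?_⟩
  ext i
  fin_cases i
  exacts [h6, h1, h5, h7]

noncomputable def e0 : C5 := EuclideanSpace.single 0 (-1 : ℂ)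

noncomputable def fe (ε : ℝ) (y : C4) : C5 := (qv ε y)⁻¹ • Pv ε y

open Classical in
noncomputable def ff (y : C4) : C5 := if y = 0 then e0 else fe 0 y

lemma fe_an {ε : ℝ} {y : C4} (h : qv ε y ≠ 0) : AnalyticAt ℂ (fe ε) y :=
  (((qv_smooth ε).contDiffAt.analyticAt).inv h).smul (Pv_smooth ε).contDiffAt.analyticAt

lemma fe_le {ε : ℝ} (hε : 0 ≤ ε) (x : R6) : ‖fe ε (Psi x)‖ ≤ 1 := by
  have h : ‖Pv ε (Psi x)‖ ≤ ‖qv ε (Psi x)‖ := by
    refine (pow_le_pow_iff_left₀ (norm_nonneg _) (norm_nonneg _) two_ne_zero).mp ?_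
    rw [norm_Pv]
    have : 0 ≤ 4 * ‖c (Psi x 1)‖ ^ 2 * (ε * ‖Psi x 1 ^ 2‖ ^ 2) := by positivity
    linarith
  rw [fe, norm_smul, norm_inv, ← div_eq_inv_mul]
  exact div_le_one_of_le₀ h (norm_nonneg _)

lemma ff_norm (x : R6) : ‖ff (Psi x)‖ = 1 := by
  unfold ff
  split_ifs with h
  · simp [e0]
  · have h1 : qv 0 (Psi x) ≠ 0 := fun h' => h (qv_zero le_rfl h').2
    have h2 : ‖Pv 0 (Psi x)‖ = ‖qv 0 (Psi x)‖ := by
      refine (pow_left_inj₀ (norm_nonneg _) (norm_nonneg _) two_ne_zero).mp ?_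
      rw [norm_Pv]; ring
    rw [fe, norm_smul, norm_inv, h2, inv_mul_cancel₀ (norm_ne_zero_iff.mpr h1)]

lemma ff_cr : IsCR Psi ff := by
  have hp : ∀ k : ℕ, (0 : ℝ) < 1 / ((k : ℝ) + 1) := fun k => by positivity
  refine limit_cr (Psi_smooth.of_le le_top) (g := fun k => fe (1 / ((k : ℝ) + 1)))
    (fun k x => fe_an fun h => (hp k).ne' (qv_zero (hp k).le h).1) (fun k x => fe_le (hp k).le x)
    fun x => ?_
  unfold ff
  split_ifs with h
  · refine tendsto_const_nhds.congr fun k => ?_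
    have hk : ((1 / ((k : ℝ) + 1) : ℝ) : ℂ) ≠ 0 := by exact_mod_cast (hp k).ne'
    generalize (1 / ((k : ℝ) + 1) : ℝ) = ε at hk
    rw [h]
    ext i
    fin_cases i <;> simp [fe, qv, Pv, Q, P1, P2, D, c, e0]
    field_simp
    simp
  · have h1 : qv 0 (Psi x) ≠ 0 := fun h' => h (qv_zero le_rfl h').2
    have h2 : ContinuousAt (fun ε : ℝ => fe ε (Psi x)) 0 :=
      ((qv_cont _).continuousAt.inv₀ h1).smul (Pv_cont _).continuousAt
    exact h2.tendsto.comp tendsto_one_div_add_atTop_nhds_zero_nat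

lemma ff_cont : ContinuousOn ff (Set.range Psi) := by
  rintro _ ⟨x, rfl⟩
  by_cases h : Psi x = 0
  · rw [h, ContinuousWithinAt, tendsto_iff_norm_sub_tendsto_zero]
    have hf0 : ff 0 = e0 := by simp [ff]
    rw [hf0]
    set B : C4 → ℝ := fun y => 4 * (‖y 1 + c (y 1) * y 1‖ + ‖y 1 ^ 2‖) with hB
    have hBc : Tendsto (fun y => √(B y)) (𝓝 0) (𝓝 0) := by
      have : Continuous fun y => √(B y) := by rw [hB]; unfold c; fun_prop
      simpa [hB] using this.tendsto 0
    refine squeeze_zero' (Eventually.of_forall fun _ => norm_nonneg _) ?_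
      (hBc.mono_left nhdsWithin_le_nhds)
    filter_upwards [self_mem_nhdsWithin]
    rintro _ ⟨x, rfl⟩
    apply Real.le_sqrt_of_sq_le
    by_cases h : Psi x = 0
    · simp [h, hf0, hB]
    have h1 : qv 0 (Psi x) ≠ 0 := fun h' => h (qv_zero le_rfl h').2
    have h2 : ‖ff (Psi x) - e0‖ ^ 2 = 2 * (ff (Psi x) 0 + 1).re := by
      rw [@norm_sub_sq ℂ, ff_norm]
      simp [e0, EuclideanSpace.inner_single_right]
      ring
    have h3 : ff (Psi x) 0 + 1 = (qv 0 (Psi x) + P1 (Psi x 1) (Psi x 3 + (0 : ℝ) * I)) /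
        qv 0 (Psi x) := by
      simp only [ff, h, if_false, fe, PiLp.smul_apply, Pv, Matrix.cons_val_zero, smul_eq_mul]
      field_simp
      ring
    have h4 := QP_le (a := Psi x 1) (b := Psi x 3 + (0 : ℝ) * I) (by rw [Psi_im1]; positivity)
      (by simp [Psi_im3])
    have h5 : ‖ff (Psi x) 0 + 1‖ ≤ 2 * (‖Psi x 1 + c (Psi x 1) * Psi x 1‖ + ‖Psi x 1 ^ 2‖) := by
      rw [h3, norm_div, div_le_iff₀ (norm_pos_iff.mpr h1)]
      exact h4
    have h6 := re_le_norm (ff (Psi x) 0 + 1)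
    rw [h2, hB]
    dsimp only
    linarith
  · have h1 : qv 0 (Psi x) ≠ 0 := fun h' => h (qv_zero le_rfl h').2
    refine ContinuousAt.continuousWithinAt ((fe_an h1).continuousAt.congr ?_)
    filter_upwards [isOpen_ne.mem_nhds h] with y hy
    simp [ff, hy]

/-- The two-curve argument. -/
lemma no_quot {f : C2 → ℂ} (hfc : ContinuousAt f 0)
    (key : ∀ᶠ w : C2 in 𝓝 0, Q (w 0) (w 1) * f w = P1 (w 0) (w 1)) : False := by
  have t1 : Tendsto (fun t : ℂ => (![0, t] : C2)) (𝓝[≠] 0) (𝓝 0) := by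
    have : Continuous (fun t : ℂ => (![0, t] : C2)) := by fun_prop
    have h := this.tendsto 0
    have e : (![0, 0] : C2) = 0 := by ext i; fin_cases i <;> rfl
    rw [e] at h
    exact h.mono_left nhdsWithin_le_nhds
  have e1 : f 0 = -1 := by
    refine tendsto_nhds_unique (hfc.tendsto.comp t1) (tendsto_const_nhds.congr' ?_)
    filter_upwards [t1 key, self_mem_nhdsWithin] with t h ht0
    have ht0' : t ≠ 0 := ht0
    simp only [Set.mem_preimage, Set.mem_ofPred_eq, Q, P1, D, c, Matrix.cons_val_zero,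
      Matrix.cons_val_one] at h
    have h2 : I * t * (f ![0, t] + 1) = 0 := by linear_combination h
    have h3 : f ![0, t] + 1 = 0 := by simpa [ht0'] using h2
    simp only [Function.comp]
    linear_combination -h3
  have hc0 : ∀ᶠ t : ℂ in 𝓝 0, c t ≠ 0 := by
    have : Continuous c := by unfold c; fun_prop
    exact this.continuousAt.eventually_ne (by simp [c])
  have t2 : Tendsto (fun t : ℂ => (![t, -t - t / c t] : C2)) (𝓝[≠] 0) (𝓝 0) := by
    have : ContinuousAt (fun t : ℂ => (![t, -t - t / c t] : C2)) 0 := by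
      rw [continuousAt_pi]
      intro i
      fin_cases i
      · exact continuousAt_id
      · have hc : ContinuousAt c 0 := by unfold c; fun_prop
        exact continuousAt_id.neg.sub (continuousAt_id.div hc (by simp [c]))
    have h := this.tendsto
    have e : (![0, -0 - 0 / c 0] : C2) = 0 := by ext i; fin_cases i <;> simp
    rw [e] at h
    exact h.mono_left nhdsWithin_le_nhds
  have e2 : f 0 = 1 := by
    refine tendsto_nhds_unique (hfc.tendsto.comp t2) (tendsto_const_nhds.congr' ?_)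
    filter_upwards [t2 key, self_mem_nhdsWithin, nhdsWithin_le_nhds hc0] with t h ht0 hct
    have ht0' : t ≠ 0 := ht0
    have hD : D t (-t - t / c t) = 0 := by unfold D; field_simp; ring
    simp only [Set.mem_preimage, Set.mem_ofPred_eq, Q, P1, Matrix.cons_val_zero,
      Matrix.cons_val_one, hD] at h
    have h2 : t ^ 4 * (f ![t, -t - t / c t] - 1) = 0 := by linear_combination h
    have h3 : f ![t, -t - t / c t] - 1 = 0 := by simpa [ht0'] using h2
    simp only [Function.comp]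
    linear_combination -h3
  rw [e1] at e2
  norm_num at e2

/-- The slice `z = 0`. -/
noncomputable def sl (w : C2) : C4 := ![0, w 0, 0, w 1]

lemma sl_cont : Continuous sl := by unfold sl; fun_prop

lemma sl_zero : sl 0 = 0 := by ext i; fin_cases i <;> rfl

lemma sl_tendsto : Tendsto sl (𝓝 0) (𝓝 0) := by simpa [sl_zero] using sl_cont.tendsto 0

lemma ff_mero : ExtendsMero (Set.range Psi) ff (Psi 0) := by
  refine ⟨Set.univ, Pv 0, qv 0, isOpen_univ, trivial,
    ((Pv_smooth 0).differentiable (by simp)).differentiableOn,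
    ((qv_smooth 0).differentiable (by simp)).differentiableOn, ?_, ?_⟩
  · intro y _ h
    have key : Set.EqOn (qv 0) 0 Set.univ :=
      AnalyticOnNhd.eqOn_zero_of_preconnected_of_eventuallyEq_zero (𝕜 := ℂ)
        (fun w _ => (qv_smooth 0).contDiffAt.analyticAt) isPreconnected_univ (Set.mem_univ y) h
    have := key (x := fun _ => I) trivial
    exact Q_ne (a := I) (b := I + (0 : ℝ) * I) (by simp) (by simp) this
  · rintro _ ⟨⟨x, rfl⟩, -⟩ G hG h
    by_cases h0 : Psi x = 0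
    · exfalso
      rw [h0] at hG h
      refine no_quot (f := fun w => G (sl w) 0) ?_ ?_
      · exact (EuclideanSpace.proj (𝕜 := ℂ) (0 : Fin 5)).continuous.continuousAt.comp
          (ContinuousAt.comp_of_eq hG.continuousAt sl_cont.continuousAt sl_zero)
      · filter_upwards [sl_tendsto h] with w hw
        simpa [qv, Pv, sl] using congrArg (fun v : C5 => v 0) hw
    · have h1 : qv 0 (Psi x) ≠ 0 := fun h' => h0 (qv_zero le_rfl h').2
      simp only [ff, h0, if_false, fe]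
      rw [← h.self_of_nhds, inv_smul_smul₀ h1]

lemma real_ident {h : ℂ → ℂ} {r : ℝ} (hr : 0 < r) (hd : DifferentiableOn ℂ h (Metric.ball 0 r))
    (h0 : ∀ t : ℝ, |t| < r → h t = 0) : ∀ z ∈ Metric.ball (0 : ℂ) r, h z = 0 := by
  refine AnalyticOnNhd.eqOn_zero_of_preconnected_of_frequently_eq_zero
    (hd.analyticOnNhd Metric.isOpen_ball) (convex_ball _ _).isPreconnected
    (Metric.mem_ball_self hr) ?_
  have t1 : Tendsto (fun t : ℝ => (t : ℂ)) (𝓝[≠] 0) (𝓝[≠] 0) := by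
    refine tendsto_nhdsWithin_iff.mpr ⟨?_, ?_⟩
    · simpa using (continuous_ofReal.tendsto 0).mono_left nhdsWithin_le_nhds
    · filter_upwards [self_mem_nhdsWithin] with t ht
      simpa using ht
  refine t1.frequently (Eventually.frequently ?_)
  filter_upwards [nhdsWithin_le_nhds (Metric.ball_mem_nhds (0 : ℝ) hr)] with t ht
  exact h0 t (by simpa using ht)

lemma Psi_zero : Psi 0 = 0 := by ext i; fin_cases i <;> simp [Psi]

lemma ff_not_hol : ¬ ExtendsHol (Set.range Psi) ff (Psi 0) := by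
  rintro ⟨U, G, hU, h0, hG, h⟩
  rw [Psi_zero] at h0
  obtain ⟨r, hr, hrU⟩ := Metric.isOpen_iff.mp hU 0 h0
  have hm : ∀ a b : ℂ, ‖a‖ < r → ‖b‖ < r → sl ![a, b] ∈ U := by
    intro a b ha hb
    apply hrU
    rw [mem_ball_zero_iff, pi_norm_lt_iff hr]
    intro i
    fin_cases i <;> simp [sl, hr, ha, hb]
  have hG0 : DifferentiableOn ℂ (fun y => G y 0) U :=
    (EuclideanSpace.proj (𝕜 := ℂ) (0 : Fin 5)).differentiable.comp_differentiableOn hG
  set H : ℂ → ℂ → ℂ := fun a b => Q a b * G (sl ![a, b]) 0 - P1 a b with hH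
  have hd1 : ∀ b : ℂ, ‖b‖ < r → DifferentiableOn ℂ (fun a => H a b) (Metric.ball 0 r) := by
    intro b hb
    refine DifferentiableOn.sub (DifferentiableOn.mul ?_ (hG0.comp ?_ fun a ha =>
      hm a b (by simpa using ha) hb)) ?_
    · unfold Q D c; fun_prop
    · apply Differentiable.differentiableOn
      rw [differentiable_pi]
      intro i
      fin_cases i <;> simp [sl]
    · unfold P1 D c; fun_prop
  have hd2 : ∀ a : ℂ, ‖a‖ < r → DifferentiableOn ℂ (fun b => H a b) (Metric.ball 0 r) := by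
    intro a ha
    refine DifferentiableOn.sub (DifferentiableOn.mul ?_ (hG0.comp ?_ fun b hb =>
      hm a b ha (by simpa using hb))) ?_
    · unfold Q D c; fun_prop
    · apply Differentiable.differentiableOn
      rw [differentiable_pi]
      intro i
      fin_cases i <;> simp [sl]
    · unfold P1 D c; fun_prop
  have hr0 : ∀ s t : ℝ, |s| < r → |t| < r → H s t = 0 := by
    intro s t hs ht
    have e : sl ![s, t] = Psi ![0, 0, s, 0, 0, t] := by
      ext i; fin_cases i <;> simp [sl, Psi]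
    have h1 := h _ ⟨⟨_, e.symm⟩, hm s t (by simpa using hs) (by simpa using ht)⟩
    simp only [hH, h1]
    by_cases h2 : sl ![s, t] = 0
    · have h3 : (s : ℂ) = 0 := congrFun h2 1
      have h4 : (t : ℂ) = 0 := congrFun h2 3
      simp [h3, h4, Q, P1, D]
    · have h3 : qv 0 (sl ![s, t]) ≠ 0 := fun h' => h2 (by
        rw [e] at h' ⊢; exact (qv_zero le_rfl h').2)
      have h4 : Q s t ≠ 0 := by simpa [qv, sl] using h3
      simp only [ff, h2, if_false, fe, PiLp.smul_apply, smul_eq_mul]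
      simp [qv, Pv, sl, h4]
  have hall : ∀ a b : ℂ, ‖a‖ < r → ‖b‖ < r → H a b = 0 := by
    intro a b ha hb
    refine real_ident hr (hd1 b hb) (fun s hs => ?_) a (by simpa using ha)
    exact real_ident hr (hd2 s (by simpa using hs)) (fun t ht => hr0 s t hs ht) b
      (by simpa using hb)
  refine no_quot (f := fun w => G (sl w) 0) ?_ ?_
  · exact ContinuousAt.comp_of_eq (hG0.continuousOn.continuousAt (hU.mem_nhds h0))
      sl_cont.continuousAt sl_zero
  · filter_upwards [Metric.ball_mem_nhds (0 : C2) hr] with w hw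
    rw [mem_ball_zero_iff, pi_norm_lt_iff hr] at hw
    have := hall (w 0) (w 1) (hw 0) (hw 1)
    simp only [hH] at this
    exact sub_eq_zero.mp this

end Pool.Agent.H97.CR
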