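import Pool.Agent.H97.Wk1

namespace Pool.Agent.H97.Ch
open Polynomial Finset Filter

noncomputable def dg (π : ℕ → ℂ) : ℂ[X] →ₗ[ℂ] ℂ[X] where
  toFun q := ∑ n ∈ q.support, monomial n (π n * q.coeff n)
  map_add' p q := by
    ext n; simp only [finsetSum_coeff, coeff_monomial, sum_ite_eq', mem_support_iff, coeff_add]
    split_ifs <;> simp_all [mul_add, add_eq_zero_iff_eq_neg]
  map_smul' c q := by
    ext n; simp only [finsetSum_coeff, coeff_monomial, sum_ite_eq', mem_support_iff, coeff_smul,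
      RingHom.id_apply, smul_eq_mul]
    split_ifs <;> simp_all; ring

@[simp] lemma dg_coeff (π q n) : (dg π q).coeff n = π n * q.coeff n := by
  simp only [dg, LinearMap.coe_mk, AddHom.coe_mk, finsetSum_coeff, coeff_monomial, sum_ite_eq',
    mem_support_iff]
  split_ifs <;> simp_all

def Lt (q : ℂ[X]) (b : ℕ) : Prop := ∀ n, b ≤ n → q.coeff n = 0

lemma dg_congr {π ρ : ℕ → ℂ} {q b} (hq : Lt q b) (h : ∀ n < b, π n = ρ n) : dg π q = dg ρ q := by
  ext n; by_cases hn : n < b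
  · simp [h n hn]
  · simp [hq n (by omega)]

def Nm (g : ℕ → ℂ[X]) (b : ℕ) (q : ℂ[X]) (C : ℝ) : Prop :=
  ∃ c : ℕ → ℂ, q = ∑ n ∈ range b, c n • g n ∧ ∑ n ∈ range b, ‖c n‖ ≤ C

def L1 (g : ℕ → ℂ[X]) (b C : ℕ) : Prop :=
  ∀ π : ℕ → ℂ, (∀ j, ‖π j‖ ≤ 1) → ∀ q N, Nm g b q N → Nm g b (dg π q) (C * N)

def L2 (g : ℕ → ℂ[X]) (z : ℕ → ℝ) (b A : ℕ) : Prop :=
  ∀ q, Lt q b → ∀ Ms : Finset ℕ, (∀ m ∈ Ms, ∃ t : ℂ,
    Nm g b (t • dg (fun j => (z j : ℂ) ^ m) q - (1 + X)) (3 / 10)) → Ms.card ≤ A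

lemma Nm_congr {g g' : ℕ → ℂ[X]} {b} (h : ∀ n < b, g n = g' n) : Nm g b = Nm g' b := by
  ext q C
  refine exists_congr fun c => ?_
  rw [sum_congr rfl fun n hn => by rw [h n (mem_range.1 hn)]]

noncomputable def zz (ty : ℕ → Bool) (n : ℕ) : ℝ :=
  if ty n then 1 + 1 / (2 * (n + 1)) else 4 + 1 / (n + 1)

lemma zz_E {ty n} (h : ty n = true) : 1 < zz ty n ∧ zz ty n ≤ 3 / 2 := by
  have : (1:ℝ) / (2 * (n + 1)) ≤ 1 / 2 := by gcongr; linarith [Nat.cast_nonneg (α := ℝ) n]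
  have h2 : (0:ℝ) < 1 / (2 * (n + 1)) := by positivity
  simp only [zz, h, if_true]; constructor <;> linarith

lemma zz_F {ty n} (h : ty n = false) : 4 < zz ty n ∧ zz ty n ≤ 5 := by
  have : (1:ℝ) / (n + 1) ≤ 1 := by rw [div_le_one (by positivity)]; simp
  have h2 : (0:ℝ) < 1 / (n + 1) := by positivity
  simp only [zz, h, Bool.false_eq_true, if_false]; constructor <;> linarith

lemma zz_bd (ty n) : 1 < zz ty n ∧ zz ty n ≤ 5 := by
  cases h : ty n
  · have := zz_F h; constructor <;> linarith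
  · have := zz_E h; constructor <;> linarith

lemma zz_inj (ty) : Function.Injective (zz ty) := fun n m h => by
  cases h1 : ty n <;> cases h2 : ty m
  · simpa [zz, h1, h2] using h
  · linarith [zz_F h1, zz_E h2]
  · linarith [zz_E h1, zz_F h2]
  · simpa [zz, h1, h2] using h

noncomputable def pi (z : ℕ → ℝ) (n b : ℕ) (j : ℕ) : ℂ := ∏ k ∈ Ico n b, (((z j - z k) / 8 : ℝ) : ℂ)

noncomputable def ph (g : ℕ → ℂ[X]) (b b' l : ℕ) (c : ℕ → ℂ) : ℂ[X] :=
  ∑ j ∈ Ico b b', X ^ j - ((l + 1 : ℕ) : ℂ) • ∑ n ∈ range b, c n • g n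

lemma sum_Lt {g : ℕ → ℂ[X]} (hg : ∀ n, (g n).degree = n) (b) (c : ℕ → ℂ) :
    Lt (∑ n ∈ range b, c n • g n) b := fun m hm => by
  rw [finsetSum_coeff]
  refine sum_eq_zero fun n hn => ?_
  rw [coeff_smul, coeff_eq_zero_of_degree_lt (by
    rw [hg]; exact_mod_cast (mem_range.1 hn).trans_le hm), smul_zero]

lemma ph_coeff {g : ℕ → ℂ[X]} (hg : ∀ n, (g n).degree = n) {b b' l c j} (hj : b ≤ j) :
    (ph g b b' l c).coeff j = if j < b' then 1 else 0 := by
  simp [ph, sum_Lt hg b c j hj, finsetSum_coeff, coeff_X_pow, hj]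

lemma new_degree {g : ℕ → ℂ[X]} (hg : ∀ n, (g n).degree = n) (ty) {b b' l c n} (h1 : b ≤ n)
    (h2 : n < b') : (dg (pi (zz ty) (n + 1) b') (ph g b b' l c)).degree = n := by
  refine degree_eq_of_le_of_coeff_ne_zero ((degree_le_iff_coeff_zero _ _).2 fun m hm => ?_) ?_
  · have : n < m := by exact_mod_cast hm
    rw [dg_coeff, ph_coeff hg (by omega)]
    split_ifs with h
    · rw [pi, prod_eq_zero (i := m) (mem_Ico.2 ⟨this, h⟩) (by simp), zero_mul]
    · simp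
  · rw [dg_coeff, ph_coeff hg h1, if_pos h2, mul_one, pi]
    refine prod_ne_zero_iff.2 fun k hk => ?_
    have : zz ty n ≠ zz ty k := fun h => by have := zz_inj ty h; have := mem_Ico.1 hk; omega
    exact_mod_cast div_ne_zero (sub_ne_zero.2 this) (by norm_num)

structure St where
  b : ℕ
  κ : ℕ
  g : ℕ → ℂ[X]
  ty : ℕ → Bool
  hd : ∀ n, (g n).degree = n

def Good (l : ℕ) (c : ℕ → ℂ) (g : ℕ → ℂ[X]) (ty : ℕ → Bool) (b κ : ℕ) : Prop :=
  206 * sInf {A | L2 g (zz ty) b A} * 2 ^ l ≤ κ ∧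
  720 * ((l + 1) * (sInf {C | L1 g b C} : ℕ) * ∑ n ∈ range b, ‖c n‖ + 1) *
    ((sInf {C | L1 g b C} : ℕ) + 1) * (l + 1) ≤ (2:ℝ) ^ κ

structure Rel (l : ℕ) (c : ℕ → ℂ) (S T : St) : Prop where
  rk : S.κ < T.κ
  rb : T.b = S.b + 6 * T.κ
  rt : ∀ n, T.ty n = if n < S.b then S.ty n else decide (Even l)
  rg : ∀ n, T.g n = if n < S.b then S.g n else if n < T.b then
    dg (pi (zz T.ty) (n + 1) T.b) (ph S.g S.b T.b l c) else X ^ n
  rG : Good l c S.g S.ty S.b T.κ

lemma step (l : ℕ) (c : ℕ → ℂ) (S : St) : ∃ T, Rel l c S T := by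
  obtain ⟨κ, h1, h2, h3⟩ := ((eventually_gt_atTop S.κ).and ((eventually_ge_atTop
    (206 * sInf {A | L2 S.g (zz S.ty) S.b A} * 2 ^ l)).and ((tendsto_pow_atTop_atTop_of_one_lt
    (one_lt_two (α := ℝ))).eventually_ge_atTop (720 * ((l + 1) * (sInf {C | L1 S.g S.b C} : ℕ) *
    ∑ n ∈ range S.b, ‖c n‖ + 1) * ((sInf {C | L1 S.g S.b C} : ℕ) + 1) * (l + 1))))).exists
  refine ⟨⟨S.b + 6 * κ, κ, fun n => if n < S.b then S.g n else if n < S.b + 6 * κ then
    dg (pi (zz fun n => if n < S.b then S.ty n else decide (Even l)) (n + 1) (S.b + 6 * κ))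
    (ph S.g S.b (S.b + 6 * κ) l c) else X ^ n, fun n => if n < S.b then S.ty n else decide (Even l),
    fun n => ?_⟩, h1, rfl, fun _ => rfl, fun _ => rfl, h2, h3⟩
  split_ifs
  · exact S.hd n
  · exact new_degree S.hd _ (by omega) (by omega)
  · simp

structure Spec (c : ℕ → ℕ → ℂ) where
  b : ℕ → ℕ
  κ : ℕ → ℕ
  g : ℕ → ℂ[X]
  ty : ℕ → Bool
  b0 : b 0 = 2
  hb : ∀ l, b (l + 1) = b l + 6 * κ l
  k0 : 0 < κ 0
  hk : StrictMono κ
  g0 : g 0 = 1
  g1 : g 1 = X
  t0 : ty 0 = true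
  t1 : ty 1 = false
  hd : ∀ n, (g n).degree = n
  hg : ∀ l n, b l ≤ n → n < b (l + 1) → ty n = decide (Even l) ∧
    g n = dg (pi (zz ty) (n + 1) (b (l + 1))) (ph g (b l) (b (l + 1)) l (c l))
  hG : ∀ l, Good l (c l) g ty (b l) (κ l)

theorem exists_spec (c : ℕ → ℕ → ℂ) : Nonempty (Spec c) := by
  choose F hF using step
  let S0 : St := ⟨2, 0, fun n => X ^ n, fun n => decide (n = 0), fun n => by simp⟩
  let S : ℕ → St := fun k => Nat.rec S0 (fun k T => F k (c k) T) k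
  have hS : ∀ k, Rel k (c k) (S k) (S (k + 1)) := fun k => hF k (c k) (S k)
  have bm : StrictMono fun k => (S k).b := strictMono_nat_of_lt_succ fun k => by
    have := (hS k).rb; have := (hS k).rk; omega
  have key : ∀ {α : Type} (G : St → ℕ → α), (∀ k n, n < (S k).b → G (S (k + 1)) n = G (S k) n) →
      ∀ k n, n < (S k).b → G (S (n + 1)) n = G (S k) n := fun G h k n hn => by
    have := Wk.stab (fun k => G (S (k + 1))) (fun k => (S k).b) bm.monotone
      (fun n => bm.le_apply (x := n + 1)) (fun k n hn => h _ _ hn) k n (hn.trans (bm (lt_add_one k)))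
    rw [this, h k n hn]
  have sg := key (fun S => S.g) fun k n hn => by simp only [(hS k).rg, if_pos hn]
  have st := key (fun S => S.ty) fun k n hn => by simp only [(hS k).rt, if_pos hn]
  have sz : ∀ k n, n < (S k).b → zz (fun n => (S (n + 1)).ty n) n = zz (S k).ty n := fun k n hn => by
    simp only [zz, st k n hn]
  refine ⟨⟨fun k => (S k).b, fun k => (S (k + 1)).κ, fun n => (S (n + 1)).g n,
    fun n => (S (n + 1)).ty n, rfl, fun k => (hS k).rb, (hS 0).rk,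
    strictMono_nat_of_lt_succ fun k => (hS (k + 1)).rk, ?_, ?_, st 0 0 two_pos, st 0 1 one_lt_two,
    fun n => (S (n + 1)).hd n, fun l n h1 h2 => ?_, fun l => ?_⟩⟩
  · exact (sg 0 0 two_pos).trans (pow_zero _)
  · exact (sg 0 1 one_lt_two).trans (pow_one _)
  · have e : ph (fun n => (S (n + 1)).g n) (S l).b (S (l + 1)).b l (c l) =
        ph (S l).g (S l).b (S (l + 1)).b l (c l) := by
      unfold ph; congr 2
      exact sum_congr rfl fun n hn => by simp only [sg l n (mem_range.1 hn)]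
    rw [st (l + 1) n h2, sg (l + 1) n h2, (hS l).rt, (hS l).rg, if_neg (by omega), if_neg (by omega),
      if_pos h2, e]
    refine ⟨rfl, dg_congr (b := (S (l + 1)).b) (fun j hj => ?_) fun j hj => ?_⟩
    · rw [ph_coeff (S l).hd (by omega), if_neg (by omega)]
    · exact prod_congr rfl fun k hk => by rw [sz (l + 1) j hj, sz (l + 1) k (mem_Ico.1 hk).2]
  · have e := Nm_congr (sg l)
    have e1 : L1 (fun n => (S (n + 1)).g n) (S l).b = L1 (S l).g (S l).b := by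
      ext C; unfold L1; rw [e]
    have e2 : L2 (fun n => (S (n + 1)).g n) (zz fun n => (S (n + 1)).ty n) (S l).b =
        L2 (S l).g (zz (S l).ty) (S l).b := by
      ext A; unfold L2; rw [e]
      refine forall_congr' fun q => imp_congr_right fun hq => ?_
      simp only [fun m : ℕ => dg_congr (π := fun j => (zz (fun n => (S (n + 1)).ty n) j : ℂ) ^ m)
        (ρ := fun j => (zz (S l).ty j : ℂ) ^ m) hq fun n hn => by rw [sz l n hn]]
    have := (hS l).rG
    unfold Good at this ⊢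
    rw [e1, e2]; exact this

end Pool.Agent.H97.Ch
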