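import Pool.Agent.H97.Ch1

namespace Pool.Agent.H97.Ch
open Polynomial Finset Filter

abbrev E : Type := lp (fun _ : ℕ => ℂ) 1

noncomputable def e (n : ℕ) : E := lp.single 1 n 1

lemma e_apply (n m) : e n m = if m = n then 1 else 0 := by
  rw [e, lp.single_apply, Pi.single_apply]

lemma smul_e (c : ℂ) (n) : c • e n = lp.single 1 n c := by
  ext m; simp [e_apply, lp.single_apply, Pi.single_apply]

lemma sum_le (x : E) (s : Finset ℕ) : ∑ n ∈ s, ‖x n‖ ≤ ‖x‖ := by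
  simpa using lp.sum_rpow_le_norm_rpow (p := 1) (by simp) x s

lemma norm_sum_e (c : ℕ → ℂ) (s : Finset ℕ) : ‖∑ n ∈ s, c n • e n‖ = ∑ n ∈ s, ‖c n‖ := by
  simpa [smul_e] using lp.norm_sum_single (p := 1) (E := fun _ : ℕ => ℂ) (by simp) c s

lemma norm_e (n) : ‖e n‖ = 1 := by simpa using norm_sum_e 1 {n}

lemma hasSum_e (x : E) : HasSum (fun n => x n • e n) x := by
  simpa [smul_e] using lp.hasSum_single (p := 1) (by simp) x

lemma op_le {Y : Type*} [NormedAddCommGroup Y] [NormedSpace ℂ Y] (A : E →L[ℂ] Y) {K : ℝ}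
    (h : ∀ n, ‖A (e n)‖ ≤ K) (x : E) : ‖A x‖ ≤ K * ‖x‖ := by
  have h1 : HasSum (fun n => ‖x n‖) ‖x‖ := by simpa using lp.hasSum_norm (p := 1) (by simp) x
  refine (A.hasSum (hasSum_e x)).norm_le_of_bounded (h1.mul_left K) fun n => ?_
  rw [map_smul, norm_smul, mul_comm]
  exact mul_le_mul_of_nonneg_right (h n) (norm_nonneg _)

noncomputable def ev (n : ℕ) : E →L[ℂ] ℂ := lp.evalCLM ℂ (fun _ : ℕ => ℂ) 1 n

@[simp] lemma ev_apply (n) (x : E) : ev n x = x n := rfl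

lemma ap_le (x : E) (n) : ‖x n‖ ≤ ‖x‖ := by simpa using sum_le x {n}

lemma sum_e_apply (s : Finset ℕ) (a : ℕ → ℂ) (m) :
    (∑ n ∈ s, a n • e n : E) m = if m ∈ s then a m else 0 := by
  rw [← ev_apply, map_sum]; simp [e_apply]

noncomputable def P (b : ℕ) : E →L[ℂ] E := ∑ n ∈ range b, (ev n).smulRight (e n)

lemma P_eq (b x) : P b x = ∑ n ∈ range b, x n • e n := by simp [P]

lemma P_apply (b x m) : P b x m = if m < b then x m else 0 := by
  simp only [P_eq, sum_e_apply, mem_range]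

lemma P_le (b x) : ‖P b x‖ ≤ ‖x‖ := by rw [P_eq, norm_sum_e]; exact sum_le _ _

lemma P_e (b n) : P b (e n) = if n < b then e n else 0 := by
  ext m; rw [P_apply]; split_ifs <;> simp [e_apply] <;> omega

lemma dg_dg (π ρ q) : dg π (dg ρ q) = dg (fun j => π j * ρ j) q := by ext n; simp [mul_assoc]

lemma Lt.dg {q b} (h : Lt q b) (π) : Lt (dg π q) b := fun n hn => by simp [h n hn]

namespace Spec
variable {c : ℕ → ℕ → ℂ} (S : Spec c)

lemma unit (i) : IsUnit ((⟨S.g, S.hd⟩ : Polynomial.Sequence ℂ) i).leadingCoeff :=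
  (leadingCoeff_ne_zero.2 ((⟨S.g, S.hd⟩ : Polynomial.Sequence ℂ).ne_zero i)).isUnit

noncomputable def bs : Module.Basis ℕ ℂ ℂ[X] := Polynomial.Sequence.basis ⟨S.g, S.hd⟩ S.unit

lemma bs_eq (n) : S.bs n = S.g n := Polynomial.Sequence.basis_eq_self _ _ _

noncomputable def I : ℂ[X] →ₗ[ℂ] E := S.bs.constr ℂ e

lemma I_g (n) : S.I (S.g n) = e n := by rw [← bs_eq, I, Module.Basis.constr_basis]

lemma I_sum (s : Finset ℕ) (a : ℕ → ℂ) : S.I (∑ n ∈ s, a n • S.g n) = ∑ n ∈ s, a n • e n := by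
  simp [I_g]

lemma lt_eq {q b} (h : Lt q b) : q = ∑ n ∈ range b, S.I q n • S.g n := by
  have h1 : q ∈ Submodule.span ℂ (S.g '' Set.Iio b) := by
    have := (⟨S.g, S.hd⟩ : Polynomial.Sequence ℂ).span_degreeLT (m := b) fun i _ => S.unit i
    rw [this, mem_degreeLT, degree_lt_iff_coeff_zero]; exact h
  rw [← coe_range, Submodule.mem_span_image_finset_iff_exists_fun'] at h1
  obtain ⟨a, ha⟩ := h1
  refine ha.symm.trans (sum_congr rfl fun n hn => ?_)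
  rw [← ha, I_sum, sum_e_apply, if_pos hn]

lemma P_I {q b} (h : Lt q b) : P b (S.I q) = S.I q := by
  conv_rhs => rw [S.lt_eq h, I_sum, ← P_eq]

lemma Nm_iff {b q C} : Nm S.g b q C ↔ Lt q b ∧ ‖S.I q‖ ≤ C :=
  ⟨by rintro ⟨a, rfl, h⟩; exact ⟨sum_Lt S.hd _ _, by rwa [I_sum, norm_sum_e]⟩,
    fun ⟨h1, h2⟩ => ⟨_, S.lt_eq h1, (sum_le _ _).trans h2⟩⟩

lemma dense_I : DenseRange S.I := fun x =>
  mem_closure_of_tendsto (hasSum_e x).tendsto_sum_nat (Eventually.of_forall fun _ => ⟨_, S.I_sum _ _⟩)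

lemma g_Lt {n b} (h : n < b) : Lt (S.g n) b := fun m hm =>
  coeff_eq_zero_of_degree_lt (by rw [S.hd]; exact_mod_cast h.trans_le hm)

lemma coef_bd (b) : ∃ C : ℝ, 0 < C ∧ ∀ q, Lt q b → ∀ j, ‖q.coeff j‖ ≤ C * ‖S.I q‖ := by
  refine ⟨1 + ∑ n ∈ range b, ∑ j ∈ range b, ‖(S.g n).coeff j‖, by positivity, fun q hq j => ?_⟩
  by_cases hj : b ≤ j
  · rw [hq j hj, norm_zero]; positivity
  conv_lhs => rw [S.lt_eq hq, finsetSum_coeff]
  rw [add_mul, sum_mul]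
  refine (norm_sum_le _ _).trans ((sum_le_sum fun n _ => ?_).trans (le_add_of_nonneg_left (by positivity)))
  rw [coeff_smul, norm_smul, mul_comm]
  exact mul_le_mul (single_le_sum (f := fun j => ‖(S.g n).coeff j‖) (fun _ _ => norm_nonneg _)
    (mem_range.2 (by omega))) (ap_le _ _) (norm_nonneg _) (by positivity)

lemma I_bd (b) : ∃ C : ℝ, 0 < C ∧ ∀ q, Lt q b → ∀ M, 0 ≤ M → (∀ j, ‖q.coeff j‖ ≤ M) →
    ‖S.I q‖ ≤ C * M := by
  refine ⟨1 + ∑ j ∈ range b, ‖S.I (X ^ j)‖, by positivity, fun q hq M h0 hM => ?_⟩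
  have : q = ∑ j ∈ range b, q.coeff j • X ^ j := by
    ext n; simp only [finsetSum_coeff, coeff_smul, coeff_X_pow, smul_eq_mul, mul_ite, mul_one,
      mul_zero, sum_ite_eq, mem_range]
    split_ifs with h
    exacts [rfl, hq n (by omega)]
  rw [this, map_sum, add_mul, sum_mul]
  refine (norm_sum_le _ _).trans ((sum_le_sum fun n _ => ?_).trans (le_add_of_nonneg_left (by positivity)))
  rw [map_smul, norm_smul, mul_comm]; gcongr; exact hM n

noncomputable def C (l : ℕ) : ℕ := sInf {C | L1 S.g (S.b l) C}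

lemma L1_iff {b C} : L1 S.g b C ↔ ∀ π : ℕ → ℂ, (∀ j, ‖π j‖ ≤ 1) → ∀ q, Lt q b →
    ‖S.I (dg π q)‖ ≤ C * ‖S.I q‖ := by
  simp only [L1, Nm_iff]
  exact ⟨fun h π h1 q hq => (h π h1 q _ ⟨hq, le_rfl⟩).2, fun h π h1 q N hq =>
    ⟨hq.1.dg _, (h π h1 q hq.1).trans (by gcongr; exact hq.2)⟩⟩

lemma C_mem (l) : L1 S.g (S.b l) (S.C l) := by
  obtain ⟨C1, h0, h1⟩ := S.coef_bd (S.b l)
  obtain ⟨C2, h2, h3⟩ := S.I_bd (S.b l)
  refine Nat.sInf_mem (s := {C | L1 S.g (S.b l) C}) ⟨⌈C2 * C1⌉₊, S.L1_iff.2 fun π hπ q hq => ?_⟩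
  refine (h3 _ (hq.dg π) (C1 * ‖S.I q‖) (by positivity) fun j => ?_).trans ?_
  · rw [dg_coeff, norm_mul]
    exact (mul_le_of_le_one_left (norm_nonneg _) (hπ j)).trans (h1 q hq j)
  · rw [← mul_assoc]; gcongr; exact Nat.le_ceil _

lemma bm : StrictMono S.b := strictMono_nat_of_lt_succ fun l => by
  have := S.hb l; have := S.hk.monotone (Nat.zero_le l); have := S.k0; omega

lemma b2 (l) : 2 ≤ S.b l := S.b0 ▸ S.bm.monotone (Nat.zero_le l)

lemma C_mono : Monotone S.C := fun l l' h => Nat.sInf_le (S.L1_iff.2 fun π h1 q hq =>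
  S.L1_iff.1 (S.C_mem l') π h1 q fun n hn => hq n ((S.bm.monotone h).trans hn))

noncomputable def Γ (l : ℕ) : ℝ := (l + 1) * S.C l * ∑ n ∈ range (S.b l), ‖c l n‖ + 1

lemma Γ1 (l) : 1 ≤ S.Γ l := le_add_of_nonneg_left (by positivity)

lemma hΓ (l) : 720 * S.Γ l * (S.C l + 1) * (l + 1) ≤ (2:ℝ) ^ S.κ l := (S.hG l).2

noncomputable def w (l : ℕ) : ℂ[X] := ((l + 1 : ℕ) : ℂ) • ∑ n ∈ range (S.b l), c l n • S.g n

lemma w_Lt (l) : Lt (S.w l) (S.b l) := fun n hn => by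
  rw [w, coeff_smul, sum_Lt S.hd _ _ n hn, smul_zero]

lemma w_le (l) {π : ℕ → ℂ} {M : ℝ} (hM : 0 < M) (h : ∀ j, ‖π j‖ ≤ M) :
    ‖S.I (dg π (S.w l))‖ ≤ S.Γ l * M := by
  have := S.L1_iff.1 (S.C_mem l) (fun j => π j / M) (fun j => by
    rw [norm_div, Complex.norm_real, Real.norm_of_nonneg hM.le, div_le_one hM]; exact h j) _ (S.w_Lt l)
  have e1 : dg π (S.w l) = (M : ℂ) • dg (fun j => π j / M) (S.w l) := by
    ext n; have : (M:ℂ) ≠ 0 := by exact_mod_cast hM.ne'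
    simp only [dg_coeff, coeff_smul, smul_eq_mul]; field_simp
  rw [e1, map_smul, norm_smul, Complex.norm_real, Real.norm_of_nonneg hM.le, mul_comm]
  gcongr
  refine this.trans ?_
  rw [w, map_smul, norm_smul, I_sum, norm_sum_e, Complex.norm_natCast, Γ]
  push_cast; linarith

lemma pi_le (n b j) : ‖pi (zz S.ty) n b j‖ ≤ (1 / 2) ^ (b - n) := by
  rw [pi, norm_prod, ← Nat.card_Ico, ← prod_const]
  refine prod_le_prod (fun _ _ => norm_nonneg _) fun k _ => ?_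
  have := zz_bd S.ty j
  have := zz_bd S.ty k
  rw [Complex.norm_real, Real.norm_eq_abs, abs_le]; constructor <;> linarith

noncomputable def D (m : ℕ) : ℂ[X] →ₗ[ℂ] ℂ[X] := dg fun j => (zz S.ty j : ℂ) ^ m

noncomputable def δ (l : ℕ) : ℝ := 1 / (90 * (S.C l + 1) * (l + 1) * 26 ^ S.κ l)

lemma δ_anti : Antitone S.δ := fun l l' h => by
  have := S.C_mono h
  have := S.hk.monotone h
  unfold δ; gcongr; norm_num

lemma δ_le (l) : S.δ l ≤ 1 := by
  have : (1:ℝ) ≤ 26 ^ S.κ l := one_le_pow₀ (by norm_num)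
  rw [δ, div_le_one (by positivity)]
  calc (1:ℝ) ≤ 90 * (0 + 1) * (0 + 1) * 1 := by norm_num
    _ ≤ _ := by gcongr <;> positivity

lemma ph_low (l) (π : ℕ → ℂ) : dg (fun j => if j < S.b l then 1 else 0)
    (dg π (ph S.g (S.b l) (S.b (l + 1)) l (c l))) = -dg π (S.w l) := by
  ext n; by_cases h : n < S.b l
  · simp [h, ph, w, finsetSum_coeff, coeff_X_pow, not_le.2 h]
  · simp [h, S.w_Lt l n (by omega)]

lemma col (k) : ∃ u, S.I (S.D 1 (S.g k)) = (zz S.ty k : ℂ) • e k + u ∧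
    ((k < 2 ∧ u = 0) ∨ ∃ l, S.b l ≤ k ∧ k < S.b (l + 1) ∧ ((S.b l < k ∧ u = (8:ℂ) • e (k - 1)) ∨
      (k = S.b l ∧ P k u = u ∧ ‖u‖ ≤ S.δ l))) := by
  classical
  by_cases hk : k < 2
  · refine ⟨0, ?_, Or.inl ⟨hk, rfl⟩⟩
    rw [add_zero, ← I_g, ← map_smul]; congr 1; ext n
    interval_cases k
    · simp only [D, S.g0, dg_coeff, coeff_smul, coeff_one]; split_ifs with h <;> simp [h]
    · simp only [D, S.g1, dg_coeff, coeff_smul, coeff_X]; split_ifs with h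
      · simp [← h]
      · simp
  have ex : ∃ l, k < S.b (l + 1) := ⟨k, S.bm.le_apply (x := k + 1)⟩
  obtain ⟨l, h1, h2⟩ : ∃ l, S.b l ≤ k ∧ k < S.b (l + 1) := by
    refine ⟨Nat.find ex, ?_, Nat.find_spec ex⟩
    rcases h : Nat.find ex with _ | j
    · rw [S.b0]; omega
    · exact not_lt.1 (Nat.find_min ex (by omega))
  refine ⟨(8:ℂ) • S.I (dg (pi (zz S.ty) k (S.b (l + 1))) (ph S.g (S.b l) (S.b (l + 1)) l (c l))), ?_,
    Or.inr ⟨l, h1, h2, ?_⟩⟩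
  · rw [← I_g, ← map_smul, ← map_smul, ← map_add, (S.hg l k h1 h2).2]; congr 1; ext n
    simp only [D, dg_coeff, coeff_add, coeff_smul, smul_eq_mul, pi]
    rw [prod_eq_prod_Ico_succ_bot h2]; push_cast; ring
  rcases h1.eq_or_lt with rfl | h3
  · have e1 : dg (pi (zz S.ty) (S.b l) (S.b (l + 1))) (ph S.g (S.b l) (S.b (l + 1)) l (c l)) =
        -dg (pi (zz S.ty) (S.b l) (S.b (l + 1))) (S.w l) := by
      rw [← ph_low]; ext n
      by_cases h : n < S.b l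
      · simp [h]
      · simp only [dg_coeff, h, if_false, zero_mul, ph_coeff S.hd (not_lt.1 h)]
        split_ifs with h'
        · rw [pi, prod_eq_zero (i := n) (mem_Ico.2 ⟨by omega, h'⟩) (by simp), zero_mul]
        · simp
    refine Or.inr ⟨rfl, ?_, ?_⟩
    · rw [e1, map_smul, map_neg, map_neg, S.P_I ((S.w_Lt l).dg _)]
    · rw [e1, map_neg, norm_smul, norm_neg]
      have t1 := S.w_le l (by positivity) (S.pi_le (S.b l) (S.b (l + 1)))
      rw [S.hb, Nat.add_sub_cancel_left, ← S.hb] at t1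
      have t2 := S.hΓ l
      have t3 := S.Γ1 l
      have t4 : (26:ℝ) ^ S.κ l * 2 ^ S.κ l * (1 / 2) ^ (6 * S.κ l) ≤ 1 := by
        rw [pow_mul, ← mul_pow, ← mul_pow]; exact pow_le_one₀ (by norm_num) (by norm_num)
      rw [δ, le_div_iff₀ (by positivity)]
      calc _ ≤ 8 * (S.Γ l * (1 / 2) ^ (6 * S.κ l)) * (90 * (S.C l + 1) * (l + 1) * 26 ^ S.κ l) := by
            gcongr; simp
        _ = 26 ^ S.κ l * (720 * S.Γ l * (S.C l + 1) * (l + 1)) * (1 / 2) ^ (6 * S.κ l) := by ring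
        _ ≤ _ := le_trans (by gcongr) t4
  · refine Or.inl ⟨h3, ?_⟩
    rw [← I_g, (S.hg l (k - 1) (by omega) (by omega)).2, Nat.sub_add_cancel (by omega)]

end Spec
end Pool.Agent.H97.Ch
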