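import Pool.Agent.H97.Ch2

namespace Pool.Agent.H97.Ch
open Polynomial Finset Filter

namespace Spec
variable {c : ℕ → ℕ → ℂ} (S : Spec c)

lemma col_le (k) : ‖S.I (S.D 1 (S.g k))‖ ≤ 13 := by
  obtain ⟨u, h1, h2⟩ := S.col k
  have := zz_bd S.ty k
  have hu : ‖u‖ ≤ 8 := by
    rcases h2 with ⟨-, rfl⟩ | ⟨l, -, -, ⟨-, rfl⟩ | ⟨-, -, h⟩⟩
    · simp
    · simp [norm_smul, norm_e]
    · linarith [S.δ_le l]
  rw [h1]; refine (norm_add_le _ _).trans ?_
  rw [norm_smul, norm_e, Complex.norm_real, Real.norm_of_nonneg (by linarith)]; linarith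

noncomputable def T : E →L[ℂ] E := (S.I ∘ₗ S.D 1).extendOfNorm S.I

lemma T_I (q) : S.T (S.I q) = S.I (S.D 1 q) := LinearMap.extendOfNorm_eq S.dense_I ⟨13, fun q => by
  have h : Lt q (q.natDegree + 1) := fun n hn => coeff_eq_zero_of_natDegree_lt hn
  conv_lhs => rw [S.lt_eq h, map_sum]
  refine (norm_sum_le _ _).trans (le_trans ?_ (mul_le_mul_of_nonneg_left
    (sum_le _ (range (q.natDegree + 1))) (by norm_num)))
  rw [mul_sum]
  refine sum_le_sum fun n _ => ?_
  rw [map_smul, norm_smul, mul_comm]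
  exact mul_le_mul_of_nonneg_right (S.col_le n) (norm_nonneg _)⟩ q

lemma T_e (k) : S.T (e k) = S.I (S.D 1 (S.g k)) := by rw [← S.I_g, T_I]

lemma Tn_I (m q) : (S.T ^ m) (S.I q) = S.I (S.D m q) := by
  induction m with
  | zero => simp only [pow_zero, one_apply_eq_self]; congr 1; ext n; simp [D]
  | succ m ih => rw [pow_succ', mul_apply_eq_comp, ih, T_I]; congr 1; ext n; simp [D, pow_succ', mul_assoc]

lemma T_le (x) : ‖S.T x‖ ≤ 13 * ‖x‖ := op_le _ (fun k => S.T_e k ▸ S.col_le k) x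

lemma Tn_le (n x) : ‖(S.T ^ n) x‖ ≤ 13 ^ n * ‖x‖ := by
  induction n with
  | zero => simp
  | succ n ih => rw [pow_succ', mul_apply_eq_comp]; refine (S.T_le _).trans ?_; rw [pow_succ', mul_assoc]; gcongr

noncomputable def v0 : E := e 0 + e 1

lemma I_v0 : S.I (1 + X) = v0 := by rw [map_add, ← S.g0, ← S.g1, I_g, I_g, v0]

lemma v0_le : ‖v0‖ ≤ 2 := (norm_add_le _ _).trans (by simp [norm_e]; norm_num)

lemma P_v0 (l) : P (S.b l) v0 = v0 := by
  have := S.b2 l
  rw [v0, map_add, P_e, P_e, if_pos (by omega), if_pos (by omega)]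

lemma noneig (t : ℂ) (j) : 1 / 2 ≤ ‖t • S.I (X ^ j) - v0‖ := by
  by_contra h
  push Not at h
  set y := t • S.I (X ^ j)
  have hy : S.T y = (zz S.ty j : ℂ) • y := by
    rw [map_smul, T_I, smul_comm, ← map_smul S.I (zz S.ty j : ℂ)]; congr 2; ext n
    simp only [D, dg_coeff, coeff_smul, coeff_X_pow]; split_ifs with h <;> simp [h]
  have key : ∀ i < 2, |zz S.ty j - zz S.ty i| < 1 := fun i hi => by
    set f : E →L[ℂ] ℂ := (ev i).comp S.T - (zz S.ty i : ℂ) • ev i
    have f1 : ∀ k, ‖f (e k)‖ ≤ 1 ∧ (k < 2 → f (e k) = 0) := fun k => by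
      obtain ⟨u, h1, h2⟩ := S.col k
      have : f (e k) = u i := by
        simp only [f, sub_apply, ContinuousLinearMap.comp_apply, T_e, h1, map_add,
          map_smul, ev_apply, e_apply, smul_apply]
        split_ifs with h <;> simp [h]
      rw [this]
      rcases h2 with ⟨-, rfl⟩ | ⟨l, h3, -, ⟨h4, rfl⟩ | ⟨-, -, h⟩⟩
      · simp
      · have := S.b2 l
        simp [e_apply, show i ≠ k - 1 by omega]
      · have := S.b2 l
        exact ⟨(ap_le _ _).trans (h.trans (S.δ_le l)), by omega⟩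
    have f2 := op_le f (fun k => (f1 k).1) (y - v0)
    have f3 : f (y - v0) = ((zz S.ty j - zz S.ty i : ℝ) : ℂ) * y i := by
      rw [map_sub, v0, map_add, (f1 0).2 two_pos, (f1 1).2 one_lt_two]
      simp [f, hy, sub_mul]
    have f4 := (ap_le (y - v0) i).trans_lt h
    have f5 : (y - v0) i = y i - 1 := by
      interval_cases i <;> simp [v0, e_apply]
    rw [f3, norm_mul, Complex.norm_real, Real.norm_eq_abs] at f2
    rw [f5] at f4
    have := norm_sub_norm_le (1:ℂ) (y i)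
    rw [norm_sub_rev, norm_one] at this
    nlinarith [abs_nonneg (zz S.ty j - zz S.ty i)]
  have k0 := key 0 two_pos
  have k1 := key 1 one_lt_two
  rw [abs_lt] at k0 k1
  linarith [(zz_E S.t0).2, (zz_F S.t1).1]

noncomputable def A (l : ℕ) : ℕ := sInf {A | L2 S.g (zz S.ty) (S.b l) A}

lemma L2_iff {l A} : L2 S.g (zz S.ty) (S.b l) A ↔ ∀ q, Lt q (S.b l) → ∀ Ms : Finset ℕ,
    (∀ m ∈ Ms, ∃ t : ℂ, ‖t • S.I (S.D m q) - v0‖ ≤ 3 / 10) → Ms.card ≤ A := by
  refine forall₂_congr fun q hq => forall_congr' fun Ms => imp_congr_left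
    (forall₂_congr fun m _ => exists_congr fun t => ?_)
  rw [Nm_iff, map_sub, map_smul, I_v0]
  refine and_iff_right fun n hn => ?_
  have := S.b2 l
  simp [hq n hn, coeff_one, coeff_X, show n ≠ 0 by omega, show 1 ≠ n by omega]

lemma A_mem (l) : L2 S.g (zz S.ty) (S.b l) (S.A l) := by
  classical
  set b := S.b l
  obtain ⟨C1, h0, h1⟩ := S.coef_bd b
  obtain ⟨C2, h2, h3⟩ := S.I_bd b
  set η := 1 / (30 * C1 * C2) with hη
  have η0 : 0 < η := by positivity
  have zp : ∀ j, 0 < zz S.ty j := fun j => by linarith [(zz_bd S.ty j).1]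
  obtain ⟨H, hH⟩ : ∃ H : ℕ, ∀ n ≥ H, ∀ p ∈ range b ×ˢ range b, zz S.ty p.2 < zz S.ty p.1 →
      (zz S.ty p.2 / zz S.ty p.1) ^ n < η := by
    rw [← eventually_atTop, eventually_all_finset]
    intro p _
    by_cases h : zz S.ty p.2 < zz S.ty p.1
    · exact ((tendsto_pow_atTop_nhds_zero_of_lt_one (div_pos (zp _) (zp _)).le
        ((div_lt_one (zp _)).2 h)).eventually (gt_mem_nhds η0)).mono fun _ h _ => h
    · exact Eventually.of_forall fun _ h' => absurd h' h
  refine Nat.sInf_mem (s := {A | L2 S.g (zz S.ty) b A}) ⟨(range b ×ˢ range b).card * H,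
    S.L2_iff.2 fun q hq Ms hMs => ?_⟩
  set a : ℕ → ℕ → ℝ := fun j m => ‖q.coeff j‖ * zz S.ty j ^ m
  have cov : Ms ⊆ (range b ×ˢ range b).biUnion fun p => Ms.filter fun m =>
      p.1 ≠ p.2 ∧ η * a p.1 m < a p.2 m ∧ a p.2 m ≤ a p.1 m := fun m hm => by
    obtain ⟨t, ht⟩ := hMs m hm
    obtain ⟨j, hj, hj2⟩ := exists_max_image (range b) (fun j => a j m) ⟨0, mem_range.2 (by
      have := S.b2 l; omega)⟩
    by_contra hc
    simp only [mem_biUnion, mem_filter, not_exists, not_and, Prod.forall, mem_product, and_imp,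
      not_le] at hc
    set r := t • S.D m q
    have hr : Lt r b := fun n hn => by simp [r, D, hq n hn]
    have rc : ∀ k, ‖r.coeff k‖ = ‖t‖ * a k m := fun k => by
      simp [r, D, a, abs_of_pos (zp k), mul_comm]
    rw [← map_smul] at ht
    have r1 : ‖S.I r‖ ≤ 3 := by linarith [norm_le_norm_sub_add (S.I r) v0, v0_le]
    have r2 := h3 (r - r.coeff j • X ^ j) (fun n hn => by
      simp [hr n hn, coeff_X_pow, show n ≠ j by have := mem_range.1 hj; omega])
      (η * (C1 * 3)) (by positivity) fun k => by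
        have r3 : η * ‖r.coeff j‖ ≤ η * (C1 * 3) := by
          gcongr; exact (h1 r hr j).trans (by gcongr)
        by_cases hk : k = j
        · simp [hk]; positivity
        by_cases hkb : k < b
        swap
        · simp [hr k (by omega), coeff_X_pow, hk]; positivity
        have : a k m ≤ η * a j m := not_lt.1 fun h =>
          absurd (hj2 k (mem_range.2 hkb)) (not_le.2 (hc j k hj (mem_range.2 hkb) hm (Ne.symm hk) h))
        refine le_trans ?_ r3
        simp only [coeff_sub, coeff_smul, coeff_X_pow, if_neg hk, smul_zero, sub_zero, rc]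
        rw [mul_left_comm η]; exact mul_le_mul_of_nonneg_left this (norm_nonneg _)
    have r4 := S.noneig (r.coeff j) j
    rw [map_sub, map_smul S.I (r.coeff j), show C2 * (η * (C1 * 3)) = 1 / 10 by rw [hη]; field_simp; norm_num] at r2
    linarith [norm_sub_le_norm_sub_add_norm_sub (r.coeff j • S.I (X ^ j)) (S.I r) v0,
      norm_sub_rev (r.coeff j • S.I (X ^ j)) (S.I r)]
  refine (card_le_card cov).trans (card_biUnion_le_card_mul _ _ _ fun p hp => ?_)
  set F := Ms.filter fun m => p.1 ≠ p.2 ∧ η * a p.1 m < a p.2 m ∧ a p.2 m ≤ a p.1 m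
  rcases F.eq_empty_or_nonempty with h | h
  · simp [h]
  have : F ⊆ Ico (F.min' h) (F.min' h + H) := fun m hm => by
    refine mem_Ico.2 ⟨min'_le _ _ hm, not_le.1 fun hc => ?_⟩
    obtain ⟨-, t1, t2, t3⟩ := mem_filter.1 hm
    obtain ⟨-, -, t4, t5⟩ := mem_filter.1 (min'_mem _ h)
    generalize F.min' h = m0 at hc t4 t5
    obtain ⟨k, rfl⟩ : ∃ k, m = m0 + k := ⟨m - m0, by omega⟩
    have e1 : ∀ j, a j (m0 + k) = a j m0 * zz S.ty j ^ k := fun j => by simp only [a]; ring
    have p1 := pow_pos (zp p.1) k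
    have p2 := pow_pos (zp p.2) k
    have a0 : ∀ j, 0 ≤ a j m0 := fun j => by have := zp j; positivity
    rw [e1, e1] at t2 t3
    rcases lt_trichotomy (zz S.ty p.2) (zz S.ty p.1) with h' | h' | h'
    · have := hH k (by omega) p hp h'
      rw [div_pow, div_lt_iff₀ p1] at this
      nlinarith [a0 p.1, a0 p.2, mul_le_mul_of_nonneg_right t5 p2.le,
        mul_le_mul_of_nonneg_left this.le (a0 p.1)]
    · exact t1 (zz_inj _ h').symm
    · have := hH k (by omega) p.swap (by simpa [and_comm] using hp) h'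
      simp only [Prod.snd_swap, Prod.fst_swap] at this
      rw [div_pow, div_lt_iff₀ p2] at this
      nlinarith [a0 p.1, a0 p.2, mul_lt_mul_of_pos_right t4 p2,
        mul_le_mul_of_nonneg_left this.le (a0 p.1)]
  simpa using card_le_card this

lemma comm (l y) : ‖P (S.b l) (S.T y) - S.T (P (S.b l) y)‖ ≤ S.δ l * ‖y‖ := by
  refine op_le ((P (S.b l)).comp S.T - S.T.comp (P (S.b l))) (fun k => ?_) y
  have δ0 : 0 ≤ S.δ l := by unfold δ; positivity
  simp only [sub_apply, ContinuousLinearMap.comp_apply, P_e]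
  split_ifs with hk
  · rw [T_e, D, S.P_I ((S.g_Lt hk).dg _)]; simpa
  obtain ⟨u, h1, h2⟩ := S.col k
  rw [T_e, h1, map_add, map_smul, P_e, if_neg hk, map_zero, sub_zero, smul_zero, zero_add]
  rcases h2 with ⟨-, rfl⟩ | ⟨l', h3, h4, h5⟩
  · simpa
  have hl : l ≤ l' := Nat.lt_succ_iff.1 (S.bm.lt_iff_lt.1 ((not_lt.1 hk).trans_lt h4))
  have := S.bm.monotone hl
  rcases h5 with ⟨h5, rfl⟩ | ⟨-, -, h⟩
  · rw [map_smul, P_e, if_neg (by omega)]; simpa
  · exact (P_le _ _).trans (h.trans (S.δ_anti hl))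

lemma commn (l n y) : ‖P (S.b l) ((S.T ^ n) y) - (S.T ^ n) (P (S.b l) y)‖ ≤ S.δ l * 26 ^ n * ‖y‖ := by
  have δ0 : 0 ≤ S.δ l := by unfold δ; positivity
  induction n with
  | zero => simp; positivity
  | succ n ih =>
    rw [pow_succ', mul_apply_eq_comp, mul_apply_eq_comp]
    have t1 := S.comm l ((S.T ^ n) y)
    have t2 := S.T_le (P (S.b l) ((S.T ^ n) y) - (S.T ^ n) (P (S.b l) y))
    have t3 : S.δ l * ‖(S.T ^ n) y‖ ≤ S.δ l * (26 ^ n * ‖y‖) :=
      mul_le_mul_of_nonneg_left ((S.Tn_le n y).trans (by gcongr; norm_num)) δ0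
    have t4 : 0 ≤ S.δ l * 26 ^ n * ‖y‖ := by positivity
    rw [map_sub] at t2
    refine (norm_sub_le_norm_sub_add_norm_sub _ (S.T (P (S.b l) ((S.T ^ n) y))) _).trans ?_
    rw [pow_succ]; nlinarith

lemma Gl (l r) (hr : Lt r (S.b (l + 1))) (h0 : ∀ j < S.b l, r.coeff j = 0) :
    ‖P (S.b l) (S.I r)‖ ≤ S.Γ l * ∑ k ∈ Ico (S.b l) (S.b (l + 1)), ‖S.I r k‖ := by
  have h1 := S.lt_eq hr
  rw [← sum_range_add_sum_Ico _ (S.bm (lt_add_one l)).le] at h1
  have h2 := congrArg (dg fun j => if j < S.b l then 1 else 0) h1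
  have h3 : ∀ q, Lt q (S.b l) → dg (fun j => if j < S.b l then 1 else 0) q = q := fun q hq => by
    ext n; by_cases h : n < S.b l
    · simp [h]
    · simp [hq n (by omega)]
  have h4 : dg (fun j => if j < S.b l then 1 else 0) r = 0 := by
    ext n; by_cases h : n < S.b l
    · simp [h0 n h]
    · simp [h]
  rw [h4, map_add, h3 _ (sum_Lt S.hd _ _), map_sum, eq_comm, add_eq_zero_iff_eq_neg] at h2
  rw [P_eq, ← I_sum, h2, map_neg, norm_neg, map_sum, mul_sum]
  refine (norm_sum_le _ _).trans (sum_le_sum fun k hk => ?_)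
  rw [map_smul, (S.hg l k (mem_Ico.1 hk).1 (mem_Ico.1 hk).2).2, ph_low, map_smul, norm_smul, map_neg,
    norm_neg, mul_comm]
  gcongr
  simpa using S.w_le l one_pos fun j => (S.pi_le _ _ j).trans (pow_le_one₀ (by norm_num) (by norm_num))

lemma chain {l y k} (hy : P (S.b (l + 1)) y = y) (hk : k ∈ Ico (S.b l) (S.b (l + 1))) :
    S.T y k = zz S.ty k * y k + 8 * y (k + 1) := by
  have hk' := mem_Ico.1 hk
  have := S.b2 l
  have key : ∀ n ∈ range (S.b (l + 1)), ev k (S.T (y n • e n)) =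
      (if k = n then zz S.ty k * y k else 0) + if k + 1 = n then 8 * y (k + 1) else 0 := fun n hn => by
    obtain ⟨u, h1, h2⟩ := S.col n
    rw [map_smul, map_smul, T_e, h1, map_add, map_smul, ev_apply, ev_apply, e_apply, smul_add]
    congr 1
    · split_ifs with h <;> simp [h, mul_comm]
    rcases h2 with ⟨h, rfl⟩ | ⟨l', h3, h4, ⟨h5, rfl⟩ | ⟨h5, h6, -⟩⟩
    · simp [show k + 1 ≠ n by omega]
    · by_cases h : k + 1 = n
      · simp [← h, e_apply, mul_comm]
      · simp [h, e_apply, show k ≠ n - 1 by omega]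
    · have : S.b l' ≤ S.b l := S.bm.monotone (Nat.lt_succ_iff.1 (S.bm.lt_iff_lt.1
        (h5 ▸ mem_range.1 hn)))
      rw [← h6, P_apply, if_neg (by omega), if_neg (by omega), smul_zero]
  conv_lhs => rw [← hy, P_eq, ← ev_apply, map_sum, map_sum, sum_congr rfl key]
  rw [sum_add_distrib, sum_ite_eq, sum_ite_eq, if_pos (mem_range.2 hk'.2)]
  split_ifs with h
  · rfl
  · rw [← hy, P_apply (m := k + 1), if_neg (by simpa using h), mul_zero]

end Spec
end Pool.Agent.H97.Ch
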