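import Pool.Agent.H97.Ch3

namespace Pool.Agent.H97.Ch
open Polynomial Finset Filter

lemma count {F : Finset ℕ} {m L κ A : ℕ} (hκ : 0 < κ) (h1 : ∀ n ∈ F, m ≤ n ∧ n < m + L * κ)
    (h2 : ∀ t ∈ F, (F.filter fun n => t ≤ n ∧ n < t + κ).card ≤ A) : F.card ≤ L * A := by
  have : F ⊆ (range L).biUnion fun i => F.filter fun n => (n - m) / κ = i := fun n hn => by
    simp only [mem_biUnion, mem_range, mem_filter]
    exact ⟨_, (Nat.div_lt_iff_lt_mul hκ).2 (by have := h1 n hn; omega), hn, rfl⟩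
  refine (card_le_card this).trans ((card_biUnion_le_card_mul _ _ A fun i _ => ?_).trans (by simp))
  set G := F.filter fun n => (n - m) / κ = i
  rcases G.eq_empty_or_nonempty with h | h
  · simp [h]
  obtain ⟨t1, t2⟩ := mem_filter.1 (min'_mem _ h)
  refine le_trans (card_le_card fun n hn => mem_filter.2 ⟨(mem_filter.1 hn).1, min'_le _ _ hn, ?_⟩)
    (h2 _ t1)
  obtain ⟨t3, t4⟩ := mem_filter.1 hn
  have := Nat.lt_div_mul_add (a := n - m) hκ
  have := Nat.div_mul_le_self (G.min' h - m) κ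
  have := (h1 _ t1).1
  rw [t4] at *; rw [t2] at *; omega

namespace Spec
variable {c : ℕ → ℕ → ℂ} (S : Spec c)

lemma exI {b y} (h : P b y = y) : ∃ q, Lt q b ∧ y = S.I q :=
  ⟨_, sum_Lt S.hd b y, by rw [I_sum, ← P_eq, h]⟩

lemma P_Tn {b y} (h : P b y = y) (n) : P b ((S.T ^ n) y) = (S.T ^ n) y := by
  obtain ⟨q, hq, rfl⟩ := S.exI h
  rw [Tn_I, D, S.P_I (hq.dg _)]

lemma P_P (b) (y : E) : P b (P b y) = P b y := by ext n; simp only [P_apply]; split_ifs <;> rfl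

noncomputable def s (l : ℕ) (y : E) : ℝ := ∑ k ∈ Ico (S.b l) (S.b (l + 1)), ‖y k‖

noncomputable def st (l : ℕ) (y : E) : ℝ := ∑ k ∈ Ico (S.b l) (S.b (l + 1)), 32 ^ (k - S.b l) * ‖y k‖

lemma s_le (l y) : S.s l y ≤ S.st l y := sum_le_sum fun _ _ =>
  le_mul_of_one_le_left (norm_nonneg _) (one_le_pow₀ (by norm_num))

lemma st_le (l y) : S.st l y ≤ 32 ^ (6 * S.κ l) * S.s l y := by
  rw [s, mul_sum]
  refine sum_le_sum fun k hk => ?_
  have := mem_Ico.1 hk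
  have := S.hb l
  gcongr
  · norm_num
  · omega

lemma st_step {l y} (hy : P (S.b (l + 1)) y = y) :
    (Even l → S.st l (S.T y) ≤ 7 / 4 * S.st l y) ∧ (¬ Even l → 15 / 4 * S.st l y ≤ S.st l (S.T y)) := by
  have hb := S.bm (lt_add_one l)
  have h1 : ∑ k ∈ Ico (S.b l) (S.b (l + 1)), 32 ^ (k - S.b l) * (8 * ‖y (k + 1)‖) ≤ 1 / 4 * S.st l y := by
    have : ∑ k ∈ Ico (S.b l) (S.b (l + 1)), 32 ^ (k - S.b l) * (8 * ‖y (k + 1)‖) =
        1 / 4 * ∑ k ∈ Ico (S.b l + 1) (S.b (l + 1) + 1), (32:ℝ) ^ (k - S.b l) * ‖y k‖ := by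
      rw [← sum_Ico_add', mul_sum]
      refine sum_congr rfl fun k hk => ?_
      rw [Nat.sub_add_comm (mem_Ico.1 hk).1, pow_succ]; ring
    rw [this, sum_Ico_succ_top hb, ← hy, P_apply (m := S.b (l + 1)), if_neg (lt_irrefl _), hy, norm_zero,
      mul_zero, add_zero, st]
    gcongr; simp
  constructor <;> intro hl
  · have : S.st l (S.T y) ≤ 3 / 2 * S.st l y +
        ∑ k ∈ Ico (S.b l) (S.b (l + 1)), 32 ^ (k - S.b l) * (8 * ‖y (k + 1)‖) := by
      rw [st, st, mul_sum, ← sum_add_distrib]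
      refine sum_le_sum fun k hk => ?_
      have := zz_E ((S.hg l k (mem_Ico.1 hk).1 (mem_Ico.1 hk).2).1.trans (decide_eq_true hl))
      rw [S.chain hy hk, mul_left_comm (3 / 2 : ℝ), ← mul_add]
      gcongr
      refine (norm_add_le _ _).trans ?_
      rw [norm_mul, norm_mul, Complex.norm_real, Real.norm_of_nonneg (by linarith)]
      gcongr
      exacts [this.2, by simp]
    linarith
  · have : 4 * S.st l y ≤ S.st l (S.T y) +
        ∑ k ∈ Ico (S.b l) (S.b (l + 1)), 32 ^ (k - S.b l) * (8 * ‖y (k + 1)‖) := by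
      rw [st, st, mul_sum, ← sum_add_distrib]
      refine sum_le_sum fun k hk => ?_
      have := zz_F ((S.hg l k (mem_Ico.1 hk).1 (mem_Ico.1 hk).2).1.trans (decide_eq_false hl))
      rw [S.chain hy hk, mul_left_comm (4 : ℝ), ← mul_add]
      gcongr
      have h2 := norm_sub_le (zz S.ty k * y k + 8 * y (k + 1)) (8 * y (k + 1))
      rw [add_sub_cancel_right, norm_mul, norm_mul, Complex.norm_real,
        Real.norm_of_nonneg (by linarith), show ‖(8:ℂ)‖ = 8 by simp] at h2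
      nlinarith [norm_nonneg (y k)]
    linarith

lemma st_iter {l y} (hy : P (S.b (l + 1)) y = y) (m k) :
    (Even l → S.st l ((S.T ^ (m + k)) y) ≤ (7 / 4) ^ k * S.st l ((S.T ^ m) y)) ∧
    (¬ Even l → (15 / 4) ^ k * S.st l ((S.T ^ m) y) ≤ S.st l ((S.T ^ (m + k)) y)) := by
  induction k with
  | zero => simp
  | succ k ih =>
    have := S.st_step (S.P_Tn hy (m + k))
    rw [← add_assoc, pow_succ' S.T, mul_apply_eq_comp, pow_succ', pow_succ', mul_assoc, mul_assoc]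
    exact ⟨fun h => (this.1 h).trans (by gcongr; exact ih.1 h),
      fun h => le_trans (by gcongr; exact ih.2 h) (this.2 h)⟩

def Act (l : ℕ) (y : E) (m : ℕ) : Prop :=
  2 ^ m ≤ 10 * S.Γ l * S.s l ((S.T ^ m) y) ∧ S.s l ((S.T ^ m) y) ≤ 3 ^ m

lemma active {l y m m'} (hy : P (S.b (l + 1)) y = y) (h1 : S.κ l ≤ m) (h2 : m ≤ m')
    (a1 : S.Act l y m) (a2 : S.Act l y m') : m' < 204 * m := by
  obtain ⟨k, rfl⟩ := Nat.exists_eq_add_of_le h2
  have t0 := S.Γ1 l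
  have k0 : 0 < S.κ l := S.k0.trans_le (S.hk.monotone l.zero_le)
  have t1 : 10 * S.Γ l ≤ 2 ^ S.κ l := le_trans (by
    calc 10 * S.Γ l ≤ 720 * S.Γ l * (0 + 1) * (0 + 1) := by linarith
      _ ≤ _ := by gcongr <;> positivity) (S.hΓ l)
  have t2 : (8 / 7 : ℝ) ^ k * 2 ^ m ≤ 10 * S.Γ l * 32 ^ (6 * S.κ l) * 3 ^ m := by
    obtain ⟨i1, i2⟩ := S.st_iter hy m k
    by_cases hl : Even l
    · have := a2.1.trans (mul_le_mul_of_nonneg_left ((S.s_le _ _).trans ((i1 hl).trans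
        (mul_le_mul_of_nonneg_left ((S.st_le _ _).trans (mul_le_mul_of_nonneg_left a1.2
        (by positivity))) (by positivity)))) (by positivity))
      refine le_of_mul_le_mul_left (a := (7 / 4) ^ k) ?_ (by positivity)
      rw [← mul_assoc, ← mul_pow, show (7 / 4 * (8 / 7) : ℝ) = 2 by norm_num, ← pow_add, add_comm]
      linarith
    · have := (mul_le_mul_of_nonneg_left (S.s_le _ _) (by positivity)).trans ((i2 hl).trans
        ((S.st_le _ _).trans (mul_le_mul_of_nonneg_left a2.2 (by positivity))))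
      refine le_of_mul_le_mul_left (a := 3 ^ k) ?_ (by positivity)
      calc (3:ℝ) ^ k * ((8 / 7) ^ k * 2 ^ m) = (3 * (8 / 7)) ^ k * 2 ^ m := by rw [mul_pow]; ring
        _ ≤ (15 / 4) ^ k * (10 * S.Γ l * S.s l ((S.T ^ m) y)) := by
          gcongr
          exacts [by norm_num, a1.1]
        _ = 10 * S.Γ l * ((15 / 4) ^ k * S.s l ((S.T ^ m) y)) := by ring
        _ ≤ 10 * S.Γ l * (32 ^ (6 * S.κ l) * 3 ^ (m + k)) := by gcongr
        _ = _ := by ring
  by_contra hc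
  have t3 : (2:ℝ) ^ (33 * m) ≤ (8 / 7) ^ k :=
    calc (2:ℝ) ^ (33 * m) ≤ ((8 / 7) ^ 6) ^ (33 * m) := by gcongr; norm_num
      _ ≤ _ := by rw [← pow_mul]; exact pow_le_pow_right₀ (by norm_num) (by omega)
  have t4 : 10 * S.Γ l * 32 ^ (6 * S.κ l) * 3 ^ m ≤ 2 ^ m * 32 ^ (6 * m) * 4 ^ m := by
    gcongr
    exacts [t1.trans (pow_le_pow_right₀ one_le_two h1), by norm_num, by norm_num]
  have t5 := (mul_le_mul_of_nonneg_right t3 (by positivity)).trans (t2.trans t4)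
  rw [pow_mul, pow_mul, ← mul_pow, ← mul_pow, ← mul_pow] at t5
  exact absurd t5 (not_le.2 (pow_lt_pow_left₀ (by norm_num) (by norm_num) (by omega)))

def R5 (y : E) (n : ℕ) : Prop := ∃ t : ℂ, ‖t • (S.T ^ n) y - v0‖ ≤ 1 / 5

lemma P_v (l) {y r} (h : ‖y - v0‖ ≤ r) : ‖P (S.b l) y - v0‖ ≤ r := by
  rw [← S.P_v0 l, ← map_sub]; exact (P_le _ _).trans h

lemma v0_0 {y r} (h : ‖y - v0‖ ≤ r) : ‖y 0 - 1‖ ≤ r := by
  have := (ap_le _ 0).trans h
  simpa [v0, e_apply] using this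

lemma window {l y t} (ht : S.R5 y t) (Ms : Finset ℕ)
    (h : ∀ n ∈ Ms, S.R5 y n ∧ t ≤ n ∧ n < t + S.κ l) : Ms.card ≤ S.A l := by
  obtain ⟨t0, ht⟩ := ht
  have h0 : t0 ≠ 0 := by
    rintro rfl
    have := v0_0 ht
    norm_num at this
  set y1 := t0 • (S.T ^ t) y with hy1
  obtain ⟨q, hq, e1⟩ := S.exI (P_P (S.b l) y1)
  have n1 : ‖y1‖ ≤ 3 := by linarith [norm_le_norm_sub_add y1 v0, v0_le]
  have n2 : 4 / 5 ≤ ‖S.I q‖ := by
    have h1 := v0_0 (S.P_v l ht)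
    have := norm_sub_norm_le (1:ℂ) (P (S.b l) y1 0)
    rw [norm_sub_rev, norm_one] at this
    rw [← e1]; linarith [ap_le (P (S.b l) y1) 0]
  rw [← card_image_of_injOn (f := fun n => n - t) fun a ha b hb hab => by
    have := h a ha; have := h b hb; simp only at hab; omega]
  refine S.L2_iff.1 (S.A_mem l) q hq _ fun k hk => ?_
  obtain ⟨n, hn, rfl⟩ := mem_image.1 hk
  obtain ⟨⟨μ, h1⟩, h2, h3⟩ := h n hn
  obtain ⟨k, rfl⟩ := Nat.exists_eq_add_of_le h2
  rw [Nat.add_sub_cancel_left]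
  have e2 : μ • (S.T ^ (t + k)) y = (μ / t0) • (S.T ^ k) y1 := by
    rw [hy1, map_smul, smul_smul, div_mul_cancel₀ _ h0, add_comm, pow_add, mul_apply_eq_comp]
  rw [e2] at h1
  have h4 := S.P_v l h1
  rw [map_smul] at h4
  set C : ℝ := S.C l + 1 with hC
  have C0 : 0 < C := by positivity
  have h5 : ‖P (S.b l) ((S.T ^ k) y1) - S.I (S.D k q)‖ ≤ 1 / (30 * C) := by
    rw [← Tn_I, ← e1]
    refine (S.commn l k y1).trans ?_
    calc _ ≤ 1 / (90 * C * (0 + 1) * 26 ^ S.κ l) * 26 ^ S.κ l * 3 := by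
          unfold δ; gcongr
          exacts [by positivity, by norm_num, by omega]
      _ = _ := by field_simp; norm_num
  have h6 : ‖S.I q‖ ≤ C * ‖S.I (S.D k q)‖ := by
    have zp := fun j => (zz_bd S.ty j).1
    have := S.L1_iff.1 (S.C_mem l) (fun j => ((zz S.ty j : ℂ) ^ k)⁻¹) (fun j => by
      rw [norm_inv, norm_pow, Complex.norm_real, Real.norm_of_nonneg (by linarith [zp j])]
      exact inv_le_one_of_one_le₀ (one_le_pow₀ (zp j).le)) _ (hq.dg fun j => (zz S.ty j : ℂ) ^ k)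
    rw [dg_dg, show dg (fun j => ((zz S.ty j : ℂ) ^ k)⁻¹ * (zz S.ty j : ℂ) ^ k) q = q by
      ext n; rw [dg_coeff, inv_mul_cancel₀ (pow_ne_zero _ (by
        exact_mod_cast (by linarith [zp n] : zz S.ty n ≠ 0))), one_mul]] at this
    exact this.trans (by rw [hC, D]; gcongr; linarith)
  refine ⟨μ / t0, ?_⟩
  set u := P (S.b l) ((S.T ^ k) y1)
  set v := S.I (S.D k q)
  have h7 : ‖μ / t0‖ * ‖u‖ ≤ 11 / 5 := by
    rw [← norm_smul]; linarith [norm_le_norm_sub_add ((μ / t0) • u) v0, v0_le]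
  have h8 : 23 / 30 ≤ C * ‖u‖ := by
    have := mul_le_mul_of_nonneg_left ((norm_le_norm_add_norm_sub' v u).trans (add_le_add le_rfl
      ((norm_sub_rev _ _).trans_le h5))) C0.le
    rw [mul_add, show C * (1 / (30 * C)) = 1 / 30 by field_simp] at this
    linarith
  have h9 : ‖μ / t0‖ ≤ 3 * C := by nlinarith [norm_nonneg (μ / t0)]
  have h10 : ‖(μ / t0) • v - (μ / t0) • u‖ ≤ 1 / 10 := by
    rw [← smul_sub, norm_smul, norm_sub_rev]
    calc _ ≤ 3 * C * (1 / (30 * C)) := by gcongr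
      _ = _ := by field_simp; norm_num
  linarith [norm_sub_le_norm_sub_add_norm_sub ((μ / t0) • v) ((μ / t0) • u) v0]

end Spec
end Pool.Agent.H97.Ch
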