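import Pool.Agent.H97.Ch4

namespace Pool.Agent.H97.Ch
open Polynomial Finset Filter MeasureTheory

instance : TopologicalSpace.SeparableSpace E := by
  rw [← TopologicalSpace.isSeparable_univ_iff]
  refine (TopologicalSpace.IsSeparable.span (R := ℂ) (Set.countable_range e).isSeparable).closure.mono
    fun x _ => mem_closure_of_tendsto (hasSum_e x).tendsto_sum_nat (Eventually.of_forall fun _ =>
      Submodule.sum_mem _ fun n _ => Submodule.smul_mem _ _ (Submodule.subset_span ⟨n, rfl⟩))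

namespace Spec
variable {c : ℕ → ℕ → ℂ} (S : Spec c)

def J (x : E) (n : ℕ) : Set ℝ :=
  {r | 1 / 3 < r ∧ r < 1 / 2 ∧ ‖(r : ℂ) ^ n • (S.T ^ n) x - v0‖ < 1 / 10}

lemma level {l : ℕ} {x : E} (hx : ‖x‖ ≤ l + 1) (F : Finset ℕ)
    (hF : ∀ n ∈ F, S.κ l ≤ n ∧ n < S.κ (l + 1) ∧ (S.J x n).Nonempty) :
    ∑ n ∈ F, (1 / n : ℝ) ≤ (1 / 2) ^ l := by
  classical
  have hy := P_P (S.b (l + 1)) x
  set y := P (S.b (l + 1)) x with hy0
  obtain ⟨q, hq, e1⟩ := S.exI hy
  set q1 := dg (fun j => if j < S.b l then 1 else 0) q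
  set q2 := dg (fun j => if j < S.b l then 0 else 1) q
  have hq1 : Lt q1 (S.b l) := fun n hn => by simp [q1, not_lt.2 hn]
  have e2 : q = q1 + q2 := by ext n; simp only [q1, q2, coeff_add, dg_coeff]; split_ifs <;> simp
  have k0 : 0 < S.κ l := S.k0.trans_le (S.hk.monotone l.zero_le)
  have key : ∀ n ∈ F, S.R5 y n ∧ (S.Act l y n ∨ ∃ t : ℂ, ‖t • S.I (S.D n q1) - v0‖ ≤ 3 / 10) := by
    intro n hn
    obtain ⟨h1, h2, r, r1, r2, r3⟩ := hF n hn
    have r0 : 0 < r := by linarith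
    have rn : ‖(r:ℂ) ^ n‖ = r ^ n := by rw [norm_pow, Complex.norm_real, Real.norm_of_nonneg r0.le]
    have t1 := S.P_v (l + 1) r3.le
    rw [map_smul] at t1
    have t2 : ‖(r:ℂ) ^ n • (S.T ^ n) y - (r:ℂ) ^ n • P (S.b (l + 1)) ((S.T ^ n) x)‖ ≤ 1 / 10 := by
      rw [← smul_sub, norm_smul, norm_sub_rev, rn]
      refine (mul_le_of_le_one_left (norm_nonneg _) (pow_le_one₀ r0.le (by linarith))).trans
        ((S.commn _ n x).trans ?_)
      calc _ ≤ (1 / (90 * (0 + 1) * (l + 1) * 26 ^ S.κ (l + 1)) * 26 ^ S.κ (l + 1) * (l + 1) : ℝ) := by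
            unfold δ; gcongr
            exacts [by positivity, by simp, by norm_num]
        _ = 1 / 90 := by field_simp; norm_num
        _ ≤ _ := by norm_num
    have t3 : ‖(r:ℂ) ^ n • (S.T ^ n) y - v0‖ ≤ 1 / 5 := by
      linarith [norm_sub_le_norm_sub_add_norm_sub ((r:ℂ) ^ n • (S.T ^ n) y)
        ((r:ℂ) ^ n • P (S.b (l + 1)) ((S.T ^ n) x)) v0]
    refine ⟨⟨_, t3⟩, ?_⟩
    have s0 : 0 ≤ S.s l ((S.T ^ n) y) := sum_nonneg fun _ _ => norm_nonneg _
    have t0 := S.Γ1 l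
    by_cases hc : r ^ n * (S.Γ l * S.s l ((S.T ^ n) y)) ≤ 1 / 10
    · refine Or.inr ⟨(r:ℂ) ^ n, ?_⟩
      have e3 : (S.T ^ n) y = S.I (S.D n q1) + S.I (S.D n q2) := by
        rw [e1, Tn_I, ← map_add, ← map_add, ← e2]
      have p1 : P (S.b l) (S.I (S.D n q1)) = S.I (S.D n q1) := S.P_I (hq1.dg _)
      have t4 := S.Gl l (S.D n q2) ((hq.dg _).dg _) fun j hj => by simp [D, q2, hj]
      have t5 : ∑ k ∈ Ico (S.b l) (S.b (l + 1)), ‖S.I (S.D n q2) k‖ = S.s l ((S.T ^ n) y) :=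
        sum_congr rfl fun k hk => by
          rw [e3, lp.coeFn_add, Pi.add_apply, ← p1, P_apply, if_neg (not_lt.2 (mem_Ico.1 hk).1), zero_add]
      have t6 := S.P_v l t3
      rw [e3, map_smul, map_add, p1, smul_add] at t6
      have t7 : ‖(r:ℂ) ^ n • P (S.b l) (S.I (S.D n q2))‖ ≤ 1 / 10 := by
        rw [norm_smul, rn]; exact le_trans (by rw [← t5]; gcongr) hc
      have := norm_sub_le ((r:ℂ) ^ n • S.I (S.D n q1) + (r:ℂ) ^ n • P (S.b l) (S.I (S.D n q2)) - v0)
        ((r:ℂ) ^ n • P (S.b l) (S.I (S.D n q2)))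
      rw [sub_right_comm, add_sub_cancel_right] at this
      linarith
    · refine Or.inl ⟨?_, ?_⟩
      · have : (2 * r) ^ n ≤ 1 := pow_le_one₀ (by positivity) (by linarith)
        rw [mul_pow] at this
        have p2 : (0:ℝ) < 2 ^ n := by positivity
        nlinarith [mul_nonneg (zero_le_one.trans t0) s0]
      · have t4 : r ^ n * S.s l ((S.T ^ n) y) ≤ 1 / 5 := by
          refine le_trans (le_of_eq ?_) ((sum_le _ (Ico (S.b l) (S.b (l + 1)))).trans t3)
          rw [s, mul_sum]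
          refine sum_congr rfl fun k hk => ?_
          have := S.b2 l
          have := (mem_Ico.1 hk).1
          simp [v0, e_apply, show k ≠ 0 by omega, show k ≠ 1 by omega, abs_of_pos r0]
        have : 1 ≤ (3 * r) ^ n := one_le_pow₀ (by linarith)
        rw [mul_pow] at this
        have p2 : (0:ℝ) < 3 ^ n := by positivity
        nlinarith
  have A0 : (0:ℝ) ≤ S.A l := by positivity
  have κ0 : (0:ℝ) < S.κ l := by exact_mod_cast k0
  have c1 : ∑ n ∈ F with ¬ S.Act l y n, (1 / n : ℝ) ≤ S.A l * (1 / S.κ l) := by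
    refine (sum_le_card_nsmul _ _ (1 / S.κ l : ℝ) fun n hn => ?_).trans ?_
    · gcongr; exact (hF n (mem_filter.1 hn).1).1
    · rw [nsmul_eq_mul]; gcongr
      exact S.L2_iff.1 (S.A_mem l) q1 hq1 _ fun m hm =>
        (key m (mem_filter.1 hm).1).2.resolve_left (mem_filter.1 hm).2
  have c2 : ∑ n ∈ F with S.Act l y n, (1 / n : ℝ) ≤ 204 * S.A l * (1 / S.κ l) := by
    set G := F.filter (S.Act l y)
    rcases G.eq_empty_or_nonempty with h | h
    · rw [h, sum_empty]; positivity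
    obtain ⟨t1, t2⟩ := mem_filter.1 (min'_mem _ h)
    have t3 : ∀ n ∈ G, G.min' h ≤ n := fun n hn => min'_le _ _ hn
    generalize G.min' h = m at t1 t2 t3
    have t4 := (hF m t1).1
    have m0 : (0:ℝ) < m := by exact_mod_cast k0.trans_le t4
    have t5 := count (F := G) (m := m) (L := 203 * m / S.κ l + 1) (A := S.A l) k0 (fun n hn => by
      have := S.active hy t4 (t3 n hn) t2 (mem_filter.1 hn).2
      have := Nat.lt_div_mul_add (a := 203 * m) k0
      exact ⟨t3 n hn, by rw [add_mul]; omega⟩) fun t ht =>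
      S.window (key t (mem_filter.1 ht).1).1 _ fun n hn =>
        ⟨(key n (mem_filter.1 (mem_filter.1 hn).1).1).1, (mem_filter.1 hn).2⟩
    have t6 : G.card * S.κ l ≤ 204 * S.A l * m := by
      have := Nat.div_mul_le_self (203 * m) (S.κ l)
      calc _ ≤ (203 * m / S.κ l + 1) * S.A l * S.κ l := by gcongr
        _ = (203 * m / S.κ l * S.κ l + S.κ l) * S.A l := by ring
        _ ≤ (203 * m + m) * S.A l := by gcongr
        _ = _ := by ring
    refine (sum_le_card_nsmul _ _ (1 / m : ℝ) fun n hn => ?_).trans ?_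
    · gcongr; exact t3 n hn
    · rw [nsmul_eq_mul, mul_one_div, mul_one_div, div_le_div_iff₀ m0 κ0]; exact_mod_cast t6
  have c3 : (206 * S.A l * 2 ^ l : ℝ) ≤ S.κ l := by exact_mod_cast (S.hG l).1
  rw [← sum_filter_add_sum_filter_not F (S.Act l y), one_div_pow, le_div_iff₀ (by positivity)]
  refine (mul_le_mul_of_nonneg_right (add_le_add c2 c1) (by positivity)).trans ?_
  rw [← add_mul, mul_one_div, div_mul_eq_mul_div, div_le_one κ0]
  nlinarith [mul_nonneg A0 (show (0:ℝ) ≤ 2 ^ l by positivity)]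

lemma vol_J (x) {n} (hn : 0 < n) : volume (S.J x n) ≤ ENNReal.ofReal (1 / n) := by
  refine (Real.volume_le_diam _).trans (Metric.ediam_le fun a ha b hb => ?_)
  wlog h : b ≤ a generalizing a b
  · rw [edist_comm]; exact this b hb a ha (le_of_not_ge h)
  rw [edist_dist, Real.dist_eq, abs_of_nonneg (by linarith)]
  refine ENNReal.ofReal_le_ofReal ?_
  have key : ∀ r ∈ S.J x n, |r ^ n * ‖(S.T ^ n) x 0‖ - 1| ≤ 1 / 10 := fun r ⟨h1, _, h3⟩ => by
    have := (abs_norm_sub_norm_le _ _).trans (v0_0 h3.le)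
    simpa [abs_of_pos (show 0 < r by linarith)] using this
  have k1 := (abs_le.1 (key a ha)).2
  have k2 := (abs_le.1 (key b hb)).1
  obtain ⟨b1, b2, -⟩ := hb
  have b0 : 0 < b := by linarith
  have n0 : (0:ℝ) < n := by exact_mod_cast hn
  have := one_add_mul_le_pow (a := (a - b) / b) (le_trans (by norm_num) (div_nonneg (by linarith) b0.le)) n
  rw [show 1 + (a - b) / b = a / b by field_simp; ring, div_pow, le_div_iff₀ (by positivity)] at this
  have t1 : a - b ≤ (a - b) / b := by rw [le_div_iff₀ b0]; nlinarith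
  have t2 := mul_le_mul_of_nonneg_right this (norm_nonneg ((S.T ^ n) x 0))
  rw [mul_assoc] at t2
  have t3 : 0 ≤ n * ((a - b) / b) := mul_nonneg n0.le (by linarith)
  rw [le_div_iff₀ n0]
  nlinarith [mul_le_mul_of_nonneg_left t1 n0.le]

lemma not_common (x : E) : ∃ r : ℝ, 1 / 3 < r ∧ r < 1 / 2 ∧
    ¬ Dense (Set.range fun n : ℕ => (((r:ℂ) • S.T) ^ n) x) := by
  classical
  by_contra hc
  push Not at hc
  obtain ⟨l0, h0, h4⟩ : ∃ l0 : ℕ, ‖x‖ ≤ l0 ∧ 4 ≤ l0 :=
    ⟨max ⌈‖x‖⌉₊ 4, (Nat.le_ceil _).trans (by exact_mod_cast le_max_left _ _), le_max_right _ _⟩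
  set F : ℕ → Finset ℕ := fun l => (Ico (S.κ l) (S.κ (l + 1))).filter fun n => (S.J x n).Nonempty
  have cov : Set.Ioo (1 / 3 : ℝ) (1 / 2) ⊆ ⋃ i, ⋃ n ∈ F (l0 + i), S.J x n := fun r hr => by
    have : Nontrivial E := ⟨⟨e 0, 0, fun h => by simpa [h] using norm_e 0⟩⟩
    obtain ⟨_, ⟨⟨n, rfl⟩, h1⟩, h2⟩ := ((hc r hr.1 hr.2).sdiff_finite ((Set.finite_Iio (S.κ l0)).image
      fun n : ℕ => (((r:ℂ) • S.T) ^ n) x)).exists_mem_open Metric.isOpen_ball
      (Metric.nonempty_ball.2 (show (0:ℝ) < 1 / 10 by norm_num) : (Metric.ball v0 _).Nonempty)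
    have h3 : S.κ l0 ≤ n := not_lt.1 fun h => h1 ⟨n, h, rfl⟩
    have h5 : r ∈ S.J x n := ⟨hr.1, hr.2, by
      simp only [Metric.mem_ball, dist_eq_norm, _root_.smul_pow] at h2; exact h2⟩
    have ex : ∃ i, n < S.κ (l0 + i + 1) := ⟨n, lt_of_lt_of_le (by omega) S.hk.le_apply⟩
    refine Set.mem_iUnion.2 ⟨Nat.find ex, Set.mem_iUnion₂.2 ⟨n, mem_filter.2 ⟨mem_Ico.2 ⟨?_,
      Nat.find_spec ex⟩, r, h5⟩, h5⟩⟩
    rcases h : Nat.find ex with _ | j
    · exact h3
    · exact not_lt.1 (Nat.find_min ex (m := j) (by omega))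
  have h1 : ∀ i, volume (⋃ n ∈ F (l0 + i), S.J x n) ≤ ENNReal.ofReal (1 / 16 * (1 / 2) ^ i) := fun i => by
    refine (measure_biUnion_finset_le _ _).trans ((sum_le_sum fun n hn => S.vol_J x (S.k0.trans_le
      ((S.hk.monotone (Nat.zero_le _)).trans (mem_Ico.1 (mem_filter.1 hn).1).1))).trans ?_)
    rw [← ENNReal.ofReal_sum_of_nonneg fun _ _ => by positivity]
    refine ENNReal.ofReal_le_ofReal ((S.level (l := l0 + i) (x := x) (h0.trans (by
      push_cast; linarith [Nat.cast_nonneg (α := ℝ) i])) _ fun n hn => ?_).trans ?_)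
    · exact ⟨(mem_Ico.1 (mem_filter.1 hn).1).1, (mem_Ico.1 (mem_filter.1 hn).1).2, (mem_filter.1 hn).2⟩
    · rw [pow_add]; gcongr
      exact (pow_le_pow_of_le_one (by norm_num) (by norm_num) h4).trans (by norm_num)
  have := (measure_mono cov).trans ((measure_iUnion_le _).trans (ENNReal.tsum_le_tsum h1))
  rw [← ENNReal.ofReal_tsum_of_nonneg (fun _ => by positivity) (summable_geometric_two.mul_left _),
    tsum_mul_left, tsum_geometric_two, Real.volume_Ioo, ENNReal.ofReal_le_ofReal_iff (by norm_num)] at this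
  norm_num at this

lemma eig (j) : S.T (S.I (X ^ j)) = (zz S.ty j : ℂ) • S.I (X ^ j) := by
  rw [T_I, ← map_smul]; congr 1; ext n
  simp only [D, dg_coeff, coeff_smul, coeff_X_pow]; split_ifs with h <;> simp [h]

lemma dense_sub (u : ℕ → E) (hu : DenseRange u) (hc : ∀ l n, c l n = u (l / 2).unpair.1 n)
    (M : Submodule ℂ E) (p : ℕ) (hp : p < 2)
    (hM : ∀ j, S.ty j = decide (Even p) → S.I (X ^ j) ∈ M) : Dense (M : Set E) := by
  refine dense_closure.1 (hu.mono ?_)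
  rintro _ ⟨i, rfl⟩
  set L : ℕ → ℕ := fun k => 2 * Nat.pair i k + p
  have hL : Tendsto L atTop atTop := tendsto_atTop_mono (fun k => by
    have := Nat.right_le_pair i k; simp only [L, id]; omega) tendsto_id
  have t1 : Tendsto (fun k => P (S.b (L k)) (u i)) atTop (nhds (u i)) := by
    simp only [P_eq]
    exact (hasSum_e (u i)).tendsto_sum_nat.comp (S.bm.tendsto_atTop.comp hL)
  have t2 : Tendsto (fun k => ((L k + 1 : ℕ) : ℂ)⁻¹ • e (S.b (L k + 1) - 1)) atTop (nhds 0) := by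
    rw [tendsto_zero_iff_norm_tendsto_zero]
    simp only [norm_smul, norm_e, mul_one, norm_inv, Complex.norm_natCast]
    exact tendsto_inv_atTop_nhds_zero_nat.comp ((tendsto_add_atTop_nat 1).comp hL)
  refine mem_closure_of_tendsto (by simpa using t1.add t2) (Eventually.of_forall fun k => ?_)
  have hb := S.bm (lt_add_one (L k))
  have e1 := (S.hg (L k) (S.b (L k + 1) - 1) (by omega) (by omega)).2
  rw [Nat.sub_add_cancel (by omega), show dg (pi (zz S.ty) (S.b (L k + 1)) (S.b (L k + 1)))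
    (ph S.g (S.b (L k)) (S.b (L k + 1)) (L k) (c (L k))) = ph S.g (S.b (L k)) (S.b (L k + 1)) (L k)
    (c (L k)) by ext n; simp [pi]] at e1
  have e2 : P (S.b (L k)) (u i) + ((L k + 1 : ℕ) : ℂ)⁻¹ • e (S.b (L k + 1) - 1) =
      ((L k + 1 : ℕ) : ℂ)⁻¹ • ∑ j ∈ Ico (S.b (L k)) (S.b (L k + 1)), S.I (X ^ j) := by
    rw [← I_g, e1, ph, map_sub, map_smul, I_sum, smul_sub, smul_smul,
      inv_mul_cancel₀ (Nat.cast_ne_zero.2 (by omega)), one_smul, map_sum, P_eq]
    simp only [hc, show L k / 2 = Nat.pair i k by simp only [L]; omega, Nat.unpair_pair]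
    abel
  have := M.smul_mem ((L k + 1 : ℕ) : ℂ)⁻¹ (M.sum_mem fun j (hj : j ∈ Ico (S.b (L k)) (S.b (L k + 1))) =>
    hM j ((S.hg _ j (mem_Ico.1 hj).1 (mem_Ico.1 hj).2).1.trans (by simp [L, Nat.even_add])))
  rw [← e2] at this
  simpa using this

end Spec
end Pool.Agent.H97.Ch
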