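import Pool.Agent.H97.CubeDefs

set_option autoImplicit false

namespace Pool.Agent.H97.Cube

open Finset Polynomial

theorem sg_sq (b : Bool) : sg b ^ 2 = 1 := by cases b <;> simp [sg]

theorem pt {a s : ℝ} (h0 : 0 ≤ a) (h1 : a ≤ 3 / 2) (hs : s ^ 2 = 1) {z : ℂ} (hz : ‖z‖ ≤ 1 / 2) :
    ‖1 + ((a ^ 2 - 1) / 2 : ℝ) * z ^ 2 + (a * s : ℝ) * z‖ ≤
      Real.exp (a * s * z.re - (z ^ 2).re / 2 + 9 * ‖z‖ ^ 3) := by
  set w : ℂ := (a * s : ℝ) * z - z ^ 2 / 2 with hw
  have z0 := norm_nonneg z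
  have has : ‖((a * s : ℝ) : ℂ)‖ ≤ 3 / 2 := by
    rw [Complex.norm_real, Real.norm_eq_abs]
    exact abs_le_of_sq_le_sq (by rw [mul_pow, hs]; nlinarith) (by norm_num)
  have w2 : ‖w‖ ≤ 2 * ‖z‖ := by
    refine (norm_sub_le _ _).trans ?_
    rw [norm_mul, norm_div, norm_pow, Complex.norm_two]
    nlinarith
  have e := Complex.exp_bound (x := w) (by linarith) (n := 3) (by norm_num)
  have w3 : ‖w‖ ^ 3 ≤ (2 * ‖z‖) ^ 3 := by gcongr
  have hs' : (s : ℂ) ^ 2 = 1 := by exact_mod_cast hs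
  have id : 1 + ((a ^ 2 - 1) / 2 : ℝ) * z ^ 2 + (a * s : ℝ) * z = Complex.exp w -
      (Complex.exp w - ∑ m ∈ range 3, w ^ m / (m.factorial : ℂ)) +
      ((a * s : ℝ) * z ^ 3 / 2 - z ^ 4 / 8) := by
    simp only [sum_range_succ, sum_range_zero, hw, Nat.factorial]
    push_cast
    linear_combination (-(a : ℂ) ^ 2 * z ^ 2 / 2) * hs'
  have r1 : ‖((a * s : ℝ) : ℂ) * z ^ 3 / 2 - z ^ 4 / 8‖ ≤ ‖z‖ ^ 3 := by
    refine (norm_sub_le _ _).trans ?_
    simp only [norm_div, norm_mul ((a * s : ℝ) : ℂ), norm_pow, Complex.norm_ofNat]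
    nlinarith [pow_nonneg z0 3]
  have re : w.re = a * s * z.re - (z ^ 2).re / 2 := by simp [hw]
  have lo : 1 / 3 ≤ Real.exp w.re := by
    have h3 : -1 ≤ w.re := by linarith [neg_abs_le w.re, Complex.abs_re_le_norm w]
    refine le_trans ?_ (Real.exp_le_exp.2 h3)
    rw [Real.exp_neg, one_div]
    exact inv_anti₀ (Real.exp_pos _) (by linarith [Real.exp_one_lt_d9])
  rw [id, ← re, Real.exp_add]
  refine (norm_add_le _ _).trans ((add_le_add (norm_sub_le _ _) r1).trans ?_)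
  rw [Complex.norm_exp]
  norm_num [Nat.factorial] at e
  nlinarith [Real.add_one_le_exp (9 * ‖z‖ ^ 3), pow_nonneg z0 3, Real.exp_pos w.re]

theorem sum_prod {R : Type} [CommSemiring R] (n : ℕ) (φ : Bool → R) :
    ∑ x : Fin n → Bool, ∏ i, φ (x i) = (φ true + φ false) ^ n := by
  have := prod_univ_sum (fun _ : Fin n => (univ : Finset Bool)) (fun _ b => φ b)
  rw [Fintype.piFinset_univ] at this
  rw [← this]; simp

theorem mom (n : ℕ) {a r : ℝ} (h0 : 0 ≤ a) (h1 : a ≤ 3 / 2) (hr : 0 ≤ r) {z : ℂ}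
    (hz : ‖z‖ ≤ 1 / 2) :
    ∑ x : Fin n → Bool, ‖∏ i, (1 + ((a ^ 2 - 1) / 2 : ℝ) * z ^ 2 + (a * sg (x i) : ℝ) * z)‖ ^ r ≤
      2 ^ n * Real.exp (n * (r * a ^ 2 * z.re ^ 2 / 2 - (z ^ 2).re / 2 + 9 * ‖z‖ ^ 3)) ^ r := by
  simp only [norm_prod, ← Real.finsetProd_rpow _ _ (fun _ _ => norm_nonneg _)]
  rw [sum_prod n (fun b => ‖1 + ((a ^ 2 - 1) / 2 : ℝ) * z ^ 2 + (a * sg b : ℝ) * z‖ ^ r),
    ← Real.exp_mul, mul_assoc, Real.exp_nat_mul, ← mul_pow]
  refine pow_le_pow_left₀ (by positivity) ?_ _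
  refine (add_le_add (Real.rpow_le_rpow (norm_nonneg _) (pt h0 h1 (sg_sq _) hz) hr)
    (Real.rpow_le_rpow (norm_nonneg _) (pt h0 h1 (sg_sq _) hz) hr)).trans ?_
  have := Real.cosh_le_exp_half_sq (a * z.re * r)
  rw [Real.cosh_eq] at this
  simp only [← Real.exp_mul, sg, if_true, Bool.false_eq_true, if_false]
  set c := (-(z ^ 2).re / 2 + 9 * ‖z‖ ^ 3) * r
  rw [show (a * 1 * z.re - (z ^ 2).re / 2 + 9 * ‖z‖ ^ 3) * r = a * z.re * r + c by ring,
    show (a * -1 * z.re - (z ^ 2).re / 2 + 9 * ‖z‖ ^ 3) * r = -(a * z.re * r) + c by ring,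
    show (r * a ^ 2 * z.re ^ 2 / 2 - (z ^ 2).re / 2 + 9 * ‖z‖ ^ 3) * r =
      (a * z.re * r) ^ 2 / 2 + c by ring]
  simp only [Real.exp_add]
  nlinarith [Real.exp_pos c]

theorem cauchy (P : ℝ[X]) {N d : ℕ} (hN : P.natDegree < N) (hd : d < N) {ρ : ℝ} (hρ : 0 < ρ) :
    |P.coeff d| * ρ ^ d ≤ ∑ k ∈ range N, (1 / N : ℝ) *
      ‖aeval (ρ * Complex.exp (2 * Real.pi * Complex.I / N) ^ k) P‖ := by
  have N0 : N ≠ 0 := by omega
  have hω := Complex.isPrimitiveRoot_exp N N0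
  set ω := Complex.exp (2 * Real.pi * Complex.I / N)
  have n1 : ‖ω‖ = 1 := hω.norm'_eq_one N0
  have key : ∑ k ∈ range N, aeval (ρ * ω ^ k) P * (ω ^ k) ^ (N - d) =
      N * (P.coeff d * ρ ^ d : ℝ) := by
    simp only [aeval_eq_sum_range' hN, sum_mul]
    rw [sum_comm, sum_eq_single_of_mem d (mem_range.2 hd)]
    · have : ∀ k, P.coeff d • ((ρ : ℂ) * ω ^ k) ^ d * (ω ^ k) ^ (N - d) =
          (P.coeff d * ρ ^ d : ℝ) := fun k => by
        rw [mul_pow, smul_mul_assoc, mul_assoc, ← pow_add, Nat.add_sub_cancel' hd.le, ← pow_mul,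
          mul_comm k, pow_mul, hω.pow_eq_one]
        simp
      simp only [this]
      simp
    · intro j hj hjd
      have hj := mem_range.1 hj
      have : ∀ k, P.coeff j • ((ρ : ℂ) * ω ^ k) ^ j * (ω ^ k) ^ (N - d) =
          (P.coeff j * ρ ^ j) * (ω ^ (j + (N - d))) ^ k := fun k => by
        rw [mul_pow, smul_mul_assoc, mul_assoc, ← pow_add, ← pow_mul, mul_comm k, pow_mul]
        simp [mul_assoc]
      simp only [this, ← mul_sum]
      have ne : ω ^ (j + (N - d)) ≠ 1 := fun h => by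
        obtain ⟨c, hc⟩ := (hω.pow_eq_one_iff_dvd _).1 h
        rcases c with _ | _ | c
        · omega
        · omega
        · have : N * (c + 1 + 1) = N * c + 2 * N := by ring
          omega
      rw [geom_sum_eq ne, ← pow_mul, mul_comm _ N, pow_mul, hω.pow_eq_one]
      simp
  have h := norm_sum_le (range N) fun k => aeval (ρ * ω ^ k) P * (ω ^ k) ^ (N - d)
  rw [key] at h
  simp only [norm_mul, norm_pow, n1, one_pow, mul_one, Complex.norm_natCast, Complex.norm_real,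
    Real.norm_eq_abs, abs_of_pos hρ] at h
  have : (0 : ℝ) < N := by positivity
  rw [← mul_sum, one_div, le_inv_mul_iff₀ this]
  exact h

noncomputable def PP {n : ℕ} (a : ℝ) (x : Fin n → Bool) : ℝ[X] :=
  ∏ i, (C (a * sg (x i)) * X + (1 + C ((a ^ 2 - 1) / 2) * X ^ 2))

noncomputable def co (n : ℕ) (a : ℝ) (d : ℕ) (S : Finset (Fin n)) : ℝ :=
  a ^ S.card * (X ^ S.card * (1 + C ((a ^ 2 - 1) / 2) * X ^ 2) ^ (n - S.card)).coeff d

theorem ev_co (n : ℕ) (a : ℝ) (d : ℕ) (x : Fin n → Bool) :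
    ev (co n a d) x = (PP a x).coeff d := by
  unfold ev PP co
  rw [prod_add, finsetSum_coeff, powerset_univ]
  refine sum_congr rfl fun S _ => ?_
  rw [prod_mul_distrib, ← map_prod, prod_const, prod_const, mul_assoc (C _), coeff_C_mul,
    prod_mul_distrib, prod_const, card_univ_sdiff, Fintype.card_fin]
  ring

theorem deg_co (n : ℕ) (a : ℝ) (d : ℕ) : deg (co n a d) ≤ d := by
  refine Finset.sup_le fun S hS => ?_
  by_contra h
  refine (mem_filter.1 hS).2 ?_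
  unfold co
  rw [coeff_X_pow_mul', if_neg h, mul_zero]

theorem PP_deg {n : ℕ} (a : ℝ) (x : Fin n → Bool) : (PP a x).natDegree < 2 * n + 1 := by
  refine Nat.lt_succ_of_le ((natDegree_prod_le _ _).trans ?_)
  refine (sum_le_card_nsmul _ _ 2 fun i _ => by compute_degree).trans ?_
  simp [mul_comm]

theorem nrm_le {n : ℕ} {r A : ℝ} (hr : 0 < r) (hA : 0 ≤ A) {f : (Fin n → Bool) → ℝ}
    (h : ∑ x, |f x| ^ r ≤ 2 ^ n * A ^ r) : nrm r f ≤ A := by
  unfold nrm
  rw [one_div, Real.rpow_inv_le_iff_of_pos (by positivity) hA hr, div_le_iff₀' (by positivity)]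
  exact h

theorem up (n : ℕ) {a p ρ : ℝ} (h0 : 0 ≤ a) (hp : 1 ≤ p) (ha : p * a ^ 2 = 2) (hρ : 0 < ρ)
    (hρ1 : ρ ≤ 1 / 2) {d : ℕ} (hd : d < 2 * n + 1) :
    nrm p (ev (co n a d)) ≤ Real.exp (n * (ρ ^ 2 / 2 + 9 * ρ ^ 3)) / ρ ^ d := by
  refine nrm_le (by linarith) (by positivity) ?_
  set N := 2 * n + 1 with hN
  have N0 : (0 : ℝ) < N := by positivity
  set ω := Complex.exp (2 * Real.pi * Complex.I / N)
  have n1 : ‖ω‖ = 1 := (Complex.isPrimitiveRoot_exp N (by omega)).norm'_eq_one (by omega)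
  rw [Real.div_rpow (by positivity) (by positivity), ← mul_div_assoc, le_div_iff₀ (by positivity),
    sum_mul]
  calc _ ≤ ∑ x : Fin n → Bool, ∑ k ∈ range N, (1 / N : ℝ) * ‖aeval (ρ * ω ^ k) (PP a x)‖ ^ p := by
        refine sum_le_sum fun x _ => ?_
        rw [← Real.mul_rpow (by positivity) (by positivity), ev_co]
        exact (Real.rpow_le_rpow (by positivity) (cauchy _ (PP_deg a x) hd hρ) (by linarith)).trans
          (Real.rpow_arith_mean_le_arith_mean_rpow _ _ _ (fun _ _ => by positivity)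
            (by rw [sum_const, card_range, nsmul_eq_mul]; field_simp) (fun _ _ => norm_nonneg _) hp)
    _ ≤ ∑ _k ∈ range N, (1 / N : ℝ) * (2 ^ n * Real.exp (n * (ρ ^ 2 / 2 + 9 * ρ ^ 3)) ^ p) := by
        rw [sum_comm]
        refine sum_le_sum fun k _ => ?_
        rw [← mul_sum]
        refine mul_le_mul_of_nonneg_left ?_ (by positivity)
        have hz : ‖(ρ : ℂ) * ω ^ k‖ = ρ := by simp [n1, hρ.le]
        have := mom n h0 (by nlinarith) (r := p) (by linarith) (hz.trans_le hρ1)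
        have e : p * a ^ 2 * ((ρ : ℂ) * ω ^ k).re ^ 2 / 2 - (((ρ : ℂ) * ω ^ k) ^ 2).re / 2 =
            ρ ^ 2 / 2 := by
          rw [ha, ← hz, Complex.sq_norm, Complex.normSq_apply, hz]
          generalize (ρ : ℂ) * ω ^ k = z
          simp [sq]; ring
        rw [e, hz] at this
        refine le_trans (le_of_eq (sum_congr rfl fun x _ => ?_)) this
        simp only [PP, map_prod, map_add, map_mul, aeval_C, aeval_X, map_pow, map_one,
          Complex.coe_algebraMap]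
        congr 2
        refine prod_congr rfl fun i _ => ?_
        push_cast; ring
    _ = _ := by rw [sum_const, card_range, nsmul_eq_mul]; field_simp

theorem holder {n : ℕ} {q q' : ℝ} (h : q.HolderConjugate q') (f g : (Fin n → Bool) → ℝ) :
    ∑ x, f x * g x ≤ 2 ^ n * (nrm q f * nrm q' g) := by
  refine (Real.inner_le_Lp_mul_Lq univ f g h).trans (le_of_eq ?_)
  unfold nrm
  have h2 : (0 : ℝ) < 2 ^ n := by positivity
  rw [Real.div_rpow (by positivity) h2.le, Real.div_rpow (by positivity) h2.le, div_mul_div_comm,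
    ← Real.rpow_add h2, one_div q, one_div q', h.inv_add_inv_eq_one, Real.rpow_one]
  field_simp

end Pool.Agent.H97.Cube
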