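import Pool.Agent.H97.Cube1

set_option autoImplicit false

namespace Pool.Agent.H97.Cube

open Finset Polynomial Filter Topology

theorem nrm_nonneg {n : ℕ} (r : ℝ) (f : (Fin n → Bool) → ℝ) : 0 ≤ nrm r f := by
  unfold nrm; positivity

theorem fin_ineq {p q q' C D a : ℝ} (h : Adm p q C) (hC : 0 < C) (hD : C ≤ D) (hD1 : 1 ≤ D)
    (hp : 1 ≤ p) (h0 : 0 ≤ a) (ha : p * a ^ 2 = 2) (hq : q.HolderConjugate q') (n : ℕ)
    {t τ ρ θ : ℝ} (ht : 0 ≤ t) (hτ : 0 ≤ τ) (hτ1 : τ ≤ 1 / 2) (hρ : 0 < ρ) (hρ1 : ρ ≤ 1 / 2)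
    (hθ : D * t / ρ = θ) (hθ1 : θ < 1) :
    (1 + ((a ^ 2 - 1) / 2 * t ^ 2 + a * τ * t)) ^ n ≤ (1 - θ)⁻¹ *
      Real.exp (n * (ρ ^ 2 / 2 + 9 * ρ ^ 3) + n * ((q' - 1) * τ ^ 2 / 2 + 9 * τ ^ 3)) := by
  let g : (Fin n → Bool) → ℝ := fun x => ∏ i, (1 + τ * sg (x i))
  have hg : nrm q' g ≤ Real.exp (n * ((q' - 1) * τ ^ 2 / 2 + 9 * τ ^ 3)) := by
    refine nrm_le hq.symm.pos (by positivity) ?_
    have hz : ‖(τ : ℂ)‖ = τ := by simp [hτ]
    have := mom n zero_le_one (by norm_num) hq.symm.pos.le (hz.trans_le hτ1)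
    rw [hz, ← Complex.ofReal_pow, Complex.ofReal_re, Complex.ofReal_re] at this
    refine le_trans (le_of_eq (sum_congr rfl fun x _ => ?_)) (this.trans (le_of_eq ?_))
    · rw [← Real.norm_eq_abs, ← Complex.norm_real]
      simp only [g]
      push_cast
      congr 2
      refine prod_congr rfl fun i _ => by ring
    · congr 3; ring
  have e1 : ∑ x, (PP a x).eval t * g x =
      2 ^ n * (1 + ((a ^ 2 - 1) / 2 * t ^ 2 + a * τ * t)) ^ n := by
    simp only [PP, g, eval_prod, ← prod_mul_distrib, eval_add, eval_mul, eval_C, eval_X, eval_pow,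
      eval_one]
    rw [sum_prod n (fun b => (a * sg b * t + (1 + (a ^ 2 - 1) / 2 * t ^ 2)) * (1 + τ * sg b)),
      ← mul_pow]
    congr 1
    simp [sg]; ring
  set A := Real.exp (n * (ρ ^ 2 / 2 + 9 * ρ ^ 3))
  set B := Real.exp (n * ((q' - 1) * τ ^ 2 / 2 + 9 * τ ^ 3))
  have θ0 : 0 ≤ θ := by rw [← hθ]; positivity
  have e2 : ∑ x, (PP a x).eval t * g x ≤ ∑ d ∈ range (2 * n + 1), 2 ^ n * (θ ^ d * (A * B)) := by
    simp only [eval_eq_sum_range' (PP_deg a _), sum_mul]
    rw [sum_comm]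
    refine sum_le_sum fun d hd => ?_
    have b1 : nrm q (ev (co n a d)) ≤ D ^ d * (A / ρ ^ d) :=
      (h n _).trans (mul_le_mul ((pow_le_pow_left₀ hC.le hD _).trans
        (pow_le_pow_right₀ hD1 (deg_co n a d))) (up n h0 hp ha hρ hρ1 (mem_range.1 hd))
        (nrm_nonneg _ _) (by positivity))
    calc _ = t ^ d * ∑ x, ev (co n a d) x * g x := by
          rw [mul_sum]; exact sum_congr rfl fun x _ => by rw [ev_co]; ring
      _ ≤ t ^ d * (2 ^ n * (D ^ d * (A / ρ ^ d) * B)) := by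
          refine mul_le_mul_of_nonneg_left ((holder hq _ _).trans ?_) (by positivity)
          exact mul_le_mul_of_nonneg_left (mul_le_mul b1 hg (nrm_nonneg _ _) (by positivity))
            (by positivity)
      _ = _ := by rw [← hθ, div_pow, mul_pow]; ring
  rw [e1, ← mul_sum, ← sum_mul] at e2
  refine (le_of_mul_le_mul_left e2 (by positivity)).trans ?_
  rw [Real.exp_add]
  refine mul_le_mul_of_nonneg_right ?_ (by positivity)
  rw [← tsum_geometric_of_lt_one θ0 hθ1]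
  exact (summable_geometric_of_lt_one θ0 hθ1).sum_le_tsum _ fun _ _ => by positivity

theorem lower {p q C : ℝ} (hp : 1 ≤ p) (hpq : p < q) (hC : 0 < C) (h : Adm p q C) :
    Real.sqrt (2 * q / p - 1) ≤ C := by
  have p0 : 0 < p := by linarith
  have q1 : 1 < q := by linarith
  have hq := Real.HolderConjugate.conjExponent q1
  have hq' : Real.conjExponent q - 1 = (q - 1)⁻¹ := by
    unfold Real.conjExponent
    have : q - 1 ≠ 0 := by linarith
    field_simp; ring
  set κ := 2 * q / p - 1 with hκ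
  have κ1 : 1 < κ := by
    rw [hκ, lt_sub_iff_add_lt, lt_div_iff₀ p0]; linarith
  set a := Real.sqrt (2 / p)
  have a0 : 0 < a := by positivity
  have a2 : a ^ 2 = 2 / p := Real.sq_sqrt (by positivity)
  have ha : p * a ^ 2 = 2 := by rw [a2]; field_simp
  set D := max C 1
  have D1 : 1 ≤ D := le_max_right _ _
  have main : ∀ θ t : ℝ, 0 < θ → θ < 1 → 0 < t →
      Real.exp ((κ - (D / θ) ^ 2) * t ^ 2 / 2) ≤ (1 - θ)⁻¹ := by
    intro θ t θ0 θ1 t0
    set T := D * t / θ with hT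
    set σ := a * t * (q - 1) with hσ
    have T0 : 0 < T := by positivity
    have σ0 : 0 < σ := mul_pos (by positivity) (by linarith)
    have l1 := (Real.tendsto_one_add_div_pow_exp ((a ^ 2 - 1) / 2 * t ^ 2 + a * σ * t)).comp
      (tendsto_pow_atTop (α := ℕ) two_ne_zero)
    have l2 := (((tendsto_const_div_atTop_nhds_zero_nat (9 * T ^ 3 + 9 * σ ^ 3)).const_add
      (T ^ 2 / 2 + (q - 1)⁻¹ * σ ^ 2 / 2)).rexp).const_mul (1 - θ)⁻¹
    have := le_of_tendsto_of_tendsto l1 l2 (by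
      filter_upwards [tendsto_natCast_atTop_atTop.eventually_ge_atTop (2 * T),
        tendsto_natCast_atTop_atTop.eventually_ge_atTop (2 * σ)] with m m1 m2
      have m0 : (0 : ℝ) < m := by linarith
      have := fin_ineq (D := D) h hC (le_max_left C 1) D1 hp a0.le ha hq (m ^ 2) (t := t / m) (τ := σ / m)
        (ρ := T / m) (θ := θ) (by positivity) (by positivity)
        (by rw [div_le_iff₀ m0]; linarith) (by positivity) (by rw [div_le_iff₀ m0]; linarith)
        (by rw [hT]; field_simp) θ1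
      rw [hq'] at this
      simp only [Function.comp]
      refine le_trans (le_of_eq ?_) (this.trans (le_of_eq ?_))
      · congr 2; push_cast; field_simp
      · congr 2; push_cast; generalize (q - 1)⁻¹ = u; field_simp; ring)
    rw [add_zero, ← div_le_iff₀ (Real.exp_pos _), ← Real.exp_sub] at this
    refine le_trans (le_of_eq (congrArg _ ?_)) this
    have : q - 1 ≠ 0 := by linarith
    have e : (q - 1)⁻¹ * σ ^ 2 = a ^ 2 * t ^ 2 * (q - 1) := by rw [hσ]; field_simp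
    have e2 : a * σ * t = a ^ 2 * t ^ 2 * (q - 1) := by rw [hσ]; ring
    rw [e, e2, a2, hκ, hT]; ring
  have s1 : 1 < Real.sqrt κ := Real.lt_sqrt_of_sq_lt (by linarith)
  by_contra hn
  have hD : D < Real.sqrt κ := max_lt (not_le.1 hn) s1
  obtain ⟨θ, h1, h2⟩ := exists_between ((div_lt_one (by linarith)).2 hD)
  have θ0 : 0 < θ := lt_trans (by positivity) h1
  have δ0 : 0 < κ - (D / θ) ^ 2 := by
    rw [sub_pos, ← Real.lt_sqrt (by positivity), div_lt_iff₀' θ0]
    rwa [div_lt_iff₀ (by linarith)] at h1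
  have i0 : 0 < (1 - θ)⁻¹ := inv_pos.2 (by linarith)
  have := main θ (Real.sqrt (2 * (1 - θ)⁻¹ / (κ - (D / θ) ^ 2))) θ0 h2 (by positivity)
  rw [Real.sq_sqrt (by positivity), mul_div_cancel₀ _ δ0.ne'] at this
  linarith [Real.add_one_le_exp (2 * (1 - θ)⁻¹ / 2)]

end Pool.Agent.H97.Cube
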