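import Mathlib

set_option autoImplicit false

namespace Pool.Agent.H97.Cube

open Finset

/-- The sign `±1` of a bit. -/
def sg (b : Bool) : ℝ := if b then 1 else -1

/-- The function on `{-1,1}^n` with Fourier-Walsh coefficients `c`. -/
def ev {n : ℕ} (c : Finset (Fin n) → ℝ) (x : Fin n → Bool) : ℝ := ∑ S, c S * ∏ i ∈ S, sg (x i)

open Classical in
/-- Largest `|S|` with `c S ≠ 0` (zero if there is none). -/
noncomputable def deg {n : ℕ} (c : Finset (Fin n) → ℝ) : ℕ :=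
  (univ.filter fun S => c S ≠ 0).sup card

/-- The `L^r` norm for the uniform probability measure on the cube. -/
noncomputable def nrm {n : ℕ} (r : ℝ) (f : (Fin n → Bool) → ℝ) : ℝ :=
  ((∑ x, |f x| ^ r) / 2 ^ n) ^ (1 / r)

/-- `‖f‖_q ≤ C^{deg f} ‖f‖_p` for all `n` and all `f` on `{-1,1}^n`. -/
def Adm (p q C : ℝ) : Prop :=
  ∀ (n : ℕ) (c : Finset (Fin n) → ℝ), nrm q (ev c) ≤ C ^ deg c * nrm p (ev c)

end Pool.Agent.H97.Cube
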