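import Mathlib

open Set Filter Topology

namespace Pool.Agent.H97.Dch

def B : ℕ → ℕ
  | 0 => 1
  | k + 1 => 64 ^ (k + 1) * B k

theorem B_pos (k : ℕ) : 0 < B k := by
  induction k with
  | zero => simp [B]
  | succ k ih => simp [B, ih]

theorem B_strictMono : StrictMono B := strictMono_nat_of_lt_succ fun k => by
  have h1 : 1 < 64 ^ (k + 1) := Nat.one_lt_pow (by omega) (by norm_num)
  have := B_pos k
  simp only [B]; nlinarith

theorem B_one (k : ℕ) : (1:ℝ) ≤ B k := by exact_mod_cast B_pos k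

theorem le_B (k : ℕ) : (k:ℝ) ≤ B k := by exact_mod_cast B_strictMono.le_apply

variable (𝕜 : Type) [RCLike 𝕜]

noncomputable def blk (k : ℕ) (t : ℝ) : 𝕜 × 𝕜 →L[𝕜] 𝕜 × 𝕜 :=
  ((Real.exp (-t / (8 ^ k * B k)) : ℝ) : 𝕜) • (ContinuousLinearMap.id 𝕜 (𝕜 × 𝕜) +
    ((t / B k : ℝ) : 𝕜) • (ContinuousLinearMap.inl 𝕜 𝕜 𝕜).comp (ContinuousLinearMap.snd 𝕜 𝕜 𝕜))

variable {𝕜}

theorem blk_apply (k : ℕ) (t : ℝ) (v : 𝕜 × 𝕜) : blk 𝕜 k t v =
    (((Real.exp (-t / (8 ^ k * B k)) : ℝ) : 𝕜) * (v.1 + ((t / B k : ℝ) : 𝕜) * v.2),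
      ((Real.exp (-t / (8 ^ k * B k)) : ℝ) : 𝕜) * v.2) := by
  ext <;> simp [blk, RCLike.real_smul_eq_coe_mul, mul_add]

theorem blk_le (k : ℕ) (t : ℝ) (v : 𝕜 × 𝕜) :
    ‖blk 𝕜 k t v‖ ≤ Real.exp (-t / (8 ^ k * B k)) * (1 + |t| / B k) * ‖v‖ := by
  have h1 := norm_fst_le v
  have h2 := norm_snd_le v
  have h3 : 0 ≤ |t| / B k := by positivity
  have h4 := norm_nonneg v
  rw [blk_apply, mul_assoc, Prod.norm_def, max_le_iff]
  simp only [norm_mul, RCLike.norm_ofReal, abs_of_pos (Real.exp_pos _)]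
  constructor
  · gcongr
    refine (norm_add_le _ _).trans ?_
    rw [norm_mul, RCLike.norm_ofReal, abs_div, Nat.abs_cast]
    nlinarith
  · gcongr; nlinarith

theorem fac_le (k : ℕ) (t : ℝ) :
    Real.exp (-t / (8 ^ k * B k)) * (1 + |t| / B k) ≤ Real.exp |t| * (1 + |t|) := by
  have h1 : (1:ℝ) ≤ 8 ^ k * B k := one_le_mul_of_one_le_of_one_le (one_le_pow₀ (by norm_num)) (B_one k)
  gcongr
  · exact (div_le_div_of_nonneg_right (neg_le_abs t) (by positivity)).trans
      (div_le_self (abs_nonneg t) h1)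
  · exact div_le_self (abs_nonneg t) (B_one k)

abbrev X (𝕜 : Type) [RCLike 𝕜] := lp (fun _ : ℕ => 𝕜 × 𝕜) 1

variable (𝕜) in
noncomputable def T (t : ℝ) : X 𝕜 →L[𝕜] X 𝕜 :=
  lp.mapCLM 1 (fun k => blk 𝕜 k t) (K := Real.exp |t| * (1 + |t|)) (by positivity) fun k =>
    ContinuousLinearMap.opNorm_le_bound _ (by positivity) fun v =>
      (blk_le k t v).trans (mul_le_mul_of_nonneg_right (fac_le k t) (norm_nonneg v))

theorem T_apply (t : ℝ) (z : X 𝕜) (k : ℕ) : T 𝕜 t z k = blk 𝕜 k t (z k) := rfl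

theorem T_zero : T 𝕜 0 = ContinuousLinearMap.id 𝕜 _ := by
  refine ContinuousLinearMap.ext fun z => lp.ext (funext fun k => ?_)
  rw [T_apply, blk_apply]; simp

theorem T_add (s t : ℝ) : T 𝕜 (s + t) = (T 𝕜 s).comp (T 𝕜 t) := by
  refine ContinuousLinearMap.ext fun z => lp.ext (funext fun k => ?_)
  simp only [ContinuousLinearMap.comp_apply, T_apply, blk_apply, neg_add, add_div, Real.exp_add]
  ext <;> push_cast <;> ring

theorem T_iter (j : ℕ) (z : X 𝕜) : (T 𝕜 1)^[j] z = T 𝕜 j z := by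
  induction j with
  | zero => simp [T_zero]
  | succ j ih => rw [Function.iterate_succ_apply', ih, Nat.cast_succ, add_comm, T_add]; rfl

theorem smb (z : X 𝕜) : Summable fun k => ‖z k‖ := by simpa using z.2.summable

theorem tend {l : Filter ℝ} (z y : X 𝕜) (b : ℕ → ℝ) (hb : Summable b)
    (h1 : ∀ k, Tendsto (fun t => blk 𝕜 k t (z k)) l (𝓝 (y k)))
    (h2 : ∀ᶠ t in l, ∀ k, ‖blk 𝕜 k t (z k)‖ ≤ b k) : Tendsto (fun t => T 𝕜 t z) l (𝓝 y) := by
  rw [tendsto_iff_norm_sub_tendsto_zero]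
  have := tendsto_tsum_of_dominated_convergence (𝓕 := l)
    (f := fun t k => ‖blk 𝕜 k t (z k) - y k‖) (g := fun _ => 0) (hb.add (smb y))
    (fun k => tendsto_iff_norm_sub_tendsto_zero.1 (h1 k))
    (h2.mono fun t ht k => by
      rw [norm_norm]; exact (norm_sub_le _ _).trans (add_le_add (ht k) le_rfl))
  rw [tsum_zero] at this
  refine this.congr fun t => ?_
  simp [lp.norm_eq_tsum_rpow, T_apply]

theorem T_cont (z : X 𝕜) : Continuous fun t => T 𝕜 t z := by
  refine continuous_iff_continuousAt.2 fun s => tend z _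
    (fun k => Real.exp (|s| + 1) * (1 + (|s| + 1)) * ‖z k‖) ((smb z).mul_left _) (fun k => ?_) ?_
  · have : Continuous fun t => blk 𝕜 k t (z k) := by
      simp only [blk_apply]; fun_prop
    exact this.tendsto s
  · have : ∀ᶠ t in 𝓝 s, |t| ≤ |s| + 1 :=
      continuous_abs.continuousAt.eventually (eventually_le_nhds (by linarith))
    filter_upwards [this] with t ht k
    refine (blk_le k t _).trans (mul_le_mul_of_nonneg_right ((fac_le k t).trans ?_) (norm_nonneg _))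
    gcongr

theorem fac_late (k : ℕ) {t : ℝ} (ht : 0 < t) : Real.exp (-t / (8 ^ k * B k)) * (1 + |t| / B k) ≤
    8 ^ k * B k / t + 2 * (64 ^ k * B k / t) := by
  have hB := B_one k
  set N : ℝ := 8 ^ k * B k with hN
  have hN0 : 0 < N := by positivity
  have hu : 0 < t / N := by positivity
  have e1 : Real.exp (-t / N) * Real.exp (t / N) = 1 := by rw [← Real.exp_add]; simp [neg_div]
  have e2 := Real.add_one_le_exp (t / N)
  have e3 := Real.quadratic_le_exp_of_nonneg hu.le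
  have e0 := Real.exp_pos (-t / N)
  have a1 : Real.exp (-t / N) ≤ N / t := by
    rw [← inv_div t N, ← one_div, le_div_iff₀ hu]; nlinarith
  have a2 : Real.exp (-t / N) ≤ 2 / (t / N) ^ 2 := by
    rw [le_div_iff₀ (by positivity)]; nlinarith
  have a3 : 2 / (t / N) ^ 2 * (t / B k) = 2 * (64 ^ k * B k / t) := by
    rw [hN, show (64:ℝ) ^ k = 8 ^ k * 8 ^ k by rw [← mul_pow]; norm_num]
    field_simp
  rw [abs_of_pos ht, mul_add, mul_one, ← a3]
  gcongr

theorem blk_tend (k : ℕ) (v : 𝕜 × 𝕜) : Tendsto (fun t => blk 𝕜 k t v) atTop (𝓝 0) := by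
  have h : Tendsto (fun t : ℝ => (8 ^ k * B k / t + 2 * (64 ^ k * B k / t)) * ‖v‖) atTop
      (𝓝 ((0 + 2 * 0) * ‖v‖)) :=
    ((tendsto_const_nhds.div_atTop tendsto_id).add
      ((tendsto_const_nhds.div_atTop tendsto_id).const_mul 2)).mul_const _
  refine squeeze_zero_norm' ?_ (by simpa using h)
  filter_upwards [eventually_gt_atTop 0] with t ht
  exact (blk_le k t v).trans (mul_le_mul_of_nonneg_right (fac_late k ht) (norm_nonneg _))

theorem fac_win (k m : ℕ) {t r : ℝ} (h1 : B (m + 1) ≤ t) (h2 : t ≤ r * B (m + 1)) :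
    Real.exp (-t / (8 ^ k * B k)) * (1 + |t| / B k) ≤ if k ≤ m then 3 else 1 + r := by
  have hB := B_one k
  have ht : 0 < t := lt_of_lt_of_le (by linarith [B_one (m + 1)]) h1
  split_ifs with h
  · have a1 : (64:ℝ) ^ k * B k ≤ t := by
      have : (B (k + 1) : ℝ) ≤ B (m + 1) := by exact_mod_cast B_strictMono.monotone (by omega)
      have e : (B (k + 1) : ℝ) = 64 * (64 ^ k * B k) := by simp only [B]; push_cast; ring
      have : (0:ℝ) < 64 ^ k * B k := by positivity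
      linarith
    have a2 : (8:ℝ) ^ k * B k ≤ 64 ^ k * B k := by gcongr; norm_num
    have a3 := (div_le_one ht).2 a1
    have a4 := (div_le_one ht).2 (a2.trans a1)
    linarith [fac_late k ht]
  · have a1 : (B (m + 1) : ℝ) ≤ B k := by exact_mod_cast B_strictMono.monotone (by omega)
    have a2 : Real.exp (-t / (8 ^ k * B k)) ≤ 1 :=
      Real.exp_le_one_iff.2 (div_nonpos_of_nonpos_of_nonneg (by linarith) (by positivity))
    have hr : 0 ≤ r := by nlinarith [B_one (m + 1)]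
    have a3 : |t| / B k ≤ r := by
      rw [abs_of_pos ht, div_le_iff₀ (by linarith)]; nlinarith
    calc _ ≤ 1 * (1 + r) := by gcongr
      _ = _ := one_mul _

theorem win {ε : ℝ} (hε : 0 < ε) (z : X 𝕜) (r : ℕ → ℝ) (c : ℕ → ℝ)
    (hc : Summable fun k => c k * ‖z k‖) (h3 : ∀ k, 3 ≤ c k) (h4 : ∀ m k, m < k → 1 + r m ≤ c k) :
    ∀ᶠ m in atTop, ∀ t : ℝ, B (m + 1) ≤ t → t ≤ r m * B (m + 1) → ‖T 𝕜 t z‖ < ε := by
  have h := tend (l := atTop ⊓ 𝓟 {t | ∃ m, B (m + 1) ≤ t ∧ t ≤ r m * B (m + 1)}) z 0 _ hc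
    (fun k => (blk_tend k _).mono_left inf_le_left) (by
      refine eventually_inf_principal.2 (Eventually.of_forall ?_)
      rintro t ⟨m, a1, a2⟩ k
      refine (blk_le k t _).trans (mul_le_mul_of_nonneg_right ((fac_win k m a1 a2).trans ?_)
        (norm_nonneg _))
      split_ifs with h
      exacts [h3 k, h4 m k (by omega)])
  have h' := eventually_inf_principal.1 (h.norm.eventually (eventually_lt_nhds (by simpa using hε)))
  obtain ⟨R, hR⟩ := eventually_atTop.1 h'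
  filter_upwards [tendsto_natCast_atTop_atTop.eventually (eventually_ge_atTop R)] with m hm t a1 a2
  refine hR t ?_ ⟨m, a1, a2⟩
  have := le_B (m + 1)
  push_cast at this
  linarith

theorem win_all {ε : ℝ} (hε : 0 < ε) (z : X 𝕜) :
    ∀ᶠ m in atTop, ∀ t : ℝ, B (m + 1) ≤ t → t ≤ 2 * B (m + 1) → ‖T 𝕜 t z‖ < ε :=
  win hε z (fun _ => 2) (fun _ => 3) ((smb z).mul_left _) (fun _ => le_rfl) fun _ _ _ => by norm_num

theorem dense_null : ∃ X₀ : Submodule 𝕜 (X 𝕜), Dense (X₀ : Set (X 𝕜)) ∧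
    ∀ z ∈ X₀, Tendsto (fun t => T 𝕜 t z) atTop (𝓝 0) := by
  classical
  refine ⟨⟨⟨⟨{z | Tendsto (fun t => T 𝕜 t z) atTop (𝓝 0)}, fun {a b} ha hb => ?_⟩, ?_⟩,
    fun c a ha => ?_⟩, fun z => ?_, fun z hz => hz⟩
  · simpa using Tendsto.add ha hb
  · simp
  · simpa using Tendsto.const_smul ha c
  · refine mem_closure_of_tendsto (lp.hasSum_single (by norm_num) z)
      (Eventually.of_forall fun s => Submodule.sum_mem _ fun k _ => ?_)
    refine tend _ 0 (fun j => 3 * ‖(lp.single 1 k (z k) : X 𝕜) j‖) ((smb _).mul_left _)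
      (fun j => blk_tend j _) ?_
    filter_upwards [eventually_ge_atTop (B (k + 1) : ℝ)] with t ht j
    by_cases hj : j = k
    · subst hj
      refine (blk_le j t _).trans (mul_le_mul_of_nonneg_right ?_ (norm_nonneg _))
      simpa using fac_win j j (r := t) ht (le_mul_of_one_le_right
        (by linarith [B_one (j + 1)]) (B_one _))
    · simp [Pi.single_eq_of_ne hj]

theorem irregular : ∃ x : X 𝕜,
    (∀ ε > 0, ∀ᶠ m : ℕ in atTop, ∀ t : ℝ, B (m + 1) ≤ t → t ≤ (m + 1) * B (m + 1) →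
      ‖T 𝕜 t x‖ < ε) ∧
    ∀ R : ℝ, ∀ᶠ k : ℕ in atTop, ∀ t : ℝ, 4 ^ k * B k ≤ t → t ≤ 8 ^ k * B k → R ≤ ‖T 𝕜 t x‖ := by
  let x : X 𝕜 := ⟨fun k => (0, (((1 / 2) ^ k : ℝ) : 𝕜)), memℓp_gen (by
    simpa [Prod.norm_def] using summable_geometric_two)⟩
  have hx : ∀ k, ‖x k‖ = (1 / 2) ^ k := fun k => by simp [x, Prod.norm_def]
  refine ⟨x, fun ε hε => win hε x (fun m => m + 1) (fun k => 3 + k) ?_
    (fun k => by have := Nat.cast_nonneg (α := ℝ) k; linarith) fun m k h => ?_, fun R => ?_⟩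
  · simp only [hx, add_mul]
    refine (summable_geometric_two.mul_left 3).add ?_
    simpa using summable_pow_mul_geometric_of_norm_lt_one 1 (r := (1 / 2 : ℝ)) (by norm_num)
  · have : (m:ℝ) < k := by exact_mod_cast h
    linarith
  · filter_upwards [(tendsto_pow_atTop_atTop_of_one_lt (r := (2:ℝ)) (by norm_num)).eventually
      (eventually_ge_atTop (R * Real.exp 1))] with k hk t a1 a2
    have hB := B_one k
    have h1 := lp.norm_apply_le_norm (by norm_num) (T 𝕜 t x) k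
    have h2 := norm_fst_le (T 𝕜 t x k)
    have ht : 0 < t := lt_of_lt_of_le (by positivity) a1
    have h3 : ‖(T 𝕜 t x k).1‖ = Real.exp (-t / (8 ^ k * B k)) * (t / B k * (1 / 2) ^ k) := by
      rw [T_apply, blk_apply]
      simp only [x, zero_add, norm_mul, RCLike.norm_ofReal]
      rw [abs_of_pos (Real.exp_pos _), abs_of_pos (by positivity), abs_of_pos (by positivity)]
    have h4 : Real.exp (-1) ≤ Real.exp (-t / (8 ^ k * B k)) := by
      gcongr
      rw [le_div_iff₀ (by positivity)]; linarith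
    have h5 : (2:ℝ) ^ k ≤ t / B k * (1 / 2) ^ k := by
      have : (4:ℝ) ^ k ≤ t / B k := by rwa [le_div_iff₀ (by positivity)]
      calc (2:ℝ) ^ k = 4 ^ k * (1 / 2) ^ k := by rw [← mul_pow]; norm_num
        _ ≤ _ := by gcongr
    have h6 : R ≤ Real.exp (-1) * 2 ^ k := by
      rw [Real.exp_neg, ← div_eq_inv_mul, le_div_iff₀ (Real.exp_pos 1)]; exact hk
    refine h6.trans (le_trans ?_ (h2.trans h1))
    rw [h3]
    gcongr

theorem lim0 {ι : Type} {l : Filter ι} (u : ι → ENNReal) (s : ℕ → ι) (hs : Tendsto s atTop l)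
    (v : ℕ → ℝ) (hv : Tendsto v atTop (𝓝 0)) (h : ∀ᶠ k in atTop, u (s k) ≤ ENNReal.ofReal (v k)) :
    liminf u l = 0 := by
  refine le_antisymm (le_of_forall_gt_imp_ge_of_dense fun η hη => ?_) bot_le
  refine liminf_le_of_frequently_le' (hs.frequently (Eventually.frequently ?_))
  have := ENNReal.tendsto_ofReal hv
  rw [ENNReal.ofReal_zero] at this
  filter_upwards [h, this.eventually (eventually_le_nhds hη)] with k a b using a.trans b

theorem unc {x : X 𝕜} (hx : x ≠ 0) : ¬ (range fun c : 𝕜 => c • x).Countable := by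
  intro h
  have h1 : Function.Injective fun c : ℝ => (c : 𝕜) • x :=
    (smul_left_injective 𝕜 hx).comp RCLike.ofReal_injective
  have h2 : (range fun c : ℝ => (c : 𝕜) • x).Countable := h.mono (by rintro _ ⟨c, rfl⟩; exact ⟨_, rfl⟩)
  exact Cardinal.not_countable_real (countable_of_injective_of_countable_image h1.injOn
    (by rwa [image_univ]))

theorem dist_eq (t : ℝ) (x : X 𝕜) (a b : 𝕜) :
    dist (T 𝕜 t (a • x)) (T 𝕜 t (b • x)) = ‖a - b‖ * ‖T 𝕜 t x‖ := by
  rw [dist_eq_norm, ← map_sub, ← sub_smul, map_smul, norm_smul]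

end Pool.Agent.H97.Dch
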