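import Mathlib

namespace Pool.Agent.H97.FSp
open Filter Topology Set Finset

section omt
variable {E F : Type*} [NormedAddCommGroup E] [Module ℂ E] [ContinuousSMul ℂ E] [CompleteSpace E]
  [NormedAddCommGroup F] [Module ℂ F] [ContinuousSMul ℂ F] [CompleteSpace F]

omit [CompleteSpace E] in
lemma omt_aux (Γ : Submodule ℂ (E × F)) (hs : ∀ y, ∃ x, (x, y) ∈ Γ) {ε : ℝ} (hε : 0 < ε) :
    ∃ δ > 0, ∀ y, ‖y‖ < δ → ∀ η > 0, ∃ p ∈ Γ, ‖p.1‖ < ε ∧ ‖y - p.2‖ < η := by
  set C := closure {y | ∃ x, ‖x‖ < ε / 2 ∧ (x, y) ∈ Γ}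
  obtain ⟨n, y0, h0⟩ := nonempty_interior_of_iUnion_of_closed
    (f := fun n : ℕ => (fun y : F => ((n + 1 : ℕ) : ℂ)⁻¹ • y) ⁻¹' C)
    (fun n => isClosed_closure.preimage (by fun_prop)) (eq_univ_of_forall fun y => by
      obtain ⟨x, hx⟩ := hs y
      have : Tendsto (fun n : ℕ => ‖((n + 1 : ℕ) : ℂ)⁻¹ • x‖) atTop (𝓝 0) := by
        simpa using (((tendsto_inv_atTop_nhds_zero_nat (𝕜 := ℂ)).comp
          (tendsto_add_atTop_nat 1)).smul_const x).norm
      obtain ⟨n, hn⟩ := (this.eventually (gt_mem_nhds (half_pos hε))).exists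
      exact mem_iUnion.2 ⟨n, subset_closure ⟨_, hn, Γ.smul_mem _ hx⟩⟩)
  have n0 : ((n + 1 : ℕ) : ℂ) ≠ 0 := Nat.cast_ne_zero.2 (by omega)
  have h1 : C ∈ 𝓝 (((n + 1 : ℕ) : ℂ)⁻¹ • y0) := by
    have := (continuous_const_smul ((n + 1 : ℕ) : ℂ)).continuousAt
      (x := ((n + 1 : ℕ) : ℂ)⁻¹ • y0) (by
        rw [smul_inv_smul₀ n0]; exact mem_interior_iff_mem_nhds.1 h0)
    filter_upwards [this] with y hy
    simpa only [Set.mem_preimage, inv_smul_smul₀ n0] using hy
  obtain ⟨δ, δ0, h2⟩ := Metric.mem_nhds_iff.1 h1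
  refine ⟨δ, δ0, fun y hy η η0 => ?_⟩
  set z := ((n + 1 : ℕ) : ℂ)⁻¹ • y0
  obtain ⟨a, ⟨x, t1, t2⟩, t3⟩ := Metric.mem_closure_iff.1 (h2 (Metric.mem_ball_self δ0)) _ (half_pos η0)
  obtain ⟨b, ⟨w, t4, t5⟩, t6⟩ := Metric.mem_closure_iff.1 (h2 (show z + y ∈ _ by simpa)) _ (half_pos η0)
  rw [dist_eq_norm] at t3 t6
  refine ⟨_, Γ.sub_mem t5 t2, (norm_sub_le w x).trans_lt (by linarith), ?_⟩
  have := norm_sub_le (z + y - b) (z - a)
  rw [show z + y - b - (z - a) = y - (b - a) by abel] at this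
  exact this.trans_lt (by linarith)

theorem omt (Γ : Submodule ℂ (E × F)) (hc : IsClosed (Γ : Set (E × F))) (hs : ∀ y, ∃ x, (x, y) ∈ Γ)
    {ε : ℝ} (hε : 0 < ε) : ∃ δ > 0, ∀ y, ‖y‖ < δ → ∃ x, ‖x‖ ≤ ε ∧ (x, y) ∈ Γ := by
  choose δ δ0 h using fun n : ℕ => omt_aux Γ hs (show 0 < ε / 2 / 2 ^ n by positivity)
  refine ⟨δ 0, δ0 0, fun y hy => ?_⟩
  choose! s h1 h2 h3 using fun n y hy => h n y hy (min (δ (n + 1)) ((1 / 2) ^ n))
    (lt_min (δ0 _) (by positivity))
  let Y : ℕ → F := fun n => Nat.rec y (fun n u => u - (s n u).2) n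
  have hY : ∀ n, ‖Y n‖ < δ n := fun n => by
    induction n with
    | zero => exact hy
    | succ n ih => exact (h3 n _ ih).trans_le (min_le_left _ _)
  have t1 : ∀ n, ‖(s n (Y n)).1‖ ≤ ε / 2 / 2 ^ n := fun n => (h2 n _ (hY n)).le
  have t2 := Summable.of_norm_bounded (summable_geometric_two' ε) t1
  refine ⟨∑' n, (s n (Y n)).1, tsum_of_norm_bounded (hasSum_geometric_two' ε) t1, ?_⟩
  have t3 : Tendsto Y atTop (𝓝 0) := by
    rw [← tendsto_add_atTop_iff_nat 1]
    exact squeeze_zero_norm (fun n => ((h3 n _ (hY n)).trans_le (min_le_right _ _)).le)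
      (tendsto_pow_atTop_nhds_zero_of_lt_one (by norm_num) (by norm_num))
  refine hc.mem_of_tendsto (t2.hasSum.tendsto_sum_nat.prodMk_nhds (by simpa using t3.const_sub y))
    (Eventually.of_forall fun N => ?_)
  have : (∑ n ∈ range N, (s n (Y n)).1, y - Y N) = ∑ n ∈ range N, s n (Y n) := by
    induction N with
    | zero => simp [Y]
    | succ N ih => rw [sum_range_succ, sum_range_succ, ← ih]; ext <;> simp [Y]; abel
  exact this ▸ Γ.sum_mem fun n _ => h1 n _ (hY n)

theorem cgt (f : F →ₗ[ℂ] E) (h : ∀ g : E, (∀ ε > 0, ∃ y, ‖y‖ < ε ∧ ‖f y - g‖ < ε) → g = 0) :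
    Continuous f := by
  refine continuous_of_continuousAt_zero f (Metric.continuousAt_iff.2 fun ε hε => ?_)
  obtain ⟨δ, δ0, h1⟩ := omt (LinearMap.ker (f ∘ₗ LinearMap.snd ℂ E F - LinearMap.fst ℂ E F))
    (isClosed_of_closure_subset fun p hp => by
      refine h (f p.2 - p.1) fun ε hε => ?_
      obtain ⟨q, h2, h3⟩ := Metric.mem_closure_iff.1 hp ε hε
      have h4 : f q.2 - q.1 = 0 := h2
      rw [Prod.dist_eq, max_lt_iff, dist_eq_norm, dist_eq_norm] at h3
      refine ⟨p.2 - q.2, h3.2, ?_⟩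
      rw [map_sub, sub_eq_zero.1 h4, show f p.2 - q.1 - (f p.2 - p.1) = p.1 - q.1 by abel]
      exact h3.1) (fun y => ⟨f y, by simp⟩) (half_pos hε)
  refine ⟨δ, δ0, fun y hy => ?_⟩
  obtain ⟨x, h2, h3⟩ := h1 y (by simpa using hy)
  have h4 : f y - x = 0 := h3
  rw [map_zero, dist_zero_right, sub_eq_zero.1 h4]; linarith

omit [ContinuousSMul ℂ E] in
lemma solve {ι : Type} [Fintype ι] (M : ι → E →L[ℂ] E) {ε : ℝ} (hε : 0 < ε) :
    ∃ δ : ℕ → ℝ, (∀ n, 0 < δ n) ∧ ∀ x : List ι → E, (∀ w, ‖x w‖ ≤ δ w.length) →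
      ∃ y : List ι → E, ‖y []‖ ≤ ε ∧ ∀ w, y w = x w + ∑ j, M j (y (j :: w)) := by
  have : ∀ t > 0, ∃ r > 0, r ≤ t / 2 ∧ ∀ u : ι → E, (∀ j, ‖u j‖ ≤ r) → ‖∑ j, M j (u j)‖ ≤ t := by
    intro t ht
    obtain ⟨r, r0, h⟩ := Metric.continuousAt_iff.1 ((show Continuous fun u : ι → E => ∑ j, M j (u j) by
      fun_prop).continuousAt (x := 0)) t ht
    refine ⟨min (r / 2) (t / 2), by positivity, min_le_right _ _, fun u hu => ?_⟩
    simpa using (h (x := u) (by
      rw [dist_zero_right]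
      exact ((pi_norm_le_iff_of_nonneg (by positivity)).2 fun j =>
        (hu j).trans (min_le_left _ _)).trans_lt (half_lt_self r0))).le
  choose! ρ r0 r1 r2 using this
  set θ : ℕ → ℝ := fun n => ρ^[n] (ε / 2)
  have e : ∀ n, θ (n + 1) = ρ (θ n) := fun n => Function.iterate_succ_apply' _ _ _
  have θ0 : ∀ n, 0 < θ n ∧ θ n ≤ ε / 2 / 2 ^ n := fun n => by
    induction n with
    | zero => simpa [θ]
    | succ n ih => rw [e, pow_succ, ← div_div]; exact ⟨r0 _ ih.1, (r1 _ ih.1).trans (by gcongr; exact ih.2)⟩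
  refine ⟨fun n => θ (2 * n), fun n => (θ0 _).1, fun x hx => ?_⟩
  let d : ℕ → List ι → E := fun N => Nat.rec x (fun _ u w => ∑ j, M j (u (j :: w))) N
  have hd : ∀ N w, ‖d N w‖ ≤ θ (2 * w.length + N) := fun N => by
    induction N with
    | zero => exact hx
    | succ N ih =>
      refine fun w => r2 _ (θ0 _).1 _ fun j => ?_
      rw [← e]; convert ih (j :: w) using 2; simp; ring
  have h1 : ∀ w N, ‖d N w‖ ≤ ε / 2 / 2 ^ N := fun w N => (hd N w).trans ((θ0 _).2.trans (by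
    gcongr <;> norm_num))
  have h2 := fun w => Summable.of_norm_bounded (summable_geometric_two' ε) (h1 w)
  refine ⟨fun w => ∑' N, d N w, tsum_of_norm_bounded (hasSum_geometric_two' ε) (h1 _), fun w => ?_⟩
  refine (h2 w).tsum_eq_zero_add.trans ?_
  congr 1
  exact (hasSum_sum fun j _ => (M j).hasSum (h2 (j :: w)).hasSum).tsum_eq

end omt

theorem exists_norm (G : Type*) [AddCommGroup G] [t : TopologicalSpace G] [IsTopologicalAddGroup G]
    [TopologicalSpace.IsCompletelyMetrizableSpace G] : ∃ p : AddGroupNorm G,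
    t = p.toNormedAddCommGroup.toMetricSpace.toUniformSpace.toTopologicalSpace ∧
    @CompleteSpace G p.toNormedAddCommGroup.toMetricSpace.toUniformSpace := by
  obtain ⟨p, hp⟩ : ∃ p : AddGroupNorm G, (𝓝 (0:G)).HasBasis (fun ε : ℝ => 0 < ε)
      fun ε => {x | p x < ε} := by
    let _i := IsTopologicalAddGroup.rightUniformSpace G
    have : IsUniformAddGroup G := isUniformAddGroup_of_addCommGroup
    have := IsUniformAddGroup.uniformity_countably_generated (α := G)
    let _i := UniformSpace.pseudoMetricSpace G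
    set q : G → ℝ := fun x => ⨆ z, min 1 (dist (x + z) z)
    have b : ∀ x : G, BddAbove (Set.range fun z => min 1 (dist (x + z) z)) :=
      fun x => ⟨1, by rintro _ ⟨z, rfl⟩; exact min_le_left _ _⟩
    have h1 : ∀ x z, min 1 (dist (x + z) z) ≤ q x := fun x z => le_ciSup (b x) z
    have h2 : ∀ x, q (-x) ≤ q x := fun x => ciSup_le fun z => by
      simpa [dist_comm] using h1 x (-x + z)
    refine ⟨⟨⟨q, by simp [q], fun x y => ciSup_le fun z => ?_, fun x => (h2 x).antisymm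
      (by simpa using h2 (-x))⟩, fun x hx => ?_⟩, Metric.nhds_basis_ball.to_hasBasis (fun ε hε =>
      ⟨min 1 ε, by positivity, fun x hx => ?_⟩) fun ε hε => ?_⟩
    · have := dist_triangle (x + y + z) (y + z) z
      have t1 := h1 x (y + z)
      have t2 := h1 y z
      rw [← add_assoc] at t1
      have := dist_nonneg (x := x + y + z) (y := y + z)
      have := dist_nonneg (x := y + z) (y := z)
      simp only [min_def] at *
      split_ifs at * <;> linarith
    · have := (h1 x 0).trans_eq hx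
      rw [min_le_iff, add_zero] at this
      exact (Metric.inseparable_iff.2 (dist_nonneg.antisymm' (this.resolve_left (by norm_num)))).eq
    · have := (h1 x 0).trans_lt hx
      rw [add_zero] at this
      exact lt_of_not_ge fun h => this.not_ge (min_le_min le_rfl h)
    · have := Metric.dist_mem_uniformity (α := G) (half_pos hε)
      rw [uniformity_eq_comap_nhds_zero G, mem_comap] at this
      obtain ⟨V, h3, h4⟩ := this
      obtain ⟨r, r0, h5⟩ := Metric.mem_nhds_iff.1 h3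
      refine ⟨r, r0, fun x hx => (ciSup_le fun z => (min_le_right _ _).trans ?_).trans_lt
        (half_lt_self hε)⟩
      rw [dist_comm]
      exact le_of_lt (h4 (a := (z, x + z)) (by simpa using h5 hx))
  have e : t = p.toNormedAddCommGroup.toMetricSpace.toUniformSpace.toTopologicalSpace := by
    let _i := p.toNormedAddCommGroup
    exact IsTopologicalAddGroup.ext ‹_› inferInstance (hp.eq_of_same_basis (by
      convert Metric.nhds_basis_ball (x := (0:G)) using 2
      ext x; exact (mem_ball_zero_iff (E := G)).symm))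
  refine ⟨p, e, ?_⟩
  have key : ∀ u : ℕ → G, (∀ V ∈ 𝓝 (0:G), ∃ N, ∀ m ≥ N, ∀ n ≥ N, u m - u n ∈ V) →
      ∃ φ : ℕ → ℕ, Tendsto φ atTop atTop ∧ ∃ a, Tendsto (u ∘ φ) atTop (𝓝 a) := fun u hu => by
    let _i := TopologicalSpace.upgradeIsCompletelyMetrizable G
    choose N hN using fun (s : G) (K : ℕ) => hu {v | dist s (s + v) < (1 / 2) ^ K}
      ((isOpen_lt (by fun_prop) continuous_const).mem_nhds (by simp))
    let S : ℕ → ℕ × G × G := fun K => Nat.rec (N 0 0, 0, 0) (fun K s =>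
      (max (s.1 + 1) (N s.2.2 (K + 1)), s.2.2, s.2.1 + (u (max (s.1 + 1) (N s.2.2 (K + 1))) - u s.1))) K
    have h1 : StrictMono fun K => (S K).1 := strictMono_nat_of_lt_succ fun K => Nat.lt_of_succ_le (le_max_left _ _)
    have h2 : ∀ K, dist (S K).2.1 (S (K + 2)).2.1 ≤ (1 / 2) ^ K := fun K => by
      have : N (S K).2.1 K ≤ (S K).1 := by
        cases K with
        | zero => exact le_rfl
        | succ K => exact le_max_right _ _
      exact (hN _ K _ (this.trans (h1 (lt_add_one K)).le) _ this).le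
    have h3 : ∀ K, u (S K).1 = u (N 0 0) + ((S K).2.1 + (S (K + 1)).2.1) := fun K => by
      induction K with
      | zero => simp [S]
      | succ K ih =>
        have : (S (K + 1 + 1)).2.1 = (S K).2.1 + (u (S (K + 1)).1 - u (S K).1) := rfl
        rw [this, ih]; abel
    have h4 : ∀ i, ∃ a, Tendsto (fun K => (S (2 * K + i)).2.1) atTop (𝓝 a) := fun i =>
      cauchySeq_tendsto_of_complete (cauchySeq_of_le_geometric (1 / 2) 1 (by norm_num) fun K => by
        rw [show 2 * (K + 1) + i = 2 * K + i + 2 by ring, one_mul]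
        exact (h2 _).trans (pow_le_pow_of_le_one (by norm_num) (by norm_num) (by omega)))
    obtain ⟨a, ha⟩ := h4 0
    obtain ⟨b, hb⟩ := h4 1
    refine ⟨fun K => (S (2 * K)).1, h1.tendsto_atTop.comp (tendsto_id.const_mul_atTop' two_pos), _,
      ((ha.add hb).const_add (u (N 0 0))).congr fun K => (h3 _).symm⟩
  subst e
  let _i := p.toNormedAddCommGroup
  refine Metric.complete_of_cauchySeq_tendsto fun u hu => ?_
  obtain ⟨φ, h1, a, h2⟩ := key u fun V hV => by
    obtain ⟨r, r0, h⟩ := Metric.mem_nhds_iff.1 hV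
    obtain ⟨N, hN⟩ := Metric.cauchySeq_iff.1 hu r r0
    exact ⟨N, fun m hm n hn => h (by simpa [dist_eq_norm] using hN m hm n hn)⟩
  exact ⟨a, tendsto_nhds_of_cauchySeq_of_subseq hu h1 h2⟩

end Pool.Agent.H97.FSp
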