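import Pool.Agent.H97.FSp

namespace Pool.Agent.H97.FSp
open Filter Topology Finset MvPowerSeries

variable {k : ℕ}

abbrev F (k : ℕ) := MvPowerSeries (Fin k) ℂ

lemma coeff_X_mul' (n j) (u : F k) : coeff n (X j * u) =
    if Finsupp.single j 1 ≤ n then coeff (n - Finsupp.single j 1) u else 0 := by
  rw [X_def, coeff_monomial_mul, one_mul]

lemma sub_lt {n : Fin k →₀ ℕ} {j} (h : Finsupp.single j 1 ≤ n) : n - Finsupp.single j 1 < n :=
  lt_of_le_of_ne tsub_le_self fun e => by
    have h1 := DFunLike.congr_fun e j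
    have h2 := Finsupp.single_le_iff.1 h
    simp at h1; omega

lemma dec (f : F k) : ∃ D : Fin k → F k, f = C (constantCoeff f) + ∑ j, X j * D j := by
  classical
  refine ⟨fun j m => if ∀ i < j, m i = 0 then coeff (m + Finsupp.single j 1) f else 0, ?_⟩
  ext n
  simp only [map_add, map_sum, coeff_X_mul', coeff_C]
  simp only [coeff_apply]
  split_ifs with h
  · subst h; simp; rfl
  have hn := Finsupp.support_nonempty_iff.2 h
  have h1 := Finsupp.mem_support_iff.1 (min'_mem _ hn)
  have h2 : ∀ i < n.support.min' hn, n i = 0 := fun i hi => by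
    by_contra hc; exact (min'_le _ i (Finsupp.mem_support_iff.2 hc)).not_gt hi
  generalize n.support.min' hn = j at h1 h2
  have h3 : Finsupp.single j 1 ≤ n := Finsupp.single_le_iff.2 (by omega)
  rw [zero_add, sum_eq_single j, if_pos h3, if_pos fun i hi => by simp [h2 i hi], tsub_add_cancel_of_le h3]
  · intro i _ hi
    split_ifs with h4 h5
    · have := Finsupp.single_le_iff.1 h4
      rcases lt_or_gt_of_ne hi with h6 | h6
      · have := h2 i h6; omega
      · have := h5 j h6
        simp [hi] at this; omega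
    all_goals rfl
  · simp

lemma uniq (u : List (Fin k) → F k) (h : ∀ w, u w = ∑ j, X j * u (j :: w)) : u [] = 0 := by
  suffices ∀ n w, coeff n (u w) = 0 from MvPowerSeries.ext fun n => this n _
  intro n
  induction n using WellFoundedLT.induction with
  | ind n ih =>
    intro w
    rw [h, map_sum]
    refine sum_eq_zero fun j _ => ?_
    rw [coeff_X_mul']; split_ifs with hj
    exacts [ih _ (sub_lt hj) _, rfl]

theorem core {A B : Type*} [NormedAddCommGroup A] [Module ℂ A] [ContinuousSMul ℂ A] [CompleteSpace A]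
    [NormedAddCommGroup B] [Module ℂ B] [ContinuousSMul ℂ B] [CompleteSpace B]
    (ι : A →ₗ[ℂ] F k) (hι : Function.Injective ι) (φ : B ≃ₗ[ℂ] A)
    (hA : ∀ a : A, ∃ M : A →L[ℂ] A, ∀ x, ι (M x) = ι a * ι x)
    (hB : ∀ a : A, ∃ M : B →L[ℂ] B, ∀ x, ι (φ (M x)) = ι a * ι (φ x))
    (hX : ∀ j, ∃ a, ι a = X j) (hc : ∀ n, Continuous fun a => coeff n (ι a)) (g : A)
    (hg : ∀ ε > 0, ∃ y, ‖y‖ < ε ∧ ‖φ y - g‖ < ε) : g = 0 := by
  choose MA hA using hA
  choose MB hB using hB
  choose ξ hX using hX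
  set Γ := (LinearMap.graph φ.toLinearMap).topologicalClosure
  have g1 : ∀ b, (b, φ b) ∈ Γ := fun b => subset_closure rfl
  set J := Γ.comap (LinearMap.inl ℂ B A)
  have Jc : IsClosed (J : Set B) := isClosed_closure.preimage (Continuous.prodMk_left 0)
  have J1 : ∀ b, b ∈ J ↔ ∀ ε > 0, ∃ y, ‖y‖ < ε ∧ ‖φ y - φ b‖ < ε := fun b => by
    have : b ∈ J ↔ (0, φ b) ∈ Γ := ⟨fun h => by simpa using Γ.sub_mem (g1 b) h,
      fun h => by simpa [J] using Γ.sub_mem (g1 b) h⟩
    rw [this]
    refine Metric.mem_closure_iff.trans (forall₂_congr fun ε _ => ⟨?_, fun ⟨y, h1, h2⟩ =>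
      ⟨(y, φ y), rfl, by simpa [dist_eq_norm'] using ⟨h1, h2⟩⟩⟩)
    rintro ⟨⟨y, a⟩, h1, h2⟩
    obtain rfl : a = φ y := h1
    exact ⟨y, by simpa [dist_eq_norm'] using h2⟩
  have H : ∀ b ∈ J, ∀ f, ∃ b' ∈ J, ι (φ b') = f * ι (φ b) := fun b hb f => by
    choose D hD using dec (k := k)
    let fw : List (Fin k) → F k := fun w => w.foldr (fun j u => D u j) f
    have key : ∀ ε > 0, ∃ y z, ‖y‖ ≤ ε ∧ ‖z‖ ≤ ε ∧ ι (φ y - z) = f * ι (φ b) := fun ε hε => by
      obtain ⟨δ, δ0, h1⟩ := solve (fun j => MB (ξ j)) hε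
      obtain ⟨η, η0, h2⟩ := solve (fun j => MA (ξ j)) hε
      choose x t1 t2 using fun w : List (Fin k) => (J1 _).1 (J.smul_mem (constantCoeff (fw w)) hb) _
        (lt_min (δ0 w.length) (η0 w.length))
      obtain ⟨y, t3, t4⟩ := h1 x fun w => (t1 w).le.trans (min_le_left _ _)
      obtain ⟨z, t5, t6⟩ := h2 _ fun w => (t2 w).le.trans (min_le_right _ _)
      refine ⟨y [], z [], t3, t5, sub_eq_zero.1 (uniq (fun w => ι (φ (y w) - z w) - fw w * ι (φ b))
        fun w => ?_)⟩
      have e : fw w * ι (φ b) = C (constantCoeff (fw w)) * ι (φ b) +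
          ∑ j, X j * (fw (j :: w) * ι (φ b)) := by
        conv_lhs => rw [hD (fw w)]
        simp only [add_mul, sum_mul, mul_assoc, fw, List.foldr_cons]
      conv_lhs => rw [t4, t6, e]
      simp only [map_sub, map_add, map_sum, map_smul, hA, hB, hX, smul_eq_C_mul, mul_sub,
        sum_sub_distrib]
      ring
    obtain ⟨y0, z0, -, -, h0⟩ := key 1 one_pos
    refine ⟨φ.symm (φ y0 - z0), (J1 _).2 fun ε hε => ?_, by rwa [φ.apply_symm_apply]⟩
    obtain ⟨y, z, h1, h2, h3⟩ := key _ (half_pos hε)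
    refine ⟨y, by linarith, ?_⟩
    rw [φ.apply_symm_apply, hι (h0.trans h3.symm), sub_sub_cancel]; linarith
  let I : Ideal (F k) := ⟨(J.map (ι ∘ₗ φ.toLinearMap)).toAddSubmonoid, by
    rintro f _ ⟨b, hb, rfl⟩; exact H b hb f⟩
  obtain ⟨r, s, hs⟩ := Submodule.fg_iff_exists_fin_generating_family.1 (IsNoetherian.noetherian I)
  choose γ γ1 γ2 using fun i => show ∃ b ∈ J, ι (φ b) = s i from
    show s i ∈ I from hs ▸ Submodule.subset_span ⟨i, rfl⟩
  have := Jc.completeSpace_coe
  let L : ((Fin r → ℂ) × (Fin k → J)) × J →ₗ[ℂ] B :=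
    ⟨⟨fun p => ∑ i, p.1.1 i • γ i + ∑ j, MB (ξ j) (p.1.2 j) - p.2, fun p q => by
      simp [add_smul, sum_add_distrib]; abel⟩, fun c p => by
      simp [smul_sub, smul_sum, mul_smul]⟩
  have Lc : Continuous L := by
    simp only [L, LinearMap.coe_mk, AddHom.coe_mk]; fun_prop
  have O := fun ε => omt (ε := ε) (LinearMap.ker L) (isClosed_eq Lc continuous_const) fun b => by
    obtain ⟨c, hc⟩ := (Submodule.mem_span_range_iff_exists_fun _).1
      (hs.ge (show ι (φ b) ∈ I from ⟨b, b.2, rfl⟩))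
    choose D hD using fun i => dec (c i)
    choose y y1 y2 using fun i j => H _ (γ1 i) (D i j)
    refine ⟨(fun i => constantCoeff (c i), fun j => ⟨∑ i, y i j, J.sum_mem fun i _ => y1 i j⟩),
      φ.injective (hι ?_)⟩
    simp only [L, LinearMap.coe_mk, AddHom.coe_mk, map_sub, map_add, map_sum, map_smul, hB, hX, y2, γ2,
      map_zero, ← hc, smul_eq_C_mul, smul_eq_mul]
    rw [sum_comm, ← sum_add_distrib, sub_eq_zero]
    refine sum_congr rfl fun i _ => ?_
    conv_rhs => rw [hD i]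
    simp only [add_mul, sum_mul, mul_assoc]
  have C : ∀ n, Continuous fun b : J => coeff n (ι (φ b)) := fun n => by
    induction n using WellFoundedLT.induction with
    | ind n ih =>
      refine continuous_of_continuousAt_zero ((coeff n ∘ₗ ι ∘ₗ φ.toLinearMap ∘ₗ J.subtype))
        (Metric.continuousAt_iff.2 fun ε hε => ?_)
      have : Continuous fun p : (Fin r → ℂ) × (Fin k → J) =>
          ∑ i, p.1 i * coeff n (s i) + ∑ j, coeff n (X j * ι (φ (p.2 j))) := by
        refine Continuous.add (by fun_prop) (continuous_finsetSum _ fun j _ => ?_)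
        simp only [coeff_X_mul']; split_ifs with h
        · exact (ih _ (sub_lt h)).comp (by fun_prop)
        · exact continuous_const
      obtain ⟨η, η0, h1⟩ := Metric.continuousAt_iff.1 (this.continuousAt (x := 0)) ε hε
      obtain ⟨δ, δ0, h2⟩ := O _ (half_pos η0)
      refine ⟨δ, δ0, fun b hb => ?_⟩
      obtain ⟨p, h3, h4⟩ := h2 b (by rwa [dist_zero_right] at hb)
      have h5 : (b : B) = _ := (sub_eq_zero.1 h4).symm
      have := h1 (x := p) (by rw [dist_zero_right]; linarith)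
      simpa [h5, hB, hX, γ2] using this
  have hg' : φ.symm g ∈ J := (J1 _).2 (by simpa using hg)
  have m : ∀ x, MB g x ∈ J := fun x => by
    obtain ⟨b, h1, h2⟩ := H _ hg' (ι (φ x))
    rw [φ.apply_symm_apply, mul_comm, ← hB] at h2
    exact φ.injective (hι h2) ▸ h1
  refine hι ((mul_self_eq_zero.1 (MvPowerSeries.ext fun n => ?_)).trans (map_zero _).symm)
  have := closure_minimal (s := LinearMap.graph φ.toLinearMap) (t := {p : B × A | coeff n (ι (φ (MB g p.1))) =
    coeff n (ι (MA g p.2))}) (fun p hp => by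
      have : p.2 = φ p.1 := hp
      simp [hA, hB, this]) (isClosed_eq (by
      exact (C n).comp (f := fun p : B × A => ⟨MB g p.1, m _⟩) (by fun_prop))
      (by exact (hc n).comp (f := fun p : B × A => MA g p.2) (by fun_prop))) (Γ.sub_mem (g1 (φ.symm g)) hg')
  simpa [hA] using this.symm

end Pool.Agent.H97.FSp
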