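import Mathlib

/-! A parametrisation of a repelling petal: solutions of `Ψ (h + 1) = Ψ h + 1 + E (Ψ h)`. -/

open Complex Metric Set Filter Topology

namespace Pool.Agent.H97.Fatou

/-- concave gauge whose sublevel sets are wide sectors around the negative axis -/
noncomputable def N (v : ℂ) : ℝ := v.re - |v.im| / 3

/-- convex companion gauge -/
noncomputable def P (v : ℂ) : ℝ := v.re + |v.im| / 3

lemma continuous_N : Continuous N := by
  unfold N; fun_prop

lemma N_le_P (v : ℂ) : N v ≤ P v := by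
  unfold N P; have := abs_nonneg v.im; linarith

lemma N_add_le (q w : ℂ) : N (q + w) ≤ P q + N w := by
  unfold N P
  simp only [add_re, add_im]
  have : |w.im| ≤ |q.im + w.im| + |q.im| := by
    have := abs_sub (q.im + w.im) q.im
    simpa using this
  linarith

lemma P_add_le (q w : ℂ) : P (q + w) ≤ P q + P w := by
  unfold P
  simp only [add_re, add_im]
  have := abs_add_le q.im w.im
  linarith

lemma P_le (w : ℂ) : P w ≤ 4 / 3 * ‖w‖ := by
  unfold P
  have h1 := re_le_norm w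
  have h2 := abs_im_le_norm w
  linarith

lemma neg_N_le (w : ℂ) : -N w ≤ 4 / 3 * ‖w‖ := by
  unfold N
  have h1 := abs_re_le_norm w
  have h2 := abs_im_le_norm w
  have h3 := neg_abs_le w.re
  linarith

lemma N_add_le' (a b : ℂ) : N (a + b) ≤ N a + 4 / 3 * ‖b‖ := by
  have := N_add_le b a
  have h2 := P_le b
  rw [add_comm]; linarith

lemma N_smul (t : ℝ) (ht : 0 ≤ t) (u : ℂ) : N (t • u) = t * N u := by
  unfold N
  simp only [smul_re, smul_im, smul_eq_mul, abs_mul, abs_of_nonneg ht]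
  ring

lemma N_ball {h w : ℂ} (hh : |h.re| ≤ 2) (hw : ‖w - h‖ ≤ (‖h‖ + 2) / 8) : N w ≤ 3 := by
  have h1 := N_add_le' h (w - h)
  have h2 : h + (w - h) = w := by ring
  rw [h2] at h1
  have h3 := norm_le_abs_re_add_abs_im h
  have h4 := le_abs_self h.re
  have h5 := abs_nonneg h.im
  unfold N at h1 ⊢
  linarith

section core

variable (E : ℂ → ℂ) (a : ℝ)

/-- approximate backward orbit -/
noncomputable def q : ℕ → ℂ
  | 0 => ((-(a + 6) : ℝ) : ℂ)
  | m + 1 => q m - 1 - E (q m)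

/-- the normalised iterates -/
noncomputable def F : ℕ → ℂ → ℂ
  | 0, w => w
  | n + 1, w => F n (w + (E (q E a (n + 1) + w) - E (q E a n)))

/-- the map -/
noncomputable def T (v : ℂ) : ℂ := v + 1 + E v

lemma iter_eq (n : ℕ) (w : ℂ) : q E a 0 + F E a n w = (T E)^[n] (q E a n + w) := by
  induction n generalizing w with
  | zero => simp [F]
  | succ n ih =>
    rw [Function.iterate_succ_apply, F, ih]
    congr 1
    simp only [T, q]
    ring

variable {E a}
variable {L e : ℕ → ℝ}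

/-- the hypotheses on the perturbation -/
structure Hyp (E : ℂ → ℂ) (a : ℝ) (L e : ℕ → ℝ) : Prop where
  diff : ∀ v, N v ≤ -a → DifferentiableAt ℂ E v
  der : ∀ (m : ℕ) (v : ℂ), N v ≤ -(a + m / 2) → ‖deriv E v‖ ≤ L m
  bd : ∀ (m : ℕ) (v : ℂ), N v ≤ -(a + m / 2) → ‖E v‖ ≤ e m
  e_le : ∀ m, e m ≤ 1 / 4
  e_lim : Tendsto e atTop (𝓝 0)
  L_nonneg : ∀ m, 0 ≤ L m
  L_sum : ∀ n, ∑ m ∈ Finset.range n, L m ≤ 1 / 32

lemma Hyp.P_q (H : Hyp E a L e) (n : ℕ) : P (q E a n) ≤ -(a + 6 + n / 2) := by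
  induction n with
  | zero => simp [q, P]
  | succ n ih =>
    have h1 : ‖E (q E a n)‖ ≤ 1 / 4 :=
      (H.bd n _ ((N_le_P _).trans (by linarith))).trans (H.e_le n)
    have h2 : q E a (n + 1) = q E a n + (-1 + -E (q E a n)) := by simp only [q]; ring
    have h3 := P_add_le (q E a n) (-1 + -E (q E a n))
    have h4 := P_add_le (-1) (-E (q E a n))
    have h5 := P_le (-E (q E a n))
    rw [norm_neg] at h5
    have h6 : P (-1) = -1 := by simp [P]
    rw [h2]
    push_cast
    linarith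

lemma Hyp.E_q (H : Hyp E a L e) (n : ℕ) : ‖E (q E a n)‖ ≤ e n :=
  H.bd n _ ((N_le_P _).trans (by have := H.P_q n; linarith))

lemma Hyp.a_le (H : Hyp E a L e) {m : ℕ} {v : ℂ} (hv : N v ≤ -(a + m / 2)) : N v ≤ -a := by
  have : (0 : ℝ) ≤ m / 2 := by positivity
  linarith

/-- size of the increment -/
lemma Hyp.delta_le (H : Hyp E a L e) (n : ℕ) {w : ℂ} (hw : N w ≤ 3) :
    ‖E (q E a (n + 1) + w) - E (q E a n)‖ ≤ L n * (‖w‖ + 2) := by
  set u : ℂ := w - 1 - E (q E a n) with hu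
  have hE : ‖E (q E a n)‖ ≤ 1 / 4 := (H.E_q n).trans (H.e_le n)
  have hNu : N u ≤ 4 := by
    have h1 := N_add_le' w (-1 - E (q E a n))
    have h2 : w + (-1 - E (q E a n)) = u := by rw [hu]; ring
    have h3 : ‖-1 - E (q E a n)‖ ≤ 1 + 1 / 4 := by
      refine (norm_sub_le _ _).trans ?_
      simp only [norm_neg, norm_one]; linarith
    rw [h2] at h1
    have h4 := N_add_le (-1 - E (q E a n)) w
    have h5 : -1 - E (q E a n) + w = u := by rw [hu]; ring
    have h6 := P_add_le (-1) (-E (q E a n))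
    have h7 := P_le (-E (q E a n))
    rw [norm_neg] at h7
    have h8 : P (-1) = -1 := by simp [P]
    rw [h5] at h4
    rw [← sub_eq_add_neg] at h6
    linarith
  have hseg : ∀ x ∈ segment ℝ (q E a n) (q E a n + u), N x ≤ -(a + n / 2) := by
    intro x hx
    rw [segment_eq_image'] at hx
    obtain ⟨t, ⟨ht0, ht1⟩, rfl⟩ := hx
    simp only [add_sub_cancel_left]
    have h1 := N_add_le (q E a n) (t • u)
    rw [N_smul t ht0] at h1
    have h2 := H.P_q n
    have h3 : t * N u ≤ 4 := by nlinarith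
    linarith
  have key := (convex_segment (q E a n) (q E a n + u)).norm_image_sub_le_of_norm_deriv_le
    (f := E) (C := L n) (fun x hx => H.diff x (H.a_le (hseg x hx)))
    (fun x hx => H.der n x (hseg x hx)) (left_mem_segment _ _ _) (right_mem_segment _ _ _)
  have h1 : q E a n + u = q E a (n + 1) + w := by simp only [q, hu]; ring
  rw [add_sub_cancel_left, h1] at key
  refine key.trans (mul_le_mul_of_nonneg_left ?_ (H.L_nonneg n))
  rw [hu]
  have := norm_sub_le (w - 1) (E (q E a n))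
  have h2 := norm_sub_le w 1
  rw [norm_one] at h2
  linarith

lemma Hyp.N_shift (H : Hyp E a L e) (n : ℕ) {w : ℂ} (hw : N w ≤ 3) :
    N (q E a (n + 1) + w) ≤ -(a + n / 2) := by
  have h1 := N_add_le (q E a (n + 1)) w
  have h2 := H.P_q (n + 1)
  push_cast at h2
  linarith

lemma Hyp.delta_lip (H : Hyp E a L e) (n : ℕ) {h : ℂ} (hh : |h.re| ≤ 2) {w w' : ℂ}
    (hw : ‖w - h‖ ≤ (‖h‖ + 2) / 8) (hw' : ‖w' - h‖ ≤ (‖h‖ + 2) / 8) :
    ‖E (q E a (n + 1) + w) - E (q E a (n + 1) + w')‖ ≤ L n * ‖w - w'‖ := by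
  have hball : ∀ x ∈ closedBall (q E a (n + 1) + h) ((‖h‖ + 2) / 8), N x ≤ -(a + n / 2) := by
    intro x hx
    have h1 : ‖(x - q E a (n + 1)) - h‖ ≤ (‖h‖ + 2) / 8 := by
      rw [mem_closedBall, dist_eq_norm] at hx
      rw [sub_sub]; exact hx
    have := H.N_shift n (N_ball hh h1)
    simpa using this
  have key := (convex_closedBall (q E a (n + 1) + h) ((‖h‖ + 2) / 8)).norm_image_sub_le_of_norm_deriv_le
    (f := E) (C := L n) (fun x hx => H.diff x (H.a_le (hball x hx)))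
    (fun x hx => H.der n x (hball x hx)) (x := q E a (n + 1) + w') (y := q E a (n + 1) + w)
    (by simpa [mem_closedBall, dist_eq_norm] using hw')
    (by simpa [mem_closedBall, dist_eq_norm] using hw)
  simpa using key

/-- the inductive estimates -/
lemma Hyp.ind (H : Hyp E a L e) {h : ℂ} (hh : |h.re| ≤ 2) (n : ℕ) :
    (∀ w, ‖w - h‖ ≤ (‖h‖ + 2) * (1 / 8 - 2 * ∑ m ∈ Finset.range n, L m) →
      ‖F E a n w - w‖ ≤ 2 * (∑ m ∈ Finset.range n, L m) * (‖h‖ + 2) ∧
        DifferentiableAt ℂ (F E a n) w) ∧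
    (∀ w w', ‖w - h‖ ≤ (‖h‖ + 2) * (1 / 8 - 2 * ∑ m ∈ Finset.range n, L m) →
      ‖w' - h‖ ≤ (‖h‖ + 2) * (1 / 8 - 2 * ∑ m ∈ Finset.range n, L m) →
      ‖F E a n w - F E a n w'‖ ≤ (1 + 2 * ∑ m ∈ Finset.range n, L m) * ‖w - w'‖) := by
  induction n with
  | zero =>
    refine ⟨fun w _ => ⟨by simp [F], ?_⟩, fun w w' _ _ => by simp [F]⟩
    exact differentiableAt_id
  | succ n ih =>
    obtain ⟨ih1, ih2⟩ := ih
    set s := ∑ m ∈ Finset.range n, L m with hs
    have hs0 : 0 ≤ s := Finset.sum_nonneg fun m _ => H.L_nonneg m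
    have hs1 : s ≤ 1 / 32 := H.L_sum n
    have hL := H.L_nonneg n
    have hH : 0 < ‖h‖ + 2 := by positivity
    rw [Finset.sum_range_succ, ← hs]
    have step : ∀ w, ‖w - h‖ ≤ (‖h‖ + 2) * (1 / 8 - 2 * (s + L n)) →
        ‖w - h‖ ≤ (‖h‖ + 2) / 8 ∧
        ‖E (q E a (n + 1) + w) - E (q E a n)‖ ≤ 2 * L n * (‖h‖ + 2) ∧
        ‖w + (E (q E a (n + 1) + w) - E (q E a n)) - h‖ ≤ (‖h‖ + 2) * (1 / 8 - 2 * s) := by
      intro w hw
      have h1 : ‖w - h‖ ≤ (‖h‖ + 2) / 8 := by nlinarith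
      have h2 := H.delta_le n (N_ball hh h1)
      have h3 : ‖w‖ ≤ ‖h‖ + ‖w - h‖ := by
        have := norm_add_le h (w - h); simpa using this
      have h4 : ‖E (q E a (n + 1) + w) - E (q E a n)‖ ≤ 2 * L n * (‖h‖ + 2) := by
        refine h2.trans ?_
        have : ‖w‖ + 2 ≤ 2 * (‖h‖ + 2) := by linarith
        nlinarith
      refine ⟨h1, h4, ?_⟩
      have h5 : w + (E (q E a (n + 1) + w) - E (q E a n)) - h =
        (w - h) + (E (q E a (n + 1) + w) - E (q E a n)) := by ring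
      rw [h5]
      refine (norm_add_le _ _).trans ?_
      nlinarith
    refine ⟨fun w hw => ?_, fun w w' hw hw' => ?_⟩
    · obtain ⟨h1, h2, h3⟩ := step w hw
      obtain ⟨h4, h5⟩ := ih1 _ h3
      refine ⟨?_, ?_⟩
      · have h6 : F E a (n + 1) w - w =
            (F E a n (w + (E (q E a (n + 1) + w) - E (q E a n))) -
              (w + (E (q E a (n + 1) + w) - E (q E a n)))) +
              (E (q E a (n + 1) + w) - E (q E a n)) := by
          rw [F]; ring
        rw [h6]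
        refine (norm_add_le _ _).trans ?_
        nlinarith
      · have h7 : DifferentiableAt ℂ (fun w => w + (E (q E a (n + 1) + w) - E (q E a n))) w := by
          refine differentiableAt_id.add (DifferentiableAt.sub_const ?_ _)
          exact (H.diff _ (H.a_le (H.N_shift n (N_ball hh h1)))).comp w
            (differentiableAt_id.const_add _)
        exact h5.comp w h7
    · obtain ⟨h1, h2, h3⟩ := step w hw
      obtain ⟨h1', h2', h3'⟩ := step w' hw'
      have h4 := ih2 _ _ h3 h3'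
      have h5 := H.delta_lip n hh h1 h1'
      simp only [F]
      refine h4.trans ?_
      have h6 : w + (E (q E a (n + 1) + w) - E (q E a n)) -
          (w' + (E (q E a (n + 1) + w') - E (q E a n))) =
          (w - w') + (E (q E a (n + 1) + w) - E (q E a (n + 1) + w')) := by ring
      rw [h6]
      have h7 := norm_add_le (w - w') (E (q E a (n + 1) + w) - E (q E a (n + 1) + w'))
      have h8 := norm_nonneg (w - w')
      have h9 : ‖w - w' + (E (q E a (n + 1) + w) - E (q E a (n + 1) + w'))‖ ≤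
        (1 + L n) * ‖w - w'‖ := by linarith
      have h10 : (1 + 2 * s) * (1 + L n) ≤ 1 + 2 * (s + L n) := by nlinarith
      calc _ ≤ (1 + 2 * s) * ((1 + L n) * ‖w - w'‖) := by gcongr
        _ = ((1 + 2 * s) * (1 + L n)) * ‖w - w'‖ := by ring
        _ ≤ _ := by gcongr

lemma Hyp.small (H : Hyp E a L e) {h : ℂ} (n : ℕ) {w : ℂ} (hw : ‖w - h‖ ≤ (‖h‖ + 2) / 16) :
    ‖w - h‖ ≤ (‖h‖ + 2) * (1 / 8 - 2 * ∑ m ∈ Finset.range n, L m) := by
  have := H.L_sum n
  have hH : 0 < ‖h‖ + 2 := by positivity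
  nlinarith

lemma Hyp.lip2 (H : Hyp E a L e) {h : ℂ} (hh : |h.re| ≤ 2) (n : ℕ) {w w' : ℂ}
    (hw : ‖w - h‖ ≤ (‖h‖ + 2) * (1 / 8 - 2 * ∑ m ∈ Finset.range n, L m))
    (hw' : ‖w' - h‖ ≤ (‖h‖ + 2) * (1 / 8 - 2 * ∑ m ∈ Finset.range n, L m)) :
    ‖F E a n w - F E a n w'‖ ≤ 2 * ‖w - w'‖ := by
  refine ((H.ind hh n).2 w w' hw hw').trans ?_
  have := H.L_sum n
  have := norm_nonneg (w - w')
  nlinarith

lemma Hyp.incr (H : Hyp E a L e) {h : ℂ} (hh : |h.re| ≤ 2) (n : ℕ) {w : ℂ}
    (hw : ‖w - h‖ ≤ (‖h‖ + 2) / 16) :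
    ‖F E a (n + 1) w - F E a n w‖ ≤ 4 * L n * (‖h‖ + 2) := by
  have hH : 0 < ‖h‖ + 2 := by positivity
  have hL := H.L_nonneg n
  have h1 : ‖w - h‖ ≤ (‖h‖ + 2) / 8 := by linarith
  have h2 := H.delta_le n (N_ball hh h1)
  have h3 : ‖w‖ ≤ ‖h‖ + ‖w - h‖ := by
    have := norm_add_le h (w - h); simpa using this
  have h4 : ‖E (q E a (n + 1) + w) - E (q E a n)‖ ≤ 2 * L n * (‖h‖ + 2) := by
    refine h2.trans ?_
    have : ‖w‖ + 2 ≤ 2 * (‖h‖ + 2) := by linarith
    nlinarith
  have h5 := H.small (h := h) (n + 1) hw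
  rw [Finset.sum_range_succ] at h5
  have h6 : ‖w + (E (q E a (n + 1) + w) - E (q E a n)) - h‖ ≤
      (‖h‖ + 2) * (1 / 8 - 2 * ∑ m ∈ Finset.range n, L m) := by
    have h5' : w + (E (q E a (n + 1) + w) - E (q E a n)) - h =
      (w - h) + (E (q E a (n + 1) + w) - E (q E a n)) := by ring
    rw [h5']
    refine (norm_add_le _ _).trans ?_
    nlinarith
  have h7 := H.lip2 hh n h6 (H.small n hw)
  rw [F]
  refine h7.trans ?_
  rw [add_sub_cancel_left]
  linarith

lemma Hyp.summable (H : Hyp E a L e) : Summable L :=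
  summable_of_sum_range_le H.L_nonneg H.L_sum

/-- the limit -/
noncomputable def G (E : ℂ → ℂ) (a : ℝ) (w : ℂ) : ℂ :=
  w + ∑' n, (F E a (n + 1) w - F E a n w)

lemma Hyp.tendsto (H : Hyp E a L e) {h : ℂ} (hh : |h.re| ≤ 2) :
    Tendsto (fun n => F E a n h) atTop (𝓝 (G E a h)) := by
  have hs : Summable fun n => F E a (n + 1) h - F E a n h := by
    refine Summable.of_norm_bounded ((H.summable.mul_left 4).mul_right (‖h‖ + 2)) fun n => ?_
    exact H.incr hh n (by simp; positivity)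
  have h1 := hs.hasSum.tendsto_sum_nat
  have h2 : ∀ n, F E a n h = h + ∑ m ∈ Finset.range n, (F E a (m + 1) h - F E a m h) := by
    intro n
    rw [Finset.sum_range_sub (fun m => F E a m h)]
    simp [F]
  simp only [G]
  refine (h1.const_add h).congr fun n => (h2 n).symm

lemma Hyp.G_diff (H : Hyp E a L e) {h : ℂ} (hh : |h.re| ≤ 2) :
    DifferentiableAt ℂ (G E a) h := by
  have hH : 0 < (‖h‖ + 2) / 16 := by positivity
  have key : DifferentiableOn ℂ (fun w => ∑' n, (F E a (n + 1) w - F E a n w))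
      (ball h ((‖h‖ + 2) / 16)) := by
    refine differentiableOn_tsum_of_summable_norm
      ((H.summable.mul_left 4).mul_right (‖h‖ + 2)) (fun n w hw => ?_) isOpen_ball
      (fun n w hw => ?_)
    · have hw' : ‖w - h‖ ≤ (‖h‖ + 2) / 16 := (mem_ball_iff_norm.1 hw).le
      exact ((((H.ind hh (n + 1)).1 w (H.small _ hw')).2).sub
        (((H.ind hh n).1 w (H.small _ hw')).2)).differentiableWithinAt
    · exact H.incr hh n (mem_ball_iff_norm.1 hw).le
  exact differentiableAt_id.add (key.differentiableAt (ball_mem_nhds h hH))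

lemma Hyp.G_close (H : Hyp E a L e) {h : ℂ} (hh : |h.re| ≤ 2) :
    ‖G E a h - h‖ ≤ (‖h‖ + 2) / 16 := by
  have h1 := ((H.tendsto hh).sub_const h).norm
  refine le_of_tendsto' h1 fun n => ?_
  have h2 := ((H.ind hh n).1 h (H.small n (by simp; positivity))).1
  have := H.L_sum n
  have hH : 0 < ‖h‖ + 2 := by positivity
  nlinarith

lemma Hyp.G_N (H : Hyp E a L e) {h : ℂ} (hh : |h.re| ≤ 2) :
    N (q E a 0 + G E a h) ≤ -(a + 3) := by
  have h1 := N_add_le (q E a 0) (G E a h)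
  have h2 := H.P_q 0
  have hH : 0 < ‖h‖ + 2 := by positivity
  have h3 := N_ball hh (w := G E a h) (by have := H.G_close hh; linarith)
  simp only [Nat.cast_zero, zero_div, add_zero] at h2
  linarith

lemma Hyp.G_eq (H : Hyp E a L e) {h : ℂ} (hh : |h.re| ≤ 1) :
    q E a 0 + G E a (h + 1) = T E (q E a 0 + G E a h) := by
  have hh2 : |h.re| ≤ 2 := by linarith
  have hh1 : |(h + 1).re| ≤ 2 := by
    simp only [add_re, one_re]
    have := abs_add_le h.re 1
    rw [abs_one] at this; linarith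
  have hT : ContinuousAt (T E) (q E a 0 + G E a h) := by
    have := (H.diff _ ((H.G_N hh2).trans (by linarith))).continuousAt
    exact (continuousAt_id.add continuousAt_const).add this
  have h1 : Tendsto (fun n => T E (q E a 0 + F E a n h)) atTop (𝓝 (T E (q E a 0 + G E a h))) :=
    hT.tendsto.comp ((H.tendsto hh2).const_add _)
  have h2 : ∀ n, T E (q E a 0 + F E a n h) =
      q E a 0 + F E a (n + 1) (h + 1 + E (q E a n)) := by
    intro n
    rw [iter_eq, iter_eq, ← Function.iterate_succ_apply' (T E)]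
    congr 1
    simp only [q]; ring
  have h3 : Tendsto (fun n => F E a (n + 1) (h + 1)) atTop (𝓝 (G E a (h + 1))) :=
    (H.tendsto hh1).comp (tendsto_add_atTop_nat 1)
  have h4 : Tendsto (fun n => F E a (n + 1) (h + 1 + E (q E a n)) - F E a (n + 1) (h + 1))
      atTop (𝓝 0) := by
    rw [tendsto_zero_iff_norm_tendsto_zero]
    have he : ∀ᶠ n in atTop, e n < 1 / 8 := H.e_lim.eventually (gt_mem_nhds (by norm_num))
    refine squeeze_zero' (Eventually.of_forall fun n => norm_nonneg _) ?_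
      (by simpa using H.e_lim.const_mul 2)
    filter_upwards [he] with n hn
    have h5 := H.E_q n
    have h6 := norm_nonneg (h + 1)
    have h7 := H.lip2 hh1 (n + 1) (w := h + 1 + E (q E a n)) (w' := h + 1)
      (H.small _ (by rw [add_sub_cancel_left]; linarith)) (H.small _ (by simp; positivity))
    rw [add_sub_cancel_left] at h7
    linarith
  have h5 := (h4.add h3).const_add (q E a 0)
  simp only [sub_add_cancel, zero_add] at h5
  exact tendsto_nhds_unique h5 (h1.congr h2)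

end core

/-- Main existence statement. -/
theorem exists_param (E : ℂ → ℂ) (R C κ : ℝ) (hκ : 0 < κ)
    (hd : ∀ v, N v < -R → DifferentiableAt ℂ E v)
    (hb : ∀ v, N v < -R → ‖E v‖ ≤ C * (-N v) ^ (-κ)) :
    ∃ (Ψ : ℂ → ℂ) (c : ℝ), (∀ h : ℂ, |h.re| ≤ 2 → DifferentiableAt ℂ Ψ h ∧ N (Ψ h) < -R ∧
        ‖h‖ / 2 - c ≤ ‖Ψ h‖) ∧
      ∀ h : ℂ, |h.re| ≤ 1 → Ψ (h + 1) = Ψ h + 1 + E (Ψ h) := by
  -- normalise constants
  set C' := max C 0 with hC'
  have hC0 : 0 ≤ C' := le_max_right _ _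
  set R' := max R 1 with hR'
  have hR1 : 1 ≤ R' := le_max_right _ _
  have hRR : R ≤ R' := le_max_left _ _
  have hb' : ∀ v (ρ : ℝ), R' < ρ → N v ≤ -ρ → ‖E v‖ ≤ C' * ρ ^ (-κ) := by
    intro v ρ hρ hv
    have h1 := hb v (by linarith)
    have h2 : (-N v) ^ (-κ) ≤ ρ ^ (-κ) :=
      Real.rpow_le_rpow_of_nonpos (by linarith) (by linarith) (by linarith)
    have h3 : 0 ≤ (-N v) ^ (-κ) := Real.rpow_nonneg (by linarith) _
    calc _ ≤ C * (-N v) ^ (-κ) := h1
      _ ≤ C' * (-N v) ^ (-κ) := by gcongr; exact le_max_left _ _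
      _ ≤ _ := by gcongr
  have hder : ∀ v (ρ : ℝ), 2 * R' < ρ → N v ≤ -ρ →
      ‖deriv E v‖ ≤ C' * (ρ / 2) ^ (-κ) / (ρ / 4) := by
    intro v ρ hρ hv
    have hball : ∀ z ∈ closedBall v (ρ / 4), N z ≤ -(ρ / 2) := by
      intro z hz
      have h1 := N_add_le' v (z - v)
      rw [add_sub_cancel] at h1
      have h2 := mem_closedBall_iff_norm.1 hz
      linarith
    refine norm_deriv_le_of_forall_mem_sphere_norm_le (by linarith) ?_ fun z hz => ?_
    · refine DifferentiableOn.diffContOnCl ?_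
      rw [closure_ball _ (by linarith)]
      exact fun z hz => (hd z (by have := hball z hz; linarith)).differentiableWithinAt
    · exact hb' z _ (by linarith) (hball z (sphere_subset_closedBall hz))
  -- the summable majorant
  set D : ℝ := C' * 4 ^ κ * 8 with hD
  have hD0 : 0 ≤ D := by positivity
  set u : ℕ → ℝ := fun m => D * (m : ℝ) ^ (-(1 + κ)) with hu
  have hus : Summable u := (Real.summable_nat_rpow.2 (by linarith)).mul_left D
  have hu0 : ∀ m, 0 ≤ u m := fun m => by positivity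
  have htail := tendsto_sum_nat_add u
  have he0 : Tendsto (fun m : ℕ => C' * ((m : ℝ) / 2) ^ (-κ)) atTop (𝓝 0) := by
    have h1 : Tendsto (fun m : ℕ => (m : ℝ) / 2) atTop atTop :=
      tendsto_natCast_atTop_atTop.atTop_div_const (by norm_num)
    simpa using ((tendsto_rpow_neg_atTop hκ).comp h1).const_mul C'
  have ev1 : ∀ᶠ M in atTop, ∑' k, u (k + M) < 1 / 32 := htail.eventually (gt_mem_nhds (by norm_num))
  have ev2 : ∀ᶠ m : ℕ in atTop, C' * ((m : ℝ) / 2) ^ (-κ) < 1 / 4 :=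
    he0.eventually (gt_mem_nhds (by norm_num))
  have ev3 : ∀ᶠ m : ℕ in atTop, 4 * R' < (m : ℝ) :=
    tendsto_natCast_atTop_atTop.eventually (eventually_gt_atTop _)
  obtain ⟨M, hM1, hM2, hM3⟩ := (ev1.and ((eventually_forall_ge_atTop.2 ev2).and ev3)).exists
  have H : Hyp E ((M : ℝ) / 2) (fun m => u (m + M)) (fun m => C' * (((m + M : ℕ) : ℝ) / 2) ^ (-κ)) := by
    refine ⟨fun v hv => hd v (by linarith), fun m v hv => ?_, fun m v hv => ?_, fun m => ?_, ?_,
      fun m => hu0 _, fun n => ?_⟩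
    · have hm : (0 : ℝ) ≤ m := Nat.cast_nonneg m
      have h1 := hder v (((m + M : ℕ) : ℝ) / 2) (by push_cast; linarith) (by push_cast; linarith)
      refine h1.trans (le_of_eq ?_)
      have hx : (0 : ℝ) < ((m + M : ℕ) : ℝ) := by push_cast; linarith
      simp only [hu, hD]
      generalize ((m + M : ℕ) : ℝ) = x at hx
      have h2 : x / 2 / 2 = x / 4 := by ring
      rw [h2, Real.div_rpow hx.le (by norm_num), neg_add, Real.rpow_add hx, Real.rpow_neg_one,
        Real.rpow_neg (show (0 : ℝ) ≤ 4 by norm_num)]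
      field_simp
      ring
    · have hm : (0 : ℝ) ≤ m := Nat.cast_nonneg m
      exact hb' v _ (by push_cast; linarith) (by push_cast; linarith)
    · exact (hM2 _ (Nat.le_add_left _ _)).le
    · exact he0.comp (tendsto_add_atTop_nat M)
    · refine le_trans ?_ hM1.le
      exact ((summable_nat_add_iff M).2 hus).sum_le_tsum _ fun m _ => hu0 _
  refine ⟨fun h => q E (M / 2) 0 + G E (M / 2) h, ‖q E (M / 2) 0‖ + 1, fun h hh => ⟨?_, ?_, ?_⟩,
    fun h hh => H.G_eq hh⟩
  · exact (H.G_diff hh).const_add _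
  · have := H.G_N hh
    linarith
  · have h1 := H.G_close hh
    have h2 : ‖h‖ ≤ ‖q E (M / 2) 0 + G E (M / 2) h‖ + ‖q E (M / 2) 0‖ + ‖G E (M / 2) h - h‖ := by
      have h3 : h = (q E (M / 2) 0 + G E (M / 2) h) - q E (M / 2) 0 - (G E (M / 2) h - h) := by
        ring
      calc ‖h‖ = ‖(q E (M / 2) 0 + G E (M / 2) h) - q E (M / 2) 0 - (G E (M / 2) h - h)‖ := by
            rw [← h3]
        _ ≤ _ := (norm_sub_le _ _).trans (by gcongr; exact norm_sub_le _ _)
    have := norm_nonneg h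
    linarith

end Pool.Agent.H97.Fatou
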