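import Mathlib

/-! Lower bound for the n-th diameter. -/

set_option autoImplicit false
open Complex Metric Set Filter Topology Polynomial

namespace Pool.Agent.H97.Fek

noncomputable def vp {n : ℕ} (w : Fin n → ℂ) : ℝ := ∏ i, ∏ j ∈ Finset.Ioi i, ‖w i - w j‖

noncomputable def V (E : Set ℂ) (n : ℕ) : ℝ := sSup (vp '' {w : Fin n → ℂ | ∀ i, w i ∈ E})

noncomputable def dn (E : Set ℂ) (n : ℕ) : ℝ := V E n ^ ((2 : ℝ) / (n * (n - 1)))

lemma vp_det {n : ℕ} (w : Fin n → ℂ) : vp w = ‖(Matrix.vandermonde w).det‖ := by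
  simp only [vp, Matrix.det_vandermonde, norm_prod, norm_sub_rev]

lemma vp_cont (n : ℕ) : Continuous (vp (n := n)) := by unfold vp; fun_prop

lemma cpt {E : Set ℂ} (hE : IsCompact E) (n : ℕ) : IsCompact {w : Fin n → ℂ | ∀ i, w i ∈ E} :=
  isCompact_pi_infinite fun _ => hE

lemma le_V {E : Set ℂ} (hE : IsCompact E) {n : ℕ} {w : Fin n → ℂ} (hw : ∀ i, w i ∈ E) :
    vp w ≤ V E n := le_csSup ((cpt hE n).image (vp_cont n)).bddAbove ⟨w, hw, rfl⟩

lemma V_nonneg (E : Set ℂ) (n : ℕ) : 0 ≤ V E n :=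
  Real.sSup_nonneg (by rintro _ ⟨w, -, rfl⟩; rw [vp_det]; exact norm_nonneg _)

lemma vp_le {E : Set ℂ} {q : ℂ[X]} (hq : q.Monic) {j : ℕ} (hj : 0 < j) (hd : q.natDegree = j)
    {R s : ℝ} (hR : 1 ≤ R) (hs0 : 0 < s) (hs1 : s ≤ 1) (hE : ∀ z ∈ E, ‖z‖ ≤ R)
    (hqs : ∀ z ∈ E, ‖q.eval z‖ ≤ s ^ j) {m : ℕ} {w : Fin m → ℂ} (hw : ∀ i, w i ∈ E) :
    vp w ≤ (m * (R / s) ^ j) ^ m * s ^ (∑ k ∈ Finset.range m, k) := by
  have hb : ∀ k : ℕ, ∀ z ∈ E, ‖(X ^ (k % j) * q ^ (k / j)).eval z‖ ≤ (R / s) ^ j * s ^ k := by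
    intro k z hz
    rw [eval_mul, eval_pow, eval_pow, eval_X, norm_mul, norm_pow, norm_pow]
    have h1 : k % j ≤ j := (Nat.mod_lt k hj).le
    calc _ ≤ R ^ (k % j) * (s ^ j) ^ (k / j) := by gcongr; exacts [hE z hz, hqs z hz]
      _ = (R / s) ^ (k % j) * s ^ k := by
        conv_rhs => rw [← Nat.mod_add_div k j, pow_add s, pow_mul, Nat.mod_add_div, div_pow]
        field_simp
      _ ≤ _ := by
        gcongr
        exact (one_le_div hs0).2 (hs1.trans hR)
  rw [vp_det, Matrix.det_eval_matrixOfPolynomials_eq_det_vandermonde w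
    (fun k : Fin m => X ^ (k % j) * q ^ (k / j)) (fun k => by
      rw [(monic_X_pow _).natDegree_mul (hq.pow _), natDegree_X_pow, hq.natDegree_pow, hd,
        mul_comm, Nat.mod_add_div]) (fun k => (monic_X_pow _).mul (hq.pow _)), Matrix.det_apply]
  refine (norm_sum_le_of_le _ (n := fun _ => ((R / s) ^ j) ^ m * s ^ (∑ k ∈ Finset.range m, k))
    fun σ _ => ?_).trans ?_
  · have : ‖Equiv.Perm.sign σ • ∏ i : Fin m, (Matrix.of fun (i : Fin m) (k : Fin m) =>
        (X ^ (k % j) * q ^ (k / j)).eval (w i)) (σ i) i‖ = ∏ i : Fin m,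
        ‖(X ^ (i % j) * q ^ (i / j)).eval (w (σ i))‖ := by
      rcases Int.units_eq_one_or (Equiv.Perm.sign σ) with h | h <;> simp [h, norm_prod]
    rw [this]
    refine (Finset.prod_le_prod (fun _ _ => norm_nonneg _) fun (i : Fin m) _ =>
      hb i _ (hw (σ i))).trans (le_of_eq ?_)
    rw [Finset.prod_mul_distrib, Finset.prod_const, Finset.card_univ, Fintype.card_fin,
      Finset.prod_pow_eq_pow_sum, Fin.sum_univ_eq_sum_range (fun k => k)]
  · rw [Finset.sum_const, Finset.card_univ, Fintype.card_perm, Fintype.card_fin, nsmul_eq_mul,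
      mul_pow, mul_assoc]
    gcongr
    exact_mod_cast Nat.factorial_le_pow m

lemma cheb {E : Set ℂ} (hE : IsCompact E) (hd : Tendsto (dn E) atTop (𝓝 1)) {q : ℂ[X]}
    (hq : q.Monic) {T : ℝ} (hT : ∀ z ∈ E, ‖q.eval z‖ ≤ T) (hne : E.Nonempty) : 1 ≤ T := by
  rcases Nat.eq_zero_or_pos q.natDegree with h0 | hj
  · obtain ⟨z, hz⟩ := hne
    simpa [hq.natDegree_eq_zero.1 h0] using hT z hz
  by_contra hlt
  push Not at hlt
  set j := q.natDegree
  have hj1 : (1 : ℝ) ≤ j := by exact_mod_cast hj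
  obtain ⟨s, hs0, hs1, hs⟩ : ∃ s : ℝ, 0 < s ∧ s < 1 ∧ T ≤ s ^ j := by
    have h1 : 0 < 1 - max T (1 / 2) := sub_pos.2 (max_lt hlt (by norm_num))
    have h2 : (1 - max T (1 / 2)) / j ≤ 1 / 2 :=
      (div_le_self h1.le hj1).trans (by linarith [le_max_right T (1 / 2)])
    refine ⟨1 + -((1 - max T (1 / 2)) / j), by linarith, by linarith [div_pos h1 (by linarith : (0 : ℝ) < j)], ?_⟩
    refine le_trans ?_ (one_add_mul_le_pow (by linarith) j)
    have : (j : ℝ) * -((1 - max T (1 / 2)) / j) = -(1 - max T (1 / 2)) := by field_simp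
    rw [this]; linarith [le_max_left T (1 / 2)]
  obtain ⟨R0, hR0⟩ := hE.isBounded.exists_norm_le
  set K := (max 1 R0 / s) ^ j with hK
  set s' := (1 + s) / 2 with hs'
  have hρ : 1 < s' / s := (one_lt_div hs0).2 (by linarith)
  have e1 : ∀ᶠ i : ℕ in atTop, s' < dn E (2 * i + 1) :=
    (hd.comp (tendsto_atTop_mono (fun i => by simp only [id]; omega) tendsto_id)).eventually
      (lt_mem_nhds (by linarith))
  have hK0 : 0 < K := by positivity
  have e2 := (tendsto_pow_const_div_const_pow_of_one_lt 1 hρ).eventually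
    (gt_mem_nhds (show 0 < 1 / (3 * K) by positivity))
  obtain ⟨i, hi1, hi2, hi3⟩ := (e1.and (e2.and (eventually_ge_atTop 1))).exists
  have hsum : ∑ k ∈ Finset.range (2 * i + 1), k = i * (2 * i + 1) := by
    have := Finset.sum_range_id_mul_two (2 * i + 1)
    simp only [Nat.add_sub_cancel] at this
    nlinarith
  have hV : V E (2 * i + 1) ≤ ((2 * i + 1 : ℕ) * K) ^ (2 * i + 1) * s ^ (i * (2 * i + 1)) := by
    refine Real.sSup_le ?_ (by positivity)
    rintro _ ⟨w, hw, rfl⟩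
    rw [← hsum]
    exact vp_le hq hj rfl (le_max_left _ _) hs0 hs1.le
      (fun z hz => (hR0 z hz).trans (le_max_right _ _)) (fun z hz => (hT z hz).trans hs) hw
  have hi0 : (1 : ℝ) ≤ i := by exact_mod_cast hi3
  have h3 : s' ^ (i * (2 * i + 1)) < V E (2 * i + 1) := by
    have := pow_lt_pow_left₀ hi1 (by positivity) (show i * (2 * i + 1) ≠ 0 by positivity)
    rwa [dn, ← Real.rpow_natCast (_ ^ _), ← Real.rpow_mul (V_nonneg _ _),
      show (2 : ℝ) / (((2 * i + 1 : ℕ) : ℝ) * (((2 * i + 1 : ℕ) : ℝ) - 1)) *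
        ((i * (2 * i + 1) : ℕ) : ℝ) = 1 by push_cast; field_simp; ring, Real.rpow_one] at this
  have h4 : ((s' / s) ^ i) ^ (2 * i + 1) < ((2 * i + 1 : ℕ) * K) ^ (2 * i + 1) := by
    rw [← pow_mul, div_pow, div_lt_iff₀ (by positivity)]
    exact h3.trans_le hV
  have h5 := lt_of_pow_lt_pow_left₀ _ (by positivity) h4
  rw [pow_one, div_lt_div_iff₀ (by positivity) (by positivity)] at hi2
  push_cast at h5
  nlinarith

noncomputable def sn {E : Set ℂ} (hE : IsCompact E) : Seminorm ℂ ℂ[X] :=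
  haveI : CompactSpace E := isCompact_iff_compactSpace.1 hE
  (normSeminorm ℂ C(E, ℂ)).comp (toContinuousMapOnAlgHom E).toLinearMap

lemma exists_fun {E : Set ℂ} (hE : IsCompact E) (hd : Tendsto (dn E) atTop (𝓝 1))
    (hne : E.Nonempty) (j : ℕ) : ∃ L : ℂ[X] →ₗ[ℂ] ℂ, (∀ m < j, L (X ^ m) = 0) ∧ L (X ^ j) = 1 ∧
      ∀ (p : ℂ[X]) (M : ℝ), (∀ z ∈ E, ‖p.eval z‖ ≤ M) → ‖L p‖ ≤ M := by
  have : CompactSpace E := isCompact_iff_compactSpace.1 hE
  obtain ⟨L, hL, hb⟩ := Module.Dual.exists_extension_of_le_seminorm (degreeLE ℂ j)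
    ((lcoeff ℂ j).domRestrict _) (p := sn hE) fun p => by
      change ‖p.1.coeff j‖ ≤ ‖p.1.toContinuousMapOn E‖
      by_cases h : p.1.coeff j = 0
      · simp [h]
      have hdeg : p.1.natDegree = j :=
        natDegree_eq_of_le_of_coeff_ne_zero (natDegree_le_of_degree_le (mem_degreeLE.1 p.2)) h
      have hl : p.1.leadingCoeff = p.1.coeff j := by rw [leadingCoeff, hdeg]
      have := cheb hE hd (q := p.1 * C (p.1.leadingCoeff)⁻¹)
        (monic_mul_leadingCoeff_inv fun h0 => h (by simp [h0]))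
        (T := ‖p.1.toContinuousMapOn E‖ / ‖p.1.coeff j‖) (fun z hz => by
          rw [eval_mul, eval_C, norm_mul, norm_inv, hl, ← div_eq_mul_inv]
          gcongr
          exact (p.1.toContinuousMapOn E).norm_coe_le_norm ⟨z, hz⟩) hne
      rwa [one_le_div (norm_pos_iff.2 h)] at this
  have hX : ∀ m ≤ j, L (X ^ m) = (X ^ m : ℂ[X]).coeff j := fun m hm =>
    hL ⟨X ^ m, mem_degreeLE.2 (by rw [degree_X_pow]; exact_mod_cast hm)⟩
  refine ⟨L, fun m hm => by rw [hX m hm.le, coeff_X_pow, if_neg hm.ne'], by simp [hX j le_rfl],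
    fun p M hM => (hb p).trans ?_⟩
  change ‖p.toContinuousMapOn E‖ ≤ M
  obtain ⟨z, hz⟩ := hne
  exact (ContinuousMap.norm_le _ ((norm_nonneg _).trans (hM z hz))).2 fun x => hM x x.2

lemma tensor {E : Set ℂ} (hne : E.Nonempty) {n : ℕ} (L : Fin n → ℂ[X] →ₗ[ℂ] ℂ)
    (hL : ∀ i (p : ℂ[X]) (M : ℝ), (∀ z ∈ E, ‖p.eval z‖ ≤ M) → ‖L i p‖ ≤ M)
    {ι : Type*} (S : Finset ι) (c : ι → ℂ) (β : ι → Fin n → ℕ) {M : ℝ}
    (hM : ∀ w : Fin n → ℂ, (∀ i, w i ∈ E) → ‖∑ b ∈ S, c b * ∏ i, w i ^ β b i‖ ≤ M) :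
    ‖∑ b ∈ S, c b * ∏ i, L i (X ^ β b i)‖ ≤ M := by
  have key : ∀ T : Finset (Fin n), ∀ w : Fin n → ℂ, (∀ i, w i ∈ E) →
      ‖∑ b ∈ S, c b * ∏ i, if i ∈ T then L i (X ^ β b i) else w i ^ β b i‖ ≤ M := by
    intro T
    induction T using Finset.induction_on with
    | empty => simpa using hM
    | insert a T ha ih =>
      intro w hw
      set r : ι → ℂ := fun b => c b * ∏ i ∈ Finset.univ.erase a,
        if i ∈ T then L i (X ^ β b i) else w i ^ β b i with hr
      have := hL a (∑ b ∈ S, r b • X ^ β b a) M fun z hz => by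
        have h := ih (Function.update w a z) fun i => by
          by_cases hi : i = a
          · simpa [hi] using hz
          · simpa [hi] using hw i
        convert h using 2
        rw [eval_finsetSum]
        refine Finset.sum_congr rfl fun b _ => ?_
        rw [← Finset.mul_prod_erase _ _ (Finset.mem_univ a), if_neg ha, Function.update_self,
          eval_smul, eval_pow, eval_X, smul_eq_mul, hr, mul_assoc, mul_comm (z ^ _)]
        congr 2
        refine Finset.prod_congr rfl fun i hi => ?_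
        rw [Function.update_of_ne (Finset.ne_of_mem_erase hi)]
      convert this using 2
      rw [map_sum]
      refine Finset.sum_congr rfl fun b _ => ?_
      rw [← Finset.mul_prod_erase _ _ (Finset.mem_univ a), if_pos (Finset.mem_insert_self a T),
        map_smul, smul_eq_mul, hr, mul_assoc, mul_comm (L a _)]
      congr 2
      refine Finset.prod_congr rfl fun i hi => ?_
      simp [Finset.ne_of_mem_erase hi]
  obtain ⟨z, hz⟩ := hne
  simpa using key Finset.univ (fun _ => z) fun _ => hz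


lemma coeff_le {E : Set ℂ} (hE : IsCompact E) (hd : Tendsto (dn E) atTop (𝓝 1))
    (hne : E.Nonempty) {n D : ℕ} {Q : MvPolynomial (Fin n) ℂ} (hQ : Q.IsHomogeneous D) {M : ℝ}
    (hM : ∀ w : Fin n → ℂ, (∀ i, w i ∈ E) → ‖MvPolynomial.eval w Q‖ ≤ M) {α : Fin n →₀ ℕ}
    (hα : α ∈ Q.support) : ‖Q.coeff α‖ ≤ M := by
  choose L h0 h1 hL using exists_fun hE hd hne
  have := tensor hne (fun i => L (α i)) (fun i => hL _) Q.support (fun b => Q.coeff b)
    (fun b i => b i) (M := M) fun w hw => by simpa only [MvPolynomial.eval_eq'] using hM w hw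
  rwa [Finset.sum_eq_single α, Finset.prod_eq_one fun i _ => h1 _, mul_one] at this
  · intro b hb hne
    have hdeg : ∀ c ∈ Q.support, ∑ i, c i = D := fun c hc => by
      rw [← Finsupp.degree_eq_sum]
      by_contra h
      exact MvPolynomial.mem_support_iff.1 hc (hQ.coeff_eq_zero h)
    obtain ⟨i, hi⟩ : ∃ i, b i < α i := by
      by_contra h
      push Not at h
      refine hne (Finsupp.ext fun i => ?_)
      exact ((Finset.sum_eq_sum_iff_of_le fun i _ => h i).1
        ((hdeg α hα).trans (hdeg b hb).symm) i (Finset.mem_univ i)).symm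
    rw [Finset.prod_eq_zero (Finset.mem_univ i) (h0 _ _ hi), mul_zero]
  · exact fun h => absurd hα h

lemma hom_le {E : Set ℂ} (hE : IsCompact E) (hd : Tendsto (dn E) atTop (𝓝 1))
    (hne : E.Nonempty) {n N : ℕ} {P : MvPolynomial (Fin n) ℂ} (hP : P.IsHomogeneous N) {M : ℝ}
    (hM : ∀ w : Fin n → ℂ, (∀ i, w i ∈ E) → ‖MvPolynomial.eval w P‖ ≤ M) {u : Fin n → ℂ}
    (hu : ∀ i, ‖u i‖ = 1) : ‖MvPolynomial.eval u P‖ ≤ M := by
  obtain ⟨z, hz⟩ := id hne
  have hM0 : 0 ≤ M := (norm_nonneg _).trans (hM (fun _ => z) fun _ => hz)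
  have key : ∀ k : ℕ, ‖MvPolynomial.eval u P‖ ^ k ≤ (N * k + 1) ^ n * M ^ k := fun k => by
    have hQ := hP.pow k
    rw [← norm_pow, ← map_pow, MvPolynomial.eval_eq']
    refine (norm_sum_le_of_le _ (n := fun _ => M ^ k) fun α hα => ?_).trans ?_
    · rw [norm_mul, norm_prod, Finset.prod_eq_one fun i _ => by rw [norm_pow, hu, one_pow], mul_one]
      exact coeff_le hE hd hne hQ (fun w hw => by
        rw [map_pow, norm_pow]; exact pow_le_pow_left₀ (norm_nonneg _) (hM w hw) k) hα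
    · rw [Finset.sum_const, nsmul_eq_mul]
      gcongr
      have : (P ^ k).support.card ≤ (Fintype.piFinset fun _ : Fin n =>
          Finset.range (N * k + 1)).card := by
        refine Finset.card_le_card_of_injOn (fun α => ⇑α) (fun α hα => ?_)
          fun a _ b _ h => DFunLike.coe_injective h
        simp only [Finset.mem_coe, Fintype.mem_piFinset, Finset.mem_range]
        intro i
        have h1 : α.degree = N * k := by
          by_contra h
          exact MvPolynomial.mem_support_iff.1 hα (hQ.coeff_eq_zero h)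
        have := Finsupp.le_degree i α
        omega
      rw [Fintype.card_piFinset_const, Finset.card_range] at this
      exact_mod_cast this
  by_contra hlt
  push Not at hlt
  set x := ‖MvPolynomial.eval u P‖
  set y := (x + M) / 2
  have hy : 0 < y := by simp only [y]; linarith
  have hρ : 1 < x / y := (one_lt_div hy).2 (by simp only [y]; linarith)
  obtain ⟨k, hk1, hk2⟩ := (((tendsto_pow_const_div_const_pow_of_one_lt n hρ).eventually
    (gt_mem_nhds (show 0 < 1 / ((N : ℝ) + 1) ^ n by positivity))).and (eventually_ge_atTop 1)).exists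
  have hk : (1 : ℝ) ≤ k := by exact_mod_cast hk2
  rw [div_lt_div_iff₀ (by positivity) (by positivity), one_mul, ← mul_pow, div_pow,
    lt_div_iff₀ (by positivity)] at hk1
  refine absurd ((key k).trans ?_) (not_le.2 hk1)
  gcongr
  · nlinarith
  · simp only [y]; linarith

lemma roots (n : ℕ) (hn : n ≠ 0) : ∃ u : Fin n → ℂ, (∀ i, ‖u i‖ = 1) ∧ vp u ^ 2 = n ^ n := by
  have hζ := Complex.isPrimitiveRoot_exp n hn
  set ζ := exp (2 * Real.pi * I / n)
  have h1 : ‖ζ‖ = 1 := hζ.norm'_eq_one hn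
  have h0 : ζ ≠ 0 := hζ.ne_zero hn
  refine ⟨fun i => ζ ^ (i : ℕ), fun i => by rw [norm_pow, h1, one_pow], ?_⟩
  set A := Matrix.vandermonde fun i : Fin n => ζ ^ (i : ℕ) with hA
  have : A * A.conjTranspose = (n : ℂ) • (1 : Matrix (Fin n) (Fin n) ℂ) := by
    ext i j
    have hc : (starRingEnd ℂ) ζ = ζ⁻¹ := (Complex.inv_eq_conj h1).symm
    simp only [hA, Matrix.mul_apply, Matrix.conjTranspose_apply, Matrix.vandermonde_apply,
      star_pow, RCLike.star_def, hc, ← mul_pow, Matrix.smul_apply, Matrix.one_apply, smul_eq_mul]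
    rw [Fin.sum_univ_eq_sum_range (fun k => (ζ ^ (i : ℕ) * ζ⁻¹ ^ (j : ℕ)) ^ k)]
    by_cases hij : i = j
    · simp [hij, h0]
    · have hne : ζ ^ (i : ℕ) * ζ⁻¹ ^ (j : ℕ) ≠ 1 := fun h => hij (Fin.ext (hζ.pow_inj i.2 j.2 (by
        rw [inv_pow, mul_inv_eq_one₀ (pow_ne_zero _ h0)] at h; exact h)))
      rw [geom_sum_eq hne, mul_pow, ← pow_mul, ← pow_mul, mul_comm (i : ℕ), mul_comm (j : ℕ),
        pow_mul, pow_mul, inv_pow, hζ.pow_eq_one]
      simp [hij]
  have h2 := congrArg (fun B => ‖Matrix.det B‖) this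
  simp only [Matrix.det_mul, Matrix.det_conjTranspose, norm_mul, norm_star, Matrix.det_smul,
    Matrix.det_one, Fintype.card_fin, norm_pow, Complex.norm_natCast, norm_one, mul_one] at h2
  rw [vp_det, sq, h2]

theorem main {E : Set ℂ} (hE : IsCompact E) (hd : Tendsto (dn E) atTop (𝓝 1)) {n : ℕ}
    (hn : 2 ≤ n) : (n : ℝ) ^ ((1 : ℝ) / (n - 1)) ≤ dn E n := by
  have hne : E.Nonempty := by
    by_contra h
    rw [not_nonempty_iff_eq_empty] at h
    obtain ⟨m, hm1, hm2⟩ := ((hd.eventually (lt_mem_nhds one_pos)).and (eventually_ge_atTop 2)).exists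
    have hm : (2 : ℝ) ≤ m := by exact_mod_cast hm2
    have : {w : Fin m → ℂ | ∀ i, w i ∈ E} = ∅ := by
      rw [eq_empty_iff_forall_notMem]
      intro w hw
      simpa [h] using hw ⟨0, by omega⟩
    have h2 : 0 < (m : ℝ) - 1 := by linarith
    rw [dn, V, this, image_empty, Real.sSup_empty, Real.zero_rpow (by positivity)] at hm1
    exact lt_irrefl _ hm1
  obtain ⟨u, hu, hv⟩ := roots n (by omega)
  set P : MvPolynomial (Fin n) ℂ :=
    ∏ i, ∏ j ∈ Finset.Ioi i, (MvPolynomial.X i - MvPolynomial.X j) with hP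
  have hPh : P.IsHomogeneous _ := MvPolynomial.IsHomogeneous.prod _ _ _ fun i _ =>
    MvPolynomial.IsHomogeneous.prod _ _ (fun _ => 1) fun j _ =>
      (MvPolynomial.isHomogeneous_X ℂ i).sub (MvPolynomial.isHomogeneous_X ℂ j)
  have he : ∀ w, ‖MvPolynomial.eval w P‖ = vp w := fun w => by simp [hP, vp, norm_prod]
  have h1 := hom_le hE hd hne hPh (M := V E n) (fun w hw => (he w).trans_le (le_V hE hw)) hu
  rw [he] at h1
  have hn' : (2 : ℝ) ≤ n := by exact_mod_cast hn
  have h2 : 0 < (n : ℝ) - 1 := by linarith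
  have h0 : 0 ≤ vp u := by rw [vp_det]; exact norm_nonneg _
  refine le_trans (le_of_eq ?_) (Real.rpow_le_rpow h0 h1 (by positivity))
  rw [div_eq_mul_one_div 2, Real.rpow_mul h0, Real.rpow_two, hv, ← Real.rpow_natCast,
    ← Real.rpow_mul (by positivity)]
  congr 1
  field_simp

end Pool.Agent.H97.Fek
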