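import Mathlib

set_option autoImplicit false

namespace Pool.Agent.H97.SCV

open Complex Filter Topology Metric Set

variable {E F : Type*} [NormedAddCommGroup E] [NormedSpace ℂ E]
  [NormedAddCommGroup F] [NormedSpace ℂ F]

/-- Cauchy estimate (with a harmless factor 2). -/
lemma norm_fderiv_le {g : E → F} {z : E} {δ M : ℝ} (hδ : 0 < δ)
    (hd : DifferentiableOn ℂ g (ball z δ)) (hM : ∀ w ∈ ball z δ, ‖g w‖ ≤ M) :
    ‖fderiv ℂ g z‖ ≤ 2 * M / δ := by
  refine norm_fderiv_le_div_of_mapsTo_ball hd ?_ hδ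
  intro w hw
  rw [mem_closedBall, dist_eq_norm]
  have := norm_sub_le (g w) (g z)
  linarith [hM w hw, hM z (mem_ball_self hδ)]

lemma exists_ball_bound {f : E → F} {U : Set E} (hU : IsOpen U) (hf : DifferentiableOn ℂ f U)
    {x : E} (hx : x ∈ U) : ∃ r > 0, ∃ M : ℝ, ball x r ⊆ U ∧ ∀ w ∈ ball x r, ‖f w‖ ≤ M := by
  have hc : ContinuousAt f x := hf.continuousOn.continuousAt (hU.mem_nhds hx)
  have h1 : ∀ᶠ w in 𝓝 x, ‖f w‖ < ‖f x‖ + 1 := hc.norm.eventually (gt_mem_nhds (lt_add_one _))
  obtain ⟨r, hr, h⟩ := Metric.mem_nhds_iff.mp (h1.and (hU.mem_nhds hx))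
  exact ⟨r, hr, ‖f x‖ + 1, fun w hw => (h hw).2, fun w hw => (h hw).1.le⟩

lemma fderiv_bound {f : E → F} {x : E} {R r M : ℝ} (hr : 0 < r)
    (hf : DifferentiableOn ℂ f (ball x R)) (hM : ∀ w ∈ ball x R, ‖f w‖ ≤ M) :
    ∀ z ∈ ball x (R - r), ‖fderiv ℂ f z‖ ≤ 2 * M / r := by
  intro z hz
  have hs : ball z r ⊆ ball x R := ball_subset_ball' (by rw [mem_ball] at hz; linarith)
  exact norm_fderiv_le hr (hf.mono hs) fun w hw => hM w (hs hw)

lemma continuousOn_fderiv {f : E → F} {U : Set E} (hU : IsOpen U)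
    (hf : DifferentiableOn ℂ f U) : ContinuousOn (fderiv ℂ f) U := by
  intro x hx
  apply ContinuousAt.continuousWithinAt
  obtain ⟨R, hR, M, hRU, hM⟩ := exists_ball_bound hU hf hx
  set r := R / 3 with hr
  have hr0 : 0 < r := by positivity
  have hfR := hf.mono hRU
  have hb := fderiv_bound hr0 hfR hM
  have hsub : ball x (R - r) ⊆ ball x R := ball_subset_ball (by linarith)
  have hda : ∀ z ∈ ball x (R - r), DifferentiableAt ℂ f z := fun z hz =>
    hfR.differentiableAt (isOpen_ball.mem_nhds (hsub hz))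
  have key : ∀ h : E, ‖h‖ < r →
      ‖fderiv ℂ f (x + h) - fderiv ℂ f x‖ ≤ 2 * (2 * M / r * ‖h‖) / r := by
    intro h hh
    have m1 : ∀ w ∈ ball x r, w ∈ ball x (R - r) := fun w hw =>
      ball_subset_ball (by linarith) hw
    have m2 : ∀ w ∈ ball x r, w + h ∈ ball x (R - r) := by
      intro w hw
      rw [mem_ball, dist_eq_norm] at hw ⊢
      have : w + h - x = (w - x) + h := by abel
      rw [this]
      linarith [norm_add_le (w - x) h]
    have d1 : ∀ w ∈ ball x r, HasFDerivAt (fun w => f (w + h) - f w)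
        (fderiv ℂ f (w + h) - fderiv ℂ f w) w := by
      intro w hw
      have := (hda _ (m2 w hw)).hasFDerivAt
      exact ((hasFDerivAt_comp_add_right h).mpr this).sub (hda _ (m1 w hw)).hasFDerivAt
    rw [← (d1 x (mem_ball_self hr0)).fderiv]
    refine norm_fderiv_le hr0 (fun w hw => (d1 w hw).differentiableAt.differentiableWithinAt) ?_
    intro w hw
    have := (convex_ball x (R - r)).norm_image_sub_le_of_norm_fderiv_le hda hb (m1 w hw) (m2 w hw)
    simpa using this
  rw [ContinuousAt, tendsto_iff_norm_sub_tendsto_zero]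
  refine squeeze_zero' (Eventually.of_forall fun _ => norm_nonneg _)
    (g := fun z => 2 * (2 * M / r * ‖z - x‖) / r) ?_ ?_
  · filter_upwards [ball_mem_nhds x hr0] with z hz
    simpa using key (z - x) (by rwa [mem_ball, dist_eq_norm] at hz)
  · have : Continuous (fun z : E => 2 * (2 * M / r * ‖z - x‖) / r) := by fun_prop
    simpa using this.tendsto x

lemma differentiableOn_fderiv_apply [CompleteSpace F] {f : E → F} {U : Set E} (hU : IsOpen U)
    (hf : DifferentiableOn ℂ f U) (v : E) :
    DifferentiableOn ℂ (fun z => fderiv ℂ f z v) U := by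
  intro x hx
  apply DifferentiableAt.differentiableWithinAt
  obtain ⟨R, hR, M, hRU, hM⟩ := exists_ball_bound hU hf hx
  set r := R / 3 with hr
  have hr0 : 0 < r := by positivity
  have hfR := hf.mono hRU
  have hb := fderiv_bound hr0 hfR hM
  have hsub : ball x (R - r) ⊆ U := (ball_subset_ball (by linarith)).trans hRU
  have hda : ∀ z ∈ U, DifferentiableAt ℂ f z := fun z hz => hf.differentiableAt (hU.mem_nhds hz)
  set ρ := r / (‖v‖ + 1) with hρ
  have hρ0 : 0 < ρ := by positivity
  have hm : ∀ z ∈ ball x r, ∀ t : ℂ, ‖t‖ ≤ ρ → z + t • v ∈ ball x (R - r) := by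
    intro z hz t ht
    rw [mem_ball, dist_eq_norm] at hz ⊢
    have e : z + t • v - x = (z - x) + t • v := by abel
    have h1 : ‖t • v‖ ≤ r := by
      rw [norm_smul]
      calc ‖t‖ * ‖v‖ ≤ ρ * (‖v‖ + 1) := by gcongr; linarith
        _ = r := by rw [hρ]; field_simp
    rw [e]
    linarith [norm_add_le (z - x) (t • v)]
  have hcm : ∀ θ : ℝ, ‖circleMap 0 ρ θ‖ ≤ ρ := fun θ => by
    rw [norm_circleMap_zero, abs_of_pos hρ0]
  have hcne : ∀ θ : ℝ, circleMap 0 ρ θ ≠ 0 := fun θ => circleMap_ne_center hρ0.ne'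
  set c : ℝ → ℂ := fun θ => deriv (circleMap 0 ρ) θ * (1 / (circleMap 0 ρ θ - 0) ^ 2) with hc
  have hcc : Continuous c := by
    simp only [hc, deriv_circleMap, sub_zero]
    exact ((continuous_circleMap 0 ρ).mul continuous_const).mul
      (continuous_const.div ((continuous_circleMap 0 ρ).pow 2) fun θ => pow_ne_zero _ (hcne θ))
  have hcn : ∀ θ, ‖c θ‖ = 1 / ρ := by
    intro θ
    simp only [hc, deriv_circleMap, sub_zero, norm_mul, norm_div, norm_pow, norm_one,
      norm_circleMap_zero, abs_of_pos hρ0, Complex.norm_I]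
    field_simp
  have hrep : ∀ z ∈ ball x r, fderiv ℂ f z v =
      (2 * Real.pi * I : ℂ)⁻¹ • ∫ θ in (0 : ℝ)..2 * Real.pi, c θ • f (z + circleMap 0 ρ θ • v) := by
    intro z hz
    have hd : DifferentiableOn ℂ (fun t : ℂ => f (z + t • v)) (closedBall 0 ρ) := by
      intro t ht
      apply DifferentiableAt.differentiableWithinAt
      exact (hda _ (hsub (hm z hz t (by simpa using ht)))).comp t (by fun_prop)
    have h1 := hd.deriv_eq_smul_circleIntegral hρ0
    have h2 : HasDerivAt (fun t : ℂ => f (z + t • v)) (fderiv ℂ f z v) 0 := by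
      have h3 : HasDerivAt (fun t : ℂ => z + t • v) v 0 := by
        simpa using ((hasDerivAt_id (0 : ℂ)).smul_const v).const_add z
      have h4 : HasFDerivAt f (fderiv ℂ f z) (z + (0 : ℂ) • v) := by
        simpa using (hda z (hsub (ball_subset_ball (by linarith) hz))).hasFDerivAt
      exact h4.comp_hasDerivAt 0 h3
    rw [h2.deriv, circleIntegral] at h1
    simp only [smul_smul] at h1
    rw [h1, smul_smul, inv_mul_cancel₀ two_pi_I_ne_zero, one_smul]
  have hcont : ∀ z ∈ ball x r, Continuous fun θ => c θ • f (z + circleMap 0 ρ θ • v) := by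
    intro z hz
    refine hcc.smul (hf.continuousOn.comp_continuous ?_ fun θ => hsub (hm z hz _ (hcm θ)))
    exact continuous_const.add ((continuous_circleMap 0 ρ).smul continuous_const)
  have hder := intervalIntegral.hasFDerivAt_integral_of_dominated_of_fderiv_le (𝕜 := ℂ)
    (μ := MeasureTheory.volume) (a := 0) (b := 2 * Real.pi)
    (F := fun z θ => c θ • f (z + circleMap 0 ρ θ • v))
    (F' := fun z θ => c θ • fderiv ℂ f (z + circleMap 0 ρ θ • v)) (x₀ := x)
    (bound := fun _ => 1 / ρ * (2 * M / r)) (ball_mem_nhds x hr0)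
    (by
      filter_upwards [ball_mem_nhds x hr0] with z hz
      exact (hcont z hz).aestronglyMeasurable)
    ((hcont x (mem_ball_self hr0)).intervalIntegrable _ _)
    (by
      refine (hcc.smul ((continuousOn_fderiv hU hf).comp_continuous ?_ fun θ =>
        hsub (hm x (mem_ball_self hr0) _ (hcm θ)))).aestronglyMeasurable
      exact continuous_const.add ((continuous_circleMap 0 ρ).smul continuous_const))
    (by
      refine Eventually.of_forall fun θ _ z hz => ?_
      rw [norm_smul, hcn]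
      gcongr
      exact hb _ (hm z hz _ (hcm θ)))
    (intervalIntegrable_const)
    (by
      refine Eventually.of_forall fun θ _ z hz => ?_
      have := (hda _ (hsub (hm z hz _ (hcm θ)))).hasFDerivAt
      exact ((hasFDerivAt_comp_add_right _).mpr this).const_smul (c θ))
  refine (hder.differentiableAt.const_smul (2 * Real.pi * I : ℂ)⁻¹).congr_of_eventuallyEq ?_
  filter_upwards [ball_mem_nhds x hr0] with z hz
  exact hrep z hz

variable [FiniteDimensional ℂ E] [CompleteSpace F]

lemma contDiffOn_nat {U : Set E} (hU : IsOpen U) (n : ℕ) :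
    ∀ {f : E → F}, DifferentiableOn ℂ f U → ContDiffOn ℂ n f U := by
  induction n with
  | zero => intro f hf; simpa using hf.continuousOn
  | succ n ih =>
    intro f hf
    rw [Nat.cast_succ]
    refine contDiffOn_succ_of_fderiv_apply hf (by simp) fun y => ?_
    refine (ih (differentiableOn_fderiv_apply hU hf y)).congr fun z hz => ?_
    rw [fderivWithin_of_isOpen hU hz]

lemma contDiffAt_nat {U : Set E} (hU : IsOpen U) {f : E → F} (hf : DifferentiableOn ℂ f U)
    (n : ℕ) {x : E} (hx : x ∈ U) : ContDiffAt ℂ n f x :=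
  (contDiffOn_nat hU n hf).contDiffAt (hU.mem_nhds hx)

lemma differentiableOn_iteratedFDeriv {U : Set E} (hU : IsOpen U) {f : E → F}
    (hf : DifferentiableOn ℂ f U) (n : ℕ) : DifferentiableOn ℂ (iteratedFDeriv ℂ n f) U := by
  intro x hx
  exact ((contDiffAt_nat hU hf (n + 1) hx).differentiableAt_iteratedFDeriv
    (by exact_mod_cast Nat.lt_succ_self n)).differentiableWithinAt

lemma differentiableOn_fderiv {U : Set E} (hU : IsOpen U) {f : E → F}
    (hf : DifferentiableOn ℂ f U) : DifferentiableOn ℂ (fderiv ℂ f) U := by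
  intro x hx
  exact (((contDiffAt_nat hU hf 2 hx).fderiv_right (m := 1) (by norm_num)).differentiableAt
    (by norm_num)).differentiableWithinAt

lemma iterated_bound {f : E → F} {x : E} {R δ M : ℝ} (hδ : 0 < δ)
    (hf : DifferentiableOn ℂ f (ball x R)) (hM : ∀ w ∈ ball x R, ‖f w‖ ≤ M) (n : ℕ) :
    ∀ z ∈ ball x (R - n * δ), ‖iteratedFDeriv ℂ n f z‖ ≤ M * (2 / δ) ^ n := by
  induction n with
  | zero => intro z hz; simpa using hM z (by simpa using hz)
  | succ n ih =>
    intro z hz
    rw [← norm_fderiv_iteratedFDeriv]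
    have h1 : ball x (R - n * δ) ⊆ ball x R := ball_subset_ball (by
      have : 0 ≤ n * δ := by positivity
      linarith)
    have := fderiv_bound hδ ((differentiableOn_iteratedFDeriv isOpen_ball hf n).mono h1) ih z
      (by convert hz using 2; push_cast; ring)
    refine this.trans_eq ?_
    rw [pow_succ]; ring

lemma iteratedDeriv_line {U : Set E} (hU : IsOpen U) {f : E → F} (hf : DifferentiableOn ℂ f U)
    {x : E} (hx : x ∈ U) (y : E) (n : ℕ) :
    iteratedDeriv n (fun t : ℂ => f (x + t • y)) 0 = iteratedFDeriv ℂ n f x (fun _ => y) := by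
  set g : ℂ →L[ℂ] E := ContinuousLinearMap.toSpanSingleton ℂ y with hg
  set V : Set E := (fun z => x + z) ⁻¹' U with hV
  have hVo : IsOpen V := hU.preimage (by fun_prop)
  have hf' : ContDiffOn ℂ n (fun z => f (x + z)) V :=
    (contDiffOn_nat hU n hf).comp (by fun_prop) (fun z hz => hz)
  have hgo : IsOpen (g ⁻¹' V) := hVo.preimage g.continuous
  have h0 : g 0 ∈ V := by simpa [hV] using hx
  have h1 := g.iteratedFDerivWithin_comp_right hf' hVo.uniqueDiffOn hgo.uniqueDiffOn h0 (i := n)
    le_rfl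
  rw [iteratedFDerivWithin_of_isOpen n hgo h0, iteratedFDerivWithin_of_isOpen n hVo h0] at h1
  have e : (fun t : ℂ => f (x + t • y)) = (fun z => f (x + z)) ∘ g := by
    funext t; simp [hg]
  rw [iteratedDeriv_eq_iteratedFDeriv, e, h1, iteratedFDeriv_comp_add_left]
  simp [hg]

/-- Taylor expansion on a ball. -/
lemma hasSum_taylor {f : E → F} {x : E} {R : ℝ} (hf : DifferentiableOn ℂ f (ball x R))
    {y : E} (hy : ‖y‖ < R) :
    HasSum (fun n : ℕ => ((n.factorial : ℂ)⁻¹ • iteratedFDeriv ℂ n f x) (fun _ => y))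
      (f (x + y)) := by
  have hR : 0 < R := (norm_nonneg y).trans_lt hy
  obtain ⟨ρ, hρ1, hρ⟩ : ∃ ρ : ℝ, 1 < ρ ∧ ρ * ‖y‖ ≤ R := by
    rcases (norm_nonneg y).eq_or_lt with h | h
    · exact ⟨2, by norm_num, by rw [← h]; linarith⟩
    · exact ⟨R / ‖y‖, by rwa [one_lt_div h], by rw [div_mul_cancel₀ _ h.ne']⟩
  have hd : DifferentiableOn ℂ (fun t : ℂ => f (x + t • y)) (ball 0 ρ) := by
    refine hf.comp (by fun_prop) ?_
    intro t ht
    rw [mem_ball_zero_iff] at ht
    rw [mem_ball, dist_eq_norm, add_sub_cancel_left, norm_smul]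
    rcases (norm_nonneg y).eq_or_lt with h | h
    · rw [← h]; simpa using hR
    · exact (mul_lt_mul_of_pos_right ht h).trans_le hρ
  have h1 := hasSum_taylorSeries_on_ball hd (z := 1) (by simpa using hρ1)
  simp only [sub_zero, one_pow, one_smul,
    iteratedDeriv_line isOpen_ball hf (mem_ball_self hR) y] at h1
  simpa using h1

/-- A complex differentiable map on an open subset of a finite-dimensional space is analytic. -/
theorem analyticOnNhd_of_differentiableOn {U : Set E} (hU : IsOpen U) {f : E → F}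
    (hf : DifferentiableOn ℂ f U) : AnalyticOnNhd ℂ f U := by
  intro x hx
  obtain ⟨R, hR, M, hRU, hM⟩ := exists_ball_bound hU hf hx
  have hfR := hf.mono hRU
  have hM0 : 0 ≤ M := (norm_nonneg _).trans (hM x (mem_ball_self hR))
  set p : FormalMultilinearSeries ℂ E F :=
    fun n => (n.factorial : ℂ)⁻¹ • iteratedFDeriv ℂ n f x with hp
  set r : NNReal := ⟨R / 12, by positivity⟩ with hr
  have hr0 : (r : ℝ) = R / 12 := rfl
  have hb : ∀ n : ℕ, ‖p n‖ * (r : ℝ) ^ n ≤ M := by
    intro n
    rcases Nat.eq_zero_or_pos n with rfl | hn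
    · simpa [hp] using hM x (mem_ball_self hR)
    have hn' : (0 : ℝ) < n := by exact_mod_cast hn
    have h1 := iterated_bound (δ := R / (2 * n)) (by positivity) hfR hM n x (mem_ball_self (by
      have : n * (R / (2 * n)) = R / 2 := by field_simp
      rw [this]; linarith))
    have h2 : (n : ℝ) ^ n / n.factorial ≤ Real.exp n := Real.pow_div_factorial_le_exp _ hn'.le n
    have h3 : Real.exp n ≤ 3 ^ n := by
      rw [← Real.exp_one_pow]
      exact pow_le_pow_left₀ (Real.exp_pos 1).le (by linarith [Real.exp_one_lt_d9]) n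
    have hf0 : (0 : ℝ) < n.factorial := by exact_mod_cast n.factorial_pos
    simp only [hp, norm_smul, norm_inv, Complex.norm_natCast, hr0]
    calc (n.factorial : ℝ)⁻¹ * ‖iteratedFDeriv ℂ n f x‖ * (R / 12) ^ n
        ≤ (n.factorial : ℝ)⁻¹ * (M * (2 / (R / (2 * n))) ^ n) * (R / 12) ^ n := by gcongr
      _ = M * ((n : ℝ) ^ n / n.factorial) * (1 / 3) ^ n := by
        have : (2 / (R / (2 * n))) ^ n * (R / 12) ^ n = (n : ℝ) ^ n * (1 / 3) ^ n := by
          rw [← mul_pow, ← mul_pow]; congr 1; field_simp; ring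
        calc _ = (n.factorial : ℝ)⁻¹ * M * ((2 / (R / (2 * n))) ^ n * (R / 12) ^ n) := by ring
          _ = _ := by rw [this]; field_simp
      _ ≤ M * 3 ^ n * (1 / 3) ^ n := by gcongr; exact h2.trans h3
      _ = M := by rw [mul_assoc, ← mul_pow]; simp
  refine ⟨p, r, p.le_radius_of_bound M hb, by
    have : (0 : ℝ) < r := by rw [hr0]; positivity
    exact_mod_cast this, ?_⟩
  intro y hy
  have hy' : ‖y‖ < R := by
    rw [Metric.eball_coe, mem_ball_zero_iff, hr0] at hy
    linarith
  exact hasSum_taylor hfR hy'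

theorem analyticAt_of_differentiableOn {U : Set E} {f : E → F} {x : E} (hU : U ∈ 𝓝 x)
    (hf : DifferentiableOn ℂ f U) : AnalyticAt ℂ f x :=
  analyticOnNhd_of_differentiableOn isOpen_interior (hf.mono interior_subset) x
    (mem_interior_iff_mem_nhds.mpr hU)

theorem analyticAt_of_differentiable {f : E → F} (hf : Differentiable ℂ f) (x : E) :
    AnalyticAt ℂ f x :=
  analyticAt_of_differentiableOn univ_mem hf.differentiableOn

end Pool.Agent.H97.SCV
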