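import Mathlib
import Pool.Agent.H97.SCV

set_option autoImplicit false

namespace Pool.Agent.H97.Riem

open Complex Filter Topology Metric Set

variable {E F : Type*} [NormedAddCommGroup E] [NormedSpace ℂ E]
  [NormedAddCommGroup F] [NormedSpace ℂ F]

/-- Riemann extension for continuous maps. -/
theorem riemann [FiniteDimensional ℂ E] [CompleteSpace F] {X : E → F} {d : E → ℂ} {U : Set E}
    (hU : IsOpen U) (hX : ContinuousOn X U) (hd : DifferentiableOn ℂ d U)
    (hXd : ∀ z ∈ U, d z ≠ 0 → DifferentiableAt ℂ X z)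
    (hne : ∀ z ∈ U, ¬ ∀ᶠ w in 𝓝 z, d w = 0) : DifferentiableOn ℂ X U := by
  have : ProperSpace E := FiniteDimensional.proper ℂ E
  intro x hx
  apply DifferentiableAt.differentiableWithinAt
  obtain ⟨R, hR, hRU⟩ := Metric.isOpen_iff.1 hU x hx
  obtain ⟨x₁, hx₁, hdx₁⟩ : ∃ x₁ ∈ ball x R, d x₁ ≠ 0 := by
    by_contra h
    push Not at h
    exact hne x hx (by filter_upwards [ball_mem_nhds x hR] with w hw using h w hw)
  set e := x₁ - x with he
  have hda : ∀ z ∈ U, DifferentiableAt ℂ d z := fun z hz => hd.differentiableAt (hU.mem_nhds hz)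
  have hline : ∀ z : E, Continuous fun t : ℂ => z + t • e := fun z => by fun_prop
  have han : ∀ z : E, AnalyticOnNhd ℂ (fun t : ℂ => d (z + t • e)) {t | z + t • e ∈ U} := by
    intro z
    refine DifferentiableOn.analyticOnNhd (fun t ht => ?_) (hU.preimage (hline z))
    exact ((hda _ ht).comp t (by fun_prop)).differentiableWithinAt
  have hcb : closedBall (0 : ℂ) 1 ⊆ {t | x + t • e ∈ U} := by
    intro t ht
    refine hRU (mem_ball_iff_norm.2 ?_)
    rw [add_sub_cancel_left, norm_smul]
    have h1 := mem_closedBall_zero_iff.1 ht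
    have h2 := mem_ball_iff_norm.1 hx₁
    nlinarith [norm_nonneg e, norm_nonneg t]
  have hev : ∀ᶠ t in 𝓝[≠] (0 : ℂ), d (x + t • e) ≠ 0 := by
    rcases (han x 0 (hcb (by simp))).eventually_eq_zero_or_eventually_ne_zero with h | h
    · exfalso
      have := ((han x).mono hcb).eqOn_zero_of_preconnected_of_eventuallyEq_zero
        (convex_closedBall _ _).isPreconnected (mem_closedBall_self zero_le_one) h
        (x := 1) (by simp)
      exact hdx₁ (by simpa [he] using this)
    · exact h
  obtain ⟨ρ₀, hρ₀, hρ₀'⟩ := Metric.eventually_nhds_iff_ball.1 (eventually_nhdsWithin_iff.1 hev)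
  set ρ := min (ρ₀ / 2) 1 with hρ
  have hρ0 : 0 < ρ := lt_min (by linarith) one_pos
  have hρ1 : ρ ≤ 1 := min_le_right _ _
  have hρ2 : ρ < ρ₀ := (min_le_left _ _).trans_lt (by linarith)
  set G : Set E := U ∩ d ⁻¹' {0}ᶜ with hG
  have hGo : IsOpen G := hd.continuousOn.isOpen_inter_preimage hU isOpen_compl_singleton
  have hC : IsCompact ((fun t : ℂ => x + t • e) '' sphere 0 ρ) :=
    (isCompact_sphere _ _).image (hline x)
  have hD : IsCompact ((fun t : ℂ => x + t • e) '' closedBall 0 ρ) :=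
    (isCompact_closedBall _ _).image (hline x)
  have hCG : (fun t : ℂ => x + t • e) '' sphere 0 ρ ⊆ G := by
    rintro _ ⟨t, ht, rfl⟩
    have h1 := mem_sphere_zero_iff_norm.1 ht
    refine ⟨hcb (mem_closedBall_zero_iff.2 (by linarith)),
      hρ₀' t (mem_ball_zero_iff.2 (by linarith)) ?_⟩
    rintro rfl
    simp at h1; linarith
  have hDU : (fun t : ℂ => x + t • e) '' closedBall 0 ρ ⊆ U := by
    rintro _ ⟨t, ht, rfl⟩
    exact hcb (closedBall_subset_closedBall hρ1 ht)
  obtain ⟨δ₁, hδ₁, h₁⟩ := hC.exists_cthickening_subset_open hGo hCG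
  obtain ⟨δ₂, hδ₂, h₂⟩ := hD.exists_cthickening_subset_open hU hDU
  set δ := min δ₁ δ₂ / 2 with hδ
  have hδ0 : 0 < δ := by positivity
  have hδ1 : 2 * δ ≤ δ₁ := by have := min_le_left δ₁ δ₂; linarith
  have hδ2 : δ ≤ δ₂ := by have := min_le_right δ₁ δ₂; linarith
  obtain ⟨M, hM⟩ := (hC.cthickening (r := δ₁)).exists_bound_of_continuousOn
    (hX.mono (h₁.trans inter_subset_left))
  have inC : ∀ z ∈ ball x δ, ∀ t ∈ sphere (0 : ℂ) ρ, ∀ w ∈ ball (z + t • e) δ,
      w ∈ cthickening δ₁ ((fun t : ℂ => x + t • e) '' sphere 0 ρ) := by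
    intro z hz t ht w hw
    refine mem_cthickening_of_dist_le w (x + t • e) _ _ ⟨t, ht, rfl⟩ ?_
    have h1 := dist_triangle w (z + t • e) (x + t • e)
    rw [dist_add_right] at h1
    rw [mem_ball] at hz hw
    linarith
  have inG : ∀ z ∈ ball x δ, ∀ t ∈ sphere (0 : ℂ) ρ, z + t • e ∈ G := fun z hz t ht =>
    h₁ (inC z hz t ht _ (mem_ball_self hδ0))
  have inU : ∀ z ∈ ball x δ, ∀ t ∈ closedBall (0 : ℂ) ρ, z + t • e ∈ U := by
    intro z hz t ht
    refine h₂ (mem_cthickening_of_dist_le _ (x + t • e) _ _ ⟨t, ht, rfl⟩ ?_)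
    rw [dist_add_right]
    rw [mem_ball] at hz
    linarith
  have hXG : DifferentiableOn ℂ X G := fun z hz => (hXd z hz.1 hz.2).differentiableWithinAt
  have hcm : ∀ θ : ℝ, circleMap 0 ρ θ ∈ sphere (0 : ℂ) ρ := fun θ => circleMap_mem_sphere _ hρ0.le θ
  have hcne : ∀ θ : ℝ, circleMap 0 ρ θ ≠ 0 := fun θ => circleMap_ne_center hρ0.ne'
  have hrep : ∀ z ∈ ball x δ, X z =
      (2 * Real.pi * I : ℂ)⁻¹ • ∫ θ in (0 : ℝ)..2 * Real.pi, I • X (z + circleMap 0 ρ θ • e) := by
    intro z hz
    have hfin : (closedBall (0 : ℂ) ρ \ (fun t : ℂ => d (z + t • e)) ⁻¹' {0}ᶜ).Finite := by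
      refine (isCompact_closedBall _ _).finite_sdiff_of_mem_codiscreteWithin ?_
      exact ((han z).mono (inU z hz)).preimage_zero_mem_codiscreteWithin
        (inG z hz _ (hcm 0)).2 (sphere_subset_closedBall (hcm 0))
        ⟨⟨0, mem_closedBall_self hρ0.le⟩, (convex_closedBall _ _).isPreconnected⟩
    have h1 := two_pi_I_inv_smul_circleIntegral_sub_inv_smul_of_differentiable_on_off_countable
      (f := fun t : ℂ => X (z + t • e)) (c := 0) (w := 0) (R := ρ) hfin.countable
      (mem_ball_self hρ0) (hX.comp (hline z).continuousOn (inU z hz))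
      (fun t ht => by
        have h2 : d (z + t • e) ≠ 0 := by
          intro h
          exact ht.2 ⟨ball_subset_closedBall ht.1, by simpa using h⟩
        exact (hXd _ (inU z hz t (ball_subset_closedBall ht.1)) h2).comp t (by fun_prop))
    simp only [zero_smul, add_zero] at h1
    rw [← h1, circleIntegral]
    congr 1
    refine intervalIntegral.integral_congr fun θ _ => ?_
    simp only [deriv_circleMap, sub_zero, smul_smul]
    congr 1
    have := hcne θ
    field_simp
  have hpath : ∀ z : E, Continuous fun θ => z + circleMap 0 ρ θ • e := fun z =>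
    continuous_const.add ((continuous_circleMap 0 ρ).smul continuous_const)
  have hcont : ∀ z ∈ ball x δ, Continuous fun θ => I • X (z + circleMap 0 ρ θ • e) := by
    intro z hz
    exact (hX.comp_continuous (hpath z) fun θ => (inG z hz _ (hcm θ)).1).const_smul _
  have hder := intervalIntegral.hasFDerivAt_integral_of_dominated_of_fderiv_le (𝕜 := ℂ)
    (μ := MeasureTheory.volume) (a := 0) (b := 2 * Real.pi)
    (F := fun z θ => I • X (z + circleMap 0 ρ θ • e))
    (F' := fun z θ => I • fderiv ℂ X (z + circleMap 0 ρ θ • e)) (x₀ := x)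
    (bound := fun _ => 2 * M / δ) (ball_mem_nhds x hδ0)
    (by
      filter_upwards [ball_mem_nhds x hδ0] with z hz
      exact (hcont z hz).aestronglyMeasurable)
    ((hcont x (mem_ball_self hδ0)).intervalIntegrable _ _)
    (by
      refine (((SCV.continuousOn_fderiv hGo hXG).comp_continuous (hpath x) fun θ =>
        inG x (mem_ball_self hδ0) _ (hcm θ)).const_smul I).aestronglyMeasurable)
    (by
      refine Eventually.of_forall fun θ _ z hz => ?_
      rw [norm_smul, norm_I, one_mul]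
      exact SCV.norm_fderiv_le hδ0 (hXG.mono fun w hw => h₁ (inC z hz _ (hcm θ) w hw))
        fun w hw => hM w (inC z hz _ (hcm θ) w hw))
    (intervalIntegrable_const)
    (by
      refine Eventually.of_forall fun θ _ z hz => ?_
      have h1 := inG z hz _ (hcm θ)
      have := (hXd _ h1.1 h1.2).hasFDerivAt
      exact ((hasFDerivAt_comp_add_right _).mpr this).const_smul I)
  refine (hder.differentiableAt.const_smul (2 * Real.pi * I : ℂ)⁻¹).congr_of_eventuallyEq ?_
  filter_upwards [ball_mem_nhds x hδ0] with z hz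
  exact hrep z hz

/-- the determinant of a differentiable family of endomorphisms is differentiable -/
lemma differentiableAt_det [FiniteDimensional ℂ F] {A : E → F →L[ℂ] F} {z : E}
    (hA : DifferentiableAt ℂ A z) : DifferentiableAt ℂ (fun w => (A w).det) z := by
  classical
  let b := Module.finBasis ℂ F
  have h : (fun w => (A w).det) = fun w => ∑ σ : Equiv.Perm (Fin (Module.finrank ℂ F)),
      ((Equiv.Perm.sign σ : ℤ) : ℂ) * ∏ i, LinearMap.toContinuousLinearMap (b.coord (σ i))
        (A w (b i)) := by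
    funext w
    rw [ContinuousLinearMap.det, ← LinearMap.det_toMatrix b, Matrix.det_apply']
    simp [LinearMap.toMatrix_apply]
  rw [h]
  refine DifferentiableAt.fun_sum fun σ _ => DifferentiableAt.const_mul ?_ _
  refine (HasFDerivAt.finsetProd (u := Finset.univ)
    (g := fun i w => LinearMap.toContinuousLinearMap (b.coord (σ i)) (A w (b i)))
    fun i _ => DifferentiableAt.hasFDerivAt ?_).differentiableAt
  exact (LinearMap.toContinuousLinearMap (b.coord (σ i))).differentiableAt.comp z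
    (hA.clm_apply (differentiableAt_const _))

/-- a Hurwitz type lemma for `1 + t A` -/
lemma hurwitz [FiniteDimensional ℂ E] {T₀ : E →L[ℂ] E}
    (h : ∃ᶠ A in 𝓝 T₀, ∀ t : ℂ, ‖t‖ ≤ 2 → (1 + t • A).det ≠ 0) :
    (1 + (-1 : ℂ) • T₀).det ≠ 0 := by
  intro h0
  have hd : ∀ A : E →L[ℂ] E, Differentiable ℂ fun t : ℂ => (1 + t • A).det := fun A t =>
    differentiableAt_det (by fun_prop)
  have hc : Continuous fun p : (E →L[ℂ] E) × ℂ => (1 + p.2 • p.1).det :=
    ContinuousLinearMap.continuous_det.comp (by fun_prop)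
  have hev : ∀ᶠ t in 𝓝[≠] (-1 : ℂ), (1 + t • T₀).det ≠ 0 := by
    rcases ((hd T₀).analyticAt (-1)).eventually_eq_zero_or_eventually_ne_zero with h | h
    · exfalso
      have := AnalyticOnNhd.eqOn_zero_of_preconnected_of_eventuallyEq_zero
        (fun z _ => (hd T₀).analyticAt z) isPreconnected_univ (mem_univ _) h (x := 0) (mem_univ _)
      simp [ContinuousLinearMap.det] at this
    · exact h
  obtain ⟨ρ₀, hρ₀, hρ₀'⟩ := Metric.eventually_nhds_iff_ball.1 (eventually_nhdsWithin_iff.1 hev)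
  set ρ := min (ρ₀ / 2) 1 with hρ
  have hρ0 : 0 < ρ := lt_min (by linarith) one_pos
  have hρ1 : ρ ≤ 1 := min_le_right _ _
  have hρ2 : ρ < ρ₀ := (min_le_left _ _).trans_lt (by linarith)
  obtain ⟨m, hm, hm'⟩ := (isCompact_sphere (-1 : ℂ) ρ).exists_forall_le'
    (f := fun t : ℂ => ‖(1 + t • T₀).det‖) (a := 0) (hd T₀).continuous.norm.continuousOn
    (fun t ht => norm_pos_iff.2 (hρ₀' t (by rw [mem_ball, mem_sphere.1 ht]; exact hρ2) (by
      intro h
      rw [mem_singleton_iff.1 h] at ht
      simp at ht; linarith)))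
  have e1 : ∀ᶠ A in 𝓝 T₀, ∀ t ∈ sphere (-1 : ℂ) ρ, m / 2 < ‖(1 + t • A).det‖ := by
    refine (isCompact_sphere _ _).eventually_forall_of_forall_eventually fun t ht => ?_
    exact hc.norm.continuousAt.eventually (lt_mem_nhds (by have := hm' t ht; dsimp only; linarith))
  have e2 : ∀ᶠ A in 𝓝 T₀, ‖(1 + (-1 : ℂ) • A).det‖ < m / 2 := by
    have : Continuous fun A : E →L[ℂ] E => ‖(1 + (-1 : ℂ) • A).det‖ :=
      (ContinuousLinearMap.continuous_det.comp (by fun_prop)).norm
    exact this.continuousAt.eventually (gt_mem_nhds (by dsimp only; rw [h0, norm_zero]; linarith))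
  obtain ⟨A, hA, h1, h2⟩ := (h.and_eventually (e1.and e2)).exists
  have hcl : ∀ t ∈ closedBall (-1 : ℂ) ρ, ‖t‖ ≤ 2 := by
    intro t ht
    have h3 := mem_closedBall_iff_norm.1 ht
    have h4 := norm_add_le (t - -1) (-1)
    rw [sub_add_cancel, norm_neg, norm_one] at h4
    linarith
  have key : ‖((1 + (-1 : ℂ) • A).det)⁻¹‖ ≤ (m / 2)⁻¹ := by
    refine norm_le_of_forall_mem_frontier_norm_le (f := fun t : ℂ => ((1 + t • A).det)⁻¹)
      (U := ball (-1) ρ) isBounded_ball (DifferentiableOn.diffContOnCl ?_) (fun t ht => ?_)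
      (subset_closure (mem_ball_self hρ0))
    · rw [closure_ball _ hρ0.ne']
      exact (hd A).differentiableOn.inv fun t ht => hA t (hcl t ht)
    · rw [frontier_ball _ hρ0.ne'] at ht
      rw [norm_inv]
      exact inv_anti₀ (by linarith) (h1 t ht).le
  have h3 : 0 < ‖(1 + (-1 : ℂ) • A).det‖ := norm_pos_iff.2 (hA _ (by simp))
  rw [norm_inv, inv_le_inv₀ h3 (by linarith)] at key
  linarith

end Pool.Agent.H97.Riem
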