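import Mathlib
import Pool.Agent.H97.SCV
import Pool.Agent.H97.Riem

set_option autoImplicit false

namespace Pool.Agent.H97.Fib

open Complex Filter Topology Metric Set Module

variable {E F : Type*} [NormedAddCommGroup E] [NormedSpace ℂ E] [FiniteDimensional ℂ E]
  [NormedAddCommGroup F] [NormedSpace ℂ F] [FiniteDimensional ℂ F] {m : ℕ}

/-- kernel of the derivative -/
noncomputable def Kr (Γ : E → F) (ξ : E) : Submodule ℂ E :=
  LinearMap.ker (fderiv ℂ Γ ξ : E →ₗ[ℂ] F)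

lemma mem_Kr {Γ : E → F} {ξ w : E} : w ∈ Kr Γ ξ ↔ fderiv ℂ Γ ξ w = 0 := Iff.rfl

/-- the standing hypotheses -/
structure Hyp (Ω : Set E) (Γ : E → F) (good : E → Prop) (m : ℕ) (d : E → ℂ) : Prop where
  op : IsOpen Ω
  diff : DifferentiableOn ℂ Γ Ω
  ddiff : DifferentiableOn ℂ d Ω
  dne : ∀ z ∈ Ω, ¬ ∀ᶠ w in 𝓝 z, d w = 0
  dgood : ∀ z ∈ Ω, d z ≠ 0 → good z
  rk : ∀ z ∈ Ω, good z → finrank ℂ (Kr Γ z) = m
  lev : ∀ ξ ∈ Ω, good ξ → ∀ η ∈ Ω, Γ η = Γ ξ ↔ η - ξ ∈ Kr Γ ξ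

/-- local continuous frames extending the kernel field -/
structure Frame (Ω : Set E) (Γ : E → F) (good : E → Prop) (U : Set E) (v : Fin m → E → E) :
    Prop where
  op : IsOpen U
  sub : U ⊆ Ω
  cont : ∀ i, ContinuousOn (v i) U
  li : ∀ η ∈ U, LinearIndependent ℂ fun i => v i η
  sp : ∀ η ∈ U, good η → Submodule.span ℂ (range fun i => v i η) = Kr Γ η

lemma line_zero {G : Type*} [NormedAddCommGroup G] [NormedSpace ℂ G] {f : E → G} {η w : E}
    (hf : DifferentiableAt ℂ f η) (h : ∀ᶠ t : ℂ in 𝓝 0, f (η + t • w) = f η) :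
    fderiv ℂ f η w = 0 := by
  have h3 : HasDerivAt (fun t : ℂ => η + t • w) w 0 := by
    simpa using ((hasDerivAt_id (0 : ℂ)).smul_const w).const_add η
  have h4 : HasFDerivAt f (fderiv ℂ f η) (η + (0 : ℂ) • w) := by simpa using hf.hasFDerivAt
  have h5 : HasDerivAt (fun t : ℂ => f (η + t • w)) (fderiv ℂ f η w) 0 := h4.comp_hasDerivAt 0 h3
  exact h5.unique ((hasDerivAt_const (0 : ℂ) (f η)).congr_of_eventuallyEq h)

lemma ev_line {U : Set E} {η : E} (hU : U ∈ 𝓝 η) (w : E) : ∀ᶠ t : ℂ in 𝓝 0, η + t • w ∈ U := by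
  have : Continuous fun t : ℂ => η + t • w := by fun_prop
  exact this.continuousAt.eventually (by simpa using hU)

/-- the linear map attached to a frame -/
noncomputable def L (v : Fin m → E → E) (η : E) : (Fin m → ℂ) →L[ℂ] E :=
  ∑ i, (ContinuousLinearMap.proj i).smulRight (v i η)

lemma L_apply (v : Fin m → E → E) (η : E) (c : Fin m → ℂ) : L v η c = ∑ i, c i • v i η := by
  simp [L]

lemma mem_span_iff (v : Fin m → E → E) (η w : E) :
    w ∈ Submodule.span ℂ (range fun i => v i η) ↔ ∃ c, L v η c = w := by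
  simp only [L_apply]
  exact Submodule.mem_span_range_iff_exists_fun ℂ

variable {Ω U : Set E} {Γ : E → F} {good : E → Prop} {d : E → ℂ} {v : Fin m → E → E}

lemma Hyp.freq (H : Hyp Ω Γ good m d) {z : E} (hz : z ∈ Ω) : ∃ᶠ w in 𝓝 z, good w := by
  have h1 : ∃ᶠ w in 𝓝 z, d w ≠ 0 := not_eventually.1 (H.dne z hz)
  exact (h1.and_eventually (H.op.mem_nhds hz)).mono fun w hw => H.dgood w hw.2 hw.1

lemma Hyp.da (H : Hyp Ω Γ good m d) {z : E} (hz : z ∈ Ω) : DifferentiableAt ℂ Γ z :=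
  H.diff.differentiableAt (H.op.mem_nhds hz)

lemma Frame.Lcont (V : Frame Ω Γ good U v) : ContinuousOn (L v) U := by
  unfold L
  refine continuousOn_finsetSum _ fun i _ => ?_
  exact (ContinuousLinearMap.smulRightL ℂ (Fin m → ℂ) E
    (ContinuousLinearMap.proj i)).continuous.comp_continuousOn (V.cont i)

lemma Frame.const (V : Frame Ω Γ good U v) (H : Hyp Ω Γ good m d) {η : E} (hη : η ∈ U)
    (c : Fin m → ℂ) (h : η + L v η c ∈ Ω) : Γ (η + L v η c) = Γ η := by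
  have hL : ContinuousAt (fun x => x + L v x c) η :=
    continuousAt_id.add ((V.Lcont.continuousAt (V.op.mem_nhds hη)).clm_apply continuousAt_const)
  have h1 : Tendsto (fun x => Γ (x + L v x c)) (𝓝 η) (𝓝 (Γ (η + L v η c))) :=
    (H.da h).continuousAt.tendsto.comp hL.tendsto
  refine tendsto_nhds_unique_of_frequently_eq h1 (H.da (V.sub hη)).continuousAt.tendsto ?_
  refine ((H.freq (V.sub hη)).and_eventually ((hL.eventually (H.op.mem_nhds h)).and
    (V.op.mem_nhds hη))).mono fun x hx => ?_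
  refine (H.lev x (V.sub hx.2.2) hx.1 _ hx.2.1).2 ?_
  rw [add_sub_cancel_left, ← V.sp x hx.2.2 hx.1, mem_span_iff]
  exact ⟨c, rfl⟩

lemma Frame.HL (V : Frame Ω Γ good U v) (H : Hyp Ω Γ good m d) {η : E} (hη : η ∈ U)
    (c : Fin m → ℂ) : fderiv ℂ Γ η (L v η c) = 0 := by
  refine line_zero (H.da (V.sub hη)) ?_
  filter_upwards [ev_line (H.op.mem_nhds (V.sub hη)) (L v η c)] with t ht
  rw [← map_smul] at ht ⊢
  exact V.const H hη _ ht

lemma Frame.span_eq (V : Frame Ω Γ good U v) (H : Hyp Ω Γ good m d) {η ξ : E} (hη : η ∈ U)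
    (hξ : ξ ∈ Ω) (hg : good ξ) (h : Γ η = Γ ξ) :
    Submodule.span ℂ (range fun i => v i η) = Kr Γ ξ := by
  refine Submodule.eq_of_le_of_finrank_eq (fun w hw => ?_) ?_
  · obtain ⟨c, rfl⟩ := (mem_span_iff v η w).1 hw
    obtain ⟨t, ht, ht0⟩ := (((ev_line (H.op.mem_nhds (V.sub hη)) (L v η c)).filter_mono
      (nhdsWithin_le_nhds (s := {0}ᶜ))).and self_mem_nhdsWithin).exists
    have h1 : η + L v η (t • c) ∈ Ω := by rwa [map_smul]
    have h2 := (H.lev ξ hξ hg _ h1).1 ((V.const H hη _ h1).trans h)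
    have h3 := (H.lev ξ hξ hg _ (V.sub hη)).1 h
    have h4 := (Kr Γ ξ).sub_mem h2 h3
    have h5 : η + L v η (t • c) - ξ - (η - ξ) = t • L v η c := by rw [map_smul]; abel
    rw [h5] at h4
    exact ((Kr Γ ξ).smul_mem_iff ht0).1 h4
  · rw [finrank_span_eq_card (V.li η hη), H.rk ξ hξ hg, Fintype.card_fin]

lemma Frame.exists_left (V : Frame Ω Γ good U v) {η : E} (hη : η ∈ U) :
    ∃ P : E →L[ℂ] (Fin m → ℂ), P ∘L L v η = 1 := by
  obtain ⟨P, hP⟩ := LinearMap.exists_leftInverse_of_injective (L v η : (Fin m → ℂ) →ₗ[ℂ] E) (by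
    rw [LinearMap.ker_eq_bot']
    intro c hc
    funext i
    exact Fintype.linearIndependent_iff.1 (V.li η hη) c (by rw [← L_apply]; exact hc) i)
  exact ⟨LinearMap.toContinuousLinearMap P, ContinuousLinearMap.coe_inj.1 hP⟩

/-- projection onto the frame -/
noncomputable def Pr (v : Fin m → E → E) (P : E →L[ℂ] (Fin m → ℂ)) (η : E) : E →L[ℂ] E :=
  L v η ∘L Ring.inverse (P ∘L L v η) ∘L P

lemma Pr_L {P : E →L[ℂ] (Fin m → ℂ)} {η : E} (hu : IsUnit (P ∘L L v η)) (c : Fin m → ℂ) :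
    Pr v P η (L v η c) = L v η c := by
  have := congrArg (fun A => A c) (Ring.inverse_mul_cancel _ hu)
  simp only [Pr, ContinuousLinearMap.comp_apply]
  congr 1

lemma P_Pr {P : E →L[ℂ] (Fin m → ℂ)} {η : E} (hu : IsUnit (P ∘L L v η)) (w : E) :
    P (Pr v P η w) = P w :=
  congrArg (fun A => A (P w)) (Ring.mul_inverse_cancel _ hu)

lemma Frame.Prcont (V : Frame Ω Γ good U v) {P : E →L[ℂ] (Fin m → ℂ)} {η : E} (hη : η ∈ U)
    (hu : IsUnit (P ∘L L v η)) : ContinuousAt (Pr v P) η := by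
  have h1 := V.Lcont.continuousAt (V.op.mem_nhds hη)
  have h2 : ContinuousAt (fun x => P ∘L L v x) η := continuousAt_const.clm_comp h1
  have h3 : ContinuousAt (fun x => Ring.inverse (P ∘L L v x)) η :=
    ContinuousAt.comp (f := fun x => P ∘L L v x)
      (differentiableAt_inverse (𝕜 := ℂ) hu).continuousAt h2
  exact h1.clm_comp (h3.clm_comp continuousAt_const)

lemma Frame.unit_open (V : Frame Ω Γ good U v) (P : E →L[ℂ] (Fin m → ℂ)) :
    IsOpen (U ∩ (fun x => P ∘L L v x) ⁻¹' {A | IsUnit A}) :=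
  (continuousOn_const.clm_comp V.Lcont).isOpen_inter_preimage V.op Units.isOpen

/-- limits of kernel vectors belong to the frame -/
lemma Frame.limit (V : Frame Ω Γ good U v) (H : Hyp Ω Γ good m d) {ξ₀ u : E} {ξ w : ℕ → E}
    (hξ₀ : ξ₀ ∈ Ω) (h1 : Tendsto ξ atTop (𝓝 ξ₀)) (h2 : Tendsto w atTop (𝓝 u))
    (hg : ∀ j, good (ξ j)) (hw : ∀ j, w j ∈ Kr Γ (ξ j)) (hη : ξ₀ + u ∈ U) :
    ∃ c, L v (ξ₀ + u) c = u := by
  obtain ⟨P, hP⟩ := V.exists_left hη
  have hu : IsUnit (P ∘L L v (ξ₀ + u)) := hP ▸ isUnit_one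
  have h3 : Tendsto (fun j => ξ j + w j) atTop (𝓝 (ξ₀ + u)) := h1.add h2
  have h4 : Tendsto (fun j => Pr v P (ξ j + w j) (w j)) atTop (𝓝 (Pr v P (ξ₀ + u) u)) :=
    ((isBoundedBilinearMap_apply (𝕜 := ℂ)).continuous.tendsto _).comp
      (((V.Prcont hη hu).tendsto.comp h3).prodMk_nhds h2)
  have h5 : ∀ᶠ j in atTop, Pr v P (ξ j + w j) (w j) = w j := by
    filter_upwards [h3.eventually ((V.unit_open P).mem_nhds ⟨hη, hu⟩),
      h1.eventually (H.op.mem_nhds hξ₀)] with j hj hj'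
    have h6 : Γ (ξ j + w j) = Γ (ξ j) :=
      (H.lev _ hj' (hg j) _ (V.sub hj.1)).2 (by simpa using hw j)
    have h7 := hw j
    rw [← V.span_eq H hj.1 hj' (hg j) h6, mem_span_iff] at h7
    obtain ⟨c, hc⟩ := h7
    conv_lhs => arg 2; rw [← hc]
    rw [Pr_L hj.2, hc]
  exact ⟨_, tendsto_nhds_unique (h4.congr' h5) h2⟩

/-- transport of frames along a leaf -/
theorem Frame.transport (V : Frame Ω Γ good U v) (H : Hyp Ω Γ good m d) {η₀ : E} (hη : η₀ ∈ U)
    (c₀ : Fin m → ℂ) (hΩ : ∀ t : ℂ, ‖t‖ ≤ 2 → η₀ + t • L v η₀ c₀ ∈ Ω) :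
    ∃ (U' : Set E) (v' : Fin m → E → E), η₀ - L v η₀ c₀ ∈ U' ∧ Frame Ω Γ good U' v' := by
  have : CompleteSpace E := FiniteDimensional.complete ℂ E
  have : CompleteSpace F := FiniteDimensional.complete ℂ F
  obtain ⟨P, hP⟩ := V.exists_left hη
  have hu : IsUnit (P ∘L L v η₀) := hP ▸ isUnit_one
  set v₀ := L v η₀ c₀ with hv₀
  set U₁ := U ∩ (fun x => P ∘L L v x) ⁻¹' {A | IsUnit A} with hU₁
  have hU₁o : IsOpen U₁ := V.unit_open P
  have hη₁ : η₀ ∈ U₁ := ⟨hη, hu⟩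
  set X : E → E := fun η => Pr v P η v₀ with hX
  have hX0 : X η₀ = v₀ := Pr_L hu c₀
  have hXL : ∀ η, ∃ c, X η = L v η c := fun η => ⟨_, rfl⟩
  have hXP : ∀ η ∈ U₁, P (X η) = P v₀ := fun η h => P_Pr h.2 v₀
  have hXu : ∀ η ∈ U₁, ∀ c, P (L v η c) = P v₀ → L v η c = X η := by
    intro η h c hc
    rw [← Pr_L h.2 c]
    simp only [hX, Pr, ContinuousLinearMap.comp_apply, hc]
  have hXc : ContinuousOn X U₁ := fun η h =>
    ((V.Prcont h.1 h.2).clm_apply continuousAt_const).continuousWithinAt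
  have hH : DifferentiableOn ℂ (fderiv ℂ Γ) Ω := SCV.differentiableOn_fderiv H.op H.diff
  have hXg : ∀ η ∈ U₁, good η → DifferentiableAt ℂ X η := by
    intro η h hg
    set M : E → E →L[ℂ] F × (Fin m → ℂ) := fun x => (fderiv ℂ Γ x).prod P with hM
    have hMd : DifferentiableAt ℂ M η := by
      have h1 := hH.differentiableAt (H.op.mem_nhds (V.sub h.1))
      exact (ContinuousLinearMap.prodₗᵢ ℂ).toContinuousLinearEquiv.differentiableAt.comp η
        (h1.prodMk (differentiableAt_const P))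
    obtain ⟨R, hR⟩ := LinearMap.exists_leftInverse_of_injective
      (M η : E →ₗ[ℂ] F × (Fin m → ℂ)) (by
        rw [LinearMap.ker_eq_bot']
        intro w hw
        have h1 : fderiv ℂ Γ η w = 0 := congrArg Prod.fst hw
        have h2 : P w = 0 := congrArg Prod.snd hw
        rw [← mem_Kr, ← V.sp η h.1 hg, mem_span_iff] at h1
        obtain ⟨c, rfl⟩ := h1
        rw [← Pr_L h.2 c]
        simp only [Pr, ContinuousLinearMap.comp_apply, h2, map_zero])
    set R' := LinearMap.toContinuousLinearMap R with hR'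
    have hRM : R' ∘L M η = 1 := ContinuousLinearMap.coe_inj.1 hR
    have hd : DifferentiableAt ℂ (fun x => R' ∘L M x) η := (differentiableAt_const _).clm_comp hMd
    have hun : IsUnit (R' ∘L M η) := hRM ▸ isUnit_one
    have h3 : DifferentiableAt ℂ (fun x => Ring.inverse (R' ∘L M x) (R' (0, P v₀))) η :=
      (hd.inverse hun).clm_apply (differentiableAt_const _)
    refine h3.congr_of_eventuallyEq ?_
    filter_upwards [hU₁o.mem_nhds h, hd.continuousAt.eventually (Units.isOpen.mem_nhds hun)]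
      with x hx hx'
    have h4 : M x (X x) = (0, P v₀) := by
      obtain ⟨c, hc⟩ := hXL x
      refine Prod.ext ?_ (hXP x hx)
      rw [hc]
      exact V.HL H hx.1 c
    rw [← h4]
    exact (congrArg (fun A => A (X x)) (Ring.inverse_mul_cancel _ hx')).symm
  have hXd : DifferentiableOn ℂ X U₁ :=
    Riem.riemann hU₁o hXc (H.ddiff.mono fun x hx => V.sub hx.1)
      (fun z hz h => hXg z hz (H.dgood z (V.sub hz.1) h)) fun z hz => H.dne z (V.sub hz.1)
  have htube : ∀ᶠ η in 𝓝 η₀, ∀ t ∈ closedBall (0 : ℂ) 2, η + t • X η ∈ Ω := by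
    refine (isCompact_closedBall _ _).eventually_forall_of_forall_eventually fun t ht => ?_
    have h1 : ContinuousAt (fun p : E × ℂ => p.1 + p.2 • X p.1) (η₀, t) :=
      continuousAt_fst.add (continuousAt_snd.smul
        (ContinuousAt.comp (f := Prod.fst) (hXc.continuousAt (hU₁o.mem_nhds hη₁))
          continuousAt_fst))
    refine h1.eventually (H.op.mem_nhds ?_)
    simp only [hX0]
    exact hΩ t (mem_closedBall_zero_iff.1 ht)
  obtain ⟨U₂, hU₂, hU₂o, hη₂⟩ := _root_.eventually_nhds_iff.1 (htube.and (hU₁o.mem_nhds hη₁))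
  have hflow : ∀ η ∈ U₂, ∀ t : ℂ, ‖t‖ ≤ 2 → η + t • X η ∈ Ω ∧ Γ (η + t • X η) = Γ η := by
    intro η h t ht
    have h1 := (hU₂ η h).1 t (mem_closedBall_zero_iff.2 ht)
    refine ⟨h1, ?_⟩
    obtain ⟨c, hc⟩ := hXL η
    rw [hc, ← map_smul] at h1 ⊢
    exact V.const H (hU₂ η h).2.1 _ h1
  have hXa : ∀ η ∈ U₂, DifferentiableAt ℂ X η := fun η h =>
    hXd.differentiableAt (hU₁o.mem_nhds (hU₂ η h).2)
  have hdet : ∀ η ∈ U₂, good η → ∀ t : ℂ, ‖t‖ ≤ 2 → (1 + t • fderiv ℂ X η).det ≠ 0 := by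
    intro η h hg t ht
    have hηΩ : η ∈ Ω := V.sub (hU₂ η h).2.1
    have h1 : HasFDerivAt (fun x => x + t • X x) (1 + t • fderiv ℂ X η) η :=
      (hasFDerivAt_id η).add ((hXa η h).hasFDerivAt.const_smul t)
    have h2 := (H.da (hflow η h t ht).1).hasFDerivAt.comp η h1
    have h3 : HasFDerivAt (Γ ∘ fun x => x + t • X x) (fderiv ℂ Γ η) η := by
      refine (H.da hηΩ).hasFDerivAt.congr_of_eventuallyEq ?_
      filter_upwards [hU₂o.mem_nhds h] with x hx
      exact (hflow x hx t ht).2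
    have h4 := h2.unique h3
    rw [ContinuousLinearMap.det, Ne, LinearMap.det_eq_zero_iff_ker_ne_bot, not_not,
      LinearMap.ker_eq_bot']
    intro w hw
    have hw' : (1 + t • fderiv ℂ X η) w = 0 := hw
    have h5 : w ∈ Kr Γ η := by
      rw [mem_Kr, ← h4, ContinuousLinearMap.comp_apply, hw', map_zero]
    have h6 : fderiv ℂ X η w = 0 := by
      refine line_zero (hXa η h) ?_
      filter_upwards [ev_line (hU₂o.mem_nhds h) w] with s hs
      have h7 : Γ (η + s • w) = Γ η := (H.lev η hηΩ hg _ (V.sub (hU₂ _ hs).2.1)).2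
        (by simpa using (Kr Γ η).smul_mem s h5)
      have h8 : X (η + s • w) ∈ Kr Γ η := by
        rw [← V.span_eq H (hU₂ _ hs).2.1 hηΩ hg h7, mem_span_iff]
        obtain ⟨c, hc⟩ := hXL (η + s • w)
        exact ⟨c, hc.symm⟩
      rw [← V.sp η (hU₂ η h).2.1 hg, mem_span_iff] at h8
      obtain ⟨c, hc⟩ := h8
      rw [← hc]
      exact hXu η (hU₂ η h).2 c (by rw [hc]; exact hXP _ (hU₂ _ hs).2)
    simpa [h6] using hw'
  have hTc : ContinuousAt (fderiv ℂ X) η₀ :=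
    (SCV.continuousOn_fderiv hU₁o hXd).continuousAt (hU₁o.mem_nhds hη₁)
  have hdet0 : (1 + (-1 : ℂ) • fderiv ℂ X η₀).det ≠ 0 := by
    refine Riem.hurwitz (hTc.tendsto.frequently ?_)
    exact ((H.freq (V.sub hη)).and_eventually (hU₂o.mem_nhds hη₂)).mono
      fun x hx => hdet x hx.2 hx.1
  have hstrict : HasStrictFDerivAt (fun x => x + (-1 : ℂ) • X x)
      ((1 + (-1 : ℂ) • fderiv ℂ X η₀).toContinuousLinearEquivOfDetNeZero hdet0 : E →L[ℂ] E)
      η₀ := by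
    rw [ContinuousLinearMap.coe_toContinuousLinearEquivOfDetNeZero]
    exact (hasStrictFDerivAt_id η₀).add
      ((SCV.analyticOnNhd_of_differentiableOn hU₁o hXd η₀ hη₁).hasStrictFDerivAt.const_smul _)
  set e := hstrict.toOpenPartialHomeomorph _ with he
  have hecoe : ∀ x, e x = x + (-1 : ℂ) • X x := fun x => rfl
  have hsrc : η₀ ∈ e.source := hstrict.mem_toOpenPartialHomeomorph_source
  have hpt : η₀ - v₀ = e η₀ := by rw [hecoe, hX0, neg_one_smul, sub_eq_add_neg]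
  have hrel : ∀ ξ ∈ e.target ∩ e.symm ⁻¹' U₂, ξ ∈ Ω ∧ Γ (e.symm ξ) = Γ ξ := by
    intro ξ h
    have h1 := hflow _ h.2 (-1) (by simp)
    rw [← hecoe, e.right_inv h.1] at h1
    exact ⟨h1.1, h1.2.symm⟩
  refine ⟨e.target ∩ e.symm ⁻¹' U₂, fun i ξ => v i (e.symm ξ), ?_,
    e.isOpen_inter_preimage_symm hU₂o, fun ξ h => (hrel ξ h).1, fun i => ?_,
    fun ξ h => V.li _ (hU₂ _ h.2).2.1,
    fun ξ h hg => V.span_eq H (hU₂ _ h.2).2.1 (hrel ξ h).1 hg (hrel ξ h).2⟩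
  · rw [hpt]
    refine ⟨e.map_source hsrc, ?_⟩
    rw [mem_preimage, e.left_inv hsrc]
    exact hη₂
  · exact (V.cont i).comp (e.continuousOn_symm.mono inter_subset_left)
      fun ξ h => (hU₂ _ h.2).2.1

/-- the singular set contains a piece of line through each of its points -/
theorem main (H : Hyp Ω Γ good m d) (hm : m ≠ 0) {ξ₀ : E} (hξ₀ : ξ₀ ∈ Ω)
    (hs : ¬ ∃ (U : Set E) (v : Fin m → E → E), ξ₀ ∈ U ∧ Frame Ω Γ good U v) :
    ∃ W : Submodule ℂ E, W ≠ ⊥ ∧ ∃ N ∈ 𝓝 ξ₀, ∀ η ∈ N, η - ξ₀ ∈ W →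
      η ∈ Ω ∧ ¬ ∃ (U : Set E) (v : Fin m → E → E), η ∈ U ∧ Frame Ω Γ good U v := by
  have : ProperSpace E := FiniteDimensional.proper ℂ E
  obtain ⟨ξ, hξ, hξg⟩ := exists_seq_forall_of_frequently
    ((H.freq hξ₀).and_eventually (H.op.mem_nhds hξ₀))
  have hex : ∀ j, ∃ w ∈ sphere (0 : E) 1, w ∈ Kr Γ (ξ j) := by
    intro j
    have h1 : Kr Γ (ξ j) ≠ ⊥ := by
      intro h
      have := H.rk _ (hξg j).2 (hξg j).1
      rw [h, finrank_bot] at this
      exact hm this.symm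
    obtain ⟨w, hw, hw0⟩ := Submodule.exists_mem_ne_zero_of_ne_bot h1
    refine ⟨((‖w‖⁻¹ : ℝ) : ℂ) • w, ?_, (Kr Γ (ξ j)).smul_mem _ hw⟩
    rw [mem_sphere_zero_iff_norm, norm_smul, norm_real, norm_inv, norm_norm,
      inv_mul_cancel₀ (norm_ne_zero_iff.2 hw0)]
  choose w hw1 hw2 using hex
  obtain ⟨u, hu, φ, hφ, hlim⟩ := (isCompact_sphere (0 : E) 1).tendsto_subseq hw1
  have hu0 : u ≠ 0 := by
    rintro rfl
    simp at hu
  obtain ⟨ε, hε, hball⟩ := Metric.isOpen_iff.1 H.op ξ₀ hξ₀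
  refine ⟨Submodule.span ℂ {u}, by simpa using hu0, ball ξ₀ (ε / 4),
    ball_mem_nhds _ (by positivity), fun η hη hW => ?_⟩
  refine ⟨hball (ball_subset_ball (by linarith) hη), ?_⟩
  rintro ⟨U, v, hηU, V⟩
  obtain ⟨t, ht⟩ := Submodule.mem_span_singleton.1 hW
  have hη' : η = ξ₀ + t • u := by rw [ht]; abel
  obtain ⟨c, hc⟩ := V.limit H (ξ := ξ ∘ φ) (w := fun j => t • w (φ j)) hξ₀
    (hξ.comp hφ.tendsto_atTop) (hlim.const_smul t) (fun j => (hξg _).1)
    (fun j => (Kr Γ _).smul_mem t (hw2 _)) (hη' ▸ hηU)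
  rw [← hη', ht] at hc
  obtain ⟨U', v', h1, h2⟩ := V.transport H hηU c (fun s hs => by
    refine hball (mem_ball_iff_norm.2 ?_)
    have h3 := mem_ball_iff_norm.1 hη
    have h4 : η + s • L v η c - ξ₀ = (η - ξ₀) + s • (η - ξ₀) := by rw [hc]; abel
    have h5 := norm_add_le (η - ξ₀) (s • (η - ξ₀))
    rw [norm_smul] at h5
    rw [h4]
    nlinarith [norm_nonneg (η - ξ₀)])
  rw [hc, sub_sub_cancel] at h1
  exact hs ⟨U', v', h1, h2⟩

/-- a holomorphic function detecting maximal rank -/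
theorem exists_d (hΩ : IsOpen Ω) (hc : IsPreconnected Ω) (hΓ : DifferentiableOn ℂ Γ Ω) {ξ : E}
    (hξ : ξ ∈ Ω) : ∃ d : E → ℂ, DifferentiableOn ℂ d Ω ∧ (∀ z ∈ Ω, ¬ ∀ᶠ w in 𝓝 z, d w = 0) ∧
      ∀ z, d z ≠ 0 → finrank ℂ (LinearMap.range (fderiv ℂ Γ ξ : E →ₗ[ℂ] F)) ≤
        finrank ℂ (LinearMap.range (fderiv ℂ Γ z : E →ₗ[ℂ] F)) := by
  have : CompleteSpace F := FiniteDimensional.complete ℂ F
  set f : E →ₗ[ℂ] F := (fderiv ℂ Γ ξ : E →ₗ[ℂ] F) with hf
  obtain ⟨J, hJ⟩ := f.rangeRestrict.exists_rightInverse_of_surjective f.range_rangeRestrict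
  obtain ⟨Q, hQ⟩ := (LinearMap.range f).subtype.exists_leftInverse_of_injective
    (Submodule.ker_subtype _)
  set J' := LinearMap.toContinuousLinearMap J
  set Q' := LinearMap.toContinuousLinearMap Q
  have hH : DifferentiableOn ℂ (fderiv ℂ Γ) Ω := SCV.differentiableOn_fderiv hΩ hΓ
  have hd : DifferentiableOn ℂ (fun z => (Q' ∘L fderiv ℂ Γ z ∘L J').det) Ω := fun z hz =>
    (Riem.differentiableAt_det ((differentiableAt_const _).clm_comp
      ((hH.differentiableAt (hΩ.mem_nhds hz)).clm_comp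
        (differentiableAt_const _)))).differentiableWithinAt
  refine ⟨_, hd, fun z hz h => ?_, fun z hz => ?_⟩
  · have h1 := (SCV.analyticOnNhd_of_differentiableOn hΩ hd).eqOn_zero_of_preconnected_of_eventuallyEq_zero
      hc hz h hξ
    have h2 : Q' ∘L fderiv ℂ Γ ξ ∘L J' = 1 := by
      ext1 x
      have h3 := LinearMap.congr_fun hJ x
      have h4 := LinearMap.congr_fun hQ x
      simp only [LinearMap.comp_apply, LinearMap.id_apply] at h3 h4
      conv_rhs => rw [one_apply_eq_self, ← h4, ← h3]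
      rfl
    simp only [h2, Pi.zero_apply] at h1
    simp [ContinuousLinearMap.det] at h1
  · have h1 : LinearMap.range ((Q' ∘L fderiv ℂ Γ z ∘L J' :) :
        LinearMap.range f →ₗ[ℂ] LinearMap.range f) = ⊤ := by
      rw [ContinuousLinearMap.det, Ne, LinearMap.det_eq_zero_iff_ker_ne_bot, not_not] at hz
      exact LinearMap.ker_eq_bot_iff_range_eq_top.1 hz
    have h2 : (⊤ : Submodule ℂ (LinearMap.range f)) ≤
        (LinearMap.range (fderiv ℂ Γ z : E →ₗ[ℂ] F)).map Q := by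
      rw [← h1]
      rintro _ ⟨x, rfl⟩
      exact ⟨_, ⟨J x, rfl⟩, rfl⟩
    calc _ = finrank ℂ (⊤ : Submodule ℂ (LinearMap.range f)) := (finrank_top _ _).symm
      _ ≤ _ := Submodule.finrank_mono h2
      _ ≤ _ := Submodule.finrank_map_le _ _

end Pool.Agent.H97.Fib
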