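import Mathlib

namespace Pool.Agent.H97.Frag

open Finset SimpleGraph

variable {n : ℕ}

open Classical in
noncomputable def comp (G : SimpleGraph (Fin n)) (x : Fin n) : Finset (Fin n) :=
  univ.filter (G.Reachable x)

theorem mem_comp {G : SimpleGraph (Fin n)} {x y : Fin n} : y ∈ comp G x ↔ G.Reachable x y := by
  simp [comp]

theorem closed {G : SimpleGraph (Fin n)} {x y : Fin n} (S : Fin n → Prop) (hx : S x)
    (h : ∀ a b, S a → G.Adj a b → S b) (r : G.Reachable x y) : S y := by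
  rw [reachable_iff_reflTransGen] at r
  induction r with
  | refl => exact hx
  | tail _ k ih => exact h _ _ ih k

theorem transf {G H : SimpleGraph (Fin n)} {x y : Fin n}
    (h : ∀ a b, G.Reachable x a → G.Reachable x b → G.Adj a b → H.Adj a b)
    (r : G.Reachable x y) : H.Reachable x y :=
  (closed (fun a => G.Reachable x a ∧ H.Reachable x a) ⟨.rfl, .rfl⟩ (fun a b k e =>
    ⟨k.1.trans e.reachable, k.2.trans (h a b k.1 (k.1.trans e.reachable) e).reachable⟩) r).2

def del (G : SimpleGraph (Fin n)) (p : Fin n × Fin n) : SimpleGraph (Fin n) :=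
  G.deleteEdges {s(p.1, p.2)}

theorem del_adj {G : SimpleGraph (Fin n)} {p : Fin n × Fin n} {a b : Fin n} :
    (del G p).Adj a b ↔ G.Adj a b ∧ ¬ (a = p.1 ∧ b = p.2 ∨ a = p.2 ∧ b = p.1) := by
  simp only [del, deleteEdges_adj, Set.mem_singleton_iff, Sym2.eq_iff]

def Dn (F : SimpleGraph (Fin n)) (p : Fin n × Fin n) : Prop :=
  ∃ r, F.Reachable p.2 r ∧ ∀ x, F.Reachable p.1 x → r < x

theorem Dn.not_reach {F : SimpleGraph (Fin n)} {p : Fin n × Fin n} (h : Dn F p) :
    ¬ F.Reachable p.1 p.2 := fun k => by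
  obtain ⟨r, r1, r2⟩ := h
  exact lt_irrefl _ (r2 r (k.trans r1))

theorem dn_or {F : SimpleGraph (Fin n)} {u v : Fin n} (h : ¬ F.Reachable u v) :
    Dn F (u, v) ∨ Dn F (v, u) := by
  obtain ⟨r, r1, r2⟩ := exists_min_image (comp F u ∪ comp F v) id
    ⟨u, mem_union_left _ (mem_comp.2 .rfl)⟩
  rcases mem_union.1 r1 with k | k
  · exact Or.inr ⟨r, mem_comp.1 k, fun x hx => lt_of_le_of_ne
      (r2 x (mem_union_right _ (mem_comp.2 hx))) fun e => h ((mem_comp.1 k).trans (e ▸ hx.symm))⟩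
  · exact Or.inl ⟨r, mem_comp.1 k, fun x hx => lt_of_le_of_ne
      (r2 x (mem_union_left _ (mem_comp.2 hx))) fun e => h (hx.trans (e ▸ (mem_comp.1 k).symm))⟩

open Classical in
noncomputable def DB (G : SimpleGraph (Fin n)) : Finset (Fin n × Fin n) :=
  univ.filter fun p => G.Adj p.1 p.2 ∧ Dn (del G p) p

theorem mem_DB {G : SimpleGraph (Fin n)} {p : Fin n × Fin n} :
    p ∈ DB G ↔ G.Adj p.1 p.2 ∧ Dn (del G p) p := by simp [DB]

theorem move {G : SimpleGraph (Fin n)} {p q : Fin n × Fin n} {x y : Fin n}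
    (h : ¬ ((del G p).Reachable x q.1 ∧ (del G p).Reachable x q.2))
    (r : (del G p).Reachable x y) : (del (del G p) q).Reachable x y :=
  transf (fun a b ha hb e => del_adj.2 ⟨e, fun k => by
    rcases k with ⟨rfl, rfl⟩ | ⟨rfl, rfl⟩
    · exact h ⟨ha, hb⟩
    · exact h ⟨hb, ha⟩⟩) r

theorem del_del_le (G : SimpleGraph (Fin n)) (p q : Fin n × Fin n) : del (del G p) q ≤ del G q :=
  fun _ _ e => del_adj.2 ⟨(del_adj.1 (del_adj.1 e).1).1, (del_adj.1 e).2⟩

theorem del_le (G : SimpleGraph (Fin n)) (p : Fin n × Fin n) : del G p ≤ G :=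
  fun _ _ e => (del_adj.1 e).1

theorem del_comm (G : SimpleGraph (Fin n)) (p q : Fin n × Fin n) :
    del (del G p) q = del (del G q) p := by
  ext a b
  simp only [del_adj]
  tauto

theorem adj_del {G : SimpleGraph (Fin n)} {p q : Fin n × Fin n} (hp : p ∈ DB G) (hq : q ∈ DB G)
    (ne : p ≠ q) : (del G q).Adj p.1 p.2 := by
  refine del_adj.2 ⟨(mem_DB.1 hp).1, fun k => ?_⟩
  rcases k with k | k
  · exact ne (Prod.ext k.1 k.2)
  obtain ⟨r, r1, r2⟩ := (mem_DB.1 hp).2
  obtain ⟨s, s1, s2⟩ := (mem_DB.1 hq).2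
  have e : del G p = del G q := by
    ext a b
    simp only [del_adj, k.1, k.2]
    tauto
  rw [e, k.2] at r1
  rw [e, k.1] at r2
  exact lt_asymm (r2 s s1) (s2 r r1)

theorem db_inj {G : SimpleGraph (Fin n)} {p q : Fin n × Fin n} (hp : p ∈ DB G) (hq : q ∈ DB G)
    (e : p.1 = q.1) : p = q := by
  by_contra ne
  have key : ∀ p q : Fin n × Fin n, p ∈ DB G → q ∈ DB G → p.1 = q.1 → p ≠ q → ∀ r,
      (del G p).Reachable p.2 r → (del G q).Reachable q.1 r := fun p q hp hq e ne r h =>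
    e ▸ (adj_del hp hq ne).reachable.trans ((move (q := q) (fun k =>
      (mem_DB.1 hp).2.not_reach (e ▸ k.1.symm)) h).mono (del_del_le G p q))
  obtain ⟨r, r1, r2⟩ := (mem_DB.1 hp).2
  obtain ⟨s, s1, s2⟩ := (mem_DB.1 hq).2
  exact lt_asymm (r2 s (key q p hq hp e.symm (Ne.symm ne) s s1)) (s2 r (key p q hp hq e ne r r1))

theorem db_card (G : SimpleGraph (Fin n)) : (DB G).card ≤ n :=
  (card_le_card_of_injOn (t := univ) Prod.fst (fun _ _ => mem_univ _)
    fun _ hp _ hq e => db_inj hp hq e).trans (by simp)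

noncomputable def sd (G : SimpleGraph (Fin n)) (p : Fin n × Fin n) : Finset (Fin n) :=
  comp (del G p) p.1

theorem nested {G : SimpleGraph (Fin n)} {p q : Fin n × Fin n} (hp : p ∈ DB G) (hq : q ∈ DB G)
    {x : Fin n} (xp : x ∈ sd G p) (xq : x ∈ sd G q) : sd G p ⊆ sd G q ∨ sd G q ⊆ sd G p := by
  have key : ∀ p q : Fin n × Fin n, x ∈ sd G p → x ∈ sd G q → ¬ sd G p ⊆ sd G q →
      (del G p).Reachable p.1 q.1 ∧ (del G p).Reachable p.1 q.2 := fun p q xp xq h => by
    by_contra k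
    refine h fun y hy => mem_comp.2 ((mem_comp.1 xq).trans ?_)
    exact ((move k (mem_comp.1 xp)).symm.trans (move k (mem_comp.1 hy))).mono (del_del_le G p q)
  have key2 : ∀ p q : Fin n × Fin n, q ∈ DB G → (del G p).Reachable p.1 q.2 →
      (del G q).Reachable q.1 p.1 → ∀ r, (del G q).Reachable q.2 r → (del G p).Reachable p.1 r :=
    fun p q hq a b r h => a.trans ((move (q := p) (fun k =>
      (mem_DB.1 hq).2.not_reach (b.trans k.1.symm)) h).mono (del_del_le G q p))
  by_contra h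
  push Not at h
  obtain ⟨a1, a2⟩ := key p q xp xq h.1
  obtain ⟨b1, b2⟩ := key q p xq xp h.2
  obtain ⟨r, r1, r2⟩ := (mem_DB.1 hp).2
  obtain ⟨s, s1, s2⟩ := (mem_DB.1 hq).2
  exact lt_asymm (r2 s (key2 p q hq a2 b1 s s1)) (s2 r (key2 q p hp b2 a1 r r1))

theorem up {G : SimpleGraph (Fin n)} {p q : Fin n × Fin n} (hp : p ∈ DB G) (hq : q ∈ DB G)
    (ne : p ≠ q) (h : sd G p ⊆ sd G q) : q ∈ DB (del G p) ∧ p.2 ∈ sd (del G p) q ∧
      (sd G p).card + (sd (del G p) q).card = (sd G q).card := by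
  have a1 : (del G q).Reachable q.1 p.1 := mem_comp.1 (h (mem_comp.2 .rfl))
  have a2 := adj_del hq hp ne.symm
  have a3 : ¬ (del G p).Reachable p.1 q.1 := fun k =>
    (mem_DB.1 hq).2.not_reach (mem_comp.1 (h (mem_comp.2 (k.trans a2.reachable))))
  have a4 : ∀ y, (del G q).Reachable p.1 y →
      (del G p).Reachable p.1 y ∨ (del (del G p) q).Reachable p.2 y := fun y hy => by
    refine closed (fun y => (del G p).Reachable p.1 y ∨ (del (del G p) q).Reachable p.2 y)
      (Or.inl .rfl) (fun a b k e => ?_) hy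
    by_cases c : a = p.1 ∧ b = p.2 ∨ a = p.2 ∧ b = p.1
    · rcases c with c | c
      · exact Or.inr (c.2 ▸ .rfl)
      · exact Or.inl (c.2 ▸ .rfl)
    have e1 : (del G p).Adj a b := del_adj.2 ⟨(del_adj.1 e).1, c⟩
    exact k.imp (fun k => k.trans e1.reachable)
      fun k => k.trans (del_adj.2 ⟨e1, (del_adj.1 e).2⟩ : (del (del G p) q).Adj a b).reachable
  have a5 : (del (del G p) q).Reachable p.2 q.1 := (a4 _ a1.symm).resolve_left a3
  refine ⟨mem_DB.2 ⟨a2, ?_⟩, mem_comp.2 a5.symm, ?_⟩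
  · obtain ⟨s, s1, s2⟩ := (mem_DB.1 hq).2
    refine ⟨s, ?_, fun x hx => s2 x (hx.mono (del_del_le G p q))⟩
    rw [del_comm]
    exact move (fun k => (mem_DB.1 hq).2.not_reach (a1.trans k.1.symm)) s1
  · rw [← card_union_of_disjoint]
    · congr 1
      ext y
      simp only [mem_union, sd, mem_comp]
      constructor
      · rintro (k | k)
        · exact mem_comp.1 (h (mem_comp.2 k))
        · exact k.mono (del_del_le G p q)
      · exact fun k => (a4 y (a1.symm.trans k)).imp id fun k => a5.symm.trans k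
    · exact disjoint_left.2 fun y k1 k2 =>
        a3 ((mem_comp.1 k1).trans ((mem_comp.1 k2).mono (del_le _ q)).symm)

theorem blocks {α : Type} [DecidableEq α] (C : Finset α) (sz : α → ℕ) {w W N : ℕ} (hw : 0 < w)
    (hW : 0 < W) (inj : Set.InjOn sz C) (hN : ∀ p ∈ C, sz p ≤ N)
    (h : ∀ p ∈ C, (C.filter fun q => sz p + w < sz q ∧ sz q ≤ sz p + W).card < w) :
    C.card ≤ 2 * w * (N / W + 1) := by
  refine (card_le_mul_card_image_of_maps_to (f := fun p => sz p / W) (t := range (N / W + 1))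
    (fun p hp => mem_range.2 (Nat.lt_succ_of_le (Nat.div_le_div_right (hN p hp)))) _
    fun b _ => ?_).trans (by rw [card_range])
  rcases (C.filter fun p => sz p / W = b).eq_empty_or_nonempty with e | e
  · simp [e]
  obtain ⟨p, p1, p2⟩ := exists_min_image _ sz e
  obtain ⟨p3, p4⟩ := mem_filter.1 p1
  have a : (C.filter fun q => sz p ≤ sz q ∧ sz q ≤ sz p + w).card ≤ w + 1 :=
    (card_le_card_of_injOn (t := Icc (sz p) (sz p + w)) sz
      (fun q hq => mem_coe.2 (mem_Icc.2 (mem_filter.1 hq).2))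
      (inj.mono fun q hq => (mem_filter.1 hq).1)).trans (by simp; omega)
  have c : (C.filter fun q => sz q / W = b) ⊆ (C.filter fun q => sz p ≤ sz q ∧ sz q ≤ sz p + w) ∪
      C.filter fun q => sz p + w < sz q ∧ sz q ≤ sz p + W := fun q hq => by
    obtain ⟨q1, q2⟩ := mem_filter.1 hq
    have := p2 q hq
    have := Nat.div_add_mod (sz q) W
    have := Nat.div_add_mod (sz p) W
    have := Nat.mod_lt (sz q) hW
    rw [q2] at *
    simp only [mem_union, mem_filter, q1, true_and]
    rw [p4] at *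
    omega
  have d := (card_le_card c).trans (card_union_le _ _)
  have := h p p3
  omega

open Classical in
noncomputable def sc (F : SimpleGraph (Fin n)) (w W : ℕ) (u : Fin n) : ℕ :=
  ((DB F).filter fun q => u ∈ sd F q ∧ w < (sd F q).card ∧ (sd F q).card ≤ W).card

theorem dbl (F : SimpleGraph (Fin n)) (T : Finset (Fin n × Fin n)) :
    ∑ x, (T.filter fun q => x ∈ sd F q).card = ∑ q ∈ T, (sd F q).card := by
  simp only [card_filter]
  rw [sum_comm]
  exact sum_congr rfl fun q _ => by simp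

theorem rich (F : SimpleGraph (Fin n)) (K J : ℕ) (hK : 0 < K) :
    ∑ j ∈ range J, (univ.filter fun u => K ^ j ≤ sc F (K ^ j) (K ^ (j + 1)) u).card ≤ K * n := by
  have a : ∀ j, (univ.filter fun u => K ^ j ≤ sc F (K ^ j) (K ^ (j + 1)) u).card ≤
      K * ((DB F).filter fun q => K ^ j < (sd F q).card ∧ (sd F q).card ≤ K ^ (j + 1)).card := by
    intro j
    refine Nat.le_of_mul_le_mul_right (c := K ^ j) ?_ (by positivity)
    have b := (card_nsmul_le_sum _ (sc F (K ^ j) (K ^ (j + 1))) (K ^ j)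
      fun u hu => (mem_filter.1 hu).2).trans (sum_le_sum_of_subset (filter_subset _ univ))
    have c := dbl F ((DB F).filter fun q => K ^ j < (sd F q).card ∧ (sd F q).card ≤ K ^ (j + 1))
    have d := sum_le_card_nsmul ((DB F).filter fun q => K ^ j < (sd F q).card ∧
      (sd F q).card ≤ K ^ (j + 1)) (fun q => (sd F q).card) _ fun q hq => (mem_filter.1 hq).2.2
    have e : ∑ u, sc F (K ^ j) (K ^ (j + 1)) u = ∑ x, (((DB F).filter fun q =>
        K ^ j < (sd F q).card ∧ (sd F q).card ≤ K ^ (j + 1)).filter fun q => x ∈ sd F q).card :=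
      sum_congr rfl fun u _ => by
        rw [sc, filter_filter]
        congr 1
        ext q
        simp only [mem_filter]
        tauto
    rw [smul_eq_mul] at b d
    calc _ ≤ _ := b
      _ ≤ _ := e.le.trans (c.le.trans d)
      _ = _ := by ring
  refine (sum_le_sum fun j _ => a j).trans ?_
  rw [← mul_sum, ← card_biUnion]
  · exact Nat.mul_le_mul_left _ ((card_le_card (biUnion_subset.2 fun _ _ =>
      filter_subset _ _)).trans (db_card F))
  · have key : ∀ i j s : ℕ, s ≤ K ^ (i + 1) → K ^ j < s → ¬ i < j := fun i j s a b c => by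
      have := Nat.pow_le_pow_right hK (show i + 1 ≤ j from c)
      omega
    intro i _ j _ ne
    refine disjoint_left.2 fun q a b => ?_
    have := key i j _ (mem_filter.1 a).2.2 (mem_filter.1 b).2.1
    have := key j i _ (mem_filter.1 b).2.2 (mem_filter.1 a).2.1
    omega

theorem poor (G : SimpleGraph (Fin n)) {w W : ℕ} (hw : 0 < w) (hW : 0 < W) :
    ∑ p ∈ (DB G).filter (fun p => sc (del G p) w W p.2 < w), (sd G p).card ≤
      n * (2 * w * (n / W + 1)) := by
  rw [← dbl]
  refine (sum_le_card_nsmul _ _ _ fun x _ => ?_).trans (by simp; rfl)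
  have lt : ∀ p ∈ DB G, ∀ q ∈ DB G, p ≠ q → sd G p ⊆ sd G q → (sd G p).card < (sd G q).card :=
    fun p hp q hq ne h => by
      obtain ⟨-, a, b⟩ := up hp hq ne h
      have := card_pos.2 ⟨_, a⟩
      omega
  refine blocks _ (fun p => (sd G p).card) hw hW (fun p hp q hq e => by_contra fun ne => ?_)
    (fun p _ => (card_le_univ _).trans (by simp)) fun p hp => ?_
  · obtain ⟨a, b⟩ := mem_filter.1 hp
    obtain ⟨c, d⟩ := mem_filter.1 hq
    rcases nested (mem_filter.1 a).1 (mem_filter.1 c).1 b d with h | h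
    · exact (lt _ (mem_filter.1 a).1 _ (mem_filter.1 c).1 ne h).ne e
    · exact (lt _ (mem_filter.1 c).1 _ (mem_filter.1 a).1 (Ne.symm ne) h).ne' e
  · obtain ⟨a, b⟩ := mem_filter.1 hp
    refine lt_of_le_of_lt (card_le_card fun q hq => ?_) (mem_filter.1 a).2
    obtain ⟨c, d⟩ := mem_filter.1 hq
    obtain ⟨c, e⟩ := mem_filter.1 c
    have ne : p ≠ q := by rintro rfl; omega
    rcases nested (mem_filter.1 a).1 (mem_filter.1 c).1 b e with h | h
    · obtain ⟨u1, u2, u3⟩ := up (mem_filter.1 a).1 (mem_filter.1 c).1 ne h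
      exact mem_filter.2 ⟨u1, u2, by omega, by omega⟩
    · have := card_le_card h
      omega

end Pool.Agent.H97.Frag
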