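import Pool.Agent.H97.Frag1

namespace Pool.Agent.H97.Frag

open Finset SimpleGraph

variable {n : ℕ}

noncomputable def big (G : SimpleGraph (Fin n)) : ℕ := univ.sup fun x => (comp G x).card

noncomputable def fr (G : SimpleGraph (Fin n)) : ℕ := n - big G

theorem comp_le (G : SimpleGraph (Fin n)) (x : Fin n) : (comp G x).card ≤ big G :=
  le_sup (f := fun x => (comp G x).card) (mem_univ x)

theorem big_le (G : SimpleGraph (Fin n)) : big G ≤ n :=
  Finset.sup_le fun _ _ => (card_le_univ _).trans (by simp)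

theorem ex_big (h0 : 0 < n) (G : SimpleGraph (Fin n)) : ∃ x, big G = (comp G x).card := by
  obtain ⟨x, -, h⟩ := exists_mem_eq_sup univ ⟨⟨0, h0⟩, mem_univ _⟩ fun x => (comp G x).card
  exact ⟨x, h⟩

open Classical in
noncomputable def DF (F : SimpleGraph (Fin n)) : Finset (Fin n × Fin n) := univ.filter (Dn F)

theorem cross (F : SimpleGraph (Fin n)) : ∑ u, (n - (comp F u).card) ≤ 2 * (DF F).card := by
  have a : ∀ u, n - (comp F u).card = (comp F u)ᶜ.card := fun u => by simp [card_compl]
  simp only [a]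
  rw [← card_sigma]
  refine (card_le_card_of_injOn (t := DF F ∪ (DF F).image Prod.swap) (fun z => (z.1, z.2))
    (fun z hz => ?_) fun z _ z' _ h => ?_).trans ((card_union_le _ _).trans ?_)
  · have h : ¬ F.Reachable z.1 z.2 := by simpa [mem_comp] using hz
    rcases dn_or h with k | k
    · exact mem_coe.2 (mem_union_left _ (by simpa [DF] using k))
    · exact mem_coe.2 (mem_union_right _ (mem_image.2 ⟨(z.2, z.1), by simpa [DF] using k, rfl⟩))
  · simp only [Prod.mk.injEq] at h
    exact Sigma.ext h.1 (heq_of_eq h.2)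
  · have := card_image_le (s := DF F) (f := Prod.swap)
    omega

theorem c2a (F : SimpleGraph (Fin n)) : n * fr F ≤ 2 * (DF F).card := by
  refine le_trans ?_ (cross F)
  have := card_nsmul_le_sum univ (fun u => n - (comp F u).card) (fr F)
    fun u _ => Nat.sub_le_sub_left (comp_le F u) n
  simpa using this

theorem c2b (h0 : 0 < n) (F : SimpleGraph (Fin n)) : big F * fr F ≤ (DF F).card := by
  obtain ⟨x, hx⟩ := ex_big h0 F
  have a := cross F
  rw [← sum_add_sum_compl (comp F x)] at a
  have b := card_nsmul_le_sum (comp F x) (fun u => n - (comp F u).card) (fr F)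
    fun u _ => Nat.sub_le_sub_left (comp_le F u) n
  have c := card_nsmul_le_sum (comp F x)ᶜ (fun u => n - (comp F u).card) (big F) fun u hu => by
    have d : Disjoint (comp F x) (comp F u) := disjoint_left.2 fun y k1 k2 =>
      mem_compl.1 hu (mem_comp.2 ((mem_comp.1 k1).trans (mem_comp.1 k2).symm))
    have e := card_le_univ (comp F x ∪ comp F u)
    rw [card_union_of_disjoint d, Fintype.card_fin] at e
    omega
  rw [card_compl, Fintype.card_fin, smul_eq_mul, ← hx, mul_comm] at c
  rw [smul_eq_mul, ← hx] at b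
  unfold fr at *
  omega

def ad (F : SimpleGraph (Fin n)) (p : Fin n × Fin n) : SimpleGraph (Fin n) := F ⊔ edge p.1 p.2

theorem del_ad {F : SimpleGraph (Fin n)} {p : Fin n × Fin n} (h : Dn F p) : del (ad F p) p = F := by
  ext a b
  simp only [del_adj, ad, sup_adj, edge_adj]
  constructor
  · tauto
  · refine fun k => ⟨Or.inl k, ?_⟩
    rintro (⟨rfl, rfl⟩ | ⟨rfl, rfl⟩)
    · exact h.not_reach k.reachable
    · exact h.not_reach k.reachable.symm

theorem ad_db {F : SimpleGraph (Fin n)} {p : Fin n × Fin n} (h : Dn F p) : p ∈ DB (ad F p) := by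
  refine mem_DB.2 ⟨Or.inr ?_, by rwa [del_ad h]⟩
  have : p.1 ≠ p.2 := fun e => h.not_reach (e ▸ .rfl)
  simp [edge_adj, this]

theorem big_ad (h0 : 0 < n) (F : SimpleGraph (Fin n)) (p : Fin n × Fin n) :
    big (ad F p) ≤ big F + (comp F p.1).card := by
  obtain ⟨x, hx⟩ := ex_big h0 (ad F p)
  have key : ∀ y z, (F.Reachable y z ∨ F.Reachable p.1 z) → (F.Reachable y p.2 ∨
      ¬ (F.Reachable y p.1 ∨ F.Reachable y p.2) ∧ y = z) →
      comp (ad F p) z ⊆ comp F y ∪ comp F p.1 := by
    intro y z h1 h2 a ha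
    rcases h2 with h2 | ⟨h2, rfl⟩
    · simp only [mem_union, mem_comp]
      refine closed (fun a => F.Reachable y a ∨ F.Reachable p.1 a) h1 (fun a b k e => ?_)
        (mem_comp.1 ha)
      rcases e with e | e
      · exact k.imp (·.trans e.reachable) (·.trans e.reachable)
      · rcases ((edge_adj _ _ _ _).1 e).1 with e | e
        · exact Or.inl (e.2 ▸ h2)
        · exact Or.inr (e.2 ▸ .rfl)
    · refine mem_union_left _ (mem_comp.2 (closed (F.Reachable y) .rfl (fun a b k e => ?_)
        (mem_comp.1 ha)))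
      rcases e with e | e
      · exact k.trans e.reachable
      · rcases ((edge_adj _ _ _ _).1 e).1 with e | e
        · exact absurd (Or.inl (e.1 ▸ k)) h2
        · exact absurd (Or.inr (e.1 ▸ k)) h2
  obtain ⟨y, hy⟩ : ∃ y, comp (ad F p) x ⊆ comp F y ∪ comp F p.1 := by
    by_cases k : F.Reachable x p.1 ∨ F.Reachable x p.2
    · exact ⟨p.2, key _ _ (k.symm.imp .symm .symm) (Or.inl .rfl)⟩
    · exact ⟨x, key _ _ (Or.inl .rfl) (Or.inr ⟨k, rfl⟩)⟩
  exact hx ▸ (card_le_card hy).trans ((card_union_le _ _).trans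
    (Nat.add_le_add_right (comp_le F y) _))

theorem inc (A B : Finset (SimpleGraph (Fin n))) (hA : ∀ F ∈ B, ∀ p, Dn F p → ad F p ∈ A)
    (P : SimpleGraph (Fin n) → Fin n × Fin n → Prop) [∀ F, DecidablePred (P F)] :
    ∑ F ∈ B, ((DF F).filter (P F)).card ≤
      ∑ G ∈ A, ((DB G).filter fun p => P (del G p) p).card := by
  rw [← card_sigma, ← card_sigma]
  have dn : ∀ z ∈ B.sigma fun F => (DF F).filter (P F), Dn z.1 z.2 := fun z hz => by
    simpa [DF] using (mem_filter.1 (mem_sigma.1 hz).2).1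
  refine card_le_card_of_injOn (fun z => ⟨ad z.1 z.2, z.2⟩) (fun z hz => ?_) fun z hz z' hz' h => ?_
  · refine mem_coe.2 (mem_sigma.2 ⟨hA _ (mem_sigma.1 hz).1 _ (dn z hz),
      mem_filter.2 ⟨ad_db (dn z hz), ?_⟩⟩)
    rw [del_ad (dn z hz)]
    exact (mem_filter.1 (mem_sigma.1 hz).2).2
  · simp only [Sigma.mk.injEq, heq_eq_eq] at h
    refine Sigma.ext ?_ (heq_of_eq h.2)
    rw [← del_ad (dn z hz), h.1, h.2, del_ad (dn z' hz')]

theorem tot (A B : Finset (SimpleGraph (Fin n))) (hA : ∀ F ∈ B, ∀ p, Dn F p → ad F p ∈ A) :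
    ∑ F ∈ B, (DF F).card ≤ A.card * n := by
  have := inc A B hA fun _ _ => True
  simp only [filter_true] at this
  exact this.trans (sum_le_card_nsmul _ _ _ fun G _ => db_card G)

theorem few (A : Finset (SimpleGraph (Fin n))) (hA : ∀ F ∈ A, ∀ p, Dn F p → ad F p ∈ A) {m : ℕ}
    (hm : 0 < m) (hn : (64 * m ^ 3) ^ (4 * m * (64 * m ^ 3)) ≤ n) :
    m * (n * (A.filter fun F => n < m * fr F).card) ≤ A.card := by
  classical
  obtain ⟨K, hK⟩ : ∃ K, K = 64 * m ^ 3 := ⟨_, rfl⟩
  rw [← hK] at hn
  have K0 : 0 < K := by rw [hK]; positivity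
  have Kn : K ≤ n := (Nat.le_self_pow (by positivity) K).trans hn
  have h0 : 0 < n := by omega
  obtain ⟨B, hB⟩ : ∃ B, B = A.filter fun F => n < m * fr F := ⟨_, rfl⟩
  obtain ⟨B', hB'⟩ : ∃ B, B = A.filter fun F => n < 2 * m * fr F := ⟨_, rfl⟩
  rw [← hB]
  have sB : ∀ F ∈ B, F ∈ A ∧ n < m * fr F := fun F h => mem_filter.1 (hB ▸ h)
  have c3 : B'.card * n ≤ 4 * m * A.card := by
    have a := card_nsmul_le_sum B' (fun F => 4 * m * (DF F).card) (n * n) fun F h => by
      have := (mem_filter.1 (hB' ▸ h)).2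
      have := c2a F
      nlinarith
    have b := tot A B' fun F h => hA F (mem_filter.1 (hB' ▸ h)).1
    rw [← mul_sum, smul_eq_mul] at a
    refine Nat.le_of_mul_le_mul_right (c := n) ?_ h0
    nlinarith
  have c4 : B.card * (n * n) ≤ 2 * m * ∑ F ∈ B, (DF F).card := by
    rw [mul_sum]
    exact card_nsmul_le_sum B (fun F => 2 * m * (DF F).card) (n * n) fun F h => by
      have := (sB F h).2
      have := c2a F
      nlinarith
  have c5 : ∀ j < 4 * m * K, K * ∑ F ∈ B, (DF F).card ≤ K * (4 * m * A.card) +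
      K * (n * ∑ F ∈ B, (univ.filter fun u => K ^ j ≤ sc F (K ^ j) (K ^ (j + 1)) u).card) +
      A.card * (8 * m * n) := by
    intro j hj
    have d : ∀ F ∈ B, (DF F).card ≤ ((DF F).filter fun p => ad F p ∈ B').card +
        n * (univ.filter fun u => K ^ j ≤ sc F (K ^ j) (K ^ (j + 1)) u).card +
        ((DF F).filter fun p => n ≤ 2 * m * (comp F p.1).card ∧
          sc F (K ^ j) (K ^ (j + 1)) p.2 < K ^ j).card := fun F h => by
      have e : DF F ⊆ ((DF F).filter fun p => ad F p ∈ B') ∪
          univ ×ˢ (univ.filter fun u => K ^ j ≤ sc F (K ^ j) (K ^ (j + 1)) u) ∪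
          (DF F).filter fun p => n ≤ 2 * m * (comp F p.1).card ∧
            sc F (K ^ j) (K ^ (j + 1)) p.2 < K ^ j := fun p hp => by
        have a := hA F (sB F h).1 p (by simpa [DF] using hp)
        simp only [mem_union, mem_filter, hp, hB', a, mem_product, mem_univ, true_and]
        by_contra c
        push Not at c
        obtain ⟨⟨c1, c2⟩, c3⟩ := c
        refine absurd (c3 ?_) (not_le.2 c2)
        have f1 := big_ad h0 F p
        have f2 := (sB F h).2
        have f3 : fr F ≤ fr (ad F p) + (comp F p.1).card := by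
          have := big_le (ad F p)
          unfold fr
          omega
        nlinarith
      refine (card_le_card e).trans ((card_union_le _ _).trans (Nat.add_le_add_right
        ((card_union_le _ _).trans ?_) _))
      rw [card_product, card_univ, Fintype.card_fin]
    have e := sum_le_sum d
    rw [sum_add_distrib, sum_add_distrib, ← mul_sum] at e
    have e1 : ∑ F ∈ B, ((DF F).filter fun p => ad F p ∈ B').card ≤ B'.card * n := by
      rw [← card_sigma]
      refine le_trans (card_le_card_of_injOn (t := B'.sigma DB) (fun z => ⟨ad z.1 z.2, z.2⟩)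
        (fun z hz => ?_) fun z hz z' hz' h => ?_) ?_
      · obtain ⟨a, b⟩ := mem_filter.1 (mem_sigma.1 hz).2
        exact mem_coe.2 (mem_sigma.2 ⟨b, ad_db (by simpa [DF] using a)⟩)
      · simp only [Sigma.mk.injEq, heq_eq_eq] at h
        refine Sigma.ext ?_ (heq_of_eq h.2)
        have a : Dn z.1 z.2 := by simpa [DF] using (mem_filter.1 (mem_sigma.1 hz).2).1
        have b : Dn z'.1 z'.2 := by simpa [DF] using (mem_filter.1 (mem_sigma.1 hz').2).1
        rw [← del_ad a, h.1, h.2, del_ad b]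
      · rw [card_sigma]
        exact sum_le_card_nsmul _ _ _ fun G _ => db_card G
    have e2 := inc A B (fun F h => hA F (sB F h).1) fun F p => n ≤ 2 * m * (comp F p.1).card ∧
      sc F (K ^ j) (K ^ (j + 1)) p.2 < K ^ j
    have e3 : ∀ G ∈ A, K * ((DB G).filter fun p => n ≤ 2 * m * (comp (del G p) p.1).card ∧
        sc (del G p) (K ^ j) (K ^ (j + 1)) p.2 < K ^ j).card ≤ 8 * m * n := fun G _ => by
      have a := poor G (w := K ^ j) (W := K ^ (j + 1)) (by positivity) (by positivity)
      have b := (card_nsmul_le_sum ((DB G).filter fun p => n ≤ 2 * m * (comp (del G p) p.1).card ∧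
        sc (del G p) (K ^ j) (K ^ (j + 1)) p.2 < K ^ j) (fun p => 2 * m * (sd G p).card) n
        fun p hp => (mem_filter.1 hp).2.1).trans (sum_le_sum_of_subset (t := (DB G).filter
          fun p => sc (del G p) (K ^ j) (K ^ (j + 1)) p.2 < K ^ j) fun p hp =>
          mem_filter.2 ⟨(mem_filter.1 hp).1, (mem_filter.1 hp).2.2⟩)
      rw [← mul_sum, smul_eq_mul] at b
      have c := Nat.div_mul_le_self n (K ^ (j + 1))
      have c' : K ^ (j + 1) ≤ n := (Nat.pow_le_pow_right K0 hj).trans hn
      refine Nat.le_of_mul_le_mul_right (c := n) ?_ h0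
      calc _ = K * (_ * n) := mul_assoc _ _ _
        _ ≤ K * (2 * m * (n * (2 * K ^ j * (n / K ^ (j + 1) + 1)))) :=
          Nat.mul_le_mul_left _ (b.trans (Nat.mul_le_mul_left _ a))
        _ = 4 * m * n * (n / K ^ (j + 1) * K ^ (j + 1) + K ^ (j + 1)) := by ring
        _ ≤ 4 * m * n * (n + n) := Nat.mul_le_mul_left _ (Nat.add_le_add c c')
        _ = _ := by ring
    have e4 := sum_le_card_nsmul A _ _ e3
    rw [← mul_sum, smul_eq_mul] at e4
    have e5 := Nat.mul_le_mul_left K (e.trans (Nat.add_le_add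
      (Nat.add_le_add_right (e1.trans c3) _) e2))
    rw [mul_add, mul_add] at e5
    omega
  have c6 := sum_le_sum fun j (hj : j ∈ range (4 * m * K)) => c5 j (mem_range.1 hj)
  have c6' : ∑ j ∈ range (4 * m * K), K * (n * ∑ F ∈ B, (univ.filter fun u =>
      K ^ j ≤ sc F (K ^ j) (K ^ (j + 1)) u).card) = K * (n * ∑ F ∈ B, ∑ j ∈ range (4 * m * K),
      (univ.filter fun u => K ^ j ≤ sc F (K ^ j) (K ^ (j + 1)) u).card) := by
    rw [← mul_sum, ← mul_sum, sum_comm]
  rw [sum_add_distrib, sum_add_distrib, c6'] at c6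
  simp only [sum_const, card_range, smul_eq_mul] at c6
  have c7 := sum_le_card_nsmul B _ _ fun F _ => rich F K (4 * m * K) K0
  rw [smul_eq_mul] at c7
  generalize ∑ F ∈ B, (DF F).card = S at *
  have c8 : 2 * (K * K * (B.card * (n * n))) ≤ 4 * m * K * (K * S) := by nlinarith
  have c9 := Nat.mul_le_mul_left K (Nat.mul_le_mul_left n c7)
  have d1 : K * (n * (B.card * (K * n))) = K * K * (B.card * (n * n)) := by ring
  have d2 : K * K * (B.card * (n * n)) ≤
      4 * m * K * (K * (4 * m * A.card)) + 4 * m * K * (A.card * (8 * m * n)) := by omega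
  refine Nat.le_of_mul_le_mul_right (c := K * K * n) ?_ (by positivity)
  calc _ = m * (K * K * (B.card * (n * n))) := by ring
    _ ≤ m * (4 * m * K * (K * (4 * m * A.card)) + 4 * m * K * (A.card * (8 * m * n))) :=
      Nat.mul_le_mul_left _ d2
    _ = A.card * K * (16 * m ^ 3 * K + 32 * m ^ 3 * n) := by ring
    _ ≤ A.card * K * (16 * m ^ 3 * n + 48 * m ^ 3 * n) := by gcongr; norm_num
    _ = _ := by rw [hK]; ring

theorem main (A : Finset (SimpleGraph (Fin n))) (hA : ∀ F ∈ A, ∀ p, Dn F p → ad F p ∈ A) {k : ℕ}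
    (hn : (64 * (k + 1) ^ 3) ^ (4 * (k + 1) * (64 * (k + 1) ^ 3)) ≤ n) :
    k * ∑ F ∈ A, fr F ≤ (k + 2) * A.card := by
  classical
  have h0 : 0 < n := lt_of_lt_of_le (by positivity) hn
  have a := few A hA k.succ_pos hn
  rw [← sum_filter_add_sum_filter_not A fun F => n < (k + 1) * fr F]
  have b := sum_le_card_nsmul (A.filter fun F => n < (k + 1) * fr F) fr n
    fun F _ => Nat.sub_le _ _
  have c := tot A (A.filter fun F => ¬ n < (k + 1) * fr F) fun F h => hA F (mem_filter.1 h).1
  have d := sum_le_sum (s := A.filter fun F => ¬ n < (k + 1) * fr F) (f := fun F => k * n * fr F)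
    (g := fun F => (k + 1) * (DF F).card) fun F h => by
      have e := not_lt.1 (mem_filter.1 h).2
      have f := c2b h0 F
      have g : big F + fr F = n := by have := big_le F; unfold fr; omega
      have : k * n ≤ (k + 1) * big F := by nlinarith
      calc _ ≤ (k + 1) * big F * fr F := Nat.mul_le_mul_right _ this
        _ ≤ _ := by rw [mul_assoc]; exact Nat.mul_le_mul_left _ f
  rw [← mul_sum, ← mul_sum] at d
  have e : k * ∑ F ∈ A.filter fun F => ¬ n < (k + 1) * fr F, fr F ≤ (k + 1) * A.card := by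
    refine Nat.le_of_mul_le_mul_right (c := n) ?_ h0
    nlinarith
  rw [smul_eq_mul] at b
  simp only [Nat.succ_eq_add_one] at a
  nlinarith

end Pool.Agent.H97.Frag
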