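import Mathlib

/-! The parabolic germ attached to `f = z ^ 2 + ...`. -/

open Complex Metric Set Filter Topology

namespace Pool.Agent.H97.Germ

theorem exists_germ {f : ℂ → ℂ} (hf : AnalyticAt ℂ f 0) (h0 : f 0 = 0) (h1 : deriv f 0 = 0)
    (h2 : iteratedDeriv 2 f 0 = 2) {n : ℕ} (hn : iteratedDeriv (2 * n + 1) f 0 ≠ 0) :
    ∃ (k : ℕ) (a : ℂ → ℂ), k ≠ 0 ∧ AnalyticAt ℂ a 0 ∧ a 0 ≠ 0 ∧
      ∀ᶠ x in 𝓝 (0 : ℂ), f (x * (1 + x ^ k * a x)) = f (-x) ∧ (x ≠ 0 → f x ≠ 0) := by
  obtain ⟨F, hF, hfF⟩ := hf.exists_eq_sum_add_pow_mul 3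
  set u : ℂ → ℂ := fun z => 1 + z * F z with hu
  have hfu : ∀ z, f z = z ^ 2 * u z := by
    intro z
    rw [hfF z]
    simp only [Finset.sum_range_succ, Finset.range_zero, Finset.sum_empty, iteratedDeriv_zero,
      iteratedDeriv_one, h0, h1, h2, smul_eq_mul, hu, Nat.factorial]
    push_cast
    ring
  have hua : AnalyticAt ℂ u 0 := analyticAt_const.add (analyticAt_id.mul hF)
  have hu0 : u 0 = 1 := by simp [hu]
  have hune : ∀ᶠ z in 𝓝 (0 : ℂ), u z ≠ 0 := hua.continuousAt.eventually_ne (by simp [hu0])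
  set w : ℂ → ℂ := fun z => exp (log (u z) / 2) with hw
  have hwa : AnalyticAt ℂ w 0 := by
    have : AnalyticAt ℂ (fun z => log (u z)) 0 := hua.clog (by simp [hu0])
    exact (this.div_const (c := 2)).cexp
  have hw0 : w 0 = 1 := by simp [hw, hu0]
  set g : ℂ → ℂ := fun z => z * w z with hg
  have hga : AnalyticAt ℂ g 0 := analyticAt_id.mul hwa
  have hg0 : g 0 = 0 := by simp [hg]
  have hgd : HasDerivAt g 1 0 := by
    have := (hasDerivAt_id' (0 : ℂ)).mul hwa.differentiableAt.hasDerivAt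
    exact this.congr_deriv (by simp [hw0])
  have hg' : deriv g 0 ≠ 0 := by rw [hgd.deriv]; exact one_ne_zero
  have hgf : ∀ᶠ z in 𝓝 (0 : ℂ), g z ^ 2 = f z := by
    filter_upwards [hune] with z hz
    rw [hfu, hg, mul_pow, hw]
    congr 1
    rw [← exp_nat_mul]
    have : ((2 : ℕ) : ℂ) * (log (u z) / 2) = log (u z) := by push_cast; ring
    rw [this, exp_log hz]
  set r := hga.hasStrictDerivAt.localInverse _ _ _ hg' with hr
  have hra : AnalyticAt ℂ r 0 := by
    have := hga.analyticAt_localInverse hg'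
    rwa [hg0] at this
  have hr0 : r 0 = 0 := by
    have : r (g 0) = 0 := HasStrictFDerivAt.localInverse_apply_image ..
    rwa [hg0] at this
  have hrd : HasDerivAt r 1 0 := by
    have := (hga.hasStrictDerivAt.to_localInverse hg').hasDerivAt
    rw [hg0] at this
    exact this.congr_deriv (by rw [hgd.deriv]; simp)
  have hgr : ∀ᶠ y in 𝓝 (0 : ℂ), g (r y) = y := by
    have := hga.hasStrictDerivAt.eventually_right_inverse hg'
    rwa [hg0] at this
  set m : ℂ → ℂ := fun x => -g (-x) with hm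
  have hm0 : m 0 = 0 := by simp [hm, hg0]
  have hma : AnalyticAt ℂ m 0 := by
    refine AnalyticAt.neg (AnalyticAt.comp_of_eq hga analyticAt_id.neg (by simp))
  have hmd : HasDerivAt m 1 0 := by
    have h3 : HasDerivAt g 1 (-0) := by rwa [neg_zero]
    have := (h3.comp (0 : ℂ) (hasDerivAt_neg (0 : ℂ))).neg
    exact this.congr_deriv (by simp)
  set τ : ℂ → ℂ := fun x => r (m x) with hτ
  have hτa : AnalyticAt ℂ τ 0 := AnalyticAt.comp_of_eq hra hma hm0
  have hτ0 : τ 0 = 0 := by simp [hτ, hm0, hr0]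
  have hτd : HasDerivAt τ 1 0 := by
    have h3 : HasDerivAt r 1 (m 0) := by rwa [hm0]
    exact (h3.comp (0 : ℂ) hmd).congr_deriv (by simp)
  have hmt : Tendsto m (𝓝 0) (𝓝 0) := by simpa [hm0] using hma.continuousAt.tendsto
  have hτt : Tendsto τ (𝓝 0) (𝓝 0) := by simpa [hτ0] using hτa.continuousAt.tendsto
  have hnt : Tendsto (fun x : ℂ => -x) (𝓝 0) (𝓝 0) := by
    simpa using (continuous_neg.tendsto (0 : ℂ))
  have hfτ : ∀ᶠ x in 𝓝 (0 : ℂ), f (τ x) = f (-x) := by
    filter_upwards [hτt.eventually hgf, hnt.eventually hgf, hmt.eventually hgr] with x e1 e2 e3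
    have e4 : g (τ x) = -g (-x) := e3
    rw [← e1, ← e2, e4]
    ring
  have hne : ¬∀ᶠ x in 𝓝 (0 : ℂ), (fun x => τ x - x) x = 0 := by
    intro h
    have h3 : f =ᶠ[𝓝 0] fun x => f (-x) := by
      filter_upwards [h, hfτ] with x e1 e2
      rw [← e2, sub_eq_zero.1 e1]
    have h4 := h3.iteratedDeriv_eq (2 * n + 1)
    rw [iteratedDeriv_comp_neg, neg_zero, pow_succ, pow_mul] at h4
    simp only [even_two, Even.neg_pow, one_pow, mul_neg, mul_one, neg_smul, one_smul] at h4
    apply hn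
    linear_combination h4 / 2
  obtain ⟨j, b, hb, hb0, hj⟩ :=
    (hτa.sub analyticAt_id).exists_eventuallyEq_pow_smul_nonzero_iff.2 hne
  simp only [Pi.sub_apply, id, sub_zero, smul_eq_mul] at hj
  obtain _ | j := j
  · have := hj.self_of_nhds
    simp only [hτ0, sub_zero, pow_zero, one_mul] at this
    exact absurd this.symm hb0
  obtain _ | j := j
  · exfalso
    have h3 : HasDerivAt (fun x => τ x - x) (1 - 1) 0 := hτd.sub (hasDerivAt_id' 0)
    have h4 : HasDerivAt (fun x => x * b x) (b 0) 0 := by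
      have := (hasDerivAt_id' (0 : ℂ)).mul hb.differentiableAt.hasDerivAt
      exact this.congr_deriv (by simp)
    have h5 : HasDerivAt (fun x => τ x - x) (b 0) 0 := by
      refine h4.congr_of_eventuallyEq ?_
      filter_upwards [hj] with x hx
      simpa using hx
    have := h3.unique h5
    exact hb0 (by simpa using this.symm)
  refine ⟨j + 1, b, by omega, hb, hb0, ?_⟩
  filter_upwards [hj, hfτ, hune] with x e1 e2 e3
  refine ⟨?_, fun hx => ?_⟩
  · rw [← e2]
    congr 1
    linear_combination -e1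
  · rw [hfu]; exact mul_ne_zero (pow_ne_zero _ hx) e3

end Pool.Agent.H97.Germ
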