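import Mathlib

open Set Filter Topology

namespace Pool.Agent.H97.Gfp

theorem tsum_mem {Y : Type*} [NormedAddCommGroup Y] [NormedSpace ℝ Y] {A : Set Y}
    (hc : Convex ℝ A) (hA : IsClosed A) (a : ℕ → Y) (ha : ∀ j, a j ∈ A) {s : Y}
    (hs : HasSum (fun j => ((1:ℝ) / 2) ^ (j + 1) • a j) s) : s ∈ A := by
  have h1 : ∀ N, ∀ b ∈ A, ∑ j ∈ Finset.range N, ((1:ℝ) / 2) ^ (j + 1) • a j +
      ((1:ℝ) / 2) ^ N • b ∈ A := by
    intro N
    induction N with
    | zero => simp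
    | succ N ih =>
      intro b hb
      have := ih _ (hc (ha N) hb (a := 1/2) (b := 1/2) (by norm_num) (by norm_num) (by norm_num))
      rw [Finset.sum_range_succ]
      convert this using 1
      simp only [smul_add, smul_smul, pow_succ, add_assoc]
  have h2 : Tendsto (fun N => ∑ j ∈ Finset.range N, ((1:ℝ) / 2) ^ (j + 1) • a j +
      ((1:ℝ) / 2) ^ N • a 0) atTop (𝓝 (s + (0:ℝ) • a 0)) :=
    hs.tendsto_sum_nat.add ((tendsto_pow_atTop_nhds_zero_of_lt_one (by norm_num)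
      (by norm_num)).smul_const _)
  rw [zero_smul, add_zero] at h2
  exact hA.mem_of_tendsto h2 (Eventually.of_forall fun N => h1 N _ (ha 0))

theorem core {Y : Type*} [NormedAddCommGroup Y] [NormedSpace ℝ Y] [CompleteSpace Y] (x : ℕ → Y)
    (hd : DenseRange (Finsupp.linearCombination ℝ x)) (M : ℝ) (hM : 0 < M)
    (h1 : ∀ k (t : ℕ →₀ ℝ), ‖Finsupp.linearCombination ℝ (fun i => if k ≤ i then (1:ℝ) else 0) t‖
      ≤ M * ‖Finsupp.linearCombination ℝ x t‖)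
    (h2 : ∀ k (t : ℕ →₀ ℝ), ‖Finsupp.linearCombination ℝ (fun i => x (max k i)) t‖
      ≤ M * ‖Finsupp.linearCombination ℝ x t‖) :
    ∃ T : Y →L[ℝ] Y, MapsTo T (closure (convexHull ℝ (range x))) (closure (convexHull ℝ (range x)))
      ∧ (∀ p z, ‖T^[p] z‖ ≤ M * ‖z‖) ∧ ∀ z ∈ closure (convexHull ℝ (range x)), T z ≠ z := by
  set e := Finsupp.linearCombination ℝ x with he
  let Q : ℕ → Y →L[ℝ] Y := fun k =>
    (Finsupp.linearCombination ℝ (fun i => x (max k i))).extendOfNorm e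
  let g : ℕ → Y →L[ℝ] ℝ := fun k =>
    (Finsupp.linearCombination ℝ (fun i => if k ≤ i then (1:ℝ) else 0)).extendOfNorm e
  have ex : ∀ i, x i = e (Finsupp.single i 1) := fun i => by simp [he]
  have hQ : ∀ k i, Q k (x i) = x (max k i) := fun k i => by
    rw [ex, LinearMap.extendOfNorm_eq hd ⟨M, h2 k⟩]; simp
  have hg : ∀ k i, g k (x i) = if k ≤ i then 1 else 0 := fun k i => by
    rw [ex, LinearMap.extendOfNorm_eq hd ⟨M, h1 k⟩]; simp
  have nQ : ∀ k z, ‖Q k z‖ ≤ M * ‖z‖ := fun k =>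
    LinearMap.norm_extendOfNorm_apply_le hd M (h2 k)
  have ng : ∀ k z, ‖g k z‖ ≤ M * ‖z‖ := fun k =>
    LinearMap.norm_extendOfNorm_apply_le hd M (h1 k)
  have hD : Dense (Submodule.span ℝ (range x) : Set Y) := by
    rw [← Finsupp.range_linearCombination]; exact hd
  have ext : ∀ (A B : Y →L[ℝ] Y), (∀ i, A (x i) = B (x i)) → ∀ z, A z = B z := by
    intro A B h z
    rw [ContinuousLinearMap.ext_on hD (f := A) (g := B) (by rintro _ ⟨i, rfl⟩; exact h i)]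
  have ext' : ∀ (A B : Y →L[ℝ] ℝ), (∀ i, A (x i) = B (x i)) → ∀ z, A z = B z := by
    intro A B h z
    rw [ContinuousLinearMap.ext_on hD (f := A) (g := B) (by rintro _ ⟨i, rfl⟩; exact h i)]
  have QQ : ∀ j k z, Q j (Q k z) = Q (max j k) z := fun j k =>
    ext ((Q j).comp (Q k)) (Q (max j k)) fun i => by simp [hQ, max_assoc]
  have Q0 : ∀ z, Q 0 z = z := ext (Q 0) (ContinuousLinearMap.id ℝ Y) fun i => by simp [hQ]
  have hsum : Summable fun k => ((1:ℝ) / 2) ^ (k + 1) • Q k := by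
    refine .of_norm_bounded (g := fun k => ((1:ℝ) / 2) ^ k * (1 / 2 * M))
      (summable_geometric_two.mul_right _) fun k => ?_
    rw [norm_smul, Real.norm_of_nonneg (by positivity), pow_succ, mul_assoc]
    gcongr
    exact (Q k).opNorm_le_bound hM.le (nQ k)
  let T := ∑' k, ((1:ℝ) / 2) ^ (k + 1) • Q k
  have hT : ∀ z, HasSum (fun k => ((1:ℝ) / 2) ^ (k + 1) • Q k z) (T z) := fun z =>
    hsum.hasSum.mapL (ContinuousLinearMap.apply ℝ Y z)
  have inv : ∀ S : Set Y, (∀ j, MapsTo (Q j) S S) →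
      MapsTo T (closure (convexHull ℝ S)) (closure (convexHull ℝ S)) := by
    intro S hS w hw
    refine tsum_mem (convex_convexHull ℝ S).closure isClosed_closure _ (fun j => ?_) (hT w)
    refine map_mem_closure (Q j).continuous hw fun y hy => ?_
    have := (Q j : Y →ₗ[ℝ] Y).image_convexHull S
    exact convexHull_mono (hS j).image_subset (this ▸ mem_image_of_mem _ hy)
  refine ⟨T, inv _ fun j => by rintro _ ⟨i, rfl⟩; exact ⟨_, (hQ j i).symm⟩, fun p z => ?_,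
    fun z hz hTz => ?_⟩
  · have a1 := (inv (range fun k => Q k z)
      fun j => by rintro _ ⟨k, rfl⟩; exact ⟨_, (QQ j k z).symm⟩).iterate p
      (subset_closure (subset_convexHull ℝ _ ⟨0, Q0 z⟩))
    have a2 : closure (convexHull ℝ (range fun k => Q k z)) ⊆ Metric.closedBall 0 (M * ‖z‖) :=
      closure_minimal (convexHull_min (by rintro _ ⟨k, rfl⟩; simpa using nQ k z)
        (convex_closedBall _ _)) Metric.isClosed_closedBall
    simpa using a2 a1
  · have g0 : g 0 z = 1 := by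
      have : closure (convexHull ℝ (range x)) ⊆ g 0 ⁻¹' {1} :=
        closure_minimal (convexHull_min (by rintro _ ⟨k, rfl⟩; simp [hg])
          ((convex_singleton 1).linear_preimage (g 0 : Y →ₗ[ℝ] ℝ)))
          (isClosed_singleton.preimage (g 0).continuous)
      exact this hz
    have gle : ∀ n, g n z ≤ 1 := fun n => by
      have : closure (convexHull ℝ (range x)) ⊆ g n ⁻¹' Iic 1 :=
        closure_minimal (convexHull_min (by
          rintro _ ⟨k, rfl⟩; simp only [mem_preimage, hg, mem_Iic]; split_ifs <;> norm_num)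
          ((convex_Iic 1).linear_preimage (g n : Y →ₗ[ℝ] ℝ)))
          (isClosed_Iic.preimage (g n).continuous)
      exact this hz
    have gQ : ∀ n k, g n (Q k z) = if n ≤ k then 1 else g n z := fun n k => by
      split_ifs with h
      · rw [← g0]
        exact ext' ((g n).comp (Q k)) (g 0) (fun i => by simp [hQ, hg, h]) z
      · exact ext' ((g n).comp (Q k)) (g n) (fun i => by simp [hQ, hg, h]) z
    have g1 : ∀ n, g n z = 1 := fun n => by
      by_contra hne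
      have hlt : g n z < 1 := lt_of_le_of_ne (gle n) hne
      have s1 := (hT z).mapL (g n)
      rw [hTz] at s1
      have s2 : HasSum (fun k => ((1:ℝ) / 2) ^ (k + 1) * g n z) (g n z) := by
        have := hasSum_geometric_two.mul_right (1 / 2 * g n z)
        rw [show (2:ℝ) * (1 / 2 * g n z) = g n z by ring] at this
        simpa only [pow_succ, mul_assoc] using this
      refine lt_irrefl _ (hasSum_lt (i := n) (fun k => ?_) ?_ s2 s1)
      · simp only [map_smul, gQ, smul_eq_mul]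
        gcongr
        split_ifs
        exacts [hlt.le, le_rfl]
      · simp only [map_smul, gQ, smul_eq_mul, le_refl, if_true]
        gcongr
    obtain ⟨y, hy, hzy⟩ := Metric.mem_closure_iff.1 hz (1 / M) (by positivity)
    have hev : convexHull ℝ (range x) ⊆ {y | ∀ᶠ n in atTop, g n y = 0} := by
      refine convexHull_min ?_ ?_
      · rintro _ ⟨k, rfl⟩
        filter_upwards [eventually_gt_atTop k] with n hn
        simp [hg, hn]
      · intro u hu v hv a b _ _ _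
        filter_upwards [hu, hv] with n h3 h4
        simp [h3, h4]
    obtain ⟨n, hn⟩ := (hev hy).exists
    have := ng n (z - y)
    rw [map_sub, g1, hn, dist_eq_norm, lt_div_iff₀ hM] at *
    norm_num at this
    linarith

variable {X W V ι : Type*} [NormedAddCommGroup X] [NormedSpace ℝ X] [NormedAddCommGroup W]
  [NormedSpace ℝ W] [NormedAddCommGroup V] [NormedSpace ℝ V]

omit [NormedAddCommGroup X] [NormedSpace ℝ X] in
theorem mazur {C : Set X} (J : X → W) {Φ : W} (ev : ι → W →L[ℝ] V) (e1 : ∀ f w, ‖ev f w‖ ≤ ‖w‖)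
    (e2 : ∀ w r, r < ‖w‖ → ∃ f, r < ‖ev f w‖)
    (ha : ∀ (F : Finset ι) (ε : ℝ), 0 < ε → ∃ x ∈ C, ∀ f ∈ F, ‖ev f (J x - Φ)‖ < ε)
    {d : ℝ} (hd0 : 0 < d) (hd : ∀ y, d ≤ ‖J y - Φ‖)
    (E : Submodule ℝ W) [FiniteDimensional ℝ E] {η : ℝ}
    (hη : 0 < η) : ∃ x ∈ C, ∀ u ∈ E, ∀ t : ℝ, (1 - η) * ‖u‖ ≤ ‖u + t • (J x - Φ)‖ := by
  classical
  choose f hf using fun u : E => e2 u.1 (‖u.1‖ - η / 3) (by linarith)
  obtain ⟨s, -, hs⟩ := (isCompact_sphere (0 : E) 1).elim_nhds_subcover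
    (fun u => {v : E | ‖v.1‖ - η / 3 < ‖ev (f u) v.1‖}) fun u _ =>
      (isOpen_lt (by fun_prop) (by fun_prop)).mem_nhds (hf u)
  obtain ⟨x, hx, hx'⟩ := ha (s.image f) (η / 3 * d) (by positivity)
  set w := J x - Φ with hw
  have key : ∀ u : E, ‖u‖ = 1 → ∀ t : ℝ, 1 - η ≤ ‖u.1 + t • w‖ := by
    intro u hu t
    have hu' : ‖u.1‖ = 1 := hu
    by_cases ht : 2 ≤ |t| * d
    · have a1 : ‖t • w‖ ≤ ‖u.1 + t • w‖ + ‖u.1‖ := by
        simpa using norm_sub_le (u.1 + t • w) u.1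
      rw [norm_smul, Real.norm_eq_abs] at a1
      have := mul_le_mul_of_nonneg_left (hd x) (abs_nonneg t)
      linarith
    · obtain ⟨v, hv, hv'⟩ := mem_iUnion₂.1 (hs (show u ∈ Metric.sphere 0 1 by simpa using hu))
      have a1 := hx' _ (Finset.mem_image_of_mem f hv)
      have a2 := e1 (f v) (u.1 + t • w)
      have a4 : ‖ev (f v) u.1‖ ≤ ‖ev (f v) (u.1 + t • w)‖ + ‖t • ev (f v) w‖ := by
        rw [map_add, map_smul]
        simpa using norm_sub_le (ev (f v) u.1 + t • ev (f v) w) (t • ev (f v) w)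
      rw [norm_smul, Real.norm_eq_abs] at a4
      have a5 := mul_le_mul_of_nonneg_left a1.le (abs_nonneg t)
      have a6 : ‖u.1‖ - η / 3 < ‖ev (f v) u.1‖ := hv'
      nlinarith
  refine ⟨x, hx, fun u hu t => ?_⟩
  by_cases h0 : u = 0
  · simp [h0]
  have hn : 0 < ‖u‖ := norm_pos_iff.2 h0
  have := key ⟨‖u‖⁻¹ • u, E.smul_mem _ hu⟩ (by
    show ‖‖u‖⁻¹ • u‖ = 1
    rw [norm_smul, norm_inv, norm_norm, inv_mul_cancel₀ hn.ne']) (‖u‖⁻¹ * t)
  simp only [mul_smul, ← smul_add, norm_smul, norm_inv, norm_norm] at this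
  rwa [le_inv_mul_iff₀ hn, mul_comm] at this

theorem wide {C : Set X} (hb : Bornology.IsBounded C) (J : X →L[ℝ] W) (nJ : ∀ y, ‖J y‖ = ‖y‖)
    {Φ : W} (ev : ι → W →L[ℝ] V) (e1 : ∀ f w, ‖ev f w‖ ≤ ‖w‖)
    (e2 : ∀ w r, r < ‖w‖ → ∃ f, r < ‖ev f w‖)
    (ha : ∀ (F : Finset ι) (ε : ℝ), 0 < ε → ∃ x ∈ C, ∀ f ∈ F, ‖ev f (J x - Φ)‖ < ε)
    {d : ℝ} (hd0 : 0 < d) (hd : ∀ y, d ≤ ‖J y - Φ‖) :
    ∃ x : ℕ → X, (∀ n, x n ∈ C) ∧ ∃ M : ℝ, 0 < M ∧ ∀ (k n : ℕ) (t : ℕ → ℝ),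
      |∑ i ∈ Finset.range n, t i * (if k ≤ i then 1 else 0)| ≤ M * ‖∑ i ∈ Finset.range n, t i • x i‖
      ∧ ‖∑ i ∈ Finset.range n, t i • x (max k i)‖ ≤ M * ‖∑ i ∈ Finset.range n, t i • x i‖ := by
  classical
  choose nx hx1 hx2 using fun (E : {E : Submodule ℝ W // FiniteDimensional ℝ E}) (n : ℕ) =>
    have := E.2; mazur J ev e1 e2 ha hd0 hd E.1 (η := (1/2)^(n+2)) (by positivity)
  let E : ℕ → {E : Submodule ℝ W // FiniteDimensional ℝ E} :=
    fun n => Nat.rec ⟨Submodule.span ℝ {Φ}, inferInstance⟩ (fun n E =>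
      ⟨E.1 ⊔ Submodule.span ℝ {J (nx E n) - Φ}, by have := E.2; infer_instance⟩) n
  let x : ℕ → X := fun n => nx (E n) n
  have hE : ∀ n (s : ℝ) (t : ℕ → ℝ), s • Φ + ∑ i ∈ Finset.range n, t i • (J (x i) - Φ) ∈ (E n).1 := by
    intro n s t
    induction n with
    | zero =>
      rw [Finset.sum_range_zero, add_zero]
      exact Submodule.smul_mem _ s (Submodule.mem_span_singleton_self Φ)
    | succ n ih =>
      rw [Finset.sum_range_succ, ← add_assoc]
      exact Submodule.add_mem_sup ih (Submodule.smul_mem _ _ (Submodule.mem_span_singleton_self _))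
  have hB : ∀ (s : ℝ) (t : ℕ → ℝ) (k n : ℕ), k ≤ n →
      (1 / 2 + (1 / 2) ^ (n + 1)) * ‖s • Φ + ∑ i ∈ Finset.range k, t i • (J (x i) - Φ)‖ ≤
        ‖s • Φ + ∑ i ∈ Finset.range n, t i • (J (x i) - Φ)‖ := by
    intro s t k n hkn
    induction hkn with
    | refl =>
      refine mul_le_of_le_one_left (norm_nonneg _) ?_
      have : ((1:ℝ) / 2) ^ k ≤ 1 := pow_le_one₀ (by norm_num) (by norm_num)
      rw [pow_succ]; linarith
    | @step n _ ih =>
      rw [Finset.sum_range_succ, ← add_assoc]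
      refine le_trans ?_ (hx2 (E n) n _ (hE n s t) (t n))
      have p1 : ((1:ℝ) / 2) ^ n ≤ 1 := pow_le_one₀ (by norm_num) (by norm_num)
      have p0 : 0 < ((1:ℝ) / 2) ^ n := by positivity
      refine le_trans ?_ (mul_le_mul_of_nonneg_left ih (by simp only [pow_succ]; linarith))
      rw [← mul_assoc]
      gcongr
      simp only [Nat.succ_eq_add_one, pow_succ]
      nlinarith
  obtain ⟨R, hR0, hR⟩ := hb.exists_pos_norm_le
  have hJs : ∀ (A : Finset ℕ) (t : ℕ → ℝ), J (∑ i ∈ A, t i • x i) =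
      (∑ i ∈ A, t i) • Φ + ∑ i ∈ A, t i • (J (x i) - Φ) := by
    intro A t
    simp only [map_sum, map_smul, smul_sub, Finset.sum_sub_distrib,
      Finset.sum_smul]
    abel
  have tail : ∀ (k n : ℕ) (t : ℕ → ℝ), k ≤ n →
      |∑ i ∈ Finset.Ico k n, t i| ≤ 3 / d * ‖∑ i ∈ Finset.range n, t i • x i‖ ∧
      ‖∑ i ∈ Finset.Ico k n, t i • x i‖ ≤ (3 + 3 / d * ‖Φ‖) * ‖∑ i ∈ Finset.range n, t i • x i‖ := by
    intro k n t hkn
    set z := ∑ i ∈ Finset.range n, t i • x i with hz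
    have a1 := hB (∑ i ∈ Finset.range n, t i) t k n hkn
    rw [← hJs, nJ, ← hz] at a1
    have a2 : ‖∑ i ∈ Finset.Ico k n, t i • (J (x i) - Φ)‖ ≤ 3 * ‖z‖ := by
      have e : ∑ i ∈ Finset.Ico k n, t i • (J (x i) - Φ) = J z - ((∑ i ∈ Finset.range n, t i) • Φ
          + ∑ i ∈ Finset.range k, t i • (J (x i) - Φ)) := by
        rw [hz, hJs, Finset.sum_Ico_eq_sub _ hkn]; abel
      rw [e]
      refine (norm_sub_le _ _).trans ?_
      rw [nJ]
      have p0 : 0 < ((1:ℝ) / 2) ^ (n + 1) := by positivity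
      nlinarith [norm_nonneg ((∑ i ∈ Finset.range n, t i) • Φ
          + ∑ i ∈ Finset.range k, t i • (J (x i) - Φ))]
    set s := ∑ i ∈ Finset.Ico k n, t i with hs
    have a3 := hJs (Finset.Ico k n) t
    rw [← hs] at a3
    have a4 : |s| ≤ 3 / d * ‖z‖ := by
      by_cases h0 : s = 0
      · rw [h0, abs_zero]; positivity
      have b1 := hd (s⁻¹ • ∑ i ∈ Finset.Ico k n, t i • x i)
      rw [map_smul, a3, smul_add, smul_smul, inv_mul_cancel₀ h0,
        one_smul, add_sub_cancel_left, norm_smul, norm_inv, Real.norm_eq_abs,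
        le_inv_mul_iff₀ (abs_pos.2 h0)] at b1
      rw [div_mul_eq_mul_div, le_div_iff₀ hd0]
      linarith
    refine ⟨a4, ?_⟩
    rw [← nJ, a3]
    refine (norm_add_le _ _).trans ?_
    rw [norm_smul, Real.norm_eq_abs]
    nlinarith [mul_le_mul_of_nonneg_right a4 (norm_nonneg Φ)]
  refine ⟨x, fun n => hx1 _ _, 3 + 3 / d * ‖Φ‖ + 3 / d + 6 / d * R, by positivity,
    fun k n t => ?_⟩
  have q0 : 0 ≤ ‖∑ i ∈ Finset.range n, t i • x i‖ := norm_nonneg _
  have q1 : 0 ≤ 3 / d * ‖Φ‖ := by positivity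
  have q2 : 0 ≤ 6 / d * R := by positivity
  have q3 : 0 ≤ 3 / d := by positivity
  obtain ⟨m, hm, hmk⟩ : ∃ m, m ≤ n ∧ ∀ i < n, (m ≤ i ↔ k ≤ i) :=
    ⟨min k n, min_le_right _ _, fun i hi => by omega⟩
  obtain ⟨b1, b2⟩ := tail m n t hm
  obtain ⟨b3, -⟩ := tail 0 n t (Nat.zero_le _)
  constructor
  · have : ∑ i ∈ Finset.range n, t i * (if k ≤ i then 1 else 0) = ∑ i ∈ Finset.Ico m n, t i := by
      rw [← Finset.sum_range_add_sum_Ico _ hm, Finset.sum_eq_zero, zero_add]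
      · refine Finset.sum_congr rfl fun i hi => ?_
        rw [Finset.mem_Ico] at hi
        simp [(hmk i hi.2).1 hi.1]
      · intro i hi
        rw [Finset.mem_range] at hi
        have : ¬ k ≤ i := fun h => absurd ((hmk i (hi.trans_le hm)).2 h) (by omega)
        simp [this]
    rw [this]
    nlinarith
  · have : ∑ i ∈ Finset.range n, t i • x (max k i) = (∑ i ∈ Finset.Ico 0 n, t i -
        ∑ i ∈ Finset.Ico m n, t i) • x k + ∑ i ∈ Finset.Ico m n, t i • x i := by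
      rw [← Finset.sum_range_add_sum_Ico _ hm, Nat.Ico_zero_eq_range,
        ← Finset.sum_range_add_sum_Ico t hm, add_sub_cancel_right, Finset.sum_smul]
      congr 1
      · refine Finset.sum_congr rfl fun i hi => ?_
        rw [Finset.mem_range] at hi
        have : ¬ k ≤ i := fun h => absurd ((hmk i (hi.trans_le hm)).2 h) (by omega)
        rw [max_eq_left (by omega)]
      · refine Finset.sum_congr rfl fun i hi => ?_
        rw [Finset.mem_Ico] at hi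
        rw [max_eq_right ((hmk i hi.2).1 hi.1)]
    rw [this]
    refine (norm_add_le _ _).trans ?_
    rw [norm_smul, Real.norm_eq_abs]
    have c1 := (abs_sub (∑ i ∈ Finset.Ico 0 n, t i) (∑ i ∈ Finset.Ico m n, t i)).trans
      (add_le_add b3 b1)
    have c2 := mul_le_mul c1 (hR _ (hx1 (E k) k)) (norm_nonneg _) (by positivity)
    have c3 : (3 / d * ‖∑ i ∈ Finset.range n, t i • x i‖ + 3 / d * ‖∑ i ∈ Finset.range n, t i • x i‖)
      * R = 6 / d * R * ‖∑ i ∈ Finset.range n, t i • x i‖ := by ring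
    nlinarith

theorem wideD {𝕜 Z : Type*} [RCLike 𝕜] [NormedSpace 𝕜 X] [IsScalarTower ℝ 𝕜 X] [CompleteSpace X]
    [NormedAddCommGroup Z] [NormedSpace 𝕜 Z] {C : Set X} (hb : Bornology.IsBounded C)
    (J : X →L[𝕜] (Z →L[𝕜] 𝕜)) (nJ : ∀ y, ‖J y‖ = ‖y‖) (Φ : Z →L[𝕜] 𝕜) (c2 : ∀ y, J y ≠ Φ)
    (ha : ∀ (F : Finset Z) (ε : ℝ), 0 < ε → ∃ x ∈ C, ∀ f ∈ F, ‖J x f - Φ f‖ < ε) :
    ∃ x : ℕ → X, (∀ n, x n ∈ C) ∧ ∃ M : ℝ, 0 < M ∧ ∀ (k n : ℕ) (t : ℕ → ℝ),
      |∑ i ∈ Finset.range n, t i * (if k ≤ i then 1 else 0)| ≤ M * ‖∑ i ∈ Finset.range n, t i • x i‖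
      ∧ ‖∑ i ∈ Finset.range n, t i • x (max k i)‖ ≤ M * ‖∑ i ∈ Finset.range n, t i • x i‖ := by
  classical
  obtain ⟨d, hd0, hd⟩ : ∃ d > 0, ∀ y, d ≤ ‖J y - Φ‖ := by
    have c1 : IsClosed (range J) :=
      (AddMonoidHomClass.isometry_of_norm J nJ).isClosedEmbedding.isClosed_range
    refine ⟨_, (c1.notMem_iff_infDist_pos ⟨_, 0, rfl⟩).1 (fun ⟨y, hy⟩ => c2 y hy), fun y => ?_⟩
    rw [← dist_eq_norm, dist_comm]
    exact Metric.infDist_le_dist_of_mem ⟨y, rfl⟩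
  refine wide (W := Z →L[𝕜] 𝕜) (ι := {f : Z // ‖f‖ ≤ 1}) hb (J.restrictScalars ℝ) nJ
    (fun f => (ContinuousLinearMap.apply 𝕜 𝕜 f.1).restrictScalars ℝ)
    (fun f w => w.unit_le_opNorm _ f.2) (fun w r hr => ?_) (fun F ε hε => ?_) hd0 hd
  · obtain ⟨f, a, b⟩ := w.exists_lt_apply_of_lt_opNorm hr
    exact ⟨⟨f, a.le⟩, b⟩
  · obtain ⟨x, hx, h⟩ := ha (F.image Subtype.val) ε hε
    exact ⟨x, hx, fun f hf => h _ (Finset.mem_image_of_mem _ hf)⟩

theorem wide' {𝕜 : Type*} [RCLike 𝕜] [NormedSpace 𝕜 X] [IsScalarTower ℝ 𝕜 X] [CompleteSpace X]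
    {C : Set X} (hb : Bornology.IsBounded C) (hcl : IsClosed C) (hc : Convex ℝ C)
    (hn : ¬ IsCompact (toWeakSpace 𝕜 X '' C)) :
    ∃ x : ℕ → X, (∀ n, x n ∈ C) ∧ ∃ M : ℝ, 0 < M ∧ ∀ (k n : ℕ) (t : ℕ → ℝ),
      |∑ i ∈ Finset.range n, t i * (if k ≤ i then 1 else 0)| ≤ M * ‖∑ i ∈ Finset.range n, t i • x i‖
      ∧ ‖∑ i ∈ Finset.range n, t i • x (max k i)‖ ≤ M * ‖∑ i ∈ Finset.range n, t i • x i‖ := by
  have h1 : ¬ closure (NormedSpace.inclusionInDoubleDualWeak 𝕜 X '' (toWeakSpace 𝕜 X '' C)) ⊆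
      range (NormedSpace.inclusionInDoubleDualWeak 𝕜 X) := fun h => hn (by
    have := NormedSpace.isCompact_closure_of_isBounded 𝕜 X _ (by
      rwa [preimage_image_eq _ (toWeakSpace 𝕜 X).injective]) h
    rwa [← hc.toWeakSpace_closure 𝕜, hcl.closure_eq] at this)
  obtain ⟨Ψ, hΨ, hΨ'⟩ := not_subset.1 h1
  refine wideD (𝕜 := 𝕜) (Z := StrongDual 𝕜 X) hb (NormedSpace.inclusionInDoubleDual 𝕜 X)
    (NormedSpace.inclusionInDoubleDualLi (E := X) 𝕜).norm_map (WeakDual.toStrongDual Ψ)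
    (fun y hy => hΨ' ⟨toWeakSpace 𝕜 X y, hy⟩) fun F ε hε => ?_
  have : ∀ᶠ v in 𝓝 Ψ, ∀ f ∈ F, ‖v f - Ψ f‖ < ε := by
    refine (Filter.eventually_all_finset F).2 fun f _ => ?_
    have : Continuous fun v : WeakDual 𝕜 (StrongDual 𝕜 X) => ‖v f - Ψ f‖ :=
      ((WeakDual.eval_continuous f).sub continuous_const).norm
    exact this.continuousAt.eventually (eventually_lt_nhds (by simpa using hε))
  obtain ⟨_, a, _, ⟨x, hx, rfl⟩, rfl⟩ := mem_closure_iff_nhds.1 hΨ _ this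
  exact ⟨x, hx, a⟩

end Pool.Agent.H97.Gfp
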