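import Mathlib

/-! Modulus of the curves joining a compact subset of the line to its complement. -/

set_option autoImplicit false
open Set Filter Topology MeasureTheory
open scoped ENNReal

namespace Pool.Agent.H97.Gon

abbrev P := EuclideanSpace ℝ (Fin 2)

noncomputable def φ (x y : ℝ) : P := !₂[x, y]

@[simp] lemma φ0 (x y : ℝ) : φ x y 0 = x := rfl
@[simp] lemma φ1 (x y : ℝ) : φ x y 1 = y := rfl

lemma φ_eta (p : P) : φ (p 0) (p 1) = p := by ext i; fin_cases i <;> rfl

lemma mp : MeasurePreserving (fun q : ℝ × ℝ => φ q.1 q.2) volume volume :=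
  (PiLp.volume_preserving_toLp (Fin 2)).comp (volume_preserving_finTwoArrow ℝ).symm

lemma isoV (x : ℝ) : Isometry (φ x) := Isometry.of_dist_eq fun a b => by
  simp [EuclideanSpace.dist_eq, Real.sqrt_sq_eq_abs, Real.dist_eq]

lemma isoH (y : ℝ) : Isometry (fun x => φ x y) := Isometry.of_dist_eq fun a b => by
  simp [EuclideanSpace.dist_eq, Real.sqrt_sq_eq_abs, Real.dist_eq]

lemma line_int {f : ℝ → P} (hf : Isometry f) {ρ : P → ℝ≥0∞} (hρ : Measurable ρ) {s : Set ℝ}
    (hs : MeasurableSet s) : ∫⁻ p in f '' s, ρ p ∂μH[1] = ∫⁻ t in s, ρ (f t) := by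
  have he : MeasurableEmbedding f := hf.isClosedEmbedding.measurableEmbedding
  have h1 := hf.map_hausdorffMeasure (d := 1) (Or.inl zero_le_one)
  rw [hausdorffMeasure_real] at h1
  have h2 := he.restrict_map volume (f '' s)
  rw [he.injective.preimage_image] at h2
  rw [← he.lintegral_map, ← h2, h1, Measure.restrict_restrict (he.measurableSet_image' hs),
    inter_eq_left.2 (image_subset_range _ _)]

lemma line_len {f : ℝ → P} (hf : Isometry f) (a b : ℝ) : μH[1] (f '' Icc a b) < ⊤ := by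
  rw [hf.hausdorffMeasure_image (Or.inl zero_le_one), hausdorffMeasure_real]
  simp

def Arc (a b : P) (S : Set P) : Prop :=
  ∃ γ : C(unitInterval, P), Function.Injective γ ∧ γ 0 = a ∧ γ 1 = b ∧ range γ ⊆ S

lemma Arc.trans {a b c : P} {S T : Set P} (h1 : Arc a b S) (h2 : Arc b c T)
    (h : ∀ p ∈ S, p ∈ T → p = b) : Arc a c (S ∪ T) := by
  obtain ⟨γ, hi, h0, hb, hS⟩ := h1
  obtain ⟨δ, hj, hb', hc, hT⟩ := h2
  let g : Path a b := ⟨γ, h0, hb⟩
  let d : Path b c := ⟨δ, hb', hc⟩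
  have key : ∀ u v, γ u = δ v → u = 1 ∧ v = 0 := fun u v huv => by
    have := h _ (hS ⟨u, rfl⟩) (hT ⟨v, huv.symm⟩)
    exact ⟨hi (this.trans hb.symm), hj (huv.symm.trans (this.trans hb'.symm))⟩
  refine ⟨(g.trans d).toContinuousMap, fun s t hst => ?_, (g.trans d).source, (g.trans d).target, ?_⟩
  · change g.trans d s = g.trans d t at hst
    rw [Path.trans_apply, Path.trans_apply] at hst
    apply Subtype.ext
    split_ifs at hst with hs ht ht
    · have := congrArg Subtype.val (hi hst); simp only at this; linarith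
    · have := congrArg Subtype.val (key _ _ hst).2
      simp only [Icc.coe_zero] at this; push Not at ht; linarith
    · have := congrArg Subtype.val (key _ _ hst.symm).2
      simp only [Icc.coe_zero] at this; push Not at hs; linarith
    · have := congrArg Subtype.val (hj hst); simp only at this; linarith
  · change range (g.trans d) ⊆ _
    rw [Path.trans_range]
    exact union_subset_union hS hT

lemma arc_line {f : ℝ → P} (hf : Isometry f) {a b : ℝ} (hab : a ≠ b) :
    Arc (f a) (f b) (f '' uIcc a b) := by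
  refine ⟨⟨fun t => f (a + t * (b - a)), hf.continuous.comp (by fun_prop)⟩, fun s t hst => ?_,
    by simp, by simp, ?_⟩
  · have := hf.injective hst
    exact Subtype.ext (mul_right_cancel₀ (sub_ne_zero.2 hab.symm) (add_left_cancel this))
  · rintro _ ⟨t, rfl⟩
    refine ⟨_, ?_, rfl⟩
    rcases le_total a b with h | h
    · rw [uIcc_of_le h]; constructor <;> nlinarith [t.2.1, t.2.2]
    · rw [uIcc_of_ge h]; constructor <;> nlinarith [t.2.1, t.2.2]

lemma arc_sub {γ : C(unitInterval, P)} (hi : Function.Injective γ) {t : unitInterval} (ht : t ≠ 0) :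
    Arc (γ 0) (γ t) (γ '' Iic t) := by
  refine ⟨⟨fun s => γ (s * t), γ.continuous.comp (by
    refine Continuous.subtype_mk (by fun_prop) _)⟩, fun s u hsu => ?_, by simp, by simp, ?_⟩
  · have := congrArg Subtype.val (hi hsu)
    exact Subtype.ext (mul_right_cancel₀ (fun h => ht (Subtype.ext h)) this)
  · rintro _ ⟨s, rfl⟩
    exact ⟨_, unitInterval.mul_le_right, rfl⟩

lemma cs {g : ℝ → ℝ≥0∞} (hg : Measurable g) (s : Set ℝ) :
    (∫⁻ t in s, g t) ^ 2 ≤ volume s * ∫⁻ t in s, g t ^ 2 := by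
  have := ENNReal.lintegral_mul_le_Lp_mul_Lq (volume.restrict s) Real.HolderConjugate.two_two
    (f := fun _ => 1) (g := g) aemeasurable_const hg.aemeasurable
  simp only [Pi.mul_apply, one_mul, ENNReal.rpow_two, one_pow, lintegral_const,
    Measure.restrict_apply_univ] at this
  refine (pow_le_pow_left' this 2).trans (le_of_eq ?_)
  rw [mul_pow, ← ENNReal.rpow_natCast, ← ENNReal.rpow_natCast, ← ENNReal.rpow_mul,
    ← ENNReal.rpow_mul]
  norm_num

/-- Markov bound for the set of lines carrying a large integral. -/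
lemma bad {r : ℝ → ℝ → ℝ≥0∞} (hr : Measurable (Function.uncurry r)) (s u : Set ℝ)
    (hu : MeasurableSet u) : volume ({x | 4⁻¹ ≤ ∫⁻ t in s, r x t} ∩ u) ≤
      16 * (volume s * ∫⁻ x in u, ∫⁻ t in s, r x t ^ 2) := by
  have hm : Measurable fun x => ∫⁻ t in s, r x t := hr.lintegral_prod_right
  have h1 := mul_meas_ge_le_lintegral (μ := volume.restrict u) (hm.pow_const 2) (4⁻¹ ^ 2)
  rw [← Measure.restrict_apply' hu, ← lintegral_const_mul _ (hr.pow_const 2).lintegral_prod_right]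
  calc _ ≤ 16 * (4⁻¹ ^ 2 * (volume.restrict u) {x | 4⁻¹ ^ 2 ≤ (∫⁻ t in s, r x t) ^ 2}) := by
        rw [← mul_assoc, ← ENNReal.inv_pow, show (4 : ℝ≥0∞) ^ 2 = 16 by norm_num,
          ENNReal.mul_inv_cancel (by norm_num) (by norm_num), one_mul]
        refine measure_mono fun x hx => ?_
        rw [mem_ofPred_eq, ← show (4 : ℝ≥0∞) ^ 2 = 16 by norm_num, ENNReal.inv_pow]
        exact pow_le_pow_left' hx 2
    _ ≤ _ := by
        gcongr
        exact h1.trans (lintegral_mono fun x => cs hr.of_uncurry_left s)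


lemma meas_r {ρ : P → ℝ≥0∞} (hρ : Measurable ρ) : Measurable fun q : ℝ × ℝ => ρ (φ q.1 q.2) :=
  hρ.comp mp.measurable

lemma small {ρ : P → ℝ≥0∞} (hρ : Measurable ρ) (hf : ∫⁻ p, ρ p ^ 2 ≠ ⊤) {ε : ℝ} (hε : 0 < ε) :
    ∃ d > 0, ∀ δ ≤ d, ∫⁻ x, ∫⁻ y in Icc (-δ) δ, ρ (φ x y) ^ 2 ≤ ENNReal.ofReal ε := by
  have hm := (meas_r hρ).pow_const 2
  rw [← mp.lintegral_comp (hρ.pow_const 2), Measure.volume_eq_prod,
    lintegral_prod_symm _ hm.aemeasurable] at hf
  obtain ⟨d, hd, h⟩ := exists_pos_setLIntegral_lt_of_measure_lt hf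
    (ε := ENNReal.ofReal ε) (by simpa using hε)
  obtain ⟨d', hd', hd2⟩ := ENNReal.lt_iff_exists_real_btwn.1 hd
  have hd3 : 0 < d' := by simpa using hd2.1
  refine ⟨d' / 2, by positivity, fun δ hδ => ?_⟩
  rw [lintegral_lintegral_swap hm.aemeasurable]
  refine (h _ (lt_of_le_of_lt ?_ hd2.2)).le
  rw [Real.volume_Icc]
  exact ENNReal.ofReal_le_ofReal (by linarith)

def Adm (E : Set P) (ρ : P → ℝ≥0∞) : Prop :=
  ∀ γ : C(unitInterval, P), Function.Injective γ → γ 0 ∈ E → γ 1 ∈ ({x | x 1 = 0} \ E) →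
    μH[1] (range γ) < ⊤ → 1 ≤ ∫⁻ x in range γ, ρ x ∂μH[1]

lemma Adm.arc {E : Set P} {ρ : P → ℝ≥0∞} (h : Adm E ρ) {a : P} {x : ℝ} {S : Set P} (ha : a ∈ E)
    (hx : φ x 0 ∉ E) (hA : Arc a (φ x 0) S) (hS : μH[1] S < ⊤) : 1 ≤ ∫⁻ p in S, ρ p ∂μH[1] := by
  obtain ⟨γ, hi, h0, h1, hr⟩ := hA
  exact (h γ hi (h0 ▸ ha) (h1 ▸ ⟨rfl, hx⟩) ((measure_mono hr).trans_lt hS)).trans
    (lintegral_mono_set hr)

lemma exists_notMem {A B : Set ℝ} (h : volume B < volume A) : ∃ x ∈ A, x ∉ B := by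
  by_contra hc
  push Not at hc
  exact absurd (measure_mono hc) (not_le.2 h)

lemma null {E : Set P} (hE : IsClosed E) (hE1 : E ⊆ {x | x 1 = 0 ∧ 0 ≤ x 0 ∧ x 0 ≤ 1})
    {ρ : P → ℝ≥0∞} (hρ : Measurable ρ) (hf : ∫⁻ p, ρ p ^ 2 ≠ ⊤) (h : Adm E ρ) :
    volume {x | φ x 0 ∈ E} = 0 := by
  set E0 := {x | φ x 0 ∈ E} with hE0
  have hm : MeasurableSet E0 := (hE.preimage (isoH 0).continuous).measurableSet
  have hsub : E0 ⊆ Icc 0 1 := fun x hx => (hE1 hx).2
  by_contra hne
  have hfin : volume E0 ≤ 1 := (measure_mono hsub).trans (by simp)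
  set c := (volume E0).toReal / 4 with hc
  have hc0 : 0 < c := div_pos (ENNReal.toReal_pos hne (ne_top_of_le_ne_top (by simp) hfin)) four_pos
  have hc1 : c ≤ 1 / 4 := by
    have := ENNReal.toReal_mono (by simp) hfin
    simp only [ENNReal.toReal_one] at this; linarith
  obtain ⟨d, hd, hs⟩ := small hρ hf (ε := c / 100) (by positivity)
  obtain ⟨N, hN⟩ := exists_nat_one_div_lt hd
  set δ : ℝ := 1 / (N + 1) with hδ
  have hδ0 : 0 < δ := by positivity
  have hW := hs δ hN.le
  set I : ℕ → Set ℝ := fun k => Icc (k * δ) ((k + 1) * δ) with hI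
  have ex1 : ∃ k, ENNReal.ofReal (c * δ) < volume (E0 ∩ I k) := by
    by_contra hcon
    push Not at hcon
    have h1 : E0 ⊆ ⋃ k ∈ Finset.range (N + 2), E0 ∩ I k := fun x hx => by
      have hx1 := hsub hx
      refine mem_iUnion₂.2 ⟨⌊x / δ⌋₊, ?_, hx, ?_, ?_⟩
      · rw [Finset.mem_range, Nat.floor_lt (div_nonneg hx1.1 hδ0.le), div_lt_iff₀ hδ0, hδ]
        push_cast
        rw [mul_one_div, lt_div_iff₀ (by positivity)]
        nlinarith [hx1.2]
      · rw [← le_div_iff₀ hδ0]; exact Nat.floor_le (div_nonneg hx1.1 hδ0.le)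
      · rw [← div_le_iff₀ hδ0]; exact (Nat.lt_floor_add_one _).le
    have h2 := (measure_mono (μ := volume) h1).trans ((measure_biUnion_finset_le _ _).trans
      (Finset.sum_le_sum fun k _ => hcon k))
    rw [Finset.sum_const, Finset.card_range, nsmul_eq_mul, ← ENNReal.ofReal_natCast,
      ← ENNReal.ofReal_mul (by positivity)] at h2
    have h3 := ENNReal.toReal_le_of_le_ofReal (by positivity) h2
    have h4 : ((N + 2 : ℕ) : ℝ) * δ ≤ 2 := by
      rw [hδ, mul_one_div, div_le_iff₀ (by positivity)]; push_cast; linarith [N.cast_nonneg (α := ℝ)]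
    nlinarith
  obtain ⟨k, hk1, hk2⟩ : ∃ k, ENNReal.ofReal (c * δ) < volume (E0 ∩ I k) ∧
      volume (E0 ∩ I (k + 1)) ≤ ENNReal.ofReal (c * δ) := by
    by_contra hcon
    push Not at hcon
    obtain ⟨k, hk⟩ := ex1
    have : ∀ j, ENNReal.ofReal (c * δ) < volume (E0 ∩ I (k + j)) := fun j => by
      induction j with
      | zero => exact hk
      | succ j ih => exact hcon _ ih
    have h2 : E0 ∩ I (k + (N + 2)) = ∅ := eq_empty_of_forall_notMem fun x hx => by
      have a1 := (hsub hx.1).2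
      have a2 := hx.2.1
      have a3 : ((N : ℝ) + 1) * δ = 1 := by rw [hδ]; field_simp
      push_cast at a2
      nlinarith [k.cast_nonneg (α := ℝ)]
    simpa [h2] using this (N + 2)
  set B := {x | 4⁻¹ ≤ ∫⁻ y in Icc (-δ) δ, ρ (φ x y)} with hB
  have hBm : volume B ≤ ENNReal.ofReal (c * δ / 2) := by
    have := bad (r := fun x y => ρ (φ x y)) (meas_r hρ) (Icc (-δ) δ) univ MeasurableSet.univ
    rw [inter_univ, Measure.restrict_univ, Real.volume_Icc] at this
    refine this.trans ((by gcongr : _ ≤ 16 * (ENNReal.ofReal (δ - -δ) * ENNReal.ofReal (c / 100))).trans ?_)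
    rw [← ENNReal.ofReal_mul (by linarith), ← ENNReal.ofReal_ofNat, ← ENNReal.ofReal_mul (by norm_num)]
    exact ENNReal.ofReal_le_ofReal (by nlinarith [mul_pos hc0 hδ0])
  obtain ⟨x, ⟨hxE, hxI⟩, hxB⟩ := exists_notMem (hBm.trans_lt
    ((ENNReal.ofReal_le_ofReal (by nlinarith [mul_pos hc0 hδ0])).trans_lt hk1))
  obtain ⟨x', hx'I, hx'B⟩ := exists_notMem (A := I (k + 1)) (B := B ∪ E0 ∩ I (k + 1)) (by
    refine (measure_union_le _ _).trans_lt ((add_le_add hBm hk2).trans_lt ?_)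
    rw [← ENNReal.ofReal_add (by positivity) (by positivity), hI, Real.volume_Icc,
      ENNReal.ofReal_lt_ofReal_iff (by push_cast; nlinarith)]
    push_cast; nlinarith)
  rw [mem_union, not_or] at hx'B
  have hx'E : x' ∉ E0 := fun h' => hx'B.2 ⟨h', hx'I⟩
  set J := Icc (k * δ) ((k + 2) * δ) with hJ
  obtain ⟨y, hy, hyB⟩ := exists_notMem (A := Ioc 0 δ)
    (B := {y | 4⁻¹ ≤ ∫⁻ t in J, ρ (φ t y)} ∩ Icc (-δ) δ) (by
    refine (bad (r := fun y t => ρ (φ t y)) ((meas_r hρ).comp measurable_swap) J _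
      measurableSet_Icc).trans_lt ?_
    have h1 : ∫⁻ y in Icc (-δ) δ, ∫⁻ t in J, ρ (φ t y) ^ 2 ≤ ENNReal.ofReal (c / 100) := by
      rw [← lintegral_lintegral_swap ((meas_r hρ).pow_const 2).aemeasurable]
      exact (setLIntegral_le_lintegral _ _).trans hW
    rw [hJ, Real.volume_Icc, Real.volume_Ioc]
    refine lt_of_le_of_lt (by gcongr : _ ≤ 16 * (ENNReal.ofReal ((k + 2) * δ - k * δ) *
      ENNReal.ofReal (c / 100))) ?_
    rw [← ENNReal.ofReal_mul (by nlinarith), ← ENNReal.ofReal_ofNat,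
      ← ENNReal.ofReal_mul (by norm_num), ENNReal.ofReal_lt_ofReal_iff (by linarith)]
    nlinarith [mul_pos hc0 hδ0])
  have hxx : x ≠ x' := fun h' => hx'E (h' ▸ hxE)
  have hA := ((arc_line (isoV x) hy.1.ne).trans (arc_line (isoH y) hxx) (by
    rintro _ ⟨t, -, rfl⟩ ⟨u, -, hu⟩
    have := congrArg (· 1) hu
    simp only [φ1] at this; rw [this])).trans (arc_line (isoV x') hy.1.ne') (by
    rintro _ (⟨t, -, rfl⟩ | ⟨t, -, rfl⟩) ⟨u, -, hu⟩
    · exact absurd (congrArg (· 0) hu).symm hxx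
    · have := congrArg (· 0) hu
      simp only [φ0] at this; rw [this])
  have h1 := h.arc hxE hx'E hA (lt_of_le_of_lt (measure_union_le _ _) (ENNReal.add_lt_top.2
    ⟨lt_of_le_of_lt (measure_union_le _ _) (ENNReal.add_lt_top.2
      ⟨line_len (isoV x) _ _, line_len (isoH y) _ _⟩), line_len (isoV x') _ _⟩))
  have h2 := h1.trans ((lintegral_union_le _ _ _).trans (add_le_add (lintegral_union_le _ _ _) le_rfl))
  rw [line_int (isoV x) hρ measurableSet_uIcc, line_int (isoH y) hρ measurableSet_uIcc,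
    line_int (isoV x') hρ measurableSet_uIcc] at h2
  have s1 : uIcc 0 y ⊆ Icc (-δ) δ :=
    uIcc_subset_Icc ⟨by linarith, hδ0.le⟩ ⟨by linarith [hy.1], hy.2⟩
  have s2 : uIcc x x' ⊆ J := uIcc_subset_Icc ⟨hxI.1, by nlinarith [hxI.2]⟩
    ⟨by have := hx'I.1; push_cast at this; nlinarith, by have := hx'I.2; push_cast at this; nlinarith⟩
  have b1 := (lintegral_mono_set (μ := volume) (f := fun t => ρ (φ x t)) s1).trans (not_le.1 hxB).le
  have b2 := (lintegral_mono_set (μ := volume) (f := fun t => ρ (φ t y)) s2).trans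
    (not_le.1 fun h' => hyB ⟨h', by linarith [hy.1], hy.2⟩).le
  have b3 := (lintegral_mono_set (μ := volume) (f := fun t => ρ (φ x' t))
    ((uIcc_comm _ _).subset.trans s1)).trans (not_le.1 hx'B.1).le
  have h3 := ENNReal.toReal_mono (by finiteness) (h2.trans (add_le_add (add_le_add b1 b2) b3))
  rw [ENNReal.toReal_add (by finiteness) (by finiteness),
    ENNReal.toReal_add (by finiteness) (by finiteness)] at h3
  norm_num at h3


lemma connect {E : Set P} {ρ : P → ℝ≥0∞} (hρ : Measurable ρ) (h : Adm E ρ)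
    (hE1 : E ⊆ {x | x 1 = 0 ∧ 0 ≤ x 0 ∧ x 0 ≤ 1}) {γ : C(unitInterval, P)}
    (hi : Function.Injective γ) (h0 : γ 0 ∈ E) (hl : μH[1] (range γ) < ⊤) {δ : ℝ}
    {t : unitInterval} (ht : ∀ s ≤ t, |γ s 1| ≤ δ) (hx : φ (γ t 0) 0 ∉ E)
    (hV : ∫⁻ y in Icc (-δ) δ, ρ (φ (γ t 0) y) < 4⁻¹) :
    1 ≤ 2 * ∫⁻ p in range γ ∩ {p | |p 1| ≤ δ}, ρ p ∂μH[1] := by
  set x := γ t 0 with hxd
  have hcl : IsClosed {s | γ s 0 = x} := isClosed_eq (by fun_prop) continuous_const
  obtain ⟨u, hu, hmin⟩ := hcl.isCompact.exists_isLeast ⟨t, rfl⟩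
  have hut : u ≤ t := hmin rfl
  have hu' : γ u 0 = x := hu
  have hu0 : u ≠ 0 := fun h' => hx (by
    rw [← hu', h', ← (hE1 h0).1, φ_eta]; exact h0)
  have hδ := abs_le.1 (ht u hut)
  have hδ0 : 0 ≤ δ := (abs_nonneg _).trans (ht u hut)
  have e : γ u = φ x (γ u 1) := by rw [← hu', φ_eta]
  have hA : Arc (γ 0) (φ x 0) (γ '' Iic u ∪ φ x '' Icc (-δ) δ) := by
    by_cases hy : γ u 1 = 0
    · obtain ⟨g, a1, a2, a3, a4⟩ := arc_sub hi hu0
      exact ⟨g, a1, a2, by rw [a3, e, hy], a4.trans subset_union_left⟩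
    · have a1 := arc_line (isoV x) hy
      rw [← e] at a1
      obtain ⟨g, a1, a2, a3, a4⟩ := (arc_sub hi hu0).trans a1 (by
        rintro _ ⟨s, hs, rfl⟩ ⟨y, -, hy⟩
        rw [le_antisymm hs (hmin (show γ s 0 = x by rw [← hy]; rfl))])
      exact ⟨g, a1, a2, a3, a4.trans (union_subset_union_right _ (image_mono
        (uIcc_subset_Icc hδ ⟨by linarith, hδ0⟩)))⟩
  have h1 := (h.arc h0 hx hA (lt_of_le_of_lt (measure_union_le _ _) (ENNReal.add_lt_top.2
    ⟨(measure_mono (image_subset_range _ _)).trans_lt hl, line_len (isoV x) _ _⟩))).trans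
    (lintegral_union_le _ _ _)
  rw [line_int (isoV x) hρ measurableSet_Icc] at h1
  have h2 := h1.trans (add_le_add (lintegral_mono_set (t := range γ ∩ {p | |p 1| ≤ δ}) (by
    rintro _ ⟨s, hs, rfl⟩
    exact ⟨⟨s, rfl⟩, ht s (le_trans hs hut)⟩)) hV.le)
  set a := ∫⁻ p in range γ ∩ {p | |p 1| ≤ δ}, ρ p ∂μH[1]
  rcases eq_or_ne a ⊤ with ha | ha
  · simp [ha]
  have h3 := ENNReal.toReal_mono (by finiteness) h2
  rw [ENNReal.toReal_add ha (by finiteness)] at h3
  rw [← ENNReal.toReal_le_toReal (by simp) (by finiteness), ENNReal.toReal_mul]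
  norm_num at h3 ⊢
  linarith

lemma lip : LipschitzWith 1 fun p : P => |p 1| := by
  refine LipschitzWith.of_dist_le_mul fun p q => ?_
  rw [NNReal.coe_one, one_mul]
  exact (abs_abs_sub_abs_le _ _).trans (PiLp.dist_apply_le p q 1)

lemma cap {E : Set P} (hE1 : E ⊆ {x | x 1 = 0 ∧ 0 ≤ x 0 ∧ x 0 ≤ 1}) (hE : IsClosed E)
    {ρ : P → ℝ≥0∞} (hρ : Measurable ρ) (hf : ∫⁻ p, ρ p ^ 2 ≠ ⊤) (h : Adm E ρ) {ε : ℝ}
    (hε : 0 < ε) (hε1 : ε < 1 / 100) : ∃ σ : P → ℝ≥0∞, Measurable σ ∧
      (∀ γ : C(unitInterval, P), Function.Injective γ → γ 0 ∈ E → γ 1 ∈ Metric.sphere (0 : P) 2 →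
        μH[1] (range γ) < ⊤ → 1 ≤ ∫⁻ x in range γ, σ x ∂μH[1]) ∧
      ∫⁻ p, σ p ^ 2 ≤ ENNReal.ofReal (260 * ε) := by
  obtain ⟨d, hd, hs⟩ := small hρ hf hε
  set δ := min d 1 with hδ
  have hδ0 : 0 < δ := lt_min hd one_pos
  have hδ1 : δ ≤ 1 := min_le_right _ _
  have hW := hs δ (min_le_left _ _)
  set B := {x | 4⁻¹ ≤ ∫⁻ y in Icc (-δ) δ, ρ (φ x y)} ∪ {x | φ x 0 ∈ E} with hB
  have hBm : MeasurableSet B := (measurableSet_le measurable_const
    (meas_r hρ).lintegral_prod_right').union (hE.preimage (isoH 0).continuous).measurableSet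
  have hBv : volume B ≤ ENNReal.ofReal (32 * δ * ε) := by
    refine (measure_union_le _ _).trans ?_
    rw [null hE hE1 hρ hf h, add_zero]
    have := bad (r := fun x y => ρ (φ x y)) (meas_r hρ) (Icc (-δ) δ) univ MeasurableSet.univ
    rw [inter_univ, Measure.restrict_univ, Real.volume_Icc] at this
    refine this.trans ((by gcongr : _ ≤ 16 * (ENNReal.ofReal (δ - -δ) * ENNReal.ofReal ε)).trans ?_)
    rw [← ENNReal.ofReal_mul (by linarith), ← ENNReal.ofReal_ofNat, ← ENNReal.ofReal_mul (by norm_num)]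
    exact ENNReal.ofReal_le_ofReal (by nlinarith)
  set S : Set P := {p | |p 1| ≤ δ} with hS
  set D : Set P := {p | p 0 ∈ B} ∩ S with hD
  have hSm : MeasurableSet S := (isClosed_le (by fun_prop) continuous_const).measurableSet
  have hDm : MeasurableSet D := (hBm.preimage (by fun_prop)).inter hSm
  refine ⟨fun p => max (S.indicator (fun p => 2 * ρ p) p)
    (D.indicator (fun _ => ENNReal.ofReal (2 / δ)) p),
    ((hρ.const_mul 2).indicator hSm).max (measurable_const.indicator hDm),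
    fun γ hi h0 h1 hl => ?_, ?_⟩
  · by_cases hc : ∃ t, (∀ s ≤ t, |γ s 1| ≤ δ) ∧ γ t 0 ∉ B
    · obtain ⟨t, ht, htB⟩ := hc
      rw [hB, mem_union, not_or] at htB
      refine (connect hρ h hE1 hi h0 hl ht htB.2 (not_le.1 htB.1)).trans
        (le_trans (le_of_eq ?_) (lintegral_mono fun p => le_max_left _ _))
      rw [lintegral_indicator hSm, Measure.restrict_restrict hSm, inter_comm,
        lintegral_const_mul _ hρ]
    push Not at hc
    have hy0 : γ 0 1 = 0 := (hE1 h0).1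
    by_cases hc2 : ∃ t, δ ≤ |γ t 1|
    · obtain ⟨t, ht⟩ := hc2
      refine le_trans ?_ (lintegral_mono fun p => le_max_right _ _)
      rw [lintegral_indicator hDm, Measure.restrict_restrict hDm, setLIntegral_const]
      have h2 : Icc 0 δ ⊆ (fun p : P => |p 1|) '' (D ∩ range γ) := fun y hy => by
        have hcl : IsClosed {s | y ≤ |γ s 1|} := isClosed_le continuous_const (by fun_prop)
        obtain ⟨u, hu, hmin⟩ := hcl.isCompact.exists_isLeast ⟨t, hy.2.trans ht⟩
        obtain ⟨v, hv, hvy⟩ := intermediate_value_Icc (f := fun s => |γ s 1|)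
          (unitInterval.nonneg' (t := u)) (by fun_prop) (a := 0) ⟨by simpa [hy0] using hy.1, hu⟩
        have hvu : v = u := le_antisymm hv.2 (hmin hvy.ge)
        subst hvu
        have h3 : ∀ s ≤ v, |γ s 1| ≤ δ := fun s hs => by
          rcases hs.eq_or_lt with rfl | hs
          · exact hvy.le.trans hy.2
          · exact (not_le.1 fun h' => absurd (hmin h') (not_le.2 hs)).le.trans hy.2
        exact ⟨γ v, ⟨⟨hc v h3, h3 v le_rfl⟩, v, rfl⟩, hvy⟩
      have h3 := (measure_mono (μ := μH[1]) h2).trans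
        (lip.hausdorffMeasure_image_le zero_le_one (D ∩ range γ))
      rw [hausdorffMeasure_real, Real.volume_Icc] at h3
      simp only [ENNReal.coe_one, ENNReal.rpow_one, one_mul, sub_zero] at h3
      refine le_trans ?_ (mul_le_mul_right h3 _)
      rw [← ENNReal.ofReal_mul (by positivity), div_mul_cancel₀ _ hδ0.ne']
      simp
    · push Not at hc2
      exfalso
      have h2 : uIcc (γ 0 0) (γ 1 0) ⊆ B := fun x hx => by
        obtain ⟨v, -, hv⟩ := intermediate_value_uIcc (f := fun s => γ s 0) (a := 0) (b := 1)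
          (by fun_prop) hx
        exact hv ▸ hc v fun s _ => (hc2 s).le
      have h3 := (measure_mono (μ := volume) h2).trans hBv
      rw [Real.volume_interval, ENNReal.ofReal_le_ofReal_iff (by positivity), abs_le] at h3
      rw [mem_sphere_zero_iff_norm, EuclideanSpace.norm_eq, Real.sqrt_eq_iff_mul_self_eq
        (by positivity) (by norm_num)] at h1
      simp only [Fin.sum_univ_two, Real.norm_eq_abs, sq_abs] at h1
      have h4 := abs_lt.1 (hc2 1)
      have h5 := (hE1 h0).2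
      have h6 : 32 * δ * ε ≤ 1 / 2 := by nlinarith
      nlinarith
  · have e1 : ∫⁻ p, S.indicator (fun p => 4 * ρ p ^ 2) p ≤ ENNReal.ofReal (4 * ε) := by
      rw [← mp.lintegral_comp (((hρ.pow_const 2).const_mul 4).indicator hSm),
        Measure.volume_eq_prod, lintegral_prod _ (by exact
          ((((hρ.pow_const 2).const_mul 4).indicator hSm).comp mp.measurable).aemeasurable),
        ENNReal.ofReal_mul (by norm_num), ENNReal.ofReal_ofNat]
      refine le_trans (le_of_eq ?_) (mul_le_mul_right hW 4)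
      rw [← lintegral_const_mul _ ((meas_r hρ).pow_const 2).lintegral_prod_right']
      congr 1; funext x
      rw [← lintegral_const_mul' _ _ (by norm_num), ← lintegral_indicator measurableSet_Icc]
      congr 1; funext y
      simp only [indicator, hS, mem_ofPred_eq, φ1, mem_Icc, abs_le, Function.comp]
    have e2 : ∫⁻ p, D.indicator (fun _ => ENNReal.ofReal (2 / δ) ^ 2) p ≤
        ENNReal.ofReal (256 * ε) := by
      rw [lintegral_indicator hDm, setLIntegral_const, ← mp.measure_preimage hDm.nullMeasurableSet]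
      have : (fun q : ℝ × ℝ => φ q.1 q.2) ⁻¹' D = B ×ˢ Icc (-δ) δ := by
        ext q; simp [hD, hS, abs_le]
      rw [this, Measure.volume_eq_prod, Measure.prod_prod, Real.volume_Icc]
      refine (by gcongr : _ ≤ ENNReal.ofReal (2 / δ) ^ 2 * (ENNReal.ofReal (32 * δ * ε) *
        ENNReal.ofReal (δ - -δ))).trans (le_of_eq ?_)
      rw [← ENNReal.ofReal_pow (by positivity), ← ENNReal.ofReal_mul (by positivity),
        ← ENNReal.ofReal_mul (by positivity)]
      congr 1; field_simp; ring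
    rw [show 260 * ε = 4 * ε + 256 * ε by ring, ENNReal.ofReal_add (by positivity) (by positivity)]
    refine le_trans ?_ (add_le_add e1 e2)
    rw [← lintegral_add_right _ (measurable_const.indicator hDm)]
    refine lintegral_mono fun p => ?_
    rcases le_total (S.indicator (fun p => 2 * ρ p) p)
      (D.indicator (fun _ => ENNReal.ofReal (2 / δ)) p) with h' | h'
    · simp only [max_eq_right h']
      refine le_trans (le_of_eq ?_) le_add_self
      by_cases hp : p ∈ D <;> simp [hp]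
    · simp only [max_eq_left h']
      refine le_trans (le_of_eq ?_) le_self_add
      by_cases hp : p ∈ S
      · simp only [indicator_of_mem hp, mul_pow]; norm_num
      · simp [hp]

end Pool.Agent.H97.Gon
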