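import Pool.Agent.H97.KK4

/-! A holomorphic group of hypercyclic operators without common hypercyclic vector. -/

set_option autoImplicit false
open Complex Metric Set Filter Topology MeasureTheory Polynomial
open scoped Nat

namespace Pool.Agent.H97.HC

abbrev XX : Type := lp (fun _ : ℕ => ℂ) 1

lemma hs (x : XX) : HasSum (fun i => ‖x i‖) ‖x‖ := by
  simpa using lp.hasSum_norm (p := 1) (by simp) x

lemma sh_le (x : XX) (n : ℕ) : ‖x (n + 1) / (n + 1 : ℂ)‖ ≤ ‖x (n + 1)‖ := by
  rw [norm_div]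
  refine div_le_self (norm_nonneg _) ?_
  have : ((n : ℂ) + 1) = ((n + 1 : ℕ) : ℂ) := by push_cast; ring
  rw [this, Complex.norm_natCast]
  exact_mod_cast Nat.succ_pos n

lemma sh_sum (x : XX) : Summable fun n : ℕ => ‖x (n + 1) / (n + 1 : ℂ)‖ :=
  Summable.of_nonneg_of_le (fun _ => norm_nonneg _) (sh_le x)
    ((summable_nat_add_iff 1).2 (hs x).summable)

noncomputable def A : XX →L[ℂ] XX :=
  LinearMap.mkContinuous
    { toFun := fun x => ⟨fun n => x (n + 1) / (n + 1 : ℂ), memℓp_gen (by simpa using sh_sum x)⟩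
      map_add' := fun x y => by ext n; simp [add_div]
      map_smul' := fun c x => by ext n; simp [mul_div_assoc] } 1 fun x => by
      refine lp.norm_le_of_tsum_le (by simp) (by positivity) ?_
      simp only [ENNReal.toReal_one, Real.rpow_one, one_mul]
      refine le_trans ((sh_sum x).tsum_le_tsum (sh_le x)
        ((summable_nat_add_iff 1).2 (hs x).summable)) ?_
      have := (hs x).summable.tsum_eq_zero_add
      rw [(hs x).tsum_eq] at this
      linarith [norm_nonneg (x 0)]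

lemma A_apply (x : XX) (n : ℕ) : A x n = x (n + 1) / (n + 1 : ℂ) := rfl

lemma A_pow (k : ℕ) (x : XX) : (A ^ k) x 0 = x k / k ! := by
  have : ∀ m, (A ^ k) x m = x (m + k) * m ! / (m + k)! := by
    induction k with
    | zero => intro m; have : (m ! : ℂ) ≠ 0 := by exact_mod_cast m.factorial_ne_zero
              simp [this]
    | succ k ih =>
      intro m
      rw [pow_succ', mul_apply_eq_comp, A_apply, ih, Nat.factorial_succ m]
      have h1 : (m + 1 : ℂ) ≠ 0 := by exact_mod_cast m.succ_ne_zero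
      have e : m + 1 + k = m + (k + 1) := by ring
      rw [e]
      push_cast
      field_simp
  simpa using this 0

noncomputable def T (z : ℂ) : XX →L[ℂ] XX := NormedSpace.exp (z • A)

lemma T_add (z w : ℂ) : T (z + w) = (T z).comp (T w) := by
  let _ : NormedAlgebra ℚ (XX →L[ℂ] XX) := NormedAlgebra.restrictScalars ℚ ℂ _
  unfold T
  rw [add_smul, NormedSpace.exp_add_of_commute (((Commute.refl A).smul_left z).smul_right w)]
  rfl

lemma T_zero : T 0 = ContinuousLinearMap.id ℂ XX := by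
  unfold T; rw [zero_smul, NormedSpace.exp_zero]; rfl

lemma T_deriv (x : XX) (z : ℂ) : HasDerivAt (fun z => T z x) (T z (A x)) z := by
  have := (hasDerivAt_exp_smul_const (𝕂 := ℂ) A z).clm_apply (hasDerivAt_const z x)
  simpa [T] using this

lemma T_sum (x : XX) (z : ℂ) : HasSum (fun k : ℕ => (z ^ k / k !) • (A ^ k) x) (T z x) := by
  have := (ContinuousLinearMap.apply ℂ XX x).hasSum
    (NormedSpace.exp_series_hasSum_exp' (𝕂 := ℂ) (z • A))
  simp only [_root_.smul_pow, smul_smul, ContinuousLinearMap.apply_apply, smul_apply] at this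
  simp only [div_eq_inv_mul]
  exact this

lemma T_iter (a : ℂ) (x : XX) (n : ℕ) : (T a)^[n] x = T (n * a) x := by
  induction n with
  | zero => simp [T_zero]
  | succ n ih =>
    rw [Function.iterate_succ_apply', ih]
    have : ((n + 1 : ℕ) : ℂ) * a = a + n * a := by push_cast; ring
    rw [this, T_add]; rfl

noncomputable def ev0 : XX →L[ℂ] ℂ :=
  LinearMap.mkContinuous
    { toFun := fun x => x 0
      map_add' := fun x y => by simp
      map_smul' := fun c x => by simp } 1 fun x => by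
      simpa using lp.norm_apply_le_norm one_ne_zero x 0

/-- the entire function attached to a vector -/
noncomputable def F (x : XX) (z : ℂ) : ℂ := ev0 (T z x)

lemma F_diff (x : XX) : Differentiable ℂ (F x) := fun z =>
  ev0.differentiableAt.comp z (T_deriv x z).differentiableAt

lemma F_T (x : XX) (a z : ℂ) : F (T a x) z = F x (z + a) := by
  unfold F; rw [T_add]; rfl

lemma F_sub (x y : XX) (z : ℂ) : F (x - y) z = F x z - F y z := by
  unfold F; rw [map_sub, map_sub]

lemma F_bound (x : XX) {z : ℂ} {ρ : ℝ} (hρ : 0 ≤ ρ) (hz : ‖z‖ ≤ ρ ^ 2) :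
    ‖F x z‖ ≤ ‖x‖ * Real.exp (2 * ρ) := by
  have h1 := ev0.hasSum (T_sum x z)
  have h2 : HasSum (fun k : ℕ => ‖x‖ * Real.exp ρ * (ρ ^ k / k !)) (‖x‖ * Real.exp ρ * Real.exp ρ) := by
    refine HasSum.mul_left _ ?_
    rw [Real.exp_eq_exp_ℝ]
    exact NormedSpace.expSeries_div_hasSum_exp ρ
  rw [two_mul, Real.exp_add, ← mul_assoc]
  refine h1.norm_le_of_bounded h2 fun k => ?_
  have e : ev0 ((z ^ k / k !) • (A ^ k) x) = z ^ k / k ! * (x k / k !) := by
    rw [map_smul, smul_eq_mul, ← A_pow]; rfl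
  rw [e, norm_mul, norm_div, norm_div, norm_pow, Complex.norm_natCast]
  have h3 := lp.norm_apply_le_norm one_ne_zero x k
  have h4 := Real.pow_div_factorial_le_exp ρ hρ k
  calc _ ≤ (ρ ^ 2) ^ k / k ! * (‖x‖ / k !) := by gcongr
    _ = ‖x‖ * (ρ ^ k / k !) * (ρ ^ k / k !) := by ring
    _ ≤ _ := by gcongr

noncomputable def u (n : ℕ) : XX := lp.single 1 n ((n ! : ℂ) ^ 2)

lemma A_u (n : ℕ) : A (u n) = (n : ℂ) • u (n - 1) := by
  ext m
  rw [A_apply]
  rcases n with _ | n
  · simp [u, lp.single_apply]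
  · by_cases h : m = n
    · subst h
      have h1 : (m + 1 : ℂ) ≠ 0 := by exact_mod_cast m.succ_ne_zero
      simp [u, lp.single_apply, Nat.factorial_succ]
      field_simp
    · simp [u, lp.single_apply, Pi.single_apply, h]

lemma A_pow_u (k n : ℕ) : (A ^ k) (u n) = (n.descFactorial k : ℂ) • u (n - k) := by
  induction k with
  | zero => simp
  | succ k ih =>
    rw [pow_succ', mul_apply_eq_comp, ih, map_smul, A_u, smul_smul,
      Nat.descFactorial_succ, Nat.sub_sub]
    congr 1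
    push_cast; ring

noncomputable def Φ : ℂ[X] →ₗ[ℂ] XX := Polynomial.lsum fun n => LinearMap.toSpanSingleton ℂ XX (u n)

lemma Φ_mon (n : ℕ) (c : ℂ) : Φ (C c * X ^ n) = c • u n := by
  rw [C_mul_X_pow_eq_monomial]
  simp [Φ, Polynomial.lsum_apply, Polynomial.sum_monomial_index]

lemma T_Φ (t : ℂ) (p : ℂ[X]) : T t (Φ p) = Φ (p.comp (X + C t)) := by
  induction p using Polynomial.induction_on' with
  | add p q hp hq => simp only [map_add, add_comp, hp, hq]
  | monomial n c =>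
    rw [← C_mul_X_pow_eq_monomial, Φ_mon, map_smul, mul_comp, C_comp, X_pow_comp, C_mul',
      map_smul, add_comm X, add_pow, map_sum]
    congr 1
    refine (T_sum (u n) t).unique ?_
    have : ∀ k : ℕ, (t ^ k / k !) • (A ^ k) (u n) = Φ (C t ^ k * X ^ (n - k) * (n.choose k : ℂ[X])) := by
      intro k
      have e : C t ^ k * X ^ (n - k) * (n.choose k : ℂ[X]) = C (t ^ k * n.choose k) * X ^ (n - k) := by
        simp only [map_mul, map_pow, map_natCast]; ring
      have h1 : (k ! : ℂ) ≠ 0 := by exact_mod_cast k.factorial_ne_zero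
      rw [e, Φ_mon, A_pow_u, smul_smul, Nat.descFactorial_eq_factorial_mul_choose]
      congr 1
      push_cast; field_simp
    simp only [this]
    refine hasSum_sum_of_ne_finset_zero fun k hk => ?_
    rw [Nat.choose_eq_zero_of_lt (by simpa using hk)]
    simp

lemma Φ_dense : Dense (LinearMap.range Φ : Set XX) := by
  intro x
  refine mem_closure_of_tendsto (lp.hasSum_single (by simp) x) (Eventually.of_forall fun s => ?_)
  refine Submodule.sum_mem _ fun n _ => ⟨C (x n / (n ! : ℂ) ^ 2) * X ^ n, ?_⟩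
  have h1 : (n ! : ℂ) ≠ 0 := by exact_mod_cast n.factorial_ne_zero
  rw [Φ_mon, u, ← lp.single_smul]
  congr 1
  simp only [smul_eq_mul]; field_simp


lemma Φ_cont (Q : ℂ[X][X]) : Continuous fun s : ℂ => Φ (Q.eval (C s)) := by
  induction Q using Polynomial.induction_on' with
  | add p q hp hq => simp only [eval_add, map_add]; exact hp.add hq
  | monomial n a =>
    have : ∀ s : ℂ, Φ ((monomial n a).eval (C s)) = s ^ n • Φ a := fun s => by
      rw [eval_monomial, ← map_smul, mul_comm, ← C_pow, C_mul']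
    simp only [this]
    fun_prop

def Mix (v w : XX) : Prop := ∃ x : ℂ → XX, Tendsto x (𝓝[≠] 0) (𝓝 v) ∧
  Tendsto (fun s => T s⁻¹ (x s)) (𝓝[≠] 0) (𝓝 w)

lemma Mix.add {v w v' w' : XX} (h : Mix v w) (h' : Mix v' w') : Mix (v + v') (w + w') := by
  obtain ⟨x, h1, h2⟩ := h
  obtain ⟨y, h3, h4⟩ := h'
  exact ⟨fun s => x s + y s, h1.add h3, by simpa only [map_add] using h2.add h4⟩

lemma mix_of (P Q : ℂ[X][X]) (h : ∀ s : ℂ, s ≠ 0 → (P.eval (C s)).comp (X + C s⁻¹) = Q.eval (C s)) :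
    Mix (Φ (P.eval (C 0))) (Φ (Q.eval (C 0))) := by
  refine ⟨fun s => Φ (P.eval (C s)), ((Φ_cont P).tendsto 0).mono_left nhdsWithin_le_nhds, ?_⟩
  refine (((Φ_cont Q).tendsto 0).mono_left nhdsWithin_le_nhds).congr' ?_
  filter_upwards [self_mem_nhdsWithin] with s hs
  rw [T_Φ, h s hs]

lemma mix_left (p : ℂ[X]) : Mix (Φ p) 0 := by
  induction p using Polynomial.induction_on' with
  | add p q hp hq => simpa using hp.add hq
  | monomial j c =>
    have := mix_of (C (C c * X ^ j) * (1 - X * C X) ^ (j + 1))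
      (C (C c) * (X * C X + 1) ^ j * (-(C X : ℂ[X][X])) ^ (j + 1) * X) fun s hs => by
        have e : (C s * C s⁻¹ : ℂ[X]) = 1 := by rw [← C_mul, mul_inv_cancel₀ hs, C_1]
        simp only [eval_mul, eval_C, eval_pow, eval_sub, eval_one, eval_X, eval_add, eval_neg,
          mul_comp, C_comp, pow_comp, sub_comp, one_comp, X_comp]
        have e1 : (1 - C s * (X + C s⁻¹) : ℂ[X]) = C s * -X := by linear_combination -e
        have e2 : (C s * X + 1 : ℂ[X]) = C s * (X + C s⁻¹) := by linear_combination -e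
        rw [e1, e2, mul_pow, mul_pow]; ring
    simpa [C_mul_X_pow_eq_monomial] using this

lemma mix_right (p : ℂ[X]) : Mix 0 (Φ p) := by
  induction p using Polynomial.induction_on' with
  | add p q hp hq => simpa using hp.add hq
  | monomial j c =>
    have := mix_of (C (C c) * (X * C X - 1) ^ j * (C X) ^ (j + 1) * X)
      (C (C c * X ^ j) * (X * C X + 1) ^ (j + 1)) fun s hs => by
        have e : (C s * C s⁻¹ : ℂ[X]) = 1 := by rw [← C_mul, mul_inv_cancel₀ hs, C_1]
        simp only [eval_mul, eval_C, eval_pow, eval_sub, eval_one, eval_X, eval_add, eval_neg,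
          mul_comp, C_comp, pow_comp, sub_comp, one_comp, X_comp]
        have e1 : (C s * (X + C s⁻¹) - 1 : ℂ[X]) = C s * X := by linear_combination e
        have e2 : (C s * X + 1 : ℂ[X]) = C s * (X + C s⁻¹) := by linear_combination -e
        rw [e1, e2, mul_pow, mul_pow]; ring
    simpa [C_mul_X_pow_eq_monomial] using this

lemma trans {a : ℂ} (ha : a ≠ 0) {V : Set XX} (hV : IsOpen V) (hne : V.Nonempty) :
    Dense (⋃ n : ℕ, T (n * a) ⁻¹' V) := by
  rw [dense_iff_inter_open]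
  intro U hU hUne
  obtain ⟨_, hp, p, rfl⟩ := Φ_dense.inter_open_nonempty U hU hUne
  obtain ⟨_, hq, q, rfl⟩ := Φ_dense.inter_open_nonempty V hV hne
  obtain ⟨x, h1, h2⟩ := (mix_left p).add (mix_right q)
  rw [add_zero] at h1
  rw [zero_add] at h2
  have h3 : Tendsto (fun n : ℕ => ((n : ℂ) * a)⁻¹) atTop (𝓝[≠] 0) := by
    refine tendsto_nhdsWithin_iff.2 ⟨?_, ?_⟩
    · simp only [mul_inv]
      simpa using (tendsto_inv_atTop_nhds_zero_nat (𝕜 := ℂ)).mul_const a⁻¹
    · filter_upwards [eventually_gt_atTop 0] with n hn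
      exact inv_ne_zero (mul_ne_zero (Nat.cast_ne_zero.2 hn.ne') ha)
  obtain ⟨n, hn1, hn2⟩ := (((h1.comp h3).eventually (hU.mem_nhds hp)).and
    ((h2.comp h3).eventually (hV.mem_nhds hq))).exists
  simp only [Function.comp_apply, inv_inv] at hn2
  exact ⟨_, hn1, mem_iUnion.2 ⟨n, hn2⟩⟩

instance : TopologicalSpace.SeparableSpace XX := by
  rw [← TopologicalSpace.isSeparable_univ_iff, ← Φ_dense.closure_eq]
  refine (TopologicalSpace.IsSeparable.mono
    (TopologicalSpace.IsSeparable.span (R := ℂ) (countable_range u).isSeparable) ?_).closure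
  rintro _ ⟨p, rfl⟩
  induction p using Polynomial.induction_on' with
  | add p q hp hq => rw [map_add]; exact Submodule.add_mem _ hp hq
  | monomial j c =>
    rw [← C_mul_X_pow_eq_monomial, Φ_mon]
    exact Submodule.smul_mem _ _ (Submodule.subset_span ⟨j, rfl⟩)

theorem hyper {a : ℂ} (ha : a ≠ 0) : ∃ y : XX, Dense (range fun n : ℕ => (T a)^[n] y) := by
  have := UniformSpace.secondCountable_of_separable XX
  obtain ⟨b, hb, hb0, hbb⟩ := TopologicalSpace.exists_countable_basis XX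
  have hd := dense_biInter_of_isOpen (S := b) (f := fun V => ⋃ n : ℕ, T (n * a) ⁻¹' V)
    (fun V hV => isOpen_iUnion fun n => (hbb.isOpen hV).preimage (T _).continuous) hb
    fun V hV => trans ha (hbb.isOpen hV) (nonempty_iff_ne_empty.2 fun h => hb0 (h ▸ hV))
  obtain ⟨y, hy⟩ := hd.nonempty
  refine ⟨y, hbb.dense_iff.2 fun V hV _ => ?_⟩
  obtain ⟨n, hn⟩ := mem_iUnion.1 (mem_iInter₂.1 hy V hV)
  exact ⟨_, hn, n, T_iter a y n⟩


lemma F_u1 (z : ℂ) : F (u 1) z = z := by
  have h1 : u 1 = Φ (C 1 * X ^ 1) := by rw [Φ_mon, one_smul]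
  have h2 : ((C 1 * X ^ 1 : ℂ[X]).comp (X + C z)) = C 1 * X ^ 1 + C z * X ^ 0 := by simp
  unfold F
  rw [h1, T_Φ, h2, map_add, Φ_mon, Φ_mon, map_add, map_smul, map_smul]
  have e1 : ev0 (u 1) = 0 := by change u 1 0 = 0; simp [u, lp.single_apply]
  have e0 : ev0 (u 0) = 1 := by change u 0 0 = 1; simp [u, lp.single_apply]
  simp [e1, e0]

lemma near_zero {y : XX} (hy : ‖y - u 1‖ < (2 * Real.exp 2)⁻¹) : ∃ z, ‖z‖ ≤ 1 ∧ F y z = 0 := by
  by_contra hcon
  push Not at hcon
  have h1 : ∀ z : ℂ, ‖z‖ ≤ 1 → ‖F y z - z‖ < 1 / 2 := fun z hz => by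
    have := F_bound (y - u 1) zero_le_one (z := z) (by simpa using hz)
    rw [F_sub, F_u1, mul_one] at this
    refine this.trans_lt ?_
    rw [← lt_div_iff₀ (Real.exp_pos _)]
    refine hy.trans_le (le_of_eq ?_)
    field_simp
  have h2 : ‖(F y 0)⁻¹‖ ≤ 2 := by
    refine norm_le_of_forall_mem_frontier_norm_le (f := fun z => (F y z)⁻¹) (U := ball 0 1)
      isBounded_ball (DifferentiableOn.diffContOnCl ?_) (fun w hw => ?_)
      (subset_closure (mem_ball_self one_pos))
    · rw [closure_ball _ one_ne_zero]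
      exact (F_diff y).differentiableOn.inv fun z hz => hcon z (mem_closedBall_zero_iff.1 hz)
    · rw [frontier_ball _ one_ne_zero, mem_sphere_zero_iff_norm] at hw
      have h3 := h1 w hw.le
      have h4 := norm_sub_norm_le w (F y w)
      rw [norm_sub_rev] at h4
      rw [norm_inv, inv_le_comm₀ (by linarith) (by norm_num)]
      linarith
  have h3 := h1 0 (by simp)
  rw [sub_zero] at h3
  rw [norm_inv, inv_le_comm₀ (norm_pos_iff.2 (hcon 0 (by simp))) (by norm_num)] at h2
  linarith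

lemma count {x : XX} {c : ℂ} (hc : F x c ≠ 0) : ∃ K : ℝ, ∀ k : ℕ, ∀ S : Finset ℂ,
    (∀ z ∈ S, F x z = 0 ∧ ‖z‖ ≤ 4 ^ k) → (S.card : ℝ) ≤ K * 2 ^ k := by
  have hx : 0 < ‖x‖ := norm_pos_iff.2 fun h => hc (by simp [F, h])
  have hne : F x ≠ 0 := fun h => hc (by simp [h])
  refine ⟨2 * (|Real.log (‖x‖ / ‖F x c‖)| + 4 * (1 + ‖c‖)), fun k S hS => ?_⟩
  have h4 : (4 : ℝ) ^ k = (2 ^ k) ^ 2 := by rw [← pow_mul, mul_comm, pow_mul]; norm_num
  have h1 : (1 : ℝ) ≤ 2 ^ k := one_le_pow₀ one_le_two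
  have hc0 := norm_nonneg c
  have := KK.jen (F x) c (4 ^ k + ‖c‖) (‖x‖ * Real.exp (2 * (2 * (1 + ‖c‖) * 2 ^ k))) (F_diff x)
    (by positivity) hc (fun z hz => F_bound x (by positivity) (by
      have := norm_add_le (z - c) c
      rw [sub_add_cancel] at this
      have h5 : ‖c‖ ≤ ‖c‖ * (2 ^ k) ^ 2 := le_mul_of_one_le_right hc0 (by nlinarith)
      nlinarith [mul_nonneg (sq_nonneg ‖c‖) (sq_nonneg ((2 : ℝ) ^ k))])) S
    fun z hz => (norm_sub_le _ _).trans (by linarith [(hS z hz).2])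
  have h6 : (S.card : ℝ) ≤ ∑ z ∈ S, (analyticOrderNatAt (F x) z : ℝ) := by
    rw [Finset.card_eq_sum_ones, Nat.cast_sum]
    refine Finset.sum_le_sum fun z hz => Nat.cast_le.2 (Nat.one_le_iff_ne_zero.2 fun h => ?_)
    have hA : ∀ z, AnalyticAt ℂ (F x) z := fun z => (F_diff x).analyticAt z
    have htop : analyticOrderAt (F x) z ≠ ⊤ := fun h =>
      hne ((AnalyticOnNhd.analyticOrderAt_eq_top_iff_eq_zero z hA).1 h)
    have h7 : analyticOrderAt (F x) z = 0 := by
      rw [← Nat.cast_analyticOrderNatAt htop, h]; rfl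
    exact ((hA z).analyticOrderAt_eq_zero.1 h7) (hS z hz).1
  refine h6.trans (this.trans ?_)
  rw [mul_div_right_comm, Real.log_mul (div_pos hx (norm_pos_iff.2 hc)).ne' (Real.exp_pos _).ne',
    Real.log_exp]
  have h8 := le_abs_self (Real.log (‖x‖ / ‖F x c‖))
  have h9 := le_mul_of_one_le_right (abs_nonneg (Real.log (‖x‖ / ‖F x c‖))) h1
  nlinarith

lemma avoid {Z : Set ℂ} {K : ℝ} (h : ∀ k : ℕ, ∀ S : Finset ℂ,
    (∀ z ∈ S, z ∈ Z ∧ ‖z‖ ≤ 4 ^ k) → (S.card : ℝ) ≤ K * 2 ^ k) :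
    ∃ s : ℝ, ∃ N : ℕ, ∀ n ≥ N, ∀ z ∈ Z, 1 < ‖z - n * (1 + s * I)‖ := by
  have hfin : ∀ k : ℕ, {z ∈ Z | ‖z‖ ≤ 4 ^ k}.Finite := fun k => by
    by_contra hinf
    obtain ⟨m, hm⟩ := exists_nat_gt (K * 2 ^ k)
    obtain ⟨S, hS, hc⟩ := Set.Infinite.exists_subset_card_eq hinf m
    have := h k S fun z hz => hS hz
    rw [hc] at this
    linarith
  set B : ℕ → Set ℝ := fun k => ⋃ z ∈ ((hfin (k + 2)).toFinset.filter fun z => 4 ^ k ≤ z.re),
    closedBall (z.im / z.re) (2 / 4 ^ k) with hB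
  have hμ : ∀ k, volume (B k) ≤ ENNReal.ofReal (16 * |K| * (1 / 2) ^ k) := fun k => by
    refine (measure_biUnion_finset_le _ _).trans ?_
    simp only [Real.volume_closedBall, Finset.sum_const, nsmul_eq_mul]
    rw [← ENNReal.ofReal_natCast, ← ENNReal.ofReal_mul (Nat.cast_nonneg _)]
    refine ENNReal.ofReal_le_ofReal ?_
    have h1 := h (k + 2) ((hfin (k + 2)).toFinset.filter fun z => 4 ^ k ≤ z.re) fun z hz => by
      simpa using (Finset.mem_filter.1 hz).1
    have h4 : (4 : ℝ) ^ k = 2 ^ k * 2 ^ k := by rw [← mul_pow]; norm_num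
    calc _ ≤ |K| * 2 ^ (k + 2) * (2 * (2 / 4 ^ k)) := by
          gcongr; exact h1.trans (by gcongr; exact le_abs_self K)
      _ = _ := by rw [h4, one_div, inv_pow]; field_simp; ring
  have hsum : ∑' k, volume (B k) ≠ ⊤ := by
    refine ne_top_of_le_ne_top ?_ (ENNReal.tsum_le_tsum hμ)
    rw [← ENNReal.ofReal_tsum_of_nonneg (fun k => by positivity)
      (summable_geometric_two.mul_left _)]
    exact ENNReal.ofReal_ne_top
  obtain ⟨s, hs, hsf⟩ := Measure.exists_mem_of_measure_ne_zero_of_ae (μ := volume)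
    (s := Icc (0 : ℝ) 1) (by simp) (ae_restrict_of_ae (ae_finite_setOfPred_mem hsum))
  obtain ⟨k0, hk0⟩ := hsf.bddAbove
  refine ⟨s, 4 ^ (k0 + 1) + 1, fun n hn z hz => ?_⟩
  by_contra hle
  push Not at hle
  have hn' : (4 : ℝ) ^ (k0 + 1) + 1 ≤ n := by exact_mod_cast hn
  have a1 := (abs_re_le_norm _).trans hle
  have a2 := (abs_im_le_norm _).trans hle
  simp only [sub_re, mul_re, natCast_re, add_re, one_re, ofReal_re, I_re, mul_zero, ofReal_im,
    I_im, mul_one, sub_self, add_zero, natCast_im, add_im, one_im, mul_im, zero_add, zero_mul,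
    sub_zero, sub_im] at a1 a2
  rw [abs_le] at a1 a2
  have hre : (4 : ℝ) ^ (k0 + 1) ≤ z.re := by linarith
  have hp : (1 : ℝ) ≤ 4 ^ (k0 + 1) := one_le_pow₀ (by norm_num)
  obtain ⟨k, hk1, hk2⟩ := exists_nat_pow_near (hp.trans hre) (show (1 : ℝ) < 4 by norm_num)
  have hk : k0 + 1 ≤ k := by
    have := (pow_lt_pow_iff_right₀ (show (1 : ℝ) < 4 by norm_num)).1 (hre.trans_lt hk2)
    omega
  have hz0 : 0 < z.re := by linarith
  have hns : 0 ≤ n * s := mul_nonneg (Nat.cast_nonneg n) hs.1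
  have hns1 : n * s ≤ n := mul_le_of_le_one_right (Nat.cast_nonneg n) hs.2
  have : s ∈ B k := by
    refine mem_iUnion₂.2 ⟨z, Finset.mem_filter.2 ⟨?_, hk1⟩, ?_⟩
    · rw [Set.Finite.mem_toFinset]
      refine ⟨hz, (norm_le_abs_re_add_abs_im z).trans ?_⟩
      have : |z.im| ≤ z.re + 2 := abs_le.2 ⟨by linarith, by linarith⟩
      rw [abs_of_pos hz0, pow_succ]
      linarith
    · rw [mem_closedBall, Real.dist_eq]
      have e : s - z.im / z.re = (s * z.re - z.im) / z.re := by field_simp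
      rw [e, abs_div, abs_of_pos hz0]
      have : |s * z.re - z.im| ≤ 2 := abs_le.2 ⟨by nlinarith [hs.1, hs.2], by nlinarith [hs.1, hs.2]⟩
      gcongr
  have := hk0 this
  omega

theorem no_common (x : XX) : ¬ ∀ a : ℂ, a ≠ 0 → Dense (range fun n : ℕ => (T a)^[n] x) := by
  intro H
  have hnt : Nontrivial XX := ⟨⟨u 1, 0, fun h => by
    have := F_u1 1
    rw [h] at this
    simp [F] at this⟩⟩
  have hpos : (0 : ℝ) < (2 * Real.exp 2)⁻¹ := by positivity
  have hc : ∃ c, F x c ≠ 0 := by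
    by_contra h
    push Not at h
    have hcl : IsClosed {y : XX | F y 1 = 0} :=
      isClosed_eq (ev0.continuous.comp (T 1).continuous) continuous_const
    have := hcl.closure_subset_iff.2 (show range (fun n : ℕ => (T 1)^[n] x) ⊆ {y | F y 1 = 0} by
      rintro _ ⟨n, rfl⟩
      simp only [mem_ofPred_eq, T_iter, F_T, h]) (H 1 one_ne_zero (u 1))
    rw [mem_ofPred_eq, F_u1] at this
    exact one_ne_zero this
  obtain ⟨c, hc⟩ := hc
  obtain ⟨K, hK⟩ := count hc
  obtain ⟨s, N, hN⟩ := avoid (Z := {z | F x z = 0}) hK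
  have ha : (1 + s * I : ℂ) ≠ 0 := fun h => by simpa using congrArg re h
  obtain ⟨y, hy, ⟨n, rfl⟩, hy2⟩ := ((H _ ha).sdiff_finite
    ((finite_lt_nat N).image fun n : ℕ => (T (1 + s * I))^[n] x)).inter_open_nonempty
    (ball (u 1) _) isOpen_ball ⟨_, mem_ball_self hpos⟩
  obtain ⟨z, hz, hz0⟩ := near_zero (mem_ball_iff_norm.1 hy)
  simp only [T_iter, F_T] at hz0
  have := hN n (not_lt.1 fun h => hy2 ⟨n, h, rfl⟩) _ hz0
  rw [add_sub_cancel_right] at this
  linarith

end Pool.Agent.H97.HC
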