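import Mathlib

/-! Translation group on a Frechet space of entire functions of order 3/2. -/

set_option autoImplicit false
open Complex Metric Set Filter Topology Asymptotics

namespace Pool.Agent.H97.HD

abbrev B : Type := lp (fun _ : ℂ => ℂ) ⊤
abbrev Z : Type := ℕ → B

noncomputable def p (k : ℕ) (z : ℂ) : ℝ := √‖z‖ ^ 3 / 4 ^ k

lemma p_add (k : ℕ) (a z : ℂ) : p (k + 1) (z + a) - p k z ≤ √‖a‖ ^ 3 := by
  have h1 : √‖z + a‖ ≤ √‖z‖ + √‖a‖ := by
    rw [Real.sqrt_le_left (by positivity)]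
    nlinarith [norm_add_le z a, Real.sq_sqrt (norm_nonneg z), Real.sq_sqrt (norm_nonneg a),
      mul_nonneg (Real.sqrt_nonneg ‖z‖) (Real.sqrt_nonneg ‖a‖)]
  have h2 : √‖z + a‖ ^ 3 ≤ 4 * (√‖z‖ ^ 3 + √‖a‖ ^ 3) :=
    (pow_le_pow_left₀ (Real.sqrt_nonneg _) h1 3).trans (by
      nlinarith [mul_nonneg (add_nonneg (Real.sqrt_nonneg ‖z‖) (Real.sqrt_nonneg ‖a‖))
        (sq_nonneg (√‖z‖ - √‖a‖))])
  have h3 : √‖a‖ ^ 3 / 4 ^ k ≤ √‖a‖ ^ 3 :=
    div_le_self (by positivity) (one_le_pow₀ (by norm_num))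
  have h4 : √‖z + a‖ ^ 3 / 4 ^ (k + 1) ≤ √‖z‖ ^ 3 / 4 ^ k + √‖a‖ ^ 3 / 4 ^ k := by
    rw [← add_div, pow_succ (4:ℝ), div_le_div_iff₀ (by positivity) (by positivity)]
    nlinarith [mul_le_mul_of_nonneg_right h2 (show (0:ℝ) ≤ 4 ^ k by positivity)]
  unfold p; linarith

lemma bd (k : ℕ) (c : ℝ) (hc : 0 ≤ c) (z : ℂ) : c * ‖z‖ - p k z ≤ c * (c * 4 ^ k) ^ 2 := by
  have h0 := Real.sqrt_nonneg ‖z‖
  have h1 := Real.sq_sqrt (norm_nonneg z)
  unfold p
  rcases le_total (√‖z‖) (c * 4 ^ k) with h | h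
  · have : ‖z‖ ≤ (c * 4 ^ k) ^ 2 := h1 ▸ pow_le_pow_left₀ h0 h 2
    have h2 : 0 ≤ √‖z‖ ^ 3 / 4 ^ k := by positivity
    nlinarith
  · have : c * ‖z‖ ≤ √‖z‖ ^ 3 / 4 ^ k := by
      rw [le_div_iff₀ (by positivity), pow_succ, h1]
      nlinarith [mul_le_mul_of_nonneg_left h (norm_nonneg z)]
    have h2 : 0 ≤ c * (c * 4 ^ k) ^ 2 := by positivity
    linarith

def mk (f : ℂ → ℂ) (C : ℝ) (h : ∀ z, ‖f z‖ ≤ C) : B :=
  ⟨f, memℓp_infty ⟨C, by rintro _ ⟨z, rfl⟩; exact h z⟩⟩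

@[simp] lemma mk_apply (f C h z) : mk f C h z = f z := rfl

lemma sh_le (k : ℕ) (a : ℂ) (g : B) (z : ℂ) :
    ‖g (z + a) * exp (p (k + 1) (z + a) - p k z : ℝ)‖ ≤ Real.exp (√‖a‖ ^ 3) * ‖g‖ := by
  rw [norm_mul, norm_exp_ofReal, mul_comm]
  gcongr
  · exact p_add k a z
  · exact lp.norm_apply_le_norm ENNReal.top_ne_zero g _

noncomputable def sh (k : ℕ) (a : ℂ) : B →L[ℂ] B :=
  LinearMap.mkContinuous
    { toFun := fun g => mk _ _ (sh_le k a g)
      map_add' := fun x y => by ext n; simp [add_mul]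
      map_smul' := fun c x => by ext n; simp [mul_assoc] } (Real.exp (√‖a‖ ^ 3)) fun g =>
    lp.norm_le_of_forall_le (by positivity) (sh_le k a g)

noncomputable def T0 (a : ℂ) : Z →L[ℂ] Z :=
  ContinuousLinearMap.pi fun k => (sh k a).comp (ContinuousLinearMap.proj (k + 1))

lemma T0_le (a : ℂ) (x : Z) (k : ℕ) : ‖T0 a x k‖ ≤ Real.exp (√‖a‖ ^ 3) * ‖x (k + 1)‖ :=
  lp.norm_le_of_forall_le (by positivity) (sh_le k a _)

lemma ex_le (k : ℕ) (l : ℂ) (c : ℝ) (hc : 0 ≤ c) (z : ℂ) :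
    Real.exp (c * ‖z‖) * ‖exp (l * z - p k z)‖ ≤
      Real.exp ((‖l‖ + c) * ((‖l‖ + c) * 4 ^ k) ^ 2) := by
  rw [norm_exp, ← Real.exp_add, sub_re, ofReal_re]
  refine Real.exp_le_exp.2 (le_trans ?_ (bd k _ (by positivity) z))
  have := re_le_norm (l * z)
  rw [norm_mul] at this
  linarith

noncomputable def E (l : ℂ) : Z := fun k =>
  mk (fun z => exp (l * z - p k z)) _ fun z => by simpa using ex_le k l 0 le_rfl z

lemma T0_E (a l : ℂ) : T0 a (E l) = exp (l * a) • E l := by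
  ext k z
  show exp _ * exp _ = exp _ * exp _
  rw [← exp_add, ← exp_add]
  congr 1; push_cast; ring

lemma E_diff (k : ℕ) : Differentiable ℂ fun l => E l k := fun l => by
  have h0 : ∀ z : ℂ, ‖z‖ ≤ Real.exp (1 * ‖z‖) := fun z => by
    linarith [Real.add_one_le_exp (1 * ‖z‖)]
  refine HasDerivAt.differentiableAt (f' := mk (fun z => z * exp (l * z - p k z)) _ fun z => by
    rw [norm_mul]
    exact (mul_le_mul_of_nonneg_right (h0 z) (norm_nonneg _)).trans (ex_le k l 1 zero_le_one z))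
    (hasDerivAt_iff_isLittleO_nhds_zero.2 (IsBigO.trans_isLittleO (g := fun h : ℂ => h ^ 2)
      (IsBigO.of_bound (Real.exp ((‖l‖ + 3) * ((‖l‖ + 3) * 4 ^ k) ^ 2)) ?_)
      (isLittleO_pow_id one_lt_two)))
  filter_upwards [closedBall_mem_nhds (0 : ℂ) one_pos] with h hh
  refine lp.norm_le_of_forall_le (by positivity) fun z => ?_
  have h1 := norm_exp_sub_sum_le_norm_mul_exp (h * z) 2
  have e : exp ((l + h) * z - p k z) - exp (l * z - p k z) - h * (z * exp (l * z - p k z)) =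
      (exp (h * z) - ∑ m ∈ Finset.range 2, (h * z) ^ m / m.factorial) * exp (l * z - p k z) := by
    rw [show (l + h) * z - p k z = h * z + (l * z - p k z) by ring, exp_add]
    simp [Finset.sum_range_succ]; ring
  refine le_of_eq_of_le (congrArg _ e) ?_
  rw [norm_mul, norm_pow, mul_comm _ (‖h‖ ^ 2)]
  refine le_trans ?_ (mul_le_mul_of_nonneg_left (ex_le k l 3 (by norm_num) z) (sq_nonneg _))
  rw [← mul_assoc]
  refine mul_le_mul_of_nonneg_right (h1.trans ?_) (norm_nonneg _)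
  rw [norm_mul, mul_pow, mul_assoc, show 3 * ‖z‖ = (2 : ℕ) * (1 * ‖z‖) + 1 * ‖z‖ by
    push_cast; ring, Real.exp_add, Real.exp_nat_mul]
  have := mem_closedBall_zero_iff.1 hh
  gcongr
  exact h0 z

lemma slopeZ {Y : Type} [NormedAddCommGroup Y] [NormedSpace ℂ Y] {g : ℂ → ℕ → Y}
    (h : ∀ k, Differentiable ℂ fun z => g z k) (z : ℂ) :
    Tendsto (fun t : ℂ => t⁻¹ • (g (z + t) - g z)) (𝓝[≠] 0) (𝓝 fun k => deriv (g · k) z) :=
  tendsto_pi_nhds.2 fun k => hasDerivAt_iff_tendsto_slope_zero.1 (h k z).hasDerivAt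

lemma E_mem {Λ : Set ℂ} {c : ℂ} (h : ∃ᶠ l in 𝓝[≠] c, l ∈ Λ) (m : ℂ) :
    E m ∈ (Submodule.span ℂ (E '' Λ)).topologicalClosure := by
  by_contra hm
  set M := (Submodule.span ℂ (E '' Λ)).topologicalClosure
  obtain ⟨φ, u, h1, h2⟩ := RCLike.geometric_hahn_banach_closed_point (𝕜 := ℂ)
    (M.restrictScalars ℝ).convex (Submodule.isClosed_topologicalClosure _) hm
  have h3 : ∀ y ∈ M, φ y = 0 := fun y hy => by
    by_contra h0
    have := h1 _ (M.smul_mem (u / φ y) hy)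
    simp [h0] at this
  have h4 : Differentiable ℂ fun l => φ (E l) := fun l => by
    refine (hasDerivAt_iff_tendsto_slope_zero.2 (((φ.continuous.tendsto _).comp
      (slopeZ E_diff l)).congr fun t => ?_)).differentiableAt
    simp
  have h5 := (h4.differentiableOn.analyticOnNhd isOpen_univ).eqOn_zero_of_preconnected_of_frequently_eq_zero
    isPreconnected_univ (mem_univ c) (h.mono fun l hl => h3 _
      (Submodule.le_topologicalClosure _ (Submodule.subset_span ⟨l, hl, rfl⟩))) (mem_univ m)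
  have h6 := h1 0 M.zero_mem
  simp only [Pi.zero_apply] at h5
  rw [h5] at h2
  rw [map_zero] at h6
  linarith

noncomputable def X : Submodule ℂ Z := (Submodule.span ℂ (range E)).topologicalClosure

lemma X_ind {S : Submodule ℂ Z} (hS : IsClosed (S : Set Z)) (h : ∀ l, E l ∈ S) : X ≤ S :=
  Submodule.topologicalClosure_minimal _ (Submodule.span_le.2 (range_subset_iff.2 h)) hS

lemma EX (l : ℂ) : E l ∈ X :=
  Submodule.le_topologicalClosure _ (Submodule.subset_span ⟨l, rfl⟩)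

lemma X_cl : IsClosed (X : Set Z) := Submodule.isClosed_topologicalClosure _

noncomputable def T (a : ℂ) : X →L[ℂ] X := ((T0 a).comp X.subtypeL).codRestrict X fun x =>
  X_ind (S := X.comap (T0 a : Z →ₗ[ℂ] Z)) (X_cl.preimage (T0 a).continuous)
    (fun l => show T0 a (E l) ∈ X from T0_E a l ▸ X.smul_mem _ (EX l)) x.2

noncomputable def e (l : ℂ) : X := ⟨E l, EX l⟩

lemma T_e (a l : ℂ) : T a (e l) = exp (l * a) • e l := Subtype.ext (T0_E a l)

lemma dens {Λ : Set ℂ} {c : ℂ} (h : ∃ᶠ l in 𝓝[≠] c, l ∈ Λ) :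
    Dense (Submodule.span ℂ (e '' Λ) : Set X) := by
  refine Subtype.dense_iff.2 ?_
  have := Submodule.map_span X.subtype (e '' Λ)
  rw [image_image] at this
  exact (X_ind (Submodule.isClosed_topologicalClosure _) (E_mem h)).trans_eq (b :=
    (Submodule.span ℂ (E '' Λ)).topologicalClosure) (c :=
    ((Submodule.span ℂ (e '' Λ)).map X.subtype).topologicalClosure) (by rw [this]; rfl)

lemma dens0 : Dense (Submodule.span ℂ (e '' univ) : Set X) :=
  dens (c := 0) (Eventually.of_forall mem_univ).frequently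

lemma T_add (z w : ℂ) : T (z + w) = (T z).comp (T w) :=
  ContinuousLinearMap.ext_on dens0 (by
    rintro _ ⟨l, -, rfl⟩
    simp only [ContinuousLinearMap.comp_apply, T_e, map_smul, smul_smul, ← exp_add]
    congr 2; ring)

lemma T_zero : T 0 = ContinuousLinearMap.id ℂ X :=
  ContinuousLinearMap.ext_on dens0 (by rintro _ ⟨l, -, rfl⟩; simp [T_e])

lemma T_diff (x : X) (k : ℕ) : Differentiable ℂ fun z => T0 z x k := by
  let S : Submodule ℂ Z :=
    { carrier := {x | Differentiable ℂ fun z => T0 z x k}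
      add_mem' := fun a b => by simpa using a.fun_add b
      zero_mem' := by simp
      smul_mem' := fun c _ a => by simpa using a.fun_const_smul c }
  refine X_ind (S := S) (isClosed_of_closure_subset fun y hy z => ?_) (fun l => ?_) x.2
  · have := mem_closure_iff_nhdsWithin_neBot.1 hy
    refine (TendstoLocallyUniformlyOn.differentiableOn (φ := 𝓝[S] y) (F := fun w z => T0 z w k)
      (U := ball 0 (‖z‖ + 1)) (TendstoUniformlyOn.tendstoLocallyUniformlyOn
      (Metric.tendstoUniformlyOn_iff.2 fun ε hε => ?_)) ?_ isOpen_ball).differentiableAt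
      (isOpen_ball.mem_nhds (by simp))
    · have h1 : Tendsto (fun w : Z => Real.exp (√(‖z‖ + 1) ^ 3) * ‖(y - w) (k + 1)‖) (𝓝 y) (𝓝 0) :=
        Continuous.tendsto' (by fun_prop) _ _ (by simp)
      filter_upwards [nhdsWithin_le_nhds (h1.eventually (gt_mem_nhds hε))] with w hw a ha
      rw [dist_eq_norm, ← Pi.sub_apply, ← map_sub]
      refine ((T0_le a _ k).trans ?_).trans_lt hw
      gcongr
      exact (mem_ball_zero_iff.1 ha).le
    · filter_upwards [self_mem_nhdsWithin] with w hw using Differentiable.differentiableOn hw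
  · show Differentiable ℂ fun z => T0 z (E l) k
    simp only [T0_E, Pi.smul_apply]
    fun_prop

lemma slopeX {g : ℂ → X} (h : ∀ k, Differentiable ℂ fun z => (g z).1 k) (z : ℂ) : ∃ v : X,
    Tendsto (fun t : ℂ => t⁻¹ • (g (z + t) - g z)) (𝓝[≠] 0) (𝓝 v) :=
  ⟨⟨_, X_cl.mem_of_tendsto (slopeZ h z) (Eventually.of_forall fun t =>
    (t⁻¹ • (g (z + t) - g z)).2)⟩, tendsto_subtype_rng.2 (slopeZ h z)⟩

lemma contX {g : ℂ → X} (h : ∀ k, Differentiable ℂ fun z => (g z).1 k) : Continuous g :=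
  continuous_induced_rng.2 (continuous_pi fun k => (h k).continuous)

end Pool.Agent.H97.HD
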