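import Pool.Agent.H97.HD1
import Pool.Agent.H97.KK4

set_option autoImplicit false
open Complex Metric Set Filter Topology MeasureTheory

namespace Pool.Agent.H97.HD

lemma it_add (a b : ℂ) (x : X) (n : ℕ) : (a • T b)^[n] x = a ^ n • T (n * b) x := by
  induction n with
  | zero => simp [T_zero]
  | succ n ih =>
    rw [Function.iterate_succ_apply', ih]
    have : ((n + 1 : ℕ) : ℂ) * b = b + n * b := by push_cast; ring
    rw [this, T_add, pow_succ', mul_smul, map_smul, smul_comm]; rfl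

def Mix (a b : ℂ) (v w : X) : Prop := ∃ x : ℕ → X, Tendsto x atTop (𝓝 v) ∧
  Tendsto (fun n : ℕ => a ^ n • T (n * b) (x n)) atTop (𝓝 w)

lemma Mix.add {a b : ℂ} {v w v' w' : X} (h : Mix a b v w) (h' : Mix a b v' w') :
    Mix a b (v + v') (w + w') := by
  obtain ⟨x, h1, h2⟩ := h
  obtain ⟨y, h3, h4⟩ := h'
  exact ⟨fun s => x s + y s, h1.add h3, by simpa only [map_add, smul_add] using h2.add h4⟩

lemma Mix.smul {a b : ℂ} {v w : X} (c : ℂ) (h : Mix a b v w) : Mix a b (c • v) (c • w) := by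
  obtain ⟨x, h1, h2⟩ := h
  exact ⟨fun s => c • x s, h1.const_smul c, by
    simpa only [map_smul, smul_comm c] using h2.const_smul c⟩

lemma mix0 (a b : ℂ) : Mix a b 0 0 := ⟨fun _ => 0, tendsto_const_nhds, by simp⟩

lemma Tn (a b l : ℂ) (n : ℕ) : a ^ n • T (n * b) (e l) = (a * exp (l * b)) ^ n • e l := by
  rw [T_e, smul_smul, mul_pow, ← exp_nat_mul]; congr 3; ring

lemma fr {a b : ℂ} (ha : a ≠ 0) (hb : b ≠ 0) {U : Set ℝ} (hU : IsOpen U) {r : ℝ} (hr : 0 < r)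
    (h : r ∈ U) : Dense (Submodule.span ℂ (e '' {l | ‖a * exp (l * b)‖ ∈ U}) : Set X) := by
  refine dens (c := log (r / a) / b) (Eventually.frequently (nhdsWithin_le_nhds
    ((hU.preimage (f := fun l => ‖a * exp (l * b)‖) (by fun_prop)).mem_nhds ?_)))
  rw [mem_preimage, div_mul_cancel₀ _ hb, exp_log (div_ne_zero (ofReal_ne_zero.2 hr.ne') ha),
    mul_div_cancel₀ _ ha, norm_real, Real.norm_of_nonneg hr.le]
  exact h

lemma trans {a b : ℂ} (ha : a ≠ 0) (hb : b ≠ 0) {V : Set X} (hV : IsOpen V) (hne : V.Nonempty) :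
    Dense (⋃ n : ℕ, (fun x => a ^ n • T (n * b) x) ⁻¹' V) := by
  rw [dense_iff_inter_open]
  intro U hU hUne
  obtain ⟨p, hp, p1⟩ := (fr ha hb (isOpen_Iio (a := 1)) one_half_pos
    (one_half_lt_one (α := ℝ))).inter_open_nonempty U hU hUne
  obtain ⟨q, hq, q1⟩ := (fr ha hb (isOpen_Ioi (a := 1)) two_pos
    (one_lt_two (α := ℝ))).inter_open_nonempty V hV hne
  have m1 : Mix a b p 0 := by
    refine Submodule.span_induction (p := fun x _ => Mix a b x 0) ?_ (mix0 a b)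
      (fun _ _ _ _ h h' => by simpa using h.add h') (fun c _ _ h => by simpa using h.smul c) p1
    rintro _ ⟨l, hl, rfl⟩
    refine ⟨fun _ => e l, tendsto_const_nhds, ?_⟩
    simpa only [Tn, zero_smul] using (tendsto_pow_atTop_nhds_zero_of_norm_lt_one hl).smul_const (e l)
  have m2 : Mix a b 0 q := by
    refine Submodule.span_induction (p := fun x _ => Mix a b 0 x) ?_ (mix0 a b)
      (fun _ _ _ _ h h' => by simpa using h.add h') (fun c _ _ h => by simpa using h.smul c) q1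
    rintro _ ⟨l, hl, rfl⟩
    refine ⟨fun n => (a * exp (l * b))⁻¹ ^ n • e l, ?_, tendsto_const_nhds.congr fun n => ?_⟩
    · have := (tendsto_pow_atTop_nhds_zero_of_norm_lt_one
        ((norm_inv (a * exp (l * b))).trans_lt (inv_lt_one_of_one_lt₀ hl))).smul_const (e l)
      rwa [zero_smul ℂ] at this
    · rw [map_smul, smul_comm, Tn, smul_smul, ← mul_pow,
        inv_mul_cancel₀ (mul_ne_zero ha (exp_ne_zero _)), one_pow, one_smul]
  obtain ⟨x, h1, h2⟩ := m1.add m2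
  rw [add_zero] at h1
  rw [zero_add] at h2
  obtain ⟨n, hn1, hn2⟩ := ((h1.eventually (hU.mem_nhds hp)).and
    (h2.eventually (hV.mem_nhds hq))).exists
  exact ⟨_, hn1, mem_iUnion.2 ⟨n, hn2⟩⟩

instance : CompleteSpace X := X_cl.completeSpace_coe

instance : (uniformity X).IsCountablyGenerated :=
  isUniformInducing_val (X : Set Z) |>.comap_uniformity ▸ comap.isCountablyGenerated _ _

instance : TopologicalSpace.SeparableSpace X := by
  rw [← TopologicalSpace.isSeparable_univ_iff, ← dens0.closure_eq, image_univ]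
  exact (TopologicalSpace.isSeparable_range (contX E_diff)).span.closure

theorem hyper {a b : ℂ} (ha : a ≠ 0) (hb : b ≠ 0) :
    ∃ y : X, Dense (range fun n : ℕ => (a • T b)^[n] y) := by
  have := UniformSpace.secondCountable_of_separable X
  obtain ⟨c, hc, hc0, hbb⟩ := TopologicalSpace.exists_countable_basis X
  have hd := dense_biInter_of_isOpen (S := c)
    (f := fun V => ⋃ n : ℕ, (fun x => a ^ n • T (n * b) x) ⁻¹' V)
    (fun V hV => isOpen_iUnion fun n => (hbb.isOpen hV).preimage (by fun_prop)) hc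
    fun V hV => trans ha hb (hbb.isOpen hV) (nonempty_iff_ne_empty.2 fun h => hc0 (h ▸ hV))
  obtain ⟨y, hy⟩ := hd.nonempty
  refine ⟨y, hbb.dense_iff.2 fun V hV _ => ?_⟩
  obtain ⟨n, hn⟩ := mem_iUnion.1 (mem_iInter₂.1 hy V hV)
  exact ⟨_, hn, n, it_add a b y n⟩

noncomputable def ev : X →L[ℂ] ℂ :=
  (lp.evalCLM ℂ (fun _ : ℂ => ℂ) ⊤ 0).comp ((ContinuousLinearMap.proj 0).comp X.subtypeL)

noncomputable def F (x : X) (z : ℂ) : ℂ := ev (T z x)

lemma F_diff (x : X) : Differentiable ℂ (F x) :=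
  (lp.evalCLM ℂ (fun _ : ℂ => ℂ) ⊤ 0).differentiable.comp (T_diff x 0)

lemma F_T (x : X) (c a z : ℂ) : F (c • T a x) z = c * F x (z + a) := by
  unfold F; rw [T_add, map_smul, map_smul]; rfl

lemma F_bound (x : X) {z : ℂ} {ρ : ℝ} (hρ : 0 ≤ ρ) (hz : ‖z‖ ≤ ρ ^ 2) :
    ‖F x z‖ ≤ ‖x.1 1‖ * Real.exp (ρ ^ 3) := by
  refine (lp.norm_apply_le_norm ENNReal.top_ne_zero (T0 z x 0) 0).trans ((T0_le z x 0).trans ?_)
  rw [mul_comm]
  gcongr
  exact Real.sqrt_le_iff.2 ⟨hρ, hz⟩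

lemma exists_u : ∃ u : X, ∀ z, F u z = z := by
  obtain ⟨u, hu⟩ := slopeX (g := e) E_diff 0
  refine ⟨u, fun z => tendsto_nhds_unique (((ev.comp (T z)).continuous.tendsto _).comp hu) ?_⟩
  have h1 : ∀ l, ev (e l) = 1 := fun l => by
    show exp _ = 1
    simp [p]
  have := hasDerivAt_iff_tendsto_slope_zero.1 ((hasDerivAt_id (0:ℂ)).mul_const z).cexp
  simp only [id, zero_mul, exp_zero, one_mul] at this
  refine this.congr fun t => ?_
  simp [T_e, h1]

lemma near_zero {f : ℂ → ℂ} (hf : Differentiable ℂ f) (h1 : ∀ z : ℂ, ‖z‖ ≤ 2 → ‖f z - z‖ < 1 / 4) :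
    ∃ z, ‖z‖ ≤ 1 ∧ f z = 0 ∧ 1 / 2 ≤ ‖f (z + 1)‖ ∧ ‖f (z + 1)‖ ≤ 2 := by
  obtain ⟨z, hz, h0⟩ : ∃ z, ‖z‖ ≤ 1 ∧ f z = 0 := by
    by_contra! hcon
    have h2 : ‖(f 0)⁻¹‖ ≤ 2 := by
      refine norm_le_of_forall_mem_frontier_norm_le (f := fun z => (f z)⁻¹) (U := ball 0 1)
        isBounded_ball (DifferentiableOn.diffContOnCl ?_) (fun w hw => ?_)
        (subset_closure (mem_ball_self one_pos))
      · rw [closure_ball _ one_ne_zero]
        exact hf.differentiableOn.inv fun z hz => hcon z (mem_closedBall_zero_iff.1 hz)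
      · rw [frontier_ball _ one_ne_zero, mem_sphere_zero_iff_norm] at hw
        have h3 := h1 w (by linarith)
        have h4 := norm_sub_norm_le w (f w)
        rw [norm_sub_rev] at h4
        rw [norm_inv, inv_le_comm₀ (by linarith) (by norm_num)]
        linarith
    have h3 := h1 0 (by simp)
    rw [sub_zero] at h3
    rw [norm_inv, inv_le_comm₀ (norm_pos_iff.2 (hcon 0 (by simp))) (by norm_num)] at h2
    linarith
  have h2 := h1 z (by linarith)
  rw [h0, zero_sub, norm_neg] at h2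
  have h3 := norm_add_le z 1
  have h4 := norm_sub_le (z + 1) z
  rw [add_sub_cancel_left] at h4
  rw [norm_one] at h3 h4
  have h5 := h1 (z + 1) (by linarith)
  have h6 := abs_le.1 ((abs_norm_sub_norm_le _ _).trans h5.le)
  exact ⟨z, hz, h0, by linarith, by linarith⟩

lemma count {x : X} {c : ℂ} (hc : F x c ≠ 0) : ∃ K : ℝ, ∀ k : ℕ, ∀ S : Finset ℂ,
    (∀ z ∈ S, F x z = 0 ∧ ‖z‖ ≤ 4 ^ k) → (S.card : ℝ) ≤ K * 8 ^ k := by
  have hx : 0 < ‖x.1 1‖ := by
    refine (norm_nonneg _).lt_of_ne' fun h => hc (norm_le_zero_iff.1 ?_)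
    simpa [h] using F_bound x (Real.sqrt_nonneg ‖c‖) (Real.sq_sqrt (norm_nonneg c)).ge
  have hne : F x ≠ 0 := fun h => hc (by simp [h])
  refine ⟨2 * (|Real.log (‖x.1 1‖ / ‖F x c‖)| + (2 * (1 + ‖c‖)) ^ 3), fun k S hS => ?_⟩
  have h4 : (4 : ℝ) ^ k = (2 ^ k) ^ 2 := by rw [← pow_mul, mul_comm, pow_mul]; norm_num
  have h5 : (8 : ℝ) ^ k = (2 ^ k) ^ 3 := by rw [← pow_mul, mul_comm, pow_mul]; norm_num
  have h1 : (1 : ℝ) ≤ 2 ^ k := one_le_pow₀ one_le_two
  have hc0 := norm_nonneg c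
  have := KK.jen (F x) c (4 ^ k + ‖c‖) (‖x.1 1‖ * Real.exp ((2 * (1 + ‖c‖) * 2 ^ k) ^ 3))
    (F_diff x) (by positivity) hc (fun z hz => F_bound x (by positivity) (by
      have := norm_add_le (z - c) c
      rw [sub_add_cancel] at this
      have h5 : ‖c‖ ≤ ‖c‖ * (2 ^ k) ^ 2 := le_mul_of_one_le_right hc0 (by nlinarith)
      nlinarith [mul_nonneg (sq_nonneg ‖c‖) (sq_nonneg ((2 : ℝ) ^ k))])) S
    fun z hz => (norm_sub_le _ _).trans (by linarith [(hS z hz).2])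
  have h6 : (S.card : ℝ) ≤ ∑ z ∈ S, (analyticOrderNatAt (F x) z : ℝ) := by
    rw [Finset.card_eq_sum_ones, Nat.cast_sum]
    refine Finset.sum_le_sum fun z hz => Nat.cast_le.2 (Nat.one_le_iff_ne_zero.2 fun h => ?_)
    have hA : ∀ z, AnalyticAt ℂ (F x) z := fun z => (F_diff x).analyticAt z
    have htop : analyticOrderAt (F x) z ≠ ⊤ := fun h =>
      hne ((AnalyticOnNhd.analyticOrderAt_eq_top_iff_eq_zero z hA).1 h)
    have h7 : analyticOrderAt (F x) z = 0 := by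
      rw [← Nat.cast_analyticOrderNatAt htop, h]; rfl
    exact ((hA z).analyticOrderAt_eq_zero.1 h7) (hS z hz).1
  refine h6.trans (this.trans ?_)
  rw [mul_div_right_comm, Real.log_mul (div_pos hx (norm_pos_iff.2 hc)).ne' (Real.exp_pos _).ne',
    Real.log_exp, mul_pow, ← h5]
  have h8 := le_abs_self (Real.log (‖x.1 1‖ / ‖F x c‖))
  have h9 := le_mul_of_one_le_right (abs_nonneg (Real.log (‖x.1 1‖ / ‖F x c‖)))
    (one_le_pow₀ (n := k) (show (1:ℝ) ≤ 8 by norm_num))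
  nlinarith

lemma avoid {Z : Set ℂ} {K : ℝ} (L : ℂ → ℝ) (h : ∀ k : ℕ, ∀ S : Finset ℂ,
    (∀ z ∈ S, z ∈ Z ∧ ‖z‖ ≤ 4 ^ k) → (S.card : ℝ) ≤ K * 8 ^ k) :
    ∃ s t : ℝ, ∃ N : ℕ, ∀ n ≥ N, ∀ z ∈ Z, ‖z - n * (1 + s * I)‖ ≤ 1 → 1 < |L z - n * t| := by
  have hfin : ∀ k : ℕ, {z ∈ Z | ‖z‖ ≤ 4 ^ k}.Finite := fun k => by
    by_contra hinf
    obtain ⟨m, hm⟩ := exists_nat_gt (K * 8 ^ k)
    obtain ⟨S, hS, hc⟩ := Set.Infinite.exists_subset_card_eq hinf m
    have := h k S fun z hz => hS hz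
    rw [hc] at this
    linarith
  set B : ℕ → Set (ℝ × ℝ) := fun k =>
    ⋃ z ∈ ((hfin (k + 2)).toFinset.filter fun z => 4 ^ k ≤ z.re),
    closedBall (z.im / z.re) (2 / 4 ^ k) ×ˢ closedBall (L z / z.re) (2 / 4 ^ k) with hB
  have hμ : ∀ k, volume (B k) ≤ ENNReal.ofReal (1024 * |K| * (1 / 2) ^ k) := fun k => by
    refine (measure_biUnion_finset_le _ _).trans ?_
    simp only [Measure.volume_eq_prod, Measure.prod_prod, Real.volume_closedBall,
      Finset.sum_const, nsmul_eq_mul]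
    rw [← ENNReal.ofReal_natCast, ← ENNReal.ofReal_mul (by positivity),
      ← ENNReal.ofReal_mul (Nat.cast_nonneg _)]
    refine ENNReal.ofReal_le_ofReal ?_
    have h1 := h (k + 2) ((hfin (k + 2)).toFinset.filter fun z => 4 ^ k ≤ z.re) fun z hz => by
      simpa using (Finset.mem_filter.1 hz).1
    have h4 : (4 : ℝ) ^ k = 2 ^ k * 2 ^ k := by rw [← mul_pow]; norm_num
    have h5 : (8 : ℝ) ^ k = 2 ^ k * 2 ^ k * 2 ^ k := by rw [← mul_pow, ← mul_pow]; norm_num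
    calc _ ≤ |K| * 8 ^ (k + 2) * (2 * (2 / 4 ^ k) * (2 * (2 / 4 ^ k))) := by
          gcongr; exact h1.trans (by gcongr; exact le_abs_self K)
      _ = _ := by rw [pow_add, h4, h5, one_div, inv_pow]; field_simp; ring
  have hsum : ∑' k, volume (B k) ≠ ⊤ := by
    refine ne_top_of_le_ne_top ?_ (ENNReal.tsum_le_tsum hμ)
    rw [← ENNReal.ofReal_tsum_of_nonneg (fun k => by positivity)
      (summable_geometric_two.mul_left _)]
    exact ENNReal.ofReal_ne_top
  obtain ⟨⟨s, t⟩, ⟨hs, ht⟩, hsf⟩ := Measure.exists_mem_of_measure_ne_zero_of_ae (μ := volume)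
    (s := Icc (0 : ℝ) 1 ×ˢ Icc (0 : ℝ) 1) (by rw [Measure.volume_eq_prod, Measure.prod_prod]; simp)
    (ae_restrict_of_ae (ae_finite_setOfPred_mem hsum))
  obtain ⟨k0, hk0⟩ := hsf.bddAbove
  refine ⟨s, t, 4 ^ (k0 + 1) + 1, fun n hn z hz hle => ?_⟩
  by_contra! a3
  have hn' : (4 : ℝ) ^ (k0 + 1) + 1 ≤ n := by exact_mod_cast hn
  have a1 := (abs_re_le_norm _).trans hle
  have a2 := (abs_im_le_norm _).trans hle
  simp only [sub_re, mul_re, natCast_re, add_re, one_re, ofReal_re, I_re, mul_zero, ofReal_im,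
    I_im, mul_one, sub_self, add_zero, natCast_im, add_im, one_im, mul_im, zero_add, zero_mul,
    sub_zero, sub_im] at a1 a2
  rw [abs_le] at a1 a2 a3
  have hre : (4 : ℝ) ^ (k0 + 1) ≤ z.re := by linarith
  have hp : (1 : ℝ) ≤ 4 ^ (k0 + 1) := one_le_pow₀ (by norm_num)
  obtain ⟨k, hk1, hk2⟩ := exists_nat_pow_near (hp.trans hre) (show (1 : ℝ) < 4 by norm_num)
  have hk : k0 + 1 ≤ k := by
    have := (pow_lt_pow_iff_right₀ (show (1 : ℝ) < 4 by norm_num)).1 (hre.trans_lt hk2)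
    omega
  have hz0 : 0 < z.re := by linarith
  have hns : 0 ≤ n * s := mul_nonneg (Nat.cast_nonneg n) hs.1
  have hns1 : n * s ≤ n := mul_le_of_le_one_right (Nat.cast_nonneg n) hs.2
  have key : ∀ s y : ℝ, s ∈ Icc (0:ℝ) 1 → -1 ≤ y - n * s ∧ y - n * s ≤ 1 →
      s ∈ closedBall (y / z.re) (2 / 4 ^ k) := fun s y hs a2 => by
    rw [mem_closedBall, Real.dist_eq]
    have e : s - y / z.re = (s * z.re - y) / z.re := by field_simp
    rw [e, abs_div, abs_of_pos hz0]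
    have : |s * z.re - y| ≤ 2 := abs_le.2 ⟨by nlinarith [hs.1, hs.2], by nlinarith [hs.1, hs.2]⟩
    gcongr
  have : (s, t) ∈ B k := by
    refine mem_iUnion₂.2 ⟨z, Finset.mem_filter.2 ⟨?_, hk1⟩, key _ _ hs a2, key _ _ ht a3⟩
    rw [Set.Finite.mem_toFinset]
    refine ⟨hz, (norm_le_abs_re_add_abs_im z).trans ?_⟩
    have : |z.im| ≤ z.re + 2 := abs_le.2 ⟨by linarith, by linarith⟩
    rw [abs_of_pos hz0, pow_succ]
    linarith
  have := hk0 this
  omega

theorem no_common (x : X) :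
    ¬ ∀ a b : ℂ, a ≠ 0 → b ≠ 0 → Dense (range fun n : ℕ => (a • T b)^[n] x) := by
  intro H
  obtain ⟨u, hu⟩ := exists_u
  have hnt : Nontrivial X := ⟨⟨u, 0, fun h => by
    have := hu 1
    rw [h] at this
    simp [F] at this⟩⟩
  have hc : ∃ c, F x c ≠ 0 := by
    by_contra! h
    have hcl : IsClosed {y : X | F y 1 = 0} :=
      isClosed_eq (ev.continuous.comp (T 1).continuous) continuous_const
    have := hcl.closure_subset_iff.2 (show range (fun n : ℕ => ((1:ℂ) • T 1)^[n] x) ⊆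
      {y | F y 1 = 0} by
      rintro _ ⟨n, rfl⟩
      simp only [mem_ofPred_eq, it_add, F_T, h, mul_zero]) (H 1 1 one_ne_zero one_ne_zero u)
    rw [mem_ofPred_eq, hu] at this
    exact one_ne_zero this
  obtain ⟨c, hc⟩ := hc
  obtain ⟨K, hK⟩ := count hc
  obtain ⟨s, t, N, hN⟩ := avoid (Z := {z | F x z = 0}) (fun z => Real.log ‖F x (z + 1)‖) hK
  have ha : (1 + s * I : ℂ) ≠ 0 := fun h => by simpa using congrArg re h
  have : ∀ y : X, (𝓝[≠] y).NeBot := fun y => Module.punctured_nhds_neBot ℂ X y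
  obtain ⟨y, hy, ⟨n, rfl⟩, hy2⟩ := ((H _ _ (exp_ne_zero (-t : ℝ)) ha).sdiff_finite
    ((finite_lt_nat N).image fun n : ℕ => (exp (-t : ℝ) • T (1 + s * I))^[n] x)).inter_open_nonempty
    {y | ‖(y - u).1 1‖ * Real.exp (2 ^ 3) < 1 / 4} (isOpen_lt (((continuous_apply 1).comp
      (continuous_subtype_val.comp (continuous_sub_right u))).norm.mul continuous_const)
      continuous_const) ⟨u, by simp⟩
  have hs : ∀ y z, F (y - u) z = F y z - z := fun y z => by
    rw [F, map_sub, map_sub]; exact congrArg (F y z - ·) (hu z)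
  obtain ⟨z, hz, h0, h1, h2⟩ := near_zero (F_diff _) fun z hz =>
    hs _ z ▸ (F_bound _ zero_le_two (z := z) (by linarith)).trans_lt hy
  simp only [it_add, F_T] at h0 h1 h2
  have h3 := hN n (not_lt.1 fun h => hy2 ⟨n, h, rfl⟩) _
    ((mul_eq_zero.1 h0).resolve_left (pow_ne_zero _ (exp_ne_zero _))) (by simpa using hz)
  rw [norm_mul, norm_pow, norm_exp_ofReal, add_right_comm] at h1 h2
  have h4 : ‖F x (z + n * (1 + s * I) + 1)‖ ≠ 0 := fun h => by rw [h] at h1; norm_num at h1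
  have h5 := Real.log_le_log (by norm_num) h1
  have h6 := Real.log_le_log (by linarith) h2
  rw [Real.log_mul (by positivity) h4, Real.log_pow, Real.log_exp] at h5 h6
  rw [one_div, Real.log_inv] at h5
  have := Real.log_two_lt_d9
  exact h3.not_ge (abs_le.2 ⟨by linarith, by linarith⟩)

end Pool.Agent.H97.HD
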