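import Mathlib
import Pool.Agent.H97.SCV

/-! Fourier components of holomorphic functions on Reinhardt domains. -/

set_option autoImplicit false

namespace Pool.Agent.H97.Torus

open Complex Filter Topology Metric Set MeasureTheory UnitAddTorus
open scoped ComplexConjugate

variable {n : ℕ}

/-- the torus -/
abbrev Tn (n : ℕ) := UnitAddTorus (Fin n)

/-- Haar probability measure on the torus -/
noncomputable def μT (n : ℕ) : Measure (Tn n) := Measure.pi fun _ => AddCircle.haarAddCircle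

instance : IsProbabilityMeasure (μT n) := by unfold μT; infer_instance

instance : (μT n).IsAddRightInvariant := by unfold μT; infer_instance

/-- the torus action -/
noncomputable def ρ (θ : Tn n) (z : Fin n → ℂ) : Fin n → ℂ := fun j => fourier 1 (θ j) * z j

/-- Laurent monomials -/
noncomputable def mono (γ : Fin n → ℤ) (z : Fin n → ℂ) : ℂ := ∏ j, z j ^ γ j

/-- points off the coordinate hyperplanes -/
def Nz (z : Fin n → ℂ) : Prop := ∀ j, z j ≠ 0

lemma norm_four (x : UnitAddCircle) : ‖fourier 1 x‖ = 1 := by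
  rw [fourier_one, Circle.norm_coe]

lemma four_ne (x : UnitAddCircle) : fourier 1 x ≠ 0 := by
  rw [← norm_ne_zero_iff, norm_four]; exact one_ne_zero

lemma four_add (x y : UnitAddCircle) : fourier 1 (x + y) = fourier 1 x * fourier 1 y := by
  simp only [fourier_one, AddCircle.toCircle_add, Circle.coe_mul]

lemma four_zpow (x : UnitAddCircle) (m : ℤ) : fourier 1 x ^ m = fourier m x := by
  rw [fourier_one, fourier_apply, AddCircle.toCircle_zsmul, Circle.coe_zpow]

lemma rho_add (θ φ : Tn n) (z : Fin n → ℂ) : ρ θ (ρ φ z) = ρ (θ + φ) z := by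
  funext j
  simp only [ρ, Pi.add_apply, four_add, mul_assoc]

lemma rho_zero (z : Fin n → ℂ) : ρ 0 z = z := by
  funext j
  simp [ρ]

lemma mF_add (γ : Fin n → ℤ) (θ φ : Tn n) : mFourier γ (θ + φ) = mFourier γ θ * mFourier γ φ := by
  simp only [mFourier, ContinuousMap.coe_mk, Pi.add_apply, ← Finset.prod_mul_distrib]
  refine Finset.prod_congr rfl fun j _ => ?_
  rw [← four_zpow, four_add, mul_zpow, four_zpow, four_zpow]

lemma norm_mF (γ : Fin n → ℤ) (θ : Tn n) : ‖mFourier γ θ‖ = 1 := by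
  simp only [mFourier, ContinuousMap.coe_mk, norm_prod, fourier_apply, Circle.norm_coe,
    Finset.prod_const_one]

lemma mF_neg_mul (γ : Fin n → ℤ) (θ : Tn n) : mFourier (-γ) θ * mFourier γ θ = 1 := by
  rw [← mFourier_add, neg_add_cancel, mFourier_zero, ContinuousMap.one_apply]

lemma mono_rho (γ : Fin n → ℤ) (θ : Tn n) (z : Fin n → ℂ) :
    mono γ (ρ θ z) = mFourier γ θ * mono γ z := by
  simp only [mono, ρ, mFourier, ContinuousMap.coe_mk, mul_zpow, four_zpow, Finset.prod_mul_distrib]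

lemma norm_mono_rho (γ : Fin n → ℤ) (θ : Tn n) (z : Fin n → ℂ) :
    ‖mono γ (ρ θ z)‖ = ‖mono γ z‖ := by rw [mono_rho, norm_mul, norm_mF, one_mul]

lemma mono_add (γ δ : Fin n → ℤ) {z : Fin n → ℂ} (hz : Nz z) :
    mono (γ + δ) z = mono γ z * mono δ z := by
  simp only [mono, Pi.add_apply, ← Finset.prod_mul_distrib]
  exact Finset.prod_congr rfl fun j _ => zpow_add₀ (hz j) _ _

lemma mono_zero (z : Fin n → ℂ) : mono 0 z = 1 := by simp [mono]

lemma mono_ne (γ : Fin n → ℤ) {z : Fin n → ℂ} (hz : Nz z) : mono γ z ≠ 0 :=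
  Finset.prod_ne_zero_iff.2 fun j _ => zpow_ne_zero _ (hz j)

lemma star_rho (θ : Tn n) {z : Fin n → ℂ} (hz : Nz z) : Nz (ρ θ z) := fun j =>
  mul_ne_zero (four_ne _) (hz j)

lemma isOpen_star : IsOpen {z : Fin n → ℂ | Nz z} := by
  have : {z : Fin n → ℂ | Nz z} = ⋂ j, {z | z j ≠ 0} := by ext z; simp [Nz]
  rw [this]
  exact isOpen_iInter_of_finite fun j => isOpen_ne_fun (continuous_apply j) continuous_const

lemma mono_diff (γ : Fin n → ℤ) {z : Fin n → ℂ} (hz : Nz z) : DifferentiableAt ℂ (mono γ) z := by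
  classical
  refine (HasFDerivAt.finsetProd (u := Finset.univ) (g := fun j (w : Fin n → ℂ) => w j ^ γ j)
    fun j _ => DifferentiableAt.hasFDerivAt ?_).differentiableAt
  exact (differentiableAt_apply j z).zpow (Or.inl (hz j))

lemma prod_pow_diff (k : Fin n → ℕ) : Differentiable ℂ fun z : Fin n → ℂ => ∏ j, z j ^ k j := by
  classical
  intro z
  refine (HasFDerivAt.finsetProd (u := Finset.univ) (g := fun j (w : Fin n → ℂ) => w j ^ k j)
    fun j _ => DifferentiableAt.hasFDerivAt ?_).differentiableAt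
  exact (differentiableAt_apply j z).pow _

lemma continuous_rho : Continuous fun p : Tn n × (Fin n → ℂ) => ρ p.1 p.2 := by
  unfold ρ
  fun_prop

lemma dist_rho (θ : Tn n) (z w : Fin n → ℂ) : dist (ρ θ z) (ρ θ w) = dist z w := by
  simp only [dist_pi_def, ρ]
  congr 2
  funext j
  apply NNReal.eq
  simp only [coe_nndist, dist_eq_norm, ← mul_sub, norm_mul, norm_four, one_mul]

/-- the action as a continuous linear map -/
noncomputable def R (θ : Tn n) : (Fin n → ℂ) →L[ℂ] (Fin n → ℂ) :=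
  ContinuousLinearMap.pi fun j => fourier 1 (θ j) • ContinuousLinearMap.proj j

lemma R_apply (θ : Tn n) (z : Fin n → ℂ) : R θ z = ρ θ z := rfl

lemma norm_R (θ : Tn n) : ‖R θ‖ ≤ 1 := by
  refine ContinuousLinearMap.opNorm_le_bound _ zero_le_one fun z => ?_
  have := dist_rho θ z 0
  rw [← R_apply, ← R_apply, map_zero, dist_zero_right, dist_zero_right] at this
  rw [this, one_mul]

lemma continuous_R : Continuous (R : Tn n → _) :=
  continuous_clm_apply.2 fun z => continuous_rho.comp (continuous_id.prodMk continuous_const)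

lemma mp_rho (θ : Tn n) : MeasurePreserving (ρ θ) := by
  refine volume_preserving_pi (f := fun j (w : ℂ) => fourier 1 (θ j) * w) fun j => ?_
  have := (rotation (AddCircle.toCircle (θ j))).measurePreserving
  rw [fourier_one]
  exact this

/-- invariance under the torus -/
def TInv (Ω : Set (Fin n → ℂ)) : Prop := ∀ θ : Tn n, ∀ z ∈ Ω, ρ θ z ∈ Ω

lemma TInv.preimage {K : Set (Fin n → ℂ)} (hK : TInv K) (θ : Tn n) : ρ θ ⁻¹' K = K := by
  ext z
  refine ⟨fun h => ?_, hK θ z⟩
  have := hK (-θ) _ h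
  rwa [rho_add, neg_add_cancel, rho_zero] at this

/-- Fourier component -/
noncomputable def comp (g : (Fin n → ℂ) → ℂ) (β : Fin n → ℤ) (z : Fin n → ℂ) : ℂ :=
  ∫ θ, mFourier (-β) θ * g (ρ θ z) ∂μT n

lemma comp_rho (g : (Fin n → ℂ) → ℂ) (β : Fin n → ℤ) (φ : Tn n) (z : Fin n → ℂ) :
    comp g β (ρ φ z) = mFourier β φ * comp g β z := by
  unfold comp
  rw [← integral_add_right_eq_self (fun θ => mFourier (-β) θ * g (ρ θ z)) φ,
    ← integral_const_mul]
  refine integral_congr_ae (Eventually.of_forall fun θ => ?_)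
  simp only [rho_add, mF_add]
  linear_combination (-(mFourier (-β) θ * g (ρ (θ + φ) z))) * mF_neg_mul β φ

variable {Ω : Set (Fin n → ℂ)}

lemma comp_diff (hΩ : IsOpen Ω) (hI : TInv Ω) {g : (Fin n → ℂ) → ℂ} (hg : DifferentiableOn ℂ g Ω)
    (β : Fin n → ℤ) : DifferentiableOn ℂ (comp g β) Ω := by
  intro x hx
  apply DifferentiableAt.differentiableWithinAt
  have hpath : ∀ z : Fin n → ℂ, Continuous fun θ : Tn n => ρ θ z := fun z =>
    continuous_rho.comp (continuous_id.prodMk continuous_const)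
  have hC : IsCompact (range fun θ : Tn n => ρ θ x) := isCompact_range (hpath x)
  obtain ⟨δ₁, hδ₁, h₁⟩ := hC.exists_cthickening_subset_open hΩ
    (by rintro _ ⟨θ, rfl⟩; exact hI θ x hx)
  obtain ⟨M, hM⟩ := (hC.cthickening (r := δ₁)).exists_bound_of_continuousOn
    (hg.continuousOn.mono h₁)
  set δ := δ₁ / 2 with hδ
  have hδ0 : 0 < δ := by positivity
  have inC : ∀ z ∈ ball x δ, ∀ θ, ∀ w ∈ ball (ρ θ z) δ,
      w ∈ cthickening δ₁ (range fun θ : Tn n => ρ θ x) := by
    intro z hz θ w hw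
    refine mem_cthickening_of_dist_le w (ρ θ x) _ _ ⟨θ, rfl⟩ ?_
    have h1 := dist_triangle w (ρ θ z) (ρ θ x)
    rw [dist_rho] at h1
    rw [mem_ball] at hz hw
    linarith
  have inΩ : ∀ z ∈ ball x δ, ∀ θ, ρ θ z ∈ Ω := fun z hz θ => h₁ (inC z hz θ _ (mem_ball_self hδ0))
  have hcont : ∀ z ∈ ball x δ, Continuous fun θ => mFourier (-β) θ * g (ρ θ z) := fun z hz =>
    (mFourier (-β)).continuous.mul (hg.continuousOn.comp_continuous (hpath z) (inΩ z hz))
  have hder := hasFDerivAt_integral_of_dominated_of_fderiv_le (𝕜 := ℂ) (μ := μT n)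
    (F := fun z θ => mFourier (-β) θ * g (ρ θ z))
    (F' := fun z θ => mFourier (-β) θ • (fderiv ℂ g (ρ θ z) ∘L R θ)) (x₀ := x)
    (bound := fun _ => 2 * M / δ) (ball_mem_nhds x hδ0)
    (by
      filter_upwards [ball_mem_nhds x hδ0] with z hz
      exact (hcont z hz).aestronglyMeasurable)
    ((hcont x (mem_ball_self hδ0)).integrable_of_hasCompactSupport
      (HasCompactSupport.of_compactSpace _))
    ((mFourier (-β)).continuous.smul (((SCV.continuousOn_fderiv hΩ hg).comp_continuous (hpath x)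
      (inΩ x (mem_ball_self hδ0))).clm_comp continuous_R)).aestronglyMeasurable
    (by
      refine Eventually.of_forall fun θ z hz => ?_
      rw [norm_smul, norm_mF, one_mul]
      have h1 := SCV.norm_fderiv_le hδ0 (hg.mono fun w hw => h₁ (inC z hz θ w hw))
        fun w hw => hM w (inC z hz θ w hw)
      refine (ContinuousLinearMap.opNorm_comp_le _ _).trans ?_
      have := norm_R θ
      nlinarith [norm_nonneg (fderiv ℂ g (ρ θ z)), norm_nonneg (R θ)])
    (integrable_const _)
    (by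
      refine Eventually.of_forall fun θ z hz => ?_
      have h1 := (hg.differentiableAt (hΩ.mem_nhds (inΩ z hz θ))).hasFDerivAt
      exact (HasFDerivAt.comp (f := R θ) z h1 (R θ).hasFDerivAt).const_mul _)
  exact hder.differentiableAt

lemma fderiv_zero_of_inv {Φ : (Fin n → ℂ) → ℂ} {z : Fin n → ℂ} (hz : Nz z)
    (hΦ : DifferentiableAt ℂ Φ z) (h : ∀ θ, Φ (ρ θ z) = Φ z) : fderiv ℂ Φ z = 0 := by
  classical
  have key : ∀ j, fderiv ℂ Φ z (Pi.single j 1) = 0 := by
    intro j
    have h1 : HasDerivAt (fun s : ℂ => z + ((exp (2 * Real.pi * I * s) - 1) * z j) •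
        (Pi.single j 1 : Fin n → ℂ)) ((2 * Real.pi * I * z j) • (Pi.single j 1 : Fin n → ℂ))
        ((0 : ℝ) : ℂ) := by
      have h2 := (((((hasDerivAt_id' ((0 : ℝ) : ℂ)).const_mul
        (2 * Real.pi * I)).cexp.sub_const 1).mul_const (z j)).smul_const
          (Pi.single j 1 : Fin n → ℂ)).const_add z
      exact h2.congr_deriv (by simp)
    have h3 : HasFDerivAt Φ (fderiv ℂ Φ z) (z + ((exp (2 * Real.pi * I * ((0 : ℝ) : ℂ)) - 1) *
        z j) • (Pi.single j 1 : Fin n → ℂ)) := by simpa using hΦ.hasFDerivAt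
    have h4 := (h3.comp_hasDerivAt _ h1).comp_ofReal
    have h5 : (fun s : ℝ => (Φ ∘ fun s : ℂ => z + ((exp (2 * Real.pi * I * s) - 1) * z j) •
        (Pi.single j 1 : Fin n → ℂ)) s) = fun _ => Φ z := by
      funext s
      rw [← h (Pi.single j (s : UnitAddCircle))]
      simp only [Function.comp]
      congr 1
      funext i
      by_cases hi : i = j
      · subst hi
        simp only [ρ, Pi.add_apply, Pi.smul_apply, Pi.single_eq_same, smul_eq_mul, mul_one,
          fourier_coe_apply]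
        simp
        ring
      · simp [ρ, hi]
    rw [h5] at h4
    have h6 := h4.unique (hasDerivAt_const _ _)
    rw [map_smul, smul_eq_mul] at h6
    exact (mul_eq_zero.1 h6).resolve_left (mul_ne_zero two_pi_I_ne_zero (hz j))
  ext1 w
  rw [pi_eq_sum_univ' w, map_sum]
  simp [key]

lemma comp_eq (hΩ : IsOpen Ω) (hc : IsPreconnected Ω) (hI : TInv Ω) {g : (Fin n → ℂ) → ℂ}
    (hg : DifferentiableOn ℂ g Ω) (β : Fin n → ℤ) :
    ∃ c : ℂ, ∀ z ∈ Ω, Nz z → comp g β z = c * mono β z := by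
  by_cases hne : ∃ z ∈ Ω, Nz z
  swap
  · exact ⟨0, fun z h1 h2 => absurd ⟨z, h1, h2⟩ hne⟩
  obtain ⟨z₀, hz₀, hs₀⟩ := hne
  have hG := comp_diff hΩ hI hg β
  obtain ⟨r, hr, hball⟩ := Metric.isOpen_iff.1 (hΩ.inter isOpen_star) z₀ ⟨hz₀, hs₀⟩
  set Φ : (Fin n → ℂ) → ℂ := fun z => comp g β z * mono (-β) z with hΦ
  have hΦd : ∀ z ∈ ball z₀ r, DifferentiableAt ℂ Φ z := fun z hz =>
    (hG.differentiableAt (hΩ.mem_nhds (hball hz).1)).mul (mono_diff _ (hball hz).2)
  have hconst : ∀ z ∈ ball z₀ r, Φ z = Φ z₀ := fun z hz =>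
    isOpen_ball.is_const_of_fderiv_eq_zero (convex_ball _ _).isPreconnected
      (fun w hw => (hΦd w hw).differentiableWithinAt)
      (fun w hw => fderiv_zero_of_inv (hball hw).2 (hΦd w hw) fun θ => by
        simp only [hΦ, comp_rho, mono_rho]
        linear_combination (comp g β w * mono (-β) w) * mF_neg_mul β θ)
      hz (mem_ball_self hr)
  set p : (Fin n → ℂ) → ℂ := fun z => ∏ j, z j ^ (β j).toNat with hp
  set q : (Fin n → ℂ) → ℂ := fun z => ∏ j, z j ^ (-β j).toNat with hq
  have hpq : ∀ z, Nz z → mono β z * q z = p z ∧ q z ≠ 0 := by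
    intro z hz
    refine ⟨?_, Finset.prod_ne_zero_iff.2 fun j _ => pow_ne_zero _ (hz j)⟩
    simp only [mono, hp, hq, ← Finset.prod_mul_distrib]
    refine Finset.prod_congr rfl fun j _ => ?_
    rw [← zpow_natCast, ← zpow_natCast, ← zpow_add₀ (hz j)]
    congr 1
    omega
  have hΨ : DifferentiableOn ℂ (fun z => comp g β z * q z - Φ z₀ * p z) Ω :=
    (hG.mul (prod_pow_diff _).differentiableOn).sub
      ((prod_pow_diff _).const_mul _).differentiableOn
  have hzero := (SCV.analyticOnNhd_of_differentiableOn hΩ hΨ).eqOn_zero_of_preconnected_of_eventuallyEq_zero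
    hc hz₀ (by
      filter_upwards [ball_mem_nhds z₀ hr] with z hz
      have h1 := hconst z hz
      have h2 := (hpq z (hball hz).2).1
      have h3 := mono_add (-β) β (hball hz).2
      rw [neg_add_cancel, mono_zero] at h3
      simp only [Pi.zero_apply]
      rw [← h1, ← h2, hΦ]
      linear_combination (comp g β z * q z) * h3)
  refine ⟨Φ z₀, fun z hz hs => ?_⟩
  have h1 := hzero hz
  obtain ⟨h2, h3⟩ := hpq z hs
  simp only [Pi.zero_apply] at h1
  apply mul_right_cancel₀ h3
  rw [mul_assoc, h2]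
  linear_combination h1

lemma comp_mono {δ δ' : Fin n → ℤ} (h : δ ≠ δ') (z : Fin n → ℂ) : comp (mono δ') δ z = 0 := by
  have h1 := orthonormal_mFourier.inner_eq_zero h
  rw [ContinuousMap.inner_toLp] at h1
  have h2 : ∫ θ, mFourier δ' θ * conj (mFourier δ θ) ∂μT n = 0 := h1
  unfold comp
  simp only [mono_rho, mFourier_neg]
  rw [← zero_mul (mono δ' z), ← h2, ← integral_mul_const]
  refine integral_congr_ae (Eventually.of_forall fun θ => ?_)
  ring

/-- averaging over the torus inside an integral -/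
lemma avg {K : Set (Fin n → ℂ)} (hK : IsCompact K) (hI : TInv K) {F : (Fin n → ℂ) → ℂ}
    (hF : ContinuousOn F K) : ∫ z in K, F z = ∫ z in K, ∫ θ, F (ρ θ z) ∂μT n := by
  have h1 : ∀ θ, ∫ z in K, F (ρ θ z) = ∫ z in K, F z := by
    intro θ
    have h2 := (mp_rho θ).restrict_preimage hK.measurableSet
    rw [hI.preimage] at h2
    conv_rhs => rw [← h2.map_eq]
    rw [integral_map h2.measurable.aemeasurable]
    rw [h2.map_eq]
    exact hF.aestronglyMeasurable hK.measurableSet
  have h3 : Integrable (Function.uncurry fun z θ => F (ρ θ z)) ((volume.restrict K).prod (μT n)) := by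
    rw [← Measure.restrict_univ (μ := μT n), Measure.prod_restrict]
    refine ContinuousOn.integrableOn_compact (hK.prod isCompact_univ) ?_
    exact hF.comp (continuous_rho.comp continuous_swap).continuousOn fun p hp => hI _ _ hp.1
  rw [integral_integral_swap h3]
  simp [h1]

lemma avg_comp {K : Set (Fin n → ℂ)} (hK : IsCompact K) (hI : TInv K) (hS : ∀ z ∈ K, Nz z)
    {g χ : (Fin n → ℂ) → ℂ} (hg : ContinuousOn g K) (hχ : ContinuousOn χ K)
    (hχi : ∀ θ z, χ (ρ θ z) = χ z) (δ : Fin n → ℤ) :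
    ∫ z in K, g z * conj (mono δ z) * χ z = ∫ z in K, comp g δ z * conj (mono δ z) * χ z := by
  have hm : ContinuousOn (mono δ) K := fun z hz =>
    (mono_diff δ (hS z hz)).continuousAt.continuousWithinAt
  rw [avg hK hI (F := fun z => g z * conj (mono δ z) * χ z)
    ((hg.mul (continuous_conj.comp_continuousOn hm)).mul hχ)]
  refine integral_congr_ae (Eventually.of_forall fun z => ?_)
  simp only [comp]
  rw [← integral_mul_const, ← integral_mul_const]
  refine integral_congr_ae (Eventually.of_forall fun θ => ?_)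
  simp only [mono_rho, hχi, map_mul, mFourier_neg]
  ring

/-- a function all of whose non-zero components vanish equals its zero component -/
lemma eq_comp_zero (hI : TInv Ω) {g : (Fin n → ℂ) → ℂ} (hg : ContinuousOn g Ω) {z : Fin n → ℂ}
    (hz : z ∈ Ω) (h : ∀ β, β ≠ 0 → comp g β z = 0) : g z = comp g 0 z := by
  classical
  let F : C(Tn n, ℂ) := ⟨fun θ => g (ρ θ z), hg.comp_continuous
    (continuous_rho.comp (continuous_id.prodMk continuous_const)) fun θ => hI θ z hz⟩
  have h1 : ∀ β, mFourierCoeff F β = comp g β z := fun β => rfl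
  have h2 : Summable (mFourierCoeff F) :=
    summable_of_ne_finset_zero (s := {0}) fun β hβ => (h1 β).trans (h β (by simpa using hβ))
  have h3 := hasSum_mFourier_series_apply_of_summable h2 0
  have h4 : HasSum (fun β => mFourierCoeff F β • mFourier β (0 : Tn n))
      (mFourierCoeff F 0 • mFourier 0 (0 : Tn n)) :=
    hasSum_single 0 fun β hβ => by rw [h1, h β hβ, zero_smul]
  have h5 := h3.unique h4
  rw [h1, mFourier_zero] at h5
  simpa [F, rho_zero] using h5

/-- an invariant compact exhaustion -/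
lemma exists_cover (hΩ : IsOpen Ω) (hb : Bornology.IsBounded Ω) (hI : TInv Ω) :
    ∃ K : ℕ → Set (Fin n → ℂ), (∀ m, IsCompact (K m) ∧ TInv (K m) ∧ K m ⊆ Ω ∧ ∀ z ∈ K m, Nz z) ∧
      AECover (volume.restrict Ω) atTop K := by
  obtain ⟨F, hF1, hF2, hF3, hF4⟩ := (hΩ.inter isOpen_star).exists_iUnion_isClosed
  have hc : ∀ m, IsCompact (F m) := fun m =>
    Metric.isCompact_of_isClosed_isBounded (hF1 m) (hb.subset fun z hz => (hF2 m hz).1)
  have hK : ∀ m, IsCompact ((fun p : Tn n × (Fin n → ℂ) => ρ p.1 p.2) '' (univ ×ˢ F m)) :=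
    fun m => (isCompact_univ.prod (hc m)).image continuous_rho
  refine ⟨_, fun m => ⟨hK m, ?_, ?_, ?_⟩, ?_, fun m => (hK m).measurableSet⟩
  · rintro θ _ ⟨p, hp, rfl⟩
    exact ⟨(θ + p.1, p.2), ⟨mem_univ _, hp.2⟩, (rho_add _ _ _).symm⟩
  · rintro _ ⟨p, hp, rfl⟩
    exact hI _ _ (hF2 m hp.2).1
  · rintro _ ⟨p, hp, rfl⟩
    exact star_rho _ (hF2 m hp.2).2
  · have h1 : ∀ᵐ z : Fin n → ℂ, Nz z :=
      ae_all_iff.2 fun j => Measure.ae_eval_ne (fun _ => volume) j 0
    filter_upwards [ae_restrict_mem hΩ.measurableSet, ae_restrict_of_ae h1] with z h2 h3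
    have h4 : z ∈ ⋃ m, F m := hF3 ▸ ⟨h2, h3⟩
    obtain ⟨m, hm⟩ := mem_iUnion.1 h4
    filter_upwards [eventually_ge_atTop m] with k hk
    exact ⟨(0, z), ⟨mem_univ _, hF4 hk hm⟩, rho_zero z⟩

end Pool.Agent.H97.Torus
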