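import Mathlib
import Pool.Agent.H97.Torus

set_option autoImplicit false

namespace Pool.Agent.H97.Hankel

open Complex Filter Topology Metric Set MeasureTheory
open scoped ComplexConjugate InnerProductSpace
open Pool.Agent.H97.Torus

variable {n : ℕ}

/-- Reinhardt sets: invariant under independent rotations of the coordinates. -/
def Reinhardt (Ω : Set (Fin n → ℂ)) : Prop :=
  ∀ z ∈ Ω, ∀ θ : Fin n → ℝ, (fun j => exp (θ j * I) * z j) ∈ Ω

/-- `L²(Ω)` for Lebesgue measure. -/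
noncomputable abbrev L2 (Ω : Set (Fin n → ℂ)) := Lp ℂ 2 (volume.restrict Ω)

/-- `F` is the class of a holomorphic function on `Ω`. -/
def Hol (Ω : Set (Fin n → ℂ)) (F : L2 Ω) : Prop :=
  ∃ g : (Fin n → ℂ) → ℂ, DifferentiableOn ℂ g Ω ∧ F =ᵐ[volume.restrict Ω] g

theorem hol_add {Ω : Set (Fin n → ℂ)} {F G : L2 Ω} (hF : Hol Ω F) (hG : Hol Ω G) :
    Hol Ω (F + G) := by
  obtain ⟨f, hf, hF⟩ := hF
  obtain ⟨g, hg, hG⟩ := hG
  exact ⟨f + g, hf.add hg, (Lp.coeFn_add F G).trans (hF.add hG)⟩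

theorem hol_zero {Ω : Set (Fin n → ℂ)} : Hol Ω 0 :=
  ⟨0, differentiableOn_const 0, Lp.coeFn_zero _ _ _⟩

theorem hol_smul {Ω : Set (Fin n → ℂ)} (c : ℂ) {F : L2 Ω} (hF : Hol Ω F) : Hol Ω (c • F) := by
  obtain ⟨f, hf, hF⟩ := hF
  exact ⟨c • f, hf.const_smul c, (Lp.coeFn_smul c F).trans (hF.const_smul c)⟩

/-- The Bergman space: classes in `L²(Ω)` of holomorphic functions. -/
def A2 (Ω : Set (Fin n → ℂ)) : Submodule ℂ (L2 Ω) where
  carrier := {F | Hol Ω F}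
  add_mem' := hol_add
  zero_mem' := hol_zero
  smul_mem' := hol_smul

/-- The domain of the Hankel operator with symbol `conj f`. -/
def dom (Ω : Set (Fin n → ℂ)) (f : (Fin n → ℂ) → ℂ) : Set (A2 Ω) :=
  {g | MemLp (fun z => conj (f z) * (g : L2 Ω) z) 2 (volume.restrict Ω)}

/-- `T` agrees with `g ↦ (I - P) (conj f * g)` on the domain: `T g` is the component of
`conj f * g` orthogonal to the Bergman space. -/
def Extends (Ω : Set (Fin n → ℂ)) (f : (Fin n → ℂ) → ℂ) (T : A2 Ω →L[ℂ] L2 Ω) : Prop :=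
  ∀ (g : A2 Ω) (h : g ∈ dom Ω f), T g ∈ (A2 Ω)ᗮ ∧ MemLp.toLp _ h - T g ∈ A2 Ω

section hilbert

variable {H₁ H₂ : Type*} [NormedAddCommGroup H₁] [InnerProductSpace ℂ H₁]
  [NormedAddCommGroup H₂] [InnerProductSpace ℂ H₂]

lemma nsq {x : H₂} {r : ℝ} (h : ⟪x, x⟫_ℂ = (r : ℂ)) : ‖x‖ ^ 2 = r := by
  rw [← inner_self_eq_norm_sq (𝕜 := ℂ), h]
  rfl

lemma bessel {J : Type*} (s : Finset J) (φ : J → H₂)
    (hφ : ∀ i ∈ s, ∀ j ∈ s, i ≠ j → ⟪φ i, φ j⟫_ℂ = 0) (x : H₂) :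
    ∑ j ∈ s, ‖⟪φ j, x⟫_ℂ‖ ^ 2 / ‖φ j‖ ^ 2 ≤ ‖x‖ ^ 2 := by
  classical
  set t := s.filter fun j => φ j ≠ 0 with ht
  have hne : ∀ j : t, ‖φ j‖ ≠ 0 := fun j => norm_ne_zero_iff.2 (Finset.mem_filter.1 j.2).2
  have ho : Orthonormal ℂ fun j : t => ((‖φ j‖⁻¹ : ℝ) : ℂ) • φ j := by
    refine ⟨fun j => ?_, fun i j hij => ?_⟩
    · rw [norm_smul, norm_real, norm_inv, norm_norm, inv_mul_cancel₀ (hne j)]
    · simp only [inner_smul_left, inner_smul_right]
      rw [hφ i (Finset.mem_filter.1 i.2).1 j (Finset.mem_filter.1 j.2).1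
        (fun h => hij (Subtype.ext h)), mul_zero, mul_zero]
  have h1 := ho.sum_inner_products_le x (s := Finset.univ)
  refine le_trans (le_of_eq ?_) h1
  rw [← Finset.sum_filter_of_ne (p := fun j => φ j ≠ 0), ← ht, ← Finset.sum_coe_sort]
  · refine Finset.sum_congr rfl fun j _ => ?_
    rw [inner_smul_left, norm_mul, norm_conj, norm_real, norm_inv, norm_norm]
    field_simp
  · intro j _ h h0
    simp [h0] at h

lemma hs_le [CompleteSpace H₂] {ι : Type*} (b : HilbertBasis ι ℂ H₁) (T : H₁ →L[ℂ] H₂)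
    (hs : Summable fun i => ‖T (b i)‖ ^ 2) {J : Type*} (s : Finset J) (φ : J → H₂)
    (hφ : ∀ i ∈ s, ∀ j ∈ s, i ≠ j → ⟪φ i, φ j⟫_ℂ = 0) (u : J → H₁) :
    ∑ j ∈ s, ‖⟪φ j, T (u j)⟫_ℂ‖ ^ 2 / (‖φ j‖ ^ 2 * ‖u j‖ ^ 2) ≤ ∑' i, ‖T (b i)‖ ^ 2 := by
  have : CompleteSpace H₁ := b.repr.toIsometryEquiv.completeSpace
  have h1 : ∀ y : H₂, HasSum (fun i => ‖⟪y, T (b i)⟫_ℂ‖ ^ 2) (‖T.adjoint y‖ ^ 2) := by
    intro y
    have h2 := Complex.hasSum_re (b.hasSum_inner_mul_inner (T.adjoint y) (T.adjoint y))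
    convert h2 using 1
    · funext i
      rw [← inner_conj_symm (b i), mul_conj, ContinuousLinearMap.adjoint_inner_left,
        normSq_eq_norm_sq, ofReal_re]
    · rw [inner_self_eq_norm_sq_to_K]; norm_cast
  have h3 := hasSum_le (fun i => bessel s φ hφ (T (b i)))
    (hasSum_sum fun j _ => (h1 (φ j)).div_const (‖φ j‖ ^ 2)) hs.hasSum
  refine le_trans (Finset.sum_le_sum fun j _ => ?_) h3
  rw [← ContinuousLinearMap.adjoint_inner_left]
  have h4 : ‖⟪T.adjoint (φ j), u j⟫_ℂ‖ ^ 2 ≤ ‖T.adjoint (φ j)‖ ^ 2 * ‖u j‖ ^ 2 := by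
    rw [← mul_pow]
    exact pow_le_pow_left₀ (norm_nonneg _) (norm_inner_le_norm _ _) 2
  by_cases hu : ‖u j‖ = 0
  · rw [hu]; simp; positivity
  · rw [mul_comm, ← div_div]
    gcongr
    rwa [div_le_iff₀ (by positivity)]

end hilbert

/-- compact invariant pieces of `Ω` off the coordinate hyperplanes -/
def Good (Ω K : Set (Fin n → ℂ)) : Prop := IsCompact K ∧ TInv K ∧ K ⊆ Ω ∧ ∀ z ∈ K, Nz z

/-- squared norms of monomials -/
noncomputable def aK (K : Set (Fin n → ℂ)) (γ : Fin n → ℤ) : ℝ := ∫ z in K, ‖mono γ z‖ ^ 2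

/-- exponents of monomials in the Bergman space -/
def Gam (Ω : Set (Fin n → ℂ)) (γ : Fin n → ℤ) : Prop :=
  ∃ u : A2 Ω, (u : L2 Ω) =ᵐ[volume.restrict Ω] mono γ

variable {Ω K : Set (Fin n → ℂ)}

lemma aK_nonneg (K : Set (Fin n → ℂ)) (γ : Fin n → ℤ) : 0 ≤ aK K γ :=
  integral_nonneg fun _ => by positivity

lemma Good.restr (hK : Good Ω K) : (volume.restrict Ω).restrict K = volume.restrict K := by
  rw [Measure.restrict_restrict hK.1.measurableSet, inter_eq_left.2 hK.2.2.1]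

lemma Good.cont (hK : Good Ω K) (γ : Fin n → ℤ) : ContinuousOn (mono γ) K := fun z hz =>
  (mono_diff γ (hK.2.2.2 z hz)).continuousAt.continuousWithinAt

lemma Good.intg (hK : Good Ω K) (γ : Fin n → ℤ) : IntegrableOn (fun z => ‖mono γ z‖ ^ 2) K :=
  ((hK.cont γ).norm.pow 2).integrableOn_compact hK.1

lemma Good.memLp (hK : Good Ω K) {φ : (Fin n → ℂ) → ℂ} (hφ : ContinuousOn φ K) :
    MemLp (K.indicator φ) 2 (volume.restrict Ω) := by
  rw [memLp_indicator_iff_restrict hK.1.measurableSet, hK.restr,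
    memLp_two_iff_integrable_sq_norm (hφ.aestronglyMeasurable hK.1.measurableSet)]
  exact (hφ.norm.pow 2).integrableOn_compact hK.1

lemma Good.inner_tf (hK : Good Ω K) {φ : (Fin n → ℂ) → ℂ} (hφ : ContinuousOn φ K) (F : L2 Ω)
    {G : (Fin n → ℂ) → ℂ} (hG : F =ᵐ[volume.restrict Ω] G) :
    ⟪(hK.memLp hφ).toLp _, F⟫_ℂ = ∫ z in K, G z * conj (φ z) := by
  rw [MeasureTheory.L2.inner_def, ← hK.restr, ← integral_indicator hK.1.measurableSet]
  refine integral_congr_ae ?_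
  filter_upwards [(hK.memLp hφ).coeFn_toLp, hG] with z h1 h2
  rw [h1, h2, RCLike.inner_apply]
  by_cases hz : z ∈ K <;> simp [hz]

lemma Good.inner_tf_tf (hK : Good Ω K) {φ ψ : (Fin n → ℂ) → ℂ} (hφ : ContinuousOn φ K)
    (hψ : ContinuousOn ψ K) :
    ⟪(hK.memLp hφ).toLp _, (hK.memLp hψ).toLp _⟫_ℂ = ∫ z in K, ψ z * conj (φ z) := by
  rw [hK.inner_tf hφ _ (hK.memLp hψ).coeFn_toLp]
  exact setIntegral_congr_fun hK.1.measurableSet fun z hz => by simp [hz]

lemma Good.int3 (hK : Good Ω K) (c : ℂ) (x y w : ℝ) (γ₁ γ₂ γ₃ : Fin n → ℤ)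
    {F : (Fin n → ℂ) → ℂ} (hF : ∀ z ∈ K, F z =
      c * ((x * ‖mono γ₁ z‖ ^ 2 + y * ‖mono γ₂ z‖ ^ 2 + w * ‖mono γ₃ z‖ ^ 2 : ℝ) : ℂ)) :
    ∫ z in K, F z = c * ((x * aK K γ₁ + y * aK K γ₂ + w * aK K γ₃ : ℝ) : ℂ) := by
  rw [setIntegral_congr_fun hK.1.measurableSet hF, integral_const_mul, integral_complex_ofReal,
    integral_add, integral_add, integral_const_mul, integral_const_mul, integral_const_mul]
  · rfl
  · exact (hK.intg _).const_mul _
  · exact (hK.intg _).const_mul _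
  · exact ((hK.intg _).const_mul _).add ((hK.intg _).const_mul _)
  · exact (hK.intg _).const_mul _

lemma ae_star (hΩ : IsOpen Ω) : ∀ᵐ z ∂(volume.restrict Ω), z ∈ Ω ∧ Nz z := by
  have h1 : ∀ᵐ z : Fin n → ℂ, Nz z :=
    ae_all_iff.2 fun j => Measure.ae_eval_ne (fun _ => volume) j 0
  exact (ae_restrict_mem hΩ.measurableSet).and (ae_restrict_of_ae h1)

lemma meas_mono (γ : Fin n → ℤ) : Measurable (mono γ) := by
  unfold mono
  fun_prop

lemma Gam.intg {γ : Fin n → ℤ} (h : Gam Ω γ) : IntegrableOn (fun z => ‖mono γ z‖ ^ 2) Ω := by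
  obtain ⟨u, hu⟩ := h
  exact (memLp_two_iff_integrable_sq_norm (meas_mono γ).aestronglyMeasurable).1
    ((Lp.memLp (u : L2 Ω)).ae_eq hu)

lemma norm_sq_eq {γ : Fin n → ℤ} {u : A2 Ω} (hu : (u : L2 Ω) =ᵐ[volume.restrict Ω] mono γ) :
    ‖u‖ ^ 2 = aK Ω γ := by
  have h1 : ⟪(u : L2 Ω), (u : L2 Ω)⟫_ℂ = ((aK Ω γ : ℝ) : ℂ) := by
    rw [MeasureTheory.L2.inner_def, aK, ← integral_complex_ofReal]
    refine integral_congr_ae ?_
    filter_upwards [hu] with z hz
    rw [hz, inner_self_eq_norm_sq_to_K]; norm_cast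
  exact nsq h1

lemma aK_pos {B : Set (Fin n → ℂ)} (hB : IsOpen B) (hne : B.Nonempty) (hS : ∀ z ∈ B, Nz z)
    {γ : Fin n → ℤ} (h : IntegrableOn (fun z => ‖mono γ z‖ ^ 2) B) : 0 < aK B γ := by
  rw [aK, setIntegral_pos_iff_support_of_nonneg_ae (Eventually.of_forall fun _ => by positivity) h]
  refine lt_of_lt_of_le (hB.measure_pos volume hne) (measure_mono fun z hz => ⟨?_, hz⟩)
  exact pow_ne_zero _ (norm_ne_zero_iff.2 (mono_ne γ (hS z hz)))

lemma exists_star (hΩ : IsOpen Ω) (hne : Ω.Nonempty) : ∃ z ∈ Ω, Nz z := by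
  have : (ae (volume.restrict Ω)).NeBot := by
    rw [ae_neBot, Ne, Measure.restrict_eq_zero]
    exact (hΩ.measure_pos volume hne).ne'
  exact (ae_star hΩ).exists

lemma aK_mono {B : Set (Fin n → ℂ)} (hB : B ⊆ Ω) {γ : Fin n → ℤ} (h : Gam Ω γ) :
    aK B γ ≤ aK Ω γ :=
  setIntegral_mono_set h.intg (Eventually.of_forall fun _ => by positivity) hB.eventuallyLE

lemma Gam.pos (hΩ : IsOpen Ω) (hne : Ω.Nonempty) {γ : Fin n → ℤ} (h : Gam Ω γ) : 0 < aK Ω γ :=
  (aK_pos (hΩ.inter isOpen_star) (exists_star hΩ hne) (fun _ hz => hz.2)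
    (h.intg.mono_set inter_subset_left)).trans_le (aK_mono inter_subset_left h)

/-- growth of norms along a ray of exponents -/
lemma growth {B : Set (Fin n → ℂ)} (hB : IsOpen B) (hne : B.Nonempty) (hBΩ : B ⊆ Ω)
    (hS : ∀ z ∈ B, Nz z) {α β : Fin n → ℤ} (hG : ∀ k : ℕ, Gam Ω (α + k • β)) {q q' : ℝ}
    (hq' : 0 ≤ q') (hq : q' < q) (hqB : ∀ z ∈ B, q ≤ ‖mono β z‖ ^ 2) :
    ∃ k : ℕ, q' * aK Ω (α + k • β) < aK Ω (α + (k + 1) • β) := by
  by_contra hcon
  push Not at hcon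
  have hq0 : 0 < q := hq'.trans_lt hq
  have h0 : Gam Ω α := by simpa using hG 0
  have h1 : ∀ k : ℕ, aK Ω (α + k • β) ≤ q' ^ k * aK Ω α := by
    intro k
    induction k with
    | zero => simp
    | succ k ih =>
      refine (hcon k).trans ?_
      rw [pow_succ, mul_comm (q' ^ k), mul_assoc]
      gcongr
  have h2 : ∀ k : ℕ, q ^ k * aK B α ≤ aK B (α + k • β) := by
    intro k
    induction k with
    | zero => simp
    | succ k ih =>
      have h3 : q * aK B (α + k • β) ≤ aK B (α + (k + 1) • β) := by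
        rw [aK, ← integral_const_mul]
        refine setIntegral_mono_on (((hG k).intg.mono_set hBΩ).const_mul _)
          ((hG (k + 1)).intg.mono_set hBΩ) hB.measurableSet fun z hz => ?_
        rw [succ_nsmul, ← add_assoc, mono_add _ β (hS z hz), norm_mul, mul_pow, mul_comm]
        gcongr
        exact hqB z hz
      refine le_trans ?_ h3
      rw [pow_succ, mul_comm (q ^ k), mul_assoc]
      gcongr
  have hm := aK_pos hB hne hS (h0.intg.mono_set hBΩ)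
  have h4 : Tendsto (fun k : ℕ => (q' / q) ^ k * aK Ω α) atTop (𝓝 (0 * aK Ω α)) :=
    (tendsto_pow_atTop_nhds_zero_of_lt_one (by positivity) ((div_lt_one hq0).2 hq)).mul_const _
  rw [zero_mul] at h4
  obtain ⟨k, hk⟩ := (h4.eventually (gt_mem_nhds hm)).exists
  have h5 := (h2 k).trans ((aK_mono hBΩ (hG k)).trans (h1 k))
  rw [div_pow, div_mul_eq_mul_div, div_lt_iff₀ (by positivity)] at hk
  linarith

variable {Ks : ℕ → Set (Fin n → ℂ)}

lemma Gam.tendsto (hK : ∀ m, Good Ω (Ks m)) (hA : AECover (volume.restrict Ω) atTop Ks)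
    {γ : Fin n → ℤ} (h : Gam Ω γ) : Tendsto (fun m => aK (Ks m) γ) atTop (𝓝 (aK Ω γ)) := by
  have := hA.integral_tendsto_of_countably_generated h.intg
  simpa only [(hK _).restr, aK] using this

lemma gam_of (hΩ : IsOpen Ω) (hK : ∀ m, Good Ω (Ks m)) (hA : AECover (volume.restrict Ω) atTop Ks)
    {δ : Fin n → ℤ} {G : (Fin n → ℂ) → ℂ} (hG : DifferentiableOn ℂ G Ω)
    (hGδ : ∀ z ∈ Ω, Nz z → G z = mono δ z) {C : ℝ} (hC : ∀ᶠ m in atTop, aK (Ks m) δ ≤ C) :
    Gam Ω δ := by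
  have h1 : Integrable (fun z => ‖mono δ z‖ ^ 2) (volume.restrict Ω) := by
    refine hA.integrable_of_integral_bounded_of_nonneg_ae C (fun m => ?_)
      (Eventually.of_forall fun _ => by positivity) ?_
    · rw [IntegrableOn, (hK m).restr]; exact (hK m).intg δ
    · simpa only [(hK _).restr, aK] using hC
  have h2 := (memLp_two_iff_integrable_sq_norm (meas_mono δ).aestronglyMeasurable).2 h1
  refine ⟨⟨h2.toLp _, G, hG, ?_⟩, h2.coeFn_toLp⟩
  filter_upwards [h2.coeFn_toLp, ae_star hΩ] with z h3 h4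
  rw [h3, hGδ z h4.1 h4.2]

lemma rep_star (hΩ : IsOpen Ω) {γ : Fin n → ℤ} (h : Gam Ω γ) :
    ∃ G, DifferentiableOn ℂ G Ω ∧ ∀ z ∈ Ω, Nz z → G z = mono γ z := by
  obtain ⟨⟨u, G, hG, h1⟩, h2⟩ := h
  refine ⟨G, hG, fun z hz hs => ?_⟩
  have h3 : G =ᵐ[volume.restrict (Ω ∩ {z | Nz z})] mono γ :=
    ae_restrict_of_ae_restrict_of_subset inter_subset_left (h1.symm.trans h2)
  exact Measure.eqOn_open_of_ae_eq h3 (hΩ.inter isOpen_star)
    (hG.continuousOn.mono inter_subset_left)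
    (fun w hw => (mono_diff γ hw.2).continuousAt.continuousWithinAt) ⟨hz, hs⟩

/-- the radial factor of the test functions -/
noncomputable def chi (β : Fin n → ℤ) (h : ℝ) (z : Fin n → ℂ) : ℂ := ((‖mono β z‖ ^ 2 - h : ℝ) : ℂ)

lemma Good.chi_cont (hK : Good Ω K) (β : Fin n → ℤ) (h : ℝ) : ContinuousOn (chi β h) K :=
  continuous_ofReal.comp_continuousOn (((hK.cont β).norm.pow 2).sub continuousOn_const)

lemma chi_rho (β : Fin n → ℤ) (h : ℝ) (θ : Tn n) (z : Fin n → ℂ) : chi β h (ρ θ z) = chi β h z := by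
  simp only [chi, norm_mono_rho]

lemma conj_chi (β : Fin n → ℤ) (h : ℝ) (z : Fin n → ℂ) : conj (chi β h z) = chi β h z :=
  conj_ofReal _

lemma mul_conj_mono (γ : Fin n → ℤ) (z : Fin n → ℂ) :
    mono γ z * conj (mono γ z) = ((‖mono γ z‖ ^ 2 : ℝ) : ℂ) := by
  rw [mul_conj, normSq_eq_norm_sq]

/-- test functions are orthogonal to the Bergman space -/
lemma orth (hΩ : IsOpen Ω) (hc : IsPreconnected Ω) (hI : TInv Ω) (hKs : ∀ m, Good Ω (Ks m))
    (hA : AECover (volume.restrict Ω) atTop Ks) (hK : Good Ω K) (β δ : Fin n → ℤ) (h : ℝ)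
    (hh : Gam Ω δ → h * aK K δ = aK K (δ + β)) (g : L2 Ω) (hg : g ∈ A2 Ω) :
    ⟪(hK.memLp ((hK.cont δ).mul (hK.chi_cont β h))).toLp _, g⟫_ℂ = 0 := by
  obtain ⟨G, hG, hgG⟩ := hg
  obtain ⟨c, hc⟩ := comp_eq hΩ hc hI hG δ
  have key : ∀ {K' : Set (Fin n → ℂ)} (hK' : Good Ω K') (β' : Fin n → ℤ) (h' : ℝ),
      ⟪(hK'.memLp ((hK'.cont δ).mul (hK'.chi_cont β' h'))).toLp _, g⟫_ℂ =
        c * ((1 * aK K' (δ + β') + -h' * aK K' δ + 0 * aK K' δ : ℝ) : ℂ) := by
    intro K' hK' β' h'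
    rw [hK'.inner_tf ((hK'.cont δ).mul (hK'.chi_cont β' h')) g hgG]
    simp only [Pi.mul_apply, map_mul, conj_chi, ← mul_assoc]
    rw [avg_comp hK'.1 hK'.2.1 hK'.2.2.2 (hG.continuousOn.mono hK'.2.2.1) (hK'.chi_cont β' h')
      (chi_rho β' h')]
    refine hK'.int3 c _ _ _ _ _ _ fun z hz => ?_
    rw [hc z (hK'.2.2.1 hz) (hK'.2.2.2 z hz), mul_assoc c, mul_conj_mono,
      mono_add δ β' (hK'.2.2.2 z hz), norm_mul, chi]
    push_cast
    ring
  rw [key hK]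
  by_cases hc0 : c = 0
  · simp [hc0]
  have hδ : Gam Ω δ := by
    refine gam_of hΩ hKs hA (G := fun z => c⁻¹ * comp G δ z)
      ((comp_diff hΩ hI hG δ).const_mul _) (fun z hz hs => by rw [hc z hz hs]; field_simp)
      (C := ‖g‖ ^ 2 / ‖c‖ ^ 2) (Eventually.of_forall fun m => ?_)
    have h1 := key (hKs m) 0 0
    have h2 := (hKs m).inner_tf_tf (((hKs m).cont δ).mul ((hKs m).chi_cont 0 0))
      (((hKs m).cont δ).mul ((hKs m).chi_cont 0 0))
    rw [(hKs m).int3 1 1 0 0 δ δ δ (fun z _ => by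
      simp only [Pi.mul_apply, chi, mono_zero]; simp [mul_conj, normSq_eq_norm_sq]),
      one_mul] at h2
    replace h2 := nsq h2
    have h3 := norm_inner_le_norm (𝕜 := ℂ)
      (((hKs m).memLp (((hKs m).cont δ).mul ((hKs m).chi_cont 0 0))).toLp _) g
    rw [h1] at h3
    generalize ‖((hKs m).memLp (((hKs m).cont δ).mul ((hKs m).chi_cont 0 0))).toLp _‖ = N at h2 h3
    have h4 : N ^ 2 = aK (Ks m) δ := by
      simpa only [one_mul, zero_mul, add_zero] using h2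
    have h5 := aK_nonneg (Ks m) δ
    simp only [add_zero, one_mul, neg_zero, zero_mul, norm_mul, norm_real, Real.norm_eq_abs,
      abs_of_nonneg h5] at h3
    have h6 : 0 < ‖c‖ := norm_pos_iff.2 hc0
    rw [le_div_iff₀ (by positivity)]
    rcases h5.eq_or_lt with h7 | h7
    · rw [← h7]; simp
    · have h8 : (‖c‖ * aK (Ks m) δ) ^ 2 ≤ (N * ‖g‖) ^ 2 := pow_le_pow_left₀ (by positivity) h3 2
      rw [mul_pow, mul_pow, h4] at h8
      nlinarith
  simp [← hh hδ]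

section main

variable {f : (Fin n → ℂ) → ℂ} {T : A2 Ω →L[ℂ] L2 Ω}

lemma inner_T (hf : ContinuousOn f Ω) (hd : Dense (dom Ω f)) (hT : Extends Ω f T) (hK : Good Ω K)
    {φ : (Fin n → ℂ) → ℂ} (hφ : ContinuousOn φ K)
    (ho : ∀ g ∈ A2 Ω, ⟪(hK.memLp hφ).toLp _, g⟫_ℂ = 0) (u : A2 Ω) :
    ⟪(hK.memLp hφ).toLp _, T u⟫_ℂ =
      ⟪(hK.memLp ((hf.mono hK.2.2.1).mul hφ)).toLp _, (u : L2 Ω)⟫_ℂ := by
  refine congrFun (Continuous.ext_on hd
    (f := fun u : A2 Ω => ⟪(hK.memLp hφ).toLp _, T u⟫_ℂ)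
    (g := fun u : A2 Ω => ⟪(hK.memLp ((hf.mono hK.2.2.1).mul hφ)).toLp _, (u : L2 Ω)⟫_ℂ)
    (by fun_prop) (by fun_prop) fun g hg => ?_) u
  have h1 := ho _ (hT g hg).2
  rw [inner_sub_right, sub_eq_zero] at h1
  dsimp only
  rw [← h1, hK.inner_tf hφ _ (MemLp.coeFn_toLp hg),
    hK.inner_tf ((hf.mono hK.2.2.1).mul hφ) _ EventuallyEq.rfl]
  refine integral_congr_ae (Eventually.of_forall fun z => ?_)
  simp only [Pi.mul_apply, map_mul]
  ring

open Classical in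
/-- the ratio of consecutive norms, set to zero outside the admissible exponents -/
noncomputable def rat (Ω K : Set (Fin n → ℂ)) (β δ : Fin n → ℤ) : ℝ :=
  if Gam Ω δ then aK K (δ + β) / aK K δ else 0

lemma ineq (hΩ : IsOpen Ω) (hc : IsPreconnected Ω) (hI : TInv Ω) (hKs : ∀ m, Good Ω (Ks m))
    (hA : AECover (volume.restrict Ω) atTop Ks) (hK : Good Ω K) (hf : DifferentiableOn ℂ f Ω)
    (hd : Dense (dom Ω f)) (hT : Extends Ω f T) {ι : Type*} (b : HilbertBasis ι ℂ (A2 Ω))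
    (hs : Summable fun i => ‖T (b i)‖ ^ 2) {β : Fin n → ℤ} {c : ℂ}
    (hcβ : ∀ z ∈ Ω, Nz z → comp f β z = c * mono β z) {J : Type*} (s : Finset J)
    (δ : J → Fin n → ℤ) (hinj : ∀ i ∈ s, ∀ j ∈ s, δ i = δ j → i = j)
    (hG : ∀ j ∈ s, Gam Ω (δ j + β)) (hpos : ∀ j ∈ s, Gam Ω (δ j) → aK K (δ j) ≠ 0) :
    ∑ j ∈ s, ‖c‖ ^ 2 * ((aK K (δ j + β + β) - rat Ω K β (δ j) * aK K (δ j + β)) /
      aK Ω (δ j + β)) ≤ ∑' i, ‖T (b i)‖ ^ 2 := by
  classical
  have hu : ∀ j, ∃ u : A2 Ω, j ∈ s → (u : L2 Ω) =ᵐ[volume.restrict Ω] mono (δ j + β) := by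
    intro j
    by_cases hj : j ∈ s
    · obtain ⟨u, hu⟩ := hG j hj
      exact ⟨u, fun _ => hu⟩
    · exact ⟨0, fun h => absurd h hj⟩
  choose u hu using hu
  have hφ : ∀ j, ContinuousOn (mono (δ j) * chi β (rat Ω K β (δ j))) K := fun j =>
    (hK.cont _).mul (hK.chi_cont _ _)
  refine le_trans (Finset.sum_le_sum fun j hj => le_of_eq ?_)
    (hs_le b T hs s (fun j => (hK.memLp (hφ j)).toLp _) (fun i hi j hj hij => ?_) u)
  · set h := rat Ω K β (δ j) with hh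
    have h0 : Gam Ω (δ j) → h * aK K (δ j) = aK K (δ j + β) := fun hg => by
      rw [hh, rat, if_pos hg, div_mul_cancel₀ _ (hpos j hj hg)]
    have h1 : h * (h * aK K (δ j) - aK K (δ j + β)) = 0 := by
      by_cases hg : Gam Ω (δ j)
      · rw [h0 hg, sub_self, mul_zero]
      · rw [hh, rat, if_neg hg, zero_mul]
    set V := aK K (δ j + β + β) - h * aK K (δ j + β) with hV
    have h2 : ‖(hK.memLp (hφ j)).toLp _‖ ^ 2 = V := by
      have h3 := hK.inner_tf_tf (hφ j) (hφ j)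
      rw [hK.int3 1 1 (-2 * h) (h ^ 2) (δ j + β + β) (δ j + β) (δ j) (fun z hz => by
        have hs := hK.2.2.2 z hz
        simp only [Pi.mul_apply, map_mul, conj_chi, mono_add _ _ hs, norm_mul]
        rw [mul_mul_mul_comm, mul_conj_mono, chi]
        push_cast
        ring), one_mul] at h3
      rw [nsq h3, hV]
      linear_combination h1
    have h5 : ‖⟪(hK.memLp (hφ j)).toLp _, T (u j)⟫_ℂ‖ = ‖c‖ * |V| := by
      rw [inner_T hf.continuousOn hd hT hK (hφ j) (orth hΩ hc hI hKs hA hK β (δ j) h h0),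
        hK.inner_tf ((hf.continuousOn.mono hK.2.2.1).mul (hφ j)) _ (hu j hj), ← norm_conj, ← integral_conj]
      have h6 : ∫ z in K, conj (mono (δ j + β) z * conj ((f * (mono (δ j) * chi β h)) z)) =
          ∫ z in K, f z * conj (mono β z) * (chi (δ j) 0 * chi β h) z := by
        refine setIntegral_congr_fun hK.1.measurableSet fun z hz => ?_
        simp only [Pi.mul_apply, map_mul, conj_conj, mono_add _ _ (hK.2.2.2 z hz)]
        have e : chi (δ j) 0 z = mono (δ j) z * conj (mono (δ j) z) := by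
          rw [mul_conj_mono, chi, sub_zero]
        rw [e]
        ring
      rw [h6, avg_comp hK.1 hK.2.1 hK.2.2.2 (hf.continuousOn.mono hK.2.2.1)
        ((hK.chi_cont _ _).mul (hK.chi_cont _ _)) (fun θ z => by simp only [Pi.mul_apply, chi_rho]),
        hK.int3 c 1 (-h) 0 (δ j + β + β) (δ j + β) (δ j) (fun z hz => by
          have hs := hK.2.2.2 z hz
          rw [hcβ z (hK.2.2.1 hz) hs, mul_assoc c, mul_conj_mono]
          simp only [Pi.mul_apply, chi, mono_add _ _ hs, norm_mul]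
          push_cast
          ring), norm_mul, norm_real, Real.norm_eq_abs]
      congr 2
      rw [hV]; ring
    rw [h5, h2, norm_sq_eq (hu j hj), mul_pow, sq_abs]
    by_cases hV0 : V = 0
    · simp [hV0]
    · by_cases ha : aK Ω (δ j + β) = 0
      · simp [ha]
      · field_simp
  · rw [hK.inner_tf_tf (hφ i) (hφ j)]
    have h1 : ∫ z in K, (mono (δ j) * chi β (rat Ω K β (δ j))) z *
        conj ((mono (δ i) * chi β (rat Ω K β (δ i))) z) =
        ∫ z in K, mono (δ j) z * conj (mono (δ i) z) *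
          (chi β (rat Ω K β (δ j)) * chi β (rat Ω K β (δ i))) z := by
      refine integral_congr_ae (Eventually.of_forall fun z => ?_)
      simp only [Pi.mul_apply, map_mul, conj_chi]
      ring
    rw [h1, avg_comp hK.1 hK.2.1 hK.2.2.2 (hK.cont _) ((hK.chi_cont _ _).mul (hK.chi_cont _ _))
      (fun θ z => by simp only [Pi.mul_apply, chi_rho])]
    simp [comp_mono fun h => hij (hinj i hi j hj h)]

lemma coef_zero (hn : 2 ≤ n) (hΩ : IsOpen Ω) (hc : IsConnected Ω) (hb : Bornology.IsBounded Ω)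
    (hI : TInv Ω) (hf : DifferentiableOn ℂ f Ω)
    (hd : Dense (dom Ω f)) (hT : Extends Ω f T) {ι : Type*} (b : HilbertBasis ι ℂ (A2 Ω))
    (hs : Summable fun i => ‖T (b i)‖ ^ 2) {β : Fin n → ℤ} (hβ : β ≠ 0) {c : ℂ}
    (hcβ : ∀ z ∈ Ω, Nz z → comp f β z = c * mono β z) : c = 0 := by
  classical
  by_contra hc0
  have hc1 : 0 < ‖c‖ ^ 2 := by positivity
  obtain ⟨Ks, hKs, hA⟩ := exists_cover hΩ hb hI
  set S := ∑' i, ‖T (b i)‖ ^ 2 with hS
  have evpos : ∀ δ, ∀ᶠ m in atTop, Gam Ω δ → aK (Ks m) δ ≠ 0 := by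
    intro δ
    by_cases h : Gam Ω δ
    · exact ((h.tendsto hKs hA).eventually_ne (h.pos hΩ hc.nonempty).ne').mono fun m hm _ => hm
    · exact Eventually.of_forall fun m hm => absurd hm h
  have trat : ∀ δ, Gam Ω (δ + β) → Tendsto (fun m => rat Ω (Ks m) β δ) atTop (𝓝 (rat Ω Ω β δ)) := by
    intro δ h1
    by_cases h : Gam Ω δ
    · simp only [rat, if_pos h]
      exact (h1.tendsto hKs hA).div (h.tendsto hKs hA) (h.pos hΩ hc.nonempty).ne'
    · simp only [rat, if_neg h]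
      exact tendsto_const_nhds
  have up : ∀ γ, Gam Ω γ → Gam Ω (γ + β) := by
    intro γ hγ
    obtain ⟨δ, rfl⟩ : ∃ δ, γ = δ + β := ⟨γ - β, (sub_add_cancel _ _).symm⟩
    obtain ⟨G, hG, hGγ⟩ := rep_star hΩ hγ
    have ha := hγ.pos hΩ hc.nonempty
    refine gam_of hΩ hKs hA (G := fun z => G z * (c⁻¹ * comp f β z))
      (hG.mul ((comp_diff hΩ hI hf β).const_mul _)) (fun z hz hs => by
        rw [hGγ z hz hs, hcβ z hz hs, mono_add (δ + β) β hs]; field_simp)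
      (C := S / ‖c‖ ^ 2 * aK Ω (δ + β) + (rat Ω Ω β δ * aK Ω (δ + β) + 1)) ?_
    filter_upwards [evpos δ, ((trat δ hγ).mul (hγ.tendsto hKs hA)).eventually
      (gt_mem_nhds (lt_add_one _))] with m h1 h2
    have h3 := ineq hΩ hc.isPreconnected hI hKs hA (hKs m) hf hd hT b hs hcβ {()} (fun _ => δ)
      (fun _ _ _ _ _ => rfl) (fun _ _ => hγ) (fun _ _ => h1)
    rw [Finset.sum_singleton, ← hS, ← le_div_iff₀' hc1, div_le_iff₀ ha] at h3
    linarith
  have lim : ∀ {J : Type} (s : Finset J) (δ : J → Fin n → ℤ),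
      (∀ i ∈ s, ∀ j ∈ s, δ i = δ j → i = j) → (∀ j ∈ s, Gam Ω (δ j + β)) →
      ∑ j ∈ s, ‖c‖ ^ 2 * (rat Ω Ω β (δ j + β) - rat Ω Ω β (δ j)) ≤ S := by
    intro J s δ hinj hG
    have h1 : Tendsto (fun m => ∑ j ∈ s, ‖c‖ ^ 2 * ((aK (Ks m) (δ j + β + β) -
        rat Ω (Ks m) β (δ j) * aK (Ks m) (δ j + β)) / aK Ω (δ j + β))) atTop
        (𝓝 (∑ j ∈ s, ‖c‖ ^ 2 * (rat Ω Ω β (δ j + β) - rat Ω Ω β (δ j)))) := by
      refine tendsto_finsetSum _ fun j hj => Tendsto.const_mul _ ?_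
      have h2 := (((up _ (hG j hj)).tendsto hKs hA).sub ((trat _ (hG j hj)).mul
        ((hG j hj).tendsto hKs hA))).div_const (aK Ω (δ j + β))
      convert h2 using 2
      have := ((hG j hj).pos hΩ hc.nonempty).ne'
      rw [rat, if_pos (hG j hj)]
      field_simp
    refine le_of_tendsto h1 ?_
    filter_upwards [(eventually_all_finset s).2 fun j _ => evpos (δ j)] with m hm
    exact ineq hΩ hc.isPreconnected hI hKs hA (hKs m) hf hd hT b hs hcβ s δ hinj hG hm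
  -- two points where the modulus of the monomial differs
  obtain ⟨j₀, hj₀⟩ : ∃ j, β j ≠ 0 := Function.ne_iff.1 hβ
  obtain ⟨z₁, z₂, hz₁, hz₂, hlt⟩ : ∃ z₁ z₂, (z₁ ∈ Ω ∧ Nz z₁) ∧ (z₂ ∈ Ω ∧ Nz z₂) ∧
      ‖mono β z₁‖ ^ 2 < ‖mono β z₂‖ ^ 2 := by
    obtain ⟨z, hz, hs⟩ := exists_star hΩ hc.nonempty
    have h1 : Continuous fun s : ℝ => Function.update z j₀ ((s : ℂ) * z j₀) := by fun_prop
    have h2 : ∀ᶠ s : ℝ in 𝓝 1, Function.update z j₀ ((s : ℂ) * z j₀) ∈ Ω ∩ {z | Nz z} :=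
      h1.continuousAt.eventually ((hΩ.inter isOpen_star).mem_nhds (by simpa using ⟨hz, hs⟩))
    obtain ⟨s, h3, h4⟩ := ((h2.filter_mono (nhdsWithin_le_nhds (s := Ioi 1))).and
      self_mem_nhdsWithin).exists
    have h4' : (1 : ℝ) < s := h4
    have h5 : mono β (Function.update z j₀ ((s : ℂ) * z j₀)) = (s : ℂ) ^ β j₀ * mono β z := by
      unfold mono
      rw [← Finset.mul_prod_erase _ _ (Finset.mem_univ j₀),
        ← Finset.mul_prod_erase _ (fun j => z j ^ β j) (Finset.mem_univ j₀), Function.update_self,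
        mul_zpow, mul_assoc]
      congr 2
      exact Finset.prod_congr rfl fun j hj => by
        rw [Function.update_of_ne (Finset.ne_of_mem_erase hj)]
    have h6 : ‖mono β z‖ ^ 2 ≠ ‖mono β (Function.update z j₀ ((s : ℂ) * z j₀))‖ ^ 2 := by
      intro h
      have h7 := (sq_eq_sq₀ (norm_nonneg _) (norm_nonneg _)).1 h
      rw [h5, norm_mul, norm_zpow, norm_real, Real.norm_eq_abs, abs_of_pos (by linarith)] at h7
      have h8 : s ^ β j₀ = 1 :=
        mul_right_cancel₀ (norm_ne_zero_iff.2 (mono_ne β hs)) (by rw [← h7, one_mul])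
      exact hj₀ ((zpow_eq_one_iff_right₀ (by linarith) h4'.ne').1 h8)
    rcases lt_or_gt_of_ne h6 with h | h
    · exact ⟨_, _, ⟨hz, hs⟩, h3, h⟩
    · exact ⟨_, _, h3, ⟨hz, hs⟩, h⟩
  obtain ⟨p', hp1, hp2⟩ := exists_between hlt
  obtain ⟨p, hp3, hp4⟩ := exists_between hp1
  obtain ⟨q', hq1, hq2⟩ := exists_between hp2
  obtain ⟨q, hq3, hq4⟩ := exists_between hq2
  have hp0 : 0 < p := lt_of_le_of_lt (by positivity) hp3
  have hcont : ContinuousOn (fun z => ‖mono β z‖ ^ 2) (Ω ∩ {z | Nz z}) := fun z hz =>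
    ((mono_diff β hz.2).continuousAt.norm.pow 2).continuousWithinAt
  have hB₁ := hcont.isOpen_inter_preimage (hΩ.inter isOpen_star) (isOpen_Iio (a := p))
  have hB₂ := hcont.isOpen_inter_preimage (hΩ.inter isOpen_star) (isOpen_Ioi (a := q))
  have upk : ∀ γ, Gam Ω γ → ∀ k : ℕ, Gam Ω (γ + k • β) := by
    intro γ h k
    induction k with
    | zero => simpa using h
    | succ k ih => rw [succ_nsmul, ← add_assoc]; exact up _ ih
  have seg : ∀ α, Gam Ω α → ∃ k₀ L : ℕ, Gam Ω (α - k₀ • β) ∧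
      q' - p' ≤ rat Ω Ω β (α - (k₀ + 1) • β + L • β) - rat Ω Ω β (α - (k₀ + 1) • β) := by
    intro α hα
    obtain ⟨k₁, hk₁⟩ := growth hB₂ ⟨z₂, hz₂, hq4⟩ (fun z hz => hz.1.1) (fun z hz => hz.1.2)
      (upk α hα) (q' := q') (by linarith) hq3 (fun z hz => le_of_lt hz.2)
    have h1 : q' ≤ rat Ω Ω β (α + k₁ • β) := by
      rw [rat, if_pos (upk α hα k₁), le_div_iff₀ ((upk α hα k₁).pos hΩ hc.nonempty),
        add_assoc, ← succ_nsmul]
      exact hk₁.le
    obtain ⟨k₀, h2, h3⟩ : ∃ k₀ : ℕ, Gam Ω (α - k₀ • β) ∧ rat Ω Ω β (α - (k₀ + 1) • β) ≤ p' := by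
      by_cases hall : ∀ k : ℕ, Gam Ω (α + k • -β)
      · obtain ⟨k, hk⟩ := growth hB₁ ⟨z₁, hz₁, hp3⟩ (fun z hz => hz.1.1) (fun z hz => hz.1.2)
          hall (q' := p'⁻¹) (q := p⁻¹) (inv_nonneg.2 (by linarith))
          ((inv_lt_inv₀ (by linarith) hp0).2 hp4) (fun z hz => by
            have e1 := mono_add (-β) β hz.1.2
            rw [neg_add_cancel, mono_zero] at e1
            have e2 : ‖mono (-β) z‖ ^ 2 * ‖mono β z‖ ^ 2 = 1 := by
              rw [← mul_pow, ← norm_mul, ← e1]; simp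
            have e3 : ‖mono β z‖ ^ 2 < p := hz.2
            rw [inv_le_iff_one_le_mul₀ hp0, ← e2]
            gcongr)
        have e1 := hall k
        have e2 := hall (k + 1)
        simp only [smul_neg, ← sub_eq_add_neg] at e1 e2 hk
        refine ⟨k, e1, ?_⟩
        have e3 : α - (k + 1) • β + β = α - k • β := by rw [succ_nsmul]; abel
        rw [rat, if_pos e2, e3, div_le_iff₀ (e2.pos hΩ hc.nonempty)]
        rw [inv_mul_lt_iff₀ (by linarith)] at hk
        exact hk.le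
      · push Not at hall
        simp only [smul_neg, ← sub_eq_add_neg] at hall
        have e1 := Nat.find_spec hall
        obtain ⟨k, hk⟩ : ∃ k, Nat.find hall = k + 1 := Nat.exists_eq_succ_of_ne_zero fun h => by
          rw [h] at e1; exact e1 (by simpa using hα)
        refine ⟨k, not_not.1 (Nat.find_min hall (by omega)), ?_⟩
        rw [hk] at e1
        rw [rat, if_neg e1]
        linarith
    refine ⟨k₀, k₀ + 1 + k₁, h2, ?_⟩
    have e4 : α - (k₀ + 1) • β + (k₀ + 1 + k₁) • β = α + k₁ • β := by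
      rw [add_nsmul β (k₀ + 1)]; abel
    rw [e4]
    linarith
  obtain ⟨j₁, hj₁⟩ : ∃ j : Fin n, j ≠ j₀ := by
    have : Nontrivial (Fin n) := Fin.nontrivial_iff_two_le.2 hn
    exact exists_ne j₀
  have base : ∀ i : ℕ, Gam Ω (Pi.single j₁ (i : ℤ)) := by
    intro i
    have e1 : ∀ z : Fin n → ℂ, mono (Pi.single j₁ (i : ℤ)) z = z j₁ ^ i := by
      intro z
      unfold mono
      rw [Finset.prod_eq_single j₁ (fun j _ hj => by simp [hj]) (by simp)]
      simp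
    obtain ⟨R, hR⟩ := hb.exists_norm_le
    refine gam_of hΩ hKs hA (G := fun z => z j₁ ^ i)
      ((differentiable_apply j₁).pow i).differentiableOn (fun z _ _ => (e1 z).symm)
      (C := (R ^ i) ^ 2 * volume.real Ω) (Eventually.of_forall fun m => ?_)
    have e2 := norm_setIntegral_le_of_norm_le_const (μ := volume) (s := Ks m)
      (f := fun z => ‖mono (Pi.single j₁ (i : ℤ)) z‖ ^ 2) (C := (R ^ i) ^ 2)
      (hKs m).1.measure_lt_top (fun z hz => by
        rw [e1, Real.norm_of_nonneg (by positivity), norm_pow]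
        have := (norm_le_pi_norm z j₁).trans (hR z ((hKs m).2.2.1 hz))
        gcongr)
    refine (le_abs_self _).trans (e2.trans ?_)
    gcongr
    · exact hb.measure_lt_top.ne
    · exact (hKs m).2.2.1
  choose k₀ L h1 h2 using fun i => seg _ (base i)
  obtain ⟨N, hN⟩ := exists_nat_gt (S / (‖c‖ ^ 2 * (q' - p')))
  have h3 := lim ((Finset.range N).sigma fun i => Finset.range (L i))
    (fun x => Pi.single j₁ (x.1 : ℤ) - (k₀ x.1 + 1) • β + x.2 • β) (by
      rintro ⟨i, l⟩ - ⟨i', l'⟩ - h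
      have e1 := congrFun h j₀
      have e2 := congrFun h j₁
      simp only [Pi.add_apply, Pi.sub_apply, Pi.smul_apply, Pi.single_eq_same,
        Pi.single_eq_of_ne hj₁.symm, nsmul_eq_mul, Pi.mul_apply, Pi.natCast_apply] at e1 e2
      have e3 : (l : ℤ) - (k₀ i + 1 : ℕ) = l' - (k₀ i' + 1 : ℕ) :=
        mul_right_cancel₀ hj₀ (by linear_combination e1)
      have e4 : (i : ℤ) = i' := by linear_combination e2 - β j₁ * e3
      obtain rfl : i = i' := by exact_mod_cast e4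
      obtain rfl : l = l' := by omega
      rfl) (by
      rintro ⟨i, l⟩ -
      have e : Pi.single j₁ (i : ℤ) - (k₀ i + 1) • β + l • β + β =
        Pi.single j₁ (i : ℤ) - k₀ i • β + l • β := by rw [succ_nsmul]; abel
      simp only [e]
      exact upk _ (h1 i) l)
  rw [Finset.sum_sigma] at h3
  have h4 : ∀ i ∈ Finset.range N, ‖c‖ ^ 2 * (q' - p') ≤ ∑ l ∈ Finset.range (L i), ‖c‖ ^ 2 *
      (rat Ω Ω β (Pi.single j₁ (i : ℤ) - (k₀ i + 1) • β + l • β + β) -
        rat Ω Ω β (Pi.single j₁ (i : ℤ) - (k₀ i + 1) • β + l • β)) := by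
    intro i _
    rw [← Finset.mul_sum]
    simp only [add_assoc _ _ β, ← succ_nsmul]
    have h6 := h2 i
    generalize (Pi.single j₁ (i : ℤ) - (k₀ i + 1) • β : Fin n → ℤ) = γ at h6 ⊢
    rw [Finset.sum_range_sub fun l : ℕ => rat Ω Ω β (γ + l • β)]
    rw [zero_nsmul, add_zero]
    exact mul_le_mul_of_nonneg_left h6 hc1.le
  have h5 := (Finset.sum_le_sum h4).trans h3
  rw [Finset.sum_const, Finset.card_range, nsmul_eq_mul] at h5
  rw [div_lt_iff₀ (by have := sub_pos.2 hq1; positivity)] at hN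
  linarith

end main

theorem main {n : ℕ} (hn : 2 ≤ n) (Ω : Set (Fin n → ℂ)) (hΩ : IsOpen Ω) (hc : IsConnected Ω)
    (hb : Bornology.IsBounded Ω) (hR : Reinhardt Ω) (f : (Fin n → ℂ) → ℂ)
    (hf : DifferentiableOn ℂ f Ω) (T : A2 Ω →L[ℂ] L2 Ω) (hd : Dense (dom Ω f))
    (hT : Extends Ω f T) {ι : Type*} (b : HilbertBasis ι ℂ (A2 Ω))
    (hs : Summable fun i => ‖T (b i)‖ ^ 2) :
    T = 0 ∧ ∃ c : ℂ, ∀ z ∈ Ω, f z = c := by
  have hI : TInv Ω := by
    intro θ z hz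
    choose x hx using fun j => QuotientAddGroup.mk_surjective (θ j)
    have h1 := hR z hz fun j => 2 * Real.pi * x j
    convert h1 using 2 with j
    rw [ρ, ← hx j, fourier_coe_apply]
    congr 2
    push_cast
    ring
  obtain ⟨c, hc0⟩ := comp_eq hΩ hc.isPreconnected hI hf 0
  have hstar : ∀ z ∈ Ω, Nz z → f z = c := by
    intro z hz hs'
    rw [eq_comp_zero hI hf.continuousOn hz fun β hβ => ?_, hc0 z hz hs', mono_zero, mul_one]
    obtain ⟨c', hc'⟩ := comp_eq hΩ hc.isPreconnected hI hf β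
    rw [hc' z hz hs', coef_zero hn hΩ hc hb hI hf hd hT b hs hβ hc', zero_mul]
  have hall : EqOn f (fun _ => c) Ω :=
    Measure.eqOn_open_of_ae_eq (μ := volume) ((ae_star hΩ).mono fun z hz => hstar z hz.1 hz.2) hΩ
      hf.continuousOn continuousOn_const
  refine ⟨ContinuousLinearMap.ext fun u => ?_, c, hall⟩
  refine congrFun (Continuous.ext_on hd (f := T) (g := fun _ => 0) T.continuous continuous_const
    fun g hg => ?_) u
  obtain ⟨h1, h2⟩ := hT g hg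
  have h3 : MemLp.toLp _ hg = conj c • (g : L2 Ω) := by
    refine Lp.ext ?_
    filter_upwards [MemLp.coeFn_toLp hg, Lp.coeFn_smul (conj c) (g : L2 Ω),
      ae_restrict_mem hΩ.measurableSet] with z e1 e2 e3
    rw [e1, e2, hall e3]
    rfl
  have h4 : T g ∈ A2 Ω := by
    have := (A2 Ω).sub_mem ((A2 Ω).smul_mem (conj c) g.2) h2
    rwa [h3, sub_sub_cancel] at this
  exact inner_self_eq_zero.1 ((Submodule.mem_orthogonal _ _).1 h1 _ h4)

end Pool.Agent.H97.Hankel
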