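import Pool.Agent.H97.HeilDefs

set_option autoImplicit false

namespace Pool.Agent.H97.Heil

open MeasureTheory Set Metric
open scoped Pointwise InnerProductSpace

theorem nsq (x : E) : ‖x‖ ^ 2 = x 0 ^ 2 + x 1 ^ 2 := by
  rw [EuclideanSpace.norm_sq_eq]; simp [Fin.sum_univ_two]

theorem inn (u x : E) : ⟪u, x⟫_ℝ = u 0 * x 0 + u 1 * x 1 := by
  simp [PiLp.inner_apply, Fin.sum_univ_two]; ring

theorem det_le (x y : E) : |x 0 * y 1 - y 0 * x 1| ≤ ‖x‖ * ‖y‖ := by
  apply abs_le_of_sq_le_sq' _ (by positivity) |> fun h => abs_le.2 h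
  rw [mul_pow, nsq, nsq]
  nlinarith [sq_nonneg (x 0 * y 0 + x 1 * y 1)]

theorem tri_le (a b c : E) : tri a b c ≤ ‖b - a‖ * ‖c - a‖ / 2 := by
  have := det_le (b - a) (c - a)
  simp only [PiLp.sub_apply] at this
  unfold tri; linarith

theorem tri_thin (a b c u : E) (hu : ‖u‖ = 1) (w : ℝ) (h1 : |⟪u, b - a⟫_ℝ| ≤ w)
    (h2 : |⟪u, c - a⟫_ℝ| ≤ w) : tri a b c ≤ w * (‖b - a‖ + ‖c - a‖) / 2 := by
  have hu2 : u 0 ^ 2 + u 1 ^ 2 = 1 := by rw [← nsq, hu]; norm_num
  set x := b - a with hx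
  set y := c - a with hy
  have e : x 0 * y 1 - y 0 * x 1 =
      ⟪u, x⟫_ℝ * (u 0 * y 1 - y 0 * u 1) - ⟪u, y⟫_ℝ * (u 0 * x 1 - x 0 * u 1) := by
    rw [inn, inn]
    have : x 0 * y 1 - y 0 * x 1 = (u 0 ^ 2 + u 1 ^ 2) * (x 0 * y 1 - y 0 * x 1) := by
      rw [hu2]; ring
    rw [this]; ring
  have d1 := det_le u y
  have d2 := det_le u x
  rw [hu, one_mul] at d1 d2
  have hw : 0 ≤ w := (abs_nonneg _).trans h1
  have : |x 0 * y 1 - y 0 * x 1| ≤ w * (‖x‖ + ‖y‖) := by
    rw [e]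
    calc _ ≤ |⟪u, x⟫_ℝ * (u 0 * y 1 - y 0 * u 1)| + |⟪u, y⟫_ℝ * (u 0 * x 1 - x 0 * u 1)| :=
          abs_sub _ _
      _ ≤ w * ‖y‖ + w * ‖x‖ := by
          rw [abs_mul, abs_mul]
          gcongr
      _ = _ := by ring
  have e2 : tri a b c = |x 0 * y 1 - y 0 * x 1| / 2 := by
    simp only [hx, hy, PiLp.sub_apply, tri]
  rw [e2]; linarith

theorem Forces.mono {α β : ℝ} {F G : Set E} {n m : ℕ} (h : Forces α F n) (hab : α ≤ β)
    (hG : G ⊆ F) (hnm : n ≤ m) : Forces β G m := by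
  intro P hP hPG
  obtain ⟨Q, hQ, hc⟩ := Finset.exists_subset_card_eq (s := P) (n := n) (by omega)
  obtain ⟨a, ha, b, hb, c, hc', h1, h2, h3, h4⟩ :=
    h Q hc ((Finset.coe_subset.2 hQ).trans (hPG.trans hG))
  exact ⟨a, hQ ha, b, hQ hb, c, hQ hc', h1, h2, h3, h4.trans hab⟩

theorem Forces.three {α : ℝ} {F : Set E} {n : ℕ} (h : Forces α F n)
    (hF : (interior F).Nonempty) : 3 ≤ n := by
  have hinf : F.Infinite := by
    obtain ⟨x, hx⟩ := hF
    exact infinite_of_mem_nhds x (mem_interior_iff_mem_nhds.1 hx)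
  obtain ⟨P, hP, hc⟩ := hinf.exists_subset_card_eq n
  obtain ⟨a, ha, b, hb, c, hc', h1, h2, h3, -⟩ := h P hc hP
  rw [← hc]
  exact Finset.two_lt_card.2 ⟨a, ha, b, hb, c, hc', h1, h3, h2⟩

theorem step1 {α : ℝ} {K L : Set E} {n : ℕ} (h : Forces α K n) (hn : 2 ≤ n)
    (hs : ∀ x ∈ L, ∀ y ∈ L, ∀ z ∈ L, x ∉ K → y ∉ K → tri x y z ≤ α) : Forces α L (n + 1) := by
  classical
  intro P hP hPL
  by_cases hc : 1 < (P.filter (fun x => x ∉ K)).card
  · obtain ⟨x, hx, y, hy, hxy⟩ := Finset.one_lt_card.1 hc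
    rw [Finset.mem_filter] at hx hy
    have : ({x, y} : Finset E).card < P.card := by
      have := Finset.card_le_two (a := x) (b := y); omega
    obtain ⟨z, hz, hz'⟩ := Finset.exists_mem_notMem_of_card_lt_card this
    simp only [Finset.mem_insert, Finset.mem_singleton, not_or] at hz'
    exact ⟨x, hx.1, y, hy.1, z, hz, hxy, fun e => hz'.2 e.symm, fun e => hz'.1 e.symm,
      hs x (hPL hx.1) y (hPL hy.1) z (hPL hz) hx.2 hy.2⟩
  · have e := Finset.card_filter_add_card_filter_not (s := P) (fun x => x ∈ K)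
    obtain ⟨a, ha, b, hb, c, hc', h1, h2, h3, h4⟩ :=
      h.mono le_rfl subset_rfl (m := (P.filter (fun x => x ∈ K)).card) (by omega) _ rfl
        (fun x hx => (Finset.mem_filter.1 hx).2)
    exact ⟨a, (Finset.mem_filter.1 ha).1, b, (Finset.mem_filter.1 hb).1, c,
      (Finset.mem_filter.1 hc').1, h1, h2, h3, h4⟩

theorem step2 {α : ℝ} {K L : Set E} {n : ℕ} (h : Forces α K n)
    (hs : ∀ x ∈ L, ∀ y ∈ L, ∀ z ∈ L, x ∉ K → y ∉ K → z ∉ K → tri x y z ≤ α) :
    Forces α L (n + 2) := by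
  classical
  intro P hP hPL
  by_cases hc : 2 < (P.filter (fun x => x ∉ K)).card
  · obtain ⟨x, hx, y, hy, z, hz, hxy, hxz, hyz⟩ := Finset.two_lt_card.1 hc
    rw [Finset.mem_filter] at hx hy hz
    exact ⟨x, hx.1, y, hy.1, z, hz.1, hxy, hyz, hxz,
      hs x (hPL hx.1) y (hPL hy.1) z (hPL hz.1) hx.2 hy.2 hz.2⟩
  · have e := Finset.card_filter_add_card_filter_not (s := P) (fun x => x ∈ K)
    obtain ⟨a, ha, b, hb, c, hc', h1, h2, h3, h4⟩ :=
      h.mono le_rfl subset_rfl (m := (P.filter (fun x => x ∈ K)).card) (by omega) _ rfl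
        (fun x hx => (Finset.mem_filter.1 hx).2)
    exact ⟨a, (Finset.mem_filter.1 ha).1, b, (Finset.mem_filter.1 hb).1, c,
      (Finset.mem_filter.1 hc').1, h1, h2, h3, h4⟩

/-- homothety with translation -/
def T (v : E) (l : ℝ) (x : E) : E := v + l • x

theorem tri_T (v : E) (l : ℝ) (a b c : E) :
    tri (T v l a) (T v l b) (T v l c) = l ^ 2 * tri a b c := by
  simp only [tri, T, PiLp.add_apply, PiLp.smul_apply, smul_eq_mul]
  rw [← abs_of_nonneg (sq_nonneg l), mul_div_assoc', ← abs_mul]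
  congr 2; ring

theorem T_inj (v : E) {l : ℝ} (hl : l ≠ 0) : Function.Injective (T v l) := by
  intro x y h
  simp only [T, add_right_inj] at h
  exact smul_right_injective E hl h

theorem forces_T {α : ℝ} {K : Set E} {n : ℕ} (v : E) {l : ℝ} (hl : l ≠ 0) :
    Forces (l ^ 2 * α) (T v l '' K) n ↔ Forces α K n := by
  classical
  have hl2 : 0 < l ^ 2 := by positivity
  constructor
  · intro h P hP hPK
    obtain ⟨a, ha, b, hb, c, hc, h1, h2, h3, h4⟩ := h (P.image (T v l))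
      (by rw [Finset.card_image_of_injective _ (T_inj v hl), hP])
      (by rw [Finset.coe_image]; exact image_mono hPK)
    obtain ⟨a, ha', rfl⟩ := Finset.mem_image.1 ha
    obtain ⟨b, hb', rfl⟩ := Finset.mem_image.1 hb
    obtain ⟨c, hc', rfl⟩ := Finset.mem_image.1 hc
    rw [tri_T] at h4
    exact ⟨a, ha', b, hb', c, hc', fun e => h1 (e ▸ rfl), fun e => h2 (e ▸ rfl),
      fun e => h3 (e ▸ rfl), le_of_mul_le_mul_left h4 hl2⟩
  · intro h P hP hPK
    obtain ⟨Q, hQ, rfl⟩ := Finset.subset_set_image_iff.1 hPK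
    rw [Finset.card_image_of_injective _ (T_inj v hl)] at hP
    obtain ⟨a, ha, b, hb, c, hc, h1, h2, h3, h4⟩ := h Q hP hQ
    refine ⟨_, Finset.mem_image_of_mem _ ha, _, Finset.mem_image_of_mem _ hb, _,
      Finset.mem_image_of_mem _ hc, fun e => h1 (T_inj v hl e), fun e => h2 (T_inj v hl e),
      fun e => h3 (T_inj v hl e), ?_⟩
    rw [tri_T]; exact mul_le_mul_of_nonneg_left h4 hl2.le

theorem vol_T (v : E) (l : ℝ) (K : Set E) :
    volume (T v l '' K) = ENNReal.ofReal (l ^ 2) * volume K := by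
  have : T v l '' K = (fun x => v + x) '' (l • K) := by
    rw [← image_smul, image_image]; rfl
  rw [this, image_add_left, measure_preimage_add, Measure.addHaar_smul]
  simp

theorem real_T (v : E) (l : ℝ) (K : Set E) :
    volume.real (T v l '' K) = l ^ 2 * volume.real K := by
  rw [Measure.real, vol_T, ENNReal.toReal_mul, ENNReal.toReal_ofReal (sq_nonneg l)]; rfl

/-- convex body -/
def Body (K : Set E) : Prop := IsCompact K ∧ Convex ℝ K ∧ (interior K).Nonempty

theorem cont_T (v : E) (l : ℝ) : Continuous (T v l) := by unfold T; fun_prop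

theorem Body.T {K : Set E} (h : Body K) (v : E) {l : ℝ} (hl : l ≠ 0) : Body (T v l '' K) := by
  refine ⟨h.1.image (cont_T v l), ?_, ?_⟩
  · have : Heil.T v l '' K = (fun x => v + x) '' (l • K) := by
      rw [← image_smul, image_image]; rfl
    rw [this]; exact (h.2.1.smul l).translate v
  · obtain ⟨x, hx⟩ := h.2.2
    have ho : IsOpenMap (Heil.T v l) := (isOpenMap_add_left v).comp (isOpenMap_smul₀ hl)
    exact ⟨_, ho.image_interior_subset K ⟨x, hx, rfl⟩⟩

theorem Body.pos {K : Set E} (h : Body K) : 0 < volume.real K :=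
  ENNReal.toReal_pos (Measure.measure_pos_of_nonempty_interior _ h.2.2).ne' h.1.measure_lt_top.ne

/-- normalised property -/
def P (α : ℝ) (k : ℕ) (K : Set E) : Prop := Forces (α * volume.real K) K k

theorem P_T {α : ℝ} {k : ℕ} {K : Set E} (v : E) {l : ℝ} (hl : l ≠ 0) :
    P α k (T v l '' K) ↔ P α k K := by
  unfold P
  rw [real_T, ← forces_T (α := α * volume.real K) v hl]
  rw [show α * (l ^ 2 * volume.real K) = l ^ 2 * (α * volume.real K) by ring]

theorem IsFig.body {F : Set E} (h : IsFig F) : Body F := ⟨h.1, h.2.1, h.2.2.1⟩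

theorem IsFig.real {F : Set E} (h : IsFig F) : volume.real F = 1 := by
  simp [Measure.real, h.2.2.2]

theorem Body.norm {K : Set E} (h : Body K) :
    ∃ F, IsFig F ∧ ∀ α k, Forces α F k ↔ P α k K := by
  have hp := h.pos
  set l := (Real.sqrt (volume.real K))⁻¹ with hl
  have hl0 : l ≠ 0 := by positivity
  have hr : volume.real (Heil.T 0 l '' K) = 1 := by
    rw [real_T, hl, inv_pow, Real.sq_sqrt hp.le]; field_simp
  have hb := h.T 0 hl0
  refine ⟨_, ⟨hb.1, hb.2.1, hb.2.2, ?_⟩, fun α k => ?_⟩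
  · rw [← ENNReal.toReal_eq_one_iff]; exact hr
  · rw [← P_T (K := K) 0 hl0, P, hr, mul_one]

theorem exists_forces {α : ℝ} (hα : 0 < α) {K : Set E} (hK : IsCompact K) :
    ∃ n, 0 < n ∧ Forces α K n := by
  classical
  obtain ⟨D, hD, hKD⟩ := hK.isBounded.exists_pos_norm_le
  obtain ⟨t, -, ht, hc⟩ := hK.finite_cover_balls (e := α / (2 * D)) (by positivity)
  refine ⟨ht.toFinset.card + 3, by omega, fun P hP hPK => ?_⟩
  have : ∀ x ∈ P, ∃ c ∈ ht.toFinset, dist x c < α / (2 * D) := fun x hx => by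
    simpa using hc (hPK hx)
  choose! f hf hf' using this
  obtain ⟨x, hx, y, hy, hxy, e⟩ :=
    Finset.exists_ne_map_eq_of_card_lt_of_maps_to (s := P) (t := ht.toFinset) (by omega) hf
  have : ({x, y} : Finset E).card < P.card := by
    have := Finset.card_le_two (a := x) (b := y); omega
  obtain ⟨z, hz, hz'⟩ := Finset.exists_mem_notMem_of_card_lt_card this
  simp only [Finset.mem_insert, Finset.mem_singleton, not_or] at hz'
  refine ⟨x, hx, y, hy, z, hz, hxy, fun e => hz'.2 e.symm, fun e => hz'.1 e.symm,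
    (tri_le _ _ _).trans ?_⟩
  have h1 : ‖y - x‖ ≤ 2 * (α / (2 * D)) := by
    rw [← dist_eq_norm]
    have := dist_triangle_right y x (f x)
    have a1 := hf' x hx
    have a2 := hf' y hy
    rw [← e] at a2; linarith
  have h2 : ‖z - x‖ ≤ 2 * D := (norm_sub_le _ _).trans (by
    have := hKD z (hPK hz); have := hKD x (hPK hx); linarith)
  calc _ ≤ 2 * (α / (2 * D)) * (2 * D) / 2 := by gcongr
    _ = α := by field_simp

theorem S_le_iff {α : ℝ} (hα : 0 < α) {K : Set E} (hK : Body K) (k : ℕ) :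
    S α K ≤ k ↔ Forces α K k := by
  constructor
  · intro h
    exact (Nat.sInf_mem (s := {n : ℕ | 0 < n ∧ Forces α K n})
      (exists_forces hα hK.1)).2.mono le_rfl subset_rfl h
  · intro h
    exact Nat.sInf_le ⟨by have := h.three hK.2.2; omega, h⟩

end Pool.Agent.H97.Heil
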