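import Pool.Agent.H97.Heil1

set_option autoImplicit false

namespace Pool.Agent.H97.Heil

open MeasureTheory Set Metric
open scoped Pointwise InnerProductSpace

def KA (F G : Set E) (ρ : ℝ) (t : Finset E) : Set E :=
  {x | x ∈ G ∧ ∀ u : E, ‖u‖ = 1 → (∀ w ∈ t, ¬ dist u w < ρ) → ∀ c : ℝ,
    (∀ y ∈ F, ⟪u, y⟫_ℝ ≤ c) → ⟪u, x⟫_ℝ ≤ c}

theorem KA_body {F G : Set E} (hF : Body F) (hG : Body G) (h : F ⊆ G) (ρ : ℝ) (t : Finset E) :
    Body (KA F G ρ t) ∧ F ⊆ KA F G ρ t := by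
  have hs : F ⊆ KA F G ρ t := fun x hx => ⟨h hx, fun u _ _ c hc => hc x hx⟩
  refine ⟨⟨?_, ?_, hF.2.2.mono (interior_mono hs)⟩, hs⟩
  · refine hG.1.of_isClosed_subset ?_ (fun x hx => hx.1)
    refine hG.1.isClosed.inter (s₂ := {x | ∀ u : E, ‖u‖ = 1 → (∀ w ∈ t, ¬ dist u w < ρ) →
      ∀ c : ℝ, (∀ y ∈ F, ⟪u, y⟫_ℝ ≤ c) → ⟪u, x⟫_ℝ ≤ c}) ?_
    simp only [ofPred_forall]
    refine isClosed_iInter fun u => isClosed_iInter fun _ => isClosed_iInter fun _ =>
      isClosed_iInter fun c => isClosed_iInter fun _ => ?_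
    exact isClosed_le (by fun_prop) continuous_const
  · intro x hx y hy a b ha hb hab
    refine ⟨hG.2.1 hx.1 hy.1 ha hb hab, fun u hu hw c hc => ?_⟩
    have h1 := hx.2 u hu hw c hc
    have h2 := hy.2 u hu hw c hc
    rw [inner_add_right, inner_smul_right, inner_smul_right]
    calc _ ≤ a * c + b * c := by gcongr
      _ = c := by rw [← add_mul, hab, one_mul]

theorem KA_empty {F G : Set E} (hF : Body F) (hG : Body G) (h : F ⊆ G) (ρ : ℝ) :
    KA F G ρ ∅ = F := by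
  refine Subset.antisymm (fun x hx => ?_) (KA_body hF hG h ρ ∅).2
  by_contra hxF
  obtain ⟨f, c, h1, h2⟩ := geometric_hahn_banach_closed_point hF.2.1 hF.1.isClosed hxF
  set v := (InnerProductSpace.toDual ℝ E).symm f with hv
  have hf : ∀ y, ⟪v, y⟫_ℝ = f y := fun y => by simp [hv]
  obtain ⟨y0, hy0⟩ := hF.2.2
  have hv0 : v ≠ 0 := by
    intro e
    have a := h1 y0 (interior_subset hy0)
    rw [← hf, e, inner_zero_left] at a h2
    linarith
  have hn : 0 < ‖v‖ := norm_pos_iff.2 hv0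
  have := hx.2 (‖v‖⁻¹ • v) (by rw [norm_smul, norm_inv, norm_norm]; field_simp) (by simp)
    (‖v‖⁻¹ * c) (fun y hy => by
      rw [inner_smul_left, hf]
      exact mul_le_mul_of_nonneg_left (h1 y hy).le (by simp))
  rw [inner_smul_left, hf] at this
  simp only [conj_trivial] at this
  have := le_of_mul_le_mul_left this (by positivity)
  linarith

/-- the new points of a step -/
def New (F : Set E) (ρ : ℝ) (K L : Set E) : Prop :=
  ∃ w : E, ‖w‖ = 1 ∧ ∀ x ∈ L, x ∉ K → ∃ u : E, ∃ c : ℝ, ‖u‖ = 1 ∧ dist u w < ρ ∧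
    (∀ y ∈ F, ⟪u, y⟫_ℝ ≤ c) ∧ c < ⟪u, x⟫_ℝ

theorem chain {F G : Set E} (hF : Body F) (hG : Body G) (h : F ⊆ G) {ρ : ℝ} (hρ : 0 < ρ)
    (Q : Set E → Prop) (h0 : Q F)
    (hs : ∀ K L, Body K → Body L → F ⊆ K → K ⊆ L → L ⊆ G → New F ρ K L → Q K → Q L) : Q G := by
  classical
  obtain ⟨t, ht1, ht, hc⟩ := (isCompact_sphere (0 : E) 1).finite_cover_balls hρ
  have key : ∀ s : Finset E, (∀ w ∈ s, ‖w‖ = 1) → Q (KA F G ρ s) := by
    intro s
    induction s using Finset.induction_on with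
    | empty => intro _; rw [KA_empty hF hG h]; exact h0
    | insert w s hw ih =>
      intro hn
      refine hs _ _ (KA_body hF hG h ρ s).1 (KA_body hF hG h ρ _).1 (KA_body hF hG h ρ s).2
        ?_ (fun x hx => hx.1) ⟨w, hn w (by simp), fun x hx hx' => ?_⟩
        (ih fun v hv => hn v (by simp [hv]))
      · exact fun x hx => ⟨hx.1, fun u hu hw' c hc =>
          hx.2 u hu (fun v hv => hw' v (by simp [hv])) c hc⟩
      · by_contra hcon
        push Not at hcon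
        refine hx' ⟨hx.1, fun u hu hw' c hc => ?_⟩
        by_cases hd : dist u w < ρ
        · exact hcon u c hu hd hc
        · refine hx.2 u hu (fun v hv => ?_) c hc
          rcases Finset.mem_insert.1 hv with rfl | hv
          · exact hd
          · exact hw' v hv
  have := key ht.toFinset (fun w hw => by simpa using ht1 (ht.mem_toFinset.1 hw))
  have e : KA F G ρ ht.toFinset = G := by
    refine Subset.antisymm (fun x hx => hx.1) (fun x hx => ⟨hx, fun u hu hw c _ => ?_⟩)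
    have := hc (show u ∈ sphere (0 : E) 1 by simpa using hu)
    simp only [mem_iUnion, mem_ball] at this
    obtain ⟨w, hw1, hw2⟩ := this
    exact absurd hw2 (hw w (ht.mem_toFinset.2 hw1))
  rwa [e] at this

/-- strong convexity -/
def SC (K : Set E) (c : ℝ) : Prop :=
  ∀ x ∈ K, ∀ y ∈ K, ∀ u : E, ‖u‖ ≤ 1 → (1 / 2 : ℝ) • (x + y) + (c * ‖x - y‖ ^ 2) • u ∈ K

theorem new_small {F G K L : Set E} {ρ η c D : ℝ} (hρ : ρ ≤ 1 / 2) (hc : 0 < c)
    (hG : SC G c) (hD : ∀ x ∈ G, ‖x‖ ≤ D) (hη : ∀ x ∈ G, ∃ y ∈ F, ‖x - y‖ ≤ η) (hL : L ⊆ G)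
    (hN : New F ρ K L) : ∀ x ∈ L, ∀ y ∈ L, x ∉ K → y ∉ K →
      c * ‖x - y‖ ^ 2 ≤ 2 * D * ρ + 2 * η := by
  obtain ⟨w, -, hw⟩ := hN
  intro x hx y hy hxK hyK
  obtain ⟨u, a, hu, huw, ha, hax⟩ := hw x hx hxK
  obtain ⟨v, b, hv, hvw, hb, hby⟩ := hw y hy hyK
  obtain ⟨p, hp, hzp⟩ := hη _ (hG x (hL hx) y (hL hy) u hu.le)
  set κ := c * ‖x - y‖ ^ 2 with hκ
  have hκ0 : 0 ≤ κ := by positivity
  set z := (1 / 2 : ℝ) • (x + y) + κ • u with hz
  have huv : ‖u - v‖ ≤ 2 * ρ := by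
    rw [← dist_eq_norm]; have := dist_triangle_right u v w; linarith
  have e1 : ⟪u, z - p⟫_ℝ ≤ η := (real_inner_le_norm _ _).trans (by rw [hu]; linarith)
  have e2 : ⟪v, z - p⟫_ℝ ≤ η := (real_inner_le_norm _ _).trans (by rw [hv]; linarith)
  have e3 : ⟪u - v, x - y⟫_ℝ ≤ 2 * ρ * (2 * D) := by
    refine (real_inner_le_norm _ _).trans ?_
    have : ‖x - y‖ ≤ 2 * D := (norm_sub_le _ _).trans (by
      have := hD x (hL hx); have := hD y (hL hy); linarith)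
    have h0 : 0 ≤ 2 * ρ := (norm_nonneg _).trans huv
    gcongr
  have e4 : 0 ≤ ⟪v, u⟫_ℝ := by
    have h1 := norm_sub_sq_real v u
    rw [hu, hv, norm_sub_rev] at h1
    have : ‖u - v‖ ^ 2 ≤ 1 := by
      have : ‖u - v‖ ≤ 1 := by linarith
      nlinarith [norm_nonneg (u - v)]
    linarith
  have e5 : ⟪u, u⟫_ℝ = 1 := by rw [real_inner_self_eq_norm_sq, hu]; norm_num
  have a1 := ha p hp
  have a2 := hb p hp
  simp only [hz, inner_sub_right, inner_sub_left, inner_add_right, inner_smul_right, e5] at e1 e2 e3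
  nlinarith [mul_nonneg hκ0 e4]

theorem new_thin {F G K L : Set E} {ρ η D : ℝ}
    (hD : ∀ x ∈ G, ‖x‖ ≤ D) (hη : ∀ x ∈ G, ∃ y ∈ F, ‖x - y‖ ≤ η) (hL : L ⊆ G)
    (hN : New F ρ K L) : ∀ x ∈ L, ∀ y ∈ L, ∀ z ∈ L, x ∉ K → y ∉ K → z ∉ K →
      tri x y z ≤ (η + 2 * D * ρ) * (2 * D) := by
  obtain ⟨w, hw1, hw⟩ := hN
  have hd : ∀ x ∈ L, ∀ y ∈ L, ‖x - y‖ ≤ 2 * D := fun x hx y hy =>
    (norm_sub_le _ _).trans (by have := hD x (hL hx); have := hD y (hL hy); linarith)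
  have key : ∀ x ∈ L, ∀ y ∈ L, x ∉ K → ⟪w, y - x⟫_ℝ ≤ η + 2 * D * ρ := by
    intro x hx y hy hxK
    obtain ⟨u, a, hu, huw, ha, hax⟩ := hw x hx hxK
    obtain ⟨p, hp, hyp⟩ := hη y (hL hy)
    have e1 : ⟪u, y - p⟫_ℝ ≤ η := (real_inner_le_norm _ _).trans (by rw [hu]; linarith)
    have e3 : ⟪w - u, y - x⟫_ℝ ≤ ρ * (2 * D) := by
      refine (real_inner_le_norm _ _).trans ?_
      have h1 : ‖w - u‖ ≤ ρ := by rw [← dist_eq_norm, dist_comm]; exact huw.le
      have h0 : 0 ≤ ρ := (norm_nonneg _).trans h1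
      have := hd y hy x hx
      gcongr
    have a1 := ha p hp
    simp only [inner_sub_right, inner_sub_left] at e1 e3 ⊢
    linarith
  have key2 : ∀ x ∈ L, ∀ y ∈ L, x ∉ K → y ∉ K → |⟪w, y - x⟫_ℝ| ≤ η + 2 * D * ρ := by
    intro x hx y hy hxK hyK
    have a := key x hx y hy hxK
    have b := key y hy x hx hyK
    simp only [inner_sub_right] at a b ⊢
    exact abs_le.2 ⟨by linarith, a⟩
  intro x hx y hy z hz hxK hyK hzK
  have k1 := key2 x hx y hy hxK hyK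
  have := tri_thin x y z w hw1 _ k1 (key2 x hx z hz hxK hzK)
  have h0 : 0 ≤ η + 2 * D * ρ := (abs_nonneg _).trans k1
  have a := hd y hy x hx
  have b := hd z hz x hx
  nlinarith

theorem inner_approx {F : Set E} (hF : Body F) {r : ℝ} (hr : 0 < r) (hb : ball (0 : E) r ⊆ F)
    {η : ℝ} (hη : 0 < η) (hη1 : η < 1) :
    ∃ K c, Body K ∧ 0 < c ∧ SC K c ∧ K ⊆ F ∧ ∀ x ∈ F, (1 - η) • x ∈ K := by
  obtain ⟨D, hD, hFD⟩ := hF.1.isBounded.exists_pos_norm_le
  have hn : F ∈ nhds (0 : E) := Filter.mem_of_superset (ball_mem_nhds _ hr) hb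
  have habs : Absorbent ℝ F := absorbent_nhds_zero hn
  set ε := η / D ^ 2 with hε
  have hε0 : 0 < ε := by positivity
  set K := {x : E | gauge F x + ε * ‖x‖ ^ 2 ≤ 1} with hK
  have hKF : K ⊆ F := fun x hx => by
    have : gauge F x ≤ 1 := by
      have : 0 ≤ ε * ‖x‖ ^ 2 := by positivity
      have h2 : gauge F x + ε * ‖x‖ ^ 2 ≤ 1 := hx
      linarith
    have := (gauge_le_one_iff_mem_closure hF.2.1 hn).1 this
    rwa [hF.1.isClosed.closure_eq] at this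
  have hin : ∀ x ∈ F, (1 - η) • x ∈ K := fun x hx => by
    show gauge F ((1 - η) • x) + ε * ‖(1 - η) • x‖ ^ 2 ≤ 1
    rw [gauge_smul_of_nonneg (by linarith), norm_smul, Real.norm_of_nonneg (by linarith),
      smul_eq_mul]
    have h1 := gauge_le_one_of_mem hx
    have h2 := hFD x hx
    have h3 : ((1 - η) * ‖x‖) ^ 2 ≤ D ^ 2 := by
      have : (1 - η) * ‖x‖ ≤ D := by nlinarith [norm_nonneg x]
      have h0 : 0 ≤ (1 - η) * ‖x‖ := mul_nonneg (by linarith) (norm_nonneg x)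
      gcongr
    have h4 : ε * ((1 - η) * ‖x‖) ^ 2 ≤ η := by
      calc _ ≤ ε * D ^ 2 := by gcongr
        _ = η := by rw [hε]; field_simp
    nlinarith
  have hg : ∀ u : E, gauge F u ≤ ‖u‖ / r := fun u => by
    rw [← gauge_ball hr.le]
    exact gauge_mono (absorbent_nhds_zero (ball_mem_nhds _ hr)) hb u
  set c := min (1 / (4 * D)) (ε / (4 * (1 / r + 3 * ε * D))) with hc
  have hc0 : 0 < c := by positivity
  refine ⟨K, c, ⟨?_, ?_, ?_⟩, hc0, ?_, hKF, hin⟩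
  · refine hF.1.of_isClosed_subset ?_ hKF
    have := continuous_gauge hF.2.1 hn
    exact isClosed_le (by fun_prop) continuous_const
  · intro x hx y hy a b ha hb' hab
    show gauge F (a • x + b • y) + ε * ‖a • x + b • y‖ ^ 2 ≤ 1
    have h1 := gauge_add_le hF.2.1 habs (a • x) (b • y)
    rw [gauge_smul_of_nonneg ha, gauge_smul_of_nonneg hb', smul_eq_mul, smul_eq_mul] at h1
    have h2 : ‖a • x + b • y‖ ≤ a * ‖x‖ + b * ‖y‖ := by
      refine (norm_add_le _ _).trans ?_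
      rw [norm_smul, norm_smul, Real.norm_of_nonneg ha, Real.norm_of_nonneg hb']
    have h3 : ‖a • x + b • y‖ ^ 2 ≤ a * ‖x‖ ^ 2 + b * ‖y‖ ^ 2 := by
      calc _ ≤ (a * ‖x‖ + b * ‖y‖) ^ 2 := by gcongr
        _ ≤ _ := by
          have e : b = 1 - a := by linarith
          subst e
          nlinarith [mul_nonneg (mul_nonneg ha hb') (sq_nonneg (‖x‖ - ‖y‖))]
    have hx' : gauge F x + ε * ‖x‖ ^ 2 ≤ 1 := hx
    have hy' : gauge F y + ε * ‖y‖ ^ 2 ≤ 1 := hy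
    have h4 := mul_le_mul_of_nonneg_left h3 hε0.le
    nlinarith [mul_le_mul_of_nonneg_left hx' ha, mul_le_mul_of_nonneg_left hy' hb']
  · refine ⟨0, mem_interior_iff_mem_nhds.2 ?_⟩
    refine Filter.mem_of_superset (ball_mem_nhds _ (show 0 < (1 - η) * r by nlinarith)) ?_
    intro x hx
    have h1 : (0 : ℝ) < 1 - η := by linarith
    have := hin ((1 - η)⁻¹ • x) (hb (by
      rw [mem_ball_zero_iff] at hx ⊢
      rw [norm_smul, Real.norm_of_nonneg (by positivity), inv_mul_lt_iff₀ h1]; exact hx))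
    rwa [smul_inv_smul₀ h1.ne'] at this
  · intro x hx y hy u hu
    set d := ‖x - y‖ with hd
    have hxD := hFD x (hKF hx)
    have hyD := hFD y (hKF hy)
    have hd0 : 0 ≤ d := norm_nonneg _
    have hdD : d ≤ 2 * D := (norm_sub_le _ _).trans (by linarith)
    set κ := c * d ^ 2 with hκ
    have hκ0 : 0 ≤ κ := by positivity
    show gauge F ((1 / 2 : ℝ) • (x + y) + κ • u) + ε * ‖(1 / 2 : ℝ) • (x + y) + κ • u‖ ^ 2 ≤ 1
    have h1 := gauge_add_le hF.2.1 habs ((1 / 2 : ℝ) • (x + y)) (κ • u)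
    have h2 := gauge_add_le hF.2.1 habs x y
    rw [gauge_smul_of_nonneg (by norm_num), gauge_smul_of_nonneg hκ0, smul_eq_mul,
      smul_eq_mul] at h1
    have h3 : gauge F u ≤ 1 / r := (hg u).trans (by gcongr)
    set m := ‖(1 / 2 : ℝ) • (x + y)‖ with hm
    have hm2 : m ^ 2 = (‖x‖ ^ 2 + ‖y‖ ^ 2) / 2 - d ^ 2 / 4 := by
      have := parallelogram_law_with_norm ℝ x y
      rw [hm, norm_smul, Real.norm_of_nonneg (by norm_num), hd]
      nlinarith
    have hmD : m ≤ D := by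
      rw [hm, norm_smul, Real.norm_of_nonneg (by norm_num)]
      have := norm_add_le x y; linarith
    have hm0 : 0 ≤ m := norm_nonneg _
    have h4 : ‖(1 / 2 : ℝ) • (x + y) + κ • u‖ ≤ m + κ := by
      refine (norm_add_le _ _).trans ?_
      rw [norm_smul κ, Real.norm_of_nonneg hκ0]
      nlinarith
    have hκD : κ ≤ D := by
      have : c ≤ 1 / (4 * D) := min_le_left _ _
      calc κ ≤ 1 / (4 * D) * (2 * D) ^ 2 := by rw [hκ]; gcongr
        _ = D := by field_simp; ring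
    have h5 : ‖(1 / 2 : ℝ) • (x + y) + κ • u‖ ^ 2 ≤ m ^ 2 + 3 * D * κ := by
      calc _ ≤ (m + κ) ^ 2 := by gcongr
        _ ≤ _ := by nlinarith
    have h6 : κ * (1 / r + 3 * ε * D) ≤ ε * d ^ 2 / 4 := by
      have : c ≤ ε / (4 * (1 / r + 3 * ε * D)) := min_le_right _ _
      calc _ ≤ ε / (4 * (1 / r + 3 * ε * D)) * d ^ 2 * (1 / r + 3 * ε * D) := by
            rw [hκ]; gcongr
        _ = _ := by field_simp
    have hx' : gauge F x + ε * ‖x‖ ^ 2 ≤ 1 := hx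
    have hy' : gauge F y + ε * ‖y‖ ^ 2 ≤ 1 := hy
    have h7 := mul_le_mul_of_nonneg_left h5 hε0.le
    have h8 := mul_le_mul_of_nonneg_left h3 hκ0
    rw [hm2] at h7
    nlinarith

end Pool.Agent.H97.Heil
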