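import Pool.Agent.H97.Heil2

set_option autoImplicit false

namespace Pool.Agent.H97.Heil

open MeasureTheory Set Metric Filter Topology
open scoped Pointwise InnerProductSpace

theorem mem_T0 {t : ℝ} (ht : 0 < t) (K : Set E) (x : E) : x ∈ T 0 t '' K ↔ t⁻¹ • x ∈ K := by
  constructor
  · rintro ⟨y, hy, rfl⟩
    simpa [T, smul_smul, inv_mul_cancel₀ ht.ne'] using hy
  · intro h
    exact ⟨_, h, by simp [T, smul_smul, mul_inv_cancel₀ ht.ne']⟩

theorem SC.mono {K : Set E} {c c' : ℝ} (h : SC K c) (h0 : 0 ≤ c') (h1 : c' ≤ c) (hc : 0 < c) :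
    SC K c' := by
  intro x hx y hy u hu
  have := h x hx y hy ((c' / c) • u) (by
    rw [norm_smul, Real.norm_of_nonneg (by positivity)]
    have : c' / c ≤ 1 := (div_le_one hc).2 h1
    nlinarith [norm_nonneg u, div_nonneg h0 hc.le])
  rwa [smul_smul, show c * ‖x - y‖ ^ 2 * (c' / c) = c' * ‖x - y‖ ^ 2 by field_simp] at this

theorem SC.scale {K : Set E} {c t : ℝ} (h : SC K c) (ht : 0 < t) : SC (T 0 t '' K) (c / t) := by
  intro x hx y hy u hu
  rw [mem_T0 ht] at hx hy ⊢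
  have := h _ hx _ hy u hu
  rw [← smul_sub, norm_smul, Real.norm_of_nonneg (by positivity)] at this
  convert this using 1
  rw [smul_add, smul_smul, smul_smul, ← smul_add, smul_smul, mul_comm]
  congr 2
  field_simp

theorem real_mono {K L : Set E} (hL : Body L) (h : K ⊆ L) : volume.real K ≤ volume.real L :=
  measureReal_mono h hL.1.measure_lt_top.ne

theorem grow {α : ℝ} (hα : 0 < α) {k : ℕ} (H : ∀ K, Body K → P α (k + 1) K → P α k K)
    {K0 K1 : Set E} (b0 : Body K0) (b1 : Body K1) {c0 c1 r : ℝ} (hc0 : 0 < c0) (hc1 : 0 < c1)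
    (s0 : SC K0 c0) (s1 : SC K1 c1) (hr : 0 < r) (hb : ball (0 : E) r ⊆ K0) (h01 : K0 ⊆ K1)
    (hP : P α (k + 1) K0) : P α (k + 1) K1 := by
  obtain ⟨D, hD, hKD⟩ := b1.1.isBounded.exists_pos_norm_le
  have hz : (0 : E) ∈ K0 := hb (mem_ball_self hr)
  have ha0 : 0 < α * volume.real K0 := mul_pos hα b0.pos
  set a0 := α * volume.real K0 with ha0'
  set M := 2 * D / r + 2 with hM
  have hM0 : 0 < M := by positivity
  set c := min c1 (c0 / M) with hc
  have hcp : 0 < c := by positivity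
  set δ := a0 / D with hδ
  have hδ0 : 0 < δ := by positivity
  set ρ := min (1 / 2) (c * δ ^ 2 / (4 * D)) with hρ
  have hρ0 : 0 < ρ := by positivity
  set θ := min 1 (c * δ ^ 2 / (4 * D)) with hθ
  have hθ0 : 0 < θ := by positivity
  let K : ℝ → Set E := fun t => K1 ∩ T 0 t '' K0
  have hsub : ∀ t, 1 ≤ t → K0 ⊆ K t := fun t ht x hx => ⟨h01 hx, (mem_T0 (by linarith) _ _).2
    (b0.2.1.smul_mem_of_zero_mem hz hx ⟨by positivity, inv_le_one_of_one_le₀ ht⟩)⟩
  have hbody : ∀ t, 1 ≤ t → Body (K t) := fun t ht =>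
    ⟨b1.1.inter (b0.T 0 (by linarith : 0 < t).ne').1,
      b1.2.1.inter (b0.T 0 (by linarith : 0 < t).ne').2.1,
      b0.2.2.mono (interior_mono (hsub t ht))⟩
  have hSC : ∀ t, 1 ≤ t → t ≤ M → SC (K t) c := fun t ht htM x hx y hy u hu =>
    ⟨(s1.mono hcp.le (min_le_left _ _) hc1) x hx.1 y hy.1 u hu,
      ((s0.scale (by linarith : 0 < t)).mono hcp.le ((min_le_right _ _).trans (by gcongr))
        (by positivity)) x hx.2 y hy.2 u hu⟩
  have hstep : ∀ t, 1 ≤ t → t + θ ≤ M → P α (k + 1) (K t) → P α (k + 1) (K (t + θ)) := by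
    intro t ht htM hq
    have ht0 : 0 < t := by linarith
    have ht1 : 0 < t + θ := by linarith
    have hmono : K t ⊆ K (t + θ) := fun x hx => ⟨hx.1, (mem_T0 ht1 _ _).2 (by
      have := b0.2.1.smul_mem_of_zero_mem hz ((mem_T0 ht0 _ _).1 hx.2)
        (t := t / (t + θ)) ⟨by positivity, (div_le_one ht1).2 (by linarith)⟩
      rwa [smul_smul, show t / (t + θ) * t⁻¹ = (t + θ)⁻¹ by field_simp] at this)⟩
    have hclose : ∀ x ∈ K (t + θ), ∃ y ∈ K t, ‖x - y‖ ≤ θ * D := by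
      intro x hx
      refine ⟨(t / (t + θ)) • x, ⟨b1.2.1.smul_mem_of_zero_mem (h01 hz) hx.1
        ⟨by positivity, (div_le_one ht1).2 (by linarith)⟩, (mem_T0 ht0 _ _).2 ?_⟩, ?_⟩
      · rw [smul_smul, show t⁻¹ * (t / (t + θ)) = (t + θ)⁻¹ by field_simp]
        exact (mem_T0 ht1 _ _).1 hx.2
      · have : x - (t / (t + θ)) • x = (θ / (t + θ)) • x := by
          rw [show θ / (t + θ) = 1 - t / (t + θ) by field_simp; ring, sub_smul, one_smul]
        rw [this, norm_smul, Real.norm_of_nonneg (by positivity)]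
        have h1 : θ / (t + θ) ≤ θ := div_le_self hθ0.le (by linarith)
        have := hKD x hx.1
        gcongr
    refine chain (hbody t ht) (hbody _ (by linarith)) hmono hρ0 (P α (k + 1)) hq ?_
    intro A B bA bB hA hAB hB hN hq'
    have h1 := H A bA hq'
    have h3 := h1.three bA.2.2
    have hsm := new_small (min_le_left _ _) hcp (hSC _ (by linarith) htM)
      (fun x hx => hKD x hx.1) hclose hB hN
    have haA : a0 ≤ α * volume.real A :=
      mul_le_mul_of_nonneg_left (real_mono bA ((hsub t ht).trans hA)) hα.le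
    refine (step1 h1 (by omega) ?_).mono
      (mul_le_mul_of_nonneg_left (real_mono bB hAB) hα.le) subset_rfl le_rfl
    intro x hx y hy z hz' hxA hyA
    have e1 := hsm x hx y hy hxA hyA
    have e2 : 2 * D * ρ ≤ c * δ ^ 2 / 2 := by
      calc _ ≤ 2 * D * (c * δ ^ 2 / (4 * D)) := by gcongr; exact min_le_right _ _
        _ = _ := by field_simp; ring
    have e3 : 2 * (θ * D) ≤ c * δ ^ 2 / 2 := by
      calc _ ≤ 2 * (c * δ ^ 2 / (4 * D) * D) := by gcongr; exact min_le_right _ _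
        _ = _ := by field_simp; ring
    have e4 : ‖x - y‖ ≤ δ := by
      have : ‖x - y‖ ^ 2 ≤ δ ^ 2 := le_of_mul_le_mul_left (by linarith) hcp
      exact (pow_le_pow_iff_left₀ (norm_nonneg _) hδ0.le two_ne_zero).1 this
    have e5 : ‖z - x‖ ≤ 2 * D := (norm_sub_le _ _).trans (by
      have := hKD z (hB hz').1; have := hKD x (hB hx).1; linarith)
    refine (tri_le _ _ _).trans (le_trans ?_ haA)
    rw [norm_sub_rev y x]
    calc _ ≤ δ * (2 * D) / 2 := by gcongr
      _ = a0 := by rw [hδ]; field_simp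
  have hind : ∀ n : ℕ, 1 + n * θ ≤ M → P α (k + 1) (K (1 + n * θ)) := by
    intro n
    induction n with
    | zero =>
      intro _
      have : K (1 + (0 : ℕ) * θ) = K0 := by
        refine Subset.antisymm (fun x hx => ?_) (hsub _ (by simp))
        simpa using (mem_T0 (by simp) _ _).1 hx.2
      rwa [this]
    | succ n ih =>
      intro h
      have e : 1 + ((n + 1 : ℕ) : ℝ) * θ = 1 + n * θ + θ := by push_cast; ring
      rw [e] at h ⊢
      exact hstep _ (by have : 0 ≤ n * θ := by positivity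
                        linarith) h (ih (by linarith))
  set n := ⌈2 * D / r / θ⌉₊ with hn
  have n1 : 2 * D / r / θ ≤ n := Nat.le_ceil _
  have n2 : (n : ℝ) < 2 * D / r / θ + 1 := Nat.ceil_lt_add_one (by positivity)
  rw [div_le_iff₀ hθ0] at n1
  have n3 : n * θ ≤ 2 * D / r + θ := by
    calc _ ≤ (2 * D / r / θ + 1) * θ := by gcongr
      _ = _ := by field_simp
  have hθ1 : θ ≤ 1 := min_le_left _ _
  have := hind n (by linarith)
  have e : K (1 + n * θ) = K1 := by
    have hp : 0 < 1 + n * θ := by positivity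
    refine Subset.antisymm (fun x hx => hx.1) (fun x hx => ⟨hx, (mem_T0 hp _ _).2 (hb ?_)⟩)
    rw [mem_ball_zero_iff, norm_smul, Real.norm_of_nonneg (by positivity), inv_mul_lt_iff₀ hp]
    rw [div_le_iff₀ hr] at n1
    have := hKD x hx
    nlinarith
  rwa [e] at this

theorem center {F : Set E} (hF : Body F) :
    ∃ v r, 0 < r ∧ ball (0 : E) r ⊆ T v 1 '' F := by
  obtain ⟨o, ho⟩ := hF.2.2
  obtain ⟨r, hr, hb⟩ := Metric.mem_nhds_iff.1 (mem_interior_iff_mem_nhds.1 ho)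
  refine ⟨-o, r, hr, fun x hx => ⟨o + x, hb ?_, by simp [T]⟩⟩
  simpa [dist_eq_norm] using hx

theorem small_eta {a b : ℝ} (h : a < b) : ∃ η : ℝ, 0 < η ∧ η < 1 ∧ a ≤ (1 - η) ^ 2 * b := by
  have hc : Continuous fun η : ℝ => (1 - η) ^ 2 * b := by fun_prop
  have h1 : ∀ᶠ η in 𝓝 (0 : ℝ), a < (1 - η) ^ 2 * b :=
    hc.continuousAt.eventually (lt_mem_nhds (by simpa using h))
  have h2 : ∀ᶠ η in 𝓝 (0 : ℝ), η < 1 := gt_mem_nhds one_pos
  obtain ⟨η, ⟨a1, a2⟩, a3⟩ :=
    (((h1.and h2).filter_mono nhdsWithin_le_nhds).and (self_mem_nhdsWithin (s := Ioi 0))).exists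
  exact ⟨η, a3, a2, a1.le⟩

theorem not_forces_up {α : ℝ} {F : Set E} {n : ℕ} (h : ¬ Forces α F n) :
    ∃ β, α < β ∧ ¬ Forces β F n := by
  unfold Forces at h
  push Not at h
  obtain ⟨Q, h1, h2, h3⟩ := h
  have : ∀ᶠ β in 𝓝 α, ∀ a ∈ Q, ∀ b ∈ Q, ∀ c ∈ Q, a ≠ b → b ≠ c → a ≠ c → β < tri a b c := by
    simp only [eventually_all_finset]
    intro a ha b hb c hc
    by_cases e : a ≠ b ∧ b ≠ c ∧ a ≠ c
    · exact (gt_mem_nhds (h3 a ha b hb c hc e.1 e.2.1 e.2.2)).mono fun β hβ _ _ _ => hβ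
    · exact Eventually.of_forall fun β e1 e2 e3 => absurd ⟨e1, e2, e3⟩ e
  obtain ⟨β, a1, a2⟩ :=
    ((this.filter_mono nhdsWithin_le_nhds).and (self_mem_nhdsWithin (s := Ioi α))).exists
  refine ⟨β, a2, fun hf => ?_⟩
  obtain ⟨a, ha, b, hb, c, hc, e1, e2, e3, e4⟩ := hf Q h1 h2
  exact absurd (a1 a ha b hb c hc e1 e2 e3) (not_lt.2 e4)

theorem mainA {α β : ℝ} (hα : 0 < α) {k : ℕ} {F0 F1 : Set E} (b0 : Body F0) (f1 : IsFig F1)
    (hβ : β < α * volume.real F0) (h0 : Forces β F0 (k + 1)) (h1 : ¬ Forces α F1 (k + 1)) :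
    ∃ F, IsFig F ∧ Forces α F (k + 1) ∧ ¬ Forces α F k := by
  by_contra hcon
  push Not at hcon
  have H : ∀ K, Body K → P α (k + 1) K → P α k K := fun K hK hp => by
    obtain ⟨F, hF, e⟩ := hK.norm
    exact (e α k).1 (hcon F hF ((e α _).2 hp))
  obtain ⟨v0, r0, hr0, hb0⟩ := center b0
  obtain ⟨v1, r1, hr1, hb1⟩ := center f1.body
  obtain ⟨γ, hγ, h1'⟩ := not_forces_up h1
  obtain ⟨η0, p0, q0, e0⟩ := small_eta hβ
  obtain ⟨η1, p1, q1, e1⟩ := small_eta hγ
  obtain ⟨K0, c0, B0, hc0, s0, i0, j0⟩ := inner_approx (b0.T v0 one_ne_zero) hr0 hb0 p0 q0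
  obtain ⟨K1, c1, B1, hc1, s1, i1, j1⟩ := inner_approx (f1.body.T v1 one_ne_zero) hr1 hb1 p1 q1
  have J0 : T 0 (1 - η0) '' (T v0 1 '' F0) ⊆ K0 := by
    rintro _ ⟨x, hx, rfl⟩; simpa [T] using j0 x hx
  have J1 : T 0 (1 - η1) '' (T v1 1 '' F1) ⊆ K1 := by
    rintro _ ⟨x, hx, rfl⟩; simpa [T] using j1 x hx
  have hP0 : P α (k + 1) K0 := by
    refine ((forces_T v0 one_ne_zero).2 h0).mono ?_ i0 le_rfl
    have := real_mono B0 J0
    rw [real_T, real_T] at this
    nlinarith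
  have hP1 : ¬ P α (k + 1) K1 := fun hp => by
    refine h1' ((forces_T v1 one_ne_zero).1 ((forces_T 0 (by linarith : 0 < 1 - η1).ne').1
      (hp.mono ?_ J1 le_rfl)))
    have := real_mono (f1.body.T v1 one_ne_zero) i1
    rw [real_T, f1.real] at this
    nlinarith
  have ball_in : ∀ {K G : Set E} {r η : ℝ}, η < 1 → ball (0 : E) r ⊆ G →
      T 0 (1 - η) '' G ⊆ K → ball (0 : E) ((1 - η) * r) ⊆ K := by
    intro K G r η hη hb hJ x hx
    have h1 : (0 : ℝ) < 1 - η := by linarith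
    refine hJ ((mem_T0 h1 _ _).2 (hb ?_))
    rw [mem_ball_zero_iff] at hx ⊢
    rw [norm_smul, Real.norm_of_nonneg (by positivity), inv_mul_lt_iff₀ h1]; exact hx
  have a0 := ball_in q0 hb0 J0
  have a1 := ball_in q1 hb1 J1
  obtain ⟨D, hD, hKD⟩ := B0.1.isBounded.exists_pos_norm_le
  have hs : 0 < (1 - η1) * r1 := mul_pos (by linarith) hr1
  set s := (1 - η1) * r1 with hs'
  have hl : 0 < 2 * D / s := by positivity
  refine hP1 ((P_T 0 hl.ne').1 (grow hα H B0 (B1.T 0 hl.ne') hc0 (div_pos hc1 hl) s0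
    (s1.scale hl) (mul_pos (by linarith) hr0) a0 (fun x hx => (mem_T0 hl _ _).2 (a1 ?_)) hP0))
  rw [mem_ball_zero_iff, norm_smul, Real.norm_of_nonneg (by positivity), inv_mul_lt_iff₀ hl]
  have := hKD x hx
  rw [div_mul_cancel₀ _ hs.ne']; linarith

theorem real_lt {K L : Set E} (hK : Body K) (hL : Body L) (h : K ⊆ L) (hne : L ≠ K) :
    volume.real K < volume.real L := by
  obtain ⟨x, hx, hxK⟩ : ∃ x ∈ L, x ∉ K := by
    by_contra hc; push Not at hc; exact hne (Subset.antisymm hc h)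
  have h1 : x ∈ closure (interior L) := by
    rw [hL.2.1.closure_interior_eq_closure_of_nonempty_interior hL.2.2]; exact subset_closure hx
  have h2 : (Kᶜ ∩ interior L).Nonempty := mem_closure_iff.1 h1 _ hK.1.isClosed.isOpen_compl hxK
  have ho : IsOpen (Kᶜ ∩ interior L) := hK.1.isClosed.isOpen_compl.inter isOpen_interior
  have h3 : 0 < volume (Kᶜ ∩ interior L) := ho.measure_pos _ h2
  have h4 : volume K + volume (Kᶜ ∩ interior L) ≤ volume L := by
    rw [← measure_union (disjoint_left.2 fun y hy hy' => hy'.1 hy) ho.measurableSet]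
    exact measure_mono (union_subset h fun y hy => interior_subset hy.2)
  refine (ENNReal.toReal_lt_toReal hK.1.measure_lt_top.ne hL.1.measure_lt_top.ne).2 ?_
  exact lt_of_lt_of_le (ENNReal.lt_add_right hK.1.measure_lt_top.ne h3.ne') h4

theorem bump {α : ℝ} (hα : 0 < α) {F : Set E} (hF : Body F) {n : ℕ} (h : Forces α F n) :
    ∃ L, Body L ∧ volume.real F < volume.real L ∧ Forces α L (n + 2) := by
  obtain ⟨v, r, hr, hb⟩ := center hF
  set G := T v 1 '' F with hG
  have bG : Body G := hF.T v one_ne_zero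
  have hz : (0 : E) ∈ G := hb (mem_ball_self hr)
  have eG : volume.real G = volume.real F := by rw [hG, real_T]; ring
  have fG : Forces α G n := by simpa using (forces_T v one_ne_zero).2 h
  obtain ⟨D, hD, hGD⟩ := bG.1.isBounded.exists_pos_norm_le
  set θ := min 1 (α / (40 * D ^ 2)) with hθ
  have hθ0 : 0 < θ := by positivity
  have hθ1 : θ ≤ 1 := min_le_left _ _
  have hp : 0 < 1 + θ := by linarith
  have bG' := bG.T 0 hp.ne'
  have hs : G ⊆ T 0 (1 + θ) '' G := fun x hx => (mem_T0 hp _ _).2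
    (bG.2.1.smul_mem_of_zero_mem hz hx ⟨by positivity, inv_le_one_of_one_le₀ (by linarith)⟩)
  by_contra hcon
  push Not at hcon
  have := chain bG bG' hs hθ0 (fun K => K = G) rfl (fun K L bK bL _ hKL hL hN e => by
    subst e
    by_contra hne
    refine hcon L bL (eG ▸ real_lt bK bL hKL hne) (step2 fG fun x hx y hy z hz' a b c => ?_)
    refine (new_thin (D := 2 * D) (η := θ * D) ?_ ?_ hL hN x hx y hy z hz' a b c).trans ?_
    · rintro _ ⟨p, hp', rfl⟩
      simp only [T, zero_add]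
      rw [norm_smul, Real.norm_of_nonneg hp.le]
      have := hGD p hp'
      nlinarith [norm_nonneg p]
    · rintro _ ⟨p, hp', rfl⟩
      refine ⟨p, hp', ?_⟩
      simp only [T, zero_add, add_smul, one_smul, add_sub_cancel_left]
      rw [norm_smul, Real.norm_of_nonneg hθ0.le]
      have := hGD p hp'
      gcongr
    · have : θ ≤ α / (40 * D ^ 2) := min_le_right _ _
      rw [le_div_iff₀ (by positivity)] at this
      nlinarith [mul_pos hθ0 (pow_pos hD 2)])
  have e := real_T 0 (1 + θ) G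
  rw [this] at e
  have := bG.pos
  nlinarith [mul_pos hθ0 this]

theorem finish {α β : ℝ} (hα : 0 < α) {k : ℕ} {F0 F1 : Set E} (b0 : Body F0) (f1 : IsFig F1)
    (hβ : β < α * volume.real F0) (h0 : Forces β F0 k) (h1 : k ≤ S α F1) :
    ∃ F, IsFig F ∧ S α F = k := by
  rcases h1.eq_or_lt with e | h1
  · exact ⟨F1, f1, e.symm⟩
  have h3 := h0.three b0.2.2
  obtain ⟨k, rfl⟩ : ∃ j, k = j + 1 := ⟨k - 1, by omega⟩
  obtain ⟨F, hF, a, b⟩ := mainA hα b0 f1 hβ h0
    (fun h => absurd ((S_le_iff hα f1.body _).2 h) (not_le.2 h1))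
  rw [← S_le_iff hα hF.body] at a b
  exact ⟨F, hF, by omega⟩

end Pool.Agent.H97.Heil
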