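import Mathlib

set_option autoImplicit false

namespace Pool.Agent.H97.Heil

open MeasureTheory

/-- The Euclidean plane. -/
abbrev E := EuclideanSpace ℝ (Fin 2)

/-- A convex figure of area one. -/
def IsFig (F : Set E) : Prop :=
  IsCompact F ∧ Convex ℝ F ∧ (interior F).Nonempty ∧ volume F = 1

/-- Area of the triangle with vertices `a, b, c`. -/
noncomputable def tri (a b c : E) : ℝ :=
  |(b 0 - a 0) * (c 1 - a 1) - (c 0 - a 0) * (b 1 - a 1)| / 2

/-- Among any `n` points of `F` some three span a triangle of area at most `α`. -/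
def Forces (α : ℝ) (F : Set E) (n : ℕ) : Prop :=
  ∀ P : Finset E, P.card = n → (↑P : Set E) ⊆ F →
    ∃ a ∈ P, ∃ b ∈ P, ∃ c ∈ P, a ≠ b ∧ b ≠ c ∧ a ≠ c ∧ tri a b c ≤ α

/-- The function `S_α(F)`. -/
noncomputable def S (α : ℝ) (F : Set E) : ℕ := sInf {n : ℕ | 0 < n ∧ Forces α F n}

end Pool.Agent.H97.Heil
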