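import Pool.Agent.H97.Weier

set_option autoImplicit false

namespace Pool.Agent.H97.Hyper

open Filter Topology Metric Set Complex

abbrev V := EuclideanSpace ℂ (Fin 2)

def nn (k : ℕ) : ℕ := 2 ^ (k + 2)
noncomputable def e (k : ℕ) : ℝ := 1 / nn k
noncomputable def s (k : ℕ) : ℝ := √(3 / 2 * e k)
noncomputable def P (k : ℕ) : ℝ := 1 - e k / 2 + e k ^ 2
noncomputable def D (k : ℕ) (z : V) : ℂ := P k - (1 - e k : ℝ) * z 0
noncomputable def u (k : ℕ) (z : V) : ℂ := s k * z 1 / D k z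
noncomputable def pois (z : V) : ℝ := (1 - ‖z 0‖ ^ 2) / ‖1 - z 0‖ ^ 2

lemma nn_ge (k : ℕ) : (4 : ℝ) ≤ nn k := by
  have : 4 ≤ nn k := by unfold nn; rw [pow_add]; nlinarith [Nat.one_le_two_pow (n := k)]
  exact_mod_cast this

lemma e_pos (k : ℕ) : 0 < e k := by unfold e; have := nn_ge k; positivity

lemma e_le (k : ℕ) : e k ≤ 1 / 4 := one_div_le_one_div_of_le (by norm_num) (nn_ge k)

lemma e_mul (k : ℕ) : e k * nn k = 1 := by unfold e; have := nn_ge k; field_simp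

lemma s_sq (k : ℕ) : s k ^ 2 = 3 / 2 * e k := Real.sq_sqrt (by have := e_pos k; positivity)

lemma nsq (z : V) : ‖z‖ ^ 2 = ‖z 0‖ ^ 2 + ‖z 1‖ ^ 2 := by
  rw [EuclideanSpace.norm_sq_eq, Fin.sum_univ_two]

lemma ball_sq {z : V} (hz : z ∈ ball (0 : V) 1) : ‖z 0‖ ^ 2 + ‖z 1‖ ^ 2 < 1 := by
  rw [← nsq]; have : ‖z‖ < 1 := by simpa using hz
  nlinarith [norm_nonneg z]

lemma one_sub_pos {z : V} (hz : z ∈ ball (0 : V) 1) : 0 < ‖1 - z 0‖ := by
  have h := norm_sub_norm_le 1 (z 0)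
  rw [norm_one] at h
  nlinarith [ball_sq hz, norm_nonneg (z 0), sq_nonneg ‖z 1‖]

lemma D_lower (k : ℕ) {z : V} (hz : z ∈ ball (0 : V) 1) :
    3 / 8 * e k * ‖z 1‖ ^ 2 + 9 / 16 * ‖1 - z 0‖ ^ 2 ≤ ‖D k z‖ ^ 2 := by
  have h1 := ball_sq hz
  have h2 := e_pos k
  have h3 := e_le k
  rw [Complex.sq_norm (z 0), normSq_apply] at h1
  rw [Complex.sq_norm (1 - z 0), Complex.sq_norm (D k z), normSq_apply, normSq_apply]
  simp only [D, P, sub_re, ofReal_re, re_ofReal_mul, sub_im, ofReal_im, im_ofReal_mul, one_re,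
    one_im]
  set a := (z 0).re
  set b := (z 0).im
  set ε := e k
  have h4 : ‖z 1‖ ^ 2 ≤ 2 * (1 - a) := by nlinarith [sq_nonneg (1 - a)]
  have h5 : 0 ≤ 1 - a := by nlinarith [sq_nonneg ‖z 1‖]
  have h6 : 1 - ε / 2 + ε ^ 2 - (1 - ε) * a = (ε / 2 + ε ^ 2) + (1 - ε) * (1 - a) := by ring
  rw [h6]
  have h7 : 9 / 16 ≤ (1 - ε) ^ 2 := by nlinarith
  have h8 : 3 / 8 * ε ≤ (ε / 2 + ε ^ 2) * (1 - ε) := by nlinarith [sq_nonneg ε]
  nlinarith [mul_le_mul_of_nonneg_right h7 (sq_nonneg (1 - a)),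
    mul_le_mul_of_nonneg_right h7 (sq_nonneg b), mul_le_mul_of_nonneg_right h8 h5,
    mul_le_mul_of_nonneg_left h4 h2.le, sq_nonneg (ε / 2 + ε ^ 2)]

lemma D_pos (k : ℕ) {z : V} (hz : z ∈ ball (0 : V) 1) : 0 < ‖D k z‖ ^ 2 :=
  lt_of_lt_of_le (add_pos_of_nonneg_of_pos (by have := e_pos k; positivity)
    (by have := one_sub_pos hz; positivity)) (D_lower k hz)

lemma D_ne (k : ℕ) {z : V} (hz : z ∈ ball (0 : V) 1) : D k z ≠ 0 := fun h => by
  simpa [h] using D_pos k hz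

lemma u_sq (k : ℕ) (z : V) : ‖u k z‖ ^ 2 = 3 / 2 * e k * ‖z 1‖ ^ 2 / ‖D k z‖ ^ 2 := by
  rw [u, norm_div, norm_mul, div_pow, mul_pow, Complex.norm_real, Real.norm_eq_abs, sq_abs, s_sq]

lemma u_le (k : ℕ) {z : V} (hz : z ∈ ball (0 : V) 1) : ‖u k z‖ ≤ 2 := by
  have : ‖u k z‖ ^ 2 ≤ 4 := by
    rw [u_sq, div_le_iff₀ (D_pos k hz)]
    nlinarith [D_lower k hz, sq_nonneg ‖1 - z 0‖]
  nlinarith [norm_nonneg (u k z)]

lemma u_good (k : ℕ) {z : V} (hz : z ∈ ball (0 : V) 1) (h : 32 / 3 * pois z < nn k) :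
    ‖u k z‖ ≤ 1 / 2 := by
  have h0 := one_sub_pos hz
  have h1 := e_pos k
  rw [pois, ← mul_div_assoc, div_lt_iff₀ (by positivity)] at h
  have h2 := mul_lt_mul_of_pos_left h h1
  rw [← mul_assoc (e k) (nn k), e_mul] at h2
  have : ‖u k z‖ ^ 2 ≤ 1 / 4 := by
    rw [u_sq, div_le_iff₀ (D_pos k hz)]
    nlinarith [D_lower k hz, mul_lt_mul_of_pos_left (ball_sq hz) h1,
      mul_nonneg h1.le (sq_nonneg ‖z 1‖)]
  nlinarith [norm_nonneg (u k z)]

lemma pow_good (k : ℕ) {z : V} (hz : z ∈ ball (0 : V) 1) (h : 32 / 3 * pois z < nn k) :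
    ‖-u k z ^ nn k‖ ≤ (1 / 2) ^ k := by
  rw [norm_neg, norm_pow]
  refine (pow_le_pow_left₀ (norm_nonneg _) (u_good k hz h) _).trans
    (pow_le_pow_of_le_one (by norm_num) (by norm_num) ?_)
  exact (Nat.lt_two_pow_self (n := k)).le.trans (Nat.pow_le_pow_right two_pos (by omega))

lemma pois_nonneg {z : V} (hz : z ∈ ball (0 : V) 1) : 0 ≤ pois z :=
  div_nonneg (by nlinarith [ball_sq hz, sq_nonneg ‖z 1‖]) (sq_nonneg _)

lemma sum_bad {X : ℝ} (hX : 0 ≤ X) (K : ℕ) :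
    ∑ k ∈ Finset.range K, (if X < nn k then (0 : ℝ) else nn k) ≤ min (2 * X) (nn K) := by
  induction K with
  | zero => simp [hX]
  | succ K ih =>
    have h1 : (nn (K + 1) : ℝ) = 2 * nn K := by unfold nn; push_cast; ring
    have h2 := le_min_iff.mp ih
    rw [Finset.sum_range_succ, h1, le_min_iff]
    split_ifs with h <;> constructor <;> linarith [nn_ge K]

lemma prod_bd {z : V} (hz : z ∈ ball (0 : V) 1) (K : ℕ) :
    ‖∏ k ∈ Finset.range K, (1 + -u k z ^ nn k)‖ ≤ Real.exp (43 * pois z + 2) := by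
  have h1 : ∀ k, ‖1 + -u k z ^ nn k‖ ≤
      Real.exp (2 * (if 32 / 3 * pois z < nn k then (0 : ℝ) else nn k) + (1 / 2) ^ k) := by
    intro k
    refine (norm_add_le _ _).trans ?_
    rw [norm_one]
    split_ifs with h
    · linarith [pow_good k hz h, Real.add_one_le_exp (2 * 0 + (1 / 2) ^ k)]
    · have h2 : ‖-u k z ^ nn k‖ ≤ Real.exp (nn k) := by
        rw [norm_neg, norm_pow, ← Real.exp_one_pow]
        exact pow_le_pow_left₀ (norm_nonneg _)
          ((u_le k hz).trans (by linarith [Real.add_one_le_exp 1])) _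
      have h3 := Real.add_one_le_exp (nn k)
      have h4 : Real.exp (nn k) * Real.exp (nn k) ≤ Real.exp (2 * nn k + (1 / 2) ^ k) := by
        rw [← Real.exp_add]
        exact Real.exp_le_exp.mpr (by linarith [show (0 : ℝ) ≤ (1 / 2) ^ k by positivity])
      nlinarith [nn_ge k]
  rw [norm_prod]
  refine (Finset.prod_le_prod (fun _ _ => norm_nonneg _) fun k _ => h1 k).trans ?_
  rw [← Real.exp_sum, Finset.sum_add_distrib, ← Finset.mul_sum]
  have h2 := pois_nonneg hz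
  have h3 := (le_min_iff.mp (sum_bad (X := 32 / 3 * pois z) (by positivity) K)).1
  exact Real.exp_le_exp.mpr (by linarith [sum_geometric_two_le K])

lemma ev_good {X : ℝ} : ∀ᶠ k in atTop, X < nn k := by
  filter_upwards [tendsto_natCast_atTop_atTop.eventually_gt_atTop X] with k hk
  refine hk.trans_le ?_
  exact_mod_cast (Nat.lt_two_pow_self (n := k)).le.trans (Nat.pow_le_pow_right two_pos (by omega))

lemma ddiv {a b : V → ℂ} {U : Set V} (ha : Differentiable ℂ a) (hb : Differentiable ℂ b)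
    (h : ∀ z ∈ U, b z ≠ 0) : DifferentiableOn ℂ (fun z => a z / b z) U := by
  simp only [div_eq_mul_inv]
  exact ha.differentiableOn.mul (hb.differentiableOn.inv h)

lemma u_diff (k : ℕ) : DifferentiableOn ℂ (u k) (ball 0 1) :=
  ddiv (by fun_prop) (by unfold D; fun_prop) fun z hz => D_ne k hz

lemma unif {ρ : ℝ} (hρ : ρ < 1) : TendstoUniformlyOn
    (fun K z => ∏ k ∈ Finset.range K, (1 + -u k z ^ nn k)) (fun z => ∏' k, (1 + -u k z ^ nn k))
    atTop (closedBall 0 ρ) := by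
  have hs : closedBall (0 : V) ρ ⊆ ball 0 1 := closedBall_subset_ball hρ
  refine (summable_geometric_two.hasProdUniformlyOn_nat_one_add (isCompact_closedBall 0 ρ) ?_
    fun k => (((u_diff k).continuousOn.mono hs).pow _).neg).tendstoUniformlyOn_finsetRange
  filter_upwards [ev_good (X := 32 / 3 * (1 / (1 - ρ) ^ 2))] with k hk z hz
  refine pow_good k (hs hz) (lt_of_le_of_lt ?_ hk)
  have h1 : ‖z 0‖ ≤ ρ := (PiLp.norm_apply_le z 0).trans (by simpa using hz)
  have h2 := norm_sub_norm_le 1 (z 0)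
  rw [norm_one] at h2
  unfold pois
  gcongr
  · linarith [sq_nonneg ‖z 0‖]
  · linarith

noncomputable def f (z : V) : ℂ :=
  exp (-43 * ((1 + z 0) / (1 - z 0))) * ∏' k, (1 + -u k z ^ nn k)

lemma f_diff : DifferentiableOn ℂ f (ball 0 1) := by
  refine DifferentiableOn.mul (DifferentiableOn.cexp (DifferentiableOn.const_mul
    (ddiv (by fun_prop) (by fun_prop)
      fun z hz => norm_pos_iff.mp (one_sub_pos hz)) _)) fun z hz => ?_
  have hz' : ‖z‖ < 1 := by simpa using hz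
  have h1 : ball z ((1 - ‖z‖) / 2) ⊆ closedBall 0 ((1 + ‖z‖) / 2) :=
    ball_subset_closedBall.trans (closedBall_subset_closedBall' (by simp; linarith))
  refine (SCV.differentiableAt_of_tendstoUniformlyOn (R := (1 - ‖z‖) / 2) (by linarith)
    (fun K => ?_) ((unif (by linarith)).mono h1)).differentiableWithinAt
  have h2 : ball z ((1 - ‖z‖) / 2) ⊆ ball 0 1 := h1.trans (closedBall_subset_ball (by linarith))
  induction K with
  | zero => simp
  | succ K ih =>
    simp only [Finset.prod_range_succ]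
    exact ih.mul ((((u_diff K).mono h2).fun_pow _).fun_neg.const_add _)

lemma f_bd {z : V} (hz : z ∈ ball (0 : V) 1) : ‖f z‖ ≤ Real.exp 2 := by
  have hz' : ‖z‖ < 1 := by simpa using hz
  have h1 : ‖∏' k, (1 + -u k z ^ nn k)‖ ≤ Real.exp (43 * pois z + 2) :=
    le_of_tendsto' ((unif hz').tendsto_at (by simp)).norm (prod_bd hz)
  have h2 : ((1 + z 0) / (1 - z 0)).re = pois z := by
    rw [pois, Complex.sq_norm, Complex.sq_norm, div_re, ← add_div, normSq_apply (z 0)]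
    simp
    ring
  have h3 : (-43 * ((1 + z 0) / (1 - z 0))).re = -43 * pois z := by rw [← h2]; simp
  rw [f, norm_mul, Complex.norm_exp, h3]
  refine (mul_le_mul_of_nonneg_left h1 (Real.exp_pos _).le).trans (le_of_eq ?_)
  rw [← Real.exp_add]; congr 1; ring

lemma f_zero {z : V} (hz : z ∈ ball (0 : V) 1) : f z = 0 ↔ ∃ k, u k z ^ nn k = 1 := by
  have hs : Summable fun k => ‖-u k z ^ nn k‖ :=
    Summable.of_norm_bounded_eventually_nat summable_geometric_two
      (ev_good.mono fun k hk => by rw [norm_norm]; exact pow_good k hz hk)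
  rw [f, mul_eq_zero, or_iff_right (exp_ne_zero _)]
  constructor
  · intro h
    by_contra! h1
    exact tprod_one_add_ne_zero_of_summable (fun k h2 => h1 k (by linear_combination -h2)) hs h
  · rintro ⟨k, hk⟩
    exact tprod_of_exists_eq_zero ⟨k, by rw [hk]; ring⟩

noncomputable def pt (k : ℕ) (ω : ℂ) : V := !₂[((1 - e k : ℝ) : ℂ), s k * ω]

def A : Set V := {a | ∃ k ω, ω ^ nn k = 1 ∧ a = pt k ω}

lemma nn_ne (k : ℕ) : nn k ≠ 0 := by unfold nn; positivity

lemma pt_sq {k : ℕ} {ω : ℂ} (h : ω ^ nn k = 1) : ‖pt k ω‖ ^ 2 = P k := by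
  have h1 := norm_eq_one_of_pow_eq_one h (nn_ne k)
  rw [nsq]
  simp only [pt, Matrix.cons_val_zero, Matrix.cons_val_one, norm_mul, h1, Complex.norm_real,
    Real.norm_eq_abs, mul_one, sq_abs, s_sq, P]
  ring

lemma A_count : A.Countable := by
  have : A = ⋃ k, pt k '' {ω | ω ^ nn k = 1} := by ext a; simp [A, eq_comm]
  rw [this]
  refine countable_iUnion fun k => Countable.image (Finite.countable ?_) _
  refine (Polynomial.nthRoots (nn k) (1 : ℂ)).toFinset.finite_toSet.subset fun ω h => ?_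
  simpa [Polynomial.mem_nthRoots (Nat.pos_of_ne_zero (nn_ne k))] using h

lemma inner_pt {k : ℕ} {ω : ℂ} (h : ω ^ nn k = 1) {z : V} (hz : z ∈ ball (0 : V) 1) :
    inner ℂ (pt k ω) z = ((‖pt k ω‖ ^ 2 : ℝ) : ℂ) ↔ u k z = ω := by
  have h1 : (starRingEnd ℂ) ω * ω = 1 := by
    rw [conj_mul', norm_eq_one_of_pow_eq_one h (nn_ne k)]; simp
  rw [pt_sq h, PiLp.inner_apply, Fin.sum_univ_two, u, div_eq_iff (D_ne k hz), D]
  simp only [pt, Matrix.cons_val_zero, Matrix.cons_val_one, RCLike.inner_apply, map_mul,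
    conj_ofReal]
  constructor
  · intro h2; linear_combination ω * h2 - s k * z 1 * h1
  · intro h2; linear_combination (starRingEnd ℂ) ω * h2 + (P k - (1 - e k : ℝ) * z 0) * h1

lemma not_summable : ¬ Summable fun a : A => 1 - ‖(a : V)‖ ^ 2 := by
  intro h
  have hp := fun k => Complex.isPrimitiveRoot_exp (nn k) (nn_ne k)
  have hω : ∀ k j, (exp (2 * Real.pi * I / nn k) ^ j) ^ nn k = 1 := fun k j => by
    rw [← pow_mul, mul_comm j, pow_mul, (hp k).pow_eq_one, one_pow]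
  let ι : (Σ k : ℕ, Fin (nn k)) → A := fun p =>
    ⟨pt p.1 (exp (2 * Real.pi * I / nn p.1) ^ (p.2 : ℕ)), _, _, hω _ _, rfl⟩
  have hι : Function.Injective ι := by
    rintro ⟨k, i⟩ ⟨l, j⟩ h
    have h0 := congrArg (fun a : A => (a : V) 0) h
    have h1 := congrArg (fun a : A => (a : V) 1) h
    simp only [ι, pt, Matrix.cons_val_zero, Matrix.cons_val_one, ofReal_inj, sub_right_inj, e,
      one_div, inv_inj, Nat.cast_inj] at h0 h1
    obtain rfl : k = l := by simpa [nn] using h0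
    have h2 : (s k : ℂ) ≠ 0 := by
      have : s k ≠ 0 := fun h => by have := s_sq k; rw [h] at this; linarith [e_pos k]
      exact_mod_cast this
    rw [Fin.ext ((hp k).pow_inj i.2 j.2 (mul_left_cancel₀ h2 h1))]
  have h1 : (fun a : A => 1 - ‖(a : V)‖ ^ 2) ∘ ι = fun p => 1 - P p.1 :=
    funext fun p => by simp only [Function.comp, ι, pt_sq (hω _ _)]
  have h2 := (h1 ▸ h.comp_injective hι).sigma.tendsto_atTop_zero
  obtain ⟨k, hk⟩ := (h2.eventually (gt_mem_nhds (show (0 : ℝ) < 1 / 4 by norm_num))).exists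
  simp only [tsum_fintype, Finset.sum_const, Finset.card_univ, Fintype.card_fin, nsmul_eq_mul,
    P] at hk
  have h3 : (nn k : ℝ) * (1 - (1 - e k / 2 + e k ^ 2)) = e k * nn k * (1 / 2 - e k) := by ring
  rw [h3, e_mul] at hk
  linarith [e_le k]

end Pool.Agent.H97.Hyper
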