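import Pool.Agent.H97.IcDefs

namespace Pool.Agent.H97.Ic

open Matrix Polynomial
open scoped Kronecker ComplexOrder

variable {B B₁ B₂ : Type} [Fintype B] [DecidableEq B]
  [Fintype B₁] [DecidableEq B₁] [Fintype B₂] [DecidableEq B₂]

lemma co (f : ℝ → ℝ) (M : Matrix B B ℂ) : ContinuousOn f (spectrum ℝ M) :=
  (Matrix.finite_real_spectrum).continuousOn f

lemma cfc_hom {ι : Type} [Fintype ι] (φ : (ι → ℝ) →ₐ[ℝ] Matrix B B ℂ) (d : ι → ℝ)
    (h : IsSelfAdjoint (φ d)) (f : ℝ → ℝ) : cfc f (φ d) = φ (fun i => f (d i)) := by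
  classical
  set p : ℝ[X] := Lagrange.interpolate (Finset.univ.image d) id f
  have hp : ∀ i, p.eval (d i) = f (d i) := fun i =>
    Lagrange.eval_interpolate_at_node (v := id) f (Set.injOn_id _)
      (Finset.mem_image_of_mem d (Finset.mem_univ i))
  have hs : spectrum ℝ (φ d) ⊆ Set.range d := by
    refine (AlgHom.spectrum_apply_subset φ d).trans ?_
    rw [Pi.spectrum_eq]
    intro x hx
    simp only [Set.mem_iUnion, spectrum.of_subsingleton, spectrum.scalar_eq] at hx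
    obtain ⟨i, hi⟩ := hx
    have := spectrum.scalar_eq (𝕜 := ℝ) (A := ℝ) (d i)
    simp only [Algebra.algebraMap_self, RingHom.id_apply] at this
    rw [this] at hi
    exact ⟨i, hi.symm⟩
  rw [cfc_congr (g := fun x => p.eval x) (fun x hx => by
    obtain ⟨i, rfl⟩ := hs hx
    exact (hp i).symm), cfc_polynomial p _ h, aeval_algHom_apply]
  congr 1
  funext i
  rw [← hp i]
  have := aeval_algHom_apply (Pi.evalAlgHom ℝ (fun _ : ι => ℝ) i) d p
  simp only [Pi.evalAlgHom_apply, coe_aeval_eq_eval] at this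
  exact this.symm

noncomputable def dg (U : unitary (Matrix B B ℂ)) : (B → ℝ) →ₐ[ℝ] Matrix B B ℂ :=
  ((Unitary.conjStarAlgAut ℝ _ U).toAlgEquiv : Matrix B B ℂ →ₐ[ℝ] Matrix B B ℂ).comp
    ((Matrix.diagonalAlgHom ℝ).comp
      (AlgHom.pi fun i => Complex.ofRealAm.comp (Pi.evalAlgHom ℝ (fun _ : B => ℝ) i)))

lemma dg_apply (U : unitary (Matrix B B ℂ)) (d : B → ℝ) :
    dg U d = (U : Matrix B B ℂ) * diagonal (fun i => (d i : ℂ)) * (U : Matrix B B ℂ)ᴴ := rfl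

lemma mp_kron {M : Matrix B₁ B₁ ℂ} {N : Matrix B₂ B₂ ℂ} (hM : M.PosSemidef) (hN : N.PosSemidef)
    (t : ℝ) : mp (M ⊗ₖ N) t = mp M t ⊗ₖ mp N t := by
  set U := hM.1.eigenvectorUnitary
  set V := hN.1.eigenvectorUnitary
  have e1 : M = dg U hM.1.eigenvalues := hM.1.spectral_theorem
  have e2 : N = dg V hN.1.eigenvalues := hN.1.spectral_theorem
  let W : unitary (Matrix (B₁ × B₂) (B₁ × B₂) ℂ) :=
    ⟨(U : Matrix B₁ B₁ ℂ) ⊗ₖ (V : Matrix B₂ B₂ ℂ), kronecker_mem_unitary U.2 V.2⟩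
  have key : ∀ (d : B₁ → ℝ) (e : B₂ → ℝ), dg U d ⊗ₖ dg V e = dg W fun p => d p.1 * e p.2 := by
    intro d e
    simp only [dg_apply, W, mul_kronecker_mul, conjTranspose_kronecker, diagonal_kronecker_diagonal,
      Complex.ofReal_mul]
  have h3 : IsSelfAdjoint (M ⊗ₖ N) := (hM.kronecker hN).1
  have h1 : IsSelfAdjoint M := hM.1
  have h2 : IsSelfAdjoint N := hN.1
  unfold mp
  rw [e1] at h1
  rw [e2] at h2
  rw [e1, e2, key] at h3
  conv_lhs => rw [e1, e2, key, cfc_hom _ _ h3]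
  conv_rhs => rw [e1, e2, cfc_hom _ _ h1, cfc_hom _ _ h2, key]
  congr 1
  funext p
  exact Real.mul_rpow (hM.eigenvalues_nonneg _) (hN.eigenvalues_nonneg _)

lemma mp_herm (M : Matrix B B ℂ) (t : ℝ) : (mp M t)ᴴ = mp M t :=
  (cfc_predicate (fun x : ℝ => x ^ t) M : IsSelfAdjoint _)

lemma mp_nat (M : Matrix B B ℂ) (h : M.IsHermitian) (n : ℕ) : mp M n = M ^ n := by
  have h' : IsSelfAdjoint M := h
  unfold mp
  simp only [Real.rpow_natCast]
  exact cfc_pow_id M n h'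

lemma sand_pow (M : Matrix B B ℂ) (h : M.PosSemidef) (n : ℕ) (hn : 0 < n) :
    (mp M ((1 - n) / (2 * n)) * M * mp M ((1 - n) / (2 * n))) ^ n = M := by
  have h' : IsSelfAdjoint M := h.1
  have hs := (posSemidef_iff_isHermitian_and_spectrum_nonneg.mp h).2
  have hn' : (n : ℝ) ≠ 0 := by positivity
  unfold mp
  have e : cfc (fun x : ℝ => x ^ (((1 : ℝ) - n) / (2 * n))) M * M *
      cfc (fun x : ℝ => x ^ (((1 : ℝ) - n) / (2 * n))) M =
      cfc (fun x : ℝ => x ^ (((1 : ℝ) - n) / (2 * n)) * x * x ^ (((1 : ℝ) - n) / (2 * n))) M := by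
    rw [cfc_mul _ _ _ (co _ _) (co _ _), cfc_mul _ _ _ (co _ _) (co _ _), cfc_id' ℝ M]
  rw [e, ← cfc_pow _ _ _ (co _ _), cfc_congr (g := fun x => x) ?_, cfc_id' ℝ M]
  intro x hx
  have hx0 : 0 ≤ x := by simpa using hs hx
  rcases hx0.eq_or_lt with rfl | hx1
  · simp [hn.ne']
  · simp only
    nth_rewrite 2 [← Real.rpow_one x]
    rw [← Real.rpow_add hx1, ← Real.rpow_add hx1, ← Real.rpow_natCast, ← Real.rpow_mul hx0]
    rw [show (((1 : ℝ) - n) / (2 * n) + 1 + (1 - n) / (2 * n)) * n = 1 by field_simp; ring,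
      Real.rpow_one]

lemma tr_mul_nonneg {P Q : Matrix B B ℂ} (hP : P.PosSemidef) (hQ : Q.PosSemidef) :
    0 ≤ (P * Q).trace := by
  have h' : IsSelfAdjoint Q := hQ.1
  have hs := (posSemidef_iff_isHermitian_and_spectrum_nonneg.mp hQ).2
  set R := cfc Real.sqrt Q with hR
  have hR1 : Rᴴ = R := (cfc_predicate Real.sqrt Q : IsSelfAdjoint _)
  have hR2 : R * R = Q := by
    rw [hR, ← cfc_mul _ _ _ (co _ _) (co _ _), cfc_congr (g := fun x => x) ?_, cfc_id' ℝ Q]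
    intro x hx
    exact Real.mul_self_sqrt (by simpa using hs hx)
  have := (hP.mul_mul_conjTranspose_same R).trace_nonneg
  rwa [hR1, Matrix.mul_assoc, trace_mul_comm, Matrix.mul_assoc, hR2] at this

lemma blk_pow (M : Fin 2 → Matrix B B ℂ) (n : ℕ) :
    (∑ x, single x x (1 : ℂ) ⊗ₖ M x) ^ (n + 1) = ∑ x, single x x (1 : ℂ) ⊗ₖ (M x ^ (n + 1)) := by
  induction n with
  | zero => simp
  | succ n ih =>
    rw [pow_succ, ih]
    simp only [Fin.sum_univ_two, add_mul, mul_add, ← mul_kronecker_mul, single_mul_single_same,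
      single_mul_single_of_ne _ _ _ _ (show (0 : Fin 2) ≠ 1 by decide),
      single_mul_single_of_ne _ _ _ _ (show (1 : Fin 2) ≠ 0 by decide), zero_kronecker, mul_one,
      add_zero, zero_add, ← pow_succ]

lemma ptr_cq (σ : Fin 2 → Matrix B B ℂ) : ptr (cq σ) = (1 / 2 : ℂ) • (σ 0 + σ 1) := by
  ext i j
  simp [ptr, cq, Fin.sum_univ_two, single_apply]
  ring

lemma Qs_cq (σ : Fin 2 → Matrix B B ℂ) (h : ∀ x, (σ x).IsHermitian) (n : ℕ) (G : Matrix B B ℂ)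
    (hG : G = mp ((1 / 2 : ℂ) • (σ 0 + σ 1)) ((1 - ((n + 1 : ℕ) : ℝ)) / (2 * ((n + 1 : ℕ) : ℝ)))) :
    Qs ((n + 1 : ℕ) : ℝ) (cq σ) =
      (((G * σ 0 * G) ^ (n + 1)).trace + ((G * σ 1 * G) ^ (n + 1)).trace).re / 2 ^ (n + 1) := by
  have hGh : Gᴴ = G := hG ▸ mp_herm _ _
  unfold Qs
  rw [ptr_cq, ← hG]
  have e : ((1 : Matrix (Fin 2) (Fin 2) ℂ) ⊗ₖ G) * cq σ * ((1 : Matrix (Fin 2) (Fin 2) ℂ) ⊗ₖ G) =
      ∑ x, single x x (1 : ℂ) ⊗ₖ ((1 / 2 : ℂ) • (G * σ x * G)) := by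
    simp only [cq, Fin.sum_univ_two, add_mul, mul_add, Matrix.mul_smul, Matrix.smul_mul,
      ← mul_kronecker_mul, one_mul, mul_one, kronecker_smul]
  have hh : (∑ x, single x x (1 : ℂ) ⊗ₖ ((1 / 2 : ℂ) • (G * σ x * G))).IsHermitian := by
    unfold IsHermitian
    simp only [Fin.sum_univ_two, conjTranspose_add, conjTranspose_kronecker, conjTranspose_single,
      conjTranspose_smul, conjTranspose_mul, hGh, (h 0).eq, (h 1).eq, Matrix.mul_assoc, star_one]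
    simp
  rw [e, mp_nat _ hh, blk_pow]
  simp only [Fin.sum_univ_two, trace_add, trace_kronecker, trace_single_eq_same, one_mul,
    _root_.smul_pow, trace_smul, smul_eq_mul]
  rw [← mul_add, show ((1 / 2 : ℂ)) ^ (n + 1) = (((1 / 2 : ℝ) ^ (n + 1) : ℝ) : ℂ) by push_cast; rfl,
    Complex.re_ofReal_mul]
  rw [one_div, inv_pow]
  ring

lemma tau_eq (σ : Fin 2 → Matrix B₁ B₁ ℂ) (σ' : Fin 2 → Matrix B₂ B₂ ℂ) :
    tau σ σ' = cq ![(1 / 2 : ℂ) • (σ 0 ⊗ₖ σ' 0 + σ 1 ⊗ₖ σ' 1),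
      (1 / 2 : ℂ) • (σ 0 ⊗ₖ σ' 1 + σ 1 ⊗ₖ σ' 0)] := by
  simp only [tau, cq, Fin.sum_univ_two, Matrix.cons_val_zero, Matrix.cons_val_one,
    kronecker_smul, kronecker_add, smul_add, smul_smul,
    show (0 : Fin 2) + 0 = 0 from rfl, show (0 : Fin 2) + 1 = 1 from rfl,
    show (1 : Fin 2) + 0 = 1 from rfl, show (1 : Fin 2) + 1 = 0 from rfl]
  norm_num
  abel

end Pool.Agent.H97.Ic
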