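import Pool.Agent.H97.Ic1

namespace Pool.Agent.H97.Ic

open Matrix
open scoped Kronecker ComplexOrder

variable {B B₁ B₂ : Type} [Fintype B] [DecidableEq B]
  [Fintype B₁] [DecidableEq B₁] [Fintype B₂] [DecidableEq B₂]

section
omit [DecidableEq B]

lemma cADA (A D : Matrix B B ℂ) : (A * (D * A)).trace = (A * (A * D)).trace := by
  simpa only [Matrix.mul_assoc] using trace_mul_comm (A * D) A

lemma cDAA (A D : Matrix B B ℂ) : (D * (A * A)).trace = (A * (A * D)).trace := by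
  simpa only [Matrix.mul_assoc] using trace_mul_comm D (A * A)

lemma cDAD (A D : Matrix B B ℂ) : (D * (A * D)).trace = (A * (D * D)).trace := by
  simpa only [Matrix.mul_assoc] using trace_mul_comm D (A * D)

lemma cDDA (A D : Matrix B B ℂ) : (D * (D * A)).trace = (A * (D * D)).trace := by
  simpa only [Matrix.mul_assoc] using trace_mul_comm (D * D) A

lemma cAADA (A D : Matrix B B ℂ) : (A * (A * (D * A))).trace = (A * (A * (A * D))).trace := by
  simpa only [Matrix.mul_assoc] using trace_mul_comm (A * (A * D)) A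

lemma cADAA (A D : Matrix B B ℂ) : (A * (D * (A * A))).trace = (A * (A * (A * D))).trace := by
  simpa only [Matrix.mul_assoc] using trace_mul_comm (A * D) (A * A)

lemma cADDA (A D : Matrix B B ℂ) : (A * (D * (D * A))).trace = (A * (A * (D * D))).trace := by
  simpa only [Matrix.mul_assoc] using trace_mul_comm (A * (D * D)) A

lemma cDAAA (A D : Matrix B B ℂ) : (D * (A * (A * A))).trace = (A * (A * (A * D))).trace := by
  simpa only [Matrix.mul_assoc] using trace_mul_comm D (A * (A * A))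

lemma cDAAD (A D : Matrix B B ℂ) : (D * (A * (A * D))).trace = (A * (A * (D * D))).trace := by
  simpa only [Matrix.mul_assoc] using trace_mul_comm D (A * (A * D))

lemma cDADA (A D : Matrix B B ℂ) : (D * (A * (D * A))).trace = (A * (D * (A * D))).trace := by
  simpa only [Matrix.mul_assoc] using trace_mul_comm D (A * (D * A))

lemma cDADD (A D : Matrix B B ℂ) : (D * (A * (D * D))).trace = (A * (D * (D * D))).trace := by
  simpa only [Matrix.mul_assoc] using trace_mul_comm D (A * (D * D))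

lemma cDDAA (A D : Matrix B B ℂ) : (D * (D * (A * A))).trace = (A * (A * (D * D))).trace := by
  simpa only [Matrix.mul_assoc] using trace_mul_comm (D * D) (A * A)

lemma cDDAD (A D : Matrix B B ℂ) : (D * (D * (A * D))).trace = (A * (D * (D * D))).trace := by
  simpa only [Matrix.mul_assoc] using trace_mul_comm (D * D) (A * D)

lemma cDDDA (A D : Matrix B B ℂ) : (D * (D * (D * A))).trace = (A * (D * (D * D))).trace := by
  simpa only [Matrix.mul_assoc] using trace_mul_comm (D * (D * D)) A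

lemma cAAADA (A D : Matrix B B ℂ) : (A * (A * (A * (D * A)))).trace = (A * (A * (A * (A * D)))).trace := by
  simpa only [Matrix.mul_assoc] using trace_mul_comm (A * (A * (A * D))) A

lemma cAADAA (A D : Matrix B B ℂ) : (A * (A * (D * (A * A)))).trace = (A * (A * (A * (A * D)))).trace := by
  simpa only [Matrix.mul_assoc] using trace_mul_comm (A * (A * D)) (A * A)

lemma cAADDA (A D : Matrix B B ℂ) : (A * (A * (D * (D * A)))).trace = (A * (A * (A * (D * D)))).trace := by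
  simpa only [Matrix.mul_assoc] using trace_mul_comm (A * (A * (D * D))) A

lemma cADAAA (A D : Matrix B B ℂ) : (A * (D * (A * (A * A)))).trace = (A * (A * (A * (A * D)))).trace := by
  simpa only [Matrix.mul_assoc] using trace_mul_comm (A * D) (A * (A * A))

lemma cADAAD (A D : Matrix B B ℂ) : (A * (D * (A * (A * D)))).trace = (A * (A * (D * (A * D)))).trace := by
  simpa only [Matrix.mul_assoc] using trace_mul_comm (A * D) (A * (A * D))

lemma cADADA (A D : Matrix B B ℂ) : (A * (D * (A * (D * A)))).trace = (A * (A * (D * (A * D)))).trace := by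
  simpa only [Matrix.mul_assoc] using trace_mul_comm (A * (D * (A * D))) A

lemma cADDAA (A D : Matrix B B ℂ) : (A * (D * (D * (A * A)))).trace = (A * (A * (A * (D * D)))).trace := by
  simpa only [Matrix.mul_assoc] using trace_mul_comm (A * (D * D)) (A * A)

lemma cADDAD (A D : Matrix B B ℂ) : (A * (D * (D * (A * D)))).trace = (A * (D * (A * (D * D)))).trace := by
  simpa only [Matrix.mul_assoc] using trace_mul_comm (A * (D * D)) (A * D)

lemma cADDDA (A D : Matrix B B ℂ) : (A * (D * (D * (D * A)))).trace = (A * (A * (D * (D * D)))).trace := by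
  simpa only [Matrix.mul_assoc] using trace_mul_comm (A * (D * (D * D))) A

lemma cDAAAA (A D : Matrix B B ℂ) : (D * (A * (A * (A * A)))).trace = (A * (A * (A * (A * D)))).trace := by
  simpa only [Matrix.mul_assoc] using trace_mul_comm D (A * (A * (A * A)))

lemma cDAAAD (A D : Matrix B B ℂ) : (D * (A * (A * (A * D)))).trace = (A * (A * (A * (D * D)))).trace := by
  simpa only [Matrix.mul_assoc] using trace_mul_comm D (A * (A * (A * D)))

lemma cDAADA (A D : Matrix B B ℂ) : (D * (A * (A * (D * A)))).trace = (A * (A * (D * (A * D)))).trace := by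
  simpa only [Matrix.mul_assoc] using trace_mul_comm D (A * (A * (D * A)))

lemma cDAADD (A D : Matrix B B ℂ) : (D * (A * (A * (D * D)))).trace = (A * (A * (D * (D * D)))).trace := by
  simpa only [Matrix.mul_assoc] using trace_mul_comm D (A * (A * (D * D)))

lemma cDADAA (A D : Matrix B B ℂ) : (D * (A * (D * (A * A)))).trace = (A * (A * (D * (A * D)))).trace := by
  simpa only [Matrix.mul_assoc] using trace_mul_comm (D * (A * D)) (A * A)

lemma cDADAD (A D : Matrix B B ℂ) : (D * (A * (D * (A * D)))).trace = (A * (D * (A * (D * D)))).trace := by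
  simpa only [Matrix.mul_assoc] using trace_mul_comm D (A * (D * (A * D)))

lemma cDADDA (A D : Matrix B B ℂ) : (D * (A * (D * (D * A)))).trace = (A * (D * (A * (D * D)))).trace := by
  simpa only [Matrix.mul_assoc] using trace_mul_comm (D * (A * (D * D))) A

lemma cDADDD (A D : Matrix B B ℂ) : (D * (A * (D * (D * D)))).trace = (A * (D * (D * (D * D)))).trace := by
  simpa only [Matrix.mul_assoc] using trace_mul_comm D (A * (D * (D * D)))

lemma cDDAAA (A D : Matrix B B ℂ) : (D * (D * (A * (A * A)))).trace = (A * (A * (A * (D * D)))).trace := by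
  simpa only [Matrix.mul_assoc] using trace_mul_comm (D * D) (A * (A * A))

lemma cDDAAD (A D : Matrix B B ℂ) : (D * (D * (A * (A * D)))).trace = (A * (A * (D * (D * D)))).trace := by
  simpa only [Matrix.mul_assoc] using trace_mul_comm (D * D) (A * (A * D))

lemma cDDADA (A D : Matrix B B ℂ) : (D * (D * (A * (D * A)))).trace = (A * (D * (A * (D * D)))).trace := by
  simpa only [Matrix.mul_assoc] using trace_mul_comm (D * D) (A * (D * A))

lemma cDDADD (A D : Matrix B B ℂ) : (D * (D * (A * (D * D)))).trace = (A * (D * (D * (D * D)))).trace := by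
  simpa only [Matrix.mul_assoc] using trace_mul_comm (D * D) (A * (D * D))

lemma cDDDAA (A D : Matrix B B ℂ) : (D * (D * (D * (A * A)))).trace = (A * (A * (D * (D * D)))).trace := by
  simpa only [Matrix.mul_assoc] using trace_mul_comm (D * (D * D)) (A * A)

lemma cDDDAD (A D : Matrix B B ℂ) : (D * (D * (D * (A * D)))).trace = (A * (D * (D * (D * D)))).trace := by
  simpa only [Matrix.mul_assoc] using trace_mul_comm (D * (D * D)) (A * D)

lemma cDDDDA (A D : Matrix B B ℂ) : (D * (D * (D * (D * A)))).trace = (A * (D * (D * (D * D)))).trace := by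
  simpa only [Matrix.mul_assoc] using trace_mul_comm (D * (D * (D * D))) A

end

noncomputable def EE (n : ℕ) (A D : Matrix B B ℂ) : ℂ := ((A + D) ^ n).trace + ((A - D) ^ n).trace

lemma EE3 (A D : Matrix B B ℂ) : EE 3 A D = 2 * (A ^ 3).trace + 6 * (A * (D * D)).trace := by
  unfold EE
  simp only [pow_succ, pow_zero, one_mul, mul_add, add_mul, mul_sub, sub_mul, trace_add, trace_sub,
    Matrix.mul_assoc,
    cADA A D, cDAA A D, cDAD A D, cDDA A D]
  ring

lemma EE4 (A D : Matrix B B ℂ) : EE 4 A D = 2 * (A ^ 4).trace + 8 * (A * (A * (D * D))).trace +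
    4 * (A * (D * (A * D))).trace + 2 * (D * (D * (D * D))).trace := by
  unfold EE
  simp only [pow_succ, pow_zero, one_mul, mul_add, add_mul, mul_sub, sub_mul, trace_add, trace_sub,
    Matrix.mul_assoc,
    cAADA A D, cADAA A D, cADDA A D, cDAAA A D, cDAAD A D, cDADA A D,
    cDADD A D, cDDAA A D, cDDAD A D, cDDDA A D]
  ring

lemma EE5 (A D : Matrix B B ℂ) : EE 5 A D = 2 * (A ^ 5).trace + 10 * (A * (A * (A * (D * D)))).trace +
    10 * (A * (A * (D * (A * D)))).trace + 10 * (A * (D * (D * (D * D)))).trace := by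
  unfold EE
  simp only [pow_succ, pow_zero, one_mul, mul_add, add_mul, mul_sub, sub_mul, trace_add, trace_sub,
    Matrix.mul_assoc,
    cAAADA A D, cAADAA A D, cAADDA A D, cADAAA A D, cADAAD A D, cADADA A D,
    cADDAA A D, cADDAD A D, cADDDA A D, cDAAAA A D, cDAAAD A D, cDAADA A D,
    cDAADD A D, cDADAA A D, cDADAD A D, cDADDA A D, cDADDD A D, cDDAAA A D,
    cDDAAD A D, cDDADA A D, cDDADD A D, cDDDAA A D, cDDDAD A D, cDDDDA A D]
  ring

structure Good (n : ℕ) (A D : Matrix B B ℂ) : Prop where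
  hA : Aᴴ = A
  hD : Dᴴ = D
  p : (A + D).PosSemidef
  q : (A - D).PosSemidef
  t : (A ^ n).trace = 1

lemma Good.psd {n : ℕ} {A D : Matrix B B ℂ} (h : Good n A D) : A.PosSemidef := by
  have h1 := (h.p.add h.q).smul (a := (1 / 2 : ℂ)) (by
    rw [show (1 / 2 : ℂ) = ((1 / 2 : ℝ) : ℂ) by push_cast; rfl]
    exact_mod_cast (by norm_num : (0 : ℝ) ≤ 1 / 2))
  have e : (1 / 2 : ℂ) • (A + D + (A - D)) = A := by
    ext i j
    simp only [Matrix.smul_apply, Matrix.add_apply, Matrix.sub_apply, smul_eq_mul]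
    ring
  rwa [e] at h1

lemma real_of {z : ℂ} (h : 0 ≤ z) : ∃ r : ℝ, 0 ≤ r ∧ z = r :=
  ⟨z.re, (Complex.nonneg_iff.mp h).1, Complex.ext (by simp) (by simp [(Complex.nonneg_iff.mp h).2])⟩

lemma good3 {A D : Matrix B B ℂ} (h : Good 3 A D) :
    ∃ s : ℝ, 0 ≤ s ∧ s ≤ 1 ∧ (A * (D * D)).trace = s := by
  obtain ⟨s, hs, e⟩ := real_of (h.psd.mul_mul_conjTranspose_same D).trace_nonneg
  obtain ⟨r, hr, e'⟩ := real_of (add_nonneg (h.q.mul_mul_conjTranspose_same (A + D)).trace_nonneg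
    (h.p.mul_mul_conjTranspose_same (A - D)).trace_nonneg)
  have ht := h.t
  rw [h.hD] at e
  rw [h.p.1.eq, h.q.1.eq] at e'
  simp only [pow_succ, pow_zero, one_mul, mul_add, add_mul, mul_sub, sub_mul, trace_add, trace_sub,
    Matrix.mul_assoc,
    cADA A D, cDAA A D, cDAD A D, cDDA A D] at e e' ht
  refine ⟨s, hs, ?_, e⟩
  have : ((2 - 2 * s : ℝ) : ℂ) = r := by
    push_cast
    linear_combination e' - 2 * ht + 2 * e
  have := Complex.ofReal_injective this
  linarith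

lemma good4 {A D : Matrix B B ℂ} (h : Good 4 A D) :
    ∃ a b c : ℝ, 0 ≤ c ∧ c ≤ b ∧ b ≤ a ∧ (A * (A * (D * D))).trace = a ∧ (A * (D * (A * D))).trace = b ∧
      (D * (D * (D * D))).trace = c := by
  obtain ⟨c, hc, e1⟩ := real_of (posSemidef_conjTranspose_mul_self (D * D)).trace_nonneg
  obtain ⟨r, hr, e2⟩ := real_of (tr_mul_nonneg h.p (h.q.mul_mul_conjTranspose_same D))
  obtain ⟨u, hu, e3⟩ := real_of (posSemidef_conjTranspose_mul_self (A * D - D * A)).trace_nonneg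
  simp only [conjTranspose_mul, conjTranspose_sub, h.hA, h.hD] at e1 e2 e3
  simp only [pow_succ, pow_zero, one_mul, mul_add, add_mul, mul_sub, sub_mul, trace_add, trace_sub,
    Matrix.mul_assoc,
    cAADA A D, cADAA A D, cADDA A D, cDAAA A D, cDAAD A D, cDADA A D,
    cDADD A D, cDDAA A D, cDDAD A D, cDDDA A D] at e1 e2 e3
  refine ⟨c + r + u / 2, c + r, c, hc, by linarith, by linarith, ?_, ?_, e1⟩
  · push_cast
    linear_combination e1 + e2 + e3 / 2
  · push_cast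
    linear_combination e1 + e2

lemma good5 {A D : Matrix B B ℂ} (h : Good 5 A D) :
    ∃ a b c : ℝ, 0 ≤ c ∧ c ≤ b ∧ b ≤ a ∧ (A * (A * (A * (D * D)))).trace = a ∧ (A * (A * (D * (A * D)))).trace = b ∧
      (A * (D * (D * (D * D)))).trace = c := by
  obtain ⟨c, hc, e1⟩ := real_of (h.psd.mul_mul_conjTranspose_same (D * D)).trace_nonneg
  obtain ⟨r, hr, e2⟩ := real_of (add_nonneg
    (h.q.mul_mul_conjTranspose_same ((A + D) * D)).trace_nonneg
    (h.p.mul_mul_conjTranspose_same ((A - D) * D)).trace_nonneg)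
  obtain ⟨u, hu, e3⟩ := real_of (h.psd.conjTranspose_mul_mul_same (A * D - D * A)).trace_nonneg
  simp only [conjTranspose_mul, conjTranspose_sub, conjTranspose_add, h.hA, h.hD] at e1 e2 e3
  simp only [pow_succ, pow_zero, one_mul, mul_add, add_mul, mul_sub, sub_mul, trace_add, trace_sub,
    Matrix.mul_assoc,
    cAAADA A D, cAADAA A D, cAADDA A D, cADAAA A D, cADAAD A D, cADADA A D,
    cADDAA A D, cADDAD A D, cADDDA A D, cDAAAA A D, cDAAAD A D, cDAADA A D,
    cDAADD A D, cDADAA A D, cDADAD A D, cDADDA A D, cDADDD A D, cDDAAA A D,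
    cDDAAD A D, cDDADA A D, cDDADD A D, cDDDAA A D, cDDDAD A D, cDDDDA A D] at e1 e2 e3
  refine ⟨c + r / 2 + u, c + r / 2, c, hc, by linarith, by linarith, ?_, ?_, e1⟩
  · push_cast
    linear_combination e1 + e2 / 2 + e3
  · push_cast
    linear_combination e1 + e2 / 2

lemma one_data (σ : Fin 2 → Matrix B B ℂ) (h : ∀ x, IsState (σ x)) (n : ℕ) (G : Matrix B B ℂ)
    (hG : G = mp ((1 / 2 : ℂ) • (σ 0 + σ 1)) ((1 - ((n + 1 : ℕ) : ℝ)) / (2 * ((n + 1 : ℕ) : ℝ)))) :
    ((1 / 2 : ℂ) • (σ 0 + σ 1)).PosSemidef ∧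
    G * ((1 / 2 : ℂ) • (σ 0 + σ 1)) * G + G * ((1 / 2 : ℂ) • (σ 0 - σ 1)) * G = G * σ 0 * G ∧
    G * ((1 / 2 : ℂ) • (σ 0 + σ 1)) * G - G * ((1 / 2 : ℂ) • (σ 0 - σ 1)) * G = G * σ 1 * G ∧
    Good (n + 1) (G * ((1 / 2 : ℂ) • (σ 0 + σ 1)) * G) (G * ((1 / 2 : ℂ) • (σ 0 - σ 1)) * G) := by
  have hGh : Gᴴ = G := hG ▸ mp_herm _ _
  have h1 : ((1 / 2 : ℂ) • (σ 0 + σ 1)).PosSemidef := ((h 0).1.add (h 1).1).smul (by
    rw [show (1 / 2 : ℂ) = ((1 / 2 : ℝ) : ℂ) by push_cast; rfl]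
    exact_mod_cast (by norm_num : (0 : ℝ) ≤ 1 / 2))
  have e1 : G * ((1 / 2 : ℂ) • (σ 0 + σ 1)) * G + G * ((1 / 2 : ℂ) • (σ 0 - σ 1)) * G =
      G * σ 0 * G := by
    rw [← add_mul, ← mul_add]
    congr 2
    module
  have e2 : G * ((1 / 2 : ℂ) • (σ 0 + σ 1)) * G - G * ((1 / 2 : ℂ) • (σ 0 - σ 1)) * G =
      G * σ 1 * G := by
    rw [← sub_mul, ← mul_sub]
    congr 2
    module
  refine ⟨h1, e1, e2, ?_, ?_, ?_, ?_, ?_⟩
  · simp only [conjTranspose_mul, hGh, h1.1.eq, Matrix.mul_assoc]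
  · simp only [conjTranspose_mul, hGh, conjTranspose_smul, conjTranspose_sub, (h 0).1.1.eq,
      (h 1).1.1.eq, Matrix.mul_assoc]
    simp
  · rw [e1]
    simpa only [hGh] using (h 0).1.mul_mul_conjTranspose_same G
  · rw [e2]
    simpa only [hGh] using (h 1).1.mul_mul_conjTranspose_same G
  · rw [hG, sand_pow _ h1 (n + 1) (Nat.succ_pos n), trace_smul, trace_add, (h 0).2, (h 1).2]
    norm_num

lemma data (σ : Fin 2 → Matrix B₁ B₁ ℂ) (h : ∀ x, IsState (σ x)) (σ' : Fin 2 → Matrix B₂ B₂ ℂ)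
    (h' : ∀ x, IsState (σ' x)) (n : ℕ) :
    ∃ (A D : Matrix B₁ B₁ ℂ) (A' D' : Matrix B₂ B₂ ℂ), Good (n + 1) A D ∧ Good (n + 1) A' D' ∧
      Qs ((n + 1 : ℕ) : ℝ) (cq σ) = (EE (n + 1) A D).re / 2 ^ (n + 1) ∧
      Qs ((n + 1 : ℕ) : ℝ) (cq σ') = (EE (n + 1) A' D').re / 2 ^ (n + 1) ∧
      Qs ((n + 1 : ℕ) : ℝ) (tau σ σ') = (EE (n + 1) (A ⊗ₖ A') (D ⊗ₖ D')).re / 2 ^ (n + 1) := by
  obtain ⟨G, hG⟩ : ∃ G, G = mp ((1 / 2 : ℂ) • (σ 0 + σ 1))
    ((1 - ((n + 1 : ℕ) : ℝ)) / (2 * ((n + 1 : ℕ) : ℝ))) := ⟨_, rfl⟩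
  obtain ⟨G', hG'⟩ : ∃ G, G = mp ((1 / 2 : ℂ) • (σ' 0 + σ' 1))
    ((1 - ((n + 1 : ℕ) : ℝ)) / (2 * ((n + 1 : ℕ) : ℝ))) := ⟨_, rfl⟩
  obtain ⟨p, a, b, g⟩ := one_data σ h n G hG
  obtain ⟨p', a', b', g'⟩ := one_data σ' h' n G' hG'
  refine ⟨_, _, _, _, g, g', ?_, ?_, ?_⟩
  · rw [Qs_cq σ (fun x => (h x).1.1) n G hG, EE, a, b]
  · rw [Qs_cq σ' (fun x => (h' x).1.1) n G' hG', EE, a', b']
  · rw [tau_eq, Qs_cq _ ?_ n (G ⊗ₖ G') ?_, EE]
    · simp only [Matrix.cons_val_zero, Matrix.cons_val_one]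
      congr 5
      · simp only [mul_kronecker_mul, ← add_mul, ← mul_add]
        congr 2
        ext i j
        simp only [Matrix.smul_apply, Matrix.add_apply, Matrix.sub_apply, kroneckerMap_apply, smul_eq_mul]
        ring
      · simp only [mul_kronecker_mul, ← sub_mul, ← mul_sub]
        congr 2
        ext i j
        simp only [Matrix.smul_apply, Matrix.add_apply, Matrix.sub_apply, kroneckerMap_apply, smul_eq_mul]
        ring
    · intro x
      fin_cases x <;>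
      · unfold IsHermitian
        simp [conjTranspose_kronecker, (h 0).1.1.eq, (h 1).1.1.eq, (h' 0).1.1.eq, (h' 1).1.1.eq]
    · rw [hG, hG', ← mp_kron p p']
      congr 1
      ext i j
      simp only [Matrix.cons_val_zero, Matrix.cons_val_one, Matrix.smul_apply, Matrix.add_apply,
        kroneckerMap_apply, smul_eq_mul]
      ring

lemma kron_pow (A : Matrix B₁ B₁ ℂ) (A' : Matrix B₂ B₂ ℂ) (n : ℕ) :
    (A ⊗ₖ A') ^ n = (A ^ n) ⊗ₖ (A' ^ n) := by
  induction n with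
  | zero => simp
  | succ n ih => rw [pow_succ, ih, ← mul_kronecker_mul, ← pow_succ, ← pow_succ]

variable (σ : Fin 2 → Matrix B₁ B₁ ℂ) (h : ∀ x, IsState (σ x)) (σ' : Fin 2 → Matrix B₂ B₂ ℂ)
    (h' : ∀ x, IsState (σ' x))
include h h'

lemma val3 : ∃ s s' : ℝ, 0 ≤ s ∧ s ≤ 1 ∧ 0 ≤ s' ∧ s' ≤ 1 ∧ Qs 3 (cq σ) = (1 + 3 * s) / 4 ∧
    Qs 3 (cq σ') = (1 + 3 * s') / 4 ∧ Qs 3 (tau σ σ') = (1 + 3 * (s * s')) / 4 := by
  obtain ⟨A, D, A', D', g, g', a, b, c⟩ := data σ h σ' h' 2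
  obtain ⟨s, s0, s1, e⟩ := good3 g
  obtain ⟨s', s0', s1', e'⟩ := good3 g'
  norm_num only at a b c
  rw [EE3] at a b c
  simp only [kron_pow, ← mul_kronecker_mul, trace_kronecker] at c
  simp only [g.t, g'.t, e, e'] at a b c
  refine ⟨s, s', s0, s1, s0', s1', ?_, ?_, ?_⟩
  · rw [a]; simp; ring
  · rw [b]; simp; ring
  · rw [c]; simp; ring

lemma val4 : ∃ a b c a' b' c' : ℝ, 0 ≤ c ∧ c ≤ b ∧ b ≤ a ∧ 0 ≤ c' ∧ c' ≤ b' ∧ b' ≤ a' ∧
    Qs 4 (cq σ) = (1 + 4 * a + 2 * b + c) / 8 ∧ Qs 4 (cq σ') = (1 + 4 * a' + 2 * b' + c') / 8 ∧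
    Qs 4 (tau σ σ') = (1 + 4 * (a * a') + 2 * (b * b') + c * c') / 8 := by
  obtain ⟨A, D, A', D', g, g', x, y, z⟩ := data σ h σ' h' 3
  obtain ⟨a, b, c, p1, p2, p3, e1, e2, e3⟩ := good4 g
  obtain ⟨a', b', c', q1, q2, q3, f1, f2, f3⟩ := good4 g'
  norm_num only at x y z
  rw [EE4] at x y z
  simp only [kron_pow, ← mul_kronecker_mul, trace_kronecker] at z
  simp only [g.t, g'.t, e1, e2, e3, f1, f2, f3] at x y z
  refine ⟨a, b, c, a', b', c', p1, p2, p3, q1, q2, q3, ?_, ?_, ?_⟩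
  · rw [x]; simp; ring
  · rw [y]; simp; ring
  · rw [z]; simp; ring

lemma val5 : ∃ a b c a' b' c' : ℝ, 0 ≤ c ∧ c ≤ b ∧ b ≤ a ∧ 0 ≤ c' ∧ c' ≤ b' ∧ b' ≤ a' ∧
    Qs 5 (cq σ) = (1 + 5 * a + 5 * b + 5 * c) / 16 ∧
    Qs 5 (cq σ') = (1 + 5 * a' + 5 * b' + 5 * c') / 16 ∧
    Qs 5 (tau σ σ') = (1 + 5 * (a * a') + 5 * (b * b') + 5 * (c * c')) / 16 := by
  obtain ⟨A, D, A', D', g, g', x, y, z⟩ := data σ h σ' h' 4
  obtain ⟨a, b, c, p1, p2, p3, e1, e2, e3⟩ := good5 g
  obtain ⟨a', b', c', q1, q2, q3, f1, f2, f3⟩ := good5 g'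
  norm_num only at x y z
  rw [EE5] at x y z
  simp only [kron_pow, ← mul_kronecker_mul, trace_kronecker] at z
  simp only [g.t, g'.t, e1, e2, e3, f1, f2, f3] at x y z
  refine ⟨a, b, c, a', b', c', p1, p2, p3, q1, q2, q3, ?_, ?_, ?_⟩
  · rw [x]; simp; ring
  · rw [y]; simp; ring
  · rw [z]; simp; ring

end Pool.Agent.H97.Ic
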