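import Mathlib

namespace Pool.Agent.H97.Ic

open Matrix
open scoped Kronecker ComplexOrder

variable {A B B₁ B₂ : Type} [Fintype A] [DecidableEq A] [Fintype B] [DecidableEq B]
  [Fintype B₁] [DecidableEq B₁] [Fintype B₂] [DecidableEq B₂]

/-- Real power of a Hermitian matrix by functional calculus; `0 ^ t = 0` for `t ≠ 0`, so negative
powers are taken on the support. -/
noncomputable def mp (M : Matrix B B ℂ) (t : ℝ) : Matrix B B ℂ := cfc (fun x : ℝ => x ^ t) M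

/-- Density operators. -/
def IsState (σ : Matrix B B ℂ) : Prop := σ.PosSemidef ∧ σ.trace = 1

/-- The marginal on the second system. -/
def ptr (ρ : Matrix (A × B) (A × B) ℂ) : Matrix B B ℂ := fun i j => ∑ a, ρ (a, i) (a, j)

/-- `Tr[(ρ_B^γ ρ_AB ρ_B^γ)^α]` with `γ = (1 - α) / (2 α)`. -/
noncomputable def Qs (α : ℝ) (ρ : Matrix (A × B) (A × B) ℂ) : ℝ :=
  (mp (((1 : Matrix A A ℂ) ⊗ₖ mp (ptr ρ) ((1 - α) / (2 * α))) * ρ *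
    ((1 : Matrix A A ℂ) ⊗ₖ mp (ptr ρ) ((1 - α) / (2 * α)))) α).trace.re

/-- The sandwiched conditional Renyi entropy. -/
noncomputable def Hs (α : ℝ) (ρ : Matrix (A × B) (A × B) ℂ) : ℝ := Real.log (Qs α ρ) / (1 - α)

/-- `(1/2) ∑_x |x><x| ⊗ σ_x`. -/
noncomputable def cq (σ : Fin 2 → Matrix B B ℂ) : Matrix (Fin 2 × B) (Fin 2 × B) ℂ :=
  ∑ x, (1 / 2 : ℂ) • (single x x (1 : ℂ) ⊗ₖ σ x)

/-- `(1/4) ∑_{a,b} |a+b><a+b| ⊗ σ_a ⊗ σ'_b`. -/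
noncomputable def tau (σ : Fin 2 → Matrix B₁ B₁ ℂ) (σ' : Fin 2 → Matrix B₂ B₂ ℂ) :
    Matrix (Fin 2 × (B₁ × B₂)) (Fin 2 × (B₁ × B₂)) ℂ :=
  ∑ a, ∑ b, (1 / 4 : ℂ) • (single (a + b) (a + b) (1 : ℂ) ⊗ₖ (σ a ⊗ₖ σ' b))

end Pool.Agent.H97.Ic
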