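import Mathlib

open Set Filter Topology

namespace Pool.Agent.H97.Irr

def cc (l k : ℕ) : ℕ := if k ≤ l then l * l else k * k + k + l

noncomputable def γ (l j : ℕ) : ℝ := 2 ^ j / 2 ^ cc l j.sqrt

theorem γ_pos (l j : ℕ) : 0 < γ l j := by unfold γ; positivity

theorem γ_succ (l j : ℕ) : γ l (j + 1) / γ l j ≤ 2 := by
  have h : cc l j.sqrt ≤ cc l (j + 1).sqrt := by
    have := Nat.sqrt_le_sqrt (Nat.le_succ j)
    unfold cc; split_ifs <;> nlinarith
  rw [div_le_iff₀ (γ_pos l j), γ, γ, pow_succ, mul_comm, mul_div_assoc]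
  gcongr; norm_num

theorem γ_ge (m : ℕ) : 1 ≤ γ m.sqrt m := by
  rw [γ, cc, if_pos le_rfl, one_le_div (by positivity)]
  exact pow_le_pow_right₀ (by norm_num) (Nat.sqrt_le m)

theorem γ_at {l k i : ℕ} (h : l < k) (hi : i ≤ k + k) : γ l (k * k + i) = 2 ^ i / 2 ^ (k + l) := by
  rw [γ, Nat.sqrt_add_eq k hi, cc, if_neg (by omega), add_assoc, pow_add, pow_add _ (k * k)]
  field_simp

theorem γ_small (l i : ℕ) : Tendsto (fun k => γ l (k * k + i)) atTop (𝓝 0) := by
  have : Tendsto (fun k : ℕ => (2:ℝ) ^ i / 2 ^ (k + l)) atTop (𝓝 0) :=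
    tendsto_const_nhds.div_atTop ((tendsto_pow_atTop_atTop_of_one_lt one_lt_two).comp
      (tendsto_add_atTop_nat l))
  refine this.congr' ?_
  filter_upwards [eventually_gt_atTop l, eventually_ge_atTop i] with k a b
  exact (γ_at a (by omega)).symm

theorem γ_big (l : ℕ) (R : ℝ) : ∃ᶠ n in atTop, R < γ l n := by
  have h1 : Tendsto (fun k : ℕ => k * k + (k + k)) atTop atTop :=
    tendsto_atTop_mono (fun k => by simp only [id]; omega) tendsto_id
  refine h1.frequently (Eventually.frequently ?_)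
  filter_upwards [eventually_gt_atTop l, ((tendsto_pow_atTop_atTop_of_one_lt
    (one_lt_two (α := ℝ))).atTop_div_const (r := 2 ^ l) (by positivity)).eventually
    (eventually_gt_atTop R)] with k a b
  rw [γ_at a le_rfl, pow_add, pow_add, mul_div_mul_left _ _ (by positivity)]
  exact b

theorem γ_off {l k : ℕ} (h : l ≠ k) : γ l (k * k) ≤ (1 / 2) ^ l := by
  rcases lt_or_gt_of_ne h with h | h
  · have := γ_at (i := 0) h (by omega)
    rw [add_zero] at this
    rw [this, pow_zero, one_div_pow]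
    gcongr
    · norm_num
    · omega
  · rw [γ, Nat.sqrt_eq, cc, if_pos h.le, one_div_pow, div_le_div_iff₀ (by positivity) (by positivity),
      one_mul, ← pow_add]
    exact pow_le_pow_right₀ (by norm_num) (by nlinarith)

theorem γ_diag (k : ℕ) : γ k (k * k) = 1 := by
  rw [γ, Nat.sqrt_eq, cc, if_pos le_rfl, div_self (by positivity)]

abbrev W (𝕜 : Type) [RCLike 𝕜] := lp (fun _ : ℕ × ℕ => 𝕜) 1

variable {𝕜 : Type} [RCLike 𝕜]

theorem smb (z : W 𝕜) : Summable fun k => ‖z k‖ := by simpa using z.2.summable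

theorem nrm (z : W 𝕜) : ‖z‖ = ∑' k, ‖z k‖ := by simp [lp.norm_eq_tsum_rpow]

variable (𝕜) in
noncomputable def S : W 𝕜 →L[𝕜] W 𝕜 :=
  (lp.tsumCLM 𝕜 (ℕ × ℕ) (W 𝕜)).comp (lp.mapCLM 1 (fun p : ℕ × ℕ =>
    ContinuousLinearMap.toSpanSingleton 𝕜
      (lp.single 1 (p.1, p.2 + 1) ((γ p.1 (p.2 + 1) / γ p.1 p.2 : ℝ) : 𝕜) : W 𝕜)) (K := 2)
      (by norm_num) fun p => by
        rw [ContinuousLinearMap.norm_toSpanSingleton, lp.norm_single (by norm_num),
          RCLike.norm_ofReal, abs_of_pos (div_pos (γ_pos _ _) (γ_pos _ _))]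
        exact γ_succ _ _)

theorem S_apply (w : W 𝕜) (q : ℕ × ℕ) : S 𝕜 w q = ∑' p : ℕ × ℕ,
    w p * (Pi.single (p.1, p.2 + 1) ((γ p.1 (p.2 + 1) / γ p.1 p.2 : ℝ) : 𝕜) : ℕ × ℕ → 𝕜) q := by
  refine (lp.evalCLM 𝕜 (fun _ : ℕ × ℕ => 𝕜) 1 q).map_tsum (.of_norm_bounded
    ((smb w).mul_right 2) fun p => ?_)
  show ‖w p • (lp.single 1 (p.1, p.2 + 1) ((γ p.1 (p.2 + 1) / γ p.1 p.2 : ℝ) : 𝕜) : W 𝕜)‖ ≤ _
  rw [norm_smul, lp.norm_single (by norm_num), RCLike.norm_ofReal,
    abs_of_pos (div_pos (γ_pos _ _) (γ_pos _ _))]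
  exact mul_le_mul_of_nonneg_left (γ_succ _ _) (norm_nonneg _)

theorem S_zero (w : W 𝕜) (l : ℕ) : S 𝕜 w (l, 0) = 0 := by simp [S_apply]

theorem S_succ (w : W 𝕜) (l j : ℕ) :
    S 𝕜 w (l, j + 1) = ((γ l (j + 1) / γ l j : ℝ) : 𝕜) * w (l, j) := by
  rw [S_apply, tsum_eq_single (l, j), Pi.single_eq_same, mul_comm]
  rintro ⟨a, b⟩ h
  rw [Pi.single_eq_of_ne, mul_zero]
  simpa [eq_comm] using h

theorem Sn_lt (w : W 𝕜) (l n : ℕ) : ∀ j < n, (S 𝕜)^[n] w (l, j) = 0 := by
  induction n with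
  | zero => simp
  | succ n ih =>
    rw [Function.iterate_succ_apply']
    rintro (_ | j) h
    · exact S_zero _ _
    · rw [S_succ, ih j (by omega), mul_zero]

theorem Sn_add (w : W 𝕜) (l j n : ℕ) :
    (S 𝕜)^[n] w (l, j + n) = ((γ l (j + n) / γ l j : ℝ) : 𝕜) * w (l, j) := by
  induction n with
  | zero => simp [(γ_pos l j).ne']
  | succ n ih =>
    rw [Function.iterate_succ_apply', ← add_assoc, S_succ, ih, ← mul_assoc, ← RCLike.ofReal_mul,
      div_mul_div_cancel₀ (γ_pos _ _).ne']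

theorem Sn_norm (w : W 𝕜) (n : ℕ) :
    ‖(S 𝕜)^[n] w‖ = ∑' p : ℕ × ℕ, γ p.1 (p.2 + n) / γ p.1 p.2 * ‖w p‖ := by
  have hi : Function.Injective fun p : ℕ × ℕ => (p.1, p.2 + n) := fun a b h => by
    simpa [Prod.ext_iff] using h
  rw [nrm, ← hi.tsum_eq]
  · refine tsum_congr fun p => ?_
    rw [Sn_add, norm_mul, RCLike.norm_ofReal, abs_of_pos (div_pos (γ_pos _ _) (γ_pos _ _))]
  · rintro ⟨l, j⟩ h
    by_contra h'
    have : j < n := by
      by_contra h2
      exact h' ⟨(l, j - n), by simp; omega⟩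
    exact h (by simp [Sn_lt w l n j this])

theorem fin_small {w : W 𝕜} (hw : w ∈ Submodule.span 𝕜 (range fun p => (lp.single 1 p 1 : W 𝕜))) :
    Tendsto (fun k => (S 𝕜)^[k * k + 1] w) atTop (𝓝 0) := by
  induction hw using Submodule.span_induction with
  | mem x hx =>
    obtain ⟨p, rfl⟩ := hx
    rw [tendsto_zero_iff_norm_tendsto_zero]
    have := (γ_small p.1 (p.2 + 1)).div_const (γ p.1 p.2)
    rw [zero_div] at this
    refine this.congr fun k => ?_
    rw [Sn_norm, tsum_eq_single p]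
    · simp [show p.2 + (k * k + 1) = k * k + (p.2 + 1) by ring]
    · intro q hq; simp [Pi.single_eq_of_ne hq]
  | zero => simp
  | add x y _ _ a b => simpa only [iterate_map_add, add_zero] using a.add b
  | smul c x _ a =>
    have : ∀ n, (S 𝕜)^[n] (c • x) = c • (S 𝕜)^[n] x := fun n => by
      induction n with
      | zero => rfl
      | succ n ih => rw [Function.iterate_succ_apply', ih, map_smul, Function.iterate_succ_apply']
    simpa only [this, smul_zero] using a.const_smul c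

theorem fin_dense : Dense (Submodule.span 𝕜 (range fun p => (lp.single 1 p 1 : W 𝕜)) : Set (W 𝕜)) := by
  intro z
  refine mem_closure_of_tendsto (lp.hasSum_single (by norm_num) z)
    (Eventually.of_forall fun s => Submodule.sum_mem _ fun k _ => ?_)
  have : (lp.single 1 k (z k) : W 𝕜) = z k • lp.single 1 k 1 := by
    rw [← lp.single_smul, smul_eq_mul, mul_one]
  rw [this]
  exact Submodule.smul_mem _ _ (Submodule.subset_span ⟨k, rfl⟩)

/-- the vector with entries `γ l 0 * a l` at the tops of the rows -/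
noncomputable def top (a : ℕ → 𝕜) (ha : ∀ l, ‖a l‖ ≤ 1) : W 𝕜 :=
  ⟨fun p => if p.2 = 0 then (γ p.1 0 : 𝕜) * a p.1 else 0, memℓp_gen (by
    have hi : Function.Injective fun l : ℕ => (l, 0) := fun a b h => by simpa using h
    rw [← hi.summable_iff]
    · refine .of_nonneg_of_le (fun _ => Real.rpow_nonneg (norm_nonneg _) _) (fun l => ?_)
        summable_geometric_two
      have h1 : γ l 0 ≤ (1 / 2) ^ l := by
        rcases eq_or_ne l 0 with rfl | h
        · simpa using (γ_diag 0).le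
        · exact γ_off (k := 0) h
      have := mul_le_mul h1 (ha l) (norm_nonneg _) (by positivity)
      simpa [abs_of_pos (γ_pos l 0)] using this
    · rintro ⟨l, j⟩ h
      have : j ≠ 0 := by rintro rfl; exact h ⟨l, rfl⟩
      simp [this])⟩

theorem top_small (z : W 𝕜) (φ : ℕ → 𝕜) (C : ℝ) (hφ : ∀ l, ‖φ l‖ ≤ C)
    (hz : ∀ p : ℕ × ℕ, z p = if p.2 = 0 then (γ p.1 0 : 𝕜) * φ p.1 else 0) {ε : ℝ} (hε : 0 < ε) :
    ∀ᶠ k in atTop, ‖(S 𝕜)^[k * k] z‖ < ‖φ k‖ + ε := by
  have hi : Function.Injective fun l : ℕ => (l, 0) := fun a b h => by simpa using h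
  have hb : ∀ k l, ‖if l = k then 0 else γ l (k * k) * ‖φ l‖‖ ≤ (1 / 2) ^ l * C := fun k l => by
    have hC := (norm_nonneg _).trans (hφ l)
    split_ifs with h
    · rw [norm_zero]; positivity
    · rw [Real.norm_of_nonneg (mul_nonneg (γ_pos _ _).le (norm_nonneg _))]
      exact mul_le_mul (γ_off h) (hφ l) (norm_nonneg _) (by positivity)
  have h1 := tendsto_tsum_of_dominated_convergence (𝓕 := atTop)
    (f := fun k l => if l = k then 0 else γ l (k * k) * ‖φ l‖) (g := fun _ => 0)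
    (summable_geometric_two.mul_right C) (fun l => by
      have := (γ_small l 0).mul_const ‖φ l‖
      rw [zero_mul] at this
      refine this.congr' ?_
      filter_upwards [eventually_gt_atTop l] with k hk
      simp [hk.ne]) (Eventually.of_forall hb)
  rw [tsum_zero] at h1
  filter_upwards [h1.eventually (eventually_lt_nhds hε)] with k hk
  have e : ∀ l, γ l (0 + k * k) / γ l 0 * ‖z (l, 0)‖ =
      (if l = k then ‖φ k‖ else 0) + if l = k then 0 else γ l (k * k) * ‖φ l‖ := fun l => by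
    rw [hz, if_pos rfl, norm_mul, RCLike.norm_ofReal, abs_of_pos (γ_pos _ _), ← mul_assoc,
      div_mul_cancel₀ _ (γ_pos _ _).ne', zero_add]
    split_ifs with h
    · simp [h, γ_diag]
    · simp
  rw [Sn_norm, ← hi.tsum_eq]
  · simp only [e]
    rw [(hasSum_ite_eq k _).summable.tsum_add (.of_norm_bounded
      (summable_geometric_two.mul_right C) (hb k)), tsum_ite_eq]
    linarith
  · rintro ⟨l, j⟩ h
    by_contra h'
    have : j ≠ 0 := by rintro rfl; exact h' ⟨l, rfl⟩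
    exact h (by simp [hz, this])

end Pool.Agent.H97.Irr
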