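import Mathlib

open Set Filter Topology Polynomial

namespace Pool.Agent.H97.Koe

theorem avoid {κ : Type*} [Countable κ] (U : κ → Ultrafilter ℕ)
    (hU : ∀ c, (U c : Filter ℕ) ≤ cofinite) {S : Set ℕ} (hS : S.Infinite) :
    ∃ S' ⊆ S, S'.Infinite ∧ ∀ c, S' ∉ U c := by
  rcases isEmpty_or_nonempty κ with h | h
  · exact ⟨S, subset_rfl, hS, fun c => isEmptyElim c⟩
  obtain ⟨g, hg⟩ := exists_surjective_nat κ
  have split : ∀ (V : Ultrafilter ℕ) (T : {T : Set ℕ // T.Infinite}),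
      ∃ T' : {T : Set ℕ // T.Infinite}, T'.1 ⊆ T.1 ∧ T'.1 ∉ V := by
    intro V T
    let e : ℕ → ℕ := fun k => T.2.natEmbedding _ k
    have he : Function.Injective e := Subtype.val_injective.comp (T.2.natEmbedding _).injective
    have hm : ∀ k, e k ∈ T.1 := fun k => (T.2.natEmbedding _ k).2
    by_cases h1 : range (fun k => e (2 * k)) ∈ V
    · refine ⟨⟨range fun k => e (2 * k + 1), infinite_range_of_injective fun a b h => by
        have := he h; omega⟩, by rintro _ ⟨k, rfl⟩; exact hm _, fun h2 => ?_⟩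
      obtain ⟨_, ⟨a, rfl⟩, ⟨b, hb⟩⟩ := V.nonempty_of_mem (inter_mem h1 h2)
      have := he hb; omega
    · exact ⟨⟨_, infinite_range_of_injective fun a b h => by have := he h; omega⟩,
        by rintro _ ⟨k, rfl⟩; exact hm _, h1⟩
  choose f hf1 hf2 using split
  let T : ℕ → {T : Set ℕ // T.Infinite} := fun n => Nat.rec ⟨S, hS⟩ (fun i T => f (U (g i)) T) n
  have hA : Antitone fun n => (T n).1 := antitone_nat_of_succ_le fun n => hf1 _ _
  choose s hs1 hs2 using fun i => (T i).2.exists_gt i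
  refine ⟨range s, ?_, infinite_of_forall_exists_gt fun i => ⟨_, ⟨i, rfl⟩, hs2 i⟩, fun c hc => ?_⟩
  · rintro _ ⟨i, rfl⟩
    exact hA (Nat.zero_le i) (hs1 i)
  · obtain ⟨i, rfl⟩ := hg c
    have h1 : (s '' Iic i)ᶜ ∈ U (g i) := hU _ ((finite_Iic i).image s).compl_mem_cofinite
    refine hf2 (U (g i)) (T i) (mem_of_superset (inter_mem hc h1) ?_)
    rintro _ ⟨⟨j, rfl⟩, hj⟩
    have : i + 1 ≤ j := by
      by_contra h
      exact hj ⟨j, by simp only [mem_Iic]; omega, rfl⟩
    exact hA this (hs1 j)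

variable {𝕜 E : Type*} [RCLike 𝕜] [AddCommGroup E] [Module 𝕜 E]

theorem smm (b : Module.Basis ℕ 𝕜 E) (a : ℕ → ℝ) (x : E) :
    Summable fun n => |a n| * ‖b.repr x n‖ :=
  summable_of_ne_finset_zero (s := (b.repr x).support) fun n hn => by
    simp [Finsupp.notMem_support_iff.1 hn]

noncomputable def qa (b : Module.Basis ℕ 𝕜 E) (a : ℕ → ℝ) : Seminorm 𝕜 E :=
  Seminorm.of (fun x => ∑' n, |a n| * ‖b.repr x n‖) (fun x y => by
    rw [← (smm b a x).tsum_add (smm b a y)]
    refine (smm b a _).tsum_le_tsum (fun n => ?_) ((smm b a x).add (smm b a y))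
    rw [← mul_add, map_add, Finsupp.add_apply]
    exact mul_le_mul_of_nonneg_left (norm_add_le _ _) (abs_nonneg _)) fun c x => by
    rw [← tsum_mul_left]
    refine tsum_congr fun n => ?_
    rw [map_smul, Finsupp.smul_apply, norm_smul]; ring

theorem qa_b (b : Module.Basis ℕ 𝕜 E) (a : ℕ → ℝ) (n : ℕ) : qa b a (b n) = |a n| := by
  show ∑' m, |a m| * ‖b.repr (b n) m‖ = _
  rw [tsum_eq_single n]
  · simp
  · intro m hm; simp [Finsupp.single_apply, hm.symm]

theorem le_qa (b : Module.Basis ℕ 𝕜 E) (a : ℕ → ℝ) (x : E) (I : Finset ℕ) :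
    ∑ n ∈ I, |a n| * ‖b.repr x n‖ ≤ qa b a x :=
  (smm b a x).sum_le_tsum I fun _ _ => by positivity

theorem complete {κ : Type*} [Countable κ] (b : Module.Basis ℕ 𝕜 E) (U : κ → Ultrafilter ℕ)
    (hU : ∀ c, (U c : Filter ℕ) ≤ cofinite) [UniformSpace E] [IsUniformAddGroup E]
    (hp : WithSeminorms (Subtype.val : {q : Seminorm 𝕜 E //
      ∀ c, Tendsto (fun n => q (b n)) (U c) (𝓝 0)} → Seminorm 𝕜 E)) :
    T2Space E ∧ CompleteSpace E := by
  classical
  have adm : ∀ a : ℕ → ℝ, (∀ c, Tendsto (fun n => |a n|) (U c) (𝓝 0)) →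
      ∀ c, Tendsto (fun n => qa b a (b n)) (U c) (𝓝 0) := fun a h => by simpa only [qa_b] using h
  have hδ : ∀ n c, Tendsto (fun m => |(Pi.single n 1 : ℕ → ℝ) m|) (U c) (𝓝 0) := by
    intro n c
    refine tendsto_const_nhds.congr' ?_
    filter_upwards [hU c (finite_singleton n).compl_mem_cofinite] with m hm
    simp [Pi.single_eq_of_ne (show m ≠ n from hm)]
  have hδ' : ∀ n x, ‖b.repr x n‖ ≤ qa b (Pi.single n 1) x := fun n x => by
    simpa using le_qa b (Pi.single n 1) x {n}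
  have hc : ∀ n, Continuous (b.coord n) := fun n =>
    hp.continuous_normedSpace_rng 𝕜 (b.coord n) ⟨{⟨_, adm _ (hδ n)⟩}, 1, fun x => by
      simpa using hδ' n x⟩
  constructor
  · have : T1Space E := hp.T1_of_separating fun x hx => by
      obtain ⟨n, hn⟩ := Finsupp.ne_iff.1 (b.repr.map_ne_zero_iff.2 hx)
      exact ⟨⟨_, adm _ (hδ n)⟩, ((norm_pos_iff.2 hn).trans_le (hδ' n x)).ne'⟩
    infer_instance
  refine ⟨fun {f} hf => ?_⟩
  have := hf.1
  choose x hx using fun n => CompleteSpace.complete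
    (hf.map (⟨b.coord n, hc n⟩ : E →L[𝕜] 𝕜).uniformContinuous)
  have key : ∀ a : ℕ → ℝ, (∀ c, Tendsto (fun n => |a n|) (U c) (𝓝 0)) → ∀ ε > 0, ∀ᶠ u in f,
      ∀ I : Finset ℕ, ∑ n ∈ I, |a n| * ‖b.repr u n - x n‖ ≤ ε := by
    intro a ha ε hε
    have h1 := (hp.tendsto_nhds _ _).1 ((IsUniformAddGroup.cauchy_iff_tendsto f).1 hf).2
      ⟨_, adm a ha⟩ ε hε
    obtain ⟨M, hM, hM'⟩ := (eventually_prod_self_iff
      (r := fun u w => qa b a (u - w - 0) < ε)).1 h1
    filter_upwards [hM] with u hu I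
    have h2 : Tendsto (fun w => ∑ n ∈ I, |a n| * ‖b.repr u n - b.repr w n‖) f
        (𝓝 (∑ n ∈ I, |a n| * ‖b.repr u n - x n‖)) :=
      tendsto_finsetSum _ fun n _ => ((Tendsto.const_sub _ (hx n)).norm).const_mul _
    refine le_of_tendsto h2 ?_
    filter_upwards [hM] with w hw
    have h3 := le_qa b a (u - w) I
    have h4 := hM' u hu w hw
    simp only [map_sub, Finsupp.sub_apply, sub_zero] at h3 h4
    exact h3.trans h4.le
  have fin : (Function.support x).Finite := by
    by_contra hinf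
    obtain ⟨S, hS, hS', hS''⟩ := avoid U hU hinf
    obtain ⟨u, hu⟩ := (key (S.indicator fun n => ‖x n‖⁻¹) (fun c => by
      refine tendsto_const_nhds.congr' ?_
      filter_upwards [Ultrafilter.compl_mem_iff_notMem.2 (hS'' c)] with m hm
      simp [indicator_of_notMem hm]) (1 / 2) (by norm_num)).exists
    obtain ⟨n, hn, hn'⟩ := hS'.exists_notMem_finset (b.repr u).support
    have := hu {n}
    rw [Finset.sum_singleton, Finsupp.notMem_support_iff.1 hn', indicator_of_mem hn, zero_sub,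
      norm_neg, abs_inv, abs_norm, inv_mul_cancel₀ (norm_ne_zero_iff.2 (hS hn))] at this
    norm_num at this
  refine ⟨b.repr.symm (Finsupp.ofSupportFinite x fin), (hp.tendsto_nhds id _).2 fun q ε hε => ?_⟩
  filter_upwards [key (fun n => q.1 (b n)) (fun c => by
    simpa only [abs_of_nonneg (apply_nonneg q.1 _)] using q.2 c) (ε / 2) (half_pos hε)] with u hu
  set z := u - b.repr.symm (Finsupp.ofSupportFinite x fin) with hz
  have h1 : ∀ n, b.repr z n = b.repr u n - x n := fun n => by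
    simp [hz, Finsupp.ofSupportFinite_coe]
  have h2 : q.1 z ≤ ∑ n ∈ (b.repr z).support, q.1 (b.repr z n • b n) := by
    conv_lhs => rw [← b.linearCombination_repr z, Finsupp.linearCombination_apply]
    exact Finset.le_sum_of_subadditive q.1 (map_zero _).le (map_add_le_add q.1) _ _
  refine (h2.trans (le_of_eq_of_le ?_ (hu (b.repr z).support))).trans_lt (half_lt_self hε)
  refine Finset.sum_congr rfl fun n _ => ?_
  rw [map_smul_eq_mul, h1, abs_of_nonneg (apply_nonneg _ _), mul_comm]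

end Pool.Agent.H97.Koe
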