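import Mathlib

open Set Cardinal

namespace Pool.Agent.H97.Lee

theorem exists_ext {X ι : Type} [AddCommGroup X] [Module ℝ X] {u : ι → X}
    (hu : LinearIndependent ℝ u) (a : ι → ℝ) : ∃ f : X →ₗ[ℝ] ℝ, ∀ i, f (u i) = a i := by
  obtain ⟨g, hg⟩ := LinearMap.exists_extend ((Module.Basis.span hu).constr ℝ a)
  refine ⟨g, fun i => ?_⟩
  have h1 := congrArg (fun f => f ((Module.Basis.span hu) i)) hg
  simp only [LinearMap.comp_apply, Submodule.subtype_apply, Module.Basis.constr_basis] at h1
  rwa [Module.Basis.span_apply] at h1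

theorem indep_of_order {X T : Type} [AddCommGroup X] [Module ℝ X] [LinearOrder T] (x : T → X)
    (h : ∀ t, x t ∉ Submodule.span ℝ (x '' Iio t)) : LinearIndependent ℝ x := by
  classical
  rw [linearIndependent_iff']
  intro s g
  induction s using Finset.induction_on_max with
  | empty => simp
  | insert a s hs ih =>
    intro hsum
    have ha : a ∉ s := fun h' => lt_irrefl _ (hs a h')
    rw [Finset.sum_insert ha] at hsum
    have hga : g a = 0 := by
      by_contra hne
      apply h a
      have : x a = -(g a)⁻¹ • ∑ i ∈ s, g i • x i := by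
        have h2 : ∑ i ∈ s, g i • x i = -(g a • x a) := eq_neg_of_add_eq_zero_right hsum
        rw [h2, neg_smul, smul_neg, neg_neg, smul_smul, inv_mul_cancel₀ hne, one_smul]
      rw [this]
      exact Submodule.smul_mem _ _ (Submodule.sum_mem _ fun i hi =>
        Submodule.smul_mem _ _ (Submodule.subset_span ⟨i, hs i hi, rfl⟩))
    rw [hga, zero_smul, zero_add] at hsum
    intro i hi
    rcases Finset.mem_insert.1 hi with rfl | hi
    · exact hga
    · exact ih hsum i hi

/-- The transfinite construction of the functionals. -/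
theorem transfinite {X H T : Type} [AddCommGroup X] [Module ℝ X] (hT : Cardinal.mk T ≤ continuum)
    (v : H → ℕ → X) (J : T → Set H) (hJ : ∀ t, (J t).Countable) (G : T → Set (X × (H → ℝ)))
    (hG : ∀ t, ∀ S : Set X, Cardinal.mk S < continuum → ∃ z ∈ G t, z.1 ∉ Submodule.span ℝ S) :
    ∃ h : H → X →ₗ[ℝ] ℝ, (∀ j, LinearIndependent ℝ (v j) → ∀ n, h j (v j n) = n) ∧
      ∀ t, ∃ z ∈ G t, ∀ j ∈ J t, h j z.1 = z.2 j := by
  classical
  obtain ⟨lo, wf, ho⟩ := Cardinal.exists_ord_eq_type_lt T
  have hI : ∀ t : T, Cardinal.mk (Iio t) < continuum := fun t => (mk_Iio_lt t ho).trans_le hT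
  let V : T → Set X := fun t => ⋃ j ∈ J t, range (v j)
  have hV : ∀ t, (V t).Countable := fun t => (hJ t).biUnion fun j _ => countable_range _
  have hS : ∀ (t : T) (prev : ∀ s, s < t → X × (H → ℝ)),
      Cardinal.mk ((range fun s : Iio t => (prev s.1 s.2).1) ∪ V t : Set X) < continuum := by
    intro t prev
    refine (mk_union_le _ _).trans_lt (add_lt_of_lt aleph0_le_continuum ?_ ?_)
    · exact mk_range_le.trans_lt (hI t)
    · exact ((hV t).le_aleph0).trans_lt aleph0_lt_continuum
  let F : ∀ t : T, (∀ s, s < t → X × (H → ℝ)) → X × (H → ℝ) :=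
    fun t prev => Classical.choose (hG t _ (hS t prev))
  let z : T → X × (H → ℝ) := (wellFounded_lt (α := T)).fix F
  have hz : ∀ t, z t ∈ G t ∧ (z t).1 ∉ Submodule.span ℝ
      ((range fun s : Iio t => (z s.1).1) ∪ V t) := by
    intro t
    have e : z t = F t fun s _ => z s := WellFounded.fix_eq _ F t
    rw [e]
    exact Classical.choose_spec (hG t _ (hS t fun s _ => z s))
  have key : ∀ j, ∃ f : X →ₗ[ℝ] ℝ, (LinearIndependent ℝ (v j) → ∀ n, f (v j n) = n) ∧
      ∀ t, j ∈ J t → f (z t).1 = (z t).2 j := by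
    intro j
    obtain ⟨h1, hh1⟩ : ∃ f : X →ₗ[ℝ] ℝ, LinearIndependent ℝ (v j) → ∀ n, f (v j n) = n := by
      by_cases hi : LinearIndependent ℝ (v j)
      · obtain ⟨f, hf⟩ := exists_ext hi fun n => (n : ℝ)
        exact ⟨f, fun _ => hf⟩
      · exact ⟨0, fun h => absurd h hi⟩
    let W := Submodule.span ℝ (range (v j))
    let x : {t // j ∈ J t} → X ⧸ W := fun t => W.mkQ (z t.1).1
    have hx : LinearIndependent ℝ x := by
      refine indep_of_order x fun t ht => (hz t.1).2 ?_
      have e : x '' Iio t = W.mkQ '' ((fun s : {t // j ∈ J t} => (z s.1).1) '' Iio t) := by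
        rw [image_image]
      rw [e, ← Submodule.map_span] at ht
      obtain ⟨y, hy, hy'⟩ := ht
      have hd : (z t.1).1 - y ∈ W := by
        rw [← Submodule.Quotient.eq]
        exact hy'.symm
      have e2 : (z t.1).1 = y + ((z t.1).1 - y) := by abel
      rw [e2]
      refine Submodule.add_mem _ (Submodule.span_mono ?_ hy) (Submodule.span_mono ?_ hd)
      · rintro _ ⟨s, hs, rfl⟩
        exact Or.inl ⟨⟨s.1, hs⟩, rfl⟩
      · intro w hw
        exact Or.inr (mem_biUnion t.2 hw)
    obtain ⟨h2, hh2⟩ := exists_ext hx fun t => (z t.1).2 j - h1 (z t.1).1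
    refine ⟨h1 + h2.comp W.mkQ, fun hi n => ?_, fun t ht => ?_⟩
    · have : W.mkQ (v j n) = 0 :=
        (Submodule.Quotient.mk_eq_zero W).2 (Submodule.subset_span ⟨n, rfl⟩)
      simp only [LinearMap.add_apply, LinearMap.comp_apply, this, map_zero, add_zero]
      exact hh1 hi n
    · have := hh2 ⟨t, ht⟩
      simp only [x] at this
      simp only [LinearMap.add_apply, LinearMap.comp_apply, this]
      ring
  choose h hh using key
  exact ⟨h, fun j => (hh j).1, fun t => ⟨z t, (hz t).1, fun j hj => (hh j).2 t hj⟩⟩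

end Pool.Agent.H97.Lee
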