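import Mathlib
import Pool.Agent.H97.Lee1

open Set Cardinal Filter Topology

namespace Pool.Agent.H97.Lee

variable {X H : Type} [NormedAddCommGroup X] [NormedSpace ℝ X]

def CB (c : X × (H → ℝ)) (r : ℝ) (F : Finset H) : Set (X × (H → ℝ)) :=
  {z | ‖z.1 - c.1‖ ≤ r ∧ ∀ j ∈ F, |z.2 j - c.2 j| ≤ r}

omit [NormedSpace ℝ X] in
theorem exists_CB {N : Set (X × (H → ℝ))} {c : X × (H → ℝ)} (hN : N ∈ 𝓝 c) {ρ : ℝ}
    (hρ : 0 < ρ) : ∃ r, 0 < r ∧ r ≤ ρ ∧ ∃ F, CB c r F ⊆ N := by
  obtain ⟨u, hu, w, hw, huw⟩ := mem_nhds_prod_iff.1 hN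
  rw [nhds_pi, Filter.mem_pi] at hw
  obtain ⟨I, hI, t, ht, hIt⟩ := hw
  have h1 := eventually_closedBall_subset hu
  have h2 : ∀ᶠ r in 𝓝 (0:ℝ), ∀ i ∈ I, Metric.closedBall (c.2 i) r ⊆ t i :=
    (Filter.eventually_all_finite hI).2 fun i _ => eventually_closedBall_subset (ht i)
  have h3 : ∀ᶠ r in 𝓝 (0:ℝ), r ≤ ρ := eventually_le_nhds hρ
  have h4 : ∀ᶠ r in 𝓝[>] (0:ℝ), 0 < r := self_mem_nhdsWithin
  obtain ⟨r, hr0, hr1, hr2, hr3⟩ :=
    (h4.and (((h1.and (h2.and h3))).filter_mono nhdsWithin_le_nhds)).exists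
  refine ⟨r, hr0, hr3, hI.toFinset, fun z hz => huw ⟨hr1 ?_, hIt fun i hi => hr2 i hi ?_⟩⟩
  · rw [Metric.mem_closedBall, dist_eq_norm]; exact hz.1
  · rw [Metric.mem_closedBall, Real.dist_eq]; exact hz.2 i (hI.mem_toFinset.2 hi)

omit [NormedSpace ℝ X] in
theorem CB_mem_nhds (c : X × (H → ℝ)) {r : ℝ} (hr : 0 < r) (F : Finset H) : CB c r F ∈ 𝓝 c := by
  have h1 : ∀ᶠ z : X × (H → ℝ) in 𝓝 c, ‖z.1 - c.1‖ ≤ r := by
    have : ContinuousAt (fun z : X × (H → ℝ) => ‖z.1 - c.1‖) c := by fun_prop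
    exact this.eventually (eventually_le_nhds (by simpa using hr))
  have h2 : ∀ᶠ z : X × (H → ℝ) in 𝓝 c, ∀ j ∈ F, |z.2 j - c.2 j| ≤ r := by
    refine (Filter.eventually_all_finset F).2 fun j _ => ?_
    have : ContinuousAt (fun z : X × (H → ℝ) => |z.2 j - c.2 j|) c := by fun_prop
    exact this.eventually (eventually_le_nhds (by simpa using hr))
  exact h1.and h2

omit [NormedSpace ℝ X] in
theorem nested [CompleteSpace X] (c : ℕ → X × (H → ℝ)) (r : ℕ → ℝ) (F : ℕ → Finset H)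
    (hr : ∀ n, 0 ≤ r n) (h0 : Tendsto r atTop (𝓝 0))
    (hn : ∀ n, CB (c (n+1)) (r (n+1)) (F (n+1)) ⊆ CB (c n) (r n) (F n)) :
    ∃ z, (∀ n, z ∈ CB (c n) (r n) (F n)) ∧ Tendsto (fun n => (c n).1) atTop (𝓝 z.1) := by
  have hA : Antitone fun n => CB (c n) (r n) (F n) := antitone_nat_of_succ_le hn
  have hm : ∀ n m, n ≤ m → c m ∈ CB (c n) (r n) (F n) := fun n m h =>
    hA h ⟨by simpa using hr m, fun j _ => by simpa using hr m⟩
  have hc : CauchySeq fun n => (c n).1 := cauchySeq_of_le_tendsto_0' r (fun n m h => by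
    rw [dist_comm, dist_eq_norm]; exact (hm n m h).1) h0
  obtain ⟨x, hx⟩ := cauchySeq_tendsto_of_complete hc
  have hy : ∀ j, ∃ a : ℝ, ∀ n, j ∈ F n → |a - (c n).2 j| ≤ r n := by
    intro j
    by_cases hj : ∃ n, j ∈ F n
    · obtain ⟨n0, hn0⟩ := hj
      obtain ⟨a, ha1, ha2⟩ := exists_between_of_forall_le
        (s := (fun n => (c n).2 j - r n) '' {n | j ∈ F n})
        (t := (fun n => (c n).2 j + r n) '' {n | j ∈ F n}) ⟨_, n0, hn0, rfl⟩ ⟨_, n0, hn0, rfl⟩ (by
          rintro _ ⟨n, hn, rfl⟩ _ ⟨m, hm', rfl⟩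
          have a1 := abs_le.1 ((hm n (max n m) (le_max_left _ _)).2 j hn)
          have a2 := abs_le.1 ((hm m (max n m) (le_max_right _ _)).2 j hm')
          linarith [a1.1, a2.2])
      refine ⟨a, fun n hn => abs_le.2 ⟨?_, ?_⟩⟩
      · have := ha1 ⟨n, hn, rfl⟩; linarith
      · have := ha2 ⟨n, hn, rfl⟩; linarith
    · exact ⟨0, fun n hn => absurd ⟨n, hn⟩ hj⟩
  choose y hy using hy
  refine ⟨(x, y), fun n => ⟨?_, fun j hj => hy j n hj⟩, hx⟩
  have : Tendsto (fun m => ‖(c m).1 - (c n).1‖) atTop (𝓝 ‖x - (c n).1‖) :=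
    (hx.sub_const _).norm
  exact le_of_tendsto this ((eventually_ge_atTop n).mono fun m h => (hm n m h).1)

theorem step {U : Set (X × (H → ℝ))} (hU : IsOpen U) (hD : Dense U) (c : X × (H → ℝ)) {r : ℝ}
    (hr : 0 < r) (F : Finset H) (w e : X) (he : ‖e‖ ≤ 1) :
    ∃ (c' : X × (H → ℝ)) (r' : ℝ) (F' : Finset H), 0 < r' ∧ r' ≤ r / 2 ∧
      CB c' r' F' ⊆ U ∩ CB c r F ∧
      CB (c' + (w + (r / 2) • e, 0)) r' F' ⊆ U ∩ CB (c + (w, 0)) r F := by
  set w' : X × (H → ℝ) := (w + (r / 2) • e, 0) with hw'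
  have hU' : IsOpen ((fun z => z + w') ⁻¹' U) := hU.preimage (by fun_prop)
  have hD' : Dense ((fun z => z + w') ⁻¹' U) := hD.preimage (isOpenMap_add_right w')
  have hO : (interior (CB c (r/2) F)).Nonempty :=
    ⟨c, mem_interior_iff_mem_nhds.2 (CB_mem_nhds c (half_pos hr) F)⟩
  obtain ⟨c', hc'⟩ := (hD.inter_of_isOpen_left hD' hU).inter_open_nonempty _ isOpen_interior hO
  obtain ⟨r', h1, h2, F', h3⟩ := exists_CB
    ((isOpen_interior.inter (hU.inter hU')).mem_nhds hc') (half_pos hr)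
  refine ⟨c', r', F', h1, h2, fun z hz => ⟨(h3 hz).2.1, ?_⟩, fun z hz => ?_⟩
  · have := interior_subset (h3 hz).1
    exact ⟨this.1.trans (by linarith), fun j hj => (this.2 j hj).trans (by linarith)⟩
  · have hz' : z - w' ∈ CB c' r' F' := by
      refine ⟨?_, fun j hj => ?_⟩
      · have := hz.1
        simp only [Prod.fst_add, Prod.fst_sub] at this ⊢
        rwa [sub_sub, add_comm]
      · have := hz.2 j hj
        simpa [hw'] using this
    have h4 := h3 hz'
    have h5 := interior_subset h4.1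
    refine ⟨by simpa using h4.2.2, ?_, fun j hj => ?_⟩
    · have e1 : z.1 - (c + (w, 0)).1 = ((z - w').1 - c.1) + (r / 2) • e := by
        simp only [hw', Prod.fst_add, Prod.fst_sub]; abel
      rw [e1]
      have e2 : ‖(r / 2) • e‖ ≤ r / 2 := by
        rw [norm_smul, Real.norm_of_nonneg (half_pos hr).le]
        exact mul_le_of_le_one_right (half_pos hr).le he
      linarith [norm_add_le ((z - w').1 - c.1) ((r / 2) • e), h5.1]
    · have := h5.2 j hj
      simp only [hw', Prod.snd_sub, Prod.snd_add, Pi.sub_apply, Pi.add_apply, Pi.zero_apply,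
        sub_zero, add_zero] at this ⊢
      linarith

/-- initial segments of a branch, as reversed lists -/
def br (σ : ℕ → Bool) : ℕ → List Bool
  | 0 => []
  | n + 1 => σ n :: br σ n

theorem br_length (σ : ℕ → Bool) (n : ℕ) : (br σ n).length = n := by
  induction n with
  | zero => rfl
  | succ n ih => simp [br, ih]

theorem br_suffix (σ : ℕ → Bool) {n m : ℕ} (h : n ≤ m) : br σ n <:+ br σ m := by
  induction h with
  | refl => exact List.suffix_refl _
  | step _ ih => exact ih.trans (List.suffix_cons _ _)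

theorem br_ne {σ τ : ℕ → Bool} (h : τ ≠ σ) : ∀ᶠ n in atTop, br τ n ≠ br σ n := by
  obtain ⟨k, hk⟩ := Function.ne_iff.1 h
  filter_upwards [eventually_ge_atTop (k + 1)] with n hn he
  have h1 := br_suffix τ hn
  have h2 := br_suffix σ hn
  rw [he] at h1
  have := (List.suffix_of_suffix_length_le h1 h2 (by simp [br_length])).eq_of_length
    (by simp [br_length])
  simp only [br, List.cons.injEq] at this
  exact hk this.1

theorem tree [CompleteSpace X] (e : List Bool → X) (he : ∀ s, ‖e s‖ ≤ 1)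
    (φ : List Bool → X →L[ℝ] ℝ) (hφ : ∀ s, φ s (e s) = 1) (hφ' : ∀ s u, s ≠ u → φ s (e u) = 0)
    (U : ℕ → Set (X × (H → ℝ))) (hU : ∀ n, IsOpen (U n)) (hD : ∀ n, Dense (U n))
    {W : Set (X × (H → ℝ))} (hW : IsOpen W) (hW' : W.Nonempty) :
    ∃ (c : List Bool × Bool → X × (H → ℝ)) (r : List Bool × Bool → ℝ)
      (F : List Bool × Bool → Finset H),
      {z | ∀ n, ∃ i : List Bool × Bool, i.1.length = n ∧ z ∈ CB (c i) (r i) (F i)} ⊆
        W ∩ ⋂ n, U n ∧
      ∀ S : Set X, Cardinal.mk S < continuum → ∃ z ∈ {z | ∀ n, ∃ i : List Bool × Bool,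
        i.1.length = n ∧ z ∈ CB (c i) (r i) (F i)}, z.1 ∉ Submodule.span ℝ S := by
  classical
  obtain ⟨c0, hc0⟩ := hW'
  obtain ⟨r0, hr0, -, F0, hF0⟩ := exists_CB (hW.mem_nhds hc0) one_pos
  choose nc nr nF h1 h2 h3 h4 using fun (n : ℕ) (c : X × (H → ℝ)) (r : {r : ℝ // 0 < r})
    (F : Finset H) (w : X) (s : List Bool) => step (hU n) (hD n) c r.2 F w (e s) (he s)
  let St := (X × (H → ℝ)) × {r : ℝ // 0 < r} × Finset H × X
  let tr : List Bool → St := fun s => List.rec ((c0, ⟨r0, hr0⟩, F0, 0) : St)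
    (fun i s st => (nc s.length st.1 st.2.1 st.2.2.1 st.2.2.2 (i :: s),
      ⟨nr s.length st.1 st.2.1 st.2.2.1 st.2.2.2 (i :: s), h1 _ _ _ _ _ _⟩,
      nF s.length st.1 st.2.1 st.2.2.1 st.2.2.2 (i :: s),
      st.2.2.2 + (st.2.1.1 / 2) • e (i :: s))) s
  let c : List Bool → X × (H → ℝ) := fun s => (tr s).1
  let r : List Bool → ℝ := fun s => (tr s).2.1.1
  let F : List Bool → Finset H := fun s => (tr s).2.2.1
  let w : List Bool → X := fun s => (tr s).2.2.2
  have hr : ∀ s, 0 < r s := fun s => (tr s).2.1.2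
  have k2 : ∀ i s, r (i :: s) ≤ r s / 2 := fun i s => h2 _ _ _ _ _ _
  have k3 : ∀ i s, CB (c (i :: s)) (r (i :: s)) (F (i :: s)) ⊆ U s.length ∩ CB (c s) (r s) (F s) :=
    fun i s => h3 _ _ _ _ _ _
  have k4 : ∀ i s, CB (c (i :: s) + (w (i :: s), 0)) (r (i :: s)) (F (i :: s)) ⊆
      U s.length ∩ CB (c s + (w s, 0)) (r s) (F s) := fun i s => h4 _ _ _ _ _ _
  have k5 : ∀ i s, w (i :: s) = w s + (r s / 2) • e (i :: s) := fun i s => rfl
  have k0 : w [] = 0 := rfl
  have k6 : CB (c []) (r []) (F []) ⊆ W := hF0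
  clear_value c r F w
  have hw : ∀ s u, φ u (w s) = if u <:+ s ∧ u ≠ [] then r u.tail / 2 else 0 := by
    intro s u
    induction s with
    | nil => simp [k0]
    | cons i s ih =>
      rw [k5, map_add, map_smul, ih, smul_eq_mul]
      by_cases hu : u = i :: s
      · subst hu
        have : ¬ (i :: s <:+ s) := fun h => by simpa using h.length_le
        simp [this, hφ]
      · simp [hφ' _ _ hu, List.suffix_cons_iff, hu]
  have hlim : ∀ σ, Tendsto (fun n => r (br σ n)) atTop (𝓝 0) := by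
    intro σ
    have hb : ∀ n, r (br σ n) ≤ r [] * (1 / 2) ^ n := by
      intro n
      induction n with
      | zero => simp [br]
      | succ n ih => have := k2 (σ n) (br σ n); rw [pow_succ]; simp only [br]; linarith
    refine squeeze_zero (fun n => (hr _).le) hb ?_
    simpa using (tendsto_pow_atTop_nhds_zero_of_lt_one (r := (1/2 : ℝ)) (by norm_num)
      (by norm_num)).const_mul (r [])
  refine ⟨fun i => if i.2 then c i.1 + (w i.1, 0) else c i.1, fun i => r i.1, fun i => F i.1,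
    fun z hz => ⟨?_, mem_iInter.2 fun n => ?_⟩, fun S hS => ?_⟩
  · obtain ⟨⟨s, b⟩, hs, hz⟩ := hz 0
    obtain rfl : s = [] := List.length_eq_zero_iff.1 hs
    apply k6
    cases b
    · simpa using hz
    · have e0 : ((0 : X), (0 : H → ℝ)) = 0 := rfl
      simpa [k0, e0] using hz
  · obtain ⟨⟨s, b⟩, hs, hz⟩ := hz (n + 1)
    obtain ⟨i, s, rfl⟩ := List.exists_cons_of_length_eq_add_one hs
    obtain rfl : s.length = n := by simpa using hs
    cases b
    · exact (k3 i s (by simpa using hz)).1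
    · exact (k4 i s (by simpa using hz)).1
  · by_contra hcon
    push Not at hcon
    choose z hz hz' using fun σ : ℕ → Bool => nested (fun n => c (br σ n)) (fun n => r (br σ n))
      (fun n => F (br σ n)) (fun n => (hr _).le) (hlim σ) fun n x hx => (k3 _ _ hx).2
    choose y hy hy' using fun σ : ℕ → Bool => nested (fun n => c (br σ n) + (w (br σ n), 0))
      (fun n => r (br σ n)) (fun n => F (br σ n)) (fun n => (hr _).le) (hlim σ)
      fun n x hx => (k4 _ _ hx).2
    have m1 : ∀ σ, (y σ).1 - (z σ).1 ∈ Submodule.span ℝ S := fun σ => Submodule.sub_mem _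
      (hcon _ fun n => ⟨(br σ n, true), br_length σ n, by simpa using hy σ n⟩)
      (hcon _ fun n => ⟨(br σ n, false), br_length σ n, by simpa using hz σ n⟩)
    have m2 : ∀ σ τ n, φ (br σ (n + 1)) ((y τ).1 - (z τ).1) =
        if br τ (n + 1) = br σ (n + 1) then r (br σ n) / 2 else 0 := by
      intro σ τ n
      have t1 : Tendsto (fun m => w (br τ m)) atTop (𝓝 ((y τ).1 - (z τ).1)) := by
        simpa using (hy' τ).sub (hz' τ)
      have t2 := ((φ (br σ (n + 1))).continuous.tendsto _).comp t1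
      refine tendsto_nhds_unique t2 (tendsto_const_nhds.congr' ?_)
      filter_upwards [eventually_ge_atTop (n + 1)] with m hm
      simp only [Function.comp_apply, hw]
      have : (br σ (n + 1) <:+ br τ m ∧ br σ (n + 1) ≠ []) ↔ br τ (n + 1) = br σ (n + 1) := by
        constructor
        · rintro ⟨a, -⟩
          exact (List.suffix_of_suffix_length_le (br_suffix τ hm) a
            (by simp [br_length])).eq_of_length (by simp [br_length])
        · intro a
          exact ⟨a ▸ br_suffix τ hm, by simp [br]⟩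
      simp only [this]
      rfl
    have m3 : LinearIndependent ℝ fun σ => (⟨_, m1 σ⟩ : Submodule.span ℝ S) := by
      refine LinearIndependent.of_comp (Submodule.span ℝ S).subtype ?_
      rw [linearIndependent_iff']
      intro s g hs σ hσ
      have ev : ∀ᶠ n in atTop, ∀ τ ∈ s.erase σ, br τ n ≠ br σ n :=
        (Filter.eventually_all_finset _).2 fun τ hτ => br_ne (Finset.ne_of_mem_erase hτ)
      obtain ⟨n, hn⟩ := ((tendsto_add_atTop_nat 1).eventually ev).exists
      have := congrArg (φ (br σ (n + 1))) hs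
      rw [map_sum, map_zero, Finset.sum_eq_single σ] at this
      · simp only [Function.comp_apply, Submodule.subtype_apply, map_smul, m2, if_true,
          smul_eq_mul] at this
        exact (mul_eq_zero.1 this).resolve_right (half_pos (hr _)).ne'
      · intro τ hτ hne
        simp only [Function.comp_apply, Submodule.subtype_apply, map_smul, m2,
          if_neg (hn τ (Finset.mem_erase.2 ⟨hne, hτ⟩)), smul_zero]
      · intro h; exact absurd hσ h
    have m4 := (m3.cardinal_le_rank.trans (rank_span_le S)).trans_lt hS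
    simp at m4

end Pool.Agent.H97.Lee
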