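import Mathlib
import Pool.Agent.H97.Lee2

open Set Cardinal Filter Topology

namespace Pool.Agent.H97.Lee

theorem star {X H : Type} [NormedAddCommGroup X] [NormedSpace ℝ X] [CompleteSpace X]
    (hX : Cardinal.mk X ≤ continuum) (hH : Cardinal.mk H ≤ continuum) (v : H → ℕ → X)
    (e : List Bool → X) (he : ∀ s, ‖e s‖ ≤ 1)
    (φ : List Bool → X →L[ℝ] ℝ) (hφ : ∀ s, φ s (e s) = 1) (hφ' : ∀ s u, s ≠ u → φ s (e u) = 0) :
    ∃ h : H → X →ₗ[ℝ] ℝ, (∀ j, LinearIndependent ℝ (v j) → ∀ n, h j (v j n) = n) ∧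
      ∀ (U : ℕ → Set (X × (H → ℝ))), (∀ n, IsOpen (U n)) → (∀ n, Dense (U n)) →
        ∀ W : Set (X × (H → ℝ)), IsOpen W → W.Nonempty →
          ∃ x : X, (x, fun j => h j x) ∈ W ∩ ⋂ n, U n := by
  classical
  let β := X × Finset (H × ℝ) × ℝ
  let B : β → Set (X × (H → ℝ)) := fun b =>
    {z | ‖z.1 - b.1‖ ≤ b.2.2 ∧ ∀ p ∈ b.2.1, |z.2 p.1 - p.2| ≤ b.2.2}
  let G : (List Bool × Bool → β) → Set (X × (H → ℝ)) := fun t =>
    {z | ∀ n, ∃ i : List Bool × Bool, i.1.length = n ∧ z ∈ B (t i)}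
  let J : (List Bool × Bool → β) → Set H := fun t => ⋃ i, Prod.fst '' ((t i).2.1 : Set (H × ℝ))
  let T := {t : List Bool × Bool → β // ∀ S : Set X, Cardinal.mk S < continuum →
    ∃ z ∈ G t, z.1 ∉ Submodule.span ℝ S}
  have hβ : Cardinal.mk β ≤ continuum := by
    have h1 : Cardinal.mk (H × ℝ) ≤ continuum := by
      simp only [mk_prod, lift_id, mk_real]
      exact (mul_le_mul_left hH _).trans (by simp)
    have h2 : Cardinal.mk (Finset (H × ℝ)) ≤ continuum := by
      rcases finite_or_infinite (H × ℝ) with h | h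
      · exact mk_le_aleph0.trans aleph0_le_continuum
      · rwa [mk_finset_of_infinite]
    simp only [β, mk_prod, lift_id, mk_real]
    calc _ ≤ continuum * (continuum * continuum) := by gcongr
      _ = continuum := by simp
  have hT : Cardinal.mk T ≤ continuum := by
    refine (mk_subtype_le _).trans ?_
    rw [← power_def]
    calc _ ≤ continuum ^ Cardinal.mk (List Bool × Bool) := power_le_power_right hβ
      _ ≤ continuum ^ aleph0 := power_le_power_left continuum_ne_zero mk_le_aleph0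
      _ = continuum := continuum_power_aleph0
  obtain ⟨h, hh1, hh2⟩ := transfinite hT v (fun t => J t.1)
    (fun t => countable_iUnion fun i => (Finset.countable_toSet _).image _) (fun t => G t.1)
    fun t => t.2
  refine ⟨h, hh1, fun U hU hD W hW hW' => ?_⟩
  obtain ⟨c, r, F, a1, a2⟩ := tree e he φ hφ hφ' U hU hD hW hW'
  let t : List Bool × Bool → β := fun i => ((c i).1, (F i).image fun j => (j, (c i).2 j), r i)
  have hB : ∀ i, B (t i) = CB (c i) (r i) (F i) := by
    intro i
    ext z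
    simp [B, t, CB]
  have hG : G t = {z | ∀ n, ∃ i : List Bool × Bool, i.1.length = n ∧
      z ∈ CB (c i) (r i) (F i)} := by simp only [G, hB]
  obtain ⟨z, hz, hz'⟩ := hh2 ⟨t, by rw [hG]; exact a2⟩
  refine ⟨z.1, a1 ?_⟩
  rw [← hG]
  intro n
  obtain ⟨i, hi, b1, b2⟩ := hz n
  refine ⟨i, hi, b1, fun p hp => ?_⟩
  have := hz' p.1 (mem_iUnion.2 ⟨i, p, hp, rfl⟩)
  simp only [this]
  exact b2 p hp

theorem baire_of {Z : Type} [TopologicalSpace Z] (E : Set Z)
    (h : ∀ (U : ℕ → Set Z), (∀ n, IsOpen (U n)) → (∀ n, Dense (U n)) →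
        ∀ W : Set Z, IsOpen W → W.Nonempty → ∃ x ∈ E, x ∈ W ∩ ⋂ n, U n) : BaireSpace E := by
  have hE : Dense E := dense_iff_inter_open.2 fun W hW hW' => by
    obtain ⟨x, hx, hx', -⟩ := h (fun _ => univ) (fun _ => isOpen_univ) (fun _ => dense_univ) W hW hW'
    exact ⟨x, hx', hx⟩
  refine ⟨fun f hf hd => dense_iff_inter_open.2 fun W hW hW' => ?_⟩
  choose U hU hU' using fun n => isOpen_induced_iff.1 (hf n)
  obtain ⟨W', hW1, rfl⟩ := isOpen_induced_iff.1 hW
  have hD : ∀ n, Dense (U n) := fun n =>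
    (hE.denseRange_val.dense_image continuous_subtype_val (hd n)).mono (by
      rw [← hU' n]; exact image_preimage_subset _ _)
  obtain ⟨x, hx, h1, h2⟩ := h U hU hD W' hW1 (hW'.image Subtype.val |>.mono
    (image_preimage_subset _ _))
  exact ⟨⟨x, hx⟩, h1, mem_iInter.2 fun n => by rw [← hU' n]; exact mem_iInter.1 h2 n⟩

theorem separable_dual {E ι : Type} [AddCommGroup E] [Module ℝ E] [TopologicalSpace E]
    [IsTopologicalAddGroup E] [ContinuousSMul ℝ E] [Countable ι] (φ : ι → E →L[ℝ] ℝ)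
    (hφ : ∀ x, (∀ i, φ i x = 0) → x = 0)
    (hB : ∀ B : Set E, Bornology.IsVonNBounded ℝ B → FiniteDimensional ℝ (Submodule.span ℝ B)) :
    TopologicalSpace.SeparableSpace (StrongDual ℝ E) := by
  rw [← TopologicalSpace.isSeparable_univ_iff]
  have h1 : TopologicalSpace.IsSeparable (Submodule.span ℝ (range φ) : Set (E →L[ℝ] ℝ)) :=
    (countable_range φ).isSeparable.span
  refine h1.closure.mono fun ψ _ => ?_
  have hb := (ContinuousLinearMap.hasBasis_nhds_zero (σ := RingHom.id ℝ) (E := E)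
    (F := ℝ)).nhds_of_zero ψ
  rw [mem_closure_iff_nhds_basis hb]
  rintro ⟨B, V⟩ ⟨b1, b2⟩
  have := hB B b1
  let R : (E →L[ℝ] ℝ) →ₗ[ℝ] (Submodule.span ℝ B →ₗ[ℝ] ℝ) :=
    { toFun := fun f => (f : E →ₗ[ℝ] ℝ).comp (Submodule.span ℝ B).subtype
      map_add' := fun _ _ => rfl
      map_smul' := fun _ _ => rfl }
  have h2 : R ψ ∈ Submodule.span ℝ (range fun i => R (φ i)) := by
    refine FiniteDimensional.mem_span_of_iInf_ker_le_ker fun x hx => ?_
    have : x.1 = 0 := hφ x.1 fun i => (Submodule.mem_iInf _).1 hx i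
    show ψ x.1 = 0
    rw [this, map_zero]
  rw [range_comp' R φ, ← Submodule.map_span] at h2
  obtain ⟨d, hd, hd'⟩ := h2
  refine ⟨d, hd, fun x hx => ?_⟩
  have : d x = ψ x := congrArg (fun f => f ⟨x, Submodule.subset_span hx⟩) hd'
  simp only [sub_apply, this, sub_self]
  exact mem_of_mem_nhds b2

abbrev Γ := ℕ → Bool
abbrev L1 := lp (fun _ : Γ => ℝ) 1

theorem L1_summable (x : L1) : Summable fun γ => ‖x γ‖ := by simpa using x.2.summable

theorem L1_norm (x : L1) : ‖x‖ = ∑' γ, ‖x γ‖ := by simp [lp.norm_eq_tsum_rpow]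

theorem ind_le (A : Set Γ) (x : L1) (γ : Γ) : ‖A.indicator (fun γ => x γ) γ‖ ≤ ‖x γ‖ :=
  norm_indicator_le_norm_self _ _

theorem ind_summable (A : Set Γ) (x : L1) : Summable (A.indicator fun γ => x γ) :=
  .of_norm_bounded (L1_summable x) (ind_le A x)

noncomputable def cyl (A : Set Γ) : L1 →L[ℝ] ℝ :=
  LinearMap.mkContinuous
    { toFun := fun x => ∑' γ, A.indicator (fun γ => x γ) γ
      map_add' := fun x y => by
        rw [← (ind_summable A x).tsum_add (ind_summable A y)]
        refine tsum_congr fun γ => ?_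
        by_cases h : γ ∈ A <;> simp [h]
      map_smul' := fun c x => by
        simp only [RingHom.id_apply, smul_eq_mul]
        rw [← tsum_mul_left]
        refine tsum_congr fun γ => ?_
        by_cases h : γ ∈ A <;> simp [h] } 1 fun x => by
    rw [one_mul, L1_norm]
    exact tsum_of_norm_bounded (L1_summable x).hasSum (ind_le A x)

theorem cyl_sep (x : L1) (h : ∀ s : List Bool, cyl {γ | br γ s.length = s} x = 0) : x = 0 := by
  classical
  ext γ
  have h1 := tendsto_tsum_of_dominated_convergence (𝓕 := atTop)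
    (f := fun n τ => {τ | br τ n = br γ n}.indicator (fun γ => x γ) τ)
    (g := fun τ => if τ = γ then x γ else 0) (L1_summable x) (fun τ => by
      by_cases hτ : τ = γ
      · simp [hτ]
      · simp only [hτ, if_false]
        refine tendsto_const_nhds.congr' ((br_ne hτ).mono fun n hn => ?_)
        simp [hn]) (Eventually.of_forall fun n τ => ind_le _ x τ)
  rw [tsum_ite_eq] at h1
  have h2 : ∀ n, ∑' τ, {τ | br τ n = br γ n}.indicator (fun γ => x γ) τ = 0 := fun n => by
    have := h (br γ n)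
    rw [br_length] at this
    exact this
  simp only [h2] at h1
  exact (tendsto_nhds_unique h1 tendsto_const_nhds).trans rfl

theorem L1_card : Cardinal.mk L1 ≤ continuum := by
  have : Function.Injective fun (x : L1) (s : List Bool) => cyl {γ | br γ s.length = s} x := by
    intro x y h
    rw [← sub_eq_zero]
    exact cyl_sep _ fun s => by rw [map_sub, sub_eq_zero]; exact congrFun h s
  refine (mk_le_of_injective this).trans ?_
  rw [← power_def, mk_real]
  exact (power_le_power_left continuum_ne_zero mk_le_aleph0).trans continuum_power_aleph0.le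

theorem L1_kink (x : L1) : ∃ u : L1, ∀ t : ℝ, ‖x + t • u‖ = ‖x‖ + |t| := by
  classical
  have h1 := (L1_summable x).countable_support
  have h2 : ∃ γ, γ ∉ Function.support fun γ => ‖x γ‖ := by
    by_contra h
    push Not at h
    have : (univ : Set Γ).Countable := h1.mono fun γ _ => h γ
    have := this.le_aleph0
    simp at this
    exact absurd this (not_le.2 aleph0_lt_continuum)
  obtain ⟨γ, hγ⟩ := h2
  have hγ : x γ = 0 := by simpa using hγ
  refine ⟨lp.single 1 γ 1, fun t => ?_⟩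
  have e1 : ‖t • (lp.single 1 γ (1:ℝ) : L1)‖ = |t| := by
    rw [norm_smul, lp.norm_single (by norm_num)]; simp
  rw [← e1, L1_norm, L1_norm x, L1_norm (t • _), ← (L1_summable _).tsum_add (L1_summable _)]
  refine tsum_congr fun τ => ?_
  by_cases h : τ = γ
  · subst h; simp [hγ]
  · simp [lp.single_apply, h]

theorem main : ∃ E : Submodule ℝ (L1 × ((ℕ → L1) → ℝ)), BaireSpace E ∧
    TopologicalSpace.SeparableSpace (StrongDual ℝ E) ∧
    ∀ z : E, ∃ u : E, ∀ t : ℝ, ‖(z + t • u).1.1‖ = ‖z.1.1‖ + |t| := by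
  classical
  let ι : List Bool → Γ := fun s k => decide (k = Encodable.encode s)
  have hι : Function.Injective ι := fun s u h => by
    have := congrFun h (Encodable.encode s)
    simpa [ι] using this
  have hH : Cardinal.mk (ℕ → L1) ≤ continuum := by
    rw [← power_def, mk_nat]
    exact (power_le_power_right L1_card).trans continuum_power_aleph0.le
  obtain ⟨h, h1, h2⟩ := star L1_card hH id (fun s => lp.single 1 (ι s) 1)
    (fun s => by rw [lp.norm_single (by norm_num)]; simp)
    (fun s => lp.evalCLM ℝ (fun _ : Γ => ℝ) 1 (ι s)) (fun s => lp.single_apply_self (E := fun _ : Γ => ℝ) 1 (ι s) 1)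
    (fun s u hne => lp.single_apply_ne (E := fun _ : Γ => ℝ) 1 (ι u) 1 (hι.ne hne))
  let E := (LinearMap.pi h).graph
  have hE : ∀ x : L1, (x, fun j => h j x) ∈ E := fun x => rfl
  have hE' : ∀ z : E, ∀ j, z.1.2 j = h j z.1.1 := fun z j => congrFun z.2 j
  let π : E →L[ℝ] L1 := (ContinuousLinearMap.fst ℝ _ _).comp E.subtypeL
  have hπ : ∀ z : E, π z = 0 → z = 0 := fun z hz => by
    have hz : z.1.1 = 0 := hz
    refine Subtype.ext (Prod.ext hz (funext fun j => ?_))
    rw [hE', hz, map_zero]; rfl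
  refine ⟨E, baire_of (E : Set (L1 × ((ℕ → L1) → ℝ))) fun U a b W c d => ?_, ?_, fun z => ?_⟩
  · obtain ⟨x, hx⟩ := h2 U a b W c d
    exact ⟨_, hE x, hx⟩
  · refine separable_dual (fun s : List Bool => (cyl {γ | br γ s.length = s}).comp π)
      (fun z hz => hπ z (cyl_sep _ hz)) fun B hB => ?_
    obtain ⟨t, ht, hs, hi⟩ := exists_linearIndependent ℝ B
    by_cases hf : t.Finite
    · rw [← hs]; exact FiniteDimensional.span_of_finite ℝ hf
    exfalso
    let b := Set.Infinite.natEmbedding t hf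
    have i1 : LinearIndependent ℝ fun n => (b n : E) := hi.comp b b.injective
    have i2 : LinearIndependent ℝ fun n => π (b n : E) :=
      i1.map' (π : E →ₗ[ℝ] L1) (LinearMap.ker_eq_bot'.2 hπ)
    let ψ : E →L[ℝ] ℝ := (ContinuousLinearMap.proj (R := ℝ) (φ := fun _ : ℕ → L1 => ℝ)
      (fun n => π (b n : E))).comp ((ContinuousLinearMap.snd ℝ _ _).comp E.subtypeL)
    have hψ : ∀ n, ψ (b n : E) = n := fun n => (hE' _ _).trans (h1 _ i2 n)
    obtain ⟨C, hC⟩ := ((NormedSpace.isVonNBounded_iff ℝ).1 (hB.image ψ)).exists_norm_le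
    obtain ⟨n, hn⟩ := exists_nat_gt C
    have := hC _ ⟨_, ht (b n).2, hψ n⟩
    rw [Real.norm_natCast] at this
    linarith
  · obtain ⟨u, hu⟩ := L1_kink z.1.1
    exact ⟨⟨_, hE u⟩, hu⟩

end Pool.Agent.H97.Lee
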