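import Mathlib

set_option autoImplicit false

namespace Pool.Agent.H97.Levi

open Filter Topology Set Complex
open scoped ContDiff

variable {E : Type*} [NormedAddCommGroup E]

lemma series [NormedSpace ℝ E] (g : ℕ → E → ℝ) (hg : ∀ n, ContDiff ℝ ∞ (g n))
    (hc : ∀ n, HasCompactSupport (g n)) :
    ∃ r : ℕ → ℝ, (∀ n, 0 < r n) ∧ ∃ v : ℕ → ℕ → ℝ, (∀ k, Summable (v k)) ∧
      ∀ k n x, ‖iteratedFDeriv ℝ k (fun x => r n * g n x) x‖ ≤ v k n := by
  have h1 : ∀ i n, ∃ R, 0 ≤ R ∧ ∀ x, ‖iteratedFDeriv ℝ i (g n) x‖ ≤ R := by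
    intro i n
    obtain ⟨R, hR⟩ := ((hg n).continuous_iteratedFDeriv (m := i)
      (mod_cast le_top)).bounded_above_of_compact_support ((hc n).iteratedFDeriv i)
    exact ⟨R, (norm_nonneg _).trans (hR 0), hR⟩
  choose R hR0 hR using h1
  have hp : ∀ n, 0 < 1 + ∑ i ∈ Finset.range (n + 1), R i n := fun n =>
    add_pos_of_pos_of_nonneg one_pos (Finset.sum_nonneg fun i _ => hR0 i n)
  refine ⟨fun n => (1 / 2) ^ n / (1 + ∑ i ∈ Finset.range (n + 1), R i n),
    fun n => div_pos (by positivity) (hp n),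
    fun k n => (1 / 2) ^ n / (1 + ∑ i ∈ Finset.range (n + 1), R i n) * R k n, fun k => ?_,
    fun k n x => ?_⟩
  · refine Summable.of_norm_bounded_eventually_nat summable_geometric_two ?_
    filter_upwards [eventually_ge_atTop k] with n hn
    have h2 : R k n ≤ ∑ i ∈ Finset.range (n + 1), R i n :=
      Finset.single_le_sum (f := fun i => R i n) (fun i _ => hR0 i n)
        (Finset.mem_range.mpr (by omega))
    rw [Real.norm_of_nonneg (mul_nonneg (div_pos (by positivity) (hp n)).le (hR0 k n)),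
      div_mul_eq_mul_div, div_le_iff₀ (hp n)]
    gcongr
    linarith
  · have h3 := (div_pos (show (0 : ℝ) < (1 / 2) ^ n by positivity) (hp n)).le
    have := iteratedFDeriv_const_smul_apply (𝕜 := ℝ) (i := k) (f := g n) (x := x)
      (a := (1 / 2 : ℝ) ^ n / (1 + ∑ i ∈ Finset.range (n + 1), R i n))
      ((hg n).contDiffAt.of_le (mod_cast le_top))
    change ‖iteratedFDeriv ℝ k (((1 / 2 : ℝ) ^ n /
      (1 + ∑ i ∈ Finset.range (n + 1), R i n)) • g n) x‖ ≤ _
    rw [this, norm_smul, Real.norm_of_nonneg h3]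
    exact mul_le_mul_of_nonneg_left (hR k n x) h3

variable [NormedSpace ℂ E]

/-- Four times the Levi form. -/
noncomputable def Lv (u : E → ℝ) (z w : E) : ℝ :=
  fderiv ℝ (fderiv ℝ u) z w w + fderiv ℝ (fderiv ℝ u) z (I • w) (I • w)

lemma Lv_congr {u u' : E → ℝ} {z : E} (h : u =ᶠ[𝓝 z] u') (w : E) : Lv u z w = Lv u' z w := by
  unfold Lv
  rw [h.fderiv.fderiv_eq]

lemma Lv_tsum [CompleteSpace E] {f : ℕ → E → ℝ} (hf : ∀ n, ContDiff ℝ ∞ (f n)) {v : ℕ → ℕ → ℝ}
    (hv : ∀ k, Summable (v k)) (h : ∀ k n x, ‖iteratedFDeriv ℝ k (f n) x‖ ≤ v k n) (z w : E) :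
    HasSum (fun n => Lv (f n) z w) (Lv (fun x => ∑' n, f n x) z w) := by
  have h1 := iteratedFDeriv_tsum_apply (N := ⊤) hf (fun k _ => hv k) (fun k n x _ => h k n x)
    (k := 2) le_top z
  have h2 : HasSum (fun n => iteratedFDeriv ℝ 2 (f n) z)
      (iteratedFDeriv ℝ 2 (fun x => ∑' n, f n x) z) := by
    rw [h1]
    exact (Summable.of_norm_bounded (hv 2) fun n => h 2 n z).hasSum
  have h3 := (ContinuousMultilinearMap.hasSum_eval h2 ![w, w]).add
    (ContinuousMultilinearMap.hasSum_eval h2 ![I • w, I • w])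
  simp only [iteratedFDeriv_two_apply, Matrix.cons_val_zero, Matrix.cons_val_one] at h3
  exact h3

lemma Lv_comp {G : E → ℂ} (hG : ContDiff ℂ 2 G) {h q : ℝ → ℝ} (hh : ∀ x, HasDerivAt h (q x) x)
    {z : E} {q' : ℝ} (hq : HasDerivAt q q' (‖G z‖ ^ 2)) (w : E) :
    Lv (fun y => h (‖G y‖ ^ 2)) z w =
      4 * ‖fderiv ℂ G z w‖ ^ 2 * (q (‖G z‖ ^ 2) + ‖G z‖ ^ 2 * q') := by
  have hG1 : ∀ y, HasFDerivAt G ((fderiv ℂ G y).restrictScalars ℝ) y := fun y =>
    ((hG.differentiable (by norm_num)) y).hasFDerivAt.restrictScalars ℝ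
  have hA : HasFDerivAt (fderiv ℂ G) ((fderiv ℂ (fderiv ℂ G) z).restrictScalars ℝ) z :=
    (((hG.fderiv_right (m := 1) (by norm_num)).differentiable
      (by norm_num)) z).hasFDerivAt.restrictScalars ℝ
  have hN := fun y => (hG1 y).norm_sq
  have h1 : fderiv ℝ (fun y => h (‖G y‖ ^ 2)) = fun y => q (‖G y‖ ^ 2) •
      (2 • (innerSL ℝ (G y)).comp ((fderiv ℂ G y).restrictScalars ℝ)) := by
    funext y
    exact ((hh _).comp_hasFDerivAt y (hN y)).fderiv
  have hd : DifferentiableAt ℝ (fun y => q (‖G y‖ ^ 2) •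
      (2 • (innerSL ℝ (G y)).comp ((fderiv ℂ G y).restrictScalars ℝ))) z := by
    refine (hq.comp_hasFDerivAt z (hN z)).differentiableAt.smul (DifferentiableAt.const_smul ?_ 2)
    refine DifferentiableAt.clm_comp ((innerSL ℝ).differentiableAt.comp z
      (hG1 z).differentiableAt) ?_
    exact ((ContinuousLinearMap.restrictScalarsL ℂ E ℂ ℝ ℝ).differentiableAt).comp z
      hA.differentiableAt
  have key : ∀ v : E, fderiv ℝ (fderiv ℝ fun y => h (‖G y‖ ^ 2)) z v v =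
      q (‖G z‖ ^ 2) * (2 * (inner ℝ (G z) (fderiv ℂ (fderiv ℂ G) z v v) +
        ‖fderiv ℂ G z v‖ ^ 2)) + q' * (2 * inner ℝ (G z) (fderiv ℂ G z v)) ^ 2 := by
    intro v
    rw [h1]
    have e1 := fderiv_clm_apply hd (differentiableAt_const v)
    have e2 : HasFDerivAt (fun y => fderiv ℂ G y v) _ z :=
      ((ContinuousLinearMap.apply ℂ ℂ v).restrictScalars ℝ).hasFDerivAt.comp z hA
    have e3 := (hq.comp_hasFDerivAt z (hN z)).mul (((hG1 z).inner ℝ e2).const_mul 2)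
    have e5 : (fun y => (q (‖G y‖ ^ 2) •
        (2 • (innerSL ℝ (G y)).comp ((fderiv ℂ G y).restrictScalars ℝ))) v) =
        (q ∘ fun x => ‖G x‖ ^ 2) * fun y => 2 * inner ℝ (G y) ((fderiv ℂ G y) v) := by
      funext y
      simp [-Complex.inner]
    have e4 := congrArg (fun T => T v) (e1.symm.trans (e5 ▸ e3.fderiv))
    simp only [fderiv_fun_const, Pi.zero_apply, ContinuousLinearMap.comp_zero, zero_add,
      ContinuousLinearMap.flip_apply] at e4
    rw [e4]
    simp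
    ring
  unfold Lv
  rw [key, key]
  simp only [map_smul, smul_apply, smul_eq_mul, Complex.inner, norm_mul,
    norm_I, one_mul, Complex.sq_norm, normSq_apply]
  simp
  ring

end Pool.Agent.H97.Levi
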