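import Mathlib

open MeasureTheory Set Filter Topology ProbabilityTheory

namespace Pool.Agent.H97.MeasIso

lemma cdf_cont (ν : Measure ℝ) [IsProbabilityMeasure ν] [NullSingletonClass ν] : Continuous (cdf ν) := by
  rw [continuous_iff_continuousAt]
  intro x
  have h1 : (cdf ν).measure {x} = 0 := by rw [measure_cdf]; exact measure_singleton x
  rw [StieltjesFunction.measure_singleton, ENNReal.ofReal_eq_zero] at h1
  have h2 : Function.leftLim (cdf ν) x ≤ cdf ν x := (monotone_cdf ν).leftLim_le le_rfl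
  rw [(monotone_cdf ν).continuousAt_iff_leftLim_eq_rightLim, (cdf ν).rightLim_eq]
  linarith

lemma quantile (ν : Measure ℝ) [IsProbabilityMeasure ν] [NullSingletonClass ν] :
    ∃ G F : ℝ → ℝ, MeasurePreserving G (volume.restrict (Ioo (0:ℝ) 1)) ν ∧ Measurable F ∧
      ∀ u ∈ Ioo (0:ℝ) 1, F (G u) = u := by
  classical
  have hc := cdf_cont ν
  have hm := monotone_cdf ν
  set G : ℝ → ℝ := fun u => if u ∈ Ioo (0:ℝ) 1 then sInf {x | u ≤ cdf ν x} else 0 with hG
  have hne : ∀ u ∈ Ioo (0:ℝ) 1, {x | u ≤ cdf ν x}.Nonempty := by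
    intro u hu
    obtain ⟨x, hx⟩ := ((tendsto_cdf_atTop ν).eventually (lt_mem_nhds hu.2)).exists
    exact ⟨x, hx.le⟩
  have hbd : ∀ u ∈ Ioo (0:ℝ) 1, BddBelow {x | u ≤ cdf ν x} := by
    intro u hu
    obtain ⟨x, hx⟩ := ((tendsto_cdf_atBot ν).eventually (gt_mem_nhds hu.1)).exists
    refine ⟨x, fun y hy => ?_⟩
    by_contra h
    have := hm (not_le.mp h).le
    exact absurd (hy.trans this) (not_le.mpr hx)
  have hmem : ∀ u ∈ Ioo (0:ℝ) 1, u ≤ cdf ν (G u) := by
    intro u hu
    have : IsClosed {x | u ≤ cdf ν x} := isClosed_le continuous_const hc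
    simp only [hG, if_pos hu]
    exact this.csInf_mem (hne u hu) (hbd u hu)
  have hiff : ∀ u ∈ Ioo (0:ℝ) 1, ∀ x, G u ≤ x ↔ u ≤ cdf ν x := by
    intro u hu x
    refine ⟨fun h => (hmem u hu).trans (hm h), fun h => ?_⟩
    simp only [hG, if_pos hu]
    exact csInf_le (hbd u hu) h
  have hmeas : Measurable G := by
    refine measurable_of_Iic fun x => ?_
    have : G ⁻¹' Iic x = (Ioo (0:ℝ) 1 ∩ Iic (cdf ν x)) ∪ ((Ioo (0:ℝ) 1)ᶜ ∩ {_u | 0 ≤ x}) := by
      ext u
      by_cases hu : u ∈ Ioo (0:ℝ) 1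
      · simp only [mem_preimage, mem_Iic, hiff u hu x, mem_union, mem_inter_iff, hu, true_and,
          mem_compl_iff, not_true_eq_false, false_and, or_false]
      · simp only [mem_preimage, mem_Iic, hG, if_neg hu, mem_union, mem_inter_iff, hu, false_and,
          mem_compl_iff, not_false_eq_true, true_and, false_or, mem_ofPred_eq, if_false]
    rw [this]
    exact (measurableSet_Ioo.inter measurableSet_Iic).union
      (measurableSet_Ioo.compl.inter (MeasurableSet.const _))
  refine ⟨G, cdf ν, ⟨hmeas, ?_⟩, hc.measurable, fun u hu => ?_⟩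
  · have : IsFiniteMeasure (volume.restrict (Ioo (0:ℝ) 1)) := ⟨by simp⟩
    refine Measure.ext_of_Iic _ _ fun x => ?_
    rw [Measure.map_apply hmeas measurableSet_Iic, Measure.restrict_apply (hmeas measurableSet_Iic),
      ← ofReal_cdf]
    have h0 := cdf_nonneg ν x
    have h1 := cdf_le_one ν x
    have e : G ⁻¹' Iic x ∩ Ioo 0 1 = Ioc 0 (cdf ν x) \ {1} := by
      ext u
      simp only [mem_inter_iff, mem_preimage, mem_Iic, Set.mem_sdiff, mem_Ioc, mem_singleton_iff]
      constructor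
      · rintro ⟨h, hu⟩
        exact ⟨⟨hu.1, (hiff u hu x).1 h⟩, hu.2.ne⟩
      · rintro ⟨⟨a, b⟩, c⟩
        have hu : u ∈ Ioo (0:ℝ) 1 := ⟨a, lt_of_le_of_ne (b.trans h1) c⟩
        exact ⟨(hiff u hu x).2 b, hu⟩
    rw [e, measure_sdiff_null (measure_singleton _), Real.volume_Ioc, sub_zero]
  · refine le_antisymm ?_ (hmem u hu)
    have ht : Tendsto (cdf ν) (𝓝[<] (G u)) (𝓝 (cdf ν (G u))) :=
      hc.continuousAt.tendsto.mono_left nhdsWithin_le_nhds
    refine le_of_tendsto ht (eventually_nhdsWithin_of_forall fun y hy => ?_)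
    by_contra h
    exact absurd ((hiff u hu y).2 (not_le.mp h).le) (not_le.mpr hy)

/-- Isomorphism mod null sets of an atomless standard probability space with the unit interval. -/
lemma iso_unit {X : Type*} [MeasurableSpace X] [StandardBorelSpace X] (ν : Measure X)
    [IsProbabilityMeasure ν] [NullSingletonClass ν] :
    ∃ (φ : ℝ → X) (ψ : X → ℝ), MeasurePreserving φ (volume.restrict (Ioo (0:ℝ) 1)) ν ∧
      MeasurePreserving ψ ν (volume.restrict (Ioo (0:ℝ) 1)) ∧
      (∀ᵐ u ∂(volume.restrict (Ioo (0:ℝ) 1)), ψ (φ u) = u) ∧ ∀ᵐ y ∂ν, φ (ψ y) = y := by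
  have : Nonempty X := nonempty_of_isProbabilityMeasure ν
  obtain ⟨e, he⟩ := exists_measurableEmbedding_real X
  have : IsProbabilityMeasure (ν.map e) := Measure.isProbabilityMeasure_map he.measurable.aemeasurable
  have : NullSingletonClass (ν.map e) := ⟨fun x => by
    rw [he.map_apply]
    exact Set.Subsingleton.measure_zero (subsingleton_singleton.preimage he.injective) ν⟩
  obtain ⟨G, F, hG, hF, hFG⟩ := quantile (ν.map e)
  obtain ⟨e', he'm, he'⟩ := he.exists_measurable_extend measurable_id (fun _ => inferInstance)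
  have hl : ∀ y, e' (e y) = y := fun y => congrFun he' y
  have h1 : MeasurePreserving e' (ν.map e) ν := ⟨he'm, by
    rw [Measure.map_map he'm he.measurable, he', Measure.map_id]⟩
  have hφ := h1.comp hG
  have hr : ∀ᵐ x ∂(ν.map e), x ∈ range e := by
    rw [he.ae_map_iff]; exact Eventually.of_forall fun y => mem_range_self y
  have h2 : ∀ᵐ u ∂(volume.restrict (Ioo (0:ℝ) 1)), (F ∘ e) ((e' ∘ G) u) = u := by
    filter_upwards [hG.quasiMeasurePreserving.ae hr, ae_restrict_mem measurableSet_Ioo] with u hu hu'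
    obtain ⟨y, hy⟩ := hu
    simp only [Function.comp]
    rw [← hy, hl, hy, hFG u hu']
  have hψm : Measurable (F ∘ e) := hF.comp he.measurable
  refine ⟨e' ∘ G, F ∘ e, hφ, ⟨hψm, ?_⟩, h2, ?_⟩
  · rw [← hφ.map_eq, Measure.map_map hψm hφ.measurable]
    exact (Measure.map_congr (g := id) h2).trans Measure.map_id
  · have hms : MeasurableSet {y | (e' ∘ G) ((F ∘ e) y) = y} :=
      measurableSet_eq_fun (hφ.measurable.comp hψm) measurable_id
    rw [← hφ.map_eq, ae_map_iff hφ.measurable.aemeasurable hms]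
    filter_upwards [h2] with u hu
    rw [hu]

/-- Any two atomless standard probability spaces are isomorphic mod null sets. -/
lemma iso {X Y : Type*} [MeasurableSpace X] [StandardBorelSpace X] [MeasurableSpace Y]
    [StandardBorelSpace Y] (μ : Measure X) (ν : Measure Y)
    [IsProbabilityMeasure μ] [NullSingletonClass μ] [IsProbabilityMeasure ν] [NullSingletonClass ν] :
    ∃ (φ : X → Y) (ψ : Y → X), MeasurePreserving φ μ ν ∧ MeasurePreserving ψ ν μ ∧
      ∀ᵐ y ∂ν, φ (ψ y) = y := by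
  obtain ⟨a, b, ha, hb, hab, -⟩ := iso_unit μ
  obtain ⟨c, d, hc, hd, -, hcd⟩ := iso_unit ν
  refine ⟨c ∘ b, a ∘ d, hc.comp hb, ha.comp hd, ?_⟩
  filter_upwards [hd.quasiMeasurePreserving.ae hab, hcd] with y h1 h2
  simp only [Function.comp]
  rw [h1, h2]

end Pool.Agent.H97.MeasIso
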