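import Mathlib

open Finset

namespace Pool.Agent.H97.Nfam

/-- a Banach space with a basis, built from a norming family of finitely supported functionals -/
theorem space (Φ : Set (Finset ℕ × (ℕ → ℝ))) (h1 : ∀ φ ∈ Φ, ∀ l ∈ φ.1, |φ.2 l| ≤ 1)
    (h2 : ∀ l, ({l}, 1) ∈ Φ) :
    ∃ (X : Type) (_ : NormedAddCommGroup X) (_ : NormedSpace ℝ X) (_ : CompleteSpace X)
      (e : ℕ → X) (f : ℕ → StrongDual ℝ X), Dense (Submodule.span ℝ (Set.range e) : Set X) ∧
      (∀ i j, f i (e j) = if i = j then 1 else 0) ∧ (∀ i, ‖e i‖ ≤ 1) ∧ (∀ i, ‖f i‖ ≤ 1) ∧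
      (∀ x, ∀ φ ∈ Φ, |∑ l ∈ φ.1, φ.2 l * f l x| ≤ ‖x‖) ∧
      ∀ x (C : ℝ), 0 ≤ C → (∀ φ ∈ Φ, |∑ l ∈ φ.1, φ.2 l * f l x| ≤ C) → ‖x‖ ≤ C := by
  classical
  have hb : ∀ l (φ : Φ), ‖if l ∈ φ.1.1 then φ.1.2 l else 0‖ ≤ 1 := fun l φ => by
    split_ifs with h
    · exact h1 _ φ.2 l h
    · simp
  set E : ℕ → lp (fun _ : Φ => ℝ) ⊤ := fun l =>
    ⟨fun φ => if l ∈ φ.1.1 then φ.1.2 l else 0,
      memℓp_infty ⟨1, by rintro _ ⟨φ, rfl⟩; exact hb l φ⟩⟩ with hE
  set U := Submodule.span ℝ (Set.range E)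
  set ev : Φ → StrongDual ℝ (lp (fun _ : Φ => ℝ) ⊤) := fun φ => lp.evalCLM ℝ (fun _ : Φ => ℝ) ⊤ φ
  have key : ∀ x ∈ U.topologicalClosure, ∀ φ : Φ,
      ev φ x = ∑ l ∈ φ.1.1, φ.1.2 l * ev ⟨_, h2 l⟩ x := fun x hx φ => by
    refine closure_minimal (s := (U : Set (lp (fun _ : Φ => ℝ) ⊤)))
      (t := {x | ev φ x = ∑ l ∈ φ.1.1, φ.1.2 l * ev ⟨_, h2 l⟩ x})
      (fun x hx => ?_) (isClosed_eq (by fun_prop) (by fun_prop)) hx
    induction hx using Submodule.span_induction with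
    | mem x hx =>
      obtain ⟨k, rfl⟩ := hx
      show (if k ∈ φ.1.1 then φ.1.2 k else 0) =
        ∑ l ∈ φ.1.1, φ.1.2 l * if k ∈ ({l} : Finset ℕ) then 1 else 0
      simp
    | zero => simp
    | add x y _ _ a b =>
      simp only [Set.mem_ofPred_eq, map_add, mul_add, sum_add_distrib] at *; rw [a, b]
    | smul c x _ a =>
      simp only [Set.mem_ofPred_eq, map_smul, smul_eq_mul] at *
      rw [a, mul_sum]; exact sum_congr rfl fun _ _ => by ring
  have hle : ∀ (x : lp (fun _ : Φ => ℝ) ⊤) φ, |ev φ x| ≤ ‖x‖ := fun x φ =>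
    lp.norm_apply_le_norm ENNReal.top_ne_zero x φ
  refine ⟨U.topologicalClosure, inferInstance, inferInstance,
    U.isClosed_topologicalClosure.completeSpace_coe,
    fun l => ⟨E l, U.le_topologicalClosure (Submodule.subset_span ⟨l, rfl⟩)⟩,
    fun l => (ev ⟨_, h2 l⟩).comp U.topologicalClosure.subtypeL, fun x => ?_, fun i j => ?_,
    fun i => lp.norm_le_of_forall_le zero_le_one (hb i),
    fun i => ContinuousLinearMap.opNorm_le_bound _ zero_le_one fun x => ?_, fun x φ hφ => ?_,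
    fun x C hC h => lp.norm_le_of_forall_le hC fun φ => ?_⟩
  · rw [closure_subtype]
    refine closure_mono (fun y hy => ?_) x.2
    have : U ≤ (Submodule.span ℝ (Set.range fun l => (⟨E l, U.le_topologicalClosure
        (Submodule.subset_span ⟨l, rfl⟩)⟩ : U.topologicalClosure))).map
        U.topologicalClosure.subtype := by
      rw [Submodule.map_span, ← Set.range_comp]; rfl
    exact this hy
  · show (if j ∈ ({i} : Finset ℕ) then (1:ℝ) else 0) = _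
    simp [eq_comm]
  · rw [one_mul]; exact hle _ _
  · exact (congrArg abs (key x.1 x.2 ⟨φ, hφ⟩)).ge.trans (hle _ _)
  · exact (congrArg abs (key x.1 x.2 φ)).le.trans (h _ φ.2)

end Pool.Agent.H97.Nfam
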