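import Mathlib

namespace Pool.Agent.H97.Nrm

open scoped BoundedContinuousFunction InnerProductSpace ComplexConjugate
open Filter Topology

noncomputable section

section Defs
variable {H : Type} [NormedAddCommGroup H] [InnerProductSpace ℂ H]

/-- the Hilbert space `H^k` -/
abbrev Hk (H : Type) (k : ℕ) := PiLp 2 (fun _ : Fin k => H)

/-- a column of operators, as an operator `H → H^k` -/
def colOp {k : ℕ} (C : Fin k → H →L[ℂ] H) : H →L[ℂ] Hk H k :=
  (PiLp.continuousLinearEquiv 2 ℂ (fun _ : Fin k => H)).symm.toContinuousLinearMap ∘L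
    ContinuousLinearMap.pi C

/-- a row of operators, as an operator `H^k → H` -/
def rowOp {k : ℕ} (R : Fin k → H →L[ℂ] H) : Hk H k →L[ℂ] H :=
  ∑ j, R j ∘L PiLp.proj 2 (fun _ : Fin k => H) j

/-- a square matrix of operators, as an operator `H^k → H^k` -/
def matOp {k : ℕ} (X : Fin k → Fin k → H →L[ℂ] H) : Hk H k →L[ℂ] Hk H k :=
  (PiLp.continuousLinearEquiv 2 ℂ (fun _ : Fin k => H)).symm.toContinuousLinearMap ∘L
    ContinuousLinearMap.pi (fun i => rowOp (X i))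

@[simp] theorem colOp_apply {k : ℕ} (C : Fin k → H →L[ℂ] H) (v : H) (i : Fin k) :
    colOp C v i = C i v := rfl

theorem rowOp_apply {k : ℕ} (R : Fin k → H →L[ℂ] H) (v : Hk H k) :
    rowOp R v = ∑ j, R j (v j) := by
  simp [rowOp, sum_apply]

theorem matOp_apply {k : ℕ} (X : Fin k → Fin k → H →L[ℂ] H) (v : Hk H k) (i : Fin k) :
    matOp X v i = ∑ j, X i j (v j) := rowOp_apply (X i) v

theorem norm_matOp_one (T : H →L[ℂ] H) : ‖matOp (fun _ _ : Fin 1 => T)‖ = ‖T‖ := by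
  apply le_antisymm
  · refine ContinuousLinearMap.opNorm_le_bound _ (norm_nonneg _) fun v => ?_
    rw [PiLp.norm_eq_of_L2, PiLp.norm_eq_of_L2]
    simp [matOp_apply, T.le_opNorm]
  · refine ContinuousLinearMap.opNorm_le_bound _ (ContinuousLinearMap.opNorm_nonneg _) fun v => ?_
    have := (matOp (fun _ _ : Fin 1 => T)).le_opNorm (WithLp.toLp 2 fun _ => v)
    rw [PiLp.norm_eq_of_L2, PiLp.norm_eq_of_L2] at this
    simpa [matOp_apply] using this

theorem norm_smul_vec {k : ℕ} (ξ : EuclideanSpace ℂ (Fin k)) (v : H) :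
    ‖(WithLp.toLp 2 fun j => ξ j • v : Hk H k)‖ = ‖ξ‖ * ‖v‖ := by
  rw [PiLp.norm_eq_of_L2, PiLp.norm_eq_of_L2]
  simp only [norm_smul, mul_pow]
  rw [← Finset.sum_mul, Real.sqrt_mul' _ (by positivity), Real.sqrt_sq (norm_nonneg _)]

theorem norm_comb_le {k : ℕ} (w : EuclideanSpace ℂ (Fin k)) (y : Hk H k) :
    ‖∑ i, conj (w i) • y i‖ ≤ ‖w‖ * ‖y‖ := by
  calc ‖∑ i, conj (w i) • y i‖ ≤ ∑ i, ‖w i‖ * ‖y i‖ := by
        refine (norm_sum_le _ _).trans (le_of_eq ?_)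
        simp [norm_smul]
    _ ≤ ‖w‖ * ‖y‖ := by
        rw [PiLp.norm_eq_of_L2, PiLp.norm_eq_of_L2]
        exact Real.sum_mul_le_sqrt_mul_sqrt _ _ _

theorem compress_le {k : ℕ} (X : Fin k → Fin k → H →L[ℂ] H) (w ξ : EuclideanSpace ℂ (Fin k)) :
    ‖∑ i, ∑ j, (conj (w i) * ξ j) • X i j‖ ≤ ‖matOp X‖ * ‖ξ‖ * ‖w‖ := by
  refine ContinuousLinearMap.opNorm_le_bound _ (by positivity) fun v => ?_
  have h1 := norm_comb_le w (matOp X (WithLp.toLp 2 fun j => ξ j • v))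
  have h2 := (matOp X).le_opNorm (WithLp.toLp 2 fun j => ξ j • v)
  rw [norm_smul_vec] at h2
  have h3 : (∑ i, ∑ j, (conj (w i) * ξ j) • X i j) v
      = ∑ i, conj (w i) • (matOp X (WithLp.toLp 2 fun j => ξ j • v)) i := by
    simp [matOp_apply, sum_apply, Finset.smul_sum, mul_smul]
  rw [h3]
  calc _ ≤ ‖w‖ * (‖matOp X‖ * (‖ξ‖ * ‖v‖)) := h1.trans (by gcongr)
    _ = _ := by ring

theorem inner_col_row [CompleteSpace H] {k : ℕ} (D : Fin k → H →L[ℂ] H) :
    rowOp (fun i => star (D i)) = ContinuousLinearMap.adjoint (colOp D) := by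
  rw [ContinuousLinearMap.eq_adjoint_iff]
  intro y v
  rw [rowOp_apply, sum_inner, PiLp.inner_apply]
  refine Finset.sum_congr rfl fun i _ => ?_
  rw [ContinuousLinearMap.star_eq_adjoint, ContinuousLinearMap.adjoint_inner_left, colOp_apply]

end Defs

/-- the Hilbert space of square summable sequences -/
abbrev L2 := lp (fun _ : ℕ => ℂ) 2

theorem sum_ap {ι : Type} (s : Finset ι) (f : ι → L2) (n : ℕ) :
    (∑ i ∈ s, f i) n = ∑ i ∈ s, f i n := by
  rw [lp.coeFn_sum, Finset.sum_apply]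

theorem hasSum_sq (v : L2) : HasSum (fun n => ‖v n‖ ^ 2) (‖v‖ ^ 2) := by
  have := lp.hasSum_norm (p := 2) (by norm_num) v
  simpa using this

theorem mem_mul (x : ℕ →ᵇ ℂ) (v : L2) : Memℓp (fun n => x n * v n) 2 := by
  refine (lp.memℓp ((‖x‖ : ℂ) • v)).mono' fun n => ?_
  simp only [norm_mul, lp.coeFn_smul, Pi.smul_apply, smul_eq_mul, Complex.norm_real, norm_norm]
  gcongr
  exact x.norm_coe_le_norm n

def diagL (x : ℕ →ᵇ ℂ) : L2 →L[ℂ] L2 :=
  LinearMap.mkContinuous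
    { toFun := fun v => ⟨fun n => x n * v n, mem_mul x v⟩
      map_add' := fun v w => by ext n; simp [mul_add]
      map_smul' := fun c v => by ext n; simp; ring } ‖x‖ (fun v => by
    have : ‖x‖ * ‖v‖ = ‖(‖x‖ : ℂ) • v‖ := by rw [norm_smul]; simp
    rw [this]
    refine lp.norm_mono (by norm_num) fun n => ?_
    simp only [LinearMap.coe_mk, AddHom.coe_mk, norm_mul, lp.coeFn_smul, Pi.smul_apply,
      smul_eq_mul, Complex.norm_real, norm_norm]
    gcongr
    exact x.norm_coe_le_norm n)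

@[simp] theorem diagL_apply (x : ℕ →ᵇ ℂ) (v : L2) (n : ℕ) : diagL x v n = x n * v n := rfl

/-- the diagonal representation of bounded sequences -/
def diag : (ℕ →ᵇ ℂ) →⋆ₐ[ℂ] (L2 →L[ℂ] L2) where
  toFun := diagL
  map_one' := by ext v n; simp
  map_mul' x y := by ext v n; simp [mul_assoc]
  map_zero' := by ext v n; simp
  map_add' x y := by ext v n; simp [add_mul]
  commutes' c := by ext v n; simp [Algebra.algebraMap_eq_smul_one]
  map_star' x := by
    rw [ContinuousLinearMap.star_eq_adjoint, ContinuousLinearMap.eq_adjoint_iff]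
    intro v w
    rw [lp.inner_eq_tsum, lp.inner_eq_tsum]
    congr 1; ext n
    simp; ring

@[simp] theorem diag_apply (x : ℕ →ᵇ ℂ) (v : L2) (n : ℕ) : diag x v n = x n * v n := rfl

theorem diag_single (x : ℕ →ᵇ ℂ) (n : ℕ) (a : ℂ) :
    diag x (lp.single 2 n a) = lp.single 2 n (x n * a) := by
  ext m
  by_cases h : m = n
  · subst h; simp
  · simp [Pi.single_apply, h]

theorem diag_inj : Function.Injective diag := by
  intro x y h
  ext n
  have := congrArg (fun T : L2 →L[ℂ] L2 => T (lp.single 2 n 1) n) h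
  simpa using this

/-- pointwise matrix bound -/
def PB {k : ℕ} (M : Fin k → Fin k → ℂ) (c : ℝ) : Prop :=
  ∀ ξ : Fin k → ℂ, ∑ i, ‖∑ j, M i j * ξ j‖ ^ 2 ≤ c ^ 2 * ∑ j, ‖ξ j‖ ^ 2

theorem matOp_diag_le {k : ℕ} (X : Fin k → Fin k → ℕ →ᵇ ℂ) {c : ℝ} (hc : 0 ≤ c) :
    ‖matOp (fun i j => diag (X i j))‖ ≤ c ↔ ∀ n, PB (fun i j => X i j n) c := by
  constructor
  · intro h n ξ
    have h1 := (matOp (fun i j => diag (X i j))).le_of_opNorm_le h
      (WithLp.toLp 2 fun j => lp.single 2 n (ξ j))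
    have h2 := pow_le_pow_left₀ (norm_nonneg _) h1 2
    rw [mul_pow, PiLp.norm_sq_eq_of_L2, PiLp.norm_sq_eq_of_L2] at h2
    simp only [matOp_apply, diag_single, lp.norm_single (p := 2) (by norm_num)] at h2
    refine le_trans (Finset.sum_le_sum fun i _ => ?_) h2
    gcongr
    have := lp.norm_apply_le_norm (p := 2) (by norm_num)
      (∑ j, lp.single (E := fun _ : ℕ => ℂ) 2 n (X i j n * ξ j)) n
    rw [sum_ap] at this
    simpa using this
  · intro h
    refine ContinuousLinearMap.opNorm_le_bound _ hc fun v => ?_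
    refine le_of_sq_le_sq ?_ (by positivity)
    rw [mul_pow, PiLp.norm_sq_eq_of_L2, PiLp.norm_sq_eq_of_L2]
    have h1 := hasSum_sum (s := Finset.univ)
      (fun i _ => hasSum_sq (matOp (fun i j => diag (X i j)) v i))
    have h2 := (hasSum_sum (s := Finset.univ) (fun i _ => hasSum_sq (v i))).mul_left (c ^ 2)
    refine hasSum_le (fun n => ?_) h1 h2
    have := h n (fun j => v j n)
    simpa only [matOp_apply, sum_ap, diag_apply] using this

theorem norm_col_diag {k : ℕ} (c : Fin k → ℕ →ᵇ ℂ) (h : ∀ n, ∑ i, ‖c i n‖ ^ 2 ≤ 1) :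
    ‖colOp (fun i => diag (c i))‖ ≤ 1 := by
  refine ContinuousLinearMap.opNorm_le_bound _ zero_le_one fun v => ?_
  refine le_of_sq_le_sq ?_ (by positivity)
  rw [one_mul, PiLp.norm_sq_eq_of_L2]
  have h1 := hasSum_sum (s := Finset.univ)
    (fun i _ => hasSum_sq (colOp (fun i => diag (c i)) v i))
  refine hasSum_le (fun n => ?_) h1 (hasSum_sq v)
  simp only [colOp_apply, diag_apply, norm_mul, mul_pow]
  rw [← Finset.sum_mul]
  nlinarith [h n, sq_nonneg ‖v n‖]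

/-- the limit along an ultrafilter -/
def ulim (U : Ultrafilter ℕ) (x : ℕ →ᵇ ℂ) : ℂ := (U.map x).lim

theorem tendsto_ulim (U : Ultrafilter ℕ) (x : ℕ →ᵇ ℂ) : Tendsto x U (𝓝 (ulim U x)) := by
  have hK := isCompact_closedBall (0 : ℂ) ‖x‖
  obtain ⟨a, -, ha⟩ := hK.ultrafilter_le_nhds (U.map x) (by
    rw [le_principal_iff]
    exact Filter.mem_map.2 (Filter.univ_mem' fun n => by
      simpa using x.norm_coe_le_norm n))
  exact le_nhds_lim ⟨a, ha⟩

def chi (U : Ultrafilter ℕ) : (ℕ →ᵇ ℂ) →⋆ₐ[ℂ] ℂ where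
  toFun := ulim U
  map_one' := tendsto_nhds_unique (tendsto_ulim U 1) tendsto_const_nhds
  map_mul' x y := tendsto_nhds_unique (tendsto_ulim U _) ((tendsto_ulim U x).mul (tendsto_ulim U y))
  map_zero' := tendsto_nhds_unique (tendsto_ulim U 0) tendsto_const_nhds
  map_add' x y := tendsto_nhds_unique (tendsto_ulim U _) ((tendsto_ulim U x).add (tendsto_ulim U y))
  commutes' c := tendsto_nhds_unique (tendsto_ulim U _) tendsto_const_nhds
  map_star' x := tendsto_nhds_unique (tendsto_ulim U _) (tendsto_ulim U x).star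

theorem tendsto_chi (U : Ultrafilter ℕ) (x : ℕ →ᵇ ℂ) : Tendsto x U (𝓝 (chi U x)) :=
  tendsto_ulim U x

theorem norm_chi_le (U : Ultrafilter ℕ) (x : ℕ →ᵇ ℂ) : ‖chi U x‖ ≤ ‖x‖ :=
  le_of_tendsto' (tendsto_chi U x).norm fun n => x.norm_coe_le_norm n

theorem chi_eq (U : Ultrafilter ℕ) (x : ℕ →ᵇ ℂ) (a : ℂ) (h : ∀ᶠ n in U, x n = a) : chi U x = a :=
  tendsto_nhds_unique (tendsto_chi U x) (tendsto_const_nhds.congr' (h.mono fun _ h => h.symm))

def U0 : Ultrafilter ℕ := (hyperfilter ℕ).map (fun n => 2 * n)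
def U1 : Ultrafilter ℕ := (hyperfilter ℕ).map (fun n => 2 * n + 1)

theorem ev0 {p : ℕ → Prop} (N : ℕ) (h : ∀ n, N ≤ n → p (2 * n)) : ∀ᶠ n in (U0 : Filter ℕ), p n := by
  have : ∀ᶠ n in (hyperfilter ℕ : Filter ℕ), p (2 * n) :=
    ((eventually_ge_atTop N).filter_mono Nat.hyperfilter_le_atTop).mono h
  exact this

theorem ev1 {p : ℕ → Prop} (N : ℕ) (h : ∀ n, N ≤ n → p (2 * n + 1)) :
    ∀ᶠ n in (U1 : Filter ℕ), p n := by
  have : ∀ᶠ n in (hyperfilter ℕ : Filter ℕ), p (2 * n + 1) :=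
    ((eventually_ge_atTop N).filter_mono Nat.hyperfilter_le_atTop).mono h
  exact this

def sigF (x : ℕ →ᵇ ℂ) : ℕ → ℂ
  | 0 => chi U0 x
  | 1 => chi U1 x
  | (n + 2) => x n

theorem sigF_le (x : ℕ →ᵇ ℂ) : ∀ n, ‖sigF x n‖ ≤ ‖x‖
  | 0 => norm_chi_le _ _
  | 1 => norm_chi_le _ _
  | (n + 2) => x.norm_coe_le_norm n

def sigB (x : ℕ →ᵇ ℂ) : ℕ →ᵇ ℂ :=
  BoundedContinuousFunction.ofNormedAddCommGroupDiscrete (sigF x) ‖x‖ (sigF_le x)

@[simp] theorem sigB_0 (x : ℕ →ᵇ ℂ) : sigB x 0 = chi U0 x := rfl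
@[simp] theorem sigB_1 (x : ℕ →ᵇ ℂ) : sigB x 1 = chi U1 x := rfl
@[simp] theorem sigB_2 (x : ℕ →ᵇ ℂ) (n : ℕ) : sigB x (n + 2) = x n := rfl

theorem ext3 {x y : ℕ →ᵇ ℂ} (h0 : x 0 = y 0) (h1 : x 1 = y 1) (h2 : ∀ n, x (n + 2) = y (n + 2)) :
    x = y := by
  ext n
  match n with
  | 0 => exact h0
  | 1 => exact h1
  | (n + 2) => exact h2 n

def sig : (ℕ →ᵇ ℂ) →⋆ₐ[ℂ] (ℕ →ᵇ ℂ) where
  toFun := sigB
  map_one' := ext3 (by simp) (by simp) (by simp)
  map_mul' x y := ext3 (by simp) (by simp) (by simp)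
  map_zero' := ext3 (by simp) (by simp) (by simp)
  map_add' x y := ext3 (by simp) (by simp) (by simp)
  commutes' c := ext3 (by simp [AlgHomClass.commutes]) (by simp [AlgHomClass.commutes]) (by simp)
  map_star' x := ext3 (by simp [map_star]) (by simp [map_star]) (by simp)

@[simp] theorem sig_0 (x : ℕ →ᵇ ℂ) : sig x 0 = chi U0 x := rfl
@[simp] theorem sig_1 (x : ℕ →ᵇ ℂ) : sig x 1 = chi U1 x := rfl
@[simp] theorem sig_2 (x : ℕ →ᵇ ℂ) (n : ℕ) : sig x (n + 2) = x n := rfl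

theorem PB_chi {k : ℕ} (U : Ultrafilter ℕ) (X : Fin k → Fin k → ℕ →ᵇ ℂ) {c : ℝ}
    (h : ∀ n, PB (fun i j => X i j n) c) : PB (fun i j => chi U (X i j)) c := by
  intro ξ
  have : Tendsto (fun n => ∑ i, ‖∑ j, X i j n * ξ j‖ ^ 2) U
      (𝓝 (∑ i, ‖∑ j, chi U (X i j) * ξ j‖ ^ 2)) :=
    tendsto_finsetSum _ fun i _ =>
      (tendsto_finsetSum _ fun j _ => (tendsto_chi U (X i j)).mul_const _).norm.pow 2
  exact le_of_tendsto' this fun n => h n ξ

theorem matOp_sig {k : ℕ} (X : Fin k → Fin k → ℕ →ᵇ ℂ) :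
    ‖matOp (fun i j => diag (sig (X i j)))‖ = ‖matOp (fun i j => diag (X i j))‖ := by
  apply le_antisymm
  · rw [matOp_diag_le _ (norm_nonneg _)]
    have h := (matOp_diag_le X (norm_nonneg _)).1 le_rfl
    intro n
    match n with
    | 0 => exact PB_chi U0 X h
    | 1 => exact PB_chi U1 X h
    | (n + 2) => exact h n
  · rw [matOp_diag_le _ (norm_nonneg _)]
    have h := (matOp_diag_le (fun i j => sig (X i j)) (norm_nonneg _)).1 le_rfl
    exact fun n => h (n + 2)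

theorem norm_diag (x : ℕ →ᵇ ℂ) : ‖diag x‖ = ‖x‖ :=
  NonUnitalStarAlgHom.norm_map diag diag_inj x

end

end Pool.Agent.H97.Nrm
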