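import Mathlib

open Set Filter Topology Function

namespace Pool.Agent.H97.Oaj

/-- orthogonally additive maps -/
def OA {E F : Type} [AddCommGroup E] [Lattice E] [AddCommGroup F] (T : E → F) : Prop :=
  ∀ x y, |x| ⊓ |y| = 0 → T (x + y) = T x + T y

noncomputable def avg (k : ℕ) (x : ℕ → ℝ) : ℝ := (∑ i ∈ Finset.range (2 ^ k), x i) / 2 ^ k

noncomputable def L (x : ℕ → ℝ) : ℝ := limUnder atTop fun k => avg k x

theorem per_mono {α : Type} {x : ℕ → α} {n m : ℕ} (h : Periodic x (2 ^ n)) (hm : n ≤ m) :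
    Periodic x (2 ^ m) := by
  obtain ⟨j, rfl⟩ := Nat.exists_eq_add_of_le hm
  simpa [pow_add, mul_comm] using h.nat_mul (2 ^ j)

theorem avg_eq {x : ℕ → ℝ} {n k : ℕ} (h : Periodic x (2 ^ n)) (hk : n ≤ k) : avg k x = avg n x := by
  induction k, hk using Nat.le_induction with
  | base => rfl
  | succ k hk ih =>
    rw [← ih, avg, avg, pow_succ 2 k, mul_two, Finset.sum_range_add]
    simp only [add_comm (2 ^ k), per_mono h hk _]
    field_simp; ring

theorem avg_L {x : ℕ → ℝ} {n k : ℕ} (h : Periodic x (2 ^ n)) (hk : n ≤ k) : avg k x = L x := by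
  rw [avg_eq h hk]
  exact (Tendsto.limUnder_eq (tendsto_const_nhds.congr' ((eventually_ge_atTop n).mono
    fun k hk => (avg_eq h hk).symm))).symm

/-- dyadically periodic -/
def P {α : Type} (x : ℕ → α) : Prop := ∃ n, Periodic x (2 ^ n)

theorem P.two {α β γ : Type} {x : ℕ → α} {y : ℕ → β} (hx : P x) (hy : P y) (f : α → β → γ) :
    P fun i => f (x i) (y i) := by
  obtain ⟨n, hn⟩ := hx
  obtain ⟨m, hm⟩ := hy
  exact ⟨max n m, fun i => by
    simp only [per_mono hn (le_max_left _ _) i, per_mono hm (le_max_right _ _) i]⟩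

theorem P.ev {x : ℕ → ℝ} (hx : P x) : ∀ᶠ k in atTop, avg k x = L x := by
  obtain ⟨n, hn⟩ := hx
  exact (eventually_ge_atTop n).mono fun k hk => avg_L hn hk

theorem avg_add (k : ℕ) (x y : ℕ → ℝ) : avg k (x + y) = avg k x + avg k y := by
  simp [avg, Finset.sum_add_distrib, add_div]

theorem avg_mono (k : ℕ) {x y : ℕ → ℝ} (h : x ≤ y) : avg k x ≤ avg k y := by
  unfold avg; gcongr with i; exact h i

theorem L_add {x y : ℕ → ℝ} (hx : P x) (hy : P y) : L (x + y) = L x + L y := by
  obtain ⟨k, ⟨a, b⟩, c⟩ := ((hx.ev.and hy.ev).and (hx.two hy (· + ·)).ev).exists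
  rw [← a, ← b, ← avg_add]; exact c.symm

theorem L_mono {x y : ℕ → ℝ} (hx : P x) (hy : P y) (h : x ≤ y) : L x ≤ L y := by
  obtain ⟨k, a, b⟩ := (hx.ev.and hy.ev).exists
  rw [← a, ← b]; exact avg_mono k h

theorem L_const (c : ℝ) : L (fun _ => c) = c := by
  rw [← avg_L (n := 0) (fun _ => rfl) le_rfl]; simp [avg]

theorem L_zero : L 0 = 0 := L_const 0

theorem P.ind {A : Set ℕ} (hA : P (· ∈ A)) {x : ℕ → ℝ} (hx : P x) : P (A.indicator x) := by
  classical
  simpa only [← Set.indicator_apply] using hA.two hx fun p r => if p then r else 0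

def D (k : ℕ) (s : List ℕ) : Set ℕ :=
  if s = [] then {_i | Even k} else {i | i % 2 ^ (s.length + 1) = k % 2 ^ (s.length + 1)}

def C : List ℕ → Set ℕ
  | [] => ∅
  | k :: s => C s ∪ D k s

theorem D_per (k : ℕ) (s : List ℕ) : Periodic (· ∈ D k s) (2 ^ (s.length + 1)) := fun i => by
  unfold D; split_ifs <;> simp

theorem C_per (s : List ℕ) : Periodic (· ∈ C s) (2 ^ s.length) := by
  induction s with
  | nil => intro i; simp [C]
  | cons k s ih =>
    intro i
    have := per_mono ih (Nat.le_succ _) i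
    have h2 := D_per k s i
    simp only [C, mem_union, List.length_cons] at *
    rw [this, h2]

theorem DC_per (k : ℕ) (s : List ℕ) : Periodic (· ∈ D k s \ C s) (2 ^ (s.length + 1)) := fun i => by
  have := per_mono (C_per s) (Nat.le_succ _) i
  have h2 := D_per k s i
  simp only [Set.mem_sdiff] at *
  rw [this, h2]

noncomputable def μ : List ℕ → (ℕ → ℝ) → ℝ
  | [], _ => 0
  | k :: s, g => μ s g + (L ((D k s \ C s).indicator g) - avg k ((D k s \ C s).indicator g))

theorem μ_ev (s : List ℕ) {g : ℕ → ℝ} (hg : P g) : ∀ᶠ k in atTop, μ (k :: s) g = μ s g := by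
  classical
  obtain ⟨n, hn⟩ := hg
  filter_upwards [eventually_ge_atTop (max n (s.length + 1))] with k hk
  rw [μ, avg_L (n := max n (s.length + 1)) _ hk, sub_self, add_zero]
  intro i
  simp only [Set.indicator_apply, per_mono hn (le_max_left _ _) i]
  congr 1
  exact per_mono (DC_per k s) (le_max_right _ _) i

theorem μ_add (s : List ℕ) {g g' : ℕ → ℝ} (hg : P g) (hg' : P g') :
    μ s (g + g') = μ s g + μ s g' := by
  induction s with
  | nil => simp [μ]
  | cons k s ih =>
    simp only [μ, ih, indicator_add', avg_add,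
      L_add (P.ind ⟨_, DC_per k s⟩ hg) (P.ind ⟨_, DC_per k s⟩ hg')]
    ring

theorem L_step (k : ℕ) (s : List ℕ) {g : ℕ → ℝ} (hg : P g) : L ((C (k :: s)).indicator g) =
    L ((C s).indicator g) + L ((D k s \ C s).indicator g) := by
  rw [← L_add (P.ind ⟨_, C_per s⟩ hg) (P.ind ⟨_, DC_per k s⟩ hg), C, ← union_sdiff_self,
    indicator_union_of_disjoint disjoint_sdiff_right]
  rfl

theorem μ_le (s : List ℕ) {g : ℕ → ℝ} (hg : P g) (h0 : 0 ≤ g) :
    μ s g ≤ L ((C s).indicator g) := by
  induction s with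
  | nil => simp [μ, C, L_const]
  | cons k s ih =>
    have : avg k 0 ≤ avg k ((D k s \ C s).indicator g) :=
      avg_mono k fun i => indicator_nonneg (fun j _ => h0 j) i
    rw [μ, L_step k s hg]
    simp only [avg, Pi.zero_apply, Finset.sum_const_zero, zero_div] at this ⊢
    linarith

theorem μ_eq (s : List ℕ) : ∃ M, ∀ g : ℕ → ℝ, P g → (∀ i < M, g i = 0) →
    μ s g = L ((C s).indicator g) := by
  induction s with
  | nil => exact ⟨0, fun g _ _ => by simp [μ, C, L_const]⟩
  | cons k s ih =>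
    obtain ⟨M, hM⟩ := ih
    refine ⟨max M (2 ^ k), fun g hg h => ?_⟩
    rw [μ, L_step k s hg, hM g hg fun i hi => h i (lt_max_of_lt_left hi), avg,
      Finset.sum_eq_zero, zero_div, sub_zero]
    intro i hi
    exact indicator_apply_eq_zero.2 fun _ => h i (lt_max_of_lt_right (Finset.mem_range.1 hi))

theorem μ_approx (s : List ℕ) {g : ℕ → ℝ} (hg : P g) (h0 : 0 ≤ g) {ε : ℝ} (hε : 0 < ε) :
    ∃ A : Set ℕ, P (· ∈ A) ∧ L ((C s).indicator g) - ε ≤ μ s (A.indicator g) := by
  obtain ⟨M, hM⟩ := μ_eq s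
  set y := (C s).indicator g
  have hy : P y := P.ind ⟨_, C_per s⟩ hg
  obtain ⟨n, hn⟩ := id hy
  have h1 : Tendsto (fun N : ℕ => (∑ i ∈ Finset.range M, y i) / 2 ^ N) atTop (𝓝 0) :=
    tendsto_const_nhds.div_atTop (tendsto_pow_atTop_atTop_of_one_lt one_lt_two)
  obtain ⟨N, ⟨h2, h3⟩, h4⟩ := (((h1.eventually (eventually_lt_nhds hε)).and
    (eventually_ge_atTop n)).and (eventually_ge_atTop M)).exists
  have h5 : M ≤ 2 ^ N := h4.trans (Nat.lt_two_pow_self).le
  have hA : Periodic (· ∈ {i | M ≤ i % 2 ^ N}) (2 ^ N) := fun i => by simp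
  refine ⟨{i | M ≤ i % 2 ^ N}, ⟨N, hA⟩, ?_⟩
  rw [hM _ (P.ind ⟨N, hA⟩ hg) fun i hi => indicator_of_notMem (by
    simpa [Nat.mod_eq_of_lt (hi.trans_le h5)] using hi) _, indicator_indicator, inter_comm,
    ← indicator_indicator, ← avg_L hn h3, ← avg_L (n := N) (k := N) _ le_rfl]
  · obtain ⟨j, hj⟩ := Nat.exists_eq_add_of_le h5
    have e : ∑ i ∈ Finset.range (2 ^ N), y i = ∑ i ∈ Finset.range M, y i +
        ∑ i ∈ Finset.range (2 ^ N), {i | M ≤ i % 2 ^ N}.indicator y i := by
      simp only [Finset.range_eq_Ico]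
      rw [← Finset.sum_Ico_consecutive _ (Nat.zero_le M) h5,
        ← Finset.sum_Ico_consecutive _ (Nat.zero_le M) h5]
      congr 1
      rw [Finset.sum_eq_zero (s := Finset.Ico 0 M), zero_add]
      · refine Finset.sum_congr rfl fun i hi => (indicator_of_mem ?_ _).symm
        rw [Finset.mem_Ico] at hi
        simpa [Nat.mod_eq_of_lt hi.2] using hi.1
      · intro i hi
        rw [Finset.mem_Ico] at hi
        exact indicator_of_notMem (by simpa [Nat.mod_eq_of_lt (hi.2.trans_le h5)] using hi.2) _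
    rw [avg, avg, e, add_div]
    linarith
  · classical
    intro i
    simp only [Set.indicator_apply (s := {i | M ≤ i % 2 ^ N})]
    congr 1
    · exact hA i
    · exact per_mono hn h3 i

theorem mass (t : List ℕ) {k : ℕ} (hk : ¬ Even k) :
    L ((C (t ++ [k])).indicator fun _ => 1) ≤ 1 / 2 - 1 / 2 ^ (t ++ [k]).length := by
  induction t with
  | nil => simp [C, D, hk, L_const]
  | cons j t ih =>
    have h1 : P fun _ : ℕ => (1:ℝ) := ⟨0, fun _ => rfl⟩
    rw [List.cons_append, L_step _ _ h1, List.length_cons]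
    set s := t ++ [k]
    have h2 := L_mono (P.ind ⟨_, DC_per j s⟩ h1) (P.ind ⟨_, D_per j s⟩ h1)
      (indicator_le_indicator_of_subset sdiff_subset fun _ => zero_le_one)
    have h3 : L ((D j s).indicator fun _ => 1) = 1 / 2 ^ (s.length + 1) := by
      classical
      rw [← avg_L (n := s.length + 1) _ le_rfl, avg,
        Finset.sum_eq_single (j % 2 ^ (s.length + 1))]
      · rw [indicator_of_mem]
        simp [D, s]
      · intro i hi h
        refine indicator_of_notMem ?_ _
        rw [D, if_neg (by simp [s]), mem_ofPred_eq, Nat.mod_eq_of_lt (Finset.mem_range.1 hi)]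
        exact h
      · intro h
        exact absurd (Finset.mem_range.2 (Nat.mod_lt _ (by positivity))) h
      · intro i
        simp only [Set.indicator_apply]
        congr 1
        exact D_per j s i
    have : (1:ℝ) / 2 ^ s.length = 2 * (1 / 2 ^ (s.length + 1)) := by field_simp; ring
    linarith

def E : Submodule ℝ (ℕ → ℝ) where
  carrier := {x | P x}
  add_mem' a b := a.two b (· + ·)
  zero_mem' := ⟨0, fun _ => rfl⟩
  smul_mem' c _ a := a.two a fun r _ => c * r

def F : Submodule ℝ (List ℕ → ℝ) where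
  carrier := {f | ∀ s, Tendsto (fun k => f (k :: s)) atTop (𝓝 (f s))}
  add_mem' a b s := (a s).add (b s)
  zero_mem' _ := tendsto_const_nhds
  smul_mem' c _ a s := (a s).const_mul c

noncomputable instance : Lattice E :=
  Subtype.lattice (fun _ _ a b => P.two a b max) fun _ _ a b => P.two a b min

noncomputable instance : Lattice F :=
  Subtype.lattice (fun _ _ a b s => (a s).max (b s)) fun _ _ a b s => (a s).min (b s)

instance : PosSMulMono ℝ E := ⟨fun _ hc _ _ h i => mul_le_mul_of_nonneg_left (h i) hc⟩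

instance : PosSMulMono ℝ F := ⟨fun _ hc _ _ h i => mul_le_mul_of_nonneg_left (h i) hc⟩

theorem abs_coe (x : E) : (|x|).1 = fun i => |x.1 i| := rfl

noncomputable def S (x : E) : F :=
  ⟨fun s => μ s (|x|).1, fun s => tendsto_const_nhds.congr' ((μ_ev s (|x|).2).mono fun _ h => h.symm)⟩

noncomputable def J (x : E) : F := ⟨fun _ => L (|x|).1, fun _ => tendsto_const_nhds⟩

theorem abs_add {x y : E} (h : |x| ⊓ |y| = 0) : (|x + y|).1 = (|x|).1 + (|y|).1 := by
  ext i
  have : min |x.1 i| |y.1 i| = 0 := congrFun (congrArg Subtype.val h) i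
  show |x.1 i + y.1 i| = |x.1 i| + |y.1 i|
  rcases min_eq_iff.1 this with ⟨a, -⟩ | ⟨a, -⟩ <;> simp [abs_eq_zero.1 a]

theorem S_oa : OA S := fun x y h => Subtype.ext (funext fun s => by
  show μ s _ = μ s _ + μ s _
  rw [abs_add h, μ_add s (|x|).2 (|y|).2])

theorem J_oa : OA J := fun x y h => Subtype.ext (funext fun s => by
  show L _ = L _ + L _
  rw [abs_add h, L_add (|x|).2 (|y|).2])

theorem abs_nn (x : E) : 0 ≤ (|x|).1 := fun _ => abs_nonneg _

theorem S_le (x : E) : S x ≤ J x := fun s => (μ_le s (|x|).2 (abs_nn x)).trans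
  (L_mono (P.ind ⟨_, C_per s⟩ (|x|).2) (|x|).2 (indicator_le_self' fun i _ => abs_nn x i))

theorem J_nn (x : E) : 0 ≤ J x := fun _ =>
  L_zero.ge.trans (L_mono ⟨0, fun _ => rfl⟩ (|x|).2 (abs_nn x))

noncomputable def cut (A : Set ℕ) (hA : P (· ∈ A)) (x : E) : E := ⟨A.indicator x.1, hA.ind x.2⟩

theorem abs_cut (A : Set ℕ) (hA : P (· ∈ A)) (x : E) : (|cut A hA x|).1 = A.indicator (|x|).1 := by
  ext i
  by_cases h : i ∈ A <;> simp [abs_coe, cut, h]

theorem cut_disj {A B : Set ℕ} (hA : P (· ∈ A)) (hB : P (· ∈ B)) (h : Disjoint A B) (x : E) :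
    |cut A hA x| ⊓ |cut B hB x| = 0 := by
  ext i
  show min |A.indicator x.1 i| |B.indicator x.1 i| = 0
  by_cases h' : i ∈ A
  · simp [indicator_of_notMem (disjoint_left.1 h h')]
  · simp [indicator_of_notMem h']

theorem P.compl {A : Set ℕ} (hA : P (· ∈ A)) : P (· ∈ Aᶜ) := hA.two hA fun p _ => ¬ p

theorem cut_add (A : Set ℕ) (hA : P (· ∈ A)) (x : E) : cut A hA x + cut Aᶜ hA.compl x = x :=
  Subtype.ext (indicator_self_add_compl A x.1)

theorem low (x : E) (h : F) (hh : ∀ u v : E, u + v = x → |u| ⊓ |v| = 0 → S u ≤ h) (s : List ℕ) :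
    L ((C s).indicator (|x|).1) ≤ h.1 s := by
  refine le_of_forall_pos_le_add fun ε hε => ?_
  obtain ⟨A, hA, h1⟩ := μ_approx s (|x|).2 (abs_nn x) hε
  have : μ s _ ≤ h.1 s := hh _ _ (cut_add A hA x) (cut_disj _ _ disjoint_compl_right x) s
  rw [abs_cut] at this
  linarith

theorem least (Q : E → F) (hQ : OA Q) (h1 : ∀ x, S x ≤ Q x) (h2 : ∀ x, 0 ≤ Q x) (x : E) :
    J x ≤ Q x := by
  have key : ∀ s, s ≠ [] → L (|x|).1 ≤ (Q x).1 s := fun s hs => by
    set m := 2 ^ (s.length + 1) with hm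
    have hA : ∀ j, P (· ∈ {i | i % m < j}) := fun j => ⟨s.length + 1, fun i => by simp [hm]⟩
    have hB : ∀ j, P (· ∈ {i | i % m = j}) := fun j => ⟨s.length + 1, fun i => by simp [hm]⟩
    have : ∀ j ≤ m, L ({i | i % m < j}.indicator (|x|).1) ≤ (Q (cut _ (hA j) x)).1 s := by
      intro j
      induction j with
      | zero => intro _; simpa [L_const] using h2 _ s
      | succ j ih =>
        intro hj
        have hd : Disjoint {i | i % m < j} {i | i % m = j} :=
          disjoint_left.2 fun i a b => absurd a (by simp only [mem_ofPred_eq] at b ⊢; omega)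
        have hu : {i | i % m < j + 1} = {i | i % m < j} ∪ {i | i % m = j} := by
          ext i; simp only [mem_ofPred_eq, mem_union]; omega
        have e : cut _ (hA (j + 1)) x = cut _ (hA j) x + cut _ (hB j) x := Subtype.ext (by
          show Set.indicator _ _ = _
          rw [hu, indicator_union_of_disjoint hd]; rfl)
        rw [e, hQ _ _ (cut_disj _ _ hd x), hu, indicator_union_of_disjoint hd]
        refine (L_add ((hA j).ind (|x|).2) ((hB j).ind (|x|).2)).le.trans
          (add_le_add (ih (by omega)) ?_)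
        refine ge_of_tendsto_of_frequently ((Q (cut _ (hB j) x)).2 s) (frequently_atTop.2 fun N =>
          ⟨j + N * m, by nlinarith, le_trans (le_of_eq ?_) (low (cut _ (hB j) x) _ (fun u v a b => ?_) _)⟩)
        · rw [abs_cut, indicator_indicator, inter_eq_right.2]
          intro i hi
          refine Or.inr ?_
          simp only [D, if_neg hs, mem_ofPred_eq, ← hm, Nat.add_mul_mod_self_right]
          rw [Nat.mod_eq_of_lt (show j < m by omega)]; exact hi
        · rw [← a, hQ _ _ b]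
          exact le_add_of_le_of_nonneg (h1 u) (h2 v)
    have h3 := this m le_rfl
    have hu : {i | i % m < m} = univ := eq_univ_of_forall fun i => Nat.mod_lt _ (by positivity)
    have e : cut _ (hA m) x = x := Subtype.ext (by show Set.indicator _ _ = _; simp [hu])
    rwa [e, hu, indicator_univ] at h3
  rintro (_ | ⟨k, s⟩)
  · exact ge_of_tendsto' ((Q x).2 []) fun k => key _ (by simp)
  · exact key _ (by simp)

def one : E := ⟨fun _ => 1, 0, fun _ => rfl⟩

theorem nolub : ¬ ∃ h, IsLUB {w | ∃ u v : E, u + v = one ∧ |u| ⊓ |v| = 0 ∧ w = S u + 0} h := by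
  classical
  rintro ⟨h, h1, h2⟩
  have a1 : ∀ k, Even k → 1 ≤ h.1 [k] := fun k hk => by
    have := low one h (fun u v a b => h1 ⟨u, v, a, b, (add_zero _).symm⟩) [k]
    simpa [C, D, hk, abs_coe, one, L_const] using this
  have a2 : ∀ k, ¬ Even k → h.1 [k] ≤ 1 / 2 := fun k hk => by
    have hf : (fun s : List ℕ => if s.getLast? = some k then (1 / 2 : ℝ) else 1) ∈ F := by
      rintro (_ | ⟨j, s⟩)
      · refine tendsto_const_nhds.congr' ((eventually_gt_atTop k).mono fun i hi => ?_)
        simp [hi.ne']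
      · simp [List.getLast?_cons_cons]
    have : h ≤ ⟨_, hf⟩ := h2 (by
      rintro _ ⟨u, v, a, b, rfl⟩ s
      have hu : (|u|).1 ≤ fun _ => 1 := fun i => by
        have := congrFun (abs_add b) i
        rw [a] at this
        simp only [abs_coe, one, abs_one, Pi.add_apply] at this ⊢
        linarith [abs_nonneg (v.1 i)]
      have h3 : P fun _ : ℕ => (1:ℝ) := one.2
      have h4 := (μ_le s (|u|).2 (abs_nn u)).trans (L_mono (P.ind ⟨_, C_per s⟩ (|u|).2)
        (P.ind ⟨_, C_per s⟩ h3) fun i => indicator_le_indicator (hu i))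
      rw [add_zero]
      show μ s _ ≤ if _ then _ else _
      split_ifs with hs
      · obtain ⟨t, rfl⟩ := List.getLast?_eq_some_iff.1 hs
        refine h4.trans ((mass t hk).trans (sub_le_self _ (by positivity)))
      · refine h4.trans ((L_mono (P.ind ⟨_, C_per s⟩ h3) h3
          (indicator_le_self' fun _ _ => zero_le_one)).trans (L_const 1).le))
    simpa using this [k]
  have b1 : 1 ≤ h.1 [] := ge_of_tendsto_of_frequently (h.2 [])
    (frequently_atTop.2 fun N => ⟨2 * N, by omega, a1 _ (by simp)⟩)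
  have b2 : h.1 [] ≤ 1 / 2 := le_of_tendsto_of_frequently (h.2 [])
    (frequently_atTop.2 fun N => ⟨2 * N + 1, by omega, a2 _ (by simp)⟩)
  linarith

theorem arch (x y : F) (h : ∀ n : ℕ, n • x ≤ y) : x ≤ 0 := fun s => by
  by_contra! h'
  obtain ⟨n, hn⟩ := Archimedean.arch (y.1 s + 1) h'
  have : n • x.1 s ≤ y.1 s := h n s
  linarith

end Pool.Agent.H97.Oaj
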