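import Pool.Agent.H97.OneRadiusDefs

set_option autoImplicit false

namespace Pool.Agent.H97.OneRadius

open MeasureTheory Filter Topology Set
open scoped ComplexConjugate

variable {n : ℕ}

noncomputable def S (x : Fin n → ℂ) : ℝ := ∑ j, ‖x j‖ ^ 2
noncomputable def ip (w z : Fin n → ℂ) : ℂ := ∑ j, w j * conj (z j)

lemma S_nonneg (x : Fin n → ℂ) : 0 ≤ S x := Finset.sum_nonneg fun _ _ => sq_nonneg _

lemma ip_self (x : Fin n → ℂ) : ip x x = S x := by
  simp [ip, S, Complex.mul_conj']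

lemma S_smul (c : ℂ) (x : Fin n → ℂ) : S (c • x) = ‖c‖ ^ 2 * S x := by
  simp [S, Finset.mul_sum, mul_pow]

lemma S_zero {x : Fin n → ℂ} (h : S x = 0) : x = 0 := by
  ext j
  have := (Finset.sum_eq_zero_iff_of_nonneg fun j _ => sq_nonneg ‖x j‖).mp h j (Finset.mem_univ j)
  simpa using this

lemma ip_le (w z : Fin n → ℂ) : ‖ip w z‖ ^ 2 ≤ S w * S z := by
  refine le_trans ?_ (Finset.sum_mul_sq_le_sq_mul_sq Finset.univ (fun j => ‖w j‖) fun j => ‖z j‖)
  gcongr
  refine (norm_sum_le _ _).trans (le_of_eq ?_)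
  simp

lemma S_comb (c : ℂ) (s : ℝ) (z w : Fin n → ℂ) : ((S (c • z - (s : ℂ) • w) : ℝ) : ℂ) =
    c * conj c * S z - c * s * conj (ip w z) - conj c * s * ip w z + s ^ 2 * S w := by
  rw [← ip_self, ← ip_self, ← ip_self]
  simp only [ip, map_sum, Finset.mul_sum, ← Finset.sum_sub_distrib, ← Finset.sum_add_distrib]
  refine Finset.sum_congr rfl fun j _ => ?_
  simp
  ring

lemma phi_ident {z : Fin n → ℂ} (hz : S z < 1) (w : Fin n → ℂ) (h : 1 - ip w z ≠ 0) :
    1 - S (phi z w) = (1 - S z) * (1 - S w) / ‖1 - ip w z‖ ^ 2 := by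
  have hn : ‖1 - ip w z‖ ≠ 0 := norm_ne_zero_iff.mpr h
  set s := √(1 - S z) with hs
  have hs2 : s ^ 2 = 1 - S z := Real.sq_sqrt (by linarith)
  have e : phi z w = (1 - ip w z)⁻¹ •
      ((1 - ip w z / S z + s * (ip w z / S z)) • z - (s : ℂ) • w) := by
    rw [← ip_self]
    unfold phi
    congr 1
    change z - (ip w z / ip z z) • z - (s : ℂ) • (w - (ip w z / ip z z) • z) = _
    module
  have key : S ((1 - ip w z / S z + s * (ip w z / S z)) • z - (s : ℂ) • w) =
      ‖1 - ip w z‖ ^ 2 - (1 - S z) * (1 - S w) := by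
    apply Complex.ofReal_injective
    rw [S_comb]
    push_cast
    rw [← Complex.mul_conj']
    have hs2' : (s : ℂ) ^ 2 = 1 - S z := by exact_mod_cast hs2
    by_cases h0 : S z = 0
    · have hz0 := S_zero h0
      have : ip w z = 0 := by simp [ip, hz0]
      simp only [this, h0] at hs2' ⊢
      simp [hs2']
    · have h0' : (S z : ℂ) ≠ 0 := by exact_mod_cast h0
      simp only [map_add, map_sub, map_mul, map_div₀, map_one, Complex.conj_ofReal]
      field_simp
      linear_combination (S w * S z - ip w z * conj (ip w z)) * hs2'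
  rw [e, S_smul, key, norm_inv]
  field_simp
  ring

lemma one_sub_ip {z w : Fin n → ℂ} (hz : S z < 1) (hw : S w < 1) :
    (1 - S z) / 2 ≤ ‖1 - ip w z‖ ∧ ‖1 - ip w z‖ ≤ 2 := by
  have h1 := ip_le w z
  have h2 : ‖ip w z‖ ^ 2 ≤ S z := by nlinarith [S_nonneg z, S_nonneg w]
  have h3 : ‖ip w z‖ ≤ (1 + S z) / 2 := by nlinarith [sq_nonneg (‖ip w z‖ - 1)]
  have h4 := norm_sub_norm_le (1 : ℂ) (ip w z)
  have h5 := norm_sub_le (1 : ℂ) (ip w z)
  rw [norm_one] at h4 h5
  constructor <;> linarith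

lemma ip_ne {z w : Fin n → ℂ} (hz : S z < 1) (hw : S w < 1) : 1 - ip w z ≠ 0 :=
  norm_pos_iff.mp (lt_of_lt_of_le (by linarith) (one_sub_ip hz hw).1)

lemma phi_mem {z w : Fin n → ℂ} (hz : S z < 1) (hw : S w < 1) : S (phi z w) < 1 := by
  have h := phi_ident hz w (ip_ne hz hw)
  have h1 : 0 < (1 - S z) * (1 - S w) / ‖1 - ip w z‖ ^ 2 :=
    div_pos (mul_pos (by linarith) (by linarith)) (pow_pos (norm_pos_iff.mpr (ip_ne hz hw)) 2)
  linarith

lemma phi_log {z w : Fin n → ℂ} (hz : S z < 1) (hw : S w < 1) :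
    |(-Real.log (1 - S (phi z w))) - (-Real.log (1 - S w))| ≤ Real.log (4 / (1 - S z)) := by
  have hz' : 0 < 1 - S z := by linarith
  have hw' : 0 < 1 - S w := by linarith
  obtain ⟨h1, h2⟩ := one_sub_ip hz hw
  have h3 : 0 < ‖1 - ip w z‖ := norm_pos_iff.mpr (ip_ne hz hw)
  have e : (-Real.log (1 - S (phi z w))) - (-Real.log (1 - S w)) =
      Real.log (‖1 - ip w z‖ ^ 2 / (1 - S z)) := by
    rw [phi_ident hz w (ip_ne hz hw), Real.log_div (by positivity) (by positivity),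
      Real.log_mul hz'.ne' hw'.ne', Real.log_div (by positivity) hz'.ne']
    ring
  rw [e, abs_le, ← Real.log_inv]
  constructor
  · refine Real.log_le_log (by positivity) ?_
    rw [inv_div, div_le_div_iff₀ (by norm_num) hz']
    nlinarith
  · refine Real.log_le_log (by positivity) ?_
    gcongr
    nlinarith

noncomputable def g (L : ℝ) : ℝ := (1 - Real.exp (-L)) * Real.sin (Real.log (1 + L))

noncomputable def U (x : Fin n → ℂ) : ℝ := S x * Real.sin (Real.log (1 - Real.log (1 - S x)))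

lemma U_eq {x : Fin n → ℂ} (hx : S x < 1) : U x = g (-Real.log (1 - S x)) := by
  rw [U, g, neg_neg, Real.exp_log (by linarith)]
  congr 1
  ring

lemma U_le (x : Fin n → ℂ) : |U x| ≤ S x := by
  rw [U, abs_mul, abs_of_nonneg (S_nonneg x)]
  exact mul_le_of_le_one_right (S_nonneg x) (Real.abs_sin_le_one _)

lemma g_near {K η σ θ : ℝ} (hK : 0 ≤ K) (hη : 0 < η) (hσ : |σ| = 1) (hθ : σ * Real.sin θ = 1) :
    ∃ L0 : ℝ, 0 < L0 ∧ ∀ L, |L - L0| ≤ K → 1 - η ≤ σ * g L := by
  have h1 : Tendsto (fun k : ℕ => Real.exp (θ + k * (2 * Real.pi))) atTop atTop :=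
    Real.tendsto_exp_atTop.comp (tendsto_atTop_add_const_left _ _
      (tendsto_natCast_atTop_atTop.atTop_mul_const (by positivity)))
  obtain ⟨k, hk⟩ := (h1.eventually_ge_atTop (K + (K + 1) + (K + 1) / η + 1)).exists
  set T := Real.exp (θ + k * (2 * Real.pi)) with hT
  have h2 : 0 ≤ (K + 1) / η := by positivity
  refine ⟨T - 1, by linarith, fun L hL => ?_⟩
  obtain ⟨hL1, hL2⟩ := abs_le.mp hL
  have hD : 0 < T - K := by linarith
  have h3 : |Real.log (1 + L) - Real.log T| ≤ K / (T - K) := by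
    rw [abs_le]
    constructor
    · have := Real.log_le_sub_one_of_pos (show 0 < T / (1 + L) by apply div_pos <;> linarith)
      rw [Real.log_div (by linarith) (by linarith)] at this
      have h4 : T / (1 + L) - 1 ≤ K / (T - K) := by
        rw [div_sub_one (by linarith)]
        exact div_le_div₀ hK (by linarith) hD (by linarith)
      linarith
    · have := Real.log_le_sub_one_of_pos (show 0 < (1 + L) / T by apply div_pos <;> linarith)
      rw [Real.log_div (by linarith) (by linarith)] at this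
      have h4 : (1 + L) / T - 1 ≤ K / (T - K) := by
        rw [div_sub_one (by linarith)]
        exact div_le_div₀ hK (by linarith) hD (by linarith)
      linarith
  have h5 : Real.sin (Real.log T) = Real.sin θ := by
    rw [hT, Real.log_exp, Real.sin_add_nat_mul_two_pi]
  have h6 : 1 - K / (T - K) ≤ σ * Real.sin (Real.log (1 + L)) := by
    have h7 := (Real.abs_sin_sub_sin_le _ _).trans h3
    have h7' : |σ * (Real.sin (Real.log (1 + L)) - Real.sin θ)| ≤ K / (T - K) := by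
      rw [abs_mul, hσ, one_mul]; rwa [h5] at h7
    rw [mul_sub, hθ] at h7'
    linarith [(abs_le.mp h7').1]
  have h8 : Real.exp (-L) ≤ 1 / (T - K) := by
    rw [Real.exp_neg, one_div]
    exact inv_anti₀ hD (by linarith [Real.add_one_le_exp L])
  have h9 : (K + 1) / (T - K) ≤ η := by
    rw [div_le_iff₀ hD]
    have : (K + 1) / η * η = K + 1 := by field_simp
    nlinarith
  have h10 : (K + 1) / (T - K) ≤ 1 := by rw [div_le_one hD]; linarith
  have h11 : (K + 1) / (T - K) = K / (T - K) + 1 / (T - K) := by ring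
  have h12 : 0 ≤ K / (T - K) := by positivity
  have h13 : 0 ≤ 1 / (T - K) := by positivity
  have h14 : (1 - 1 / (T - K)) * (1 - K / (T - K)) ≤
      (1 - Real.exp (-L)) * (σ * Real.sin (Real.log (1 + L))) :=
    mul_le_mul (by linarith) h6 (by linarith) (by linarith)
  unfold g
  nlinarith [mul_nonneg h12 h13]

noncomputable def sc (r : ℝ) (x : Fin n → ℂ) : Fin n → ℂ := ((r / √(S x) : ℝ) : ℂ) • x

lemma S_sc {x : Fin n → ℂ} (hx : x ≠ 0) (r : ℝ) : S (sc r x) = r ^ 2 := by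
  have h : 0 < S x := lt_of_le_of_ne (S_nonneg x) fun h => hx (S_zero h.symm)
  rw [sc, S_smul, Complex.norm_real, Real.norm_eq_abs, sq_abs, div_pow, Real.sq_sqrt h.le]
  field_simp

lemma S_sc_lt {r : ℝ} (hr : r ∈ Ioo (0 : ℝ) 1) (x : Fin n → ℂ) : S (sc r x) < 1 := by
  by_cases hx : x = 0
  · simp [hx, sc, S]
  · rw [S_sc hx]; nlinarith [hr.1, hr.2]

noncomputable def avgR (z : Fin n → ℂ) (r : ℝ) : ℝ :=
  (volume (Ball n)).toReal⁻¹ * ∫ x in Ball n, U (phi z (sc r x))

lemma avg_eq (z : Fin n → ℂ) (r : ℝ) : avg (fun x => (U x : ℂ)) z r = avgR z r := by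
  rw [avg, avgR, integral_complex_ofReal, Complex.ofReal_mul, Complex.ofReal_inv]
  rfl

lemma S_cont : Continuous (S : (Fin n → ℂ) → ℝ) := by unfold S; fun_prop

lemma Ball_open : IsOpen (Ball n) := isOpen_lt S_cont continuous_const

lemma vol_pos : 0 < volume (Ball n) := Ball_open.measure_pos _ ⟨0, by simp [Ball]⟩

lemma vol_fin : volume (Ball n) < ⊤ := by
  refine lt_of_le_of_lt (measure_mono (t := Metric.closedBall 0 1) fun x hx => ?_)
    measure_closedBall_lt_top
  rw [mem_closedBall_zero_iff, pi_norm_le_iff_of_nonneg zero_le_one]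
  intro j
  have h1 := Finset.single_le_sum (f := fun j => ‖x j‖ ^ 2) (fun _ _ => sq_nonneg _)
    (Finset.mem_univ j)
  have h2 : ∑ j, ‖x j‖ ^ 2 < 1 := hx
  nlinarith [norm_nonneg (x j)]

lemma U_an : AnalyticOnNhd ℝ (U : (Fin n → ℂ) → ℝ) (Ball n) := by
  intro x hx
  have hx' : S x < 1 := hx
  have hS : ContDiff ℝ ⊤ (S : (Fin n → ℂ) → ℝ) := by
    unfold S
    exact ContDiff.sum fun j _ => (contDiff_apply ℝ ℂ j).norm_sq ℂ
  have h1 : ContDiffAt ℝ ⊤ (fun x : Fin n → ℂ => Real.log (1 - S x)) x :=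
    (contDiffAt_const.sub hS.contDiffAt).log (by linarith)
  have h2 : Real.log (1 - S x) ≤ 0 := Real.log_nonpos (by linarith) (by linarith [S_nonneg x])
  exact (hS.contDiffAt.mul ((contDiffAt_const.sub h1).log (by linarith)).sin).analyticAt

lemma meas_int (z : Fin n → ℂ) (r : ℝ) : Measurable fun x : Fin n → ℂ => U (phi z (sc r x)) := by
  have h1 : Measurable (U : (Fin n → ℂ) → ℝ) := by unfold U S; fun_prop
  have h2 : Measurable (phi z) := by unfold phi; fun_prop
  have h3 : Measurable (sc r : (Fin n → ℂ) → _) := by unfold sc S; fun_prop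
  exact h1.comp (h2.comp h3)

lemma bd_int {z : Fin n → ℂ} (hz : S z < 1) {r : ℝ} (hr : r ∈ Ioo (0 : ℝ) 1) (x : Fin n → ℂ) :
    ‖U (phi z (sc r x))‖ ≤ 1 := (U_le _).trans (phi_mem hz (S_sc_lt hr x)).le

lemma avgR_cont {z : Fin n → ℂ} (hz : S z < 1) : ContinuousOn (avgR z) (Ioo 0 1) := by
  have : IsFiniteMeasure (volume.restrict (Ball n)) := isFiniteMeasure_restrict.mpr vol_fin.ne
  refine continuousOn_const.mul (continuousOn_of_dominated (bound := fun _ => 1)
    (fun r _ => (meas_int z r).aestronglyMeasurable)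
    (fun r hr => Eventually.of_forall (bd_int hz hr)) (integrable_const _)
    (Eventually.of_forall fun x r hr => ContinuousAt.continuousWithinAt ?_))
  have h1 : ContinuousAt (fun r => sc r x) r := by unfold sc; fun_prop
  have h2 : ContinuousAt (phi z) (sc r x) := by
    unfold phi
    exact (ContinuousAt.inv₀ (f := fun w : Fin n → ℂ => 1 - ∑ j, w j * starRingEnd ℂ (z j))
      (Continuous.continuousAt (by fun_prop)) (ip_ne hz (S_sc_lt hr x))).smul
      (Continuous.continuousAt (by fun_prop))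
  exact ContinuousAt.comp (f := fun r => phi z (sc r x))
    (U_an _ (phi_mem hz (S_sc_lt hr x))).continuousAt
    (ContinuousAt.comp (f := fun r => sc r x) h2 h1)

lemma avgR_near (hn : 1 ≤ n) {z : Fin n → ℂ} (hz : S z < 1) {η σ θ : ℝ} (hη : 0 < η)
    (hσ : |σ| = 1) (hθ : σ * Real.sin θ = 1) : ∃ r ∈ Ioo (0 : ℝ) 1, 1 - η ≤ σ * avgR z r := by
  have : Nonempty (Fin n) := ⟨⟨0, hn⟩⟩
  have : IsFiniteMeasure (volume.restrict (Ball n)) := isFiniteMeasure_restrict.mpr vol_fin.ne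
  have hK : 0 ≤ Real.log (4 / (1 - S z)) :=
    Real.log_nonneg (by rw [le_div_iff₀ (by linarith)]; linarith [S_nonneg z])
  obtain ⟨L0, hL0, h⟩ := g_near hK hη hσ hθ
  have he : Real.exp (-L0) < 1 := Real.exp_lt_one_iff.mpr (by linarith)
  have hr : √(1 - Real.exp (-L0)) ∈ Ioo (0 : ℝ) 1 :=
    ⟨Real.sqrt_pos.mpr (by linarith), by
      rw [Real.sqrt_lt' one_pos]; linarith [Real.exp_pos (-L0)]⟩
  refine ⟨_, hr, ?_⟩
  set r := √(1 - Real.exp (-L0)) with hrd
  have hv : 0 < (volume (Ball n)).toReal := ENNReal.toReal_pos vol_pos.ne' vol_fin.ne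
  have h1 : ∫ _ in Ball n, (1 - η) ≤ ∫ x in Ball n, σ * U (phi z (sc r x)) := by
    refine integral_mono_ae (integrable_const _) (Integrable.const_mul
      (Integrable.of_bound (meas_int z r).aestronglyMeasurable 1
        (Eventually.of_forall (bd_int hz hr))) σ) ?_
    have h0 : ∀ᵐ x : Fin n → ℂ, x ≠ 0 := compl_mem_ae_iff.mpr (measure_singleton 0)
    filter_upwards [ae_restrict_of_ae h0] with x hx
    rw [U_eq (phi_mem hz (S_sc_lt hr x))]
    apply h
    have h2 := phi_log hz (S_sc_lt hr x)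
    rwa [S_sc hx, hrd, Real.sq_sqrt (by linarith), sub_sub_cancel, Real.log_exp, neg_neg,
      ← hrd] at h2
  rw [integral_const, integral_const_mul, smul_eq_mul, measureReal_restrict_apply_univ,
    Measure.real] at h1
  rw [avgR, mul_left_comm, ← div_eq_inv_mul, le_div_iff₀ hv]
  linarith

theorem one_radius (hn : 1 ≤ n) {z : Fin n → ℂ} (hz : z ∈ Ball n) :
    ∃ r : ℝ, 0 < r ∧ r < 1 ∧ avg (fun x => (U x : ℂ)) z r = (U z : ℂ) := by
  have hz' : S z < 1 := hz
  obtain ⟨a, ha, h1⟩ := avgR_near hn hz' (η := 1 - S z) (σ := 1) (θ := Real.pi / 2)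
    (by linarith) (by simp) (by simp)
  obtain ⟨b, hb, h2⟩ := avgR_near hn hz' (η := 1 - S z) (σ := -1) (θ := -(Real.pi / 2))
    (by linarith) (by simp) (by simp)
  obtain ⟨h3, h4⟩ := abs_le.mp (U_le z)
  obtain ⟨r, hr, h5⟩ := isPreconnected_Ioo.intermediate_value hb ha (avgR_cont hz')
    (show U z ∈ Icc _ _ from ⟨by linarith, by linarith⟩)
  exact ⟨r, hr.1, hr.2, by rw [avg_eq, h5]⟩

theorem not_harmonic (hn : 1 ≤ n) :
    ∃ r : ℝ, 0 < r ∧ r < 1 ∧ avg (fun x : Fin n → ℂ => (U x : ℂ)) 0 r ≠ (U (0 : Fin n → ℂ) : ℂ) := by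
  obtain ⟨a, ha, h1⟩ := avgR_near hn (z := 0) (by simp [S]) (η := 1 / 2) (σ := 1)
    (θ := Real.pi / 2) (by norm_num) (by simp) (by simp)
  refine ⟨a, ha.1, ha.2, ?_⟩
  rw [avg_eq]
  intro h
  have h2 : avgR (0 : Fin n → ℂ) a = U (0 : Fin n → ℂ) := by exact_mod_cast h
  have h3 : U (0 : Fin n → ℂ) = 0 := by simp [U, S]
  linarith

lemma Uc_an : AnalyticOnNhd ℝ (fun x : Fin n → ℂ => (U x : ℂ)) (Ball n) := fun x hx =>
  (Complex.ofRealCLM.analyticAt _).comp (U_an x hx)

lemma Uc_bd (z : Fin n → ℂ) (hz : z ∈ Ball n) : ‖(U z : ℂ)‖ ≤ 1 := by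
  rw [Complex.norm_real]
  exact (U_le z).trans (le_of_lt hz)

end Pool.Agent.H97.OneRadius
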