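import Mathlib

set_option autoImplicit false

namespace Pool.Agent.H97.OneRadius

open MeasureTheory

variable {n : ℕ}

/-- The open Euclidean unit ball of `ℂⁿ`. -/
def Ball (n : ℕ) : Set (Fin n → ℂ) := {x | ∑ j, ‖x j‖ ^ 2 < 1}

/-- The involutive automorphism `φ_z` of the ball. -/
noncomputable def phi (z w : Fin n → ℂ) : Fin n → ℂ :=
  (1 - ∑ j, w j * starRingEnd ℂ (z j))⁻¹ •
    (z - ((∑ j, w j * starRingEnd ℂ (z j)) / (∑ j, z j * starRingEnd ℂ (z j))) • z
      - ((Real.sqrt (1 - ∑ j, ‖z j‖ ^ 2) : ℝ) : ℂ) •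
          (w - ((∑ j, w j * starRingEnd ℂ (z j)) / (∑ j, z j * starRingEnd ℂ (z j))) • z))

/-- The mean of `u ∘ φ_z` over the sphere of radius `r`: the invariant probability measure on the
sphere is the image of normalised volume on the ball under `x ↦ x / |x|`. -/
noncomputable def avg (u : (Fin n → ℂ) → ℂ) (z : Fin n → ℂ) (r : ℝ) : ℂ :=
  ((volume (Ball n)).toReal : ℂ)⁻¹ *
    ∫ x in Ball n, u (phi z (((r / Real.sqrt (∑ j, ‖x j‖ ^ 2) : ℝ) : ℂ) • x))

end Pool.Agent.H97.OneRadius
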