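import Pool.Agent.H20.Pk1

namespace Pool.Agent.H97.Pack

open Finset Equiv Pool.Agent.H20.Pk Fintype

variable {V : Type} [Fintype V] [DecidableEq V]

theorem filt {I : Type} [Fintype I] [DecidableEq I] (P : I → Finset V) (i : I) (S : Finset V) :
    (piFinset P).filter (fun f => f i ∈ S) = piFinset (Function.update P i (P i ∩ S)) := by
  ext f
  simp only [mem_filter, mem_piFinset]
  constructor
  · rintro ⟨h, hs⟩ j
    by_cases e : j = i
    · subst e; simp [h j, hs]
    · simp [Function.update_of_ne e, h j]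
  · intro h
    have hi := h i
    simp only [Function.update_self, mem_inter] at hi
    refine ⟨fun j => ?_, hi.2⟩
    by_cases e : j = i
    · subst e; exact hi.1
    · simpa [Function.update_of_ne e] using h j

theorem cnt1 {I : Type} [Fintype I] [DecidableEq I] (P : I → Finset V) (i : I) (S : Finset V) :
    ((piFinset P).filter (fun f => f i ∈ S)).card * (P i).card ≤ S.card * (piFinset P).card := by
  rw [filt, card_piFinset, card_piFinset, ← Finset.mul_prod_erase univ _ (mem_univ i),
    ← Finset.mul_prod_erase univ (fun j => (P j).card) (mem_univ i)]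
  have : ∏ j ∈ univ.erase i, (Function.update P i (P i ∩ S) j).card =
      ∏ j ∈ univ.erase i, (P j).card :=
    prod_congr rfl fun j hj => by rw [Function.update_of_ne (ne_of_mem_erase hj)]
  rw [this, Function.update_self]
  have h := card_le_card (inter_subset_right : P i ∩ S ⊆ S)
  calc _ = (P i ∩ S).card * ((P i).card * ∏ j ∈ univ.erase i, (P j).card) := by ring
    _ ≤ _ := Nat.mul_le_mul_right _ h

theorem cnt2 {I : Type} [Fintype I] [DecidableEq I] (P : I → Finset V) {i j : I} (hij : i ≠ j)
    (S T : Finset V) {n c : ℕ} (hP : ∀ i, n ≤ c * (P i).card) :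
    ((piFinset P).filter (fun f => f i ∈ S ∧ f j ∈ T)).card * (n * n) ≤
      c * c * (S.card * T.card) * (piFinset P).card := by
  have h1 := cnt1 P i S
  have h2 := cnt1 (Function.update P i (P i ∩ S)) j T
  rw [← filt, Function.update_of_ne hij.symm, filter_filter] at h2
  generalize ((piFinset P).filter (fun f => f i ∈ S ∧ f j ∈ T)).card = X at *
  generalize ((piFinset P).filter (fun f => f i ∈ S)).card = Y at *
  calc X * (n * n) ≤ X * ((c * (P i).card) * (c * (P j).card)) :=
        Nat.mul_le_mul_left _ (Nat.mul_le_mul (hP i) (hP j))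
    _ = c * c * (P i).card * (X * (P j).card) := by ring
    _ ≤ c * c * (P i).card * (T.card * Y) := Nat.mul_le_mul_left _ h2
    _ = c * c * T.card * (Y * (P i).card) := by ring
    _ ≤ c * c * T.card * (S.card * (piFinset P).card) := Nat.mul_le_mul_left _ h1
    _ = _ := by ring

theorem hit {I : Type} [Fintype I] [DecidableEq I] (W : Finset V) :
    ((univ : Finset (I → V)).filter (fun f => ∃ i, f i ∈ W)).card * card V ≤
      card I * W.card * card (I → V) := by
  have h1 : (univ : Finset (I → V)).filter (fun f => ∃ i, f i ∈ W) ⊆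
      univ.biUnion fun i => (piFinset fun _ : I => (univ : Finset V)).filter fun f => f i ∈ W := by
    intro f hf
    obtain ⟨i, hi⟩ := (mem_filter.1 hf).2
    exact mem_biUnion.2 ⟨i, mem_univ _, mem_filter.2 ⟨by simp, hi⟩⟩
  refine (Nat.mul_le_mul_right _ ((card_le_card h1).trans card_biUnion_le)).trans ?_
  rw [sum_mul]
  refine (sum_le_card_nsmul _ _ (W.card * card (I → V)) fun i _ => ?_).trans
    (by rw [card_univ, smul_eq_mul, mul_assoc])
  have := cnt1 (fun _ : I => (univ : Finset V)) i W
  rwa [piFinset_univ, card_univ, card_univ, ← piFinset_univ] at this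

noncomputable def load {I : Type} [Fintype I] (G : SimpleGraph V) (w : I → ℕ) (f : I → V)
    (u : V) : ℕ := ∑ i, if f i ∈ nb G u then w i else 0

def Bad {I : Type} [Fintype I] (G : SimpleGraph V) (w : I → ℕ) (L D θ : ℕ) (f : I → V) : Prop :=
  (∃ i j, i ≠ j ∧ (nb G (f i)).card ≤ L ∧ (f j = f i ∨ G.Adj (f i) (f j))) ∨
    ∃ u, (nb G u).card ≤ D ∧ θ ≤ load G w f u

theorem sq_le {I : Type} [Fintype I] [DecidableEq I] (p : I → Prop) [DecidablePred p] (w : I → ℕ)
    {ω δ : ℕ} (hw : ∀ i, w i ≤ ω) (h : ω + δ ≤ ∑ i, if p i then w i else 0) :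
    δ * δ ≤ ∑ i, ∑ j, if i ≠ j ∧ p i ∧ p j then w i * w j else 0 := by
  have h1 : ∀ i, (if p i then w i else 0) * δ ≤ ∑ j, if i ≠ j ∧ p i ∧ p j then w i * w j else 0 := by
    intro i
    by_cases hp : p i
    · rw [if_pos hp]
      have e : ∑ j, (if i ≠ j ∧ p i ∧ p j then w i * w j else 0) =
          w i * ∑ j ∈ univ.erase i, if p j then w j else 0 := by
        rw [mul_sum, ← add_sum_erase univ _ (mem_univ i), if_neg (by simp), zero_add]
        refine sum_congr rfl fun j hj => ?_
        have := (ne_of_mem_erase hj).symm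
        by_cases q : p j <;> simp [hp, q, this]
      rw [e]
      refine Nat.mul_le_mul_left _ ?_
      rw [← add_sum_erase univ _ (mem_univ i), if_pos hp] at h
      have := hw i
      omega
    · simp [hp]
  refine le_trans ?_ (sum_le_sum fun i _ => h1 i)
  rw [← sum_mul]
  exact Nat.mul_le_mul_right _ (by omega)

open Classical in
theorem sel {I : Type} [Fintype I] [DecidableEq I] (G : SimpleGraph V) (w : I → ℕ)
    (P : I → Finset V) {n t s L D ω δ : ℕ} (hn : card V = n) (h0 : 0 < n)
    (hG : ∑ v, (nb G v).card ≤ n * t) (hI : card I ≤ s) (hw : ∀ i, w i ≤ ω)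
    (hw' : ∑ i, w i ≤ n * t) (hP : ∀ i, n ≤ 20 * (P i).card)
    (h1 : 4000 * (s * s) * (L + 1) ≤ n) (h2 : 4000 * (t * t * t) * D * n ≤ δ * δ) (hδ : 0 < δ) :
    5 * ((piFinset P).filter (Bad G w L D (ω + δ))).card ≤ (piFinset P).card := by
  obtain ⟨N, hN⟩ : ∃ N, N = (piFinset P).card := ⟨_, rfl⟩
  have b1 : 10 * ((piFinset P).filter fun f => ∃ i j, i ≠ j ∧ (nb G (f i)).card ≤ L ∧
      (f j = f i ∨ G.Adj (f i) (f j))).card ≤ N := by
    have s1 : ((piFinset P).filter fun f => ∃ i j, i ≠ j ∧ (nb G (f i)).card ≤ L ∧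
        (f j = f i ∨ G.Adj (f i) (f j))) ⊆ (univ : Finset I).offDiag.biUnion fun z =>
        (univ.filter fun v => (nb G v).card ≤ L).biUnion fun v =>
          (piFinset P).filter fun f => f z.1 ∈ ({v} : Finset V) ∧ f z.2 ∈ insert v (nb G v) := by
      intro f hf
      obtain ⟨hf, i, j, hij, hl, h⟩ := mem_filter.1 hf
      refine mem_biUnion.2 ⟨(i, j), by simpa using hij, mem_biUnion.2 ⟨f i, by simpa using hl,
        mem_filter.2 ⟨hf, by simp, ?_⟩⟩⟩
      simpa [mem_nb] using h
    have s2 := Nat.mul_le_mul_right (n * n) ((card_le_card s1).trans card_biUnion_le)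
    rw [sum_mul] at s2
    have s3 := s2.trans (sum_le_card_nsmul _ _ (n * (400 * (L + 1) * N)) fun z hz => by
      refine (Nat.mul_le_mul_right _ card_biUnion_le).trans ?_
      rw [sum_mul]
      refine (sum_le_card_nsmul _ _ (400 * (L + 1) * N) fun v hv => ?_).trans ?_
      · refine (cnt2 P (mem_offDiag.1 hz).2.2 _ _ hP).trans ?_
        rw [card_singleton, one_mul, ← hN]
        refine Nat.mul_le_mul_right _ (Nat.mul_le_mul_left _ ((card_insert_le _ _).trans ?_))
        have := (mem_filter.1 hv).2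
        omega
      · rw [smul_eq_mul]
        exact Nat.mul_le_mul_right _ ((card_le_univ _).trans hn.le))
    have s4 : (univ : Finset I).offDiag.card ≤ s * s := by
      rw [offDiag_card, card_univ]
      exact (Nat.sub_le _ _).trans (Nat.mul_le_mul hI hI)
    rw [smul_eq_mul] at s3
    have s5 := s3.trans (Nat.mul_le_mul_right _ s4)
    refine Nat.le_of_mul_le_mul_right (c := n * n) ?_ (by positivity)
    calc _ = 10 * (_ * (n * n)) := by rw [mul_assoc]
      _ ≤ 10 * (s * s * (n * (400 * (L + 1) * N))) := Nat.mul_le_mul_left _ s5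
      _ = (4000 * (s * s) * (L + 1)) * (n * N) := by ring
      _ ≤ n * (n * N) := Nat.mul_le_mul_right _ h1
      _ = _ := by ring
  have b2 : 10 * ((piFinset P).filter fun f => ∃ u, (nb G u).card ≤ D ∧
      ω + δ ≤ load G w f u).card ≤ N := by
    obtain ⟨Φ, hΦ⟩ : ∃ Φ : (I → V) → ℕ, Φ = fun f =>
        ∑ u ∈ univ.filter (fun u => (nb G u).card ≤ D), ∑ i, ∑ j,
          if i ≠ j ∧ f i ∈ nb G u ∧ f j ∈ nb G u then w i * w j else 0 := ⟨_, rfl⟩
    have s1 := card_nsmul_le_sum ((piFinset P).filter fun f => ∃ u, (nb G u).card ≤ D ∧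
      ω + δ ≤ load G w f u) Φ (δ * δ) fun f hf => by
        obtain ⟨-, u, hu, h⟩ := mem_filter.1 hf
        rw [hΦ]
        exact (sq_le (fun i => f i ∈ nb G u) w hw h).trans (single_le_sum (f := fun u => ∑ i, ∑ j,
          if i ≠ j ∧ f i ∈ nb G u ∧ f j ∈ nb G u then w i * w j else 0)
          (fun _ _ => Nat.zero_le _) (mem_filter.2 ⟨mem_univ _, hu⟩))
    have s2 := s1.trans (sum_le_sum_of_subset (filter_subset _ _))
    have s3 : (∑ f ∈ piFinset P, Φ f) * (n * n) ≤
        ∑ u, ∑ i, ∑ j, (nb G u).card * (w i * (w j * (400 * D * N))) := by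
      rw [hΦ, sum_comm, sum_mul]
      refine le_trans (sum_le_sum fun u hu => ?_) (sum_le_sum_of_subset (filter_subset _ _))
      rw [sum_comm, sum_mul]
      refine sum_le_sum fun i _ => ?_
      rw [sum_comm, sum_mul]
      refine sum_le_sum fun j _ => ?_
      by_cases hij : i = j
      · simp [hij]
      have e : (∑ f ∈ piFinset P, if i ≠ j ∧ f i ∈ nb G u ∧ f j ∈ nb G u then w i * w j else 0) =
          ((piFinset P).filter fun f => f i ∈ nb G u ∧ f j ∈ nb G u).card * (w i * w j) := by
        rw [← sum_filter, sum_const, smul_eq_mul]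
        congr 2
        ext f
        simp [hij]
      rw [e]
      have c := cnt2 P hij (nb G u) (nb G u) hP
      rw [← hN] at c
      have d := (mem_filter.1 hu).2
      calc _ = (w i * w j) * (_ * (n * n)) := by ring
        _ ≤ (w i * w j) * (20 * 20 * ((nb G u).card * (nb G u).card) * N) :=
          Nat.mul_le_mul_left _ c
        _ ≤ (w i * w j) * (20 * 20 * ((nb G u).card * D) * N) := by gcongr
        _ = _ := by ring
    have s4 : ∑ u, ∑ i, ∑ j, (nb G u).card * (w i * (w j * (400 * D * N))) ≤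
        (n * t) * ((n * t) * ((n * t) * (400 * D * N))) := by
      simp only [← mul_sum, ← sum_mul]
      gcongr
    rw [smul_eq_mul] at s2
    have s5 := (Nat.mul_le_mul_right (n * n) s2).trans (s3.trans s4)
    refine Nat.le_of_mul_le_mul_right (c := δ * δ * (n * n)) ?_ (by positivity)
    calc _ = 10 * (_ * (δ * δ) * (n * n)) := by ring
      _ ≤ 10 * ((n * t) * ((n * t) * ((n * t) * (400 * D * N)))) := Nat.mul_le_mul_left _ s5
      _ = (4000 * (t * t * t) * D * n) * (n * n * N) := by ring
      _ ≤ (δ * δ) * (n * n * N) := Nat.mul_le_mul_right _ h2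
      _ = _ := by ring
  have b3 := card_union_le ((piFinset P).filter fun f => ∃ i j, i ≠ j ∧ (nb G (f i)).card ≤ L ∧
      (f j = f i ∨ G.Adj (f i) (f j))) ((piFinset P).filter fun f => ∃ u, (nb G u).card ≤ D ∧
      ω + δ ≤ load G w f u)
  rw [← filter_or] at b3
  have b4 : ((piFinset P).filter (Bad G w L D (ω + δ))).card ≤ _ := le_trans (le_of_eq (by
    congr 1
    ext f
    simp only [mem_filter, Bad])) b3
  omega

end Pool.Agent.H97.Pack
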