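import Pool.Agent.H97.Pack1

namespace Pool.Agent.H97.Pack

open Finset Equiv Pool.Agent.H20.Pk Fintype

variable {V : Type} [Fintype V] [DecidableEq V]

def Valid {J : Type} (G H : SimpleGraph V) (g h : J → V) : Prop :=
  Function.Injective g ∧ Function.Injective h ∧
    ∀ j j', ¬ (G.Adj (g j) (g j') ∧ H.Adj (h j) (h j'))

omit [Fintype V] [DecidableEq V] in
theorem Valid.symm {J : Type} {G H : SimpleGraph V} {g h : J → V} (v : Valid G H g h) :
    Valid H G h g := ⟨v.2.1, v.1, fun j j' k => v.2.2 j j' k.symm⟩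

open Classical in
noncomputable def fb {J : Type} (G H : SimpleGraph V) (g h : J → V) (u : V) : Finset V :=
  univ.filter fun x => ∃ j, G.Adj (g j) u ∧ H.Adj (h j) x

omit [DecidableEq V] in
theorem mem_fb {J : Type} {G H : SimpleGraph V} {g h : J → V} {u x : V} :
    x ∈ fb G H g h u ↔ ∃ j, G.Adj (g j) u ∧ H.Adj (h j) x := by simp [fb]

theorem fb_load {J : Type} [Fintype J] (G H : SimpleGraph V) (g h : J → V) (u : V) :
    (fb G H g h u).card ≤ load G (fun j => (nb H (h j)).card) g u := by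
  have : fb G H g h u ⊆ univ.biUnion fun j => if g j ∈ nb G u then nb H (h j) else ∅ := by
    intro x hx
    obtain ⟨j, a, b⟩ := mem_fb.1 hx
    exact mem_biUnion.2 ⟨j, mem_univ _, by rw [if_pos (mem_nb.2 a.symm)]; exact mem_nb.2 b⟩
  refine (card_le_card this).trans (card_biUnion_le.trans (le_of_eq ?_))
  refine sum_congr rfl fun j _ => ?_
  split_ifs <;> simp

theorem fb_low {J : Type} [Fintype J] (G H : SimpleGraph V) (g h : J → V) (u : V) {L : ℕ}
    (hL : ∀ j, (nb H (h j)).card ≤ L) : (fb G H g h u).card ≤ card J * L := by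
  refine (fb_load G H g h u).trans ((sum_le_card_nsmul _ _ L fun j _ => ?_).trans (by simp))
  split_ifs
  · exact hL j
  · exact Nat.zero_le _

theorem fb_sum {J J' : Type} (G H : SimpleGraph V) (g h : J → V) (g' h' : J' → V) (u : V) :
    (fb G H (Sum.elim g g') (Sum.elim h h') u).card ≤
      (fb G H g h u).card + (fb G H g' h' u).card := by
  refine le_trans (card_le_card fun x hx => ?_) (card_union_le _ _)
  obtain ⟨j | j, k⟩ := mem_fb.1 hx
  · exact mem_union_left _ (mem_fb.2 ⟨j, k⟩)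
  · exact mem_union_right _ (mem_fb.2 ⟨j, k⟩)

omit [DecidableEq V] in
theorem high (G : SimpleGraph V) (L : ℕ) :
    (univ.filter fun v => L < (nb G v).card).card * (L + 1) ≤ ∑ v, (nb G v).card :=
  (card_nsmul_le_sum _ (fun v => (nb G v).card) (L + 1) fun v hv => (mem_filter.1 hv).2).trans
    (sum_le_sum_of_subset (filter_subset _ _))

theorem ext1 {J : Type} [Fintype J] {G H : SimpleGraph V} {g h : J → V} (hv : Valid G H g h)
    (Y : Finset V) {n t s L D δ : ℕ} (hn : card V = n) (h0 : 0 < n)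
    (hG : ∑ v, (nb G v).card ≤ n * t) (hH : ∑ v, (nb H v).card ≤ n * t) (hY : Y.card ≤ s)
    (hY1 : ∀ y ∈ Y, ∀ j, h j ≠ y) (hY2 : ∀ y ∈ Y, (nb H y).card ≤ D)
    (hF : ∀ y ∈ Y, 20 * ((fb H G h g y).card + card J) ≤ 17 * n) (hL : 10 * t ≤ L)
    (h1 : 4000 * (s * s) * (L + 1) ≤ n) (h2 : 4000 * (t * t * t) * D * n ≤ δ * δ) (hδ : 0 < δ) :
    ∃ ρ : Y → V, Valid G H (Sum.elim g ρ) (Sum.elim h Subtype.val) ∧
      (∀ y, (nb G (ρ y)).card ≤ L) ∧
      ∀ u, (nb G u).card ≤ D → (fb G H ρ Subtype.val u).card ≤ D + δ := by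
  classical
  obtain ⟨P, hP⟩ : ∃ P : Y → Finset V, P = fun y => (fb H G h g y.1 ∪ univ.image g ∪
    univ.filter fun v => L < (nb G v).card)ᶜ := ⟨_, rfl⟩
  have hi : 10 * (univ.filter fun v => L < (nb G v).card).card ≤ n := by
    have := (high G L).trans hG
    refine Nat.le_of_mul_le_mul_right (c := L + 1) ?_ (by omega)
    nlinarith
  have hP1 : ∀ y, n ≤ 20 * (P y).card := fun y => by
    have a := card_add_card_compl (fb H G h g y.1 ∪ univ.image g ∪
      univ.filter fun v => L < (nb G v).card)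
    have b := card_union_le (fb H G h g y.1 ∪ univ.image g) (univ.filter fun v => L < (nb G v).card)
    have c := card_union_le (fb H G h g y.1) (univ.image g)
    have d : (univ.image g).card ≤ card J := card_image_le
    have e := hF y y.2
    rw [hP]
    simp only
    omega
  have hs := sel G (fun y : Y => (nb H y).card) P hn h0 hG (by simpa using hY)
    (fun y => hY2 y y.2) (by
      rw [sum_coe_sort Y fun y => (nb H y).card]
      exact (sum_le_sum_of_subset (subset_univ _)).trans hH) hP1 h1 h2 hδ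
  have pos : 0 < (piFinset P).card := by
    rw [card_piFinset]
    exact prod_pos fun y _ => by have := hP1 y; omega
  obtain ⟨ρ, r1, r2⟩ : ∃ ρ ∈ piFinset P, ¬ Bad G (fun y : Y => (nb H y).card) L D (D + δ) ρ := by
    by_contra k
    push Not at k
    rw [filter_true_of_mem k] at hs
    omega
  have r3 : ∀ y : Y, (ρ y ∉ fb H G h g y ∧ ∀ j, g j ≠ ρ y) ∧ (nb G (ρ y)).card ≤ L := fun y => by
    have := mem_piFinset.1 r1 y
    simpa [hP, and_assoc] using this
  simp only [Bad, not_or, not_exists, not_and, not_le] at r2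
  refine ⟨ρ, ⟨?_, ?_, ?_⟩, fun y => (r3 y).2, fun u hu =>
    (fb_load G H ρ Subtype.val u).trans (r2.2 u hu).le⟩
  · rintro (j | y) (j' | y') e
    · exact congrArg _ (hv.1 e)
    · exact absurd e ((r3 y').1.2 j)
    · exact absurd e.symm ((r3 y).1.2 j')
    · exact by_contra fun k => (r2.1 y y' (fun q => k (congrArg _ q)) (r3 y).2).1 e.symm
  · rintro (j | y) (j' | y') e
    · exact congrArg _ (hv.2.1 e)
    · exact absurd e (hY1 _ y'.2 j)
    · exact absurd e.symm (hY1 _ y.2 j')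
    · exact congrArg _ (Subtype.ext e)
  · rintro (j | y) (j' | y') ⟨a, b⟩
    · exact hv.2.2 j j' ⟨a, b⟩
    · exact (r3 y').1.1 (mem_fb.2 ⟨j, b, a⟩)
    · exact (r3 y).1.1 (mem_fb.2 ⟨j', b.symm, a.symm⟩)
    · exact (r2.1 y y' (fun q => a.ne (by rw [q])) (r3 y).2).2 a

theorem fin {J : Type} [Fintype J] {G H : SimpleGraph V} {g h : J → V} (hv : Valid G H g h)
    {a b : ℕ} (g4 : ∀ v, (∀ j, g j ≠ v) → (nb G v).card ≤ a)
    (h4 : ∀ v, (∀ j, h j ≠ v) → (nb H v).card ≤ a)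
    (g5 : ∑ v, (nb G v).card ≤ b) (h5 : ∑ v, (nb H v).card ≤ b)
    (f1 : ∀ u, (∀ j, g j ≠ u) → ∃ S : Finset V, S.card ≤ a ∧
      ∀ x ∈ fb G H g h u, (∀ j, h j ≠ x) → x ∈ S)
    (f2 : ∀ x, (∀ j, h j ≠ x) → ∃ S : Finset V, S.card ≤ a ∧
      ∀ u ∈ fb H G h g x, (∀ j, g j ≠ u) → u ∈ S)
    (h6 : 32 * (a * (b + card V)) + 3 ≤ (card V - card J - 2) * (card V - card J - 3)) :
    ∃ σ : Perm V, ∀ u v, ¬ (G.Adj u v ∧ H.Adj (σ u) (σ v)) := by
  classical
  obtain ⟨φ, hφ⟩ := Perm.exists_extending_pair g h hv.1 hv.2.1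
  obtain ⟨O, hO⟩ : ∃ O : Finset V, O = univ.image g := ⟨_, rfl⟩
  have mO : ∀ v, v ∉ O ↔ ∀ j, g j ≠ v := fun v => by simp [hO]
  have mO' : ∀ v, v ∉ O → ∀ j, h j ≠ φ v := fun v hv' j e =>
    (mO v).1 hv' j (φ.injective ((hφ j).trans e))
  have hc : card {v // v ∉ O} = card V - card J := by
    rw [card_subtype_compl, card_coe, hO, card_image_of_injective _ hv.1, card_univ]
  have tot : ∀ K : SimpleGraph V, (univ.filter fun z : {v // v ∉ O} × {v // v ∉ O} =>
      K.Adj z.1 z.2).card ≤ ∑ v, (nb K v).card := fun K => by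
    rw [← card_sigma]
    exact card_le_card_of_injOn (fun z => ⟨z.1, z.2⟩) (fun z hz => by
      simpa [mem_nb] using hz) fun z _ z' _ h => by
      simp only [Sigma.mk.injEq, heq_eq_eq] at h
      exact Prod.ext (Subtype.ext h.1) (Subtype.ext h.2)
  have h4' : ∀ v ∉ O, (nb (H.comap φ) v).card ≤ a := fun v k => by
    rw [nb_comap]; exact h4 _ (mO' v k)
  have h5' : ∑ v, (nb (H.comap φ) v).card ≤ b := by
    simp only [nb_comap]
    exact (Equiv.sum_comp φ fun v => (nb H v).card).le.trans h5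
  obtain ⟨τ, t1, t2⟩ := lll2 (α := {v // v ∉ O}) (univ.filter fun z => G.Adj z.1 z.2)
    (univ.filter fun z => (H.comap φ).Adj z.1 z.2)
    (univ.filter fun z => ∃ j, G.Adj (g j) z.1 ∧ H.Adj (h j) (φ z.2)) a b
    (fun p => (sub_card _ (nb G p) id Function.injective_id p fun z hz e =>
      mem_nb.2 (e ▸ (mem_filter.1 hz).2)).trans (g4 p ((mO _).1 p.2)))
    (fun p => (sub_card' _ (nb G p) id Function.injective_id p fun z hz e =>
      mem_nb.2 (e ▸ (mem_filter.1 hz).2.symm)).trans (g4 p ((mO _).1 p.2)))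
    (fun p => (sub_card _ (nb (H.comap φ) p) id Function.injective_id p fun z hz e =>
      mem_nb.2 (e ▸ (mem_filter.1 hz).2)).trans (h4' p p.2))
    (fun p => (sub_card' _ (nb (H.comap φ) p) id Function.injective_id p fun z hz e =>
      mem_nb.2 (e ▸ (mem_filter.1 hz).2.symm)).trans (h4' p p.2))
    (fun p => by
      obtain ⟨S, s1, s2⟩ := f1 p ((mO _).1 p.2)
      exact (sub_card _ S φ φ.injective p fun z hz e =>
        s2 _ (mem_fb.2 (e ▸ (mem_filter.1 hz).2)) (mO' _ z.2.2)).trans s1)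
    (fun p => by
      obtain ⟨S, s1, s2⟩ := f2 (φ p) (mO' _ p.2)
      exact (sub_card' _ S id Function.injective_id p fun z hz e => by
        obtain ⟨j, k⟩ := (mem_filter.1 hz).2
        exact s2 _ (mem_fb.2 ⟨j, e ▸ k.2, k.1⟩) ((mO _).1 z.1.2)).trans s1)
    ((tot G).trans g5) ((tot _).trans h5')
    (fun z hz e => (mem_filter.1 hz).2.ne (congrArg Subtype.val e))
    (by rw [hc]
        exact le_trans (Nat.add_le_add_right (Nat.mul_le_mul_left _ (Nat.mul_le_mul_left _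
          (Nat.add_le_add_left (Nat.sub_le _ _) _))) _) h6)
  have fix : ∀ j, Perm.ofSubtype τ (g j) = g j := fun j =>
    Perm.ofSubtype_apply_of_not_mem τ (not_not.2 (hO ▸ mem_image_of_mem _ (mem_univ j)))
  have key : ∀ j, ∀ v ∉ O, ¬ (G.Adj (g j) v ∧ H.Adj (φ (Perm.ofSubtype τ (g j)))
      (φ (Perm.ofSubtype τ v))) := by
    intro j v k m
    rw [fix, hφ, Perm.ofSubtype_apply_of_mem τ k] at m
    exact t2 ⟨v, k⟩ (mem_filter.2 ⟨mem_univ _, j, m⟩)
  refine ⟨(Perm.ofSubtype τ).trans φ, fun u v m => ?_⟩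
  simp only [Equiv.trans_apply] at m
  by_cases hu : u ∈ O <;> by_cases hw : v ∈ O
  · obtain ⟨j, -, rfl⟩ := mem_image.1 (hO ▸ hu)
    obtain ⟨j', -, rfl⟩ := mem_image.1 (hO ▸ hw)
    rw [fix, fix, hφ, hφ] at m
    exact hv.2.2 j j' m
  · obtain ⟨j, -, rfl⟩ := mem_image.1 (hO ▸ hu)
    exact key j v hw m
  · obtain ⟨j, -, rfl⟩ := mem_image.1 (hO ▸ hw)
    exact key j u hu ⟨m.1.symm, m.2.symm⟩
  rw [Perm.ofSubtype_apply_of_mem τ hu, Perm.ofSubtype_apply_of_mem τ hw] at m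
  exact t1 (⟨u, hu⟩, ⟨v, hw⟩) (mem_filter.2 ⟨mem_univ _, m.1⟩) (mem_filter.2 ⟨mem_univ _, m.2⟩)

end Pool.Agent.H97.Pack
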