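import Pool.Agent.H97.Pack2

namespace Pool.Agent.H97.Pack

open Finset Equiv Pool.Agent.H20.Pk Fintype

variable {V : Type} [Fintype V] [DecidableEq V]

open Classical in
noncomputable def pat {I : Type} (p q : I → V) (K : SimpleGraph V) : I → Bool :=
  fun i => decide (K.Adj (p i) (q i))

def setp {I : Type} (p q : I → V) (K : SimpleGraph V) (z : I → Bool) : SimpleGraph V :=
  SimpleGraph.fromEdgeSet {e | (∃ i, s(p i, q i) = e ∧ z i = true) ∨
    ((∀ i, s(p i, q i) ≠ e) ∧ e ∈ K.edgeSet)}

omit [Fintype V] [DecidableEq V] in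
theorem setp_off {I : Type} (p q : I → V) (K : SimpleGraph V) (z : I → Bool) {u v : V}
    (h : ∀ i, s(p i, q i) ≠ s(u, v)) : (setp p q K z).Adj u v ↔ K.Adj u v := by
  simp only [setp, SimpleGraph.fromEdgeSet_adj, Set.mem_ofPred_eq, SimpleGraph.mem_edgeSet]
  constructor
  · rintro ⟨⟨i, e, -⟩ | ⟨-, k⟩, -⟩
    · exact absurd e (h i)
    · exact k
  · exact fun k => ⟨Or.inr ⟨h, k⟩, k.ne⟩

omit [Fintype V] [DecidableEq V] in
theorem setp_on {I : Type} {p q : I → V} (hne : ∀ i, p i ≠ q i)
    (hinj : ∀ i j, s(p i, q i) = s(p j, q j) → i = j) (K : SimpleGraph V) (z : I → Bool) :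
    pat p q (setp p q K z) = z := by
  funext i
  rw [Bool.eq_iff_iff]
  simp only [pat, decide_eq_true_eq, setp, SimpleGraph.fromEdgeSet_adj, Set.mem_ofPred_eq]
  constructor
  · rintro ⟨⟨j, e, k⟩ | ⟨k, -⟩, -⟩
    · exact hinj j i e ▸ k
    · exact absurd rfl (k i)
  · exact fun k => ⟨Or.inl ⟨i, rfl, k⟩, hne i⟩

omit [Fintype V] [DecidableEq V] in
theorem flip {I : Type} [Fintype I] [DecidableEq I] {p q : I → V} (hne : ∀ i, p i ≠ q i)
    (hinj : ∀ i j, s(p i, q i) = s(p j, q j) → i = j) (T : Finset (SimpleGraph V))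
    (hT : ∀ K ∈ T, ∀ z, setp p q K z ∈ T) (Z : Finset (I → Bool)) :
    (T.filter fun K => pat p q K ∈ Z).card * 2 ^ card I ≤ T.card * Z.card := by
  have e : 2 ^ card I = (univ : Finset (I → Bool)).card := by simp
  rw [e, ← card_product, ← card_product]
  refine card_le_card_of_injOn (fun x => (setp p q x.1 x.2, pat p q x.1)) ?_ ?_
  · rintro ⟨K, z⟩ h
    simp only [coe_product, Set.mem_prod, mem_coe, mem_filter] at h ⊢
    exact ⟨hT K h.1.1 z, h.1.2⟩
  · rintro ⟨K, z⟩ - ⟨K', z'⟩ - h
    simp only [Prod.mk.injEq] at h ⊢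
    refine ⟨?_, by rw [← setp_on hne hinj K z, h.1, setp_on hne hinj]⟩
    ext u v
    by_cases k : ∀ i, s(p i, q i) ≠ s(u, v)
    · rw [← setp_off p q K z k, h.1, setp_off p q K' z' k]
    · push Not at k
      obtain ⟨i, k⟩ := k
      have := congrFun h.2 i
      simp only [pat, decide_eq_decide] at this
      rw [← SimpleGraph.mem_edgeSet, ← SimpleGraph.mem_edgeSet, ← k]
      exact this

open Classical in
noncomputable def Emb (G : SimpleGraph V) : Finset (SimpleGraph V) :=
  univ.filter fun K => ∃ f : V → V, Function.Injective f ∧ ∀ u v, G.Adj u v → K.Adj (f u) (f v)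

def Rich (G : SimpleGraph V) (u : ℕ) : Prop := card (SimpleGraph V) < 2 ^ u * (Emb G).card

theorem edges {G : SimpleGraph V} {n u : ℕ} (hn : card V = n) (h0 : 0 < n) (hu : n ≤ 2 ^ u)
    (hR : Rich G u) : ∑ v, (nb G v).card ≤ n * (4 * u) := by
  classical
  have h1 := G.sum_degrees_eq_twice_card_edges
  have h3 : ∀ v, (nb G v).card = G.degree v := fun v =>
    congrArg Finset.card (Finset.ext fun u => by simp [mem_nb])
  simp only [h3]
  have h2 : Emb G ⊆ (univ.filter fun f : V → V => Function.Injective f).biUnion fun f =>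
      univ.filter fun K => pat (fun e : G.edgeFinset => f e.1.out.1) (fun e => f e.1.out.2) K ∈
        ({fun _ => true} : Finset _) := by
    intro K hK
    obtain ⟨f, f1, f2⟩ := (mem_filter.1 hK).2
    refine mem_biUnion.2 ⟨f, mem_filter.2 ⟨mem_univ _, f1⟩, mem_filter.2 ⟨mem_univ _, ?_⟩⟩
    rw [mem_singleton]
    funext e
    simp only [pat, decide_eq_true_eq]
    refine f2 _ _ ?_
    have := SimpleGraph.mem_edgeFinset.1 e.2
    rw [← SimpleGraph.mem_edgeSet]
    convert this
    exact e.1.out_eq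
  have h4 := Nat.mul_le_mul_right (2 ^ G.edgeFinset.card) ((card_le_card h2).trans card_biUnion_le)
  rw [sum_mul] at h4
  have h5 := h4.trans (sum_le_card_nsmul _ _ (card (SimpleGraph V)) fun f hf => by
    have f1 := (mem_filter.1 hf).2
    have o : ∀ e : G.edgeFinset, s(e.1.out.1, e.1.out.2) = e.1 := fun e => e.1.out_eq
    have := flip (p := fun e : G.edgeFinset => f e.1.out.1) (q := fun e => f e.1.out.2)
      (fun e k => by
        have := SimpleGraph.mem_edgeFinset.1 e.2
        rw [← o e, SimpleGraph.mem_edgeSet] at this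
        exact this.ne (f1 k))
      (fun e e' k => by
        refine Subtype.ext ?_
        rw [← o e, ← o e']
        exact Sym2.map.injective f1 k) univ (fun _ _ _ => mem_univ _) {fun _ => true}
    rwa [card_coe, card_singleton, mul_one, card_univ] at this)
  have h6 : (univ.filter fun f : V → V => Function.Injective f).card ≤ 2 ^ (u * n) := by
    refine (card_le_univ _).trans ?_
    rw [card_fun, hn, pow_mul]
    exact Nat.pow_le_pow_left hu n
  rw [smul_eq_mul] at h5
  have h7 := h5.trans (Nat.mul_le_mul_right _ h6)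
  have h8 : 2 ^ G.edgeFinset.card < 2 ^ (u + u * n) := by
    refine Nat.lt_of_mul_lt_mul_right (a := card (SimpleGraph V)) ?_
    calc _ < 2 ^ G.edgeFinset.card * (2 ^ u * (Emb G).card) :=
          Nat.mul_lt_mul_of_pos_left hR (by positivity)
      _ = 2 ^ u * ((Emb G).card * 2 ^ G.edgeFinset.card) := by ring
      _ ≤ 2 ^ u * (2 ^ (u * n) * card (SimpleGraph V)) := Nat.mul_le_mul_left _ h7
      _ = _ := by ring
  have h9 := (Nat.pow_lt_pow_iff_right (by norm_num)).1 h8
  rw [h1]
  nlinarith

theorem transfer {A B : Type} [Fintype A] [DecidableEq A] [Fintype B] [DecidableEq B]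
    {H : SimpleGraph V} {β : B → V} (hβ : Function.Injective β) (Good : Finset (A → V))
    (hg : 7 * card (A → V) ≤ 10 * Good.card)
    (hg1 : ∀ c ∈ Good, Function.Injective c ∧ ∀ a b, c a ≠ β b) (Z : Finset (A × B → Bool))
    (hZ : ∀ c ∈ Good, ∀ z : A × B → Bool, (∀ a b, H.Adj (c a) (β b) → z (a, b) = true) → z ∈ Z)
    {n u : ℕ} (hn : card V = n) (h0 : 0 < n) (hu : n ≤ 2 ^ u) (hR : Rich H u)
    (hm : 10 * (4 * (u * card B + u) * card A * card A) ≤ n) :
    2 ^ card (A × B) < 2 * Z.card := by
  classical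
  by_contra hc
  push Not at hc
  obtain ⟨m, hm1⟩ : ∃ m, m = 4 * (u * card B + u) := ⟨_, rfl⟩
  rw [← hm1] at hm
  have : Nonempty V := card_pos_iff.1 (by omega)
  obtain ⟨E, hE⟩ : ∃ E : (B → V) → Finset (SimpleGraph V), ∀ s K, K ∈ E s ↔ ∃ f : V → V,
      Function.Injective f ∧ (∀ u v, H.Adj u v → K.Adj (f u) (f v)) ∧ ∀ b, f (β b) = s b :=
    ⟨fun s => univ.filter fun K => ∃ f : V → V, Function.Injective f ∧
      (∀ u v, H.Adj u v → K.Adj (f u) (f v)) ∧ ∀ b, f (β b) = s b, by simp⟩
  have ind : ∀ s : B → V, ∀ j ≤ m, ∃ (W : Finset V) (T : Finset (SimpleGraph V)),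
      W.card ≤ j * card A ∧
      (∀ K ∈ T, ∀ K' : SimpleGraph V, (∀ x ∈ W, ∀ b, K.Adj x (s b) ↔ K'.Adj x (s b)) → K' ∈ T) ∧
      T.card * 2 ^ j ≤ card (SimpleGraph V) ∧ 6 ^ j * (E s).card ≤ 10 ^ j * (E s ∩ T).card := by
    intro s j
    induction j with
    | zero => exact fun _ => ⟨∅, univ, by simp, by simp, by simp, by simp⟩
    | succ j ih =>
      intro hj
      obtain ⟨W, T, w1, w2, w3, w4⟩ := ih (by omega)
      rcases (E s ∩ T).eq_empty_or_nonempty with he | he
      · refine ⟨∅, ∅, by simp, by simp, by simp, ?_⟩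
        rw [he, Finset.card_empty, mul_zero] at w4
        calc _ = 6 * (6 ^ j * (E s).card) := by ring
          _ ≤ 6 * 0 := Nat.mul_le_mul_left _ w4
          _ ≤ _ := Nat.zero_le _
      obtain ⟨R, hR⟩ : ∃ R : SimpleGraph V → (A → V) → Prop, ∀ K c, R K c ↔
          (Function.Injective c ∧ (∀ a b, c a ≠ s b) ∧ ∀ a, c a ∉ W) ∧
          pat (fun z : A × B => c z.1) (fun z => s z.2) K ∈ Z := ⟨_, fun _ _ => Iff.rfl⟩
      have r1 : ∀ K ∈ E s ∩ T, 6 * card (A → V) ≤ 10 * (univ.filter (R K)).card := by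
        intro K hK
        obtain ⟨f, f1, f2, f3⟩ := (hE s K).1 (mem_inter.1 hK).1
        have a1 : Good.image (fun c => f ∘ c) ⊆ univ.filter (R K) ∪
            univ.filter fun c : A → V => ∃ a, c a ∈ W := by
          intro c0 hc0
          obtain ⟨c, hc, rfl⟩ := mem_image.1 hc0
          by_cases k : ∃ a, (f ∘ c) a ∈ W
          · exact mem_union_right _ (mem_filter.2 ⟨mem_univ _, k⟩)
          refine mem_union_left _ (mem_filter.2 ⟨mem_univ _, (hR _ _).2 ⟨⟨f1.comp (hg1 c hc).1,
            fun a b e => (hg1 c hc).2 a b (f1 (e.trans (f3 b).symm)), fun a e => k ⟨a, e⟩⟩,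
            hZ c hc _ fun a b e => ?_⟩⟩)
          simp only [pat, decide_eq_true_eq, Function.comp]
          rw [← f3 b]
          exact f2 _ _ e
        have a2 := (card_le_card a1).trans (card_union_le _ _)
        rw [card_image_of_injective _ f1.comp_left] at a2
        have a3 := hit (I := A) W
        rw [hn] at a3
        have a4 : 10 * (univ.filter fun c : A → V => ∃ a, c a ∈ W).card ≤ card (A → V) := by
          refine Nat.le_of_mul_le_mul_right (c := n) ?_ h0
          calc _ = 10 * (_ * n) := by rw [mul_assoc]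
            _ ≤ 10 * (card A * W.card * card (A → V)) := Nat.mul_le_mul_left _ a3
            _ ≤ 10 * (card A * (m * card A) * card (A → V)) := by
              gcongr
              exact w1.trans (Nat.mul_le_mul_right _ (by omega))
            _ = 10 * (m * card A * card A) * card (A → V) := by ring
            _ ≤ n * card (A → V) := Nat.mul_le_mul_right _ hm
            _ = _ := mul_comm _ _
        omega
      obtain ⟨c, -, hc1⟩ := exists_le_of_sum_le (s := (univ : Finset (A → V)))
        (f := fun _ => 6 * (E s ∩ T).card)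
        (g := fun c => 10 * ((E s ∩ T).filter fun K => R K c).card) univ_nonempty (by
          have q : ∑ c : A → V, ((E s ∩ T).filter fun K => R K c).card =
              ∑ K ∈ E s ∩ T, (univ.filter (R K)).card := by
            simp only [card_filter]
            exact sum_comm
          have := sum_le_sum r1
          rw [sum_const, smul_eq_mul, ← mul_sum, ← q, mul_sum] at this
          rw [sum_const, smul_eq_mul, card_univ]
          exact le_trans (le_of_eq (by ring)) this)
      obtain ⟨K0, hK0⟩ : ((E s ∩ T).filter fun K => R K c).Nonempty := card_pos.1 (by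
        have := card_pos.2 he
        omega)
      obtain ⟨k1, k2⟩ := mem_filter.1 hK0
      obtain ⟨⟨c1, c2, c3⟩, -⟩ := (hR _ _).1 k2
      obtain ⟨f, f1, -, f3⟩ := (hE s K0).1 (mem_inter.1 k1).1
      have s1 : Function.Injective s := fun b b' e => hβ (f1 (by rw [f3, f3, e]))
      have fl := flip (p := fun z : A × B => c z.1) (q := fun z => s z.2) (fun z => c2 _ _)
        (fun z z' e => by
          rcases Sym2.eq_iff.1 e with e | e
          · exact Prod.ext (c1 e.1) (s1 e.2)
          · exact absurd e.1 (c2 _ _)) T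
        (fun K hK z => w2 K hK _ fun x hx b => (setp_off _ _ K z fun i e => by
          rcases Sym2.eq_iff.1 e with e | e
          · exact c3 _ (e.1 ▸ hx)
          · exact c2 _ _ e.1).symm) Z
      refine ⟨W ∪ univ.image c, T.filter fun K => pat (fun z : A × B => c z.1)
        (fun z => s z.2) K ∈ Z, ?_, ?_, ?_, ?_⟩
      · have a := card_union_le W (univ.image c)
        have b : (univ.image c).card ≤ card A := card_image_le
        rw [add_mul]
        omega
      · intro K hK K' h
        obtain ⟨a, b⟩ := mem_filter.1 hK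
        refine mem_filter.2 ⟨w2 K a K' fun x hx => h x (mem_union_left _ hx), ?_⟩
        convert b using 1
        funext z
        simp only [pat, decide_eq_decide]
        exact (h _ (mem_union_right _ (mem_image_of_mem _ (mem_univ _))) _).symm
      · have : 2 * (T.filter fun K => pat (fun z : A × B => c z.1) (fun z => s z.2) K ∈ Z).card ≤
            T.card := by
          refine Nat.le_of_mul_le_mul_right (c := 2 ^ card (A × B)) ?_ (by positivity)
          nlinarith
        calc _ = (2 * _) * 2 ^ j := by ring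
          _ ≤ T.card * 2 ^ j := Nat.mul_le_mul_right _ this
          _ ≤ _ := w3
      · have : ((E s ∩ T).filter fun K => R K c).card ≤ (E s ∩ T.filter fun K =>
            pat (fun z : A × B => c z.1) (fun z => s z.2) K ∈ Z).card :=
          card_le_card fun K hK => by
            obtain ⟨a, b⟩ := mem_filter.1 hK
            exact mem_inter.2 ⟨(mem_inter.1 a).1, mem_filter.2 ⟨(mem_inter.1 a).2, ((hR _ _).1 b).2⟩⟩
        calc _ = 6 * (6 ^ j * (E s).card) := by ring
          _ ≤ 10 ^ j * (6 * (E s ∩ T).card) := by nlinarith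
          _ ≤ 10 ^ j * (10 * _) := Nat.mul_le_mul_left _ (hc1.trans (Nat.mul_le_mul_left _ this))
          _ = _ := by ring
  have e1 : ∀ s, 12 ^ m * (E s).card ≤ 10 ^ m * card (SimpleGraph V) := fun s => by
    obtain ⟨W, T, -, -, w3, w4⟩ := ind s m le_rfl
    have := card_le_card (inter_subset_right : E s ∩ T ⊆ T)
    calc _ = 6 ^ m * (E s).card * 2 ^ m := by rw [show 12 = 6 * 2 from rfl, mul_pow]; ring
      _ ≤ 10 ^ m * T.card * 2 ^ m := Nat.mul_le_mul_right _ (w4.trans (Nat.mul_le_mul_left _ this))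
      _ ≤ _ := by rw [mul_assoc]; exact Nat.mul_le_mul_left _ w3
  have e2 : Emb H ⊆ univ.biUnion E := fun K hK => by
    obtain ⟨f, f1, f2⟩ := (mem_filter.1 hK).2
    exact mem_biUnion.2 ⟨f ∘ β, mem_univ _, (hE _ _).2 ⟨f, f1, f2, fun _ => rfl⟩⟩
  have e3 := Nat.mul_le_mul_left (12 ^ m) ((card_le_card e2).trans card_biUnion_le)
  rw [mul_sum] at e3
  have e4 := e3.trans (sum_le_card_nsmul _ _ _ fun s _ => e1 s)
  rw [card_univ, card_fun, hn, smul_eq_mul] at e4
  have e5 : n ^ card B ≤ 2 ^ (u * card B) := by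
    rw [pow_mul]; exact Nat.pow_le_pow_left hu _
  have e6 : 2 ^ (u * card B + u) * 10 ^ m ≤ 12 ^ m := by
    rw [hm1, pow_mul 10 4, pow_mul 12 4, ← mul_pow]
    exact Nat.pow_le_pow_left (by norm_num) _
  have e7 : 12 ^ m * card (SimpleGraph V) < 12 ^ m * card (SimpleGraph V) :=
    calc _ < 12 ^ m * (2 ^ u * (Emb H).card) := Nat.mul_lt_mul_of_pos_left hR (by positivity)
      _ = 2 ^ u * (12 ^ m * (Emb H).card) := by ring
      _ ≤ 2 ^ u * (2 ^ (u * card B) * (10 ^ m * card (SimpleGraph V))) :=
        Nat.mul_le_mul_left _ (e4.trans (Nat.mul_le_mul_right _ e5))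
      _ = 2 ^ (u * card B + u) * 10 ^ m * card (SimpleGraph V) := by ring
      _ ≤ _ := Nat.mul_le_mul_right _ e6
  omega

end Pool.Agent.H97.Pack
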