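import Pool.Agent.H97.Pack3

namespace Pool.Agent.H97.Pack

open Finset Equiv Pool.Agent.H20.Pk Fintype

variable {V : Type} [Fintype V] [DecidableEq V]

theorem maxdeg {H : SimpleGraph V} {n u : ℕ} (hn : card V = n) (h0 : 0 < n) (hu : n ≤ 2 ^ u)
    (hR : Rich H u) (hm : 80 * u ≤ n) (v : V) : (nb H v).card ≤ 7 * n / 10 := by
  by_contra hc
  have := transfer (A := Unit) (B := Unit) (H := H) (β := fun _ => v) (fun _ _ _ => rfl)
    (piFinset fun _ => nb H v) (by simp [hn]; omega)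
    (fun c hc => ⟨fun _ _ _ => rfl, fun a _ => (mem_nb.1 (mem_piFinset.1 hc a)).ne'⟩)
    {fun _ => true} (fun c hc z hz => mem_singleton.2 (funext fun x =>
      hz x.1 x.2 (mem_nb.1 (mem_piFinset.1 hc _)).symm)) hn h0 hu hR (by simp; omega)
  simp at this

theorem half {A B : Type} [Fintype A] [DecidableEq A] [Fintype B] [DecidableEq B]
    {H : SimpleGraph V} {β : B → V} (hβ : Function.Injective β) (w : A → ℕ)
    {n u t k s L D ω δ : ℕ} (hn : card V = n) (h0 : 0 < n) (hu : n ≤ 2 ^ u) (hR : Rich H u)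
    (hH : ∑ v, (nb H v).card ≤ n * t) (hA : card A ≤ k) (hB : card B ≤ k) (hks : k ≤ s)
    (hw : ∀ i, w i ≤ ω) (hw' : ∑ i, w i ≤ n * t) (hb : ∀ b, L < (nb H (β b)).card)
    (hL : 10 * k * t ≤ L) (ht : 0 < t) (hm : 10 * (4 * (u * k + u) * k * k) ≤ n)
    (h1 : 4000 * (s * s) * (L + 1) ≤ n) (h2 : 4000 * (t * t * t) * D * n ≤ δ * δ) (hδ : 0 < δ) :
    ∃ Z : Finset (A × B → Bool), 2 ^ card (A × B) < 2 * Z.card ∧ ∀ z ∈ Z, ∃ σ : A → V,
      (∀ a, (nb H (σ a)).card ≤ L) ∧ ¬ Bad H w L D (ω + δ) σ ∧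
        ∀ a b, H.Adj (σ a) (β b) → z (a, b) = true := by
  classical
  obtain ⟨Good, hG⟩ : ∃ Good : Finset (A → V), Good = univ.filter fun σ =>
    (∀ a, (nb H (σ a)).card ≤ L) ∧ ¬ Bad H w L D (ω + δ) σ := ⟨_, rfl⟩
  refine ⟨univ.filter fun z => ∃ σ : A → V, (∀ a, (nb H (σ a)).card ≤ L) ∧
    ¬ Bad H w L D (ω + δ) σ ∧ ∀ a b, H.Adj (σ a) (β b) → z (a, b) = true, ?_,
    fun z hz => (mem_filter.1 hz).2⟩
  refine transfer hβ Good ?_ ?_ _ ?_ hn h0 hu hR (le_trans (by gcongr) hm)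
  · have a1 := sel H w (fun _ => univ) hn h0 hH (hA.trans hks) hw hw'
      (fun _ => by rw [card_univ]; omega) h1 h2 hδ
    rw [piFinset_univ, card_univ] at a1
    have a2 := hit (I := A) (univ.filter fun v => L < (nb H v).card)
    have a3 := (high H L).trans hH
    have a4 : 10 * k * (univ.filter fun v => L < (nb H v).card).card ≤ n := by
      refine Nat.le_of_mul_le_mul_right (c := t) ?_ ht
      nlinarith
    rw [hn] at a2
    have a5 : 10 * (univ.filter fun c : A → V =>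
        ∃ a, c a ∈ univ.filter fun v => L < (nb H v).card).card ≤ card (A → V) := by
      refine Nat.le_of_mul_le_mul_right (c := n) ?_ h0
      calc _ = 10 * (_ * n) := by rw [mul_assoc]
        _ ≤ 10 * (card A * _ * card (A → V)) := Nat.mul_le_mul_left _ a2
        _ ≤ 10 * (k * _ * card (A → V)) := by gcongr
        _ = 10 * k * _ * card (A → V) := by ring
        _ ≤ n * card (A → V) := Nat.mul_le_mul_right _ a4
        _ = _ := mul_comm _ _
    have a6 : (univ : Finset (A → V)) ⊆ Good ∪ univ.filter (Bad H w L D (ω + δ)) ∪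
        univ.filter fun c : A → V => ∃ a, c a ∈ univ.filter fun v => L < (nb H v).card := by
      intro c _
      simp only [hG, mem_union, mem_filter, mem_univ, true_and]
      by_cases k1 : Bad H w L D (ω + δ) c
      · exact Or.inl (Or.inr k1)
      by_cases k2 : ∀ a, (nb H (c a)).card ≤ L
      · exact Or.inl (Or.inl ⟨k2, k1⟩)
      · push Not at k2
        exact Or.inr k2
    have a7 := (card_le_card a6).trans ((card_union_le _ _).trans
      (Nat.add_le_add_right (card_union_le _ _) _))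
    rw [card_univ] at a7
    omega
  · intro c hc
    obtain ⟨c1, c2⟩ := (mem_filter.1 (hG ▸ hc)).2
    refine ⟨fun a a' e => by_contra fun k => c2 (Or.inl ⟨a, a', k, c1 a, Or.inl e.symm⟩),
      fun a b e => ?_⟩
    have := c1 a
    have := hb b
    rw [e] at *
    omega
  · intro c hc z hz
    obtain ⟨c1, c2⟩ := (mem_filter.1 (hG ▸ hc)).2
    exact mem_filter.2 ⟨mem_univ _, c, c1, c2, hz⟩

omit [DecidableEq V] in
theorem sub_sum (G : SimpleGraph V) (p : V → Prop) [DecidablePred p] :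
    ∑ a : {v // p v}, (nb G a).card ≤ ∑ v, (nb G v).card := by
  rw [← sum_subtype (univ.filter p) (by simp) fun v => (nb G v).card]
  exact sum_le_sum_of_subset (subset_univ _)

theorem core {G H : SimpleGraph V} {n u t k s L D δ : ℕ} (hn : card V = n) (h0 : 0 < n)
    (hu : n ≤ 2 ^ u) (hG : Rich G u) (hH : Rich H u) (ht : t = 4 * u) (ht1 : 1000 ≤ t)
    (hk : n * t ≤ k * (D + 1)) (hs : s = k * L) (hL : 10 * k * t ≤ L) (hk0 : 0 < k) (hLD : L ≤ D)
    (hm : 10 * (4 * (u * k + u) * k * k) ≤ n)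
    (h1 : 4000 * (s * s) * (L + 1) ≤ n) (h2 : 4000 * (t * t * t) * D * n ≤ δ * δ) (hδ : 0 < δ)
    (h3 : D ≤ δ) (h4 : s * L ≤ δ) (h5 : δ * (t * t) ≤ n) :
    ∃ σ : Perm V, ∀ u v, ¬ (G.Adj u v ∧ H.Adj (σ u) (σ v)) := by
  classical
  have eG := ht ▸ edges hn h0 hu hG
  have eH := ht ▸ edges hn h0 hu hH
  have tL : 10 * t ≤ L :=
    le_trans (Nat.mul_le_mul_right _ (Nat.le_mul_of_pos_right _ hk0)) hL
  have ks : k ≤ s := hs ▸ Nat.le_mul_of_pos_right _ (by omega)
  have sδ : s ≤ δ := le_trans (Nat.le_mul_of_pos_right _ (by omega)) h4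
  have δn : 1000000 * δ ≤ n :=
    le_trans (by rw [mul_comm]; exact Nat.mul_le_mul_left _ (Nat.mul_le_mul ht1 ht1)) h5
  have tn : 1000 * (δ * t) ≤ n :=
    le_trans (by rw [mul_comm, mul_assoc]; exact Nat.mul_le_mul_left _ (Nat.mul_le_mul_left _ ht1)) h5
  have un : 80 * u ≤ n := by
    have : t ≤ δ * t := Nat.le_mul_of_pos_left _ hδ
    omega
  have hub : ∀ K : SimpleGraph V, ∑ v, (nb K v).card ≤ n * t →
      card {v // D < (nb K v).card} ≤ k := fun K e => by
    rw [Fintype.card_subtype]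
    exact Nat.le_of_mul_le_mul_right ((high K D).trans (e.trans hk)) (by omega)
  have cA := hub G eG
  have cB := hub H eH
  have h2' : 4000 * (t * t * t) * D * n ≤ n / 10 * (n / 10) :=
    h2.trans (Nat.mul_le_mul (by omega) (by omega))
  obtain ⟨Z1, z1, z2⟩ := half (A := {v // D < (nb G v).card}) (B := {v // D < (nb H v).card})
    (H := H) Subtype.val_injective (fun a => (nb G a).card) hn h0 hu hH eH cA cB ks
    (fun a => maxdeg hn h0 hu hG un a) ((sub_sum G _).trans eG) (fun b => hLD.trans_lt b.2) hL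
    (by omega) hm h1 h2' (by omega)
  obtain ⟨Z2, z3, z4⟩ := half (A := {v // D < (nb H v).card}) (B := {v // D < (nb G v).card})
    (H := G) Subtype.val_injective (fun a => (nb H a).card) hn h0 hu hG eG cB cA ks
    (fun a => maxdeg hn h0 hu hH un a) ((sub_sum H _).trans eH) (fun b => hLD.trans_lt b.2) hL
    (by omega) hm h1 h2' (by omega)
  obtain ⟨z, y1, y2⟩ : ∃ z ∈ Z2, (fun x => !z (x.2, x.1)) ∈ Z1 := by
    by_contra c
    push Not at c
    have i : Function.Injective fun (z : {v // D < (nb H v).card} × {v // D < (nb G v).card} → Bool)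
        (x : {v // D < (nb G v).card} × {v // D < (nb H v).card}) => !z (x.2, x.1) :=
      fun z z' e => funext fun x => by simpa using congrFun e (x.2, x.1)
    have d : Disjoint Z1 (Z2.image _) := disjoint_right.2 fun x hx => by
      obtain ⟨z, hz, rfl⟩ := mem_image.1 hx
      exact c z hz
    have e := card_le_univ (Z1 ∪ Z2.image fun z x => !z (x.2, x.1))
    rw [card_union_of_disjoint d, card_image_of_injective _ i, card_fun, card_bool] at e
    rw [card_prod] at z1 z3 e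
    rw [mul_comm] at z3
    omega
  obtain ⟨σ, s1, s2, s3⟩ := z2 _ y2
  obtain ⟨τ, t1, t2, t3⟩ := z4 _ y1
  simp only [Bad, not_or, not_exists, not_and, not_le] at s2 t2
  have cross : ∀ (a : {v // D < (nb G v).card}) (b : {v // D < (nb H v).card}),
      ¬ (G.Adj a (τ b) ∧ H.Adj (σ a) b) := fun a b m => by
    have p := s3 a b m.2
    rw [t3 b a m.1.symm] at p
    simp at p
  have v1 : Valid G H (Sum.elim Subtype.val τ) (Sum.elim σ Subtype.val) := by
    refine ⟨?_, ?_, ?_⟩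
    · rintro (a | b) (a' | b') e
      · exact congrArg _ (Subtype.ext e)
      · exact absurd (t1 b') (not_le.2 (hLD.trans_lt (by rw [← show a.1 = τ b' from e]; exact a.2)))
      · exact absurd (t1 b) (not_le.2 (hLD.trans_lt (by rw [show τ b = a'.1 from e]; exact a'.2)))
      · exact by_contra fun k => (t2.1 b b' (fun q => k (congrArg _ q)) (t1 b)).1 e.symm
    · rintro (a | b) (a' | b') e
      · exact by_contra fun k => (s2.1 a a' (fun q => k (congrArg _ q)) (s1 a)).1 e.symm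
      · exact absurd (s1 a) (not_le.2 (hLD.trans_lt (by rw [show σ a = b'.1 from e]; exact b'.2)))
      · exact absurd (s1 a') (not_le.2 (hLD.trans_lt (by rw [← show b.1 = σ a' from e]; exact b.2)))
      · exact congrArg _ (Subtype.ext e)
    · rintro (a | b) (a' | b') ⟨p, q⟩
      · exact (s2.1 a a' (fun r => p.ne (by rw [r])) (s1 a)).2 q
      · exact cross a b' ⟨p, q⟩
      · exact cross a' b ⟨p.symm, q.symm⟩
      · exact (t2.1 b b' (fun r => q.ne (by rw [r])) (t1 b)).2 p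
  obtain ⟨X, hX⟩ : ∃ X : Finset V, ∀ x, x ∈ X ↔ x ∈ (univ.biUnion fun a => nb H (σ a)) ∧
      ∀ j, Sum.elim σ (Subtype.val : {v // D < (nb H v).card} → V) j ≠ x :=
    ⟨filter _ _, fun _ => mem_filter⟩
  have cX : X.card ≤ s := by
    rw [hs]
    exact (card_le_card fun x hx => ((hX x).1 hx).1).trans
      ((card_biUnion_le_card_mul _ _ L fun a _ => s1 a).trans (Nat.mul_le_mul_right _ cA))
  have kL1 := hs ▸ Nat.mul_le_mul_right L cA
  have kL2 := hs ▸ Nat.mul_le_mul_right L cB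
  obtain ⟨ρ, v2, r1, r2⟩ := ext1 v1 X hn h0 eG eH cX (fun y hy => ((hX y).1 hy).2)
    (fun y hy => not_lt.1 fun k => ((hX y).1 hy).2 (Sum.inr ⟨y, k⟩) rfl)
    (fun y hy => by
      have a := fb_sum H G σ Subtype.val Subtype.val τ y
      have b := (fb_load H G σ Subtype.val y).trans (s2.2 y (not_lt.1 fun k =>
        ((hX y).1 hy).2 (Sum.inr ⟨y, k⟩) rfl)).le
      have c := fb_low H G Subtype.val τ y t1
      rw [card_sum]
      omega) tL h1 h2 hδ
  obtain ⟨U, hU⟩ : ∃ U : Finset V, ∀ x, x ∈ U ↔ x ∈ (univ.biUnion fun b => nb G (τ b)) ∧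
      ∀ j, Sum.elim (Sum.elim (Subtype.val : {v // D < (nb G v).card} → V) τ) ρ j ≠ x :=
    ⟨filter _ _, fun _ => mem_filter⟩
  have cU : U.card ≤ s := by
    rw [hs]
    exact (card_le_card fun x hx => ((hU x).1 hx).1).trans
      ((card_biUnion_le_card_mul _ _ L fun a _ => t1 a).trans (Nat.mul_le_mul_right _ cB))
  obtain ⟨κ, v3, q1, q2⟩ := ext1 v2.symm U hn h0 eH eG cU (fun y hy => ((hU y).1 hy).2)
    (fun y hy => not_lt.1 fun k => ((hU y).1 hy).2 (Sum.inl (Sum.inl ⟨y, k⟩)) rfl)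
    (fun y hy => by
      have d : (nb G y).card ≤ D :=
        not_lt.1 fun k => ((hU y).1 hy).2 (Sum.inl (Sum.inl ⟨y, k⟩)) rfl
      have a := fb_sum G H (Sum.elim Subtype.val τ) (Sum.elim σ Subtype.val) ρ Subtype.val y
      have a' := fb_sum G H Subtype.val σ τ Subtype.val y
      have b := (fb_load G H τ Subtype.val y).trans (t2.2 y d).le
      have c := fb_low G H Subtype.val σ y s1
      have e := r2 y d
      rw [card_sum, card_sum, card_coe]
      omega) tL h1 h2 hδ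
  have xl := (Nat.mul_le_mul_right L cX).trans h4
  have ul := (Nat.mul_le_mul_right L cU).trans h4
  refine fin v3.symm (a := 3 * δ) (b := n * t)
    (fun v hv => (not_lt.1 fun k => hv (Sum.inl (Sum.inl (Sum.inl ⟨v, k⟩))) rfl).trans (by omega))
    (fun v hv => (not_lt.1 fun k => hv (Sum.inl (Sum.inl (Sum.inr ⟨v, k⟩))) rfl).trans (by omega))
    eG eH (fun x hx => ⟨fb G H ρ Subtype.val x ∪ fb G H Subtype.val κ x, ?_, ?_⟩)
    (fun x hx => ⟨fb H G Subtype.val ρ x ∪ fb H G κ Subtype.val x, ?_, ?_⟩) ?_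
  · have a := card_union_le (fb G H ρ Subtype.val x) (fb G H Subtype.val κ x)
    have b := r2 x (not_lt.1 fun k => hx (Sum.inl (Sum.inl (Sum.inl ⟨x, k⟩))) rfl)
    have c := fb_low G H Subtype.val κ x q1
    rw [card_coe] at c
    omega
  · intro y hy hy'
    obtain ⟨((a | b) | j) | j, p, q⟩ := mem_fb.1 hy
    · exact absurd rfl (hy' (Sum.inl (Sum.inr ⟨y, (hX _).2 ⟨mem_biUnion.2
        ⟨a, mem_univ _, mem_nb.2 q⟩, fun j => hy' (Sum.inl (Sum.inl j))⟩⟩)))
    · exact absurd rfl (hx (Sum.inr ⟨x, (hU _).2 ⟨mem_biUnion.2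
        ⟨b, mem_univ _, mem_nb.2 p⟩, fun j => hx (Sum.inl j)⟩⟩))
    · exact mem_union_left _ (mem_fb.2 ⟨j, p, q⟩)
    · exact mem_union_right _ (mem_fb.2 ⟨j, p, q⟩)
  · have a := card_union_le (fb H G Subtype.val ρ x) (fb H G κ Subtype.val x)
    have b := q2 x (not_lt.1 fun k => hx (Sum.inl (Sum.inl (Sum.inr ⟨x, k⟩))) rfl)
    have c := fb_low H G Subtype.val ρ x r1
    rw [card_coe] at c
    omega
  · intro y hy hy'
    obtain ⟨((a | b) | j) | j, p, q⟩ := mem_fb.1 hy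
    · exact absurd rfl (hx (Sum.inl (Sum.inr ⟨x, (hX _).2 ⟨mem_biUnion.2
        ⟨a, mem_univ _, mem_nb.2 p⟩, fun j => hx (Sum.inl (Sum.inl j))⟩⟩)))
    · exact absurd rfl (hy' (Sum.inr ⟨y, (hU _).2 ⟨mem_biUnion.2
        ⟨b, mem_univ _, mem_nb.2 q⟩, fun j => hy' (Sum.inl j)⟩⟩))
    · exact mem_union_left _ (mem_fb.2 ⟨j, p, q⟩)
    · exact mem_union_right _ (mem_fb.2 ⟨j, p, q⟩)
  · rw [card_sum, card_sum, card_sum, card_coe, card_coe, hn]
    obtain ⟨M, hM⟩ : ∃ M, M = n - (card {v // D < (nb G v).card} +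
      card {v // D < (nb H v).card} + X.card + U.card) - 3 := ⟨_, rfl⟩
    rw [← hM, show n - (card {v // D < (nb G v).card} +
      card {v // D < (nb H v).card} + X.card + U.card) - 2 = M + 1 by omega]
    have a : n ≤ 2 * M := by omega
    have c : 32 * (3 * δ * (n * t + n)) ≤ 192 * (δ * t) * n := by
      calc _ ≤ 32 * (3 * δ * (n * t + n * t)) := by
            gcongr; exact Nat.le_mul_of_pos_right _ (by omega)
        _ = _ := by ring
    have d := Nat.mul_le_mul_right n tn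
    have e := Nat.mul_le_mul a a
    have f : 3 ≤ M := by omega
    have g : (M + 1) * M = M * M + M := by ring
    have g1 : 2 * M * (2 * M) = 4 * (M * M) := by ring
    have g2 : 192 * (δ * t) * n = 192 * (δ * t * n) := by ring
    have g3 : 1000 * (δ * t) * n = 1000 * (δ * t * n) := by ring
    omega

theorem nums {n u : ℕ} (hu : 250 ≤ u) (hn : (4 * u) ^ 60 ≤ n) : ∃ t k s L D δ : ℕ,
    t = 4 * u ∧ 1000 ≤ t ∧ n * t ≤ k * (D + 1) ∧ s = k * L ∧ 10 * k * t ≤ L ∧ 0 < k ∧ L ≤ D ∧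
    10 * (4 * (u * k + u) * k * k) ≤ n ∧ 4000 * (s * s) * (L + 1) ≤ n ∧
    4000 * (t * t * t) * D * n ≤ δ * δ ∧ 0 < δ ∧ D ≤ δ ∧ s * L ≤ δ ∧ δ * (t * t) ≤ n := by
  obtain ⟨t, ht⟩ : ∃ t, t = 4 * u := ⟨_, rfl⟩
  rw [← ht] at hn
  have t1 : 1000 ≤ t := by omega
  have t0 : 0 < t := by omega
  have pw : ∀ c e : ℕ, c ≤ 1000 ^ 3 → e ≤ 57 → c * t ^ e ≤ n := fun c e hc he =>
    calc c * t ^ e ≤ t ^ 3 * t ^ 57 := Nat.mul_le_mul (hc.trans (Nat.pow_le_pow_left t1 3))
          (Nat.pow_le_pow_right t0 he)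
      _ = t ^ 60 := by ring
      _ ≤ n := hn
  have d0 : 0 < n / (t * t) := Nat.div_pos (by have := pw 1 2 (by norm_num) (by norm_num); nlinarith)
    (by positivity)
  refine ⟨t, t ^ 10, _, 10 * t ^ 11, n / t ^ 9, n / (t * t), ht, t1, ?_, rfl, le_of_eq (by ring),
    by positivity, ?_, ?_, ?_, ?_, d0, ?_, ?_, Nat.div_mul_le_self _ _⟩
  · have := (Nat.lt_mul_div_succ n (show 0 < t ^ 9 by positivity)).le
    calc n * t ≤ t ^ 9 * (n / t ^ 9 + 1) * t := Nat.mul_le_mul_right _ this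
      _ = _ := by ring
  · refine (Nat.le_div_iff_mul_le (by positivity)).2 (le_trans (le_of_eq (by ring))
      (pw 10 20 (by norm_num) (by norm_num)))
  · have a : u ≤ u * t ^ 10 := Nat.le_mul_of_pos_right _ (by positivity)
    calc _ ≤ 10 * (4 * (u * t ^ 10 + u * t ^ 10) * t ^ 10 * t ^ 10) := by gcongr
      _ = 20 * t ^ 31 := by rw [ht]; ring
      _ ≤ n := pw _ _ (by norm_num) (by norm_num)
  · have a : 1 ≤ t ^ 11 := Nat.one_le_pow _ _ t0
    calc _ ≤ 4000 * (t ^ 10 * (10 * t ^ 11) * (t ^ 10 * (10 * t ^ 11))) * (11 * t ^ 11) := by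
          gcongr; omega
      _ = 4400000 * t ^ 53 := by ring
      _ ≤ n := pw _ _ (by norm_num) (by norm_num)
  · have a := Nat.div_mul_le_self n (t ^ 9)
    have b := (Nat.lt_mul_div_succ n (show 0 < t * t by positivity)).le
    generalize n / t ^ 9 = D at *
    generalize n / (t * t) = δ at *
    have c : n ≤ t * t * (2 * δ) := b.trans (Nat.mul_le_mul_left _ (by omega))
    refine Nat.le_of_mul_le_mul_right (c := t ^ 6) ?_ (by positivity)
    calc _ = 4000 * (D * t ^ 9) * n := by ring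
      _ ≤ 4000 * (t * t * (2 * δ)) * (t * t * (2 * δ)) := 
        Nat.mul_le_mul (Nat.mul_le_mul_left _ (a.trans c)) c
      _ = 16000 * (δ * δ * t ^ 4) := by ring
      _ ≤ (t * t) * (δ * δ * t ^ 4) := Nat.mul_le_mul_right _ (by nlinarith)
      _ = _ := by ring
  · exact Nat.div_le_div_left (by rw [← sq]; exact Nat.pow_le_pow_right t0 (by norm_num))
      (by positivity)
  · refine (Nat.le_div_iff_mul_le (by positivity)).2 (le_trans (le_of_eq (by ring))
      (pw 100 34 (by norm_num) (by norm_num)))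

theorem big (r : ℕ) : ∃ N : ℕ, ∀ n, N ≤ n → ∃ u, r ≤ u ∧ 250 ≤ u ∧ (4 * u) ^ 60 ≤ n ∧ n ≤ 2 ^ u := by
  have h := tendsto_pow_const_div_const_pow_of_one_lt 60 (show (1 : ℝ) < 2 by norm_num)
  obtain ⟨l, hl⟩ := Filter.eventually_atTop.1 (h.eventually (gt_mem_nhds
    (show (0 : ℝ) < 1 / (2 * 4 ^ 60) by positivity)))
  refine ⟨2 ^ (l + r + 250), fun n hn => ⟨Nat.log 2 n + 1, ?_, ?_, ?_,
    (Nat.lt_pow_succ_log_self (by norm_num) n).le⟩⟩
  · have := Nat.le_log_of_pow_le (by norm_num) hn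
    omega
  · have := Nat.le_log_of_pow_le (by norm_num) hn
    omega
  · have a := Nat.le_log_of_pow_le (by norm_num) hn
    have b := hl (Nat.log 2 n + 1) (by omega)
    have c : 2 ^ Nat.log 2 n ≤ n := Nat.pow_log_le_self 2 (by
      rintro rfl
      exact absurd hn (not_le.2 (by positivity)))
    refine le_trans ?_ c
    generalize Nat.log 2 n = q at *
    rw [div_lt_div_iff₀ (by positivity) (by positivity), pow_succ (2 : ℝ) q] at b
    have : ((4 * (q + 1 : ℕ)) ^ 60 : ℝ) ≤ 2 ^ q := by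
      rw [mul_pow]
      linarith
    exact_mod_cast this

theorem pack (r : ℕ) : ∃ N : ℕ, ∀ n, N ≤ n → ∀ G H : SimpleGraph (Fin n), Rich G r → Rich H r →
    ∃ σ : Perm (Fin n), ∀ u v, ¬ (G.Adj u v ∧ H.Adj (σ u) (σ v)) := by
  obtain ⟨N, hN⟩ := big r
  refine ⟨N, fun n hn G H hG hH => ?_⟩
  obtain ⟨u, u1, u2, u3, u4⟩ := hN n hn
  obtain ⟨t, k, s, L, D, δ, a1, a2, a3, a4, a5, a6, a7, a8, a9, b1, b2, b3, b4, b5⟩ := nums u2 u3
  have m : ∀ K : SimpleGraph (Fin n), Rich K r → Rich K u := fun K h =>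
    h.trans_le (Nat.mul_le_mul_right _ (Nat.pow_le_pow_right (by norm_num) u1))
  exact core (Fintype.card_fin n) (lt_of_lt_of_le (by positivity) u3) u4 (m G hG) (m H hH) a1 a2 a3 a4 a5
    a6 a7 a8 a9 b1 b2 b3 b4 b5

end Pool.Agent.H97.Pack
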