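import Mathlib
import Pool.Agent.H97.Fatou

/-! Holomorphic strips invariant under a parabolic germ. -/

open Complex Metric Set Filter Topology

namespace Pool.Agent.H97.Petal

open Pool.Agent.H97.Fatou

lemma abs_arg_le {v : ℂ} (hv : N v < 0) : |arg (-v)| ≤ 2 * Real.pi / 3 := by
  by_contra hcon
  push Not at hcon
  have hv0 : -v ≠ 0 := by
    intro h
    have : v = 0 := by simpa using h
    simp [this, N] at hv
  have h1 : Real.cos |arg (-v)| < Real.cos (2 * Real.pi / 3) :=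
    Real.cos_lt_cos_of_nonneg_of_le_pi (by positivity) (abs_arg_le_pi _) hcon
  have h2 : Real.cos (2 * Real.pi / 3) = -(1 / 2) := by
    have : 2 * Real.pi / 3 = Real.pi - Real.pi / 3 := by ring
    rw [this, Real.cos_pi_sub, Real.cos_pi_div_three]
  rw [h2, Real.cos_abs, cos_arg hv0] at h1
  have h3 : 0 < ‖-v‖ := norm_pos_iff.2 hv0
  rw [div_lt_iff₀ h3] at h1
  have h4 := abs_im_le_norm v
  rw [norm_neg] at h1 h3
  simp only [neg_re] at h1
  unfold N at hv
  linarith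

lemma neg_mem_slit {v : ℂ} (hv : N v < 0) : -v ∈ slitPlane := by
  rw [mem_slitPlane_iff]
  by_cases h : v.im = 0
  · left
    simp only [N, h, abs_zero] at hv
    simp only [neg_re]; linarith
  · right; simpa using h

/-- the chart -/
noncomputable def X (β : ℂ) (k : ℕ) (v : ℂ) : ℂ := β * exp (-log (-v) / k)

lemma norm_X (β : ℂ) (k : ℕ) {v : ℂ} (hv : v ≠ 0) : ‖X β k v‖ = ‖β‖ * ‖v‖ ^ (-(1 / k : ℝ)) := by
  have h0 : 0 < ‖v‖ := norm_pos_iff.2 hv
  rw [X, norm_mul, norm_exp, Real.rpow_def_of_pos h0]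
  congr 2
  rw [div_natCast_re, neg_re, log_re, norm_neg]
  ring

lemma X_pow (β : ℂ) {k : ℕ} (hk : k ≠ 0) {v : ℂ} (hv : v ≠ 0) : -v * X β k v ^ k = β ^ k := by
  have hk' : (k : ℂ) ≠ 0 := by exact_mod_cast hk
  rw [X, mul_pow, ← exp_nat_mul, mul_div_cancel₀ _ hk', exp_neg, exp_log (neg_ne_zero.2 hv)]
  field_simp

theorem exists_strip {k : ℕ} (hk : k ≠ 0) {a : ℂ → ℂ} (ha : AnalyticAt ℂ a 0) (ha0 : a 0 ≠ 0)
    {ε : ℝ} (hε : 0 < ε) :
    ∃ ψ : ℂ → ℂ, (∀ h : ℂ, |h.re| ≤ 2 → DifferentiableAt ℂ ψ h ∧ ψ h ≠ 0 ∧ ‖ψ h‖ < ε) ∧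
      (∀ η > 0, ∃ S : ℝ, ∀ h : ℂ, |h.re| ≤ 2 → S ≤ ‖h‖ → ‖ψ h‖ < η) ∧
      ∀ h : ℂ, |h.re| ≤ 1 → ψ (h + 1) = ψ h * (1 + ψ h ^ k * a (ψ h)) := by
  have hk' : (k : ℂ) ≠ 0 := by exact_mod_cast hk
  have hkR : (0 : ℝ) < k := by exact_mod_cast Nat.pos_of_ne_zero hk
  obtain ⟨β, hβ⟩ := IsAlgClosed.exists_pow_nat_eq (1 / (k * a 0)) (Nat.pos_of_ne_zero hk)
  have hβ0 : β ≠ 0 := by
    rintro rfl
    rw [zero_pow hk] at hβ
    exact (one_div_ne_zero (mul_ne_zero hk' ha0)) hβ.symm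
  set y : ℂ → ℂ := fun x => x ^ k * a x with hy
  have hya : AnalyticAt ℂ y 0 := (analyticAt_id.pow k).mul ha
  have hy0 : y 0 = 0 := by simp [hy, hk]
  set A : ℂ → ℂ := fun x =>
    β ^ k * a x * (∑ i ∈ Finset.range k, (1 + y x) ^ i) / (1 + y x) ^ k - 1 with hA
  have hAa : AnalyticAt ℂ A 0 := by
    refine AnalyticAt.sub (AnalyticAt.div ?_ ?_ ?_) analyticAt_const
    · refine (analyticAt_const.mul ha).mul ?_
      exact Finset.analyticAt_fun_sum _ fun i _ => (analyticAt_const.add hya).pow i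
    · exact (analyticAt_const.add hya).pow k
    · simp [hy0]
  have hA0 : A 0 = 0 := by
    simp only [hA, hy0, add_zero, one_pow, Finset.sum_const, Finset.card_range, nsmul_eq_mul,
      mul_one, div_one, hβ]
    field_simp
    ring
  obtain ⟨C, hC⟩ := hAa.differentiableAt.isBigO_sub.bound
  simp only [hA0, sub_zero] at hC
  have hlog : ∀ᶠ x in 𝓝 (0 : ℂ), ‖(k : ℂ) * log (1 + y x)‖ < 1 := by
    have h1 : ContinuousAt (fun x => ‖(k : ℂ) * log (1 + y x)‖) 0 := by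
      refine (continuousAt_const.mul (ContinuousAt.clog ?_ ?_)).norm
      · exact continuousAt_const.add hya.continuousAt
      · simp [hy0]
    refine h1.eventually (gt_mem_nhds ?_)
    simp [hy0]
  have hne : ∀ᶠ x in 𝓝 (0 : ℂ), 1 + y x ≠ 0 := by
    have h1 : ContinuousAt (fun x => 1 + y x) 0 := continuousAt_const.add hya.continuousAt
    exact h1.eventually_ne (by simp [hy0])
  obtain ⟨δ, hδ, hall⟩ := Metric.eventually_nhds_iff_ball.1
    (hC.and (hlog.and (hne.and (hAa.eventually_analyticAt.and (ball_mem_nhds (0 : ℂ) hε)))))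
  set κ : ℝ := 1 / k with hκ
  have hκ0 : 0 < κ := by positivity
  have hlim : Tendsto (fun t : ℝ => ‖β‖ * t ^ (-κ)) atTop (𝓝 0) := by
    simpa using (tendsto_rpow_neg_atTop hκ0).const_mul ‖β‖
  have hsmall : ∀ η > 0, ∃ S > 0, ∀ v : ℂ, S ≤ ‖v‖ → ‖X β k v‖ < η := by
    intro η hη
    obtain ⟨S, hS⟩ := eventually_atTop.1 (hlim.eventually (gt_mem_nhds hη))
    refine ⟨max S 1, by positivity, fun v hv => ?_⟩
    have hv0 : v ≠ 0 := by
      rintro rfl
      have := le_max_right S 1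
      simp only [norm_zero] at hv; linarith
    rw [norm_X β k hv0]
    exact hS _ ((le_max_left _ _).trans hv)
  obtain ⟨S, hS0, hS⟩ := hsmall δ hδ
  have hreg : ∀ v, N v < -(2 * S) → N v < 0 ∧ v ≠ 0 ∧ X β k v ∈ ball (0 : ℂ) δ := by
    intro v hv
    have h1 := neg_N_le v
    refine ⟨by linarith, ?_, ?_⟩
    · rintro rfl
      simp only [norm_zero] at h1; linarith
    · rw [mem_ball_zero_iff]
      exact hS v (by linarith)
  have hXd : ∀ v, N v < 0 → DifferentiableAt ℂ (X β k) v := by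
    intro v hv
    have h1 : DifferentiableAt ℂ (fun v => log (-v)) v :=
      differentiableAt_id.neg.clog (neg_mem_slit hv)
    exact ((h1.neg.div_const _).cexp).const_mul β
  obtain ⟨Ψ, c, hΨ1, hΨ2⟩ := exists_param (fun v => A (X β k v)) (2 * S)
    (max C 0 * ‖β‖ * (3 / 4) ^ (-κ)) κ hκ0
    (fun v hv => by
      obtain ⟨h1, h2, h3⟩ := hreg v hv
      exact (hall _ h3).2.2.2.1.differentiableAt.comp v (hXd v h1))
    (fun v hv => by
      obtain ⟨h1, h2, h3⟩ := hreg v hv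
      have h4 := (hall _ h3).1
      have h5 := neg_N_le v
      have h6 : ‖v‖ ^ (-κ) ≤ (3 / 4 * -N v) ^ (-κ) :=
        Real.rpow_le_rpow_of_nonpos (by linarith) (by linarith) (by linarith)
      rw [Real.mul_rpow (by norm_num) (by linarith)] at h6
      rw [norm_X β k h2] at h4
      calc _ ≤ C * (‖β‖ * ‖v‖ ^ (-κ)) := h4
        _ ≤ max C 0 * (‖β‖ * ‖v‖ ^ (-κ)) := by gcongr; exact le_max_left _ _
        _ ≤ max C 0 * (‖β‖ * ((3 / 4) ^ (-κ) * (-N v) ^ (-κ))) := by gcongr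
        _ = _ := by ring)
  refine ⟨fun h => X β k (Ψ h), fun h hh => ?_, fun η hη => ?_, fun h hh => ?_⟩
  · obtain ⟨h1, h2, -⟩ := hΨ1 h hh
    obtain ⟨h3, h4, h5⟩ := hreg _ h2
    refine ⟨(hXd _ h3).comp h h1, mul_ne_zero hβ0 (exp_ne_zero _), ?_⟩
    exact mem_ball_zero_iff.1 (hall _ h5).2.2.2.2
  · obtain ⟨S', -, hS'⟩ := hsmall η hη
    refine ⟨2 * (S' + c), fun h hh hS => hS' _ ?_⟩
    have := (hΨ1 h hh).2.2
    linarith
  · obtain ⟨-, h2, -⟩ := hΨ1 h (by linarith)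
    obtain ⟨h3, h4, h5⟩ := hreg _ h2
    obtain ⟨-, h6, h7, -, -⟩ := hall _ h5
    simp only [hΨ2 h hh]
    generalize Ψ h = v at h3 h4 h6 h7
    have hXk := X_pow β hk h4
    set x := X β k v with hx
    have e1 : -(v + 1 + A x) = exp (log (-v) - k * log (1 + y x)) := by
      rw [exp_sub, exp_log (neg_ne_zero.2 h4), exp_nat_mul, exp_log h7]
      have h8 : (1 + y x) ^ k ≠ 0 := pow_ne_zero _ h7
      have h9 := mul_geom_sum (1 + y x) k
      simp only [hA]
      rw [← hXk]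
      field_simp
      simp only [hy] at h9 ⊢
      linear_combination (v) * h9
    have him : |(log (-v) - k * log (1 + y x)).im| < Real.pi := by
      rw [sub_im, log_im]
      have h8 := abs_arg_le h3
      have h9 := abs_im_le_norm ((k : ℂ) * log (1 + y x))
      have h10 := abs_sub (arg (-v)) (((k : ℂ) * log (1 + y x)).im)
      have := Real.pi_gt_three
      linarith
    have e2 : log (-(v + 1 + A x)) = log (-v) - k * log (1 + y x) := by
      rw [e1, log_exp (abs_lt.1 him).1 (abs_lt.1 him).2.le]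
    change X β k (v + 1 + A x) = x * (1 + y x)
    rw [X, e2]
    have e3 : -(log (-v) - k * log (1 + y x)) / k = -log (-v) / k + log (1 + y x) := by
      field_simp
      ring
    rw [e3, exp_add, exp_log h7, ← mul_assoc]
    rfl

end Pool.Agent.H97.Petal
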