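import Pool.Agent.H97.PlDefs

set_option autoImplicit false

namespace Pool.Agent.H97.Pl

open Finset Metric

variable {d : ℕ} {K : Set (E d)}

theorem IsBody.ball (h : IsBody K) : ∃ ρ, 0 < ρ ∧ ∃ c, closedBall c ρ ⊆ K := by
  obtain ⟨c, hc⟩ := h.2.2
  obtain ⟨ρ, h0, h1⟩ := Metric.nhds_basis_closedBall.mem_iff.1 (mem_interior_iff_mem_nhds.1 hc)
  exact ⟨ρ, h0, c, h1⟩

theorem IsBody.ne (h : IsBody K) : K.Nonempty := h.2.2.mono interior_subset

theorem le_supp (h : IsBody K) {x : E d} (hx : x ∈ K) (θ : E d) : inner ℝ x θ ≤ supp K θ :=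
  le_csSup (h.1.image (by fun_prop)).bddAbove ⟨x, hx, rfl⟩

theorem supp_le (h : IsBody K) {θ : E d} {t : ℝ} (ht : ∀ x ∈ K, inner ℝ x θ ≤ t) :
    supp K θ ≤ t := csSup_le (h.ne.image _) (by rintro _ ⟨x, hx, rfl⟩; exact ht x hx)

theorem ball_supp (h : IsBody K) {c θ : E d} {ρ : ℝ} (h0 : 0 ≤ ρ) (hb : closedBall c ρ ⊆ K)
    (hθ : ‖θ‖ = 1) : inner ℝ c θ + ρ ≤ supp K θ := by
  have := le_supp h (hb (a := c + ρ • θ) (by simp [norm_smul, hθ, abs_of_nonneg h0])) θ
  rwa [inner_add_left, real_inner_smul_left, real_inner_self_eq_norm_sq, hθ, one_pow,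
    mul_one] at this

theorem le_width (hd : 0 < d) {t : ℝ} (ht : ∀ θ : E d, ‖θ‖ = 1 → t ≤ supp K θ + supp K (-θ)) :
    t ≤ width K :=
  le_csInf ⟨_, EuclideanSpace.single ⟨0, hd⟩ 1, by simp, rfl⟩
    (by rintro _ ⟨θ, hθ, rfl⟩; exact ht θ hθ)

theorem ball_width (hd : 0 < d) (h : IsBody K) {c : E d} {ρ : ℝ} (h0 : 0 ≤ ρ)
    (hb : closedBall c ρ ⊆ K) : 2 * ρ ≤ width K :=
  le_width hd fun θ hθ => by
    have h1 := ball_supp h h0 hb hθ
    have h2 := ball_supp h h0 hb (θ := -θ) (by simpa using hθ)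
    rw [inner_neg_right] at h2
    linarith

theorem width_pos (hd : 0 < d) (h : IsBody K) : 0 < width K := by
  obtain ⟨ρ, h0, c, hc⟩ := h.ball
  linarith [ball_width hd h h0.le hc]

theorem width_le (h : IsBody K) {θ : E d} (hθ : ‖θ‖ = 1) : width K ≤ supp K θ + supp K (-θ) := by
  refine csInf_le ⟨0, ?_⟩ ⟨θ, hθ, rfl⟩
  rintro _ ⟨θ, -, rfl⟩
  obtain ⟨x, hx⟩ := h.ne
  have h1 := le_supp h hx θ
  have h2 := le_supp h hx (-θ)
  rw [inner_neg_right] at h2
  linarith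

theorem le_inrad (hd : 0 < d) (h : IsBody K) {c : E d} {ρ : ℝ} (h0 : 0 ≤ ρ)
    (hb : closedBall c ρ ⊆ K) : ρ ≤ inrad K :=
  le_csSup ⟨width K / 2, by
    rintro ρ ⟨h0, c, hc⟩
    linarith [ball_width hd h h0 hc]⟩ ⟨h0, c, hb⟩

theorem inrad_le (h : IsBody K) {t : ℝ} (ht : ∀ c ρ, 0 ≤ ρ → closedBall c ρ ⊆ K → ρ ≤ t) :
    inrad K ≤ t := by
  obtain ⟨ρ, h0, c, hc⟩ := h.ball
  exact csSup_le ⟨ρ, h0.le, c, hc⟩ (by rintro ρ ⟨h0, c, hc⟩; exact ht c ρ h0 hc)

theorem inrad_pos (hd : 0 < d) (h : IsBody K) : 0 < inrad K := by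
  obtain ⟨ρ, h0, c, hc⟩ := h.ball
  exact h0.trans_le (le_inrad hd h h0.le hc)

theorem ball_sub (h : IsBody K) {c : E d} {r : ℝ}
    (hc : ∀ u : E d, ‖u‖ = 1 → inner ℝ c u ≤ supp K u - r) : closedBall c r ⊆ K := by
  intro y hy
  by_contra hn
  obtain ⟨f, t, h1, h2⟩ := geometric_hahn_banach_closed_point h.2.1 h.1.isClosed hn
  set v := (InnerProductSpace.toDual ℝ (E d)).symm f
  have hv : ∀ x, inner ℝ x v = f x := fun x => by
    rw [real_inner_comm]; exact InnerProductSpace.toDual_symm_apply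
  have hv0 : 0 < ‖v‖ := by
    rw [norm_pos_iff]
    intro h0
    obtain ⟨x, hx⟩ := h.ne
    have := h1 x hx
    rw [← hv, h0, inner_zero_right] at this h2
    linarith
  have hu : ‖‖v‖⁻¹ • v‖ = 1 := norm_smul_inv_norm (norm_pos_iff.1 hv0)
  have a1 := hc _ hu
  have a2 : supp K (‖v‖⁻¹ • v) ≤ ‖v‖⁻¹ * t := supp_le h fun x hx => by
    rw [real_inner_smul_right, hv]
    exact mul_le_mul_of_nonneg_left (h1 x hx).le (by positivity)
  have a3 := real_inner_le_norm (y - c) (‖v‖⁻¹ • v)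
  rw [hu, mul_one, inner_sub_left, real_inner_smul_right y, hv] at a3
  rw [mem_closedBall, dist_eq_norm] at hy
  have := mul_lt_mul_of_pos_left h2 (inv_pos.2 hv0)
  linarith

theorem helly (hd : 0 < d) (h : IsBody K) {r : ℝ} (hr : inrad K < r) :
    ∃ u : Fin (d + 1) → E d, (∀ i, ‖u i‖ = 1) ∧
      ¬ ∃ c : E d, ∀ i, inner ℝ c (u i) ≤ supp K (u i) - r := by
  classical
  by_contra hn
  push Not at hn
  let H : {u : E d // ‖u‖ = 1} → Set (E d) := fun u => {c | inner ℝ c u.1 ≤ supp K u.1 - r}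
  have hfin : ∀ I : Finset {u : E d // ‖u‖ = 1}, (⋂ i ∈ I, H i).Nonempty := by
    intro I
    refine Convex.helly_theorem' (𝕜 := ℝ) (fun u _ => ?_) (fun J _ hJ => ?_)
    · exact convex_halfSpace_le ⟨fun x y => inner_add_left _ _ _,
        fun a x => real_inner_smul_left _ _ _⟩ _
    rcases J.eq_empty_or_nonempty with rfl | hne
    · simp
    have : Nonempty J := hne.to_subtype
    obtain ⟨e⟩ : Nonempty (J ↪ Fin (d + 1)) :=
      Function.Embedding.nonempty_of_card_le (by simpa using hJ)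
    obtain ⟨c, hc⟩ := hn (fun i => (Function.invFun e i).1.1) (fun i => (Function.invFun e i).1.2)
    refine ⟨c, Set.mem_iInter₂.2 fun u hu => ?_⟩
    have := hc (e ⟨u, hu⟩)
    rwa [Function.leftInverse_invFun e.injective] at this
  let p : Fin d → {u : E d // ‖u‖ = 1} := fun j => ⟨EuclideanSpace.single j 1, by simp⟩
  let q : Fin d → {u : E d // ‖u‖ = 1} := fun j => ⟨-EuclideanSpace.single j 1, by simp⟩
  set M := ∑ j, (|supp K (p j).1 - r| + |supp K (q j).1 - r|) ^ 2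
  obtain ⟨c, -, hc⟩ := (isCompact_closedBall (0 : E d) (Real.sqrt M)).inter_iInter_nonempty H
    (fun u => isClosed_le (by fun_prop) continuous_const) (fun I => by
      obtain ⟨c, hc⟩ := hfin (I ∪ (univ.image p ∪ univ.image q))
      rw [Set.mem_iInter₂] at hc
      refine ⟨c, ?_, Set.mem_iInter₂.2 fun u hu => hc u (by simp [hu])⟩
      rw [mem_closedBall_zero_iff, EuclideanSpace.norm_eq]
      refine Real.sqrt_le_sqrt (sum_le_sum fun j _ => ?_)
      have h1 := hc (p j) (by simp)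
      have h2 := hc (q j) (by simp)
      simp only [H, Set.mem_ofPred_eq] at h1 h2
      have e1 : inner ℝ c (p j).1 = c j := by simp [p, EuclideanSpace.inner_single_right]
      have e2 : inner ℝ c (q j).1 = -c j := by simp [q, EuclideanSpace.inner_single_right]
      rw [e1] at h1
      rw [e2] at h2
      rw [Real.norm_eq_abs]
      gcongr
      rw [abs_le]
      constructor <;> linarith [le_abs_self (supp K (p j).1 - r), le_abs_self (supp K (q j).1 - r),
        abs_nonneg (supp K (p j).1 - r), abs_nonneg (supp K (q j).1 - r)])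
  have := le_inrad hd h ((inrad_pos hd h).trans hr).le
    (ball_sub h fun u hu => Set.mem_iInter.1 hc ⟨u, hu⟩)
  linarith

theorem farkas {n : ℕ} (u : Fin n → E d) (y : Fin n → ℝ)
    (h : ¬ ∃ c : E d, ∀ i, inner ℝ c (u i) ≤ y i) :
    ∃ l : Fin n → ℝ, (∀ i, 0 ≤ l i) ∧ ∑ i, l i = 1 ∧ ∑ i, l i • u i = 0 ∧ ∑ i, l i * y i ≤ 0 := by
  let L : (Fin n → ℝ) →ₗ[ℝ] E d × ℝ := Fintype.linearCombination ℝ (fun i => (u i, y i))
  by_contra hn
  have hdis : Disjoint (L '' stdSimplex ℝ (Fin n)) {p : E d × ℝ | p.1 = 0 ∧ p.2 ≤ 0} := by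
    rw [Set.disjoint_left]
    rintro _ ⟨l, hl, rfl⟩ ⟨h1, h2⟩
    refine hn ⟨l, hl.1, hl.2, ?_, ?_⟩
    · simpa [L, Fintype.linearCombination_apply, Prod.fst_sum] using h1
    · simpa [L, Fintype.linearCombination_apply, Prod.snd_sum] using h2
  obtain ⟨f, s, t, h1, h2, h3⟩ := geometric_hahn_banach_compact_closed
    ((convex_stdSimplex ℝ _).linear_image L)
    ((isCompact_stdSimplex ℝ _).image L.continuous_of_finiteDimensional)
    (t := {p : E d × ℝ | p.1 = 0 ∧ p.2 ≤ 0})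
    (by
      intro a ha b hb α β hα hβ _
      refine ⟨by simp [ha.1, hb.1], ?_⟩
      have := ha.2; have := hb.2
      simp only [Prod.snd_add, Prod.smul_snd, smul_eq_mul]
      nlinarith)
    ((isClosed_eq continuous_fst continuous_const).inter
      (isClosed_le continuous_snd continuous_const)) hdis
  have t0 : t < 0 := by simpa using h3 0 ⟨rfl, le_rfl⟩
  set τ := f (0, 1)
  have hf : ∀ a : ℝ, f (0, a) = a * τ := fun a => by
    rw [show ((0, a) : E d × ℝ) = a • (0, 1) by simp, map_smul]; rfl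
  have τ0 : τ ≤ 0 := by
    by_contra hτ
    push Not at hτ
    have := h3 (0, t / τ) ⟨rfl, div_nonpos_of_nonpos_of_nonneg t0.le hτ.le⟩
    rw [hf, div_mul_cancel₀ _ hτ.ne'] at this
    exact lt_irrefl _ this
  set v := (InnerProductSpace.toDual ℝ (E d)).symm (f.comp (ContinuousLinearMap.inl ℝ _ ℝ))
  have hv : ∀ i, inner ℝ v (u i) + y i * τ < s := fun i => by
    have := h1 _ ⟨_, single_mem_stdSimplex ℝ i, rfl⟩
    rw [InnerProductSpace.toDual_symm_apply, ← hf]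
    simp only [ContinuousLinearMap.comp_apply, ContinuousLinearMap.inl_apply, ← map_add]
    simpa [L] using this
  set Y := ∑ i, |y i| + 1
  have hY : ∀ i, -y i ≤ Y := fun i => by
    have := single_le_sum (f := fun i => |y i|) (fun _ _ => abs_nonneg _) (mem_univ i)
    linarith [neg_abs_le (y i)]
  have Y0 : 0 < Y := by positivity
  have η0 : 0 < -s / Y := div_pos (by linarith) Y0
  refine h ⟨(-s / Y - τ)⁻¹ • v, fun i => ?_⟩
  rw [real_inner_smul_left, inv_mul_le_iff₀ (by linarith)]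
  have := mul_le_mul_of_nonneg_left (hY i) η0.le
  rw [div_mul_cancel₀ _ Y0.ne'] at this
  nlinarith [hv i]

/-- dual certificate for the inradius -/
theorem cert (hd : 0 < d) (h : IsBody K) {r : ℝ} (hr : inrad K < r) :
    ∃ (u : Fin (d + 1) → E d) (l : Fin (d + 1) → ℝ), (∀ i, ‖u i‖ = 1) ∧ (∀ i, 0 ≤ l i) ∧
      ∑ i, l i = 1 ∧ ∑ i, l i • u i = 0 ∧
      ∀ x ∈ K, ∑ i, l i * (supp K (u i) - inner ℝ x (u i)) ≤ r := by
  obtain ⟨u, hu, hn⟩ := helly hd h hr
  obtain ⟨l, h0, h1, h2, h3⟩ := farkas u _ hn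
  refine ⟨u, l, hu, h0, h1, h2, fun x _ => ?_⟩
  have := congrArg (inner ℝ x) h2
  simp only [inner_sum, real_inner_smul_right, inner_zero_right] at this
  simp only [mul_sub, sum_sub_distrib, ← sum_mul, h1] at h3 ⊢
  linarith

end Pool.Agent.H97.Pl
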