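import Pool.Agent.H97.Pl1

set_option autoImplicit false

namespace Pool.Agent.H97.Pl

open Finset Metric

variable {d : ℕ} {K : Set (E d)}

open Classical in
theorem cov_of {ι : Type} (s : Finset ι) (θ : ι → E d) (a b : ι → ℝ) {k : ℕ}
    (h1 : ∀ i ∈ s, ‖θ i‖ = 1 ∧ a i ≤ b i)
    (h2 : ∀ x ∈ K, (k : ℝ) ≤ ∑ i ∈ s,
      if a i ≤ inner ℝ x (θ i) ∧ inner ℝ x (θ i) ≤ b i then 1 else 0) :
    Cov K k (∑ i ∈ s, (b i - a i)) := by
  refine ⟨s.card, fun j => θ (s.equivFin.symm j), fun j => a (s.equivFin.symm j),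
    fun j => b (s.equivFin.symm j), fun j => h1 _ (s.equivFin.symm j).2, fun x hx => ?_, ?_⟩
  · have := h2 x hx
    rw [← sum_coe_sort, ← s.equivFin.symm.sum_comp, sum_boole] at this
    exact_mod_cast this
  · rw [← sum_coe_sort, ← s.equivFin.symm.sum_comp]

theorem Cov.nonneg {k : ℕ} {s : ℝ} (h : Cov K k s) : 0 ≤ s := by
  obtain ⟨m, θ, a, b, h1, -, rfl⟩ := h
  exact sum_nonneg fun i _ => sub_nonneg.2 (h1 i).2

noncomputable def tt (L : ℝ) (j : ℕ) : ℝ := if (j : ℝ) ≤ L then 2 - j / (L / 2) else 0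

theorem tt_nonneg {L : ℝ} (hL : 0 ≤ L) (j : ℕ) : 0 ≤ tt L j := by
  unfold tt
  split_ifs with h
  · rw [sub_nonneg]
    exact div_le_of_le_mul₀ (by linarith) (by norm_num) (by linarith)
  · exact le_rfl

theorem tt_sum {L : ℝ} (hL : 0 ≤ L) (n : ℕ) : ∑ j ∈ range (n + 1), tt L j ≤ L + 2 := by
  rcases hL.eq_or_lt with rfl | hL
  · rw [sum_range_succ', sum_eq_zero fun j _ => by
      unfold tt; rw [if_neg]; push_cast; linarith [Nat.cast_nonneg (α := ℝ) j]]
    simp [tt]
  have : ∑ j ∈ range (n + 1), tt L j ≤ L + 2 - (max (L - n) 0) ^ 2 / L := by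
    induction n with
    | zero =>
      simp only [tt, zero_add, range_one, sum_singleton, Nat.cast_zero, hL.le, if_true, zero_div,
        sub_zero, max_eq_left]
      rw [sq, mul_div_cancel_right₀ _ hL.ne']; linarith
    | succ n ih =>
      rw [sum_range_succ]
      have : tt L (n + 1) ≤ (max (L - n) 0) ^ 2 / L - (max (L - (n + 1 : ℕ)) 0) ^ 2 / L := by
        unfold tt
        push_cast
        split_ifs with h
        · rw [max_eq_left (by linarith), max_eq_left (by linarith), ← sub_div, le_div_iff₀ hL]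
          field_simp
          nlinarith
        · push Not at h
          rw [max_eq_right (a := L - (n + 1)) (by linarith)]
          simp only [ne_eq, OfNat.ofNat_ne_zero, not_false_eq_true, zero_pow, zero_div, sub_zero]
          positivity
      linarith
  have h2 : 0 ≤ (max (L - n) 0) ^ 2 / L := by positivity
  linarith

theorem tt_count {L r δ : ℝ} {n : ℕ} (hL : 0 ≤ L) (hn : L ≤ n) (hr : 0 < r) (hδ : 0 ≤ δ) :
    L / 2 * (2 - δ / r) ≤ ∑ j ∈ range (n + 1), if δ ≤ r * tt L j then (1 : ℝ) else 0 := by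
  set y := L / 2 * (2 - δ / r) with hy
  rcases le_or_gt y 0 with h0 | h0
  · exact h0.trans (sum_nonneg fun _ _ => by split_ifs <;> norm_num)
  have hL0 : 0 < L := by
    rcases hL.eq_or_lt with rfl | h
    · simp [hy] at h0
    · exact h
  have hyL : y ≤ L := by
    have : 0 ≤ δ / r := by positivity
    nlinarith
  rw [sum_boole]
  have : (range (⌊y⌋₊ + 1)).card ≤ ((range (n + 1)).filter fun j => δ ≤ r * tt L j).card := by
    refine card_le_card fun j hj => ?_
    have h1 : (j : ℝ) ≤ y := (Nat.le_floor_iff h0.le).1 (Nat.lt_succ_iff.1 (mem_range.1 hj))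
    refine mem_filter.2 ⟨mem_range.2 (Nat.lt_succ_iff.2 ?_), ?_⟩
    · exact_mod_cast h1.trans (hyL.trans hn)
    · unfold tt
      rw [if_pos (h1.trans hyL), ← div_le_iff₀' hr]
      have : (j : ℝ) / (L / 2) ≤ 2 - δ / r := by
        rw [div_le_iff₀' (by linarith)]; exact h1
      linarith
  rw [card_range] at this
  have h2 : ((⌊y⌋₊ + 1 : ℕ) : ℝ) ≤ _ := Nat.cast_le.2 this
  push_cast at h2
  linarith [Nat.lt_floor_add_one y]

theorem cov_ex (hd : 0 < d) (h : IsBody K) {r : ℝ} (hr : inrad K < r) (k : ℕ) :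
    ∃ s, Cov K k s ∧ s ≤ 2 * r * (k + (d + 1)) := by
  classical
  obtain ⟨u, l, hu, h0, h1, -, h3⟩ := cert hd h hr
  have r0 : 0 < r := (inrad_pos hd h).trans hr
  have hL : ∀ i, 0 ≤ 2 * k * l i := fun i => by have := h0 i; positivity
  have hl : ∀ i, l i ≤ 1 := fun i => h1 ▸ single_le_sum (fun j _ => h0 j) (mem_univ i)
  refine ⟨_, cov_of (univ ×ˢ range (2 * k + 1)) (fun p => u p.1)
    (fun p => supp K (u p.1) - r * tt (2 * k * l p.1) p.2) (fun p => supp K (u p.1))
    (fun p _ => ⟨hu _, by nlinarith [tt_nonneg (hL p.1) p.2]⟩) (fun x hx => ?_), ?_⟩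
  · rw [sum_product]
    refine le_trans ?_ (sum_le_sum fun i _ => (tt_count (n := 2 * k) (hL i) (r := r)
      (δ := supp K (u i) - inner ℝ x (u i))
      (by push_cast; nlinarith [hl i, Nat.cast_nonneg (α := ℝ) k]) r0
      (sub_nonneg.2 (le_supp h hx _))).trans (sum_le_sum fun j _ => ?_))
    · have e : ∀ i, 2 * k * l i / 2 * (2 - (supp K (u i) - inner ℝ x (u i)) / r) =
          2 * k * l i - k / r * (l i * (supp K (u i) - inner ℝ x (u i))) := fun i => by ring
      simp only [e, sum_sub_distrib, ← mul_sum, h1]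
      have := mul_le_mul_of_nonneg_left (h3 x hx) (show 0 ≤ (k : ℝ) / r by positivity)
      rw [div_mul_cancel₀ _ r0.ne'] at this
      linarith
    · have := le_supp h hx (u i)
      split_ifs with a b
      · exact le_rfl
      · exact absurd ⟨by linarith, this⟩ b
      · norm_num
      · exact le_rfl
  · simp only [sub_sub_cancel, sum_product, ← mul_sum]
    have := sum_le_sum fun i (_ : i ∈ univ) => tt_sum (hL i) (2 * k)
    simp only [sum_add_distrib, ← mul_sum, h1, sum_const, card_univ, Fintype.card_fin,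
      nsmul_eq_mul] at this
    push_cast at this
    nlinarith

theorem cK_le (hd : 0 < d) (h : IsBody K) {k : ℕ} {s : ℝ} (hs : Cov K k s) :
    cK K k ≤ s / width K :=
  csInf_le ⟨0, by
    rintro _ ⟨s, hs, rfl⟩
    exact div_nonneg hs.nonneg (width_pos hd h).le⟩ ⟨s, hs, rfl⟩

theorem le_cK (hd : 0 < d) (h : IsBody K) {k : ℕ} {t : ℝ} (ht : ∀ s, Cov K k s → t ≤ s) :
    t / width K ≤ cK K k := by
  obtain ⟨s, hs, -⟩ := cov_ex hd h (lt_add_one _) k
  refine le_csInf ⟨_, s, hs, rfl⟩ ?_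
  rintro _ ⟨s, hs, rfl⟩
  exact div_le_div_of_nonneg_right (ht s hs) (width_pos hd h).le

theorem cK_upper (hd : 0 < d) (h : IsBody K) (k : ℕ) :
    cK K k ≤ (k + (d + 1)) * (2 * inrad K / width K) := by
  have w0 := width_pos hd h
  have : cK K k * width K / (2 * (k + (d + 1))) ≤ inrad K := le_of_forall_gt_imp_ge_of_dense
    fun r hr => by
      obtain ⟨s, hs, hs'⟩ := cov_ex hd h hr k
      have := cK_le hd h hs
      rw [le_div_iff₀ w0] at this
      rw [div_le_iff₀ (by positivity)]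
      linarith
  rw [div_le_iff₀ (by positivity)] at this
  rw [← mul_div_assoc, le_div_iff₀ w0]
  linarith

theorem width_mul (h : IsBody K) {v : E d} {r : ℝ} (hr : 0 ≤ r)
    (hv : ∀ x ∈ K, ∀ y ∈ K, inner ℝ x v - inner ℝ y v ≤ r) : width K * ‖v‖ ≤ r := by
  rcases eq_or_ne v 0 with rfl | h0
  · simpa using hr
  have hv0 := norm_pos_iff.2 h0
  have h1 := width_le h (norm_smul_inv_norm (𝕜 := ℝ) h0)
  have h2 : supp K (‖v‖⁻¹ • v) ≤ ‖v‖⁻¹ * r - supp K (-(‖v‖⁻¹ • v)) := supp_le h fun x hx => by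
    have : supp K (-(‖v‖⁻¹ • v)) ≤ ‖v‖⁻¹ * r - inner ℝ x (‖v‖⁻¹ • v) := supp_le h fun y hy => by
      have := mul_le_mul_of_nonneg_left (hv x hx y hy) (inv_pos.2 hv0).le
      simp only [inner_neg_right, real_inner_smul_right]
      linarith
    linarith
  simp only [RCLike.ofReal_real_eq_id, id] at h1
  rw [← le_div_iff₀ hv0, div_eq_inv_mul]
  linarith

theorem width_sub (h : IsBody K) {n : ℕ} {u : Fin n → E d} {l : Fin n → ℝ} {r : ℝ} (hr : 0 ≤ r)
    (h0 : ∀ i, 0 ≤ l i) (h3 : ∀ x ∈ K, ∑ i, l i * (supp K (u i) - inner ℝ x (u i)) ≤ r)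
    (S : Finset (Fin n)) : width K * ‖∑ i ∈ S, l i • u i‖ ≤ r :=
  width_mul h hr fun x hx y hy => by
    simp only [inner_sum, real_inner_smul_right, ← sum_sub_distrib]
    refine le_trans ?_ (h3 y hy)
    refine le_trans (sum_le_sum fun i _ => ?_) (sum_le_sum_of_subset_of_nonneg (subset_univ S)
      fun i _ _ => mul_nonneg (h0 i) (sub_nonneg.2 (le_supp h hy _)))
    nlinarith [le_supp h hx (u i), h0 i]

theorem stein2 {K : Set (E 2)} (h : IsBody K) : width K ≤ 3 * inrad K := by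
  have : width K / 3 ≤ inrad K := le_of_forall_gt_imp_ge_of_dense fun r hr => by
    obtain ⟨u, l, hu, h0, h1, -, h3⟩ := cert two_pos h hr
    have r0 := ((inrad_pos two_pos h).trans hr).le
    have a := fun i => width_sub h r0 h0 h3 {i}
    simp only [sum_singleton, norm_smul, hu, mul_one, Real.norm_eq_abs, abs_of_nonneg (h0 _)] at a
    have := sum_le_sum fun i (_ : i ∈ univ) => a i
    rw [← mul_sum, h1] at this
    simp at this
    linarith
  linarith

theorem stein3 {K : Set (E 3)} (h : IsBody K) : width K ≤ 2 * Real.sqrt 3 * inrad K := by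
  have s3 : 0 < Real.sqrt 3 := by positivity
  have w0 := width_pos (by norm_num) h
  have : width K / (2 * Real.sqrt 3) ≤ inrad K := le_of_forall_gt_imp_ge_of_dense fun r hr => by
    obtain ⟨u, l, hu, h0, h1, h2, h3⟩ := cert (by norm_num) h hr
    have r0 := ((inrad_pos (by norm_num) h).trans hr).le
    have a : ∀ j : Fin 4, 0 ≠ j → width K ^ 2 * ‖l 0 • u 0 + l j • u j‖ ^ 2 ≤ r ^ 2 := by
      intro j hj
      have := width_sub h r0 h0 h3 {0, j}
      rw [sum_pair hj] at this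
      rw [← mul_pow]
      gcongr
    have n : ∀ i, ‖l i • u i‖ ^ 2 = l i ^ 2 := fun i => by simp [norm_smul, hu]
    rw [Fin.sum_univ_four] at h1 h2
    have i0 := congrArg (inner ℝ (l 0 • u 0)) h2
    simp only [inner_add_right, inner_zero_right, real_inner_self_eq_norm_sq, n] at i0
    have a1 := a 1 (by decide)
    have a2 := a 2 (by decide)
    have a3 := a 3 (by decide)
    rw [norm_add_sq_real, n, n] at a1 a2 a3
    have q : 1 / 4 ≤ l 0 ^ 2 + l 1 ^ 2 + l 2 ^ 2 + l 3 ^ 2 := by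
      nlinarith [sq_nonneg (l 0 - 1 / 4), sq_nonneg (l 1 - 1 / 4), sq_nonneg (l 2 - 1 / 4),
        sq_nonneg (l 3 - 1 / 4)]
    have b : width K ^ 2 * (l 0 ^ 2 + l 1 ^ 2 + l 2 ^ 2 + l 3 ^ 2) ≤ 3 * r ^ 2 := by
      have : inner ℝ (l 0 • u 0) (l 3 • u 3) = -(l 0 ^ 2) - inner ℝ (l 0 • u 0) (l 1 • u 1) -
        inner ℝ (l 0 • u 0) (l 2 • u 2) := by linarith
      rw [this] at a3
      linarith
    rw [div_le_iff₀ (by positivity)]
    refine (pow_le_pow_iff_left₀ w0.le (by positivity) two_ne_zero).1 ?_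
    have := Real.sq_sqrt (show (0 : ℝ) ≤ 3 by norm_num)
    rw [mul_pow, mul_pow, this]
    nlinarith [sq_nonneg (width K)]
  rw [div_le_iff₀ (by positivity)] at this
  linarith

end Pool.Agent.H97.Pl
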