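import Pool.Agent.H97.Pl2

set_option autoImplicit false

namespace Pool.Agent.H97.Pl

open Finset Metric MeasureTheory

theorem cl4 {X : Type} [TopologicalSpace X] {f1 g1 f2 g2 f3 g3 f4 g4 : X → ℝ}
    (h1 : Continuous f1) (h2 : Continuous g1) (h3 : Continuous f2) (h4 : Continuous g2)
    (h5 : Continuous f3) (h6 : Continuous g3) (h7 : Continuous f4) (h8 : Continuous g4) :
    IsClosed {x | (f1 x ≤ g1 x ∧ f2 x ≤ g2 x) ∧ f3 x ≤ g3 x ∧ f4 x ≤ g4 x} :=
  ((isClosed_le h1 h2).inter (isClosed_le h3 h4)).inter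
    ((isClosed_le h5 h6).inter (isClosed_le h7 h8))

theorem annulus {α β : ℝ} (h : α ≤ β) :
    volume {z : E 2 | α ≤ ‖z‖ ^ 2 ∧ ‖z‖ ^ 2 ≤ β} ≤ ENNReal.ofReal (Real.pi * (β - α)) := by
  have hp := Real.pi_pos
  rcases lt_or_ge β 0 with hb | hb
  · rw [show {z : E 2 | α ≤ ‖z‖ ^ 2 ∧ ‖z‖ ^ 2 ≤ β} = ∅ from Set.eq_empty_of_forall_notMem
      fun z hz => by nlinarith [hz.2, sq_nonneg ‖z‖]]
    simp
  have e : ∀ t : ℝ, 0 ≤ t → ENNReal.ofReal (Real.sqrt t) ^ 2 * ENNReal.ofReal Real.pi =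
      ENNReal.ofReal (Real.pi * t) := fun t ht => by
    rw [← ENNReal.ofReal_pow (Real.sqrt_nonneg _), Real.sq_sqrt ht, ← ENNReal.ofReal_mul ht,
      mul_comm]
  have hsub : {z : E 2 | α ≤ ‖z‖ ^ 2 ∧ ‖z‖ ^ 2 ≤ β} ⊆
      closedBall 0 (Real.sqrt β) \ ball 0 (Real.sqrt α) := fun z hz =>
    ⟨mem_closedBall_zero_iff.2 (Real.le_sqrt_of_sq_le hz.2), by
      rw [mem_ball_zero_iff, not_lt]
      exact Real.sqrt_le_iff.2 ⟨norm_nonneg _, hz.1⟩⟩
  refine (measure_mono hsub).trans ?_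
  rcases le_or_gt α 0 with ha | ha
  · refine (measure_mono Set.sdiff_subset).trans ?_
    rw [EuclideanSpace.volume_closedBall_fin_two, e β hb]
    exact ENNReal.ofReal_le_ofReal (by nlinarith)
  · rw [measure_sdiff (ball_subset_closedBall.trans
      (closedBall_subset_closedBall (Real.sqrt_le_sqrt h)))
      measurableSet_ball.nullMeasurableSet measure_ball_lt_top.ne,
      EuclideanSpace.volume_closedBall_fin_two, EuclideanSpace.volume_ball_fin_two, e β hb,
      e α ha.le, ← ENNReal.ofReal_sub _ (by positivity), mul_sub]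

theorem slab0 {α β a b : ℝ} (h : α ≤ β) :
    volume {y : E 3 | (α ≤ ‖y‖ ^ 2 ∧ ‖y‖ ^ 2 ≤ β) ∧ a ≤ y 0 ∧ y 0 ≤ b} ≤
      ENNReal.ofReal (Real.pi * (β - α)) * ENNReal.ofReal (b - a) := by
  have hm := (((MeasurePreserving.id (volume : Measure ℝ)).prod
    (PiLp.volume_preserving_toLp (Fin 2))).comp
    (volume_preserving_piFinSuccAbove (fun _ : Fin 3 => ℝ) 0)).comp
    (PiLp.volume_preserving_ofLp (Fin 3))
  let T : Set (ℝ × E 2) :=
    {p | (α - p.1 ^ 2 ≤ ‖p.2‖ ^ 2 ∧ ‖p.2‖ ^ 2 ≤ β - p.1 ^ 2) ∧ a ≤ p.1 ∧ p.1 ≤ b}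
  have hT : MeasurableSet T := by
    refine IsClosed.measurableSet ?_
    apply cl4 <;> fun_prop
  have := hm.measure_preimage hT.nullMeasurableSet
  refine le_trans (measure_mono ?_) (this.trans_le ?_)
  · intro y hy
    simp only [Set.mem_ofPred_eq, EuclideanSpace.real_norm_sq_eq, Fin.sum_univ_three] at hy
    simp only [T, Set.mem_preimage, Function.comp, Set.mem_ofPred_eq,
      EuclideanSpace.real_norm_sq_eq, Fin.sum_univ_two]
    simp [MeasurableEquiv.piFinSuccAbove, Fin.tail]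
    refine ⟨⟨?_, ?_⟩, hy.2⟩ <;> linarith [hy.1.1, hy.1.2]
  · rw [Measure.prod_apply hT]
    calc _ ≤ ∫⁻ t, (Set.Icc a b).indicator (fun _ => ENNReal.ofReal (Real.pi * (β - α))) t := by
          refine lintegral_mono fun t => ?_
          by_cases ht : t ∈ Set.Icc a b
          · rw [Set.indicator_of_mem ht]
            have := annulus (α := α - t ^ 2) (β := β - t ^ 2) (by linarith)
            rw [sub_sub_sub_cancel_right] at this
            exact (measure_mono fun z hz => hz.1).trans this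
          · rw [show Prod.mk t ⁻¹' T = ∅ from Set.eq_empty_of_forall_notMem
              fun z hz => ht hz.2]
            simp
      _ = _ := by rw [lintegral_indicator_const measurableSet_Icc, Real.volume_Icc]

theorem slab {α β a b : ℝ} (h : α ≤ β) (c θ : E 3) (hθ : ‖θ‖ = 1) :
    volume {x : E 3 | (α ≤ ‖x - c‖ ^ 2 ∧ ‖x - c‖ ^ 2 ≤ β) ∧
      a ≤ inner ℝ x θ ∧ inner ℝ x θ ≤ b} ≤
      ENNReal.ofReal (Real.pi * (β - α)) * ENNReal.ofReal (b - a) := by
  let R := Submodule.reflection (ℝ ∙ (θ - EuclideanSpace.single 0 1))ᗮ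
  have hR : R θ = EuclideanSpace.single 0 1 := Submodule.reflection_sub (by simp [hθ])
  have hm := R.measurePreserving.comp (measurePreserving_sub_right volume c)
  have hi : ∀ x, R x 0 = inner ℝ x θ := fun x => by
    rw [← R.inner_map_map, hR]; simp [EuclideanSpace.inner_single_right]
  have h0 := slab0 (a := a - inner ℝ c θ) (b := b - inner ℝ c θ) h
  rw [sub_sub_sub_cancel_right] at h0
  refine le_trans (measure_mono ?_) ((hm.measure_preimage (IsClosed.measurableSet
    (by apply cl4 <;> fun_prop)).nullMeasurableSet).trans_le h0)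
  intro x hx
  simp only [Set.mem_preimage, Function.comp, Set.mem_ofPred_eq, hi, R.norm_map, inner_sub_left,
    sub_le_sub_iff_right]
  exact hx

theorem low3 {K : Set (E 3)} {c : E 3} {ρ : ℝ} (hb : closedBall c ρ ⊆ K) {k : ℕ} {s : ℝ}
    (hs : Cov K k s) : 2 * ρ * k ≤ s := by
  classical
  have s0 := hs.nonneg
  have hp := Real.pi_pos
  suffices h : ∀ σ, 0 < σ → σ < ρ → 2 * σ * k ≤ s by
    rcases Nat.eq_zero_or_pos k with rfl | hk
    · simpa using s0
    have hk : (0 : ℝ) < k := by exact_mod_cast hk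
    have : ρ ≤ s / (2 * k) := le_of_forall_lt_imp_le_of_dense fun σ hσ => by
      rcases le_or_gt σ 0 with h0 | h0
      · exact h0.trans (by positivity)
      · rw [le_div_iff₀ (by positivity)]; linarith [h σ h0 hσ]
    rw [le_div_iff₀ (by positivity)] at this
    linarith
  intro σ h0 hσ
  obtain ⟨m, θ, a, b, h1, h2, rfl⟩ := hs
  let S : Set (E 3) := {x | σ ^ 2 ≤ ‖x - c‖ ^ 2 ∧ ‖x - c‖ ^ 2 ≤ ρ ^ 2}
  let P : Fin m → Set (E 3) := fun i => {x | (σ ^ 2 ≤ ‖x - c‖ ^ 2 ∧ ‖x - c‖ ^ 2 ≤ ρ ^ 2) ∧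
    a i ≤ inner ℝ x (θ i) ∧ inner ℝ x (θ i) ≤ b i}
  have hP : ∀ i, MeasurableSet (P i) := fun i => by
    refine IsClosed.measurableSet ?_
    apply cl4 <;> fun_prop
  have hS : S = closedBall c ρ \ ball c σ := by
    ext x
    simp only [S, Set.mem_ofPred_eq, Set.mem_sdiff, mem_closedBall, mem_ball, dist_eq_norm, not_lt,
      pow_le_pow_iff_left₀ h0.le (norm_nonneg _) two_ne_zero,
      pow_le_pow_iff_left₀ (norm_nonneg _) (h0.trans hσ).le two_ne_zero]
    exact and_comm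
  have hSm : MeasurableSet S := hS ▸ measurableSet_closedBall.diff measurableSet_ball
  have hA : 0 < Real.pi * (ρ ^ 2 - σ ^ 2) := mul_pos hp (by nlinarith)
  have v1 : ENNReal.ofReal (Real.pi * (ρ ^ 2 - σ ^ 2) * (2 * σ)) ≤ volume S := by
    rw [hS, measure_sdiff (ball_subset_closedBall.trans (closedBall_subset_closedBall hσ.le))
      measurableSet_ball.nullMeasurableSet measure_ball_lt_top.ne,
      EuclideanSpace.volume_closedBall_fin_three, EuclideanSpace.volume_ball_fin_three,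
      ← ENNReal.ofReal_pow h0.le, ← ENNReal.ofReal_pow (h0.trans hσ).le,
      ← ENNReal.ofReal_mul (pow_nonneg (h0.trans hσ).le _),
      ← ENNReal.ofReal_mul (pow_nonneg h0.le _),
      ← ENNReal.ofReal_sub _ (by positivity)]
    refine ENNReal.ofReal_le_ofReal ?_
    have : 0 ≤ (ρ - σ) * (2 * ρ ^ 2 - ρ * σ - σ ^ 2) := mul_nonneg (by linarith) (by nlinarith)
    nlinarith
  have v2 : (k : ENNReal) * volume S ≤ ∑ i, volume (P i) := by
    rw [← lintegral_indicator_const hSm]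
    simp only [← lintegral_indicator_one (hP _)]
    rw [← lintegral_finsetSum _ fun i _ => measurable_one.indicator (hP i)]
    refine lintegral_mono fun x => ?_
    by_cases hx : x ∈ S
    · have := h2 x (hb (hS ▸ hx).1)
      simp only [Set.indicator_of_mem hx, Set.indicator_apply, Pi.one_apply]
      rw [sum_boole]
      refine Nat.cast_le.2 (this.trans (card_le_card fun i hi => ?_))
      simp only [mem_filter, mem_univ, true_and] at hi ⊢
      exact ⟨hx, hi⟩
    · simp [hx]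
  have v3 : ∑ i, volume (P i) ≤
      ENNReal.ofReal (Real.pi * (ρ ^ 2 - σ ^ 2) * ∑ i, (b i - a i)) := by
    rw [ENNReal.ofReal_mul hA.le,
      ENNReal.ofReal_sum_of_nonneg fun i _ => sub_nonneg.2 (h1 i).2, mul_sum]
    exact sum_le_sum fun i _ => slab (by nlinarith) c (θ i) (h1 i).1
  have v4 := ((mul_le_mul_right v1 (k : ENNReal)).trans v2).trans v3
  rw [← ENNReal.ofReal_natCast, ← ENNReal.ofReal_mul (Nat.cast_nonneg _),
    ENNReal.ofReal_le_ofReal_iff (by positivity)] at v4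
  nlinarith

theorem low2 {K : Set (E 2)} {c : E 2} {ρ : ℝ} (hb : closedBall c ρ ⊆ K) {k : ℕ} {s : ℝ}
    (hs : Cov K k s) : 2 * ρ * k ≤ s := by
  obtain ⟨m, θ, a, b, h1, h2, rfl⟩ := hs
  refine low3 (c := !₂[c 0, c 1, 0]) subset_rfl
    ⟨m, fun i => !₂[θ i 0, θ i 1, 0], a, b, fun i => ⟨?_, (h1 i).2⟩, fun x hx => ?_, rfl⟩
  · rw [← (h1 i).1]
    simp [EuclideanSpace.norm_eq, Fin.sum_univ_three]
  · have := h2 !₂[x 0, x 1] (hb (by
      rw [mem_closedBall, EuclideanSpace.dist_eq] at hx ⊢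
      refine (Real.sqrt_le_sqrt ?_).trans hx
      simp [Fin.sum_univ_three]
      positivity))
    simpa [PiLp.inner_apply, Fin.sum_univ_three] using this

theorem cK_lower {d : ℕ} (hd : d = 2 ∨ d = 3) {K : Set (E d)} (h : IsBody K) (k : ℕ) :
    k * (2 * inrad K / width K) ≤ cK K k := by
  have d0 : 0 < d := by omega
  rw [← mul_div_assoc]
  refine le_cK d0 h fun s hs => ?_
  rcases Nat.eq_zero_or_pos k with rfl | hk
  · simpa using hs.nonneg
  have hk : (0 : ℝ) < k := by exact_mod_cast hk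
  have : inrad K ≤ s / (2 * k) := inrad_le h fun c ρ _ hb => by
    rw [le_div_iff₀ (by positivity)]
    rcases hd with rfl | rfl
    · linarith [low2 hb hs]
    · linarith [low3 hb hs]
  rw [le_div_iff₀ (by positivity)] at this
  linarith

end Pool.Agent.H97.Pl
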