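import Mathlib

set_option autoImplicit false

namespace Pool.Agent.H97.Pl

open Finset

/-- Euclidean space of dimension `d`. -/
abbrev E (d : ℕ) := EuclideanSpace ℝ (Fin d)

/-- Convex body: compact, convex, with nonempty interior. -/
def IsBody {d : ℕ} (K : Set (E d)) : Prop := IsCompact K ∧ Convex ℝ K ∧ (interior K).Nonempty

/-- Support function. -/
noncomputable def supp {d : ℕ} (K : Set (E d)) (θ : E d) : ℝ :=
  sSup ((fun x => inner ℝ x θ) '' K)

/-- Minimal width: least distance between two parallel supporting hyperplanes. -/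
noncomputable def width {d : ℕ} (K : Set (E d)) : ℝ :=
  sInf {t | ∃ θ : E d, ‖θ‖ = 1 ∧ t = supp K θ + supp K (-θ)}

/-- Inradius: supremum of the radii of closed balls inside `K`. -/
noncomputable def inrad {d : ℕ} (K : Set (E d)) : ℝ :=
  sSup {ρ | 0 ≤ ρ ∧ ∃ c, Metric.closedBall c ρ ⊆ K}

open Classical in
/-- `s` is the total width of some `k`-fold covering of `K` by finitely many planks. -/
def Cov {d : ℕ} (K : Set (E d)) (k : ℕ) (s : ℝ) : Prop :=
  ∃ (m : ℕ) (θ : Fin m → E d) (a b : Fin m → ℝ), (∀ i, ‖θ i‖ = 1 ∧ a i ≤ b i) ∧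
    (∀ x ∈ K, k ≤ (univ.filter fun i => a i ≤ inner ℝ x (θ i) ∧ inner ℝ x (θ i) ≤ b i).card) ∧
    s = ∑ i, (b i - a i)

/-- The constant `c_K(k)`. -/
noncomputable def cK {d : ℕ} (K : Set (E d)) (k : ℕ) : ℝ :=
  sInf {c | ∃ s, Cov K k s ∧ c = s / width K}

/-- The constant `c_d(k)`. -/
noncomputable def cd (d k : ℕ) : ℝ := sInf {c | ∃ K : Set (E d), IsBody K ∧ c = cK K k}

end Pool.Agent.H97.Pl
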