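import Mathlib

set_option autoImplicit false

namespace Pool.Agent.H97.Proj

open Filter Topology

/-- Complex projective space of dimension `m`. -/
abbrev P (m : ℕ) := Projectivization ℂ (EuclideanSpace ℂ (Fin (m + 1)))

/-- The Fubini–Study distance `arccos (|⟨u, v⟩| / (|u| |v|))` between the lines `[u]` and `[v]`. -/
noncomputable def dFS {m : ℕ} (p q : P m) : ℝ :=
  Real.arccos (‖inner ℂ p.rep q.rep‖ / (‖p.rep‖ * ‖q.rep‖))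

/-- `f` is holomorphic on `D`: near each point of `D` it lifts to a holomorphic map into
`ℂ^(m+1) ∖ {0}`. -/
def Holo {k m : ℕ} (D : Set (Fin k → ℂ)) (f : (Fin k → ℂ) → P m) : Prop :=
  ∀ p ∈ D, ∃ F : (Fin k → ℂ) → EuclideanSpace ℂ (Fin (m + 1)),
    ∀ᶠ z in 𝓝 p, DifferentiableAt ℂ F z ∧ ∃ h : F z ≠ 0, f z = Projectivization.mk ℂ (F z) h

/-- The unit polydisk of `ℂ^k`. -/
def Pdisk (k : ℕ) : Set (Fin k → ℂ) := {z | ∀ j, ‖z j‖ < 1}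

/-- The Hartogs figure `H_n^1(r)` in `ℂ^(n+1)`. -/
def Hartogs (n : ℕ) (r : ℝ) : Set (Fin (n + 1) → ℂ) :=
  {z | (∀ j : Fin n, ‖z j.castSucc‖ < 1 - r) ∧ ‖z (Fin.last n)‖ < 1} ∪
    {z | (∀ j : Fin n, ‖z j.castSucc‖ < 1) ∧ r < ‖z (Fin.last n)‖ ∧ ‖z (Fin.last n)‖ < 1}

/-- Equicontinuity of a family on `U`, for the Fubini–Study distance. -/
def Equi {k m : ℕ} (𝓕 : Set ((Fin k → ℂ) → P m)) (U : Set (Fin k → ℂ)) : Prop :=
  ∀ p ∈ U, ∀ ε > 0, ∃ δ > 0, ∀ f ∈ 𝓕, ∀ z ∈ U, ‖z - p‖ < δ → dFS (f z) (f p) < ε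

end Pool.Agent.H97.Proj
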