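import Pool.Agent.H97.RMDefs

set_option autoImplicit false

namespace Pool.Agent.H97.RM

open Finset

variable {α : Type} [DecidableEq α]

theorem Ex_le_sum {ι : Type} (β : Finset α → Finset α → α) (F : Finset α → ℝ) (I : Finset ι)
    (G : ι → Finset α → ℝ) (h : ∀ A, F A ≤ ∑ i ∈ I, G i A) (n : ℕ) (A U : Finset α) :
    Ex β F n A U ≤ ∑ i ∈ I, Ex β (G i) n A U := by
  induction n generalizing A U with
  | zero => exact h A
  | succ n ih =>
    simp only [Ex]
    split_ifs with hU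
    · exact h A
    · rw [← sum_div, sum_comm]
      gcongr with e he
      exact ih _ _

theorem Ex_le_one (β : Finset α → Finset α → α) (F : Finset α → ℝ) (h : ∀ A, F A ≤ 1) (n : ℕ)
    (A U : Finset α) : Ex β F n A U ≤ 1 := by
  induction n generalizing A U with
  | zero => exact h A
  | succ n ih =>
    simp only [Ex]
    split_ifs with hU
    · exact h A
    · have : (0 : ℝ) < U.card := by
        exact_mod_cast card_pos.2 (nonempty_iff_ne_empty.2 hU)
      rw [div_le_one this]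
      calc _ ≤ ∑ _e ∈ U, (1 : ℝ) := sum_le_sum fun e _ => ih _ _
        _ = _ := by simp

theorem prod_one_sub_le {ι : Type} (T : Finset ι) (d : ι → ℝ) (h0 : ∀ i ∈ T, 0 ≤ d i)
    (h1 : ∀ i ∈ T, d i ≤ 1) :
    ∏ i ∈ T, (1 - d i) ≤ 1 - ∑ i ∈ T, d i + (∑ i ∈ T, d i) ^ 2 := by
  have hx : 0 ≤ ∑ i ∈ T, d i := sum_nonneg h0
  set x := ∑ i ∈ T, d i with hx'
  calc ∏ i ∈ T, (1 - d i) ≤ ∏ i ∈ T, Real.exp (-d i) :=
        prod_le_prod (fun i hi => by linarith [h1 i hi])
          (fun i _ => by linarith [Real.add_one_le_exp (-d i)])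
    _ = Real.exp (-x) := by rw [← Real.exp_sum, sum_neg_distrib]
    _ ≤ 1 - x + x ^ 2 := by
      rw [Real.exp_neg, inv_le_iff_one_le_mul₀ (Real.exp_pos x)]
      have := Real.add_one_le_exp x
      have h2 : 0 ≤ 1 - x + x ^ 2 := by nlinarith [sq_nonneg (x - 1 / 2)]
      nlinarith [mul_le_mul_of_nonneg_left this h2, pow_nonneg hx 3]

/-- rank -/
def rk (ρ : α → ℕ) (U : Finset α) (e : α) : ℕ := (U.filter fun x => ρ x ≤ ρ e).card

noncomputable def cc (κ B : ℝ) (m : ℕ) : ℝ := κ * m + B * Real.sqrt m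

noncomputable def G (ρ : α → ℕ) (κ B : ℝ) (S A U : Finset α) : ℝ :=
  ∏ e ∈ S, if e ∈ U then (rk ρ U e + cc κ B U.card) / U.card else if e ∈ A then 1 else 0

theorem core (ρ : α → ℕ) {κ B : ℝ} (hκ : 0 < κ) (hκ1 : κ ≤ 1) (hB : 2 ≤ B) (T U : Finset α)
    (hT : T ⊆ U) (hs : 42 * (T.card : ℝ) ≤ κ * B ^ 2) (hm : B ^ 2 < U.card) :
    ∑ j ∈ U, ∏ e ∈ T, (if e = j then (1 : ℝ) else
      ((rk ρ U e : ℝ) - 1 - (if ρ j ≤ ρ e then 1 else 0) + cc κ B (U.card - 2)) /
        ((U.card : ℝ) - 2)) ≤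
      U.card * ∏ e ∈ T, (rk ρ U e + cc κ B U.card) / U.card := by
  set m : ℝ := (U.card : ℝ) with hm'
  have hm4 : 4 < m := by nlinarith
  have hm2 : 2 ≤ U.card := by
    have : (2 : ℝ) ≤ U.card := by linarith
    exact_mod_cast this
  set s : ℝ := (T.card : ℝ) with hs'
  have hs0 : 0 ≤ s := by positivity
  set r := Real.sqrt m with hr
  set r' := Real.sqrt (m - 2) with hr'
  have hr2 : r ^ 2 = m := Real.sq_sqrt (by linarith)
  have hr'2 : r' ^ 2 = m - 2 := Real.sq_sqrt (by linarith)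
  have hr0 : 0 < r := Real.sqrt_pos.2 (by linarith)
  have hr'0 : 0 ≤ r' := Real.sqrt_nonneg _
  have hrr : r' ≤ r := Real.sqrt_le_sqrt (by linarith)
  have hBr : B ≤ r := by nlinarith
  set c := cc κ B U.card with hc
  set c' := cc κ B (U.card - 2) with hc'
  have ec : c = κ * m + B * r := rfl
  have ec' : c' = κ * (m - 2) + B * r' := by
    simp only [hc', cc, Nat.cast_sub hm2, Nat.cast_ofNat]; rfl
  set γ := c - c' with hγ
  have eγ : γ = 2 * κ + B * (r - r') := by rw [hγ, ec, ec']; ring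
  have g1 : κ * m ≤ γ * m - c := by
    have : 1 ≤ (r - r') * r := by nlinarith
    rw [eγ, ec, ← hr2]
    nlinarith [mul_le_mul_of_nonneg_left this (show 0 ≤ B * r by positivity)]
  have g2 : γ ≤ 4 := by
    have : (r - r') * r ≤ 2 := by nlinarith
    rw [eγ]; nlinarith
  have g0 : 0 ≤ γ := by rw [eγ]; nlinarith
  have hcB : B ^ 2 ≤ c := by rw [ec]; nlinarith
  have hc'0 : 0 ≤ c' := by rw [ec']; nlinarith
  let y : α → ℝ := fun e => rk ρ U e + c
  have hy : ∀ e, B ^ 2 ≤ y e := fun e => by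
    have : (0 : ℝ) ≤ rk ρ U e := by positivity
    simp only [y]; linarith
  have hB2 : 0 < B ^ 2 := by positivity
  have hy0 : ∀ e, 0 < y e := fun e => hB2.trans_le (hy e)
  let d : α → α → ℝ := fun j e => (1 + γ + (if ρ j ≤ ρ e then 1 else 0)) / y e
  have hd0 : ∀ j e, 0 ≤ d j e := fun j e => by
    have := hy0 e
    simp only [d]; split_ifs <;> positivity
  have hd6 : ∀ j e, d j e ≤ 6 * (y e)⁻¹ := fun j e => by
    have := hy0 e
    simp only [d]; rw [div_eq_mul_inv]; gcongr; split_ifs <;> linarith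
  have hd1 : ∀ j ∈ U, ∀ e ∈ U, e ≠ j → d j e ≤ 1 := fun j hj e he hne => by
    simp only [d]
    rw [div_le_one (hy0 e)]
    simp only [y]
    have : (1 + (if ρ j ≤ ρ e then 1 else 0) : ℝ) ≤ rk ρ U e := by
      split_ifs with h
      · have : 1 < rk ρ U e := one_lt_card.2 ⟨e, by simp [he], j, by simp [hj, h], hne⟩
        have : (2 : ℝ) ≤ rk ρ U e := by exact_mod_cast this
        linarith
      · have : 0 < rk ρ U e := card_pos.2 ⟨e, by simp [he]⟩
        have : (1 : ℝ) ≤ rk ρ U e := by exact_mod_cast this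
        linarith
    linarith
  have hfac : ∀ j e, ((rk ρ U e : ℝ) - 1 - (if ρ j ≤ ρ e then 1 else 0) + c') / (m - 2) =
      y e / (m - 2) * (1 - d j e) := fun j e => by
    have := hy0 e
    have h2 : m - 2 ≠ 0 := by linarith
    simp only [d]; field_simp; simp only [y, hγ]; ring
  set P := ∏ e ∈ T, y e / (m - 2) with hP
  have hq0 : ∀ e, 0 ≤ y e / (m - 2) := fun e => div_nonneg (hy0 e).le (by linarith)
  have hP0 : 0 ≤ P := prod_nonneg fun e _ => hq0 e
  set σ := ∑ e ∈ T, (y e)⁻¹ with hσ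
  have hσ0 : 0 ≤ σ := sum_nonneg fun e _ => (inv_pos.2 (hy0 e)).le
  have hσ1 : σ * B ^ 2 ≤ s := by
    rw [hσ, sum_mul]
    calc _ ≤ ∑ _e ∈ T, (1 : ℝ) := sum_le_sum fun e _ => by
          rw [inv_mul_le_iff₀ (hy0 e), mul_one]; exact hy e
      _ = s := by simp [hs']
  have in1 : ∀ j ∈ T, ∏ e ∈ T, (if e = j then (1 : ℝ) else
      ((rk ρ U e : ℝ) - 1 - (if ρ j ≤ ρ e then 1 else 0) + c') / (m - 2)) ≤
      P * ((m - 2) * (y j)⁻¹) := by
    intro j hj
    rw [← mul_prod_erase _ _ hj, if_pos rfl, one_mul, hP, ← mul_prod_erase _ _ hj]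
    have h2 : m - 2 ≠ 0 := by linarith
    have := (hy0 j).ne'
    rw [show y j / (m - 2) * (∏ x ∈ T.erase j, y x / (m - 2)) * ((m - 2) * (y j)⁻¹) =
      ∏ x ∈ T.erase j, y x / (m - 2) by field_simp]
    refine prod_le_prod (fun e he => ?_) (fun e he => ?_)
    · rw [if_neg (mem_erase.1 he).1, hfac]
      exact mul_nonneg (hq0 e)
        (by linarith [hd1 j (hT hj) e (hT (mem_erase.1 he).2) (mem_erase.1 he).1])
    · rw [if_neg (mem_erase.1 he).1, hfac]
      exact mul_le_of_le_one_right (hq0 e) (by linarith [hd0 j e])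
  have in2 : ∀ j ∈ U \ T, ∏ e ∈ T, (if e = j then (1 : ℝ) else
      ((rk ρ U e : ℝ) - 1 - (if ρ j ≤ ρ e then 1 else 0) + c') / (m - 2)) ≤
      P * (1 - ∑ e ∈ T, d j e + 36 * σ ^ 2) := by
    intro j hj
    rw [mem_sdiff] at hj
    have hne : ∀ e ∈ T, e ≠ j := fun e he h => hj.2 (h ▸ he)
    rw [prod_congr rfl (fun e he => by rw [if_neg (hne e he), hfac]), prod_mul_distrib]
    refine mul_le_mul_of_nonneg_left ((prod_one_sub_le T _ (fun e _ => hd0 j e)
      (fun e he => hd1 j hj.1 e (hT he) (hne e he))).trans ?_) hP0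
    have h1 : ∑ e ∈ T, d j e ≤ 6 * σ := by
      rw [hσ, mul_sum]; exact sum_le_sum fun e _ => hd6 j e
    have h2 : 0 ≤ ∑ e ∈ T, d j e := sum_nonneg fun e _ => hd0 j e
    nlinarith
  have hcard : ((U \ T).card : ℝ) = m - s := by
    rw [card_sdiff_of_subset hT, Nat.cast_sub (card_le_card hT)]
  have in3 : ∀ e ∈ T, ((1 + γ) * (m - s) + (y e - c) - s) * (y e)⁻¹ ≤ ∑ j ∈ U \ T, d j e := by
    intro e _
    simp only [d]
    rw [← sum_div, div_eq_mul_inv, sum_add_distrib, sum_const, nsmul_eq_mul, hcard]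
    refine mul_le_mul_of_nonneg_right ?_ (inv_pos.2 (hy0 e)).le
    rw [sum_boole]
    have : rk ρ U e ≤ ((U \ T).filter fun x => ρ x ≤ ρ e).card + T.card := by
      refine (card_le_card ?_).trans (card_union_le _ _)
      intro x hx
      rw [mem_filter] at hx
      by_cases hxT : x ∈ T <;> simp [hxT, hx.1, hx.2]
    have : (rk ρ U e : ℝ) ≤ ((U \ T).filter fun x => ρ x ≤ ρ e).card + s := by
      rw [hs']; exact_mod_cast this
    simp only [y]; linarith
  have in4 : ((1 + γ) * (m - s) - c - s) * σ + s ≤ ∑ j ∈ U \ T, ∑ e ∈ T, d j e := by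
    rw [sum_comm]
    refine le_trans (le_of_eq ?_) (sum_le_sum in3)
    rw [hσ, mul_sum, show s = ∑ _e ∈ T, (1 : ℝ) by simp [hs'], ← sum_add_distrib]
    refine sum_congr rfl fun e _ => ?_
    have := (hy0 e).ne'
    field_simp; ring
  rw [← sum_sdiff hT]
  refine (add_le_add (sum_le_sum in2) (sum_le_sum in1)).trans ?_
  rw [← mul_sum, ← mul_sum, ← mul_sum, ← hσ, ← mul_add, sum_add_distrib, sum_sub_distrib,
    sum_const, sum_const, nsmul_eq_mul, nsmul_eq_mul, hcard]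
  have hk : 36 * m * σ + 6 * s ≤ κ * m := by
    have a1 : 36 * m * σ * B ^ 2 ≤ 36 * m * s := by nlinarith
    have a2 : 6 * s * B ^ 2 ≤ 6 * s * m := by nlinarith
    have a3 : 42 * s * m ≤ κ * B ^ 2 * m := by nlinarith
    have : (36 * m * σ + 6 * s) * B ^ 2 ≤ κ * m * B ^ 2 := by nlinarith
    exact le_of_mul_le_mul_right this hB2
  have hb : (m - s) * 1 - ∑ j ∈ U \ T, ∑ e ∈ T, d j e + (m - s) * (36 * σ ^ 2) + (m - 2) * σ ≤
      m - 2 * s := by
    have b1 : σ * (36 * m * σ + 6 * s) ≤ σ * (κ * m) := mul_le_mul_of_nonneg_left hk hσ0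
    have b2 : σ * (κ * m) ≤ σ * (γ * m - c) := mul_le_mul_of_nonneg_left g1 hσ0
    have b3 : σ * s * γ ≤ σ * s * 4 := mul_le_mul_of_nonneg_left g2 (mul_nonneg hσ0 hs0)
    nlinarith [mul_nonneg hs0 (sq_nonneg σ)]
  refine (mul_le_mul_of_nonneg_left hb hP0).trans ?_
  have hm0 : 0 < m := by linarith
  have e1 : ∏ e ∈ T, y e / m = P * ((m - 2) / m) ^ T.card := by
    rw [hP, ← prod_const, ← prod_mul_distrib]
    refine prod_congr rfl fun e _ => ?_
    have h2 : m - 2 ≠ 0 := by linarith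
    field_simp
  show _ ≤ m * ∏ e ∈ T, y e / m
  rw [e1]
  have hber := one_add_mul_le_pow (a := -2 / m) (by
    rw [le_div_iff₀ hm0]; linarith) T.card
  rw [show 1 + -2 / m = (m - 2) / m by field_simp; ring] at hber
  have : m - 2 * s ≤ m * ((m - 2) / m) ^ T.card := by
    calc m - 2 * s = m * (1 + s * (-2 / m)) := by field_simp; ring
      _ ≤ _ := mul_le_mul_of_nonneg_left hber hm0.le
  nlinarith

end Pool.Agent.H97.RM
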