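import Pool.Agent.H97.RM1

set_option autoImplicit false

namespace Pool.Agent.H97.RM

open Finset

variable {α : Type} [DecidableEq α]

open Classical in
/-- Breaker takes an unclaimed element of least `ρ`. -/
noncomputable def bmin [Inhabited α] (ρ : α → ℕ) (_A U : Finset α) : α :=
  if h : U.Nonempty then (U.exists_min_image ρ h).choose else default

omit [DecidableEq α] in
theorem bmin_spec [Inhabited α] (ρ : α → ℕ) (A U : Finset α) (h : U.Nonempty) :
    bmin ρ A U ∈ U ∧ ∀ x ∈ U, ρ (bmin ρ A U) ≤ ρ x := by
  unfold bmin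
  rw [dif_pos h]
  exact (U.exists_min_image ρ h).choose_spec

theorem rk_step (ρ : α → ℕ) (U : Finset α) {j b e : α} (hj : j ∈ U) (hb : b ∈ U.erase j)
    (hbe : ρ b ≤ ρ e) :
    (rk ρ ((U.erase j).erase b) e : ℝ) ≤ rk ρ U e - 1 - (if ρ j ≤ ρ e then 1 else 0) := by
  have hbj := (mem_erase.1 hb).1
  have hbU := (mem_erase.1 hb).2
  split_ifs with h
  · have : (insert j (insert b (((U.erase j).erase b).filter fun x => ρ x ≤ ρ e))).card ≤
        rk ρ U e := card_le_card (by
      intro x hx
      simp only [mem_insert, mem_filter, mem_erase] at hx ⊢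
      rcases hx with rfl | rfl | hx
      · exact ⟨hj, h⟩
      · exact ⟨hbU, hbe⟩
      · exact ⟨hx.1.2.2, hx.2⟩)
    rw [card_insert_of_notMem (by simp [hbj.symm]), card_insert_of_notMem (by simp)] at this
    have : ((rk ρ ((U.erase j).erase b) e + 1 + 1 : ℕ) : ℝ) ≤ rk ρ U e := by exact_mod_cast this
    push_cast at this; linarith
  · have : (insert b (((U.erase j).erase b).filter fun x => ρ x ≤ ρ e)).card ≤
        rk ρ U e := card_le_card (by
      intro x hx
      simp only [mem_insert, mem_filter, mem_erase] at hx ⊢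
      rcases hx with rfl | hx
      · exact ⟨hbU, hbe⟩
      · exact ⟨hx.1.2.2, hx.2⟩)
    rw [card_insert_of_notMem (by simp)] at this
    have : ((rk ρ ((U.erase j).erase b) e + 1 : ℕ) : ℝ) ≤ rk ρ U e := by exact_mod_cast this
    push_cast at this; linarith

theorem cc_nonneg {κ B : ℝ} (hκ : 0 < κ) (hB : 2 ≤ B) (m : ℕ) : 0 ≤ cc κ B m := by
  unfold cc
  have : 0 ≤ B := by linarith
  positivity

theorem key [Inhabited α] (ρ : α → ℕ) {κ B : ℝ} (hκ : 0 < κ) (hκ1 : κ ≤ 1) (hB : 2 ≤ B)
    (S : Finset α) (hs : 42 * (S.card : ℝ) ≤ κ * B ^ 2) (n : ℕ) (A U : Finset α)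
    (hn : U.card ≤ n) (hd : Disjoint A U) :
    Ex (bmin ρ) (fun A => if S ⊆ A then 1 else 0) n A U ≤ G ρ κ B S A U := by
  have base : ∀ A : Finset α, (if S ⊆ A then (1 : ℝ) else 0) ≤ G ρ κ B S A ∅ := by
    intro A
    unfold G
    split_ifs with h
    · exact le_of_eq (prod_eq_one fun e he => by simp [h he]).symm
    · exact prod_nonneg fun e _ => by simp only [notMem_empty, if_false]; split_ifs <;> norm_num
  induction n generalizing A U with
  | zero =>
    obtain rfl : U = ∅ := card_eq_zero.1 (by omega)
    exact base A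
  | succ n ih =>
    by_cases hU : U = ∅
    · subst hU
      simp only [Ex, if_true]
      exact base A
    have hm0 : (0 : ℝ) < U.card := by
      exact_mod_cast card_pos.2 (nonempty_iff_ne_empty.2 hU)
    have ih' : ∀ j ∈ U, Ex (bmin ρ) (fun A => if S ⊆ A then 1 else 0) n (insert j A)
        ((U.erase j).erase (bmin ρ (insert j A) (U.erase j))) ≤
        G ρ κ B S (insert j A) ((U.erase j).erase (bmin ρ (insert j A) (U.erase j))) := by
      intro j hj
      refine ih _ _ ?_ ?_
      · have := card_erase_of_mem hj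
        have := card_erase_le (s := U.erase j) (a := bmin ρ (insert j A) (U.erase j))
        have := card_pos.2 ⟨j, hj⟩
        omega
      · rw [disjoint_left] at hd ⊢
        intro x hx hx'
        simp only [mem_insert, mem_erase] at hx hx'
        rcases hx with rfl | hx
        · exact hx'.2.1 rfl
        · exact hd hx hx'.2.2
    by_cases hdead : ∃ e ∈ S, e ∉ U ∧ e ∉ A
    · obtain ⟨e, heS, heU, heA⟩ := hdead
      have h0 : G ρ κ B S A U = 0 := prod_eq_zero heS (by simp [heU, heA])
      simp only [Ex, if_neg hU]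
      rw [h0, div_le_iff₀ hm0, zero_mul]
      refine sum_nonpos fun j hj => (ih' j hj).trans (le_of_eq (prod_eq_zero heS ?_))
      have : e ≠ j := fun h => heU (h ▸ hj)
      simp [heU, heA, this]
    push Not at hdead
    have hG : G ρ κ B S A U =
        ∏ e ∈ S.filter (· ∈ U), (rk ρ U e + cc κ B U.card) / U.card := by
      rw [prod_filter]
      refine prod_congr rfl fun e he => ?_
      split_ifs with h1 h2
      · rfl
      · rfl
      · exact absurd (hdead e he h1) h2
    rcases le_or_gt (U.card : ℝ) (B ^ 2) with hm | hm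
    · refine (Ex_le_one _ _ (fun A => by split_ifs <;> norm_num) _ _ _).trans ?_
      rw [hG]
      refine le_trans (le_of_eq prod_const_one.symm)
        (prod_le_prod (fun _ _ => zero_le_one) fun e _ => ?_)
      rw [one_le_div hm0]
      have h1 : (0 : ℝ) ≤ rk ρ U e := by positivity
      have h2 : Real.sqrt U.card ≤ B := Real.sqrt_le_iff.2 ⟨by linarith, hm⟩
      have h3 := Real.sq_sqrt hm0.le
      have h4 := Real.sqrt_nonneg (U.card : ℝ)
      unfold cc
      nlinarith [mul_pos hκ hm0]
    have hm4 : (4 : ℝ) < U.card := by nlinarith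
    have hm4' : 4 < U.card := by exact_mod_cast hm4
    simp only [Ex, if_neg hU]
    rw [div_le_iff₀ hm0, hG, mul_comm]
    refine le_trans (sum_le_sum fun j hj => (ih' j hj).trans ?_)
      (core ρ hκ hκ1 hB (S.filter (· ∈ U)) U (fun x hx => (mem_filter.1 hx).2) ?_ hm)
    swap
    · refine le_trans ?_ hs
      gcongr
      exact filter_subset _ _
    have hne : (U.erase j).Nonempty := card_pos.1 (by rw [card_erase_of_mem hj]; omega)
    obtain ⟨hb, hbm⟩ := bmin_spec ρ (insert j A) _ hne
    set b := bmin ρ (insert j A) (U.erase j)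
    have hc : ((U.erase j).erase b).card = U.card - 2 := by
      rw [card_erase_of_mem hb, card_erase_of_mem hj]; omega
    have hc' : ((U.card - 2 : ℕ) : ℝ) = U.card - 2 := by
      rw [Nat.cast_sub (by omega)]; rfl
    have hcc := cc_nonneg hκ hB (U.card - 2)
    rw [prod_filter]
    unfold G
    rw [hc, hc']
    refine prod_le_prod (fun e _ => ?_) (fun e he => ?_)
    · split_ifs
      · exact div_nonneg (by positivity) (by linarith)
      · norm_num
      · norm_num
    by_cases heU : e ∈ U
    · rw [if_pos heU]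
      by_cases hej : e = j
      · subst hej; simp
      rw [if_neg hej]
      have he' : e ∈ U.erase j := mem_erase.2 ⟨hej, heU⟩
      have hr := rk_step ρ U hj hb (hbm e he')
      have h1 : (0 : ℝ) ≤ rk ρ ((U.erase j).erase b) e := by positivity
      by_cases heb : e = b
      · have heA : e ∉ A := fun h => disjoint_left.1 hd h heU
        rw [if_neg (by simp [heb]), if_neg (by simp [hej, heA])]
        exact div_nonneg (by linarith) (by linarith)
      · rw [if_pos (mem_erase.2 ⟨heb, he'⟩)]
        gcongr
        linarith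
    · rw [if_neg heU, if_neg (by simp [heU]), if_pos (by simp [hdead e he heU])]

end Pool.Agent.H97.RM
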