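import Pool.Agent.H97.RM2

set_option autoImplicit false

namespace Pool.Agent.H97.RM

open Finset

/-- circular distance -/
def D {K : ℕ} (p p' : ZMod K) : ℕ := min (p - p').val (p' - p).val

theorem D_comm {K : ℕ} (p p' : ZMod K) : D p p' = D p' p := min_comm _ _

theorem D_le {T : ℕ} [NeZero (2 * T)] (p p' : ZMod (2 * T)) : D p p' ≤ T := by
  unfold D
  have h := ZMod.neg_val (p - p')
  rw [neg_sub] at h
  have := ZMod.val_lt (p - p')
  split_ifs at h <;> omega

theorem arc1 {K : ℕ} [NeZero K] (p : ZMod K) {l : ℕ} (hl : l ≤ K) :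
    l ≤ (univ.filter fun a : ZMod K => (p - a).val < l).card := by
  conv_lhs => rw [← card_range l]
  refine card_le_card_of_injOn (fun u => p - (u : ZMod K)) (fun u hu => ?_) (fun u hu v hv h => ?_)
  · have hu : u < l := by simpa using hu
    simp only [coe_filter, mem_univ, true_and, Set.mem_ofPred_eq, sub_sub_cancel]
    rwa [ZMod.val_cast_of_lt (by omega)]
  · have hu : u < l := by simpa using hu
    have hv : v < l := by simpa using hv
    have h' : (u : ZMod K) = v := sub_right_injective h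
    have := congrArg ZMod.val h'
    rwa [ZMod.val_cast_of_lt (by omega), ZMod.val_cast_of_lt (by omega)] at this

theorem arc2 {T : ℕ} [NeZero (2 * T)] (p p' : ZMod (2 * T)) {l : ℕ} (hl : l ≤ T)
    (h : (p' - p).val ≤ T) :
    (univ.filter fun a : ZMod (2 * T) => (p - a).val < l ∧ (p' - a).val < l).card ≤
      l - (p' - p).val := by
  conv_rhs => rw [← card_range (l - (p' - p).val)]
  refine card_le_card_of_injOn (fun a => (p - a).val) (fun a ha => ?_) (fun a _ b _ h => ?_)
  · simp only [coe_filter, mem_univ, true_and, Set.mem_ofPred_eq] at ha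
    obtain ⟨h1, h2⟩ := ha
    rw [show p' - a = (p' - p) + (p - a) by ring, ZMod.val_add, Nat.mod_eq_of_lt (by omega)] at h2
    simp only [coe_range, Set.mem_Iio]
    omega
  · exact sub_right_injective (ZMod.val_injective _ h)

theorem arc3 {T : ℕ} [NeZero (2 * T)] (p p' : ZMod (2 * T)) {l : ℕ} (hl : l ≤ T) :
    (univ.filter fun a : ZMod (2 * T) => (p - a).val < l ∧ (p' - a).val < l).card ≤
      l - D p p' := by
  have := D_le p p'
  unfold D at this ⊢
  rcases le_total (p - p').val (p' - p).val with h | h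
  · rw [min_eq_left h] at this ⊢
    simpa only [and_comm] using arc2 p' p hl this
  · rw [min_eq_right h] at this ⊢
    exact arc2 p p' hl this

theorem cs {ι : Type} {T : ℕ} [NeZero (2 * T)] (c : ι → ZMod (2 * T)) (Q : Finset ι) {l : ℕ}
    (hl : l ≤ T) : (Q.card : ℝ) ^ 2 * ((l : ℝ) ^ 2 / (2 * T)) ≤
      ∑ x ∈ Q, ∑ y ∈ Q, ((l - D (c x) (c y) : ℕ) : ℝ) := by
  let f : ι → ZMod (2 * T) → ℝ := fun x a => if (c x - a).val < l then 1 else 0
  have hT : (0 : ℝ) < 2 * T := by
    have := NeZero.pos (2 * T)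
    exact_mod_cast this
  have h1 : (Q.card : ℝ) * l ≤ ∑ a, ∑ x ∈ Q, f x a := by
    rw [sum_comm]
    calc (Q.card : ℝ) * l = ∑ _x ∈ Q, (l : ℝ) := by simp
      _ ≤ _ := sum_le_sum fun x _ => by
        simp only [f]; rw [sum_boole]; exact_mod_cast arc1 (c x) (by omega)
  have h2 : ∑ a, (∑ x ∈ Q, f x a) ^ 2 ≤ ∑ x ∈ Q, ∑ y ∈ Q, ((l - D (c x) (c y) : ℕ) : ℝ) := by
    simp only [sq, sum_mul_sum]
    rw [sum_comm]
    refine sum_le_sum fun x _ => ?_
    rw [sum_comm]
    refine sum_le_sum fun y _ => ?_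
    have : ∀ a, f x a * f y a = if (c x - a).val < l ∧ (c y - a).val < l then 1 else 0 := by
      intro a; simp only [f]; split_ifs <;> simp_all
    simp only [this]
    rw [sum_boole]
    exact_mod_cast arc3 (c x) (c y) hl
  have h3 := sq_sum_le_card_mul_sum_sq (s := univ) (f := fun a => ∑ x ∈ Q, f x a)
  rw [card_univ, ZMod.card] at h3
  push_cast at h3
  have h4 : ((Q.card : ℝ) * l) ^ 2 ≤ (∑ a, ∑ x ∈ Q, f x a) ^ 2 := by gcongr
  rw [← mul_div_assoc, div_le_iff₀ hT]
  nlinarith

noncomputable def FF (T i : ℕ) : ℝ :=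
  ∑ l ∈ range T, ((l - i : ℕ) : ℝ) / ((l + 2) * (l + 3)) + ((T - i : ℕ) : ℝ) / (T + 2)

noncomputable def lam (T : ℕ) : ℝ :=
  ∑ l ∈ range T, (l : ℝ) ^ 2 / (2 * T) / ((l + 2) * (l + 3)) + (T : ℝ) ^ 2 / (2 * T) / (T + 2)

theorem FF_exp {i T : ℕ} (h : i ≤ T) : ((i : ℝ) + 2) / (T + 2) ≤ Real.exp (-FF T i) := by
  induction T, h using Nat.le_induction with
  | base =>
    have : FF i i = 0 := by
      unfold FF
      rw [sum_eq_zero fun l hl => by rw [Nat.sub_eq_zero_of_le (mem_range.1 hl).le]; simp]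
      simp
    rw [this, div_self (by positivity)]; simp
  | succ T h ih =>
    have : FF (T + 1) i = FF T i + 1 / (T + 3) := by
      unfold FF
      rw [sum_range_succ, Nat.cast_sub h, Nat.cast_sub (by omega)]
      push_cast
      field_simp
      ring
    rw [this, neg_add, Real.exp_add]
    have h2 := Real.add_one_le_exp (-(1 / ((T : ℝ) + 3)))
    calc ((i : ℝ) + 2) / ((T + 1 : ℕ) + 2) = (i + 2) / (T + 2) * (-(1 / ((T : ℝ) + 3)) + 1) := by
          push_cast; field_simp; ring
      _ ≤ _ := by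
          refine mul_le_mul ih h2 ?_ (Real.exp_pos _).le
          have : 1 / ((T : ℝ) + 3) ≤ 1 := by
            rw [div_le_one (by positivity)]; linarith [Nat.cast_nonneg (α := ℝ) T]
          linarith

theorem FF_sum {ι : Type} {T : ℕ} [NeZero (2 * T)] (c : ι → ZMod (2 * T)) (Q : Finset ι) :
    (Q.card : ℝ) ^ 2 * lam T ≤ ∑ x ∈ Q, ∑ y ∈ Q, FF T (D (c x) (c y)) := by
  unfold lam FF
  simp only [sum_add_distrib]
  rw [mul_add, mul_sum]
  refine add_le_add ?_ ?_
  · rw [sum_congr rfl fun x _ => sum_comm, sum_comm]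
    refine sum_le_sum fun l hl => ?_
    simp only [← sum_div]
    rw [← mul_div_assoc]
    gcongr
    exact cs c Q (mem_range.1 hl).le
  · simp only [← sum_div]
    rw [← mul_div_assoc]
    gcongr
    exact cs c Q le_rfl

theorem lam_lim : Filter.Tendsto (fun T : ℕ => lam T - 2 / T) Filter.atTop (nhds 1) := by
  have a0 : ∀ k : ℝ, 0 ≤ k →
      Filter.Tendsto (fun l : ℕ => (l : ℝ) / (l + k)) Filter.atTop (nhds 1) := fun k _ =>
    tendsto_natCast_div_add_atTop k
  have a1 : Filter.Tendsto (fun l : ℕ => (l : ℝ) ^ 2 / ((l + 2) * (l + 3))) Filter.atTop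
      (nhds 1) := by
    have := (a0 2 (by norm_num)).mul (a0 3 (by norm_num))
    rw [mul_one] at this
    refine this.congr fun l => ?_
    field_simp
  have a2 := ((a1.cesaro.add (a0 2 (by norm_num))).div_const 2).sub
    (tendsto_const_div_atTop_nhds_zero_nat (2 : ℝ))
  rw [show ((1 : ℝ) + 1) / 2 - 0 = 1 by norm_num] at a2
  refine a2.congr' ?_
  filter_upwards [Filter.eventually_gt_atTop 0] with T hT
  have : (0 : ℝ) < T := by exact_mod_cast hT
  unfold lam
  rw [add_div, mul_sum, sum_div]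
  congr 2
  · refine sum_congr rfl fun l _ => ?_
    field_simp
  · field_simp

theorem pair_sum {ι : Type} [LinearOrder ι] (Q : Finset ι) (φ : ι → ι → ℝ)
    (h : ∀ x y, φ x y = φ y x) :
    ∑ x ∈ Q, ∑ y ∈ Q, φ x y =
      2 * ∑ z ∈ (Q ×ˢ Q).filter (fun z => z.1 < z.2), φ z.1 z.2 + ∑ x ∈ Q, φ x x := by
  have e1 : ∑ z ∈ (Q ×ˢ Q).filter (fun z => z.1 < z.2), φ z.1 z.2 =
      ∑ x ∈ Q, ∑ y ∈ Q, if x < y then φ x y else 0 := by
    rw [sum_filter, sum_product]
  have e2 : ∑ x ∈ Q, ∑ y ∈ Q, (if x < y then φ x y else 0) =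
      ∑ x ∈ Q, ∑ y ∈ Q, if y < x then φ x y else 0 := by
    rw [sum_comm]
    simp only [h]
  have e3 : ∑ x ∈ Q, φ x x = ∑ x ∈ Q, ∑ y ∈ Q, if x = y then φ x y else 0 :=
    sum_congr rfl fun x hx => by rw [sum_ite_eq, if_pos hx]
  rw [two_mul, e1, e3]
  conv_rhs => enter [1, 2]; rw [e2]
  simp only [← sum_add_distrib]
  refine sum_congr rfl fun x _ => sum_congr rfl fun y _ => ?_
  rcases lt_trichotomy x y with h | h | h
  · simp [h, h.ne, h.not_gt]
  · simp [h]
  · simp [h, h.ne', h.not_gt]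

/-- Breaker's priority of an edge -/
def rho (N K : ℕ) : Sym2 (Fin N) → ℕ :=
  Sym2.lift ⟨fun x y => D ((x.val : ℕ) : ZMod K) ((y.val : ℕ) : ZMod K), fun _ _ => D_comm _ _⟩

theorem cls (N K : ℕ) [NeZero K] (r : ZMod K) :
    (univ.filter fun y : Fin N => ((y.val : ℕ) : ZMod K) = r).card ≤ N / K + 1 := by
  conv_rhs => rw [← card_range (N / K + 1)]
  refine card_le_card_of_injOn (fun y => y.val / K) (fun y _ => ?_) (fun x hx y hy h => ?_)
  · simp only [coe_range, Set.mem_Iio]
    exact Nat.lt_succ_of_le (Nat.div_le_div_right y.2.le)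
  · simp only [coe_filter, mem_univ, true_and, Set.mem_ofPred_eq] at hx hy h
    have h2 : x.val % K = y.val % K := (ZMod.natCast_eq_natCast_iff' _ _ _).1 (hx.trans hy.symm)
    apply Fin.ext
    rw [← Nat.div_add_mod x.val K, ← Nat.div_add_mod y.val K, h, h2]

theorem rk_le (N K : ℕ) [NeZero K] (U : Finset (Sym2 (Fin N))) (e : Sym2 (Fin N)) :
    rk (rho N K) U e ≤ N * ((rho N K e + 1) * (N / K + 1)) := by
  set i := rho N K e
  have h1 : ∀ x : Fin N, (univ.filter fun y : Fin N =>
      (((y.val : ℕ) : ZMod K) - ((x.val : ℕ) : ZMod K)).val ≤ i).card ≤ (i + 1) * (N / K + 1) := by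
    intro x
    calc _ ≤ ((range (i + 1)).biUnion fun u => univ.filter fun y : Fin N =>
          ((y.val : ℕ) : ZMod K) = ((x.val : ℕ) : ZMod K) + (u : ZMod K)).card := by
          refine card_le_card fun y hy => ?_
          simp only [mem_filter, mem_univ, true_and, mem_biUnion, mem_range] at hy ⊢
          exact ⟨_, Nat.lt_succ_of_le hy, by simp⟩
      _ ≤ _ := by
          refine (card_biUnion_le_card_mul _ _ _ fun u _ => cls N K _).trans ?_
          rw [card_range]
  calc _ ≤ (univ.biUnion fun x : Fin N => (univ.filter fun y : Fin N =>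
        (((y.val : ℕ) : ZMod K) - ((x.val : ℕ) : ZMod K)).val ≤ i).image
          fun y => s(x, y)).card := by
        refine card_le_card fun f hf => ?_
        have hf := (mem_filter.1 hf).2
        induction f using Sym2.ind with
        | h x y =>
          simp only [rho, Sym2.lift_mk, D, min_le_iff] at hf
          simp only [mem_biUnion, mem_univ, true_and, mem_image, mem_filter]
          rcases hf with hf | hf
          · exact ⟨y, x, hf, Sym2.eq_swap⟩
          · exact ⟨x, y, hf, rfl⟩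
    _ ≤ _ := by
        refine (card_biUnion_le_card_mul _ _ _ fun x _ => card_image_le.trans (h1 x)).trans ?_
        simp

end Pool.Agent.H97.RM
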