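import Mathlib

set_option autoImplicit false

namespace Pool.Agent.H97.RM

open Finset

/-- A Breaker strategy (Maker's edges, unclaimed edges) ↦ next edge is legal if it always
claims an unclaimed edge. -/
def Legal {α : Type} (β : Finset α → Finset α → α) : Prop :=
  ∀ A U : Finset α, U.Nonempty → β A U ∈ U

/-- Expected value of `F` of Maker's final set: Maker owns `A`, the unclaimed set is `U`, Maker is
to move and picks uniformly from `U`, Breaker answers with `β`; at most `n` rounds remain. -/
noncomputable def Ex {α : Type} [DecidableEq α] (β : Finset α → Finset α → α)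
    (F : Finset α → ℝ) : ℕ → Finset α → Finset α → ℝ
  | 0, A, _ => F A
  | n + 1, A, U => if U = ∅ then F A else
      (∑ e ∈ U, Ex β F n (insert e A) ((U.erase e).erase (β (insert e A) (U.erase e)))) / U.card

/-- The edge set `A` contains all edges of a complete graph on `q` vertices. -/
def HasClique {N : ℕ} (q : ℕ) (A : Finset (Sym2 (Fin N))) : Prop :=
  ∃ Q : Finset (Fin N), Q.card = q ∧ ∀ x ∈ Q, ∀ y ∈ Q, x ≠ y → s(x, y) ∈ A

open Classical in
/-- Probability that the random Maker's final graph on `K_N` contains `K_q` against `β`. -/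
noncomputable def prob (N q : ℕ)
    (β : Finset (Sym2 (Fin N)) → Finset (Sym2 (Fin N)) → Sym2 (Fin N)) : ℝ :=
  Ex β (fun A => if HasClique q A then 1 else 0) (⊤ : SimpleGraph (Fin N)).edgeFinset.card ∅
    (⊤ : SimpleGraph (Fin N)).edgeFinset

end Pool.Agent.H97.RM
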