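import Mathlib

/-! Rudin-Shapiro type polynomials and a planar test configuration. -/

set_option autoImplicit false
open Complex Metric Set Filter Topology MeasureTheory

namespace Pool.Agent.H97.RS

open Polynomial in
noncomputable def pq (a : ℝ) : ℕ → ℂ[X] × ℂ[X]
  | 0 => (0, 1)
  | j + 1 => ((pq a j).1 + C (a : ℂ) * (X ^ (2 ^ j) * (pq a j).2),
      X ^ (2 ^ j) * (pq a j).2 - C (a : ℂ) * (pq a j).1)

lemma par (a : ℝ) (P W : ℂ) :
    ‖P + a * W‖ ^ 2 + ‖W - a * P‖ ^ 2 = (1 + a ^ 2) * (‖P‖ ^ 2 + ‖W‖ ^ 2) := by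
  simp only [Complex.sq_norm, Complex.normSq_apply, add_re, mul_re, ofReal_re, ofReal_im,
    add_im, mul_im, sub_re, sub_im]
  ring

lemma pq_bound (a : ℝ) (l : ℂ) (hl : ‖l‖ ≤ 1) (j : ℕ) :
    ‖(pq a j).1.eval l‖ ^ 2 + ‖(pq a j).2.eval l‖ ^ 2 ≤ (1 + a ^ 2) ^ j := by
  induction j with
  | zero => simp [pq]
  | succ j ih =>
    simp only [pq, Polynomial.eval_add, Polynomial.eval_mul, Polynomial.eval_C,
      Polynomial.eval_pow, Polynomial.eval_X, Polynomial.eval_sub]
    rw [par, pow_succ' (1 + a ^ 2)]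
    refine mul_le_mul_of_nonneg_left (le_trans ?_ ih) (by positivity)
    have h1 : ‖l ^ 2 ^ j * (pq a j).2.eval l‖ ≤ ‖(pq a j).2.eval l‖ := by
      rw [norm_mul, norm_pow]
      exact mul_le_of_le_one_left (norm_nonneg _) (pow_le_one₀ (norm_nonneg _) hl)
    have := pow_le_pow_left₀ (norm_nonneg _) h1 2
    linarith

lemma pq_van (a : ℝ) (j : ℕ) : ∀ m, 2 ^ j ≤ m → (pq a j).1.coeff m = 0 ∧ (pq a j).2.coeff m = 0 := by
  induction j with
  | zero =>
    intro m hm
    have : m ≠ 0 := by omega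
    simp [pq, Polynomial.coeff_one, this]
  | succ j ih =>
    intro m hm
    have h2 : 2 ^ (j + 1) = 2 * 2 ^ j := by ring
    have hA := ih m (by omega)
    have hB := ih (m - 2 ^ j) (by omega)
    simp only [pq, Polynomial.coeff_add, Polynomial.coeff_C_mul, Polynomial.coeff_sub,
      Polynomial.coeff_X_pow_mul', hA.1, hB.2]
    simp

lemma pq_top (a : ℝ) (j : ℕ) : (pq a j).2.coeff (2 ^ j - 1) = 1 := by
  induction j with
  | zero => simp [pq]
  | succ j ih =>
    have h2 : 2 ^ (j + 1) = 2 * 2 ^ j := by ring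
    have h3 : 0 < 2 ^ j := by positivity
    have hA := pq_van a j (2 ^ (j + 1) - 1) (by omega)
    have e : 2 ^ (j + 1) - 1 - 2 ^ j = 2 ^ j - 1 := by omega
    simp only [pq, Polynomial.coeff_C_mul, Polynomial.coeff_sub,
      Polynomial.coeff_X_pow_mul', hA.1, e, ih]
    rw [if_pos (by omega)]
    simp

lemma pq_coef (a : ℝ) (n : ℕ) : ∀ j < n, (pq a n).1.coeff (2 ^ (j + 1) - 1) = a := by
  induction n with
  | zero => intro j hj; omega
  | succ n ih =>
    intro j hj
    simp only [pq, Polynomial.coeff_add, Polynomial.coeff_C_mul, Polynomial.coeff_X_pow_mul']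
    rcases Nat.lt_succ_iff_lt_or_eq.1 hj with h | h
    · have h1 : 2 ^ (j + 1) ≤ 2 ^ n := Nat.pow_le_pow_right (by norm_num) h
      have h3 : 0 < 2 ^ (j + 1) := by positivity
      rw [ih j h, if_neg (by omega)]
      simp
    · subst h
      have h2 : 2 ^ (j + 1) = 2 * 2 ^ j := by ring
      have h3 : 0 < 2 ^ j := by positivity
      have e : 2 ^ (j + 1) - 1 - 2 ^ j = 2 ^ j - 1 := by omega
      rw [(pq_van a j _ (by omega)).1, if_pos (by omega), e, pq_top]
      simp

lemma rs (t : ℕ) (ht : 0 < t) : ∃ c : ℕ → ℂ,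
    (∀ l : ℂ, ‖l‖ ≤ 1 → ‖∑ m ∈ Finset.range (2 ^ (t ^ 2)), c m * l ^ m‖ ≤ 2) ∧
    ∀ j < t ^ 2, c (2 ^ (j + 1) - 1) = ((1 / t : ℝ) : ℂ) := by
  refine ⟨fun m => (pq (1 / t) (t ^ 2)).1.coeff m, fun l hl => ?_, pq_coef _ _⟩
  have hdeg : (pq (1 / t) (t ^ 2)).1.natDegree < 2 ^ (t ^ 2) := by
    have : (pq (1 / t) (t ^ 2)).1.natDegree ≤ 2 ^ (t ^ 2) - 1 := by
      rw [Polynomial.natDegree_le_iff_coeff_eq_zero]
      intro N hN
      exact (pq_van _ _ N (by omega)).1
    have h3 : 0 < 2 ^ (t ^ 2) := by positivity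
    omega
  rw [← Polynomial.eval_eq_sum_range' hdeg]
  have h1 := pq_bound (1 / t) l hl (t ^ 2)
  have h2 : (1 + (1 / (t : ℝ)) ^ 2) ^ (t ^ 2) ≤ Real.exp 1 := by
    have : (1 + (1 / (t : ℝ)) ^ 2) ≤ Real.exp ((1 / (t : ℝ)) ^ 2) := by
      linarith [Real.add_one_le_exp ((1 / (t : ℝ)) ^ 2)]
    refine (pow_le_pow_left₀ (by positivity) this _).trans ?_
    rw [← Real.exp_nat_mul]
    have : (t : ℝ) ≠ 0 := by positivity
    apply le_of_eq; congr 1; push_cast; field_simp
  have h3 : Real.exp 1 ≤ 4 := by linarith [Real.exp_one_lt_d9]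
  have h4 : ‖(pq (1 / t) (t ^ 2)).1.eval l‖ ^ 2 ≤ 2 ^ 2 := by
    nlinarith [sq_nonneg ‖(pq (1 / t) (t ^ 2)).2.eval l‖]
  exact (pow_le_pow_iff_left₀ (norm_nonneg _) (by norm_num) two_ne_zero).1 h4

lemma lac (x : ℝ) (hx : 0 ≤ x) (n : ℕ) :
    ∑ j ∈ Finset.range n, 2 ^ j * x * Real.exp (-(2 ^ j * x)) ≤
      2 * (Real.exp (-(x / 2)) - Real.exp (-(2 ^ n * x / 2))) := by
  induction n with
  | zero => simp
  | succ n ih =>
    rw [Finset.sum_range_succ]
    set u := 2 ^ n * x with hu
    have e : (2 : ℝ) ^ (n + 1) * x / 2 = u := by rw [hu]; ring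
    rw [e]
    have h1 : Real.exp (-(u / 2)) = Real.exp (-u) * Real.exp (u / 2) := by
      rw [← Real.exp_add]; congr 1; ring
    have h2 := Real.add_one_le_exp (u / 2)
    have h3 := Real.exp_pos (-u)
    nlinarith [mul_le_mul_of_nonneg_left h2 h3.le]


noncomputable def db (K : ℂ → ℂ) (s : ℂ) : ℂ := (fderiv ℝ K s 1 + I * fderiv ℝ K s I) / 2

lemma db_prod (f g : ℝ → ℝ) (f' g' : ℝ) (s : ℂ) (hf : HasDerivAt f f' s.re)
    (hg : HasDerivAt g g' s.im) :
    db (fun s => (f s.re : ℂ) * (g s.im : ℂ)) s = (f' * g s.im + I * (f s.re * g')) / 2 := by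
  have h1 : HasFDerivAt (fun s : ℂ => (f s.re : ℂ)) _ s :=
    ofRealCLM.hasFDerivAt.comp s (hf.hasFDerivAt.comp s reCLM.hasFDerivAt)
  have h2 : HasFDerivAt (fun s : ℂ => (g s.im : ℂ)) _ s :=
    ofRealCLM.hasFDerivAt.comp s (hg.hasFDerivAt.comp s imCLM.hasFDerivAt)
  have h3 := (h1.mul h2).fderiv
  unfold db
  erw [h3]
  simp
  ring

lemma int_prod (f g : ℝ → ℂ) : ∫ s : ℂ, f s.re * g s.im = (∫ x, f x) * ∫ y, g y := by
  rw [← integral_prod_mul, ← Measure.volume_eq_prod,
    ← Complex.volume_preserving_equiv_real_prod.integral_comp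
      measurableEquivRealProd.measurableEmbedding]
  rfl

lemma int_prod_real (f g : ℝ → ℝ) : ∫ s : ℂ, f s.re * g s.im = (∫ x, f x) * ∫ y, g y := by
  rw [← integral_prod_mul, ← Measure.volume_eq_prod,
    ← Complex.volume_preserving_equiv_real_prod.integral_comp
      measurableEquivRealProd.measurableEmbedding]
  rfl

lemma integrable_prod {L : Type*} [NormedRing L] {f g : ℝ → L} (hf : Integrable f)
    (hg : Integrable g) : Integrable (fun s : ℂ => f s.re * g s.im) := by
  have := hf.mul_prod hg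
  rw [← Measure.volume_eq_prod] at this
  exact (Complex.volume_preserving_equiv_real_prod.integrable_comp_emb
    measurableEquivRealProd.measurableEmbedding).2 this

open Real in
lemma eta_deriv (x : ℝ) : HasDerivAt smoothTransition (deriv smoothTransition x) x :=
  ((smoothTransition.contDiff (n := 1)).differentiable (by norm_num) x).hasDerivAt

open Real in
lemma eta_int : Integrable (deriv smoothTransition) := by
  refine Continuous.integrable_of_hasCompactSupport
    ((smoothTransition.contDiff (n := 1)).continuous_deriv (by norm_num)) ?_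
  refine HasCompactSupport.intro (isCompact_Icc (a := 0) (b := 1)) fun x hx => ?_
  rw [mem_Icc, not_and_or, not_le, not_le] at hx
  rcases hx with h | h
  · have : smoothTransition =ᶠ[𝓝 x] fun _ => 0 := by
      filter_upwards [Iio_mem_nhds h] with y hy using smoothTransition.zero_of_nonpos (le_of_lt hy)
    rw [this.deriv_eq, deriv_const]
  · have : smoothTransition =ᶠ[𝓝 x] fun _ => 1 := by
      filter_upwards [Ioi_mem_nhds h] with y hy using smoothTransition.one_of_one_le (le_of_lt hy)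
    rw [this.deriv_eq, deriv_const]

/-- cut-off `η(Lx - d) - η(x - c)` -/
noncomputable def chi (L d c : ℝ) (x : ℝ) : ℝ :=
  Real.smoothTransition (L * x - d) - Real.smoothTransition (x - c)

noncomputable def chi' (L d c : ℝ) (x : ℝ) : ℝ :=
  deriv Real.smoothTransition (L * x - d) * L - deriv Real.smoothTransition (x - c)

lemma chi_deriv (L d c x : ℝ) : HasDerivAt (chi L d c) (chi' L d c x) x := by
  have h1 := (eta_deriv (L * x - d)).comp x (((hasDerivAt_id x).const_mul L).sub_const d)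
  have h2 := (eta_deriv (x - c)).comp x ((hasDerivAt_id x).sub_const c)
  have := h1.sub h2
  simp only [mul_one] at this
  exact this

lemma chi_smooth (L d c : ℝ) : ContDiff ℝ (⊤ : ℕ∞) (chi L d c) := by
  unfold chi
  exact (Real.smoothTransition.contDiff.comp (by fun_prop)).sub
    (Real.smoothTransition.contDiff.comp (by fun_prop))

lemma chi_zero {L d c x : ℝ} (hL : 1 ≤ L) (hd : 0 ≤ d) (hd1 : d ≤ 1) (hc : 1 ≤ c)
    (hx : L * x ≤ d ∨ c + 1 ≤ x) : chi L d c x = 0 := by
  unfold chi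
  rcases hx with h | h
  · have : x ≤ 1 := by nlinarith
    rw [Real.smoothTransition.zero_of_nonpos (by linarith),
      Real.smoothTransition.zero_of_nonpos (by linarith), sub_self]
  · rw [Real.smoothTransition.one_of_one_le (by nlinarith),
      Real.smoothTransition.one_of_one_le (by linarith), sub_self]

lemma chi_nonneg {L d c : ℝ} (hL : 1 ≤ L) (hd : 0 ≤ d) (hd1 : d ≤ 1) (hc : 1 ≤ c) (x : ℝ) :
    0 ≤ chi L d c x := by
  rcases le_total x 0 with h | h
  · rw [chi_zero hL hd hd1 hc (Or.inl (by nlinarith))]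
  · exact sub_nonneg.2 (Real.smoothTransition.monotone (by nlinarith))

lemma chi_le (L d c x : ℝ) : chi L d c x ≤ 1 := by
  unfold chi
  linarith [Real.smoothTransition.le_one (L * x - d), Real.smoothTransition.nonneg (x - c)]

lemma chi_one {L d c x : ℝ} (h1 : d + 1 ≤ L * x) (h2 : x ≤ c) : chi L d c x = 1 := by
  unfold chi
  rw [Real.smoothTransition.one_of_one_le (by linarith),
    Real.smoothTransition.zero_of_nonpos (by linarith), sub_zero]

lemma chi_supp {L d c : ℝ} (hL : 1 ≤ L) (hd : 0 ≤ d) (hd1 : d ≤ 1) (hc : 1 ≤ c) :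
    HasCompactSupport (chi L d c) := by
  refine HasCompactSupport.intro (isCompact_Icc (a := 0) (b := c + 1)) fun x hx => ?_
  rw [mem_Icc, not_and_or, not_le, not_le] at hx
  exact chi_zero hL hd hd1 hc (hx.imp (fun h => by nlinarith) le_of_lt)

lemma chi_int {L d c : ℝ} (hL : 1 ≤ L) (hd : 0 ≤ d) (hd1 : d ≤ 1) (hc : 1 ≤ c) {f : ℝ → ℂ}
    (hf : Continuous f) : Integrable (fun x => (chi L d c x : ℂ) * f x) := by
  refine Continuous.integrable_of_hasCompactSupport
    ((continuous_ofReal.comp (chi_smooth L d c).continuous).mul hf) ?_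
  exact ((chi_supp hL hd hd1 hc).comp_left (g := ofReal) ofReal_zero).mul_right

lemma chi_int_real {L d c : ℝ} (hL : 1 ≤ L) (hd : 0 ≤ d) (hd1 : d ≤ 1) (hc : 1 ≤ c) {f : ℝ → ℝ}
    (hf : Continuous f) : Integrable (fun x => chi L d c x * f x) :=
  Continuous.integrable_of_hasCompactSupport ((chi_smooth L d c).continuous.mul hf)
    (chi_supp hL hd hd1 hc).mul_right

lemma chi_integral_le {L d c : ℝ} (hL : 1 ≤ L) (hd : 0 ≤ d) (hd1 : d ≤ 1) (hc : 1 ≤ c) :
    ∫ x, |chi L d c x| ≤ c + 1 := by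
  rw [← setIntegral_eq_integral_of_forall_compl_eq_zero (s := Icc 0 (c + 1))]
  · have := norm_setIntegral_le_of_norm_le_const (μ := volume) (s := Icc (0 : ℝ) (c + 1))
      (f := fun x => |chi L d c x|) (C := 1) (by simp) (fun x _ => by
        rw [Real.norm_eq_abs, abs_abs, abs_of_nonneg (chi_nonneg hL hd hd1 hc x)]
        exact chi_le _ _ _ _)
    rw [one_mul, Real.volume_real_Icc_of_le (by linarith), sub_zero] at this
    exact (le_abs_self _).trans this
  · intro x hx
    rw [mem_Icc, not_and_or, not_le, not_le] at hx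
    rw [chi_zero hL hd hd1 hc (hx.imp (fun h => by nlinarith) le_of_lt), abs_zero]

lemma chi'_int {L : ℝ} (hL : 1 ≤ L) (d c : ℝ) : Integrable (chi' L d c) ∧
    ∫ x, |chi' L d c x| ≤ 2 * ∫ x, |deriv Real.smoothTransition x| := by
  have hL0 : L ≠ 0 := by positivity
  have h0 : Integrable (fun x => deriv Real.smoothTransition (x - d)) := eta_int.comp_sub_right d
  have h1 : Integrable (fun x => deriv Real.smoothTransition (L * x - d) * L) :=
    (h0.comp_mul_left' hL0).mul_const L
  have h2 : Integrable (fun x => deriv Real.smoothTransition (x - c)) := eta_int.comp_sub_right c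
  refine ⟨h1.sub h2, ?_⟩
  have e1 : ∫ x, |deriv Real.smoothTransition (L * x - d) * L| =
      ∫ x, |deriv Real.smoothTransition x| := by
    simp_rw [abs_mul, abs_of_pos (show 0 < L by linarith)]
    rw [integral_mul_const,
      Measure.integral_comp_mul_left (fun x => |deriv Real.smoothTransition (x - d)|) L,
      integral_sub_right_eq_self (fun x => |deriv Real.smoothTransition x|) d,
      abs_of_pos (show 0 < L⁻¹ by positivity), smul_eq_mul]
    field_simp
  have e2 : ∫ x, |deriv Real.smoothTransition (x - c)| = ∫ x, |deriv Real.smoothTransition x| :=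
    integral_sub_right_eq_self (fun x => |deriv Real.smoothTransition x|) c
  calc ∫ x, |chi' L d c x| ≤ ∫ x, (|deriv Real.smoothTransition (L * x - d) * L| +
        |deriv Real.smoothTransition (x - c)|) :=
        integral_mono (h1.sub h2).abs (h1.abs.add h2.abs) fun x => abs_sub _ _
    _ = _ := by rw [integral_add h1.abs h2.abs, e1, e2]; ring

lemma orth (k : ℤ) (hk : k ≠ 0) :
    ∫ y : ℝ, (chi 1 0 (2 * Real.pi) y : ℂ) * exp (k * y * I) = 0 := by
  have hc : (1 : ℝ) ≤ 2 * Real.pi := by linarith [Real.pi_gt_three]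
  have hE : Continuous fun y : ℝ => exp (k * y * I) := by fun_prop
  have hEb : ∀ y : ℝ, ‖exp (k * y * I)‖ ≤ 1 := fun y => by
    have : (k : ℂ) * y * I = ((k * y : ℝ) : ℂ) * I := by push_cast; ring
    rw [this, norm_exp_ofReal_mul_I]
  have hi : ∀ c : ℝ, Integrable fun y : ℝ =>
      ((deriv Real.smoothTransition (y - c) : ℝ) : ℂ) * exp (k * y * I) := fun c =>
    (eta_int.comp_sub_right c).ofReal.mul_bdd hE.aestronglyMeasurable (Eventually.of_forall hEb)
  have h1 := chi_int (L := 1) (d := 0) le_rfl le_rfl zero_le_one hc hE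
  have hD : ∀ y : ℝ, HasDerivAt (fun y : ℝ => (chi 1 0 (2 * Real.pi) y : ℂ) * exp (k * y * I))
      ((((deriv Real.smoothTransition (y - 0) : ℝ) : ℂ) * exp (k * y * I) -
        ((deriv Real.smoothTransition (y - 2 * Real.pi) : ℝ) : ℂ) * exp (k * y * I)) +
        (k * I) * ((chi 1 0 (2 * Real.pi) y : ℂ) * exp (k * y * I))) y := fun y => by
    have a1 := (chi_deriv 1 0 (2 * Real.pi) y).ofReal_comp
    have a2 : HasDerivAt (fun y : ℝ => exp (k * y * I)) (exp (k * y * I) * (k * 1 * I)) y :=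
      ((((hasDerivAt_id y).ofReal_comp).const_mul (k : ℂ)).mul_const I).cexp
    refine (a1.mul a2).congr_deriv ?_
    simp only [chi', one_mul, mul_one]
    push_cast
    ring
  have h0 := integral_eq_zero_of_hasDerivAt_of_integrable hD
    (((hi 0).sub (hi _)).add (h1.const_mul _)) h1
  rw [integral_add (by exact (hi 0).sub (hi _)) (h1.const_mul _), integral_sub (hi 0) (hi _),
    integral_const_mul] at h0
  have e : ∫ y : ℝ, ((deriv Real.smoothTransition (y - 2 * Real.pi) : ℝ) : ℂ) * exp (k * y * I) =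
      ∫ y : ℝ, ((deriv Real.smoothTransition (y - 0) : ℝ) : ℂ) * exp (k * y * I) := by
    rw [← integral_sub_right_eq_self (fun y : ℝ =>
      ((deriv Real.smoothTransition (y - 0) : ℝ) : ℂ) * exp (k * y * I)) (2 * Real.pi)]
    congr 1; funext y
    have : (k : ℂ) * ((y - 2 * Real.pi : ℝ) : ℂ) * I = k * y * I - k * (2 * Real.pi * I) := by
      push_cast; ring
    rw [this, exp_sub, exp_int_mul_two_pi_mul_I, sub_zero, div_one]
  rw [e, sub_self, zero_add] at h0
  exact (mul_eq_zero.1 h0).resolve_left (mul_ne_zero (Int.cast_ne_zero.2 hk) I_ne_zero)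


lemma low {f : ℝ → ℝ} (hf : Integrable f) (h0 : ∀ x, 0 ≤ f x) {a b c : ℝ} (hab : a ≤ b)
    (hc : ∀ x ∈ Icc a b, c ≤ f x) : c * (b - a) ≤ ∫ x, f x := by
  calc c * (b - a) = ∫ _ in Icc a b, c := by
        rw [setIntegral_const, Real.volume_real_Icc_of_le hab, smul_eq_mul, mul_comm]
    _ ≤ ∫ x in Icc a b, f x :=
        setIntegral_mono_on (by simp) hf.integrableOn measurableSet_Icc hc
    _ ≤ ∫ x, f x := setIntegral_le_integral hf (Eventually.of_forall h0)

lemma Jlow {L m : ℝ} (hm : 1 ≤ m) (hL : 2 * m ≤ L) :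
    Real.exp (-4) / m ^ 2 ≤ ∫ x, chi L 1 2 x * (x * Real.exp (-(2 * m * x))) := by
  have hL1 : 1 ≤ L := by linarith
  have hm0 : 0 < m := by linarith
  have := low (f := fun x => chi L 1 2 x * (x * Real.exp (-(2 * m * x))))
    (chi_int_real hL1 zero_le_one le_rfl one_le_two (by fun_prop)) (fun x => by
      rcases le_total x 0 with h | h
      · simp only [chi_zero hL1 zero_le_one le_rfl one_le_two
          (Or.inl (show L * x ≤ 1 by nlinarith)), zero_mul, le_refl]
      · exact mul_nonneg (chi_nonneg hL1 zero_le_one le_rfl one_le_two x) (by positivity))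
    (a := 1 / m) (b := 2 / m) (c := 1 / m * Real.exp (-4)) (by gcongr; norm_num) (fun x hx => by
      have h1 : 1 ≤ m * x := by have := hx.1; rwa [div_le_iff₀' hm0] at this
      have h2 : m * x ≤ 2 := by have := hx.2; rwa [le_div_iff₀' hm0] at this
      have h3 : 0 ≤ x := le_trans (by positivity) hx.1
      rw [chi_one (by nlinarith) (by nlinarith), one_mul]
      exact mul_le_mul hx.1 (Real.exp_le_exp.2 (by linarith)) (by positivity) h3)
  refine le_trans (le_of_eq ?_) this
  field_simp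
  ring

theorem stage (C : ℝ) : ∃ (G B K : ℂ → ℂ) (x0 M A : ℝ), 0 < x0 ∧ 0 < A ∧ Differentiable ℂ G ∧
    (∀ s : ℂ, 0 ≤ s.re → ‖G s‖ ≤ 2) ∧ ContDiff ℝ (⊤ : ℕ∞) B ∧ ContDiff ℝ (⊤ : ℕ∞) K ∧
    (∀ s : ℂ, 0 ≤ s.re → ‖B s‖ ≤ 1 / 2) ∧ (∀ s, K s ≠ 0 → x0 ≤ s.re ∧ ‖s‖ ≤ M) ∧
    ∫ s, ‖db K s‖ ≤ A ∧ C * A < ‖∫ s, K s * (starRingEnd ℂ) (deriv G s) * B s‖ := by
  set E := ∫ x, |deriv Real.smoothTransition x| with hE
  have hE0 : 0 ≤ E := integral_nonneg fun x => abs_nonneg _
  set A := 20 * E + 1 with hA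
  obtain ⟨t, ht⟩ := exists_nat_gt (|C| * A * 8 / Real.exp (-4))
  have ht0 : 0 < t := by
    have : (0 : ℝ) ≤ |C| * A * 8 / Real.exp (-4) := by positivity
    exact_mod_cast this.trans_lt ht
  obtain ⟨c, hc, hcj⟩ := rs t ht0
  set n := t ^ 2 with hn
  set L : ℝ := 2 ^ (n + 1) with hL
  have hL1 : 1 ≤ L := one_le_pow₀ one_le_two
  have hpi : (1 : ℝ) ≤ 2 * Real.pi := by linarith [Real.pi_gt_three]
  set mj : ℕ → ℕ := fun j => 2 ^ (j + 1) - 1 with hmj
  have hmj1 : ∀ j, 2 ^ j ≤ mj j := fun j => by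
    have h2 : 2 ^ (j + 1) = 2 * 2 ^ j := by ring
    have h3 : 0 < 2 ^ j := by positivity
    simp only [hmj]; omega
  have hmj2 : ∀ j, mj j < 2 ^ (j + 1) := fun j => by
    have h3 : 0 < 2 ^ (j + 1) := by positivity
    simp only [hmj]; omega
  have hmj3 : ∀ j < n, mj j < 2 ^ n := fun j hj =>
    (hmj2 j).trans_le (Nat.pow_le_pow_right (by norm_num) hj)
  set G : ℂ → ℂ := fun s => ∑ m ∈ Finset.range (2 ^ n), c m * exp (-(m * s)) with hG
  have hG' : ∀ s, deriv G s = ∑ m ∈ Finset.range (2 ^ n), c m * (exp (-(m * s)) * (-m)) := by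
    intro s
    refine (HasDerivAt.fun_sum fun m _ => ?_).deriv
    have := (((hasDerivAt_id s).const_mul (m : ℂ)).neg.cexp).const_mul (c m)
    simpa using this
  refine ⟨G, fun s => ∑ j ∈ Finset.range n, (s.re / 4 * 2 ^ j : ℝ) * exp (-(mj j * s)),
    fun s => (chi L 1 2 s.re : ℂ) * (chi 1 0 (2 * Real.pi) s.im : ℂ), 1 / L, 11, A,
    by positivity, by positivity, by fun_prop, fun s hs => ?_, ?_, ?_, fun s hs => ?_,
    fun s hs => ?_, ?_, ?_⟩
  · have := hc (exp (-s)) (by rw [norm_exp]; simpa using hs)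
    simp only [← exp_nat_mul, mul_neg] at this
    exact this
  · refine ContDiff.sum fun j _ => ContDiff.mul ?_ ?_
    · exact ofRealCLM.contDiff.comp ((reCLM.contDiff.div_const 4).mul contDiff_const)
    · exact (contDiff_const.mul contDiff_id).neg.cexp
  · exact (ofRealCLM.contDiff.comp ((chi_smooth _ _ _).comp reCLM.contDiff)).mul
      (ofRealCLM.contDiff.comp ((chi_smooth _ _ _).comp imCLM.contDiff))
  · refine (norm_sum_le _ _).trans ?_
    have h1 := lac s.re hs n
    have h2 : ∑ j ∈ Finset.range n, ‖((s.re / 4 * 2 ^ j : ℝ) : ℂ) * exp (-(mj j * s))‖ ≤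
        ∑ j ∈ Finset.range n, 1 / 4 * (2 ^ j * s.re * Real.exp (-(2 ^ j * s.re))) := by
      refine Finset.sum_le_sum fun j _ => ?_
      rw [norm_mul, norm_real, norm_exp, Real.norm_of_nonneg (by positivity)]
      have h3 : (2 : ℝ) ^ j ≤ mj j := by exact_mod_cast hmj1 j
      have h4 : Real.exp (-(mj j * s : ℂ)).re ≤ Real.exp (-(2 ^ j * s.re)) := by
        apply Real.exp_le_exp.2
        simp only [neg_re, mul_re, natCast_re, natCast_im, zero_mul, sub_zero]
        nlinarith
      calc _ ≤ s.re / 4 * 2 ^ j * Real.exp (-(2 ^ j * s.re)) := by gcongr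
        _ = _ := by ring
    rw [← Finset.mul_sum] at h2
    have h3 : Real.exp (-(s.re / 2)) ≤ 1 := Real.exp_le_one_iff.2 (by linarith)
    linarith [Real.exp_pos (-(2 ^ n * s.re / 2))]
  · have h1 : chi L 1 2 s.re ≠ 0 := fun h => hs (by simp [h])
    have h2 : chi 1 0 (2 * Real.pi) s.im ≠ 0 := fun h => hs (by simp [h])
    have h3 := mt (chi_zero hL1 zero_le_one le_rfl one_le_two) h1
    have h4 := mt (chi_zero le_rfl le_rfl zero_le_one hpi) h2
    push Not at h3 h4
    have h5 : 1 / L ≤ s.re := by rw [div_le_iff₀' (by positivity)]; exact h3.1.le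
    have h6 : 0 ≤ s.re := le_trans (by positivity) h5
    refine ⟨h5, (norm_le_abs_re_add_abs_im s).trans ?_⟩
    rw [abs_of_nonneg h6, abs_of_nonneg (by linarith [h4.1])]
    linarith [h3.2, h4.2, Real.pi_lt_d2]
  · have i1 := chi'_int hL1 1 2
    have i2 := chi'_int (L := 1) le_rfl 0 (2 * Real.pi)
    have i3 : Integrable (chi L 1 2) := by
      simpa using chi_int_real hL1 zero_le_one le_rfl one_le_two (f := fun _ => 1) continuous_const
    have i4 : Integrable (chi 1 0 (2 * Real.pi)) := by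
      simpa using chi_int_real le_rfl le_rfl zero_le_one hpi (f := fun _ => 1) continuous_const
    have j1 := integrable_prod i1.1.abs i4.abs
    have j2 := integrable_prod i3.abs i2.1.abs
    have b3 := chi_integral_le hL1 zero_le_one le_rfl one_le_two
    have b4 := chi_integral_le le_rfl le_rfl zero_le_one hpi
    calc _ ≤ ∫ s : ℂ, (|chi' L 1 2 s.re| * |chi 1 0 (2 * Real.pi) s.im| +
          |chi L 1 2 s.re| * |chi' 1 0 (2 * Real.pi) s.im|) / 2 := by
          refine integral_mono_of_nonneg (Eventually.of_forall fun s => norm_nonneg _)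
            ((j1.add j2).div_const 2) (Eventually.of_forall fun s => ?_)
          simp only
          rw [db_prod _ _ _ _ s (chi_deriv _ _ _ _) (chi_deriv _ _ _ _), norm_div]
          simp only [Complex.norm_ofNat]
          gcongr
          refine (norm_add_le _ _).trans (le_of_eq ?_)
          simp
      _ ≤ A := by
          rw [integral_div, integral_add j1 j2,
            int_prod_real (fun x => |chi' L 1 2 x|) (fun y => |chi 1 0 (2 * Real.pi) y|),
            int_prod_real (fun x => |chi L 1 2 x|) (fun y => |chi' 1 0 (2 * Real.pi) y|)]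
          have k1 : (∫ x, |chi' L 1 2 x|) * (∫ y, |chi 1 0 (2 * Real.pi) y|) ≤ (2 * E) * 8 :=
            mul_le_mul i1.2 (by linarith [Real.pi_lt_d2]) (integral_nonneg fun x => abs_nonneg _)
              (by positivity)
          have k2 : (∫ x, |chi L 1 2 x|) * (∫ y, |chi' 1 0 (2 * Real.pi) y|) ≤ 3 * (2 * E) :=
            mul_le_mul (by linarith) i2.2 (integral_nonneg fun x => abs_nonneg _) (by positivity)
          linarith
  · set f : ℕ → ℕ → ℝ → ℂ := fun j m x => (chi L 1 2 x : ℂ) * ((starRingEnd ℂ) (c m) * (-m) *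
      (((x / 4 * 2 ^ j) * Real.exp (-((m + mj j) * x)) : ℝ) : ℂ)) with hf
    set g : ℕ → ℕ → ℝ → ℂ := fun j m y => (chi 1 0 (2 * Real.pi) y : ℂ) *
      exp (((m : ℤ) - (mj j : ℤ) : ℤ) * y * I) with hg
    have hfi : ∀ j m, Integrable (f j m) := fun j m =>
      chi_int hL1 zero_le_one le_rfl one_le_two (by fun_prop)
    have hgi : ∀ j m, Integrable (g j m) := fun j m =>
      chi_int le_rfl le_rfl zero_le_one hpi (by fun_prop)
    have e1 : ∀ s : ℂ, (chi L 1 2 s.re : ℂ) * (chi 1 0 (2 * Real.pi) s.im : ℂ) *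
        (starRingEnd ℂ) (deriv G s) *
        ∑ j ∈ Finset.range n, (s.re / 4 * 2 ^ j : ℝ) * exp (-(mj j * s)) =
        ∑ j ∈ Finset.range n, ∑ m ∈ Finset.range (2 ^ n), f j m s.re * g j m s.im := by
      intro s
      rw [hG', map_sum, Finset.mul_sum]
      refine Finset.sum_congr rfl fun j _ => ?_
      rw [Finset.mul_sum, Finset.sum_mul]
      refine Finset.sum_congr rfl fun m _ => ?_
      have e2 : (starRingEnd ℂ) (exp (-(m * s))) * exp (-(mj j * s)) =
          (Real.exp (-((m + mj j) * s.re)) : ℂ) * exp (((m : ℤ) - (mj j : ℤ) : ℤ) * s.im * I) := by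
        rw [← exp_conj, ofReal_exp, ← exp_add, ← exp_add]
        congr 1
        apply Complex.ext <;> simp <;> ring
      simp only [hf, hg, map_mul, map_neg, map_natCast, ofReal_mul (s.re / 4 * 2 ^ j)]
      linear_combination (chi L 1 2 s.re : ℂ) * (chi 1 0 (2 * Real.pi) s.im : ℂ) *
        (starRingEnd ℂ) (c m) * (-m) * ((s.re / 4 * 2 ^ j : ℝ) : ℂ) * e2
    set I0 := ∫ y, chi 1 0 (2 * Real.pi) y with hI0
    have hI : 1 ≤ I0 := by
      have i4 : Integrable (chi 1 0 (2 * Real.pi)) := by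
        simpa using chi_int_real le_rfl le_rfl zero_le_one hpi (f := fun _ => 1) continuous_const
      have := low i4 (chi_nonneg le_rfl le_rfl zero_le_one hpi) (a := 1) (b := 2) (c := 1) one_le_two
        (fun x hx => (chi_one (by linarith [hx.1]) (by linarith [hx.2, Real.pi_gt_three])).ge)
      linarith
    set J : ℕ → ℝ := fun j => ∫ x, chi L 1 2 x * (x * Real.exp (-(2 * mj j * x))) with hJ
    have e3 : ∀ j ∈ Finset.range n, ∫ s : ℂ, ∑ m ∈ Finset.range (2 ^ n), f j m s.re * g j m s.im =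
        -((1 / t * mj j * 2 ^ j / 4 * J j * I0 : ℝ) : ℂ) := by
      intro j hj
      have hj := Finset.mem_range.1 hj
      rw [integral_finsetSum _ fun m _ => integrable_prod (hfi j m) (hgi j m),
        Finset.sum_eq_single (mj j)]
      · rw [int_prod]
        have a1 : ∫ y, g j (mj j) y = (I0 : ℂ) := by
          simp only [hg, sub_self, Int.cast_zero, zero_mul, exp_zero, mul_one, hI0]
          exact integral_ofReal
        have a2 : ∫ x, f j (mj j) x = -((1 / t * mj j * 2 ^ j / 4 * J j : ℝ) : ℂ) := by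
          rw [hJ, ← integral_const_mul, ← integral_complex_ofReal, ← integral_neg]
          congr 1; funext x
          simp only [hf]
          rw [hcj j hj, conj_ofReal, ← two_mul]
          push_cast
          ring
        rw [a1, a2]; push_cast; ring
      · intro m _ hm
        rw [int_prod, orth _ (sub_ne_zero.2 (by exact_mod_cast hm)), mul_zero]
      · intro h
        exact absurd (Finset.mem_range.2 (hmj3 j hj)) h
    simp_rw [e1]
    rw [integral_finsetSum _ fun j _ => integrable_finsetSum _ fun m _ =>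
      integrable_prod (hfi j m) (hgi j m), Finset.sum_congr rfl e3, Finset.sum_neg_distrib,
      norm_neg, ← ofReal_sum, norm_real]
    refine lt_of_lt_of_le ?_ (le_abs_self _)
    have e4 : ∀ j ∈ Finset.range n, 1 / t * Real.exp (-4) / 8 ≤
        (1 / t * mj j * 2 ^ j / 4 * J j * I0 : ℝ) := by
      intro j hj
      have hj := Finset.mem_range.1 hj
      have m1 : (1 : ℝ) ≤ mj j := by
        have : 1 ≤ mj j := le_trans Nat.one_le_two_pow (hmj1 j)
        exact_mod_cast this
      have m2 : (mj j : ℝ) ≤ 2 ^ (j + 1) := by exact_mod_cast (hmj2 j).le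
      have m3 : (mj j : ℝ) ≤ 2 ^ n := by exact_mod_cast (hmj3 j hj).le
      have m4 := Jlow (L := L) m1 (by rw [hL, pow_succ]; linarith)
      have m5 : 1 / t * Real.exp (-4) / 8 ≤
          1 / t * mj j * 2 ^ j / 4 * (Real.exp (-4) / (mj j : ℝ) ^ 2) * 1 := by
        have : 1 / t * mj j * 2 ^ j / 4 * (Real.exp (-4) / (mj j : ℝ) ^ 2) * 1 =
            1 / t * Real.exp (-4) / 8 * (2 ^ (j + 1) / mj j) := by field_simp; ring
        rw [this]
        exact le_mul_of_one_le_right (by positivity) ((one_le_div (by positivity)).2 m2)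
      refine m5.trans ?_
      have m6 : 0 ≤ J j := le_trans (by positivity) m4
      gcongr
    refine lt_of_lt_of_le ?_ (Finset.card_nsmul_le_sum _ _ _ e4)
    rw [Finset.card_range, nsmul_eq_mul, hn]
    rw [div_lt_iff₀ (Real.exp_pos _)] at ht
    have : ((t ^ 2 : ℕ) : ℝ) * (1 / t * Real.exp (-4) / 8) = t * Real.exp (-4) / 8 := by
      push_cast; field_simp
    rw [this]
    have : C * A ≤ |C| * A := by gcongr; exact le_abs_self C
    linarith

end Pool.Agent.H97.RS
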