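import Pool.Agent.H97.RS

/-! Transfer to the unit disc and a single bounded holomorphic function. -/

set_option autoImplicit false
open Complex Metric Set Filter Topology MeasureTheory

namespace Pool.Agent.H97.RS

lemma db_aff {K : ℂ → ℂ} (hK : Differentiable ℝ K) (L : ℝ) (z : ℂ) :
    db (fun z => K (L • (1 - z))) z = -L * db K (L • (1 - z)) := by
  have h1 : HasFDerivAt (fun z : ℂ => L • (1 - z)) (L • -ContinuousLinearMap.id ℝ ℂ) z :=
    ((hasFDerivAt_id z).const_sub 1).const_smul L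
  have h2 := ((hK (L • (1 - z))).hasFDerivAt.comp z h1).fderiv
  unfold db
  erw [h2]
  simp only [ContinuousLinearMap.comp_apply, smul_apply,
    neg_apply, ContinuousLinearMap.id_apply, map_smul, map_neg]
  simp only [real_smul]
  ring

lemma int_aff {E : Type*} [NormedAddCommGroup E] [NormedSpace ℝ E] (F : ℂ → E) {L : ℝ}
    (hL : 0 < L) : ∫ z, F (L • (1 - z)) = (L ^ 2)⁻¹ • ∫ s, F s := by
  rw [integral_sub_left_eq_self (fun z : ℂ => F (L • z)) volume 1, Measure.integral_comp_smul,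
    finrank_real_complex, abs_of_pos (by positivity)]

lemma db_smooth {K : ℂ → ℂ} (hK : ContDiff ℝ (⊤ : ℕ∞) K) : ContDiff ℝ (⊤ : ℕ∞) (db K) := by
  have := (contDiff_infty_iff_fderiv.1 hK).2
  unfold db
  exact ((this.clm_apply contDiff_const).add
    (contDiff_const.mul (this.clm_apply contDiff_const))).div_const 2

lemma db_zero {K : ℂ → ℂ} {s : ℂ} (h : K =ᶠ[𝓝 s] fun _ => 0) : db K s = 0 := by
  unfold db
  rw [h.fderiv_eq]
  simp

theorem disc (C : ℝ) : ∃ (g b κ : ℂ → ℂ) (r A : ℝ), r < 1 ∧ 0 < A ∧ Differentiable ℂ g ∧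
    (∀ z : ℂ, ‖z‖ ≤ 1 → ‖g z‖ ≤ 2) ∧ ContDiff ℝ (⊤ : ℕ∞) b ∧ ContDiff ℝ (⊤ : ℕ∞) κ ∧
    (∀ z : ℂ, ‖z‖ ≤ 1 → ‖b z‖ ≤ 1 / 2) ∧
    (∀ z : ℂ, ‖z‖ < 1 → ‖1 - z‖ ^ 2 * (1 - ‖z‖ ^ 2) * ‖db b z‖ ^ 2 ≤ 1 / 4) ∧
    (∀ z, κ z ≠ 0 → ‖z‖ ≤ r) ∧
    ∫ z, ‖db κ z‖ ≤ A ∧ C * A < ‖∫ z, κ z * (starRingEnd ℂ) (deriv g z) * b z‖ := by
  obtain ⟨G, B, K, x0, M, A, hx0, hA, hG, hG2, hB, hK, hB2, hKs, hKA, hmain⟩ := stage C
  let β : ContDiffBump (0 : ℂ) := ⟨|M| + 1, |M| + 2, by positivity, by linarith⟩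
  set R := |M| + 2 with hR
  have hR0 : 0 < R := by positivity
  set B1 : ℂ → ℂ := fun s => B s * (β s : ℂ) with hB1
  have hB1s : ContDiff ℝ (⊤ : ℕ∞) B1 := hB.mul (ofRealCLM.contDiff.comp β.contDiff)
  have hz : ∀ s, R < ‖s‖ → db B1 s = 0 := fun s hs => db_zero (by
    filter_upwards [(isOpen_lt continuous_const continuous_norm).mem_nhds hs] with w hw
    have : β w = 0 := β.zero_of_le_dist (by rw [dist_zero_right]; exact le_of_lt hw)
    simp [hB1, this])
  obtain ⟨D, hD⟩ := (isCompact_closedBall (0 : ℂ) R).exists_bound_of_continuousOn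
    (db_smooth hB1s).continuous.continuousOn
  set L := 8 * R ^ 3 * D ^ 2 + M ^ 2 / x0 + 1 with hL
  have hL0 : 0 < L := by positivity
  have hL1 : 8 * R ^ 3 * D ^ 2 ≤ L := by
    have : 0 ≤ M ^ 2 / x0 := by positivity
    linarith
  have hL2 : M ^ 2 ≤ x0 * L := by
    rw [← div_le_iff₀' hx0]
    have : 0 ≤ 8 * R ^ 3 * D ^ 2 := by positivity
    linarith
  have hre : ∀ z : ℂ, ‖z‖ ≤ 1 → 0 ≤ (L • (1 - z)).re := fun z hz => by
    have := (re_le_norm z).trans hz
    simp only [real_smul, mul_re, ofReal_re, sub_re, one_re, ofReal_im, zero_mul, sub_zero]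
    nlinarith
  have haff : ContDiff ℝ (⊤ : ℕ∞) fun z : ℂ => L • (1 - z) := by fun_prop
  have hn : ∀ z : ℂ, ‖L • (1 - z)‖ = L * ‖1 - z‖ := fun z => by
    rw [norm_smul, Real.norm_of_nonneg hL0.le]
  refine ⟨fun z => G (L • (1 - z)), fun z => B1 (L • (1 - z)), fun z => K (L • (1 - z)),
    Real.sqrt (1 - x0 / L), A / L, ?_, by positivity, ?_, fun z hz => hG2 _ (hre z hz),
    hB1s.comp haff, hK.comp haff, fun z hz => ?_, fun z hz1 => ?_, fun z hz => ?_, ?_, ?_⟩
  · rw [Real.sqrt_lt' one_pos]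
    have : 0 < x0 / L := by positivity
    linarith
  · refine hG.comp ?_
    simp only [real_smul]
    fun_prop
  · simp only [hB1, norm_mul, norm_real]
    have h1 := hB2 _ (hre z hz)
    have h2 : ‖β (L • (1 - z))‖ ≤ 1 := by
      rw [Real.norm_of_nonneg β.nonneg]; exact β.le_one
    nlinarith [norm_nonneg (B (L • (1 - z))), norm_nonneg (β (L • (1 - z)))]
  · rw [db_aff (hB1s.differentiable (by simp))]
    rcases lt_or_ge R ‖L • (1 - z)‖ with h | h
    · rw [hz _ h]; simp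
    · have h1 := hD _ (mem_closedBall_zero_iff.2 h)
      rw [hn] at h
      have h2 : 1 - ‖z‖ ≤ ‖1 - z‖ := by simpa using norm_sub_norm_le (1 : ℂ) z
      have h3 : 1 - ‖z‖ ^ 2 ≤ 2 * R / L := by
        rw [le_div_iff₀ hL0]
        have : 1 - ‖z‖ ^ 2 ≤ 2 * ‖1 - z‖ := by nlinarith [norm_nonneg z]
        nlinarith
      have h4 : 0 ≤ 1 - ‖z‖ ^ 2 := by nlinarith [norm_nonneg z]
      rw [norm_mul, norm_neg, norm_real, Real.norm_of_nonneg hL0.le]
      calc _ = (L * ‖1 - z‖) ^ 2 * (1 - ‖z‖ ^ 2) * ‖db B1 (L • (1 - z))‖ ^ 2 := by ring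
        _ ≤ R ^ 2 * (2 * R / L) * D ^ 2 := by gcongr
        _ = (8 * R ^ 3 * D ^ 2) / L / 4 := by ring
        _ ≤ 1 / 4 := by gcongr; exact (div_le_one hL0).2 hL1
  · obtain ⟨h1, h2⟩ := hKs _ hz
    refine Real.le_sqrt_of_sq_le ?_
    have h3 : ‖L • (1 - z)‖ ^ 2 ≤ M ^ 2 := by gcongr
    rw [hn, mul_pow, Complex.sq_norm, normSq_apply] at h3
    simp only [real_smul, mul_re, ofReal_re, sub_re, one_re, ofReal_im, zero_mul, sub_zero,
      sub_im, one_im, zero_sub] at h1 h3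
    rw [Complex.sq_norm, normSq_apply]
    have h4 : (1 - z.re) * (1 - z.re) + -z.im * -z.im ≤ x0 / L := by
      rw [le_div_iff₀ hL0]
      have := h3.trans hL2
      have h5 : L * (((1 - z.re) * (1 - z.re) + -z.im * -z.im) * L) ≤ L * x0 := by nlinarith
      exact le_of_mul_le_mul_left h5 hL0
    have h5 : x0 / L ≤ 1 - z.re := by rwa [div_le_iff₀' hL0]
    nlinarith
  · simp only [db_aff (hK.differentiable (by simp)), norm_mul, norm_neg, norm_real,
      Real.norm_of_nonneg hL0.le]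
    rw [integral_const_mul, int_aff (fun s => ‖db K s‖) hL0, smul_eq_mul]
    calc L * ((L ^ 2)⁻¹ * ∫ s, ‖db K s‖) = (∫ s, ‖db K s‖) / L := by field_simp
      _ ≤ A / L := by gcongr
  · have hd : ∀ z, deriv (fun z => G (L • (1 - z))) z = deriv G (L • (1 - z)) * (-L) := by
      intro z
      have h1 : HasDerivAt (fun z : ℂ => L • (1 - z)) (-L) z := by
        simpa using ((hasDerivAt_id z).const_sub 1).const_mul (L : ℂ)
      exact ((hG _).hasDerivAt.comp z h1).deriv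
    have e : ∀ z, K (L • (1 - z)) * (starRingEnd ℂ) (deriv (fun z => G (L • (1 - z))) z) *
        B1 (L • (1 - z)) = -L * (fun s => K s * (starRingEnd ℂ) (deriv G s) * B s) (L • (1 - z)) := by
      intro z
      by_cases h : K (L • (1 - z)) = 0
      · simp only [h, zero_mul, mul_zero]
      · have : β (L • (1 - z)) = 1 := β.one_of_mem_closedBall (by
          rw [mem_closedBall_zero_iff]
          exact (hKs _ h).2.trans (by linarith [le_abs_self M]))
        simp only [hd, hB1, this, map_mul, map_neg, conj_ofReal, ofReal_one]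
        ring
    simp only [e]
    rw [integral_const_mul, int_aff (fun s => K s * (starRingEnd ℂ) (deriv G s) * B s) hL0,
      norm_mul, norm_neg, norm_real, Real.norm_of_nonneg hL0.le, norm_smul,
      Real.norm_of_nonneg (by positivity)]
    calc C * (A / L) = C * A / L := by ring
      _ < ‖∫ s, K s * (starRingEnd ℂ) (deriv G s) * B s‖ / L := by gcongr
      _ = _ := by field_simp


open BoundedContinuousFunction in
/-- bounded continuous functions on the plane that are holomorphic in the unit disc -/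
def HB : Submodule ℂ (ℂ →ᵇ ℂ) where
  carrier := {f | DifferentiableOn ℂ f (ball 0 1)}
  add_mem' := fun ha hb => DifferentiableOn.add ha hb
  zero_mem' := differentiableOn_const (c := (0 : ℂ))
  smul_mem' := fun c _ hx => DifferentiableOn.const_smul hx c

open BoundedContinuousFunction in
lemma HB_closed : IsClosed (HB : Set (ℂ →ᵇ ℂ)) := by
  refine isClosed_of_closure_subset fun f hf => ?_
  obtain ⟨u, hu, hl⟩ := mem_closure_iff_seq_limit.1 hf
  have h1 : TendstoUniformly (fun n => (u n : ℂ → ℂ)) f atTop := tendsto_iff_tendstoUniformly.1 hl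
  exact h1.tendstoUniformlyOn.tendstoLocallyUniformlyOn.differentiableOn
    (Eventually.of_forall hu) isOpen_ball

instance : CompleteSpace HB := HB_closed.completeSpace_coe

lemma HB_deriv (f : HB) {r : ℝ} (hr : r < 1) {z : ℂ} (hz : ‖z‖ ≤ r) :
    ‖deriv (f.1 : ℂ → ℂ) z‖ ≤ ‖f‖ / (1 - r) := by
  refine norm_deriv_le_of_forall_mem_sphere_norm_le (by linarith) ⟨?_, ?_⟩ fun w _ => ?_
  · refine DifferentiableOn.mono f.2 fun w hw => ?_
    rw [mem_ball, dist_eq_norm] at hw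
    rw [mem_ball_zero_iff]
    have := norm_add_le (w - z) z
    rw [sub_add_cancel] at this
    linarith
  · exact f.1.continuous.continuousOn
  · exact f.1.norm_coe_le_norm w

lemma HB_int (f : HB) {ψ : ℂ → ℂ} (hψ : Continuous ψ) {r : ℝ} (hr : r < 1)
    (hs : ∀ z, ψ z ≠ 0 → ‖z‖ ≤ r) : Integrable (fun z => ψ z * deriv (f.1 : ℂ → ℂ) z) := by
  have hi : Integrable ψ := hψ.integrable_of_hasCompactSupport
    (HasCompactSupport.intro (isCompact_closedBall 0 r) fun x hx => by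
      by_contra h; exact hx (mem_closedBall_zero_iff.2 (hs x h)))
  refine (hi.norm.mul_const (‖f‖ / (1 - r))).mono'
    (hψ.measurable.mul (measurable_deriv _)).aestronglyMeasurable (Eventually.of_forall fun z => ?_)
  by_cases h : ψ z = 0
  · simp [h]
  · rw [norm_mul]
    exact mul_le_mul_of_nonneg_left (HB_deriv f hr (hs z h)) (norm_nonneg _)

lemma HB_at (f : HB) {r : ℝ} (hr : r < 1) {z : ℂ} (hz : ‖z‖ ≤ r) :
    DifferentiableAt ℂ (f.1 : ℂ → ℂ) z :=
  DifferentiableOn.differentiableAt f.2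
    (isOpen_ball.mem_nhds (mem_ball_zero_iff.2 (hz.trans_lt hr)))

noncomputable def Lam {ψ : ℂ → ℂ} (hψ : Continuous ψ) {r : ℝ} (hr : r < 1)
    (hs : ∀ z, ψ z ≠ 0 → ‖z‖ ≤ r) : HB →L[ℂ] ℂ :=
  LinearMap.mkContinuous
    { toFun := fun f => ∫ z, ψ z * deriv (f.1 : ℂ → ℂ) z
      map_add' := fun f g => by
        rw [← integral_add (HB_int f hψ hr hs) (HB_int g hψ hr hs)]
        congr 1; funext z
        by_cases h : ψ z = 0
        · simp [h]
        · rw [← mul_add, ← deriv_add (HB_at f hr (hs z h)) (HB_at g hr (hs z h))]; rfl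
      map_smul' := fun c f => by
        rw [RingHom.id_apply, smul_eq_mul, ← integral_const_mul]
        congr 1; funext z
        by_cases h : ψ z = 0
        · simp [h]
        · rw [mul_left_comm, ← deriv_const_mul c (HB_at f hr (hs z h))]; rfl }
    ((∫ z, ‖ψ z‖) / (1 - r)) fun f => by
      have hi : Integrable ψ := hψ.integrable_of_hasCompactSupport
        (HasCompactSupport.intro (isCompact_closedBall 0 r) fun x hx => by
          by_contra h; exact hx (mem_closedBall_zero_iff.2 (hs x h)))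
      refine (norm_integral_le_of_norm_le (hi.norm.mul_const (‖f‖ / (1 - r)))
        (Eventually.of_forall fun z => ?_)).trans (le_of_eq ?_)
      · by_cases h : ψ z = 0
        · simp [h]
        · rw [norm_mul]
          exact mul_le_mul_of_nonneg_left (HB_deriv f hr (hs z h)) (norm_nonneg _)
      · rw [integral_mul_const]; ring

theorem single : ∃ g : ℂ → ℂ, Continuous g ∧ DifferentiableOn ℂ g (ball 0 1) ∧
    (∃ M, ∀ z, ‖g z‖ ≤ M) ∧ ∀ C : ℝ, ∃ (b κ : ℂ → ℂ) (r : ℝ), r < 1 ∧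
    ContDiff ℝ (⊤ : ℕ∞) b ∧ ContDiff ℝ (⊤ : ℕ∞) κ ∧ (∀ z : ℂ, ‖z‖ ≤ 1 → ‖b z‖ ≤ 1 / 2) ∧
    (∀ z : ℂ, ‖z‖ < 1 → ‖1 - z‖ ^ 2 * (1 - ‖z‖ ^ 2) * ‖db b z‖ ^ 2 ≤ 1 / 4) ∧
    (∀ z, κ z ≠ 0 → ‖z‖ ≤ r) ∧
    C * ∫ z, ‖db κ z‖ < ‖∫ z, κ z * (starRingEnd ℂ) (deriv g z) * b z‖ := by
  choose g b κ r A hr hA hg hg2 hb hκ hb2 hb3 hs hI hm using fun n : ℕ => disc n
  have hψ : ∀ n, Continuous fun z => (starRingEnd ℂ) (κ n z * b n z) / (A n : ℂ) := fun n =>
    (continuous_conj.comp ((hκ n).continuous.mul (hb n).continuous)).div_const _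
  have hψs : ∀ n z, (starRingEnd ℂ) (κ n z * b n z) / (A n : ℂ) ≠ 0 → ‖z‖ ≤ r n :=
    fun n z h => hs n z fun h0 => h (by simp [h0])
  have key : ∀ n (f : HB), ‖Lam (hψ n) (hr n) (hψs n) f‖ =
      ‖∫ z, κ n z * (starRingEnd ℂ) (deriv (f.1 : ℂ → ℂ) z) * b n z‖ / A n := by
    intro n f
    change ‖∫ z, (starRingEnd ℂ) (κ n z * b n z) / (A n : ℂ) * deriv (f.1 : ℂ → ℂ) z‖ = _
    have : ∀ z, (starRingEnd ℂ) (κ n z * b n z) / (A n : ℂ) * deriv (f.1 : ℂ → ℂ) z =
        (starRingEnd ℂ) (κ n z * (starRingEnd ℂ) (deriv (f.1 : ℂ → ℂ) z) * b n z) / (A n : ℂ) := by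
      intro z; simp only [map_mul, conj_conj]; ring
    simp only [this]
    rw [integral_div, integral_conj, norm_div, norm_conj, norm_real, Real.norm_of_nonneg (hA n).le]
  have hex : ∃ f : HB, ∀ C, ∃ n, C < ‖Lam (hψ n) (hr n) (hψs n) f‖ := by
    by_contra hcon
    push Not at hcon
    obtain ⟨C', hC'⟩ := banach_steinhaus hcon
    obtain ⟨n, hn⟩ := exists_nat_gt (C' * 2)
    set ρ : ℂ → ℂ := fun z => z / (max 1 ‖z‖ : ℝ) with hρ
    have hρc : Continuous ρ := continuous_id.div (continuous_ofReal.comp (by fun_prop))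
      fun z => ofReal_ne_zero.2 (by positivity)
    have hρ1 : ∀ z, ‖ρ z‖ ≤ 1 := fun z => by
      rw [hρ, norm_div, norm_real, Real.norm_of_nonneg (by positivity), div_le_one (by positivity)]
      exact le_max_right _ _
    have hρ2 : ∀ z ∈ ball (0 : ℂ) 1, g n (ρ z) = g n z := fun z hz => by
      simp [hρ, max_eq_left (mem_ball_zero_iff.1 hz).le]
    let f : HB := ⟨BoundedContinuousFunction.ofNormedAddCommGroup (fun z => g n (ρ z))
      ((hg n).continuous.comp hρc) 2 fun z => hg2 n _ (hρ1 z),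
      (hg n).differentiableOn.congr hρ2⟩
    have hf : ‖f‖ ≤ 2 := (BoundedContinuousFunction.norm_le (f := f.1) (by norm_num)).2
      fun z => hg2 n _ (hρ1 z)
    have h1 := ((Lam (hψ n) (hr n) (hψs n)).le_opNorm f).trans
      (mul_le_mul (hC' n) hf (norm_nonneg _) ((norm_nonneg _).trans (hC' n)))
    have e : ∀ z, κ n z * (starRingEnd ℂ) (deriv (f.1 : ℂ → ℂ) z) * b n z =
        κ n z * (starRingEnd ℂ) (deriv (g n) z) * b n z := fun z => by
      by_cases h : κ n z = 0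
      · simp [h]
      · have : (f.1 : ℂ → ℂ) =ᶠ[𝓝 z] g n := by
          filter_upwards [isOpen_ball.mem_nhds (mem_ball_zero_iff.2 ((hs n z h).trans_lt (hr n)))]
            with w hw using hρ2 w hw
        rw [this.deriv_eq]
    rw [key, div_le_iff₀ (hA n)] at h1
    simp only [e] at h1
    nlinarith [hm n, hA n]
  obtain ⟨f, hf⟩ := hex
  refine ⟨f.1, f.1.continuous, f.2, ⟨_, f.1.norm_coe_le_norm⟩, fun C => ?_⟩
  obtain ⟨n, hn⟩ := hf |C|
  refine ⟨b n, κ n, r n, hr n, hb n, hκ n, hb2 n, hb3 n, hs n, ?_⟩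
  rw [key, lt_div_iff₀ (hA n)] at hn
  refine lt_of_le_of_lt ?_ hn
  exact mul_le_mul (le_abs_self C) (hI n) (integral_nonneg fun z => norm_nonneg _) (abs_nonneg C)

end Pool.Agent.H97.RS
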