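import Pool.Agent.H97.RS2

/-! Failure of uniform estimates on a bounded image of the ball. -/

set_option autoImplicit false
open Complex Metric Set Filter Topology MeasureTheory

namespace Pool.Agent.H97.RS

noncomputable def dbar (φ : ℂ × ℂ → ℂ) (v p : ℂ × ℂ) : ℂ :=
  (fderiv ℝ φ p v + I * fderiv ℝ φ p (I • v)) / 2

def Test (Ω : Set (ℂ × ℂ)) (φ : ℂ × ℂ → ℂ) : Prop :=
  ContDiff ℝ (⊤ : ℕ∞) φ ∧ HasCompactSupport φ ∧ tsupport φ ⊆ Ω

lemma dbar_mul {f g : ℂ × ℂ → ℂ} {p : ℂ × ℂ} (hf : DifferentiableAt ℝ f p)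
    (hg : DifferentiableAt ℝ g p) (v : ℂ × ℂ) :
    dbar (fun q => f q * g q) v p = dbar f v p * g p + f p * dbar g v p := by
  unfold dbar
  rw [fderiv_fun_mul hf hg]
  simp only [add_apply, smul_apply, smul_eq_mul]
  ring

lemma dbar_out {φ : ℂ × ℂ → ℂ} {p : ℂ × ℂ} (h : p ∉ tsupport φ) (v : ℂ × ℂ) : dbar φ v p = 0 := by
  unfold dbar
  rw [(notMem_tsupport_iff_eventuallyEq.1 h).fderiv_eq]
  simp

lemma fd_int {φ : ℂ × ℂ → ℂ} (h : ContDiff ℝ (⊤ : ℕ∞) φ) (hc : HasCompactSupport φ) (v : ℂ × ℂ) :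
    Integrable (fun p => fderiv ℝ φ p v) ∧ ∫ p, fderiv ℝ φ p v = 0 := by
  have h1 : Integrable (fun p => fderiv ℝ φ p v) :=
    ((h.continuous_fderiv (by simp)).clm_apply continuous_const).integrable_of_hasCompactSupport
      (hc.fderiv_apply ℝ v)
  refine ⟨h1, ?_⟩
  have : (volume : Measure (ℂ × ℂ)).IsAddHaarMeasure := by
    rw [Measure.volume_eq_prod]; infer_instance
  have := integral_mul_fderiv_eq_neg_fderiv_mul_of_integrable (μ := volume)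
    (f := fun _ : ℂ × ℂ => (1 : ℂ)) (g := φ) (v := v) (by simp) (by simpa using h1)
    (by simpa using h.continuous.integrable_of_hasCompactSupport hc)
    (fun _ _ => differentiableAt_const _) (fun x _ => h.differentiable (by simp) x)
  simpa using this

lemma dbar_int {Ω : Set (ℂ × ℂ)} {φ : ℂ × ℂ → ℂ} (h : Test Ω φ) (v : ℂ × ℂ) :
    Integrable (dbar φ v) ∧ ∫ p in Ω, dbar φ v p = 0 := by
  have h1 := fd_int h.1 h.2.1 v
  have h2 := fd_int h.1 h.2.1 (I • v)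
  refine ⟨(h1.1.add (h2.1.const_mul I)).div_const 2, ?_⟩
  rw [setIntegral_eq_integral_of_forall_compl_eq_zero fun p hp => dbar_out (fun h' => hp (h.2.2 h')) v]
  unfold dbar
  rw [integral_div, integral_add h1.1 (h2.1.const_mul I), integral_const_mul, h1.2, h2.2]
  simp

lemma test_of {Ω K : Set (ℂ × ℂ)} (hΩ : IsOpen Ω) (hK : IsCompact K) (hKΩ : K ⊆ Ω)
    {φ : ℂ × ℂ → ℂ} (h : ContDiffOn ℝ (⊤ : ℕ∞) φ Ω) (h0 : ∀ p ∉ K, φ p = 0) : Test Ω φ := by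
  have hs : tsupport φ ⊆ K :=
    closure_minimal (fun p hp => by by_contra h'; exact hp (h0 p h')) hK.isClosed
  refine ⟨contDiff_iff_contDiffAt.2 fun p => ?_, HasCompactSupport.intro hK h0, hs.trans hKΩ⟩
  by_cases hp : p ∈ Ω
  · exact h.contDiffAt (hΩ.mem_nhds hp)
  · exact contDiffAt_const.congr_of_eventuallyEq
      (notMem_tsupport_iff_eventuallyEq.1 fun h' => hp (hKΩ (hs h')))

lemma test_mul {Ω : Set (ℂ × ℂ)} (hΩ : IsOpen Ω) {f φ : ℂ × ℂ → ℂ}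
    (hf : ContDiffOn ℝ (⊤ : ℕ∞) f Ω) (h : Test Ω φ) : Test Ω fun p => f p * φ p :=
  test_of hΩ h.2.1 h.2.2 (hf.mul h.1.contDiffOn) fun p hp => by
    rw [image_eq_zero_of_notMem_tsupport hp, mul_zero]

lemma closed_of {Ω : Set (ℂ × ℂ)} (hΩ : IsOpen Ω) {f1 f2 φ : ℂ × ℂ → ℂ}
    (h1 : ContDiffOn ℝ (⊤ : ℕ∞) f1 Ω) (h2 : ContDiffOn ℝ (⊤ : ℕ∞) f2 Ω)
    (hc : ∀ p ∈ Ω, dbar f1 (0, 1) p = dbar f2 (1, 0) p) (h : Test Ω φ)
    (i1 : IntegrableOn (fun p => f1 p * dbar φ (0, 1) p) Ω)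
    (i2 : IntegrableOn (fun p => f2 p * dbar φ (1, 0) p) Ω) :
    ∫ p in Ω, f1 p * dbar φ (0, 1) p = ∫ p in Ω, f2 p * dbar φ (1, 0) p := by
  have t1 := dbar_int (test_mul hΩ h1 h) (0, 1)
  have t2 := dbar_int (test_mul hΩ h2 h) (1, 0)
  have e := integral_sub (t1.1.integrableOn (s := Ω)) (t2.1.integrableOn (s := Ω))
  rw [t1.2, t2.2, sub_self] at e
  rw [← sub_eq_zero, ← integral_sub i1 i2]
  refine Eq.trans ?_ e
  refine setIntegral_congr_fun hΩ.measurableSet fun p hp => ?_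
  have d := h.1.differentiable (by simp) p
  rw [dbar_mul ((h1.contDiffAt (hΩ.mem_nhds hp)).differentiableAt (by simp)) d,
    dbar_mul ((h2.contDiffAt (hΩ.mem_nhds hp)).differentiableAt (by simp)) d, hc p hp]
  ring

lemma lin_conj (L : ℂ →L[ℝ] ℂ) (c : ℂ) :
    L c + I * L (I * c) = (starRingEnd ℂ) c * (L 1 + I * L I) := by
  have e1 : c = c.re • (1 : ℂ) + c.im • I := by simp
  have e2 : I * c = (-c.im) • (1 : ℂ) + c.re • I := by apply Complex.ext <;> simp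
  have e3 : (starRingEnd ℂ) c = c.re - c.im * I := by apply Complex.ext <;> simp
  rw [e2, e3]
  nth_rewrite 1 [e1]
  simp only [map_add, map_smul]
  simp only [real_smul, ofReal_neg]
  linear_combination (c.im * L I : ℂ) * I_mul_I

lemma dbar_fst {a : ℂ → ℂ} {p : ℂ × ℂ} (ha : DifferentiableAt ℝ a p.1) :
    dbar (fun q => a q.1) (1, 0) p = db a p.1 ∧ dbar (fun q => a q.1) (0, 1) p = 0 := by
  have h := (ha.hasFDerivAt.comp p hasFDerivAt_fst).fderiv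
  unfold dbar db
  erw [h]
  simp

lemma dbar_eta {ρ g : ℂ → ℂ} {p : ℂ × ℂ} (hρ : Differentiable ℝ ρ) (hg : DifferentiableAt ℂ g p.1) :
    dbar (fun q => ρ (q.2 - g q.1)) (1, 0) p =
      -(starRingEnd ℂ) (deriv g p.1) * db ρ (p.2 - g p.1) ∧
    dbar (fun q => ρ (q.2 - g q.1)) (0, 1) p = db ρ (p.2 - g p.1) := by
  have h1 := (hg.hasDerivAt.hasFDerivAt.restrictScalars ℝ).comp p hasFDerivAt_fst
  have h := ((hρ (p.2 - g p.1)).hasFDerivAt.comp p (hasFDerivAt_snd.sub h1)).fderiv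
  unfold dbar db
  erw [h]
  have := lin_conj (fderiv ℝ ρ (p.2 - g p.1)) (deriv g p.1)
  constructor
  · simp
    linear_combination -this / 2
  · simp

lemma db_conj (z : ℂ) : db (starRingEnd ℂ) z = 1 := by
  have h : fderiv ℝ (starRingEnd ℂ) z = conjCLE.toContinuousLinearMap := conjCLE.hasFDerivAt.fderiv
  unfold db
  rw [h]
  simp

lemma shear {g : ℂ → ℂ} (hg : Continuous g) :
    MeasurePreserving (fun p : ℂ × ℂ => (p.1, p.2 - g p.1)) volume volume ∧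
    MeasurableEmbedding (fun p : ℂ × ℂ => (p.1, p.2 - g p.1)) := by
  constructor
  · exact (MeasurePreserving.id volume).skew_product (g := fun z w => w - g z)
      (by unfold Function.uncurry; fun_prop)
      (Eventually.of_forall fun z => (measurePreserving_sub_right volume (g z)).map_eq)
  · let T : (ℂ × ℂ) ≃ₜ (ℂ × ℂ) := ⟨⟨fun p => (p.1, p.2 - g p.1), fun p => (p.1, p.2 + g p.1),
      fun p => by simp, fun p => by simp⟩, by fun_prop, by fun_prop⟩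
    exact T.measurableEmbedding

lemma fub {L : Type*} [RCLike L] {g : ℂ → ℂ} (hg : Continuous g) (a r : ℂ → L) :
    ∫ p : ℂ × ℂ, a p.1 * r (p.2 - g p.1) = (∫ z, a z) * ∫ w, r w := by
  rw [← integral_prod_mul, ← Measure.volume_eq_prod]
  exact (shear hg).1.integral_comp (shear hg).2 fun p => a p.1 * r p.2

lemma fub_int {g : ℂ → ℂ} (hg : Continuous g) {a r : ℂ → ℝ} (ha : Integrable a)
    (hr : Integrable r) : Integrable fun p : ℂ × ℂ => a p.1 * r (p.2 - g p.1) := by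
  have := ha.mul_prod hr
  rw [← Measure.volume_eq_prod] at this
  exact ((shear hg).1.integrable_comp_emb (shear hg).2).2 this


def Om (g : ℂ → ℂ) : Set (ℂ × ℂ) :=
  {p | ‖p.1‖ < 1 ∧ ‖p.2 - g p.1‖ ^ 2 < ‖1 - p.1‖ ^ 2 * (1 - ‖p.1‖ ^ 2)}

lemma Om_open {g : ℂ → ℂ} (hg : Continuous g) : IsOpen (Om g) :=
  (isOpen_lt (f := fun p : ℂ × ℂ => ‖p.1‖) (by fun_prop) continuous_const).inter
    (isOpen_lt (f := fun p : ℂ × ℂ => ‖p.2 - g p.1‖ ^ 2)
      (g := fun p : ℂ × ℂ => ‖1 - p.1‖ ^ 2 * (1 - ‖p.1‖ ^ 2)) (by fun_prop) (by fun_prop))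

lemma Om_bdd {g : ℂ → ℂ} {M : ℝ} (hM : ∀ z, ‖g z‖ ≤ M) : Bornology.IsBounded (Om g) := by
  refine (isBounded_closedBall (x := (0 : ℂ × ℂ)) (r := max 1 (2 + M))).subset fun p hp => ?_
  rw [mem_closedBall_zero_iff, Prod.norm_def]
  refine max_le_max hp.1.le ?_
  have h1 : ‖1 - p.1‖ ≤ 2 := (norm_sub_le _ _).trans (by rw [norm_one]; linarith [hp.1])
  have h2 : ‖p.2 - g p.1‖ ^ 2 ≤ 2 ^ 2 := by
    have : ‖1 - p.1‖ ^ 2 ≤ 2 ^ 2 := by gcongr
    nlinarith [hp.2, sq_nonneg ‖p.1‖, sq_nonneg ‖1 - p.1‖, mul_nonneg (sq_nonneg ‖p.1‖)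
      (sq_nonneg ‖1 - p.1‖)]
  have h3 := (pow_le_pow_iff_left₀ (norm_nonneg _) (by norm_num) two_ne_zero).1 h2
  have h4 := norm_add_le (p.2 - g p.1) (g p.1)
  rw [sub_add_cancel] at h4
  linarith [hM p.1]

lemma Om_bihol {g : ℂ → ℂ} (hg : DifferentiableOn ℂ g (ball 0 1)) :
    ∃ F G : ℂ × ℂ → ℂ × ℂ, DifferentiableOn ℂ F {p | ‖p.1‖ ^ 2 + ‖p.2‖ ^ 2 < 1} ∧
      DifferentiableOn ℂ G (Om g) ∧ MapsTo F {p | ‖p.1‖ ^ 2 + ‖p.2‖ ^ 2 < 1} (Om g) ∧
      MapsTo G (Om g) {p | ‖p.1‖ ^ 2 + ‖p.2‖ ^ 2 < 1} ∧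
      InvOn G F {p | ‖p.1‖ ^ 2 + ‖p.2‖ ^ 2 < 1} (Om g) := by
  have h1 : ∀ p : ℂ × ℂ, ‖p.1‖ ^ 2 + ‖p.2‖ ^ 2 < 1 → ‖p.1‖ < 1 := fun p hp => by
    nlinarith [norm_nonneg p.1, sq_nonneg ‖p.2‖]
  have h2 : ∀ z : ℂ, ‖z‖ < 1 → 1 - z ≠ 0 := fun z hz h => by
    rw [← sub_eq_zero.1 h] at hz; simp at hz
  have h3 : ∀ p : ℂ × ℂ, ‖p.1‖ < 1 → DifferentiableAt ℂ (fun q : ℂ × ℂ => g q.1) p := fun p hp =>
    (hg.differentiableAt (isOpen_ball.mem_nhds (mem_ball_zero_iff.2 hp))).comp p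
      differentiableAt_fst
  refine ⟨fun p => (p.1, p.2 * (1 - p.1) + g p.1), fun p => (p.1, (p.2 - g p.1) / (1 - p.1)),
    fun p hp => ?_, fun p hp => ?_, fun p hp => ⟨h1 p hp, ?_⟩, fun p hp => ?_, fun p hp => ?_,
    fun p hp => ?_⟩
  · exact (differentiableAt_fst.prodMk ((differentiableAt_snd.mul
      (differentiableAt_fst.const_sub 1)).add (h3 p (h1 p hp)))).differentiableWithinAt
  · have a1 : DifferentiableAt ℂ (fun q : ℂ × ℂ => (1 - q.1)⁻¹) p :=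
      (differentiableAt_fst.const_sub 1).inv (h2 _ hp.1)
    simp only [div_eq_mul_inv]
    exact (differentiableAt_fst.prodMk ((differentiableAt_snd.sub (h3 p hp.1)).mul
      a1)).differentiableWithinAt
  · simp only [add_sub_cancel_right, norm_mul, mul_pow]
    have : 0 < ‖1 - p.1‖ ^ 2 := pow_pos (norm_pos_iff.2 (h2 _ (h1 p hp))) 2
    have hp' : ‖p.2‖ ^ 2 < 1 - ‖p.1‖ ^ 2 := by have : ‖p.1‖ ^ 2 + ‖p.2‖ ^ 2 < 1 := hp; linarith
    nlinarith
  · have : 0 < ‖1 - p.1‖ ^ 2 := pow_pos (norm_pos_iff.2 (h2 _ hp.1)) 2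
    simp only [mem_ofPred_eq, norm_div, div_pow]
    have := (div_lt_iff₀' this).2 hp.2
    linarith
  · have := h2 _ (h1 p hp)
    ext
    · rfl
    · simp only [add_sub_cancel_right]; field_simp
  · have := h2 _ hp.1
    ext
    · rfl
    · simp only; field_simp; ring

theorem fail {g b κ : ℂ → ℂ} {r C : ℝ} (hgc : Continuous g) (hg : DifferentiableOn ℂ g (ball 0 1))
    (hr : r < 1) (hb : ContDiff ℝ (⊤ : ℕ∞) b) (hκ : ContDiff ℝ (⊤ : ℕ∞) κ)
    (hs : ∀ z, κ z ≠ 0 → ‖z‖ ≤ r) (hC : 0 ≤ C) {u : ℂ × ℂ → ℂ}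
    (hu : AEStronglyMeasurable u (volume.restrict (Om g)))
    (huC : ∀ᵐ p ∂volume.restrict (Om g), ‖u p‖ ≤ C)
    (h1 : ∀ φ, Test (Om g) φ → ∫ p in Om g, u p * dbar φ (1, 0) p =
      -∫ p in Om g, (starRingEnd ℂ) (p.2 - g p.1) * db b p.1 * φ p)
    (h2 : ∀ φ, Test (Om g) φ → ∫ p in Om g, u p * dbar φ (0, 1) p = -∫ p in Om g, b p.1 * φ p) :
    ‖∫ z, κ z * (starRingEnd ℂ) (deriv g z) * b z‖ ≤ C * ∫ z, ‖db κ z‖ := by
  have hΩ := Om_open hgc
  obtain ⟨δ, hδ, hδ'⟩ : ∃ δ > 0, ∀ z : ℂ, ‖z‖ ≤ r → δ ^ 2 < ‖1 - z‖ ^ 2 * (1 - ‖z‖ ^ 2) := by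
    refine ⟨(1 - r) ^ 2 / 2, by have : 0 < 1 - r := by linarith
                                positivity, fun z hz => ?_⟩
    have a1 : 1 - r ≤ ‖1 - z‖ := by
      have := norm_sub_norm_le (1 : ℂ) z
      rw [norm_one] at this; linarith
    have a0 : 0 < 1 - r := by linarith
    have a4 : 1 - r ≤ 1 := by linarith [norm_nonneg z]
    have a2 : 1 - r ≤ 1 - ‖z‖ ^ 2 := by nlinarith [norm_nonneg z]
    have a3 : (1 - r) ^ 2 * (1 - r) ≤ ‖1 - z‖ ^ 2 * (1 - ‖z‖ ^ 2) := by gcongr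
    have a5 : 0 < (1 - r) ^ 3 := by positivity
    nlinarith
  let β : ContDiffBump (0 : ℂ) := ⟨δ / 2, δ, by positivity, by linarith⟩
  set ρ : ℂ → ℂ := fun w => (β.normed volume w : ℂ) with hρ
  have hρs : ContDiff ℝ (⊤ : ℕ∞) ρ := ofRealCLM.contDiff.comp β.contDiff_normed
  set K := (fun q : ℂ × ℂ => (q.1, q.2 + g q.1)) '' (closedBall 0 r ×ˢ closedBall 0 δ) with hK
  have hKc : IsCompact K :=
    ((isCompact_closedBall _ _).prod (isCompact_closedBall _ _)).image (by fun_prop)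
  have hKΩ : K ⊆ Om g := by
    rintro _ ⟨q, ⟨q1, q2⟩, rfl⟩
    rw [mem_closedBall_zero_iff] at q1 q2
    refine ⟨q1.trans_lt hr, ?_⟩
    simp only [add_sub_cancel_right]
    exact lt_of_le_of_lt (by gcongr) (hδ' _ q1)
  have hD : ∀ p ∈ Om g, ball (0 : ℂ) 1 ∈ 𝓝 p.1 := fun p hp =>
    isOpen_ball.mem_nhds (mem_ball_zero_iff.2 hp.1)
  have hsm : ∀ {a : ℂ → ℂ}, DifferentiableOn ℂ a (ball 0 1) →
      ContDiffOn ℝ (⊤ : ℕ∞) (fun p : ℂ × ℂ => a p.1) (Om g) := fun ha =>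
    ((ha.contDiffOn isOpen_ball).restrict_scalars ℝ).comp contDiffOn_fst
      fun p hp => mem_ball_zero_iff.2 hp.1
  set φ : ℂ × ℂ → ℂ := fun p => κ p.1 * ρ (p.2 - g p.1) with hφ
  have hφ0 : ∀ p ∉ K, φ p = 0 := fun p hp => by
    by_contra h
    refine hp ⟨(p.1, p.2 - g p.1), ⟨mem_closedBall_zero_iff.2 (hs _ (left_ne_zero_of_mul h)), ?_⟩,
      by simp⟩
    have : p.2 - g p.1 ∈ Function.support (β.normed volume) := fun h0 =>
      right_ne_zero_of_mul h (by simp [hρ, h0])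
    rw [β.support_normed_eq] at this
    exact ball_subset_closedBall this
  have tφ : Test (Om g) φ := test_of hΩ hKc hKΩ ((hκ.comp contDiff_fst).contDiffOn.mul
    (hρs.comp_contDiffOn (contDiffOn_snd.sub (hsm hg)))) hφ0
  have hcs : ContDiffOn ℝ (⊤ : ℕ∞) (fun p : ℂ × ℂ => (starRingEnd ℂ) (deriv g p.1)) (Om g) :=
    conjCLE.contDiff.comp_contDiffOn (hsm (hg.deriv isOpen_ball))
  have tψ := test_mul hΩ hcs tφ
  have e1 := h1 φ tφ
  have e2 := h2 _ tψ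
  have hout : ∀ p ∉ Om g, φ p = 0 := fun p hp => hφ0 p fun h => hp (hKΩ h)
  rw [setIntegral_eq_integral_of_forall_compl_eq_zero (μ := volume) (s := Om g)
    (f := fun p => (starRingEnd ℂ) (p.2 - g p.1) * db b p.1 * φ p)
    fun p hp => by simp only [hout p hp, mul_zero]] at e1
  rw [setIntegral_eq_integral_of_forall_compl_eq_zero (μ := volume) (s := Om g)
    (f := fun p => b p.1 * ((starRingEnd ℂ) (deriv g p.1) * φ p))
    fun p hp => by simp only [hout p hp, mul_zero]] at e2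
  have f1 := fub hgc (fun z => db b z * κ z) (fun w => (starRingEnd ℂ) w * ρ w)
  have f2 := fub hgc (fun z => κ z * (starRingEnd ℂ) (deriv g z) * b z) ρ
  have r1 : ∫ w, (starRingEnd ℂ) w * ρ w = 0 := by
    have := integral_neg_eq_self (fun w => (starRingEnd ℂ) w * ρ w) volume
    simp only [hρ, map_neg, β.normed_neg, neg_mul, integral_neg] at this
    linear_combination -this / 2
  have r2 : ∫ w, ρ w = 1 := by
    rw [hρ, integral_complex_ofReal, β.integral_normed, ofReal_one]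
  rw [r1, mul_zero] at f1
  rw [r2, mul_one] at f2
  have g1 : (fun p : ℂ × ℂ => (starRingEnd ℂ) (p.2 - g p.1) * db b p.1 * φ p) = fun p =>
      db b p.1 * κ p.1 * ((starRingEnd ℂ) (p.2 - g p.1) * ρ (p.2 - g p.1)) := by
    funext p; simp only [hφ]; ring
  have g2 : (fun p : ℂ × ℂ => b p.1 * ((starRingEnd ℂ) (deriv g p.1) * φ p)) = fun p =>
      κ p.1 * (starRingEnd ℂ) (deriv g p.1) * b p.1 * ρ (p.2 - g p.1) := by
    funext p; simp only [hφ]; ring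
  rw [g1, f1, neg_zero] at e1
  rw [g2, f2] at e2
  have i1 := (dbar_int tφ (1, 0)).1.integrableOn.bdd_mul hu huC
  have i2 := (dbar_int tψ (0, 1)).1.integrableOn.bdd_mul hu huC
  have e3 := integral_add i1 i2
  rw [e1, e2, zero_add] at e3
  have e4 : ∀ p ∈ Om g, u p * dbar φ (1, 0) p +
      u p * dbar (fun p => (starRingEnd ℂ) (deriv g p.1) * φ p) (0, 1) p =
      u p * (db κ p.1 * ρ (p.2 - g p.1)) := fun p hp => by
    have dg := hg.differentiableAt (hD p hp)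
    have dκ := hκ.differentiable (by simp) p.1
    have dρ := hρs.differentiable (by simp)
    have dη : DifferentiableAt ℝ (fun q : ℂ × ℂ => ρ (q.2 - g q.1)) p :=
      (dρ _).comp p (differentiableAt_snd.sub ((dg.restrictScalars ℝ).comp p differentiableAt_fst))
    have dc : DifferentiableAt ℝ (fun z => (starRingEnd ℂ) (deriv g z)) p.1 :=
      conjCLE.differentiableAt.comp p.1
        (((hg.deriv isOpen_ball).differentiableAt (hD p hp)).restrictScalars ℝ)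
    rw [dbar_mul (f := fun p => (starRingEnd ℂ) (deriv g p.1)) (dc.comp p differentiableAt_fst)
      (tφ.1.differentiable (by simp) p), (dbar_fst dc).2, hφ,
      dbar_mul (f := fun p => κ p.1) (dκ.comp p differentiableAt_fst) dη,
      dbar_mul (f := fun p => κ p.1) (dκ.comp p differentiableAt_fst) dη, (dbar_fst dκ).1,
      (dbar_fst dκ).2, (dbar_eta dρ dg).1, (dbar_eta dρ dg).2]
    ring
  rw [setIntegral_congr_fun hΩ.measurableSet e4] at e3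
  rw [← norm_neg, ← e3]
  have hκi : Integrable fun z => ‖db κ z‖ := by
    refine ((db_smooth hκ).continuous.integrable_of_hasCompactSupport
      (HasCompactSupport.intro (isCompact_closedBall 0 r) fun z hz => db_zero ?_)).norm
    filter_upwards [isClosed_closedBall.isOpen_compl.mem_nhds hz] with w hw
    by_contra h
    exact hw (mem_closedBall_zero_iff.2 (hs w h))
  have j := fub_int hgc hκi (β.integrable_normed (μ := volume))
  calc _ ≤ ∫ p in Om g, C * (‖db κ p.1‖ * β.normed volume (p.2 - g p.1)) := by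
        refine norm_integral_le_of_norm_le (j.const_mul C).integrableOn ?_
        filter_upwards [huC] with p hp
        rw [norm_mul, norm_mul, hρ, norm_real, Real.norm_of_nonneg (β.nonneg_normed _)]
        exact mul_le_mul_of_nonneg_right hp (mul_nonneg (norm_nonneg _) (β.nonneg_normed _))
    _ ≤ ∫ p : ℂ × ℂ, C * (‖db κ p.1‖ * β.normed volume (p.2 - g p.1)) :=
        setIntegral_le_integral (j.const_mul C) (Eventually.of_forall fun p =>
          mul_nonneg hC (mul_nonneg (norm_nonneg _) (β.nonneg_normed _)))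
    _ = _ := by
        rw [integral_const_mul, fub hgc (fun z => ‖db κ z‖) (β.normed volume), β.integral_normed,
          mul_one]


theorem main : ∃ Ω : Set (ℂ × ℂ), IsOpen Ω ∧ Bornology.IsBounded Ω ∧
    (∃ F G : ℂ × ℂ → ℂ × ℂ, DifferentiableOn ℂ F {p | ‖p.1‖ ^ 2 + ‖p.2‖ ^ 2 < 1} ∧
      DifferentiableOn ℂ G Ω ∧ MapsTo F {p | ‖p.1‖ ^ 2 + ‖p.2‖ ^ 2 < 1} Ω ∧
      MapsTo G Ω {p | ‖p.1‖ ^ 2 + ‖p.2‖ ^ 2 < 1} ∧
      InvOn G F {p | ‖p.1‖ ^ 2 + ‖p.2‖ ^ 2 < 1} Ω) ∧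
    ∀ C : ℝ, ∃ f1 f2 : ℂ × ℂ → ℂ, ContDiffOn ℝ (⊤ : ℕ∞) f1 Ω ∧ ContDiffOn ℝ (⊤ : ℕ∞) f2 Ω ∧
      (∀ p ∈ Ω, ‖f1 p‖ ^ 2 + ‖f2 p‖ ^ 2 ≤ 1) ∧
      (∀ φ, Test Ω φ → ∫ p in Ω, f1 p * dbar φ (0, 1) p = ∫ p in Ω, f2 p * dbar φ (1, 0) p) ∧
      ∀ u : ℂ × ℂ → ℂ, AEStronglyMeasurable u (volume.restrict Ω) →
        (∀ φ, Test Ω φ → ∫ p in Ω, u p * dbar φ (1, 0) p = -∫ p in Ω, f1 p * φ p) →
        (∀ φ, Test Ω φ → ∫ p in Ω, u p * dbar φ (0, 1) p = -∫ p in Ω, f2 p * φ p) →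
        ¬ ∀ᵐ p ∂volume.restrict Ω, ‖u p‖ ≤ C := by
  obtain ⟨g, hgc, hg, ⟨M, hM⟩, H⟩ := single
  have hΩ := Om_open hgc
  refine ⟨Om g, hΩ, Om_bdd hM, Om_bihol hg, fun C => ?_⟩
  obtain ⟨b, κ, r, hr, hb, hκ, hb2, hb3, hs, hm⟩ := H |C|
  have s1 : ContDiffOn ℝ (⊤ : ℕ∞)
      (fun p : ℂ × ℂ => (starRingEnd ℂ) (p.2 - g p.1) * db b p.1) (Om g) :=
    (conjCLE.contDiff.comp_contDiffOn (contDiffOn_snd.sub
      (((hg.contDiffOn isOpen_ball).restrict_scalars ℝ).comp contDiffOn_fst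
      fun p hp => mem_ball_zero_iff.2 hp.1))).mul ((db_smooth hb).comp contDiff_fst).contDiffOn
  have s2 : ContDiffOn ℝ (⊤ : ℕ∞) (fun p : ℂ × ℂ => b p.1) (Om g) :=
    (hb.comp contDiff_fst).contDiffOn
  have b1 : ∀ p ∈ Om g, ‖(starRingEnd ℂ) (p.2 - g p.1) * db b p.1‖ ^ 2 ≤ 1 / 4 := fun p hp => by
    rw [norm_mul, norm_conj, mul_pow]
    exact (mul_le_mul_of_nonneg_right hp.2.le (sq_nonneg _)).trans (hb3 _ hp.1)
  have bd : ∀ {f : ℂ × ℂ → ℂ}, ContDiffOn ℝ (⊤ : ℕ∞) f (Om g) → (∀ p ∈ Om g, ‖f p‖ ≤ 1 / 2) →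
      ∀ φ v, Test (Om g) φ → IntegrableOn (fun p => f p * dbar φ v p) (Om g) :=
    fun hf hf2 φ v hφ => (dbar_int hφ v).1.integrableOn.bdd_mul
      (hf.continuousOn.aestronglyMeasurable hΩ.measurableSet)
      (ae_restrict_of_forall_mem hΩ.measurableSet hf2)
  refine ⟨_, _, s1, s2, fun p hp => ?_, fun φ hφ => closed_of hΩ s1 s2 (fun p hp => ?_) hφ
    (bd s1 (fun p hp => ?_) φ _ hφ) (bd s2 (fun p hp => hb2 _ hp.1.le) φ _ hφ),
    fun u hu h1 h2 huC => ?_⟩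
  · have := pow_le_pow_left₀ (norm_nonneg _) (hb2 _ hp.1.le) 2
    linarith [b1 p hp]
  · have dg := hg.differentiableAt (isOpen_ball.mem_nhds (mem_ball_zero_iff.2 hp.1))
    have dc : Differentiable ℝ (starRingEnd ℂ) := conjCLE.differentiable
    have dd := (db_smooth hb).differentiable (by simp) p.1
    rw [dbar_mul (f := fun p : ℂ × ℂ => (starRingEnd ℂ) (p.2 - g p.1)) (g := fun p => db b p.1)
      ((dc _).comp p (differentiableAt_snd.sub ((dg.restrictScalars ℝ).comp p differentiableAt_fst)))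
      (dd.comp p differentiableAt_fst), (dbar_eta dc dg).2, (dbar_fst dd).2,
      (dbar_fst (hb.differentiable (by simp) p.1)).1, db_conj]
    ring
  · exact (pow_le_pow_iff_left₀ (norm_nonneg _) (by norm_num) two_ne_zero).1
      ((b1 p hp).trans (by norm_num))
  · exact absurd (fail hgc hg hr hb hκ hs (abs_nonneg C) hu
      (huC.mono fun p hp => hp.trans (le_abs_self C)) h1 h2) (not_le.2 hm)

end Pool.Agent.H97.RS
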