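import Pool.Agent.H97.Levi

set_option autoImplicit false

namespace Pool.Agent.H97.Rossi

open Filter Topology Set Complex Metric Pool.Agent.H97.Levi
open scoped ContDiff

noncomputable def β (x : ℝ) : ℝ := Real.smoothTransition ((x - 1) / 3)
noncomputable def q (x : ℝ) : ℝ := β x / x
noncomputable def H (x : ℝ) : ℝ := ∫ y in (1 : ℝ)..x, q y

lemma β_smooth : ContDiff ℝ ∞ β := Real.smoothTransition.contDiff.comp (by fun_prop)

lemma β_zero {x : ℝ} (h : x ≤ 1) : β x = 0 := Real.smoothTransition.zero_of_nonpos (by linarith)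

lemma β_one {x : ℝ} (h : 4 ≤ x) : β x = 1 := Real.smoothTransition.one_of_one_le (by linarith)

lemma β_mono : Monotone β := fun _ _ h => Real.smoothTransition.monotone (by linarith)

lemma q_smooth : ContDiff ℝ ∞ q := by
  refine contDiff_iff_contDiffAt.mpr fun x => ?_
  by_cases hx : x = 0
  · refine (contDiffAt_const (c := (0 : ℝ))).congr_of_eventuallyEq ?_
    filter_upwards [Iio_mem_nhds (show x < 1 by rw [hx]; norm_num)] with y hy
    simp [q, β_zero (le_of_lt hy)]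
  · exact β_smooth.contDiffAt.div contDiffAt_id hx

lemma H_deriv (x : ℝ) : HasDerivAt H (q x) x :=
  (q_smooth.continuous.integral_hasStrictDerivAt 1 x).hasDerivAt

lemma H_smooth : ContDiff ℝ ∞ H := by
  rw [contDiff_infty_iff_deriv]
  refine ⟨fun x => (H_deriv x).differentiableAt, ?_⟩
  rw [show deriv H = q from funext fun x => (H_deriv x).deriv]
  exact q_smooth

lemma q_deriv (x : ℝ) : q x + x * deriv q x = deriv β x := by
  have h1 : β = fun x => x * q x := by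
    funext y
    by_cases hy : y = 0
    · simp [hy, β_zero]
    · unfold q; field_simp
  have h2 := (hasDerivAt_id' x).mul (q_smooth.differentiable (by simp) x).hasDerivAt
  rw [h1]
  exact (h2.deriv.trans (by ring)).symm

lemma dβ_zero {x : ℝ} (h : x < 1 ∨ 4 < x) : deriv β x = 0 := by
  rcases h with h | h
  · rw [Filter.EventuallyEq.deriv_eq (f := fun _ => 0), deriv_const]
    filter_upwards [Iio_mem_nhds h] with y hy using β_zero (le_of_lt hy)
  · rw [Filter.EventuallyEq.deriv_eq (f := fun _ => 1), deriv_const]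
    filter_upwards [Ioi_mem_nhds h] with y hy using β_one (le_of_lt hy)

lemma H_zero {x : ℝ} (h : x ≤ 1) : H x = 0 := by
  unfold H
  rw [intervalIntegral.integral_congr (g := fun _ => 0), intervalIntegral.integral_zero]
  intro y hy
  rw [uIcc_of_ge h] at hy
  simp [q, β_zero hy.2]

lemma H_pos {x : ℝ} (h : 1 < x) : 0 < H x :=
  intervalIntegral.intervalIntegral_pos_of_pos_on (q_smooth.continuous.intervalIntegrable _ _)
    (fun y hy => div_pos (Real.smoothTransition.pos_of_pos (by linarith [hy.1]))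
      (by linarith [hy.1])) h

lemma H_nonneg (x : ℝ) : 0 ≤ H x := by
  rcases le_or_gt x 1 with h | h
  · rw [H_zero h]
  · exact (H_pos h).le

/-- The key one-variable lemma. -/
lemma square_lemma {l : ℂ → ℂ} (hl : DifferentiableOn ℂ l (ball 0 1)) (h0 : l 0 = 0)
    (h : ∀ K : ℕ, ∃ k : ℕ, K ≤ k ∧ ∃ F e : ℂ → ℂ, DifferentiableOn ℂ F (ball 0 1) ∧
      DifferentiableOn ℂ e (ball 0 1) ∧ (∀ t ∈ ball (0 : ℂ) 1, ‖e t‖ ≤ 1 / ((k : ℝ) + 4) ^ 3) ∧
      ∀ t ∈ ball (0 : ℂ) 1, F t ^ 2 = l t + (1 / ((k : ℂ) + 4)) ^ 2 + e t) :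
    ∀ t ∈ ball (0 : ℂ) 1, l t = 0 := by
  have han := hl.analyticOnNhd isOpen_ball
  have hb : ball (0 : ℂ) 1 ∈ 𝓝 (0 : ℂ) := ball_mem_nhds _ one_pos
  have ha0 := han 0 (mem_ball_self one_pos)
  by_contra hne
  have hne' : ¬ ∀ᶠ t in 𝓝 (0 : ℂ), l t = 0 := fun hz => hne fun t ht =>
    han.eqOn_zero_of_preconnected_of_eventuallyEq_zero (convex_ball 0 1).isPreconnected
      (mem_ball_self one_pos) hz ht
  obtain ⟨m, u, hu, hu0, hlu⟩ := ha0.exists_eventuallyEq_pow_smul_nonzero_iff.mpr hne'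
  simp only [sub_zero, smul_eq_mul] at hlu
  have hm : m ≠ 0 := by
    rintro rfl
    have := hlu.self_of_nhds
    simp [h0] at this
    exact hu0 this.symm
  have e1 : ∀ᶠ t in 𝓝 (0 : ℂ), ‖l t‖ / 2 ≤ ‖deriv l t‖ ∧ (t ≠ 0 → l t ≠ 0) := by
    have c1 : ContinuousAt (fun t => ‖m * u t + t * deriv u t‖ - ‖u t‖ / 2) 0 :=
      ((continuousAt_const.mul hu.continuousAt).add
        (continuousAt_id.mul hu.deriv.continuousAt)).norm.sub (hu.continuousAt.norm.div_const 2)
    have c2 : 0 < ‖m * u 0 + 0 * deriv u 0‖ - ‖u 0‖ / 2 := by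
      have : (1 : ℝ) ≤ m := by exact_mod_cast Nat.one_le_iff_ne_zero.mpr hm
      have h2 := norm_pos_iff.mpr hu0
      simp only [zero_mul, add_zero, norm_mul, Complex.norm_natCast]
      nlinarith
    filter_upwards [c1.eventually (lt_mem_nhds c2), Filter.EventuallyEq.deriv hlu, hlu,
      hu.eventually_analyticAt, hb, hu.continuousAt.eventually_ne hu0] with t h1 h2 h3 h4 h5 h6
    refine ⟨?_, fun ht => by rw [h3]; exact mul_ne_zero (pow_ne_zero _ ht) h6⟩
    have h7 : t * deriv l t = t ^ m * (m * u t + t * deriv u t) := by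
      rw [h2, ((hasDerivAt_pow m t).fun_mul h4.differentiableAt.hasDerivAt).deriv]
      obtain ⟨j, rfl⟩ := Nat.exists_eq_succ_of_ne_zero hm
      simp
      ring
    have h8 : ‖t‖ < 1 := by simpa using h5
    have h9 := congrArg norm h7
    rw [norm_mul, norm_mul] at h9
    rw [h3, norm_mul]
    nlinarith [norm_nonneg (deriv l t), norm_nonneg (t ^ m)]
  obtain ⟨r0, hr0, hr⟩ := Metric.eventually_nhds_iff.mp e1
  set r := min (r0 / 2) (1 / 2) with hrd
  have hrp : 0 < r := by positivity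
  have hr1 : r ≤ 1 / 2 := min_le_right _ _
  have hr2 : r < r0 := lt_of_le_of_lt (min_le_left _ _) (by linarith)
  have hsub : closedBall (0 : ℂ) r ⊆ ball 0 1 := closedBall_subset_ball (by linarith)
  obtain ⟨s, hs, hmin⟩ := (isCompact_sphere (0 : ℂ) r).exists_isMinOn
    (NormedSpace.sphere_nonempty.mpr hrp.le)
    (hl.continuousOn.mono (sphere_subset_closedBall.trans hsub)).norm
  have hs' : ‖s‖ = r := by simpa using hs
  have hδ : 0 < ‖l s‖ := norm_pos_iff.mpr ((hr (by simpa [hs'] using hr2)).2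
    (by rintro rfl; simp at hs'; linarith))
  obtain ⟨K, hK⟩ := exists_nat_gt (max 8 (4 / ‖l s‖))
  obtain ⟨k, hk, F, e, hF, he, heb, hFe⟩ := h K
  have hk' : (K : ℝ) ≤ k := by exact_mod_cast hk
  have hk8 : (8 : ℝ) < k := by linarith [le_max_left 8 (4 / ‖l s‖)]
  set a : ℝ := 1 / ((k : ℝ) + 4) with ha
  have ha0' : 0 < a := by positivity
  have ha1 : a * (k + 4) = 1 := by rw [ha]; field_simp
  have ha2 : 4 * a < ‖l s‖ := by
    have h1 : 4 / ‖l s‖ < k + 4 := by linarith [le_max_right 8 (4 / ‖l s‖)]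
    rw [div_lt_iff₀ hδ] at h1
    nlinarith
  have ha3 : a < 1 / 12 := by nlinarith
  have heb' : ∀ t ∈ ball (0 : ℂ) 1, ‖e t‖ ≤ a ^ 3 := fun t ht => by
    rw [ha, div_pow, one_pow]; exact heb t ht
  have hc : ‖(1 / ((k : ℂ) + 4)) ^ 2‖ = a ^ 2 := by
    rw [norm_pow, ha, show (1 / ((k : ℂ) + 4)) = ((1 / ((k : ℝ) + 4) : ℝ) : ℂ) by push_cast; rfl,
      Complex.norm_real, Real.norm_of_nonneg (by positivity)]
  have ha4 : a ^ 3 ≤ a := by nlinarith [sq_nonneg a]
  have ha5 : a ^ 2 ≤ a := by nlinarith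
  have ha6 : a ^ 2 + a ^ 3 ≤ a := by nlinarith [sq_nonneg a]
  obtain ⟨t, ht, hFt⟩ : ∃ t ∈ closedBall (0 : ℂ) r, F t = 0 := by
    by_contra! hF0
    have hd : DiffContOnCl ℂ (fun t => (F t ^ 2)⁻¹) (ball 0 r) := by
      refine DifferentiableOn.diffContOnCl ?_
      rw [closure_ball _ hrp.ne']
      exact ((hF.mono hsub).pow 2).inv fun t ht => pow_ne_zero _ (hF0 t ht)
    have h1 := Complex.norm_le_of_forall_mem_frontier_norm_le (C := (2 * a)⁻¹) isBounded_ball hd
      (fun t ht => by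
        rw [frontier_ball _ hrp.ne'] at ht
        have ht' := hsub (sphere_subset_closedBall ht)
        have h2 : ‖l s‖ ≤ ‖l t‖ := hmin ht
        have h3 : l t = F t ^ 2 - (1 / ((k : ℂ) + 4)) ^ 2 - e t := by rw [hFe t ht']; ring
        have h4 : ‖l t‖ ≤ ‖F t ^ 2‖ + a ^ 2 + a ^ 3 := by
          rw [h3, ← hc]
          exact (norm_sub_le _ _).trans (add_le_add (norm_sub_le _ _) (heb' t ht'))
        rw [norm_inv]
        exact inv_anti₀ (by positivity) (by linarith)) (subset_closure (mem_ball_self hrp))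
    have h5 : ‖F 0 ^ 2‖ ≤ a ^ 2 + a ^ 3 := by
      rw [hFe 0 (mem_ball_self one_pos), h0, zero_add, ← hc]
      exact (norm_add_le _ _).trans (add_le_add le_rfl (heb' 0 (mem_ball_self one_pos)))
    have h6 : 0 < ‖F 0 ^ 2‖ := norm_pos_iff.mpr (pow_ne_zero _ (hF0 0 (mem_closedBall_self hrp.le)))
    rw [norm_inv, inv_le_inv₀ h6 (by positivity)] at h1
    linarith
  have ht1 := hsub ht
  have htn : ‖t‖ ≤ r := by simpa using ht
  have hn := isOpen_ball.mem_nhds ht1
  have d1 : deriv l t + deriv e t = 0 := by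
    have h1 := ((hF.differentiableAt hn).hasDerivAt.pow 2)
    have h2 := ((hl.differentiableAt hn).hasDerivAt.add_const
      ((1 / ((k : ℂ) + 4)) ^ 2)).add (he.differentiableAt hn).hasDerivAt
    have h3 := (h2.congr_of_eventuallyEq (f₁ := fun t => F t ^ 2)
      (by filter_upwards [hn] with y hy using hFe y hy)).unique h1
    simpa [hFt] using h3
  have hsub2 : closedBall t (1 / 4) ⊆ ball 0 1 :=
    closedBall_subset_ball' (by simp only [dist_zero_right]; linarith)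
  have d2 : ‖deriv e t‖ ≤ a ^ 3 / (1 / 4) :=
    Complex.norm_deriv_le_of_forall_mem_sphere_norm_le (by norm_num)
      (DifferentiableOn.diffContOnCl (by rw [closure_ball _ (by norm_num)]; exact he.mono hsub2))
      fun y hy => heb' y (hsub2 (sphere_subset_closedBall hy))
  have d3 : ‖deriv l t‖ = ‖deriv e t‖ := by
    rw [eq_neg_of_add_eq_zero_left d1, norm_neg]
  have d4 := (hr (show dist t 0 < r0 by simp only [dist_zero_right]; linarith)).1
  have d5 : a ^ 2 ≤ ‖l t‖ + a ^ 3 := by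
    have h1 := hFe t ht1
    have h2 : (1 / ((k : ℂ) + 4)) ^ 2 = -l t - e t := by
      rw [hFt] at h1; linear_combination -h1
    rw [← hc, h2]
    exact (norm_sub_le _ _).trans (add_le_add (by rw [norm_neg]) (heb' t ht1))
  nlinarith [pow_pos ha0' 2]

abbrev V := Fin 3 → ℂ

def ell (k : ℕ) : Fin 3 := if k % 2 = 0 then 0 else 1

noncomputable def G : ℕ → V → ℂ
  | 0 => fun _ => 0
  | k + 1 => fun z => ((k : ℂ) + 4) ^ 3 * (G k z ^ 2 + 2 * (1 / ((k : ℂ) + 4)) * G k z - z (ell k))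

lemma G_smooth (k : ℕ) : ContDiff ℂ ∞ (G k) := by
  induction k with
  | zero => exact contDiff_const
  | succ k ih => unfold G; fun_prop

lemma G_zero (k : ℕ) : G k 0 = 0 := by
  induction k with
  | zero => rfl
  | succ k ih => simp [G, ih]

lemma G_shift (k : ℕ) (z : V) (s : ℂ) : G k (z + s • (Pi.single 2 1 : V)) = G k z := by
  induction k with
  | zero => rfl
  | succ k ih =>
    have : ell k ≠ 2 := by unfold ell; split_ifs <;> decide
    simp [G, ih, this]

lemma G_sq (k : ℕ) (z : V) : (G k z + 1 / ((k : ℂ) + 4)) ^ 2 =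
    z (ell k) + (1 / ((k : ℂ) + 4)) ^ 2 + G (k + 1) z / ((k : ℂ) + 4) ^ 3 := by
  have : ((k : ℂ) + 4) ≠ 0 := by exact_mod_cast (show k + 4 ≠ 0 by omega)
  rw [G, mul_div_cancel_left₀ _ (pow_ne_zero _ this)]
  ring

lemma norm_k (k : ℕ) : ‖(k : ℂ) + 4‖ = k + 4 := by
  rw [show (k : ℂ) + 4 = (((k : ℝ) + 4 : ℝ) : ℂ) by push_cast; rfl, Complex.norm_real,
    Real.norm_of_nonneg (by positivity)]

lemma G_step {z : V} (hz : z ∈ ball (0 : V) (1 / 8)) (k : ℕ) (h : ‖G (k + 1) z‖ ≤ 2) :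
    ‖G k z‖ < 1 := by
  have h1 : ‖z (ell k)‖ < 1 / 8 := (norm_le_pi_norm z _).trans_lt (by simpa using hz)
  have hk : (4 : ℝ) ≤ k + 4 := by linarith [Nat.cast_nonneg (α := ℝ) k]
  have h2 : ‖1 / ((k : ℂ) + 4)‖ ≤ 1 / 4 := by
    rw [norm_div, norm_one, norm_k]; gcongr
  have h3 : ‖G (k + 1) z / ((k : ℂ) + 4) ^ 3‖ ≤ 2 / 4 ^ 3 := by
    rw [norm_div, norm_pow, norm_k]; gcongr
  have h4 : ‖G k z + 1 / ((k : ℂ) + 4)‖ ^ 2 ≤ 1 / 8 + (1 / 4) ^ 2 + 2 / 4 ^ 3 := by
    rw [← norm_pow, G_sq]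
    refine (norm_add₃_le).trans (add_le_add (add_le_add h1.le ?_) h3)
    rw [norm_pow]; gcongr
  have h5 : ‖G k z‖ ≤ ‖G k z + 1 / ((k : ℂ) + 4)‖ + ‖1 / ((k : ℂ) + 4)‖ := by
    simpa using norm_sub_le (G k z + 1 / ((k : ℂ) + 4)) (1 / ((k : ℂ) + 4))
  nlinarith [norm_nonneg (G k z + 1 / ((k : ℂ) + 4))]

lemma G_nest {z : V} (hz : z ∈ ball (0 : V) (1 / 8)) {j k : ℕ} (hjk : j < k) (h : ‖G k z‖ ≤ 2) :
    ‖G j z‖ < 1 := by
  induction k, hjk using Nat.le_induction with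
  | base => exact G_step hz j h
  | succ k _ ih => exact ih (by linarith [G_step hz k h])

lemma G_one {z : V} (hz : z ∈ ball (0 : V) (1 / 8)) :
    ∃ k0, ∀ k, k ≠ k0 → ‖G k z‖ ^ 2 < 1 ∨ 4 < ‖G k z‖ ^ 2 := by
  by_cases h : ∃ k0, 1 ≤ ‖G k0 z‖ ∧ ‖G k0 z‖ ≤ 2
  · obtain ⟨k0, h1, h2⟩ := h
    refine ⟨k0, fun k hk => ?_⟩
    rcases lt_or_gt_of_ne hk with h3 | h3
    · left; nlinarith [G_nest hz h3 h2, norm_nonneg (G k z)]
    · right
      have : 2 < ‖G k z‖ := by
        by_contra! h4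
        linarith [G_nest hz h3 h4]
      nlinarith
  · push Not at h
    refine ⟨0, fun k _ => ?_⟩
    rcases lt_or_ge ‖G k z‖ 1 with h1 | h1
    · left; nlinarith [norm_nonneg (G k z)]
    · right; nlinarith [h k h1]

lemma no_disc {f : ℂ → V} (hf : DifferentiableOn ℂ f (ball 0 1)) (h0 : f 0 = 0)
    (h : ∀ k, ∀ t ∈ ball (0 : ℂ) 1, ‖G k (f t)‖ ≤ 1) (j : Fin 3) (hj : j ≠ 2) :
    ∀ t ∈ ball (0 : ℂ) 1, f t j = 0 := by
  have hG : ∀ k, DifferentiableOn ℂ (fun t => G k (f t)) (ball 0 1) := fun k =>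
    ((G_smooth k).differentiable (by simp)).comp_differentiableOn hf
  refine square_lemma (differentiableOn_pi.mp hf j) (by simp [h0]) fun K => ?_
  obtain ⟨k, hk, hj⟩ : ∃ k, K ≤ k ∧ ell k = j := by
    fin_cases j
    · exact ⟨2 * K, by omega, by simp [ell]⟩
    · exact ⟨2 * K + 1, by omega, by simp [ell, Nat.add_mod]⟩
    · simp at hj
  refine ⟨k, hk, fun t => G k (f t) + 1 / ((k : ℂ) + 4),
    fun t => G (k + 1) (f t) / ((k : ℂ) + 4) ^ 3, (hG k).add_const _, (hG _).div_const _,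
    fun t ht => ?_, fun t _ => by rw [G_sq, hj]⟩
  rw [norm_div, norm_pow, norm_k]
  gcongr
  exact h _ t ht

noncomputable def θ : ContDiffBump (0 : V) := ⟨1 / 8, 1, by norm_num, by norm_num⟩

theorem main : ∃ ρ : V → ℝ, ContDiff ℝ ∞ ρ ∧ ρ 0 = 0 ∧
    (∀ z ∈ ball (0 : V) (1 / 8), fderiv ℝ ρ z ≠ 0) ∧
    (∀ z ∈ ball (0 : V) (1 / 8), ∀ w, 0 ≤ Lv ρ z w) ∧
    (∀ z ∈ ball (0 : V) (1 / 8), ∃ w : V, w ≠ 0 ∧ fderiv ℝ ρ z w = 0 ∧
      fderiv ℝ ρ z (I • w) = 0 ∧ Lv ρ z w = 0) ∧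
    ∀ f : ℂ → V, DifferentiableOn ℂ f (ball 0 1) → f 0 = 0 →
      (∀ t ∈ ball (0 : ℂ) 1, f t ∈ ball (0 : V) (1 / 8) ∧ ρ (f t) = 0) →
      ∀ t ∈ ball (0 : ℂ) 1, f t = 0 := by
  have hg : ∀ k, ContDiff ℝ ∞ fun z : V => θ z * H (‖G k z‖ ^ 2) := fun k =>
    θ.contDiff.mul (H_smooth.comp (((G_smooth k).restrict_scalars ℝ).norm_sq ℂ))
  obtain ⟨r, hr, v, hv, hb⟩ := series (fun k z => θ z * H (‖G k z‖ ^ 2)) hg
    (fun k => θ.hasCompactSupport.mul_right)
  have hg' : ∀ k, ContDiff ℝ ∞ fun z : V => r k * (θ z * H (‖G k z‖ ^ 2)) := fun k =>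
    contDiff_const.mul (hg k)
  set φ : V → ℝ := fun z => ∑' k, r k * (θ z * H (‖G k z‖ ^ 2)) with hφ
  have hφs : ContDiff ℝ ∞ φ := contDiff_tsum (N := ⊤) hg' (fun k _ => hv k) fun k n x _ => hb k n x
  have hθ : ∀ z ∈ ball (0 : V) (1 / 8), θ z = 1 := fun z hz =>
    θ.one_of_mem_closedBall (ball_subset_closedBall hz)
  have hsum : ∀ z, Summable fun k => r k * (θ z * H (‖G k z‖ ^ 2)) := fun z =>
    Summable.of_norm_bounded (hv 0) fun k => by simpa using hb 0 k z
  have hnn : ∀ z k, 0 ≤ r k * (θ z * H (‖G k z‖ ^ 2)) := fun z k =>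
    mul_nonneg (hr k).le (mul_nonneg θ.nonneg (H_nonneg _))
  let L : V →L[ℝ] ℝ := reCLM.comp (ContinuousLinearMap.proj 2)
  have hL : ∀ w, ∀ z, Lv (fun z => L z + φ z) z w = Lv φ z w := by
    intro w z
    have : fderiv ℝ (fun z => L z + φ z) = fun z => L + fderiv ℝ φ z := funext fun y =>
      (L.hasFDerivAt.add (hφs.differentiable (by simp) y).hasFDerivAt).fderiv
    unfold Lv
    rw [this, fderiv_const_add]
  have hS : ∀ z ∈ ball (0 : V) (1 / 8), ∀ w, HasSum (fun k =>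
      4 * ‖fderiv ℂ (G k) z w‖ ^ 2 * (r k * deriv β (‖G k z‖ ^ 2)))
      (Lv (fun z => L z + φ z) z w) := by
    intro z hz w
    rw [hL]
    convert Lv_tsum hg' hv hb z w using 2 with k
    rw [Lv_congr (u' := fun y => r k * H (‖G k y‖ ^ 2)),
      Lv_comp ((G_smooth k).of_le (by norm_cast)) (h := fun x => r k * H x)
        (q := fun x => r k * q x) (fun x => (H_deriv x).const_mul _)
        ((q_smooth.differentiable (by simp) _).hasDerivAt.const_mul _), ← q_deriv]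
    · ring
    · filter_upwards [isOpen_ball.mem_nhds hz] with y hy
      rw [hθ y hy, one_mul]
  refine ⟨fun z => L z + φ z, L.contDiff.add hφs, by simp [hφ, G_zero, H_zero], fun z hz h => ?_,
    fun z hz w => (hS z hz w).nonneg fun k =>
      mul_nonneg (by positivity) (mul_nonneg (hr k).le β_mono.deriv_nonneg), fun z hz => ?_,
    fun f hf h0 h => ?_⟩
  · have h1 : HasFDerivAt (fun z => L z + φ z) (0 : V →L[ℝ] ℝ) z := by
      rw [← h]; exact ((L.contDiff.add hφs).differentiable (by simp) z).hasFDerivAt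
    have h2 := h1.hasLineDerivAt (Pi.single 2 1)
    have h3 : HasDerivAt (fun s : ℝ => L z + φ z + s) 1 0 := (hasDerivAt_id' _).const_add _
    have h4 : Tendsto (fun s : ℝ => z + s • (Pi.single 2 1 : V)) (𝓝 0) (𝓝 z) :=
      Continuous.tendsto' (by fun_prop) _ _ (by simp)
    have h5 := (h3.congr_of_eventuallyEq (f₁ := fun s : ℝ =>
      L (z + s • (Pi.single 2 1 : V)) + φ (z + s • (Pi.single 2 1 : V))) (by
        filter_upwards [h4.eventually (isOpen_ball.mem_nhds hz)] with s hs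
        have h6 := fun k => G_shift k z s
        simp only [coe_smul] at h6
        simp only [hφ, hθ _ hs, hθ _ hz, h6]
        simp [L]
        ring)).unique h2
    simp at h5
  · obtain ⟨k0, hk0⟩ := G_one hz
    set A := fderiv ℝ (fun z => L z + φ z) z
    let T : V →ₗ[ℝ] ℝ × ℝ × ℂ := A.toLinearMap.prod
      ((A.toLinearMap.comp ((I • LinearMap.id : V →ₗ[ℂ] V).restrictScalars ℝ)).prod
        ((fderiv ℂ (G k0) z).toLinearMap.restrictScalars ℝ))
    have hT : LinearMap.ker T ≠ ⊥ := LinearMap.ker_ne_bot_of_finrank_lt (by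
      simp [Module.finrank_pi_fintype])
    obtain ⟨w, hw, hw0⟩ := (Submodule.ne_bot_iff _).mp hT
    simp only [T, LinearMap.mem_ker, LinearMap.prod_apply, Function.prod, Prod.mk_eq_zero] at hw
    refine ⟨w, hw0, hw.1, hw.2.1, (hS z hz w).unique ?_⟩
    convert hasSum_zero with k
    by_cases hk : k = k0
    · have : fderiv ℂ (G k0) z w = 0 := hw.2.2
      simp [hk, this]
    · simp [dβ_zero (hk0 k hk)]
  · have h2 : DifferentiableOn ℂ (fun t => exp (f t 2)) (ball 0 1) :=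
      (differentiableOn_pi.mp hf 2).cexp
    have hφ0 : ∀ z, 0 ≤ φ z := fun z => tsum_nonneg (hnn z)
    have h3 : ∀ t ∈ ball (0 : ℂ) 1, (f t 2).re + φ (f t) = 0 := fun t ht => (h t ht).2
    have h4 := Complex.eqOn_of_isPreconnected_of_isMaxOn_norm (convex_ball 0 1).isPreconnected
      isOpen_ball h2 (mem_ball_self one_pos) (fun t ht => by
        simp only [Function.comp, h0, mem_ofPred_eq, Complex.norm_exp, Pi.zero_apply]
        exact Real.exp_le_exp.mpr (by simp; linarith [h3 t ht, hφ0 (f t)]))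
    have h5 : ∀ t ∈ ball (0 : ℂ) 1, f t 2 = 0 := by
      intro t ht
      obtain ⟨m, hm⟩ := exp_eq_one_iff.mp (show exp (f t 2) = 1 by simpa [h0] using h4 ht)
      have h6 : ‖f t 2‖ < 1 / 8 := (norm_le_pi_norm _ _).trans_lt (by simpa using (h t ht).1)
      by_contra h7
      have h8 : m ≠ 0 := by rintro rfl; simp at hm; exact h7 hm
      have h9 : (1 : ℝ) ≤ |(m : ℝ)| := by exact_mod_cast Int.one_le_abs h8
      rw [hm] at h6
      simp [abs_of_pos Real.pi_pos] at h6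
      nlinarith [Real.pi_gt_three]
    have h6 : ∀ k, ∀ t ∈ ball (0 : ℂ) 1, ‖G k (f t)‖ ≤ 1 := by
      intro k t ht
      by_contra! h7
      have h8 := (hsum (f t)).tsum_pos (hnn _) k (by
        rw [hθ _ (h t ht).1, one_mul]
        exact mul_pos (hr k) (H_pos (by nlinarith)))
      have h9 := h3 t ht
      rw [h5 t ht] at h9
      simp only [zero_re, zero_add, hφ] at h9
      linarith
    intro t ht
    funext j
    by_cases hj : j = 2
    · rw [hj]; exact h5 t ht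
    · exact no_disc hf h0 h6 j hj t ht

end Pool.Agent.H97.Rossi
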