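import Pool.Agent.H97.SCV

set_option autoImplicit false

namespace Pool.Agent.H97.Shear

open Complex Filter Topology Metric Set Asymptotics
open scoped ComplexConjugate

lemma iteratedDeriv_eq_zero_of_isLittleO {ψ : ℂ → ℂ} {k : ℕ} (hψ : AnalyticAt ℂ ψ 0)
    (h : ψ =o[𝓝 0] fun t : ℂ => t ^ k) : iteratedDeriv k ψ 0 = 0 := by
  rw [← norm_le_zero_iff]
  refine le_of_forall_pos_le_add fun ε hε => ?_
  have hk : (0 : ℝ) < k.factorial := by exact_mod_cast k.factorial_pos
  obtain ⟨r, hr, hb⟩ := Metric.nhds_basis_closedBall.mem_iff.mp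
    ((h.bound (div_pos hε hk)).and hψ.eventually_analyticAt)
  have hd : DiffContOnCl ℂ ψ (ball 0 r) := by
    apply DifferentiableOn.diffContOnCl
    rw [closure_ball _ hr.ne']
    exact fun z hz => (hb hz).2.differentiableAt.differentiableWithinAt
  have := norm_iteratedDeriv_le_of_forall_mem_sphere_norm_le (C := ε / k.factorial * r ^ k) k hr hd
    (by
      intro z hz
      have h1 := (hb (sphere_subset_closedBall hz)).1
      rw [mem_sphere_zero_iff_norm] at hz
      simpa [hz] using h1)
  refine this.trans_eq ?_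
  field_simp
  ring

/-- Fourier coefficient on the unit circle. -/
lemma integral_coeff {φ : ℂ → ℂ} (hφ : DifferentiableOn ℂ φ (closedBall 0 1)) (n : ℕ) :
    ∫ θ in (0 : ℝ)..2 * Real.pi, conj (circleMap 0 1 θ ^ n) * φ (circleMap 0 1 θ) =
      (2 * Real.pi : ℝ) * (iteratedDeriv n φ 0 / n.factorial) := by
  have h := hφ.circleIntegral_one_div_sub_center_pow_smul one_pos n
  rw [circleIntegral] at h
  have e : ∀ θ : ℝ, deriv (circleMap 0 1) θ • (1 / (circleMap 0 1 θ - 0) ^ (n + 1)) •
      φ (circleMap 0 1 θ) = I * (conj (circleMap 0 1 θ ^ n) * φ (circleMap 0 1 θ)) := by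
    intro θ
    have h0 : circleMap 0 1 θ ≠ 0 := circleMap_ne_center one_ne_zero
    have h1 : conj (circleMap 0 1 θ) = (circleMap 0 1 θ)⁻¹ := by
      rw [Complex.inv_def, Complex.normSq_eq_norm_sq, norm_circleMap_zero]; simp
    rw [deriv_circleMap, map_pow, h1]
    simp only [smul_eq_mul, sub_zero, inv_pow, pow_succ]
    field_simp
  simp only [e] at h
  rw [intervalIntegral.integral_const_mul] at h
  apply mul_left_cancel₀ I_ne_zero
  rw [h]
  simp only [smul_eq_mul]
  push_cast
  ring

variable {n : ℕ}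

abbrev E (n : ℕ) := EuclideanSpace ℂ (Fin n)

/-- Coefficient of `z_j ^ k` in the `i`-th component. -/
noncomputable def coef (h : E n → E n) (i j : Fin n) (k : ℕ) : ℂ :=
  iteratedDeriv k (fun w : ℂ => h (EuclideanSpace.single j w) i) 0 / k.factorial

lemma single_eq (j : Fin n) (w : ℂ) :
    (EuclideanSpace.single j w : E n) = w • EuclideanSpace.single j (1 : ℂ) := by
  ext l; by_cases hl : l = j <;> simp [hl]

lemma norm_two {i j : Fin n} (hij : i ≠ j) (u v : ℂ) :
    ‖(EuclideanSpace.single i u + EuclideanSpace.single j v : E n)‖ ^ 2 = ‖u‖ ^ 2 + ‖v‖ ^ 2 := by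
  have := norm_add_sq_eq_norm_sq_add_norm_sq_of_inner_eq_zero (𝕜 := ℂ)
    (EuclideanSpace.single i u : E n) (EuclideanSpace.single j v) (by
      simp [EuclideanSpace.inner_single_left, hij])
  simpa [sq] using this

theorem shear {h : E n → E n} (hd : DifferentiableOn ℂ h (ball 0 1)) (h0 : h 0 = 0)
    (hpos : ∀ z ∈ ball (0 : E n) 1, z ≠ 0 → 0 < (inner ℂ z (h z)).re)
    {i j : Fin n} (hij : i ≠ j) {k : ℕ} (hk : 2 ≤ k) {a b : ℂ} (hab : ‖a‖ ^ 2 + ‖b‖ ^ 2 < 1) :
    0 ≤ (conj a * (a * fderiv ℂ h 0 (EuclideanSpace.single i 1) i + coef h i j k * b ^ k) +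
      conj b * (b * fderiv ℂ h 0 (EuclideanSpace.single j 1) j)).re := by
  set γ : ℂ → E n := fun t => EuclideanSpace.single i (t ^ k * a) + EuclideanSpace.single j (t * b)
    with hγ
  have hγd : Differentiable ℂ γ := by
    have : γ = fun t : ℂ => (t ^ k * a) • (EuclideanSpace.single i (1 : ℂ) : E n) +
        (t * b) • (EuclideanSpace.single j (1 : ℂ) : E n) := by
      funext t; rw [← single_eq, ← single_eq]
    rw [this]
    fun_prop
  have hγ0 : γ 0 = 0 := by
    have : k ≠ 0 := by omega
    rw [hγ]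
    dsimp only
    rw [single_eq, single_eq j]
    simp [this]
  have hγm : ∀ t : ℂ, ‖t‖ ≤ 1 → γ t ∈ ball (0 : E n) 1 := by
    intro t ht
    rw [mem_ball_zero_iff]
    have h1 := norm_two hij (t ^ k * a) (t * b)
    have h2 : ‖t ^ k * a‖ ≤ ‖a‖ := by
      rw [norm_mul, norm_pow]
      exact mul_le_of_le_one_left (norm_nonneg _) (pow_le_one₀ (norm_nonneg _) ht)
    have h3 : ‖t * b‖ ≤ ‖b‖ := by
      rw [norm_mul]
      exact mul_le_of_le_one_left (norm_nonneg _) ht
    have h4 : ‖γ t‖ ^ 2 < 1 := by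
      rw [hγ]; dsimp only; rw [h1]
      nlinarith [norm_nonneg (t ^ k * a), norm_nonneg (t * b)]
    exact (sq_lt_one_iff₀ (norm_nonneg _)).mp h4
  have hda : ∀ z ∈ ball (0 : E n) 1, DifferentiableAt ℂ h z := fun z hz =>
    hd.differentiableAt (isOpen_ball.mem_nhds hz)
  have hcomp : ∀ l : Fin n, DifferentiableOn ℂ (fun z => h z l) (ball 0 1) := fun l =>
    (EuclideanSpace.proj (𝕜 := ℂ) l).differentiable.comp_differentiableOn hd
  have hφ : ∀ l : Fin n, DifferentiableOn ℂ (fun t => h (γ t) l) (closedBall 0 1) := fun l =>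
    (hcomp l).comp hγd.differentiableOn fun t ht => hγm t (by simpa using ht)
  have han : AnalyticAt ℂ h 0 := SCV.analyticAt_of_differentiableOn (ball_mem_nhds _ one_pos) hd
  -- first coefficient
  have c1 : iteratedDeriv 1 (fun t => h (γ t) j) 0 =
      b * fderiv ℂ h 0 (EuclideanSpace.single j 1) j := by
    have h1 : HasDerivAt γ (b • EuclideanSpace.single j (1 : ℂ)) 0 := by
      have e : γ = fun t : ℂ => (t ^ k * a) • (EuclideanSpace.single i (1 : ℂ) : E n) +
          (t * b) • (EuclideanSpace.single j (1 : ℂ) : E n) := by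
        funext t; rw [← single_eq, ← single_eq]
      have h2 := (((hasDerivAt_pow k (0 : ℂ)).mul_const a).smul_const
        (EuclideanSpace.single i (1 : ℂ) : E n)).add
        (((hasDerivAt_id (0 : ℂ)).mul_const b).smul_const (EuclideanSpace.single j (1 : ℂ) : E n))
      rw [e]
      refine h2.congr_deriv ?_
      have : k - 1 ≠ 0 := by omega
      simp [this]
    have h3 : HasFDerivAt h (fderiv ℂ h 0) (γ 0) := by
      rw [hγ0]; exact han.differentiableAt.hasFDerivAt
    have h4 := (EuclideanSpace.proj (𝕜 := ℂ) j).hasFDerivAt.comp_hasDerivAt 0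
      (h3.comp_hasDerivAt 0 h1)
    rw [iteratedDeriv_one]
    refine h4.deriv.trans ?_
    simp
  -- k-th coefficient
  have ck : iteratedDeriv k (fun t => h (γ t) i) 0 / k.factorial =
      a * fderiv ℂ h 0 (EuclideanSpace.single i 1) i + coef h i j k * b ^ k := by
    set α := fderiv ℂ h 0 (EuclideanSpace.single i 1) i with hα
    set g : ℂ → ℂ := fun t => h (0 + t • (b • EuclideanSpace.single j (1 : ℂ))) i with hg
    have hga : AnalyticAt ℂ g 0 := by
      have h1 : AnalyticAt ℂ (fun t : ℂ => (0 : E n) + t • (b • EuclideanSpace.single j (1 : ℂ)))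
          0 := by fun_prop
      exact ((EuclideanSpace.proj (𝕜 := ℂ) i).analyticAt _).comp
        (AnalyticAt.comp_of_eq han h1 (by simp))
    have hφa : AnalyticAt ℂ (fun t => h (γ t) i) 0 :=
      (hφ i).analyticAt (closedBall_mem_nhds _ one_pos)
    have hpa : AnalyticAt ℂ (fun t : ℂ => a * α * t ^ k) 0 := by fun_prop
    have hg1 : iteratedDeriv k g 0 = k.factorial * (coef h i j k * b ^ k) := by
      have e1 := SCV.iteratedDeriv_line isOpen_ball (hcomp i) (mem_ball_self one_pos)
        (b • EuclideanSpace.single j (1 : ℂ)) k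
      have e2 := SCV.iteratedDeriv_line isOpen_ball (hcomp i) (mem_ball_self one_pos)
        (EuclideanSpace.single j (1 : ℂ)) k
      rw [hg, e1, ContinuousMultilinearMap.map_smul_univ, ← e2, coef]
      simp only [zero_add, ← single_eq, Finset.prod_const, Finset.card_univ, Fintype.card_fin,
        smul_eq_mul]
      have : (k.factorial : ℂ) ≠ 0 := by exact_mod_cast k.factorial_ne_zero
      field_simp
    have hp1 : iteratedDeriv k (fun t : ℂ => a * α * t ^ k) 0 = k.factorial * (a * α) := by
      rw [iteratedDeriv_const_mul_field]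
      simp [iteratedDeriv_pow, Nat.descFactorial_self, mul_comm]
    have hlo : (fun t => h (γ t) i - g t - a * α * t ^ k) =o[𝓝 0] fun t : ℂ => t ^ k := by
      have hs := han.hasStrictFDerivAt.isLittleO
      have ht : Tendsto (fun t : ℂ => (γ t, (0 : E n) + t • (b • EuclideanSpace.single j (1 : ℂ))))
          (𝓝 0) (𝓝 (0, 0)) := by
        have : Continuous (fun t : ℂ =>
            (γ t, (0 : E n) + t • (b • EuclideanSpace.single j (1 : ℂ)))) :=
          hγd.continuous.prodMk (by fun_prop)
        simpa [hγ0] using this.tendsto 0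
      have h1 := hs.comp_tendsto ht
      have e : ∀ t : ℂ, γ t - ((0 : E n) + t • (b • EuclideanSpace.single j (1 : ℂ))) =
          (t ^ k * a) • EuclideanSpace.single i (1 : ℂ) := by
        intro t
        rw [smul_smul, ← single_eq, ← single_eq, hγ]
        simp
      have h2 : (fun t : ℂ => (t ^ k * a) • (EuclideanSpace.single i (1 : ℂ) : E n)) =O[𝓝 0]
          fun t : ℂ => t ^ k := by
        refine IsBigO.of_bound ‖a‖ (Eventually.of_forall fun t => ?_)
        simp [norm_smul, mul_comm]
      have h3 := ((EuclideanSpace.proj (𝕜 := ℂ) i).isBigO_comp _ _).trans_isLittleO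
        ((h1.congr_right e).trans_isBigO h2)
      refine h3.congr_left fun t => ?_
      simp only [Function.comp, e, map_smul]
      simp [hg, hα]
      ring
    have hz := iteratedDeriv_eq_zero_of_isLittleO ((hφa.sub hga).sub hpa) hlo
    rw [iteratedDeriv_sub (hφa.sub hga).contDiffAt hpa.contDiffAt,
      iteratedDeriv_sub hφa.contDiffAt hga.contDiffAt, hg1, hp1] at hz
    have : (k.factorial : ℂ) ≠ 0 := by exact_mod_cast k.factorial_ne_zero
    field_simp
    linear_combination hz
  -- averaging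
  have i1 := integral_coeff (hφ i) k
  have i2 := integral_coeff (hφ j) 1
  rw [ck] at i1
  rw [c1] at i2
  have hcm : ∀ θ : ℝ, ‖circleMap 0 1 θ‖ ≤ 1 := fun θ => by simp
  have hcont : ∀ (l : Fin n) (m : ℕ), Continuous fun θ : ℝ =>
      conj (circleMap 0 1 θ ^ m) * h (γ (circleMap 0 1 θ)) l := by
    intro l m
    refine (continuous_conj.comp ((continuous_circleMap 0 1).pow m)).mul ?_
    exact (hφ l).continuousOn.comp_continuous (continuous_circleMap 0 1) fun θ => by simp
  have i3 : ∫ θ in (0 : ℝ)..2 * Real.pi, inner ℂ (γ (circleMap 0 1 θ)) (h (γ (circleMap 0 1 θ))) =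
      (2 * Real.pi : ℝ) * (conj a * (a * fderiv ℂ h 0 (EuclideanSpace.single i 1) i +
        coef h i j k * b ^ k) + conj b * (b * fderiv ℂ h 0 (EuclideanSpace.single j 1) j)) := by
    have e : ∀ θ : ℝ, inner ℂ (γ (circleMap 0 1 θ)) (h (γ (circleMap 0 1 θ))) =
        conj a * (conj (circleMap 0 1 θ ^ k) * h (γ (circleMap 0 1 θ)) i) +
        conj b * (conj (circleMap 0 1 θ ^ 1) * h (γ (circleMap 0 1 θ)) j) := by
      intro θ
      generalize h (γ (circleMap 0 1 θ)) = w
      simp only [hγ, inner_add_left, EuclideanSpace.inner_single_left, map_mul, pow_one]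
      ring
    simp only [e]
    rw [intervalIntegral.integral_add (((hcont i k).const_mul _).intervalIntegrable _ _)
      (((hcont j 1).const_mul _).intervalIntegrable _ _), intervalIntegral.integral_const_mul,
      intervalIntegral.integral_const_mul, i1, i2]
    simp
    ring
  have hci : Continuous fun θ : ℝ => inner ℂ (γ (circleMap 0 1 θ)) (h (γ (circleMap 0 1 θ))) :=
    (hγd.continuous.comp (continuous_circleMap 0 1)).inner
      (hd.continuousOn.comp_continuous (hγd.continuous.comp (continuous_circleMap 0 1))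
        fun θ => hγm _ (hcm θ))
  have i4 := reCLM.intervalIntegral_comp_comm (hci.intervalIntegrable (μ := MeasureTheory.volume)
    0 (2 * Real.pi))
  rw [i3] at i4
  have i5 : 0 ≤ ∫ θ in (0 : ℝ)..2 * Real.pi,
      reCLM (inner ℂ (γ (circleMap 0 1 θ)) (h (γ (circleMap 0 1 θ)))) := by
    refine intervalIntegral.integral_nonneg (by positivity) fun θ _ => ?_
    by_cases hz : γ (circleMap 0 1 θ) = 0
    · simp [hz]
    · exact (hpos _ (hγm _ (hcm θ)) hz).le
  rw [i4, reCLM_apply, Complex.re_ofReal_mul] at i5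
  exact nonneg_of_mul_nonneg_right i5 (by positivity) |> fun h => h

end Pool.Agent.H97.Shear
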