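import Pool.Agent.H97.Shear

set_option autoImplicit false

namespace Pool.Agent.H97.Shear

open Complex Filter Topology Metric Set Asymptotics
open scoped ComplexConjugate

variable {n : ℕ}

theorem shear_real {h : E n → E n} (hd : DifferentiableOn ℂ h (ball 0 1)) (h0 : h 0 = 0)
    (hpos : ∀ z ∈ ball (0 : E n) 1, z ≠ 0 → 0 < (inner ℂ z (h z)).re)
    {i j : Fin n} (hij : i ≠ j) {k : ℕ} (hk : 2 ≤ k) {α β : ℝ}
    (hα : fderiv ℂ h 0 (EuclideanSpace.single i 1) i = α)
    (hβ : fderiv ℂ h 0 (EuclideanSpace.single j 1) j = β)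
    {x y : ℝ} (hx : 0 ≤ x) (hy : 0 ≤ y) (hxy : x ^ 2 + y ^ 2 ≤ 1) :
    ‖coef h i j k‖ * (x * y ^ k) ≤ α * x ^ 2 + β * y ^ 2 := by
  have key : ∀ x y : ℝ, 0 ≤ x → 0 ≤ y → x ^ 2 + y ^ 2 < 1 →
      ‖coef h i j k‖ * (x * y ^ k) ≤ α * x ^ 2 + β * y ^ 2 := by
    intro x y hx hy hxy
    obtain ⟨u, hu, hq⟩ : ∃ u : ℂ, ‖u‖ = 1 ∧ conj u * coef h i j k = ‖coef h i j k‖ := by
      by_cases hc : coef h i j k = 0
      · exact ⟨1, by simp, by simp [hc]⟩
      · have hn : (‖coef h i j k‖ : ℂ) ≠ 0 := by simpa using hc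
        refine ⟨coef h i j k / ‖coef h i j k‖, by simp [hc], ?_⟩
        rw [map_div₀, conj_ofReal, div_mul_eq_mul_div, Complex.conj_mul', div_eq_iff hn, sq]
    have h1 := shear hd h0 hpos hij hk (a := -(x * u)) (b := y) (by
      simpa [hu, abs_of_nonneg hx, abs_of_nonneg hy] using hxy)
    rw [hα, hβ] at h1
    have huu : conj u * u = 1 := by rw [Complex.conj_mul', hu]; simp
    have e : conj (-((x : ℂ) * u)) * (-(x * u) * α + coef h i j k * (y : ℂ) ^ k) +
        conj (y : ℂ) * (y * β) =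
        ((α * x ^ 2 + β * y ^ 2 - ‖coef h i j k‖ * (x * y ^ k) : ℝ) : ℂ) := by
      simp only [map_neg, map_mul, conj_ofReal]
      push_cast
      linear_combination (α * x ^ 2 : ℂ) * huu - (x * y ^ k : ℂ) * hq
    rw [e, ofReal_re] at h1
    linarith
  have hc1 : Tendsto (fun ρ : ℝ => ‖coef h i j k‖ * ((ρ * x) * (ρ * y) ^ k)) (𝓝[<] 1)
      (𝓝 (‖coef h i j k‖ * (x * y ^ k))) := by
    have : Continuous (fun ρ : ℝ => ‖coef h i j k‖ * ((ρ * x) * (ρ * y) ^ k)) := by fun_prop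
    simpa using (this.tendsto 1).mono_left nhdsWithin_le_nhds
  have hc2 : Tendsto (fun ρ : ℝ => α * (ρ * x) ^ 2 + β * (ρ * y) ^ 2) (𝓝[<] 1)
      (𝓝 (α * x ^ 2 + β * y ^ 2)) := by
    have : Continuous (fun ρ : ℝ => α * (ρ * x) ^ 2 + β * (ρ * y) ^ 2) := by fun_prop
    simpa using (this.tendsto 1).mono_left nhdsWithin_le_nhds
  refine le_of_tendsto_of_tendsto hc1 hc2 ?_
  filter_upwards [Ioo_mem_nhdsLT (zero_lt_one' ℝ)] with ρ hρ
  refine key _ _ (mul_nonneg hρ.1.le hx) (mul_nonneg hρ.1.le hy) ?_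
  have : ρ ^ 2 < 1 := by nlinarith [hρ.1, hρ.2]
  nlinarith [sq_nonneg ρ, sq_nonneg x, sq_nonneg y]

/-- The critical point. -/
noncomputable def crit (α β : ℝ) (k : ℕ) : ℝ :=
  2 * β / (α + k * β + √((α + k * β) ^ 2 + 4 * β * (α - β) * (k - 1)))

/-- The sharp constant. -/
noncomputable def bnd (α β : ℝ) (k : ℕ) : ℝ :=
  (α * crit α β k + β * (1 - crit α β k)) / (√(crit α β k) * √(1 - crit α β k) ^ k)

section
variable {α β : ℝ} {k : ℕ} (hα : 0 < α) (hβ : 0 < β) (hk : 2 ≤ k)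
include hα hβ hk

lemma crit_pos : 0 < crit α β k := by
  unfold crit; positivity

lemma crit_lt : crit α β k < 1 := by
  have hk' : (2 : ℝ) ≤ k := by exact_mod_cast hk
  unfold crit
  rw [div_lt_one (by positivity)]
  nlinarith [Real.sqrt_nonneg ((α + k * β) ^ 2 + 4 * β * (α - β) * (k - 1))]

lemma crit_root : (α - β) * (k - 1) * crit α β k ^ 2 + (α + k * β) * crit α β k - β = 0 := by
  have hk' : (2 : ℝ) ≤ k := by exact_mod_cast hk
  have hΔ : 0 ≤ (α + k * β) ^ 2 + 4 * β * (α - β) * (k - 1) := by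
    have : 0 ≤ α * β * (k - 1) := by have : (0 : ℝ) ≤ k - 1 := by linarith
                                     positivity
    nlinarith [sq_nonneg (β * (k - 2)), mul_pos hα hβ, sq_nonneg α]
  have hs := Real.sq_sqrt hΔ
  unfold crit
  set r := √((α + k * β) ^ 2 + 4 * β * (α - β) * (k - 1)) with hr
  have hr0 : 0 ≤ r := Real.sqrt_nonneg _
  have hne : α + k * β + r ≠ 0 := by positivity
  field_simp
  linear_combination (-β) * hs

lemma log_min {s : ℝ} (hs0 : 0 < s) (hs1 : s < 1) :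
    Real.log (α * crit α β k + β * (1 - crit α β k)) - 1 / 2 * Real.log (crit α β k) -
      k / 2 * Real.log (1 - crit α β k) ≤
    Real.log (α * s + β * (1 - s)) - 1 / 2 * Real.log s - k / 2 * Real.log (1 - s) := by
  set c := crit α β k with hc
  have hc0 : 0 < c := crit_pos hα hβ hk
  have hc1 : c < 1 := crit_lt hα hβ hk
  have hroot := crit_root hα hβ hk
  rw [← hc] at hroot
  have hk' : (2 : ℝ) ≤ k := by exact_mod_cast hk
  set F : ℝ → ℝ := fun s => Real.log (α * s + β * (1 - s)) - 1 / 2 * Real.log s -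
    k / 2 * Real.log (1 - s) with hF
  have hL : ∀ t ∈ Ioo (0 : ℝ) 1, 0 < α * t + β * (1 - t) := fun t ht => by
    have := ht.1
    have : 0 < 1 - t := by linarith [ht.2]
    positivity
  have hder : ∀ t ∈ Ioo (0 : ℝ) 1, HasDerivAt F
      ((t - c) * ((α - β) * (k - 1) * (t + c) + (α + k * β)) /
        (2 * t * (1 - t) * (α * t + β * (1 - t)))) t := by
    intro t ht
    have h1 : HasDerivAt (fun s : ℝ => α * s + β * (1 - s)) (α * 1 + β * (-1)) t :=
      ((hasDerivAt_id t).const_mul α).add (((hasDerivAt_id t).const_sub 1).const_mul β)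
    have ht1 : 1 - t ≠ 0 := by linarith [ht.2]
    have h2 := ((h1.log (hL t ht).ne').sub ((Real.hasDerivAt_log ht.1.ne').const_mul (1 / 2))).sub
      ((((hasDerivAt_id t).const_sub 1).log ht1).const_mul ((k : ℝ) / 2))
    refine h2.congr_deriv ?_
    have := (hL t ht).ne'
    have := ht.1.ne'
    simp only [id]
    field_simp
    linear_combination (1 : ℝ) * hroot
  have hpos : ∀ t ∈ Ioo (0 : ℝ) 1, 0 < (α - β) * (k - 1) * (t + c) + (α + k * β) := by
    intro t ht
    rcases le_total 0 (α - β) with h | h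
    · have : 0 ≤ (α - β) * (k - 1) * (t + c) := by
        have : (0 : ℝ) ≤ k - 1 := by linarith
        have := ht.1
        positivity
      positivity
    · have h1 : (1 - c) * ((α - β) * (k - 1) * (1 + c) + (α + k * β)) = k * α := by
        linear_combination (-1 : ℝ) * hroot
      have h2 : 0 < (α - β) * (k - 1) * (1 + c) + (α + k * β) := by
        have h3 : 0 < (1 - c) * ((α - β) * (k - 1) * (1 + c) + (α + k * β)) := by
          rw [h1]; positivity
        exact (pos_iff_pos_of_mul_pos h3).mp (by linarith)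
      have h4 : 0 ≤ (β - α) * (k - 1) * (1 - t) := by
        have : (0 : ℝ) ≤ k - 1 := by linarith
        have : 0 ≤ β - α := by linarith
        have : 0 ≤ 1 - t := by linarith [ht.2]
        positivity
      linarith
  have hden : ∀ t ∈ Ioo (0 : ℝ) 1, 0 < 2 * t * (1 - t) * (α * t + β * (1 - t)) := fun t ht => by
    have := ht.1
    have : 0 < 1 - t := by linarith [ht.2]
    have := hL t ht
    positivity
  change F c ≤ F s
  rcases le_total s c with hsc | hsc
  · have hsub : Icc s c ⊆ Ioo 0 1 := fun t ht => ⟨by linarith [ht.1], by linarith [ht.2]⟩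
    have : AntitoneOn F (Icc s c) := by
      refine antitoneOn_of_deriv_nonpos (convex_Icc _ _)
        (fun t ht => (hder t (hsub ht)).continuousAt.continuousWithinAt)
        (fun t ht => (hder t (hsub (interior_subset ht))).differentiableAt.differentiableWithinAt)
        fun t ht => ?_
      have ht' := interior_subset ht
      rw [(hder t (hsub ht')).deriv]
      exact div_nonpos_of_nonpos_of_nonneg
        (mul_nonpos_of_nonpos_of_nonneg (by linarith [ht'.2]) (hpos t (hsub ht')).le)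
        (hden t (hsub ht')).le
    exact this ⟨le_rfl, hsc⟩ ⟨hsc, le_rfl⟩ hsc
  · have hsub : Icc c s ⊆ Ioo 0 1 := fun t ht => ⟨by linarith [ht.1], by linarith [ht.2]⟩
    have : MonotoneOn F (Icc c s) := by
      refine monotoneOn_of_deriv_nonneg (convex_Icc _ _)
        (fun t ht => (hder t (hsub ht)).continuousAt.continuousWithinAt)
        (fun t ht => (hder t (hsub (interior_subset ht))).differentiableAt.differentiableWithinAt)
        fun t ht => ?_
      have ht' := interior_subset ht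
      rw [(hder t (hsub ht')).deriv]
      exact div_nonneg (mul_nonneg (by linarith [ht'.1]) (hpos t (hsub ht')).le)
        (hden t (hsub ht')).le
    exact this ⟨le_rfl, hsc⟩ ⟨hsc, le_rfl⟩ hsc

lemma log_quot {s : ℝ} (hs0 : 0 < s) (hs1 : s < 1) :
    Real.log ((α * s + β * (1 - s)) / (√s * √(1 - s) ^ k)) =
    Real.log (α * s + β * (1 - s)) - 1 / 2 * Real.log s - k / 2 * Real.log (1 - s) := by
  have h1 : 0 < 1 - s := by linarith
  rw [Real.log_div (by positivity) (by positivity), Real.log_mul (by positivity) (by positivity),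
    Real.log_pow, Real.log_sqrt hs0.le, Real.log_sqrt h1.le]
  ring

lemma bnd_pos : 0 < bnd α β k := by
  have h0 := crit_pos hα hβ hk
  have h1 : 0 < 1 - crit α β k := by linarith [crit_lt hα hβ hk]
  unfold bnd
  positivity

lemma bnd_le {x y : ℝ} (hx : 0 ≤ x) (hy : 0 ≤ y) (hxy : x ^ 2 + y ^ 2 = 1) :
    bnd α β k * (x * y ^ k) ≤ α * x ^ 2 + β * y ^ 2 := by
  rcases hx.eq_or_lt with rfl | hx
  · simp; positivity
  rcases hy.eq_or_lt with rfl | hy
  · have : k ≠ 0 := by omega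
    simp [this]; positivity
  have hs0 : 0 < x ^ 2 := by positivity
  have hs1 : x ^ 2 < 1 := by nlinarith
  have h1 := log_min hα hβ hk hs0 hs1
  rw [← log_quot hα hβ hk hs0 hs1,
    ← log_quot hα hβ hk (crit_pos hα hβ hk) (crit_lt hα hβ hk)] at h1
  have e : 1 - x ^ 2 = y ^ 2 := by linarith
  rw [e, Real.sqrt_sq hx.le, Real.sqrt_sq hy.le] at h1
  have h2 := (Real.log_le_log_iff (bnd_pos hα hβ hk) (by positivity)).mp h1
  rwa [le_div_iff₀ (by positivity)] at h2

lemma bnd_lt {x y : ℝ} (hx : 0 ≤ x) (hy : 0 ≤ y) (hxy : x ^ 2 + y ^ 2 < 1)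
    (h0 : 0 < x ^ 2 + y ^ 2) :
    bnd α β k * (x * y ^ k) < α * x ^ 2 + β * y ^ 2 := by
  set ρ := √(x ^ 2 + y ^ 2) with hρ
  have hρ0 : 0 < ρ := Real.sqrt_pos.mpr h0
  have hρ2 : ρ ^ 2 = x ^ 2 + y ^ 2 := Real.sq_sqrt h0.le
  have hρ1 : ρ < 1 := by nlinarith
  have h1 := bnd_le hα hβ hk (x := x / ρ) (y := y / ρ) (by positivity) (by positivity) (by
    field_simp; linarith)
  obtain ⟨m, rfl⟩ : ∃ m, k = m + 2 := ⟨k - 2, by omega⟩
  have hR : 0 < α * x ^ 2 + β * y ^ 2 := by
    rcases hx.eq_or_lt with rfl | hx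
    · have : 0 < y ^ 2 := by simpa using h0
      positivity
    · positivity
  have h2 : bnd α β (m + 2) * (x * y ^ (m + 2)) ≤ ρ ^ (m + 1) * (α * x ^ 2 + β * y ^ 2) := by
    have h3 := mul_le_mul_of_nonneg_left h1 (pow_pos hρ0 (m + 3)).le
    calc _ = ρ ^ (m + 3) * (bnd α β (m + 2) * (x / ρ * (y / ρ) ^ (m + 2))) := by
          rw [div_pow]; field_simp; ring
      _ ≤ _ := h3
      _ = _ := by field_simp; ring
  have h4 : ρ ^ (m + 1) < 1 := pow_lt_one₀ hρ0.le hρ1 (by omega)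
  nlinarith

theorem coef_le_bnd {h : E n → E n} (hd : DifferentiableOn ℂ h (ball 0 1)) (h0 : h 0 = 0)
    (hpos : ∀ z ∈ ball (0 : E n) 1, z ≠ 0 → 0 < (inner ℂ z (h z)).re)
    {i j : Fin n} (hij : i ≠ j)
    (hα' : fderiv ℂ h 0 (EuclideanSpace.single i 1) i = α)
    (hβ' : fderiv ℂ h 0 (EuclideanSpace.single j 1) j = β) : ‖coef h i j k‖ ≤ bnd α β k := by
  have hc0 := crit_pos hα hβ hk
  have hc1 : 0 < 1 - crit α β k := by linarith [crit_lt hα hβ hk]
  have := shear_real hd h0 hpos hij hk hα' hβ' (Real.sqrt_nonneg (crit α β k))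
    (Real.sqrt_nonneg (1 - crit α β k)) (by
      rw [Real.sq_sqrt hc0.le, Real.sq_sqrt hc1.le]; linarith)
  rw [Real.sq_sqrt hc0.le, Real.sq_sqrt hc1.le] at this
  unfold bnd
  rwa [le_div_iff₀ (by positivity)]

end

end Pool.Agent.H97.Shear
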