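import Mathlib

namespace Pool.Agent.H97.Spd

open Finset Function

lemma pick {V W : Type} [DecidableEq V] [DecidableEq W] (S : Finset V) (f : V → W)
    (hf : Set.InjOn f S) (U : Finset V) (U' : Finset W) (h : U.card + U'.card < S.card) :
    ∃ a ∈ S, a ∉ U ∧ f a ∉ U' := by
  by_contra hc
  push Not at hc
  have h1 : S ⊆ U ∪ S.filter (fun a => f a ∈ U') := fun a ha => by
    by_cases h : a ∈ U
    · exact mem_union_left _ h
    · exact mem_union_right _ (mem_filter.mpr ⟨ha, hc a ha h⟩)
  have h2 : (S.filter (fun a => f a ∈ U')).card ≤ U'.card :=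
    card_le_card_of_injOn f (fun a ha => (mem_filter.mp ha).2)
      (hf.mono fun a ha => (mem_filter.mp ha).1)
  have := (card_le_card h1).trans (card_union_le _ _)
  omega

variable {V : Type} [DecidableEq V] (v : V)

def D (m k : ℕ) (a b : ℕ → V) : Prop :=
  (∀ i < m, a i ≠ v) ∧ (∀ j < k, b j ≠ v) ∧ (∀ i < m, ∀ j < k, a i ≠ b j) ∧
    (∀ i < m, ∀ j < m, a i = a j → i = j) ∧ (∀ i < k, ∀ j < k, b i = b j → i = j)

def Us (m k : ℕ) (a b : ℕ → V) : Finset V := insert v ((range m).image a ∪ (range k).image b)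

lemma Us_card (m k : ℕ) (a b : ℕ → V) : (Us v m k a b).card ≤ m + k + 1 := by
  unfold Us
  have h1 := card_insert_le v ((range m).image a ∪ (range k).image b)
  have h2 := card_union_le ((range m).image a) ((range k).image b)
  have h3 : ((range m).image a).card ≤ m := card_image_le.trans (by simp)
  have h4 : ((range k).image b).card ≤ k := card_image_le.trans (by simp)
  omega

lemma nUs {m k : ℕ} {a b : ℕ → V} {x : V} :
    x ∉ Us v m k a b ↔ x ≠ v ∧ (∀ i < m, a i ≠ x) ∧ ∀ i < k, b i ≠ x := by
  simp [Us]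

lemma extA {m k : ℕ} {a b : ℕ → V} (h : D v m k a b) {x : V} (hx : x ∉ Us v m k a b) :
    D v (m + 1) k (update a m x) b := by
  rw [nUs] at hx
  obtain ⟨h1, h2, h3, h4, h5⟩ := h
  obtain ⟨x1, x2, x3⟩ := hx
  refine ⟨?_, h2, ?_, ?_, h5⟩ <;> simp only [update_apply] <;> grind

lemma extB {m k : ℕ} {a b : ℕ → V} (h : D v m k a b) {x : V} (hx : x ∉ Us v m k a b) :
    D v m (k + 1) a (update b k x) := by
  rw [nUs] at hx
  obtain ⟨h1, h2, h3, h4, h5⟩ := h
  obtain ⟨x1, x2, x3⟩ := hx
  refine ⟨h1, ?_, ?_, h4, ?_⟩ <;> simp only [update_apply] <;> grind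

lemma nUsA {m k : ℕ} {a b : ℕ → V} {x y : V} (hy : y ∉ Us v m k a b) (h : x ≠ y) :
    y ∉ Us v (m + 1) k (update a m x) b := by
  rw [nUs] at *
  simp only [update_apply]
  grind

lemma nUsB {m k : ℕ} {a b : ℕ → V} {x y : V} (hy : y ∉ Us v m k a b) (h : x ≠ y) :
    y ∉ Us v m (k + 1) a (update b k x) := by
  rw [nUs] at *
  simp only [update_apply]
  grind

variable [Fintype V] {C : Type} (c : V → V → C)

open Classical in
noncomputable def T (x a : V) : V := if h : ∃ b, b ≠ v ∧ c v b = c x a then h.choose else v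

lemma T_spec {x a : V} (h : T v c x a ≠ v) : c v (T v c x a) = c x a := by
  unfold T at *
  split_ifs at h ⊢ with h1
  · exact h1.choose_spec.2
  · exact absurd rfl h

lemma T_free {x a : V} (h : T v c x a = v) (b : V) (hb : b ≠ v) : c v b ≠ c x a := by
  intro e
  unfold T at h
  rw [dif_pos ⟨b, hb, e⟩] at h
  exact (Exists.choose_spec (⟨b, hb, e⟩ : ∃ b, b ≠ v ∧ c v b = c x a)).1 h

noncomputable def O (x : V) : Finset V := univ.filter fun a => a ≠ v ∧ a ≠ x ∧ T v c x a ≠ v

noncomputable def Fr (x : V) : Finset V := univ.filter fun a => a ≠ v ∧ a ≠ x ∧ T v c x a = v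

lemma OF (x : V) : Fintype.card V ≤ (O v c x).card + (Fr v c x).card + 2 := by
  have h : (univ : Finset V) ⊆ (O v c x ∪ Fr v c x) ∪ {v, x} := fun a _ => by
    simp only [O, Fr, mem_union, mem_filter, mem_univ, true_and, mem_insert, mem_singleton]
    tauto
  have h1 := (card_le_card h).trans (card_union_le _ _)
  have h2 := card_union_le (O v c x) (Fr v c x)
  have h3 : ({v, x} : Finset V).card ≤ 2 := card_le_two
  rw [card_univ] at h1
  omega

def Res (t : ℕ) : Prop := ∃ a b : ℕ → V, D v t t a b ∧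
  (∀ i < t, ∀ j < t, c (b i) (a i) = c (b j) (a j) → i = j) ∧
  ∀ i < t, ∀ x, x ≠ v → (∀ j < t, b j ≠ x) → c v x ≠ c (b i) (a i)

variable (hs : ∀ x y, c x y = c y x) (hp : ∀ x y z, x ≠ y → x ≠ z → c x y = c x z → y = z)
include hp

lemma case1 (t : ℕ) (H : Finset V) (hH : ∀ x ∈ H, 3 * t < (Fr v c x).card) (hc : 2 * t < H.card) :
    Res v c t := by
  classical
  have key : ∀ k ≤ t, ∃ a b : ℕ → V, D v k k a b ∧
      (∀ i < k, ∀ j < k, c (b i) (a i) = c (b j) (a j) → i = j) ∧ ∀ i < k, T v c (b i) (a i) = v := by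
    intro k
    induction k with
    | zero => exact fun _ => ⟨fun _ => v, fun _ => v, by simp [D], by simp, by simp⟩
    | succ k ih =>
      intro hk
      obtain ⟨a, b, h1, h2, h3⟩ := ih (by omega)
      have u := Us_card v k k a b
      obtain ⟨x, hx, hx'⟩ := exists_mem_notMem_of_card_lt_card (s := Us v k k a b) (t := H)
        (by omega)
      have u2 : ((range k).image fun i => c (b i) (a i)).card ≤ k := card_image_le.trans (by simp)
      have := hH x hx
      obtain ⟨y, y1, y2, y3⟩ := pick (Fr v c x) (c x) (fun p hp' q hq e => by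
        simp only [Fr, coe_filter, Set.mem_ofPred_eq] at hp' hq
        exact hp x p q hp'.2.2.1.symm hq.2.2.1.symm e) (Us v k k a b)
        ((range k).image fun i => c (b i) (a i)) (by omega)
      simp only [Fr, mem_filter] at y1
      simp only [mem_image, mem_range, not_exists, not_and] at y3
      refine ⟨update a k y, update b k x, extB v (extA v h1 y2) (nUsA v hx' y1.2.2.1), ?_, ?_⟩ <;>
        simp only [update_apply] <;> grind
  obtain ⟨a, b, h1, h2, h3⟩ := key t le_rfl
  exact ⟨a, b, h1, h2, fun i hi x hx _ => T_free v c (h3 i hi) x hx⟩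

lemma T_inj (x : V) : Set.InjOn (T v c x) (O v c x) := by
  intro p hp' q hq e
  simp only [O, coe_filter, Set.mem_ofPred_eq] at hp' hq
  refine hp x p q hp'.2.2.1.symm hq.2.2.1.symm ?_
  rw [← T_spec v c hp'.2.2.2, ← T_spec v c hq.2.2.2, e]

include hs

lemma T_ne {x a : V} (h : a ∈ O v c x) (hx : x ≠ v) : a ≠ T v c x a := by
  simp only [O, mem_filter] at h
  intro e
  have h1 := T_spec v c h.2.2.2
  rw [← e, hs v a, hs x a] at h1
  exact hx (hp a v x h.2.1 h.2.2.1 h1).symm

lemma case2 (k : ℕ) (hk : 1 ≤ k) (hn : 100 * (k + 2) ≤ Fintype.card V) (H : Finset V)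
    (hH : ∀ x ∉ H, (Fr v c x).card ≤ 3 * (k + 2)) (hc : H.card ≤ 2 * (k + 2)) :
    Res v c (k + 2) := by
  classical
  set n := Fintype.card V with hnn
  have hO : ∀ x ∉ H, n ≤ (O v c x).card + 3 * (k + 2) + 2 := fun x hx => by
    have := OF v c x
    have := hH x hx
    omega
  let In : V → Finset V := fun z => univ.filter fun y => z ∈ (O v c y).image (T v c y)
  obtain ⟨z, z1, z2⟩ : ∃ z, z ∉ insert v H ∧ 3 * n ≤ 4 * (In z).card := by
    by_contra hcon
    push Not at hcon
    have e : ∑ z, (In z).card = ∑ y, (O v c y).card := by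
      simp only [In, card_filter]
      rw [sum_comm]
      refine sum_congr rfl fun y _ => ?_
      rw [← card_filter, filter_mem_eq_inter, univ_inter, card_image_of_injOn (T_inj v c hp y)]
    have l1 : ∑ z, 4 * (In z).card ≤ ∑ z, (3 * n + if z ∈ insert v H then n else 0) := by
      refine sum_le_sum fun z _ => ?_
      split_ifs with h
      · have : (In z).card ≤ n := card_le_univ _
        omega
      · have := hcon z h
        omega
    have l2 : ∑ _y : V, n ≤ ∑ y, ((O v c y).card + (3 * (k + 2) + 2) + if y ∈ H then n else 0) := by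
      refine sum_le_sum fun y _ => ?_
      split_ifs with h
      · omega
      · have := hO y h
        omega
    have i1 := card_insert_le v H
    simp only [sum_add_distrib, sum_const, card_univ, smul_eq_mul, ← mul_sum, sum_ite_mem,
      univ_inter, ← hnn] at l1 l2
    rw [e] at l1
    have m1 : (insert v H).card * n ≤ (2 * (k + 2) + 1) * n := Nat.mul_le_mul_right _ (by omega)
    have m2 : H.card * n ≤ (2 * (k + 2)) * n := Nat.mul_le_mul_right _ hc
    have m3 : (100 * (k + 2)) * n ≤ n * n := Nat.mul_le_mul_right _ hn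
    have m4 : 0 < n := by omega
    have m5 : 0 ≤ k * n := Nat.zero_le _
    nlinarith
  rw [mem_insert, not_or] at z1
  have hN : ∀ y, ∃ a, y ∈ In z → a ∈ O v c y ∧ T v c y a = z := fun y => by
    by_cases h : y ∈ In z
    · simp only [In, mem_filter, mem_image] at h
      obtain ⟨-, a, h1, h2⟩ := h
      exact ⟨a, fun _ => ⟨h1, h2⟩⟩
    · exact ⟨v, fun h' => absurd h' h⟩
  choose N hN using hN
  have hNc : ∀ y ∈ In z, c y (N y) = c v z := fun y hy => by
    have h1 := (hN y hy).1
    simp only [O, mem_filter] at h1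
    rw [← T_spec v c h1.2.2.2, (hN y hy).2]
  have hNy : ∀ y ∈ In z, N y ≠ y := fun y hy => by
    have h1 := (hN y hy).1
    simp only [O, mem_filter] at h1
    exact h1.2.2.1
  let Bad : V → Finset V := fun x => (O v c x).filter fun a => a = N (T v c x a)
  let X : Finset V := univ.filter fun x => n < 2 * (Bad x).card
  have hX : X.card ≤ 1 := by
    rw [card_le_one]
    intro x hx y hy
    by_contra hxy
    simp only [X, mem_filter] at hx hy
    have c1 : ∀ x, ((Bad x).image (T v c x)).card = (Bad x).card := fun x =>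
      card_image_of_injOn ((T_inj v c hp x).mono fun a ha => (mem_filter.mp ha).1)
    have dj : Disjoint ((Bad x).image (T v c x)) ((Bad y).image (T v c y)) := by
      rw [disjoint_left]
      intro w w1 w2
      simp only [Bad, O, mem_image, mem_filter] at w1 w2
      obtain ⟨p, ⟨p1, p2⟩, p3⟩ := w1
      obtain ⟨q, ⟨q1, q2⟩, q3⟩ := w2
      have e : p = q := by rw [p2, q2, p3, q3]
      subst e
      have e1 := T_spec v c p1.2.2.2
      have e2 := T_spec v c q1.2.2.2
      rw [p3] at e1
      rw [q3, e1, hs x p, hs y p] at e2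
      exact hxy (hp p x y p1.2.2.1 q1.2.2.1 e2)
    have := card_le_univ (((Bad x).image (T v c x)).disjUnion _ dj)
    rw [card_disjUnion, c1, c1] at this
    omega
  have key : ∀ m ≤ k, ∃ a b : ℕ → V, D v m (m + 1) a b ∧ b 0 = z ∧
      (∀ i < m, c (b i) (a i) = c v (b (i + 1))) ∧ b m ∉ H ∧ (1 ≤ m → b m ∉ X) := by
    intro m
    induction m with
    | zero => exact fun _ => ⟨fun _ => v, fun _ => z, by simp [D, z1.1], rfl, by simp, z1.2, by simp⟩
    | succ m ih =>
      intro hm
      obtain ⟨a, b, h1, h2, h3, h4, -⟩ := ih (by omega)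
      have u := Us_card v m (m + 1) a b
      have u1 := card_union_le (Us v m (m + 1) a b) (H ∪ X)
      have u2 := card_union_le H X
      have := hO _ h4
      obtain ⟨y, y1, y2, y3⟩ := pick (O v c (b m)) (T v c (b m)) (T_inj v c hp _)
        (Us v m (m + 1) a b) (Us v m (m + 1) a b ∪ (H ∪ X)) (by omega)
      simp only [mem_union, not_or] at y3
      have y4 := T_ne v c hs hp y1 (h1.2.1 m (by omega))
      simp only [O, mem_filter] at y1
      have y5 := T_spec v c y1.2.2.2
      refine ⟨update a m y, update b (m + 1) (T v c (b m) y),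
        extB v (extA v h1 y2) (nUsA v y3.1 y4), ?_, ?_, ?_, ?_⟩ <;>
        simp only [update_apply] <;> grind
  obtain ⟨a, b, h1, h2, h3, h4, h5⟩ := key k le_rfl
  have h6 : 2 * (Bad (b k)).card ≤ n := by
    have := h5 hk
    simp only [X, mem_filter, mem_univ, true_and, not_lt] at this
    exact this
  set U := Us v k (k + 1) a b with hU
  have u := Us_card v k (k + 1) a b
  have u1 := card_union_le U (Bad (b k))
  have u2 := card_union_le U ((In z)ᶜ ∪ (In z).filter fun y => N y ∈ U)
  have u3 := card_union_le (In z)ᶜ ((In z).filter fun y => N y ∈ U)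
  have u4 : ((In z).filter fun y => N y ∈ U).card ≤ U.card :=
    card_le_card_of_injOn N (fun y hy => (mem_filter.mp hy).2) fun p hp' q hq e => by
      have p1 := (mem_filter.mp hp').1
      have q1 := (mem_filter.mp hq).1
      have e1 := hNc p p1
      have e2 := hNc q q1
      rw [← e2, ← e, hs p, hs q] at e1
      exact hp (N p) p q (hNy p p1) (e ▸ hNy q q1) e1
  have u5 := card_compl (In z)
  have u6 : (In z).card ≤ n := card_le_univ _
  have := hO _ h4
  obtain ⟨y, y1, y2, y3⟩ := pick (O v c (b k)) (T v c (b k)) (T_inj v c hp _)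
    (U ∪ Bad (b k)) (U ∪ ((In z)ᶜ ∪ (In z).filter fun y => N y ∈ U)) (by rw [← hU] at u; omega)
  simp only [mem_union, not_or, mem_compl, not_not, mem_filter, not_and] at y2 y3
  have y4 := T_ne v c hs hp y1 (h1.2.1 k (by omega))
  have y6 : y ≠ N (T v c (b k) y) := fun e => y2.2 (mem_filter.mpr ⟨y1, e⟩)
  simp only [O, mem_filter] at y1
  have y5 := T_spec v c y1.2.2.2
  have w1 : T v c (b k) y ∈ In z := by simpa [In] using y3.2.1
  have w2 := y3.2.2 y3.2.1
  have w3 := hNc _ w1
  have w4 := hNy _ w1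
  generalize T v c (b k) y = w at *
  have hD := extA v (extB v (extA v h1 y2.1) (nUsA v y3.1 y4)) (nUsB v (nUsA v w2 y6) w4.symm)
  have col : ∀ i < k + 2, c (update b (k + 1) w i) (update (update a k y) (k + 1) (N w) i) =
      c v (update b (k + 1) w (if i = k + 1 then 0 else i + 1)) := by
    intro i hi
    simp only [update_apply]
    grind
  refine ⟨_, _, hD, fun i hi j hj e => ?_, fun i hi x hx hb e => ?_⟩
  · rw [col i hi, col j hj] at e
    have b1 := hD.2.1 (if i = k + 1 then 0 else i + 1) (by split_ifs <;> omega)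
    have b2 := hD.2.1 (if j = k + 1 then 0 else j + 1) (by split_ifs <;> omega)
    have := hD.2.2.2.2 _ (by split_ifs <;> omega) _ (by split_ifs <;> omega)
      (hp v _ _ b1.symm b2.symm e)
    split_ifs at this <;> omega
  · rw [col i hi] at e
    have b1 := hD.2.1 (if i = k + 1 then 0 else i + 1) (by split_ifs <;> omega)
    exact hb _ (by split_ifs <;> omega) (hp v _ _ hx.symm b1.symm e).symm

lemma main (t : ℕ) (ht : 3 ≤ t) (hn : 100 * t ≤ Fintype.card V) : Res v c t := by
  classical
  by_cases h : 2 * t < (univ.filter fun x => 3 * t < (Fr v c x).card).card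
  · exact case1 v c hp t _ (fun x hx => (mem_filter.mp hx).2) h
  · obtain ⟨k, rfl⟩ : ∃ k, t = k + 2 := ⟨t - 2, by omega⟩
    refine case2 v c hs hp k (by omega) hn _ (fun x hx => ?_) (not_lt.mp h)
    simpa using hx

end Pool.Agent.H97.Spd
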