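import Pool.Agent.H97.Avg

set_option autoImplicit false

namespace Pool.Agent.H97.Support

open Complex Filter Topology Metric Set Asymptotics Shear
open scoped ComplexConjugate

abbrev C2 := EuclideanSpace ℂ (Fin 2)

def Star (g : C2 → C2) : Prop :=
  DifferentiableOn ℂ g (ball 0 1) ∧ Set.InjOn g (ball 0 1) ∧ g 0 = 0 ∧
    fderiv ℂ g 0 = ContinuousLinearMap.id ℂ C2 ∧
    ∀ z ∈ ball (0 : C2) 1, z ≠ 0 →
      0 < (inner ℂ z ((fderiv ℂ g z).inverse ((ContinuousLinearMap.id ℂ C2) (g z)))).re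

def IsFun (L : (C2 → C2) → ℂ) : Prop :=
  (∀ g₁ g₂ : C2 → C2, DifferentiableOn ℂ g₁ (ball 0 1) → DifferentiableOn ℂ g₂ (ball 0 1) →
    L (g₁ + g₂) = L g₁ + L g₂) ∧
  (∀ (c : ℂ) (g : C2 → C2), DifferentiableOn ℂ g (ball 0 1) → L (c • g) = c * L g) ∧
  ∃ K : Set C2, IsCompact K ∧ K ⊆ ball 0 1 ∧
    ∃ C : ℝ, ∀ g : C2 → C2, DifferentiableOn ℂ g (ball 0 1) →
      ∀ M : ℝ, (∀ x ∈ K, ‖g x‖ ≤ M) → ‖L g‖ ≤ C * M

lemma IsFun.sub {L : (C2 → C2) → ℂ} (hL : IsFun L) {g₁ g₂ : C2 → C2}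
    (h1 : DifferentiableOn ℂ g₁ (ball 0 1)) (h2 : DifferentiableOn ℂ g₂ (ball 0 1)) :
    L (g₁ - g₂) = L g₁ - L g₂ := by
  have := hL.1 (g₁ - g₂) g₂ (h1.sub h2) h2
  rw [sub_add_cancel] at this
  rw [this]; ring

lemma le_of_eps {a m C : ℝ} (h : ∀ ε > 0, a ≤ m + C * ε) : a ≤ m := by
  refine le_of_forall_pos_le_add fun ε hε => ?_
  have h1 := h (ε / (|C| + 1)) (by positivity)
  have h2 : C * (ε / (|C| + 1)) ≤ ε := by
    rw [← mul_div_assoc, div_le_iff₀ (by positivity)]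
    nlinarith [le_abs_self C]
  linarith

lemma avg_le {L : (C2 → C2) → ℂ} (hL : IsFun L) {G : ℝ → C2 → C2}
    (hG : ∀ θ, DifferentiableOn ℂ (G θ) (ball 0 1))
    (hc : ContinuousOn (fun p : ℝ × C2 => G p.1 p.2) (univ ×ˢ ball 0 1)) {m : ℝ}
    (hm : ∀ θ, (L (G θ)).re ≤ m) {g : C2 → C2} (hg : DifferentiableOn ℂ g (ball 0 1))
    (havg : ∀ z ∈ ball (0 : C2) 1, ∫ θ in (0 : ℝ)..2 * Real.pi, G θ z = (2 * Real.pi) • g z) :
    (L g).re ≤ m := by
  obtain ⟨K, hK, hKb, C, hC⟩ := hL.2.2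
  have : CompactSpace K := isCompact_iff_compactSpace.mp hK
  set S : Set C(K, C2) := {x | ∃ g' : C2 → C2, DifferentiableOn ℂ g' (ball 0 1) ∧
    (L g').re ≤ m ∧ ∀ z : K, x z = g' z} with hS
  have hSc : Convex ℝ S := by
    rintro x ⟨g1, d1, m1, e1⟩ y ⟨g2, d2, m2, e2⟩ a b ha hb hab
    refine ⟨(a : ℂ) • g1 + (b : ℂ) • g2, (d1.const_smul _).add (d2.const_smul _), ?_, ?_⟩
    · rw [hL.1 _ _ (d1.const_smul _) (d2.const_smul _), hL.2.1 _ _ d1, hL.2.1 _ _ d2]
      simp only [add_re, re_ofReal_mul]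
      calc _ ≤ a * m + b * m := by gcongr
        _ = m := by rw [← add_mul, hab, one_mul]
    · intro z
      simp [e1, e2]
  let Ψ : C(ℝ × K, C2) := ⟨fun p => G p.1 p.2, hc.comp_continuous
    (f := fun p : ℝ × K => (p.1, (p.2 : C2))) (by fun_prop) fun p => ⟨trivial, hKb p.2.2⟩⟩
  have hΦ : Continuous Ψ.curry := Ψ.curry.continuous
  have hpi : (0 : ℝ) < 2 * Real.pi := by positivity
  have hmem := hSc.set_average_mem_closure (μ := MeasureTheory.volume) (t := uIoc 0 (2 * Real.pi))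
    (f := Ψ.curry) (by simp [uIoc_of_le hpi.le, Real.pi_pos]) (by
      rw [uIoc_of_le hpi.le, Real.volume_Ioc]; exact ENNReal.ofReal_ne_top)
    (Eventually.of_forall fun θ => ⟨G θ, hG θ, hm θ, fun z => rfl⟩)
    (intervalIntegrable_iff.mp (hΦ.intervalIntegrable _ _))
  have hval : ∀ z : K, (⨍ θ in (0 : ℝ)..2 * Real.pi, Ψ.curry θ) z = g z := by
    intro z
    rw [interval_average_eq]
    have h1 := (ContinuousMap.evalCLM ℝ z).intervalIntegral_comp_comm
      (hΦ.intervalIntegrable (μ := MeasureTheory.volume) 0 (2 * Real.pi))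
    simp only [ContinuousMap.evalCLM_apply] at h1
    rw [ContinuousMap.smul_apply, ← h1]
    have h2 := havg z (hKb z.2)
    change (2 * Real.pi - 0)⁻¹ • ∫ θ in (0 : ℝ)..2 * Real.pi, G θ z = _
    rw [h2, sub_zero, inv_smul_smul₀ hpi.ne']
  refine le_of_eps (C := C) fun ε hε => ?_
  obtain ⟨x, ⟨g', d', m', e'⟩, hx⟩ := Metric.mem_closure_iff.mp hmem ε hε
  have h1 := hC (g - g') (hg.sub d') ε (by
    intro z hz
    have h2 := ContinuousMap.dist_apply_le_dist (f := ⨍ θ in (0 : ℝ)..2 * Real.pi, Ψ.curry θ)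
      (g := x) ⟨z, hz⟩
    rw [hval, e', dist_eq_norm] at h2
    exact h2.trans hx.le)
  rw [hL.sub hg d'] at h1
  have h3 := (re_le_norm _).trans h1
  rw [sub_re] at h3
  linarith

lemma invertible_of_inj {T : C2 →L[ℂ] C2} (h : ∀ v, T v = 0 → v = 0) : T.IsInvertible :=
  ⟨(LinearEquiv.ofInjectiveEndo (T : C2 →ₗ[ℂ] C2)
    ((injective_iff_map_eq_zero _).mpr h)).toContinuousLinearEquiv, by ext v; rfl⟩

lemma perturb {p : C2 → C2} (hd : DifferentiableOn ℂ p (ball 0 1)) (h0 : p 0 = 0)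
    (h1 : fderiv ℂ p 0 = 0) (hb : ∀ z ∈ ball (0 : C2) 1, ‖fderiv ℂ p z‖ ≤ 1 / 4) :
    Star (id + p) := by
  have hda : ∀ z ∈ ball (0 : C2) 1, DifferentiableAt ℂ p z := fun z hz =>
    hd.differentiableAt (isOpen_ball.mem_nhds hz)
  have hlip : ∀ z ∈ ball (0 : C2) 1, ∀ w ∈ ball (0 : C2) 1, ‖p w - p z‖ ≤ 1 / 4 * ‖w - z‖ :=
    fun z hz w hw => (convex_ball 0 1).norm_image_sub_le_of_norm_fderiv_le hda hb hz hw
  have hfd : ∀ z ∈ ball (0 : C2) 1, fderiv ℂ (id + p) z =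
      ContinuousLinearMap.id ℂ C2 + fderiv ℂ p z := fun z hz =>
    ((hasFDerivAt_id z).add (hda z hz).hasFDerivAt).fderiv
  refine ⟨differentiableOn_id.add hd, ?_, by simp [h0], by
    rw [hfd 0 (mem_ball_self one_pos), h1, add_zero], ?_⟩
  · intro z hz w hw h
    have h2 := hlip z hz w hw
    have h3 : p w - p z = -(w - z) := by
      simp only [Pi.add_apply, id] at h
      rw [eq_neg_iff_add_eq_zero]
      calc p w - p z + (w - z) = (w + p w) - (z + p z) := by abel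
        _ = 0 := by rw [h, sub_self]
    rw [h3, norm_neg] at h2
    have : ‖w - z‖ = 0 := by linarith [norm_nonneg (w - z)]
    exact (sub_eq_zero.mp (norm_eq_zero.mp this)).symm
  · intro z hz hz0
    rw [hfd z hz]
    set T := ContinuousLinearMap.id ℂ C2 + fderiv ℂ p z with hT
    have hTv : ∀ v, 3 / 4 * ‖v‖ ≤ ‖T v‖ := by
      intro v
      have h2 : ‖fderiv ℂ p z v‖ ≤ 1 / 4 * ‖v‖ :=
        ((fderiv ℂ p z).le_opNorm v).trans (by gcongr; exact hb z hz)
      have h3 : v = T v - fderiv ℂ p z v := by simp [hT]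
      have h4 := norm_sub_le (T v) (fderiv ℂ p z v)
      rw [← h3] at h4
      linarith
    have hinv : T.IsInvertible := invertible_of_inj fun v hv => by
      have := hTv v
      rw [hv, norm_zero] at this
      exact norm_eq_zero.mp (by linarith [norm_nonneg v])
    change 0 < (inner ℂ z (T.inverse (z + p z))).re
    set y := T.inverse (z + p z) with hy
    have hy' : z + p z = T y := hinv.inverse_apply_eq.mp hy.symm
    have h5 : T (y - z) = p z - fderiv ℂ p z z := by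
      rw [map_sub, ← hy']; simp [hT]
    have h6 : ‖p z‖ ≤ 1 / 4 * ‖z‖ := by
      simpa [h0] using hlip 0 (mem_ball_self one_pos) z hz
    have h7 : ‖fderiv ℂ p z z‖ ≤ 1 / 4 * ‖z‖ :=
      ((fderiv ℂ p z).le_opNorm z).trans (by gcongr; exact hb z hz)
    have h8 := hTv (y - z)
    rw [h5] at h8
    have h9 : ‖y - z‖ ≤ 2 / 3 * ‖z‖ := by linarith [norm_sub_le (p z) (fderiv ℂ p z z)]
    have e : inner ℂ z y = inner ℂ z z + inner ℂ z (y - z) := by
      rw [← inner_add_right]; simp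
    have h10 : (inner ℂ z z).re = ‖z‖ ^ 2 := by
      rw [inner_self_eq_norm_sq_to_K]; norm_cast
    have h11 := (abs_le.mp (abs_re_le_norm (inner ℂ z (y - z)))).1
    have h12 := norm_inner_le_norm (𝕜 := ℂ) z (y - z)
    have hz' : 0 < ‖z‖ := norm_pos_iff.mpr hz0
    rw [e, add_re, h10]
    nlinarith

lemma const_of_id_max {L : (C2 → C2) → ℂ} (hL : IsFun L)
    (hmax : ∀ g, Star g → (L g).re ≤ (L id).re) {g : C2 → C2} (hg : Star g) : L g = L id := by
  obtain ⟨hd, -, h0, h1, -⟩ := hg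
  have step : ∀ r : ℝ, 0 < r → r < 1 → L (fun z => (r : ℂ)⁻¹ • g ((r : ℂ) • z)) = L id := by
    intro r hr0 hr1
    have hrc : (r : ℂ) ≠ 0 := by exact_mod_cast hr0.ne'
    set p : C2 → C2 := (fun z => (r : ℂ)⁻¹ • g ((r : ℂ) • z)) - id with hp
    have hmap : MapsTo (fun z : C2 => (r : ℂ) • z) (ball 0 r⁻¹) (ball 0 1) := by
      intro z hz
      rw [mem_ball_zero_iff] at hz ⊢
      rw [norm_smul, Complex.norm_real, Real.norm_of_nonneg hr0.le]
      calc r * ‖z‖ < r * r⁻¹ := by gcongr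
        _ = 1 := mul_inv_cancel₀ hr0.ne'
    have hgd : DifferentiableOn ℂ (fun z => (r : ℂ)⁻¹ • g ((r : ℂ) • z)) (ball 0 r⁻¹) :=
      (hd.comp (by fun_prop) hmap).const_smul (r : ℂ)⁻¹
    have hpd : DifferentiableOn ℂ p (ball 0 r⁻¹) := hgd.sub differentiableOn_id
    have hr' : 1 < r⁻¹ := one_lt_inv₀ hr0 |>.mpr hr1
    have hsub : closedBall (0 : C2) 1 ⊆ ball 0 r⁻¹ := closedBall_subset_ball hr'
    have hsub' : ball (0 : C2) 1 ⊆ ball 0 r⁻¹ := ball_subset_closedBall.trans hsub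
    obtain ⟨B, hB⟩ := (isCompact_closedBall (0 : C2) 1).exists_bound_of_continuousOn
      ((SCV.continuousOn_fderiv isOpen_ball hpd).mono hsub)
    have hB0 : 0 ≤ B := (norm_nonneg _).trans (hB 0 (by simp))
    have hp0 : p 0 = 0 := by simp [hp, h0]
    have hp1 : fderiv ℂ p 0 = 0 := by
      have e1 : HasFDerivAt g (ContinuousLinearMap.id ℂ C2) ((r : ℂ) • (0 : C2)) := by
        rw [smul_zero, ← h1]
        exact (hd.differentiableAt (ball_mem_nhds _ one_pos)).hasFDerivAt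
      have e2 := ((e1.comp (0 : C2) ((hasFDerivAt_id (0 : C2)).const_smul (r : ℂ))).const_smul
        (r : ℂ)⁻¹).sub (hasFDerivAt_id (0 : C2))
      have e3 : HasFDerivAt p _ 0 := e2
      rw [e3.fderiv]
      ext v i
      simp [hrc]
    have key : ∀ δ : ℂ, ‖δ‖ * (B + 1) ≤ 1 / 4 → (δ * L p).re ≤ 0 := by
      intro δ hδ
      have hs : Star (id + δ • p) := by
        refine perturb ((hpd.mono hsub').const_smul δ) (by simp [hp0]) ?_ ?_
        · rw [fderiv_const_smul_field, Pi.smul_apply, hp1, smul_zero]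
        · intro z hz
          rw [fderiv_const_smul_field, Pi.smul_apply, norm_smul]
          have := hB z (ball_subset_closedBall hz)
          nlinarith [norm_nonneg δ]
      have := hmax _ hs
      rw [hL.1 _ _ differentiableOn_id ((hpd.mono hsub').const_smul δ),
        hL.2.1 _ _ (hpd.mono hsub'), add_re] at this
      linarith
    have hLp : L p = 0 := by
      by_contra hne
      have hn : 0 < ‖L p‖ := norm_pos_iff.mpr hne
      have h2 := key (((1 / (4 * (B + 1) * ‖L p‖) : ℝ) : ℂ) * conj (L p)) (by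
        rw [norm_mul, Complex.norm_conj, Complex.norm_real, Real.norm_of_nonneg (by positivity)]
        apply le_of_eq
        field_simp)
      rw [mul_assoc, Complex.conj_mul', re_ofReal_mul] at h2
      have h3 : (((‖L p‖ : ℝ) : ℂ) ^ 2).re = ‖L p‖ ^ 2 := by norm_cast
      rw [h3] at h2
      have : 0 < 1 / (4 * (B + 1) * ‖L p‖) * ‖L p‖ ^ 2 := by positivity
      linarith
    rw [hp, hL.sub (hgd.mono hsub') differentiableOn_id] at hLp
    exact sub_eq_zero.mp hLp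
  obtain ⟨K, hK, hKb, C, hC⟩ := hL.2.2
  rw [← sub_eq_zero, ← norm_le_zero_iff]
  refine le_of_eps (C := C) fun ε hε => ?_
  have hev : ∀ᶠ r : ℝ in 𝓝 1, ∀ z ∈ K, ‖g z - (r : ℂ)⁻¹ • g ((r : ℂ) • z)‖ < ε := by
    refine hK.eventually_forall_of_forall_eventually fun z hz => ?_
    have hgc : ContinuousAt g z := hd.continuousOn.continuousAt (isOpen_ball.mem_nhds (hKb hz))
    have hc : ContinuousAt (fun p : ℝ × C2 => ‖g p.2 - (p.1 : ℂ)⁻¹ • g ((p.1 : ℂ) • p.2)‖)
        (1, z) := by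
      have c1 : ContinuousAt (fun p : ℝ × C2 => g p.2) (1, z) :=
        ContinuousAt.comp_of_eq hgc continuousAt_snd rfl
      have c2 : ContinuousAt (fun p : ℝ × C2 => (p.1 : ℂ)⁻¹) (1, z) :=
        ContinuousAt.inv₀ (f := fun p : ℝ × C2 => (p.1 : ℂ)) (by fun_prop) (by simp)
      have c3 : ContinuousAt (fun p : ℝ × C2 => g ((p.1 : ℂ) • p.2)) (1, z) :=
        ContinuousAt.comp_of_eq (f := fun p : ℝ × C2 => (p.1 : ℂ) • p.2) hgc (by fun_prop)
          (by simp)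
      exact (c1.sub (c2.smul c3)).norm
    exact hc.eventually (gt_mem_nhds (by simpa using hε))
  obtain ⟨r, hr, hr0, hr1⟩ := ((hev.filter_mono nhdsWithin_le_nhds).and
    (Ioo_mem_nhdsLT (zero_lt_one' ℝ))).exists
  have hgd : DifferentiableOn ℂ (fun z => (r : ℂ)⁻¹ • g ((r : ℂ) • z)) (ball 0 1) := by
    refine (hd.comp (f := fun z : C2 => (r : ℂ) • z) (by fun_prop) ?_).const_smul (r : ℂ)⁻¹
    intro z hz
    rw [mem_ball_zero_iff] at hz ⊢
    rw [norm_smul, Complex.norm_real, Real.norm_of_nonneg hr0.le]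
    nlinarith [norm_nonneg z]
  have := hC _ (hd.sub hgd) ε fun z hz => (hr z hz).le
  rw [hL.sub hd hgd, step r hr0 hr1] at this
  simpa using this

end Pool.Agent.H97.Support
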