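import Pool.Agent.H97.Support

set_option autoImplicit false

namespace Pool.Agent.H97.Support

open Complex Filter Topology Metric Set Asymptotics Shear
open scoped ComplexConjugate

noncomputable def psi (w : ℂ) : ℂ := w / (1 - w) ^ 2 - w

lemma psi_deriv {w : ℂ} (hw : 1 - w ≠ 0) : HasDerivAt psi ((1 + w) / (1 - w) ^ 3 - 1) w := by
  have h := (((hasDerivAt_id w).div (((hasDerivAt_id w).const_sub 1).pow 2)
    (pow_ne_zero 2 hw))).sub (hasDerivAt_id w)
  refine h.congr_deriv ?_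
  simp only [id, Pi.pow_apply]
  field_simp
  ring

noncomputable def koe (u z : C2) : C2 := z + psi (inner ℂ u z) • u

lemma inner_lt {u z : C2} (hu : ‖u‖ = 1) (hz : z ∈ ball (0 : C2) 1) : ‖inner ℂ u z‖ < 1 := by
  have := norm_inner_le_norm (𝕜 := ℂ) u z
  rw [hu, one_mul] at this
  exact this.trans_lt (mem_ball_zero_iff.mp hz)

lemma one_sub_ne {w : ℂ} (hw : ‖w‖ < 1) : 1 - w ≠ 0 := by
  intro h
  have : w = 1 := by linear_combination -h
  simp [this] at hw

lemma one_add_ne {w : ℂ} (hw : ‖w‖ < 1) : 1 + w ≠ 0 := by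
  intro h
  have : w = -1 := by linear_combination h
  simp [this] at hw

lemma koe_fderiv {u z : C2} (h : 1 - inner ℂ u z ≠ 0) :
    HasFDerivAt (koe u) (ContinuousLinearMap.id ℂ C2 +
      (((1 + inner ℂ u z) / (1 - inner ℂ u z) ^ 3 - 1) • innerSL ℂ u).smulRight u) z :=
  (hasFDerivAt_id z).add
    (((psi_deriv h).comp_hasFDerivAt z (innerSL ℂ u).hasFDerivAt).smul_const u)

lemma star_koe {u : C2} (hu : ‖u‖ = 1) : Star (koe u) := by
  have huu : inner ℂ u u = 1 := by rw [inner_self_eq_norm_sq_to_K, hu]; simp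
  refine ⟨fun z hz => (koe_fderiv (one_sub_ne (inner_lt hu hz))).differentiableAt.differentiableWithinAt,
    ?_, by simp [koe, psi], ?_, ?_⟩
  · intro z hz w hw h
    have h1 := congrArg (inner ℂ u) h
    simp only [koe, inner_add_right, inner_smul_right, huu, psi, mul_one, add_sub_cancel] at h1
    have ha := inner_lt hu hz
    have hb := inner_lt hu hw
    set a := inner ℂ u z with ha'
    set b := inner ℂ u w with hb'
    rw [div_eq_div_iff (pow_ne_zero 2 (one_sub_ne ha)) (pow_ne_zero 2 (one_sub_ne hb))] at h1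
    have h2 : (a - b) * (1 - a * b) = 0 := by linear_combination h1
    have h3 : 1 - a * b ≠ 0 := one_sub_ne (by
      rw [norm_mul]; nlinarith [norm_nonneg a, norm_nonneg b])
    have h4 : a = b := sub_eq_zero.mp ((mul_eq_zero.mp h2).resolve_right h3)
    simp only [koe, ← ha', ← hb', h4] at h
    exact add_right_cancel h
  · rw [(koe_fderiv (by simp)).fderiv]
    ext v i
    simp
  · intro z hz hz0
    have ha := inner_lt hu hz
    rw [(koe_fderiv (one_sub_ne ha)).fderiv]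
    set w := inner ℂ u z with hw
    have h1 := one_sub_ne ha
    have h2 := one_add_ne ha
    set T := ContinuousLinearMap.id ℂ C2 +
      (((1 + w) / (1 - w) ^ 3 - 1) • innerSL ℂ u).smulRight u with hT
    have hTv : ∀ v, T v = v + (((1 + w) / (1 - w) ^ 3 - 1) * inner ℂ u v) • u := fun v => by
      simp [hT]
    have hinv : T.IsInvertible := invertible_of_inj fun v hv => by
      rw [hTv] at hv
      have h3 := congrArg (inner ℂ u) hv
      simp only [inner_add_right, inner_smul_right, huu, inner_zero_right] at h3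
      have h4 : (1 + w) / (1 - w) ^ 3 * inner ℂ u v = 0 := by linear_combination h3
      have h5 : inner ℂ u v = 0 :=
        (mul_eq_zero.mp h4).resolve_left (div_ne_zero h2 (pow_ne_zero 3 h1))
      simpa [h5] using hv
    have hy : T.inverse ((ContinuousLinearMap.id ℂ C2) (koe u z)) =
        z + (w * (1 - w) / (1 + w) - w) • u := by
      rw [hinv.inverse_apply_eq, hTv]
      simp only [ContinuousLinearMap.id_apply, koe, inner_add_right, inner_smul_right, huu, ← hw,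
        add_assoc, ← add_smul, psi]
      congr 2
      field_simp
      ring
    rw [hy, inner_add_right, inner_smul_right, ← inner_conj_symm z u, ← hw, add_re]
    have h10 : (inner ℂ z z).re = ‖z‖ ^ 2 := by
      rw [inner_self_eq_norm_sq_to_K]; norm_cast
    have h11 : ‖w‖ ≤ ‖z‖ := by
      have := norm_inner_le_norm (𝕜 := ℂ) u z
      rwa [hu, one_mul] at this
    have h12 : ((w * (1 - w) / (1 + w) - w) * conj w).re =
        ‖w‖ ^ 2 * ((1 - ‖w‖ ^ 2) / ‖1 + w‖ ^ 2) - ‖w‖ ^ 2 := by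
      have e : (w * (1 - w) / (1 + w) - w) * conj w =
          ((‖w‖ ^ 2 : ℝ) : ℂ) * ((1 - w) / (1 + w)) - ((‖w‖ ^ 2 : ℝ) : ℂ) := by
        push_cast
        rw [← Complex.mul_conj']
        ring
      rw [e, sub_re, re_ofReal_mul, ofReal_re, div_re, Complex.normSq_eq_norm_sq, ← add_div]
      congr 3
      rw [← Complex.normSq_eq_norm_sq, Complex.normSq_apply]
      simp
      ring
    rw [h10, h12]
    have hz' : 0 < ‖z‖ := norm_pos_iff.mpr hz0
    have h13 : 0 < (1 - ‖w‖ ^ 2) / ‖1 + w‖ ^ 2 :=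
      div_pos (by nlinarith [norm_nonneg w]) (pow_pos (norm_pos_iff.mpr h2) 2)
    rcases (norm_nonneg w).eq_or_lt with h0 | h0
    · rw [← h0]; simpa using pow_pos hz' 2
    · have := mul_pos (pow_pos h0 2) h13
      nlinarith

lemma coef_koe (u : C2) : coef (koe u) 0 1 5 = 5 * conj (u 1) ^ 5 * u 0 := by
  set s := conj (u 1) with hs
  have e : (fun w : ℂ => koe u (EuclideanSpace.single 1 w) 0) = fun w => psi (s * w) * u 0 := by
    funext w
    simp [koe, EuclideanSpace.inner_single_right, hs, mul_comm]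
  set P : ℂ → ℂ := fun w => (2 * s ^ 2 * u 0) * w ^ 2 + (3 * s ^ 3 * u 0) * w ^ 3 +
    (4 * s ^ 4 * u 0) * w ^ 4 + (5 * s ^ 5 * u 0) * w ^ 5 with hP
  have hne : ∀ᶠ w : ℂ in 𝓝 0, 1 - s * w ≠ 0 :=
    ContinuousAt.eventually_ne (by fun_prop) (by simp)
  have ha : AnalyticAt ℂ (fun w => psi (s * w) * u 0) 0 := by
    unfold psi
    refine AnalyticAt.mul (AnalyticAt.sub (AnalyticAt.div (by fun_prop) (by fun_prop) (by simp))
      (by fun_prop)) analyticAt_const
  have hPa : AnalyticAt ℂ P 0 := by rw [hP]; fun_prop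
  have hlo : ((fun w => psi (s * w) * u 0) - P) =o[𝓝 0] fun t : ℂ => t ^ 5 := by
    have h1 : (fun w : ℂ => (w * (s ^ 6 * (6 - 5 * (s * w)) / (1 - s * w) ^ 2 * u 0)) * w ^ 5)
        =o[𝓝 0] fun t : ℂ => 1 * t ^ 5 := by
      refine IsLittleO.mul_isBigO ?_ (isBigO_refl _ _)
      rw [isLittleO_one_iff]
      have : ContinuousAt (fun w : ℂ => w * (s ^ 6 * (6 - 5 * (s * w)) / (1 - s * w) ^ 2 * u 0))
          0 := by
        refine continuousAt_id.mul (ContinuousAt.mul (ContinuousAt.div (by fun_prop) (by fun_prop)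
          (by simp)) continuousAt_const)
      simpa using this.tendsto
    refine (h1.congr_right fun t => one_mul _).congr' ?_ EventuallyEq.rfl
    filter_upwards [hne] with w hw
    simp only [Pi.sub_apply, hP, psi]
    have hw' : 1 - w * s ≠ 0 := by rwa [mul_comm]
    field_simp
    ring
  have hz := iteratedDeriv_eq_zero_of_isLittleO (ha.sub hPa) hlo
  rw [iteratedDeriv_sub ha.contDiffAt hPa.contDiffAt, sub_eq_zero] at hz
  rw [coef, e, hz, hP]
  simp (disch := fun_prop) only [iteratedDeriv_fun_add, iteratedDeriv_const_mul_field,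
    iteratedDeriv_pow]
  norm_num [Nat.factorial, Nat.descFactorial]

/-- The map `z₂ ^ 5 e₁`. -/
noncomputable def mon (z : C2) : C2 := (z 1 ^ 5) • EuclideanSpace.single 0 (1 : ℂ)

lemma mon_diff : Differentiable ℂ mon := by unfold mon; fun_prop

lemma nrm_eq (z : C2) : ‖z‖ ^ 2 = ‖z 0‖ ^ 2 + ‖z 1‖ ^ 2 := by
  rw [EuclideanSpace.norm_sq_eq, Fin.sum_univ_two]

lemma inner_eq (z w : C2) : inner ℂ z w = w 0 * conj (z 0) + w 1 * conj (z 1) := by
  simp [PiLp.inner_apply, Fin.sum_univ_two]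

lemma koe_avg {L : (C2 → C2) → ℂ} (hL : IsFun L) {m : ℝ} (hm : ∀ g, Star g → (L g).re ≤ m)
    {u : C2} (hu : ‖u‖ = 1) : (L id + (5 * conj (u 1) ^ 5 * u 0) * L mon).re ≤ m := by
  set U : ℝ → C2 := fun θ => conj (circleMap 0 1 θ ^ 5) • EuclideanSpace.single 0 (u 0) +
    conj (circleMap 0 1 θ ^ 1) • EuclideanSpace.single 1 (u 1) with hU
  have hU0 : ∀ θ, U θ 0 = conj (circleMap 0 1 θ ^ 5) * u 0 := fun θ => by simp [hU]
  have hU1 : ∀ θ, U θ 1 = conj (circleMap 0 1 θ ^ 1) * u 1 := fun θ => by simp [hU]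
  have hUn : ∀ θ, ‖U θ‖ = 1 := by
    intro θ
    have h1 := nrm_eq (U θ)
    have h2 := nrm_eq u
    rw [hU0, hU1] at h1
    simp only [norm_mul, Complex.norm_conj, norm_pow, norm_circleMap_zero, abs_one, one_pow,
      one_mul] at h1
    rw [← h2, hu, one_pow] at h1
    exact (sq_eq_sq₀ (norm_nonneg _) zero_le_one).mp (by rw [h1, one_pow])
  have hUc : Continuous U := by
    have := continuous_circleMap 0 1
    rw [hU]; fun_prop
  have hcont : ContinuousOn (fun p : ℝ × C2 => koe (U p.1) p.2) (univ ×ˢ ball 0 1) := by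
    intro p hp
    apply ContinuousAt.continuousWithinAt
    have h1 : ContinuousAt (fun p : ℝ × C2 => inner ℂ (U p.1) p.2) p := by fun_prop
    have h2 : ContinuousAt psi (inner ℂ (U p.1) p.2) :=
      (psi_deriv (one_sub_ne (inner_lt (hUn p.1) hp.2))).continuousAt
    exact continuousAt_snd.add ((ContinuousAt.comp_of_eq h2 h1 rfl).smul (by fun_prop))
  rw [← hL.2.1 _ _ mon_diff.differentiableOn,
    ← hL.1 _ _ differentiableOn_id (mon_diff.differentiableOn.const_smul _)]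
  refine avg_le hL (G := fun θ => koe (U θ)) (fun θ => (star_koe (hUn θ)).1) hcont
    (fun θ => hm _ (star_koe (hUn θ)))
    (differentiableOn_id.add (mon_diff.differentiableOn.const_smul _)) ?_
  intro z hz
  have hab : ‖z 0‖ ^ 2 + ‖z 1‖ ^ 2 < 1 := by
    rw [← nrm_eq]
    exact (sq_lt_one_iff₀ (norm_nonneg _)).mpr (mem_ball_zero_iff.mp hz)
  obtain ⟨hd, -, h0, h1, -⟩ := star_koe hu
  obtain ⟨i1, i2⟩ := avg_coeffs hd h0 (i := 0) (j := 1) (by norm_num) (k := 5) (by norm_num) hab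
  rw [h1, coef_koe] at i1
  rw [h1] at i2
  have hci : Continuous fun θ => koe (U θ) z :=
    hcont.comp_continuous (f := fun θ => (θ, z)) (by fun_prop) fun θ => ⟨trivial, hz⟩
  have hcc : ∀ (θ : ℝ) (m : ℕ), conj (circleMap 0 1 θ ^ m) * circleMap 0 1 θ ^ m = 1 := by
    intro θ m
    rw [Complex.conj_mul']; simp
  have hin : ∀ θ : ℝ, inner ℂ u (EuclideanSpace.single 0 (circleMap 0 1 θ ^ 5 * z 0) +
      EuclideanSpace.single 1 (circleMap 0 1 θ * z 1) : C2) = inner ℂ (U θ) z := by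
    intro θ
    rw [inner_eq, inner_eq, hU0, hU1]
    simp
    ring
  ext i
  have h2 := (EuclideanSpace.proj (𝕜 := ℂ) i).intervalIntegral_comp_comm
    (hci.intervalIntegrable (μ := MeasureTheory.volume) 0 (2 * Real.pi))
  simp only [EuclideanSpace.coe_proj] at h2
  rw [← h2]
  fin_cases i
  · have e : ∀ θ : ℝ, koe (U θ) z 0 = conj (circleMap 0 1 θ ^ 5) *
        koe u (EuclideanSpace.single 0 (circleMap 0 1 θ ^ 5 * z 0) +
          EuclideanSpace.single 1 (circleMap 0 1 θ * z 1)) 0 := by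
      intro θ
      simp only [koe, hin, PiLp.add_apply, PiLp.smul_apply, hU0, smul_eq_mul]
      simp only [PiLp.single_apply]
      norm_num
      have := hcc θ 5
      rw [map_pow] at this
      linear_combination (-z 0) * this
    simp only [Fin.zero_eta, e, i1]
    simp [mon]
    ring
  · have e : ∀ θ : ℝ, koe (U θ) z 1 = conj (circleMap 0 1 θ ^ 1) *
        koe u (EuclideanSpace.single 0 (circleMap 0 1 θ ^ 5 * z 0) +
          EuclideanSpace.single 1 (circleMap 0 1 θ * z 1)) 1 := by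
      intro θ
      simp only [koe, hin, PiLp.add_apply, PiLp.smul_apply, hU1, smul_eq_mul]
      simp only [PiLp.single_apply]
      norm_num
      have := hcc θ 1
      rw [pow_one] at this
      linear_combination (-z 1) * this
    simp only [Fin.mk_one, e, i2]
    simp [mon]

/-- The sharp shearing constant for degree five. -/
noncomputable def a5 : ℝ := bnd 1 1 5

lemma a5_pos : 0 < a5 := bnd_pos one_pos one_pos (by norm_num)

lemma crit5 : crit 1 1 5 = 1 / 6 := by
  unfold crit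
  have : √(((1 : ℝ) + (5 : ℕ) * 1) ^ 2 + 4 * 1 * (1 - 1) * ((5 : ℕ) - 1)) = 6 := by
    rw [Real.sqrt_eq_iff_mul_self_eq (by norm_num) (by norm_num)]
    norm_num
  rw [this]; norm_num

lemma a5_lt : a5 / 4 < 5 * √(5 / 6) ^ 5 * √(1 / 6) := by
  have hx : √(1 / 6 : ℝ) ^ 2 = 1 / 6 := Real.sq_sqrt (by norm_num)
  have hy : √(5 / 6 : ℝ) ^ 2 = 5 / 6 := Real.sq_sqrt (by norm_num)
  have hx0 : 0 < √(1 / 6 : ℝ) := by positivity
  have hy0 : 0 < √(5 / 6 : ℝ) := by positivity
  have e : a5 = 1 / (√(1 / 6) * √(5 / 6) ^ 5) := by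
    unfold a5 bnd
    rw [crit5]
    norm_num
  rw [e, div_div, div_lt_iff₀ (by positivity)]
  have : 5 * √(5 / 6 : ℝ) ^ 5 * √(1 / 6) * (√(1 / 6) * √(5 / 6) ^ 5 * 4) =
      20 * (√(5 / 6) ^ 2) ^ 5 * √(1 / 6) ^ 2 := by ring
  rw [this, hx, hy]
  norm_num

/-- The shear map. -/
noncomputable def sh (c : ℂ) : C2 → C2 := id + c • mon

lemma mon_fderiv (z : C2) : HasFDerivAt mon
    (((5 * z 1 ^ 4) • EuclideanSpace.proj (𝕜 := ℂ) (1 : Fin 2)).smulRight
      (EuclideanSpace.single 0 (1 : ℂ))) z := by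
  have h1 : HasFDerivAt (fun z : C2 => z 1) (EuclideanSpace.proj (𝕜 := ℂ) (1 : Fin 2)) z :=
    (EuclideanSpace.proj (𝕜 := ℂ) (1 : Fin 2)).hasFDerivAt
  refine ((h1.pow 5).smul_const (EuclideanSpace.single 0 (1 : ℂ) : C2)).congr_fderiv ?_
  ext v i
  simp

lemma sh_fderiv (c : ℂ) (z v : C2) : fderiv ℂ (sh c) z v =
    v + (c * (5 * z 1 ^ 4) * v 1) • EuclideanSpace.single 0 (1 : ℂ) := by
  have h : HasFDerivAt (sh c) _ z := (hasFDerivAt_id z).add ((mon_fderiv z).const_smul c)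
  rw [h.fderiv]
  simp [smul_smul, mul_assoc]

lemma sh_diff (c : ℂ) : Differentiable ℂ (sh c) := differentiable_id.add (mon_diff.const_smul c)

lemma sh_zero (c : ℂ) : sh c 0 = 0 := by simp [sh, mon]

lemma sh_fderiv0 (c : ℂ) : fderiv ℂ (sh c) 0 = ContinuousLinearMap.id ℂ C2 := by
  ext v i; simp [sh_fderiv]

lemma sh_inverse (c : ℂ) (z : C2) :
    (fderiv ℂ (sh c) z).inverse ((ContinuousLinearMap.id ℂ C2) (sh c z)) = sh (-(4 * c)) z := by
  have hinv : (fderiv ℂ (sh c) z).IsInvertible := invertible_of_inj fun v hv => by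
    rw [sh_fderiv] at hv
    have h1 : v 1 = 0 := by simpa using congrArg (fun w : C2 => w 1) hv
    simpa [h1] using hv
  rw [hinv.inverse_apply_eq, sh_fderiv]
  ext i
  fin_cases i
  · simp [sh, mon]; ring
  · simp [sh, mon]

lemma sh_pos {c : ℂ} (hc : ‖c‖ ≤ a5) (z : C2) (hz : z ∈ ball (0 : C2) 1) (h0 : z ≠ 0) :
    0 < (inner ℂ z (sh c z)).re := by
  have h1 : ‖z 0‖ ^ 2 + ‖z 1‖ ^ 2 < 1 := by
    rw [← nrm_eq]
    exact (sq_lt_one_iff₀ (norm_nonneg _)).mpr (mem_ball_zero_iff.mp hz)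
  have h2 : 0 < ‖z 0‖ ^ 2 + ‖z 1‖ ^ 2 := by
    rw [← nrm_eq]; exact pow_pos (norm_pos_iff.mpr h0) 2
  have h3 := bnd_lt one_pos one_pos (k := 5) (by norm_num) (norm_nonneg (z 0)) (norm_nonneg (z 1))
    h1 h2
  have e : inner ℂ z (sh c z) = ((‖z 0‖ ^ 2 + ‖z 1‖ ^ 2 : ℝ) : ℂ) + c * z 1 ^ 5 * conj (z 0) := by
    rw [inner_eq]
    simp [sh, mon, ← Complex.mul_conj']
    ring
  have h4 := (abs_le.mp (Complex.abs_re_le_norm (c * z 1 ^ 5 * conj (z 0)))).1
  rw [norm_mul, norm_mul, norm_pow, Complex.norm_conj] at h4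
  have h5 : ‖c‖ * ‖z 1‖ ^ 5 * ‖z 0‖ ≤ a5 * ‖z 1‖ ^ 5 * ‖z 0‖ := by gcongr
  rw [e, add_re, ofReal_re]
  unfold a5 at h5
  linarith

lemma star_sh : Star (sh (a5 / 4 : ℝ)) := by
  refine ⟨(sh_diff _).differentiableOn, ?_, sh_zero _, sh_fderiv0 _, fun z hz h0 => ?_⟩
  · intro z _ w _ h
    have h1 : z 1 = w 1 := by simpa [sh, mon] using congrArg (fun w : C2 => w 1) h
    simp only [sh, mon, Pi.add_apply, id, Pi.smul_apply, h1] at h
    exact add_right_cancel h
  · rw [sh_inverse]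
    refine sh_pos ?_ z hz h0
    rw [norm_neg, norm_mul, Complex.norm_real, Real.norm_of_nonneg (by linarith [a5_pos])]
    simp only [Complex.norm_ofNat]
    linarith

theorem not_support : ¬ ∃ L : (C2 → C2) → ℂ, IsFun L ∧
    (∃ g₁ g₂ : C2 → C2, Star g₁ ∧ Star g₂ ∧ (L g₁).re ≠ (L g₂).re) ∧
    ∀ g, Star g → (L g).re ≤ (L (sh (a5 / 4 : ℝ))).re := by
  rintro ⟨L, hL, ⟨g₁, g₂, h1, h2, hne⟩, hmax⟩
  have hsh : L (sh (a5 / 4 : ℝ)) = L id + (a5 / 4 : ℝ) * L mon := by
    rw [sh, hL.1 _ _ differentiableOn_id (mon_diff.differentiableOn.const_smul _),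
      hL.2.1 _ _ mon_diff.differentiableOn]
  have h0 : L mon = 0 := by
    by_contra hc
    have hn : 0 < ‖L mon‖ := norm_pos_iff.mpr hc
    have hn' : (‖L mon‖ : ℂ) ≠ 0 := by exact_mod_cast hn.ne'
    set u : C2 := !₂[(√(1 / 6) : ℝ) * (conj (L mon) / ‖L mon‖), (√(5 / 6) : ℝ)] with hu
    have hun : ‖u‖ = 1 := by
      refine (sq_eq_sq₀ (norm_nonneg _) zero_le_one).mp ?_
      rw [nrm_eq]
      simp [hu, hn.ne', div_pow]
      norm_num
    have h3 := koe_avg hL hmax hun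
    have e : 5 * conj (u 1) ^ 5 * u 0 * L mon =
        ((5 * √(5 / 6) ^ 5 * √(1 / 6) * ‖L mon‖ : ℝ) : ℂ) := by
      have e1 : conj (L mon) / ‖L mon‖ * L mon = ‖L mon‖ := by
        rw [div_mul_eq_mul_div, Complex.conj_mul', div_eq_iff hn', sq]
      have e2 : u 0 = (√(1 / 6) : ℝ) * (conj (L mon) / ‖L mon‖) := rfl
      have e3 : u 1 = (√(5 / 6) : ℝ) := rfl
      rw [e2, e3, conj_ofReal, mul_assoc, mul_assoc _ _ (L mon), e1]
      simp only [ofReal_mul, ofReal_pow, ofReal_ofNat]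
      ring
    rw [e, hsh, add_re, add_re, ofReal_re, re_ofReal_mul] at h3
    have h4 := re_le_norm (L mon)
    have h5 := a5_lt
    have h6 := a5_pos
    nlinarith
  rw [h0, mul_zero, add_zero] at hsh
  rw [hsh] at hmax
  rw [const_of_id_max hL hmax h1, const_of_id_max hL hmax h2] at hne
  exact hne rfl

lemma coef_an {g : C2 → C2} (hg : DifferentiableOn ℂ g (ball 0 1)) :
    DifferentiableOn ℂ (fun w : ℂ => g (EuclideanSpace.single 1 w) 0) (ball 0 1) := by
  refine (EuclideanSpace.proj (𝕜 := ℂ) (0 : Fin 2)).differentiable.comp_differentiableOn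
    (hg.comp (f := fun w : ℂ => (EuclideanSpace.single 1 w : C2)) ?_ ?_)
  · have : (fun w : ℂ => (EuclideanSpace.single 1 w : C2)) =
        fun w : ℂ => w • (EuclideanSpace.single 1 (1 : ℂ) : C2) := funext (single_eq 1)
    rw [this]
    fun_prop
  · intro w hw
    simpa using hw

lemma isFun_coef : IsFun (fun g => -coef g 0 1 5) := by
  have han : ∀ {g : C2 → C2}, DifferentiableOn ℂ g (ball 0 1) →
      ContDiffAt ℂ (5 : ℕ) (fun w : ℂ => g (EuclideanSpace.single 1 w) 0) 0 := fun hg =>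
    ((coef_an hg).analyticAt (ball_mem_nhds _ one_pos)).contDiffAt
  refine ⟨fun g₁ g₂ h1 h2 => ?_, fun c g hg => ?_, closedBall 0 (1 / 2), isCompact_closedBall _ _,
    closedBall_subset_ball (by norm_num), 32, fun g hg M hM => ?_⟩
  · simp only [coef, Pi.add_apply, PiLp.add_apply]
    rw [iteratedDeriv_fun_add (han h1) (han h2)]
    ring
  · simp only [coef, Pi.smul_apply, PiLp.smul_apply, smul_eq_mul]
    rw [iteratedDeriv_const_mul_field]
    ring
  · have hd : DiffContOnCl ℂ (fun w : ℂ => g (EuclideanSpace.single 1 w) 0) (ball 0 (1 / 2)) := by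
      apply DifferentiableOn.diffContOnCl
      rw [closure_ball _ (by norm_num)]
      exact (coef_an hg).mono (closedBall_subset_ball (by norm_num))
    have := norm_iteratedDeriv_le_of_forall_mem_sphere_norm_le (C := M) 5 (by norm_num) hd (by
      intro w hw
      refine (PiLp.norm_apply_le _ _).trans (hM _ ?_)
      simpa using (mem_sphere_zero_iff_norm.mp hw).le)
    simp only [coef, norm_neg, norm_div, Complex.norm_natCast]
    rw [div_le_iff₀ (by positivity)]
    refine this.trans_eq ?_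
    ring

lemma coef_sh (c : ℂ) : coef (sh c) 0 1 5 = c := by
  have e : (fun w : ℂ => sh c (EuclideanSpace.single 1 w) 0) = fun w => c * w ^ 5 := by
    funext w; simp [sh, mon]
  rw [coef, e, iteratedDeriv_const_mul_field, iteratedDeriv_pow]
  norm_num [Nat.factorial, Nat.descFactorial]

def Car (g : C2 → C2) : Prop :=
  DifferentiableOn ℂ g (ball 0 1) ∧ g 0 = 0 ∧ fderiv ℂ g 0 = ContinuousLinearMap.id ℂ C2 ∧
    ∀ z ∈ ball (0 : C2) 1, z ≠ 0 → 0 < (inner ℂ z (g z)).re

lemma car_sh {c : ℂ} (hc : ‖c‖ ≤ a5) : Car (sh c) :=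
  ⟨(sh_diff _).differentiableOn, sh_zero _, sh_fderiv0 _, sh_pos hc⟩

theorem is_support : ∃ L : (C2 → C2) → ℂ, IsFun L ∧
    (∃ g₁ g₂ : C2 → C2, Car g₁ ∧ Car g₂ ∧ (L g₁).re ≠ (L g₂).re) ∧
    ∀ g, Car g → (L g).re ≤ (L (fun z => (fderiv ℂ (sh (a5 / 4 : ℝ)) z).inverse
      ((ContinuousLinearMap.id ℂ C2) (sh (a5 / 4 : ℝ) z)))).re := by
  refine ⟨_, isFun_coef, ⟨sh 0, sh a5, car_sh (by simpa using a5_pos.le),
    car_sh (by simpa using (abs_of_pos a5_pos).le), ?_⟩, ?_⟩
  · simpa [coef_sh] using a5_pos.ne'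
  · rintro g ⟨h1, h2, h3, h4⟩
    have h5 := coef_le_bnd one_pos one_pos (k := 5) (by norm_num) h1 h2 h4 (i := 0) (j := 1)
      (by norm_num) (by simp [h3]) (by simp [h3])
    have e : (fun z => (fderiv ℂ (sh (a5 / 4 : ℝ)) z).inverse
      ((ContinuousLinearMap.id ℂ C2) (sh (a5 / 4 : ℝ) z))) = sh (-(4 * (a5 / 4 : ℝ))) :=
      funext (sh_inverse _)
    simp only [e, coef_sh]
    have h6 := re_le_norm (-coef g 0 1 5)
    rw [norm_neg] at h6
    have h7 : (- -(4 * ((a5 / 4 : ℝ) : ℂ))).re = a5 := by simp; ring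
    rw [h7]
    exact h6.trans h5

end Pool.Agent.H97.Support
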