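import Mathlib

namespace Pool.Agent.H97.Toep
open Complex Finset MeasureTheory AddCircle

abbrev CT := C(AddCircle (1:ℝ), ℂ)

lemma CT_int (h : CT) : Integrable h haarAddCircle :=
  h.continuous.integrable_of_hasCompactSupport (HasCompactSupport.of_compactSpace _)

noncomputable def kap (n : ℤ) : CT →L[ℂ] ℂ := LinearMap.mkContinuous
  { toFun := fun h => fourierCoeff h n
    map_add' := fun a b => by
      have := congrFun (fourierCoeff.add (CT_int a) (CT_int b)) n
      simpa using this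
    map_smul' := fun c a => by
      have := fourierCoeff.const_smul (⇑a) c n
      simpa using this } 1 (fun h => by
      simp only [LinearMap.coe_mk, AddHom.coe_mk, one_mul, fourierCoeff]
      refine (norm_integral_le_of_norm_le_const (C := ‖h‖) (ae_of_all _ fun t => ?_)).trans (by simp)
      rw [norm_smul, fourier_apply, Circle.norm_coe, one_mul]
      exact h.norm_coe_le_norm t)

lemma kap_apply (n : ℤ) (h : CT) : kap n h = fourierCoeff h n := rfl

lemma kap_fourier (m n : ℤ) : kap n (fourier m) = if n = m then 1 else 0 := by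
  rw [kap_apply, fourierCoeff_fourier]; simp [Pi.single_apply]

lemma fourier_mul (m n : ℤ) : (fourier m * fourier n : CT) = fourier (m + n) := by
  ext t; simp only [ContinuousMap.mul_apply, fourier_add]

lemma kap_mul_fourier (m n : ℤ) (h : CT) : kap n (fourier m * h) = kap (n - m) h := by
  simp only [kap_apply, fourierCoeff, ContinuousMap.mul_apply, smul_eq_mul]
  congr 1; ext t
  rw [← mul_assoc, ← fourier_add]; congr 3; ring

lemma kap_zero_le (h g : CT) (hg : ∀ t, ‖h t‖ ≤ (g t).re) : ‖kap 0 h‖ ≤ (kap 0 g).re := by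
  simp only [kap_apply, fourierCoeff, neg_zero, fourier_zero, one_smul]
  refine (norm_integral_le_integral_norm _).trans ?_
  have := (reCLM.integral_comp_comm (CT_int g))
  simp only [reCLM_apply] at this
  rw [← this]
  exact integral_mono (CT_int h).norm (CT_int g).re hg

lemma parseval (J : ℕ) (y : ℕ → ℂ) (hy : ∀ j, ‖y j‖ ≤ 1) (σ : ℤ) (hσ : σ ≠ 0) :
    (kap 0 ((∑ j ∈ range J, y j • fourier (σ * j)) *
      star (∑ j ∈ range J, y j • (fourier (σ * j) : CT)))).re ≤ J := by
  have hs : ∀ m : ℤ, star (fourier m : CT) = fourier (-m) := fun m => by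
    ext t; simp only [ContinuousMap.star_apply, fourier_neg]; rfl
  simp only [star_sum, star_smul, hs, sum_mul_sum, smul_mul_smul_comm, fourier_mul, map_sum,
    map_smul, kap_fourier, smul_eq_mul, re_sum]
  calc _ ≤ ∑ j ∈ range J, (1:ℝ) := sum_le_sum fun i hi => ?_
    _ = J := by simp
  rw [sum_eq_single i]
  · have := hy i
    simp only [add_neg_cancel, if_true, mul_one, RCLike.star_def, mul_conj, ofReal_re,
      normSq_eq_norm_sq]
    nlinarith [norm_nonneg (y i)]
  · intro j _ hj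
    rw [if_neg]; · simp
    intro h
    have : σ * ((i:ℤ) - j) = 0 := by linarith
    rcases mul_eq_zero.1 this with h | h
    · exact hσ h
    · omega
  · intro h; exact absurd hi h

lemma exists_sign (z : ℂ) : ∃ e : ℂ, ‖e‖ ≤ 1 ∧ e * z = ‖z‖ := by
  by_cases h : z = 0
  · exact ⟨0, by simp, by simp [h]⟩
  · have : (‖z‖:ℂ) ≠ 0 := by simpa using h
    refine ⟨‖z‖ / z, by simp [h], by field_simp⟩

lemma toeplitz_bd (m : ℤ → ℂ) (Ls : Finset ℤ) (δ : ℝ) (hδ : 0 ≤ δ)
    (hm : ∀ θ : AddCircle (1:ℝ), ‖∑ l ∈ Ls, m l * fourier l θ‖ ≤ δ) (hs : ∀ l, l ∉ Ls → m l = 0)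
    (J : ℕ) (y : ℕ → ℂ) (hy : ∀ j, ‖y j‖ ≤ 1) :
    ∑ i ∈ range J, ‖∑ j ∈ range J, m ((i:ℤ) - j) * y j‖ ≤ J * δ := by
  choose e he1 he2 using fun i : ℕ => exists_sign (∑ j ∈ range J, m ((i:ℤ) - j) * y j)
  set E : CT := ∑ j ∈ range J, e j • fourier ((-1) * j) with hE
  set Y : CT := ∑ j ∈ range J, y j • fourier (1 * j) with hY
  set M : CT := ∑ l ∈ Ls, m l • fourier l with hM
  have h1 : kap 0 (E * Y * M) = ∑ i ∈ range J, (‖∑ j ∈ range J, m ((i:ℤ) - j) * y j‖ : ℂ) := by
    simp only [hE, hY, hM, sum_mul, mul_sum, smul_mul_smul_comm, fourier_mul, map_sum,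
      map_smul, kap_fourier, smul_eq_mul]
    rw [sum_comm]
    simp_rw [← he2, mul_sum]
    rw [sum_comm (s := range J) (t := range J)]
    refine sum_congr rfl fun j _ => ?_
    rw [sum_comm]
    refine sum_congr rfl fun i _ => ?_
    by_cases hl : (i:ℤ) - j ∈ Ls
    · rw [sum_eq_single ((i:ℤ) - j)]
      · rw [if_pos (by ring)]; ring
      · intro l _ hl; rw [if_neg (by omega)]; simp
      · intro h; exact absurd hl h
    · rw [hs _ hl, sum_eq_zero]; · simp
      intro l hl'
      rw [if_neg]; · simp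
      intro h; apply hl; convert hl' using 1; omega
  have h2 := kap_zero_le (E * Y * M) (((δ / 2 : ℝ) : ℂ) • (E * star E + Y * star Y)) (fun t => by
    have : ‖M t‖ ≤ δ := by
      have := hm t
      simpa [hM] using this
    simp only [ContinuousMap.mul_apply, norm_mul, ContinuousMap.smul_apply,
      ContinuousMap.add_apply, ContinuousMap.star_apply, RCLike.star_def, mul_conj, smul_eq_mul,
      re_ofReal_mul, add_re, ofReal_re, normSq_eq_norm_sq]
    have h0 : 0 ≤ ‖E t‖ * ‖Y t‖ := by positivity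
    nlinarith [sq_nonneg (‖E t‖ - ‖Y t‖), mul_le_mul_of_nonneg_left this h0])
  have h3 := parseval J e he1 (-1) (by norm_num)
  have h4 := parseval J y hy 1 (by norm_num)
  rw [map_smul, map_add, smul_eq_mul, re_ofReal_mul, add_re, h1] at h2
  rw [← hE] at h3; rw [← hY] at h4
  rw [← ofReal_sum, norm_real, Real.norm_of_nonneg (by positivity)] at h2
  nlinarith

lemma exists_beta (δ : ℝ) (hδ : 0 < δ) : ∃ (K : ℕ) (β : ℕ → ℝ), 1 ≤ K ∧ (∀ k, 0 ≤ β k) ∧
    ∑ k ∈ Icc 1 K, β k = 1 ∧
    ∀ x : ℂ, ‖x‖ = 1 → ‖∑ k ∈ Icc 1 K, (β k : ℂ) * (x ^ k - x⁻¹ ^ k)‖ ≤ δ := by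
  set L : ℝ := 10 / δ + 1 with hL
  have hL1 : 1 < L := by have : 0 < 10 / δ := by positivity
                         linarith
  set r : ℝ := 1 - Real.exp (-L) with hr
  have hr0 : 0 < r := by
    have : Real.exp (-L) < 1 := Real.exp_lt_one_iff.2 (by linarith)
    linarith
  have hr1 : r < 1 := by have := Real.exp_pos (-L); linarith
  have hS : HasSum (fun n : ℕ => r ^ n / n) L := by
    have := hasSum_taylorSeries_neg_log (z := (r:ℂ)) (by simpa [abs_of_pos hr0] using hr1)
    have e : -log (1 - (r:ℂ)) = (L:ℂ) := by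
      rw [hr]; push_cast
      rw [sub_sub_cancel, ← ofReal_neg, ← ofReal_exp, ← ofReal_log (Real.exp_pos _).le,
        Real.log_exp]; simp
    rw [e] at this
    exact_mod_cast this
  obtain ⟨K, hK⟩ := ((hS.tendsto_sum_nat.eventually (lt_mem_nhds (show L - 1 < L by linarith))).and
    (Filter.eventually_ge_atTop 2)).exists
  obtain ⟨K, rfl⟩ : ∃ K', K = K' + 1 := ⟨K - 1, by omega⟩
  have hI : ∀ {M : Type} [AddCommMonoid M] (u : ℕ → M), u 0 = 0 →
      ∑ k ∈ range (K + 1), u k = ∑ k ∈ Icc 1 K, u k := fun u hu => by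
    rw [range_eq_Ico, sum_eq_sum_Ico_succ_bot (by omega), hu, zero_add]; rfl
  set H : ℝ := ∑ k ∈ range (K + 1), r ^ k / k with hH
  have hH0 : 10 / δ < H := by linarith [hK.1]
  have hHp : 0 < H := lt_trans (by positivity) hH0
  have tail : ∀ x : ℂ, ‖x‖ = 1 →
      ‖-log (1 - r * x) - ∑ k ∈ range (K + 1), (r * x) ^ k / k‖ ≤ 1 := fun x hx => by
    have h1 := hasSum_taylorSeries_neg_log (z := (r:ℂ) * x) (by simpa [abs_of_pos hr0, hx] using hr1)
    have h2 := (hasSum_nat_add_iff' (K + 1)).2 h1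
    have h3 := (hasSum_nat_add_iff' (K + 1)).2 hS
    refine (h2.norm_le_of_bounded h3 fun n => ?_).trans (by linarith [hK.1])
    simp only [norm_div, norm_pow, norm_mul, hx, norm_real, Real.norm_of_nonneg hr0.le,
      Complex.norm_natCast, mul_one, le_refl]
  refine ⟨K, fun k => r ^ k / k / H, by omega, fun k => by positivity, ?_, fun x hx => ?_⟩
  · rw [← sum_div, ← hI _ (by simp), ← hH, div_self hHp.ne']
  · have hx' : x⁻¹ = (starRingEnd ℂ) x := inv_eq_conj hx
    have e : ∑ k ∈ Icc 1 K, ((r ^ k / k / H : ℝ) : ℂ) * (x ^ k - x⁻¹ ^ k) =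
        ((∑ k ∈ range (K + 1), (r * x) ^ k / k) - ∑ k ∈ range (K + 1), (r * x⁻¹) ^ k / k) / H := by
      rw [← sum_sub_distrib, hI _ (by simp), sum_div]
      refine sum_congr rfl fun k _ => ?_
      push_cast; rw [mul_pow, mul_pow]; ring
    have t1 := tail x hx
    have t2 := tail x⁻¹ (by simp [hx])
    have hn : ‖1 - r * x⁻¹‖ = ‖1 - r * x‖ := by
      rw [hx', ← norm_conj (1 - r * x)]; simp
    have hl : ‖log (1 - r * x⁻¹) - log (1 - r * x)‖ ≤ 8 := by
      have : log (1 - r * x⁻¹) - log (1 - r * x) = ((arg (1 - r * x⁻¹) - arg (1 - r * x) : ℝ) : ℂ) * I := by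
        simp only [Complex.log, hn]; push_cast; ring
      rw [this, norm_mul, norm_I, mul_one, norm_real, Real.norm_eq_abs]
      have a1 := abs_arg_le_pi (1 - r * x⁻¹)
      have a2 := abs_arg_le_pi (1 - r * x)
      have := Real.pi_lt_four
      rw [abs_le] at *; constructor <;> linarith [a1.1, a1.2, a2.1, a2.2]
    rw [e, norm_div, norm_real, Real.norm_of_nonneg hHp.le, div_le_iff₀ hHp]
    have : 10 < δ * H := by rw [div_lt_iff₀ hδ] at hH0; linarith
    calc _ = ‖(log (1 - r * x⁻¹) - log (1 - r * x)) -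
          (-log (1 - r * x) - ∑ k ∈ range (K + 1), (r * x) ^ k / k) +
          (-log (1 - r * x⁻¹) - ∑ k ∈ range (K + 1), (r * x⁻¹) ^ k / k)‖ := by congr 1; ring
      _ ≤ 8 + 1 + 1 := norm_add_le_of_le (norm_sub_le_of_le hl t1) t2
      _ ≤ _ := by linarith

end Pool.Agent.H97.Toep
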