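import Pool.Agent.H97.Toep1

namespace Pool.Agent.H97.Toep
open Complex Finset

abbrev Fn := ℤ → ℂ

noncomputable def pr (χ : ℤ →₀ ℂ) (h : Fn) : ℂ := Finsupp.linearCombination ℂ h χ

lemma pr_eq (χ : ℤ →₀ ℂ) (h : Fn) : pr χ h = ∑ k ∈ χ.support, χ k * h k := by
  simp [pr, Finsupp.linearCombination_apply, Finsupp.sum]

noncomputable def cut (x : ℂ) (w : Fn) : Fn := fun m => if 0 < m then w m * x ^ m else 0

noncomputable def conv (χ : ℤ →₀ ℂ) (w : Fn) : Fn := fun n => pr χ fun k => w (n - k)

lemma pr_symm (a b : ℤ →₀ ℂ) (h : Fn) (n : ℤ) :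
    pr a (fun k => b (n - k) * h (n - k)) = pr b (fun m => a (n - m) * h m) := by
  induction a using Finsupp.induction_linear with
  | zero => simp [pr_eq]
  | add a a' h1 h2 =>
    have e1 : pr (a + a') (fun k => b (n - k) * h (n - k)) =
      pr a (fun k => b (n - k) * h (n - k)) + pr a' (fun k => b (n - k) * h (n - k)) := by
      simp only [pr, map_add]
    rw [e1, h1, h2]
    simp only [pr_eq, Finsupp.add_apply, add_mul, mul_add, sum_add_distrib]
  | single k c =>
    have e1 : pr (Finsupp.single k c) (fun k => b (n - k) * h (n - k)) = c * (b (n - k) * h (n - k)) := by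
      simp [pr]
    rw [e1, pr_eq, sum_eq_single (n - k)]
    · simp; ring
    · intro m _ hm
      rw [Finsupp.single_eq_of_ne (by omega)]; simp
    · intro hm; rw [Finsupp.notMem_support_iff.1 hm]; simp

lemma digit (A : ℤ) (σ σ' : ℤ) (j j' : ℕ) (hA : 0 < A) (h1 : |σ| < A) (h0 : σ ≠ 0) (hj : j < j')
    (h : σ * A ^ (2 * j) = σ' * A ^ (2 * j')) : False := by
  obtain ⟨d, rfl⟩ : ∃ d, j' = j + 1 + d := ⟨j' - j - 1, by omega⟩
  have : σ = A * (σ' * A ^ (2 * d + 1)) := by
    apply mul_right_cancel₀ (pow_ne_zero (2 * j) hA.ne')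
    rw [h]; ring
  have h2 : σ' * A ^ (2 * d + 1) ≠ 0 := by rintro h; rw [h] at this; simp_all
  rw [this, abs_mul, abs_of_pos hA] at h1
  have := Int.one_le_abs h2
  nlinarith

lemma exists_base (δ : ℝ) (hδ : 0 < δ) : ∃ (P : Finset ℤ) (φ ψ : ℤ →₀ ℂ), (∀ n ∈ P, 0 < n) ∧
    (∀ n ∈ P, φ n = 0 ∧ ψ n = 0) ∧
    (∀ χ χ' : ℤ →₀ ℂ, (χ = φ ∨ χ = ψ) → (χ' = φ ∨ χ' = ψ) → ∀ x : ℂ, ‖x‖ = 1 →
      ∑ n ∈ P, ‖conv χ' (cut x χ) n‖ ≤ δ) ∧ 1 / 2 ≤ ∑ n ∈ P, ‖conv φ ψ n‖ := by
  classical
  obtain ⟨K, β, hK, hβ0, hβ1, hβ⟩ := exists_beta δ hδ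
  set J := 2 * K with hJ
  have hJ0 : (0:ℝ) < J := by have : 0 < J := by omega
                             exact_mod_cast this
  set A : ℤ := K + 1 with hA
  have hA2 : 2 ≤ A := by omega
  set Q : ℤ := 3 * J with hQ
  have hQ0 : 0 < Q := by omega
  set q : ℕ → ℤ := fun j => Q * A ^ (2 * j) with hq
  set nn : ℕ → ℤ := fun i => Q * A ^ (2 * i + 1) + 3 * i + 1 with hnn
  have hq0 : ∀ j, 0 < q j := fun j => by simp only [hq]; positivity
  have hn0 : ∀ i, 0 < nn i := fun i => by simp only [hnn]; positivity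
  set m : ℤ → ℂ := fun l => if l ∈ Icc (1:ℤ) K then -(β l.toNat) else
    if -l ∈ Icc (1:ℤ) K then β (-l).toNat else 0 with hm
  set M : ℕ → ℕ → ℂ := fun i j => m ((i:ℤ) - j) / J with hM
  set φ : ℤ →₀ ℂ := ∑ j ∈ range J, ∑ k ∈ Icc 1 K,
    (Finsupp.single ((k:ℤ) * q j) (β k : ℂ) - Finsupp.single (-((k:ℤ) * q j)) (β k : ℂ)) with hφ
  set ψ : ℤ →₀ ℂ := ∑ i ∈ range J, ∑ j ∈ range J, ∑ k ∈ Icc 1 K,
    (Finsupp.single (nn i - (k:ℤ) * q j) (M i j) +
      Finsupp.single (nn i + (k:ℤ) * q j) (if j ≤ i then M i j else 0)) with hψ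
  have prφ : ∀ h : Fn, pr φ h = ∑ j ∈ range J, ∑ k ∈ Icc 1 K,
      (β k : ℂ) * (h ((k:ℤ) * q j) - h (-((k:ℤ) * q j))) := fun h => by
    simp only [pr, hφ, map_sum, map_sub, Finsupp.linearCombination_single, smul_eq_mul, mul_sub]
  have inj : ∀ i i' j j' : ℕ, ∀ σ σ' : ℤ, i < J → i' < J → |σ| < A → |σ'| < A → σ' ≠ 0 →
      nn i + σ * q j = nn i' + σ' * q j' → i = i' ∧ j = j' ∧ σ = σ' := by
    intro i i' j j' σ σ' hi hi' hσ hσ' h0 h
    have hd : Q ∣ 3 * ((i:ℤ) - i') := ⟨A ^ (2 * i' + 1) + σ' * A ^ (2 * j') - A ^ (2 * i + 1) -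
      σ * A ^ (2 * j), by simp only [hnn, hq] at h; linear_combination h⟩
    have hii : i = i' := by
      have := Int.eq_zero_of_abs_lt_dvd hd (by rw [abs_lt]; omega)
      omega
    subst hii
    have h2 : σ * A ^ (2 * j) = σ' * A ^ (2 * j') := by
      apply mul_left_cancel₀ hQ0.ne'
      simp only [hnn, hq] at h; linear_combination h
    have h0' : σ ≠ 0 := by
      rintro rfl
      have : σ' * A ^ (2 * j') ≠ 0 := mul_ne_zero h0 (pow_ne_zero _ (by omega))
      exact this (by rw [← h2]; simp)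
    have hjj : j = j' := by
      rcases lt_trichotomy j j' with hj | hj | hj
      · exact (digit A σ σ' j j' (by omega) hσ h0' hj h2).elim
      · exact hj
      · exact (digit A σ' σ j' j (by omega) hσ' h0 hj h2.symm).elim
    subst hjj
    exact ⟨rfl, rfl, mul_right_cancel₀ (pow_ne_zero _ (by omega)) h2⟩
  have ψval : ∀ i j : ℕ, ∀ σ : ℤ, i < J → j < J → |σ| < A → ψ (nn i + σ * q j) =
      if σ < 0 then M i j else if 0 < σ ∧ j ≤ i then M i j else 0 := by
    intro i j σ hi hj hσ
    have t1 : ∀ i' j' k' : ℕ, i' < J → k' ∈ Icc 1 K → ∀ c : ℂ,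
        Finsupp.single (nn i' - (k':ℤ) * q j') c (nn i + σ * q j) =
          if i' = i ∧ j' = j ∧ σ = -k' then c else 0 := by
      intro i' j' k' hi' hk' c
      rw [mem_Icc] at hk'
      rw [Finsupp.single_apply]
      congr 1
      refine propext ⟨fun h => ?_, by rintro ⟨rfl, rfl, rfl⟩; ring⟩
      have := inj i i' j j' σ (-k') hi hi' hσ (by rw [abs_lt]; omega) (by omega) (by rw [← h]; ring)
      omega
    have t2 : ∀ i' j' k' : ℕ, i' < J → k' ∈ Icc 1 K → ∀ c : ℂ,
        Finsupp.single (nn i' + (k':ℤ) * q j') c (nn i + σ * q j) =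
          if i' = i ∧ j' = j ∧ σ = k' then c else 0 := by
      intro i' j' k' hi' hk' c
      rw [mem_Icc] at hk'
      rw [Finsupp.single_apply]
      congr 1
      refine propext ⟨fun h => ?_, by rintro ⟨rfl, rfl, rfl⟩; ring⟩
      have := inj i i' j j' σ k' hi hi' hσ (by rw [abs_lt]; omega) (by omega) h.symm
      omega
    simp only [hψ, Finsupp.finsetSum_apply, Finsupp.add_apply]
    rw [sum_eq_single i, sum_eq_single j]
    · rw [sum_congr rfl fun k hk => by rw [t1 i j k hi hk, t2 i j k hi hk]]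
      rw [abs_lt] at hσ
      by_cases h0 : σ = 0
      · rw [sum_eq_zero]; · simp [h0]
        intro k hk; rw [mem_Icc] at hk
        rw [if_neg (by omega), if_neg (by omega)]; simp
      rw [sum_eq_single σ.natAbs]
      · by_cases h1 : σ < 0
        · rw [if_pos (by omega), if_neg (by omega), if_pos h1]; simp
        · rw [if_neg (by omega), if_pos (by omega), if_neg h1]
          simp [show 0 < σ by omega]
      · intro k _ hk; rw [if_neg (by omega), if_neg (by omega)]; simp
      · intro hk; rw [mem_Icc] at hk; omega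
    · intro j' _ hj'
      refine sum_eq_zero fun k hk => ?_
      rw [t1 i j' k hi hk, t2 i j' k hi hk, if_neg (by omega), if_neg (by omega)]; simp
    · intro h; exact absurd (mem_range.2 hj) h
    · intro i' hi' hii
      refine sum_eq_zero fun j' _ => sum_eq_zero fun k hk => ?_
      rw [t1 i' j' k (mem_range.1 hi') hk, t2 i' j' k (mem_range.1 hi') hk, if_neg (by omega),
        if_neg (by omega)]; simp
    · intro h; exact absurd (mem_range.2 hi) h
  have ψm : ∀ i j k : ℕ, i < J → j < J → k ∈ Icc 1 K → ψ (nn i - k * q j) = M i j := by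
    intro i j k hi hj hk
    rw [mem_Icc] at hk
    have := ψval i j (-k) hi hj (by rw [abs_lt]; omega)
    rw [if_pos (by omega)] at this
    rw [← this]; congr 1; ring
  have ψp : ∀ i j k : ℕ, i < J → j < J → k ∈ Icc 1 K →
      ψ (nn i - -(k * q j)) = if j ≤ i then M i j else 0 := by
    intro i j k hi hj hk
    rw [mem_Icc] at hk
    have := ψval i j k hi hj (by rw [abs_lt]; omega)
    rw [if_neg (by omega)] at this
    rw [sub_neg_eq_add, this]; simp [show 0 < k by omega]
  have q3 : ∀ j, q j % 3 = 0 := fun j => by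
    have : q j = 3 * (J * A ^ (2 * j)) := by simp only [hq, hQ]; ring
    omega
  have n3 : ∀ i, nn i % 3 = 1 := fun i => by
    have : nn i = 3 * (J * A ^ (2 * i + 1) + i) + 1 := by simp only [hnn, hQ]; ring
    omega
  have kq3 : ∀ k j : ℕ, ((k:ℤ) * q j) % 3 = 0 := fun k j => by
    rw [Int.mul_emod, q3]; simp
  have φ3 : ∀ z, z % 3 ≠ 0 → φ z = 0 := fun z hz => by
    simp only [hφ, Finsupp.finsetSum_apply, Finsupp.sub_apply]
    refine sum_eq_zero fun j _ => sum_eq_zero fun k _ => ?_
    have := kq3 k j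
    rw [Finsupp.single_eq_of_ne (by omega), Finsupp.single_eq_of_ne (by omega)]; simp
  have ψ3 : ∀ z, z % 3 ≠ 1 → ψ z = 0 := fun z hz => by
    simp only [hψ, Finsupp.finsetSum_apply, Finsupp.add_apply]
    refine sum_eq_zero fun i _ => sum_eq_zero fun j _ => sum_eq_zero fun k _ => ?_
    have := kq3 k j
    have := n3 i
    rw [Finsupp.single_eq_of_ne (by omega), Finsupp.single_eq_of_ne (by omega)]; simp
  have ninj : Set.InjOn nn (range J) := fun i hi i' hi' h => by
    have := inj i i' 0 0 1 1 (by simpa using hi) (by simpa using hi') (by simp; omega)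
      (by simp; omega) one_ne_zero (by rw [h])
    exact this.1
  have lo : ∀ i j k : ℕ, j ≤ i → k ∈ Icc 1 K → 0 < nn i - k * q j := by
    intro i j k hj hk
    rw [mem_Icc] at hk
    have h1 : A ^ (2 * j) ≤ A ^ (2 * i) := pow_le_pow_right₀ (by omega) (by omega)
    have h2 : (k:ℤ) * A ^ (2 * j) ≤ A * A ^ (2 * i) :=
      mul_le_mul (by omega) h1 (by positivity) (by omega)
    have := mul_le_mul_of_nonneg_left h2 hQ0.le
    simp only [hnn, hq]; rw [pow_succ]; nlinarith
  have hi' : ∀ i j k : ℕ, i < J → i < j → k ∈ Icc 1 K → ¬ 0 < nn i - k * q j := by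
    intro i j k hi hj hk
    rw [mem_Icc] at hk
    have h1 : A ^ (2 * i + 1 + 1) ≤ A ^ (2 * j) := pow_le_pow_right₀ (by omega) (by omega)
    have h0 : 1 ≤ A ^ (2 * i + 1) := one_le_pow₀ (by omega)
    have h2 : A ^ (2 * i + 1) + 1 ≤ (k:ℤ) * A ^ (2 * j) := by
      rw [pow_succ] at h1
      have : (1:ℤ) ≤ k := by omega
      have h3 : 1 * A ^ (2 * j) ≤ k * A ^ (2 * j) := mul_le_mul_of_nonneg_right this (by positivity)
      have h4 : A ^ (2 * i + 1) * 2 ≤ A ^ (2 * i + 1) * A := mul_le_mul_of_nonneg_left hA2 (by omega)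
      linarith
    have := mul_le_mul_of_nonneg_left h2 hQ0.le
    simp only [hnn, hq]
    have : (i:ℤ) < J := by exact_mod_cast hi
    nlinarith
  have hrow : ∀ i, ∑ j ∈ range J, (if j ≤ i then ‖M i j‖ else 0) ≤ 1 / J := by
    intro i
    have : ∀ j ∈ range J, (if j ≤ i then ‖M i j‖ else 0) =
        ∑ k ∈ Icc 1 K, if j = i - k ∧ k ≤ i then β k / J else 0 := by
      intro j _
      by_cases h : j ≤ i ∧ i - j ∈ Icc 1 K
      · rw [if_pos h.1, sum_eq_single (i - j), if_pos (by omega)]
        · have h2 := mem_Icc.1 h.2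
          simp only [hM, hm]
          rw [if_pos (by rw [mem_Icc]; omega), show ((i:ℤ) - j).toNat = i - j by omega]
          simp [abs_of_nonneg (hβ0 _)]
        · intro k _ hk; rw [if_neg (by omega)]
        · intro h'; exact absurd h.2 h'
      · rw [mem_Icc] at h
        rw [sum_eq_zero fun k hk => by rw [mem_Icc] at hk; rw [if_neg (by omega)]]
        split_ifs with h2
        · simp only [hM, hm]
          rw [if_neg (by rw [mem_Icc]; omega), if_neg (by rw [mem_Icc]; omega)]; simp
        · rfl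
    rw [sum_congr rfl this, sum_comm, ← hβ1, sum_div]
    refine sum_le_sum fun k _ => ?_
    by_cases hk : k ≤ i
    · simp only [hk, and_true, sum_ite_eq', mem_range]
      split_ifs
      · rfl
      · have := hβ0 k; positivity
    · simp only [hk, and_false, if_false, sum_const_zero]; have := hβ0 k; positivity
  refine ⟨(range J).image nn, φ, ψ, by simp [hn0], ?_, ?_, ?_⟩
  · simp only [mem_image, mem_range, forall_exists_index, and_imp, forall_apply_eq_imp_iff₂]
    intro i hi
    refine ⟨φ3 _ (by rw [n3]; norm_num), ?_⟩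
    have := ψval i 0 0 hi (by omega) (by simp; omega)
    simpa using this
  · intro χ χ' hχ hχ' x hx
    have hx0 : x ≠ 0 := by rintro rfl; simp at hx
    rw [sum_image ninj]
    rcases hχ with rfl | rfl <;> rcases hχ' with rfl | rfl
    · refine le_trans (le_of_eq (sum_eq_zero fun i _ => ?_)) hδ.le
      rw [conv, pr_eq, sum_eq_zero]; · simp
      intro k _
      have := n3 i
      by_cases h : k % 3 = 0
      · simp [cut, φ3 (nn i - k) (by omega)]
      · simp [φ3 k h]
    · have e : ∀ i ∈ range J, ‖conv ψ (cut x φ) (nn i)‖ = ‖∑ j ∈ range J, m ((i:ℤ) - j) *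
          (∑ k ∈ Icc 1 K, (β k : ℂ) * x ^ ((k:ℤ) * q j))‖ / J := by
        intro i hi
        have := pr_symm ψ φ (fun m => if 0 < m then x ^ m else 0) (nn i)
        have e2 : conv ψ (cut x φ) (nn i) = pr ψ fun k => φ (nn i - k) *
            (if 0 < nn i - k then x ^ (nn i - k) else 0) := by
          simp only [conv, cut, mul_ite, mul_zero]
        rw [e2, this, prφ, ← Complex.norm_natCast J, ← norm_div, sum_div]
        congr 1
        refine sum_congr rfl fun j hj => ?_
        rw [mul_sum, sum_div]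
        refine sum_congr rfl fun k hk => ?_
        have : 0 < (k:ℤ) * q j := mul_pos (by have := mem_Icc.1 hk; omega) (hq0 j)
        rw [ψm i j k (mem_range.1 hi) (mem_range.1 hj) hk, if_pos this, if_neg (by omega)]
        simp only [hM]; ring
      rw [sum_congr rfl e, ← sum_div, div_le_iff₀ hJ0, mul_comm]
      refine toeplitz_bd m ((Icc 1 K).image (fun k : ℕ => (k:ℤ)) ∪
        (Icc 1 K).image (fun k : ℕ => -(k:ℤ))) δ hδ.le (fun θ => ?_) (fun l hl => ?_) J _ fun j => ?_
      · rw [sum_union (by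
          rw [disjoint_left]; simp only [mem_image, mem_Icc]
          rintro _ ⟨a, ha, rfl⟩ ⟨b, hb, h⟩; omega),
          sum_image (fun a _ b _ h => by simpa using h),
          sum_image (fun a _ b _ h => by simpa using h), ← sum_add_distrib, ← norm_neg, ← sum_neg_distrib]
        have h1 : ‖(fourier 1 θ : ℂ)‖ = 1 := by rw [fourier_apply, Circle.norm_coe]
        refine le_trans (le_of_eq (congrArg _ (sum_congr rfl fun k hk => ?_))) (hβ _ h1)
        have hk' := mem_Icc.1 hk
        have f1 : ∀ k : ℕ, (fourier (k:ℤ) θ : ℂ) = fourier 1 θ ^ k := fun k => by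
          induction k with
          | zero => simp
          | succ k ih => rw [pow_succ, ← ih, ← fourier_add]; rfl
        have f2 : (fourier (-(k:ℤ)) θ : ℂ) = (fourier 1 θ)⁻¹ ^ k := by
          rw [fourier_neg, f1, inv_eq_conj h1, map_pow]
        simp only [hm]
        rw [if_pos (by rw [mem_Icc]; omega), if_neg (by rw [mem_Icc]; omega),
          if_pos (by rw [mem_Icc]; omega), f1, f2]
        simp; ring
      · simp only [mem_union, mem_image, mem_Icc, not_or, not_exists, not_and] at hl
        simp only [hm]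
        rw [if_neg, if_neg]
        · rw [mem_Icc]; intro h; exact hl.2 (-l).toNat (by omega) (by omega)
        · rw [mem_Icc]; intro h; exact hl.1 l.toNat (by omega) (by omega)
      · refine (norm_sum_le _ _).trans (le_of_eq ?_)
        rw [← hβ1]
        refine sum_congr rfl fun k _ => ?_
        simp [norm_zpow, hx, abs_of_nonneg (hβ0 _)]
    · have e : ∀ i ∈ range J, ‖conv φ (cut x ψ) (nn i)‖ ≤ 1 / J * δ := by
        intro i hi
        rw [conv, prφ]
        refine (norm_sum_le _ _).trans (le_trans ?_ (mul_le_mul_of_nonneg_right (hrow i) hδ.le))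
        rw [sum_mul]
        refine sum_le_sum fun j hj => ?_
        by_cases hji : j ≤ i
        · have e2 : ∑ k ∈ Icc 1 K, (β k : ℂ) * (cut x ψ (nn i - (k:ℤ) * q j) -
              cut x ψ (nn i - -((k:ℤ) * q j))) = -(M i j * x ^ nn i) *
              ∑ k ∈ Icc 1 K, (β k : ℂ) * ((x ^ q j) ^ k - (x ^ q j)⁻¹ ^ k) := by
            rw [mul_sum]
            refine sum_congr rfl fun k hk => ?_
            have : 0 < (k:ℤ) * q j := mul_pos (by have := mem_Icc.1 hk; omega) (hq0 j)
            have := hn0 i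
            simp only [cut]
            rw [ψm i j k (mem_range.1 hi) (mem_range.1 hj) hk, if_pos (lo i j k hji hk),
              ψp i j k (mem_range.1 hi) (mem_range.1 hj) hk, if_pos (by omega), if_pos hji,
              sub_neg_eq_add, zpow_add₀ hx0, zpow_sub₀ hx0, mul_comm (k:ℤ), zpow_mul, zpow_natCast,
              inv_pow]
            ring
          rw [e2, if_pos hji, norm_mul, norm_neg, norm_mul, norm_zpow, hx, one_zpow, mul_one]
          exact mul_le_mul_of_nonneg_left (hβ _ (by simp [norm_zpow, hx])) (norm_nonneg _)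
        · rw [sum_eq_zero, if_neg hji]; · simp
          intro k hk
          simp only [cut]
          rw [if_neg (hi' i j k (mem_range.1 hi) (by omega) hk),
            ψp i j k (mem_range.1 hi) (mem_range.1 hj) hk, if_neg hji]; simp
      refine (sum_le_sum e).trans (le_of_eq ?_)
      simp only [sum_const, card_range, nsmul_eq_mul]; field_simp
    · refine le_trans (le_of_eq (sum_eq_zero fun i _ => ?_)) hδ.le
      rw [conv, pr_eq, sum_eq_zero]; · simp
      intro k _
      have := n3 i
      by_cases h : k % 3 = 1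
      · simp [cut, ψ3 (nn i - k) (by omega)]
      · simp [ψ3 k h]
  · rw [sum_image ninj]
    have e : ∀ i ∈ range K, ‖conv φ ψ (nn i)‖ = 1 / J := by
      intro i hi
      have hi2 := mem_range.1 hi
      have : conv φ ψ (nn i) = ∑ j ∈ range J, if j ≤ i then 0 else M i j := by
        rw [conv, prφ]
        refine sum_congr rfl fun j hj => ?_
        rw [sum_congr rfl fun k hk => by
          rw [ψm i j k (by omega) (mem_range.1 hj) hk, ψp i j k (by omega) (mem_range.1 hj) hk],
          ← sum_mul, ← ofReal_sum, hβ1]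
        split_ifs <;> simp
      have e2 : ∀ j ∈ range J, (if j ≤ i then 0 else M i j) =
          ∑ k ∈ Icc 1 K, if j = i + k then (β k : ℂ) / J else 0 := by
        intro j _
        by_cases h : i < j ∧ j - i ∈ Icc 1 K
        · have h2 := mem_Icc.1 h.2
          rw [if_neg (by omega), sum_eq_single (j - i), if_pos (by omega)]
          · simp only [hM, hm]
            rw [if_neg (by rw [mem_Icc]; omega), if_pos (by rw [mem_Icc]; omega),
              show (-((i:ℤ) - j)).toNat = j - i by omega]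
          · intro k _ hk; rw [if_neg (by omega)]
          · intro h'; exact absurd h.2 h'
        · rw [mem_Icc] at h
          rw [sum_eq_zero fun k hk => by rw [mem_Icc] at hk; rw [if_neg (by omega)]]
          split_ifs with h2
          · rfl
          · simp only [hM, hm]
            rw [if_neg (by rw [mem_Icc]; omega), if_neg (by rw [mem_Icc]; omega)]; simp
      rw [this, sum_congr rfl e2, sum_comm, sum_congr rfl fun k hk => by
        rw [sum_ite_eq', if_pos (by rw [mem_range]; have := mem_Icc.1 hk; omega)], ← sum_div,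
        ← ofReal_sum, hβ1]
      simp
    calc (1/2:ℝ) = ∑ i ∈ range K, ‖conv φ ψ (nn i)‖ := by
          rw [sum_congr rfl e]
          have : (0:ℝ) < K := by exact_mod_cast hK
          simp only [sum_const, card_range, nsmul_eq_mul, hJ]; push_cast; field_simp
      _ ≤ _ := sum_le_sum_of_subset_of_nonneg (range_subset_range.2 (by omega)) fun _ _ _ => norm_nonneg _

end Pool.Agent.H97.Toep
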