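import Pool.Agent.H97.Toep2

namespace Pool.Agent.H97.Toep
open Complex Finset

def L1 (v : Fn) (C : ℝ) : Prop := ∀ R : Finset ℤ, ∑ n ∈ R, ‖v n‖ ≤ C

noncomputable def nm (χ : ℤ →₀ ℂ) : ℝ := ∑ k ∈ χ.support, ‖χ k‖

lemma nm_nonneg (χ : ℤ →₀ ℂ) : 0 ≤ nm χ := sum_nonneg fun _ _ => norm_nonneg _

lemma L1.nonneg {v C} (h : L1 v C) : 0 ≤ C := by simpa using h ∅

lemma L1.mono {v w : Fn} {C C'} (h : L1 v C) (hw : ∀ n, ‖w n‖ ≤ ‖v n‖) (hC : C ≤ C') : L1 w C' :=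
  fun R => ((sum_le_sum fun n _ => hw n).trans (h R)).trans hC

lemma L1.comp {v C} (h : L1 v C) {e : ℤ → ℤ} (he : Function.Injective e) :
    L1 (fun q => v (e q)) C := fun R => by
  have := h (R.image e)
  rwa [sum_image he.injOn] at this

lemma L1.pr {W : ℤ → Fn} {C} (χ : ℤ →₀ ℂ) (h : ∀ k, L1 (W k) C) :
    L1 (fun n => pr χ fun k => W k n) (nm χ * C) := fun R => by
  simp only [pr_eq, nm, sum_mul]
  refine (sum_le_sum fun n _ => norm_sum_le _ _).trans ?_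
  rw [sum_comm]
  refine sum_le_sum fun k _ => ?_
  simp only [norm_mul, ← mul_sum]
  exact mul_le_mul_of_nonneg_left (h k R) (norm_nonneg _)

lemma L1.conv {v C} (χ : ℤ →₀ ℂ) (h : L1 v C) : L1 (conv χ v) (nm χ * C) :=
  L1.pr (W := fun k n => v (n - k)) χ fun _ => h.comp sub_left_injective

lemma norm_cut {x : ℂ} (hx : ‖x‖ = 1) (v : Fn) (n) : ‖cut x v n‖ = ‖cut 1 v n‖ := by
  simp only [cut]; split_ifs <;> simp [norm_zpow, hx]

lemma L1.cut {v C} {x : ℂ} (hx : ‖x‖ = 1) (h : L1 v C) : L1 (cut x v) C :=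
  h.mono (fun n => by
    simp only [Toep.cut]; split_ifs <;> simp [norm_zpow, hx]) le_rfl

lemma L1_finsupp (χ : ℤ →₀ ℂ) : L1 χ (nm χ) := fun R => by
  classical
  rw [← sum_filter_add_sum_filter_not R (· ∈ χ.support),
    sum_eq_zero (s := R.filter (· ∉ χ.support)) (fun n hn => by
      simpa using (mem_filter.1 hn).2), add_zero]
  exact sum_le_sum_of_subset_of_nonneg (fun n hn => (mem_filter.1 hn).2) fun _ _ _ => norm_nonneg _

lemma conv_add (χ : ℤ →₀ ℂ) (v w : Fn) : conv χ (v + w) = conv χ v + conv χ w := by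
  ext n; simp [conv, pr_eq, mul_add, sum_add_distrib]

lemma conv_smul (χ : ℤ →₀ ℂ) (c : ℂ) (v : Fn) : conv χ (c • v) = c • conv χ v := by
  ext n; simp only [conv, pr_eq, Pi.smul_apply, smul_eq_mul, mul_sum]
  exact sum_congr rfl fun _ _ => by ring

lemma smul_conv (χ : ℤ →₀ ℂ) (c : ℂ) (v : Fn) : conv (c • χ) v = c • conv χ v := by
  ext n; simp [conv, pr]

lemma cut_add (x : ℂ) (v w : Fn) : cut x (v + w) = cut x v + cut x w := by
  ext n; simp only [cut, Pi.add_apply]; split_ifs <;> ring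

lemma cut_smul (x c : ℂ) (v : Fn) : cut x (c • v) = c • cut x v := by
  ext n; simp only [cut, Pi.smul_apply, smul_eq_mul]; split_ifs <;> ring

structure Stage where
  N : ℕ
  D : ℕ
  lam : ℝ
  P : Finset ℤ
  f : ℤ →₀ ℂ
  g : ℤ →₀ ℂ
  a0 : ℝ
  a1 : ℝ
  a2 : ℝ
  R : ℝ
  c : ℝ
  η : ℝ
  δ : ℝ
  hN : 0 < N
  hP : ∀ n ∈ P, 0 < n
  hz : ∀ χ : ℤ →₀ ℂ, (χ = f ∨ χ = g) → ∀ n ∈ P, χ n = 0
  hD : ∀ χ : ℤ →₀ ℂ, (χ = f ∨ χ = g) → ∀ k ∈ χ.support, k.natAbs ≤ D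
  hc : ∀ χ : ℤ →₀ ℂ, (χ = f ∨ χ = g) → nm χ ≤ c
  hδ : ∀ χ χ' : ℤ →₀ ℂ, (χ = f ∨ χ = g) → (χ' = f ∨ χ' = g) → ∀ x : ℂ, ‖x‖ = 1 →
      ∑ n ∈ P, ‖conv χ' (cut x χ) n‖ ≤ δ
  h0 : 0 < a0
  h1 : 0 ≤ a1
  h2 : 0 ≤ a2
  hη : 0 < η
  e1 : a2 ≤ η * a1
  e2 : a1 * δ ≤ η / 2
  e3 : a1 * c ^ 2 ≤ η / 2 * a0
  e4 : a0 * c ≤ η
  e5 : c ≤ η
  r0 : a0 ≤ R
  r1 : a1 * c ≤ R
  r2 : a2 ≤ R
  l1 : 1 ≤ lam
  lR : R ≤ lam ^ N
  big : 1 / (4 * η) ≤ a2 * ∑ n ∈ P, ‖conv f g n‖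

namespace Stage
variable (S : Stage)

def Bd (w : Fn) (C : ℝ) : Prop := (∀ R : Finset ℤ, S.a0 * ∑ n ∈ R, ‖cut 1 w n‖ ≤ C) ∧
  (∀ χ : ℤ →₀ ℂ, (χ = S.f ∨ χ = S.g) → ∀ x : ℂ, ‖x‖ = 1 →
    S.a1 * ∑ n ∈ S.P, ‖conv χ (cut x w) n‖ ≤ C) ∧ S.a2 * ∑ n ∈ S.P, ‖w n‖ ≤ C

variable {S}

lemma c0 : 0 ≤ S.c := (nm_nonneg _).trans (S.hc _ (Or.inl rfl))

lemma Bd.congr {w w' : Fn} {C C'} (h : S.Bd w C) (e : ∀ q, 0 < q → w' q = w q) (hC : C ≤ C') :
    S.Bd w' C' := by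
  have e1 : ∀ x, cut x w' = cut x w := fun x => by
    ext n; simp only [cut]; split_ifs with h
    · rw [e n h]
    · rfl
  refine ⟨fun R => ?_, fun χ hχ x hx => ?_, ?_⟩
  · rw [e1]; exact (h.1 R).trans hC
  · rw [e1]; exact (h.2.1 χ hχ x hx).trans hC
  · rw [sum_congr rfl fun n hn => by rw [e n (S.hP n hn)]]; exact h.2.2.trans hC

lemma crude {w : Fn} {C} (h : L1 w C) : S.Bd w (S.R * C) := by
  have hC := h.nonneg
  refine ⟨fun R => ?_, fun χ hχ x hx => ?_, ?_⟩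
  · exact mul_le_mul S.r0 (h.cut (by simp) R) (by positivity) (S.h0.le.trans S.r0)
  · refine (mul_le_mul_of_nonneg_left ((h.cut hx).conv χ S.P) S.h1).trans ?_
    rw [← mul_assoc]
    exact mul_le_mul_of_nonneg_right ((mul_le_mul_of_nonneg_left (S.hc χ hχ) S.h1).trans S.r1) hC
  · exact mul_le_mul S.r2 (h _) (by positivity) (S.h0.le.trans S.r0)

lemma Bd.add {w w' : Fn} {C C'} (h : S.Bd w C) (h' : S.Bd w' C') : S.Bd (w + w') (C + C') := by
  have key : ∀ (a : ℝ) (R : Finset ℤ) (u u' : Fn), 0 ≤ a → a * ∑ n ∈ R, ‖u n‖ ≤ C →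
      a * ∑ n ∈ R, ‖u' n‖ ≤ C' → a * ∑ n ∈ R, ‖(u + u') n‖ ≤ C + C' := fun a R u u' ha h h' => by
    refine le_trans ?_ (add_le_add h h')
    rw [← mul_add, ← sum_add_distrib]
    exact mul_le_mul_of_nonneg_left (sum_le_sum fun n _ => norm_add_le _ _) ha
  refine ⟨fun R => ?_, fun χ hχ x hx => ?_, key _ _ _ _ S.h2 h.2.2 h'.2.2⟩
  · rw [cut_add]; exact key _ _ _ _ S.h0.le (h.1 R) (h'.1 R)
  · rw [cut_add, conv_add]; exact key _ _ _ _ S.h1 (h.2.1 χ hχ x hx) (h'.2.1 χ hχ x hx)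

lemma Bd.smul {w : Fn} {C} (h : S.Bd w C) (c : ℂ) : S.Bd (c • w) (‖c‖ * C) := by
  have key : ∀ (a : ℝ) (R : Finset ℤ) (u : Fn), a * ∑ n ∈ R, ‖u n‖ ≤ C →
      a * ∑ n ∈ R, ‖(c • u) n‖ ≤ ‖c‖ * C := fun a R u h => by
    simp only [Pi.smul_apply, norm_smul, ← mul_sum]
    rw [mul_left_comm]
    exact mul_le_mul_of_nonneg_left h (norm_nonneg _)
  refine ⟨fun R => ?_, fun χ hχ x hx => ?_, key _ _ _ h.2.2⟩
  · rw [cut_smul]; exact key _ _ _ (h.1 R)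
  · rw [cut_smul, conv_smul]; exact key _ _ _ (h.2.1 χ hχ x hx)

lemma Bd.pr {W : ℤ → Fn} {C} (χ : ℤ →₀ ℂ) (h : ∀ k ∈ χ.support, S.Bd (W k) C) :
    S.Bd (fun n => pr χ fun k => W k n) (nm χ * C) := by
  have e : (fun n => Toep.pr χ fun k => W k n) = ∑ k ∈ χ.support, χ k • W k := by
    ext n; simp [pr_eq]
  rw [e, nm, sum_mul]
  revert h
  generalize χ.support = s
  intro h
  induction s using Finset.cons_induction with
  | empty => simpa using crude (S := S) (w := 0) (C := 0) fun R => by simp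
  | cons a s ha ih =>
    rw [sum_cons, sum_cons]
    exact ((h a (by simp)).smul _).add (ih fun k hk => h k (by simp [hk]))

lemma Bd.rot {w : Fn} {C} (h : S.Bd w C) {y : ℂ} (hy : ‖y‖ = 1) :
    S.Bd (fun q => w q * y ^ q) C := by
  refine ⟨fun R => le_trans (le_of_eq ?_) (h.1 R), fun χ hχ x hx => ?_, ?_⟩
  · congr 1; refine sum_congr rfl fun n _ => ?_
    simp only [cut]; split_ifs <;> simp [norm_zpow, hy]
  · have : cut x (fun q => w q * y ^ q) = cut (y * x) w := by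
      ext n; simp only [cut, mul_zpow, mul_assoc]
    rw [this]; exact h.2.1 χ hχ _ (by simp [hx, hy])
  · simpa [norm_zpow, hy] using h.2.2

lemma Bd.conv {w : Fn} {C} (h : S.Bd w C) (hw : L1 w C) (h0 : ∀ n < 0, w n = 0)
    {χ : ℤ →₀ ℂ} (hχ : χ = S.f ∨ χ = S.g) : S.Bd (conv χ w) (S.η * C) := by
  have hC := hw.nonneg
  have hc0 := S.c0
  have e : Toep.conv χ w = w 0 • (χ : Fn) + Toep.conv χ (cut 1 w) := by
    have e1 : w = w 0 • (Finsupp.single (0:ℤ) (1:ℂ) : Fn) + cut 1 w := by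
      ext n
      simp only [cut, Pi.add_apply, Pi.smul_apply, smul_eq_mul, Finsupp.single_apply]
      rcases lt_trichotomy n 0 with h | rfl | h
      · rw [if_neg (by omega), if_neg (by omega), h0 n h]; simp
      · simp
      · rw [if_neg (by omega), if_pos h]; simp
    conv_lhs => rw [e1, conv_add, conv_smul]
    congr 2; ext n
    have := pr_symm χ (Finsupp.single 0 1) (fun _ => 1) n
    simpa [Toep.conv, Toep.pr] using this
  have w0 : ‖w 0‖ ≤ C := by simpa using hw {0}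
  have w1 : L1 (cut 1 w) (C / S.a0) := fun R => by
    rw [le_div_iff₀ S.h0, mul_comm]; exact h.1 R
  refine ⟨fun R => ?_, fun χ' hχ' x hx => ?_, ?_⟩
  · refine (mul_le_mul_of_nonneg_left ((hw.conv χ).cut (by simp) R) S.h0.le).trans ?_
    rw [← mul_assoc]
    exact mul_le_mul_of_nonneg_right
      ((mul_le_mul_of_nonneg_left (S.hc χ hχ) S.h0.le).trans S.e4) hC
  · rw [e, cut_add, conv_add, cut_smul, conv_smul]
    have t1 := S.hδ χ χ' hχ hχ' x hx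
    have t2 := ((w1.conv χ).cut hx).conv χ' S.P
    have t3 : nm χ' * (nm χ * (C / S.a0)) ≤ S.c * (S.c * (C / S.a0)) := by
      have := S.hc χ hχ; have := S.hc χ' hχ'; have := nm_nonneg χ; have := S.h0
      gcongr
    have t4 : S.a1 * (S.c * (S.c * (C / S.a0))) ≤ S.η / 2 * C := by
      have := mul_le_mul_of_nonneg_right S.e3 (div_nonneg hC S.h0.le)
      have h5 : S.η / 2 * S.a0 * (C / S.a0) = S.η / 2 * C := by have := S.h0; field_simp
      nlinarith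
    have t5 : S.a1 * (‖w 0‖ * ∑ n ∈ S.P, ‖Toep.conv χ' (cut x χ) n‖) ≤ S.η / 2 * C := by
      calc _ ≤ S.a1 * (C * S.δ) := by have := S.h1; gcongr
        _ = S.a1 * S.δ * C := by ring
        _ ≤ _ := mul_le_mul_of_nonneg_right S.e2 hC
    refine (mul_le_mul_of_nonneg_left (sum_le_sum fun n _ => norm_add_le _ _) S.h1).trans ?_
    simp only [Pi.smul_apply, norm_smul, sum_add_distrib, ← mul_sum, mul_add]
    nlinarith [mul_le_mul_of_nonneg_left (t2.trans t3) S.h1]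
  · rw [e, sum_congr rfl fun n hn => by
      rw [Pi.add_apply, Pi.smul_apply, S.hz χ hχ n hn, smul_zero, zero_add]]
    have := h.2.1 χ hχ 1 (by simp)
    refine (mul_le_mul_of_nonneg_right S.e1 (by positivity)).trans ?_
    rw [mul_assoc]; exact mul_le_mul_of_nonneg_left this S.hη.le

end Stage

lemma exists_stage (η M ρ : ℝ) (D : ℕ) (hη : 0 < η) (hM : 1 ≤ M) (hρ : 1 < ρ) :
    ∃ S : Stage, S.η = η ∧ M * S.c ≤ η ∧ S.lam ≤ ρ ∧ S.lam ^ D ≤ 2 ∧ 2 * D < S.N := by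
  obtain ⟨P, φ, ψ, hP, hz, hδ, hbig⟩ := exists_base (η ^ 3) (by positivity)
  set C := nm φ + nm ψ + 1 with hC
  have hC0 : 0 < C := by have := nm_nonneg φ; have := nm_nonneg ψ; positivity
  set W := C ^ 3 / η ^ 4 + C * M / η with hW
  have hW0 : 0 < W := by positivity
  have hW1 : C ^ 3 / η ^ 4 ≤ W := le_add_of_nonneg_right (by positivity)
  have hW2 : C * M / η ≤ W := le_add_of_nonneg_left (by positivity)
  obtain ⟨lam, hl1, hl2, hl3⟩ : ∃ lam : ℝ, 1 < lam ∧ lam ≤ ρ ∧ lam ^ D ≤ 2 := by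
    have h1 : ∀ᶠ x in nhds (1:ℝ), x ^ D < 2 :=
      (continuous_pow D).continuousAt.eventually_lt continuousAt_const (by simp)
    obtain ⟨x, ⟨h1, h2⟩, h3⟩ := (((h1.and (gt_mem_nhds hρ)).filter_mono
      (nhdsWithin_le_nhds (s := Set.Ioi 1))).and self_mem_nhdsWithin).exists
    exact ⟨x, h3, h2.le, h1.le⟩
  set a0 := η * W / C
  set a1 := η * W ^ 2 / (2 * η ^ 3)
  set R := a0 + a1 * (C / W) + η * a1
  obtain ⟨N, hN1, hN2⟩ := (((tendsto_pow_atTop_atTop_of_one_lt hl1).eventually_ge_atTop R).and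
    (Filter.eventually_gt_atTop (2 * D))).exists
  obtain ⟨D', hD'⟩ := ((φ.support ∪ ψ.support).image Int.natAbs).exists_le
  set u : ℂ := ((W⁻¹ : ℝ) : ℂ) with hu
  have hun : ‖u‖ = W⁻¹ := by simp [hu, abs_of_pos hW0]
  have red : ∀ χ : ℤ →₀ ℂ, (χ = u • φ ∨ χ = u • ψ) → ∃ χ0, (χ0 = φ ∨ χ0 = ψ) ∧ χ = u • χ0 := by
    rintro _ (rfl | rfl)
    exacts [⟨_, Or.inl rfl, rfl⟩, ⟨_, Or.inr rfl, rfl⟩]
  have hMc : M * (C / W) ≤ η := by
    rw [div_le_iff₀ hη] at hW2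
    rw [← mul_div_assoc, div_le_iff₀ hW0]; linarith
  have p0 : 0 < a0 := by positivity
  have p1 : 0 < a1 := by positivity
  have p2 : 0 < C / W := by positivity
  refine ⟨⟨N, D', lam, P, u • φ, u • ψ, a0, a1, η * a1, R, C / W, η, η ^ 3 / W ^ 2, by omega, hP,
    fun χ hχ n hn => ?_, fun χ hχ k hk => ?_, fun χ hχ => ?_, fun χ χ' hχ hχ' x hx => ?_, p0,
    p1.le, by positivity, hη, le_rfl, le_of_eq ?_, ?_, le_of_eq ?_, ?_, ?_, ?_, ?_, hl1.le, hN1, ?_⟩,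
    rfl, hMc, hl2, hl3, hN2⟩
  · obtain ⟨χ, rfl | rfl, rfl⟩ := red χ hχ <;> simp [hz n hn]
  · obtain ⟨χ, h, rfl⟩ := red χ hχ
    have := Finsupp.support_smul hk
    apply hD' _ (mem_image_of_mem _ _)
    rcases h with rfl | rfl <;> simp only [mem_union, this, true_or, or_true]
  · obtain ⟨χ, h, rfl⟩ := red χ hχ
    have h1 : nm (u • χ) ≤ W⁻¹ * nm χ := by
      have := L1_finsupp χ (u • χ).support
      simp only [nm, Finsupp.smul_apply, norm_smul, ← mul_sum, hun] at this ⊢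
      exact mul_le_mul_of_nonneg_left this (by positivity)
    have h2 : nm χ ≤ C := by
      have := nm_nonneg φ; have := nm_nonneg ψ
      rcases h with rfl | rfl <;> linarith
    refine h1.trans ?_
    rw [div_eq_inv_mul]; gcongr
  · obtain ⟨χ, h, rfl⟩ := red χ hχ
    obtain ⟨χ', h', rfl⟩ := red χ' hχ'
    rw [Finsupp.coe_smul, cut_smul, conv_smul, smul_conv]
    simp only [Pi.smul_apply, norm_smul, ← mul_sum, hun]
    have := hδ χ χ' h h' x hx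
    calc _ ≤ W⁻¹ * (W⁻¹ * η ^ 3) := by gcongr
      _ = _ := by field_simp
  · simp only [a1]; field_simp
  · rw [div_le_iff₀ (by positivity)] at hW1
    have : a1 * (C / W) ^ 2 = C ^ 3 / (2 * η ^ 2 * C) := by simp only [a1]; field_simp
    rw [this, div_le_iff₀ (by positivity)]
    refine hW1.trans (le_of_eq ?_)
    simp only [a0]; field_simp
  · simp only [a0]; field_simp
  · nlinarith
  · have : 0 < a1 * (C / W) + η * a1 := by positivity
    simp only [R]; linarith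
  · have : 0 < η * a1 := by positivity
    simp only [R]; linarith
  · have : 0 < a1 * (C / W) := by positivity
    simp only [R]; linarith
  · rw [Finsupp.coe_smul, conv_smul, smul_conv]
    simp only [Pi.smul_apply, norm_smul, ← mul_sum, hun]
    calc 1 / (4 * η) = η * a1 * (W⁻¹ * (W⁻¹ * (1 / 2))) := by simp only [a1]; field_simp; ring
      _ ≤ _ := by gcongr

lemma exists_seq : ∃ S : ℕ → Stage, (∀ s, (S s).η = (1 / 2) ^ s ∧ (S s).lam ≤ 1 + 1 / (s + 1)) ∧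
    ∀ s' s, s' < s → (S s').R * (S s).c ≤ (S s).η ∧ (S s).lam ^ ((S s').N * (S s').D) ≤ 2 ∧
      2 * ((S s').N * (S s').D) < (S s).N := by
  choose F hF using fun (s : ℕ) (M : ℝ) (D : ℕ) => exists_stage ((1 / 2) ^ s) (|M| + 1)
    (1 + 1 / (s + 1)) D (by positivity) (by simp) (by simp; positivity)
  let st : ℕ → ℝ × ℕ := fun s => Nat.rec (0, 0) (fun s p =>
    (p.1 + |(F s p.1 p.2).R|, p.2 + (F s p.1 p.2).N * (F s p.1 p.2).D)) s
  have hs : ∀ s, st (s + 1) = ((st s).1 + |(F s (st s).1 (st s).2).R|,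
    (st s).2 + (F s (st s).1 (st s).2).N * (F s (st s).1 (st s).2).D) := fun _ => rfl
  have m1 : Monotone fun s => (st s).1 := monotone_nat_of_le_succ fun s => by
    simp only [hs]; exact le_add_of_nonneg_right (abs_nonneg _)
  have m2 : Monotone fun s => (st s).2 := monotone_nat_of_le_succ fun s => by
    simp only [hs]; omega
  refine ⟨fun s => F s (st s).1 (st s).2, fun s => ⟨(hF _ _ _).1, (hF _ _ _).2.2.1⟩,
    fun s' s h => ?_⟩
  obtain ⟨h1, h2, -, h4, h5⟩ := hF s (st s).1 (st s).2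
  have t1 := m1 (show s' + 1 ≤ s from h)
  have t2 := m2 (show s' + 1 ≤ s from h)
  have t0 : 0 ≤ (st s').1 := m1 (Nat.zero_le s')
  simp only [hs] at t1 t2
  beta_reduce
  refine ⟨?_, (pow_le_pow_right₀ (Stage.l1 _) (by omega)).trans h4, by omega⟩
  rw [h1]
  refine le_trans (mul_le_mul_of_nonneg_right ?_ Stage.c0) h2
  linarith [le_abs_self (F s' (st s').1 (st s').2).R, le_abs_self (st s).1]

end Pool.Agent.H97.Toep
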