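import Pool.Agent.H97.Toep3

namespace Pool.Agent.H97.Toep
open Complex Finset

def smp (N : ℕ) (t : ℤ) (v : Fn) : Fn := fun q => v (N * q + t)

noncomputable def sh (m : ℤ) (v : Fn) : Fn := fun n => if 0 ≤ n then v (n - m) else 0

def GB (S : ℕ → Stage) (v : Fn) (C : ℝ) : Prop :=
  L1 v C ∧ ∀ s t, (S s).Bd (smp (S s).N t v) ((S s).lam ^ t.natAbs * C)

lemma L1.smp {v C} (h : L1 v C) {N : ℕ} (hN : 0 < N) (t : ℤ) : L1 (smp N t v) C :=
  h.comp (e := fun q => N * q + t) fun a b hab => by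
    simpa [hN.ne'] using hab

lemma L1.sh {v C} (h : L1 v C) (m : ℤ) : L1 (sh m v) C :=
  (h.comp (e := fun n => n - m) sub_left_injective).mono (fun n => by
    simp only [Toep.sh]; split_ifs <;> simp) le_rfl

lemma crude_t {S : Stage} {w C} (h : L1 w C) {t : ℤ} (ht : S.N ≤ t.natAbs) :
    S.Bd (smp S.N t w) (S.lam ^ t.natAbs * C) :=
  (Stage.crude (h.smp S.hN t)).congr (fun _ _ => rfl) (mul_le_mul_of_nonneg_right
    (S.lR.trans (pow_le_pow_right₀ S.l1 ht)) h.nonneg)

lemma crude_R {S : Stage} {w C} (h : L1 w C) (t : ℤ) :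
    S.Bd (smp S.N t w) (S.lam ^ t.natAbs * (S.R * C)) :=
  (Stage.crude (h.smp S.hN t)).congr (fun _ _ => rfl) (le_mul_of_one_le_left
    (mul_nonneg (S.h0.le.trans S.r0) h.nonneg) (one_le_pow₀ S.l1))

variable {S : ℕ → Stage}

lemma GB.mono {v C C'} (h : GB S v C) (hC : C ≤ C') : GB S v C' :=
  ⟨h.1.mono (fun _ => le_rfl) hC, fun s t => (h.2 s t).congr (fun _ _ => rfl)
    (mul_le_mul_of_nonneg_left hC (pow_nonneg (zero_le_one.trans (S s).l1) _))⟩

lemma pos_of {N : ℕ} {t q : ℤ} (ht : t.natAbs < N) (hq : 0 < q) : 0 ≤ N * q + t := by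
  have : (N:ℤ) * 1 ≤ N * q := mul_le_mul_of_nonneg_left hq (by omega)
  omega

lemma GB.sh_bd {v C} (h : GB S v C) (m : ℤ) (s t) : (S s).Bd (smp (S s).N t (sh m v))
    ((S s).lam ^ t.natAbs * ((S s).lam ^ m.natAbs * C)) := by
  have hl := (S s).l1
  have hC := h.1.nonneg
  by_cases ht : (S s).N ≤ t.natAbs
  · exact crude_t ((h.1.sh m).mono (fun _ => le_rfl) (le_mul_of_one_le_left hC (one_le_pow₀ hl))) ht
  · refine (h.2 s (t - m)).congr (fun q hq => ?_) ?_
    · simp only [smp, sh]; rw [if_pos (pos_of (by omega) hq)]; congr 1; ring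
    · rw [← mul_assoc, ← pow_add]
      exact mul_le_mul_of_nonneg_right (pow_le_pow_right₀ hl (by omega)) hC

lemma sh_all (hS : ∀ s, (S s).lam ≤ 1 + 1 / (s + 1)) {ρ : ℝ} (hρ : 1 < ρ) :
    ∃ K : ℝ, 1 ≤ K ∧ ∀ m v C, GB S v C → GB S (sh m v) (K * ρ ^ m.natAbs * C) := by
  obtain ⟨s0, hs0⟩ := exists_nat_one_div_lt (sub_pos.2 hρ)
  set K := 1 + ∑ s ∈ range s0, |(S s).R|
  have hK : 1 ≤ K := le_add_of_nonneg_right (by positivity)
  refine ⟨K, hK, fun m v C h => ?_⟩
  have hC := h.1.nonneg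
  have h1 : 1 ≤ ρ ^ m.natAbs := one_le_pow₀ hρ.le
  refine ⟨(h.1.sh m).mono (fun _ => le_rfl) (le_mul_of_one_le_left hC (by nlinarith)), fun s t => ?_⟩
  have hl : 0 ≤ (S s).lam := zero_le_one.trans (S s).l1
  by_cases hs : s < s0
  · refine (crude_R (h.1.sh m) t).congr (fun _ _ => rfl) ?_
    have := single_le_sum (f := fun s => |(S s).R|) (fun _ _ => abs_nonneg _) (mem_range.2 hs)
    have h2 : (S s).R ≤ K * ρ ^ m.natAbs := by
      have := le_abs_self (S s).R
      have : (S s).R ≤ K := by simp only [K]; linarith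
      nlinarith
    gcongr
  · refine (h.sh_bd m s t).congr (fun _ _ => rfl) ?_
    have h2 : (S s).lam ≤ ρ := by
      have : (1:ℝ) / (s + 1) ≤ 1 / (s0 + 1) := by
        have : (s0:ℝ) ≤ s := by exact_mod_cast not_lt.1 hs
        gcongr
      linarith [hS s]
    have h3 : (S s).lam ^ m.natAbs ≤ K * ρ ^ m.natAbs :=
      (pow_le_pow_left₀ hl h2 _).trans (le_mul_of_one_le_left (by positivity) hK)
    gcongr

lemma GB.rot {v C} (h : GB S v C) {y : ℂ} (hy : ‖y‖ = 1) : GB S (fun n => v n * y ^ n) C := by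
  refine ⟨h.1.mono (fun n => by simp [norm_zpow, hy]) le_rfl, fun s t => ?_⟩
  have hy0 : y ≠ 0 := by rintro rfl; simp at hy
  refine (((h.2 s t).rot (y := y ^ ((S s).N : ℤ)) (by simp [hy])).smul (y ^ t)).congr
    (fun q _ => ?_) (by simp [norm_zpow, hy])
  simp only [smp, Pi.smul_apply, smul_eq_mul, zpow_add₀ hy0, zpow_mul]; ring

lemma GB.add {v w C C'} (h : GB S v C) (h' : GB S w C') : GB S (v + w) (C + C') :=
  ⟨fun R => (sum_le_sum fun n _ => norm_add_le _ _).trans (by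
    rw [sum_add_distrib]; exact add_le_add (h.1 R) (h'.1 R)),
    fun s t => ((h.2 s t).add (h'.2 s t)).congr (fun _ _ => rfl) (by rw [mul_add])⟩

lemma GB.smul {v C} (h : GB S v C) (c : ℂ) : GB S (c • v) (‖c‖ * C) :=
  ⟨fun R => by
    simp only [Pi.smul_apply, norm_smul, ← mul_sum]
    exact mul_le_mul_of_nonneg_left (h.1 R) (norm_nonneg _),
    fun s t => ((h.2 s t).smul c).congr (fun _ _ => rfl) (le_of_eq (by ring))⟩

lemma GB_zero : GB S 0 0 := ⟨fun R => by simp, fun s t =>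
  (crude_R (S := S s) (w := 0) (C := 0) (fun R => by simp) t).congr (fun _ _ => rfl) (by simp)⟩

lemma GB_one : GB S (Pi.single 0 1) 1 := by
  have h1 : L1 (Pi.single 0 1) 1 := fun R => by
    have : ∀ n : ℤ, ‖(Pi.single 0 1 : Fn) n‖ = if n = 0 then 1 else 0 := fun n => by
      rw [Pi.single_apply]; split_ifs <;> simp
    simp only [this, sum_ite_eq']; split_ifs <;> simp
  refine ⟨h1, fun s t => ?_⟩
  by_cases ht : (S s).N ≤ t.natAbs
  · exact crude_t h1 ht
  · refine ((GB_zero (S := S)).2 s t).congr (fun q hq => ?_) (by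
      have := (S s).l1; simp only [mul_zero]; positivity)
    have : ((S s).N:ℤ) * 1 ≤ (S s).N * q := mul_le_mul_of_nonneg_left hq (by omega)
    simp only [smp]; rw [Pi.single_eq_of_ne (by omega)]; rfl

noncomputable def Tt (N : ℕ) (χ : ℤ →₀ ℂ) (v : Fn) : Fn := fun n => pr χ fun k => sh (N * k) v n

lemma GB.Tt (hS : ∀ s' s, s' < s → (S s').R * (S s).c ≤ (S s).η ∧
      (S s).lam ^ ((S s').N * (S s').D) ≤ 2 ∧ 2 * ((S s').N * (S s').D) < (S s).N)
    {v C} (h : GB S v C) (h0 : ∀ n < 0, v n = 0) (s) {χ : ℤ →₀ ℂ} (hχ : χ = (S s).f ∨ χ = (S s).g) :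
    GB S (Tt (S s).N χ v) (2 * (S s).η * C) := by
  have hC := h.1.nonneg
  have hc := (S s).hc χ hχ
  have hη := (S s).hη
  have h5 := (S s).e5
  have hc0 := nm_nonneg χ
  have l1 : L1 (Toep.Tt (S s).N χ v) ((S s).c * C) :=
    (L1.pr χ fun k => h.1.sh _).mono (fun _ => le_rfl) (by gcongr)
  have l2 : L1 (Toep.Tt (S s).N χ v) (2 * (S s).η * C) := l1.mono (fun _ => le_rfl) (by
    gcongr; linarith)
  refine ⟨l2, fun s' t => ?_⟩
  have hl := (S s').l1
  have hp : 0 ≤ (S s').lam ^ t.natAbs := by positivity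
  rcases lt_trichotomy s' s with hs | rfl | hs
  · refine (crude_R l1 t).congr (fun _ _ => rfl) ?_
    have := (hS _ _ hs).1
    rw [← mul_assoc (S s').R]
    exact mul_le_mul_of_nonneg_left (mul_le_mul_of_nonneg_right (by linarith) hC) hp
  · by_cases ht : (S s').N ≤ t.natAbs
    · exact crude_t l2 ht
    have h1 : 1 ≤ (S s').lam ^ t.natAbs := one_le_pow₀ hl
    refine ((h.2 s' t).conv ((h.1.smp (S s').hN t).mono (fun _ => le_rfl)
      (le_mul_of_one_le_left hC h1)) (fun n hn => h0 _ ?_) hχ).congr (fun q hq => ?_) ?_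
    · have : ((S s').N:ℤ) * n ≤ (S s').N * (-1) := mul_le_mul_of_nonneg_left (by omega) (by omega)
      omega
    · simp only [smp, Toep.Tt, conv, sh, if_pos (pos_of (show t.natAbs < (S s').N by omega) hq)]
      congr 1; ext k; congr 1; ring
    · nlinarith [mul_nonneg (mul_nonneg hp hC) hη.le]
  · refine (Stage.Bd.pr (W := fun k => smp (S s').N t (sh ((S s).N * k) v))
      (C := (S s').lam ^ t.natAbs * (2 * C)) χ fun k hk => ?_).congr (fun _ _ => rfl) ?_
    · refine (h.sh_bd _ s' t).congr (fun _ _ => rfl) ?_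
      have : (S s').lam ^ (((S s).N:ℤ) * k).natAbs ≤ 2 := by
        refine (pow_le_pow_right₀ hl ?_).trans (hS _ _ hs).2.1
        rw [Int.natAbs_mul, Int.natAbs_natCast]
        exact Nat.mul_le_mul_left _ ((S s).hD χ hχ k hk)
      gcongr
    · have : nm χ ≤ (S s).η := hc.trans h5
      calc _ ≤ (S s).η * ((S s').lam ^ t.natAbs * (2 * C)) := by gcongr
        _ = _ := by ring

def Vp : Submodule ℂ Fn where
  carrier := {v | (∀ n < 0, v n = 0) ∧ ∃ D : ℕ, ∀ n : ℤ, D ≤ n → v n = 0}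
  add_mem' := by
    rintro a b ⟨h1, D, h2⟩ ⟨h3, D', h4⟩
    exact ⟨fun n hn => by simp [h1 n hn, h3 n hn], D + D', fun n hn => by
      simp [h2 n (by omega), h4 n (by omega)]⟩
  zero_mem' := ⟨fun _ _ => rfl, 0, fun _ _ => rfl⟩
  smul_mem' := by
    rintro c a ⟨h1, D, h2⟩
    exact ⟨fun n hn => by simp [h1 n hn], D, fun n hn => by simp [h2 n hn]⟩

lemma Vp_bd (hS : ∀ s, (S s).lam ≤ 1 + 1 / (s + 1)) {v : Fn} (hv : v ∈ Vp) : ∃ C, GB S v C := by
  obtain ⟨h1, D, h2⟩ := hv
  obtain ⟨K, -, hK⟩ := sh_all hS one_lt_two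
  induction D generalizing v with
  | zero =>
    have : v = 0 := by
      ext n; by_cases h : n < 0
      exacts [h1 n h, h2 n (by omega)]
    exact ⟨0, this ▸ GB_zero⟩
  | succ D ih =>
    obtain ⟨C, hC⟩ := ih (v := v - v D • sh D (Pi.single 0 1)) (fun n hn => by
      simp [h1 n hn, sh, not_le.2 hn]) (fun n hn => by
      by_cases h : n = D
      · simp [h, sh]
      · simp [sh, h2 n (by omega), Pi.single_eq_of_ne (show n - D ≠ 0 by omega)])
    exact ⟨_, by simpa using hC.add ((hK D _ _ GB_one).smul (v D))⟩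

def Lam (S : ℕ → Stage) : Type :=
  {l : Fn →ₗ[ℂ] ℂ // Continuous l ∧ ∀ v C, GB S v C → ‖l v‖ ≤ C}

lemma norming {v : Fn} {C : ℝ} (h : ∀ l : Lam S, ‖l.1 v‖ ≤ C) : GB S v C := by
  have key : ∀ (a b : ℝ) (R : Finset ℤ) (l : Fn → Fn), 0 ≤ a → 0 < b → (∀ r, Continuous fun v => l v r) →
      (∀ v w, l (v + w) = l v + l w) → (∀ (c : ℂ) v, l (c • v) = c • l v) →
      (∀ v C, GB S v C → a * ∑ r ∈ R, ‖l v r‖ ≤ b * C) → a * ∑ r ∈ R, ‖l v r‖ ≤ b * C := by
    intro a b R l ha hb hc h1 h2 h3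
    choose e he1 he2 using fun r => exists_sign (l v r)
    have := h ⟨{ toFun := fun v => ((a / b : ℝ) : ℂ) * ∑ r ∈ R, e r * l v r
                 map_add' := fun v w => by simp [h1, mul_add, sum_add_distrib]
                 map_smul' := fun c v => by
                   simp only [h2, Pi.smul_apply, smul_eq_mul, RingHom.id_apply, mul_sum]
                   exact sum_congr rfl fun _ _ => by ring },
      continuous_const.mul (continuous_finsetSum _ fun r _ => continuous_const.mul (hc r)),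
      fun v C hv => by
        have := h3 v C hv
        simp only [LinearMap.coe_mk, AddHom.coe_mk, norm_mul, norm_real]
        rw [Real.norm_of_nonneg (by positivity), div_mul_eq_mul_div, div_le_iff₀ hb, mul_comm C]
        refine le_trans (mul_le_mul_of_nonneg_left ((norm_sum_le _ _).trans (sum_le_sum fun r _ => ?_)) ha) this
        rw [norm_mul]; exact mul_le_of_le_one_left (norm_nonneg _) (he1 r)⟩
    simp only [LinearMap.coe_mk, AddHom.coe_mk, he2] at this
    rwa [← ofReal_sum, ← ofReal_mul, norm_real, Real.norm_of_nonneg (by positivity),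
      div_mul_eq_mul_div, div_le_iff₀ hb, mul_comm C] at this
  have cc : ∀ (x : ℂ) (N t r), Continuous fun v => cut x (smp N t v) r := fun x N t r => by
    simp only [cut, smp]; split_ifs <;> fun_prop
  have sa : ∀ N t v w, smp N t (v + w) = smp N t v + smp N t w := fun _ _ _ _ => rfl
  have ss : ∀ N t (c : ℂ) w, smp N t (c • w) = c • smp N t w := fun _ _ _ _ => rfl
  refine ⟨fun R => ?_, fun s t => ?_⟩
  · simpa using key 1 1 R id zero_le_one one_pos (fun r => continuous_apply r) (fun _ _ => rfl)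
      (fun _ _ => rfl) fun v C hv => by simpa using hv.1 R
  have hb : 0 < (S s).lam ^ t.natAbs := by have := (S s).l1; positivity
  refine ⟨fun R => ?_, fun χ hχ x hx => ?_, ?_⟩
  · exact key _ _ R (fun v => cut 1 (smp (S s).N t v)) (S s).h0.le hb (cc _ _ _)
      (fun _ _ => by rw [sa, cut_add]) (fun _ _ => by rw [ss, cut_smul]) fun v C hv => (hv.2 s t).1 R
  · refine key _ _ _ (fun v => conv χ (cut x (smp (S s).N t v))) (S s).h1 hb (fun r => ?_)
      (fun _ _ => by rw [sa, cut_add, conv_add]) (fun _ _ => by rw [ss, cut_smul, conv_smul])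
      fun v C hv => (hv.2 s t).2.1 χ hχ x hx
    simp only [conv, pr_eq]
    exact continuous_finsetSum _ fun k _ => continuous_const.mul (cc _ _ _ _)
  · exact key _ _ _ (smp (S s).N t) (S s).h2 hb (fun r => continuous_apply _) (sa _ _) (ss _ _)
      fun v C hv => (hv.2 s t).2.2

theorem exists_space (hS : ∀ s, (S s).lam ≤ 1 + 1 / (s + 1)) :
    ∃ (X : Type) (_ : NormedAddCommGroup X) (_ : NormedSpace ℂ X) (_ : CompleteSpace X)
      (co : X →L[ℂ] Fn), (∀ x C, ‖x‖ ≤ C ↔ GB S (co x) C) ∧ (∀ x, ∀ n < 0, co x n = 0) ∧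
      (∀ v ∈ Vp, ∃ x, co x = v) ∧ Dense {x | co x ∈ Vp} := by
  let Φ : Vp →ₗ[ℂ] lp (fun _ : Lam S => ℂ) ⊤ :=
    { toFun := fun v => ⟨fun l => l.1 v, memℓp_infty (by
        obtain ⟨C, hC⟩ := Vp_bd hS v.2
        exact ⟨C, by rintro _ ⟨l, rfl⟩; exact l.2.2 _ _ hC⟩)⟩
      map_add' := fun v w => by ext l; simp
      map_smul' := fun c v => by ext l; simp }
  let X := (LinearMap.range Φ).topologicalClosure
  let e : Vp →ₗ[ℂ] X := Φ.codRestrict X fun v =>
    Submodule.le_topologicalClosure _ (LinearMap.mem_range_self _ _)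
  have hd : DenseRange e := by
    intro x
    rw [closure_subtype]
    refine closure_mono ?_ x.2
    rintro _ ⟨v, rfl⟩
    exact ⟨e v, ⟨v, rfl⟩, rfl⟩
  let pj : ℤ → Lam S := fun n => ⟨LinearMap.proj n, continuous_apply n, fun v C h => by
    simpa using h.1 {n}⟩
  let ev : Lam S → X →L[ℂ] ℂ := fun l => LinearMap.mkContinuous
    { toFun := fun x => x.1 l, map_add' := fun _ _ => rfl, map_smul' := fun _ _ => rfl } 1
    fun x => by simpa using lp.norm_apply_le_norm ENNReal.top_ne_zero x.1 l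
  let co : X →L[ℂ] Fn := ContinuousLinearMap.pi fun n => ev (pj n)
  have he : ∀ v, co (e v) = v := fun v => rfl
  have rep : ∀ x l, ev l x = l.1 (co x) := fun x l =>
    hd.induction_on x (isClosed_eq (ev l).continuous (l.2.1.comp co.continuous)) fun v => rfl
  have : CompleteSpace X := (Submodule.isClosed_topologicalClosure _).completeSpace_coe
  refine ⟨X, inferInstance, inferInstance, inferInstance, co, fun x C => ⟨fun h => ?_, fun h => ?_⟩,
    fun x n hn => ?_, fun v hv => ⟨e ⟨v, hv⟩, rfl⟩, hd.mono ?_⟩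
  · refine norming fun l => ?_
    rw [← rep]; exact (lp.norm_apply_le_norm ENNReal.top_ne_zero x.1 l).trans h
  · refine lp.norm_le_of_forall_le h.1.nonneg fun l => ?_
    have := l.2.2 _ _ h
    rwa [← rep] at this
  · exact hd.induction_on x (isClosed_eq ((continuous_apply n).comp co.continuous) continuous_const)
      fun v => v.2.1 n hn
  · rintro _ ⟨v, rfl⟩; exact v.2

end Pool.Agent.H97.Toep
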