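import Pool.Agent.H97.Toep4

namespace Pool.Agent.H97.Toep
open Complex Finset Metric Filter Topology

lemma coeff_uniq {c : ℕ → ℂ} (h : ∀ z ∈ ball (0:ℂ) 1, HasSum (fun n => c n * z ^ n) 0) : c = 0 := by
  have h1 : HasFPowerSeriesAt (0 : ℂ → ℂ) (FormalMultilinearSeries.ofScalars ℂ c) 0 := by
    rw [hasFPowerSeriesAt_iff']
    filter_upwards [ball_mem_nhds (0:ℂ) one_pos] with z hz
    simpa [mul_comm] using h z hz
  have := h1.eq_zero
  ext n
  have h2 := congrArg (fun p => p.coeff n) this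
  rw [FormalMultilinearSeries.coeff_ofScalars] at h2
  exact h2

lemma radius_one {X : Type} [NormedAddCommGroup X] [NormedSpace ℂ X] [CompleteSpace X]
    (S B : X →L[ℂ] X) (hBS : B * S = 1) (x : X) (hx : x ≠ 0) (hB : B x = 0)
    (h : ∀ ρ : ℝ, 1 < ρ → ∃ K : ℝ, ∀ k : ℕ, ‖S ^ k‖ ≤ K * ρ ^ k ∧ ‖B ^ k‖ ≤ K * ρ ^ k) :
    spectralRadius ℂ S = 1 ∧ spectralRadius ℂ B = 1 := by
  have : Nontrivial X := ⟨x, 0, hx⟩
  have up : ∀ T : X →L[ℂ] X, (∀ ρ : ℝ, 1 < ρ → ∃ K : ℝ, ∀ k : ℕ, ‖T ^ k‖ ≤ K * ρ ^ k) →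
      ∀ z ∈ spectrum ℂ T, ‖z‖ ≤ 1 := fun T hT z hz => by
    by_contra hz1
    push Not at hz1
    obtain ⟨ρ, h1, h2⟩ := exists_between hz1
    obtain ⟨K, hK⟩ := hT ρ h1
    obtain ⟨k, hk⟩ := ((tendsto_pow_atTop_atTop_of_one_lt (show 1 < ‖z‖ / ρ by
      rw [one_lt_div (by linarith)]; exact h2)).eventually_gt_atTop K).exists
    have := (spectrum.norm_le_norm_of_mem (spectrum.pow_mem_pow T k hz)).trans (hK k)
    rw [div_pow, lt_div_iff₀ (by positivity)] at hk
    rw [norm_pow] at this; linarith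
  have uS := up S fun ρ hρ => (h ρ hρ).imp fun K hK k => (hK k).1
  have uB := up B fun ρ hρ => (h ρ hρ).imp fun K hK k => (hK k).2
  have nB : ¬ IsUnit B := fun hu => hx (by
    obtain ⟨u, rfl⟩ := hu
    have : (↑u⁻¹ * (u : X →L[ℂ] X)) x = x := by simp
    rw [← this, mul_apply_eq_comp, hB, map_zero])
  have nS : ¬ IsUnit S := fun hu => nB (by
    obtain ⟨u, rfl⟩ := hu
    rw [Units.mul_eq_one_iff_eq_inv.1 hBS]; exact Units.isUnit _)
  have un : ∀ T : X →L[ℂ] X, (∀ z ∈ spectrum ℂ T, ‖z‖ ≤ 1) → ∀ w : ℂ, ‖w‖ < 1 →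
      IsUnit (1 - w • T) := fun T hT w hw => by
    by_cases h0 : w = 0
    · simp [h0]
    have : w⁻¹ ∉ spectrum ℂ T := fun hm => by
      have := hT _ hm
      rw [norm_inv, inv_le_one₀ (norm_pos_iff.2 h0)] at this; linarith
    rw [spectrum.notMem_iff] at this
    have h2 := this.smul (Units.mk0 w h0)
    simpa [smul_sub, Algebra.algebraMap_eq_smul_one, smul_smul, h0, Units.smul_def] using h2
  have fin : ∀ T : X →L[ℂ] X, (∀ z ∈ spectrum ℂ T, ‖z‖ ≤ 1) → (∀ w : ℂ, ‖w‖ < 1 →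
      w ∈ spectrum ℂ T) → spectralRadius ℂ T = 1 := fun T h1 h2 => by
    have h3 : (1:ℂ) ∈ spectrum ℂ T := by
      have : closure (ball (0:ℂ) 1) ⊆ spectrum ℂ T :=
        (spectrum.isClosed T).closure_subset_iff.2 fun w hw => h2 w (by simpa using hw)
      apply this; rw [closure_ball _ one_ne_zero]; simp
    refine le_antisymm (iSup₂_le fun z hz => ?_) (le_iSup₂_of_le 1 h3 (by simp))
    exact_mod_cast h1 z hz
  refine ⟨fin S uS fun w hw => ?_, fin B uB fun w hw => ?_⟩
  · rw [spectrum.mem_iff]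
    intro hu
    have e : (1 - w • B) * S = -(algebraMap ℂ _ w - S) := by
      rw [sub_mul, smul_mul_assoc, hBS, Algebra.algebraMap_eq_smul_one]; simp
    exact nS ((un B uB w hw).mul_left_iff.1 (e ▸ hu.neg))
  · rw [spectrum.mem_iff]
    intro hu
    have e : B * (1 - w • S) = -(algebraMap ℂ _ w - B) := by
      rw [mul_sub, mul_smul_comm, hBS, Algebra.algebraMap_eq_smul_one]; simp
    exact nB ((un S uS w hw).mul_right_iff.1 (e ▸ hu.neg))

noncomputable def FF (N : ℕ) (χ : ℤ →₀ ℂ) : CT := ∑ k ∈ χ.support, χ k • fourier (N * k)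

lemma FF_norm (N χ) : ‖FF N χ‖ ≤ nm χ :=
  (norm_sum_le _ _).trans (sum_le_sum fun k _ => by rw [norm_smul, fourier_norm, mul_one])

lemma kap_FF_mul (N χ) (h : CT) (n : ℤ) : kap n (FF N χ * h) = pr χ fun k => kap (n - N * k) h := by
  simp only [FF, sum_mul, smul_mul_assoc, map_sum, map_smul, kap_mul_fourier, pr_eq, smul_eq_mul]

lemma kap_FF (N χ) (n : ℤ) : kap n (FF N χ) = pr χ fun k => if n = N * k then 1 else 0 := by
  simp only [FF, map_sum, map_smul, kap_fourier, pr_eq, smul_eq_mul]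

lemma L1_FF (N N' χ χ') : L1 (fun n => kap n (FF N χ * FF N' χ')) (nm χ * nm χ') := by
  simp only [kap_FF_mul]
  refine L1.pr χ fun k => L1.comp (v := fun n => kap n (FF N' χ')) ?_ sub_left_injective
  simp only [kap_FF]
  simpa using L1.pr (W := fun k n => if n = N' * k then 1 else 0) (C := 1) χ' fun k R => by
    have : ∀ n : ℤ, ‖(if n = N' * k then 1 else 0 : ℂ)‖ = if n = N' * k then 1 else 0 := fun n => by
      split_ifs <;> simp
    simp only [this, sum_ite_eq']; split_ifs <;> simp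

lemma lower {S : ℕ → Stage} (hS : ∀ s' s, s' < s → (S s').R * (S s).c ≤ (S s).η ∧
      (S s).lam ^ ((S s').N * (S s').D) ≤ 2 ∧ 2 * ((S s').N * (S s').D) < (S s).N)
    (hη : ∀ s, (S s).η = (1 / 2) ^ s) (s M : ℕ) (hM : s < M) :
    1 / (4 * (S s).η) - 4 ≤ (S s).a2 * ∑ n ∈ (S s).P, ‖kap ((S s).N * n)
      ((∑ k ∈ range M, FF (S k).N (S k).f) * ∑ k ∈ range M, FF (S k).N (S k).g)‖ := by
  set h : ℕ × ℕ → CT := fun p => FF (S p.1).N (S p.1).f * FF (S p.2).N (S p.2).g
  have sm : ∀ k < s, ∀ χ : ℤ →₀ ℂ, (χ = (S k).f ∨ χ = (S k).g) → ∀ a ∈ χ.support,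
      2 * |((S k).N : ℤ) * a| < (S s).N := fun k hk χ hχ a ha => by
    have h1 := (hS k s hk).2.2
    have h2 := Nat.mul_le_mul_left (S k).N ((S k).hD χ hχ a ha)
    have : |((S k).N : ℤ) * a| = ((S k).N * a.natAbs : ℕ) := by
      rw [abs_mul]; push_cast; simp
    rw [this]; omega
  have one : ∀ a b : ℤ, 2 * |b| < (S s).N → (S s).N * a = b → a = 0 := fun a b hb e => by
    by_contra h
    have := Int.one_le_abs h
    rw [← e, abs_mul, Nat.abs_cast] at hb
    nlinarith
  have E : ∀ p : ℕ × ℕ, p ≠ (s, s) → (S s).a2 * ∑ n ∈ (S s).P, ‖kap ((S s).N * n) (h p)‖ ≤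
      (1 / 2) ^ p.1 * (1 / 2) ^ p.2 := by
    rintro ⟨k, l⟩ hp
    by_cases hkl : s < k ∨ s < l
    · have h1 := ((L1_FF (S k).N (S l).N (S k).f (S l).g).smp (S s).hN 0) (S s).P
      simp only [smp, add_zero] at h1
      have c1 := (S k).hc _ (Or.inl rfl)
      have c2 := (S l).hc _ (Or.inr rfl)
      have := nm_nonneg (S l).g
      have := nm_nonneg (S k).f
      have := (S k).c0
      have := (S l).c0
      have := (S s).h2
      have := (S s).r2
      have hR : 0 ≤ (S s).R := by linarith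
      calc _ ≤ (S s).R * ((S k).c * (S l).c) := by
            refine (mul_le_mul_of_nonneg_left h1 (S s).h2).trans ?_
            gcongr
        _ ≤ (S k).η * (S l).η := by
            rcases hkl with hk | hk
            · rw [← mul_assoc]; exact mul_le_mul (hS _ _ hk).1 (S l).e5 (S l).c0 (S k).hη.le
            · rw [mul_left_comm]
              exact mul_le_mul (S k).e5 (hS _ _ hk).1 (by positivity) (S k).hη.le
        _ = _ := by rw [hη, hη]
    · rw [sum_eq_zero, mul_zero]; · positivity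
      intro n hn
      have hn0 := (S s).hP n hn
      simp only [h, kap_FF_mul, kap_FF, pr_eq, norm_eq_zero]
      refine sum_eq_zero fun a ha => ?_
      rw [sum_eq_zero, mul_zero]
      intro b hb
      rw [if_neg, mul_zero]
      intro e
      simp only [ne_eq, Prod.mk.injEq] at hp
      rcases lt_or_eq_of_le (show k ≤ s by omega) with hk | rfl <;>
        rcases lt_or_eq_of_le (show l ≤ _ from not_lt.1 fun h => hkl (Or.inr h)) with hl | rfl
      · have t1 := sm k hk _ (Or.inl rfl) a ha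
        have t2 := sm l hl _ (Or.inr rfl) b hb
        have : ((S s).N:ℤ) * 1 ≤ (S s).N * n := mul_le_mul_of_nonneg_left hn0 (by omega)
        linarith [le_abs_self (((S k).N : ℤ) * a), le_abs_self (((S l).N : ℤ) * b)]
      · have := one (n - b) _ (sm k hk _ (Or.inl rfl) a ha) (by linarith)
        exact Finsupp.mem_support_iff.1 hb ((S l).hz _ (Or.inr rfl) _ ((show n = b by omega) ▸ hn))
      · have := one (n - a) _ (sm l hl _ (Or.inr rfl) b hb) (by linarith)
        exact Finsupp.mem_support_iff.1 ha ((S k).hz _ (Or.inl rfl) _ ((show n = a by omega) ▸ hn))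
      · exact hp ⟨rfl, rfl⟩
  have main : ∀ n, kap ((S s).N * n) (h (s, s)) = conv (S s).f (S s).g n := fun n => by
    simp only [h, kap_FF_mul, kap_FF, conv]
    congr 1; ext a
    rw [pr_eq, sum_eq_single (n - a), if_pos (by ring), mul_one]
    · intro b _ hb
      rw [if_neg, mul_zero]
      intro e
      have := (S s).hN
      exact hb (mul_left_cancel₀ (show ((S s).N:ℤ) ≠ 0 by omega) (by linarith))
    · intro hb; simp [Finsupp.notMem_support_iff.1 hb]
  have hmem : (s, s) ∈ range M ×ˢ range M := by simp [hM]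
  have tot : (∑ k ∈ range M, FF (S k).N (S k).f) * ∑ k ∈ range M, FF (S k).N (S k).g =
      h (s, s) + ∑ p ∈ (range M ×ˢ range M).erase (s, s), h p := by
    rw [add_sum_erase _ _ hmem, sum_mul_sum, sum_product]
  have err : (S s).a2 * ∑ n ∈ (S s).P, ‖kap ((S s).N * n)
      (∑ p ∈ (range M ×ˢ range M).erase (s, s), h p)‖ ≤ 4 := by
    simp only [map_sum]
    refine (mul_le_mul_of_nonneg_left (sum_le_sum fun n _ => norm_sum_le _ _) (S s).h2).trans ?_
    rw [sum_comm, mul_sum]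
    refine (sum_le_sum fun p hp => E p (ne_of_mem_erase hp)).trans ?_
    refine (sum_le_sum_of_subset_of_nonneg (erase_subset _ _) fun _ _ _ => by positivity).trans ?_
    rw [sum_product, ← sum_mul_sum]
    have := sum_geometric_two_le M
    have h0 : 0 ≤ ∑ i ∈ range M, (1 / 2 : ℝ) ^ i := by positivity
    nlinarith
  have := (S s).big
  rw [tot]
  rw [sub_le_iff_le_add]
  refine this.trans (le_trans ?_ (add_le_add le_rfl err))
  rw [← mul_add, ← sum_add_distrib]
  refine mul_le_mul_of_nonneg_left (sum_le_sum fun n _ => ?_) (S s).h2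
  rw [← main, map_add]
  exact norm_le_add_norm_add _ _

end Pool.Agent.H97.Toep
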