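import Mathlib

open MeasureTheory Set Filter Topology InnerProductSpace ContinuousLinearMap
open scoped ENNReal NNReal

namespace Pool.Agent.H97.TorusGap

/-- Composition operator attached to an isomorphism of a normalised piece of `μ` with `ν`. -/
lemma exists_W {X Y : Type*} [MeasurableSpace X] [MeasurableSpace Y] (μ : Measure X) (ν : Measure Y)
    {S : Set X} (hS : MeasurableSet S) {c : ℝ≥0∞} (hc0 : c ≠ 0) (hc : c ≠ ∞) {φ : X → Y} {ψ : Y → X}
    (hφ : MeasurePreserving φ (c • μ.restrict S) ν) (hψ : MeasurePreserving ψ ν (c • μ.restrict S))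
    (h : ∀ᵐ y ∂ν, φ (ψ y) = y) :
    ∃ W : Lp ℂ 2 μ →L[ℂ] Lp ℂ 2 ν, (∀ η, W η =ᵐ[ν] η ∘ ψ) ∧
      ∀ ξ, adjoint W ξ =ᵐ[μ] S.indicator (fun x => (c.toReal : ℂ) * ξ (φ x)) := by
  have hle : c • μ.restrict S ≤ c • μ := by
    intro s
    simp only [Measure.smul_apply, smul_eq_mul]
    gcongr
    exact Measure.restrict_le_self
  have hac : c • μ.restrict S ≪ μ := Measure.absolutelyContinuous_of_le_smul hle
  set R := Lp.LpToLpOfMeasureLeSMul (E := ℂ) (p := 2) hc hle with hR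
  have hRc : ∀ f, R f =ᵐ[c • μ.restrict S] f := Lp.coeFn_LpToLpOfMeasureLeSMul hc hle
  let R' : Lp ℂ 2 μ →L[ℂ] Lp ℂ 2 (c • μ.restrict S) :=
    { toFun := R
      map_add' := R.map_add
      map_smul' := fun a f => by
        ext1
        filter_upwards [hRc (a • f), Lp.coeFn_smul a (R f), hRc f, hac.ae_eq (Lp.coeFn_smul a f)]
          with x h1 h2 h3 h4
        simp only [RingHom.id_apply]
        rw [h1, h2, h4, Pi.smul_apply, Pi.smul_apply, h3]
      cont := R.continuous }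
  let W : Lp ℂ 2 μ →L[ℂ] Lp ℂ 2 ν :=
    (Lp.compMeasurePreservingₗᵢ ℂ ψ hψ).toContinuousLinearMap ∘L R'
  have hW : ∀ η, W η =ᵐ[ν] η ∘ ψ := fun η =>
    (Lp.coeFn_compMeasurePreserving (R η) hψ).trans (hψ.quasiMeasurePreserving.ae_eq_comp (hRc η))
  refine ⟨W, hW, fun ξ => ?_⟩
  have hm1 : MemLp (ξ ∘ φ) 2 (c • μ.restrict S) := (Lp.memLp ξ).comp_measurePreserving hφ
  have hm2 : MemLp (fun x => (c.toReal : ℂ) * ξ (φ x)) 2 (μ.restrict S) := by
    have : μ.restrict S ≤ c⁻¹ • (c • μ.restrict S) := by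
      rw [smul_smul, ENNReal.inv_mul_cancel hc0 hc, one_smul]
    exact (hm1.of_measure_le_smul (ENNReal.inv_ne_top.mpr hc0) this).const_mul _
  have hm3 : MemLp (S.indicator (fun x => (c.toReal : ℂ) * ξ (φ x))) 2 μ :=
    (memLp_indicator_iff_restrict hS).mpr hm2
  have : adjoint W ξ = hm3.toLp _ := by
    refine ext_inner_right ℂ fun η => ?_
    rw [adjoint_inner_left, L2.inner_def, L2.inner_def]
    have e1 : ∫ y, ⟪ξ y, W η y⟫_ℂ ∂ν = ∫ y, (fun x => ⟪ξ (φ x), η x⟫_ℂ) (ψ y) ∂ν := by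
      refine integral_congr_ae ?_
      filter_upwards [hW η, h] with y h1 h2
      rw [h1, h2]; rfl
    have hsm : StronglyMeasurable (fun x => ⟪ξ (φ x), η x⟫_ℂ) :=
      ((Lp.stronglyMeasurable ξ).comp_measurable hφ.measurable).inner (Lp.stronglyMeasurable η)
    rw [e1, ← integral_map hψ.measurable.aemeasurable hsm.aestronglyMeasurable, hψ.map_eq,
      integral_smul_measure, ← integral_smul, ← integral_indicator hS]
    refine integral_congr_ae ?_
    filter_upwards [hm3.coeFn_toLp] with x hx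
    rw [hx]
    by_cases hxS : x ∈ S
    · simp [indicator_of_mem hxS, mul_left_comm]
    · simp [indicator_of_notMem hxS]
  rw [this]
  exact hm3.coeFn_toLp

/-- size of a lattice point -/
def N (n : Fin 2 → ℤ) : ℕ := max (n 0).natAbs (n 1).natAbs

noncomputable def γ (m n : Fin 2 → ℤ) : ℝ := if N m < N n then 1 / 2 else if N m = N n then 1 else 2

lemma γ_pos (m n : Fin 2 → ℤ) : 0 < γ m n := by unfold γ; split_ifs <;> norm_num

lemma γ_le (m n : Fin 2 → ℤ) : γ m n ≤ 2 := by unfold γ; split_ifs <;> norm_num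

lemma γ_inv (m n : Fin 2 → ℤ) : (γ m n)⁻¹ = γ n m := by
  unfold γ; split_ifs <;> first | omega | norm_num

/-- the four elementary moves -/
def σ (i : Fin 4) (n : Fin 2 → ℤ) : Fin 2 → ℤ :=
  ![![n 0 + 2 * n 1, n 1], ![n 0 - 2 * n 1, n 1], ![n 0, n 1 + 2 * n 0], ![n 0, n 1 - 2 * n 0]] i

def τ : Fin 4 → Fin 4 := ![1, 0, 3, 2]

lemma σ_τ (i : Fin 4) (n : Fin 2 → ℤ) : σ i (σ (τ i) n) = n := by
  fin_cases i <;> (ext j; fin_cases j <;> simp [σ, τ])

lemma τ_σ (i : Fin 4) (n : Fin 2 → ℤ) : σ (τ i) (σ i n) = n := by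
  fin_cases i <;> (ext j; fin_cases j <;> simp [σ, τ])

lemma σ_zero (i : Fin 4) : σ i 0 = 0 := by
  fin_cases i <;> (ext j; fin_cases j <;> simp [σ])

def σe (i : Fin 4) : (Fin 2 → ℤ) ≃ (Fin 2 → ℤ) := ⟨σ i, σ (τ i), τ_σ i, σ_τ i⟩

lemma sum_γ {n : Fin 2 → ℤ} (hn : n ≠ 0) : ∑ i, γ n (σ i n) ≤ 7 / 2 := by
  have h : n 0 ≠ 0 ∨ n 1 ≠ 0 := by
    by_contra h
    push Not at h
    exact hn (by ext j; fin_cases j <;> simp [h.1, h.2])
  simp only [Fin.sum_univ_four, γ, N, σ, Matrix.cons_val_zero, Matrix.cons_val_one,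
    Matrix.cons_val]
  split_ifs <;> first | omega | norm_num

lemma sum_γ' {n : Fin 2 → ℤ} (hn : n ≠ 0) : ∑ i, γ n (σ (τ i) n) ≤ 7 / 2 := by
  have := sum_γ hn
  simp only [Fin.sum_univ_four, τ, Matrix.cons_val_zero, Matrix.cons_val_one,
    Matrix.cons_val] at this ⊢
  linarith

lemma gap {H : Type*} [NormedAddCommGroup H] [InnerProductSpace ℂ H]
    (b : HilbertBasis (Fin 2 → ℤ) ℂ H) (f g : H)
    (h0 : b.repr g 0 = 0)
    (h : ∀ n, n ≠ 0 → b.repr g n = (1 / 4 : ℂ) * ∑ i, b.repr f (σ i n)) : ‖g‖ ≤ 7 / 8 * ‖f‖ := by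
  classical
  have hs : ∀ u : H, HasSum (fun n => ‖b.repr u n‖ ^ 2) (‖u‖ ^ 2) := by
    intro u
    have := lp.hasSum_norm (p := 2) (by norm_num) (b.repr u)
    simpa using this
  set w : (Fin 2 → ℤ) → ℝ := fun n => ‖b.repr f n‖ ^ 2 with hw
  set G : Fin 4 → (Fin 2 → ℤ) → ℝ := fun i m => if m = 0 then 0 else γ m (σ (τ i) m) with hG
  have hG0 : ∀ i m, 0 ≤ G i m := fun i m => by
    simp only [hG]; split_ifs; exacts [le_rfl, (γ_pos _ _).le]
  have hG2 : ∀ i m, G i m ≤ 2 := fun i m => by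
    simp only [hG]; split_ifs; exacts [by norm_num, γ_le _ _]
  have hsum : ∀ i, Summable (fun m => w m * G i m) := fun i =>
    Summable.of_nonneg_of_le (fun m => mul_nonneg (sq_nonneg _) (hG0 i m))
      (fun m => mul_le_mul_of_nonneg_left (hG2 i m) (sq_nonneg _)) ((hs f).summable.mul_right 2)
  have h1 : HasSum (fun n => ∑ i, w (σ i n) * G i (σ i n)) (∑ i, ∑' m, w m * G i m) :=
    hasSum_sum fun i _ => ((σe i).hasSum_iff (f := fun m => w m * G i m)).mpr (hsum i).hasSum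
  have h2 : ∑ i, ∑' m, w m * G i m ≤ 7 / 2 * ‖f‖ ^ 2 := by
    refine hasSum_le (fun m => ?_) (hasSum_sum fun i _ => (hsum i).hasSum) ((hs f).mul_left (7 / 2))
    rw [← Finset.mul_sum, mul_comm]
    refine mul_le_mul_of_nonneg_right ?_ (sq_nonneg _)
    by_cases hm : m = 0
    · simp [hG, hm]; norm_num
    · simpa only [hG, if_neg hm] using sum_γ' hm
  have h3 : ‖g‖ ^ 2 ≤ 7 / 32 * ∑ i, ∑' m, w m * G i m := by
    refine hasSum_le (fun n => ?_) (hs g) (h1.mul_left (7 / 32))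
    by_cases hn : n = 0
    · rw [hn, h0]
      simp only [norm_zero, ne_eq, OfNat.ofNat_ne_zero, not_false_eq_true, zero_pow]
      exact mul_nonneg (by norm_num)
        (Finset.sum_nonneg fun i _ => mul_nonneg (sq_nonneg _) (hG0 _ _))
    · have e : ∀ i, w (σ i n) * G i (σ i n) = ‖b.repr f (σ i n)‖ ^ 2 / γ n (σ i n) := by
        intro i
        have : σ i n ≠ 0 := fun h' => hn (by rw [← τ_σ i n, h', σ_zero])
        simp only [hw, hG, if_neg this, τ_σ, div_eq_mul_inv, γ_inv]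
      simp only [e]
      have t := Finset.sq_sum_div_le_sum_sq_div Finset.univ (fun i => ‖b.repr f (σ i n)‖)
        (g := fun i => γ n (σ i n)) (fun i _ => γ_pos _ _)
      have hp : 0 < ∑ i, γ n (σ i n) := Finset.sum_pos (fun i _ => γ_pos _ _) Finset.univ_nonempty
      rw [div_le_iff₀ hp] at t
      have t2 : ‖b.repr g n‖ ≤ 1 / 4 * ∑ i, ‖b.repr f (σ i n)‖ := by
        rw [h n hn, norm_mul]
        have : ‖(1 / 4 : ℂ)‖ = 1 / 4 := by simp
        rw [this]
        exact mul_le_mul_of_nonneg_left (norm_sum_le _ _) (by norm_num)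
      have t3 := pow_le_pow_left₀ (norm_nonneg _) t2 2
      have t4 : 0 ≤ ∑ i, ‖b.repr f (σ i n)‖ ^ 2 / γ n (σ i n) :=
        Finset.sum_nonneg fun i _ => div_nonneg (sq_nonneg _) (γ_pos _ _).le
      have t5 := mul_le_mul_of_nonneg_left (sum_γ hn) t4
      nlinarith
  have : ‖g‖ ^ 2 ≤ (7 / 8 * ‖f‖) ^ 2 := by nlinarith
  exact abs_le_of_sq_le_sq' this (by positivity) |>.2

abbrev T : Type := UnitAddTorus (Fin 2)

noncomputable abbrev mT : Measure T := Measure.pi fun _ => AddCircle.haarAddCircle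

noncomputable def B : HilbertBasis (Fin 2 → ℤ) ℂ (Lp ℂ 2 mT) := UnitAddTorus.mFourierBasis

lemma B_coe (n : Fin 2 → ℤ) : B n =ᵐ[mT] UnitAddTorus.mFourier n := by
  have : B n = UnitAddTorus.mFourierLp 2 n := congrFun UnitAddTorus.coe_mFourierBasis n
  rw [this]
  exact UnitAddTorus.coeFn_mFourierLp 2 n

def L (a b c d : ℤ) : T →+ T where
  toFun x := ![a • x 0 + b • x 1, c • x 0 + d • x 1]
  map_zero' := by ext j; fin_cases j <;> simp
  map_add' x y := by ext j; fin_cases j <;> simp <;> abel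

lemma L_cont (a b c d : ℤ) : Continuous (L a b c d) := by
  refine continuous_pi fun j => ?_
  fin_cases j <;> simp [L] <;> fun_prop

lemma mF (n : Fin 2 → ℤ) (x : T) :
    UnitAddTorus.mFourier n x = AddCircle.toCircle (n 0 • x 0 + n 1 • x 1) := by
  simp [UnitAddTorus.mFourier, Fin.prod_univ_two, fourier_apply, AddCircle.toCircle_add]

lemma mF_L (a b c d : ℤ) (n : Fin 2 → ℤ) (x : T) :
    UnitAddTorus.mFourier n (L a b c d x) =
      UnitAddTorus.mFourier ![a * n 0 + c * n 1, b * n 0 + d * n 1] x := by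
  rw [mF, mF]
  congr 2
  simp only [L, AddMonoidHom.coe_mk, ZeroHom.coe_mk, Matrix.cons_val_zero, Matrix.cons_val_one]
  module

def A : Fin 4 → (T →+ T) := ![L 1 0 2 1, L 1 0 (-2) 1, L 1 2 0 1, L 1 (-2) 0 1]

lemma A_cont (i : Fin 4) : Continuous (A i) := by fin_cases i <;> exact L_cont _ _ _ _

lemma A_τ (i : Fin 4) (x : T) : A i (A (τ i) x) = x := by
  fin_cases i <;> (ext j; fin_cases j <;> simp [A, τ, L])

lemma τ_A (i : Fin 4) (x : T) : A (τ i) (A i x) = x := by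
  fin_cases i <;> (ext j; fin_cases j <;> simp [A, τ, L])

lemma mF_A (i : Fin 4) (n : Fin 2 → ℤ) (x : T) :
    UnitAddTorus.mFourier n (A i x) = UnitAddTorus.mFourier (σ i n) x := by
  fin_cases i <;> simp [A, σ, mF_L, sub_eq_add_neg, add_comm]

lemma A_mp (i : Fin 4) : MeasurePreserving (A i) mT mT :=
  AddMonoidHom.measurePreserving (A_cont i) (fun x => ⟨_, A_τ i x⟩) rfl

/-- Spectral gap of the four elementary toral automorphisms. -/
theorem exists_markov : ∃ (U : Fin 4 → (Lp ℂ 2 mT →L[ℂ] Lp ℂ 2 mT)) (e : Lp ℂ 2 mT),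
    (∀ i η, U i η =ᵐ[mT] η ∘ A (τ i)) ∧ (∀ i η, adjoint (U i) η =ᵐ[mT] η ∘ A i) ∧
    (e =ᵐ[mT] fun _ => 1) ∧
    Tendsto (fun k : ℕ => ((1 / 4 : ℂ) • ∑ i, U i) ^ (k + 1)) atTop (𝓝 (rankOne ℂ e e)) := by
  have hW := fun i => exists_W mT mT MeasurableSet.univ (c := 1) one_ne_zero ENNReal.one_ne_top
    (φ := A i) (ψ := A (τ i)) (by simpa using A_mp i) (by simpa using A_mp (τ i))
    (Eventually.of_forall (A_τ i))
  choose U hU hU' using hW
  have hU2 : ∀ i η, adjoint (U i) η =ᵐ[mT] η ∘ A i := fun i η => by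
    filter_upwards [hU' i η] with x hx
    simpa using hx
  have he : B 0 =ᵐ[mT] fun _ => 1 := by
    filter_upwards [B_coe 0] with x hx
    rw [hx, UnitAddTorus.mFourier_zero]; rfl
  refine ⟨U, B 0, hU, hU2, he, ?_⟩
  have hadj : ∀ i n, adjoint (U i) (B n) = B (σ i n) := by
    intro i n
    ext1
    filter_upwards [hU2 i (B n), (A_mp i).quasiMeasurePreserving.ae_eq_comp (B_coe n),
      B_coe (σ i n)] with x h1 h2 h3
    rw [h1, h2, h3]; exact mF_A i n x
  have hU0 : ∀ i, U i (B 0) = B 0 := by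
    intro i
    ext1
    filter_upwards [hU i (B 0), (A_mp (τ i)).quasiMeasurePreserving.ae_eq_comp he, he]
      with x h1 h2 h3
    rw [h1, h2, h3]; rfl
  set M : Lp ℂ 2 mT →L[ℂ] Lp ℂ 2 mT := (1 / 4 : ℂ) • ∑ i, U i with hM
  set P : Lp ℂ 2 mT →L[ℂ] Lp ℂ 2 mT := rankOne ℂ (B 0) (B 0) with hP
  have hMr : ∀ f n, ⟪B n, M f⟫_ℂ = (1 / 4 : ℂ) * ∑ i, ⟪B (σ i n), f⟫_ℂ := by
    intro f n
    simp only [hM, _root_.smul_apply, _root_.sum_apply, inner_smul_right, inner_sum,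
      ← adjoint_inner_left, hadj]
  have hM0 : ∀ f, ⟪B 0, M f⟫_ℂ = ⟪B 0, f⟫_ℂ := by
    intro f
    rw [hMr]; simp [σ_zero]
  have hMe : M (B 0) = B 0 := by
    simp only [hM, _root_.smul_apply, _root_.sum_apply, hU0, Finset.sum_const, Finset.card_univ,
      Fintype.card_fin]
    rw [← Nat.cast_smul_eq_nsmul ℂ, smul_smul]
    norm_num
  have h1 : ‖B 0‖ = 1 := B.orthonormal.1 0
  have hn : ‖M - P‖ ≤ 7 / 8 := by
    refine opNorm_le_bound _ (by norm_num) fun f => gap B f _ ?_ fun n hn => ?_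
    · simp [HilbertBasis.repr_apply_apply, inner_sub_right, hM0, hP, inner_smul_right, h1]
    · have : ⟪B n, B 0⟫_ℂ = 0 := B.orthonormal.inner_eq_zero hn
      simp only [HilbertBasis.repr_apply_apply, _root_.sub_apply, inner_sub_right, hMr, hP,
        rankOne_apply, inner_smul_right, this, mul_zero, sub_zero]
  have hMP : M * P = P := by
    ext1 f; simp [hP, hMe]
  have hPM : P * M = P := by
    ext1 f; simp [hP, hM0]
  have hPP : P * P = P := by
    ext1 f; simp [hP, inner_smul_right, h1]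
  have hk : ∀ k : ℕ, M ^ (k + 1) - P = (M - P) ^ (k + 1) ∧ P * M ^ (k + 1) = P := by
    intro k
    induction k with
    | zero => simp [hPM]
    | succ k ih =>
      refine ⟨?_, by rw [pow_succ, ← mul_assoc, ih.2, hPM]⟩
      rw [pow_succ' (M - P), ← ih.1, sub_mul, mul_sub, mul_sub, hMP, hPP, ih.2, ← pow_succ']
      abel
  rw [tendsto_iff_norm_sub_tendsto_zero]
  have ht : Tendsto (fun k : ℕ => (7 / 8 : ℝ) ^ (k + 1)) atTop (𝓝 0) :=
    (tendsto_pow_atTop_nhds_zero_of_lt_one (by norm_num) (by norm_num)).comp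
      (tendsto_add_atTop_nat 1)
  refine squeeze_zero (fun _ => norm_nonneg _) (fun k => ?_) ht
  rw [(hk k).1]
  exact (norm_pow_le' _ (Nat.succ_pos k)).trans (pow_le_pow_left₀ (norm_nonneg _) hn _)

end Pool.Agent.H97.TorusGap
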