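import Mathlib

/-! The twisted sum given by `t log t` carries no complete norm. -/

set_option autoImplicit false
open Set Filter Topology Finset

namespace Pool.Agent.H97.Tw

abbrev L : Type := lp (fun _ : ℕ => ℝ) 1

lemma hs (x : L) : HasSum (fun i => |x i|) ‖x‖ := by
  simpa using lp.hasSum_norm (p := 1) (by simp) x

noncomputable def l (t : ℝ) : ℝ := t * Real.log t

lemma l_div {t s : ℝ} (h0 : 0 < s) (h : |t| ≤ s) : |l t - t * Real.log s| ≤ s := by
  rcases eq_or_ne t 0 with rfl | ht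
  · simpa [l] using h0.le
  have := (Real.abs_log_mul_self_lt (|t| / s) (by positivity) ((div_le_one h0).2 h)).le
  rw [Real.log_div (abs_ne_zero.2 ht) h0.ne', Real.log_abs, abs_mul, abs_div, abs_abs,
    abs_of_pos h0, ← mul_div_assoc, div_le_one h0] at this
  rwa [l, ← mul_sub, abs_mul, mul_comm]

lemma l_add (a b : ℝ) : |l (a + b) - (l a + l b)| ≤ 3 * (|a| + |b|) := by
  rcases (add_nonneg (abs_nonneg a) (abs_nonneg b)).eq_or_lt with h | h
  · have : a = 0 := abs_eq_zero.1 (by linarith [abs_nonneg a, abs_nonneg b])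
    simp [this, l]
  have h1 := abs_le.1 (l_div h (abs_add_le a b))
  have h2 := abs_le.1 (l_div h (le_add_of_nonneg_right (abs_nonneg b)))
  have h3 := abs_le.1 (l_div h (le_add_of_nonneg_left (abs_nonneg a)))
  exact abs_le.2 ⟨by linarith, by linarith⟩

lemma l_mul (c a : ℝ) : l (c * a) = c * l a + l c * a := by
  by_cases hc : c = 0
  · simp [hc, l]
  by_cases ha : a = 0
  · simp [ha, l]
  simp only [l, Real.log_mul hc ha]; ring

lemma pettis {V : Type} [NormedAddCommGroup V] [CompleteSpace V] [MeasurableSpace V] [BorelSpace V]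
    {S : ℕ → Set V} (hm : ∀ n, MeasurableSet (S n)) (hU : ⋃ n, S n = univ) :
    ∃ n, ∃ r > 0, ∀ v, ‖v‖ < r → ∃ x ∈ S n, x + v ∈ S n := by
  obtain ⟨n, hn⟩ : ∃ n, ¬ IsMeagre (S n) := by
    by_contra! h
    exact not_isMeagre_of_isOpen isOpen_univ univ_nonempty (hU ▸ isMeagre_iUnion h)
  obtain ⟨U, hU, e⟩ := (hm n).residualEq_isOpen
  obtain ⟨u, hu⟩ : U.Nonempty := nonempty_iff_ne_empty.2 fun h => hn (by
    filter_upwards [e] with x hx h1 using (h ▸ hx.mp h1 :))
  obtain ⟨r, h0, hr⟩ := Metric.isOpen_iff.1 hU u hu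
  refine ⟨n, r, h0, fun v hv => ?_⟩
  have e2 := tendsto_residual_of_isOpenMap (continuous_add_const v) (isOpenMap_add_right v) e
  obtain ⟨x, ⟨h1, h2⟩, h3, h4⟩ := (dense_of_mem_residual (inter_mem e e2)).inter_open_nonempty _
    (hU.inter (hU.preimage (continuous_add_const v))) ⟨u, hu, hr (by simpa using hv)⟩
  exact ⟨x, h3.mpr h1, h4.mpr h2⟩

theorem core {V : Type} [NormedAddCommGroup V] [NormedSpace ℝ V] [CompleteSpace V]
    [MeasurableSpace V] [BorelSpace V] (A : V →ₗ[ℝ] ℕ → ℝ) (b : V →ₗ[ℝ] L)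
    (m1 : ∀ i, Measurable fun v => A v i) (m2 : ∀ i, Measurable fun v => b v i)
    (h1 : ∀ v, Summable fun i => |A v i - l (b v i)|) (h2 : Function.Surjective b) : False := by
  obtain ⟨N, r, h0, hr⟩ := pettis
    (S := fun N : ℕ => ⋂ n, {v | ∑ i ∈ range n, (|A v i - l (b v i)| + |b v i|) ≤ N})
    (fun N => .iInter fun n => measurableSet_le (by unfold l; fun_prop) measurable_const)
    (eq_univ_of_forall fun v => by
      obtain ⟨N, hN⟩ := exists_nat_ge (∑' i, (|A v i - l (b v i)| + |b v i|))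
      exact mem_iUnion.2 ⟨N, mem_iInter.2 fun n => (((h1 v).add (hs _).summable).sum_le_tsum _
        fun _ _ => by positivity).trans hN⟩)
  have key : ∀ v, ‖v‖ < r → ∀ n, ∑ i ∈ range n, (|A v i - l (b v i)| + |b v i|) ≤ 14 * N :=
    fun v hv n => by
    obtain ⟨x, a1, a2⟩ := hr v hv
    have a3 := mem_iInter.1 a1 n
    have a4 := mem_iInter.1 a2 n
    rw [mem_ofPred_eq] at a3 a4
    refine le_trans ?_ ((mul_le_mul_of_nonneg_left (add_le_add a3 a4) (by norm_num : (0:ℝ) ≤ 7)
      ).trans_eq (by ring))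
    rw [← sum_add_distrib, mul_sum]
    refine sum_le_sum fun i _ => ?_
    simp only [map_add, Pi.add_apply, lp.coeFn_add]
    have e1 := abs_le.1 (l_add (b x i) (b v i))
    have e2 : |b v i| ≤ |b x i + b v i| + |b x i| := by simpa using abs_sub (b x i + b v i) (b x i)
    have e3 : |A v i - l (b v i)| ≤ |A x i - l (b x i)| + |A x i + A v i - l (b x i + b v i)| +
      3 * (|b x i| + |b v i|) := abs_le.2 ⟨by
        linarith [le_abs_self (A x i - l (b x i)), neg_abs_le (A x i + A v i - l (b x i + b v i))],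
      by linarith [neg_abs_le (A x i - l (b x i)), le_abs_self (A x i + A v i - l (b x i + b v i))]⟩
    linarith [abs_nonneg (A x i - l (b x i)), abs_nonneg (A x i + A v i - l (b x i + b v i)),
      abs_nonneg (b x i + b v i)]
  obtain ⟨C, C0, hC⟩ := (b.mkContinuous (14 * N * (2 / r)) (b.bound_of_shell h0 (c := 2) (by simp)
    fun v a1 a2 => by
      refine (le_of_tendsto' (hs (b v)).tendsto_sum_nat fun n => le_trans (sum_le_sum fun i _ =>
        le_add_of_nonneg_left (abs_nonneg _)) (key v a2 n)).trans ?_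
      rw [mul_assoc]
      refine le_mul_of_one_le_right (by positivity) ?_
      rw [Real.norm_two, div_le_iff₀ two_pos] at a1
      rw [div_mul_eq_mul_div, le_div_iff₀ h0]; linarith)).exists_preimage_norm_le h2
  set δ := r / (2 * C)
  have hδ : 0 < δ := by positivity
  choose v v1 v2 using fun i => hC (lp.single 1 i δ)
  have v3 : ∀ i, ‖v i‖ ≤ r / 2 := fun i => (v2 i).trans_eq (by
    rw [lp.norm_single one_pos, Real.norm_of_nonneg hδ.le]; simp only [δ]; field_simp)
  have v4 : ∀ i j, b (v i) j = if j = i then δ else 0 := fun i j => by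
    rw [show b (v i) = _ from v1 i]; simp [Pi.single_apply]
  obtain ⟨n, n0, hn⟩ := ((eventually_gt_atTop 0).and ((Real.tendsto_log_atTop.comp
    tendsto_natCast_atTop_atTop).eventually_gt_atTop ((28 * N + 2 * |l δ|) / δ))).exists
  have n1 : (0 : ℝ) < n := by exact_mod_cast n0
  have k1 := key ((n : ℝ)⁻¹ • ∑ i ∈ range n, v i) (by
    rw [norm_smul, norm_inv, Real.norm_natCast, inv_mul_lt_iff₀ n1]
    refine ((norm_sum_le _ _).trans (sum_le_sum fun i _ => v3 i)).trans_lt ?_
    simp only [sum_const, card_range, nsmul_eq_mul]; nlinarith) n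
  have k2 : ∀ i ∈ range n, ∑ j ∈ range n, |A (v i) j| ≤ 14 * N + |l δ| := fun i hi => by
    refine le_trans ?_ (add_le_add_left (key (v i) (by linarith [v3 i]) n) _)
    rw [← sum_ite_eq_of_mem' (range n) i (fun _ => |l δ|) hi, ← sum_add_distrib]
    refine sum_le_sum fun j _ => ?_
    have := abs_add_le (A (v i) j - l (b (v i) j)) (l (b (v i) j))
    rw [sub_add_cancel] at this
    refine this.trans (add_le_add (le_add_of_nonneg_right (abs_nonneg _)) ?_)
    rw [v4]; split_ifs <;> simp [l]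
  have k3 : ∑ j ∈ range n, |l ((n : ℝ)⁻¹ * δ)| ≤ 14 * N + (n : ℝ)⁻¹ * ∑ i ∈ range n,
      ∑ j ∈ range n, |A (v i) j| := by
    rw [sum_comm, mul_sum]
    refine le_trans ?_ (add_le_add_left k1 _)
    rw [← sum_add_distrib]
    refine sum_le_sum fun j hj => ?_
    have e : b ((n : ℝ)⁻¹ • ∑ i ∈ range n, v i) j = (n : ℝ)⁻¹ * δ := by
      rw [map_smul, map_sum, lp.coeFn_smul, lp.coeFn_sum, Pi.smul_apply, Finset.sum_apply]
      simp [v4, mem_range.1 hj]
    have e2 : |A ((n : ℝ)⁻¹ • ∑ i ∈ range n, v i) j| ≤ (n : ℝ)⁻¹ * ∑ i ∈ range n, |A (v i) j| := by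
      simp only [map_smul, map_sum, Pi.smul_apply, Finset.sum_apply, smul_eq_mul, abs_mul, abs_inv,
        Nat.abs_cast]
      exact mul_le_mul_of_nonneg_left (abs_sum_le_sum_abs _ _) (by positivity)
    rw [e]
    have := abs_sub (A ((n : ℝ)⁻¹ • ∑ i ∈ range n, v i) j)
      (A ((n : ℝ)⁻¹ • ∑ i ∈ range n, v i) j - l ((n : ℝ)⁻¹ * δ))
    rw [sub_sub_cancel] at this
    linarith [abs_nonneg ((n : ℝ)⁻¹ * δ)]
  have k4 := mul_le_mul_of_nonneg_left (sum_le_sum k2) (inv_pos.2 n1).le
  simp only [sum_const, card_range, nsmul_eq_mul, inv_mul_cancel_left₀ n1.ne'] at k3 k4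
  have k5 : (n : ℝ) * l ((n : ℝ)⁻¹ * δ) = l δ - δ * Real.log n := by
    rw [l_mul]; simp only [l, Real.log_inv]; field_simp; ring
  rw [Function.comp_apply, div_lt_iff₀ hδ] at hn
  nlinarith [neg_abs_le (l ((n : ℝ)⁻¹ * δ)), le_abs_self (l δ)]

instance : TopologicalSpace.SeparableSpace L := by
  rw [← TopologicalSpace.isSeparable_univ_iff]
  refine (TopologicalSpace.IsSeparable.span (R := ℝ)
    (countable_range fun n => (lp.single 1 n 1 : L)).isSeparable).closure.mono fun x _ => ?_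
  refine mem_closure_of_tendsto (lp.hasSum_single (by simp) x) (Eventually.of_forall fun s => ?_)
  refine Submodule.sum_mem _ fun n _ => ?_
  have := Submodule.smul_mem _ (x n) (Submodule.subset_span (s := Set.range fun n =>
    (lp.single 1 n 1 : L)) (R := ℝ) ⟨n, rfl⟩)
  rwa [← lp.single_smul, smul_eq_mul, mul_one] at this

def mk (f : ℕ → ℝ) (h : Summable fun i => |f i|) : L := ⟨f, memℓp_gen (by simpa using h)⟩

@[simp] lemma mk_apply (f h i) : mk f h i = f i := rfl

lemma D_le (x : L) (i : ℕ) : |x i / 2 ^ i| ≤ |x i| := by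
  rw [abs_div, abs_pow, abs_two]; exact div_le_self (abs_nonneg _) (one_le_pow₀ one_le_two)

noncomputable def D : L →L[ℝ] L := LinearMap.mkContinuous
  { toFun := fun x => mk (fun i => x i / 2 ^ i)
      (.of_nonneg_of_le (fun _ => abs_nonneg _) (D_le x) (hs x).summable)
    map_add' := fun x y => by ext n; simp [add_div]
    map_smul' := fun c x => by ext n; simp [mul_div_assoc] } 1 fun x => by
  rw [one_mul]; exact hasSum_le (D_le x) (hs _) (hs x)

lemma D_apply (x : L) (i : ℕ) : D x i = x i / 2 ^ i := rfl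

lemma D_norm : ‖D‖ ≤ 1 := LinearMap.mkContinuous_norm_le _ zero_le_one _

lemma D_inj : Function.Injective D := fun x y h => by
  ext i
  simpa [D_apply] using congrArg (fun z : L => z i) h

noncomputable def Om (x : L) : L := mk (fun i => l (x i) / 2 ^ i) (by
  refine .of_nonneg_of_le (fun _ => abs_nonneg _) (fun i => ?_) (summable_geometric_two.mul_left
    ((‖x‖ + 1) + ‖x‖ * |Real.log (‖x‖ + 1)|))
  have h : |x i| ≤ ‖x‖ := lp.norm_apply_le_norm one_ne_zero x i
  have h1 := l_div (s := ‖x‖ + 1) (by positivity) (h.trans (by simp))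
  have h2 := abs_add_le (l (x i) - x i * Real.log (‖x‖ + 1)) (x i * Real.log (‖x‖ + 1))
  rw [sub_add_cancel, abs_mul] at h2
  rw [abs_div, abs_pow, abs_two, one_div, inv_pow, div_eq_mul_inv]
  gcongr
  exact h2.trans (by gcongr))

lemma Om_apply (x : L) (i : ℕ) : Om x i = l (x i) / 2 ^ i := rfl

lemma ev_cont (i : ℕ) : Continuous fun x : L => x i := (lp.evalCLM ℝ (fun _ : ℕ => ℝ) 1 i).continuous

lemma Om_meas [MeasurableSpace L] [BorelSpace L] : Measurable Om :=
  measurable_of_tendsto_metrizable (f := fun n x => ∑ i ∈ range n, lp.single 1 i (Om x i))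
    (fun n => (continuous_finsetSum _ fun i _ => (lp.singleContinuousLinearMap ℝ (fun _ : ℕ => ℝ)
      1 i).continuous.comp ((Real.continuous_mul_log.comp (ev_cont i)).div_const _)).measurable)
    (tendsto_pi_nhds.2 fun x => (lp.hasSum_single (by simp) (Om x)).tendsto_sum_nat)

lemma Om_lin (c d : ℝ) (x y : L) : ∃ m, D m = Om (c • x + d • y) - (c • Om x + d • Om y) := by
  refine ⟨mk (fun i => l (c * x i + d * y i) - (l (c * x i) + l (d * y i)))
    (.of_nonneg_of_le (fun _ => abs_nonneg _) (fun i => l_add _ _)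
      (((hs (c • x)).summable.add (hs (d • y)).summable).mul_left 3)) + l c • x + l d • y, ?_⟩
  ext i
  simp [D_apply, Om_apply, l_mul]
  ring

theorem main {V : Type} [NormedAddCommGroup V] [NormedSpace ℝ V] [CompleteSpace V]
    (ι : V →ₗ[ℝ] L × L) (hm : @Measurable _ _ (borel _) (borel _) ι)
    (h : ∀ p, p ∈ Set.range ι ↔ ∃ m, D m = p.1 - Om p.2) : False := by
  borelize V (L × L)
  refine core (V := V) (LinearMap.pi fun i => (2 : ℝ) ^ i • (lp.evalCLM ℝ (fun _ : ℕ => ℝ) 1 i).toLinearMap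
    ∘ₗ LinearMap.fst ℝ L L ∘ₗ ι) (LinearMap.snd ℝ L L ∘ₗ ι)
    (fun i => (((ev_cont i).comp continuous_fst).measurable.comp hm).const_smul ((2 : ℝ) ^ i))
    (fun i => ((ev_cont i).comp continuous_snd).measurable.comp hm) (fun v => ?_) fun x => ?_
  · obtain ⟨m, e⟩ := (h _).1 ⟨v, rfl⟩
    refine (hs m).summable.congr fun i => congrArg _ ?_
    have : m i / 2 ^ i = (ι v).1 i - l ((ι v).2 i) / 2 ^ i := congrArg (fun z : L => z i) e
    show m i = 2 ^ i * (ι v).1 i - l ((ι v).2 i)
    field_simp at this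
    linarith
  · obtain ⟨v, hv⟩ := (h (Om x, x)).2 ⟨0, by simp⟩
    exact ⟨v, congrArg Prod.snd hv⟩

end Pool.Agent.H97.Tw
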