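import Mathlib

set_option autoImplicit false

namespace Pool.Agent.H97.Wave

open Real

abbrev E := EuclideanSpace ℝ (Fin (0 + 1))

noncomputable def a : ℝ := √2 / 2

lemma a_pos : 0 < a := by unfold a; positivity

lemma a_sq : a * a = 1 / 2 := by
  unfold a
  have : √2 * √2 = 2 := Real.mul_self_sqrt (by norm_num)
  nlinarith

noncomputable def L : E →L[ℝ] ℝ := a • EuclideanSpace.proj (0 : Fin (0 + 1))

lemma L_single : L (EuclideanSpace.single (0 : Fin (0 + 1)) (1 : ℝ)) = a := by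
  simp [L]

noncomputable def u (p : E × ℝ) : ℝ := sigmoid (L p.1 + 3 / 2 * p.2)

lemma hx (t : ℝ) (x : E) : HasFDerivAt (fun y => u (y, t))
    ((u (x, t) * (1 - u (x, t))) • L) x := by
  have h1 : HasFDerivAt (fun y : E => L y + 3 / 2 * t) L x := L.hasFDerivAt.add_const _
  exact (hasDerivAt_sigmoid (L x + 3 / 2 * t)).comp_hasFDerivAt x h1

lemma fderiv_x (t : ℝ) : fderiv ℝ (fun y => u (y, t)) =
    fun x => (u (x, t) * (1 - u (x, t))) • L := by
  funext x; exact (hx t x).fderiv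

lemma hxx (t : ℝ) (x : E) (e : E) :
    fderiv ℝ (fderiv ℝ (fun y => u (y, t))) x e e =
      (u (x, t) * (1 - u (x, t))) * (1 - 2 * u (x, t)) * (L e * L e) := by
  rw [fderiv_x]
  have h1 := ((hx t x).mul ((hx t x).const_sub 1)).smul_const L
  have h2 : (fun x => (u (x, t) * (1 - u (x, t))) • L) =
      fun y => (((fun y => u (y, t)) * fun x => 1 - u (x, t)) y) • L := by
    funext y; simp
  rw [h2, h1.fderiv]
  simp
  ring

lemma ht (x : E) (t : ℝ) : HasDerivAt (fun s => u (x, s))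
    ((u (x, t) * (1 - u (x, t))) * (3 / 2)) t := by
  have h1 : HasDerivAt (fun s : ℝ => L x + 3 / 2 * s) (3 / 2) t := by
    simpa using ((hasDerivAt_id t).const_mul (3 / 2 : ℝ)).const_add (L x)
  exact (hasDerivAt_sigmoid (L x + 3 / 2 * t)).comp t h1

lemma smooth : ContDiff ℝ 2 u := by
  have h1 : ContDiff ℝ 2 (fun p : E × ℝ => L p.1 + 3 / 2 * p.2) := by fun_prop
  exact (contDiff_sigmoid.of_le le_top).comp h1

lemma u_pos (p : E × ℝ) : 0 < u p := sigmoid_pos _
lemma u_lt (p : E × ℝ) : u p < 1 := sigmoid_lt_one _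

lemma ne : u (0, -1) ≠ u (0, -2) := by
  unfold u
  intro h
  have := sigmoid_injective h
  norm_num at this

end Pool.Agent.H97.Wave
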