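import Mathlib

namespace Pool.Agent.H97.Wgt

open Real MeasureTheory Filter Topology

noncomputable def D (K : ℕ) (θ : ℝ) : ℝ := 1 + 2 * ∑ k ∈ Finset.range K, cos (((k + 1 : ℕ) : ℝ) * θ)

lemma D_cont (K : ℕ) : Continuous (D K) := by
  unfold D
  fun_prop

lemma D_rec (K : ℕ) (θ : ℝ) : 2 * cos θ * D (K + 1) θ = D (K + 2) θ + D K θ := by
  induction K with
  | zero =>
    simp only [D, Finset.sum_range_succ, Finset.sum_range_zero]
    push_cast
    rw [cos_two_mul, one_mul]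
    ring
  | succ K ih =>
    have e : ∀ n : ℕ, D (n + 1) θ = D n θ + 2 * cos (((n + 1 : ℕ) : ℝ) * θ) := by
      intro n
      simp only [D, Finset.sum_range_succ]
      ring
    rw [e (K + 1), e (K + 2), e K]
    have c1 : cos (((K + 2 + 1 : ℕ) : ℝ) * θ) = cos (((K + 1 + 1 : ℕ) : ℝ) * θ + θ) := by
      congr 1; push_cast; ring
    have c2 : cos (((K + 1 : ℕ) : ℝ) * θ) = cos (((K + 1 + 1 : ℕ) : ℝ) * θ - θ) := by
      congr 1; push_cast; ring
    rw [e K] at ih
    rw [c1, cos_add]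
    rw [c2, cos_sub] at ih ⊢
    linarith

lemma cos_pow (g : ℝ → ℝ) (hg : Continuous g)
    (h : ∀ K : ℕ, 0 ≤ ∫ θ in (-π)..π, (2 * K + 1 - D K θ) * g θ) (n : ℕ) :
    ∀ K : ℕ, 0 ≤ ∫ θ in (-π)..π, (2 * K + 1 - ((1 + cos θ) / 2) ^ n * D K θ) * g θ := by
  have hi : ∀ (n K : ℕ) (c : ℝ), IntervalIntegrable
      (fun θ => c * ((2 * K + 1 - ((1 + cos θ) / 2) ^ n * D K θ) * g θ)) volume (-π) π := by
    intro n K c
    have := D_cont K
    exact Continuous.intervalIntegrable (by fun_prop) _ _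
  induction n with
  | zero => simpa using h
  | succ n ih =>
    intro K
    cases K with
    | zero =>
      have h1 := ih 0
      have h2 := ih 1
      have e : (fun θ : ℝ => (2 * ((0 : ℕ) : ℝ) + 1 - ((1 + cos θ) / 2) ^ (n + 1) * D 0 θ) * g θ) =
          fun θ : ℝ =>
          (1 / 4) * ((2 * ((0 : ℕ) : ℝ) + 1 - ((1 + cos θ) / 2) ^ n * D 0 θ) * g θ) +
          (1 / 4) * ((2 * ((1 : ℕ) : ℝ) + 1 - ((1 + cos θ) / 2) ^ n * D 1 θ) * g θ) := by
        funext θ
        simp only [D, Finset.sum_range_succ, Finset.sum_range_zero]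
        push_cast
        simp only [zero_add, one_mul]
        ring
      rw [e, intervalIntegral.integral_add (hi _ _ _) (hi _ _ _),
        intervalIntegral.integral_const_mul, intervalIntegral.integral_const_mul]
      linarith
    | succ K =>
      have h1 := ih K
      have h2 := ih (K + 1)
      have h3 := ih (K + 2)
      have e : (fun θ : ℝ => (2 * ((K + 1 : ℕ) : ℝ) + 1 -
            ((1 + cos θ) / 2) ^ (n + 1) * D (K + 1) θ) * g θ) = fun θ : ℝ =>
          ((1 / 4) * ((2 * (K : ℝ) + 1 - ((1 + cos θ) / 2) ^ n * D K θ) * g θ) +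
          (1 / 2) * ((2 * ((K + 1 : ℕ) : ℝ) + 1 - ((1 + cos θ) / 2) ^ n * D (K + 1) θ) * g θ)) +
          (1 / 4) * ((2 * ((K + 2 : ℕ) : ℝ) + 1 - ((1 + cos θ) / 2) ^ n * D (K + 2) θ) * g θ) := by
        funext θ
        have := D_rec K θ
        have e2 : D (K + 2) θ = 2 * cos θ * D (K + 1) θ - D K θ := by linarith
        rw [e2]
        push_cast
        ring
      rw [e, intervalIntegral.integral_add ((hi _ _ _).add (hi _ _ _)) (hi _ _ _),
        intervalIntegral.integral_add (hi _ _ _) (hi _ _ _),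
        intervalIntegral.integral_const_mul, intervalIntegral.integral_const_mul,
        intervalIntegral.integral_const_mul]
      linarith

lemma desc_sign (μ : ℝ) (h0 : 0 ≤ μ) (h1 : μ ≤ 1) (n : ℕ) :
    (-1) ^ (n + 1) * (descPochhammer ℝ (n + 1)).eval μ ≤ 0 := by
  induction n with
  | zero => simpa using h0
  | succ n ih =>
    rw [descPochhammer_succ_eval]
    have : (0 : ℝ) ≤ ((n + 1 : ℕ) : ℝ) - μ := by
      push_cast
      have : (0 : ℝ) ≤ n := Nat.cast_nonneg n
      linarith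
    have h3 := mul_nonpos_of_nonpos_of_nonneg ih this
    calc _ = (-1) ^ (n + 1) * (descPochhammer ℝ (n + 1)).eval μ * (((n + 1 : ℕ) : ℝ) - μ) := by ring
      _ ≤ 0 := h3

lemma choose_sign (μ : ℝ) (h0 : 0 ≤ μ) (h1 : μ ≤ 1) (n : ℕ) :
    (-1) ^ (n + 1) * Ring.choose μ (n + 1) ≤ 0 := by
  have h := desc_sign μ h0 h1 n
  have e : Ring.choose μ (n + 1) = ((n + 1).factorial : ℝ)⁻¹ * (descPochhammer ℝ (n + 1)).eval μ := by
    rw [Ring.choose_eq_smul, smul_eq_mul, Polynomial.descPochhammer_smeval_eq_ascPochhammer,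
      Polynomial.ascPochhammer_smeval_cast, Polynomial.ascPochhammer_smeval_eq_eval,
      descPochhammer_eval_eq_ascPochhammer]
  rw [e]
  have : (0 : ℝ) ≤ ((n + 1).factorial : ℝ)⁻¹ := by positivity
  calc _ = ((n + 1).factorial : ℝ)⁻¹ * ((-1) ^ (n + 1) * (descPochhammer ℝ (n + 1)).eval μ) := by ring
    _ ≤ 0 := mul_nonpos_of_nonneg_of_nonpos this h

lemma binom (μ x : ℝ) (hx : |x| < 1) :
    HasSum (fun n : ℕ => Ring.choose μ n * x ^ n) ((1 + x) ^ μ) := by
  have h := (Real.one_add_rpow_hasFPowerSeriesOnBall_zero (a := μ)).hasSum (y := x)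
    (by
      rw [Metric.mem_eball, edist_dist]
      simpa [Real.dist_eq] using hx)
  simp only [binomialSeries_apply, List.ofFn_const, List.prod_replicate, smul_eq_mul,
    zero_add] at h
  exact h

lemma rpow_lt (g : ℝ → ℝ) (hg : Continuous g)
    (y : ℝ → ℝ) (hy : Continuous y) (hy1 : ∀ θ, |y θ| ≤ 1)
    (h : ∀ n : ℕ, 0 ≤ ∫ θ in (-π)..π, (1 - y θ ^ n) * g θ) (μ : ℝ) (h0 : 0 ≤ μ) (h1 : μ ≤ 1)
    (r : ℝ) (hr0 : 0 ≤ r) (hr1 : r < 1) :
    0 ≤ ∫ θ in (-π)..π, ((1 - r * y θ) ^ μ - (1 - r) ^ μ) * g θ := by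
  set b : ℕ → ℝ := fun n => -(Ring.choose μ n * (-r) ^ n) with hb
  have hbn : ∀ n, 0 ≤ b (n + 1) := by
    intro n
    have := choose_sign μ h0 h1 n
    have hp : 0 ≤ r ^ (n + 1) := by positivity
    have h3 := mul_nonpos_of_nonpos_of_nonneg this hp
    simp only [hb]
    rw [neg_pow]
    linarith
  have hs : ∀ θ : ℝ, HasSum (fun n : ℕ => b n * (1 - y θ ^ n))
      ((1 - r * y θ) ^ μ - (1 - r) ^ μ) := by
    intro θ
    have a1 := binom μ (-r * y θ) (by
      rw [abs_mul, abs_neg, abs_of_nonneg hr0]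
      have := hy1 θ
      have h2 := mul_le_mul_of_nonneg_left this hr0
      linarith)
    have a2 := binom μ (-r) (by rw [abs_neg, abs_of_nonneg hr0]; exact hr1)
    have a3 := a1.sub a2
    have e1 : (1 + -r * y θ) = 1 - r * y θ := by ring
    have e2 : (1 + -r) = 1 - r := by ring
    rw [e1, e2] at a3
    have e3 : (fun n : ℕ => b n * (1 - y θ ^ n)) =
        fun n : ℕ => Ring.choose μ n * (-r * y θ) ^ n - Ring.choose μ n * (-r) ^ n := by
      funext n
      simp only [hb]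
      rw [mul_pow]
      ring
    rw [e3]
    exact a3
  have hnn : ∀ θ : ℝ, ∀ n : ℕ, 0 ≤ b n * (1 - y θ ^ n) := by
    intro θ n
    cases n with
    | zero => simp
    | succ n =>
      apply mul_nonneg (hbn n)
      have : y θ ^ (n + 1) ≤ 1 := by
        have := hy1 θ
        calc y θ ^ (n + 1) ≤ |y θ ^ (n + 1)| := le_abs_self _
          _ = |y θ| ^ (n + 1) := abs_pow _ _
          _ ≤ 1 := pow_le_one₀ (abs_nonneg _) this
      linarith
  have hc : Continuous fun θ : ℝ => (1 - r * y θ) ^ μ - (1 - r) ^ μ :=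
    (Continuous.rpow_const (by fun_prop) (fun _ => Or.inr h0)).sub continuous_const
  have key := intervalIntegral.hasSum_integral_of_dominated_convergence (μ := volume)
    (a := -π) (b := π)
    (F := fun n θ => b n * (1 - y θ ^ n) * g θ)
    (f := fun θ => ((1 - r * y θ) ^ μ - (1 - r) ^ μ) * g θ)
    (fun n θ => b n * (1 - y θ ^ n) * |g θ|)
    (fun n => (Continuous.aestronglyMeasurable (by fun_prop)))
    (fun n => Eventually.of_forall fun θ _ => by
      rw [Real.norm_eq_abs, abs_mul, abs_of_nonneg (hnn θ n)])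
    (Eventually.of_forall fun θ _ => ((hs θ).mul_right _).summable)
    (by
      have : (fun θ => ∑' n, b n * (1 - y θ ^ n) * |g θ|) =
          fun θ => ((1 - r * y θ) ^ μ - (1 - r) ^ μ) * |g θ| := by
        funext θ
        exact ((hs θ).mul_right _).tsum_eq
      rw [this]
      exact Continuous.intervalIntegrable (hc.mul hg.abs) _ _)
    (Eventually.of_forall fun θ _ => (hs θ).mul_right _)
  refine key.nonneg ?_
  intro n
  cases n with
  | zero => simp
  | succ n =>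
    have := h (n + 1)
    simp only [mul_assoc]
    rw [intervalIntegral.integral_const_mul]
    exact mul_nonneg (hbn n) this

lemma rpow_pos (g : ℝ → ℝ) (hg : Continuous g)
    (y : ℝ → ℝ) (hy : Continuous y) (hy1 : ∀ θ, |y θ| ≤ 1)
    (h : ∀ n : ℕ, 0 ≤ ∫ θ in (-π)..π, (1 - y θ ^ n) * g θ) (μ : ℝ) (h0 : 0 < μ) (h1 : μ ≤ 1) :
    0 ≤ ∫ θ in (-π)..π, (1 - y θ) ^ μ * g θ := by
  have hc : Continuous fun r : ℝ =>
      ∫ θ in (-π)..π, ((1 - r * y θ) ^ μ - (1 - r) ^ μ) * g θ := by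
    apply intervalIntegral.continuous_parametric_intervalIntegral_of_continuous'
    refine Continuous.mul (Continuous.sub ?_ ?_) (hg.comp continuous_snd)
    · exact Continuous.rpow_const (by fun_prop) (fun _ => Or.inr h0.le)
    · exact Continuous.rpow_const (by fun_prop) (fun _ => Or.inr h0.le)
  have hcl : IsClosed {r : ℝ | 0 ≤
      ∫ θ in (-π)..π, ((1 - r * y θ) ^ μ - (1 - r) ^ μ) * g θ} := isClosed_le continuous_const hc
  have hsub : Set.Ico (0 : ℝ) 1 ⊆ {r : ℝ | 0 ≤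
      ∫ θ in (-π)..π, ((1 - r * y θ) ^ μ - (1 - r) ^ μ) * g θ} :=
    fun r hr => rpow_lt g hg y hy hy1 h μ h0.le h1 r hr.1 hr.2
  have h2 := hcl.closure_subset_iff.mpr hsub
  rw [closure_Ico zero_ne_one] at h2
  have h3 := h2 (show (1 : ℝ) ∈ Set.Icc (0 : ℝ) 1 from ⟨zero_le_one, le_rfl⟩)
  simpa [Real.zero_rpow h0.ne'] using h3

end Pool.Agent.H97.Wgt
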