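import Mathlib

namespace Pool.Agent.H97.Wgt

open Real Polynomial

/-- The weighted integral `∫_{-π}^{π} |1 - e^{iθ}|^{2 l} |P(e^{iθ})|^2 dθ`. -/
noncomputable def J (l : ℝ) (P : ℤ[X]) : ℝ :=
  ∫ θ in (-π)..π, ‖1 - Complex.exp (θ * Complex.I)‖ ^ (2 * l) *
    ‖aeval (Complex.exp (θ * Complex.I)) P‖ ^ 2

/-- The infimum of `J l P` over monic integer polynomials `P`. -/
noncomputable def Iinf (l : ℝ) : ℝ := sInf {t : ℝ | ∃ P : ℤ[X], P.Monic ∧ t = J l P}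

/-- `W l = ∫_{-π}^{π} |1 - e^{iθ}|^{2 l} dθ`. -/
noncomputable def W (l : ℝ) : ℝ :=
  ∫ θ in (-π)..π, ‖1 - Complex.exp (θ * Complex.I)‖ ^ (2 * l)

end Pool.Agent.H97.Wgt
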