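import Pool.Agent.H97.Wgt1
import Pool.Agent.H97.WgtDefs

namespace Pool.Agent.H97.Wgt

open Real MeasureTheory Filter Topology Polynomial

noncomputable def E (θ : ℝ) : ℂ := Complex.exp (θ * Complex.I)

lemma E_cont : Continuous E := by
  unfold E
  fun_prop

noncomputable def nrm (R : ℤ[X]) : ℤ := ∑ i ∈ R.support, R.coeff i ^ 2

lemma aeval_cont (R : ℤ[X]) : Continuous fun θ => aeval (E θ) R := by
  have : (fun θ => aeval (E θ) R) = fun θ => (R.map (Int.castRingHom ℂ)).eval (E θ) := by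
    funext θ
    rw [eval_map, aeval_def, algebraMap_int_eq]
  rw [this]
  exact (Polynomial.continuous _).comp E_cont

lemma parseval (R : ℤ[X]) :
    ∫ θ in (-π)..π, ‖aeval (E θ) R‖ ^ 2 = 2 * π * (nrm R : ℝ) := by
  have h := (R.map (Int.castRingHom ℂ)).sum_sq_norm_coeff_eq_circleAverage
  rw [support_map_of_injective _ (Int.cast_injective), Real.circleAverage_def] at h
  have e1 : ∑ i ∈ R.support, ‖(R.map (Int.castRingHom ℂ)).coeff i‖ ^ 2 = (nrm R : ℝ) := by
    unfold nrm
    push_cast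
    refine Finset.sum_congr rfl fun i _ => ?_
    rw [coeff_map]
    simp
  have e2 : ∀ θ : ℝ, (R.map (Int.castRingHom ℂ)).eval (circleMap 0 1 θ) = aeval (E θ) R := by
    intro θ
    rw [eval_map, aeval_def, algebraMap_int_eq]
    simp [circleMap, E]
  simp only [e2] at h
  rw [e1] at h
  have hp : Function.Periodic (fun θ : ℝ => ‖aeval (E θ) R‖ ^ 2) (2 * π) := by
    intro θ
    have : E (θ + 2 * π) = E θ := by
      unfold E
      push_cast
      rw [add_mul, Complex.exp_add, Complex.exp_two_pi_mul_I, mul_one]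
    simp only [this]
  have h2 := hp.intervalIntegral_add_eq (-π) 0
  rw [show -π + 2 * π = π by ring, zero_add] at h2
  rw [h2, h, smul_eq_mul, ← mul_assoc, mul_inv_cancel₀ (by positivity), one_mul]

lemma norm_one_sub (k : ℕ) (θ : ℝ) : ‖1 - E θ ^ k‖ ^ 2 = 2 - 2 * cos (k * θ) := by
  have : E θ ^ k = Complex.exp (((k * θ : ℝ) : ℂ) * Complex.I) := by
    unfold E
    rw [← Complex.exp_nat_mul]
    congr 1
    push_cast
    ring
  rw [this, Complex.sq_norm, Complex.normSq_apply]
  simp only [Complex.sub_re, Complex.one_re, Complex.exp_ofReal_mul_I_re, Complex.sub_im,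
    Complex.one_im, Complex.exp_ofReal_mul_I_im]
  have := sin_sq_add_cos_sq (k * θ)
  linarith

lemma int_cos (k : ℕ) (Q : ℤ[X]) :
    ∫ θ in (-π)..π, (1 - cos (k * θ)) * ‖aeval (E θ) Q‖ ^ 2 = π * (nrm ((1 - X ^ k) * Q) : ℝ) := by
  have h := parseval ((1 - X ^ k) * Q)
  have e : (fun θ => ‖aeval (E θ) ((1 - X ^ k) * Q)‖ ^ 2) =
      fun θ => 2 * ((1 - cos (k * θ)) * ‖aeval (E θ) Q‖ ^ 2) := by
    funext θ
    simp only [map_mul, map_sub, map_one, map_pow, aeval_X]
    rw [norm_mul, mul_pow, norm_one_sub]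
    ring
  rw [e, intervalIntegral.integral_const_mul] at h
  linarith

lemma int_cos0 (k : ℕ) (hk : 0 < k) : ∫ θ in (-π)..π, cos (k * θ) = 0 := by
  have hk' : (k : ℝ) ≠ 0 := by positivity
  rw [intervalIntegral.integral_comp_mul_left (fun x => cos x) hk', integral_cos]
  simp [sin_nat_mul_pi]

lemma int_cos1 (k : ℕ) (M c : ℝ) :
    ∫ θ in (-π)..π, (1 - cos (((k + 1 : ℕ) : ℝ) * θ)) * (M + c * cos θ) =
      2 * π * M - if k = 0 then c * π else 0 := by
  have e : (fun θ : ℝ => (1 - cos (((k + 1 : ℕ) : ℝ) * θ)) * (M + c * cos θ)) = fun θ : ℝ =>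
      M + (c * cos (((1 : ℕ) : ℝ) * θ) + (-M * cos (((k + 1 : ℕ) : ℝ) * θ) +
        (-(c / 2) * cos (((k + 2 : ℕ) : ℝ) * θ) + -(c / 2) * cos ((k : ℝ) * θ)))) := by
    funext θ
    have c1 : cos (((k + 2 : ℕ) : ℝ) * θ) = cos (((k + 1 : ℕ) : ℝ) * θ + θ) := by
      congr 1; push_cast; ring
    have c2 : cos ((k : ℝ) * θ) = cos (((k + 1 : ℕ) : ℝ) * θ - θ) := by
      congr 1; push_cast; ring
    rw [c1, c2, cos_add, cos_sub, Nat.cast_one, one_mul]
    ring
  have hi : ∀ (a : ℝ) (n : ℕ), IntervalIntegrable (fun θ : ℝ => a * cos ((n : ℝ) * θ)) volume (-π) π :=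
    fun a n => Continuous.intervalIntegrable (by fun_prop) _ _
  rw [e, intervalIntegral.integral_add intervalIntegrable_const
      ((hi _ _).add ((hi _ _).add ((hi _ _).add (hi _ _)))),
    intervalIntegral.integral_add (hi _ _) ((hi _ _).add ((hi _ _).add (hi _ _))),
    intervalIntegral.integral_add (hi _ _) ((hi _ _).add (hi _ _)),
    intervalIntegral.integral_add (hi _ _) (hi _ _)]
  simp only [intervalIntegral.integral_const_mul]
  rw [int_cos0 1 one_pos, int_cos0 (k + 1) (Nat.succ_pos _), int_cos0 (k + 2) (Nat.succ_pos _)]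
  split_ifs with h
  · subst h
    simp
    ring
  · rw [int_cos0 k (Nat.pos_of_ne_zero h), intervalIntegral.integral_const, smul_eq_mul]
    ring

noncomputable def w (μ θ : ℝ) : ℝ := ‖1 - E θ‖ ^ (2 * μ)

lemma w_cont (μ : ℝ) (h : 0 ≤ μ) : Continuous (w μ) := by
  unfold w
  exact Continuous.rpow_const (continuous_const.sub E_cont).norm fun _ => Or.inr (by positivity)

lemma w_eq (μ θ : ℝ) : w μ θ = 4 ^ μ * (1 - (1 + cos θ) / 2) ^ μ := by
  unfold w
  have h := norm_one_sub 1 θ
  rw [pow_one, Nat.cast_one, one_mul] at h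
  have hc := cos_le_one θ
  rw [Real.rpow_mul (norm_nonneg _), ← Real.mul_rpow (by norm_num) (by linarith)]
  congr 1
  rw [Real.rpow_two, h]
  ring

lemma lower (μ : ℝ) (h0 : 0 < μ) (h1 : μ ≤ 1) (Q : ℤ[X]) (M c : ℤ)
    (h : ∀ K : ℕ, -c ≤ ∑ k ∈ Finset.range (K + 1), (nrm ((1 - X ^ (k + 1)) * Q) - 2 * M)) :
    ∫ θ in (-π)..π, w μ θ * (M + c * cos θ) ≤ ∫ θ in (-π)..π, w μ θ * ‖aeval (E θ) Q‖ ^ 2 := by
  have hq := aeval_cont Q
  set g : ℝ → ℝ := fun θ => ‖aeval (E θ) Q‖ ^ 2 - (M + c * cos θ) with hg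
  have hgc : Continuous g := by
    simp only [hg]
    fun_prop
  have hk : ∀ k : ℕ, ∫ θ in (-π)..π, (1 - cos (((k + 1 : ℕ) : ℝ) * θ)) * g θ =
      π * ((nrm ((1 - X ^ (k + 1)) * Q) - 2 * M : ℤ) : ℝ) + if k = 0 then c * π else 0 := by
    intro k
    simp only [hg, mul_sub (1 - cos (((k + 1 : ℕ) : ℝ) * _))]
    rw [intervalIntegral.integral_sub (Continuous.intervalIntegrable (by fun_prop) _ _)
      (Continuous.intervalIntegrable (by fun_prop) _ _), int_cos, int_cos1]
    push_cast
    ring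
  have hD : ∀ K : ℕ, 0 ≤ ∫ θ in (-π)..π, (2 * K + 1 - D K θ) * g θ := by
    intro K
    have e : (fun θ : ℝ => (2 * K + 1 - D K θ) * g θ) = fun θ : ℝ =>
        2 * ∑ k ∈ Finset.range K, (1 - cos (((k + 1 : ℕ) : ℝ) * θ)) * g θ := by
      funext θ
      rw [← Finset.sum_mul, Finset.sum_sub_distrib]
      simp only [D, Finset.sum_const, Finset.card_range, nsmul_eq_mul]
      ring
    rw [e, intervalIntegral.integral_const_mul, intervalIntegral.integral_finsetSum
      (fun k _ => Continuous.intervalIntegrable (by fun_prop) _ _)]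
    simp only [hk]
    cases K with
    | zero => simp
    | succ K =>
      have h2 : ((-c : ℤ) : ℝ) ≤ ((∑ k ∈ Finset.range (K + 1),
        (nrm ((1 - X ^ (k + 1)) * Q) - 2 * M) : ℤ) : ℝ) := Int.cast_le.mpr (h K)
      rw [Finset.sum_add_distrib, ← Finset.mul_sum, Finset.sum_ite_eq', if_pos (by simp),
        ← Int.cast_sum]
      have h3 := mul_le_mul_of_nonneg_left h2 pi_pos.le
      rw [Int.cast_neg] at h3
      linarith
  have hy := rpow_pos g hgc (fun θ => (1 + cos θ) / 2) (by fun_prop)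
    (fun θ => by
      have := cos_le_one θ
      have := neg_one_le_cos θ
      rw [abs_le]
      constructor <;> linarith)
    (fun n => by
      have := cos_pow g hgc hD n 0
      simpa [D] using this) μ h0 h1
  have hw := w_cont μ h0.le
  rw [← sub_nonneg, ← intervalIntegral.integral_sub (Continuous.intervalIntegrable (by fun_prop) _ _)
      (Continuous.intervalIntegrable (by fun_prop) _ _)]
  have e : (fun θ => w μ θ * ‖aeval (E θ) Q‖ ^ 2 - w μ θ * (M + c * cos θ)) =
      fun θ => 4 ^ μ * ((1 - (1 + cos θ) / 2) ^ μ * g θ) := by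
    funext θ
    rw [w_eq]
    simp only [hg]
    ring
  rw [e, intervalIntegral.integral_const_mul]
  positivity

lemma RL (f : ℝ → ℝ) (hf : Continuous f) :
    Tendsto (fun k : ℕ => ∫ θ in (-π)..π, f θ * cos (k * θ)) atTop (𝓝 0) := by
  have h := Real.tendsto_integral_exp_smul_cocompact
    (Set.indicator (Set.Ioc (-π) π) fun θ => (f θ : ℂ))
  have h1 : Tendsto (fun k : ℕ => (k : ℝ) / (2 * π)) atTop (cocompact ℝ) := by
    refine Tendsto.mono_right ?_ atTop_le_cocompact
    exact tendsto_natCast_atTop_atTop.atTop_div_const (by positivity)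
  have h2 := (Complex.continuous_re.tendsto 0).comp (h.comp h1)
  rw [Complex.zero_re] at h2
  refine h2.congr fun k => ?_
  simp only [Function.comp_def]
  have e : (fun v : ℝ => Real.fourierChar (-(v * ((k : ℝ) / (2 * π)))) •
      Set.indicator (Set.Ioc (-π) π) (fun θ => (f θ : ℂ)) v) =
      Set.indicator (Set.Ioc (-π) π)
        (fun v => Complex.exp (((-(k * v) : ℝ) : ℂ) * Complex.I) * (f v : ℂ)) := by
    funext v
    by_cases hv : v ∈ Set.Ioc (-π) π
    · rw [Set.indicator_of_mem hv, Set.indicator_of_mem hv, Circle.smul_def, Real.fourierChar_apply,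
        smul_eq_mul]
      congr 3
      rw [Complex.ofReal_inj]
      field_simp
    · rw [Set.indicator_of_notMem hv, Set.indicator_of_notMem hv, smul_zero]
  rw [e, integral_indicator measurableSet_Ioc,
    ← intervalIntegral.integral_of_le (by linarith [pi_pos])]
  have hi : IntervalIntegrable
      (fun v : ℝ => Complex.exp (((-(k * v) : ℝ) : ℂ) * Complex.I) * (f v : ℂ)) volume (-π) π :=
    Continuous.intervalIntegrable (by fun_prop) _ _
  have := Complex.reCLM.intervalIntegral_comp_comm hi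
  simp only [Complex.reCLM_apply] at this
  rw [← this]
  refine intervalIntegral.integral_congr fun v _ => ?_
  simp only [Complex.mul_re, Complex.exp_ofReal_mul_I_re, Complex.ofReal_re, Complex.ofReal_im,
    cos_neg]
  ring

end Pool.Agent.H97.Wgt
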