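import Pool.Agent.H97.Wgt2

namespace Pool.Agent.H97.Wgt

open Polynomial

noncomputable def S (A : Multiset ℕ) : ℤ[X] := (A.map fun a => (X : ℤ[X]) ^ a).sum

lemma S_cons (a : ℕ) (A : Multiset ℕ) : S (a ::ₘ A) = X ^ a + S A := by simp [S]

lemma coeff_S (A : Multiset ℕ) (i : ℕ) : (S A).coeff i = A.count i := by
  induction A using Multiset.induction_on with
  | empty => simp [S]
  | cons a A ih =>
    rw [S_cons, coeff_add, ih, coeff_X_pow, Multiset.count_cons]
    split_ifs <;> simp [add_comm]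

lemma ev0 (A : Multiset ℕ) : (S A).eval 1 = A.card := by
  induction A using Multiset.induction_on with
  | empty => simp [S]
  | cons a A ih => rw [S_cons, eval_add, ih]; simp [add_comm]

lemma ev1 (A : Multiset ℕ) : (derivative (S A)).eval 1 = A.sum := by
  induction A using Multiset.induction_on with
  | empty => simp [S]
  | cons a A ih => rw [S_cons, derivative_add, eval_add, ih]; simp [derivative_X_pow]

lemma evX2 (a : ℕ) : (derivative (derivative ((X : ℤ[X]) ^ a))).eval 1 = (a : ℤ) * (a - 1) := by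
  cases a with
  | zero => simp
  | succ a => simp [derivative_mul, derivative_X_pow]

lemma nrm_eq (R : ℤ[X]) (T : Finset ℕ) (h : R.support ⊆ T) : nrm R = ∑ i ∈ T, R.coeff i ^ 2 := by
  unfold nrm
  refine Finset.sum_subset h fun i _ hi => ?_
  rw [notMem_support_iff.mp hi]
  simp

lemma nrm_ge (R : ℤ[X]) (T : Finset ℕ) : ∑ i ∈ T, R.coeff i ^ 2 ≤ nrm R := by
  rw [nrm_eq R (R.support ∪ T) Finset.subset_union_left]
  exact Finset.sum_le_sum_of_subset_of_nonneg Finset.subset_union_right fun _ _ _ => sq_nonneg _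

lemma nrm_neg (R : ℤ[X]) : nrm (-R) = nrm R := by simp [nrm]

lemma cnt0 {A B : Multiset ℕ} (hd : ∀ i ∈ A, i ∉ B) (i : ℕ) : A.count i = 0 ∨ B.count i = 0 := by
  by_cases h : i ∈ A
  · exact Or.inr (Multiset.count_eq_zero.mpr (hd i h))
  · exact Or.inl (Multiset.count_eq_zero.mpr h)

lemma card_le (A B : Multiset ℕ) (hd : ∀ i ∈ A, i ∉ B) :
    (A.card : ℤ) + B.card ≤ nrm (S A - S B) := by
  refine le_trans ?_ (nrm_ge _ (A + B).toFinset)
  have h := Multiset.toFinset_sum_count_eq (A + B)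
  rw [Multiset.card_add] at h
  have h2 : (A.card : ℤ) + B.card = ∑ i ∈ (A + B).toFinset, (((A + B).count i : ℕ) : ℤ) := by
    exact_mod_cast h.symm
  rw [h2]
  refine Finset.sum_le_sum fun i _ => ?_
  rw [coeff_sub, coeff_S, coeff_S, Multiset.count_add]
  rcases cnt0 hd i with h | h <;> rw [h]
  · simp only [zero_add, Nat.cast_zero, zero_sub, even_two, Even.neg_pow]
    exact_mod_cast Nat.le_self_pow two_ne_zero _
  · simp only [add_zero, Nat.cast_zero, sub_zero]
    exact_mod_cast Nat.le_self_pow two_ne_zero _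

lemma decomp (R : ℤ[X]) : ∃ A B : Multiset ℕ, (∀ i ∈ A, i ∉ B) ∧ R = S A - S B := by
  have key : ∀ f : ℕ → ℤ, (∀ i, i ∉ R.support → f i = 0) → ∀ i,
      (∑ j ∈ R.support, Multiset.replicate (f j).toNat j).count i = (f i).toNat := by
    intro f hf i
    rw [Multiset.count_sum']
    simp only [Multiset.count_replicate]
    rw [Finset.sum_ite_eq']
    split_ifs with h
    · rfl
    · rw [hf i h]; rfl
  have h1 := key (fun i => R.coeff i) fun i hi => notMem_support_iff.mp hi
  have h2 := key (fun i => -R.coeff i) fun i hi => by simp [notMem_support_iff.mp hi]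
  refine ⟨∑ j ∈ R.support, Multiset.replicate (R.coeff j).toNat j,
    ∑ j ∈ R.support, Multiset.replicate (-R.coeff j).toNat j, fun i hi hi' => ?_, ?_⟩
  · rw [← Multiset.count_pos, h1] at hi
    rw [← Multiset.count_pos, h2] at hi'
    omega
  · ext i
    rw [coeff_sub, coeff_S, coeff_S, h1, h2]
    omega

lemma eq2 (R : ℤ[X]) (h : R ≠ 0) (h0 : R.eval 1 = 0) :
    2 ≤ nrm R ∧ (nrm R < 4 → ∃ a b : ℕ, a ≠ b ∧ R = X ^ a - X ^ b) := by
  obtain ⟨A, B, hd, rfl⟩ := decomp R
  have hc := card_le A B hd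
  rw [eval_sub, ev0, ev0] at h0
  have hA : A.card ≠ 0 := by
    intro hA
    have hB : B.card = 0 := by omega
    rw [Multiset.card_eq_zero] at hA hB
    subst hA hB
    simp at h
  refine ⟨by omega, fun h4 => ?_⟩
  obtain ⟨a, rfl⟩ := Multiset.card_eq_one.mp (show A.card = 1 by omega)
  obtain ⟨b, rfl⟩ := Multiset.card_eq_one.mp (show B.card = 1 by omega)
  exact ⟨a, b, by simpa using hd, by simp [S]⟩

lemma ge4 (R : ℤ[X]) (h : R ≠ 0) (h0 : R.eval 1 = 0) (h1 : (derivative R).eval 1 = 0) :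
    4 ≤ nrm R := by
  by_contra h4
  obtain ⟨a, b, hab, rfl⟩ := (eq2 R h h0).2 (by omega)
  simp [derivative_X_pow] at h1
  omega

lemma ge6 (R : ℤ[X]) (h : R ≠ 0) (h0 : R.eval 1 = 0) (h1 : (derivative R).eval 1 = 0)
    (h2 : (derivative (derivative R)).eval 1 = 0) : 6 ≤ nrm R := by
  have h4 := ge4 R h h0 h1
  by_contra h6
  obtain ⟨A, B, hd, rfl⟩ := decomp R
  have hc := card_le A B hd
  rw [eval_sub, ev0, ev0] at h0
  rw [derivative_sub, eval_sub, ev1, ev1] at h1
  rcases (show A.card = 0 ∨ A.card = 1 ∨ A.card = 2 by omega) with hA | hA | hA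
  · have hB : B.card = 0 := by omega
    rw [Multiset.card_eq_zero] at hA hB
    subst hA hB
    simp at h
  · obtain ⟨a, rfl⟩ := Multiset.card_eq_one.mp hA
    obtain ⟨b, rfl⟩ := Multiset.card_eq_one.mp (show B.card = 1 by omega)
    simp at h1 hd
    omega
  · obtain ⟨a1, a2, rfl⟩ := Multiset.card_eq_two.mp hA
    obtain ⟨b1, b2, rfl⟩ := Multiset.card_eq_two.mp (show B.card = 2 by omega)
    have e : ∀ a b : ℕ, S {a, b} = X ^ a + X ^ b := fun a b => by simp [S]
    rw [e, e] at h2
    simp only [derivative_sub, derivative_add, eval_sub, eval_add, evX2] at h2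
    simp at h1 hd
    have h3 : (2 : ℤ) * ((a1 - b1) * (a1 - b2)) = 0 := by
      linear_combination h2 + ((a1 : ℤ) - a2 - b1 - b2 + 1) * h1
    have h5 := (mul_eq_zero.mp h3).resolve_left two_ne_zero
    rcases mul_eq_zero.mp h5 with h | h <;> omega

noncomputable def N (k : ℕ) (R : ℤ[X]) : ℤ := nrm ((1 - X ^ k) * R)

lemma ne0 (k : ℕ) (hk : 0 < k) : (1 - X ^ k : ℤ[X]) ≠ 0 := by
  intro h
  have := congrArg (eval 0) h
  simp [hk.ne'] at this

lemma N_ge2 (k : ℕ) (hk : 0 < k) (R : ℤ[X]) (h : R ≠ 0) : 2 ≤ N k R :=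
  (eq2 _ (mul_ne_zero (ne0 k hk) h) (by simp)).1

lemma N_ge4 (k : ℕ) (hk : 0 < k) (R : ℤ[X]) (h : R ≠ 0) (h0 : R.eval 1 = 0) : 4 ≤ N k R :=
  ge4 _ (mul_ne_zero (ne0 k hk) h) (by simp) (by simp [derivative_mul, h0])

lemma N_ge6 (k : ℕ) (hk : 0 < k) (R : ℤ[X]) (h : R ≠ 0) (h0 : R.eval 1 = 0)
    (h1 : (derivative R).eval 1 = 0) : 6 ≤ N k R :=
  ge6 _ (mul_ne_zero (ne0 k hk) h) (by simp) (by simp [derivative_mul, h0])
    (by simp [derivative_mul, h0, h1])

lemma N_swap (k : ℕ) (U V : ℤ[X]) : N k (V - U) = N k (U - V) := by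
  unfold N
  rw [← nrm_neg]
  congr 1
  ring

lemma coeff_N (k : ℕ) (R : ℤ[X]) (i : ℕ) :
    ((1 - X ^ k) * R).coeff i = R.coeff i - if k ≤ i then R.coeff (i - k) else 0 := by
  rw [sub_mul, one_mul, coeff_sub, coeff_X_pow_mul']

lemma split (k : ℕ) (A B : Multiset ℕ) (hd : ∀ i ∈ A, i ∉ B) :
    N k (S A) + N k (S B) ≤ N k (S A - S B) := by
  unfold N
  set T := ((1 - X ^ k) * S A).support ∪ ((1 - X ^ k) * S B).support
  refine le_trans ?_ (nrm_ge _ T)
  rw [nrm_eq _ T Finset.subset_union_left, nrm_eq _ T Finset.subset_union_right,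
    ← Finset.sum_add_distrib]
  refine Finset.sum_le_sum fun i _ => ?_
  simp only [coeff_N, coeff_sub, coeff_S]
  have h1 : (A.count i : ℤ) * B.count i = 0 := by
    rcases cnt0 hd i with h | h <;> simp [h]
  have h2 : (A.count (i - k) : ℤ) * B.count (i - k) = 0 := by
    rcases cnt0 hd (i - k) with h | h <;> simp [h]
  have h3 : (0 : ℤ) ≤ (A.count i : ℤ) * B.count (i - k) := by positivity
  have h4 : (0 : ℤ) ≤ (A.count (i - k) : ℤ) * B.count i := by positivity
  split_ifs
  · linarith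
  · linarith

lemma S_ne (A : Multiset ℕ) (h : 1 ≤ A.card) : S A ≠ 0 := by
  intro h0
  have := ev0 A
  rw [h0] at this
  simp at this
  omega

lemma run (l : ℕ) (hl : 0 < l) (A : Multiset ℕ) (hA : 1 ≤ A.card) (h : N l (S A) < 4) :
    ∃ c : ℕ, S A = ∑ j ∈ Finset.range A.card, X ^ (c + l * j) := by
  obtain ⟨a, b, -, hab⟩ := (eq2 _ (mul_ne_zero (ne0 l hl) (S_ne A hA)) (by simp)).2 h
  have h1 := congrArg (fun p => (derivative p).eval 1) hab
  simp [derivative_mul, derivative_X_pow, ev0] at h1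
  have hb : b = a + l * A.card := by
    have : (b : ℤ) = a + l * A.card := by linarith
    exact_mod_cast this
  refine ⟨a, mul_left_cancel₀ (ne0 l hl) ?_⟩
  rw [hab, hb]
  have := mul_neg_geom_sum ((X : ℤ[X]) ^ l) A.card
  simp only [pow_add, pow_mul]
  rw [← Finset.mul_sum]
  linear_combination (-X ^ a) * this

lemma run_big (k l c s : ℕ) (hk : 0 < k) (hl : k < l) :
    2 * (s : ℤ) ≤ N k (∑ j ∈ Finset.range s, X ^ (c + l * j)) := by
  have h := card_le ((Finset.range s).val.map fun j => c + l * j)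
    ((Finset.range s).val.map fun j => c + l * j + k) (by
      intro i hi hi'
      simp only [Multiset.mem_map] at hi hi'
      obtain ⟨j, -, rfl⟩ := hi
      obtain ⟨j', -, hj⟩ := hi'
      have h1 : l * j' + k = l * j := by omega
      have h2 : l ∣ k := (Nat.dvd_add_right (Dvd.intro _ rfl)).mp (h1 ▸ Dvd.intro _ rfl)
      exact absurd (Nat.le_of_dvd hk h2) (by omega))
  simp only [Multiset.card_map, Finset.card_val, Finset.card_range] at h
  have e : (1 - X ^ k) * (∑ j ∈ Finset.range s, (X : ℤ[X]) ^ (c + l * j)) =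
      S ((Finset.range s).val.map fun j => c + l * j) -
        S ((Finset.range s).val.map fun j => c + l * j + k) := by
    simp only [S, Multiset.map_map, Function.comp_def]
    rw [sub_mul, one_mul, Finset.mul_sum]
    congr 1
    refine Finset.sum_congr rfl fun j _ => ?_
    rw [← pow_add, add_comm]
  unfold N
  rw [e]
  linarith

lemma uniq (k l : ℕ) (hk : 0 < k) (hl : k < l) (A : Multiset ℕ) (hA : 2 ≤ A.card)
    (h1 : N k (S A) < 4) (h2 : N l (S A) < 4) : False := by
  obtain ⟨c, hc⟩ := run l (by omega) A (by omega) h2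
  have := run_big k l c A.card hk hl
  rw [← hc] at this
  omega

lemma ten (c j k : ℕ) (hj : 0 < j) (hk : 0 < k) :
    10 ≤ nrm (-X ^ c + X ^ (c + j) + X ^ (c + j) - X ^ (c + 2 * j) + X ^ (c + j + k) -
        X ^ (c + 2 * j + k) - X ^ (c + 2 * j + k) + X ^ (c + 3 * j + k)) := by
  refine le_trans ?_ (nrm_ge _ {c, c + j, c + 2 * j + k, c + 3 * j + k})
  rw [Finset.sum_insert (by simp; omega), Finset.sum_insert (by simp; omega),
    Finset.sum_insert (by simp; omega), Finset.sum_singleton]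
  have z : ∀ a b : ℕ, a ≠ b → ((X : ℤ[X]) ^ b).coeff a = 0 := fun a b h => by
    rw [coeff_X_pow, if_neg h]
  simp only [coeff_add, coeff_sub, coeff_neg, coeff_X_pow_self]
  rw [z c (c + j) (by omega), z c (c + 2 * j) (by omega), z c (c + j + k) (by omega),
    z c (c + 2 * j + k) (by omega), z c (c + 3 * j + k) (by omega),
    z (c + j) c (by omega), z (c + j) (c + 2 * j) (by omega), z (c + j) (c + j + k) (by omega),
    z (c + j) (c + 2 * j + k) (by omega), z (c + j) (c + 3 * j + k) (by omega),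
    z (c + 2 * j + k) c (by omega), z (c + 2 * j + k) (c + j) (by omega),
    z (c + 2 * j + k) (c + 2 * j) (by omega), z (c + 2 * j + k) (c + j + k) (by omega),
    z (c + 2 * j + k) (c + 3 * j + k) (by omega),
    z (c + 3 * j + k) c (by omega), z (c + 3 * j + k) (c + j) (by omega),
    z (c + 3 * j + k) (c + 2 * j) (by omega), z (c + 3 * j + k) (c + j + k) (by omega),
    z (c + 3 * j + k) (c + 2 * j + k) (by omega)]
  norm_num

lemma pairA (A B : Multiset ℕ) (hd : ∀ i ∈ A, i ∉ B) (hc : A.card = B.card) (hA : 2 ≤ A.card)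
    (hs : A.sum = B.sum) (k l : ℕ) (hk : 0 < k) (hl : k < l) (h2 : N l (S B) < 4)
    (h1 : N k (S A - S B) < 8) : ∃ j, 0 < j ∧ j < l ∧ 10 ≤ N j (S A - S B) := by
  obtain ⟨c, hB⟩ := run l (by omega) B (by omega) h2
  have hb := run_big k l c B.card hk hl
  rw [← hB] at hb
  have h3 := N_ge2 k hk _ (S_ne A (by omega))
  have h4 := split k A B hd
  have hB2 : B.card = 2 := by omega
  obtain ⟨a, hA'⟩ := run k hk A (by omega) (by omega)
  rw [hc, hB2] at hA'
  rw [hB2] at hB
  simp only [Finset.sum_range_succ, Finset.sum_range_zero, zero_add, mul_zero, add_zero,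
    mul_one] at hA' hB
  have e1 := ev1 A
  have e2 := ev1 B
  rw [hA'] at e1
  rw [hB] at e2
  simp [derivative_X_pow] at e1 e2
  have e3 : ((A.sum : ℕ) : ℤ) = (B.sum : ℕ) := by rw [hs]
  simp only [Nat.cast_multiset_sum] at e3
  obtain ⟨j, rfl⟩ : ∃ j, a = c + j := ⟨a - c, by omega⟩
  obtain rfl : l = k + 2 * j := by omega
  have hj : 0 < j := by omega
  refine ⟨j, hj, by omega, ?_⟩
  rw [hA', hB]
  have e : (1 - X ^ j) * ((X : ℤ[X]) ^ (c + j) + X ^ (c + j + k) - (X ^ c + X ^ (c + (k + 2 * j)))) =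
      -X ^ c + X ^ (c + j) + X ^ (c + j) - X ^ (c + 2 * j) + X ^ (c + j + k) -
        X ^ (c + 2 * j + k) - X ^ (c + 2 * j + k) + X ^ (c + 3 * j + k) := by ring
  unfold N
  rw [e]
  exact ten c j k hj hk

lemma main3 (Q : ℤ[X]) (h : Q ≠ 0) (h0 : Q.eval 1 = 0) (h1 : (derivative Q).eval 1 = 0) (K : ℕ) :
    -2 ≤ ∑ k ∈ Finset.range (K + 1), (N (k + 1) Q - 2 * 4) := by
  have h6 : ∀ k, 6 ≤ N (k + 1) Q := fun k => N_ge6 _ (Nat.succ_pos _) Q h h0 h1
  obtain ⟨A, B, hd, rfl⟩ := decomp Q
  have hd' : ∀ i ∈ B, i ∉ A := fun i hi hi' => hd i hi' hi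
  rw [eval_sub, ev0, ev0] at h0
  rw [derivative_sub, eval_sub, ev1, ev1] at h1
  have hc : A.card = B.card := by omega
  have hs : A.sum = B.sum := by omega
  have hA : 2 ≤ A.card := by
    by_contra hA
    rcases (show A.card = 0 ∨ A.card = 1 by omega) with hA | hA
    · have hB : B.card = 0 := by omega
      rw [Multiset.card_eq_zero] at hA hB
      subst hA hB
      simp at h
    · obtain ⟨a, rfl⟩ := Multiset.card_eq_one.mp hA
      obtain ⟨b, rfl⟩ := Multiset.card_eq_one.mp (show B.card = 1 by omega)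
      simp at hs hd
      omega
  have loss : ∀ k, N (k + 1) (S A - S B) < 8 → N (k + 1) (S A) < 4 ∨ N (k + 1) (S B) < 4 := by
    intro k hk
    have := split (k + 1) A B hd
    omega
  have un : ∀ (C : Multiset ℕ), 2 ≤ C.card → ∀ k l, N (k + 1) (S C) < 4 → N (l + 1) (S C) < 4 →
      k = l := by
    intro C hC k l a b
    by_contra hne
    rcases lt_or_gt_of_ne hne with h | h
    · exact uniq (k + 1) (l + 1) (by omega) (by omega) C hC a b
    · exact uniq (l + 1) (k + 1) (by omega) (by omega) C hC b a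
  have uA := un A hA
  have uB := un B (by omega)
  by_cases c2 : ∃ k l, k < l ∧ l < K + 1 ∧ N (k + 1) (S A - S B) < 8 ∧ N (l + 1) (S A - S B) < 8
  · obtain ⟨k, l, hkl, hl, a, b⟩ := c2
    have hj : ∃ j, 0 < j ∧ j < l + 1 ∧ 10 ≤ N j (S A - S B) := by
      rcases loss l b with h | h
      · obtain ⟨j, p, q, r⟩ := pairA B A hd' hc.symm (by omega) hs.symm (k + 1) (l + 1)
          (by omega) (by omega) h (by rw [N_swap]; exact a)
        exact ⟨j, p, q, by rw [N_swap]; exact r⟩
      · exact pairA A B hd hc hA hs (k + 1) (l + 1) (by omega) (by omega) h a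
    obtain ⟨j, p, q, r⟩ := hj
    obtain ⟨j, rfl⟩ : ∃ j', j = j' + 1 := ⟨j - 1, by omega⟩
    have hle : ∑ i ∈ Finset.range (K + 1), ((if i = k then (-2 : ℤ) else 0) +
        (if i = l then (-2 : ℤ) else 0) + (if i = j then (2 : ℤ) else 0)) ≤
        ∑ i ∈ Finset.range (K + 1), (N (i + 1) (S A - S B) - 2 * 4) := by
      refine Finset.sum_le_sum fun i _ => ?_
      have hi6 := h6 i
      have hi : N (i + 1) (S A - S B) < 8 → i = k ∨ i = l := by
        intro hi
        have x1 := uA i k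
        have x2 := uA i l
        have x3 := uA k l
        have x4 := uB i k
        have x5 := uB i l
        have x6 := uB k l
        have y1 := loss i hi
        have y2 := loss k a
        have y3 := loss l b
        omega
      by_cases hij : i = j
      · subst hij
        split_ifs <;> omega
      · split_ifs <;> omega
    simp only [Finset.sum_add_distrib, Finset.sum_ite_eq', Finset.mem_range] at hle
    rw [if_pos (by omega), if_pos (by omega), if_pos (by omega)] at hle
    linarith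
  · by_cases c1 : ∃ k, k < K + 1 ∧ N (k + 1) (S A - S B) < 8
    · obtain ⟨k, hk, a⟩ := c1
      have hle : ∑ i ∈ Finset.range (K + 1), (if i = k then (-2 : ℤ) else 0) ≤
          ∑ i ∈ Finset.range (K + 1), (N (i + 1) (S A - S B) - 2 * 4) := by
        refine Finset.sum_le_sum fun i hi => ?_
        have hi6 := h6 i
        rw [Finset.mem_range] at hi
        split_ifs with hik
        · omega
        · by_contra hlt
          rcases lt_or_gt_of_ne hik with h | h
          · exact c2 ⟨i, k, h, hk, by omega, a⟩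
          · exact c2 ⟨k, i, h, hi, a, by omega⟩
      simp only [Finset.sum_ite_eq', Finset.mem_range] at hle
      rw [if_pos hk] at hle
      exact hle
    · refine le_trans (by norm_num) (Finset.sum_nonneg fun i hi => ?_)
      rw [Finset.mem_range] at hi
      by_contra hlt
      exact c1 ⟨i, hi, by omega⟩

end Pool.Agent.H97.Wgt
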