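import Mathlib

namespace Pool.Agent.H97.Wk
open Polynomial Finset Filter

def BB (l : ℕ → ℝ) : Prop := (∀ k, 0 ≤ l k) ∧ ∀ K, ∑ k ∈ range K, l k ^ 2 ≤ 1

def NB (blk : ℕ → ℕ) (D : ℕ) (c : ℕ → ℂ) (C : ℝ) : Prop :=
  ∀ l, BB l → ∑ n ∈ range D, l (blk n) * ‖c n‖ ≤ C

noncomputable def Nr (blk : ℕ → ℕ) (D : ℕ) (c : ℕ → ℂ) : ℝ := sInf {C | NB blk D c C}

lemma BB.le_one {l} (h : BB l) (k) : l k ≤ 1 := by
  have := (single_le_sum (f := fun k => l k ^ 2) (fun _ _ => sq_nonneg _)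
    (self_mem_range_succ k)).trans (h.2 (k + 1))
  nlinarith [h.1 k]

lemma BB_zero : BB 0 := ⟨fun _ => le_rfl, fun K => by simp⟩

lemma NB.nonneg {blk D c C} (h : NB blk D c C) : 0 ≤ C := by simpa using h 0 BB_zero

lemma NB_Nr (blk D c) : NB blk D c (Nr blk D c) := fun l hl =>
  le_csInf ⟨∑ n ∈ range D, ‖c n‖, fun l hl => sum_le_sum fun n _ =>
    mul_le_of_le_one_left (norm_nonneg _) (hl.le_one _)⟩ fun _ hC => hC l hl

lemma Nr_le {blk D c C} (h : NB blk D c C) : Nr blk D c ≤ C :=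
  csInf_le ⟨0, fun _ h => NB.nonneg h⟩ h

lemma Nr_congr {blk blk' : ℕ → ℕ} {D} (c) (h : ∀ n < D, blk n = blk' n) :
    Nr blk D c = Nr blk' D c := by
  unfold Nr NB
  congr 1; ext C
  refine forall_congr' fun l => imp_congr_right fun _ => ?_
  rw [sum_congr rfl fun n hn => by rw [h n (mem_range.1 hn)]]

def Sm (p : ℂ[X]) (D : ℕ) (C : ℝ) : Prop :=
  ∀ (ψ : ℂ[X] →ₗ[ℂ] ℂ) (Γ : ℝ), 0 ≤ Γ → (∀ i ≤ D, ‖ψ (X ^ i)‖ ≤ Γ) → ‖ψ p‖ ≤ C * Γ

lemma exists_Sm (p : ℂ[X]) {D} (h : p.natDegree ≤ D) : ∃ C, 0 ≤ C ∧ Sm p D C := by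
  refine ⟨∑ i ∈ range (D + 1), ‖p.coeff i‖, by positivity, fun ψ Γ _ h2 => ?_⟩
  conv_lhs => rw [p.as_sum_range' (D + 1) (by omega), map_sum]
  rw [sum_mul]
  refine (norm_sum_le _ _).trans (sum_le_sum fun i hi => ?_)
  rw [← smul_X_eq_monomial, map_smul, norm_smul]
  exact mul_le_mul_of_nonneg_left (h2 i (by simpa [Nat.lt_succ_iff] using hi)) (norm_nonneg _)

lemma Sm.mono {p D C D' C'} (h : Sm p D C) (hD : D ≤ D') (hC : C ≤ C') : Sm p D' C' :=
  fun ψ Γ h1 h2 => (h ψ Γ h1 fun i hi => h2 i (hi.trans hD)).trans (by gcongr)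

lemma Sm.X_mul {p D C} (h : Sm p D C) (d : ℕ) : Sm (X ^ d * p) (d + D) C := fun ψ Γ h1 h2 =>
  h (ψ ∘ₗ LinearMap.mulLeft ℂ (X ^ d)) Γ h1 fun i hi => by
    simpa [← pow_add] using h2 (d + i) (by omega)

noncomputable def psi (h : ℕ → ℂ) : ℂ[X] →ₗ[ℂ] ℂ := (basisMonomials ℂ).constr ℂ h

lemma psi_X (h i) : psi h (X ^ i) = h i := by
  have := (basisMonomials ℂ).constr_basis ℂ h i
  rw [X_pow_eq_monomial]; rwa [coe_basisMonomials] at this

noncomputable def uu (a : ℕ) (ε : ℝ) (n : ℕ) : ℝ := ε * 3 ^ min (n - 5 * a) a * 2 ^ (n - 6 * a)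

noncomputable def ff (a : ℕ) (ε : ℝ) (p : ℂ[X]) (n : ℕ) : ℂ[X] :=
  ((uu a ε n : ℂ))⁻¹ • (X ^ n - if n ≤ 6 * a then X ^ (n - 5 * a) * p else 0)

lemma uu_pos {a ε} (h : 1 ≤ ε) (n) : 0 < uu a ε n := by unfold uu; positivity

lemma ff_degree {a ε p n} (h : 1 ≤ ε) (hp : p = 0 ∨ p.natDegree < 5 * a) (hn : 5 * a ≤ n) :
    (ff a ε p n).degree = n := by
  have : ((uu a ε n : ℂ))⁻¹ ≠ 0 := inv_ne_zero (by exact_mod_cast (uu_pos h n).ne')
  rw [ff, smul_eq_C_mul, degree_C_mul this, degree_sub_eq_left_of_degree_lt, degree_X_pow]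
  rw [degree_X_pow]
  split_ifs
  · by_cases h0 : p = 0
    · simp [h0]
    · rw [degree_mul, degree_X_pow, degree_eq_natDegree h0]
      have := hp.resolve_left h0
      exact_mod_cast (by omega : n - 5 * a + p.natDegree < n)
  · simp

structure St where
  a : ℕ
  ε : ℝ
  G : ℝ
  p : ℂ[X]
  f : ℕ → ℂ[X]
  blk : ℕ → ℕ
  g : ℕ → ℂ
  h1 : 1 ≤ ε
  h2 : 1 ≤ G
  h3 : ∀ s, ‖g s‖ ≤ G
  h4 : ∀ s, 6 * a < s → g s = 0
  h5 : ∀ n, (f n).degree = n

structure Rel (k : ℕ) (c : ℕ → ℂ) (S T : St) : Prop where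
  ra : 6 * S.a < T.a
  rp : T.p = ∑ n ∈ range (6 * S.a + 1), c n • S.f n
  re : T.ε = 3 * (1 + Nr S.blk (6 * S.a + 1) c)
  rf : ∀ n, T.f n = if n < 5 * T.a then S.f n else ff T.a T.ε T.p n
  rb : ∀ n, T.blk n = if n < 5 * T.a then S.blk n else k + 1
  rg : ∀ s, T.g s = if 3 * T.a ≤ s ∧ s ≤ 6 * T.a then
    psi (fun m => S.g (Nat.dist (m + s) (5 * T.a))) T.p else S.g s
  g1 : S.G ≤ T.G
  g2 : 2 * S.ε * 3 ^ S.a ≤ T.G
  g3 : 2 * T.ε ≤ T.G
  g4 : T.G ^ 3 * (2 / 3) ^ T.a ≤ (1 / 4) ^ (k + 1)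
  g5 : Sm T.p (6 * S.a) (T.G - 1)

lemma step (k : ℕ) (c : ℕ → ℂ) (S : St) : ∃ T, Rel k c S T := by
  set p := ∑ n ∈ range (6 * S.a + 1), c n • S.f n
  have hp : p.natDegree ≤ 6 * S.a := natDegree_sum_le_of_forall_le _ _ fun n hn =>
    (natDegree_smul_le _ _).trans (by
      rw [natDegree_eq_of_degree_eq_some (S.h5 n)]; simpa [Nat.lt_succ_iff] using hn)
  obtain ⟨C, hC0, hC⟩ := exists_Sm p hp
  set ε := 3 * (1 + Nr S.blk (6 * S.a + 1) c)
  have he : 1 ≤ ε := by have := (NB_Nr S.blk (6 * S.a + 1) c).nonneg; simp only [ε]; linarith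
  have h1 := S.h1
  have h2 := S.h2
  set G := S.G * (1 + C) + 2 * S.ε * 3 ^ S.a + 2 * ε
  have t1 : 0 ≤ 2 * S.ε * 3 ^ S.a := by positivity
  have t2 : 0 ≤ S.G * C := by positivity
  have t3 : C ≤ S.G * C := by nlinarith
  have hl : Tendsto (fun a : ℕ => G ^ 3 * (2 / 3 : ℝ) ^ a) atTop (nhds 0) := by
    simpa using (tendsto_pow_atTop_nhds_zero_of_lt_one (r := 2 / 3) (by norm_num)
      (by norm_num)).const_mul (G ^ 3)
  obtain ⟨a, ha1, ha2⟩ := ((hl.eventually (ge_mem_nhds (show (0:ℝ) < (1 / 4) ^ (k + 1) by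
    positivity))).and (eventually_gt_atTop (6 * S.a))).exists
  refine ⟨⟨a, ε, G, p, fun n => if n < 5 * a then S.f n else ff a ε p n,
    fun n => if n < 5 * a then S.blk n else k + 1, fun s => if 3 * a ≤ s ∧ s ≤ 6 * a then
    psi (fun m => S.g (Nat.dist (m + s) (5 * a))) p else S.g s, he, ?_, fun s => ?_, fun s hs => ?_,
    fun n => ?_⟩, ha2, rfl, rfl, fun _ => rfl, fun _ => rfl, fun _ => rfl, ?_, ?_, ?_, ha1,
    hC.mono le_rfl ?_⟩
  · simp only [G]; linarith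
  · split_ifs
    · refine (hC _ S.G (by linarith) fun i _ => by rw [psi_X]; exact S.h3 _).trans ?_
      simp only [G]; linarith
    · refine (S.h3 s).trans ?_; simp only [G]; linarith
  · rw [if_neg (by omega)]; exact S.h4 s (by omega)
  · split_ifs
    · exact S.h5 n
    · exact ff_degree he (Or.inr (by omega)) (by omega)
  all_goals simp only [G]; linarith

lemma stab {α : Type*} (F : ℕ → ℕ → α) (b : ℕ → ℕ) (hb : Monotone b) (hb' : ∀ n, n < b (n + 1))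
    (h : ∀ k n, n < b (k + 1) → F (k + 1) n = F k n) (k n) (hn : n < b (k + 1)) : F n n = F k n := by
  have key : ∀ k j, n < b (k + 1) → F (k + j) n = F k n := fun k j hk => by
    induction j with
    | zero => rfl
    | succ j ih => rw [← add_assoc, h _ _ (hk.trans_le (hb (by omega))), ih]
  rw [← key n k (hb' n), ← key k n hn, add_comm]

structure Spec (c : ℕ → ℕ → ℂ) where
  a : ℕ → ℕ
  ε : ℕ → ℝ
  G : ℕ → ℝ
  p : ℕ → ℂ[X]
  f : ℕ → ℂ[X]
  blk : ℕ → ℕ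
  g : ℕ → ℂ
  a0 : a 0 = 0
  e0 : ε 0 = 1
  p0 : p 0 = 0
  g0 : g 0 = 1
  ha : ∀ k, 6 * a k < a (k + 1)
  hb : ∀ k n, 5 * a k ≤ n → n < 5 * a (k + 1) → blk n = k ∧ f n = ff (a k) (ε k) (p k) n
  hd : ∀ n, (f n).degree = n
  hp : ∀ k, p (k + 1) = ∑ n ∈ range (6 * a k + 1), c k n • f n
  he : ∀ k, ε (k + 1) = 3 * (1 + Nr blk (6 * a k + 1) (c k))
  e1 : ∀ k, 1 ≤ ε k
  G1 : ∀ k, 1 ≤ G k
  Gm : Monotone G
  hg : ∀ k s, s < 3 * a (k + 1) → ‖g s‖ ≤ G k
  hw : ∀ k s, 3 * a (k + 1) ≤ s → s ≤ 6 * a (k + 1) →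
    g s = psi (fun m => g (Nat.dist (m + s) (5 * a (k + 1)))) (p (k + 1))
  g2 : ∀ k, 2 * ε k * 3 ^ a k ≤ G (k + 1)
  g3 : ∀ k, 2 * ε (k + 1) ≤ G (k + 1)
  g4 : ∀ k, G k ^ 3 * (2 / 3) ^ a k ≤ (1 / 4) ^ k
  g5 : ∀ k, Sm (p (k + 1)) (6 * a k) (G (k + 1) - 1)

theorem exists_spec (c : ℕ → ℕ → ℂ) : Nonempty (Spec c) := by
  choose F hF using step
  let S0 : St := ⟨0, 1, 1, 0, ff 0 1 0, fun _ => 0, fun s => if s = 0 then 1 else 0, le_rfl, le_rfl,
    fun s => by split_ifs <;> simp, fun s hs => if_neg (by omega),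
    fun n => ff_degree le_rfl (Or.inl rfl) (by omega)⟩
  let S : ℕ → St := fun k => Nat.rec S0 (fun k T => F k (c k) T) k
  have hS : ∀ k, Rel k (c k) (S k) (S (k + 1)) := fun k => hF k (c k) (S k)
  have am : Monotone fun k => (S k).a := monotone_nat_of_le_succ fun k => by
    have := (hS k).ra; omega
  have ak : ∀ k, k < (S (k + 1)).a := fun k => by
    induction k with
    | zero => exact (Nat.zero_le _).trans_lt (hS 0).ra
    | succ k ih => have := (hS (k + 1)).ra; omega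
  have sf := stab (fun k => (S k).f) (fun k => 5 * (S k).a) (fun _ _ h => by have := am h; simp at *; omega)
    (fun n => by have := ak n; simp; omega) fun k n hn => by simp only [(hS k).rf, if_pos hn]
  have sb := stab (fun k => (S k).blk) (fun k => 5 * (S k).a) (fun _ _ h => by have := am h; simp at *; omega)
    (fun n => by have := ak n; simp; omega) fun k n hn => by simp only [(hS k).rb, if_pos hn]
  have sg := stab (fun k => (S k).g) (fun k => 3 * (S k).a) (fun _ _ h => by have := am h; simp at *; omega)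
    (fun n => by have := ak n; simp; omega) fun k n hn => by
      rw [(hS k).rg, if_neg (by omega)]
  refine ⟨⟨fun k => (S k).a, fun k => (S k).ε, fun k => (S k).G, fun k => (S k).p,
    fun n => (S n).f n, fun n => (S n).blk n, fun n => (S n).g n, rfl, rfl, rfl, rfl,
    fun k => (hS k).ra, fun k n h1 h2 => ?_, fun n => (S n).h5 n, fun k => ?_, fun k => ?_,
    fun k => (S k).h1, fun k => (S k).h2, monotone_nat_of_le_succ fun k => (hS k).g1,
    fun k s hs => ?_, fun k s h1 h2 => ?_, fun k => (hS k).g2, fun k => (hS k).g3, fun k => ?_,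
    fun k => (hS k).g5⟩⟩
  · rw [sf k n h2, sb k n h2]
    cases k with
    | zero => exact ⟨rfl, rfl⟩
    | succ k => rw [(hS k).rf, (hS k).rb, if_neg (by omega), if_neg (by omega)]; exact ⟨rfl, rfl⟩
  · rw [(hS k).rp]
    refine sum_congr rfl fun n hn => ?_
    rw [sf k n (by have := (hS k).ra; have := mem_range.1 hn; omega)]
  · rw [(hS k).re, Nr_congr _ fun n hn => sb k n (by have := (hS k).ra; omega)]
  · rw [sg k s hs]; exact (S k).h3 s
  · rw [sg (k + 1) s (by have := (hS (k + 1)).ra; omega), (hS k).rg, if_pos ⟨h1, h2⟩]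
    have := (hS k).g5 (psi (fun m => (S k).g (Nat.dist (m + s) (5 * (S (k + 1)).a))) -
      psi fun m => (S (Nat.dist (m + s) (5 * (S (k + 1)).a))).g (Nat.dist (m + s) (5 * (S (k + 1)).a)))
      0 le_rfl fun i hi => by
        have := (hS k).ra
        rw [LinearMap.sub_apply, psi_X, psi_X, sg k _ (by unfold Nat.dist; omega)]; simp
    rw [mul_zero, norm_le_zero_iff, LinearMap.sub_apply, sub_eq_zero] at this
    exact this
  · cases k with
    | zero => simp [S, S0]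
    | succ k => exact (hS k).g4

end Pool.Agent.H97.Wk
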